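import Mathlib

section

/-!
MP_c37615, part A (topology): the abstract algebra, definitions (owner of the abstract part: helper28).
-/

set_option autoImplicit false

namespace C37A

/-- the augmentation submodule: the kernel of `V → V_G` -/
def Aug {G V : Type} [Group G] [AddCommGroup V] [Module ℝ V] (ρ : Representation ℝ G V) :
    Submodule ℝ V := Submodule.span ℝ {u | ∃ (g : G) (v : V), u = ρ g v - v}

/-- locally induced representations. For the forms with compact support take `σ w g = (g ψ) • w` with `∑_g g ψ = 1` on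
the saturation of a compact set `C` which contains the supports of the elements of `F`. -/
def LocInd {G V : Type} [Group G] [AddCommGroup V] [Module ℝ V] (ρ : Representation ℝ G V) : Prop :=
  ∀ F : Finset V, ∃ σ : V →ₗ[ℝ] (G →₀ V),
    (∀ (g : G) (v : V) (h : G), σ (ρ g v) (g * h) = ρ g (σ v h)) ∧ ∀ v ∈ F, (σ v).sum (fun _ x => x) = v

/-- the compactly supported de Rham complex of `R^{m+1}`, abstractly -/
structure Res {G : Type} [Group G] (m : ℕ) (P : ℕ → Type) [∀ k, AddCommGroup (P k)] [∀ k, Module ℝ (P k)]
    (ρ : ∀ k, Representation ℝ G (P k)) (d : ∀ k, P k →ₗ[ℝ] P (k + 1)) (ε : P (m + 1) →ₗ[ℝ] ℝ) : Prop where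
  equi : ∀ k g x, d k (ρ k g x) = ρ (k + 1) g (d k x)
  dd : ∀ k x, d (k + 1) (d k x) = 0
  ed : ∀ x, ε (d m x) = 0
  einv : ∀ g x, ε (ρ (m + 1) g x) = ε x
  esurj : ∃ x, ε x = 1
  inj : ∀ x : P 0, d 0 x = 0 → x = 0
  exact : ∀ k, k < m → ∀ x : P (k + 1), d (k + 1) x = 0 → ∃ y, d k y = x
  top : ∀ x : P (m + 1), ε x = 0 → ∃ y, d m y = x
  loc : ∀ k, k ≤ m + 1 → LocInd (ρ k)

end C37A
end

section

/-!
MP_c37615, part A (topology): definitions.
Forms on `R^m` are maps `EE m → EE m [⋀^Fin k]→L[ℝ] ℝ`; the exterior derivative is the one of Mathlib.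
-/

set_option autoImplicit false

open scoped ContDiff Topology
open MeasureTheory

namespace C37A

/-- `R^m` -/
abbrev EE (m : ℕ) := Fin m → ℝ

/-- alternating `k`-forms on the vector space `R^m` -/
abbrev Alt (m k : ℕ) := EE m [⋀^Fin k]→L[ℝ] ℝ

/-- differential `k`-forms on `R^m` (no regularity) -/
abbrev Frm (m k : ℕ) := EE m → Alt m k

/-- the standard basis vectors -/
noncomputable def ee {m : ℕ} (i : Fin m) : EE m := Pi.single i 1

/-- smooth form with compact support -/
def IsOm {m k : ℕ} (w : Frm m k) : Prop := ContDiff ℝ ∞ w ∧ HasCompactSupport w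

/-- the space of smooth `k`-forms with compact support -/
def Om (m k : ℕ) : Submodule ℝ (Frm m k) where
  carrier := {w | IsOm w}
  add_mem' := by
    intro a b ha hb
    exact ⟨ha.1.add hb.1, ha.2.add hb.2⟩
  zero_mem' := ⟨contDiff_const, HasCompactSupport.zero⟩
  smul_mem' := by
    intro c a ha
    exact ⟨contDiff_const.smul ha.1, ha.2.smul_left⟩

/-- pull back of a form by a map -/
noncomputable def pb {m k : ℕ} (f : EE m → EE m) (w : Frm m k) : Frm m k :=
  fun x => (w (f x)).compContinuousLinearMap (fderiv ℝ f x)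

/-- smooth orientation preserving proper actions on `R^m` -/
structure GoodAction (Γ : Type) [Group Γ] (m : ℕ) (act : Γ → (Fin m → ℝ) → (Fin m → ℝ)) : Prop where
  one : ∀ x, act 1 x = x
  mul : ∀ g h x, act (g * h) x = act g (act h x)
  smooth : ∀ g, ContDiff ℝ ∞ (act g)
  pos : ∀ g x, 0 < (fderiv ℝ (act g) x).det
  proper : ∀ K : Set (Fin m → ℝ), IsCompact K → {g : Γ | (act g '' K ∩ K).Nonempty}.Finite

/-- the transform of a form by a group element -/
noncomputable def tr {Γ : Type} [Group Γ] {m k : ℕ} (act : Γ → EE m → EE m) (g : Γ) (w : Frm m k) :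
    Frm m k := pb (act g⁻¹) w

/-- the sum of all transforms -/
noncomputable def Nm {Γ : Type} [Group Γ] {m k : ℕ} (act : Γ → EE m → EE m) (w : Frm m k) :
    Frm m k := fun x => ∑ᶠ g : Γ, tr act g w x

/-- the saturation of a set -/
def Sat {Γ : Type} [Group Γ] {m : ℕ} (act : Γ → EE m → EE m) (C : Set (EE m)) : Set (EE m) :=
  {x | ∃ g, x ∈ act g '' C}

/-- the integral of a top form -/
noncomputable def int0 {m : ℕ} (w : Frm m m) : ℝ := ∫ x, w x (fun i => ee i)

/-- a `0`-form as a function, and back -/
noncomputable def zf {m : ℕ} (f : EE m → ℝ) : Frm m 0 :=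
  fun x => ContinuousAlternatingMap.constOfIsEmpty ℝ (EE m) (Fin 0) (f x)

/-! ### the homotopy operators on `R^m` -/

/-- integral over a half line in the direction `i` -/
noncomputable def JJ {m : ℕ} {W : Type} [NormedAddCommGroup W] [NormedSpace ℝ W] (i : Fin m)
    (F : EE m → W) (x : EE m) : W := ∫ t in Set.Iic (0 : ℝ), F (x + t • ee i)

/-- integral over the line in the direction `i` -/
noncomputable def TT {m : ℕ} {W : Type} [NormedAddCommGroup W] [NormedSpace ℝ W] (i : Fin m)
    (F : EE m → W) (x : EE m) : W := ∫ t : ℝ, F (x + t • ee i)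

/-- `GG`: homotopy operator -/
noncomputable def GGo {m : ℕ} {W : Type} [NormedAddCommGroup W] [NormedSpace ℝ W] (ρ : ℝ → ℝ)
    (i : Fin m) (F : EE m → W) (x : EE m) : W :=
  JJ i F x - (∫ s in Set.Iic (x i), ρ s) • TT i F x

/-- contraction with the constant vector field `ee i` -/
noncomputable def io {m k : ℕ} (i : Fin m) (w : Frm m (k + 1)) : Frm m k := fun x => (w x).curryLeft (ee i)

/-- `dx_i ∧ β` -/
noncomputable def wd {m k : ℕ} (i : Fin m) (β : Alt m k) : Alt m (k + 1) :=
  ContinuousAlternatingMap.alternatizeUncurryFin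
    ((ContinuousLinearMap.proj (R := ℝ) (φ := fun _ : Fin m => ℝ) i).smulRight β)

/-- `KK i`: homotopy operator on forms -/
noncomputable def KKo {m k : ℕ} (ρ : ℝ → ℝ) (i : Fin m) (w : Frm m (k + 1)) : Frm m k := GGo ρ i (io i w)

/-- `RR i`: the retraction -/
noncomputable def RRo {m k : ℕ} (ρ : ℝ → ℝ) (i : Fin m) (w : Frm m (k + 1)) : Frm m (k + 1) :=
  fun x => ρ (x i) • wd i (TT i (io i w) x)

/-- `w` is divisible by `dx_i` -/
def Dvd {m k : ℕ} (i : Fin m) (w : Frm m k) : Prop :=
  ∀ x (v : Fin k → EE m), (∀ a, v a i = 0) → w x v = 0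

/-- a bump function on the line -/
structure Bump (ρ : ℝ → ℝ) : Prop where
  smooth : ContDiff ℝ ∞ ρ
  supp : HasCompactSupport ρ
  int : ∫ s, ρ s = 1

end C37A
end

section

set_option autoImplicit false

open scoped ContDiff Topology
open MeasureTheory

namespace C37A

/-- the coefficients of an alternating form -/
private noncomputable def F01_ev (m k : ℕ) : Alt m k →ₗ[ℝ] ((Fin k → Fin m) → ℝ) where
  toFun u := fun v => u (fun a => ee (v a))
  map_add' _ _ := rfl
  map_smul' _ _ := rfl

private theorem F01_inj {m k : ℕ} (u u' : Alt m k)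
    (h : ∀ v : Fin k → Fin m, u (fun a => ee (v a)) = u' (fun a => ee (v a))) : u = u' := by
  apply ContinuousAlternatingMap.toAlternatingMap_injective
  apply AlternatingMap.coe_multilinearMap_injective
  refine Module.Basis.ext_multilinear (fun _ => Pi.basisFun ℝ (Fin m)) (fun v => ?_)
  have h1 := h v
  simp only [Pi.basisFun_apply]
  exact h1

private theorem F01_vec {E : Type} [NormedAddCommGroup E] [NormedSpace ℝ E] {m k : ℕ}
    {n : WithTop ℕ∞} {w : E → Alt m k} (hw : ContDiff ℝ n w) (v : Fin k → EE m) :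
    ContDiff ℝ n (fun x => w x v) := by
  have h1 : (fun x => w x v) = fun x => (ContinuousAlternatingMap.apply ℝ (EE m) ℝ v) (w x) := rfl
  rw [h1]
  exact (ContinuousAlternatingMap.apply ℝ (EE m) ℝ v).contDiff.comp hw

/-- A family of alternating forms is smooth iff its coefficients are smooth.
PROOF. (→) compose with the continuous linear evaluation map `u ↦ u v`
(for instance `(ContinuousAlternatingMap.apply ..)` or through `toContinuousMultilinearMap`).
(←) The linear map `ev : Alt m k → ((Fin k → Fin m) → ℝ)`, `ev u v = u (fun a => ee (v a))` is injective (a multilinear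
map is determined by its values on the standard basis: `Basis.ext_multilinear`, `Pi.basisFun`), so it has a linear left
inverse `L` (`LinearMap.exists_leftInverse_of_injective`), continuous as its source is finite dimensional
(`LinearMap.toContinuousLinearMap`).  `w = L ∘ ev ∘ w`, and `ev ∘ w` is smooth by `contDiff_pi`. -/
theorem contDiff_alt {E : Type} [NormedAddCommGroup E] [NormedSpace ℝ E] {m k : ℕ} {n : WithTop ℕ∞}
    (w : E → Alt m k) :
    ContDiff ℝ n w ↔ ∀ v : Fin k → Fin m, ContDiff ℝ n (fun x => w x (fun a => ee (v a))) := by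
  refine ⟨fun h v => F01_vec h _, fun h => ?_⟩
  have hinj : Function.Injective (F01_ev m k) := by
    intro u u' huu
    exact F01_inj u u' (fun v => congrFun huu v)
  obtain ⟨L, hL⟩ := LinearMap.exists_leftInverse_of_injective (F01_ev m k)
    (LinearMap.ker_eq_bot.2 hinj)
  have h1 : w = fun x => (LinearMap.toContinuousLinearMap L) (F01_ev m k (w x)) := by
    funext x
    exact (LinearMap.congr_fun hL (w x)).symm
  rw [h1]
  refine (LinearMap.toContinuousLinearMap L).contDiff.comp ?_
  exact contDiff_pi.2 h

/-- two alternating forms are equal iff they agree on the standard basis vectors -/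
theorem alt_ext {m k : ℕ} (u u' : Alt m k)
    (h : ∀ v : Fin k → Fin m, u (fun a => ee (v a)) = u' (fun a => ee (v a))) : u = u' :=
  F01_inj u u' h

/-- evaluation of a smooth form on fixed vectors -/
theorem contDiff_apply_vec {E : Type} [NormedAddCommGroup E] [NormedSpace ℝ E] {m k : ℕ} {n : WithTop ℕ∞}
    {w : E → Alt m k} (hw : ContDiff ℝ n w) (v : Fin k → EE m) : ContDiff ℝ n (fun x => w x v) :=
  F01_vec hw v

end C37A
end

section

set_option autoImplicit false

open scoped ContDiff Topology
open MeasureTheory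

namespace C37A

variable {Γ : Type} [Group Γ] {m : ℕ} {act : Γ → EE m → EE m}

private theorem F08_det {n : ℕ} (u : Alt n n) (D : EE n →L[ℝ] EE n) :
    u (fun i => D (ee i)) = D.det * u (fun i => ee i) := by
  let e := Pi.basisFun ℝ (Fin n)
  have he : ∀ i, e i = ee i := fun i => Pi.basisFun_apply ℝ (Fin n) i
  have h1 := AlternatingMap.eq_smul_basis_det e u.toAlternatingMap
  have h2 : ∀ v : Fin n → EE n, u v = u (fun i => ee i) * e.det v := by
    intro v
    have h3 := congrArg (fun f : EE n [⋀^Fin n]→ₗ[ℝ] ℝ => f v) h1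
    have h4 : u.toAlternatingMap e = u (fun i => ee i) := by
      have : (e : Fin n → EE n) = fun i => ee i := funext he
      rw [this]
      rfl
    rw [h4] at h3
    exact h3
  have h5 : e.det (fun i => D (ee i)) = D.det := by
    have h6 := e.det_comp (D : EE n →ₗ[ℝ] EE n) e
    rw [e.det_self, mul_one] at h6
    have h7 : (fun i => D (ee i)) = (D : EE n →ₗ[ℝ] EE n) ∘ e := by
      funext i
      rw [Function.comp_apply, he]
      rfl
    rw [h7, h6]
  rw [h2, h5, mul_comm]

/-- PROOF: `tr act g w x (e_0, ..)= w (act g⁻¹ x) (D e_0, D e_1, ..) = det D * w (act g⁻¹ x) (e_0, ..)` with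
`D = fderiv ℝ (act g⁻¹) x` (`AlternatingMap.map_basis..`, or `LinearMap.det` and the uniqueness of top forms:
`AlternatingMap.eq_smul_basis_det`), `det D > 0` by `h.pos`; then the change of variables formula
`MeasureTheory.integral_image_eq_integral_abs_det_fderiv_smul` with `s = univ` for the injective map `act g⁻¹`. -/
theorem int0_tr (h : GoodAction Γ m act) (g : Γ) {w : Frm m m} (hw : IsOm w) : int0 (tr act g w) = int0 w := by
  have hs := h.smooth g⁻¹
  have hd : Differentiable ℝ (act g⁻¹) := hs.differentiable (by simp)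
  have hinj : Function.Injective (act g⁻¹) := by
    intro x y hxy
    have h1 := congrArg (act g) hxy
    rw [← h.mul, ← h.mul, mul_inv_cancel, h.one, h.one] at h1
    exact h1
  have hsurj : act g⁻¹ '' Set.univ = Set.univ := by
    rw [Set.image_univ, Set.range_eq_univ]
    intro y
    refine ⟨act g y, ?_⟩
    rw [← h.mul, inv_mul_cancel, h.one]
  have h2 := integral_image_eq_integral_abs_det_fderiv_smul (volume : Measure (EE m))
    (s := Set.univ) MeasurableSet.univ (f := act g⁻¹) (f' := fderiv ℝ (act g⁻¹))
    (fun x _ => (hd x).hasFDerivAt.hasFDerivWithinAt) hinj.injOn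
    (fun y => w y (fun i => ee i))
  rw [hsurj, setIntegral_univ, setIntegral_univ] at h2
  unfold int0
  rw [h2]
  refine integral_congr_ae (Filter.Eventually.of_forall fun x => ?_)
  change w (act g⁻¹ x) (fun i => fderiv ℝ (act g⁻¹) x (ee i)) =
    |(fderiv ℝ (act g⁻¹) x).det| • w (act g⁻¹ x) (fun i => ee i)
  rw [F08_det, abs_of_pos (h.pos g⁻¹ x), smul_eq_mul]

end C37A
end

section

set_option autoImplicit false

open scoped ContDiff Topology
open MeasureTheory

namespace C37A

theorem F09_integrable {m : ℕ} (i : Fin m) {f : EE m → ℝ} (hf : ContDiff ℝ ∞ f) (hc : HasCompactSupport f) :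
    Integrable (fun x => fderiv ℝ f x (ee i)) := by
  apply Continuous.integrable_of_hasCompactSupport
  · exact (hf.continuous_fderiv (by simp)).clm_apply continuous_const
  · apply (hc.fderiv ℝ).mono
    intro y hy h0
    apply hy
    simp [h0]

/-- The integral of a coordinate derivative of a smooth function with compact support is zero.
PROOF. E.g. Fubini in the coordinate `i` (`MeasurableEquiv.piFinSuccAbove`, `volume_preserving_piFinSuccAbove`) and
`MeasureTheory.integral_eq_zero_of_hasDerivAt..`/`HasCompactSupport.integral_deriv_eq_zero`-type lemma on the line;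
or integration by parts `integral_mul_fderiv_eq_neg_fderiv_mul_of_integrable`-type lemmas of
`Mathlib/Analysis/Calculus/LineDeriv/IntegrationByParts.lean` against a bump function equal to `1` near the support;
or translation invariance: `∫ F (x + t e_i) dx` does not depend on `t`, differentiate under the integral. -/
theorem integral_partial {m : ℕ} (i : Fin m) {f : EE m → ℝ} (hf : ContDiff ℝ ∞ f) (hc : HasCompactSupport f) :
    ∫ x, fderiv ℝ f x (ee i) = 0 := by
  have h1 := integral_mul_fderiv_eq_neg_fderiv_mul_of_integrable (μ := volume) (𝕜 := ℝ)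
    (f := fun _ : EE m => (1 : ℝ)) (g := f) (v := ee i) (by simp)
    (by simpa using F09_integrable i hf hc)
    (by simpa using hf.continuous.integrable_of_hasCompactSupport hc)
    (fun x _ => differentiableAt_const _) (fun x _ => hf.differentiable (by simp) x)
  simpa using h1

/-- `extDeriv_apply`: `extDeriv w x (e_0, .., e_k) = ∑ i, (-1)^i fderiv (w · (e without e_i)) x e_i` -/
theorem int0_extDeriv {k : ℕ} {w : Frm (k + 1) k} (hw : IsOm w) : int0 (extDeriv w) = 0 := by
  unfold int0
  have hs : ∀ i : Fin (k + 1), ContDiff ℝ ∞ (fun x => w x (i.removeNth (fun j : Fin (k + 1) => ee j))) :=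
    fun i => contDiff_apply_vec hw.1 _
  have hcs : ∀ i : Fin (k + 1), HasCompactSupport (fun x => w x (i.removeNth (fun j : Fin (k + 1) => ee j))) := by
    intro i
    apply hw.2.mono
    intro y hy h0
    apply hy
    simp [h0]
  have h1 : ∀ x, extDeriv w x (fun i => ee i) =
      ∑ i : Fin (k + 1), (-1 : ℝ) ^ (i : ℕ) *
        fderiv ℝ (fun x => w x (i.removeNth (fun j : Fin (k + 1) => ee j))) x (ee i) := by
    intro x
    rw [extDeriv_apply (hw.1.differentiable (by simp) x)]
    apply Finset.sum_congr rfl
    intro i _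
    simp
  simp only [h1]
  rw [integral_finsetSum]
  · apply Finset.sum_eq_zero
    intro i _
    rw [integral_const_mul, integral_partial i (hs i) (hcs i), mul_zero]
  · intro i _
    exact (F09_integrable i (hs i) (hcs i)).const_mul _

end C37A
end

section

set_option autoImplicit false

open scoped ContDiff Topology
open MeasureTheory

namespace C37A

theorem F02_expand {m k : ℕ} (u : Alt m k) (c : Fin k → EE m) :
    u c = ∑ r : Fin k → Fin m, (∏ a, c a (r a)) • u (fun a => ee (r a)) := by
  have h1 : c = fun a => ∑ l : Fin m, c a l • (ee l : EE m) := by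
    funext a
    ext j
    simp [ee, Pi.single_apply]
  have h2 : u c = u.toMultilinearMap (fun a => ∑ l : Fin m, c a l • (ee l : EE m)) := by
    rw [← h1]
    rfl
  rw [h2, MultilinearMap.map_sum]
  apply Finset.sum_congr rfl
  intro r _
  rw [MultilinearMap.map_smul_univ]
  rfl

/-- PROOF. By `contDiff_alt` it suffices that `x ↦ w (f x) (fun a => fderiv ℝ f x (ee (v a)))` is smooth. Write
`fderiv ℝ f x (ee j) = ∑ l, (fderiv ℝ f x (ee j)) l • ee l`, expand by multilinearity
(`ContinuousMultilinearMap.map_sum`, `map_smul_univ`): it is a finite sum of products of smooth functions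
(`ContDiff.fderiv_right` for smooth `f`, `contDiff_alt` composed with `f`). Or use a Mathlib lemma on smoothness of
`compContinuousLinearMap`. -/
theorem contDiff_pb {m k : ℕ} {f : EE m → EE m} (hf : ContDiff ℝ ∞ f) {w : Frm m k} (hw : ContDiff ℝ ∞ w) :
    ContDiff ℝ ∞ (pb f w) := by
  rw [contDiff_alt]
  intro v
  have h1 : (fun x => pb f w x (fun a => ee (v a))) = fun x =>
      ∑ r : Fin k → Fin m, (∏ a, fderiv ℝ f x (ee (v a)) (r a)) • w (f x) (fun a => ee (r a)) := by
    funext x
    rw [← F02_expand]
    rfl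
  rw [h1]
  have hd : ContDiff ℝ ∞ (fderiv ℝ f) := hf.fderiv_right (by simp)
  apply ContDiff.sum
  intro r _
  have hA : ContDiff ℝ ∞ (fun x => ∏ a, fderiv ℝ f x (ee (v a)) (r a)) := by
    apply contDiff_prod
    intro a _
    have h2 : ContDiff ℝ ∞ (fun x => fderiv ℝ f x (ee (v a))) := hd.clm_apply contDiff_const
    exact (contDiff_pi.1 h2) (r a)
  have hB : ContDiff ℝ ∞ (fun x => w (f x) (fun a => ee (r a))) := (((contDiff_alt w).1 hw) r).comp hf
  exact hA.smul hB

end C37A
end

section

set_option autoImplicit false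

open scoped ContDiff Topology
open MeasureTheory

namespace C37A

/-- pull back is functorial (chain rule) -/
theorem pb_comp {m k : ℕ} {f g : EE m → EE m} (hf : Differentiable ℝ f) (hg : Differentiable ℝ g) (w : Frm m k) :
    pb (fun x => f (g x)) w = pb g (pb f w) := by
  funext x
  unfold pb
  have h1 : fderiv ℝ (fun x => f (g x)) x = (fderiv ℝ f (g x)).comp (fderiv ℝ g x) :=
    fderiv_comp x (hf (g x)) (hg x)
  rw [h1]
  rfl

theorem pb_id {m k : ℕ} (w : Frm m k) : pb (fun x => x) w = w := by
  funext x
  unfold pb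
  rw [fderiv_fun_id]
  ext v
  rfl

theorem pb_add {m k : ℕ} (f : EE m → EE m) (w w' : Frm m k) : pb f (w + w') = pb f w + pb f w' := by
  rfl

theorem pb_smul {m k : ℕ} (f : EE m → EE m) (c : ℝ) (w : Frm m k) : pb f (c • w) = c • pb f w := by
  rfl

/-- pull back of a product with a function -/
theorem pb_mul {m k : ℕ} (f : EE m → EE m) (φ : EE m → ℝ) (w : Frm m k) :
    pb f (fun x => φ x • w x) = fun x => φ (f x) • pb f w x := by
  rfl

theorem pb_zf {m : ℕ} (f : EE m → EE m) (φ : EE m → ℝ) : pb f (zf φ) = zf (fun x => φ (f x)) := by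
  rfl

end C37A
end

section

set_option autoImplicit false

open scoped ContDiff Topology
open MeasureTheory

namespace C37A

variable {Γ : Type} [Group Γ] {m : ℕ} {act : Γ → EE m → EE m}

theorem tr_one (h : GoodAction Γ m act) {k : ℕ} (w : Frm m k) : tr act 1 w = w := by
  unfold tr
  have h1 : act (1 : Γ)⁻¹ = fun x => x := by
    funext x
    rw [inv_one, h.one]
  rw [h1, pb_id]

/-- `(g h)⁻¹ = h⁻¹ g⁻¹` and `pb_comp` -/
theorem tr_mul (h : GoodAction Γ m act) {k : ℕ} (a b : Γ) (w : Frm m k) :
    tr act (a * b) w = tr act a (tr act b w) := by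
  unfold tr
  have h1 : act (a * b)⁻¹ = fun x => act b⁻¹ (act a⁻¹ x) := by
    funext x
    rw [mul_inv_rev, h.mul]
  rw [h1, pb_comp ((h.smooth _).differentiable (by simp)) ((h.smooth _).differentiable (by simp))]

theorem tr_inv (h : GoodAction Γ m act) {k : ℕ} (a : Γ) (w : Frm m k) : tr act a (tr act a⁻¹ w) = w := by
  rw [← tr_mul h, mul_inv_cancel, tr_one h]

/-- the action is by homeomorphisms -/
theorem act_inv (h : GoodAction Γ m act) (g : Γ) (x : EE m) : act g (act g⁻¹ x) = x ∧ act g⁻¹ (act g x) = x := by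
  constructor
  · rw [← h.mul, mul_inv_cancel, h.one]
  · rw [← h.mul, inv_mul_cancel, h.one]

/-- `tr act g w x ≠ 0` implies `w (act g⁻¹ x) ≠ 0` -/
theorem tr_support (h : GoodAction Γ m act) {k : ℕ} (g : Γ) (w : Frm m k) (x : EE m)
    (hx : tr act g w x ≠ 0) : w (act g⁻¹ x) ≠ 0 := by
  intro h0
  apply hx
  unfold tr pb
  rw [h0]
  rfl

/-- the homeomorphism `act g` maps compact support to compact support -/
theorem tr_compact (h : GoodAction Γ m act) {k : ℕ} (g : Γ) (w : Frm m k) (hw : HasCompactSupport w) :
    HasCompactSupport (tr act g w) := by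
  apply HasCompactSupport.intro (K := act g '' (tsupport w)) (hw.image (h.smooth g).continuous)
  intro x hx
  by_contra h1
  apply hx
  refine ⟨act g⁻¹ x, subset_tsupport _ (tr_support h g w x h1), (act_inv h g x).1⟩

end C37A
end

section

set_option autoImplicit false

open scoped ContDiff Topology
open MeasureTheory

namespace C37A

theorem P03_support {m : ℕ} {W : Type} [NormedAddCommGroup W] [NormedSpace ℝ W] (i : Fin m)
    {F : EE m → W} (hc : HasCompactSupport F) (x : EE m) :
    HasCompactSupport (fun t : ℝ => F (x + t • ee i)) := by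
  obtain ⟨R, hR⟩ := hc.isBounded.subset_closedBall 0
  apply HasCompactSupport.intro (K := Metric.closedBall (0 : ℝ) (R + |x i|)) (isCompact_closedBall _ _)
  intro t ht
  by_contra h0
  apply ht
  have h1 := hR (subset_tsupport _ h0)
  rw [mem_closedBall_zero_iff] at h1 ⊢
  have h2 := norm_le_pi_norm (x + t • (ee i : EE m)) i
  have h3 : (x + t • (ee i : EE m)) i = x i + t := by
    simp [ee]
  rw [h3] at h2
  have h4 : |x i + t| ≤ R := by
    have := h2.trans h1
    rwa [Real.norm_eq_abs] at this
  rw [Real.norm_eq_abs]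
  have h5 : |t| ≤ |x i + t| + |x i| := by
    have h6 : t = (x i + t) - x i := by ring
    calc |t| = |(x i + t) - x i| := by rw [← h6]
      _ ≤ |x i + t| + |x i| := abs_sub _ _
  linarith

/-- restriction of a compactly supported continuous function to a line is integrable -/
theorem line_integrable {m : ℕ} {W : Type} [NormedAddCommGroup W] [NormedSpace ℝ W] (i : Fin m)
    {F : EE m → W} (hF : Continuous F) (hc : HasCompactSupport F) (x : EE m) :
    Integrable (fun t : ℝ => F (x + t • ee i)) := by
  apply Continuous.integrable_of_hasCompactSupport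
  · exact hF.comp (by fun_prop)
  · exact P03_support i hc x

theorem P03_deriv {m : ℕ} {W : Type} [NormedAddCommGroup W] [NormedSpace ℝ W] (i : Fin m)
    {F : EE m → W} (hF : ContDiff ℝ ∞ F) (x : EE m) (t : ℝ) :
    HasDerivAt (fun t : ℝ => F (x + t • ee i)) (fderiv ℝ F (x + t • ee i) (ee i)) t := by
  have h1 : HasDerivAt (fun t : ℝ => x + t • (ee i : EE m)) ((1 : ℝ) • (ee i : EE m)) t :=
    ((hasDerivAt_id t).smul_const (ee i : EE m)).const_add x
  rw [one_smul] at h1
  exact ((hF.differentiable (by simp) _).hasFDerivAt.comp_hasDerivAt t h1)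

theorem P03_cont {m : ℕ} {W : Type} [NormedAddCommGroup W] [NormedSpace ℝ W] (i : Fin m)
    {F : EE m → W} (hF : ContDiff ℝ ∞ F) (hc : HasCompactSupport F) (x : EE m) :
    Integrable (fun t : ℝ => fderiv ℝ F (x + t • ee i) (ee i)) := by
  have h1 : Continuous (fun y => fderiv ℝ F y (ee i)) := (hF.continuous_fderiv (by simp)).clm_apply continuous_const
  have h2 : HasCompactSupport (fun y => fderiv ℝ F y (ee i)) := by
    apply (hc.fderiv ℝ).mono
    intro y hy h0
    apply hy
    simp [h0]
  exact line_integrable i h1 h2 x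

theorem P03_tendsto {m : ℕ} {W : Type} [NormedAddCommGroup W] [NormedSpace ℝ W] (i : Fin m)
    {F : EE m → W} (hc : HasCompactSupport F) (x : EE m) :
    Filter.Tendsto (fun t : ℝ => F (x + t • ee i)) Filter.atBot (𝓝 0) ∧
    Filter.Tendsto (fun t : ℝ => F (x + t • ee i)) Filter.atTop (𝓝 0) := by
  have h1 := (P03_support i hc x).is_zero_at_infty
  rw [cocompact_eq_atBot_atTop] at h1
  exact ⟨h1.mono_left le_sup_left, h1.mono_left le_sup_right⟩

/-- fundamental theorem of calculus on the half line and on the line: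
`integral_Iic_of_hasDerivAt_of_tendsto`, `integral_of_hasDerivAt_of_tendsto` (the function is zero for large `|t|`) -/
theorem JJ_partial {m : ℕ} {W : Type} [NormedAddCommGroup W] [NormedSpace ℝ W] [CompleteSpace W] (i : Fin m)
    {F : EE m → W} (hF : ContDiff ℝ ∞ F) (hc : HasCompactSupport F) (x : EE m) :
    JJ i (fun y => fderiv ℝ F y (ee i)) x = F x := by
  unfold JJ
  have h1 := integral_Iic_of_hasDerivAt_of_tendsto' (a := (0 : ℝ)) (m := (0 : W))
    (fun t _ => P03_deriv i hF x t) (P03_cont i hF hc x).integrableOn (P03_tendsto i hc x).1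
  rw [h1]
  simp

theorem TT_partial {m : ℕ} {W : Type} [NormedAddCommGroup W] [NormedSpace ℝ W] [CompleteSpace W] (i : Fin m)
    {F : EE m → W} (hF : ContDiff ℝ ∞ F) (hc : HasCompactSupport F) (x : EE m) :
    TT i (fun y => fderiv ℝ F y (ee i)) x = 0 := by
  unfold TT
  have h1 := integral_of_hasDerivAt_of_tendsto (m := (0 : W)) (n := (0 : W))
    (fun t => P03_deriv i hF x t) (P03_cont i hF hc x) (P03_tendsto i hc x).1 (P03_tendsto i hc x).2
  rw [h1]
  simp

/-- `TT i F` does not change in the direction `i` -/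
theorem TT_shift {m : ℕ} {W : Type} [NormedAddCommGroup W] [NormedSpace ℝ W] (i : Fin m)
    (F : EE m → W) (x : EE m) (s : ℝ) : TT i F (x + s • ee i) = TT i F x := by
  unfold TT
  have h1 : (fun t : ℝ => F (x + s • ee i + t • ee i)) = fun t : ℝ => F (x + (s + t) • ee i) := by
    funext t
    rw [add_smul, add_assoc]
  rw [h1]
  exact integral_add_left_eq_self (fun t : ℝ => F (x + t • ee i)) s

end C37A
end
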