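import Pool.Agent.Lib.MP_c37615_al.Mg.G001

section

set_option autoImplicit false

open scoped ContDiff Topology
open MeasureTheory

namespace C37A

/-- every `0`-form is a function -/
theorem zf_surj {m : ℕ} (w : Frm m 0) : w = zf (fun x => w x (fun a => a.elim0)) := by
  funext x
  ext v
  unfold zf
  rw [ContinuousAlternatingMap.constOfIsEmpty_apply]
  congr 1
  exact Subsingleton.elim _ _

theorem zf_apply {m : ℕ} (f : EE m → ℝ) (x : EE m) (v : Fin 0 → EE m) : zf f x v = f x := rfl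

theorem zf_contDiff {m : ℕ} (f : EE m → ℝ) : ContDiff ℝ ∞ (zf f) ↔ ContDiff ℝ ∞ f := by
  rw [contDiff_alt]
  constructor
  · intro h
    exact h (fun a => a.elim0)
  · intro h v
    exact h

theorem zf_eq_zero {m : ℕ} (f : EE m → ℝ) (x : EE m) : zf f x = 0 ↔ f x = 0 := by
  constructor
  · intro h
    have h1 := congrArg (fun u => u (fun a : Fin 0 => a.elim0)) h
    exact h1
  · intro h
    ext v
    exact h

theorem zf_isOm {m : ℕ} (f : EE m → ℝ) : IsOm (zf f) ↔ ContDiff ℝ ∞ f ∧ HasCompactSupport f := by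
  unfold IsOm
  rw [zf_contDiff]
  have h1 : Function.support (zf f) = Function.support f := by
    ext x
    simp only [Function.mem_support, ne_eq, zf_eq_zero]
  unfold HasCompactSupport tsupport
  rw [h1]

/-- `extDeriv (zf f)` is `fderiv f` (`extDeriv_constOfIsEmpty`) -/
theorem extDeriv_zf {m : ℕ} (f : EE m → ℝ) (x : EE m) (v : Fin 1 → EE m) :
    extDeriv (zf f) x v = fderiv ℝ f x (v 0) := by
  unfold zf
  rw [extDeriv_constOfIsEmpty]
  rfl

theorem extDeriv_zf_eq_zero {m : ℕ} (f : EE m → ℝ) (x : EE m) : extDeriv (zf f) x = 0 ↔ fderiv ℝ f x = 0 := by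
  constructor
  · intro h
    ext v
    rw [← extDeriv_zf f x (fun _ => v), h]
    rfl
  · intro h
    ext v
    rw [extDeriv_zf, h]
    rfl

end C37A
end

section

set_option autoImplicit false

open scoped ContDiff Topology
open MeasureTheory

namespace C37A

/-- A smooth closed `0`-form is constant. (`is_const_of_fderiv_eq_zero`) -/
theorem closed_zero_form {m : ℕ} {w : Frm m 0} (hw : ContDiff ℝ ∞ w) (hd : extDeriv w = 0) (x y : EE m) :
    w x = w y := by
  have h1 := zf_surj w
  have hf : ContDiff ℝ ∞ (fun x => w x (fun a => a.elim0)) := by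
    rw [← zf_contDiff, ← h1]
    exact hw
  have h2 : ∀ x, fderiv ℝ (fun x => w x (fun a => a.elim0)) x = 0 := by
    intro x
    rw [← extDeriv_zf_eq_zero, ← h1, hd]
    rfl
  have h3 := is_const_of_fderiv_eq_zero (hf.differentiable (by simp)) h2 x y
  rw [h1]
  ext v
  exact h3

/-- A closed `0`-form with compact support vanishes in positive dimension. (constant, and zero somewhere as `R^m` is
not compact: e.g. `HasCompactSupport` gives a bounded support, take the point `fun _ => R + 1`) -/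
theorem closed_zero_form_compact {m : ℕ} (hm : 1 ≤ m) {w : Frm m 0} (hw : IsOm w) (hd : extDeriv w = 0) : w = 0 := by
  obtain ⟨R, hR⟩ := hw.2.isBounded.subset_closedBall 0
  have h1 : w (fun _ : Fin m => |R| + 1) = 0 := by
    by_contra h0
    have h2 := hR (subset_tsupport _ h0)
    rw [mem_closedBall_zero_iff] at h2
    have h3 := (norm_le_pi_norm (fun _ : Fin m => |R| + 1) ⟨0, by omega⟩).trans h2
    rw [Real.norm_eq_abs] at h3
    have h4 := le_abs_self (|R| + 1)
    have h5 := le_abs_self R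
    linarith
  funext x
  rw [closed_zero_form hw.1 hd x (fun _ : Fin m => |R| + 1), h1]
  rfl

/-- Poincare lemma for `1`-forms: `Convex.exists_forall_hasFDerivAt_of_fderiv_symmetric` in
`Mathlib/MeasureTheory/Integral/CurveIntegral/Poincare.lean`, applied to
`A x = (v ↦ w x (fun _ => v)) : EE m →L[ℝ] ℝ` (e.g. through `ContinuousAlternatingMap.ofSubsingleton` or
`(w x).curryLeft`); `extDeriv w = 0` evaluated at `![u, v]` (`extDeriv_apply`, `Fin.sum_univ_two`) says that
`fderiv ℝ A x` is symmetric. The primitive `W` is smooth since its derivative is (`contDiff_infty_iff_fderiv`). -/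
theorem closed_one_form {m : ℕ} {w : Frm m 1} (hw : ContDiff ℝ ∞ w) (hd : extDeriv w = 0) :
    ∃ W : EE m → ℝ, ContDiff ℝ ∞ W ∧ extDeriv (zf W) = w := by
  let L : (EE m →L[ℝ] ℝ) ≃ₗᵢ[ℝ] Alt m 1 := ContinuousAlternatingMap.ofSubsingletonLIE (0 : Fin 1)
  have hL : ∀ (u : EE m →L[ℝ] ℝ) (v : Fin 1 → EE m), L u v = u (v 0) := fun u v => rfl
  let A : EE m → (EE m →L[ℝ] ℝ) := fun x => L.symm (w x)
  have hA : ContDiff ℝ ∞ A := L.symm.contDiff.comp hw
  have hAw : ∀ x (v : EE m), A x v = w x (fun _ => v) := by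
    intro x v
    have h1 : w x = L (A x) := (L.apply_symm_apply (w x)).symm
    rw [h1, hL]
  have hsymm : ∀ a ∈ (Set.univ : Set (EE m)), ∀ x y, fderiv ℝ A a x y = fderiv ℝ A a y x := by
    intro a _ x y
    have hdw : DifferentiableAt ℝ w a := hw.differentiable (by simp) a
    have hdA : DifferentiableAt ℝ A a := hA.differentiable (by simp) a
    have h1 := extDeriv_apply hdw ![x, y]
    rw [hd, Fin.sum_univ_two] at h1
    have h2 : (fun z => w z ((0 : Fin 2).removeNth ![x, y])) = fun z => A z y := by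
      funext z
      rw [hAw]
      congr 1
      funext b
      fin_cases b
      rfl
    have h3 : (fun z => w z ((1 : Fin 2).removeNth ![x, y])) = fun z => A z x := by
      funext z
      rw [hAw]
      congr 1
      funext b
      fin_cases b
      rfl
    rw [h2, h3] at h1
    have h4 : ∀ u v : EE m, fderiv ℝ (fun z => A z v) a u = fderiv ℝ A a u v := by
      intro u v
      have h5 := (hdA.hasFDerivAt.clm_apply (hasFDerivAt_const v a)).fderiv
      rw [h5]
      simp
    rw [h4, h4] at h1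
    have h6 : ((0 : Frm m (1 + 1)) a) ![x, y] = 0 := rfl
    rw [h6] at h1
    simp at h1
    linarith
  obtain ⟨W, hW⟩ := Convex.exists_forall_hasFDerivAt_of_fderiv_symmetric (convex_univ (𝕜 := ℝ) (E := EE m))
    isOpen_univ (hA.differentiable (by simp)).differentiableOn hsymm
  have hW' : ∀ x, HasFDerivAt W (A x) x := fun x => hW x (Set.mem_univ x)
  refine ⟨W, ?_, ?_⟩
  · rw [contDiff_infty_iff_fderiv]
    refine ⟨fun x => (hW' x).differentiableAt, ?_⟩
    have h7 : fderiv ℝ W = A := funext fun x => (hW' x).fderiv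
    rw [h7]
    exact hA
  · funext x
    ext v
    rw [extDeriv_zf, (hW' x).fderiv, hAw]
    congr 1
    funext b
    fin_cases b
    rfl

end C37A
end

section

set_option autoImplicit false

open scoped ContDiff Topology
open MeasureTheory

namespace C37A

variable {Γ : Type} [Group Γ] {m : ℕ} {act : Γ → EE m → EE m}

/-- `contDiff_pb`, `tr_compact` -/
theorem tr_isOm (h : GoodAction Γ m act) {k : ℕ} (g : Γ) {w : Frm m k} (hw : IsOm w) : IsOm (tr act g w) :=
  ⟨contDiff_pb (h.smooth _) hw.1, tr_compact h g w hw.2⟩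

/-- the exterior derivative of a smooth form is smooth: `alternatizeUncurryFin` is a continuous linear map
(`ContinuousAlternatingMap.alternatizeUncurryFinCLM`) applied to `fderiv ℝ w` (`ContDiff.fderiv_right`). -/
theorem contDiff_extDeriv {k : ℕ} {w : Frm m k} (hw : ContDiff ℝ ∞ w) : ContDiff ℝ ∞ (extDeriv w) := by
  have h1 : extDeriv w = fun x =>
      ContinuousAlternatingMap.alternatizeUncurryFinCLM ℝ (EE m) ℝ (fderiv ℝ w x) := by
    funext x
    rfl
  rw [h1]
  exact (ContinuousLinearMap.contDiff _).comp (hw.fderiv_right (by simp))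

/-- the support of `extDeriv w` is contained in the support of `fderiv ℝ w` (`HasCompactSupport.fderiv`) -/
theorem extDeriv_isOm {k : ℕ} {w : Frm m k} (hw : IsOm w) : IsOm (extDeriv w) := by
  refine ⟨contDiff_extDeriv hw.1, ?_⟩
  apply (hw.2.fderiv ℝ).mono
  intro x hx h0
  apply hx
  have h1 : extDeriv w x = ContinuousAlternatingMap.alternatizeUncurryFinCLM ℝ (EE m) ℝ (fderiv ℝ w x) := rfl
  rw [h1, h0, map_zero]

/-- `extDeriv_pullback` -/
theorem extDeriv_tr (h : GoodAction Γ m act) {k : ℕ} (g : Γ) {w : Frm m k} (hw : ContDiff ℝ ∞ w) :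
    extDeriv (tr act g w) = tr act g (extDeriv w) := by
  funext x
  unfold tr pb
  refine extDeriv_pullback (r := ∞) (hw.differentiable (by simp) _) (h.smooth _).contDiffAt ?_
  simp only [minSmoothness_of_isRCLikeNormedField]
  exact WithTop.coe_le_coe.2 (le_top : (2 : ℕ∞) ≤ ⊤)

/-- `extDeriv_extDeriv` -/
theorem extDeriv_extDeriv0 {k : ℕ} {w : Frm m k} (hw : ContDiff ℝ ∞ w) : extDeriv (extDeriv w) = 0 :=
  extDeriv_extDeriv hw (by
    simp only [minSmoothness_of_isRCLikeNormedField]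
    exact WithTop.coe_le_coe.2 (le_top : (2 : ℕ∞) ≤ ⊤))

end C37A
end

section

set_option autoImplicit false

open scoped ContDiff Topology
open MeasureTheory

namespace C37A

variable {Γ : Type} [Group Γ] {m : ℕ} {act : Γ → EE m → EE m}

/-- properness for two compact sets: apply `h.proper` to `C ∪ K` -/
theorem proper_two (h : GoodAction Γ m act) {C K : Set (EE m)} (hC : IsCompact C) (hK : IsCompact K) :
    {g : Γ | (act g '' C ∩ K).Nonempty}.Finite := by
  apply (h.proper (C ∪ K) (hC.union hK)).subset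
  rintro g ⟨x, ⟨y, hy, rfl⟩, hx⟩
  exact ⟨_, ⟨y, Or.inl hy, rfl⟩, Or.inr hx⟩

/-- the same for the inverse maps -/
theorem proper_inv (h : GoodAction Γ m act) {C K : Set (EE m)} (hC : IsCompact C) (hK : IsCompact K) :
    {g : Γ | ∃ x ∈ K, act g x ∈ C}.Finite := by
  apply (proper_two h hK hC).subset
  rintro g ⟨x, hx, hx2⟩
  exact ⟨_, ⟨x, hx, rfl⟩, hx2⟩

/-- Local finiteness of the transforms of a form with compact support. PROOF: `K` a compact neighbourhood of `x`,
`C = tsupport w`: if `tr act g w y ≠ 0` then `act g⁻¹ y ∈ C` (`tr_support`); `proper_inv`. -/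
theorem tr_locFinite (h : GoodAction Γ m act) {k : ℕ} {w : Frm m k} (hw : HasCompactSupport w) (x : EE m) :
    ∃ U ∈ 𝓝 x, ∃ S : Finset Γ, ∀ y ∈ U, ∀ g, g ∉ S → tr act g w y = 0 := by
  classical
  refine ⟨Metric.closedBall x 1, Metric.closedBall_mem_nhds x one_pos,
    (proper_inv h hw (isCompact_closedBall x 1)).toFinset.image (fun g => g⁻¹), ?_⟩
  intro y hy g hg
  by_contra h0
  apply hg
  rw [Finset.mem_image]
  refine ⟨g⁻¹, ?_, inv_inv g⟩
  rw [Set.Finite.mem_toFinset]
  exact ⟨y, hy, subset_tsupport _ (tr_support h g w y h0)⟩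

/-- the same for functions -/
theorem fun_locFinite (h : GoodAction Γ m act) {φ : EE m → ℝ} (hφ : HasCompactSupport φ) (x : EE m) :
    ∃ U ∈ 𝓝 x, ∃ S : Finset Γ, ∀ y ∈ U, ∀ g, g ∉ S → φ (act g y) = 0 := by
  classical
  refine ⟨Metric.closedBall x 1, Metric.closedBall_mem_nhds x one_pos,
    (proper_inv h hφ (isCompact_closedBall x 1)).toFinset, ?_⟩
  intro y hy g hg
  by_contra h0
  apply hg
  rw [Set.Finite.mem_toFinset]
  exact ⟨y, hy, subset_tsupport _ h0⟩

/-- the saturation of a set is invariant -/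
theorem sat_act (h : GoodAction Γ m act) (C : Set (EE m)) (g : Γ) (x : EE m) :
    act g x ∈ Sat act C ↔ x ∈ Sat act C := by
  constructor
  · rintro ⟨a, y, hy, hyx⟩
    refine ⟨g⁻¹ * a, y, hy, ?_⟩
    rw [h.mul, hyx]
    exact (act_inv h g x).2
  · rintro ⟨a, y, hy, rfl⟩
    exact ⟨g * a, y, hy, h.mul g a y⟩

end C37A
end

section

set_option autoImplicit false

open scoped ContDiff Topology
open MeasureTheory

namespace C37A

variable {Γ : Type} [Group Γ] {m : ℕ} {act : Γ → EE m → EE m}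

theorem N03_fin (h : GoodAction Γ m act) {k : ℕ} {w : Frm m k} (hw : HasCompactSupport w) (x : EE m) :
    (Function.support fun g : Γ => tr act g w x).Finite := by
  obtain ⟨U, hU, S, hS⟩ := tr_locFinite h hw x
  apply S.finite_toSet.subset
  intro g hg
  by_contra hgS
  exact hg (hS x (mem_of_mem_nhds hU) g hgS)

/-- pointwise: `finsum_add_distrib` with finite supports (`tr_locFinite` at the point) -/
theorem Nm_add (h : GoodAction Γ m act) {k : ℕ} {w w' : Frm m k} (hw : HasCompactSupport w)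
    (hw' : HasCompactSupport w') : Nm act (w + w') = Nm act w + Nm act w' := by
  funext x
  show ∑ᶠ g : Γ, tr act g (w + w') x = ∑ᶠ g : Γ, tr act g w x + ∑ᶠ g : Γ, tr act g w' x
  rw [← finsum_add_distrib (N03_fin h hw x) (N03_fin h hw' x)]
  rfl

theorem Nm_smul (h : GoodAction Γ m act) {k : ℕ} (c : ℝ) {w : Frm m k} (hw : HasCompactSupport w) :
    Nm act (c • w) = c • Nm act w := by
  funext x
  show ∑ᶠ g : Γ, tr act g (c • w) x = c • ∑ᶠ g : Γ, tr act g w x
  rw [smul_finsum' c (N03_fin h hw x)]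
  rfl

/-- reindexing of the sum by right multiplication with `g` -/
theorem Nm_tr (h : GoodAction Γ m act) {k : ℕ} (g : Γ) {w : Frm m k} (hw : HasCompactSupport w) :
    Nm act (tr act g w) = Nm act w := by
  funext x
  show ∑ᶠ a : Γ, tr act a (tr act g w) x = ∑ᶠ a : Γ, tr act a w x
  simp only [← tr_mul h]
  exact finsum_comp_equiv (Equiv.mulRight g) (f := fun a => tr act a w x)

/-- reindexing by left multiplication; `tr act g (∑ ..) = ∑ tr act g (..)` pointwise as a finite sum -/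
theorem tr_Nm (h : GoodAction Γ m act) {k : ℕ} (g : Γ) {w : Frm m k} (hw : HasCompactSupport w) :
    tr act g (Nm act w) = Nm act w := by
  funext x
  have h1 : tr act g (Nm act w) x = ∑ᶠ a : Γ, tr act g (tr act a w) x := by
    show (∑ᶠ a : Γ, tr act a w (act g⁻¹ x)).compContinuousLinearMap (fderiv ℝ (act g⁻¹) x) = _
    have h2 := (AddMonoidHom.map_finsum (f := fun a : Γ => tr act a w (act g⁻¹ x))
      (⟨⟨fun u : Alt m k => u.compContinuousLinearMap (fderiv ℝ (act g⁻¹) x), rfl⟩,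
        fun u u' => rfl⟩ : Alt m k →+ Alt m k) (N03_fin h hw _))
    exact h2
  rw [h1]
  simp only [← tr_mul h]
  exact finsum_comp_equiv (Equiv.mulLeft g) (f := fun a => tr act a w x)

/-- `tr_support` -/
theorem Nm_support (h : GoodAction Γ m act) {k : ℕ} (w : Frm m k) (x : EE m)
    (hx : x ∉ Sat act (tsupport w)) : Nm act w x = 0 := by
  show ∑ᶠ a : Γ, tr act a w x = 0
  rw [← finsum_zero (α := Γ)]
  apply finsum_congr
  intro g
  by_contra h0
  apply hx
  exact ⟨g, act g⁻¹ x, subset_tsupport _ (tr_support h g w x h0), (act_inv h g x).1⟩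

end C37A
end

section

set_option autoImplicit false

open scoped ContDiff Topology
open MeasureTheory

namespace C37A

variable {Γ : Type} [Group Γ] {m : ℕ} {act : Γ → EE m → EE m}

/-- there is a smooth function which is `1/t` for `t ≥ 1`: `t ↦ Real.smoothTransition (2 * t - 1) * t⁻¹`
(smooth at `t > 0`, and zero for `t < 1/2`) -/
theorem smoothInv : ∃ v : ℝ → ℝ, ContDiff ℝ ∞ v ∧ ∀ t, 1 ≤ t → v t = t⁻¹ := by
  refine ⟨fun t => Real.smoothTransition (2 * t - 1) * t⁻¹, ?_, ?_⟩
  · rw [contDiff_iff_contDiffAt]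
    intro t
    rcases lt_or_ge t (1 / 2) with ht | ht
    · have h1 : (fun t : ℝ => Real.smoothTransition (2 * t - 1) * t⁻¹) =ᶠ[𝓝 t] fun _ => (0 : ℝ) := by
        filter_upwards [Iio_mem_nhds ht] with s hs
        have hs' : s < 1 / 2 := hs
        rw [Real.smoothTransition.zero_of_nonpos (by linarith), zero_mul]
      exact (contDiffAt_const).congr_of_eventuallyEq h1
    · have ht0 : t ≠ 0 := by
        intro h0
        rw [h0] at ht
        norm_num at ht
      have h2 : ContDiff ℝ ∞ (fun t : ℝ => Real.smoothTransition (2 * t - 1)) :=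
        Real.smoothTransition.contDiff.comp ((contDiff_const.mul contDiff_id).sub contDiff_const)
      exact h2.contDiffAt.mul (contDiffAt_id.inv ht0)
  · intro t ht
    show Real.smoothTransition (2 * t - 1) * t⁻¹ = t⁻¹
    rw [Real.smoothTransition.one_of_one_le (by linarith), one_mul]

private theorem N04_sum_local (h : GoodAction Γ m act) {φ : EE m → ℝ} (hφ : HasCompactSupport φ) (x : EE m) :
    ∃ S : Finset Γ, ∀ᶠ y in 𝓝 x, (∑ᶠ g : Γ, φ (act g y)) = ∑ g ∈ S, φ (act g y) := by
  obtain ⟨U, hU, S, hS⟩ := fun_locFinite h hφ x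
  refine ⟨S, ?_⟩
  filter_upwards [hU] with y hy
  apply finsum_eq_sum_of_support_subset
  intro g hg
  by_contra hgS
  exact hg (hS y hy g hgS)

private theorem N04_bump {C : Set (EE m)} (hC : IsCompact C) : ∃ φ : EE m → ℝ, ContDiff ℝ ∞ φ ∧
    HasCompactSupport φ ∧ (∀ x, 0 ≤ φ x) ∧ ∀ x ∈ C, φ x = 1 := by
  obtain ⟨R, hR⟩ := hC.isBounded.subset_closedBall (0 : EE m)
  let f : ContDiffBump (0 : EE m) := ⟨max R 1, max R 1 + 1, by positivity, by linarith⟩
  refine ⟨f, f.contDiff, f.hasCompactSupport, fun x => f.nonneg, ?_⟩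
  intro x hx
  apply f.one_of_mem_closedBall
  exact Metric.closedBall_subset_closedBall (le_max_left _ _) (hR hx)

private theorem N04_act_eq_of_mul (h : GoodAction Γ m act) (a b : Γ) (x : EE m) :
    act a (act b x) = act (a * b) x := (h.mul a b x).symm

private theorem N04_sum_inv (h : GoodAction Γ m act) (φ : EE m → ℝ) (a : Γ) (x : EE m) :
    (∑ᶠ g : Γ, φ (act g (act a x))) = ∑ᶠ g : Γ, φ (act g x) := by
  have h1 : (fun g : Γ => φ (act g (act a x))) = fun g : Γ => (fun g' : Γ => φ (act g' x)) ((Equiv.mulRight a) g) := by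
    funext g
    show φ (act g (act a x)) = φ (act (g * a) x)
    rw [h.mul]
  rw [h1]
  exact finsum_comp_equiv (Equiv.mulRight a) (f := fun g' : Γ => φ (act g' x))

/-- The partition function. PROOF. Take a smooth `φ ≥ 0` with compact support and `φ = 1` on `C`
(`exists_contDiff_tsupport_subset` or `exists_smooth_one_nhds_of_subset_interior`..). `Φ x = ∑ᶠ g, φ (act g x)` is
locally a finite sum of smooth functions (`fun_locFinite`), hence smooth; it is invariant, and `Φ ≥ 1` on `Sat act C`.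
Put `ψ = φ * v (Φ)`, `v` from `smoothInv`: `∑ᶠ g, ψ (act g x) = (∑ᶠ g, φ (act g x)) * v (Φ x) = Φ x * v (Φ x)`. -/
theorem exists_psi (h : GoodAction Γ m act) {C : Set (EE m)} (hC : IsCompact C) :
    ∃ ψ : EE m → ℝ, ContDiff ℝ ∞ ψ ∧ HasCompactSupport ψ ∧ ∀ x ∈ Sat act C, ∑ᶠ g : Γ, ψ (act g x) = 1 := by
  obtain ⟨φ, hφ1, hφ2, hφ3, hφ4⟩ := N04_bump hC
  obtain ⟨v, hv1, hv2⟩ := smoothInv
  set Φ : EE m → ℝ := fun x => ∑ᶠ g : Γ, φ (act g x) with hΦ
  have hΦs : ContDiff ℝ ∞ Φ := by
    rw [contDiff_iff_contDiffAt]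
    intro x
    obtain ⟨S, hS⟩ := N04_sum_local h hφ2 x
    have h1 : ContDiff ℝ ∞ (fun y => ∑ g ∈ S, φ (act g y)) :=
      ContDiff.sum (fun g _ => hφ1.comp (h.smooth g))
    exact h1.contDiffAt.congr_of_eventuallyEq hS
  have hinv : ∀ (a : Γ) (x : EE m), Φ (act a x) = Φ x := fun a x => N04_sum_inv h φ a x
  have hfin : ∀ x : EE m, (Function.support (fun g : Γ => φ (act g x))).Finite := by
    intro x
    obtain ⟨U, hU, S, hS⟩ := fun_locFinite h hφ2 x
    apply S.finite_toSet.subset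
    intro g hg
    by_contra hgS
    exact hg (hS x (mem_of_mem_nhds hU) g hgS)
  refine ⟨fun x => φ x * v (Φ x), hφ1.mul (hv1.comp hΦs), hφ2.mul_right, ?_⟩
  intro x hx
  obtain ⟨g0, c, hc, rfl⟩ := hx
  have h1 : Φ (act g0 c) = Φ c := hinv g0 c
  have h2 : 1 ≤ Φ c := by
    have h3 : φ (act 1 c) ≤ ∑ᶠ g : Γ, φ (act g c) := by
      apply single_le_finsum (1 : Γ) (hfin c)
      intro g
      exact hφ3 _
    rw [h.one, hφ4 c hc] at h3
    exact h3
  have h4 : (fun g : Γ => φ (act g (act g0 c)) * v (Φ (act g (act g0 c)))) =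
      fun g : Γ => φ (act g (act g0 c)) * v (Φ c) := by
    funext g
    rw [hinv, hinv]
  have h5 : (∑ᶠ g : Γ, φ (act g (act g0 c)) * v (Φ (act g (act g0 c)))) = Φ (act g0 c) * v (Φ c) := by
    rw [h4, ← finsum_mul (fun g : Γ => φ (act g (act g0 c))) (v (Φ c))]
  show (∑ᶠ g : Γ, φ (act g (act g0 c)) * v (Φ (act g (act g0 c)))) = 1
  rw [h5, h1, hv2 _ h2]
  exact mul_inv_cancel₀ (by linarith)

end C37A
end

section

set_option autoImplicit false

open scoped ContDiff Topology
open MeasureTheory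

namespace C37A

variable {Γ : Type} [Group Γ] {m : ℕ} {act : Γ → EE m → EE m}

/-- a product of a compactly supported smooth function with a smooth form -/
theorem mul_isOm {k : ℕ} {φ : EE m → ℝ} (hφ : ContDiff ℝ ∞ φ) (hc : HasCompactSupport φ) {w : Frm m k}
    (hw : ContDiff ℝ ∞ w) : IsOm (fun x => φ x • w x) := by
  refine ⟨hφ.smul hw, ?_⟩
  apply hc.mono
  intro x hx h0
  apply hx
  simp only
  rw [h0, zero_smul]

/-- An invariant form which vanishes off the saturation of `C` is the transfer of `ψ w`: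
`tr act g (ψ w) x = ψ (act g⁻¹ x) • tr act g w x = ψ (act g⁻¹ x) • w x` (`pb_mul`); sum over `g` (reindex by
`g ↦ g⁻¹`, finite support by `fun_locFinite`). -/
theorem Nm_psi (h : GoodAction Γ m act) {k : ℕ} {w : Frm m k} (hinv : ∀ g, tr act g w = w) {C : Set (EE m)}
    (hC : ∀ x, x ∉ Sat act C → w x = 0) {ψ : EE m → ℝ} (hψ : HasCompactSupport ψ)
    (h1 : ∀ x ∈ Sat act C, ∑ᶠ g : Γ, ψ (act g x) = 1) : Nm act (fun x => ψ x • w x) = w := by
  funext x
  have h2 : Nm act (fun x => ψ x • w x) x = ∑ᶠ g : Γ, ψ (act g⁻¹ x) • w x := by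
    unfold Nm
    apply finsum_congr
    intro g
    have h3 : tr act g (fun x => ψ x • w x) x = ψ (act g⁻¹ x) • tr act g w x := rfl
    rw [h3, hinv g]
  rw [h2]
  have h4 : ∑ᶠ g : Γ, ψ (act g⁻¹ x) • w x = ∑ᶠ g : Γ, ψ (act g x) • w x :=
    finsum_comp_equiv (Equiv.inv Γ) (f := fun g => ψ (act g x) • w x)
  rw [h4]
  by_cases hx : x ∈ Sat act C
  · obtain ⟨U, hU, S, hS⟩ := fun_locFinite h hψ x
    have hfin : (Function.support fun g : Γ => ψ (act g x)).Finite := by
      apply S.finite_toSet.subset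
      intro g hg
      by_contra hgS
      exact hg (hS x (mem_of_mem_nhds hU) g hgS)
    have h5 := finsum_smul' (M := Alt m k) (f := fun g : Γ => ψ (act g x)) hfin (w x)
    rw [← h5, h1 x hx, one_smul]
  · rw [hC x hx]
    simp

end C37A
end

section

set_option autoImplicit false

open scoped ContDiff Topology
open MeasureTheory

namespace C37A

variable {Γ : Type} [Group Γ] {m : ℕ} {act : Γ → EE m → EE m}

/-- the representation of `Γ` on the space of smooth `k`-forms with compact support -/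
noncomputable def rho (h : GoodAction Γ m act) (k : ℕ) : Representation ℝ Γ (Om m k) where
  toFun g :=
    { toFun := fun w => ⟨tr act g w.1, tr_isOm h g w.2⟩
      map_add' := fun w w' => Subtype.ext (pb_add _ _ _)
      map_smul' := fun c w => Subtype.ext (pb_smul _ _ _) }
  map_one' := by
    ext1 w
    exact Subtype.ext (tr_one h w.1)
  map_mul' a b := by
    ext1 w
    exact Subtype.ext (tr_mul h a b w.1)

@[simp] theorem rho_coe (h : GoodAction Γ m act) (k : ℕ) (g : Γ) (w : Om m k) :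
    ((rho h k g w : Om m k) : Frm m k) = tr act g w.1 := rfl

/-- the exterior derivative on smooth forms with compact support -/
noncomputable def dL (m k : ℕ) : Om m k →ₗ[ℝ] Om m (k + 1) where
  toFun w := ⟨extDeriv w.1, extDeriv_isOm w.2⟩
  map_add' w w' := by
    apply Subtype.ext
    funext x
    exact extDeriv_add (w.2.1.differentiable (by simp) x) (w'.2.1.differentiable (by simp) x)
  map_smul' c w := by
    apply Subtype.ext
    funext x
    exact extDeriv_smul c w.1

@[simp] theorem dL_coe (m k : ℕ) (w : Om m k) : ((dL m k w : Om m (k + 1)) : Frm m (k + 1)) = extDeriv w.1 := rfl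

theorem dL_dL (m k : ℕ) (w : Om m k) : dL m (k + 1) (dL m k w) = 0 :=
  Subtype.ext (extDeriv_extDeriv0 w.2.1)

theorem dL_rho (h : GoodAction Γ m act) (k : ℕ) (g : Γ) (w : Om m k) :
    dL m k (rho h k g w) = rho h (k + 1) g (dL m k w) :=
  Subtype.ext (extDeriv_tr h g w.2.1)

end C37A
end

section

set_option autoImplicit false

open scoped ContDiff Topology
open MeasureTheory

namespace C37A

variable {Γ : Type} [Group Γ] {m : ℕ} {act : Γ → EE m → EE m}

private theorem N07_fin2 (h : GoodAction Γ m act) {ψ : EE m → ℝ} (hψ : HasCompactSupport ψ) (x : EE m) :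
    (Function.support (fun g : Γ => ψ (act g x))).Finite := by
  obtain ⟨U, hU, S, hS⟩ := fun_locFinite h hψ x
  apply S.finite_toSet.subset
  intro g hg
  by_contra hgS
  exact hg (hS x (mem_of_mem_nhds hU) g hgS)

private theorem N07_comp_support (h : GoodAction Γ m act) {ψ : EE m → ℝ} (hψ2 : HasCompactSupport ψ) (g : Γ) :
    HasCompactSupport (fun x => ψ (act g x)) := by
  have h1 : zf (fun x => ψ (act g x)) = tr act g⁻¹ (zf ψ) := by
    show _ = pb (act g⁻¹⁻¹) (zf ψ)
    rw [pb_zf, inv_inv]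
  have hz : HasCompactSupport (zf ψ : Frm m 0) := by
    apply hψ2.mono
    intro x hx
    have hx' : zf ψ x ≠ 0 := hx
    show ψ x ≠ 0
    intro h0
    apply hx'
    show ContinuousAlternatingMap.constOfIsEmpty ℝ (EE m) (Fin 0) (ψ x) = 0
    rw [h0]
    ext v
    rfl
  have h2 := tr_compact h g⁻¹ (zf ψ) hz
  rw [← h1] at h2
  apply h2.mono
  intro x hx
  have hx' : ψ (act g x) ≠ 0 := hx
  show zf (fun x => ψ (act g x)) x ≠ 0
  intro h0
  apply hx'
  have h3 : zf (fun x => ψ (act g x)) x (fun a => a.elim0) = 0 := by rw [h0]; rfl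
  exact h3

/-- product of a form with a function, as a linear map -/
private noncomputable def N07_mul {k : ℕ} (ψ : EE m → ℝ) (h1 : ContDiff ℝ ∞ ψ) (h2 : HasCompactSupport ψ) :
    Om m k →ₗ[ℝ] Om m k where
  toFun w := ⟨fun x => ψ x • w.1 x, mul_isOm h1 h2 w.2.1⟩
  map_add' w w' := by
    apply Subtype.ext
    funext x
    exact smul_add (ψ x) (w.1 x) (w'.1 x)
  map_smul' c w := by
    apply Subtype.ext
    funext x
    exact smul_comm (ψ x) c (w.1 x)

private theorem N07_mul_coe {k : ℕ} (ψ : EE m → ℝ) (h1 : ContDiff ℝ ∞ ψ) (h2 : HasCompactSupport ψ)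
    (w : Om m k) (x : EE m) : (N07_mul ψ h1 h2 w).1 x = ψ x • w.1 x := rfl

private theorem N07_congr {k : ℕ} (ψ ψ' : EE m → ℝ) (h1 : ContDiff ℝ ∞ ψ) (h2 : HasCompactSupport ψ)
    (h1' : ContDiff ℝ ∞ ψ') (h2' : HasCompactSupport ψ') (w w' : Om m k) (he : ψ = ψ') (hw : w = w') :
    N07_mul ψ h1 h2 w = N07_mul ψ' h1' h2' w' := by
  subst he
  subst hw
  rfl

/-- the terms -/
private noncomputable def N07_T (h : GoodAction Γ m act) (k : ℕ) {ψ : EE m → ℝ} (h1 : ContDiff ℝ ∞ ψ)
    (h2 : HasCompactSupport ψ) (g : Γ) : Om m k →ₗ[ℝ] Om m k :=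
  N07_mul (fun x => ψ (act g⁻¹ x)) (h1.comp (h.smooth g⁻¹)) (N07_comp_support h h2 g⁻¹)

private theorem N07_T_coe (h : GoodAction Γ m act) (k : ℕ) {ψ : EE m → ℝ} (h1 : ContDiff ℝ ∞ ψ)
    (h2 : HasCompactSupport ψ) (g : Γ) (w : Om m k) (x : EE m) :
    (N07_T h k h1 h2 g w).1 x = ψ (act g⁻¹ x) • w.1 x := rfl

private theorem N07_T_equi (h : GoodAction Γ m act) (k : ℕ) {ψ : EE m → ℝ} (h1 : ContDiff ℝ ∞ ψ)
    (h2 : HasCompactSupport ψ) (g g' : Γ) (w : Om m k) :
    N07_T h k h1 h2 (g * g') (rho h k g w) = rho h k g (N07_T h k h1 h2 g' w) := by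
  apply Subtype.ext
  have h4 : ((rho h k g (N07_T h k h1 h2 g' w) : Om m k) : Frm m k) =
      tr act g (fun x => ψ (act g'⁻¹ x) • w.1 x) := rfl
  have h5 : ((N07_T h k h1 h2 (g * g') (rho h k g w) : Om m k) : Frm m k) =
      fun x => ψ (act (g * g')⁻¹ x) • tr act g w.1 x := rfl
  rw [h4, h5]
  unfold tr
  rw [pb_mul]
  funext x
  rw [mul_inv_rev, h.mul]

private theorem N07_T_fin (h : GoodAction Γ m act) (k : ℕ) {ψ : EE m → ℝ} (h1 : ContDiff ℝ ∞ ψ)
    (h2 : HasCompactSupport ψ) (w : Om m k) : {g : Γ | N07_T h k h1 h2 g w ≠ 0}.Finite := by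
  have hfin := proper_inv h (C := tsupport ψ) (K := tsupport w.1) h2 w.2.2
  have hfin2 := hfin.preimage (f := fun g : Γ => g⁻¹) (inv_injective.injOn)
  apply hfin2.subset
  intro g hg
  by_contra hne
  apply hg
  apply Subtype.ext
  funext x
  show ψ (act g⁻¹ x) • w.1 x = 0
  by_contra hne2
  apply hne
  refine ⟨x, ?_, ?_⟩
  · apply subset_tsupport
    intro h0
    apply hne2
    rw [h0]
    exact smul_zero _
  · apply subset_tsupport
    intro h0
    apply hne2
    rw [h0]
    exact zero_smul ℝ _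

/-- an abstract criterion -/
private theorem N07_abs {V : Type} [AddCommGroup V] [Module ℝ V] (ρ : Representation ℝ Γ V)
    (hT : ∀ F : Finset V, ∃ T : Γ → V →ₗ[ℝ] V, (∀ v, {g : Γ | T g v ≠ 0}.Finite) ∧
      (∀ g g' v, T (g * g') (ρ g v) = ρ g (T g' v)) ∧
      ∀ v ∈ F, ∀ S : Finset Γ, (∀ g, g ∉ S → T g v = 0) → ∑ g ∈ S, T g v = v) : LocInd (G := Γ) (V := V) ρ := by
  intro F
  obtain ⟨T, h1, h2, h3⟩ := hT F
  let σ : V →ₗ[ℝ] (Γ →₀ V) :=
    { toFun := fun v => Finsupp.ofSupportFinite (fun g => T g v) (h1 v)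
      map_add' := by
        intro v v'
        ext g
        exact (T g).map_add v v'
      map_smul' := by
        intro c v
        ext g
        exact (T g).map_smul c v }
  refine ⟨σ, ?_, ?_⟩
  · intro g v g'
    exact h2 g g' v
  · intro v hv
    apply h3 v hv (σ v).support
    intro g hg
    exact Finsupp.notMem_support_iff.mp hg

private theorem N07_sum_coe {k : ℕ} (T : Finset Γ) (a : Γ → Om m k) (x : EE m) :
    ((∑ g ∈ T, a g : Om m k) : Frm m k) x = ∑ g ∈ T, (a g).1 x := by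
  rw [Submodule.coe_sum, Finset.sum_apply]

private theorem N07_sum (h : GoodAction Γ m act) (k : ℕ) {ψ : EE m → ℝ} (h1 : ContDiff ℝ ∞ ψ)
    (h2 : HasCompactSupport ψ) {C : Set (EE m)} (h3 : ∀ x ∈ Sat act C, ∑ᶠ g : Γ, ψ (act g x) = 1)
    (w : Om m k) (hw : tsupport w.1 ⊆ C) (S : Finset Γ) (hS : ∀ g, g ∉ S → N07_T h k h1 h2 g w = 0) :
    ∑ g ∈ S, N07_T h k h1 h2 g w = w := by
  apply Subtype.ext
  funext x
  rw [N07_sum_coe]
  have h5 : ∑ g ∈ S, (N07_T h k h1 h2 g w).1 x = ∑ g ∈ S, ψ (act g⁻¹ x) • w.1 x := rfl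
  rw [h5]
  have hS' : ∀ g, g ∉ S → ψ (act g⁻¹ x) • w.1 x = 0 := by
    intro g hg
    have h6 := hS g hg
    have h7 : (N07_T h k h1 h2 g w).1 x = 0 := by rw [h6]; rfl
    exact h7
  by_cases hx : x ∈ tsupport w.1
  · have h6 : ∑ g ∈ S, ψ (act g⁻¹ x) • w.1 x = ∑ᶠ g : Γ, ψ (act g⁻¹ x) • w.1 x := by
      symm
      apply finsum_eq_sum_of_support_subset
      intro g hg
      by_contra hgT
      exact hg (hS' g (fun h' => hgT (Finset.mem_coe.mpr h')))
    have h8 : (Function.support (fun g : Γ => ψ (act g⁻¹ x))).Finite :=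
      (N07_fin2 h h2 x).preimage (f := fun g : Γ => g⁻¹) (inv_injective.injOn)
    have h7 : (∑ᶠ g : Γ, ψ (act g⁻¹ x)) • w.1 x = ∑ᶠ g : Γ, ψ (act g⁻¹ x) • w.1 x :=
      finsum_smul' h8 (w.1 x)
    have h9 : (∑ᶠ g : Γ, ψ (act g⁻¹ x)) = ∑ᶠ g : Γ, ψ (act g x) :=
      finsum_comp_equiv (Equiv.inv Γ) (f := fun g : Γ => ψ (act g x))
    rw [h6, ← h7, h9, h3 x ⟨1, x, hw hx, h.one x⟩]
    exact one_smul ℝ _
  · have h8 : w.1 x = 0 := image_eq_zero_of_notMem_tsupport hx
    rw [h8]
    exact Finset.sum_eq_zero (fun g _ => smul_zero _)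

/-- The forms with compact support are locally induced. PROOF. Let `C` be the union of the (closed)
supports of the elements of `F`, `ψ` from `exists_psi` for `C`, `σ w g = (x ↦ ψ (act g⁻¹ x)) • w` (an element of `Om m k`
by `mul_isOm`; only finitely many `g` give a nonzero form: `proper_inv`/`proper_two` for the compact sets `tsupport ψ`,
`tsupport w`). Equivariance: `tr act g ((ψ ∘ act h⁻¹) • w) = (ψ ∘ act h⁻¹ ∘ act g⁻¹) • tr act g w` (`pb_mul`,
`(g * h)⁻¹ = h⁻¹ * g⁻¹`). The sum: at `x ∈ C` the finite sum of the `ψ (act g⁻¹ x)` is `1` (reindex `g ↦ g⁻¹`), at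
`x ∉ C` both sides vanish. -/
theorem rho_locInd (h : GoodAction Γ m act) (k : ℕ) : LocInd (G := Γ) (V := Om m k) (rho h k) := by
  have h0 := N07_abs (V := Om m k) (rho h k)
  apply h0
  intro F
  have hC : IsCompact (⋃ w ∈ F, tsupport w.1) := F.isCompact_biUnion (fun w _ => w.2.2)
  obtain ⟨ψ, hψ1, hψ2, hψ3⟩ := exists_psi h hC
  refine ⟨N07_T h k hψ1 hψ2, N07_T_fin h k hψ1 hψ2, N07_T_equi h k hψ1 hψ2, ?_⟩
  intro w hw S hS
  apply N07_sum h k hψ1 hψ2 hψ3 w _ S hS
  exact Set.subset_biUnion_of_mem (u := fun w : Om m k => tsupport w.1) hw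

end C37A
end

section

set_option autoImplicit false

open scoped ContDiff Topology
open MeasureTheory

namespace C37A

/-- contraction preserves smooth forms with compact support (`curryLeft` is a continuous linear map; or `contDiff_alt`) -/
theorem io_isOm {m k : ℕ} (i : Fin m) {w : Frm m (k + 1)} (hw : IsOm w) : IsOm (io i w) := by
  constructor
  · rw [contDiff_alt]
    intro v
    exact contDiff_apply_vec hw.1 _
  · apply hw.2.mono
    intro x hx h0
    apply hx
    unfold io
    rw [h0]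
    rfl

/-- Cartan formula for the constant vector field `e_i`. PROOF. Evaluate at `v : Fin (k+1) → EE m` with `extDeriv_apply`:
`extDeriv (io i w) x v = ∑_a (-1)^a fderiv (y ↦ w y (e_i, v without v_a)) x (v_a)` and
`extDeriv w x (e_i, v) = fderiv (y ↦ w y v) x e_i + ∑_a (-1)^(a+1) fderiv (y ↦ w y (e_i, v without v_a)) x (v_a)`
(`Fin.sum_univ_succ`). -/
theorem cartan {m k : ℕ} (i : Fin m) {w : Frm m (k + 1)} (hw : ContDiff ℝ ∞ w) (x : EE m) :
    extDeriv (io i w) x + io i (extDeriv w) x = fderiv ℝ w x (ee i) := by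
  have hio : ContDiff ℝ ∞ (io i w) := by
    rw [contDiff_alt]
    intro v
    exact contDiff_apply_vec hw _
  have hdw : DifferentiableAt ℝ w x := hw.differentiable (by simp) x
  ext v
  have h1 : (extDeriv (io i w) x + io i (extDeriv w) x) v =
      extDeriv (io i w) x v + extDeriv w x (Matrix.vecCons (ee i) v) := rfl
  rw [h1, extDeriv_apply (hio.differentiable (by simp) x), extDeriv_apply hdw]
  conv_lhs =>
    arg 2
    rw [Fin.sum_univ_succ]
  have h2 : ∀ a : Fin (k + 1), (fun y => w y (Fin.removeNth a.succ (Matrix.vecCons (ee i) v))) =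
      fun y => io i w y (a.removeNth v) := by
    intro a
    funext y
    show _ = w y (Matrix.vecCons (ee i) (a.removeNth v))
    congr 1
    funext b
    refine Fin.cases ?_ (fun b => ?_) b
    · simp [Fin.removeNth]
    · simp [Fin.removeNth]
  have h3 : (fun y => w y (Fin.removeNth 0 (Matrix.vecCons (ee i) v))) = fun y => w y v := by
    funext y
    congr 1
  simp only [h2, h3]
  have h4 : fderiv ℝ (fun y => w y v) x (ee i) = fderiv ℝ w x (ee i) v := by
    have h5 := fderiv_continuousAlternatingMap_apply_const_apply hdw v (ee i)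
    exact h5
  simp [h4, pow_succ]

end C37A
end

section

set_option autoImplicit false

open scoped ContDiff Topology
open MeasureTheory

namespace C37A

variable {Γ : Type} [Group Γ] {m : ℕ} {act : Γ → EE m → EE m}

/-- `Nm act w` is locally a finite sum (`tr_locFinite`, `finsum_eq_sum_of_support_subset`). -/
theorem Nm_local (h : GoodAction Γ m act) {k : ℕ} {w : Frm m k} (hw : HasCompactSupport w) (x : EE m) :
    ∃ S : Finset Γ, ∀ᶠ y in 𝓝 x, Nm act w y = ∑ g ∈ S, tr act g w y := by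
  obtain ⟨U, hU, S, hS⟩ := tr_locFinite h hw x
  refine ⟨S, ?_⟩
  filter_upwards [hU] with y hy
  apply finsum_eq_sum_of_support_subset
  intro g hg
  by_contra hgS
  exact hg (hS y hy g hgS)

theorem Nm_contDiff (h : GoodAction Γ m act) {k : ℕ} {w : Frm m k} (hw : IsOm w) : ContDiff ℝ ∞ (Nm act w) := by
  rw [contDiff_iff_contDiffAt]
  intro x
  obtain ⟨S, hS⟩ := Nm_local h hw.2 x
  have h1 : ContDiff ℝ ∞ (fun y => ∑ g ∈ S, tr act g w y) :=
    ContDiff.sum (fun g _ => (tr_isOm h g hw).1)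
  exact h1.contDiffAt.congr_of_eventuallyEq hS

/-- `Nm_local`, `Filter.EventuallyEq.extDeriv_eq`, linearity of `extDeriv`, `extDeriv_tr`. (Choose one finite set for `w`
and for `extDeriv w`: the set of `tr_locFinite` for `w` works for both after shrinking to the interior of `U`.) -/
theorem extDeriv_Nm (h : GoodAction Γ m act) {k : ℕ} {w : Frm m k} (hw : IsOm w) :
    extDeriv (Nm act w) = Nm act (extDeriv w) := by
  classical
  funext x
  obtain ⟨U, hU, S, hS⟩ := tr_locFinite h hw.2 x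
  obtain ⟨U', hU', S', hS'⟩ := tr_locFinite h (extDeriv_isOm hw).2 x
  have h1 : Nm act w =ᶠ[𝓝 x] fun y => ∑ g ∈ S ∪ S', tr act g w y := by
    filter_upwards [hU] with y hy
    apply finsum_eq_sum_of_support_subset
    intro g hg
    by_contra hgS
    apply hg
    apply hS y hy g
    intro h0
    apply hgS
    exact Finset.mem_coe.mpr (Finset.mem_union_left _ h0)
  have h2 : Nm act (extDeriv w) x = ∑ g ∈ S ∪ S', tr act g (extDeriv w) x := by
    apply finsum_eq_sum_of_support_subset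
    intro g hg
    by_contra hgS
    apply hg
    apply hS' x (mem_of_mem_nhds hU') g
    intro h0
    apply hgS
    exact Finset.mem_coe.mpr (Finset.mem_union_right _ h0)
  rw [h1.extDeriv_eq, h2]
  have h3 : ∀ T : Finset Γ, extDeriv (fun y => ∑ g ∈ T, tr act g w y) x = ∑ g ∈ T, tr act g (extDeriv w) x := by
    intro T
    induction T using Finset.induction_on with
    | empty =>
      simp only [Finset.sum_empty]
      have h0 := extDeriv_smul (x := x) (0 : ℝ) (fun _ : EE m => (0 : Alt m k))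
      rw [zero_smul, zero_smul] at h0
      exact h0
    | insert a T ha ih =>
      simp only [Finset.sum_insert ha]
      have h4 : ContDiff ℝ ∞ (fun y => ∑ g ∈ T, tr act g w y) := ContDiff.sum (fun g _ => (tr_isOm h g hw).1)
      have h5 := extDeriv_add (x := x) ((tr_isOm h a hw).1.differentiable (by simp) x) (h4.differentiable (by simp) x)
      rw [← ih, ← extDeriv_tr h a hw.1, ← h5]
      rfl
  exact h3 _

end C37A
end

section

set_option autoImplicit false

open scoped ContDiff Topology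
open MeasureTheory

namespace C37A

variable {Γ : Type} [Group Γ] {m : ℕ} {act : Γ → EE m → EE m}

/-- `Nm_add`, `Nm_smul`, `Nm_tr` and `Submodule.span_induction` -/
theorem Nm_of_aug (h : GoodAction Γ m act) {k : ℕ} {w : Om m k} (hw : w ∈ Aug (rho h k)) : Nm act w.1 = 0 := by
  induction hw using Submodule.span_induction with
  | mem u hu =>
    obtain ⟨g, v, rfl⟩ := hu
    have h1 : ((rho h k g v - v : Om m k) : Frm m k) = tr act g v.1 + (-1 : ℝ) • v.1 := by
      have h2 : (-1 : ℝ) • v.1 = -v.1 := neg_one_smul ℝ v.1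
      rw [h2]
      exact sub_eq_add_neg _ _
    have h3 : (-1 : ℝ) • Nm act v.1 = -Nm act v.1 := neg_one_smul ℝ (Nm act v.1)
    rw [h1, Nm_add h (tr_isOm h g v.2).2 ((Om m k).smul_mem (-1 : ℝ) v.2).2, Nm_tr h g v.2.2,
      Nm_smul h (-1 : ℝ) v.2.2, h3]
    exact add_neg_cancel _
  | zero =>
    have h1 : ((0 : Om m k) : Frm m k) = (0 : ℝ) • ((0 : Om m k) : Frm m k) := by simp
    rw [h1, Nm_smul h (0 : ℝ) (0 : Om m k).2.2]
    exact zero_smul ℝ _
  | add a b _ _ ha hb =>
    have h1 : ((a + b : Om m k) : Frm m k) = a.1 + b.1 := rfl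
    rw [h1, Nm_add h a.2.2 b.2.2, ha, hb, add_zero]
  | smul c a _ ha =>
    have h1 : ((c • a : Om m k) : Frm m k) = c • a.1 := rfl
    rw [h1, Nm_smul h c a.2.2, ha, smul_zero]

private theorem N06_fin (h : GoodAction Γ m act) {k : ℕ} {w : Frm m k} (hw : HasCompactSupport w) (x : EE m) :
    (Function.support (fun g : Γ => tr act g w x)).Finite := by
  obtain ⟨U, hU, S, hS⟩ := tr_locFinite h hw x
  apply S.finite_toSet.subset
  intro g hg
  by_contra hgS
  exact hg (hS x (mem_of_mem_nhds hU) g hgS)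

private theorem N06_fin2 (h : GoodAction Γ m act) {ψ : EE m → ℝ} (hψ : HasCompactSupport ψ) (x : EE m) :
    (Function.support (fun g : Γ => ψ (act g x))).Finite := by
  obtain ⟨U, hU, S, hS⟩ := fun_locFinite h hψ x
  apply S.finite_toSet.subset
  intro g hg
  by_contra hgS
  exact hg (hS x (mem_of_mem_nhds hU) g hgS)

private theorem N06_alg {V : Type} [AddCommGroup V] [Module ℝ V] (ρ : Representation ℝ Γ V) (T : Finset Γ)
    (a : Γ → V) (w : V) (h1 : ∑ g ∈ T, a g = w) (h2 : ∑ g ∈ T, ρ g (a g) = 0) : w ∈ Aug ρ := by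
  have h3 : w = ∑ g ∈ T, -(ρ g (a g) - a g) := by
    simp only [neg_sub]
    rw [Finset.sum_sub_distrib, h1, h2, sub_zero]
  rw [h3]
  apply Submodule.sum_mem
  intro g _
  apply Submodule.neg_mem
  apply Submodule.subset_span
  exact ⟨g, a g, rfl⟩

private theorem N06_alg' (h : GoodAction Γ m act) {k : ℕ} (T : Finset Γ)
    (a : Γ → Om m k) (w : Om m k) (h1 : ∑ g ∈ T, a g = w) (h2 : ∑ g ∈ T, rho h k g (a g) = 0) : w ∈ Aug (rho h k) := by
  have h3 := N06_alg (V := Om m k) (rho h k) T a w h1 h2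
  exact h3

private theorem N06_comp_support (h : GoodAction Γ m act) {ψ : EE m → ℝ} (hψ2 : HasCompactSupport ψ) (g : Γ) :
    HasCompactSupport (fun x => ψ (act g x)) := by
  have h1 : zf (fun x => ψ (act g x)) = tr act g⁻¹ (zf ψ) := by
    show _ = pb (act g⁻¹⁻¹) (zf ψ)
    rw [pb_zf, inv_inv]
  have hz : HasCompactSupport (zf ψ : Frm m 0) := by
    apply hψ2.mono
    intro x hx
    have hx' : zf ψ x ≠ 0 := hx
    show ψ x ≠ 0
    intro h0
    apply hx'
    show ContinuousAlternatingMap.constOfIsEmpty ℝ (EE m) (Fin 0) (ψ x) = 0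
    rw [h0]
    ext v
    rfl
  have h2 := tr_compact h g⁻¹ (zf ψ) hz
  rw [← h1] at h2
  apply h2.mono
  intro x hx
  have hx' : ψ (act g x) ≠ 0 := hx
  show zf (fun x => ψ (act g x)) x ≠ 0
  intro h0
  apply hx'
  have h3 : zf (fun x => ψ (act g x)) x (fun a => a.elim0) = 0 := by rw [h0]; rfl
  exact h3

/-- product of a form with a function -/
private noncomputable def N06_mul {k : ℕ} (ψ : EE m → ℝ) (h1 : ContDiff ℝ ∞ ψ) (h2 : HasCompactSupport ψ)
    (w : Om m k) : Om m k := ⟨fun x => ψ x • w.1 x, mul_isOm h1 h2 w.2.1⟩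

private theorem N06_mul_coe {k : ℕ} (ψ : EE m → ℝ) (h1 : ContDiff ℝ ∞ ψ) (h2 : HasCompactSupport ψ)
    (w : Om m k) (x : EE m) : (N06_mul ψ h1 h2 w).1 x = ψ x • w.1 x := rfl

private theorem N06_rho (h : GoodAction Γ m act) {k : ℕ} {ψ : EE m → ℝ} (h1 : ContDiff ℝ ∞ ψ)
    (h2 : HasCompactSupport ψ) (w : Om m k) (g : Γ) :
    rho h k g (N06_mul (fun x => ψ (act g x)) (h1.comp (h.smooth g)) (N06_comp_support h h2 g) w) =
      N06_mul ψ h1 h2 (rho h k g w) := by
  apply Subtype.ext
  have h3 : ((rho h k g (N06_mul (fun x => ψ (act g x)) (h1.comp (h.smooth g)) (N06_comp_support h h2 g) w) :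
      Om m k) : Frm m k) = tr act g (fun x => ψ (act g x) • w.1 x) := rfl
  have h4 : ((N06_mul ψ h1 h2 (rho h k g w) : Om m k) : Frm m k) = fun x => ψ x • tr act g w.1 x := rfl
  rw [h3, h4]
  unfold tr
  rw [pb_mul]
  funext x
  rw [(act_inv h g x).1]

private theorem N06_sum_coe {k : ℕ} (T : Finset Γ) (a : Γ → Om m k) (x : EE m) :
    ((∑ g ∈ T, a g : Om m k) : Frm m k) x = ∑ g ∈ T, (a g).1 x := by
  rw [Submodule.coe_sum, Finset.sum_apply]

private theorem N06_suma (h : GoodAction Γ m act) {k : ℕ} {w : Om m k} {ψ : EE m → ℝ} (h1 : ContDiff ℝ ∞ ψ)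
    (h2 : HasCompactSupport ψ) (h3 : ∀ x ∈ Sat act (tsupport w.1), ∑ᶠ g : Γ, ψ (act g x) = 1) (T : Finset Γ)
    (hT : ∀ g, g ∉ T → ∀ x, ψ (act g x) • w.1 x = 0) :
    ∑ g ∈ T, N06_mul (fun x => ψ (act g x)) (h1.comp (h.smooth g)) (N06_comp_support h h2 g) w = w := by
  apply Subtype.ext
  funext x
  rw [N06_sum_coe]
  have h5 : ∑ g ∈ T, (N06_mul (fun x => ψ (act g x)) (h1.comp (h.smooth g)) (N06_comp_support h h2 g) w).1 x =
      ∑ g ∈ T, ψ (act g x) • w.1 x := rfl
  rw [h5]
  by_cases hx : x ∈ tsupport w.1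
  · have h6 : ∑ g ∈ T, ψ (act g x) • w.1 x = ∑ᶠ g : Γ, ψ (act g x) • w.1 x := by
      symm
      apply finsum_eq_sum_of_support_subset
      intro g hg
      by_contra hgT
      exact hg (hT g (fun h' => hgT (Finset.mem_coe.mpr h')) x)
    have h7 : (∑ᶠ g : Γ, ψ (act g x)) • w.1 x = ∑ᶠ g : Γ, ψ (act g x) • w.1 x :=
      finsum_smul' (N06_fin2 h h2 x) (w.1 x)
    rw [h6, ← h7, h3 x ⟨1, x, hx, h.one x⟩]
    exact one_smul ℝ _
  · have h8 : w.1 x = 0 := image_eq_zero_of_notMem_tsupport hx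
    rw [h8]
    exact Finset.sum_eq_zero (fun g _ => smul_zero _)

private theorem N06_sumb (h : GoodAction Γ m act) {k : ℕ} {w : Om m k} (hw : Nm act w.1 = 0) {ψ : EE m → ℝ}
    (h1 : ContDiff ℝ ∞ ψ) (h2 : HasCompactSupport ψ) (T : Finset Γ)
    (hT : ∀ g, g ∉ T → ∀ x, ψ x • tr act g w.1 x = 0) :
    ∑ g ∈ T, N06_mul ψ h1 h2 (rho h k g w) = 0 := by
  apply Subtype.ext
  funext x
  rw [N06_sum_coe]
  have h5 : ∑ g ∈ T, (N06_mul ψ h1 h2 (rho h k g w)).1 x = ∑ g ∈ T, ψ x • tr act g w.1 x := rfl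
  rw [h5]
  have h6 : ∑ g ∈ T, ψ x • tr act g w.1 x = ∑ᶠ g : Γ, ψ x • tr act g w.1 x := by
    symm
    apply finsum_eq_sum_of_support_subset
    intro g hg
    by_contra hgT
    exact hg (hT g (fun h' => hgT (Finset.mem_coe.mpr h')) x)
  have h7 : (∑ᶠ g : Γ, tr act g w.1 x) = 0 := congrFun hw x
  have h8 : ψ x • (∑ᶠ g : Γ, tr act g w.1 x) = ∑ᶠ g : Γ, ψ x • tr act g w.1 x :=
    smul_finsum' (ψ x) (N06_fin h w.2.2 x)
  rw [h6, ← h8, h7]
  exact smul_zero _

/-- The kernel of the transfer. PROOF. `C = tsupport w`, `ψ` from `exists_psi`. Modulo `Aug`: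
`w = ∑_g (ψ ∘ act g) w` (finite sum over a finset `S ⊆ Γ` outside which `ψ (act g x) w x = 0` for all `x`: `proper_inv`
with the compact sets `tsupport ψ`, `tsupport w`; on `C` the sum of the `ψ (act g x)` is `1`). The term
`(ψ ∘ act g) w = tr act g⁻¹ (ψ • tr act g w)` is congruent to `ψ • tr act g w` modulo `Aug`.
So `w ≡ ∑_{g ∈ S} ψ • tr act g w = ψ • Nm act w = 0`. -/
theorem aug_of_Nm (h : GoodAction Γ m act) {k : ℕ} {w : Om m k} (hw : Nm act w.1 = 0) : w ∈ Aug (rho h k) := by
  obtain ⟨ψ, hψ1, hψ2, hψ3⟩ := exists_psi h (C := tsupport w.1) w.2.2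
  have hfin := proper_inv h (C := tsupport ψ) (K := tsupport w.1) hψ2 w.2.2
  have ha0 : ∀ g, g ∉ hfin.toFinset → ∀ x, ψ (act g x) • w.1 x = 0 := by
    intro g hg x
    by_contra hne
    apply hg
    rw [Set.Finite.mem_toFinset]
    refine ⟨x, ?_, ?_⟩
    · apply subset_tsupport
      intro h0
      apply hne
      rw [h0]
      exact smul_zero _
    · apply subset_tsupport
      intro h0
      apply hne
      rw [h0]
      exact zero_smul ℝ _
  have hb0 : ∀ g, g ∉ hfin.toFinset → ∀ x, ψ x • tr act g w.1 x = 0 := by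
    intro g hg x
    by_contra hne
    have h1 : tr act g w.1 x ≠ 0 := by
      intro h0
      apply hne
      rw [h0]
      exact smul_zero _
    have h2 : ψ x ≠ 0 := by
      intro h0
      apply hne
      rw [h0]
      exact zero_smul ℝ _
    apply hg
    rw [Set.Finite.mem_toFinset]
    refine ⟨act g⁻¹ x, subset_tsupport _ (tr_support h g w.1 x h1), ?_⟩
    rw [(act_inv h g x).1]
    exact subset_tsupport _ h2
  have hA := N06_suma h hψ1 hψ2 hψ3 _ ha0
  have hC := N06_sumb h hw hψ1 hψ2 _ hb0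
  have hD : ∀ g ∈ hfin.toFinset, rho h k g (N06_mul (fun x => ψ (act g x)) (hψ1.comp (h.smooth g))
      (N06_comp_support h hψ2 g) w) = N06_mul ψ hψ1 hψ2 (rho h k g w) := fun g _ => N06_rho h hψ1 hψ2 w g
  exact N06_alg' h _ _ w hA ((Finset.sum_congr rfl hD).trans hC)

end C37A
end
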