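import Pool.Agent.Lib.MP_c37615_al.Mg.G003
import Pool.Agent.Lib.MP_c37615_al.Mg.G002
import Pool.Agent.Lib.MP_c37615_al.Mg.G001

section

set_option autoImplicit false

open scoped ContDiff Topology
open MeasureTheory

namespace C37A

theorem P06_alt {m k : ℕ} (w : Frm m k) (x : EE m) :
    extDeriv w x = ContinuousAlternatingMap.alternatizeUncurryFinCLM ℝ (EE m) ℝ (fderiv ℝ w x) := rfl

theorem P06_smul {m k : ℕ} (i : Fin m) (r : ℝ) (β : Alt m k) :
    (r • (ContinuousLinearMap.proj (R := ℝ) (φ := fun _ : Fin m => ℝ) i)).smulRight β =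
        r • ((ContinuousLinearMap.proj (R := ℝ) (φ := fun _ : Fin m => ℝ) i).smulRight β) := by
  apply ContinuousLinearMap.ext
  intro v
  show (r * v i) • β = r • (v i • β)
  rw [mul_smul]

theorem P06_wd {m k : ℕ} (i : Fin m) (r : ℝ) (β : Alt m k) :
    r • wd i β = ContinuousAlternatingMap.alternatizeUncurryFinCLM ℝ (EE m) ℝ
      ((r • (ContinuousLinearMap.proj (R := ℝ) (φ := fun _ : Fin m => ℝ) i)).smulRight β) := by
  rw [P06_smul, map_smul]
  rfl

theorem P06_prim {m : ℕ} {ρ : ℝ → ℝ} (hρ : Bump ρ) (i : Fin m) (x : EE m) :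
    HasFDerivAt (fun y : EE m => ∫ s in Set.Iic (y i), ρ s)
      (ρ (x i) • (ContinuousLinearMap.proj (R := ℝ) (φ := fun _ : Fin m => ℝ) i)) x := by
  have h30 := (bump_prim hρ).2 (x i)
  have h31 : HasFDerivAt (fun y : EE m => y i)
    (ContinuousLinearMap.proj (R := ℝ) (φ := fun _ : Fin m => ℝ) i) x :=
    (ContinuousLinearMap.proj (R := ℝ) (φ := fun _ : Fin m => ℝ) i).hasFDerivAt
  exact h30.comp_hasFDerivAt x h31

theorem P06_gen {m : ℕ} {W : Type} [NormedAddCommGroup W] [NormedSpace ℝ W] [CompleteSpace W] {ρ : ℝ → ℝ}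
    (hρ : Bump ρ) (i : Fin m) {F : EE m → W} (hF : ContDiff ℝ ∞ F) (hc : HasCompactSupport F) (x : EE m) :
    fderiv ℝ (GGo ρ i F) x = JJ i (fderiv ℝ F) x - ((∫ s in Set.Iic (x i), ρ s) • TT i (fderiv ℝ F) x +
      (ρ (x i) • (ContinuousLinearMap.proj (R := ℝ) (φ := fun _ : Fin m => ℝ) i)).smulRight (TT i F x)) := by
  have h1 : HasFDerivAt (JJ i F) (JJ i (fderiv ℝ F) x) x := JJ_fderiv i hF hc x
  have h2 : HasFDerivAt (TT i F) (TT i (fderiv ℝ F) x) x := TT_fderiv i hF hc x
  have h4 := (P06_prim hρ i x).smul h2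
  exact (h1.sub h4).fderiv

theorem P06_JJ {m : ℕ} {W W' : Type} [NormedAddCommGroup W] [NormedSpace ℝ W] [CompleteSpace W]
    [NormedAddCommGroup W'] [NormedSpace ℝ W'] [CompleteSpace W'] (L : (EE m →L[ℝ] W) →L[ℝ] W')
    (i : Fin m) {F : EE m → W} (hF : ContDiff ℝ ∞ F) (hc : HasCompactSupport F) (x : EE m) :
    JJ i (fun y => L (fderiv ℝ F y)) x = L (JJ i (fderiv ℝ F) x) :=
  JJ_clm i L (hF.continuous_fderiv (by simp)) (hc.fderiv ℝ) x

theorem P06_TT {m : ℕ} {W W' : Type} [NormedAddCommGroup W] [NormedSpace ℝ W] [CompleteSpace W]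
    [NormedAddCommGroup W'] [NormedSpace ℝ W'] [CompleteSpace W'] (L : (EE m →L[ℝ] W) →L[ℝ] W')
    (i : Fin m) {F : EE m → W} (hF : ContDiff ℝ ∞ F) (hc : HasCompactSupport F) (x : EE m) :
    TT i (fun y => L (fderiv ℝ F y)) x = L (TT i (fderiv ℝ F) x) :=
  TT_clm i L (hF.continuous_fderiv (by simp)) (hc.fderiv ℝ) x

/-- `GGo` and the exterior derivative. PROOF. `fderiv (TT i F) x = TT i (fderiv F) x` (`TT_fderiv`), the same for `JJ`,
and the derivative of `x ↦ (∫_{Iic (x i)} ρ) • TT i F x` is `v ↦ (ρ (x i) * v i) • TT i F x + (∫ ρ) • TT i (fderiv F) x v`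
(`bump_prim`). Apply the continuous linear map `alternatizeUncurryFin` and commute it with the integrals
(`JJ_clm`, `TT_clm` with `ContinuousAlternatingMap.alternatizeUncurryFinCLM`). -/
theorem extDeriv_GGo {m k : ℕ} {ρ : ℝ → ℝ} (hρ : Bump ρ) (i : Fin m) {w : Frm m k} (hw : IsOm w) (x : EE m) :
    extDeriv (GGo ρ i w) x = GGo ρ i (extDeriv w) x - ρ (x i) • wd i (TT i w x) := by
  have hJ : JJ i (extDeriv w) x =
      ContinuousAlternatingMap.alternatizeUncurryFinCLM ℝ (EE m) ℝ (JJ i (fderiv ℝ w) x) :=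
    P06_JJ (W := Alt m k) (W' := Alt m (k + 1))
      (ContinuousAlternatingMap.alternatizeUncurryFinCLM ℝ (EE m) ℝ) i hw.1 hw.2 x
  have hT : TT i (extDeriv w) x =
      ContinuousAlternatingMap.alternatizeUncurryFinCLM ℝ (EE m) ℝ (TT i (fderiv ℝ w) x) :=
    P06_TT (W := Alt m k) (W' := Alt m (k + 1))
      (ContinuousAlternatingMap.alternatizeUncurryFinCLM ℝ (EE m) ℝ) i hw.1 hw.2 x
  have h8 : GGo ρ i (extDeriv w) x =
      ContinuousAlternatingMap.alternatizeUncurryFinCLM ℝ (EE m) ℝ (JJ i (fderiv ℝ w) x) -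
      (∫ s in Set.Iic (x i), ρ s) •
      ContinuousAlternatingMap.alternatizeUncurryFinCLM ℝ (EE m) ℝ (TT i (fderiv ℝ w) x) := by
    rw [← hJ, ← hT]
    rfl
  rw [P06_alt, P06_gen hρ i hw.1 hw.2, h8, P06_wd, map_sub, map_add, map_smul]
  abel

end C37A
end

section

set_option autoImplicit false

open scoped ContDiff Topology
open MeasureTheory

namespace C37A

theorem P08_GGo_add {m : ℕ} {W : Type} [NormedAddCommGroup W] [NormedSpace ℝ W] (ρ : ℝ → ℝ) (i : Fin m)
    {F F' : EE m → W} (hF : Continuous F) (hc : HasCompactSupport F) (hF' : Continuous F')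
    (hc' : HasCompactSupport F') (x : EE m) :
    GGo ρ i (fun y => F y + F' y) x = GGo ρ i F x + GGo ρ i F' x := by
  unfold GGo
  rw [JJ_add i hF hc hF' hc', TT_add i hF hc hF' hc', smul_add]
  abel

/-- The homotopy formula. PROOF. `extDeriv_GGo` for `io i w` gives
`extDeriv (KKo ρ i w) = GGo ρ i (extDeriv (io i w)) - ρ (x i) • wd i (TT i (io i w) x)`; add
`GGo ρ i (io i (extDeriv w))` (`JJ_add`, `TT_add`): `GGo ρ i (fderiv ℝ w · (ee i)) x = w x` by `cartan`, `JJ_partial`,
`TT_partial`. -/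
theorem homotopy {m k : ℕ} {ρ : ℝ → ℝ} (hρ : Bump ρ) (i : Fin m) {w : Frm m (k + 1)} (hw : IsOm w) (x : EE m) :
    extDeriv (KKo ρ i w) x + KKo ρ i (extDeriv w) x = w x - RRo ρ i w x := by
  have h1 : extDeriv (KKo ρ i w) x = GGo ρ i (extDeriv (io i w)) x - RRo ρ i w x :=
    extDeriv_GGo hρ i (io_isOm i hw) x
  have h2 : KKo ρ i (extDeriv w) x = GGo ρ i (io i (extDeriv w)) x := rfl
  have hA : IsOm (extDeriv (io i w)) := extDeriv_isOm (io_isOm i hw)
  have hB : IsOm (io i (extDeriv w)) := io_isOm i (extDeriv_isOm hw)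
  have h3 := P08_GGo_add ρ i hA.1.continuous hA.2 hB.1.continuous hB.2 x
  have h4 : (fun y => extDeriv (io i w) y + io i (extDeriv w) y) = fun y => fderiv ℝ w y (ee i) := by
    funext y
    exact cartan i hw.1 y
  rw [h4] at h3
  have h5 : GGo ρ i (fun y => fderiv ℝ w y (ee i)) x = w x := by
    unfold GGo
    rw [JJ_partial i hw.1 hw.2, TT_partial i hw.1 hw.2, smul_zero, sub_zero]
  rw [h1, h2, ← h5, h3]
  abel

theorem KKo_isOm {m k : ℕ} {ρ : ℝ → ℝ} (hρ : Bump ρ) (i : Fin m) {w : Frm m (k + 1)} (hw : IsOm w) :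
    IsOm (KKo ρ i w) := by
  have h := io_isOm i hw
  exact GGo_smooth hρ i h.1 h.2

/-- the step: a closed form is exact plus the closed form `RRo ρ i w` (`extDeriv_extDeriv0` for the closedness,
`RRo = w - extDeriv (KKo ..)` for the regularity) -/
theorem step {m k : ℕ} {ρ : ℝ → ℝ} (hρ : Bump ρ) (i : Fin m) {w : Frm m (k + 1)} (hw : IsOm w)
    (hd : extDeriv w = 0) :
    IsOm (RRo ρ i w) ∧ extDeriv (RRo ρ i w) = 0 ∧ w = extDeriv (KKo ρ i w) + RRo ρ i w := by
  have hK := KKo_isOm hρ i hw
  have h0 : KKo ρ i (extDeriv w) = 0 := by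
    funext x
    show GGo ρ i (io i (extDeriv w)) x = 0
    rw [hd]
    have h1 : io i (0 : Frm m (k + 1 + 1)) = 0 := rfl
    rw [h1]
    unfold GGo JJ TT
    simp
  have h1 : w = extDeriv (KKo ρ i w) + RRo ρ i w := by
    funext x
    have h2 := homotopy hρ i hw x
    rw [h0] at h2
    rw [Pi.add_apply]
    have h3 : (0 : Frm m (k + 1)) x = 0 := rfl
    rw [h3, add_zero] at h2
    rw [h2]
    abel
  have h2 : RRo ρ i w = w - extDeriv (KKo ρ i w) := eq_sub_of_add_eq' h1.symm
  have hE := extDeriv_isOm hK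
  have h3 : IsOm (RRo ρ i w) := by
    have h4 : w - extDeriv (KKo ρ i w) ∈ Om m (k + 1) := (Om m (k + 1)).sub_mem hw hE
    rw [h2]
    exact h4
  refine ⟨h3, ?_, h1⟩
  funext x
  have h5 : extDeriv w x = extDeriv (extDeriv (KKo ρ i w)) x + extDeriv (RRo ρ i w) x := by
    conv_lhs => rw [h1]
    exact extDeriv_add (hE.1.differentiable (by simp) x) (h3.1.differentiable (by simp) x)
  rw [hd, extDeriv_extDeriv0 hK.1] at h5
  have h6 : (0 : Frm m (k + 1 + 1)) x = 0 := rfl
  rw [h6, zero_add] at h5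
  exact h5.symm

end C37A
end

section

set_option autoImplicit false

open scoped ContDiff Topology
open MeasureTheory

namespace C37A

/-- Induction over the finset `T` of directions (`step`, `dvd_RRo_self`, `dvd_RRo`; take a bump function from
`exists_bump`). -/
theorem reduce {m k : ℕ} {w : Frm m (k + 1)} (hw : IsOm w) (hd : extDeriv w = 0) (T : Finset (Fin m)) :
    ∃ (η : Frm m k) (w' : Frm m (k + 1)), IsOm η ∧ IsOm w' ∧ extDeriv w' = 0 ∧ w = extDeriv η + w' ∧
      ∀ i ∈ T, Dvd i w' := by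
  classical
  obtain ⟨ρ, hρ⟩ := exists_bump
  induction T using Finset.induction_on with
  | empty =>
    refine ⟨0, w, ⟨contDiff_const, HasCompactSupport.zero⟩, hw, hd, ?_, by simp⟩
    have h0 : extDeriv (0 : Frm m k) = 0 := by
      funext x
      have h1 : extDeriv (0 : Frm m k) x =
        ContinuousAlternatingMap.alternatizeUncurryFinCLM ℝ (EE m) ℝ (fderiv ℝ (0 : Frm m k) x) := rfl
      rw [h1, fderiv_zero]
      exact map_zero _
    rw [h0, zero_add]
  | insert i T hi ih =>
    obtain ⟨η, w', hη, hw', hd', he, hT⟩ := ih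
    obtain ⟨h1, h2, h3⟩ := step hρ i hw' hd'
    refine ⟨η + KKo ρ i w', RRo ρ i w', ⟨hη.1.add (KKo_isOm hρ i hw').1, hη.2.add (KKo_isOm hρ i hw').2⟩,
      h1, h2, ?_, ?_⟩
    · have h4 : extDeriv (η + KKo ρ i w') = extDeriv η + extDeriv (KKo ρ i w') := by
        funext x
        exact extDeriv_add (hη.1.differentiable (by simp) x) ((KKo_isOm hρ i hw').1.differentiable (by simp) x)
      rw [h4, he, add_assoc, ← h3]
    · intro j hj
      rw [Finset.mem_insert] at hj
      by_cases hij : i = j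
      · subst hij
        exact dvd_RRo_self ρ i w'
      · rcases hj with hj | hj
        · exact absurd hj.symm hij
        · exact dvd_RRo ρ hij hw' (hT j hj)

/-- Poincare lemma with compact supports, `0 < degree < m` (`reduce` with `T = univ`, `dvd_all`) -/
theorem poincare {m k : ℕ} (hk : k + 1 < m) {w : Frm m (k + 1)} (hw : IsOm w) (hd : extDeriv w = 0) :
    ∃ η : Frm m k, IsOm η ∧ extDeriv η = w := by
  obtain ⟨η, w', hη, hw', hd', he, hT⟩ := reduce hw hd Finset.univ
  refine ⟨η, hη, ?_⟩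
  rw [he, dvd_all hk (fun i => hT i (Finset.mem_univ i)), add_zero]

end C37A
end

section

set_option autoImplicit false

open scoped ContDiff Topology
open MeasureTheory

namespace C37A

/-- Top degree: the coefficient of `RRo ρ i w`. PROOF. `wd_apply` at `(e_0, .., e_k)`: only the term `a = i` survives:
`(-1)^i * (TT i (io i w) x) (e without e_i)`; evaluation commutes with the integral, and
`(-1)^i * w y (e_i, e without e_i) = w y (e_0, .., e_k)` (`AlternatingMap.map_insertNth`-type lemma /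
`Fin.insertNth`, `Fin.cycleRange`). -/
theorem RRo_top {k : ℕ} (ρ : ℝ → ℝ) (i : Fin (k + 1)) {w : Frm (k + 1) (k + 1)} (hw : IsOm w) (x : EE (k + 1)) :
    RRo ρ i w x (fun a => ee a) = ρ (x i) * ∫ t : ℝ, w (x + t • ee i) (fun a => ee a) := by
  have hio := io_isOm i hw
  have h0 : RRo ρ i w x (fun a => ee a) = ρ (x i) * wd i (TT i (io i w) x) (fun a => ee a) := rfl
  rw [h0, wd_apply]
  congr 1
  rw [Finset.sum_eq_single i]
  · have h1 : (ee i : EE (k + 1)) i = 1 := Pi.single_eq_same i 1
    rw [h1, one_mul]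
    have h2 := TT_clm i (ContinuousAlternatingMap.apply ℝ (EE (k + 1)) ℝ
      (i.removeNth (fun a : Fin (k + 1) => (ee a : EE (k + 1))))) hio.1.continuous hio.2 x
    rw [ContinuousAlternatingMap.apply_apply] at h2
    rw [← h2]
    unfold TT
    rw [← integral_const_mul]
    refine integral_congr_ae (Filter.Eventually.of_forall fun t => ?_)
    have h3 := AlternatingMap.map_insertNth (w (x + t • ee i)).toAlternatingMap i (ee i)
      (i.removeNth (fun a : Fin (k + 1) => (ee a : EE (k + 1))))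
    rw [Fin.insertNth_self_removeNth, zsmul_eq_mul, Int.cast_pow, Int.cast_neg, Int.cast_one] at h3
    exact h3.symm
  · intro b _ hb
    have h1 : (ee b : EE (k + 1)) i = 0 := Pi.single_eq_of_ne (Ne.symm hb) 1
    rw [h1, zero_mul, mul_zero]
  · intro h
    exact absurd (Finset.mem_univ i) h

/-- the exterior derivative of a top form is zero -/
theorem extDeriv_top {m : ℕ} (w : Frm m m) : extDeriv w = 0 := by
  funext x
  refine alt_ext _ _ fun v => ?_
  obtain ⟨a, b, hab, hv⟩ := Fintype.exists_ne_map_eq_of_card_lt v (by simp)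
  exact (extDeriv w x).map_eq_zero_of_eq _ (by rw [hv]) hab

/-- Induction over `T` with `step`, `RRo_top`: the coefficient of `w'` is `∏_{i ∈ T} ρ (x i)` times a function independent
of the coordinates in `T`. (If `F x = (∏_{i ∈ T} ρ (x i)) * h x`, `j ∉ T`, then
`ρ (x j) * ∫ F (x + t e_j) dt = (∏_{i ∈ insert j T} ρ (x i)) * ∫ h (x + t e_j) dt`.) -/
theorem reduce_top {k : ℕ} {ρ : ℝ → ℝ} (hρ : Bump ρ) {w : Frm (k + 1) (k + 1)} (hw : IsOm w)
    (T : Finset (Fin (k + 1))) :
    ∃ (η : Frm (k + 1) k) (w' : Frm (k + 1) (k + 1)) (h : EE (k + 1) → ℝ), IsOm η ∧ IsOm w' ∧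
      w = extDeriv η + w' ∧ (∀ x, w' x (fun a => ee a) = (∏ i ∈ T, ρ (x i)) * h x) ∧
      ∀ x y, (∀ i, i ∉ T → x i = y i) → h x = h y := by
  induction T using Finset.induction_on with
  | empty =>
    refine ⟨0, w, fun x => w x (fun a => ee a), (Om (k + 1) k).zero_mem, hw, ?_, ?_, ?_⟩
    · have h1 : extDeriv (0 : Frm (k + 1) k) = 0 := by
        funext x
        have h2 := extDeriv_smul (x := x) (0 : ℝ) (0 : Frm (k + 1) k)
        rw [zero_smul, zero_smul] at h2
        exact h2
      rw [h1, zero_add]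
    · intro x
      rw [Finset.prod_empty, one_mul]
    · intro x y hxy
      have h1 : x = y := funext fun i => hxy i (Finset.notMem_empty i)
      rw [h1]
  | insert j T hj ih =>
    obtain ⟨η, w', h, hη, hw', hww, hcoef, hind⟩ := ih
    obtain ⟨hR, -, hw'R⟩ := step hρ j hw' (extDeriv_top w')
    have hK := KKo_isOm hρ j hw'
    refine ⟨η + KKo ρ j w', RRo ρ j w', fun x => ∫ t : ℝ, h (x + t • ee j),
      (Om (k + 1) k).add_mem hη hK, hR, ?_, ?_, ?_⟩
    · have h1 : extDeriv (η + KKo ρ j w') = extDeriv η + extDeriv (KKo ρ j w') := by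
        funext x
        exact extDeriv_add (hη.1.differentiable (by simp) x) (hK.1.differentiable (by simp) x)
      rw [h1, add_assoc, ← hw'R]
      exact hww
    · intro x
      have hI : (∫ t : ℝ, w' (x + t • ee j) (fun a => ee a)) =
          ∫ t : ℝ, (∏ i ∈ T, ρ (x i)) * h (x + t • ee j) := ?_
      · rw [RRo_top ρ j hw' x, Finset.prod_insert hj, hI, integral_const_mul, mul_assoc]
      refine integral_congr_ae (Filter.Eventually.of_forall fun t => ?_)
      change w' (x + t • ee j) (fun a => ee a) = (∏ i ∈ T, ρ (x i)) * h (x + t • ee j)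
      rw [hcoef]
      congr 1
      refine Finset.prod_congr rfl fun i hi => ?_
      have hij : i ≠ j := fun h => hj (h ▸ hi)
      have h2 : (x + t • (ee j : EE (k + 1))) i = x i := by
        have h3 : (ee j : EE (k + 1)) i = 0 := Pi.single_eq_of_ne hij 1
        rw [Pi.add_apply, Pi.smul_apply, h3, smul_zero, add_zero]
      rw [h2]
    · intro x y hxy
      change (∫ t : ℝ, h (x + t • ee j)) = ∫ t : ℝ, h (y + t • ee j)
      rw [← integral_add_right_eq_self (fun t : ℝ => h (y + t • ee j)) (x j - y j)]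
      refine integral_congr_ae (Filter.Eventually.of_forall fun t => ?_)
      change h (x + t • ee j) = h (y + (t + (x j - y j)) • ee j)
      refine hind _ _ fun i hi => ?_
      rw [Pi.add_apply, Pi.add_apply, Pi.smul_apply, Pi.smul_apply]
      by_cases hij : i = j
      · subst hij
        have h3 : (ee i : EE (k + 1)) i = 1 := Pi.single_eq_same i 1
        rw [h3]
        simp only [smul_eq_mul, mul_one]
        ring
      · have h3 : (ee j : EE (k + 1)) i = 0 := Pi.single_eq_of_ne hij 1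
        rw [h3, smul_zero, smul_zero, add_zero, add_zero]
        exact hxy i (fun h => (Finset.mem_insert.1 h).elim hij hi)

end C37A
end

section

set_option autoImplicit false

open scoped ContDiff Topology
open MeasureTheory

namespace C37A

/-- the determinant as a continuous alternating map -/
private noncomputable def P12_D (n : ℕ) : Alt n n :=
  { toContinuousMultilinearMap :=
      { toMultilinearMap := (Matrix.detRowAlternating (n := Fin n) (R := ℝ)).toMultilinearMap
        cont := Continuous.matrix_det (A := fun v : Fin n → Fin n → ℝ => v) continuous_id }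
    map_eq_zero_of_eq' := (Matrix.detRowAlternating (n := Fin n) (R := ℝ)).map_eq_zero_of_eq' }

private theorem P12_D_ee (n : ℕ) : P12_D n (fun i => ee i) = 1 := by
  have h1 : P12_D n (fun i => ee i) =
      Matrix.det (fun i : Fin n => (ee i : EE n)) := rfl
  have h2 : (fun i : Fin n => (ee i : EE n)) = (1 : Matrix (Fin n) (Fin n) ℝ) := by
    funext i j
    rw [Matrix.one_apply]
    unfold ee
    rw [Pi.single_apply]
    simp only [eq_comm]
  rw [h1, h2, Matrix.det_one]

private theorem P12_intg {n k : ℕ} {w : Frm n k} (hw : IsOm w) (v : Fin k → EE n) :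
    Integrable (fun x => w x v) :=
  (contDiff_apply_vec hw.1 v).continuous.integrable_of_hasCompactSupport
    (hw.2.comp_left (g := fun u : Alt n k => u v) rfl)

private theorem P12_prod {n : ℕ} {ρ : ℝ → ℝ} (hρ : Bump ρ) :
    ∫ x : EE n, ∏ i, ρ (x i) = 1 := by
  rw [integral_fintype_prod_volume_eq_prod (fun (_ : Fin n) => ρ)]
  simp only [hρ.int, Finset.prod_const_one]

/-- there is a top form with integral one: coefficient `∏ i, ρ (x i)` (`Basis.det` for the standard basis as a continuous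
alternating map; `MeasureTheory.integral_fintype_prod_volume_eq_prod`) -/
theorem exists_int_one {k : ℕ} : ∃ w : Frm (k + 1) (k + 1), IsOm w ∧ int0 w = 1 := by
  obtain ⟨ρ, hρ⟩ := exists_bump
  refine ⟨fun x => (∏ i, ρ (x i)) • P12_D (k + 1), ⟨?_, ?_⟩, ?_⟩
  · have h1 : ContDiff ℝ ∞ (fun x : EE (k + 1) => ∏ i, ρ (x i)) :=
      contDiff_prod fun i _ => hρ.smooth.comp (contDiff_apply ℝ ℝ i)
    exact h1.smul contDiff_const
  · obtain ⟨R, hR⟩ := hρ.supp.isCompact.isBounded.subset_closedBall (0 : ℝ)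
    refine HasCompactSupport.intro (isCompact_closedBall (0 : EE (k + 1)) (max R 0))
      fun x hx => ?_
    have hx' : ∃ j, R < |x j| := by
      by_contra hno
      push Not at hno
      apply hx
      rw [mem_closedBall_zero_iff]
      exact (pi_norm_le_iff_of_nonneg (le_max_right _ _)).2
        fun j => (hno j).trans (le_max_left _ _)
    obtain ⟨j, hj⟩ := hx'
    have hz : ρ (x j) = 0 := by
      refine image_eq_zero_of_notMem_tsupport fun hy => ?_
      have h1 := hR hy
      rw [mem_closedBall_zero_iff, Real.norm_eq_abs] at h1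
      exact absurd hj (not_lt.2 h1)
    rw [Finset.prod_eq_zero (Finset.mem_univ j) hz, zero_smul]
  · unfold int0
    have h1 : (fun x : EE (k + 1) => ((∏ i, ρ (x i)) • P12_D (k + 1)) (fun i => ee i)) =
        fun x => ∏ i, ρ (x i) := by
      funext x
      rw [ContinuousAlternatingMap.smul_apply, P12_D_ee, smul_eq_mul, mul_one]
    rw [h1]
    exact P12_prod hρ

/-- Top degree Poincare lemma: `reduce_top` with `T = univ`: the coefficient of `w'` is `c * ∏ i, ρ (x i)`, `c` constant;
`int0 w' = int0 w - int0 (extDeriv η) = 0` and `int0 w' = c * ∏ ∫ ρ = c`. So `c = 0` and `w' = 0` (a top form with zero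
coefficient at the standard basis vanishes, `alt_ext`). -/
theorem poincare_top {k : ℕ} {w : Frm (k + 1) (k + 1)} (hw : IsOm w) (h0 : int0 w = 0) :
    ∃ η : Frm (k + 1) k, IsOm η ∧ extDeriv η = w := by
  obtain ⟨ρ, hρ⟩ := exists_bump
  obtain ⟨η, w', h, hη, hw', hww, hcoef, hind⟩ := reduce_top hρ hw Finset.univ
  have hc : ∀ x, h x = h 0 := fun x => hind x 0 fun i hi => absurd (Finset.mem_univ i) hi
  have h1 : int0 w' = h 0 := by
    unfold int0
    have h2 : (fun x : EE (k + 1) => w' x (fun i => ee i)) =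
        fun x => (∏ i, ρ (x i)) * h 0 := by
      funext x
      rw [hcoef, hc]
    rw [h2, integral_mul_const, P12_prod hρ, one_mul]
  have h2 : int0 w = int0 (extDeriv η) + int0 w' := by
    unfold int0
    rw [← integral_add (P12_intg (extDeriv_isOm hη) _) (P12_intg hw' _)]
    refine integral_congr_ae (Filter.Eventually.of_forall fun x => ?_)
    change w x (fun i => ee i) = _
    rw [hww]
    rfl
  rw [h0, int0_extDeriv hη, zero_add, h1] at h2
  have h3 : w' = 0 := by
    funext x
    refine alt_ext _ _ fun v => ?_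
    have h4 : w' x (fun a => ee a) = 0 := by rw [hcoef, hc, ← h2, mul_zero]
    by_cases hv : Function.Injective v
    · let σ : Equiv.Perm (Fin (k + 1)) := Equiv.ofBijective v (Finite.injective_iff_bijective.1 hv)
      have h5 := AlternatingMap.map_perm (w' x).toAlternatingMap (fun a => (ee a : EE (k + 1))) σ
      have h6 : w' x (fun a => ee (v a)) = Equiv.Perm.sign σ • w' x (fun a => ee a) := h5
      rw [h6, h4, smul_zero]
      rfl
    · rw [Function.Injective] at hv
      push Not at hv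
      obtain ⟨a, b, hab, hne⟩ := hv
      have h5 : w' x (fun a => ee (v a)) = 0 :=
        (w' x).map_eq_zero_of_eq (fun a => ee (v a)) (by rw [hab]) hne
      rw [h5]
      rfl
  refine ⟨η, hη, ?_⟩
  rw [hww, h3, add_zero]

end C37A
end
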