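import Mathlib
import Pool.Agent.Lib.MP_c37615_al.Defs
import Pool.Agent.Lib.MP_c37615_al.D.Core

section

/-!
MP_c37615_al (S02984), part D-IIb (paper 6.4.4 - 6.4.6): definitions. Never change this file.
-/

set_option autoImplicit false

open Filter Topology NormedSpace

namespace C37
namespace DB

/-- all complex eigenvalues of the real matrix `M` have modulus one -/
def EV1 {n : Type} [Fintype n] (M : Matrix n n ℝ) : Prop :=
  ∀ (z : ℂ) (w : n → ℂ), w ≠ 0 → (M.map (algebraMap ℝ ℂ)).mulVec w = z • w → ‖z‖ = 1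

/-- `M` is invertible and all its integer powers are bounded -/
def BddZ {n : Type} [Fintype n] [DecidableEq n] (M : Matrix n n ℝ) : Prop :=
  IsUnit M.det ∧ ∃ C : ℝ, ∀ (k : ℤ) (i j : n), |(M ^ k) i j| ≤ C

/-- 8 x 8 matrices -/
abbrev HMat := Matrix (Fin 7 ⊕ Unit) (Fin 7 ⊕ Unit) ℝ

/-- matrix of the affine map `v ↦ g v + u` -/
def hat (g : Mat) (u : V) : HMat := Matrix.fromBlocks g (Matrix.replicateCol Unit u) 0 1

/-- infinitesimal affine map -/
def hat0 (Z : Mat) (a : V) : HMat := Matrix.fromBlocks Z (Matrix.replicateCol Unit a) 0 0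

/-- the 8 x 8 matrix of an affine equivalence -/
noncomputable def hatA (γ : V ≃ᵃ[ℝ] V) : HMat := hat (lin γ) (tv γ)

/-- last coordinate as a row vector -/
def eRow : Fin 7 ⊕ Unit → ℝ := Sum.elim (fun _ => 0) (fun _ => 1)

/-- the linear part (upper left block) -/
def lb (M : HMat) : Mat := M.toBlocks₁₁

/-- the translation part -/
def tb (M : HMat) : V := fun i => M (Sum.inl i) (Sum.inr ())

/-- derivations of the cross product, skew for `B` -/
def Der (Z : Mat) : Prop :=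
  (∀ u v : V, B (Z.mulVec u) v + B u (Z.mulVec v) = 0) ∧
  (∀ u v : V, Z.mulVec (cross u v) = cross (Z.mulVec u) v + cross u (Z.mulVec v))

/-- linear independence of two matrices -/
def Ind2 (X Y : Mat) : Prop := ∀ x y : ℝ, x • X + y • Y = 0 → x = 0 ∧ y = 0

/-- general element of the nilradical (positive roots in the order
L12, S+2, S+1, S-3, L23, L13) -/
noncomputable def nn (b a c d e f : ℝ) : Mat :=
  b • rL12 + a • rSp2 + c • rSp1 + d • rSm3 + e • rL23 + f • rL13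

/-- the conclusion of the classification for the plane spanned by `X`, `Y` -/
def Good (X Y : Mat) : Prop := ∃ g : Mat, InG g ∧
  ((∃ c d : ℝ, g * (c • X + d • Y) = rL23 * g) ∨
   (∃ c d c' d' : ℝ, g * (c • X + d • Y) = rSp1 * g ∧
      g * (c' • X + d' • Y) = ((2:ℝ) • rL12 + rL23) * g))

/-- the reflection in the short simple root -/
noncomputable def Wm : Mat := ofNull (-va) y3 y2 y1 x3 x2 x1

/-- simultaneous Jordan decomposition of a commuting pair of affine maps -/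
structure JPair (α β : V ≃ᵃ[ℝ] V) (S X S' X' : HMat) : Prop where
  ea : hatA α = S * exp X
  eb : hatA β = S' * exp X'
  rS : Matrix.vecMul eRow S = eRow
  rS' : Matrix.vecMul eRow S' = eRow
  rX : Matrix.vecMul eRow X = 0
  rX' : Matrix.vecMul eRow X' = 0
  nX : IsNilpotent X
  nX' : IsNilpotent X'
  bS : BddZ S
  bS' : BddZ S'
  cSX : Commute S X
  cSS' : Commute S S'
  cSX' : Commute S X'
  cXS' : Commute X S'
  cXX' : Commute X X'
  cS'X' : Commute S' X'

end DB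
end C37
end

section

/-!
MP_c37615_al (S02984), part D-IIb (paper 6.4.4 - 6.4.6), file B_H1
-/

set_option autoImplicit false

open Filter Topology NormedSpace

namespace C37
namespace DB

theorem hat_mul (g h : Mat) (u v : V) : hat g u * hat h v = hat (g * h) (g.mulVec v + u) := by
  unfold hat
  rw [Matrix.fromBlocks_multiply]
  congr 1
  · rw [Matrix.mul_zero, add_zero]
  · rw [Matrix.mul_one]
    ext i j
    rfl
  · rw [Matrix.zero_mul, Matrix.mul_zero, add_zero]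
  · rw [Matrix.zero_mul, Matrix.one_mul, zero_add]
theorem hat0_mul (g h : Mat) (u v : V) : hat0 g u * hat0 h v = hat0 (g * h) (g.mulVec v) := by
  unfold hat0
  rw [Matrix.fromBlocks_multiply]
  congr 1
  · rw [Matrix.mul_zero, add_zero]
  · rw [Matrix.mul_zero, add_zero]
    ext i j
    rfl
  · rw [Matrix.zero_mul, Matrix.mul_zero, add_zero]
  · rw [Matrix.zero_mul, Matrix.zero_mul, zero_add]
theorem hat_inj (g h : Mat) (u v : V) (he : hat g u = hat h v) : g = h ∧ u = v := by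
  obtain ⟨h1, h2, -, -⟩ := Matrix.fromBlocks_inj.mp he
  exact ⟨h1, funext fun i => congrFun (congrFun h2 i) ()⟩
theorem hat0_inj (g h : Mat) (u v : V) (he : hat0 g u = hat0 h v) : g = h ∧ u = v := by
  obtain ⟨h1, h2, -, -⟩ := Matrix.fromBlocks_inj.mp he
  exact ⟨h1, funext fun i => congrFun (congrFun h2 i) ()⟩
theorem hat_one : hat 1 0 = 1 := by
  unfold hat
  rw [← Matrix.fromBlocks_one]
  congr 1
/-- a matrix with last row `(0,...,0,1)` -/
theorem eq_hat (M : HMat) (h : Matrix.vecMul eRow M = eRow) : M = hat (lb M) (tb M) := by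
  ext i j
  have hj := congrFun h j
  rw [Matrix.vecMul, dotProduct, Fintype.sum_sum_type] at hj
  simp only [eRow, Sum.elim_inl, Sum.elim_inr, zero_mul, Finset.sum_const_zero, zero_add,
    Finset.univ_unique, Finset.sum_singleton, one_mul] at hj
  rcases i with i | i
  · rcases j with j | j
    · rfl
    · rfl
  · rcases j with j | j
    · simpa [hat] using hj
    · simpa [hat] using hj
/-- a matrix with last row 0 -/
theorem eq_hat0 (M : HMat) (h : Matrix.vecMul eRow M = 0) : M = hat0 (lb M) (tb M) := by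
  ext i j
  have hj := congrFun h j
  rw [Matrix.vecMul, dotProduct, Fintype.sum_sum_type] at hj
  simp only [eRow, Sum.elim_inl, Sum.elim_inr, zero_mul, Finset.sum_const_zero, zero_add,
    Finset.univ_unique, Finset.sum_singleton, one_mul] at hj
  rcases i with i | i
  · rcases j with j | j
    · rfl
    · rfl
  · rcases j with j | j
    · simpa [hat0] using hj
    · simpa [hat0] using hj
theorem row_hat (g : Mat) (u : V) : Matrix.vecMul eRow (hat g u) = eRow := by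
  funext j
  rw [Matrix.vecMul, dotProduct, Fintype.sum_sum_type]
  rcases j with j | j
  · simp [eRow, hat]
  · simp [eRow, hat]
theorem row_hat0 (g : Mat) (u : V) : Matrix.vecMul eRow (hat0 g u) = 0 := by
  funext j
  rw [Matrix.vecMul, dotProduct, Fintype.sum_sum_type]
  rcases j with j | j
  · simp [eRow, hat0]
  · simp [eRow, hat0]
theorem eRow_ne : eRow ≠ 0 := by
  intro h
  have := congrFun h (Sum.inr ())
  simp [eRow] at this
theorem lb_hat (g : Mat) (u : V) : lb (hat g u) = g := by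
  unfold lb hat
  exact Matrix.toBlocks_fromBlocks₁₁ _ _ _ _
theorem lb_hat0 (g : Mat) (u : V) : lb (hat0 g u) = g := by
  unfold lb hat0
  exact Matrix.toBlocks_fromBlocks₁₁ _ _ _ _
theorem tb_hat (g : Mat) (u : V) : tb (hat g u) = u := rfl
theorem tb_hat0 (g : Mat) (u : V) : tb (hat0 g u) = u := rfl
theorem hat0_add (g h : Mat) (u v : V) : hat0 g u + hat0 h v = hat0 (g + h) (u + v) := by
  unfold hat0
  rw [Matrix.fromBlocks_add, add_zero, add_zero]
  congr 1
theorem hat0_smul (c : ℝ) (g : Mat) (u : V) : c • hat0 g u = hat0 (c • g) (c • u) := by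
  unfold hat0
  rw [Matrix.fromBlocks_smul, smul_zero, smul_zero]
  congr 1

end DB
end C37
end

section

/-!
MP_c37615_al (S02984), part D-IIb (paper 6.4.4 - 6.4.6), file B_H2
-/

set_option autoImplicit false

open Filter Topology NormedSpace

namespace C37
namespace DB

/-! affine equivalences and their 8 x 8 matrices. `γ v = (lin γ).mulVec v + tv γ`. -/
theorem hatA_apply (γ : V ≃ᵃ[ℝ] V) (v : V) : γ v = (lin γ).mulVec v + tv γ := by
  have h1 : (lin γ).mulVec v = γ.linear v := by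
    rw [lin, LinearMap.toMatrix'_mulVec]
    rfl
  have h2 := γ.map_vadd 0 v
  rw [vadd_eq_add, vadd_eq_add, add_zero] at h2
  rw [h1, h2]
  rfl

private theorem BH2_lin_mul (γ δ : V ≃ᵃ[ℝ] V) : lin (γ * δ) = lin γ * lin δ := by
  unfold lin
  rw [← LinearMap.toMatrix'_comp]
  rfl

theorem hatA_mul (γ δ : V ≃ᵃ[ℝ] V) : hatA (γ * δ) = hatA γ * hatA δ := by
  unfold hatA
  rw [hat_mul, BH2_lin_mul]
  congr 1
  change γ (δ 0) = _
  rw [hatA_apply γ]
  rfl

theorem hatA_one : hatA (1 : V ≃ᵃ[ℝ] V) = 1 := by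
  have h1 : lin (1 : V ≃ᵃ[ℝ] V) = 1 := by
    unfold lin
    exact LinearMap.toMatrix'_id
  have h2 : tv (1 : V ≃ᵃ[ℝ] V) = 0 := rfl
  rw [hatA, h1, h2, hat_one]

theorem hatA_isUnit (γ : V ≃ᵃ[ℝ] V) : IsUnit (hatA γ).det := by
  refine Matrix.isUnit_det_of_right_inverse (B := hatA γ⁻¹) ?_
  rw [← hatA_mul, mul_inv_cancel, hatA_one]

theorem hatA_inv (γ : V ≃ᵃ[ℝ] V) : hatA (γ⁻¹) = (hatA γ)⁻¹ := by
  refine (Matrix.inv_eq_right_inv ?_).symm
  rw [← hatA_mul, mul_inv_cancel, hatA_one]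

theorem hatA_zpow (γ : V ≃ᵃ[ℝ] V) (k : ℤ) : hatA (γ ^ k) = (hatA γ) ^ k := by
  let f : (V ≃ᵃ[ℝ] V) →* HMat :=
    { toFun := hatA
      map_one' := hatA_one
      map_mul' := hatA_mul }
  exact map_zpow' f (fun x => hatA_inv x) γ k

theorem hatA_inj (γ δ : V ≃ᵃ[ℝ] V) (h : hatA γ = hatA δ) : γ = δ := by
  obtain ⟨h1, h2⟩ := hat_inj _ _ _ _ h
  refine AffineEquiv.ext fun v => ?_
  rw [hatA_apply γ, hatA_apply δ, h1, h2]

/-- every invertible matrix and vector come from an affine equivalence -/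
theorem exists_aff (g : Mat) (hg : IsUnit g) (u : V) : ∃ δ : V ≃ᵃ[ℝ] V, lin δ = g ∧ tv δ = u := by
  have hdet : IsUnit g.det := (Matrix.isUnit_iff_isUnit_det g).mp hg
  let e : V ≃ₗ[ℝ] V := LinearEquiv.ofLinearMap (Matrix.toLin' g) (Matrix.toLin' g⁻¹)
    (by rw [← Matrix.toLin'_mul, Matrix.mul_nonsing_inv g hdet, Matrix.toLin'_one])
    (by rw [← Matrix.toLin'_mul, Matrix.nonsing_inv_mul g hdet, Matrix.toLin'_one])
  refine ⟨e.toAffineEquiv.trans (AffineEquiv.constVAdd ℝ V u), ?_, ?_⟩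
  · have h1 : (e.toAffineEquiv.trans (AffineEquiv.constVAdd ℝ V u)).linear.toLinearMap =
        Matrix.toLin' g := by
      refine LinearMap.ext fun v => ?_
      rfl
    rw [lin, h1, LinearMap.toMatrix'_toLin']
  · change u + (Matrix.toLin' g) 0 = u
    rw [map_zero, add_zero]

end DB
end C37
end

section

/-!
MP_c37615_al (S02984), part D-IIb (paper 6.4.4 - 6.4.6), file B_H3
-/

set_option autoImplicit false

open Filter Topology NormedSpace

namespace C37
namespace DB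

/-- eigenvalues of the affine matrix: those of the linear part, and 1.
Proof: `w : Fin 7 ⊕ Unit → ℂ`, `w ≠ 0`, `hatA γ w = z w`. Last coordinate `w (inr ()) = z * w (inr ())`. If `w (inr ()) ≠ 0` then `z = 1`. Otherwise
`w ∘ inl ≠ 0` is an eigenvector of `lin γ` with eigenvalue `z`. -/
theorem EV1_hatA (γ : V ≃ᵃ[ℝ] V) (h : EV1 (lin γ)) : EV1 (hatA γ) := by
  intro z w hw hzw
  have h0 : (hatA γ).map (algebraMap ℝ ℂ) = Matrix.fromBlocks ((lin γ).map (algebraMap ℝ ℂ))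
      ((Matrix.replicateCol Unit (tv γ)).map (algebraMap ℝ ℂ)) 0 1 := by
    rw [hatA, hat, Matrix.fromBlocks_map]
    simp
  rw [h0, Matrix.fromBlocks_mulVec] at hzw
  have h1 : w (Sum.inr ()) = z * w (Sum.inr ()) := by
    have := congrFun hzw (Sum.inr ())
    simpa using this
  have h2 : ∀ i : Fin 7, (((lin γ).map (algebraMap ℝ ℂ)).mulVec (w ∘ Sum.inl)) i
      + ((algebraMap ℝ ℂ) (tv γ i)) * w (Sum.inr ()) = z * w (Sum.inl i) := by
    intro i
    have := congrFun hzw (Sum.inl i)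
    simpa [Matrix.mulVec, dotProduct] using this
  by_cases hl : w (Sum.inr ()) = 0
  · have h3 : w ∘ Sum.inl ≠ 0 := by
      intro h4
      apply hw
      funext x
      rcases x with i | u
      · exact congrFun h4 i
      · exact hl
    refine h z (w ∘ Sum.inl) h3 ?_
    funext i
    have := h2 i
    rw [hl, mul_zero, add_zero] at this
    simpa using this
  · have h3 : (z - 1) * w (Sum.inr ()) = 0 := by linear_combination -h1
    rcases mul_eq_zero.mp h3 with h4 | h4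
    · have : z = 1 := sub_eq_zero.mp h4
      rw [this]; simp
    · exact absurd h4 hl

/-- eigenvectors give roots of the characteristic polynomial (`Matrix.eval_charpoly`/`Matrix.charpoly_map`, `det (z - M) = 0` since the kernel is not trivial:
`Matrix.exists_mulVec_eq_zero_iff`). -/
theorem EV1_of_charpoly (M : Mat) (h : ∀ z : ℂ, (M.charpoly.map (algebraMap ℝ ℂ)).IsRoot z → ‖z‖ = 1) : EV1 M := by
  intro z w hw hzw
  apply h
  rw [← Matrix.charpoly_map, Polynomial.IsRoot.def, Matrix.eval_charpoly]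
  apply Matrix.exists_mulVec_eq_zero_iff.mp
  refine ⟨w, hw, ?_⟩
  rw [Matrix.sub_mulVec, hzw]
  simp

end DB
end C37
end

section

/-!
MP_c37615_al (S02984), part D-IIb (paper 6.4.4 - 6.4.6), file B_H5
-/

set_option autoImplicit false

open Filter Topology NormedSpace

namespace C37
namespace DB

/-- `lb` is multiplicative on matrices with last row `(0,..,0,c)`. For `hat`: `(hat g u)^k` has upper left block `g^k`, `k : ℤ`
(inverse: `hat g u * hat g⁻¹ (-(g⁻¹ u)) = 1`). -/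
theorem lb_hat_zpow (g : Mat) (u : V) (hg : IsUnit (hat g u).det) (k : ℤ) :
    lb ((hat g u) ^ k) = g ^ k ∧ Matrix.vecMul eRow ((hat g u) ^ k) = eRow := by
  have hdet : (hat g u).det = g.det := by
    rw [hat, Matrix.det_fromBlocks_zero₂₁]
    simp
  have hgd : IsUnit g.det := by rw [← hdet]; exact hg
  have hpow : ∀ (h : Mat) (v : V) (n : ℕ), ∃ v' : V, (hat h v) ^ n = hat (h ^ n) v' := by
    intro h v n
    induction n with
    | zero => exact ⟨0, by rw [pow_zero, pow_zero, hat_one]⟩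
    | succ n ih =>
      obtain ⟨v', hv'⟩ := ih
      exact ⟨_, by rw [pow_succ, hv', hat_mul, ← pow_succ]⟩
  have hinv : (hat g u)⁻¹ = hat g⁻¹ (-(g⁻¹.mulVec u)) := by
    apply Matrix.inv_eq_right_inv
    rw [hat_mul, Matrix.mul_nonsing_inv g hgd, Matrix.mulVec_neg, Matrix.mulVec_mulVec,
      Matrix.mul_nonsing_inv g hgd, Matrix.one_mulVec, neg_add_cancel, hat_one]
  obtain ⟨n, rfl | rfl⟩ := k.eq_nat_or_neg
  · obtain ⟨v', hv'⟩ := hpow g u n
    rw [zpow_natCast, zpow_natCast, hv']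
    exact ⟨lb_hat _ _, row_hat _ _⟩
  · obtain ⟨v', hv'⟩ := hpow g⁻¹ (-(g⁻¹.mulVec u)) n
    rw [Matrix.zpow_neg hg, Matrix.zpow_neg hgd, zpow_natCast, zpow_natCast, ← Matrix.inv_pow', ← Matrix.inv_pow',
      hinv, hv']
    exact ⟨lb_hat _ _, row_hat _ _⟩
theorem det_hat (g : Mat) (u : V) : (hat g u).det = g.det := by
  rw [hat, Matrix.det_fromBlocks_zero₂₁]
  simp
theorem bddZ_lb (g : Mat) (u : V) (h : BddZ (hat g u)) : BddZ g := by
  obtain ⟨h1, C, hC⟩ := h
  refine ⟨by rw [← det_hat g u]; exact h1, C, fun k i j => ?_⟩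
  rw [← (lb_hat_zpow g u h1 k).1]
  exact hC k (Sum.inl i) (Sum.inl j)
theorem lb_mul (M N : HMat) (hM : Matrix.vecMul eRow N = eRow ∨ Matrix.vecMul eRow N = 0) :
    lb (M * N) = lb M * lb N := by
  ext i j
  have h0 : N (Sum.inr ()) (Sum.inl j) = 0 := by
    rcases hM with h | h
    · have := congrFun h (Sum.inl j)
      simpa [Matrix.vecMul, dotProduct, eRow] using this
    · have := congrFun h (Sum.inl j)
      simpa [Matrix.vecMul, dotProduct, eRow] using this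
  simp [lb, Matrix.toBlocks₁₁, Matrix.mul_apply, h0]
theorem lb_commute (M N : HMat) (hM : Matrix.vecMul eRow M = eRow ∨ Matrix.vecMul eRow M = 0)
    (hN : Matrix.vecMul eRow N = eRow ∨ Matrix.vecMul eRow N = 0) (h : Commute M N) :
    Commute (lb M) (lb N) := by
  rw [Commute, SemiconjBy, ← lb_mul M N hN, ← lb_mul N M hM, h.eq]

end DB
end C37
end

section

/-!
MP_c37615_al (S02984), part D-IIb (paper 6.4.4 - 6.4.6), file B_N01
-/

set_option autoImplicit false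

open Filter Topology NormedSpace

namespace C37
namespace DB

/-- `ofNull` has the prescribed values on the null basis.
Proof: `ext i`, unfold `ofNull`, `Matrix.mulVec`, `dotProduct`, `Fin.sum_univ_seven`, `ev`, `va`, `x1`, ...;
every entry `ev j k` is `if j = k then 1 else 0` (Pi.single); `fin_cases i`, `simp`, `ring`. -/
theorem ofNull_va (fa f1 f2 f3 g1 g2 g3 : V) : (ofNull fa f1 f2 f3 g1 g2 g3).mulVec va = fa := by
  ext i
  simp only [ofNull, Matrix.of_apply, Matrix.mulVec, dotProduct, Fin.sum_univ_succ,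
    Fin.sum_univ_zero]
  simp [ev, va]
theorem ofNull_x1 (fa f1 f2 f3 g1 g2 g3 : V) : (ofNull fa f1 f2 f3 g1 g2 g3).mulVec x1 = f1 := by
  ext i
  simp only [ofNull, Matrix.of_apply, Matrix.mulVec, dotProduct, Fin.sum_univ_succ,
    Fin.sum_univ_zero]
  simp [ev, x1]
  ring
theorem ofNull_x2 (fa f1 f2 f3 g1 g2 g3 : V) : (ofNull fa f1 f2 f3 g1 g2 g3).mulVec x2 = f2 := by
  ext i
  simp only [ofNull, Matrix.of_apply, Matrix.mulVec, dotProduct, Fin.sum_univ_succ,
    Fin.sum_univ_zero]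
  simp [ev, x2]
  ring
theorem ofNull_x3 (fa f1 f2 f3 g1 g2 g3 : V) : (ofNull fa f1 f2 f3 g1 g2 g3).mulVec x3 = f3 := by
  ext i
  simp only [ofNull, Matrix.of_apply, Matrix.mulVec, dotProduct, Fin.sum_univ_succ,
    Fin.sum_univ_zero]
  simp [ev, x3]
  ring
theorem ofNull_y1 (fa f1 f2 f3 g1 g2 g3 : V) : (ofNull fa f1 f2 f3 g1 g2 g3).mulVec y1 = g1 := by
  ext i
  simp only [ofNull, Matrix.of_apply, Matrix.mulVec, dotProduct, Fin.sum_univ_succ,
    Fin.sum_univ_zero]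
  simp [ev, y1]
  ring
theorem ofNull_y2 (fa f1 f2 f3 g1 g2 g3 : V) : (ofNull fa f1 f2 f3 g1 g2 g3).mulVec y2 = g2 := by
  ext i
  simp only [ofNull, Matrix.of_apply, Matrix.mulVec, dotProduct, Fin.sum_univ_succ,
    Fin.sum_univ_zero]
  simp [ev, y2]
  ring
theorem ofNull_y3 (fa f1 f2 f3 g1 g2 g3 : V) : (ofNull fa f1 f2 f3 g1 g2 g3).mulVec y3 = g3 := by
  ext i
  simp only [ofNull, Matrix.of_apply, Matrix.mulVec, dotProduct, Fin.sum_univ_succ,
    Fin.sum_univ_zero]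
  simp [ev, y3]
  ring

end DB
end C37
end

section

/-!
MP_c37615_al (S02984), part D-IIb (paper 6.4.4 - 6.4.6), file B_N03
-/

set_option autoImplicit false

open Filter Topology NormedSpace

namespace C37
namespace DB

/-! Tables of the root matrices on the null basis (from `ofNull_va` etc. by unfolding the root matrix).
All are `by simp only [rL12, ofNull_va]` and similar. They are the `simp` set of the files B_T*. -/

theorem tL12 : rL12.mulVec va = 0 ∧ rL12.mulVec x1 = 0 ∧ rL12.mulVec x2 = -x1 ∧ rL12.mulVec x3 = 0 ∧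
    rL12.mulVec y1 = y2 ∧ rL12.mulVec y2 = 0 ∧ rL12.mulVec y3 = 0 := by
  unfold rL12
  exact ⟨ofNull_va _ _ _ _ _ _ _, ofNull_x1 _ _ _ _ _ _ _, ofNull_x2 _ _ _ _ _ _ _,
    ofNull_x3 _ _ _ _ _ _ _, ofNull_y1 _ _ _ _ _ _ _, ofNull_y2 _ _ _ _ _ _ _,
    ofNull_y3 _ _ _ _ _ _ _⟩
theorem tL13 : rL13.mulVec va = 0 ∧ rL13.mulVec x1 = 0 ∧ rL13.mulVec x2 = 0 ∧ rL13.mulVec x3 = -x1 ∧
    rL13.mulVec y1 = y3 ∧ rL13.mulVec y2 = 0 ∧ rL13.mulVec y3 = 0 := by
  unfold rL13
  exact ⟨ofNull_va _ _ _ _ _ _ _, ofNull_x1 _ _ _ _ _ _ _, ofNull_x2 _ _ _ _ _ _ _,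
    ofNull_x3 _ _ _ _ _ _ _, ofNull_y1 _ _ _ _ _ _ _, ofNull_y2 _ _ _ _ _ _ _,
    ofNull_y3 _ _ _ _ _ _ _⟩
theorem tL23 : rL23.mulVec va = 0 ∧ rL23.mulVec x1 = 0 ∧ rL23.mulVec x2 = 0 ∧ rL23.mulVec x3 = -x2 ∧
    rL23.mulVec y1 = 0 ∧ rL23.mulVec y2 = y3 ∧ rL23.mulVec y3 = 0 := by
  unfold rL23
  exact ⟨ofNull_va _ _ _ _ _ _ _, ofNull_x1 _ _ _ _ _ _ _, ofNull_x2 _ _ _ _ _ _ _,
    ofNull_x3 _ _ _ _ _ _ _, ofNull_y1 _ _ _ _ _ _ _, ofNull_y2 _ _ _ _ _ _ _,
    ofNull_y3 _ _ _ _ _ _ _⟩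
theorem tSp1 : rSp1.mulVec va = (2:ℝ) • x1 ∧ rSp1.mulVec x1 = 0 ∧ rSp1.mulVec x2 = y3 ∧ rSp1.mulVec x3 = -y2 ∧
    rSp1.mulVec y1 = -va ∧ rSp1.mulVec y2 = 0 ∧ rSp1.mulVec y3 = 0 := by
  unfold rSp1
  exact ⟨ofNull_va _ _ _ _ _ _ _, ofNull_x1 _ _ _ _ _ _ _, ofNull_x2 _ _ _ _ _ _ _,
    ofNull_x3 _ _ _ _ _ _ _, ofNull_y1 _ _ _ _ _ _ _, ofNull_y2 _ _ _ _ _ _ _,
    ofNull_y3 _ _ _ _ _ _ _⟩
theorem tSp2 : rSp2.mulVec va = (-2:ℝ) • x2 ∧ rSp2.mulVec x1 = y3 ∧ rSp2.mulVec x2 = 0 ∧ rSp2.mulVec x3 = -y1 ∧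
    rSp2.mulVec y1 = 0 ∧ rSp2.mulVec y2 = va ∧ rSp2.mulVec y3 = 0 := by
  unfold rSp2
  exact ⟨ofNull_va _ _ _ _ _ _ _, ofNull_x1 _ _ _ _ _ _ _, ofNull_x2 _ _ _ _ _ _ _,
    ofNull_x3 _ _ _ _ _ _ _, ofNull_y1 _ _ _ _ _ _ _, ofNull_y2 _ _ _ _ _ _ _,
    ofNull_y3 _ _ _ _ _ _ _⟩
theorem tSm2 : rSm2.mulVec va = y2 ∧ rSm2.mulVec x1 = 0 ∧ rSm2.mulVec x2 = (-1/2:ℝ) • va ∧ rSm2.mulVec x3 = 0 ∧
    rSm2.mulVec y1 = (-1/2:ℝ) • x3 ∧ rSm2.mulVec y2 = 0 ∧ rSm2.mulVec y3 = (1/2:ℝ) • x1 := by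
  unfold rSm2
  exact ⟨ofNull_va _ _ _ _ _ _ _, ofNull_x1 _ _ _ _ _ _ _, ofNull_x2 _ _ _ _ _ _ _,
    ofNull_x3 _ _ _ _ _ _ _, ofNull_y1 _ _ _ _ _ _ _, ofNull_y2 _ _ _ _ _ _ _,
    ofNull_y3 _ _ _ _ _ _ _⟩
theorem tSm3 : rSm3.mulVec va = y3 ∧ rSm3.mulVec x1 = 0 ∧ rSm3.mulVec x2 = 0 ∧ rSm3.mulVec x3 = (-1/2:ℝ) • va ∧
    rSm3.mulVec y1 = (1/2:ℝ) • x2 ∧ rSm3.mulVec y2 = (-1/2:ℝ) • x1 ∧ rSm3.mulVec y3 = 0 := by
  unfold rSm3
  exact ⟨ofNull_va _ _ _ _ _ _ _, ofNull_x1 _ _ _ _ _ _ _, ofNull_x2 _ _ _ _ _ _ _,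
    ofNull_x3 _ _ _ _ _ _ _, ofNull_y1 _ _ _ _ _ _ _, ofNull_y2 _ _ _ _ _ _ _,
    ofNull_y3 _ _ _ _ _ _ _⟩
theorem tWm : Wm.mulVec va = -va ∧ Wm.mulVec x1 = y3 ∧ Wm.mulVec x2 = y2 ∧ Wm.mulVec x3 = y1 ∧
    Wm.mulVec y1 = x3 ∧ Wm.mulVec y2 = x2 ∧ Wm.mulVec y3 = x1 := by
  unfold Wm
  exact ⟨ofNull_va _ _ _ _ _ _ _, ofNull_x1 _ _ _ _ _ _ _, ofNull_x2 _ _ _ _ _ _ _,
    ofNull_x3 _ _ _ _ _ _ _, ofNull_y1 _ _ _ _ _ _ _, ofNull_y2 _ _ _ _ _ _ _,
    ofNull_y3 _ _ _ _ _ _ _⟩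

end DB
end C37
end

section

/-!
MP_c37615_al (S02984), part D-IIb (paper 6.4.4 - 6.4.6), file B_C3
-/

set_option autoImplicit false

open Filter Topology NormedSpace

namespace C37
namespace DB

/-- `nn` is linear: unfold and `module`. -/
theorem nn_lin (x y b a c d e f b2 a2 c2 d2 e2 f2 : ℝ) :
    x • nn b a c d e f + y • nn b2 a2 c2 d2 e2 f2 =
      nn (x * b + y * b2) (x * a + y * a2) (x * c + y * c2) (x * d + y * d2) (x * e + y * e2) (x * f + y * f2) := by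
  unfold nn
  module

theorem nn_zero : nn 0 0 0 0 0 0 = 0 := by
  unfold nn
  simp

theorem C3_x1 (b a c d e f : ℝ) : (nn b a c d e f).mulVec x1 = a • y3 := by
  obtain ⟨_, h1, _, _, _, _, _⟩ := tL12
  obtain ⟨_, h2, _, _, _, _, _⟩ := tSp2
  obtain ⟨_, h3, _, _, _, _, _⟩ := tSp1
  obtain ⟨_, h4, _, _, _, _, _⟩ := tSm3
  obtain ⟨_, h5, _, _, _, _, _⟩ := tL23
  obtain ⟨_, h6, _, _, _, _, _⟩ := tL13
  unfold nn
  simp only [Matrix.add_mulVec, Matrix.smul_mulVec, h1, h2, h3, h4, h5, h6]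
  module

theorem C3_x2 (b a c d e f : ℝ) : (nn b a c d e f).mulVec x2 = (-b) • x1 + c • y3 := by
  obtain ⟨_, _, h1, _, _, _, _⟩ := tL12
  obtain ⟨_, _, h2, _, _, _, _⟩ := tSp2
  obtain ⟨_, _, h3, _, _, _, _⟩ := tSp1
  obtain ⟨_, _, h4, _, _, _, _⟩ := tSm3
  obtain ⟨_, _, h5, _, _, _, _⟩ := tL23
  obtain ⟨_, _, h6, _, _, _, _⟩ := tL13
  unfold nn
  simp only [Matrix.add_mulVec, Matrix.smul_mulVec, h1, h2, h3, h4, h5, h6]
  module

theorem C3_x3 (b a c d e f : ℝ) : (nn b a c d e f).mulVec x3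
    = (-a) • y1 + (-c) • y2 + (-(d / 2)) • va + (-e) • x2 + (-f) • x1 := by
  obtain ⟨_, _, _, h1, _, _, _⟩ := tL12
  obtain ⟨_, _, _, h2, _, _, _⟩ := tSp2
  obtain ⟨_, _, _, h3, _, _, _⟩ := tSp1
  obtain ⟨_, _, _, h4, _, _, _⟩ := tSm3
  obtain ⟨_, _, _, h5, _, _, _⟩ := tL23
  obtain ⟨_, _, _, h6, _, _, _⟩ := tL13
  unfold nn
  simp only [Matrix.add_mulVec, Matrix.smul_mulVec, h1, h2, h3, h4, h5, h6]
  module

/-- `nn` is injective: apply both sides to `x2` (gives `-b • x1 + c • y3`), `x1` (gives `a • y3`), `x3`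
(gives `-a • y1 - c • y2 - (d/2) • va - e • x2 - f • x1`) and compare coordinates. -/
theorem nn_eq_zero (b a c d e f : ℝ) (h : nn b a c d e f = 0) :
    b = 0 ∧ a = 0 ∧ c = 0 ∧ d = 0 ∧ e = 0 ∧ f = 0 := by
  have e1 := C3_x1 b a c d e f
  have e2 := C3_x2 b a c d e f
  have e3 := C3_x3 b a c d e f
  rw [h, Matrix.zero_mulVec] at e1 e2 e3
  have p1 := congrFun e1 2
  have p2 := congrFun e2 0
  have p3 := congrFun e2 2
  have p4 := congrFun e3 3
  have p5 := congrFun e3 1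
  have p5' := congrFun e3 5
  have p6 := congrFun e3 0
  have p6' := congrFun e3 4
  simp [x1, x2, y1, y2, y3, va] at p1 p2 p3 p4 p5 p5' p6 p6'
  refine ⟨p2, p1, p3, p4, ?_, ?_⟩
  · linarith
  · linarith

end DB
end C37
end

section

/-!
MP_c37615_al (S02984), part D-IIb (paper 6.4.4 - 6.4.6), file B_N04_rL23
-/

set_option autoImplicit false

open Filter Topology NormedSpace

namespace C37
namespace DB

private theorem rL23_ofNull_mulVec (fa f1 f2 f3 g1 g2 g3 v : V) :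
    (ofNull fa f1 f2 f3 g1 g2 g3).mulVec v = (v 3) • fa + (v 0 - v 4) • f1 + (v 1 - v 5) • f2 +
      (-(v 2 + v 6)) • f3 + (-(v 0 + v 4)) • g1 + (-(v 1 + v 5)) • g2 + (v 2 - v 6) • g3 := by
  ext i
  simp only [ofNull, Matrix.mulVec, dotProduct, Fin.sum_univ_seven, ev, Matrix.of_apply, Pi.add_apply,
    Pi.smul_apply, smul_eq_mul]
  simp
  ring

private theorem rL23_mulVec (v : V) : rL23.mulVec v =
    (![0, (1/2) * v 2 + (1/2) * v 6, (-1/2) * v 1 + (-1/2) * v 5, 0, 0, (-1/2) * v 2 + (-1/2) * v 6, (1/2) * v 1 + (1/2) * v 5] : V) := by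
  unfold rL23
  rw [rL23_ofNull_mulVec]
  ext i
  fin_cases i <;> simp [va, x1, x2, x3, y1, y2, y3] <;> ring

/-- `rL23` is a derivation of the cross product, skew for `B`.
Proof: pure computation. Unfold `Der`, `rL23`, `ofNull`, `ev`, `Matrix.mulVec`, `dotProduct`, `Fin.sum_univ_seven`, `cross`,
`B`, `va`, `x1`, ...; first prove a formula `rL23.mulVec v = ![...]` with the 7 entries explicit linear forms in `v`
(the coordinates of `v` in the null basis are in the docstring of `ofNull`), then the two identities by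
`simp` and `ring` (componentwise, `fin_cases i`). -/
theorem der_rL23 : Der rL23 := by
  constructor
  · intro u v
    rw [rL23_mulVec, rL23_mulVec]
    simp [B]
    ring
  · intro u v
    rw [rL23_mulVec, rL23_mulVec, rL23_mulVec]
    ext i
    fin_cases i <;> simp [cross] <;> ring

end DB
end C37
end

section

/-!
MP_c37615_al (S02984), part D-IIb (paper 6.4.4 - 6.4.6), file B_N02
-/

set_option autoImplicit false

open Filter Topology NormedSpace

namespace C37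
namespace DB

/-- coordinates in the null basis. Proof: `ext i; fin_cases i; simp [va, x1, x2, x3, y1, y2, y3]; ring`. -/
theorem null_decomp (v : V) :
    v = (v 3) • va + (v 0 - v 4) • x1 + (v 1 - v 5) • x2 + (-(v 2 + v 6)) • x3
      + (-(v 0 + v 4)) • y1 + (-(v 1 + v 5)) • y2 + (v 2 - v 6) • y3 := by
  ext i
  fin_cases i <;> simp [va, x1, x2, x3, y1, y2, y3] <;> ring

/-- two matrices which agree on the null basis are equal.
Proof: `M.mulVec v = N.mulVec v` for every `v` by `null_decomp` and linearity (`Matrix.mulVec_add`,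
`Matrix.mulVec_smul`); then take `v = Pi.single j 1` (`Matrix.mulVec_single_one`) or use
`Matrix.toLin'` injective. -/
theorem null_ext (M N : Mat) (ha : M.mulVec va = N.mulVec va) (h1 : M.mulVec x1 = N.mulVec x1)
    (h2 : M.mulVec x2 = N.mulVec x2) (h3 : M.mulVec x3 = N.mulVec x3) (k1 : M.mulVec y1 = N.mulVec y1)
    (k2 : M.mulVec y2 = N.mulVec y2) (k3 : M.mulVec y3 = N.mulVec y3) : M = N := by
  have h : ∀ v : V, M.mulVec v = N.mulVec v := by
    intro v
    rw [null_decomp v]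
    simp only [Matrix.mulVec_add, Matrix.mulVec_smul, ha, h1, h2, h3, k1, k2, k3]
  ext i j
  have h2 := congrFun (h (Pi.single j 1)) i
  rw [Matrix.mulVec_single_one, Matrix.mulVec_single_one] at h2
  exact h2

end DB
end C37
end
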