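import Mathlib
import Pool.Agent.Lib.MP_c37615_al.Mg.G002
import Pool.Agent.Lib.MP_c37615_al.Mg.G001
import Pool.Agent.Lib.MP_c37615_al.Mg.G004
import Pool.Agent.Lib.MP_c37615_al.Defs
import Pool.Agent.Lib.MP_c37615_al.D.Core
import Pool.Agent.Lib.MP_c37615_al.Mg.G033

section

set_option autoImplicit false

open scoped ContDiff Topology
open MeasureTheory

namespace C37A

theorem int0_integrable {m : ℕ} {w : Frm m m} (hw : IsOm w) : Integrable (fun x => w x (fun i => ee i)) := by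
  apply Continuous.integrable_of_hasCompactSupport
  · exact (contDiff_apply_vec hw.1 _).continuous
  · apply hw.2.mono
    intro x hx hx'
    apply hx
    simp [hx']

/-- the integral as a linear form -/
noncomputable def intL (m : ℕ) : Om m m →ₗ[ℝ] ℝ where
  toFun w := int0 w.1
  map_add' w w' := by
    show int0 (w.1 + w'.1) = int0 w.1 + int0 w'.1
    unfold int0
    rw [← integral_add (int0_integrable w.2) (int0_integrable w'.2)]
    rfl
  map_smul' c w := by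
    show int0 (c • w.1) = c • int0 w.1
    unfold int0
    rw [← integral_smul]
    rfl

@[simp] theorem intL_apply {m : ℕ} (w : Om m m) : intL m w = int0 w.1 := rfl

theorem om_res {Γ : Type} [Group Γ] {n : ℕ} {act : Γ → EE (n + 1) → EE (n + 1)} (h : GoodAction Γ (n + 1) act) :
    Res n (fun k => Om (n + 1) k) (fun k => rho h k) (fun k => dL (n + 1) k) (intL (n + 1)) where
  equi k g x := dL_rho h k g x
  dd k x := dL_dL (n + 1) k x
  ed x := int0_extDeriv x.2
  einv g x := int0_tr h g x.2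
  esurj := by
    obtain ⟨w, hw, h1⟩ := exists_int_one (k := n)
    exact ⟨⟨w, hw⟩, h1⟩
  inj x hx := by
    apply Subtype.ext
    exact closed_zero_form_compact (by omega) x.2 (congrArg Subtype.val hx)
  exact k hk x hx := by
    obtain ⟨η, hη, h2⟩ := poincare (m := n + 1) (k := k) (by omega) x.2 (congrArg Subtype.val hx)
    exact ⟨⟨η, hη⟩, Subtype.ext h2⟩
  top x hx := by
    obtain ⟨η, hη, h2⟩ := poincare_top x.2 hx
    exact ⟨⟨η, hη⟩, Subtype.ext h2⟩
  loc k _ := rho_locInd h k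

end C37A
end

section

set_option autoImplicit false

open scoped ContDiff Topology
open MeasureTheory

namespace C37A

variable {Γ : Type} [Group Γ] {m : ℕ} {act : Γ → EE m → EE m}

/-- `Nm` of an element of `Om m k` commutes with `dL` -/
theorem Nm_dL (h : GoodAction Γ m act) {k : ℕ} (w : Om m k) :
    Nm act (dL m k w).1 = extDeriv (Nm act w.1) := by
  rw [extDeriv_Nm h w.2]
  rfl

theorem zf_smul {m : ℕ} (ψ f : EE m → ℝ) : (fun x => ψ x • zf f x) = zf (fun x => ψ x * f x) := by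
  funext x
  ext v
  simp [zf]

theorem tr_zf (g : Γ) (f : EE m → ℝ) : tr act g (zf f) = zf (fun x => f (act g⁻¹ x)) := pb_zf _ _

theorem not_cond_of_cocompact (h : GoodAction Γ m act)
    (hc : ∃ K : Set (EE m), IsCompact K ∧ ∀ x, ∃ g, x ∈ act g '' K) :
    ¬ ∀ x : Om m 0, dL m 0 x ∈ Aug (rho h 1) → x ∈ Aug (rho h 0) := by
  intro hx
  obtain ⟨K, hK, hKc⟩ := hc
  obtain ⟨ψ, hψ, hψc, hψ1⟩ := exists_psi h hK
  have hom : IsOm (zf ψ) := (zf_isOm ψ).2 ⟨hψ, hψc⟩
  have hN : Nm act (zf ψ) = zf (fun _ : EE m => (1 : ℝ)) := by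
    have h1 := Nm_psi h (w := zf (fun _ : EE m => (1 : ℝ))) (fun g => tr_zf g _) (C := K)
      (fun x hx => absurd (hKc x) hx) hψc hψ1
    rw [zf_smul] at h1
    simpa using h1
  have h2 : dL m 0 ⟨zf ψ, hom⟩ ∈ Aug (rho h 1) := by
    apply aug_of_Nm h
    rw [Nm_dL h]
    show extDeriv (Nm act (zf ψ)) = 0
    rw [hN]
    funext x
    rw [Pi.zero_apply, extDeriv_zf_eq_zero]
    simp
  have h3 := Nm_of_aug h (hx _ h2)
  have h4 : Nm act (zf ψ) = 0 := h3
  rw [hN] at h4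
  have h5 := congrFun h4 0
  rw [Pi.zero_apply, zf_eq_zero] at h5
  exact one_ne_zero h5

theorem cond_of_not_cocompact (h : GoodAction Γ m act)
    (hnc : ¬ ∃ K : Set (EE m), IsCompact K ∧ ∀ x, ∃ g, x ∈ act g '' K) (x : Om m 0)
    (hx : dL m 0 x ∈ Aug (rho h 1)) : x ∈ Aug (rho h 0) := by
  apply aug_of_Nm h
  have h1 : extDeriv (Nm act x.1) = 0 := by
    rw [← Nm_dL h]
    exact Nm_of_aug h hx
  have h2 := closed_zero_form (Nm_contDiff h x.2) h1
  have h3 : ∃ p : EE m, p ∉ Sat act (tsupport x.1) := by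
    by_contra hcon
    push Not at hcon
    exact hnc ⟨tsupport x.1, x.2.2, hcon⟩
  obtain ⟨p, hp⟩ := h3
  funext y
  rw [h2 y p, Nm_support h _ p hp]
  rfl

end C37A
end

section

set_option autoImplicit false

open scoped ContDiff Topology
open MeasureTheory

namespace C37A

variable {Γ : Type} [Group Γ] {m : ℕ} {act : Γ → EE m → EE m}

theorem Nm_sub (h : GoodAction Γ m act) {k : ℕ} (w w' : Om m k) :
    Nm act (w - w').1 = Nm act w.1 - Nm act w'.1 := by
  have h1 : (w - w').1 = w.1 + (-1 : ℝ) • w'.1 := by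
    show w.1 - w'.1 = _
    funext x
    ext v
    simp [sub_eq_add_neg]
  have h2 : HasCompactSupport ((-1 : ℝ) • w'.1) := ((-1 : ℝ) • w').2.2
  rw [h1, Nm_add h w.2.2 h2, Nm_smul h _ w'.2.2]
  funext x
  ext v
  simp [sub_eq_add_neg]

theorem tr_sub_zf_const {f g : EE m → ℝ} (hf : ContDiff ℝ ∞ f) (hg : ContDiff ℝ ∞ g)
    (he : extDeriv (zf f) = extDeriv (zf g)) (x y : EE m) : f x - g x = f y - g y := by
  have h1 : ContDiff ℝ ∞ (fun x => f x - g x) := hf.sub hg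
  have h2 : extDeriv (zf (fun x => f x - g x)) = 0 := by
    funext x
    rw [Pi.zero_apply]
    ext v
    rw [extDeriv_zf, fderiv_fun_sub (hf.differentiable (by simp) x) (hg.differentiable (by simp) x)]
    have h3 := congrFun he x
    have h4 := congrArg (fun u => u v) h3
    simp only [extDeriv_zf] at h4
    simp [h4]
  have h3 := closed_zero_form ((zf_contDiff _).2 h1) h2 x y
  have h4 := congrArg (fun u => u (fun a : Fin 0 => a.elim0)) h3
  simpa only [zf_apply] using h4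

/-- an invariant function whose support is compact modulo the group is a transfer -/
theorem exists_Nm_zf (h : GoodAction Γ m act) {f : EE m → ℝ} (hf : ContDiff ℝ ∞ f)
    (hinv : ∀ g x, f (act g x) = f x) {C : Set (EE m)} (hC : IsCompact C) (h0 : ∀ x, x ∉ Sat act C → f x = 0) :
    ∃ z : Om m 0, Nm act z.1 = zf f := by
  obtain ⟨ψ, hψ, hψc, hψ1⟩ := exists_psi h hC
  have hom : IsOm (fun x => ψ x • zf f x) := mul_isOm hψ hψc ((zf_contDiff f).2 hf)
  refine ⟨⟨_, hom⟩, ?_⟩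
  apply Nm_psi h (C := C) _ _ hψc hψ1
  · intro g
    rw [tr_zf]
    simp only [hinv]
  · intro x hx
    rw [zf_eq_zero]
    exact h0 x hx

theorem exists_W (h : GoodAction Γ m act)
    (hn : ¬ ∀ y : Om m 1, dL m 1 y ∈ Aug (rho h 2) → ∃ z : Om m 0, y - dL m 0 z ∈ Aug (rho h 1)) :
    ∃ (W : EE m → ℝ) (χ : Γ → ℝ), ContDiff ℝ ∞ W ∧ (∀ g x, W (act g x) = W x + χ g) ∧
      (∃ C : Set (EE m), IsCompact C ∧ ∀ x, x ∉ Sat act C → fderiv ℝ W x = 0) ∧
      ((∀ g, χ g = 0) → ∀ (c : ℝ) (C : Set (EE m)), IsCompact C → ∃ x, W x ≠ c ∧ x ∉ Sat act C) := by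
  push Not at hn
  obtain ⟨w, hw, hw2⟩ := hn
  have hcl : extDeriv (Nm act w.1) = 0 := by
    rw [← Nm_dL h]
    exact Nm_of_aug h hw
  obtain ⟨W, hW, hWd⟩ := closed_one_form (Nm_contDiff h w.2) hcl
  have hkey : ∀ g x, W (act g x) - W x = W (act g 0) - W 0 := by
    intro g x
    apply tr_sub_zf_const (hW.comp (h.smooth g)) hW
    have h1 : zf (W ∘ act g) = tr act g⁻¹ (zf W) := by
      rw [tr_zf, inv_inv]
      rfl
    rw [h1, extDeriv_tr h _ ((zf_contDiff W).2 hW), hWd, tr_Nm h _ w.2.2]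
  refine ⟨W, fun g => W (act g 0) - W 0, hW, ?_, ?_, ?_⟩
  · intro g x
    have := hkey g x
    linarith
  · refine ⟨tsupport w.1, w.2.2, ?_⟩
    intro x hx
    rw [← extDeriv_zf_eq_zero, hWd]
    exact Nm_support h _ x hx
  · intro hχ c C hC
    by_contra hcon
    push Not at hcon
    have hf : ContDiff ℝ ∞ (fun x => W x - c) := hW.sub contDiff_const
    obtain ⟨z, hz⟩ := exists_Nm_zf h hf (by
      intro g x
      have h1 := hkey g x
      have h2 : W (act g 0) - W 0 = 0 := hχ g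
      show W (act g x) - c = W x - c
      linarith) hC (by
      intro x hx
      by_contra h3
      exact hx (hcon x (fun h4 => h3 (by simp [h4]))))
    apply hw2 z
    apply aug_of_Nm h
    rw [Nm_sub h, Nm_dL h, hz, ← hWd]
    rw [sub_eq_zero]
    funext x
    ext v
    rw [extDeriv_zf, extDeriv_zf, fderiv_fun_sub (hW.differentiable (by simp) x) (by simp)]
    simp

end C37A
end

section

set_option autoImplicit false

open scoped ContDiff Topology
open MeasureTheory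

namespace C37A

variable {Γ : Type} [Group Γ] {m : ℕ} {act : Γ → EE m → EE m}

theorem exists_const (h : GoodAction Γ m act)
    (hy : ∀ y : Om m 1, dL m 1 y ∈ Aug (rho h 2) → ∃ z : Om m 0, y - dL m 0 z ∈ Aug (rho h 1))
    (f : EE m → ℝ) (hf : ContDiff ℝ ∞ f) (hinv : ∀ g x, f (act g x) = f x)
    (hC : ∃ C : Set (EE m), IsCompact C ∧ ∀ x, x ∉ Sat act C → fderiv ℝ f x = 0) :
    ∃ (c : ℝ) (C : Set (EE m)), IsCompact C ∧ ∀ x, x ∉ Sat act C → f x = c := by
  obtain ⟨C, hC, hC0⟩ := hC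
  have hzf : ContDiff ℝ ∞ (zf f) := (zf_contDiff f).2 hf
  obtain ⟨ψ, hψ, hψc, hψ1⟩ := exists_psi h hC
  have hom : IsOm (fun x => ψ x • extDeriv (zf f) x) := mul_isOm hψ hψc (contDiff_extDeriv hzf)
  have hN : Nm act (fun x => ψ x • extDeriv (zf f) x) = extDeriv (zf f) := by
    apply Nm_psi h (C := C) _ _ hψc hψ1
    · intro g
      rw [← extDeriv_tr h g hzf, tr_zf]
      simp only [hinv]
    · intro x hx
      rw [extDeriv_zf_eq_zero]
      exact hC0 x hx
  obtain ⟨z, hz⟩ := hy ⟨_, hom⟩ (by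
    apply aug_of_Nm h
    rw [Nm_dL h]
    show extDeriv (Nm act (fun x => ψ x • extDeriv (zf f) x)) = 0
    rw [hN]
    exact extDeriv_extDeriv0 hzf)
  have h1 := Nm_of_aug h hz
  rw [Nm_sub h, Nm_dL h, sub_eq_zero] at h1
  have h2 : extDeriv (zf f) = extDeriv (Nm act z.1) := by
    rw [← h1]
    exact hN.symm
  have h3 := zf_surj (Nm act z.1)
  set g : EE m → ℝ := fun x => Nm act z.1 x (fun a => a.elim0) with hg
  have hgs : ContDiff ℝ ∞ g := by
    rw [← zf_contDiff, ← h3]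
    exact Nm_contDiff h z.2
  refine ⟨f 0 - g 0, tsupport z.1, z.2.2, ?_⟩
  intro x hx
  have h4 := tr_sub_zf_const hf hgs (by rw [h2, ← h3]) x 0
  have h5 : g x = 0 := by
    rw [hg]
    simp only [Nm_support h _ x hx]
    rfl
  linarith

end C37A
end

section

/-!
MP_c37615_al (S02984), part D-IIb (paper 6.4.4 - 6.4.6), file B_C4
-/

set_option autoImplicit false

open Filter Topology NormedSpace

namespace C37
namespace DB

theorem C4_x1 (b a c d e f : ℝ) : (nn b a c d e f).mulVec x1 = a • y3 := by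
  obtain ⟨_, h1, _, _, _, _, _⟩ := tL12
  obtain ⟨_, h2, _, _, _, _, _⟩ := tSp2
  obtain ⟨_, h3, _, _, _, _, _⟩ := tSp1
  obtain ⟨_, h4, _, _, _, _, _⟩ := tSm3
  obtain ⟨_, h5, _, _, _, _, _⟩ := tL23
  obtain ⟨_, h6, _, _, _, _, _⟩ := tL13
  unfold nn
  simp only [Matrix.add_mulVec, Matrix.smul_mulVec, h1, h2, h3, h4, h5, h6]
  module

theorem C4_x2 (b a c d e f : ℝ) : (nn b a c d e f).mulVec x2 = (-b) • x1 + c • y3 := by
  obtain ⟨_, _, h1, _, _, _, _⟩ := tL12
  obtain ⟨_, _, h2, _, _, _, _⟩ := tSp2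
  obtain ⟨_, _, h3, _, _, _, _⟩ := tSp1
  obtain ⟨_, _, h4, _, _, _, _⟩ := tSm3
  obtain ⟨_, _, h5, _, _, _, _⟩ := tL23
  obtain ⟨_, _, h6, _, _, _, _⟩ := tL13
  unfold nn
  simp only [Matrix.add_mulVec, Matrix.smul_mulVec, h1, h2, h3, h4, h5, h6]
  module

theorem C4_x3 (b a c d e f : ℝ) : (nn b a c d e f).mulVec x3
    = (-a) • y1 + (-c) • y2 + (-(d / 2)) • va + (-e) • x2 + (-f) • x1 := by
  obtain ⟨_, _, _, h1, _, _, _⟩ := tL12
  obtain ⟨_, _, _, h2, _, _, _⟩ := tSp2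
  obtain ⟨_, _, _, h3, _, _, _⟩ := tSp1
  obtain ⟨_, _, _, h4, _, _, _⟩ := tSm3
  obtain ⟨_, _, _, h5, _, _, _⟩ := tL23
  obtain ⟨_, _, _, h6, _, _, _⟩ := tL13
  unfold nn
  simp only [Matrix.add_mulVec, Matrix.smul_mulVec, h1, h2, h3, h4, h5, h6]
  module

theorem C4_va (b a c d e f : ℝ) : (nn b a c d e f).mulVec va
    = (2 * c) • x1 + (-(2 * a)) • x2 + d • y3 := by
  obtain ⟨h1, _, _, _, _, _, _⟩ := tL12
  obtain ⟨h2, _, _, _, _, _, _⟩ := tSp2
  obtain ⟨h3, _, _, _, _, _, _⟩ := tSp1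
  obtain ⟨h4, _, _, _, _, _, _⟩ := tSm3
  obtain ⟨h5, _, _, _, _, _, _⟩ := tL23
  obtain ⟨h6, _, _, _, _, _, _⟩ := tL13
  unfold nn
  simp only [Matrix.add_mulVec, Matrix.smul_mulVec, h1, h2, h3, h4, h5, h6]
  module

theorem C4_y1 (b a c d e f : ℝ) : (nn b a c d e f).mulVec y1
    = b • y2 + (-c) • va + (d / 2) • x2 + f • y3 := by
  obtain ⟨_, _, _, _, h1, _, _⟩ := tL12
  obtain ⟨_, _, _, _, h2, _, _⟩ := tSp2
  obtain ⟨_, _, _, _, h3, _, _⟩ := tSp1
  obtain ⟨_, _, _, _, h4, _, _⟩ := tSm3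
  obtain ⟨_, _, _, _, h5, _, _⟩ := tL23
  obtain ⟨_, _, _, _, h6, _, _⟩ := tL13
  unfold nn
  simp only [Matrix.add_mulVec, Matrix.smul_mulVec, h1, h2, h3, h4, h5, h6]
  module

theorem C4_y2 (b a c d e f : ℝ) : (nn b a c d e f).mulVec y2
    = a • va + (-(d / 2)) • x1 + e • y3 := by
  obtain ⟨_, _, _, _, _, h1, _⟩ := tL12
  obtain ⟨_, _, _, _, _, h2, _⟩ := tSp2
  obtain ⟨_, _, _, _, _, h3, _⟩ := tSp1
  obtain ⟨_, _, _, _, _, h4, _⟩ := tSm3
  obtain ⟨_, _, _, _, _, h5, _⟩ := tL23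
  obtain ⟨_, _, _, _, _, h6, _⟩ := tL13
  unfold nn
  simp only [Matrix.add_mulVec, Matrix.smul_mulVec, h1, h2, h3, h4, h5, h6]
  module

theorem C4_y3 (b a c d e f : ℝ) : (nn b a c d e f).mulVec y3 = 0 := by
  obtain ⟨_, _, _, _, _, _, h1⟩ := tL12
  obtain ⟨_, _, _, _, _, _, h2⟩ := tSp2
  obtain ⟨_, _, _, _, _, _, h3⟩ := tSp1
  obtain ⟨_, _, _, _, _, _, h4⟩ := tSm3
  obtain ⟨_, _, _, _, _, _, h5⟩ := tL23
  obtain ⟨_, _, _, _, _, _, h6⟩ := tL13
  unfold nn
  simp only [Matrix.add_mulVec, Matrix.smul_mulVec, h1, h2, h3, h4, h5, h6]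
  module

/-- commutation relations in coordinates. The commutator of the two elements is
`nn 0 0 (b a2 - a b2) (4 (a c2 - c a2)) (-(3/2)(a d2 - d a2)) (-(b e2 - e b2) + (3/2)(c d2 - d c2))`
(brackets [L12,S+2]=S+1, [S+2,S+1]=4 S-3, [S+2,S-3]=-(3/2) L23, [L12,L23]=-L13, [S+1,S-3]=(3/2) L13, others 0).
Proof: evaluate the hypothesis on null basis vectors (tables B_N03): `x2` gives `b a2 = a b2` and nothing else is needed for
the `y3`-coefficient; on `x3` compare coefficients of `y2`, `va`, `x2`, `x1`. Or prove the commutator formula by `null_ext`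
and then use `nn_eq_zero`. -/
theorem nn_comm (b a c d e f b2 a2 c2 d2 e2 f2 : ℝ)
    (h : nn b a c d e f * nn b2 a2 c2 d2 e2 f2 = nn b2 a2 c2 d2 e2 f2 * nn b a c d e f) :
    b * a2 = a * b2 ∧ a * c2 = c * a2 ∧ a * d2 = d * a2 ∧ b * e2 - e * b2 = 3 / 2 * (c * d2 - d * c2) := by
  have q2 := congrArg (fun M : Mat => M.mulVec x2) h
  have q3 := congrArg (fun M : Mat => M.mulVec x3) h
  simp only [← Matrix.mulVec_mulVec, C4_x1, C4_x2, C4_x3, C4_va, C4_y1, C4_y2, C4_y3,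
    Matrix.mulVec_add, Matrix.mulVec_smul] at q2 q3
  have p2 := congrFun q2 2
  have r0 := congrFun q3 0
  have r1 := congrFun q3 1
  have r3 := congrFun q3 3
  have r4 := congrFun q3 4
  have r5 := congrFun q3 5
  simp [x1, x2, y1, y2, y3, va] at p2 r0 r1 r3 r4 r5
  refine ⟨?_, ?_, ?_, ?_⟩
  · linarith
  · linarith
  · linarith
  · linarith

end DB
end C37
end
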