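import Pool.Agent.Lib.MP_c37615_al.Mg.G008

section

/-!
MP_c37615_al, PART B: the cocycle `b(g)(x Γ) = W(g⁻¹ x) - W(x)`.
-/

set_option autoImplicit false

open Filter Topology MeasureTheory

namespace C37.PB

/-- the situation: `W` is quasi-invariant under `Γ` (acting from the right) and locally constant off
`C Γ` -/
structure WData {G : Type*} [Group G] [TopologicalSpace G] (Γ : Subgroup G) (W : G → ℝ) (χ : G → ℝ)
    (C : Set G) : Prop where
  cont : Continuous W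
  quasi : ∀ γ ∈ Γ, ∀ x, W (x * γ) = W x + χ γ
  comp : IsCompact C
  loc : ∀ x, (∀ γ ∈ Γ, x * γ ∉ C) → ∀ᶠ y in 𝓝 x, W y = W x

/-- the function `b(g)` on the quotient -/
noncomputable def cf {G : Type*} [Group G] (Γ : Subgroup G) (W : G → ℝ) (g : G) (y : G ⧸ Γ) : ℂ :=
  ((W (g⁻¹ * Quotient.out y) - W (Quotient.out y) : ℝ) : ℂ)

variable {G : Type*} [Group G] [TopologicalSpace G] [IsTopologicalGroup G] {Γ : Subgroup G}
  {W : G → ℝ} {χ : G → ℝ} {C : Set G}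

/-- TASK Co1. `Quotient.out (mk x) = x γ` with `γ ∈ Γ`; both terms change by `χ γ`. -/
theorem cf_mk (h : WData Γ W χ C) (g x : G) :
    cf Γ W g (QuotientGroup.mk x) = ((W (g⁻¹ * x) - W x : ℝ) : ℂ) := by
  obtain ⟨γ, hγ⟩ := QuotientGroup.mk_out_eq_mul Γ x
  unfold cf
  have e : Quotient.out (QuotientGroup.mk x : G ⧸ Γ) = x * (γ : G) := hγ
  rw [e, ← mul_assoc, h.quasi γ γ.2 (g⁻¹ * x), h.quasi γ γ.2 x]
  congr 1
  ring

/-- TASK Co1. (`QuotientGroup.isQuotientMap_mk` or similar.) -/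
theorem cf_continuous (h : WData Γ W χ C) (g : G) : Continuous (cf Γ W g) := by
  have hq : IsQuotientMap (QuotientGroup.mk : G → G ⧸ Γ) := QuotientGroup.isQuotientMap_mk Γ
  rw [hq.continuous_iff]
  have e : (cf Γ W g ∘ (QuotientGroup.mk : G → G ⧸ Γ)) =
      fun x => ((W (g⁻¹ * x) - W x : ℝ) : ℂ) := by
    funext x
    exact cf_mk h g x
  rw [e]
  have h1 := h.cont
  fun_prop

/-- TASK Co1. `y = mk x`, `W(h⁻¹ g⁻¹ x) - W(x) = (W(h⁻¹ g⁻¹ x) - W(g⁻¹ x)) + (W(g⁻¹ x) - W(x))`. -/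
theorem cf_mul (h : WData Γ W χ C) (g k : G) (y : G ⧸ Γ) :
    cf Γ W (g * k) y = cf Γ W g y + cf Γ W k (g⁻¹ • y) := by
  induction y using QuotientGroup.induction_on with
  | H x =>
    have e : g⁻¹ • (QuotientGroup.mk x : G ⧸ Γ) = QuotientGroup.mk (g⁻¹ * x) := rfl
    rw [e, cf_mk h, cf_mk h, cf_mk h, mul_inv_rev, mul_assoc, ← Complex.ofReal_add]
    congr 1
    ring

/-- TASK Co2. If `W((c t)⁻¹ x)` for `t ∈ [0, 1]` never enters `C Γ`, then `t ↦ W((c t)⁻¹ x)` is locally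
constant on `[0, 1]`, so constant, so `cf (c 1) (mk x) = 0`. So if `cf (c 1) (mk x) ≠ 0` then
`(c t)⁻¹ x γ ∈ C` for some `t ∈ [0, 1]`, `γ ∈ Γ`, and `mk x = mk (x γ)`,
`x γ = c t * ((c t)⁻¹ x γ)`. -/
theorem cf_support (h : WData Γ W χ C) {c : ℝ → G} (hc : Continuous c) (h0 : c 0 = 1)
    (y : G ⧸ Γ) (hy : cf Γ W (c 1) y ≠ 0) :
    ∃ t ∈ Set.Icc (0 : ℝ) 1, ∃ z ∈ C, y = QuotientGroup.mk (c t * z) := by
  induction y using QuotientGroup.induction_on with
  | H x =>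
    by_contra hcon
    push Not at hcon
    apply hy
    rw [cf_mk h]
    have key : ∀ t ∈ Set.Icc (0 : ℝ) 1, ∀ γ ∈ Γ, (c t)⁻¹ * x * γ ∉ C := by
      intro t ht γ hγ hmem
      apply hcon t ht _ hmem
      have e1 : c t * ((c t)⁻¹ * x * γ) = x * γ := by group
      rw [e1]
      exact (QuotientGroup.mk_mul_of_mem x hγ).symm
    have hcont : Continuous fun t : ℝ => (c t)⁻¹ * x := by fun_prop
    have hloc : ∀ t ∈ Set.Icc (0 : ℝ) 1,
        ∀ᶠ s in 𝓝[Set.Icc (0 : ℝ) 1] t, W ((c t)⁻¹ * x) = W ((c s)⁻¹ * x) := by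
      intro t ht
      have h1 := (hcont.tendsto t).eventually (h.loc _ (key t ht))
      have h2 := h1.filter_mono (nhdsWithin_le_nhds (s := Set.Icc (0 : ℝ) 1))
      exact h2.mono fun s hs => hs.symm
    have hconst : W ((c 0)⁻¹ * x) = W ((c 1)⁻¹ * x) :=
      isPreconnected_Icc.induction₂ (fun a b : ℝ => W ((c a)⁻¹ * x) = W ((c b)⁻¹ * x)) hloc
        (fun _ _ _ _ _ _ h1 h2 => h1.trans h2) (fun _ _ _ _ h1 => h1.symm)
        (Set.left_mem_Icc.mpr zero_le_one) (Set.right_mem_Icc.mpr zero_le_one)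
    rw [h0, inv_one, one_mul] at hconst
    rw [← hconst, sub_self, Complex.ofReal_zero]

/-- TASK Co3. By `cf_support` the support is contained in the compact set
`mk '' {c t * z : t ∈ [0, 1], z ∈ C}`. -/
theorem cf_compact [T2Space (G ⧸ Γ)] (h : WData Γ W χ C)
    (hpath : ∀ g : G, ∃ c : ℝ → G, Continuous c ∧ c 0 = 1 ∧ c 1 = g) (g : G) :
    HasCompactSupport (cf Γ W g) := by
  obtain ⟨c, hc, h0, h1⟩ := hpath g
  have hK : IsCompact ((fun p : ℝ × G => (QuotientGroup.mk (c p.1 * p.2) : G ⧸ Γ)) ''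
      (Set.Icc (0 : ℝ) 1 ×ˢ C)) := by
    apply (isCompact_Icc.prod h.comp).image
    have h2 : Continuous (QuotientGroup.mk : G → G ⧸ Γ) := QuotientGroup.continuous_mk
    exact h2.comp (by fun_prop)
  refine HasCompactSupport.intro hK ?_
  intro y hy
  by_contra hne
  rw [← h1] at hne
  obtain ⟨t, ht, z, hz, rfl⟩ := cf_support h hc h0 y hne
  exact hy ⟨(t, z), ⟨ht, hz⟩, rfl⟩

variable [LocallyCompactSpace G] [PolishSpace G] [MeasurableSpace G] [BorelSpace G]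

/-- TASK Co3. A continuous function with compact support
(`Continuous.memLp_of_hasCompactSupport`). -/
theorem cf_memLp [T2Space (G ⧸ Γ)] (h : WData Γ W χ C)
    (hpath : ∀ g : G, ∃ c : ℝ → G, Continuous c ∧ c 0 = 1 ∧ c 1 = g)
    {μ : Measure (G ⧸ Γ)} [IsFiniteMeasureOnCompacts μ] (g : G) : MemLp (cf Γ W g) 2 μ := by
  exact (cf_continuous h g).memLp_of_hasCompactSupport (cf_compact h hpath g)

/-- TASK Co4. For `s ∈ [0, 1]` apply `cf_support` to the path `t ↦ c (t s)`: the supports of all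
`cf (c s)` are contained in `mk '' K`, `K = {c t * z : t ∈ [0, 1], z ∈ C}` compact, and for `x ∈ K`
`|cf (c s) (mk x)| ≤ |W((c s)⁻¹ x)| + |W x| ≤ M` (`W` is bounded on the compact set
`{(c s)⁻¹ x : s ∈ [0, 1], x ∈ K} ∪ K`). So the `L²`-norm is at most `M * μ(mk '' K)^(1/2)`. -/
theorem cf_bdd [T2Space (G ⧸ Γ)] (h : WData Γ W χ C) {c : ℝ → G} (hc : Continuous c) (h0 : c 0 = 1)
    {μ : Measure (G ⧸ Γ)} [IsFiniteMeasureOnCompacts μ] :
    ∃ M : ℝ, ∀ s ∈ Set.Icc (0 : ℝ) 1, eLpNorm (cf Γ W (c s)) 2 μ ≤ ENNReal.ofReal M := by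
  -- the compact set that contains the supports
  have hK : IsCompact ((fun p : ℝ × G => c p.1 * p.2) '' (Set.Icc (0 : ℝ) 1 ×ˢ C)) :=
    (isCompact_Icc.prod h.comp).image ((hc.comp continuous_fst).mul continuous_snd)
  set K : Set G := (fun p : ℝ × G => c p.1 * p.2) '' (Set.Icc (0 : ℝ) 1 ×ˢ C) with hKd
  have hK' : IsCompact ((fun p : ℝ × G => (c p.1)⁻¹ * p.2) '' (Set.Icc (0 : ℝ) 1 ×ˢ K)) :=
    (isCompact_Icc.prod hK).image ((hc.comp continuous_fst).inv.mul continuous_snd)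
  set K' : Set G := (fun p : ℝ × G => (c p.1)⁻¹ * p.2) '' (Set.Icc (0 : ℝ) 1 ×ˢ K) with hK'd
  obtain ⟨M1, hM1⟩ := hK.exists_bound_of_continuousOn h.cont.continuousOn
  obtain ⟨M2, hM2⟩ := hK'.exists_bound_of_continuousOn h.cont.continuousOn
  set S : Set (G ⧸ Γ) := (QuotientGroup.mk : G → G ⧸ Γ) '' K with hS
  have hScomp : IsCompact S := hK.image QuotientGroup.continuous_mk
  have hSfin : μ S < ⊤ := hScomp.measure_lt_top
  have hpt : ∀ s ∈ Set.Icc (0 : ℝ) 1, ∀ y, ‖cf Γ W (c s) y‖ ≤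
      ‖(toMeasurable μ S).indicator (fun _ => (M2 + M1 : ℝ)) y‖ := by
    intro s hs y
    by_cases hy : cf Γ W (c s) y = 0
    · rw [hy, norm_zero]
      exact norm_nonneg _
    · obtain ⟨t, ht, z, hz, hyz⟩ := cf_support (c := fun t => c (t * s)) h
        (hc.comp (continuous_id.mul continuous_const)) (by simp [h0]) y (by simpa using hy)
      have hxK : c (t * s) * z ∈ K :=
        ⟨(t * s, z), ⟨⟨mul_nonneg ht.1 hs.1, mul_le_one₀ ht.2 hs.1 hs.2⟩, hz⟩, rfl⟩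
      have hxK' : (c s)⁻¹ * (c (t * s) * z) ∈ K' := ⟨(s, c (t * s) * z), ⟨hs, hxK⟩, rfl⟩
      have hyS : y ∈ toMeasurable μ S := subset_toMeasurable μ S ⟨_, hxK, hyz.symm⟩
      rw [Set.indicator_of_mem hyS, hyz, cf_mk h]
      rw [Complex.norm_real]
      have e1 := hM1 _ hxK
      have e2 := hM2 _ hxK'
      refine (norm_sub_le _ _).trans ((add_le_add e2 e1).trans (le_abs_self _))
  refine ⟨(eLpNorm ((toMeasurable μ S).indicator (fun _ => (M2 + M1 : ℝ))) 2 μ).toReal, fun s hs => ?_⟩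
  have hfin : eLpNorm ((toMeasurable μ S).indicator (fun _ => (M2 + M1 : ℝ))) 2 μ ≠ ⊤ := by
    rw [eLpNorm_indicator_const (measurableSet_toMeasurable μ S) (by norm_num) (by norm_num),
      measure_toMeasurable]
    refine ENNReal.mul_ne_top enorm_ne_top ?_
    exact ENNReal.rpow_ne_top_of_nonneg (by positivity) hSfin.ne
  rw [ENNReal.ofReal_toReal hfin]
  exact eLpNorm_mono (hpt s hs)

theorem co5_el (s : ℝ) : ((el 0 2 (by decide) s : SL3) : Matrix (Fin 3) (Fin 3) ℝ) = Matrix.transvection 0 2 s := rfl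

theorem co5_el_cont : Continuous fun s : ℝ => (el 0 2 (by decide) s : SL3) := by
  apply Continuous.subtype_mk
  unfold Matrix.transvection
  refine continuous_const.add ?_
  refine continuous_matrix fun i j => ?_
  simp only [Matrix.single_apply]
  split_ifs
  · exact continuous_id
  · exact continuous_const

theorem co5_el_zero : (el 0 2 (by decide) 0 : SL3) = 1 := by
  apply Subtype.ext
  simp [el]

/-- TASK Co5. The cocycle. Take the representation `U` of `exists_L2`, `b g = (cf_memLp ..).toLp`; the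
cocycle identity from `cf_mul`, and `D.ι ∘ el 0 2` as the path in `cf_bdd`. -/
theorem exists_cocycle [T2Space (G ⧸ Γ)] (D : RootData G) (h : WData Γ W χ C)
    (hpath : ∀ g : G, ∃ c : ℝ → G, Continuous c ∧ c 0 = 1 ∧ c 1 = g)
    {ν : Measure G} {μ : Measure (G ⧸ Γ)} (hμ : QM Γ ν μ) :
    ∃ (U : URep G (Lp ℂ 2 μ)) (b : G → Lp ℂ 2 μ), IsCocycle U b ∧
      (∃ M, ∀ s ∈ Set.Icc (0 : ℝ) 1, ‖b (D.ι (el 0 2 (by decide) s))‖ ≤ M) ∧
      (∀ g (f : Lp ℂ 2 μ), ∀ᵐ y ∂μ, U.op g f y = f (g⁻¹ • y)) ∧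
      (∀ g, ∀ᵐ y ∂μ, b g y = cf Γ W g y) := by
  have := hμ.inv
  have := hμ.fin
  obtain ⟨hlf, hir⟩ := hμ.innerRegular
  obtain ⟨U, hU⟩ := exists_L2 (G := G) (X := G ⧸ Γ) μ
  have hmem : ∀ g, MemLp (cf Γ W g) 2 μ := fun g => cf_memLp h hpath g
  have hb : ∀ g, ∀ᵐ y ∂μ, (hmem g).toLp (cf Γ W g) y = cf Γ W g y := fun g => MemLp.coeFn_toLp (hmem g)
  refine ⟨U, fun g => (hmem g).toLp (cf Γ W g), ?_, ?_, hU, hb⟩
  · intro g k
    apply Lp.ext
    have h1 := hb (g * k)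
    have h2 := hb g
    have h3 := hU g ((hmem k).toLp (cf Γ W k))
    have hq : Measure.QuasiMeasurePreserving (fun y : G ⧸ Γ => g⁻¹ • y) μ μ :=
      (measurePreserving_smul g⁻¹ μ).quasiMeasurePreserving
    have h4 : ∀ᵐ y ∂μ, (hmem k).toLp (cf Γ W k) (g⁻¹ • y) = cf Γ W k (g⁻¹ • y) := hq.ae (hb k)
    have h5 := Lp.coeFn_add ((hmem g).toLp (cf Γ W g)) (U.op g ((hmem k).toLp (cf Γ W k)))
    filter_upwards [h1, h2, h3, h4, h5] with y e1 e2 e3 e4 e5
    rw [e1, e5, Pi.add_apply, e2, e3, e4]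
    exact cf_mul h g k y
  · obtain ⟨M, hM⟩ := cf_bdd h (c := fun t => D.ι (el 0 2 (by decide) t)) (D.ι_cont.comp co5_el_cont)
      (by
        show D.ι (el 0 2 (by decide) 0) = 1
        rw [co5_el_zero, map_one]) (μ := μ)
    refine ⟨max M 0, fun s hs => ?_⟩
    rw [Lp.norm_toLp]
    refine (ENNReal.toReal_mono ENNReal.ofReal_ne_top (hM s hs)).trans ?_
    rw [ENNReal.toReal_ofReal']

end C37.PB
end

section

/-!
MP_c37615_al, PART B: the functional calculus of two commuting unitary operators.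
-/

set_option autoImplicit false

open Filter Topology
open scoped InnerProductSpace

namespace C37.PB

variable {H : Type*} [NormedAddCommGroup H] [InnerProductSpace ℂ H] [CompleteSpace H]

open WeakDual in
theorem phi1_norm {A : Type*} [CommCStarAlgebra A] (u : A) (h : u ∈ unitary A)
    (φ : characterSpace ℂ A) : ‖φ u‖ = 1 := by
  have h1 : star (φ u) * φ u = 1 := by
    rw [← map_star, ← map_mul, Unitary.star_mul_self_of_mem h, map_one]
  have h2 : ‖φ u‖ * ‖φ u‖ = 1 := by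
    rw [← CStarRing.norm_star_mul_self, h1, norm_one]
  have h3 := norm_nonneg (φ u)
  nlinarith

open WeakDual in
/-- the circle-valued function defined by a unitary element -/
noncomputable def phi1_fun {A : Type*} [CommCStarAlgebra A] (u : A) (h : u ∈ unitary A) :
    C(characterSpace ℂ A, Circle) :=
  ⟨fun φ => (⟨φ u, mem_sphere_zero_iff_norm.2 (phi1_norm u h φ)⟩ : Submonoid.unitSphere ℂ),
    Continuous.subtype_mk (map_continuous (gelfandTransform ℂ A u)) _⟩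

open WeakDual in
theorem phi1_comm {A : Type*} [CommCStarAlgebra A] (u1 u2 : A) (h1 : u1 ∈ unitary A)
    (h2 : u2 ∈ unitary A) : ∃ Φ : C(T2, ℂ) →⋆ₐ[ℂ] A, Φ ez = u1 ∧ Φ ew = u2 := by
  let κ : C(characterSpace ℂ A, T2) := (phi1_fun u1 h1).prodMk (phi1_fun u2 h2)
  refine ⟨((gelfandStarTransform A).symm : C(characterSpace ℂ A, ℂ) →⋆ₐ[ℂ] A).comp
    (ContinuousMap.compStarAlgHom' ℂ ℂ κ), ?_, ?_⟩
  · change (gelfandStarTransform A).symm (ContinuousMap.compStarAlgHom' ℂ ℂ κ ez) = u1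
    have h3 : ContinuousMap.compStarAlgHom' ℂ ℂ κ ez = gelfandStarTransform A u1 := by
      ext φ
      rfl
    rw [h3, StarAlgEquiv.symm_apply_apply]
  · change (gelfandStarTransform A).symm (ContinuousMap.compStarAlgHom' ℂ ℂ κ ew) = u2
    have h3 : ContinuousMap.compStarAlgHom' ℂ ℂ κ ew = gelfandStarTransform A u2 := by
      ext φ
      rfl
    rw [h3, StarAlgEquiv.symm_apply_apply]

/-- TASK Phi1. Existence of the functional calculus. Let `S` be the closed star subalgebra of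
`H →L[ℂ] H` generated by `U1, U2` (`StarAlgebra.adjoin ℂ {U1, U2}`, topological closure). It is
commutative, because `U1, U2` commute and `star U = U⁻¹` for unitaries, so it is a commutative unital
C*-algebra `A`. For a character `φ` of `A` we have `|φ U1| = |φ U2| = 1`
(`φ (star a) = star (φ a)`), which gives a continuous map `κ : characterSpace ℂ A → T2`,
`κ φ = (φ U1, φ U2)`; `Φ f = (gelfandStarTransform A).symm (f ∘ κ)`, viewed in `H →L[ℂ] H`.
(Other way: prove it first for an arbitrary commutative C*-algebra with two unitaries.) -/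
theorem exists_phi (U1 U2 : H →L[ℂ] H) (h1 : U1 ∈ unitary (H →L[ℂ] H))
    (h2 : U2 ∈ unitary (H →L[ℂ] H)) (hc : U1 * U2 = U2 * U1) :
    ∃ Φ : C(T2, ℂ) →⋆ₐ[ℂ] (H →L[ℂ] H), Φ ez = U1 ∧ Φ ew = U2 := by
  have hs1 : star U1 * U1 = 1 := Unitary.star_mul_self_of_mem h1
  have hs1' : U1 * star U1 = 1 := Unitary.mul_star_self_of_mem h1
  have hs2 : star U2 * U2 = 1 := Unitary.star_mul_self_of_mem h2
  have hs2' : U2 * star U2 = 1 := Unitary.mul_star_self_of_mem h2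
  have e12 : U1 * star U2 = star U2 * U1 := by
    calc U1 * star U2 = (star U2 * U2) * (U1 * star U2) := by rw [hs2, one_mul]
      _ = star U2 * (U2 * U1) * star U2 := by simp only [mul_assoc]
      _ = star U2 * U1 * (U2 * star U2) := by rw [← hc]; simp only [mul_assoc]
      _ = star U2 * U1 := by rw [hs2', mul_one]
  have e21 : U2 * star U1 = star U1 * U2 := by
    calc U2 * star U1 = (star U1 * U1) * (U2 * star U1) := by rw [hs1, one_mul]
      _ = star U1 * (U1 * U2) * star U1 := by simp only [mul_assoc]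
      _ = star U1 * U2 * (U1 * star U1) := by rw [hc]; simp only [mul_assoc]
      _ = star U1 * U2 := by rw [hs1', mul_one]
  have hcomm : ∀ x ∈ ({U1, U2} : Set (H →L[ℂ] H)), ∀ y ∈ ({U1, U2} : Set (H →L[ℂ] H)),
      x * y = y * x := by
    rintro x (rfl | rfl) y (rfl | rfl)
    · rfl
    · exact hc
    · exact hc.symm
    · rfl
  have hcomm_star : ∀ x ∈ ({U1, U2} : Set (H →L[ℂ] H)), ∀ y ∈ ({U1, U2} : Set (H →L[ℂ] H)),
      x * star y = star y * x := by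
    rintro x (rfl | rfl) y (rfl | rfl)
    · rw [hs1, hs1']
    · exact e12
    · exact e21
    · rw [hs2, hs2']
  have hM := StarAlgebra.isMulCommutative_adjoin ℂ hcomm hcomm_star
  let S : StarSubalgebra ℂ (H →L[ℂ] H) :=
    (StarAlgebra.adjoin ℂ ({U1, U2} : Set (H →L[ℂ] H))).topologicalClosure
  have hcl : IsClosed (S : Set (H →L[ℂ] H)) := StarSubalgebra.isClosed_topologicalClosure _
  have hSc : ∀ x y : S, x * y = y * x := by
    have hA : ∀ x y : StarAlgebra.adjoin ℂ ({U1, U2} : Set (H →L[ℂ] H)), x * y = y * x := by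
      intro x y
      exact hM.is_comm.comm x y
    letI := StarSubalgebra.commRingTopologicalClosure
      (StarAlgebra.adjoin ℂ ({U1, U2} : Set (H →L[ℂ] H))) hA
    intro x y
    exact mul_comm x y
  letI i1 : CStarAlgebra S := StarSubalgebra.cstarAlgebra S (h_closed := hcl)
  letI i2 : CommCStarAlgebra S := { i1 with mul_comm := hSc }
  have m1 : U1 ∈ S := StarSubalgebra.le_topologicalClosure _
    (StarAlgebra.subset_adjoin ℂ _ (by simp))
  have m2 : U2 ∈ S := StarSubalgebra.le_topologicalClosure _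
    (StarAlgebra.subset_adjoin ℂ _ (by simp))
  obtain ⟨Φ, hΦ1, hΦ2⟩ := phi1_comm (A := S) ⟨U1, m1⟩ ⟨U2, m2⟩
    (by rw [Unitary.mem_iff]; exact ⟨Subtype.ext hs1, Subtype.ext hs1'⟩)
    (by rw [Unitary.mem_iff]; exact ⟨Subtype.ext hs2, Subtype.ext hs2'⟩)
  refine ⟨(StarSubalgebra.subtype S).comp Φ, ?_, ?_⟩
  · change ((Φ ez : S) : H →L[ℂ] H) = U1
    rw [hΦ1]
  · change ((Φ ew : S) : H →L[ℂ] H) = U2
    rw [hΦ2]

theorem phi2_norm (Φ : C(T2, ℂ) →⋆ₐ[ℂ] (H →L[ℂ] H)) (f : C(T2, ℂ)) : ‖Φ f‖ ≤ ‖f‖ :=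
  NonUnitalStarAlgHom.norm_apply_le Φ f

theorem phi2_cont (Φ : C(T2, ℂ) →⋆ₐ[ℂ] (H →L[ℂ] H)) : Continuous Φ :=
  AddMonoidHomClass.continuous_of_bound Φ 1 (by simpa only [one_mul] using phi2_norm Φ)

/-- TASK Phi2. Uniqueness: star homomorphisms of C*-algebras are contractive
(`StarAlgHom.norm_apply_le` or similar), the equaliser of `Φ` and `Ψ` is a closed star subalgebra of
`C(T2, ℂ)` which contains `ez`, `ew`; these separate points, so it is everything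
(`ContinuousMap.starSubalgebra_topologicalClosure_eq_top_of_separatesPoints`). -/
theorem phi_unique (Φ Ψ : C(T2, ℂ) →⋆ₐ[ℂ] (H →L[ℂ] H)) (h1 : Φ ez = Ψ ez) (h2 : Φ ew = Ψ ew) :
    Φ = Ψ := by
  let S : StarSubalgebra ℂ C(T2, ℂ) := StarAlgHom.equalizer Φ Ψ
  have hmem : ∀ f, f ∈ S ↔ Φ f = Ψ f := fun f => Iff.rfl
  have hcl : IsClosed (S : Set C(T2, ℂ)) := isClosed_eq (phi2_cont Φ) (phi2_cont Ψ)
  have hsep : S.SeparatesPoints := by
    intro x y hxy
    by_cases hx : x.1 = y.1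
    · have hy : x.2 ≠ y.2 := fun h => hxy (Prod.ext hx h)
      refine ⟨_, ⟨ew, (hmem ew).2 h2, rfl⟩, ?_⟩
      intro h
      exact hy (Circle.ext h)
    · refine ⟨_, ⟨ez, (hmem ez).2 h1, rfl⟩, ?_⟩
      intro h
      exact hx (Circle.ext h)
  have htop := ContinuousMap.starSubalgebra_topologicalClosure_eq_top_of_separatesPoints S hsep
  have hle : S.topologicalClosure ≤ S := StarSubalgebra.topologicalClosure_minimal le_rfl hcl
  refine StarAlgHom.ext fun f => ?_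
  rw [← hmem]
  apply hle
  rw [htop]
  trivial

/-- TASK Phi3. -/
theorem phi_norm_le (Φ : C(T2, ℂ) →⋆ₐ[ℂ] (H →L[ℂ] H)) (f : C(T2, ℂ)) (v : H) :
    ‖Φ f v‖ ≤ ‖f‖ * ‖v‖ :=
  ((Φ f).le_opNorm v).trans (mul_le_mul_of_nonneg_right (phi2_norm Φ f) (norm_nonneg v))

/-- TASK Phi3. Positivity: `f = star g * g` with `g = sqrt f`, so
`⟪Φ f v, v⟫ = ⟪star (Φ g) (Φ g v), v⟫ = ‖Φ g v‖²`. -/
theorem phi_pos (Φ : C(T2, ℂ) →⋆ₐ[ℂ] (H →L[ℂ] H)) (f : C(T2, ℂ)) (r : T2 → ℝ) (hr : ∀ t, 0 ≤ r t)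
    (hf : ∀ t, f t = (r t : ℂ)) (v : H) : 0 ≤ (⟪Φ f v, v⟫_ℂ).re := by
  have hre : ∀ t, (f t).re = r t := fun t => by rw [hf, Complex.ofReal_re]
  let g : C(T2, ℂ) := ⟨fun t => ((Real.sqrt (f t).re : ℝ) : ℂ), by fun_prop⟩
  have hg : f = star g * g := by
    ext t
    rw [ContinuousMap.mul_apply, ContinuousMap.star_apply]
    change f t = star ((Real.sqrt (f t).re : ℝ) : ℂ) * ((Real.sqrt (f t).re : ℝ) : ℂ)
    rw [hre, Complex.star_def, Complex.conj_ofReal, ← Complex.ofReal_mul,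
      Real.mul_self_sqrt (hr t), hf]
  rw [hg, map_mul, map_star, mul_apply_eq_comp, ContinuousLinearMap.star_eq_adjoint,
    ContinuousLinearMap.adjoint_inner_left, inner_self_eq_norm_sq_to_K]
  norm_cast
  exact sq_nonneg _

/-- TASK Phi4. From `phi_pos` applied to `|g|² - ∑ |f k|²` and
`‖Φ f v‖² = re ⟪Φ (star f * f) v, v⟫`. -/
theorem phi_sum_le (Φ : C(T2, ℂ) →⋆ₐ[ℂ] (H →L[ℂ] H)) {κ : Type*} [Fintype κ] (f : κ → C(T2, ℂ))
    (g : C(T2, ℂ)) (h : ∀ t, ∑ k, ‖f k t‖ ^ 2 ≤ ‖g t‖ ^ 2) (v : H) :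
    ∑ k, ‖Φ (f k) v‖ ^ 2 ≤ ‖Φ g v‖ ^ 2 := by
  have hsq : ∀ f : C(T2, ℂ), ⟪Φ (star f * f) v, v⟫_ℂ = ((‖Φ f v‖ ^ 2 : ℝ) : ℂ) := by
    intro f
    rw [map_mul, map_star, mul_apply_eq_comp,
      ContinuousLinearMap.star_eq_adjoint, ContinuousLinearMap.adjoint_inner_left,
      inner_self_eq_norm_sq_to_K]
    norm_cast
  have hst : ∀ (f : C(T2, ℂ)) (t : T2), (star f * f) t = ((‖f t‖ ^ 2 : ℝ) : ℂ) := by
    intro f t
    rw [ContinuousMap.mul_apply, ContinuousMap.star_apply, Complex.star_def,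
      Complex.conj_mul']
    norm_cast
  have h1 := phi_pos Φ (star g * g - ∑ k, star (f k) * f k)
    (fun t => ‖g t‖ ^ 2 - ∑ k, ‖f k t‖ ^ 2) (fun t => sub_nonneg.2 (h t)) (by
      intro t
      rw [ContinuousMap.sub_apply, ContinuousMap.sum_apply, hst]
      simp only [hst]
      push_cast
      rfl) v
  rw [map_sub, map_sum, ContinuousLinearMap.sub_apply, ContinuousLinearMap.sum_apply,
    inner_sub_left, sum_inner, hsq] at h1
  simp only [hsq] at h1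
  rw [← Complex.ofReal_sum, ← Complex.ofReal_sub, Complex.ofReal_re] at h1
  linarith

end C37.PB
end

section

/-!
MP_c37615_al, PART B: the vectors `Xi f`.
-/

set_option autoImplicit false

open Filter Topology
open scoped InnerProductSpace

namespace C37.PB

/-- a pair `ℤ² ⋊ SL_2(ℤ)` in `G`: translations `u m n` and the two unipotent groups -/
structure Pair (G : Type*) [Group G] where
  u : ℤ → ℤ → G
  P : ℤ → G
  Q : ℤ → G
  u_add : ∀ m n m' n', u (m + m') (n + n') = u m n * u m' n'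
  P_conj : ∀ k m n, P k * u m n * (P k)⁻¹ = u (m + k * n) n
  Q_conj : ∀ k m n, Q k * u m n * (Q k)⁻¹ = u m (n + k * m)

/-- the situation of section 4.1 -/
structure Ctx (G : Type*) [Group G] [TopologicalSpace G] (H : Type*) [NormedAddCommGroup H]
    [InnerProductSpace ℂ H] [CompleteSpace H] where
  U : URep G H
  b : G → H
  hb : IsCocycle U b
  p : Pair G
  Φ : C(T2, ℂ) →⋆ₐ[ℂ] (H →L[ℂ] H)
  hz : Φ ez = U.op (p.u 1 0)
  hw : Φ ew = U.op (p.u 0 1)

/-- the map `(z, w) ↦ (z, z^k w)` -/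
noncomputable def tP (k : ℤ) : C(T2, T2) :=
  ⟨fun t => (t.1, t.1 ^ k * t.2), by
    exact (continuous_fst (X := Circle) (Y := Circle)).prodMk
      (((continuous_fst (X := Circle) (Y := Circle)).zpow k).mul continuous_snd)⟩

/-- the map `(z, w) ↦ (z w^k, w)` -/
noncomputable def tQ (k : ℤ) : C(T2, T2) :=
  ⟨fun t => (t.1 * t.2 ^ k, t.2), by
    exact ((continuous_fst (X := Circle) (Y := Circle)).mul
      ((continuous_snd (X := Circle) (Y := Circle)).zpow k)).prodMk continuous_snd⟩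

/-- `d = |z - 1|² + |w - 1|²` -/
noncomputable def dd : C(T2, ℂ) := star (ez - 1) * (ez - 1) + star (ew - 1) * (ew - 1)

/-- `f` vanishes near `1` -/
def Van (f : C(T2, ℂ)) : Prop := ∀ᶠ t in 𝓝 (1 : T2), f t = 0

open Classical in
/-- `f / d` (as a continuous function if possible) -/
noncomputable def quo (f : C(T2, ℂ)) : C(T2, ℂ) :=
  if h : Continuous fun t => f t / dd t then ⟨_, h⟩ else 0

/-- TASK Xi1. `dd t = 0 ↔ t = 1`. -/
theorem dd_eq_zero_iff (t : T2) : dd t = 0 ↔ t = 1 := by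
  have h1 : dd t = ((Complex.normSq ((t.1 : ℂ) - 1) + Complex.normSq ((t.2 : ℂ) - 1) : ℝ) : ℂ) := by
    simp only [dd, ContinuousMap.add_apply, ContinuousMap.mul_apply, ContinuousMap.star_apply,
      ContinuousMap.sub_apply, ContinuousMap.one_apply, ez, ew, ContinuousMap.coe_mk]
    rw [Complex.ofReal_add, Complex.normSq_eq_conj_mul_self, Complex.normSq_eq_conj_mul_self]
    rfl
  rw [h1]
  constructor
  · intro h
    have h2 : Complex.normSq ((t.1 : ℂ) - 1) + Complex.normSq ((t.2 : ℂ) - 1) = 0 := by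
      exact_mod_cast h
    have h3 := Complex.normSq_nonneg ((t.1 : ℂ) - 1)
    have h4 := Complex.normSq_nonneg ((t.2 : ℂ) - 1)
    have h5 : Complex.normSq ((t.1 : ℂ) - 1) = 0 := by linarith
    have h6 : Complex.normSq ((t.2 : ℂ) - 1) = 0 := by linarith
    rw [Complex.normSq_eq_zero, sub_eq_zero] at h5 h6
    refine Prod.ext (Subtype.ext ?_) (Subtype.ext ?_)
    · exact h5
    · exact h6
  · rintro rfl
    simp

/-- TASK Xi1. -/
theorem quo_apply {f : C(T2, ℂ)} (h : Van f) (t : T2) : quo f t = f t / dd t := by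
  have hc : Continuous fun t => f t / dd t := by
    rw [continuous_iff_continuousAt]
    intro s
    by_cases hs : s = 1
    · subst hs
      have h1 : (fun t => f t / dd t) =ᶠ[𝓝 (1 : T2)] fun _ => (0 : ℂ) := by
        filter_upwards [h] with x hx
        rw [hx, zero_div]
      exact (continuousAt_const).congr h1.symm
    · exact ContinuousAt.div (map_continuous f).continuousAt (map_continuous dd).continuousAt
        (fun h0 => hs ((dd_eq_zero_iff s).1 h0))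
  rw [quo, dif_pos hc]
  rfl

/-- TASK Xi1. -/
theorem dd_mul_quo {f : C(T2, ℂ)} (h : Van f) : dd * quo f = f := by
  ext t
  rw [ContinuousMap.mul_apply, quo_apply h]
  by_cases ht : dd t = 0
  · have h1 : t = 1 := (dd_eq_zero_iff t).1 ht
    have h2 : f t = 0 := by rw [h1]; exact h.self_of_nhds
    rw [ht, h2]; simp
  · rw [mul_div_cancel₀ _ ht]

/-- TASK Xi1. -/
theorem van_mul {f : C(T2, ℂ)} (g : C(T2, ℂ)) (h : Van f) : Van (g * f) := by
  filter_upwards [h] with x hx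
  rw [ContinuousMap.mul_apply, hx, mul_zero]

/-- TASK Xi1. -/
theorem van_comp {f : C(T2, ℂ)} (g : C(T2, T2)) (hg : g 1 = 1) (h : Van f) : Van (f.comp g) := by
  have h1 : Tendsto g (𝓝 1) (𝓝 1) := by
    have := (map_continuous g).tendsto 1
    rwa [hg] at this
  filter_upwards [h1.eventually h] with x hx
  exact hx

/-- TASK Xi1. If `dd * g` vanishes near `1` then `g` vanishes near `1` (punctured neighbourhoods and
continuity of `g` at `1`; `1` is not isolated) and `quo (dd * g) = g`. -/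
theorem quo_dd_mul {g : C(T2, ℂ)} (h : Van g) : quo (dd * g) = g := by
  ext t
  rw [quo_apply (van_mul dd h), ContinuousMap.mul_apply]
  by_cases ht : dd t = 0
  · have h1 : t = 1 := (dd_eq_zero_iff t).1 ht
    have h2 : g t = 0 := by rw [h1]; exact h.self_of_nhds
    rw [ht, h2]; simp
  · rw [mul_div_cancel_left₀ _ ht]

variable {G : Type*} [Group G] [TopologicalSpace G] {H : Type*} [NormedAddCommGroup H]
  [InnerProductSpace ℂ H] [CompleteSpace H]

namespace URep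

/-- TASK Xi2. -/
theorem op_inv_apply (U : URep G H) (g : G) (v : H) : U.op g⁻¹ (U.op g v) = v := by
  have h := U.mul g⁻¹ g
  rw [inv_mul_cancel, U.one] at h
  have h1 := congrArg (fun T : H →L[ℂ] H => T v) h
  exact h1.symm

/-- TASK Xi2. -/
theorem op_apply_inv (U : URep G H) (g : G) (v : H) : U.op g (U.op g⁻¹ v) = v := by
  have h := U.mul g g⁻¹
  rw [mul_inv_cancel, U.one] at h
  have h1 := congrArg (fun T : H →L[ℂ] H => T v) h
  exact h1.symm

/-- TASK Xi2. -/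
theorem inner_op (U : URep G H) (g : G) (v w : H) : ⟪U.op g v, U.op g w⟫_ℂ = ⟪v, w⟫_ℂ :=
  (LinearMap.norm_map_iff_inner_map_map (U.op g)).1 (U.norm g) v w

/-- TASK Xi2. -/
theorem op_mem_unitary (U : URep G H) (g : G) : U.op g ∈ unitary (H →L[ℂ] H) := by
  have hs : star (U.op g) * U.op g = 1 := by
    ext v
    refine ext_inner_right ℂ fun w => ?_
    rw [ContinuousLinearMap.mul_apply, ContinuousLinearMap.star_eq_adjoint,
      ContinuousLinearMap.adjoint_inner_left, U.inner_op]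
    rfl
  have hi : U.op g * U.op g⁻¹ = 1 := by
    ext v
    exact U.op_apply_inv g v
  have h2 : star (U.op g) = U.op g⁻¹ := by
    calc star (U.op g) = star (U.op g) * (U.op g * U.op g⁻¹) := by rw [hi, mul_one]
      _ = U.op g⁻¹ := by rw [← mul_assoc, hs, one_mul]
  rw [Unitary.mem_iff]
  exact ⟨hs, by rw [h2]; exact hi⟩

end URep

/-- TASK Xi2. -/
theorem cocycle_one {U : URep G H} {b : G → H} (hb : IsCocycle U b) : b 1 = 0 := by
  have h := hb 1 1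
  rw [one_mul, U.one, ContinuousLinearMap.one_apply] at h
  exact left_eq_add.1 h

/-- TASK Xi2. -/
theorem cocycle_inv {U : URep G H} {b : G → H} (hb : IsCocycle U b) (g : G) :
    b g⁻¹ = -(U.op g⁻¹ (b g)) := by
  have h := hb g⁻¹ g
  rw [inv_mul_cancel, cocycle_one hb] at h
  exact eq_neg_of_add_eq_zero_left h.symm

/-- TASK Xi2. `b (g n g⁻¹) = π(g) b(n) - (π(g n g⁻¹) - 1) b(g)`. -/
theorem cocycle_conj {U : URep G H} {b : G → H} (hb : IsCocycle U b) (g n : G) :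
    b (g * n * g⁻¹) = U.op g (b n) - (U.op (g * n * g⁻¹) (b g) - b g) := by
  rw [hb (g * n) g⁻¹, hb g n, cocycle_inv hb, map_neg]
  have h : U.op (g * n) (U.op g⁻¹ (b g)) = U.op (g * n * g⁻¹) (b g) := by
    rw [U.mul (g * n) g⁻¹]; rfl
  rw [h]
  abel

namespace Ctx

variable (c : Ctx G H)

/-- the vector `β` -/
noncomputable def β : H :=
  c.Φ (star ez - 1) (c.b (c.p.u 1 0)) + c.Φ (star ew - 1) (c.b (c.p.u 0 1))

/-- the vector `Ξ(f)` -/
noncomputable def Xi (f : C(T2, ℂ)) : H := c.Φ (quo f) c.β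

theorem xi3_hom_int {R : Type*} [Monoid R] (A B : ℤ → R) (hA0 : A 0 = 1) (hB0 : B 0 = 1)
    (hA : ∀ m n, A (m + n) = A m * A n) (hB : ∀ m n, B (m + n) = B m * B n) (h : A 1 = B 1) :
    ∀ m, A m = B m := by
  let fA : Multiplicative ℤ →* R :=
    { toFun := fun x => A x.toAdd, map_one' := hA0, map_mul' := fun x y => hA _ _ }
  let fB : Multiplicative ℤ →* R :=
    { toFun := fun x => B x.toAdd, map_one' := hB0, map_mul' := fun x y => hB _ _ }
  have h1 : fA = fB := MonoidHom.ext_mint h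
  intro m
  exact DFunLike.congr_fun h1 (Multiplicative.ofAdd m)

theorem xi3_ech_add (m n m' n' : ℤ) : ech (m + m') (n + n') = ech m n * ech m' n' := by
  ext t
  simp only [ech, ContinuousMap.coe_mk, ContinuousMap.mul_apply]
  rw [← Circle.coe_mul, zpow_add, zpow_add]
  congr 1
  exact mul_mul_mul_comm _ _ _ _

theorem xi3_ech_zero : ech 0 0 = 1 := by
  ext t
  simp [ech]

theorem xi3_ech_ez : ech 1 0 = ez := by
  ext t
  simp [ech, ez]

theorem xi3_ech_ew : ech 0 1 = ew := by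
  ext t
  simp [ech, ew]

theorem xi3_u_zero (p : Pair G) : p.u 0 0 = 1 := by
  have h := p.u_add 0 0 0 0
  rw [add_zero] at h
  exact left_eq_mul.1 h

/-- TASK Xi3. (`ech m n` is in the star algebra generated by `ez, ew`; for negative exponents use
`star`, or the uniqueness of inverses.) -/
theorem phi_ech (m n : ℤ) : c.Φ (ech m n) = c.U.op (c.p.u m n) := by
  have h1 : ∀ m : ℤ, c.Φ (ech m 0) = c.U.op (c.p.u m 0) := by
    refine xi3_hom_int (fun m => c.Φ (ech m 0)) (fun m => c.U.op (c.p.u m 0)) ?_ ?_ ?_ ?_ ?_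
    · change c.Φ (ech 0 0) = 1
      rw [xi3_ech_zero, map_one]
    · change c.U.op (c.p.u 0 0) = 1
      rw [xi3_u_zero, c.U.one]
    · intro a b
      change c.Φ (ech (a + b) 0) = c.Φ (ech a 0) * c.Φ (ech b 0)
      rw [← map_mul, ← xi3_ech_add, add_zero]
    · intro a b
      change c.U.op (c.p.u (a + b) 0) = c.U.op (c.p.u a 0) * c.U.op (c.p.u b 0)
      rw [← c.U.mul, ← c.p.u_add, add_zero]
    · change c.Φ (ech 1 0) = c.U.op (c.p.u 1 0)
      rw [xi3_ech_ez, c.hz]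
  have h2 : ∀ n : ℤ, c.Φ (ech 0 n) = c.U.op (c.p.u 0 n) := by
    refine xi3_hom_int (fun n => c.Φ (ech 0 n)) (fun n => c.U.op (c.p.u 0 n)) ?_ ?_ ?_ ?_ ?_
    · change c.Φ (ech 0 0) = 1
      rw [xi3_ech_zero, map_one]
    · change c.U.op (c.p.u 0 0) = 1
      rw [xi3_u_zero, c.U.one]
    · intro a b
      change c.Φ (ech 0 (a + b)) = c.Φ (ech 0 a) * c.Φ (ech 0 b)
      rw [← map_mul, ← xi3_ech_add, add_zero]
    · intro a b
      change c.U.op (c.p.u 0 (a + b)) = c.U.op (c.p.u 0 a) * c.U.op (c.p.u 0 b)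
      rw [← c.U.mul, ← c.p.u_add, add_zero]
    · change c.Φ (ech 0 1) = c.U.op (c.p.u 0 1)
      rw [xi3_ech_ew, c.hw]
  have h3 : ech m n = ech m 0 * ech 0 n := by rw [← xi3_ech_add, add_zero, zero_add]
  have h4 : c.p.u m n = c.p.u m 0 * c.p.u 0 n := by rw [← c.p.u_add, add_zero, zero_add]
  rw [h3, h4, map_mul, c.U.mul, h1, h2]

theorem xi3_conj (g : G) (τ : C(T2, T2)) (h1 : c.Φ (ez.comp τ) = c.U.op (g * c.p.u 1 0 * g⁻¹))
    (h2 : c.Φ (ew.comp τ) = c.U.op (g * c.p.u 0 1 * g⁻¹)) (f : C(T2, ℂ)) (v : H) :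
    c.U.op g (c.Φ f v) = c.Φ (f.comp τ) (c.U.op g v) := by
  let w : unitary (H →L[ℂ] H) := ⟨c.U.op g, c.U.op_mem_unitary g⟩
  have hinv : star (c.U.op g) = c.U.op g⁻¹ := by
    have ha : star (c.U.op g) * c.U.op g = 1 := Unitary.star_mul_self_of_mem (c.U.op_mem_unitary g)
    have hb : c.U.op g * c.U.op g⁻¹ = 1 := by rw [← c.U.mul, mul_inv_cancel, c.U.one]
    calc star (c.U.op g) = star (c.U.op g) * (c.U.op g * c.U.op g⁻¹) := by rw [hb, mul_one]
      _ = c.U.op g⁻¹ := by rw [← mul_assoc, ha, one_mul]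
  let Ψ1 : C(T2, ℂ) →⋆ₐ[ℂ] (H →L[ℂ] H) :=
    ((Unitary.conjStarAlgAut ℂ (H →L[ℂ] H) w : (H →L[ℂ] H) ≃⋆ₐ[ℂ] (H →L[ℂ] H)) :
      (H →L[ℂ] H) →⋆ₐ[ℂ] (H →L[ℂ] H)).comp c.Φ
  let Ψ2 : C(T2, ℂ) →⋆ₐ[ℂ] (H →L[ℂ] H) := c.Φ.comp (ContinuousMap.compStarAlgHom' ℂ ℂ τ)
  have hΨ1 : ∀ f, Ψ1 f = c.U.op g * c.Φ f * c.U.op g⁻¹ := by
    intro f
    rw [← hinv]
    rfl
  have hΨ2 : ∀ f, Ψ2 f = c.Φ (f.comp τ) := fun f => rfl
  have hΨ : Ψ1 = Ψ2 := by
    refine phi_unique Ψ1 Ψ2 ?_ ?_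
    · rw [hΨ1, hΨ2, h1, c.hz, c.U.mul, c.U.mul]
    · rw [hΨ1, hΨ2, h2, c.hw, c.U.mul, c.U.mul]
  rw [← hΨ2, ← hΨ, hΨ1]
  change _ = c.U.op g (c.Φ f (c.U.op g⁻¹ (c.U.op g v)))
  rw [c.U.op_inv_apply]

/-- TASK Xi3. `π(P) Φ(f) = Φ(f ∘ tP) π(P)`: apply `phi_unique` to `f ↦ π(P) Φ(f) π(P)⁻¹` and
`f ↦ Φ(f ∘ tP)` (both are star homomorphisms). -/
theorem op_P_phi (k : ℤ) (f : C(T2, ℂ)) (v : H) :
    c.U.op (c.p.P k) (c.Φ f v) = c.Φ (f.comp (tP k)) (c.U.op (c.p.P k) v) := by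
  refine xi3_conj c (c.p.P k) (tP k) ?_ ?_ f v
  · have h := c.p.P_conj k 1 0
    rw [mul_zero, add_zero] at h
    rw [h]
    have h1 : ez.comp (tP k) = ez := by
      ext t
      rfl
    rw [h1, c.hz]
  · have h := c.p.P_conj k 0 1
    rw [mul_one, zero_add] at h
    rw [h, ← c.phi_ech]
    congr 1
    ext t
    simp [ech, ew, tP]

/-- TASK Xi3. Similarly. -/
theorem op_Q_phi (k : ℤ) (f : C(T2, ℂ)) (v : H) :
    c.U.op (c.p.Q k) (c.Φ f v) = c.Φ (f.comp (tQ k)) (c.U.op (c.p.Q k) v) := by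
  refine xi3_conj c (c.p.Q k) (tQ k) ?_ ?_ f v
  · have h := c.p.Q_conj k 1 0
    rw [mul_one, zero_add] at h
    rw [h, ← c.phi_ech]
    congr 1
    ext t
    simp [ech, ez, tQ]
  · have h := c.p.Q_conj k 0 1
    rw [mul_zero, add_zero] at h
    rw [h]
    have h1 : ew.comp (tQ k) = ew := by
      ext t
      rfl
    rw [h1, c.hw]

theorem xi4_mul (f g : C(T2, ℂ)) (v : H) : c.Φ (f * g) v = c.Φ f (c.Φ g v) := by
  rw [map_mul]
  rfl

theorem xi4_add (f g : C(T2, ℂ)) (v : H) : c.Φ (f + g) v = c.Φ f v + c.Φ g v := by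
  rw [map_add]
  rfl

theorem xi4_sub_one (f : C(T2, ℂ)) (v : H) : c.Φ (f - 1) v = c.Φ f v - v := by
  rw [map_sub, map_one]
  rfl

theorem xi4_swap (f g : C(T2, ℂ)) (v : H) : c.Φ f (c.Φ g v) = c.Φ g (c.Φ f v) := by
  rw [← xi4_mul, mul_comm, xi4_mul]

theorem xi4_comm (m n m' n' : ℤ) :
    c.U.op (c.p.u m n) (c.b (c.p.u m' n')) - c.b (c.p.u m' n') =
      c.U.op (c.p.u m' n') (c.b (c.p.u m n)) - c.b (c.p.u m n) := by
  have h := c.hb (c.p.u m n) (c.p.u m' n')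
  have h' := c.hb (c.p.u m' n') (c.p.u m n)
  have e : c.p.u m n * c.p.u m' n' = c.p.u m' n' * c.p.u m n := by
    rw [← c.p.u_add, ← c.p.u_add, add_comm m, add_comm n]
  rw [e, h'] at h
  rw [sub_eq_sub_iff_add_eq_add, add_comm, ← h, add_comm]

/-- TASK Xi4. `(π(n) - 1) b(m) = (π(m) - 1) b(n)` for commuting elements and
`Φ(e_n - 1) β = ∑ Φ(star e_j - 1) (π(n) - 1) b(ε_j) = ∑ Φ(star e_j - 1) Φ(e_j - 1) b(n)
= Φ(d) b(n)`. -/
theorem phi_ech_beta (m n : ℤ) :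
    c.Φ (ech m n - 1) c.β = c.Φ dd (c.b (c.p.u m n)) := by
  have h1 := xi4_comm c m n 1 0
  have h2 := xi4_comm c m n 0 1
  have e1 : c.Φ (ech m n - 1) (c.b (c.p.u 1 0)) = c.Φ (ez - 1) (c.b (c.p.u m n)) := by
    rw [xi4_sub_one, xi4_sub_one, phi_ech, c.hz]
    exact h1
  have e2 : c.Φ (ech m n - 1) (c.b (c.p.u 0 1)) = c.Φ (ew - 1) (c.b (c.p.u m n)) := by
    rw [xi4_sub_one, xi4_sub_one, phi_ech, c.hw]
    exact h2
  unfold β
  rw [map_add, xi4_swap, xi4_swap c _ (star ew - 1), e1, e2, ← xi4_mul, ← xi4_mul,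
    ← xi4_add]
  unfold dd
  rw [star_sub, star_sub, star_one]

theorem xi4_van_add {f g : C(T2, ℂ)} (hf : Van f) (hg : Van g) : Van (f + g) := by
  unfold Van at hf hg ⊢
  filter_upwards [hf, hg] with t h1 h2
  rw [ContinuousMap.add_apply, h1, h2, add_zero]

/-- TASK Xi4. -/
theorem xi_mul {f : C(T2, ℂ)} (h : Van f) (g : C(T2, ℂ)) : c.Xi (g * f) = c.Φ g (c.Xi f) := by
  have e : quo (g * f) = g * quo f := by
    ext t
    rw [quo_apply (van_mul g h), ContinuousMap.mul_apply, ContinuousMap.mul_apply, quo_apply h,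
      mul_div_assoc]
  unfold Xi
  rw [e, xi4_mul]

/-- TASK Xi4. -/
theorem xi_add {f g : C(T2, ℂ)} (hf : Van f) (hg : Van g) : c.Xi (f + g) = c.Xi f + c.Xi g := by
  have e : quo (f + g) = quo f + quo g := by
    ext t
    rw [quo_apply (xi4_van_add hf hg), ContinuousMap.add_apply, ContinuousMap.add_apply,
      quo_apply hf, quo_apply hg, add_div]
  unfold Xi
  rw [e, xi4_add]

/-- TASK Xi4. -/
theorem xi_ech {f : C(T2, ℂ)} (h : Van f) (m n : ℤ) :
    c.Xi ((ech m n - 1) * f) = c.Φ f (c.b (c.p.u m n)) := by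
  rw [xi_mul c h]
  unfold Xi
  rw [xi4_swap, phi_ech_beta, ← xi4_mul, mul_comm, dd_mul_quo h]

theorem xi5_van_quo {f : C(T2, ℂ)} (h : Van f) : Van (quo f) := by
  have h' := h
  unfold Van at h ⊢
  filter_upwards [h] with t ht
  rw [quo_apply h', ht, zero_div]

theorem xi5_term (g : G) (n : G) (m₀ n₀ : ℤ) (hn : g * n * g⁻¹ = c.p.u m₀ n₀) :
    c.U.op g (c.b n) = c.b (c.p.u m₀ n₀) + c.Φ (ech m₀ n₀ - 1) (c.b g) := by
  have h := cocycle_conj c.hb g n
  rw [hn] at h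
  rw [xi4_sub_one, phi_ech, h]
  abel

theorem xi5_gen (g : G) (τ : C(T2, T2)) (hτ : τ 1 = 1)
    (hop : ∀ (f : C(T2, ℂ)) (v : H), c.U.op g (c.Φ f v) = c.Φ (f.comp τ) (c.U.op g v))
    (m₁ n₁ m₂ n₂ : ℤ) (hg₁ : g * c.p.u 1 0 * g⁻¹ = c.p.u m₁ n₁)
    (hg₂ : g * c.p.u 0 1 * g⁻¹ = c.p.u m₂ n₂) (he₁ : ez.comp τ = ech m₁ n₁)
    (he₂ : ew.comp τ = ech m₂ n₂) {f : C(T2, ℂ)} (h : Van f) :
    c.U.op g (c.Xi f) = c.Xi (f.comp τ) + c.Φ (f.comp τ) (c.b g) := by
  have hq : Van ((quo f).comp τ) := van_comp τ hτ (xi5_van_quo h)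
  have c1 : (star ez - 1 : C(T2, ℂ)).comp τ = star (ech m₁ n₁) - 1 := by
    rw [← he₁]
    rfl
  have c2 : (star ew - 1 : C(T2, ℂ)).comp τ = star (ech m₂ n₂) - 1 := by
    rw [← he₂]
    rfl
  have cd : dd.comp τ = (star (ech m₁ n₁) - 1) * (ech m₁ n₁ - 1) +
      (star (ech m₂ n₂) - 1) * (ech m₂ n₂ - 1) := by
    rw [← he₁, ← he₂]
    ext t
    simp [dd]
  have cf : f.comp τ = dd.comp τ * (quo f).comp τ := by
    conv_lhs => rw [← dd_mul_quo h]
    rfl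
  have hb1 : c.U.op g c.β = (c.Φ (star (ech m₁ n₁) - 1) (c.b (c.p.u m₁ n₁)) +
      c.Φ (star (ech m₂ n₂) - 1) (c.b (c.p.u m₂ n₂))) + c.Φ (dd.comp τ) (c.b g) := by
    unfold β
    rw [map_add, hop, hop, c1, c2, xi5_term c g _ _ _ hg₁, xi5_term c g _ _ _ hg₂, cd, map_add,
      map_add, xi4_add, xi4_mul, xi4_mul]
    abel
  have hL : c.U.op g (c.Xi f) = c.Φ ((quo f).comp τ) (c.U.op g c.β) := by
    unfold Xi
    rw [hop]
  have x1 : c.Φ ((quo f).comp τ) (c.Φ (star (ech m₁ n₁) - 1) (c.b (c.p.u m₁ n₁))) =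
      c.Xi ((ech m₁ n₁ - 1) * ((star (ech m₁ n₁) - 1) * (quo f).comp τ)) := by
    rw [xi_ech c (van_mul _ hq), xi4_mul, xi4_swap]
  have x2 : c.Φ ((quo f).comp τ) (c.Φ (star (ech m₂ n₂) - 1) (c.b (c.p.u m₂ n₂))) =
      c.Xi ((ech m₂ n₂ - 1) * ((star (ech m₂ n₂) - 1) * (quo f).comp τ)) := by
    rw [xi_ech c (van_mul _ hq), xi4_mul, xi4_swap]
  have x3 : c.Xi ((ech m₁ n₁ - 1) * ((star (ech m₁ n₁) - 1) * (quo f).comp τ)) +
      c.Xi ((ech m₂ n₂ - 1) * ((star (ech m₂ n₂) - 1) * (quo f).comp τ)) = c.Xi (f.comp τ) := by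
    rw [← xi_add c (van_mul _ (van_mul _ hq)) (van_mul _ (van_mul _ hq)), cf, cd]
    congr 1
    ring
  rw [hL, hb1, map_add, map_add, x1, x2, x3, ← xi4_mul, mul_comm, ← cf]

/-- TASK Xi5. Let `g = P k`, `n_1 = g ε_1 = (1, 0)`, `n_2 = g ε_2 = (k, 1)`. By `op_P_phi` and
`cocycle_conj`, `π(g) Ξ(f) = Φ(quo f ∘ tP) π(g) β` and
`π(g) β = ∑_j Φ(star e_{n_j} - 1) b(n_j) + Φ(d ∘ tP) b(g)` (`d ∘ tP = ∑_j |e_{n_j} - 1|²`). The second
term gives `Φ(f ∘ tP) b(g)` as `d * quo f = f`. For the first use `xi_ech` with the functions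
`(quo f ∘ tP) * (star e_{n_j} - 1)`, which vanish near `1`: the sum is
`Ξ(∑_j |e_{n_j} - 1|² * (quo f ∘ tP)) = Ξ(f ∘ tP)`. -/
theorem op_P_xi (k : ℤ) {f : C(T2, ℂ)} (h : Van f) :
    c.U.op (c.p.P k) (c.Xi f) = c.Xi (f.comp (tP k)) + c.Φ (f.comp (tP k)) (c.b (c.p.P k)) := by
  refine xi5_gen c (c.p.P k) (tP k) ?_ (op_P_phi c k) 1 0 k 1 ?_ ?_ ?_ ?_ h
  · simp [tP]
  · rw [c.p.P_conj]
    simp
  · rw [c.p.P_conj]
    simp
  · ext t
    simp [tP, ez, ech]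
  · ext t
    simp [tP, ew, ech]

/-- TASK Xi5. The same with `Q k`: `n_1 = (1, k)`, `n_2 = (0, 1)`. -/
theorem op_Q_xi (k : ℤ) {f : C(T2, ℂ)} (h : Van f) :
    c.U.op (c.p.Q k) (c.Xi f) = c.Xi (f.comp (tQ k)) + c.Φ (f.comp (tQ k)) (c.b (c.p.Q k)) := by
  refine xi5_gen c (c.p.Q k) (tQ k) ?_ (op_Q_phi c k) 1 k 0 1 ?_ ?_ ?_ ?_ h
  · simp [tQ]
  · rw [c.p.Q_conj]
    simp
  · rw [c.p.Q_conj]
    simp
  · ext t
    simp [tQ, ez, ech]
  · ext t
    simp [tQ, ew, ech]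

/-- TASK Xi4. `phi_sum_le` for the functions `quo (f k)`, `quo g` and the vector `β`. -/
theorem xi_sum_le {κ : Type*} [Fintype κ] {f : κ → C(T2, ℂ)} {g : C(T2, ℂ)} (hf : ∀ k, Van (f k))
    (hg : Van g) (h : ∀ t, ∑ k, ‖f k t‖ ^ 2 ≤ ‖g t‖ ^ 2) :
    ∑ k, ‖c.Xi (f k)‖ ^ 2 ≤ ‖c.Xi g‖ ^ 2 := by
  unfold Xi
  refine phi_sum_le c.Φ (fun k => quo (f k)) (quo g) (fun t => ?_) c.β
  have e : ∀ k, ‖quo (f k) t‖ ^ 2 = ‖f k t‖ ^ 2 / ‖dd t‖ ^ 2 := by
    intro k
    rw [quo_apply (hf k), norm_div, div_pow]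
  simp only [e]
  rw [quo_apply hg, norm_div, div_pow, ← Finset.sum_div]
  exact div_le_div_of_nonneg_right (h t) (by positivity)

end Ctx

end C37.PB
end
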