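import Pool.Agent.Lib.MP_c37615_al.Mg.G008
import Pool.Agent.Lib.MP_c37615_al.Mg.G009

section

/-!
MP_c37615_al, PART B: elementary facts on `SL_3(ℝ)`.
-/

set_option autoImplicit false

open Filter Topology

namespace C37.PB

theorem sl1_coe (i j : Fin 3) (h : i ≠ j) (s : ℝ) :
    (el i j h s : Matrix (Fin 3) (Fin 3) ℝ) = Matrix.transvection i j s := rfl

/-- TASK SL1. All identities: `Subtype.ext`, `ext a b`, `fin_cases`, `simp` with
`Matrix.transvection`, `Matrix.mul_apply`, `Fin.sum_univ_three`, `Matrix.single`, `ring`. -/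
theorem el_zero (i j : Fin 3) (h : i ≠ j) : el i j h 0 = 1 := by
  apply Subtype.ext
  simp [el]

/-- TASK SL1. -/
theorem el_add (i j : Fin 3) (h : i ≠ j) (s t : ℝ) : el i j h (s + t) = el i j h s * el i j h t := by
  apply Subtype.ext
  rw [Matrix.SpecialLinearGroup.coe_mul, sl1_coe, sl1_coe, sl1_coe]
  rw [Matrix.transvection_mul_transvection_same i j h]

/-- TASK SL1. -/
theorem el_inv (i j : Fin 3) (h : i ≠ j) (s : ℝ) : (el i j h s)⁻¹ = el i j h (-s) := by
  rw [inv_eq_iff_mul_eq_one, ← el_add, add_neg_cancel, el_zero]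

/-- TASK SL1. -/
theorem el_continuous (i j : Fin 3) (h : i ≠ j) : Continuous (el i j h) := by
  apply Continuous.subtype_mk
  unfold Matrix.transvection
  apply Continuous.add continuous_const
  apply continuous_matrix
  intro a b
  simp only [Matrix.single, Matrix.of_apply]
  split_ifs
  · exact continuous_id
  · exact continuous_const

/-- TASK SL1. -/
theorem el_comm (i j k l : Fin 3) (h : i ≠ j) (h' : k ≠ l) (h1 : j ≠ k) (h2 : l ≠ i) (s t : ℝ) :
    el i j h s * el k l h' t = el k l h' t * el i j h s := by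
  apply Subtype.ext
  rw [Matrix.SpecialLinearGroup.coe_mul, Matrix.SpecialLinearGroup.coe_mul, sl1_coe, sl1_coe,
    Matrix.transvection, Matrix.transvection]
  rw [add_mul, mul_add, mul_add, add_mul, mul_add, mul_add,
    Matrix.single_mul_single_of_ne _ _ _ _ h1, Matrix.single_mul_single_of_ne _ _ _ _ h2]
  simp only [one_mul, mul_one, add_zero]
  abel

/-- TASK SL1. -/
theorem el_commutator (i j k : Fin 3) (hij : i ≠ j) (hjk : j ≠ k) (hik : i ≠ k) (s t : ℝ) :
    el i j hij s * el j k hjk t * (el i j hij s)⁻¹ * (el j k hjk t)⁻¹ = el i k hik (s * t) := by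
  rw [el_inv, el_inv]
  apply Subtype.ext
  rw [Matrix.SpecialLinearGroup.coe_mul, Matrix.SpecialLinearGroup.coe_mul,
    Matrix.SpecialLinearGroup.coe_mul]
  simp only [sl1_coe, Matrix.transvection]
  have e2 : ∀ a b : ℝ, Matrix.single j k a * Matrix.single i j b = 0 :=
    fun a b => Matrix.single_mul_single_of_ne _ _ _ _ hik.symm _
  have e3 : ∀ a b : ℝ, Matrix.single i j a * Matrix.single i j b = 0 :=
    fun a b => Matrix.single_mul_single_of_ne _ _ _ _ hij.symm _
  have e4 : ∀ a b : ℝ, Matrix.single j k a * Matrix.single j k b = 0 :=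
    fun a b => Matrix.single_mul_single_of_ne _ _ _ _ hjk.symm _
  have e5 : ∀ a b : ℝ, Matrix.single i j a * Matrix.single j k b = Matrix.single i k (a * b) :=
    fun a b => Matrix.single_mul_single_same _ _ _ _ _
  have e6 : ∀ a b : ℝ, Matrix.single i k a * Matrix.single i j b = 0 :=
    fun a b => Matrix.single_mul_single_of_ne _ _ _ _ hik.symm _
  have e7 : ∀ a b : ℝ, Matrix.single i k a * Matrix.single j k b = 0 :=
    fun a b => Matrix.single_mul_single_of_ne _ _ _ _ hjk.symm _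
  simp only [add_mul, mul_add, one_mul, mul_one, e2, e3, e4, e5, e6, e7,
    add_zero]
  have e8 : Matrix.single i k (s * -t) = -Matrix.single i k (s * t) := by
    rw [mul_neg, Matrix.single_neg]
  have e9 : Matrix.single j k (-t) = -Matrix.single j k t := by
    rw [Matrix.single_neg]
  have e10 : Matrix.single i j (-s) = -Matrix.single i j s := by
    rw [Matrix.single_neg]
  have e11 : Matrix.single i k (-s * -t) = Matrix.single i k (s * t) := by
    rw [neg_mul_neg]
  simp only [e8, e9, e10, e11]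
  abel

theorem sl2_dgcoe (i j : Fin 3) (h : i ≠ j) :
    (dg i j h : Matrix (Fin 3) (Fin 3) ℝ) = Matrix.diagonal (dgv i j) := rfl

/-- TASK SL2. -/
theorem dgv_pos (i j k : Fin 3) : 0 < dgv i j k := by
  unfold dgv
  split_ifs <;> norm_num

/-- TASK SL2. -/
theorem dgv_ne (i j : Fin 3) (h : i ≠ j) (p q : Fin 3) (hpq : p ≠ q) :
    dgv i j p / dgv i j q ≠ 1 := by
  intro he
  rw [div_eq_one_iff_eq (dgv_pos i j q).ne'] at he
  unfold dgv at he
  fin_cases i <;> fin_cases j <;> fin_cases p <;> fin_cases q <;> simp at h hpq <;>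
    norm_num at he

/-- TASK SL2. -/
theorem dg_conj (i j : Fin 3) (h : i ≠ j) (p q : Fin 3) (hpq : p ≠ q) (s : ℝ) :
    dg i j h * el p q hpq s * (dg i j h)⁻¹ = el p q hpq (dgv i j p / dgv i j q * s) := by
  rw [mul_inv_eq_iff_eq_mul]
  apply Subtype.ext
  rw [Matrix.SpecialLinearGroup.coe_mul, Matrix.SpecialLinearGroup.coe_mul, sl1_coe, sl1_coe,
    sl2_dgcoe, Matrix.transvection, Matrix.transvection, mul_add, add_mul, mul_one, one_mul]
  congr 1
  ext a b
  rw [Matrix.diagonal_mul, Matrix.mul_diagonal]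
  simp only [Matrix.single, Matrix.of_apply]
  have hq := (dgv_pos i j q).ne'
  by_cases hab : p = a ∧ q = b
  · obtain ⟨rfl, rfl⟩ := hab
    simp
    field_simp
  · simp [hab]

/-- TASK SL2. -/
theorem mautner_id (i j : Fin 3) (h : i ≠ j) (c : ℝ) (hc : c ≠ 0) :
    el i j h c⁻¹ * el j i h.symm c * el i j h (-(2 * c)⁻¹) = dg i j h * el j i h.symm (2 * c) := by
  apply Subtype.ext
  rw [Matrix.SpecialLinearGroup.coe_mul, Matrix.SpecialLinearGroup.coe_mul,
    Matrix.SpecialLinearGroup.coe_mul]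
  simp only [sl1_coe, sl2_dgcoe, Matrix.transvection]
  ext a b
  fin_cases i <;> fin_cases j <;> (first | (exfalso; revert h; decide) | skip) <;>
  fin_cases a <;> fin_cases b <;>
  simp [Matrix.mul_apply, Fin.sum_univ_three, Matrix.single, Matrix.one_apply,
    Matrix.diagonal, dgv] <;> field_simp <;> norm_num

theorem sl3_aux (i j : Fin 3) (h : i ≠ j) (M : Matrix (Fin 3) (Fin 3) ℝ) (hM : M.det = 1) (s : ℝ)
    (hs : M * Matrix.transvection 0 2 s = Matrix.transvection i j s * M) :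
    HMul.hMul (α := SL3) (β := SL3) (γ := SL3) ⟨M, hM⟩ (el 0 2 (by decide) s) =
      HMul.hMul (α := SL3) (β := SL3) (γ := SL3) (el i j h s) ⟨M, hM⟩ :=
  Subtype.ext hs

/-- TASK SL3. Weyl elements: `w` is a signed permutation matrix of determinant `1` with
`w e_0 = ± e_i`, `w e_2 = ± e_j`. -/
theorem weyl (i j : Fin 3) (h : i ≠ j) : ∃ w : SL3, ∃ ε : ℝ, |ε| = 1 ∧
    ∀ s, w * el 0 2 (by decide) s * w⁻¹ = el i j h (ε * s) := by
  have key : ∃ w : SL3, ∀ s, w * el 0 2 (by decide) s = el i j h s * w := by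
    fin_cases i <;> fin_cases j
    · exact absurd rfl h
    · refine ⟨⟨!![1,0,0;0,0,1;0,-1,0], by simp [Matrix.det_fin_three]⟩, fun s => ?_⟩
      refine sl3_aux 0 1 (by decide) _ _ s ?_
      ext a b
      fin_cases a <;> fin_cases b <;>
        simp [Matrix.mul_apply, Fin.sum_univ_three, Matrix.single, Matrix.one_apply,
          Matrix.transvection]
    · refine ⟨1, fun s => ?_⟩
      rw [one_mul, mul_one]
      rfl
    · refine ⟨⟨!![0,0,1;1,0,0;0,1,0], by simp [Matrix.det_fin_three]⟩, fun s => ?_⟩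
      refine sl3_aux 1 0 (by decide) _ _ s ?_
      ext a b
      fin_cases a <;> fin_cases b <;>
        simp [Matrix.mul_apply, Fin.sum_univ_three, Matrix.single, Matrix.one_apply,
          Matrix.transvection]
    · exact absurd rfl h
    · refine ⟨⟨!![0,-1,0;1,0,0;0,0,1], by simp [Matrix.det_fin_three]⟩, fun s => ?_⟩
      refine sl3_aux 1 2 (by decide) _ _ s ?_
      ext a b
      fin_cases a <;> fin_cases b <;>
        simp [Matrix.mul_apply, Fin.sum_univ_three, Matrix.single, Matrix.one_apply,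
          Matrix.transvection]
    · refine ⟨⟨!![0,0,1;0,-1,0;1,0,0], by simp [Matrix.det_fin_three]⟩, fun s => ?_⟩
      refine sl3_aux 2 0 (by decide) _ _ s ?_
      ext a b
      fin_cases a <;> fin_cases b <;>
        simp [Matrix.mul_apply, Fin.sum_univ_three, Matrix.single, Matrix.one_apply,
          Matrix.transvection]
    · refine ⟨⟨!![0,1,0;0,0,1;1,0,0], by simp [Matrix.det_fin_three]⟩, fun s => ?_⟩
      refine sl3_aux 2 1 (by decide) _ _ s ?_
      ext a b
      fin_cases a <;> fin_cases b <;>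
        simp [Matrix.mul_apply, Fin.sum_univ_three, Matrix.single, Matrix.one_apply,
          Matrix.transvection]
    · exact absurd rfl h
  obtain ⟨w, hw⟩ := key
  refine ⟨w, 1, by simp, fun s => ?_⟩
  rw [mul_inv_eq_iff_eq_mul, hw, one_mul]

theorem sl4_list (K : Subgroup SL3) (hK : ∀ (i j : Fin 3) (h : i ≠ j) (s : ℝ), el i j h s ∈ K)
    (L : List (Matrix.TransvectionStruct (Fin 3) ℝ)) :
    ∃ A ∈ K, A.1 = (L.map Matrix.TransvectionStruct.toMatrix).prod := by
  induction L with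
  | nil => exact ⟨1, K.one_mem, by simp⟩
  | cons t L ih =>
    obtain ⟨A, hA, h⟩ := ih
    refine ⟨el t.i t.j t.hij t.c * A, K.mul_mem (hK _ _ _ _) hA, ?_⟩
    rw [List.map_cons, List.prod_cons, ← h]
    rfl

theorem sl4_diag01 (K : Subgroup SL3) (hK : ∀ (i j : Fin 3) (h : i ≠ j) (s : ℝ), el i j h s ∈ K)
    (a : ℝ) (ha : a ≠ 0) : ∃ A ∈ K, A.1 = Matrix.diagonal ![a, a⁻¹, 1] := by
  refine ⟨el 0 1 (by decide) a * el 1 0 (by decide) (-a⁻¹) * el 0 1 (by decide) a *
    (el 0 1 (by decide) (-1) * el 1 0 (by decide) 1 * el 0 1 (by decide) (-1)), ?_, ?_⟩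
  · exact K.mul_mem (K.mul_mem (K.mul_mem (hK _ _ _ _) (hK _ _ _ _)) (hK _ _ _ _))
      (K.mul_mem (K.mul_mem (hK _ _ _ _) (hK _ _ _ _)) (hK _ _ _ _))
  · rw [Matrix.SpecialLinearGroup.coe_mul, Matrix.SpecialLinearGroup.coe_mul,
      Matrix.SpecialLinearGroup.coe_mul, Matrix.SpecialLinearGroup.coe_mul,
      Matrix.SpecialLinearGroup.coe_mul]
    simp only [sl1_coe, Matrix.transvection]
    ext p q
    fin_cases p <;> fin_cases q <;>
      simp [Matrix.mul_apply, Fin.sum_univ_three, Matrix.single, Matrix.one_apply, ha]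

theorem sl4_diag12 (K : Subgroup SL3) (hK : ∀ (i j : Fin 3) (h : i ≠ j) (s : ℝ), el i j h s ∈ K)
    (a : ℝ) (ha : a ≠ 0) : ∃ A ∈ K, A.1 = Matrix.diagonal ![1, a, a⁻¹] := by
  refine ⟨el 1 2 (by decide) a * el 2 1 (by decide) (-a⁻¹) * el 1 2 (by decide) a *
    (el 1 2 (by decide) (-1) * el 2 1 (by decide) 1 * el 1 2 (by decide) (-1)), ?_, ?_⟩
  · exact K.mul_mem (K.mul_mem (K.mul_mem (hK _ _ _ _) (hK _ _ _ _)) (hK _ _ _ _))
      (K.mul_mem (K.mul_mem (hK _ _ _ _) (hK _ _ _ _)) (hK _ _ _ _))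
  · rw [Matrix.SpecialLinearGroup.coe_mul, Matrix.SpecialLinearGroup.coe_mul,
      Matrix.SpecialLinearGroup.coe_mul, Matrix.SpecialLinearGroup.coe_mul,
      Matrix.SpecialLinearGroup.coe_mul]
    simp only [sl1_coe, Matrix.transvection]
    ext p q
    fin_cases p <;> fin_cases q <;>
      simp [Matrix.mul_apply, Fin.sum_univ_three, Matrix.single, Matrix.one_apply, ha]

/-- TASK SL4. Generation. By `Matrix.Pivot.exists_list_transvec_mul_diagonal_mul_list_transvec`
a matrix of determinant one is a product of transvections, a diagonal matrix `D` and transvections,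
with `det D = 1`; `D = diag(a, a⁻¹, 1) * diag(1, b, b⁻¹)` (`a = d_0`, `b = d_0 d_1`), and
`diag(a, a⁻¹) = w(a) w(-1)`, `w(a) = e_12(a) e_21(-a⁻¹) e_12(a)`. -/
theorem el_gen (K : Subgroup SL3) (hK : ∀ (i j : Fin 3) (h : i ≠ j) (s : ℝ), el i j h s ∈ K) :
    K = ⊤ := by
  rw [eq_top_iff]
  rintro M -
  obtain ⟨L, L', D, hM⟩ :=
    Matrix.Pivot.exists_list_transvec_mul_diagonal_mul_list_transvec M.1
  obtain ⟨A, hA, hA'⟩ := sl4_list K hK L
  obtain ⟨B, hB, hB'⟩ := sl4_list K hK L'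
  rw [← hA', ← hB'] at hM
  have hdet := M.2
  rw [hM, Matrix.det_mul, Matrix.det_mul, A.2, B.2, Matrix.det_diagonal, Fin.prod_univ_three]
    at hdet
  rw [one_mul, mul_one] at hdet
  have h01 : D 0 * D 1 ≠ 0 := fun h0 => by rw [h0, zero_mul] at hdet; exact zero_ne_one hdet
  have h0 : D 0 ≠ 0 := left_ne_zero_of_mul h01
  obtain ⟨P, hP, hP'⟩ := sl4_diag01 K hK (D 0) h0
  obtain ⟨Q, hQ, hQ'⟩ := sl4_diag12 K hK (D 0 * D 1) h01
  have hPQ : P.1 * Q.1 = Matrix.diagonal D := by
    rw [hP', hQ', Matrix.diagonal_mul_diagonal]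
    congr 1
    ext k
    fin_cases k
    · simp
    · simp
      field_simp
    · simp
      rw [← mul_inv]
      exact inv_eq_of_mul_eq_one_right (by rw [mul_comm (D 1) (D 0)]; exact hdet)
  have hfin : M = A * (P * Q) * B := by
    apply Subtype.ext
    rw [Matrix.SpecialLinearGroup.coe_mul, Matrix.SpecialLinearGroup.coe_mul,
      Matrix.SpecialLinearGroup.coe_mul]
    rw [hM]
    rw [hPQ]
  rw [hfin]
  exact K.mul_mem (K.mul_mem hA (K.mul_mem hP hQ)) hB

/-- upper unitriangular matrices -/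
def SU : Subgroup SL3 where
  carrier := {A | A.1 0 0 = 1 ∧ A.1 1 1 = 1 ∧ A.1 2 2 = 1 ∧ A.1 1 0 = 0 ∧ A.1 2 0 = 0 ∧ A.1 2 1 = 0}
  one_mem' := by simp
  mul_mem' := by
    rintro a b ⟨h1, h2, h3, h4, h5, h6⟩ ⟨k1, k2, k3, k4, k5, k6⟩
    simp [Matrix.mul_apply, Fin.sum_univ_three, h1, h2, h3, h4, h5, h6, k1, k2, k3, k4, k5, k6]
  inv_mem' := by
    rintro a ⟨h1, h2, h3, h4, h5, h6⟩
    simp [Matrix.adjugate_fin_three, h1, h2, h3, h4, h5, h6]

/-- lower unitriangular matrices -/
def SLo : Subgroup SL3 where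
  carrier := {A | A.1 0 0 = 1 ∧ A.1 1 1 = 1 ∧ A.1 2 2 = 1 ∧ A.1 0 1 = 0 ∧ A.1 0 2 = 0 ∧ A.1 1 2 = 0}
  one_mem' := by simp
  mul_mem' := by
    rintro a b ⟨h1, h2, h3, h4, h5, h6⟩ ⟨k1, k2, k3, k4, k5, k6⟩
    simp [Matrix.mul_apply, Fin.sum_univ_three, h1, h2, h3, h4, h5, h6, k1, k2, k3, k4, k5, k6]
  inv_mem' := by
    rintro a ⟨h1, h2, h3, h4, h5, h6⟩
    simp [Matrix.adjugate_fin_three, h1, h2, h3, h4, h5, h6]

/-- the group `{1 + a E_01 + c E_21}` -/
def SC : Subgroup SL3 where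
  carrier := {A | A.1 0 0 = 1 ∧ A.1 1 1 = 1 ∧ A.1 2 2 = 1 ∧ A.1 0 2 = 0 ∧ A.1 1 0 = 0 ∧ A.1 1 2 = 0 ∧
    A.1 2 0 = 0}
  one_mem' := by simp
  mul_mem' := by
    rintro a b ⟨h1, h2, h3, h4, h5, h6, h7⟩ ⟨k1, k2, k3, k4, k5, k6, k7⟩
    simp [Matrix.mul_apply, Fin.sum_univ_three, h1, h2, h3, h4, h5, h6, h7, k1, k2, k3, k4, k5, k6, k7]
  inv_mem' := by
    rintro a ⟨h1, h2, h3, h4, h5, h6, h7⟩
    simp [Matrix.adjugate_fin_three, h1, h2, h3, h4, h5, h6, h7]

/-- TASK SL2. -/
theorem pair_P (k m n : ℝ) :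
    el 0 1 (by decide) k * (el 0 2 (by decide) m * el 1 2 (by decide) n) * (el 0 1 (by decide) k)⁻¹
      = el 0 2 (by decide) (m + k * n) * el 1 2 (by decide) n := by
  rw [mul_inv_eq_iff_eq_mul]
  apply Subtype.ext
  rw [Matrix.SpecialLinearGroup.coe_mul, Matrix.SpecialLinearGroup.coe_mul,
    Matrix.SpecialLinearGroup.coe_mul, Matrix.SpecialLinearGroup.coe_mul]
  simp only [sl1_coe, Matrix.transvection]
  ext a b
  fin_cases a <;> fin_cases b <;>
  simp [Matrix.mul_apply, Fin.sum_univ_three, Matrix.single, Matrix.one_apply]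

/-- TASK SL2. -/
theorem pair_Q (k m n : ℝ) :
    el 1 0 (by decide) k * (el 0 2 (by decide) m * el 1 2 (by decide) n) * (el 1 0 (by decide) k)⁻¹
      = el 0 2 (by decide) m * el 1 2 (by decide) (n + k * m) := by
  rw [mul_inv_eq_iff_eq_mul]
  apply Subtype.ext
  rw [Matrix.SpecialLinearGroup.coe_mul, Matrix.SpecialLinearGroup.coe_mul,
    Matrix.SpecialLinearGroup.coe_mul, Matrix.SpecialLinearGroup.coe_mul]
  simp only [sl1_coe, Matrix.transvection]
  ext a b
  fin_cases a <;> fin_cases b <;>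
  simp [Matrix.mul_apply, Fin.sum_univ_three, Matrix.single, Matrix.one_apply]
  ring

/-- TASK SL3. -/
theorem SU_decomp {A : SL3} (hA : A ∈ SU) : ∃ a b c : ℝ,
    A = el 1 2 (by decide) c * el 0 2 (by decide) b * el 0 1 (by decide) a := by
  obtain ⟨h1, h2, h3, h4, h5, h6⟩ := hA
  refine ⟨A.1 0 1, A.1 0 2, A.1 1 2, ?_⟩
  apply Subtype.ext
  rw [Matrix.SpecialLinearGroup.coe_mul, Matrix.SpecialLinearGroup.coe_mul]
  simp only [sl1_coe, Matrix.transvection]
  ext a b
  fin_cases a <;> fin_cases b <;>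
    simp [Matrix.mul_apply, Fin.sum_univ_three, Matrix.single, Matrix.one_apply, h1, h2, h3, h4,
      h5, h6]

/-- TASK SL3. -/
theorem SLo_decomp {A : SL3} (hA : A ∈ SLo) : ∃ a b c : ℝ,
    A = el 1 0 (by decide) a * el 2 0 (by decide) b * el 2 1 (by decide) c := by
  obtain ⟨h1, h2, h3, h4, h5, h6⟩ := hA
  refine ⟨A.1 1 0, A.1 2 0, A.1 2 1, ?_⟩
  apply Subtype.ext
  rw [Matrix.SpecialLinearGroup.coe_mul, Matrix.SpecialLinearGroup.coe_mul]
  simp only [sl1_coe, Matrix.transvection]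
  ext a b
  fin_cases a <;> fin_cases b <;>
    simp [Matrix.mul_apply, Fin.sum_univ_three, Matrix.single, Matrix.one_apply, h1, h2, h3, h4,
      h5, h6]

/-- TASK SL3. -/
theorem SC_decomp {A : SL3} (hA : A ∈ SC) : ∃ a c : ℝ,
    A = el 0 1 (by decide) a * el 2 1 (by decide) c := by
  obtain ⟨h1, h2, h3, h4, h5, h6, h7⟩ := hA
  refine ⟨A.1 0 1, A.1 2 1, ?_⟩
  apply Subtype.ext
  rw [Matrix.SpecialLinearGroup.coe_mul]
  simp only [sl1_coe, Matrix.transvection]
  ext a b
  fin_cases a <;> fin_cases b <;>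
    simp [Matrix.mul_apply, Fin.sum_univ_three, Matrix.single, Matrix.one_apply, h1, h2, h3, h4,
      h5, h6, h7]

/-- TASK SL3. -/
theorem el_mem_SU (i j : Fin 3) (h : i ≠ j) (hij : i < j) (s : ℝ) : el i j h s ∈ SU := by
  refine ⟨?_, ?_, ?_, ?_, ?_, ?_⟩ <;>
  · change Matrix.transvection i j s _ _ = _
    simp only [Matrix.transvection, Matrix.add_apply, Matrix.single, Matrix.of_apply]
    fin_cases i <;> fin_cases j <;>
      first | (exfalso; revert hij; decide) | simp

/-- TASK SL3. -/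
theorem el_mem_SLo (i j : Fin 3) (h : i ≠ j) (hij : j < i) (s : ℝ) : el i j h s ∈ SLo := by
  refine ⟨?_, ?_, ?_, ?_, ?_, ?_⟩ <;>
  · change Matrix.transvection i j s _ _ = _
    simp only [Matrix.transvection, Matrix.add_apply, Matrix.single, Matrix.of_apply]
    fin_cases i <;> fin_cases j <;>
      first | (exfalso; revert hij; decide) | simp

/-- TASK SL3. -/
theorem el01_mem_SC (s : ℝ) : el 0 1 (by decide) s ∈ SC := by
  refine ⟨?_, ?_, ?_, ?_, ?_, ?_, ?_⟩ <;>
  · change Matrix.transvection _ _ s _ _ = _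
    simp [Matrix.transvection, Matrix.add_apply, Matrix.single, Matrix.of_apply]

/-- TASK SL3. -/
theorem el21_mem_SC (s : ℝ) : el 2 1 (by decide) s ∈ SC := by
  refine ⟨?_, ?_, ?_, ?_, ?_, ?_, ?_⟩ <;>
  · change Matrix.transvection _ _ s _ _ = _
    simp [Matrix.transvection, Matrix.add_apply, Matrix.single, Matrix.of_apply]


end C37.PB
end

section

/-!
MP_c37615_al, PART B: the Mautner phenomenon.
-/

set_option autoImplicit false

open Filter Topology
open scoped InnerProductSpace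

namespace C37.PB

variable {G : Type*} [Group G] [TopologicalSpace G] {H : Type*} [NormedAddCommGroup H]
  [InnerProductSpace ℂ H] [CompleteSpace H]

/-- TASK Ma1. Let `φ g = ⟪v, π(g) v⟫`, which is invariant under left and right multiplication by the
elements `ι (el i j s)` (`inner_op`). By `mautner_id`, for `c ≠ 0`:
`φ (ι (el j i c)) = φ (ι (dg i j * el j i (2 c)))`. Let `c → 0` (`c = 1 / (n + 1)`): by continuity of
`ι`, `el_continuous`, `U.cont`, `‖v‖² = φ (ι (dg i j))` (for the right side write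
`φ (ι dg * x) = ⟪π(ι dg)⁻¹ v, π(x) v⟫` or use that `π(ι dg)` is continuous). So
`‖π(ι dg) v - v‖² = 2 ‖v‖² - 2 re φ(ι dg) = 0`. -/
theorem mautner_dg (D : RootData G) (U : URep G H) {i j : Fin 3} (h : i ≠ j) {v : H}
    (hv : ∀ s, U.op (D.ι (el i j h s)) v = v) : U.op (D.ι (dg i j h)) v = v := by
  have key : ∀ c : ℝ, c ≠ 0 → ⟪v, U.op (D.ι (el j i h.symm c)) v⟫_ℂ =
      ⟪v, U.op (D.ι (dg i j h)) (U.op (D.ι (el j i h.symm (2 * c))) v)⟫_ℂ := by
    intro c hc
    have h1 : U.op (D.ι (el i j h c⁻¹ * el j i h.symm c * el i j h (-(2 * c)⁻¹))) v =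
        U.op (D.ι (el i j h c⁻¹)) (U.op (D.ι (el j i h.symm c)) v) := by
      rw [map_mul, map_mul, U.mul, U.mul]
      change U.op _ (U.op _ (U.op _ v)) = _
      rw [hv]
    have h2 : U.op (D.ι (el i j h c⁻¹ * el j i h.symm c * el i j h (-(2 * c)⁻¹))) v =
        U.op (D.ι (dg i j h)) (U.op (D.ι (el j i h.symm (2 * c))) v) := by
      rw [mautner_id i j h c hc, map_mul, U.mul]
      rfl
    rw [← h2, h1]
    conv_rhs => rw [← hv c⁻¹]
    rw [URep.inner_op]
    rw [hv c⁻¹]
  have hF : Continuous fun c : ℝ => ⟪v, U.op (D.ι (el j i h.symm c)) v⟫_ℂ := by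
    have h1 : Continuous fun c : ℝ => U.op (D.ι (el j i h.symm c)) v :=
      (U.cont v).comp (D.ι_cont.comp (el_continuous j i h.symm))
    exact continuous_const.inner h1
  have hG : Continuous fun c : ℝ =>
      ⟪v, U.op (D.ι (dg i j h)) (U.op (D.ι (el j i h.symm (2 * c))) v)⟫_ℂ := by
    have h1 : Continuous fun c : ℝ => U.op (D.ι (el j i h.symm (2 * c))) v :=
      (U.cont v).comp (D.ι_cont.comp ((el_continuous j i h.symm).comp
        (continuous_const.mul continuous_id)))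
    exact continuous_const.inner ((U.op (D.ι (dg i j h))).continuous.comp h1)
  have hFG := Continuous.ext_on (dense_compl_singleton (0 : ℝ)) hF hG
    (fun c hc => key c (by simpa using hc))
  have h0 := congrFun hFG 0
  simp only [mul_zero, el_zero, map_one, U.one] at h0
  change ⟪v, v⟫_ℂ = ⟪v, U.op (D.ι (dg i j h)) v⟫_ℂ at h0
  have h3 : ‖v - U.op (D.ι (dg i j h)) v‖ ^ 2 = 0 := by
    rw [@norm_sub_sq ℂ, ← h0, U.norm, inner_self_eq_norm_sq]
    ring
  have h4 : v - U.op (D.ι (dg i j h)) v = 0 := by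
    rw [← norm_eq_zero]
    exact pow_eq_zero_iff (two_ne_zero) |>.1 h3
  exact (sub_eq_zero.1 h4).symm

/-- TASK Ma2. Contraction: if `a v = v` (for `π(a)`) and `a^n x a^{-n} → 1` in the sense that
`n ↦ π(a^n x a^{-n}) v` tends to `v`, then
`‖π(x) v - v‖ = ‖π(a^n) (π(x) π(a^{-n}) v - π(a^{-n}) v)‖ = ‖π(a^n x a^{-n}) v - v‖ → 0`. -/
theorem contraction (U : URep G H) (a x : G) {v : H} (ha : U.op a v = v)
    (hx : Tendsto (fun n : ℕ => U.op (a ^ n * x * (a ^ n)⁻¹) v) atTop (𝓝 v)) : U.op x v = v := by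
  have han : ∀ n : ℕ, U.op (a ^ n) v = v := by
    intro n
    induction n with
    | zero => rw [pow_zero, U.one]; rfl
    | succ n ih =>
      rw [pow_succ, U.mul]
      change U.op (a ^ n) (U.op a v) = v
      rw [ha, ih]
  have hconst : ∀ n : ℕ, ‖U.op (a ^ n * x * (a ^ n)⁻¹) v - v‖ = ‖U.op x v - v‖ := by
    intro n
    have h1 : U.op (a ^ n)⁻¹ v = v := by
      conv_lhs => rw [← han n]
      exact URep.op_inv_apply U _ _
    have h2 : U.op (a ^ n * x * (a ^ n)⁻¹) v = U.op (a ^ n) (U.op x v) := by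
      rw [U.mul, U.mul]
      change U.op _ (U.op _ (U.op _ v)) = _
      rw [h1]
    have h3 : U.op (a ^ n * x * (a ^ n)⁻¹) v - v = U.op (a ^ n) (U.op x v - v) := by
      rw [h2, map_sub, han n]
    rw [h3, U.norm]
  have hlim : Tendsto (fun n : ℕ => ‖U.op (a ^ n * x * (a ^ n)⁻¹) v - v‖) atTop (𝓝 0) := by
    have := (hx.sub_const v).norm
    simpa using this
  simp only [hconst] at hlim
  have h5 := tendsto_nhds_unique hlim tendsto_const_nhds
  exact sub_eq_zero.1 (norm_eq_zero.1 h5.symm)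

/-- auxiliary lemma for Ma2 -/
theorem ma2_gen (U : URep G H) (f : ℝ → G) (hf : Continuous f) (hf0 : f 0 = 1) (a : G) (m : ℝ)
    (hm0 : 0 ≤ m) (hm1 : m < 1) (hconj : ∀ s, a * f s * a⁻¹ = f (m * s)) {v : H}
    (ha : U.op a v = v) (s : ℝ) : U.op (f s) v = v := by
  have hn : ∀ n : ℕ, a ^ n * f s * (a ^ n)⁻¹ = f (m ^ n * s) := by
    intro n
    induction n with
    | zero => simp
    | succ n ih =>
      have h1 : a ^ (n + 1) * f s * (a ^ (n + 1))⁻¹ = a * (a ^ n * f s * (a ^ n)⁻¹) * a⁻¹ := by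
        rw [pow_succ']
        group
      rw [h1, ih, hconj]
      congr 1
      ring
  apply contraction U a (f s) ha
  simp only [hn]
  have h1 : Tendsto (fun n : ℕ => m ^ n * s) atTop (𝓝 (0 * s)) :=
    (tendsto_pow_atTop_nhds_zero_of_lt_one hm0 hm1).mul_const s
  rw [zero_mul] at h1
  have h2 : Continuous fun x : ℝ => U.op (f x) v := (U.cont v).comp hf
  have h3 := (h2.tendsto 0).comp h1
  rw [hf0, U.one] at h3
  exact h3

/-- TASK Ma2. Put `a = ι (dg i j)` if `μ = dgv i j p / dgv i j q < 1` and `a = ι (dg i j)⁻¹` if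
`μ > 1` (`dgv_ne`, `dgv_pos`); by `dg_conj` `a^n (el p q s) a^{-n} = el p q (μ^{±n} s)`, which tends
to `1`. Use `contraction` and `mautner_dg`. -/
theorem mautner_el (D : RootData G) (U : URep G H) {i j : Fin 3} (h : i ≠ j) {v : H}
    (hv : ∀ s, U.op (D.ι (el i j h s)) v = v) (p q : Fin 3) (hpq : p ≠ q) (s : ℝ) :
    U.op (D.ι (el p q hpq s)) v = v := by
  have hdg := mautner_dg D U h hv
  have hpos : 0 < dgv i j p / dgv i j q := div_pos (dgv_pos _ _ _) (dgv_pos _ _ _)
  have hcont : Continuous fun s => D.ι (el p q hpq s) := D.ι_cont.comp (el_continuous p q hpq)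
  have h0 : D.ι (el p q hpq 0) = 1 := by rw [el_zero, map_one]
  have hc : ∀ s, D.ι (dg i j h) * D.ι (el p q hpq s) * (D.ι (dg i j h))⁻¹ =
      D.ι (el p q hpq (dgv i j p / dgv i j q * s)) := by
    intro s
    rw [← dg_conj i j h p q hpq s, map_mul, map_mul, map_inv]
  rcases lt_or_gt_of_ne (dgv_ne i j h p q hpq) with hlt | hgt
  · exact ma2_gen U (fun s => D.ι (el p q hpq s)) hcont h0 (D.ι (dg i j h)) _ hpos.le hlt hc hdg s
  · have hinv : U.op (D.ι (dg i j h))⁻¹ v = v := by
      conv_lhs => rw [← hdg]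
      exact URep.op_inv_apply U _ _
    refine ma2_gen U (fun s => D.ι (el p q hpq s)) hcont h0 (D.ι (dg i j h))⁻¹
      (dgv i j p / dgv i j q)⁻¹ (inv_nonneg.2 hpos.le) (inv_lt_one_of_one_lt₀ hgt) ?_ hinv s
    intro t
    have h1 := hc ((dgv i j p / dgv i j q)⁻¹ * t)
    rw [← mul_assoc, mul_inv_cancel₀ hpos.ne', one_mul] at h1
    rw [← h1]
    group

/-- TASK Ma2. By `el_gen` (for the subgroup of all `A` with `π(ι A) v = v`) and `mautner_el`, `v` is
`ι`-invariant. For `S i`: with `ι d * S i s * (ι d)⁻¹ = S i (2 s)` put `a = (ι d)⁻¹`: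
`a^n (S i s) a^{-n} = S i (s / 2^n) → S i 0 = 1`; use `contraction`. Finally `D.gen`. -/
theorem mautner (D : RootData G) (U : URep G H) {i j : Fin 3} (h : i ≠ j) {v : H}
    (hv : ∀ s, U.op (D.ι (el i j h s)) v = v) (g : G) : U.op g v = v := by
  have hinv : ∀ g : G, U.op g v = v → U.op g⁻¹ v = v := by
    intro g hg
    conv_lhs => rw [← hg]
    exact URep.op_inv_apply U _ _
  let K : Subgroup G :=
    { carrier := {g | U.op g v = v}
      one_mem' := by
        change U.op 1 v = v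
        rw [U.one]; rfl
      mul_mem' := by
        intro a b ha hb
        change U.op (a * b) v = v
        rw [U.mul]
        change U.op a (U.op b v) = v
        rw [show U.op b v = v from hb, show U.op a v = v from ha]
      inv_mem' := by
        intro a ha
        exact hinv a ha }
  have hKι : ∀ A, D.ι A ∈ K := by
    have h1 : K.comap D.ι = ⊤ := by
      apply el_gen
      intro p q hpq s
      exact mautner_el D U h hv p q hpq s
    intro A
    have : A ∈ K.comap D.ι := by rw [h1]; trivial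
    exact this
  have hKS : ∀ k s, D.S k s ∈ K := by
    intro k s
    have hS0 : D.S k 0 = 1 := by
      have := D.S_add k 0 0
      rw [add_zero] at this
      exact (mul_eq_left.1 this.symm)
    obtain ⟨d, hd⟩ := D.scale k
    refine ma2_gen U (D.S k) (D.S_cont k) hS0 (D.ι d)⁻¹ (1 / 2) (by norm_num) (by norm_num) ?_
      (hinv _ (hKι d)) s
    intro t
    have h1 := hd (1 / 2 * t)
    have h2 : (2 : ℝ) * (1 / 2 * t) = t := by ring
    rw [h2] at h1
    rw [← h1]
    group
  have := D.gen K hKι hKS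
  have hg : g ∈ K := by rw [this]; trivial
  exact hg

end C37.PB
end

section

/-!
MP_c37615_al, PART B: unimodularity.
-/

set_option autoImplicit false

open Filter Topology MeasureTheory

namespace C37.PB

/-- TASK Un1. `{g | χ g = 1} = χ.ker` is a subgroup; `D.gen`. It contains `ι A`: by `el_gen` it is
enough to treat `A = el i k s = [el i j s, el j k 1]` (`el_commutator`, `j` the third index), and
`χ (x * y * x⁻¹ * y⁻¹) = 1` in a commutative monoid (`χ x * χ x⁻¹ = 1`). It contains `S i s`: by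
`D.scale` `χ (S i (2 s)) = χ (S i s)`, and `S i (2 s) = S i s * S i s`; multiply by
`χ (S i s)⁻¹`. -/
theorem hom_trivial {G : Type*} [Group G] [TopologicalSpace G] (D : RootData G) {M : Type*}
    [CommMonoid M] (χ : G →* M) (g : G) : χ g = 1 := by
  have hinv : ∀ x : G, χ x * χ x⁻¹ = 1 := by
    intro x
    rw [← map_mul, mul_inv_cancel, map_one]
  have hcomm : ∀ x y : G, χ (x * y * x⁻¹ * y⁻¹) = 1 := by
    intro x y
    rw [map_mul, map_mul, map_mul]
    calc χ x * χ y * χ x⁻¹ * χ y⁻¹ = (χ x * χ x⁻¹) * (χ y * χ y⁻¹) := by ac_rfl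
      _ = 1 := by rw [hinv, hinv, one_mul]
  let K : Subgroup G :=
    { carrier := {g | χ g = 1}
      mul_mem' := by
        intro a b ha hb
        change χ a = 1 at ha
        change χ b = 1 at hb
        change χ (a * b) = 1
        rw [map_mul, ha, hb, one_mul]
      one_mem' := map_one χ
      inv_mem' := by
        intro a ha
        change χ a = 1 at ha
        change χ a⁻¹ = 1
        have := hinv a
        rwa [ha, one_mul] at this }
  have hι : ∀ A, D.ι A ∈ K := by
    have hK : K.comap D.ι = ⊤ := by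
      apply el_gen
      intro i k h s
      obtain ⟨j, hij, hjk⟩ : ∃ j : Fin 3, i ≠ j ∧ j ≠ k := by
        revert i k; decide
      change χ (D.ι (el i k h s)) = 1
      have h1 := el_commutator i j k hij hjk h s 1
      rw [mul_one] at h1
      have h2 : D.ι (el i k h s) = D.ι (el i j hij s) * D.ι (el j k hjk 1) *
          (D.ι (el i j hij s))⁻¹ * (D.ι (el j k hjk 1))⁻¹ := by
        rw [← h1, map_mul, map_mul, map_mul, map_inv, map_inv]
      rw [h2]
      exact hcomm _ _
    intro A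
    have : A ∈ K.comap D.ι := by rw [hK]; trivial
    exact this
  have hS : ∀ i s, D.S i s ∈ K := by
    intro i s
    obtain ⟨d, hd⟩ := D.scale i
    have h1 : χ (D.S i (2 * s)) = χ (D.S i s) := by
      rw [← hd s, map_mul, map_mul]
      calc χ (D.ι d) * χ (D.S i s) * χ (D.ι d)⁻¹
          = (χ (D.ι d) * χ (D.ι d)⁻¹) * χ (D.S i s) := by ac_rfl
        _ = _ := by rw [hinv, one_mul]
    have h2 : χ (D.S i (2 * s)) = χ (D.S i s) * χ (D.S i s) := by
      rw [two_mul, D.S_add, map_mul]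
    have h3 := hinv (D.S i s)
    change χ (D.S i s) = 1
    calc χ (D.S i s) = χ (D.S i s) * (χ (D.S i s) * χ (D.S i s)⁻¹) := by rw [h3, mul_one]
      _ = (χ (D.S i s) * χ (D.S i s)) * χ (D.S i s)⁻¹ := by rw [mul_assoc]
      _ = χ (D.S i s) * χ (D.S i s)⁻¹ := by rw [← h2, h1]
      _ = 1 := h3
  have hg : g ∈ K := by rw [D.gen K hι hS]; trivial
  exact hg

/-- TASK Un1. `MeasureTheory.Measure.modularCharacter` is trivial by `hom_trivial`;
`map_right_mul_eq_modularCharacterFun_smul`. -/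
theorem isMulRightInvariant_haar {G : Type*} [Group G] [TopologicalSpace G] [IsTopologicalGroup G]
    [LocallyCompactSpace G] [PolishSpace G] [MeasurableSpace G] [BorelSpace G] (D : RootData G)
    (ν : Measure G) [ν.IsHaarMeasure] : ν.IsMulRightInvariant := by
  refine ⟨fun g => ?_⟩
  have h1 : Measure.modularCharacterFun g = 1 := hom_trivial D Measure.modularCharacter g
  rw [Measure.map_right_mul_eq_modularCharacterFun_smul, h1, one_smul]

end C37.PB
end
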