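import Mathlib
import Pool.Agent.Lib.MP_c37615_al.C.Base
import Pool.Agent.Lib.MP_c37615_al.C.F01
import Pool.Agent.Lib.MP_c37615_al.R.RDefs

section

set_option autoImplicit false

open Filter Topology
open scoped ContDiff

namespace C37.PC

private theorem F03_phi_cont (u v w : V) :
    Continuous (fun A : Mat => phi (A.mulVec u) (A.mulVec v) (A.mulVec w)) := by
  have hu : ∀ i, Continuous (fun A : Mat => A.mulVec u i) := fun i =>
    (continuous_apply i).comp (Continuous.matrix_mulVec continuous_id continuous_const)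
  have hv : ∀ i, Continuous (fun A : Mat => A.mulVec v i) := fun i =>
    (continuous_apply i).comp (Continuous.matrix_mulVec continuous_id continuous_const)
  have hw : ∀ i, Continuous (fun A : Mat => A.mulVec w i) := fun i =>
    (continuous_apply i).comp (Continuous.matrix_mulVec continuous_id continuous_const)
  unfold phi e3 det3
  fun_prop

private theorem F03_inG_closed : IsClosed {A : Mat | InG A} := by
  have : {A : Mat | InG A} = ⋂ u : V, ⋂ v : V, ⋂ w : V,
      {A : Mat | phi (A.mulVec u) (A.mulVec v) (A.mulVec w) = phi u v w} := by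
    ext A
    simp only [Set.mem_iInter]
    rfl
  rw [this]
  exact isClosed_iInter fun u => isClosed_iInter fun v => isClosed_iInter fun w =>
    isClosed_eq (F03_phi_cont u v w) continuous_const

private theorem F03_emb : IsClosedEmbedding (fun g : GG => (mat g, mat g⁻¹)) := by
  have h1 : IsEmbedding (fun g : GG => (mat g, mat g⁻¹)) :=
    ((Homeomorph.refl Mat).prodCongr (MulOpposite.opHomeomorph (M := Mat)).symm).isEmbedding.comp
      ((Units.isEmbedding_embedProduct (M := Mat)).comp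
        (IsEmbedding.subtypeVal (p := fun g : GL (Fin 7) ℝ => g ∈ Gs)))
  refine ⟨h1, ?_⟩
  have hr : Set.range (fun g : GG => (mat g, mat g⁻¹)) =
      {q : Mat × Mat | InG q.1} ∩ ({q : Mat × Mat | q.1 * q.2 = 1} ∩ {q | q.2 * q.1 = 1}) := by
    ext q
    constructor
    · rintro ⟨g, rfl⟩
      exact ⟨mat_inG g, mat_mul_inv g, mat_inv_mul g⟩
    · rintro ⟨ha, hb, hc⟩
      let u : GL (Fin 7) ℝ := ⟨q.1, q.2, hb, hc⟩
      have hu : u ∈ Gs := ha
      exact ⟨⟨u, hu⟩, rfl⟩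
  rw [hr]
  refine (F03_inG_closed.preimage continuous_fst).inter (IsClosed.inter ?_ ?_)
  · exact isClosed_eq (continuous_fst.matrix_mul continuous_snd) continuous_const
  · exact isClosed_eq (continuous_snd.matrix_mul continuous_fst) continuous_const

/-- Bounded closed subsets of `GG` are compact.
Proof. `GG` carries the topology induced from `GL (Fin 7) ℝ = Matˣ`, which is embedded in `Mat × Matᵐᵒᵖ` by `u ↦ (u, u⁻¹)`
(`Units.isEmbedding_embedProduct`, `Units.embedProduct`). The image of the set is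
`{(A, op A') | InG A, A * A' = 1, A' * A = 1, fro A ≤ R, fro A' ≤ R}`: closed (`InG` is a closed condition: `phi (A.mulVec u) (A.mulVec v) (A.mulVec w)` is
continuous in `A`) and bounded (`entry_le_fro`, finite product of copies of `ℝ`), so compact; use
`Topology.IsEmbedding.isCompact_iff` (or `IsInducing.isCompact_iff`) twice. Alternatively: sequential/closed embedding arguments. -/
theorem GG_compact (R : ℝ) : IsCompact {h : GG | fro (mat h) ≤ R ∧ fro (mat h⁻¹) ≤ R} := by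
  have hb : IsCompact {A : Mat | ∀ i j, A i j ∈ Set.Icc (-R) R} := by
    have h1 : IsCompact (Set.pi Set.univ fun _ : Fin 7 => Set.pi Set.univ
        fun _ : Fin 7 => Set.Icc (-R) R) :=
      isCompact_univ_pi fun _ => isCompact_univ_pi fun _ => isCompact_Icc
    have h2 : (Set.pi Set.univ fun _ : Fin 7 => Set.pi Set.univ
        fun _ : Fin 7 => Set.Icc (-R) R) = {A : Mat | ∀ i j, A i j ∈ Set.Icc (-R) R} := by
      ext A
      simp only [Set.mem_pi, Set.mem_univ, true_imp_iff]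
      rfl
    rw [← h2]
    exact h1
  have hK := F03_emb.isCompact_preimage (hb.prod hb)
  have hc1 : Continuous (fun h : GG => fro (mat h)) :=
    fro_continuous.comp (continuous_fst.comp F03_emb.continuous)
  have hc2 : Continuous (fun h : GG => fro (mat h⁻¹)) :=
    fro_continuous.comp (continuous_snd.comp F03_emb.continuous)
  refine hK.of_isClosed_subset ?_ ?_
  · exact (isClosed_le hc1 continuous_const).inter (isClosed_le hc2 continuous_const)
  · rintro h ⟨ha, hb'⟩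
    refine ⟨fun i j => ?_, fun i j => ?_⟩
    · exact abs_le.1 ((entry_le_fro _ i j).trans ha)
    · exact abs_le.1 ((entry_le_fro _ i j).trans hb')

/-- Continuity of the matrix map. -/
theorem mat_continuous : Continuous mat :=
  continuous_fst.comp F03_emb.continuous

/-- Continuity of `g ↦ fro (mat (g⁻¹ * γ * g) - 1)`: `GG` is a topological group. -/
theorem small_cont (γ : GG) : Continuous (fun g : GG => fro (mat (g⁻¹ * γ * g) - 1)) := by
  have h1 : Continuous (fun g : GG => g⁻¹ * γ * g) := by fun_prop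
  exact fro_continuous.comp ((mat_continuous.comp h1).sub continuous_const)

/-- The set of `h` with `g⁻¹ h g` close to `1` is contained in a compact set.
Proof. If `A = mat (g⁻¹ h g)`, `fro (A - 1) ≤ 1/2` then `fro A ≤ fro 1 + 1/2`, and `A' = mat (g⁻¹ h⁻¹ g)` satisfies
`A' = 1 - A' (A - 1)`, so `fro A' ≤ fro 1 + fro A' / 2`, `fro A' ≤ 2 fro 1`. So `g⁻¹ h g` lies in the compact set
`K0` of `GG_compact (2 * fro 1 + 1)`, and `h ∈ g K0 g⁻¹ = (fun y => g * y * g⁻¹) '' K0`, compact. -/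
theorem small_subset_compact (g : GG) : ∃ K : Set GG, IsCompact K ∧
    ∀ h : GG, fro (mat (g⁻¹ * h * g) - 1) ≤ 1/2 → h ∈ K := by
  refine ⟨(fun y : GG => g * y * g⁻¹) '' _,
    (GG_compact (2 * fro 1 + 1)).image (by fun_prop), fun h hh => ?_⟩
  refine ⟨g⁻¹ * h * g, ⟨?_, ?_⟩, by group⟩
  · have h1 : mat (g⁻¹ * h * g) = (mat (g⁻¹ * h * g) - 1) + 1 := by rw [sub_add_cancel]
    rw [h1]
    have h2 := fro_add (mat (g⁻¹ * h * g) - 1) 1
    have h3 := fro_nonneg 1
    linarith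
  · have h1 : mat (g⁻¹ * h * g)⁻¹ =
        1 + -(mat (g⁻¹ * h * g)⁻¹ * (mat (g⁻¹ * h * g) - 1)) := by
      rw [mul_sub, mat_inv_mul, mul_one]
      abel
    have h2 := fro_add 1 (-(mat (g⁻¹ * h * g)⁻¹ * (mat (g⁻¹ * h * g) - 1)))
    rw [← h1, fro_neg] at h2
    have h3 := fro_mul (mat (g⁻¹ * h * g)⁻¹) (mat (g⁻¹ * h * g) - 1)
    have h4 : fro (mat (g⁻¹ * h * g)⁻¹) * fro (mat (g⁻¹ * h * g) - 1) ≤
        fro (mat (g⁻¹ * h * g)⁻¹) * (1 / 2) :=
      mul_le_mul_of_nonneg_left hh (fro_nonneg _)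
    linarith

/-- Compact neighbourhood of `1`, small in two senses.
Proof. `{h | fro (mat h - 1) ≤ 1/2}` is a neighbourhood of `1` (continuity of `mat`, `fro`) contained in a compact set
(`small_subset_compact 1`), so `1` has a compact neighbourhood `K0`. The map `q : (o, o') ↦ fro (mat (o' * o⁻¹) - 1)` is continuous and `0` at
`(1,1)`, so there is an open `U ∋ 1` with `q < ε` on `U × U`; `{o | dist (p o) (p 1) < 1}` is an open neighbourhood. Take a closed
neighbourhood of `1` inside the intersection (`GG` is regular: `closed_nhds_basis`), intersected with `K0`. -/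
theorem exists_nbhd {p : GG → X} (hp : Continuous p) {ε : ℝ} (hε : 0 < ε) :
    ∃ O : Set GG, O ∈ 𝓝 (1 : GG) ∧ IsCompact O ∧ (∀ o ∈ O, dist (p o) (p 1) < 1) ∧
      ∀ o ∈ O, ∀ o' ∈ O, fro (mat (o' * o⁻¹) - 1) < ε := by
  obtain ⟨K0, hK0, hK⟩ := small_subset_compact 1
  have hz : fro (0 : Mat) = 0 := (fro_eq_zero 0).2 rfl
  have hc : Continuous (fun h : GG => fro (mat h - 1)) :=
    fro_continuous.comp (mat_continuous.sub continuous_const)
  have hN1 : {h : GG | fro (mat h - 1) < 1/2} ∈ 𝓝 (1 : GG) := by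
    refine (isOpen_lt hc continuous_const).mem_nhds ?_
    change fro (mat 1 - 1) < 1/2
    rw [mat_one, sub_self, hz]
    norm_num
  have hN2 : {o : GG | dist (p o) (p 1) < 1} ∈ 𝓝 (1 : GG) := by
    refine (isOpen_lt (hp.dist continuous_const) continuous_const).mem_nhds ?_
    change dist (p 1) (p 1) < 1
    rw [dist_self]
    norm_num
  have hq : Continuous (fun o : GG × GG => fro (mat (o.2 * o.1⁻¹) - 1)) := by
    have h1 : Continuous (fun o : GG × GG => o.2 * o.1⁻¹) := by fun_prop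
    exact fro_continuous.comp ((mat_continuous.comp h1).sub continuous_const)
  have hN3 : {o : GG × GG | fro (mat (o.2 * o.1⁻¹) - 1) < ε} ∈ 𝓝 ((1 : GG), (1 : GG)) := by
    refine (isOpen_lt hq continuous_const).mem_nhds ?_
    change fro (mat (1 * 1⁻¹) - 1) < ε
    rw [mul_inv_cancel, mat_one, sub_self, hz]
    exact hε
  rw [nhds_prod_eq, Filter.mem_prod_same_iff] at hN3
  obtain ⟨t, ht, hts⟩ := hN3
  obtain ⟨O, hO, hOc, hOs⟩ := exists_mem_nhds_isClosed_subset
    (Filter.inter_mem (Filter.inter_mem hN1 hN2) ht)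
  refine ⟨O, hO, hK0.of_isClosed_subset hOc (fun o ho => hK o ?_), fun o ho => (hOs ho).1.2,
    fun o ho o' ho' => ?_⟩
  · have h1 : fro (mat o - 1) < 1/2 := (hOs ho).1.1
    rw [inv_one, one_mul, mul_one]
    exact h1.le
  · have h1 : ((o, o') : GG × GG) ∈ t ×ˢ t := ⟨(hOs ho).2, (hOs ho').2⟩
    have h2 := hts h1
    rw [Set.mem_ofPred_eq] at h2
    exact h2

end C37.PC
end

section

set_option autoImplicit false

open Filter Topology
open scoped ContDiff

namespace C37.PC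

/-- Commensurability is an equivalence relation: reflexive (exponents 1,1), symmetric, transitive
(`α ^ m = β ^ n`, `β ^ k = δ ^ l` imply `α ^ (m k) = δ ^ (l n)`). -/
theorem csr_refl {Γ : Type} [Group Γ] (α : Γ) : Csr α α :=
  ⟨1, 1, one_ne_zero, one_ne_zero, rfl⟩

theorem csr_symm {Γ : Type} [Group Γ] {α β : Γ} (h : Csr α β) : Csr β α := by
  obtain ⟨m, n, hm, hn, e⟩ := h
  exact ⟨n, m, hn, hm, e.symm⟩

theorem csr_trans {Γ : Type} [Group Γ] {α β δ : Γ} (h : Csr α β) (h' : Csr β δ) : Csr α δ := by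
  obtain ⟨m, n, hm, hn, e⟩ := h
  obtain ⟨k, l, hk, hl, e'⟩ := h'
  refine ⟨m * k, l * n, mul_ne_zero hm hk, mul_ne_zero hl hn, ?_⟩
  rw [zpow_mul, e, ← zpow_mul, mul_comm n k, zpow_mul, e', ← zpow_mul]

end C37.PC
end

section

/-!
MP_c37615_al (S02984), part R, file AlgD. See /team-store/MP_c37615_PAPER.md, section 2.
-/

set_option autoImplicit false

open Filter Topology

namespace C37.PR

/-- Products of central elements are central, and they commute. -/
theorem centre_mul (Aa : Subalgebra ℝ Mat) (a : Mat) (ha : a ∈ centre Aa) (b : Mat) (hb : b ∈ centre Aa) :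
    a * b ∈ centre Aa ∧ a * b = b * a := by
  obtain ⟨ha1, ha2⟩ := ha
  obtain ⟨hb1, hb2⟩ := hb
  refine ⟨⟨Aa.mul_mem ha1 hb1, fun c hc => ?_⟩, ha2 b hb1⟩
  rw [mul_assoc, hb2 c hc, ← mul_assoc, ha2 c hc, mul_assoc]

/-- If `g` is invertible and normalises the subalgebra (in both directions), it normalises the centre. -/
theorem centre_conj (Aa : Subalgebra ℝ Mat) (g g' : Mat) (hg : g * g' = 1) (hg' : g' * g = 1)
    (h1 : ∀ a ∈ Aa, g * a * g' ∈ Aa) (h2 : ∀ a ∈ Aa, g' * a * g ∈ Aa) (a : Mat) (ha : a ∈ centre Aa) :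
    g * a * g' ∈ centre Aa := by
  obtain ⟨ha1, ha2⟩ := ha
  refine ⟨h1 a ha1, fun b hb => ?_⟩
  have h3 := ha2 _ (h2 b hb)
  calc g * a * g' * b = g * a * (g' * b * (g * g')) := by rw [hg, mul_one]; noncomm_ring
    _ = g * (a * (g' * b * g)) * g' := by noncomm_ring
    _ = g * (g' * b * g * a) * g' := by rw [h3]
    _ = (g * g') * b * (g * a * g') := by noncomm_ring
    _ = b * (g * a * g') := by rw [hg, one_mul]

end C37.PR
end

section

/-!
MP_c37615_al (S02984), part R, file NormE. See /team-store/MP_c37615_PAPER.md, section 2.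
-/

set_option autoImplicit false

open Filter Topology

namespace C37.PR

open scoped Matrix.Norms.Operator in
/-- Conjugation: for `γ` fixed there is a constant `c > 0` with `mu (γ * δ * γ⁻¹) ≤ c * mu δ` for all `δ`. -/
theorem mu_conj (γ : V ≃ᵃ[ℝ] V) : ∃ c : ℝ, 0 < c ∧ ∀ δ : V ≃ᵃ[ℝ] V, mu (γ * δ * γ⁻¹) ≤ c * mu δ := by
  refine ⟨‖lin γ‖ * ‖lin γ⁻¹‖ + 1, by positivity, fun δ => ?_⟩
  unfold mu
  have h1 : lin (γ * δ * γ⁻¹) - 1 = lin γ * (lin δ - 1) * lin γ⁻¹ := by
    rw [lin_mul, lin_mul, mul_sub, sub_mul, mul_one, lin_mul_inv]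
  rw [h1]
  calc ‖lin γ * (lin δ - 1) * lin γ⁻¹‖ ≤ ‖lin γ * (lin δ - 1)‖ * ‖lin γ⁻¹‖ := norm_mul_le _ _
    _ ≤ (‖lin γ‖ * ‖lin δ - 1‖) * ‖lin γ⁻¹‖ := by
        gcongr
        exact norm_mul_le _ _
    _ ≤ (‖lin γ‖ * ‖lin γ⁻¹‖ + 1) * ‖lin δ - 1‖ := by nlinarith [norm_nonneg (lin δ - 1)]

end C37.PR
end

section

/-!
MP_c37615_al (S02984), part R, file AlgE. See /team-store/MP_c37615_PAPER.md, section 2.
-/

set_option autoImplicit false

open Filter Topology

namespace C37.PR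

/-- Conjugation by `γ ∈ Γ` maps `Aeps Γ e` into `Aeps Γ (c * e)` with the constant `c = c(γ)` of `mu_conj`. -/
theorem Aeps_conj (Γ : Subgroup (V ≃ᵃ[ℝ] V)) (γ : V ≃ᵃ[ℝ] V) (hγ : γ ∈ Γ) :
    ∃ c : ℝ, 0 < c ∧ ∀ e : ℝ, ∀ a ∈ Aeps Γ e, lin γ * a * lin γ⁻¹ ∈ Aeps Γ (c * e) := by
  obtain ⟨c, hc, hcc⟩ := mu_conj γ
  refine ⟨c, hc, fun e a ha => ?_⟩
  unfold Aeps at ha
  induction ha using Algebra.adjoin_induction with
  | mem x hx =>
    obtain ⟨δ, ⟨hδ, hδ'⟩, rfl⟩ := hx
    refine Algebra.subset_adjoin ⟨γ * δ * γ⁻¹, ⟨Γ.mul_mem (Γ.mul_mem hγ hδ) (Γ.inv_mem hγ), ?_⟩, ?_⟩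
    · exact lt_of_le_of_lt (hcc δ) (by gcongr)
    · rw [lin_mul, lin_mul]
  | algebraMap r =>
    have h1 : lin γ * (algebraMap ℝ Mat r) * lin γ⁻¹ = algebraMap ℝ Mat r := by
      rw [← Algebra.commutes, mul_assoc, lin_mul_inv, mul_one]
    rw [h1]
    exact Subalgebra.algebraMap_mem _ r
  | add x y _ _ hx hy =>
    have h1 : lin γ * (x + y) * lin γ⁻¹ = lin γ * x * lin γ⁻¹ + lin γ * y * lin γ⁻¹ := by
      rw [mul_add, add_mul]
    rw [h1]
    exact Subalgebra.add_mem _ hx hy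
  | mul x y _ _ hx hy =>
    have h1 : lin γ * (x * y) * lin γ⁻¹ = (lin γ * x * lin γ⁻¹) * (lin γ * y * lin γ⁻¹) := by
      calc lin γ * (x * y) * lin γ⁻¹ = lin γ * x * 1 * (y * lin γ⁻¹) := by noncomm_ring
        _ = lin γ * x * (lin γ⁻¹ * lin γ) * (y * lin γ⁻¹) := by rw [lin_inv_mul]
        _ = _ := by noncomm_ring
    rw [h1]
    exact Subalgebra.mul_mem _ hx hy

end C37.PR
end

section

/-!
MP_c37615_al (S02984), part R, file AlgF. See /team-store/MP_c37615_PAPER.md, section 2.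
-/

set_option autoImplicit false

open Filter Topology

namespace C37.PR

/-- If `Aeps Γ e = Aeps Γ e0` for all `0 < e ≤ e0` (`e0 > 0`), then Γ normalises `Aeps Γ e0`. -/
theorem Aeps_normal (Γ : Subgroup (V ≃ᵃ[ℝ] V)) (e0 : ℝ) (he0 : 0 < e0)
    (hst : ∀ e, 0 < e → e ≤ e0 → Aeps Γ e = Aeps Γ e0) (γ : V ≃ᵃ[ℝ] V) (hγ : γ ∈ Γ) (a : Mat) (ha : a ∈ Aeps Γ e0) :
    lin γ * a * lin γ⁻¹ ∈ Aeps Γ e0 := by
  obtain ⟨c, hc, hcc⟩ := Aeps_conj Γ γ hγ
  have h1 : 0 < min e0 (e0 / c) := lt_min he0 (by positivity)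
  have h2 := hst _ h1 (min_le_left _ _)
  rw [← h2] at ha
  have h3 := hcc _ a ha
  have h4 : c * min e0 (e0 / c) ≤ e0 := by
    calc c * min e0 (e0 / c) ≤ c * (e0 / c) := by gcongr; exact min_le_right _ _
      _ = e0 := by field_simp
  refine (Algebra.adjoin_mono (Set.image_mono ?_) : Aeps Γ (c * min e0 (e0 / c)) ≤ Aeps Γ e0) h3
  rintro δ ⟨hδ, hδ'⟩
  exact ⟨hδ, lt_of_lt_of_le hδ' h4⟩

end C37.PR
end

section

/-!
MP_c37615_al (S02984), part R, file AlgA. See /team-store/MP_c37615_PAPER.md, section 2.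
-/

set_option autoImplicit false

open Filter Topology

namespace C37.PR

/-- In the finite dimensional algebra `Mat` every generated subalgebra is generated by a finite subset of the generators. -/
theorem adjoin_finite (S : Set Mat) :
    ∃ F : Finset Mat, (F : Set Mat) ⊆ S ∧ Algebra.adjoin ℝ (F : Set Mat) = Algebra.adjoin ℝ S := by
  classical
  let rk : Subalgebra ℝ Mat → ℕ := fun A => Module.finrank ℝ (Subalgebra.toSubmodule A)
  have hbd : ∀ A : Subalgebra ℝ Mat, rk A ≤ Module.finrank ℝ Mat := fun A =>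
    Submodule.finrank_le _
  let P : ℕ → Prop := fun n => ∃ F : Finset Mat, (F : Set Mat) ⊆ S ∧ rk (Algebra.adjoin ℝ (F : Set Mat)) = n
  have hP0 : ∃ n, P n := ⟨_, ∅, by simp, rfl⟩
  have hPb : ∀ n, P n → n ≤ Module.finrank ℝ Mat := by
    rintro n ⟨F, _, rfl⟩
    exact hbd _
  have hfin : (setOf P).Finite := (Set.finite_Iic (Module.finrank ℝ Mat)).subset hPb
  obtain ⟨n, hn, hmax⟩ := hfin.exists_maximal hP0
  obtain ⟨F, hF, hFn⟩ := hn
  refine ⟨F, hF, le_antisymm (Algebra.adjoin_mono hF) ?_⟩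
  refine Algebra.adjoin_le ?_
  intro s hs
  have h1 : Algebra.adjoin ℝ (F : Set Mat) ≤ Algebra.adjoin ℝ ((insert s F : Finset Mat) : Set Mat) :=
    Algebra.adjoin_mono (by simp)
  have h2 : P (rk (Algebra.adjoin ℝ ((insert s F : Finset Mat) : Set Mat))) := by
    refine ⟨insert s F, ?_, rfl⟩
    intro x hx
    rcases Finset.mem_insert.mp hx with rfl | hx
    · exact hs
    · exact hF hx
  have h3 : n ≤ rk (Algebra.adjoin ℝ ((insert s F : Finset Mat) : Set Mat)) := by
    rw [← hFn]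
    exact Submodule.finrank_mono h1
  have h4 := hmax h2 h3
  have h5 : Subalgebra.toSubmodule (Algebra.adjoin ℝ (F : Set Mat))
      = Subalgebra.toSubmodule (Algebra.adjoin ℝ ((insert s F : Finset Mat) : Set Mat)) := by
    refine Submodule.eq_of_le_of_finrank_le h1 ?_
    have : rk (Algebra.adjoin ℝ ((insert s F : Finset Mat) : Set Mat)) ≤ rk (Algebra.adjoin ℝ (F : Set Mat)) := by
      rw [hFn]; exact h4
    exact this
  have h6 : s ∈ Subalgebra.toSubmodule (Algebra.adjoin ℝ ((insert s F : Finset Mat) : Set Mat)) :=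
    Algebra.subset_adjoin (by simp)
  rw [← h5] at h6
  exact h6

end C37.PR
end

section

/-!
MP_c37615_al (S02984), part R, file AlgB. See /team-store/MP_c37615_PAPER.md, section 2.
-/

set_option autoImplicit false

open Filter Topology

namespace C37.PR

/-- A decreasing family of subalgebras, indexed by positive reals, is constant near 0. -/
theorem stabilise (Aa : ℝ → Subalgebra ℝ Mat) (hmono : ∀ e e', 0 < e → e ≤ e' → Aa e ≤ Aa e') (η : ℝ) (hη : 0 < η) :
    ∃ e0 : ℝ, 0 < e0 ∧ e0 ≤ η ∧ ∀ e, 0 < e → e ≤ e0 → Aa e = Aa e0 := by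
  classical
  let P : ℕ → Prop := fun n => ∃ e : ℝ, 0 < e ∧ e ≤ η ∧ Module.finrank ℝ (Subalgebra.toSubmodule (Aa e)) = n
  have hP0 : ∃ n, P n := ⟨_, η, hη, le_rfl, rfl⟩
  obtain ⟨e0, he0, he0', hn⟩ := Nat.find_spec hP0
  refine ⟨e0, he0, he0', ?_⟩
  intro e he hee
  have h1 : Nat.find hP0 ≤ Module.finrank ℝ (Subalgebra.toSubmodule (Aa e)) :=
    Nat.find_min' hP0 ⟨e, he, hee.trans he0', rfl⟩
  rw [← hn] at h1
  have h2 : Subalgebra.toSubmodule (Aa e) = Subalgebra.toSubmodule (Aa e0) :=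
    Submodule.eq_of_le_of_finrank_le (hmono e e0 he hee) h1
  exact Subalgebra.toSubmodule_injective h2

end C37.PR
end

section

/-!
MP_c37615_al (S02984), part R, file InjA. See /team-store/MP_c37615_PAPER.md, section 2.
-/

set_option autoImplicit false

open Filter Topology

namespace C37.PR

/-- The translation vectors are invariant under the linear parts: if `τ ∈ Γ`, `lin τ = 1`, `τ 0 = v`, then
`γ * τ * γ⁻¹ ∈ Γ` has linear part 1 and maps `0` to `γ (τ (γ⁻¹ 0)) = γ (γ⁻¹ 0 + v) = lin γ v` (use `aff_apply`). -/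
theorem TV_inv (Γ : Subgroup (V ≃ᵃ[ℝ] V)) (γ : V ≃ᵃ[ℝ] V) (hγ : γ ∈ Γ) (v : V) (hv : v ∈ TV Γ) :
    (lin γ).mulVec v ∈ TV Γ := by
  obtain ⟨τ, hτ, h1, h0⟩ := hv
  refine ⟨γ * τ * γ⁻¹, Γ.mul_mem (Γ.mul_mem hγ hτ) (Γ.inv_mem hγ), ?_, ?_⟩
  · rw [lin_mul, lin_mul, h1, mul_one, lin_mul_inv]
  · have e : (γ * γ⁻¹) 0 = (0 : V) := by
      rw [mul_inv_cancel]
      rfl
    rw [aff_mul_zero] at e
    rw [aff_mul_zero, aff_mul_zero, lin_mul, h1, mul_one, h0]
    calc (lin γ).mulVec (γ⁻¹ 0) + ((lin γ).mulVec v + γ 0)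
        = (lin γ).mulVec v + ((lin γ).mulVec (γ⁻¹ 0) + γ 0) := by abel
      _ = (lin γ).mulVec v := by rw [e, add_zero]

namespace InjAAux

theorem zero_mem (Γ : Subgroup (V ≃ᵃ[ℝ] V)) : (0 : V) ∈ TV Γ := ⟨1, Γ.one_mem, lin_one, rfl⟩

theorem add_mem (Γ : Subgroup (V ≃ᵃ[ℝ] V)) {v w : V} (hv : v ∈ TV Γ) (hw : w ∈ TV Γ) :
    v + w ∈ TV Γ := by
  obtain ⟨τ, hτ, h1, h0⟩ := hv
  obtain ⟨σ, hσ, k1, k0⟩ := hw
  refine ⟨τ * σ, Γ.mul_mem hτ hσ, ?_, ?_⟩
  · rw [lin_mul, h1, k1, mul_one]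
  · rw [aff_mul_zero, h1, h0, k0, Matrix.one_mulVec, add_comm]

theorem neg_mem (Γ : Subgroup (V ≃ᵃ[ℝ] V)) {v : V} (hv : v ∈ TV Γ) : -v ∈ TV Γ := by
  obtain ⟨τ, hτ, h1, h0⟩ := hv
  refine ⟨τ⁻¹, Γ.inv_mem hτ, ?_, ?_⟩
  · have := lin_mul_inv τ
    rw [h1, one_mul] at this
    exact this
  · have e : (τ * τ⁻¹) 0 = (0 : V) := by
      rw [mul_inv_cancel]
      rfl
    rw [aff_mul_zero, h1, h0, Matrix.one_mulVec] at e
    exact eq_neg_of_add_eq_zero_left e

/-- the translation vectors as an additive subgroup -/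
def TG (Γ : Subgroup (V ≃ᵃ[ℝ] V)) : AddSubgroup V where
  carrier := TV Γ
  zero_mem' := zero_mem Γ
  add_mem' := add_mem Γ
  neg_mem' := neg_mem Γ

end InjAAux

/-- TV is closed under addition, negation and contains 0, hence under integer combinations:
for `b : ι → V` with `b i ∈ TV Γ` and integers `n i`, `∑ n i • b i ∈ TV Γ`. (First show that TV Γ is the carrier of an
`AddSubgroup V`: products and inverses of translations, `aff_mul_zero`, `lin_mul`; then `sum_mem`, `zsmul_mem`.) -/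
theorem TV_int (Γ : Subgroup (V ≃ᵃ[ℝ] V)) (ι : Type) (s : Finset ι) (b : ι → V) (hb : ∀ i, b i ∈ TV Γ) (n : ι → ℤ) :
    ∑ i ∈ s, n i • b i ∈ TV Γ := by
  have : ∑ i ∈ s, n i • b i ∈ InjAAux.TG Γ :=
    sum_mem fun i _ => zsmul_mem (show b i ∈ InjAAux.TG Γ from hb i) (n i)
  exact this

end C37.PR
end

section

/-!
MP_c37615_al (S02984), part R, file InjB. See /team-store/MP_c37615_PAPER.md, section 2.
-/

set_option autoImplicit false

open Filter Topology

namespace C37.PR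

/-- If the translation vectors span V then the set of linear parts is finite. Proof: TV Γ contains a basis `b` of V
(`Module.Basis.ofSpan`/`exists_linearIndependent`; a finite family indexed by a Fintype or Fin 7, `b i ∈ TV Γ`).
Let `K = {v | all coordinates of v in [0,1]} ∪ {0}` : compact (image of the compact cube under the continuous
map `c ↦ ∑ c i • b i`, union a point). For `γ ∈ Γ` let `n i = ⌊i-th coordinate of γ 0⌋`; the translation `τ` by
`- ∑ n i • b i` lies in Γ (`TV_int`), `(τ * γ) 0 ∈ K` and `0 ∈ K`, so `τ * γ` lies in the finite set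
`{γ ∈ Γ | γ '' K ∩ K nonempty}` (`h.proper K`), and `lin γ = lin (τ * γ)`. So `lin '' Γ` is contained in the image of a finite set. -/
theorem finite_lin_of_span (Γ : Subgroup (V ≃ᵃ[ℝ] V)) (h : Cryst Γ) (hs : Submodule.span ℝ (TV Γ) = ⊤) :
    (lin '' (Γ : Set (V ≃ᵃ[ℝ] V))).Finite := by
  classical
  obtain ⟨s, hsub, hspan, hli⟩ := exists_linearIndependent ℝ (TV Γ)
  rw [hs] at hspan
  have : Finite s := hli.finite
  have : Fintype s := Fintype.ofFinite s
  let bb : Module.Basis s ℝ V := Module.Basis.mk hli (by rw [Subtype.range_coe, hspan])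
  have hbb : ∀ i : s, bb i = (i : V) := fun i => Module.Basis.mk_apply hli _ i
  let K : Set V := (fun c : s → ℝ => ∑ i, c i • bb i) '' (Set.Icc 0 1)
  have hK : IsCompact K := by
    refine isCompact_Icc.image ?_
    fun_prop
  have hK0 : (0 : V) ∈ K := ⟨0, ⟨le_refl _, fun i => by simp⟩, by simp⟩
  have hfin := h.proper K hK
  refine (hfin.image lin).subset ?_
  rintro M ⟨γ, hγ, rfl⟩
  obtain ⟨τ, hτ, h1, h0⟩ := TV_int Γ s Finset.univ (fun i => (bb i : V))
    (fun i => by rw [hbb]; exact hsub i.2) (fun i => -⌊bb.repr (γ 0) i⌋)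
  refine ⟨τ * γ, ⟨Γ.mul_mem hτ hγ, ?_⟩, ?_⟩
  · refine ⟨(τ * γ) 0, ⟨0, hK0, rfl⟩, ?_⟩
    refine ⟨fun i => Int.fract (bb.repr (γ 0) i), ⟨fun i => Int.fract_nonneg _,
      fun i => (Int.fract_lt_one _).le⟩, ?_⟩
    change ∑ i, Int.fract (bb.repr (γ 0) i) • bb i = (τ * γ) 0
    have e := bb.sum_repr (γ 0)
    rw [aff_mul_zero, h1, h0, Matrix.one_mulVec]
    calc ∑ i, Int.fract (bb.repr (γ 0) i) • bb i
        = ∑ i, (bb.repr (γ 0) i • bb i + (-⌊bb.repr (γ 0) i⌋) • bb i) := by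
          refine Finset.sum_congr rfl fun i _ => ?_
          rw [neg_smul, ← Int.cast_smul_eq_zsmul ℝ, ← sub_eq_add_neg, ← sub_smul]
          congr 1
      _ = γ 0 + ∑ i, (-⌊bb.repr (γ 0) i⌋) • bb i := by rw [Finset.sum_add_distrib, e]
  · rw [lin_mul, h1, one_mul]

end C37.PR
end
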