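import Mathlib
import Pool.Agent.Lib.MP_c37615_al.C.Base
import Pool.Agent.Lib.MP_c37615_al.C.F01
import Pool.Agent.Lib.MP_c37615_al.Mg.G018

section

set_option autoImplicit false

open Filter Topology
open scoped ContDiff

namespace C37.PC

/-- The inverse map. Proof: `h.mul`, `h.one`, `inv_mul_cancel`. -/
theorem act_inv_act {Γ : Type} [Group Γ] {m : ℕ} {a : Γ → (Fin m → ℝ) → (Fin m → ℝ)}
    (h : GoodAction Γ m a) (g : Γ) (x : Fin m → ℝ) : a g⁻¹ (a g x) = x ∧ a g (a g⁻¹ x) = x := by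
  constructor
  · rw [← h.mul, inv_mul_cancel, h.one]
  · rw [← h.mul, mul_inv_cancel, h.one]

/-- `x ∈ sat a C` iff some translate of `x` lies in `C`. -/
theorem mem_sat {Γ : Type} [Group Γ] {m : ℕ} {a : Γ → (Fin m → ℝ) → (Fin m → ℝ)}
    (h : GoodAction Γ m a) (C : Set (Fin m → ℝ)) (x : Fin m → ℝ) :
    x ∈ sat a C ↔ ∃ g, a g x ∈ C := by
  constructor
  · rintro ⟨g, y, hy, rfl⟩
    exact ⟨g⁻¹, by rw [(act_inv_act h g y).1]; exact hy⟩
  · rintro ⟨g, hg⟩
    exact ⟨g⁻¹, a g x, hg, (act_inv_act h g x).1⟩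

/-- The saturation is invariant. -/
theorem sat_inv {Γ : Type} [Group Γ] {m : ℕ} {a : Γ → (Fin m → ℝ) → (Fin m → ℝ)}
    (h : GoodAction Γ m a) (C : Set (Fin m → ℝ)) (g : Γ) (x : Fin m → ℝ) :
    a g x ∈ sat a C ↔ x ∈ sat a C := by
  rw [mem_sat h, mem_sat h]
  constructor
  · rintro ⟨k, hk⟩
    exact ⟨k * g, by rw [h.mul]; exact hk⟩
  · rintro ⟨k, hk⟩
    exact ⟨k * g⁻¹, by rw [h.mul, (act_inv_act h g x).1]; exact hk⟩

/-- Monotonicity. -/
theorem sat_mono {Γ : Type} [Group Γ] {m : ℕ} {a : Γ → (Fin m → ℝ) → (Fin m → ℝ)}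
    {C C' : Set (Fin m → ℝ)} (hC : C ⊆ C') : sat a C ⊆ sat a C' := by
  rintro x ⟨g, y, hy, rfl⟩
  exact ⟨g, y, hC hy, rfl⟩

/-- The saturation of a compact set is closed.
Proof. Let `x ∉ sat a C`. `K := C ∪ closedBall x 1` is compact (`ProperSpace (Fin m → ℝ)`), so by `h.proper` the set `F` of all
`g` with `a g '' K ∩ K` nonempty is finite. If `y ∈ closedBall x 1` and `y ∈ a g '' C` then `g ∈ F`. Hence
`closedBall x 1 ∩ sat a C ⊆ ⋃ g ∈ F, a g '' C`, a finite union of compact (so closed) sets not containing `x`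
(`IsCompact.image`, continuity of `a g` from `(h.smooth g).continuous`); its complement is a neighbourhood of `x`. -/
theorem sat_closed {Γ : Type} [Group Γ] {m : ℕ} {a : Γ → (Fin m → ℝ) → (Fin m → ℝ)}
    (h : GoodAction Γ m a) {C : Set (Fin m → ℝ)} (hC : IsCompact C) : IsClosed (sat a C) := by
  rw [← isOpen_compl_iff, Metric.isOpen_iff]
  intro x hx
  have hK : IsCompact (C ∪ Metric.closedBall x 1) := hC.union (isCompact_closedBall x 1)
  have hF := h.proper _ hK
  have hclosed : IsClosed (⋃ g ∈ {g : Γ | (a g '' (C ∪ Metric.closedBall x 1) ∩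
      (C ∪ Metric.closedBall x 1)).Nonempty}, a g '' C) :=
    hF.isClosed_biUnion fun g _ => (hC.image (h.smooth g).continuous).isClosed
  have hxn : x ∈ (⋃ g ∈ {g : Γ | (a g '' (C ∪ Metric.closedBall x 1) ∩
      (C ∪ Metric.closedBall x 1)).Nonempty}, a g '' C)ᶜ := by
    intro hmem
    simp only [Set.mem_iUnion] at hmem
    obtain ⟨g, _, hg⟩ := hmem
    exact hx ⟨g, hg⟩
  obtain ⟨ε, hε, hball⟩ := Metric.isOpen_iff.1 hclosed.isOpen_compl x hxn
  refine ⟨min ε 1, lt_min hε one_pos, ?_⟩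
  intro y hy hys
  have hy1 : y ∈ Metric.ball x ε := Metric.ball_subset_ball (min_le_left _ _) hy
  have hy2 : y ∈ Metric.closedBall x 1 :=
    Metric.ball_subset_closedBall (Metric.ball_subset_ball (min_le_right _ _) hy)
  obtain ⟨g, z, hz, hzy⟩ := hys
  apply hball hy1
  simp only [Set.mem_iUnion]
  refine ⟨g, ⟨y, ⟨z, Or.inl hz, hzy⟩, Or.inr hy2⟩, ⟨z, hz, hzy⟩⟩

end C37.PC
end

section

set_option autoImplicit false

open Filter Topology
open scoped ContDiff

namespace C37.PC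

/-- `act` is an action. Proof: `x = p (s x)`, so `act 1 x = p (1 * s x) = x` and `act (g h) x = p (g h s x) = act g (p (h s x)) = act g (act h x)`. -/
theorem model_one {act : GG → X → X} {p : GG → X} {s : X → GG} (hM : Model act p s) (x : X) : act 1 x = x := by
  have h := hM.p_mul 1 (s x)
  rw [one_mul, hM.p_s] at h
  exact h.symm

theorem model_mul {act : GG → X → X} {p : GG → X} {s : X → GG} (hM : Model act p s) (g h : GG) (x : X) :
    act (g * h) x = act g (act h x) := by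
  have h1 := hM.p_mul (g * h) (s x)
  have h2 := hM.p_mul g (h * s x)
  have h3 := hM.p_mul h (s x)
  rw [hM.p_s] at h1 h3
  rw [← h1, mul_assoc, h2, h3]

/-- `Kset` is closed under inverses: `kᵀ k = 1` implies `(k⁻¹)ᵀ k⁻¹ = 1`. -/
theorem Kset_inv (k : GG) (hk : k ∈ Kset) : k⁻¹ ∈ Kset := by
  have hk1 : (mat k).transpose * mat k = 1 := hk
  have hk2 : mat k * (mat k).transpose = 1 := mul_eq_one_comm.mp hk1
  have hinv : mat k⁻¹ = (mat k).transpose := by
    calc mat k⁻¹ = (mat k).transpose * mat k * mat k⁻¹ := by rw [hk1, one_mul]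
      _ = (mat k).transpose * (mat k * mat k⁻¹) := by rw [mul_assoc]
      _ = (mat k).transpose := by rw [mat_mul_inv, mul_one]
  show (mat k⁻¹).transpose * mat k⁻¹ = 1
  rw [hinv, Matrix.transpose_transpose, hk2]

/-- Preimages of compact sets under `p` are compact.
Proof. `p ⁻¹' C` is the image of the compact set `C ×ˢ Kset` under the continuous map `(x, k) ↦ s x * k`: if `p g ∈ C` then
`p (s (p g)) = p g`, so `k = (s (p g))⁻¹ * g ∈ Kset` (`p_eq`) and `g = s (p g) * k`; conversely `p (s x * k) = p (s x) = x ∈ C`, since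
`(s x)⁻¹ * (s x * k) = k ∈ Kset`. -/
theorem p_preimage_compact {act : GG → X → X} {p : GG → X} {s : X → GG} (hM : Model act p s)
    {C : Set X} (hC : IsCompact C) : IsCompact (p ⁻¹' C) := by
  have h : p ⁻¹' C = (fun z : X × GG => s z.1 * z.2) '' (C ×ˢ Kset) := by
    ext g
    constructor
    · intro hg
      refine ⟨(p g, (s (p g))⁻¹ * g), ⟨hg, ?_⟩, ?_⟩
      · exact (hM.p_eq _ _).mp (hM.p_s (p g))
      · simp
    · rintro ⟨⟨x, k⟩, ⟨hx, hk⟩, rfl⟩
      show p (s x * k) ∈ C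
      have : p (s x) = p (s x * k) := by
        rw [hM.p_eq]
        simpa using hk
      rw [← this, hM.p_s]
      exact hx
  rw [h]
  refine (hC.prod hM.K_comp).image ?_
  exact (hM.s_cont.comp continuous_fst).mul continuous_snd

/-- If `act g b = act g' c` then `g = g' * (s c * k * (s b)⁻¹)` with `k ∈ Kset`.
Proof. `p (g * s b) = act g b = act g' c = p (g' * s c)`, so `(g' * s c)⁻¹ * (g * s b) ∈ Kset` (`p_eq`, symmetric form). -/
theorem act_eq_act {act : GG → X → X} {p : GG → X} {s : X → GG} (hM : Model act p s) (g g' : GG) (b c : X)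
    (hbc : act g b = act g' c) : ∃ k ∈ Kset, g = g' * (s c * k * (s b)⁻¹) := by
  refine ⟨(g' * s c)⁻¹ * (g * s b), ?_, ?_⟩
  · rw [← hM.p_eq, hM.p_mul, hM.p_mul, hM.p_s, hM.p_s]
    exact hbc.symm
  · group

/-- The action of a discrete group through `L` on `R^8` is good.
Proof. `one`, `mul`: `map_one`, `map_mul`, `model_one`, `model_mul`. Proper: let `K` be compact; if `act (L γ) x = y` with `x, y ∈ K`
then `act (L γ) x = act 1 y`, so by `act_eq_act` `L γ = s y * k * (s x)⁻¹`, `k ∈ Kset`, lies in a compact subset of `GG` (image of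
`K × Kset × K`); apply `hL`. -/
theorem model_good {act : GG → X → X} {p : GG → X} {s : X → GG} (hM : Model act p s) {Γ : Type} [Group Γ]
    (L : Γ →* GG) (hL : Disc L) : GoodAction Γ 8 (fun γ x => act (L γ) x) where
  one := fun x => by rw [map_one]; exact model_one hM x
  mul := fun g h x => by
    show act (L (g * h)) x = act (L g) (act (L h) x)
    rw [map_mul]; exact model_mul hM _ _ x
  smooth := fun g => hM.smooth (L g)
  pos := fun g x => hM.pos (L g) x
  proper := by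
    intro K hK
    have hcomp : IsCompact ((fun z : X × GG × X => s z.1 * z.2.1 * (s z.2.2)⁻¹) '' (K ×ˢ (Kset ×ˢ K))) := by
      refine (hK.prod (hM.K_comp.prod hK)).image ?_
      exact ((hM.s_cont.comp continuous_fst).mul (continuous_fst.comp continuous_snd)).mul
        (hM.s_cont.comp (continuous_snd.comp continuous_snd)).inv
    refine (hL _ hcomp).subset ?_
    rintro γ ⟨y, ⟨x, hx, hxy⟩, hy⟩
    obtain ⟨k, hk, hg⟩ := act_eq_act hM (L γ) 1 x y (by rw [model_one hM]; exact hxy)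
    rw [one_mul] at hg
    exact ⟨(y, k, x), ⟨hy, hk, hx⟩, hg.symm⟩

end C37.PC
end

section

set_option autoImplicit false

open Filter Topology
open scoped ContDiff

namespace C37.PC

/-- Smooth invariant cutoff function.
Proof. Choose `R > 0` with `C ⊆ closedBall 0 R` and a smooth `β : (Fin m → ℝ) → ℝ`, `0 ≤ β ≤ 1`, `β = 1` on `closedBall 0 R`,
`β = 0` off `closedBall 0 (R+1) =: C'` (a `ContDiffBump` centred at `0` with `rIn = R`, `rOut = R + 1`; finite dimensional
spaces have the instance `HasContDiffBump`). Put `Ψ x = ∑ᶠ g, β (a g x)`. The family `g ↦ support (β ∘ a g)` is locally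
finite: for a point `x0`, `K = closedBall x0 1 ∪ C'` is compact and if `y ∈ closedBall x0 1`, `β (a g y) ≠ 0` then
`a g y ∈ a g '' K ∩ K`, so `g` is in the finite set of `h.proper K`. Hence `Ψ` is smooth (locally it is a finite sum; e.g.
`contMDiff_finsum` and `contMDiff_iff_contDiff`, or by hand with `finsum_eq_sum_of_support_subset` near `x0`).
`Ψ (a g x) = Ψ x` by the substitution `g' ↦ g' g` (`finsum_comp_equiv` / `Equiv.mulRight`), `Ψ ≥ 0`; if `x ∈ sat a C` then
`a g x ∈ C` for some `g` (`mem_sat`), so one term is `1` and `Ψ x ≥ 1`; if `x ∉ sat a C'` then all terms are `0`.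
`ρ := Real.smoothTransition ∘ Ψ` (smooth; `0` for argument `≤ 0`, `1` for argument `≥ 1`, values in `[0,1]`). -/
theorem exists_cutoff {Γ : Type} [Group Γ] {m : ℕ} {a : Γ → (Fin m → ℝ) → (Fin m → ℝ)}
    (h : GoodAction Γ m a) {C : Set (Fin m → ℝ)} (hC : IsCompact C) :
    ∃ (ρ : (Fin m → ℝ) → ℝ) (C' : Set (Fin m → ℝ)), ContDiff ℝ ∞ ρ ∧ (∀ g x, ρ (a g x) = ρ x) ∧
      (∀ x, 0 ≤ ρ x) ∧ (∀ x, ρ x ≤ 1) ∧ (∀ x ∈ sat a C, ρ x = 1) ∧ IsCompact C' ∧
      (∀ x, x ∉ sat a C' → ρ x = 0) := by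
  obtain ⟨R₀, hR₀⟩ := hC.isBounded.subset_closedBall (0 : Fin m → ℝ)
  let β : ContDiffBump (0 : Fin m → ℝ) :=
    ⟨max R₀ 1, max R₀ 1 + 1, lt_of_lt_of_le one_pos (le_max_right _ _), lt_add_one _⟩
  have hβ1 : ∀ x ∈ C, β x = 1 := fun x hx => β.one_of_mem_closedBall
    (Metric.closedBall_subset_closedBall (le_max_left _ _) (hR₀ hx))
  let C' : Set (Fin m → ℝ) := Metric.closedBall 0 (max R₀ 1 + 1)
  have hC' : IsCompact C' := isCompact_closedBall _ _
  have hβ0 : ∀ x, x ∉ C' → β x = 0 := by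
    intro x hx
    refine β.zero_of_le_dist (le_of_lt ?_)
    simpa [C', Metric.mem_closedBall] using hx
  have hlf : LocallyFinite fun g : Γ => Function.support fun x => β (a g x) := by
    intro x₀
    refine ⟨Metric.closedBall x₀ 1, Metric.closedBall_mem_nhds _ one_pos, ?_⟩
    have hK : IsCompact (Metric.closedBall x₀ 1 ∪ C') := (isCompact_closedBall x₀ 1).union hC'
    refine (h.proper _ hK).subset ?_
    rintro g ⟨y, hy1, hy2⟩
    refine ⟨a g y, ⟨y, Or.inl hy2, rfl⟩, Or.inr ?_⟩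
    by_contra hcon
    exact hy1 (hβ0 _ hcon)
  let Ψ : (Fin m → ℝ) → ℝ := fun x => ∑ᶠ g, β (a g x)
  have hΨs : ContDiff ℝ ∞ Ψ := by
    rw [← contMDiff_iff_contDiff]
    exact contMDiff_finsum (fun g => contMDiff_iff_contDiff.mpr (β.contDiff.comp (h.smooth g))) hlf
  have hΨ0 : ∀ x, 0 ≤ Ψ x := fun x => finsum_nonneg fun g => β.nonneg
  have hΨinv : ∀ g x, Ψ (a g x) = Ψ x := by
    intro g x
    have h1 : ∀ g', β (a g' (a g x)) = β (a (g' * g) x) := fun g' => by rw [h.mul]
    show ∑ᶠ g', β (a g' (a g x)) = ∑ᶠ g', β (a g' x)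
    rw [finsum_congr h1]
    exact finsum_comp (g := fun g' => β (a g' x)) (fun g' => g' * g) (Group.mulRight_bijective g)
  have hΨ1 : ∀ x ∈ sat a C, 1 ≤ Ψ x := by
    intro x hx
    obtain ⟨g, hg⟩ := (mem_sat h C x).mp hx
    have h2 : β (a g x) ≤ Ψ x :=
      single_le_finsum (f := fun g => β (a g x)) g (hlf.point_finite x) fun j => β.nonneg
    rwa [hβ1 _ hg] at h2
  have hΨz : ∀ x, x ∉ sat a C' → Ψ x = 0 := by
    intro x hx
    have h1 : ∀ g, β (a g x) = 0 := fun g => hβ0 _ fun hcon => hx ((mem_sat h C' x).mpr ⟨g, hcon⟩)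
    show ∑ᶠ g, β (a g x) = 0
    rw [finsum_congr h1, finsum_zero]
  refine ⟨fun x => Real.smoothTransition (Ψ x), C', Real.smoothTransition.contDiff.comp hΨs,
    fun g x => congrArg Real.smoothTransition (hΨinv g x), fun x => Real.smoothTransition.nonneg _,
    fun x => Real.smoothTransition.le_one _,
    fun x hx => Real.smoothTransition.one_of_one_le (hΨ1 x hx), hC',
    fun x hx => (congrArg Real.smoothTransition (hΨz x hx)).trans Real.smoothTransition.zero⟩

end C37.PC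
end

section

set_option autoImplicit false

open Filter Topology
open scoped ContDiff

namespace C37.PC

/-- Translates of components of an invariant open set are components.
Proof. `a g` is continuous, so `a g '' connectedComponentIn U x` is preconnected, contained in `U` and contains `a g x`;
use `IsPreconnected.subset_connectedComponentIn`. (If `x ∉ U` then the component is empty: `connectedComponentIn_eq_empty`.) -/
theorem comp_map {Γ : Type} [Group Γ] {m : ℕ} {a : Γ → (Fin m → ℝ) → (Fin m → ℝ)}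
    (h : GoodAction Γ m a) {U : Set (Fin m → ℝ)} (hU : ∀ g x, x ∈ U → a g x ∈ U) (g : Γ)
    {x y : Fin m → ℝ} (hy : y ∈ connectedComponentIn U x) : a g y ∈ connectedComponentIn U (a g x) := by
  have hyU : y ∈ U := connectedComponentIn_subset _ _ hy
  have hxU : x ∈ U := by
    by_contra hx
    rw [connectedComponentIn_eq_empty hx] at hy
    exact hy
  have hpre : IsPreconnected (a g '' connectedComponentIn U x) :=
    isPreconnected_connectedComponentIn.image _ (h.smooth g).continuous.continuousOn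
  have hsub : a g '' connectedComponentIn U x ⊆ U := by
    rintro _ ⟨z, hz, rfl⟩
    exact hU g z (connectedComponentIn_subset _ _ hz)
  exact hpre.subset_connectedComponentIn ⟨x, mem_connectedComponentIn hxU, rfl⟩ hsub ⟨y, hy, rfl⟩

/-- Equality of components: `connectedComponentIn_eq`, `mem_connectedComponentIn`. -/
theorem comp_symm {m : ℕ} {U : Set (Fin m → ℝ)} {x y : Fin m → ℝ} (hy : y ∈ connectedComponentIn U x) :
    x ∈ connectedComponentIn U y := by
  have hxU : x ∈ U := by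
    by_contra hx
    rw [connectedComponentIn_eq_empty hx] at hy
    exact hy
  rw [← connectedComponentIn_eq hy]
  exact mem_connectedComponentIn hxU

theorem comp_trans {m : ℕ} {U : Set (Fin m → ℝ)} {x y z : Fin m → ℝ} (hy : y ∈ connectedComponentIn U x)
    (hz : z ∈ connectedComponentIn U y) : z ∈ connectedComponentIn U x := by
  rw [connectedComponentIn_eq hy]
  exact hz

/-- A function which is locally constant on `U` is constant on the components of `U`.
Proof: `{z ∈ Ω | W z = W x}` is open and closed in the preconnected set `Ω = connectedComponentIn U x ⊆ U`; e.g.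
`IsPreconnected.induction₂` or `IsPreconnected.constant`-type lemmas (`IsPreconnected.eqOn_const_of_mapsTo`, ...). -/
theorem comp_const {m : ℕ} {U : Set (Fin m → ℝ)} {W : (Fin m → ℝ) → ℝ}
    (hloc : ∀ x ∈ U, ∀ᶠ y in 𝓝 x, W y = W x) {x y : Fin m → ℝ} (hy : y ∈ connectedComponentIn U x) :
    W y = W x := by
  have hxU : x ∈ U := by
    by_contra hx
    rw [connectedComponentIn_eq_empty hx] at hy
    exact hy
  have hpre : IsPreconnected (connectedComponentIn U x) := isPreconnected_connectedComponentIn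
  refine hpre.induction₂ (fun u v => W v = W u) ?_ ?_ ?_ (mem_connectedComponentIn hxU) hy
  · intro u hu
    exact nhdsWithin_le_nhds (hloc u (connectedComponentIn_subset _ _ hu))
  · intro u v w _ _ _ h1 h2
    exact h2.trans h1
  · intro u v _ _ h1
    exact h1.symm

/-- The stabiliser of a component as a subgroup.
Proof. Let `Ω = connectedComponentIn U x0`, `D = {g | a g x0 ∈ Ω}`. By `comp_map`, `g ∈ D`, `x ∈ Ω` imply `a g x ∈
connectedComponentIn U (a g x0)` and `a g x0 ∈ Ω`, so `a g x ∈ Ω` by `comp_trans`. Conversely if `x ∈ Ω` and `a g x ∈ Ω` then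
`a g x0 ∈ connectedComponentIn U (a g x)` (from `x0 ∈ connectedComponentIn U x`), so `a g x0 ∈ Ω`. Closure under
multiplication and inverses follows (`h.mul`, `h.one`, `act_inv_act`). -/
theorem exists_stab {Γ : Type} [Group Γ] {m : ℕ} {a : Γ → (Fin m → ℝ) → (Fin m → ℝ)}
    (h : GoodAction Γ m a) {U : Set (Fin m → ℝ)} (hU : ∀ g x, x ∈ U → a g x ∈ U) (x0 : Fin m → ℝ)
    (hx0 : x0 ∈ U) : ∃ D : Subgroup Γ, ∀ g x, x ∈ connectedComponentIn U x0 →
      (g ∈ D ↔ a g x ∈ connectedComponentIn U x0) := by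
  have key : ∀ g, a g x0 ∈ connectedComponentIn U x0 → ∀ x, x ∈ connectedComponentIn U x0 →
      a g x ∈ connectedComponentIn U x0 := by
    intro g hg x hx
    exact comp_trans hg (comp_map h hU g hx)
  have key2 : ∀ g x, x ∈ connectedComponentIn U x0 → a g x ∈ connectedComponentIn U x0 →
      a g x0 ∈ connectedComponentIn U x0 := by
    intro g x hx hgx
    exact comp_trans hgx (comp_map h hU g (comp_symm hx))
  refine ⟨{ carrier := {g | a g x0 ∈ connectedComponentIn U x0}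
            mul_mem' := ?_
            one_mem' := ?_
            inv_mem' := ?_ }, ?_⟩
  · intro g g' hg hg'
    simp only [Set.mem_setOf_eq] at hg hg' ⊢
    rw [h.mul]
    exact key g hg _ hg'
  · simp only [Set.mem_setOf_eq]
    rw [h.one]
    exact mem_connectedComponentIn hx0
  · intro g hg
    simp only [Set.mem_setOf_eq] at hg ⊢
    refine key2 g⁻¹ (a g x0) hg ?_
    rw [(act_inv_act h g x0).1]
    exact mem_connectedComponentIn hx0
  · intro g x hx
    constructor
    · intro hg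
      exact key g hg x hx
    · intro hg
      exact key2 g x hx hg

end C37.PC
end

section

set_option autoImplicit false

open Filter Topology
open scoped ContDiff

namespace C37.PC

/-- Every component of `{ρ < 1/2}` which contains a point with `ρ ≤ 1/3` contains a point with `ρ = 1/3`
(`ρ` continuous on the connected space `R^m` and `ρ = 1` somewhere).
Proof. Let `U = {ρ < 1/2}` (open), `Ω = connectedComponentIn U x`, open because `R^m` is locally connected
(`IsOpen.connectedComponentIn`), preconnected, contains `x`. Assume `ρ ≠ 1/3` on `Ω`. As `Ω` is preconnected and `ρ x ≤ 1/3`,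
so `ρ x < 1/3`, we get `ρ < 1/3` on `Ω` (`IsPreconnected.intermediate_value`). Then `Ω` is closed: if `z ∈ closure Ω` then
`ρ z ≤ 1/3 < 1/2`, so `z ∈ U`, and `insert z Ω` lies between `Ω` and `closure Ω`, so it is preconnected
(`IsPreconnected.subset_closure`), contained in `U`, contains `x`, hence is contained in `Ω`. So `Ω` is clopen and nonempty in the
connected space `R^m`: `Ω = univ` (`IsClopen.eq_univ`), contradicting `ρ x1 = 1`, as `ρ < 1/2` on `Ω`. -/
theorem comp_meets {m : ℕ} {ρ : (Fin m → ℝ) → ℝ} (hρ : Continuous ρ) (h1 : ∃ x, ρ x = 1)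
    (x : Fin m → ℝ) (hx : ρ x ≤ 1/3) : ∃ y ∈ connectedComponentIn {z | ρ z < 1/2} x, ρ y = 1/3 := by
  by_contra hcon
  push Not at hcon
  set U : Set (Fin m → ℝ) := {z | ρ z < 1/2} with hU
  have hUo : IsOpen U := isOpen_lt hρ continuous_const
  have hxU : x ∈ U := by
    show ρ x < 1/2
    linarith
  set Ω := connectedComponentIn U x with hΩ
  have hΩo : IsOpen Ω := hUo.connectedComponentIn
  have hxΩ : x ∈ Ω := mem_connectedComponentIn hxU
  have hpre : IsPreconnected Ω := isPreconnected_connectedComponentIn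
  have hΩU : Ω ⊆ U := connectedComponentIn_subset U x
  have hlt : ∀ y ∈ Ω, ρ y < 1/3 := by
    intro y hy
    by_contra hge
    push Not at hge
    have h2 := hpre.intermediate_value hxΩ hy hρ.continuousOn
    obtain ⟨z, hz, hz2⟩ := h2 ⟨hx, hge⟩
    exact hcon z hz hz2
  have hclosed : IsClosed Ω := by
    rw [← closure_eq_iff_isClosed]
    refine subset_antisymm (fun z hz => ?_) subset_closure
    have hz1 : ρ z ≤ 1/3 := by
      have h3 : closure Ω ⊆ {w | ρ w ≤ 1/3} := by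
        apply closure_minimal (fun w hw => (hlt w hw).le)
        exact isClosed_le hρ continuous_const
      exact h3 hz
    have h4 : IsPreconnected (insert z Ω) := by
      apply hpre.subset_closure (Set.subset_insert z Ω)
      intro w hw
      rcases Set.mem_insert_iff.1 hw with rfl | hw
      · exact hz
      · exact subset_closure hw
    have h5 : insert z Ω ⊆ U := by
      intro w hw
      rcases Set.mem_insert_iff.1 hw with rfl | hw
      · show ρ w < 1/2
        linarith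
      · exact hΩU hw
    exact (h4.subset_connectedComponentIn (Set.mem_insert_of_mem z hxΩ) h5) (Set.mem_insert z Ω)
  have huniv : Ω = Set.univ := IsClopen.eq_univ ⟨hclosed, hΩo⟩ ⟨x, hxΩ⟩
  obtain ⟨x1, hx1⟩ := h1
  have h6 : x1 ∈ Ω := by
    rw [huniv]
    trivial
  have h7 := hlt x1 h6
  rw [hx1] at h7
  norm_num at h7

/-- Finitely many orbits of components.
Proof. Let `U = {ρ < 1/2}`, `Q = C' ∩ {z | ρ z = 1/3}`: compact. The open sets `connectedComponentIn U z`, `z ∈ Q`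
(`z ∈ U`, `mem_connectedComponentIn`), cover `Q`; let `F ⊆ Q` be finite with `Q ⊆ ⋃ f ∈ F, connectedComponentIn U f`
(`IsCompact.elim_nhds_subcover`). Let `ρ x ≤ 1/3`. By `comp_meets` there is `y ∈ connectedComponentIn U x` with `ρ y = 1/3`; `ρ y ≠ 0`, so
`y ∈ sat a C'`, `y = a g z` with `z ∈ C'`, `ρ z = ρ y = 1/3`, `z ∈ Q`. Choose `f ∈ F` with `z ∈ connectedComponentIn U f`. By
`comp_map`, `y = a g z ∈ connectedComponentIn U (a g f)`, so `a g f ∈ connectedComponentIn U y` and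
`a g f ∈ connectedComponentIn U x` (`comp_symm`, `comp_trans`). -/
theorem comp_finite {Γ : Type} [Group Γ] {m : ℕ} {a : Γ → (Fin m → ℝ) → (Fin m → ℝ)}
    (h : GoodAction Γ m a) {ρ : (Fin m → ℝ) → ℝ} (hρ : Continuous ρ) (hinv : ∀ g x, ρ (a g x) = ρ x)
    {C' : Set (Fin m → ℝ)} (hC' : IsCompact C') (h0 : ∀ x, x ∉ sat a C' → ρ x = 0) (h1 : ∃ x, ρ x = 1) :
    ∃ F : Finset (Fin m → ℝ), (∀ f ∈ F, ρ f < 1/2) ∧ ∀ x, ρ x ≤ 1/3 →
      ∃ f ∈ F, ∃ g, a g f ∈ connectedComponentIn {z | ρ z < 1/2} x := by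
  set U : Set (Fin m → ℝ) := {z | ρ z < 1/2} with hU
  have hUo : IsOpen U := isOpen_lt hρ continuous_const
  have hUinv : ∀ g x, x ∈ U → a g x ∈ U := by
    intro g x hx
    show ρ (a g x) < 1/2
    rw [hinv]
    exact hx
  set Q : Set (Fin m → ℝ) := C' ∩ {z | ρ z = 1/3} with hQ
  have hQc : IsCompact Q := hC'.inter_right (isClosed_eq hρ continuous_const)
  have hQU : ∀ z ∈ Q, z ∈ U := by
    intro z hz
    have h2 : ρ z = 1/3 := hz.2
    show ρ z < 1/2
    rw [h2]
    norm_num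
  obtain ⟨F, hFQ, hFcov⟩ := hQc.elim_nhds_subcover (fun z => connectedComponentIn U z)
    (fun z hz => (hUo.connectedComponentIn).mem_nhds (mem_connectedComponentIn (hQU z hz)))
  refine ⟨F, fun f hf => hQU f (hFQ f hf), fun x hx => ?_⟩
  obtain ⟨y, hy, hy3⟩ := comp_meets hρ h1 x hx
  have hysat : y ∈ sat a C' := by
    by_contra hns
    have h3 := h0 y hns
    rw [hy3] at h3
    norm_num at h3
  obtain ⟨g, z, hz, hzy⟩ := hysat
  have hρz : ρ z = 1/3 := by
    rw [← hinv g z, hzy, hy3]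
  have hzQ : z ∈ Q := ⟨hz, hρz⟩
  obtain ⟨f, hfF, hzf⟩ := Set.mem_iUnion₂.1 (hFcov hzQ)
  refine ⟨f, hfF, g, ?_⟩
  have h4 : a g z ∈ connectedComponentIn U (a g f) := comp_map h hUinv g hzf
  rw [hzy] at h4
  exact comp_trans hy (comp_symm h4)

end C37.PC
end

section

set_option autoImplicit false

open Filter Topology
open scoped ContDiff

namespace C37.PC

/-- An invariant function which is locally constant off the saturation of a compact set takes finitely many
values off the saturation of a larger compact set.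
Proof. Apply `exists_cutoff` to the compact set `C ∪ {0}`: `ρ, C'`. `0 ∈ sat a (C ∪ {0})` (`a 1 0 = 0`), so `ρ 0 = 1`. Apply
`comp_finite`: `F`. Take `C0 = C'` and the finite set of values `W f`, `f ∈ F`. If `x ∉ sat a C'` then `ρ x = 0 ≤ 1/3`, so
`a g f ∈ connectedComponentIn U x`, `U = {ρ < 1/2}`, for some `f ∈ F`, `g`. On `U` the function `W` is locally constant
(`ρ = 1` on `sat a C`), so `W (a g f) = W x` (`comp_const`) and `W (a g f) = W f`. -/
theorem finite_values {Γ : Type} [Group Γ] {m : ℕ} {a : Γ → (Fin m → ℝ) → (Fin m → ℝ)}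
    (h : GoodAction Γ m a) {C : Set (Fin m → ℝ)} (hC : IsCompact C) {W : (Fin m → ℝ) → ℝ}
    (hinv : ∀ g x, W (a g x) = W x) (hloc : ∀ x, x ∉ sat a C → ∀ᶠ y in 𝓝 x, W y = W x) :
    ∃ C0 : Set (Fin m → ℝ), IsCompact C0 ∧ ∃ F : Finset ℝ, ∀ x, x ∉ sat a C0 → W x ∈ F := by
  obtain ⟨ρ, C', hρs, hρinv, _, _, hρC, hC', hρ0'⟩ :=
    exists_cutoff h (hC.union (isCompact_singleton (x := (0 : Fin m → ℝ))))
  have h0mem : (0 : Fin m → ℝ) ∈ sat a (C ∪ {0}) :=
    (mem_sat h _ 0).mpr ⟨1, by rw [h.one]; exact Or.inr rfl⟩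
  obtain ⟨F, _, hF2⟩ := comp_finite h hρs.continuous hρinv hC' hρ0' ⟨0, hρC 0 h0mem⟩
  classical
  refine ⟨C', hC', F.image W, fun x hx => ?_⟩
  have hx0 : ρ x ≤ 1 / 3 := by rw [hρ0' x hx]; norm_num
  obtain ⟨f, hfF, g, hfg⟩ := hF2 x hx0
  have hU : ∀ z ∈ {z | ρ z < 1 / 2}, ∀ᶠ y in 𝓝 z, W y = W z := by
    intro z hz
    refine hloc z fun hzC => ?_
    have h1 := hρC z (sat_mono Set.subset_union_left hzC)
    have h2 : ρ z < 1 / 2 := hz
    rw [h1] at h2
    norm_num at h2
  have h3 := comp_const hU hfg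
  rw [hinv] at h3
  rw [← h3]
  exact Finset.mem_image_of_mem W hfF

/-- Existence of a deep component on which `W ≠ c`.
Proof. Let `U = {ρ < 1/2}` and `F` from `comp_finite`. Suppose the claim fails; then for each `f ∈ F` with `W f ≠ c`
(note `ρ f < 1/2`) there is a compact `C_f` with `connectedComponentIn U f ⊆ sat a C_f`. Let `C''` be the union of `C'` and of these finitely many
`C_f` (compact). By `hne` there is `x` with `W x ≠ c`, `x ∉ sat a C''`. Then `x ∉ sat a C'`, so `ρ x = 0 ≤ 1/3` and there are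
`f ∈ F`, `g` with `a g f ∈ connectedComponentIn U x`; `W` is locally constant on `U` (`ρ = 1` on `sat a C`), so
`W f = W (a g f) = W x ≠ c` (`comp_const`). By `comp_symm`, `x ∈ connectedComponentIn U (a g f)`, so
`a g⁻¹ x ∈ connectedComponentIn U f` (`comp_map`, `act_inv_act`) `⊆ sat a C_f`, and `x ∈ sat a C_f ⊆ sat a C''` (`sat_inv`, `sat_mono`): contradiction. -/
theorem exists_deep {Γ : Type} [Group Γ] {m : ℕ} {a : Γ → (Fin m → ℝ) → (Fin m → ℝ)}
    (h : GoodAction Γ m a) {ρ : (Fin m → ℝ) → ℝ} (hρ : Continuous ρ) (hinv : ∀ g x, ρ (a g x) = ρ x)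
    {C C' : Set (Fin m → ℝ)} (hC' : IsCompact C') (h0 : ∀ x, x ∉ sat a C' → ρ x = 0) (h1 : ∃ x, ρ x = 1)
    (hC1 : ∀ x ∈ sat a C, ρ x = 1) {W : (Fin m → ℝ) → ℝ}
    (hWinv : ∀ g x, W (a g x) = W x) (hloc : ∀ x, x ∉ sat a C → ∀ᶠ y in 𝓝 x, W y = W x) (c : ℝ)
    (hne : ∀ C'' : Set (Fin m → ℝ), IsCompact C'' → ∃ x, W x ≠ c ∧ x ∉ sat a C'') :
    ∃ x0, ρ x0 < 1/2 ∧ W x0 ≠ c ∧ ∀ C'' : Set (Fin m → ℝ), IsCompact C'' →
      ∃ x ∈ connectedComponentIn {z | ρ z < 1/2} x0, x ∉ sat a C'' := by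
  by_contra hcon
  obtain ⟨F, hF1, hF2⟩ := comp_finite h hρ hinv hC' h0 h1
  have hU : ∀ z ∈ {z | ρ z < 1 / 2}, ∀ᶠ y in 𝓝 z, W y = W z := by
    intro z hz
    refine hloc z fun hzC => ?_
    have h1 := hC1 z hzC
    have h2 : ρ z < 1 / 2 := hz
    rw [h1] at h2
    norm_num at h2
  have hUi : ∀ g x, x ∈ {z | ρ z < 1 / 2} → a g x ∈ {z | ρ z < 1 / 2} := by
    intro g x hx
    have hx' : ρ x < 1 / 2 := hx
    show ρ (a g x) < 1 / 2
    rw [hinv]
    exact hx'
  have hK : ∀ f : Fin m → ℝ, ∃ K : Set (Fin m → ℝ), IsCompact K ∧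
      (f ∈ F → W f ≠ c → ∀ x ∈ connectedComponentIn {z | ρ z < 1 / 2} f, x ∈ sat a K) := by
    intro f
    by_cases hf : f ∈ F ∧ W f ≠ c
    · by_contra hno
      apply hcon
      refine ⟨f, hF1 f hf.1, hf.2, fun K hK => ?_⟩
      by_contra hno2
      apply hno
      refine ⟨K, hK, fun _ _ x hx => ?_⟩
      by_contra hxs
      exact hno2 ⟨x, hx, hxs⟩
    · exact ⟨∅, isCompact_empty, fun h1 h2 => absurd ⟨h1, h2⟩ hf⟩
  choose Kf hKf1 hKf2 using hK
  have hCc : IsCompact (C' ∪ ⋃ f ∈ F, Kf f) := hC'.union (F.isCompact_biUnion fun f _ => hKf1 f)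
  obtain ⟨x, hxc, hx⟩ := hne _ hCc
  have hxC' : x ∉ sat a C' := fun hx' => hx (sat_mono Set.subset_union_left hx')
  have hx0 : ρ x ≤ 1 / 3 := by rw [h0 x hxC']; norm_num
  obtain ⟨f, hfF, g, hfg⟩ := hF2 x hx0
  have h3 := comp_const hU hfg
  rw [hWinv] at h3
  have hfc : W f ≠ c := by rw [h3]; exact hxc
  have h4 := comp_map h hUi g⁻¹ (comp_symm hfg)
  rw [(act_inv_act h g f).1] at h4
  have h5 := hKf2 f hfF hfc _ h4
  rw [sat_inv h] at h5
  refine hx (sat_mono ?_ h5)
  intro y hy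
  exact Or.inr (Set.mem_biUnion hfF hy)

end C37.PC
end

section

set_option autoImplicit false

open Filter Topology
open scoped ContDiff

namespace C37.PC

/-- A function which is locally constant at the points of a preconnected set is constant on it. -/
theorem preconn_const {E : Type} [TopologicalSpace E] {T : Set E} (hT : IsPreconnected T) {W : E → ℝ}
    (hloc : ∀ x ∈ T, ∀ᶠ y in 𝓝 x, W y = W x) {x y : E} (hx : x ∈ T) (hy : y ∈ T) : W x = W y := by
  have : PreconnectedSpace T := Subtype.preconnectedSpace hT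
  have hl : IsLocallyConstant (fun z : T => W z) := (IsLocallyConstant.iff_eventually_eq _).2
    (fun z => (continuous_subtype_val.tendsto z).eventually (hloc z z.2))
  exact hl.apply_eq_of_preconnectedSpace ⟨x, hx⟩ ⟨y, hy⟩

/-- Far away `W ∘ p` is constant on the sets `g O`, `p O ⊆ ball (p 1) 1`.
Proof. `B = closedBall (p 1) 1` is compact and convex, so preconnected. Let `C2` be the compact set of all `p (s c * k * (s b)⁻¹)`, `c ∈ C`,
`k ∈ Kset`, `b ∈ B`. If `act g b ∈ sat _ C` for some `b ∈ B`, i.e. `act g b = act (L γ) c`, `c ∈ C`, then by `act_eq_act`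
`g = L γ * (s c * k * (s b)⁻¹)`, so `p g = act (L γ) (p (..)) ∈ sat _ C2`. So if `p g ∉ sat _ C2` then the preconnected set
`act g '' B` is disjoint from `sat _ C` and `W` is constant on it (`preconn_const`); it contains `p (g * o) = act g (p o)` and
`p g = act g (p 1)`. -/
theorem const_on_translates {act : GG → X → X} {p : GG → X} {s : X → GG} (hM : Model act p s) {Γ : Type} [Group Γ]
    (L : Γ →* GG) {W : X → ℝ} {C : Set X} (hC : IsCompact C)
    (hloc : ∀ x, x ∉ sat (fun (γ : Γ) => act (L γ)) C → ∀ᶠ y in 𝓝 x, W y = W x) :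
    ∃ C2 : Set X, IsCompact C2 ∧ ∀ g : GG, p g ∉ sat (fun (γ : Γ) => act (L γ)) C2 → ∀ o : GG,
      dist (p o) (p 1) < 1 → W (p (g * o)) = W (p g) := by
  have hB : IsCompact (Metric.closedBall (p 1) 1) := isCompact_closedBall _ _
  have hpre : IsPreconnected (Metric.closedBall (p 1) 1) :=
    (convex_closedBall (p 1) 1).isPreconnected
  have hcont : Continuous (fun q : X × GG × X => p (s q.1 * q.2.1 * (s q.2.2)⁻¹)) := by
    have h1 := hM.p_cont
    have h2 := hM.s_cont
    fun_prop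
  refine ⟨(fun q : X × GG × X => p (s q.1 * q.2.1 * (s q.2.2)⁻¹)) ''
    (C ×ˢ (Kset ×ˢ Metric.closedBall (p 1) 1)),
    (hC.prod (hM.K_comp.prod hB)).image hcont, fun g hg o ho => ?_⟩
  refine preconn_const (hpre.image (act g) (hM.smooth g).continuous.continuousOn) (fun x hx => ?_)
    (x := p (g * o)) (y := p g) ?_ ?_
  · refine hloc x (fun hxs => hg ?_)
    obtain ⟨b, hb, rfl⟩ := hx
    obtain ⟨γ, c, hc, hcx⟩ := hxs
    obtain ⟨k, hk, hgk⟩ := act_eq_act hM g (L γ) b c hcx.symm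
    refine ⟨γ, p (s c * k * (s b)⁻¹), ⟨(c, k, b), ⟨hc, hk, hb⟩, rfl⟩, ?_⟩
    change act (L γ) (p (s c * k * (s b)⁻¹)) = p g
    rw [← hM.p_mul, ← hgk]
  · exact ⟨p o, ho.le, (hM.p_mul g o).symm⟩
  · refine ⟨p 1, Metric.mem_closedBall_self zero_le_one, ?_⟩
    rw [← hM.p_mul, mul_one]

/-- Section 5.1 of the paper: far away, where `W ≠ c`, there are small elements.
Proof. By `model_good` the action `a = fun γ => act (L γ)` is good; `finite_values` gives `C0` compact and a finite `F` with `W x ∈ F` off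
`sat a C0`; choose `δ > 0` with `δ ≤ |v - c|` for all `v ∈ F`, `v ≠ c`. `O` from `exists_nbhd`, `C2` from `const_on_translates`.
Suppose the claim is false: (*) for every compact `C1` there is `x ∉ sat a C1` with `W x ≠ c` and no `γ ≠ 1` with `Small ε (s x) (L γ)`.
Apply `exists_seq_of_forall_finset_exists` to `P g : W (p g) ≠ c ∧ (∀ γ, γ ≠ 1 → ¬ Small ε g (L γ)) ∧ p g ∉ sat a C0 ∧ p g ∉ sat a C2` and
`r g g' : ∀ γ, ∀ o ∈ O, ∀ o' ∈ O, L γ * (g * o) ≠ g' * o'`: for a finite set `T ⊆ GG` let `C1` be the union of `C0`, `C2` and of the compact sets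
`{p (g * o * o'⁻¹) | o, o' ∈ O}`, `g ∈ T`; take `x` from (*) and `g' = s x`: if `L γ * (g * o) = g' * o'` then `g' = L γ * (g * o * o'⁻¹)`, so
`x = p g' = act (L γ) (p (g * o * o'⁻¹)) ∈ sat a C1`, excluded. We get `x : ℕ → GG` with `P (x j)` and `r (x j) (x k)` for `j < k`. This contradicts
`hB δ _ O _`: (1) `W (p (x j * o)) = W (p (x j)) ∈ F \ {c}` so `|W (p (x j * o)) - c| ≥ δ`. (2) let `L γ * (x j * o) = x k * o'`. `j < k` is impossible by `r`;
`k < j`: `L γ⁻¹ * (x k * o') = x j * o` is impossible by `r`; `j = k`: `(x j)⁻¹ * L γ * x j = o' * o⁻¹`, so `fro (mat (..) - 1) < ε`, i.e.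
`Small ε (x j) (L γ)`, so `γ = 1` by `P`. -/
theorem C_thin {act : GG → X → X} {p : GG → X} {s : X → GG} (hM : Model act p s) {Γ : Type} [Group Γ]
    (L : Γ →* GG) (hL : Disc L) {W : X → ℝ} (hWinv : ∀ (γ : Γ) (x : X), W (act (L γ) x) = W x)
    {C : Set X} (hC : IsCompact C)
    (hloc : ∀ x, x ∉ sat (fun (γ : Γ) => act (L γ)) C → ∀ᶠ y in 𝓝 x, W y = W x) {c : ℝ}
    (hB : ∀ δ > 0, ∀ O ∈ 𝓝 (1 : GG), ¬ ∃ x : ℕ → GG, (∀ j, ∀ o ∈ O, δ ≤ |W (p (x j * o)) - c|) ∧
      (∀ j k, ∀ o ∈ O, ∀ o' ∈ O, ∀ γ : Γ, L γ * (x j * o) = x k * o' → j = k ∧ γ = 1))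
    {ε : ℝ} (hε : 0 < ε) :
    ∃ C1 : Set X, IsCompact C1 ∧ ∀ x, x ∉ sat (fun (γ : Γ) => act (L γ)) C1 → W x ≠ c →
      ∃ γ : Γ, γ ≠ 1 ∧ Small ε (s x) (L γ) := by
  have ha := model_good hM L hL
  obtain ⟨C0, hC0, F, hF⟩ := finite_values ha hC hWinv hloc
  obtain ⟨δ, hδ, hδF⟩ : ∃ δ > 0, ∀ v ∈ F, v ≠ c → δ ≤ |v - c| := by
    clear hF
    induction F using Finset.induction_on with
    | empty => exact ⟨1, one_pos, fun v hv => absurd hv (Finset.notMem_empty v)⟩
    | insert v F _ ih =>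
      obtain ⟨δ, hδ, hδF⟩ := ih
      by_cases hv : v = c
      · refine ⟨δ, hδ, fun w hw hwc => ?_⟩
        rcases Finset.mem_insert.1 hw with rfl | hw
        · exact absurd hv hwc
        · exact hδF w hw hwc
      · refine ⟨min δ |v - c|, lt_min hδ (abs_pos.2 (sub_ne_zero.2 hv)), fun w hw hwc => ?_⟩
        rcases Finset.mem_insert.1 hw with rfl | hw
        · exact min_le_right _ _
        · exact (min_le_left _ _).trans (hδF w hw hwc)
  obtain ⟨O, hO, hOc, hO1, hO2⟩ := exists_nbhd hM.p_cont hε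
  obtain ⟨C2, hC2, hW2⟩ := const_on_translates hM L hC hloc
  by_contra hno
  push Not at hno
  obtain ⟨x, hP, hr⟩ := exists_seq_of_forall_finset_exists
    (fun g : GG => W (p g) ≠ c ∧ (∀ γ : Γ, γ ≠ 1 → ¬ Small ε g (L γ)) ∧
      p g ∉ sat (fun (γ : Γ) => act (L γ)) C0 ∧ p g ∉ sat (fun (γ : Γ) => act (L γ)) C2)
    (fun g g' : GG => ∀ γ : Γ, ∀ o ∈ O, ∀ o' ∈ O, L γ * (g * o) ≠ g' * o')
    (fun T _ => by
      have hCT : IsCompact (⋃ g ∈ T, (fun q : GG × GG => p (g * q.1 * q.2⁻¹)) '' (O ×ˢ O)) := by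
        refine T.isCompact_biUnion (fun g _ => (hOc.prod hOc).image ?_)
        have h1 := hM.p_cont
        fun_prop
      obtain ⟨x, hx, hWx, hsm⟩ := hno _ ((hC0.union hC2).union hCT)
      refine ⟨s x, ⟨?_, hsm, ?_, ?_⟩, ?_⟩
      · rw [hM.p_s]; exact hWx
      · rw [hM.p_s]
        exact fun h => hx (sat_mono (fun z hz => Or.inl (Or.inl hz)) h)
      · rw [hM.p_s]
        exact fun h => hx (sat_mono (fun z hz => Or.inl (Or.inr hz)) h)
      · intro g hg γ o ho o' ho' heq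
        apply hx
        refine ⟨γ, p (g * o * o'⁻¹), Or.inr ?_, ?_⟩
        · exact Set.mem_biUnion hg ⟨(o, o'), ⟨ho, ho'⟩, rfl⟩
        · change act (L γ) (p (g * o * o'⁻¹)) = x
          rw [← hM.p_mul, ← mul_assoc, heq, mul_inv_cancel_right, hM.p_s])
  refine hB δ hδ O hO ⟨x, fun j o ho => ?_, fun j k o ho o' ho' γ heq => ?_⟩
  · rw [hW2 (x j) (hP j).2.2.2 o (hO1 o ho)]
    exact hδF _ (hF _ (hP j).2.2.1) (hP j).1
  · rcases lt_trichotomy j k with h | h | h
    · exact absurd heq (hr j k h γ o ho o' ho')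
    · subst h
      refine ⟨rfl, ?_⟩
      by_contra hγ
      refine (hP j).2.1 γ hγ ?_
      have h1 : (x j)⁻¹ * L γ * x j = o' * o⁻¹ := by
        rw [eq_mul_inv_iff_mul_eq, mul_assoc, mul_assoc, heq, inv_mul_cancel_left]
      unfold Small
      rw [h1]
      exact hO2 o ho o' ho'
    · exfalso
      refine hr k j h γ⁻¹ o' ho' o ho ?_
      rw [map_inv, ← heq, inv_mul_cancel_left]

end C37.PC
end

section

set_option autoImplicit false

open Filter Topology
open scoped ContDiff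

namespace C37.PC

/-- A smooth function with zero derivative off the saturation of a compact set is locally constant there.
Proof. `sat a C` is closed (`sat_closed`), so there is a ball `B(x,r)` disjoint from it; `fderiv ℝ W y = 0` on the convex
ball, hence `W` is constant on it (`Convex.is_const_of_fderivWithin_eq_zero` or
`IsOpen.is_const_of_fderiv_eq_zero` with `(convex_ball x r).isPreconnected`). -/
theorem locConst_of_fderiv {Γ : Type} [Group Γ] {m : ℕ} {a : Γ → (Fin m → ℝ) → (Fin m → ℝ)}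
    (h : GoodAction Γ m a) {C : Set (Fin m → ℝ)} (hC : IsCompact C) {W : (Fin m → ℝ) → ℝ}
    (hW : ContDiff ℝ ∞ W) (hd : ∀ x, (∀ g, x ∉ a g '' C) → fderiv ℝ W x = 0)
    (x : Fin m → ℝ) (hx : x ∉ sat a C) : ∀ᶠ y in 𝓝 x, W y = W x := by
  have hcl := sat_closed h hC
  obtain ⟨ε, hε, hball⟩ := Metric.isOpen_iff.1 hcl.isOpen_compl x hx
  refine Metric.eventually_nhds_iff_ball.2 ⟨ε, hε, ?_⟩
  intro y hy
  have hd0 : ∀ z ∈ Metric.ball x ε, fderiv ℝ W z = 0 := by
    intro z hz
    exact hd z fun g hg => hball hz ⟨g, hg⟩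
  exact Metric.isOpen_ball.is_const_of_fderiv_eq_zero (convex_ball x ε).isPreconnected
    (fun z _ => (hW.differentiable (by simp) z).differentiableWithinAt)
    (fun z hz => hd0 z hz) hy (Metric.mem_ball_self hε)

end C37.PC
end

section

set_option autoImplicit false

open Filter Topology
open scoped ContDiff

namespace C37.PC

/-- The part of the shell inside one component is compact modulo the stabiliser of the component.
Proof. Let `U = {ρ < 1/2}`, `Ω = connectedComponentIn U x0`, `Q = C' ∩ {z | ρ z ≤ 1/3}`, compact; the open sets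
`connectedComponentIn U z`, `z ∈ Q`, cover `Q`; choose a finite `F ⊆ Q` with `Q ⊆ ⋃ f ∈ F, connectedComponentIn U f`.
For every `f ∈ F` such that some `γ` has `a γ f ∈ Ω` choose such a `γ_f`. Let `C1 = ⋃ a γ_f '' C'` over these `f`: compact.
Let `x ∈ Ω`, `ρ x ≤ 1/3`, `x ∈ sat a C'`: `x = a g z`, `z ∈ C'`, `ρ z = ρ x ≤ 1/3`, `z ∈ Q`, so `z ∈ connectedComponentIn U f`, `f ∈ F`.
Then `a g f ∈ connectedComponentIn U (a g z) = connectedComponentIn U x`, so `a g f ∈ Ω` (`comp_symm`, `comp_map`, `comp_trans`). So `γ_f`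
exists; put `δ = g γ_f⁻¹`: it maps `a γ_f f ∈ Ω` to `a g f ∈ Ω`, so `δ ∈ D` by `hD`, and `x = a δ (a γ_f z)` with
`a γ_f z ∈ C1`. -/
theorem shell_compact {Γ : Type} [Group Γ] {m : ℕ} {a : Γ → (Fin m → ℝ) → (Fin m → ℝ)}
    (h : GoodAction Γ m a) {ρ : (Fin m → ℝ) → ℝ} (hρ : Continuous ρ) (hinv : ∀ g x, ρ (a g x) = ρ x)
    {C' : Set (Fin m → ℝ)} (hC' : IsCompact C') (x0 : Fin m → ℝ) (D : Subgroup Γ)
    (hD : ∀ g x, x ∈ connectedComponentIn {z | ρ z < 1/2} x0 →
      (g ∈ D ↔ a g x ∈ connectedComponentIn {z | ρ z < 1/2} x0)) :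
    ∃ C1 : Set (Fin m → ℝ), IsCompact C1 ∧ ∀ x ∈ connectedComponentIn {z | ρ z < 1/2} x0,
      ρ x ≤ 1/3 → x ∈ sat a C' → ∃ δ ∈ D, x ∈ a δ '' C1 := by
  classical
  set U : Set (Fin m → ℝ) := {z | ρ z < 1/2} with hU
  have hUopen : IsOpen U := isOpen_lt hρ continuous_const
  have hUinv : ∀ g x, x ∈ U → a g x ∈ U := by
    intro g x hx
    change ρ (a g x) < 1 / 2
    rw [hinv]
    exact hx
  have hQ : IsCompact (C' ∩ {z | ρ z ≤ 1/3}) :=
    hC'.inter_right (isClosed_le hρ continuous_const)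
  have hQU : ∀ z ∈ C' ∩ {z | ρ z ≤ 1/3}, z ∈ U := by
    intro z hz
    have h1 : ρ z ≤ 1 / 3 := hz.2
    change ρ z < 1 / 2
    linarith
  obtain ⟨F, -, hF⟩ := hQ.elim_nhds_subcover (fun z => connectedComponentIn U z)
    (fun z hz => (hUopen.connectedComponentIn).mem_nhds (mem_connectedComponentIn (hQU z hz)))
  let γf : (Fin m → ℝ) → Γ := fun f =>
    if hf : ∃ γ : Γ, a γ f ∈ connectedComponentIn U x0 then hf.choose else 1
  have hγf : ∀ f, (∃ γ : Γ, a γ f ∈ connectedComponentIn U x0) →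
      a (γf f) f ∈ connectedComponentIn U x0 := by
    intro f hf
    have e : γf f = hf.choose := dif_pos hf
    rw [e]
    exact hf.choose_spec
  refine ⟨⋃ f ∈ F, a (γf f) '' C', F.isCompact_biUnion fun f _ =>
    hC'.image (h.smooth _).continuous, ?_⟩
  rintro x hx hxρ ⟨g, z, hz, rfl⟩
  have hzρ : ρ z ≤ 1 / 3 := by rwa [hinv] at hxρ
  obtain ⟨f, hfF, hzf⟩ := Set.mem_iUnion₂.1 (hF (show z ∈ C' ∩ {z | ρ z ≤ 1/3} from ⟨hz, hzρ⟩))
  have h1 : a g f ∈ connectedComponentIn U x0 :=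
    comp_trans hx (comp_symm (comp_map h hUinv g hzf))
  have h2 := hγf f ⟨g, h1⟩
  have e : ∀ y, a (g * (γf f)⁻¹) (a (γf f) y) = a g y := by
    intro y
    rw [h.mul, (act_inv_act h (γf f) y).1]
  refine ⟨g * (γf f)⁻¹, (hD _ _ h2).2 ?_, a (γf f) z, ?_, e z⟩
  · rw [e]
    exact h1
  · exact Set.mem_iUnion₂.2 ⟨f, hfF, z, hz, rfl⟩

/-- The cut function.
Proof. Let `U = {ρ < 1/2}`, `Ω = connectedComponentIn U x0` (open), `ψ t = Real.smoothTransition (12 * (1/3 - t))`: smooth,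
`ψ t = 1` for `t ≤ 1/4`, `ψ t = 0` for `t ≥ 1/3`. `f x = ψ (ρ x)` if `x ∈ Ω`, else `0` (classical `if` or `Set.indicator`).
The space is covered by three open sets: `A = {1/3 < ρ}` where `f = 0`; `Ω` where `f = ψ ∘ ρ`; and `U \ Ω`, where `f = 0`, which is
open because it is the union of the open sets `connectedComponentIn U z`, `z ∈ U \ Ω`. (If `ρ x ≤ 1/3` then `x ∈ U`.)
So `f` is smooth (`ContDiffAt.congr_of_eventuallyEq` at every point). Invariance: `δ ∈ D`, then `x ∈ Ω ↔ a δ x ∈ Ω` (`hD` for `δ` and `δ⁻¹`,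
`act_inv_act`), and `ρ (a δ x) = ρ x`. If `fderiv ℝ f x ≠ 0` then `x ∉ A` and `x ∉ U \ Ω` (`f` is `0` near such `x`), so `x ∈ Ω`, `ρ x ≤ 1/3`; and if
`ρ x < 1/4` then `f = 1` near `x`, so `fderiv = 0`; hence `1/4 ≤ ρ x`. -/
theorem exists_cut {Γ : Type} [Group Γ] {m : ℕ} {a : Γ → (Fin m → ℝ) → (Fin m → ℝ)}
    (h : GoodAction Γ m a) {ρ : (Fin m → ℝ) → ℝ} (hρ : ContDiff ℝ ∞ ρ) (hinv : ∀ g x, ρ (a g x) = ρ x)
    (x0 : Fin m → ℝ) (D : Subgroup Γ)
    (hD : ∀ g x, x ∈ connectedComponentIn {z | ρ z < 1/2} x0 →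
      (g ∈ D ↔ a g x ∈ connectedComponentIn {z | ρ z < 1/2} x0)) :
    ∃ f : (Fin m → ℝ) → ℝ, ContDiff ℝ ∞ f ∧ (∀ δ ∈ D, ∀ x, f (a δ x) = f x) ∧
      (∀ x ∈ connectedComponentIn {z | ρ z < 1/2} x0, ρ x ≤ 1/4 → f x = 1) ∧
      (∀ x, x ∉ connectedComponentIn {z | ρ z < 1/2} x0 → f x = 0) ∧
      (∀ x, fderiv ℝ f x ≠ 0 → x ∈ connectedComponentIn {z | ρ z < 1/2} x0 ∧ 1/4 ≤ ρ x ∧ ρ x ≤ 1/3) := by
  classical
  set U : Set (Fin m → ℝ) := {z | ρ z < 1/2} with hU
  have hUopen : IsOpen U := isOpen_lt hρ.continuous continuous_const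
  have hΩopen : IsOpen (connectedComponentIn U x0) := hUopen.connectedComponentIn
  set ψ : (Fin m → ℝ) → ℝ := fun x => Real.smoothTransition (12 * (1/3 - ρ x)) with hψ
  have hψs : ContDiff ℝ ∞ ψ :=
    Real.smoothTransition.contDiff.comp (contDiff_const.mul (contDiff_const.sub hρ))
  set f : (Fin m → ℝ) → ℝ := fun x => if x ∈ connectedComponentIn U x0 then ψ x else 0 with hf
  have hin : ∀ x ∈ connectedComponentIn U x0, f x = ψ x := fun x hx => if_pos hx
  have hout : ∀ x, x ∉ connectedComponentIn U x0 → f x = 0 := fun x hx => if_neg hx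
  have hbig : ∀ x, 1/3 < ρ x → f =ᶠ[𝓝 x] fun _ => 0 := by
    intro x hx
    have h1 : ∀ᶠ y in 𝓝 x, 1/3 < ρ y :=
      (isOpen_lt continuous_const hρ.continuous).mem_nhds hx
    filter_upwards [h1] with y hy
    by_cases hyΩ : y ∈ connectedComponentIn U x0
    · rw [hin y hyΩ]
      exact Real.smoothTransition.zero_of_nonpos (by linarith)
    · exact hout y hyΩ
  have hnear : ∀ x ∈ connectedComponentIn U x0, f =ᶠ[𝓝 x] ψ := by
    intro x hx
    filter_upwards [hΩopen.mem_nhds hx] with y hy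
    exact hin y hy
  have hzero : ∀ x, x ∉ connectedComponentIn U x0 → f =ᶠ[𝓝 x] fun _ => 0 := by
    intro x hx
    by_cases hxU : x ∈ U
    · filter_upwards [(hUopen.connectedComponentIn).mem_nhds (mem_connectedComponentIn hxU)]
        with y hy
      refine hout y fun hy0 => hx ?_
      exact comp_trans hy0 (comp_symm hy)
    · refine hbig x ?_
      have h1 : ¬ ρ x < 1/2 := hxU
      linarith
  refine ⟨f, ?_, ?_, ?_, hout, ?_⟩
  · rw [contDiff_iff_contDiffAt]
    intro x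
    by_cases hx : x ∈ connectedComponentIn U x0
    · exact hψs.contDiffAt.congr_of_eventuallyEq (hnear x hx)
    · exact contDiffAt_const.congr_of_eventuallyEq (hzero x hx)
  · intro δ hδ x
    by_cases hx : x ∈ connectedComponentIn U x0
    · rw [hin x hx, hin _ ((hD δ x hx).1 hδ), hψ]
      simp only [hinv]
    · rw [hout x hx, hout]
      intro hx'
      have h1 := (hD δ⁻¹ (a δ x) hx').1 (D.inv_mem hδ)
      rw [(act_inv_act h δ x).1] at h1
      exact hx h1
  · intro x hx hxρ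
    rw [hin x hx]
    exact Real.smoothTransition.one_of_one_le (by linarith)
  · intro x hx
    have h1 : x ∈ connectedComponentIn U x0 := by
      by_contra h0
      refine hx ?_
      rw [(hzero x h0).fderiv_eq]
      simp
    refine ⟨h1, ?_, ?_⟩
    · by_contra h0
      rw [not_le] at h0
      refine hx ?_
      have h2 : f =ᶠ[𝓝 x] fun _ => 1 := by
        have h3 : ∀ᶠ y in 𝓝 x, ρ y < 1/4 :=
          (isOpen_lt hρ.continuous continuous_const).mem_nhds h0
        filter_upwards [h3, hΩopen.mem_nhds h1] with y hy hyΩ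
        rw [hin y hyΩ]
        exact Real.smoothTransition.one_of_one_le (by linarith)
      rw [h2.fderiv_eq]
      simp
    · by_contra h0
      rw [not_le] at h0
      refine hx ?_
      rw [(hbig x h0).fderiv_eq]
      simp

end C37.PC
end

section

set_option autoImplicit false

open Filter Topology
open scoped ContDiff

namespace C37.PC

/-- Restriction of a good action to a subgroup. -/
theorem goodAction_sub {Γ : Type} [Group Γ] {m : ℕ} {a : Γ → (Fin m → ℝ) → (Fin m → ℝ)}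
    (h : GoodAction Γ m a) (D : Subgroup Γ) : GoodAction D m (fun δ : D => a (δ : Γ)) where
  one x := h.one x
  mul g g' x := h.mul (g : Γ) (g' : Γ) x
  smooth g := h.smooth (g : Γ)
  pos g x := h.pos (g : Γ) x
  proper K hK := by
    have h1 := h.proper K hK
    have h2 : {g : D | ((fun δ : D => a (δ : Γ)) g '' K ∩ K).Nonempty} =
        (Subtype.val : D → Γ) ⁻¹' {g : Γ | (a g '' K ∩ K).Nonempty} := rfl
    rw [h2]
    exact h1.preimage (Subtype.val_injective.injOn)

/-- If one orbit of `Γ` is contained in the `D`-saturation of a compact set then `D` has finite index.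
Proof. `K = C2 ∪ {o}` is compact, `F` = finite set of `g` with `a g '' K ∩ K` nonempty (`h.proper`). For `γ : Γ`, `a γ o = a δ z`,
`δ ∈ D`, `z ∈ C2`, so `a (δ⁻¹ γ) o = z ∈ K`, hence `δ⁻¹ γ ∈ F` and `γ = δ (δ⁻¹ γ)`. -/
theorem finIdx_of_orbit {Γ : Type} [Group Γ] {m : ℕ} {a : Γ → (Fin m → ℝ) → (Fin m → ℝ)}
    (h : GoodAction Γ m a) (D : Subgroup Γ) (o : Fin m → ℝ) (C2 : Set (Fin m → ℝ)) (hC2 : IsCompact C2)
    (hor : ∀ γ : Γ, ∃ δ ∈ D, a γ o ∈ a δ '' C2) : FinIdx D := by
  have hK : IsCompact (C2 ∪ {o}) := hC2.union isCompact_singleton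
  have hF := h.proper _ hK
  refine ⟨hF.toFinset, fun γ => ?_⟩
  obtain ⟨δ, hδ, z, hz, hzo⟩ := hor γ
  refine ⟨δ, hδ, δ⁻¹ * γ, ?_, ?_⟩
  · rw [Set.Finite.mem_toFinset]
    refine ⟨z, ⟨o, Or.inr rfl, ?_⟩, Or.inl hz⟩
    rw [h.mul, ← hzo]
    exact (act_inv_act h δ z).1
  · rw [mul_inv_cancel_left]

end C37.PC
end
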