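import Mathlib
import Pool.Agent.Lib.MP_c37615_al.Defs2
import Pool.Agent.Lib.MP_c37615_al.Mg.G005
import Pool.Agent.Lib.MP_c37615_al.A.Zig
import Pool.Agent.Lib.MP_c37615_al.Mg.G009
import Pool.Agent.Lib.MP_c37615_al.Mg.G010
import Pool.Agent.Lib.MP_c37615_al.C.Base
import Pool.Agent.Lib.MP_c37615_al.Mg.G042

section

/-!
MP_c37615_al (S02984): exports of PART A
-/

set_option autoImplicit false

open Filter Topology
open scoped ContDiff

namespace C37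

theorem GoodAction.toA {Γ : Type} [Group Γ] {m : ℕ} {act : Γ → (Fin m → ℝ) → (Fin m → ℝ)}
    (h : GoodAction Γ m act) : C37A.GoodAction Γ m act :=
  ⟨h.one, h.mul, h.smooth, h.pos, h.proper⟩

/-! ### Part A -/

theorem A_one (n : ℕ) (hn : 1 ≤ n) (Γ : Type) [Group Γ]
    (a1 : Γ → (Fin n → ℝ) → (Fin n → ℝ)) (a2 : Γ → (Fin (n+1) → ℝ) → (Fin (n+1) → ℝ))
    (h1 : GoodAction Γ n a1) (h2 : GoodAction Γ (n+1) a2)
    (hc : ∃ K : Set (Fin n → ℝ), IsCompact K ∧ ∀ x, ∃ g, x ∈ a1 g '' K) :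
    ∃ (W : (Fin (n+1) → ℝ) → ℝ) (χ : Γ → ℝ), ContDiff ℝ ∞ W ∧ (∀ g x, W (a2 g x) = W x + χ g) ∧
      (∃ C : Set (Fin (n+1) → ℝ), IsCompact C ∧ ∀ x, (∀ g, x ∉ a2 g '' C) → fderiv ℝ W x = 0) ∧
      ((∀ g, χ g = 0) → ∀ (c : ℝ) (C : Set (Fin (n+1) → ℝ)), IsCompact C →
        ∃ x, W x ≠ c ∧ ∀ g, x ∉ a2 g '' C) := by
  obtain ⟨m, rfl⟩ : ∃ m, n = m + 1 := ⟨n - 1, by omega⟩
  have hz := C37Z.zig (C37A.om_res h1.toA) (C37A.om_res h2.toA)
  have h3 : ¬ ∀ y : C37A.Om (m + 1 + 1) 1, C37A.dL (m + 1 + 1) 1 y ∈ C37A.Aug (C37A.rho h2.toA 2) →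
      ∃ z : C37A.Om (m + 1 + 1) 0, y - C37A.dL (m + 1 + 1) 0 z ∈ C37A.Aug (C37A.rho h2.toA 1) :=
    fun hy => C37A.not_cond_of_cocompact h1.toA hc (hz.2 hy)
  obtain ⟨W, χ, hW, hχ, ⟨C, hC, hC0⟩, hlast⟩ := C37A.exists_W h2.toA h3
  refine ⟨W, χ, hW, hχ, ⟨C, hC, fun x hx => hC0 x (fun ⟨g, hg⟩ => hx g hg)⟩, ?_⟩
  intro h0 c C hC
  obtain ⟨x, hx, hx2⟩ := hlast h0 c C hC
  exact ⟨x, hx, fun g hg => hx2 ⟨g, hg⟩⟩

theorem A_two (n : ℕ) (hn : 1 ≤ n) (Γ : Type) [Group Γ]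
    (a1 : Γ → (Fin n → ℝ) → (Fin n → ℝ)) (a2 : Γ → (Fin (n+1) → ℝ) → (Fin (n+1) → ℝ))
    (h1 : GoodAction Γ n a1) (h2 : GoodAction Γ (n+1) a2)
    (hnc : ¬ ∃ K : Set (Fin n → ℝ), IsCompact K ∧ ∀ x, ∃ g, x ∈ a1 g '' K)
    (f : (Fin (n+1) → ℝ) → ℝ) (hf : ContDiff ℝ ∞ f) (hinv : ∀ g x, f (a2 g x) = f x)
    (hC : ∃ C : Set (Fin (n+1) → ℝ), IsCompact C ∧ ∀ x, (∀ g, x ∉ a2 g '' C) → fderiv ℝ f x = 0) :
    ∃ (c : ℝ) (C : Set (Fin (n+1) → ℝ)), IsCompact C ∧ ∀ x, (∀ g, x ∉ a2 g '' C) → f x = c := by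
  obtain ⟨m, rfl⟩ : ∃ m, n = m + 1 := ⟨n - 1, by omega⟩
  have hz := C37Z.zig (C37A.om_res h1.toA) (C37A.om_res h2.toA)
  obtain ⟨C, hC, hC0⟩ := hC
  obtain ⟨c, C', hC', hc'⟩ := C37A.exists_const h2.toA
    (hz.1 (fun x hx => C37A.cond_of_not_cocompact h1.toA hnc x hx)) f hf hinv
    ⟨C, hC, fun x hx => hC0 x (fun g hg => hx ⟨g, hg⟩)⟩
  exact ⟨c, C', hC', fun x hx => hc' x (fun ⟨g, hg⟩ => hx g hg)⟩

end C37
end

section

/-!
MP_c37615_al, PART B: cut-off functions on the torus.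
-/

set_option autoImplicit false

open Filter Topology

namespace C37.PB

/-- `|arg z|` -/
noncomputable def ag (z : Circle) : ℝ := Real.arccos (z : ℂ).re

/-- the sup norm of the arguments -/
noncomputable def nrm (t : T2) : ℝ := max (ag t.1) (ag t.2)

/-- truncation to `[0, 1]` -/
noncomputable def cl (x : ℝ) : ℝ := max 0 (min 1 x)

theorem cl_continuous : Continuous cl := by
  unfold cl; fun_prop

theorem ag_continuous : Continuous ag := by
  unfold ag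
  exact Real.continuous_arccos.comp (Complex.continuous_re.comp continuous_induced_dom)

theorem nrm_continuous : Continuous nrm :=
  (ag_continuous.comp continuous_fst).max (ag_continuous.comp continuous_snd)

/-- the radial cut-off: `0` for `nrm t ≤ r / 2`, `1` for `nrm t ≥ r` -/
noncomputable def thR (r : ℝ) (t : T2) : ℝ := cl (2 * nrm t / r - 1)

/-- `1` for `nrm t ≤ 1 / 40`, `0` for `nrm t ≥ 1 / 20` -/
noncomputable def etR (t : T2) : ℝ := cl (2 - 40 * nrm t)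

/-- homogeneous partition of unity: `laR ≠ 0` only if `|y| < 2 |x|` -/
noncomputable def laR (t : T2) : ℝ := cl ((2 * ag t.1 - ag t.2) / (ag t.1 + ag t.2))

noncomputable def th (r : ℝ) : C(T2, ℂ) :=
  ⟨fun t => (thR r t : ℂ), Complex.continuous_ofReal.comp (cl_continuous.comp
    (((continuous_const.mul nrm_continuous).div_const r).sub continuous_const))⟩

noncomputable def et : C(T2, ℂ) :=
  ⟨fun t => (etR t : ℂ), Complex.continuous_ofReal.comp (cl_continuous.comp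
    (continuous_const.sub (continuous_const.mul nrm_continuous)))⟩

open Classical in
noncomputable def psi1 (r : ℝ) : C(T2, ℂ) :=
  if h : Continuous fun t => ((laR t * thR r t * etR t : ℝ) : ℂ) then ⟨_, h⟩ else 0

open Classical in
noncomputable def psi2 (r : ℝ) : C(T2, ℂ) :=
  if h : Continuous fun t => (((1 - laR t) * thR r t * etR t : ℝ) : ℂ) then ⟨_, h⟩ else 0

theorem cut1_cl_mem (x : ℝ) : 0 ≤ cl x ∧ cl x ≤ 1 := by
  unfold cl
  exact ⟨le_max_left _ _, max_le zero_le_one (min_le_left _ _)⟩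

theorem cut1_cl_mono {x y : ℝ} (h : x ≤ y) : cl x ≤ cl y := by
  unfold cl
  exact max_le_max le_rfl (min_le_min le_rfl h)

theorem cut1_cl_zero {x : ℝ} (h : x ≤ 0) : cl x = 0 := by
  unfold cl
  exact max_eq_left ((min_le_right _ _).trans h)

theorem cut1_cl_one {x : ℝ} (h : 1 ≤ x) : cl x = 1 := by
  unfold cl
  rw [min_eq_left h]
  exact max_eq_right zero_le_one

/-- TASK Cut1. -/
theorem ag_nonneg (z : Circle) : 0 ≤ ag z := by
  unfold ag
  exact Real.arccos_nonneg _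

/-- TASK Cut1. -/
theorem ag_eq_zero_iff (z : Circle) : ag z = 0 ↔ z = 1 := by
  unfold ag
  rw [Real.arccos_eq_zero]
  constructor
  · intro h
    have h1 : (z : ℂ).re * (z : ℂ).re + (z : ℂ).im * (z : ℂ).im = 1 := by
      have := Circle.normSq_coe z
      rwa [Complex.normSq_apply] at this
    have hre : (z : ℂ).re = 1 := by
      nlinarith [mul_self_nonneg (z : ℂ).im]
    have him : (z : ℂ).im = 0 := by
      rw [hre] at h1
      have : (z : ℂ).im * (z : ℂ).im = 0 := by linarith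
      exact mul_self_eq_zero.1 this
    ext
    exact Complex.ext hre him
  · rintro rfl
    simp

/-- TASK Cut1. `re (exp (i s)) = cos s = cos |s|` and `arccos (cos |s|) = |s|`. -/
theorem ag_exp {s : ℝ} (h : |s| ≤ Real.pi) : ag (Circle.exp s) = |s| := by
  unfold ag
  rw [Circle.coe_exp, Complex.exp_ofReal_mul_I_re, ← Real.cos_abs,
    Real.arccos_cos (abs_nonneg s) h]

/-- TASK Cut1. `s = arg z`. -/
theorem exists_exp (z : Circle) : ∃ s : ℝ, |s| = ag z ∧ Circle.exp s = z := by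
  refine ⟨(z : ℂ).arg, ?_, Circle.exp_arg z⟩
  conv_rhs => rw [← Circle.exp_arg z]
  rw [ag_exp (Complex.abs_arg_le_pi _)]

/-- TASK Cut1. -/
theorem nrm_nonneg (t : T2) : 0 ≤ nrm t := by
  unfold nrm
  exact (ag_nonneg _).trans (le_max_left _ _)

/-- TASK Cut1. -/
theorem nrm_eq_zero_iff (t : T2) : nrm t = 0 ↔ t = 1 := by
  unfold nrm
  constructor
  · intro h
    have h1 : ag t.1 = 0 := le_antisymm (h ▸ le_max_left _ _) (ag_nonneg _)
    have h2 : ag t.2 = 0 := le_antisymm (h ▸ le_max_right _ _) (ag_nonneg _)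
    exact Prod.ext ((ag_eq_zero_iff _).1 h1) ((ag_eq_zero_iff _).1 h2)
  · rintro rfl
    have h1 : ag (1 : T2).1 = 0 := (ag_eq_zero_iff _).2 rfl
    have h2 : ag (1 : T2).2 = 0 := (ag_eq_zero_iff _).2 rfl
    rw [h1, h2, max_self]

/-- TASK Cut1. -/
theorem thR_mem (r : ℝ) (t : T2) : 0 ≤ thR r t ∧ thR r t ≤ 1 := by
  exact cut1_cl_mem _

/-- TASK Cut1. -/
theorem thR_eq_zero {r : ℝ} (hr : 0 < r) {t : T2} (h : nrm t ≤ r / 2) : thR r t = 0 := by
  refine cut1_cl_zero ?_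
  rw [sub_nonpos, div_le_one hr]
  linarith

/-- TASK Cut1. -/
theorem thR_eq_one {r : ℝ} (hr : 0 < r) {t : T2} (h : r ≤ nrm t) : thR r t = 1 := by
  refine cut1_cl_one ?_
  rw [le_sub_iff_add_le, le_div_iff₀ hr]
  linarith

/-- TASK Cut1. -/
theorem thR_mono {r : ℝ} (hr : 0 < r) {s t : T2} (h : nrm s ≤ nrm t) : thR r s ≤ thR r t := by
  refine cut1_cl_mono (sub_le_sub_right ?_ 1)
  exact div_le_div_of_nonneg_right (by linarith) hr.le

/-- TASK Cut1. -/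
theorem thR_anti {r r' : ℝ} (hr' : 0 < r') (h : r' ≤ r) (t : T2) : thR r t ≤ thR r' t := by
  refine cut1_cl_mono (sub_le_sub_right ?_ 1)
  exact div_le_div_of_nonneg_left (by linarith [nrm_nonneg t]) hr' h

/-- TASK Cut1. -/
theorem etR_mem (t : T2) : 0 ≤ etR t ∧ etR t ≤ 1 := by
  exact cut1_cl_mem _

/-- TASK Cut1. -/
theorem etR_eq_one {t : T2} (h : nrm t ≤ 1 / 40) : etR t = 1 := by
  refine cut1_cl_one ?_
  linarith

/-- TASK Cut1. -/
theorem etR_eq_zero {t : T2} (h : 1 / 20 ≤ nrm t) : etR t = 0 := by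
  refine cut1_cl_zero ?_
  linarith

/-- TASK Cut1. -/
theorem laR_mem (t : T2) : 0 ≤ laR t ∧ laR t ≤ 1 := by
  exact cut1_cl_mem _

/-- TASK Cut1. -/
theorem laR_ne_zero {t : T2} (h : laR t ≠ 0) : ag t.2 < 2 * ag t.1 := by
  by_contra hn
  push Not at hn
  refine h (cut1_cl_zero ?_)
  exact div_nonpos_of_nonpos_of_nonneg (by linarith) (add_nonneg (ag_nonneg _) (ag_nonneg _))

/-- TASK Cut1. (Here `t ≠ 1` is needed: at `t = 1` the quotient is `0 / 0 = 0`.) -/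
theorem laR_ne_one {t : T2} (ht : t ≠ 1) (h : laR t ≠ 1) : ag t.1 < 2 * ag t.2 := by
  by_contra hn
  push Not at hn
  refine h (cut1_cl_one ?_)
  have h1 := ag_nonneg t.1
  have h2 := ag_nonneg t.2
  have hpos : 0 < ag t.1 + ag t.2 := by
    rcases (add_nonneg h1 h2).lt_or_eq with h3 | h3
    · exact h3
    · exfalso
      have h4 : ag t.1 = 0 := by linarith
      have h5 : ag t.2 = 0 := by linarith
      exact ht (Prod.ext ((ag_eq_zero_iff _).1 h4) ((ag_eq_zero_iff _).1 h5))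
  rw [le_div_iff₀ hpos]
  linarith

theorem cut2_nhds {c : ℝ} (hc : 0 < c) : ∀ᶠ t in 𝓝 (1 : T2), nrm t < c := by
  have h : nrm (1 : T2) < c := by rw [(nrm_eq_zero_iff _).2 rfl]; exact hc
  exact nrm_continuous.continuousAt.eventually (eventually_lt_nhds h)

theorem cut2_thR {r : ℝ} (hr : 0 < r) : ∀ᶠ t in 𝓝 (1 : T2), thR r t = 0 := by
  filter_upwards [cut2_nhds (half_pos hr)] with t ht
  exact thR_eq_zero hr ht.le

theorem cut2_thR_cont (r : ℝ) : Continuous (thR r) :=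
  cl_continuous.comp (((continuous_const.mul nrm_continuous).div_const r).sub continuous_const)

theorem cut2_etR_cont : Continuous etR :=
  cl_continuous.comp (continuous_const.sub (continuous_const.mul nrm_continuous))

theorem cut2_laR_cont {t : T2} (ht : t ≠ 1) : ContinuousAt laR t := by
  have h1 : ContinuousAt (fun t : T2 => ag t.1) t := (ag_continuous.comp continuous_fst).continuousAt
  have h2 : ContinuousAt (fun t : T2 => ag t.2) t := (ag_continuous.comp continuous_snd).continuousAt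
  have hne : ag t.1 + ag t.2 ≠ 0 := by
    intro h3
    have h4 : ag t.1 = 0 := by linarith [ag_nonneg t.1, ag_nonneg t.2]
    have h5 : ag t.2 = 0 := by linarith [ag_nonneg t.1, ag_nonneg t.2]
    exact ht (Prod.ext ((ag_eq_zero_iff _).1 h4) ((ag_eq_zero_iff _).1 h5))
  exact cl_continuous.continuousAt.comp
    (((continuousAt_const.mul h1).sub h2).div (h1.add h2) hne)

theorem cut2_cont {r : ℝ} (hr : 0 < r) (g : T2 → ℝ) (hg : ∀ t, t ≠ 1 → ContinuousAt g t) :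
    Continuous fun t => ((g t * thR r t * etR t : ℝ) : ℂ) := by
  refine Complex.continuous_ofReal.comp (continuous_iff_continuousAt.2 fun t => ?_)
  by_cases ht : t = 1
  · subst ht
    have : (fun t => g t * thR r t * etR t) =ᶠ[𝓝 1] fun _ => (0 : ℝ) := by
      filter_upwards [cut2_thR hr] with t h
      rw [h, mul_zero, zero_mul]
    exact continuousAt_const.congr this.symm
  · exact ((hg t ht).mul (cut2_thR_cont r).continuousAt).mul cut2_etR_cont.continuousAt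

/-- TASK Cut2. `{t | nrm t < r / 2}` is a neighbourhood of `1` on which `th r` vanishes. -/
theorem van_th {r : ℝ} (hr : 0 < r) : Van (th r) := by
  unfold Van
  filter_upwards [cut2_thR hr] with t ht
  change ((thR r t : ℝ) : ℂ) = 0
  rw [ht, Complex.ofReal_zero]

/-- TASK Cut2. -/
theorem van_one_sub_et : Van (1 - et) := by
  unfold Van
  filter_upwards [cut2_nhds (by norm_num : (0 : ℝ) < 1 / 40)] with t ht
  change (1 : ℂ) - ((etR t : ℝ) : ℂ) = 0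
  rw [etR_eq_one ht.le, Complex.ofReal_one, sub_self]

/-- TASK Cut2. `laR` is continuous at every `t ≠ 1`, and near `1` the function vanishes. -/
theorem psi1_apply {r : ℝ} (hr : 0 < r) (t : T2) :
    psi1 r t = ((laR t * thR r t * etR t : ℝ) : ℂ) := by
  have h : Continuous fun t => ((laR t * thR r t * etR t : ℝ) : ℂ) :=
    cut2_cont hr laR fun t ht => cut2_laR_cont ht
  unfold psi1
  rw [dif_pos h]
  rfl

/-- TASK Cut2. -/
theorem psi2_apply {r : ℝ} (hr : 0 < r) (t : T2) :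
    psi2 r t = (((1 - laR t) * thR r t * etR t : ℝ) : ℂ) := by
  have h : Continuous fun t => (((1 - laR t) * thR r t * etR t : ℝ) : ℂ) :=
    cut2_cont hr (fun t => 1 - laR t) fun t ht => continuousAt_const.sub (cut2_laR_cont ht)
  unfold psi2
  rw [dif_pos h]
  rfl

/-- TASK Cut2. -/
theorem van_psi1 {r : ℝ} (hr : 0 < r) : Van (psi1 r) := by
  unfold Van
  filter_upwards [cut2_thR hr] with t ht
  rw [psi1_apply hr, ht, mul_zero, zero_mul, Complex.ofReal_zero]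

/-- TASK Cut2. -/
theorem van_psi2 {r : ℝ} (hr : 0 < r) : Van (psi2 r) := by
  unfold Van
  filter_upwards [cut2_thR hr] with t ht
  rw [psi2_apply hr, ht, mul_zero, zero_mul, Complex.ofReal_zero]

theorem cut2_bound {a b c : ℝ} (ha : 0 ≤ a ∧ a ≤ 1) (hb : 0 ≤ b ∧ b ≤ 1) (hc : 0 ≤ c ∧ c ≤ 1) :
    ‖((a * b * c : ℝ) : ℂ)‖ ≤ b := by
  rw [Complex.norm_real, Real.norm_eq_abs, abs_of_nonneg (mul_nonneg (mul_nonneg ha.1 hb.1) hc.1)]
  calc a * b * c ≤ 1 * b * 1 :=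
        mul_le_mul (mul_le_mul_of_nonneg_right ha.2 hb.1) hc.2 hc.1 (by linarith [hb.1])
    _ = b := by ring

theorem cut2_one_sub {a : ℝ} (ha : 0 ≤ a ∧ a ≤ 1) : 0 ≤ 1 - a ∧ 1 - a ≤ 1 :=
  ⟨by linarith [ha.2], by linarith [ha.1]⟩

/-- TASK Cut2. -/
theorem norm_psi1_le {r : ℝ} (hr : 0 < r) : ‖psi1 r‖ ≤ 1 := by
  refine (ContinuousMap.norm_le _ zero_le_one).2 fun t => ?_
  rw [psi1_apply hr]
  exact (cut2_bound (laR_mem t) (thR_mem r t) (etR_mem t)).trans (thR_mem r t).2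

/-- TASK Cut2. -/
theorem norm_psi2_le {r : ℝ} (hr : 0 < r) : ‖psi2 r‖ ≤ 1 := by
  refine (ContinuousMap.norm_le _ zero_le_one).2 fun t => ?_
  rw [psi2_apply hr]
  exact (cut2_bound (cut2_one_sub (laR_mem t)) (thR_mem r t) (etR_mem t)).trans (thR_mem r t).2

/-- TASK Cut2. Pointwise: `θ η + (1 - η) = θ` because `η t ≠ 1` implies `nrm t > 1/40 ≥ r`, so
`θ t = 1`. -/
theorem th_split {r : ℝ} (hr : 0 < r) (h : r ≤ 1 / 40) :
    th r = (psi1 r + psi2 r) + (1 - et) := by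
  ext t
  rw [ContinuousMap.add_apply, ContinuousMap.add_apply, psi1_apply hr, psi2_apply hr]
  change ((thR r t : ℝ) : ℂ) = _ + ((1 : ℂ) - ((etR t : ℝ) : ℂ))
  have key : thR r t = (laR t * thR r t * etR t + (1 - laR t) * thR r t * etR t) + (1 - etR t) := by
    rcases le_or_gt (nrm t) (1 / 40) with h1 | h1
    · rw [etR_eq_one h1]
      ring
    · rw [thR_eq_one hr (h.trans h1.le)]
      ring
  conv_lhs => rw [key]
  push_cast
  ring

/-- TASK Cut2. `(θ' - θ)² + θ² ≤ θ'²` for `0 ≤ θ ≤ θ'`. -/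
theorem th_sq {r r' : ℝ} (hr' : 0 < r') (h : r' ≤ r) (t : T2) :
    ‖(th r' - th r) t‖ ^ 2 + ‖th r t‖ ^ 2 ≤ ‖th r' t‖ ^ 2 := by
  have e1 : (th r' - th r) t = ((thR r' t - thR r t : ℝ) : ℂ) := by
    change ((thR r' t : ℝ) : ℂ) - ((thR r t : ℝ) : ℂ) = _
    push_cast
    rfl
  have e2 : th r t = ((thR r t : ℝ) : ℂ) := rfl
  have e3 : th r' t = ((thR r' t : ℝ) : ℂ) := rfl
  rw [e1, e2, e3, Complex.norm_real, Complex.norm_real, Complex.norm_real, Real.norm_eq_abs,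
    Real.norm_eq_abs, Real.norm_eq_abs, sq_abs, sq_abs, sq_abs]
  have h1 := thR_anti hr' h t
  have h2 := (thR_mem r t).1
  nlinarith [mul_nonneg h2 (sub_nonneg.2 h1)]

/-- TASK Cut3. If `thR r t ≠ 1` then `nrm t < r`; writing `t = (exp (i s), exp (i u))`
(`exists_exp`), `|ech m n t - 1| = |exp (i (m s + n u)) - 1| ≤ |m| |s| + |n| |u| ≤ (|m| + |n|) r`. -/
theorem ech_th_small (m n : ℤ) {r : ℝ} (hr : 0 < r) :
    ‖(ech m n - 1) * (1 - th r)‖ ≤ (|(m : ℝ)| + |(n : ℝ)|) * r := by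
  have hC : 0 ≤ (|(m : ℝ)| + |(n : ℝ)|) * r :=
    mul_nonneg (add_nonneg (abs_nonneg _) (abs_nonneg _)) hr.le
  refine (ContinuousMap.norm_le _ hC).2 fun t => ?_
  have e1 : ((ech m n - 1) * (1 - th r)) t =
      (((t.1 ^ m * t.2 ^ n : Circle) : ℂ) - 1) * ((1 - thR r t : ℝ) : ℂ) := by
    change (((t.1 ^ m * t.2 ^ n : Circle) : ℂ) - 1) * (1 - ((thR r t : ℝ) : ℂ)) = _
    push_cast
    rfl
  rw [e1, norm_mul, Complex.norm_real, Real.norm_eq_abs]
  have h1 := cut2_one_sub (thR_mem r t)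
  rw [abs_of_nonneg h1.1]
  by_cases h : thR r t = 1
  · rw [h, sub_self, mul_zero]
    exact hC
  · have hlt : nrm t < r := by
      by_contra hn
      exact h (thR_eq_one hr (not_lt.1 hn))
    obtain ⟨s, hs, hs'⟩ := exists_exp t.1
    obtain ⟨u, hu, hu'⟩ := exists_exp t.2
    have hs2 : |s| ≤ r := hs ▸ (le_max_left _ _).trans hlt.le
    have hu2 : |u| ≤ r := hu ▸ (le_max_right _ _).trans hlt.le
    have e2 : t.1 ^ m * t.2 ^ n = Circle.exp ((m : ℝ) * s + (n : ℝ) * u) := by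
      rw [Circle.exp_add, ← zsmul_eq_mul, ← zsmul_eq_mul, Circle.exp_zsmul, Circle.exp_zsmul, hs',
        hu']
    have e3 : ‖((t.1 ^ m * t.2 ^ n : Circle) : ℂ) - 1‖ ≤ (|(m : ℝ)| + |(n : ℝ)|) * r := by
      rw [e2, Circle.coe_exp, mul_comm]
      refine Real.norm_exp_I_mul_ofReal_sub_one_le.trans ?_
      rw [Real.norm_eq_abs]
      calc |(m : ℝ) * s + (n : ℝ) * u| ≤ |(m : ℝ) * s| + |(n : ℝ) * u| := abs_add_le _ _
        _ = |(m : ℝ)| * |s| + |(n : ℝ)| * |u| := by rw [abs_mul, abs_mul]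
        _ ≤ |(m : ℝ)| * r + |(n : ℝ)| * r :=
          add_le_add (mul_le_mul_of_nonneg_left hs2 (abs_nonneg _))
            (mul_le_mul_of_nonneg_left hu2 (abs_nonneg _))
        _ = (|(m : ℝ)| + |(n : ℝ)|) * r := by ring
    calc _ ≤ ((|(m : ℝ)| + |(n : ℝ)|) * r) * 1 := mul_le_mul e3 h1.2 h1.1 hC
      _ = _ := mul_one _

theorem cut4_sector {s : ℝ} {z w : Circle} {k : ℕ} (hk : k ≤ 8) (hz : Circle.exp s = z)
    (hs : |s| ≤ 1 / 20) (hlt : ag (z ^ (-(5 * (k : ℤ))) * w) < 2 * |s|) :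
    |(w : ℂ).arg - 5 * k * s| < 2 * |s| ∧ ag (z ^ (-(5 * (k : ℤ))) * w) ≤ ag w := by
  obtain ⟨u, hu, hu'⟩ := exists_exp (z ^ (-(5 * (k : ℤ))) * w)
  have hk' : (k : ℝ) ≤ 8 := by exact_mod_cast hk
  have hk0 : (0 : ℝ) ≤ k := Nat.cast_nonneg k
  have hpi := Real.pi_gt_three
  have hexp : Circle.exp (5 * k * s + u) = w := by
    have h1 : Circle.exp (5 * k * s) = z ^ (5 * (k : ℤ)) := by
      rw [← hz, ← Circle.exp_zsmul, zsmul_eq_mul]
      push_cast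
      rfl
    rw [Circle.exp_add, h1, hu', ← mul_assoc, ← zpow_add, add_neg_cancel, zpow_zero, one_mul]
  have h5 : |5 * (k : ℝ) * s| ≤ 2 := by
    rw [abs_mul, abs_of_nonneg (by positivity : (0 : ℝ) ≤ 5 * k)]
    calc 5 * (k : ℝ) * |s| ≤ (5 * 8) * (1 / 20) :=
          mul_le_mul (by linarith) hs (abs_nonneg _) (by norm_num)
      _ = 2 := by norm_num
  have hu2 : |u| < 2 * |s| := by rw [hu]; exact hlt
  have hv : |5 * (k : ℝ) * s + u| < Real.pi := by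
    calc |5 * (k : ℝ) * s + u| ≤ |5 * (k : ℝ) * s| + |u| := abs_add_le _ _
      _ < Real.pi := by linarith
  have harg : (w : ℂ).arg = 5 * k * s + u := by
    rw [← hexp]
    exact Circle.arg_exp (neg_lt_of_abs_lt hv) (le_of_abs_le hv.le)
  refine ⟨?_, ?_⟩
  · rw [harg, add_sub_cancel_left]
    exact hu2
  · have hw : ag w = |5 * (k : ℝ) * s + u| := by
      rw [← hexp]
      exact ag_exp hv.le
    rw [hw, ← hu]
    rcases Nat.eq_zero_or_pos k with h0 | h0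
    · rw [h0]
      simp
    · have h1 : (1 : ℝ) ≤ k := by exact_mod_cast h0
      have h2 : 5 * |s| ≤ |5 * (k : ℝ) * s| := by
        rw [abs_mul, abs_of_nonneg (by positivity : (0 : ℝ) ≤ 5 * k)]
        nlinarith [abs_nonneg s]
      have h3 : |5 * (k : ℝ) * s| - |u| ≤ |5 * (k : ℝ) * s + u| := by
        have := abs_sub_abs_le_abs_sub (5 * (k : ℝ) * s) (-u)
        rwa [abs_neg, sub_neg_eq_add] at this
      linarith [abs_nonneg s]

theorem cut4_unique {s v : ℝ} {k k' : ℕ} (h : |v - 5 * k * s| < 2 * |s|)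
    (h' : |v - 5 * k' * s| < 2 * |s|) : k = k' := by
  by_contra hne
  have h1 : (1 : ℝ) ≤ |(k : ℝ) - k'| := by
    have : (1 : ℤ) ≤ |(k : ℤ) - k'| := Int.one_le_abs (sub_ne_zero.2 (by exact_mod_cast hne))
    exact_mod_cast this
  have h2 : |5 * ((k : ℝ) - k') * s| ≤ |v - 5 * k * s| + |v - 5 * k' * s| := by
    have := abs_sub (v - 5 * k' * s) (v - 5 * k * s)
    have e : (v - 5 * k' * s) - (v - 5 * k * s) = 5 * ((k : ℝ) - k') * s := by ring
    rw [e] at this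
    linarith
  rw [abs_mul, abs_mul, abs_of_pos (by norm_num : (0 : ℝ) < 5)] at h2
  nlinarith [abs_nonneg s, mul_le_mul_of_nonneg_right h1 (abs_nonneg s)]

theorem cut4_sum (a : Fin 9 → ℝ) (b : ℝ) (hb : 0 ≤ b) (ha : ∀ k, a k ≠ 0 → a k ≤ b)
    (hu : ∀ k k', a k ≠ 0 → a k' ≠ 0 → k = k') : ∑ k, a k ≤ b := by
  by_cases h : ∃ k, a k ≠ 0
  · obtain ⟨k, hk⟩ := h
    rw [Finset.sum_eq_single k (fun j _ hj => ?_) (fun h => absurd (Finset.mem_univ _) h)]
    · exact ha k hk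
    · by_contra hj'
      exact hj (hu j k hj' hk)
  · push Not at h
    rw [Finset.sum_eq_zero fun k _ => h k]
    exact hb

theorem cut4_et {t : T2} (h : etR t ≠ 0) : nrm t < 1 / 20 := by
  by_contra hn
  exact h (etR_eq_zero (not_lt.1 hn))

/-- TASK Cut4. Let `t' = tP (-5k) t = (z, z^{-5k} w) = (exp (i s), exp (i u))`, `|s| = ag z`,
`|u| = ag t'.2`. If `psi1 r t' ≠ 0` then `|s| ≤ 1/20` (`etR t' ≠ 0`), `|u| < 2 |s|`
(`laR_ne_zero`), so `s ≠ 0`, and `w = exp (i v)` with `v = 5 k s + u`, `|v| ≤ 42 / 20 < π`, so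
`|v| = ag w`, and `v = arg w` is the same number for every such `k`: `v / s ∈ (5k - 2, 5k + 2)`.
Hence there is at most one `k` with `psi1 r t' ≠ 0` (if `|v|, |v'| < π` and
`exp (i v) = exp (i v')` then `v = v'`). For this `k` we have `|v| ≥ |u|` (for `k = 0` `v = u`; for
`k ≥ 1` `|v| ≥ 5|s| - |u| ≥ 3 |s| ≥ |u|`), so `nrm t' ≤ nrm t` and
`‖psi1 r t'‖ ≤ thR r t' ≤ thR r t`. So the sum (at most one nonzero term) is `≤ ‖th r t‖²`. -/
theorem sum_psi1 {r : ℝ} (hr : 0 < r) (t : T2) :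
    ∑ k : Fin 9, ‖(psi1 r).comp (tP (-(5 * (k : ℕ) : ℤ))) t‖ ^ 2 ≤ ‖th r t‖ ^ 2 := by
  obtain ⟨s, hs, hs'⟩ := exists_exp t.1
  have hth : ‖th r t‖ = thR r t := by
    change ‖((thR r t : ℝ) : ℂ)‖ = _
    rw [Complex.norm_real, Real.norm_eq_abs, abs_of_nonneg (thR_mem r t).1]
  have key : ∀ k : Fin 9, ‖(psi1 r).comp (tP (-(5 * (k : ℕ) : ℤ))) t‖ ^ 2 ≠ 0 →
      |(t.2 : ℂ).arg - 5 * (k : ℕ) * s| < 2 * |s| ∧
        ‖(psi1 r).comp (tP (-(5 * (k : ℕ) : ℤ))) t‖ ≤ thR r t := by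
    intro k hk
    have e : (psi1 r).comp (tP (-(5 * (k : ℕ) : ℤ))) t =
        psi1 r (t.1, t.1 ^ (-(5 * ((k : ℕ) : ℤ))) * t.2) := rfl
    rw [e] at hk ⊢
    have hne : psi1 r (t.1, t.1 ^ (-(5 * ((k : ℕ) : ℤ))) * t.2) ≠ 0 := by
      intro h
      rw [h, norm_zero] at hk
      simp at hk
    rw [psi1_apply hr, Complex.ofReal_ne_zero] at hne
    have hla := left_ne_zero_of_mul (left_ne_zero_of_mul hne)
    have het := cut4_et (right_ne_zero_of_mul hne)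
    have hs2 : |s| ≤ 1 / 20 := hs ▸ (le_max_left _ _).trans het.le
    have hl := laR_ne_zero hla
    have hl' : ag (t.1 ^ (-(5 * ((k : ℕ) : ℤ))) * t.2) < 2 * |s| := by
      rw [hs]
      exact hl
    obtain ⟨h1, h2⟩ := cut4_sector (by omega) hs' hs2 hl'
    refine ⟨h1, ?_⟩
    rw [psi1_apply hr]
    refine (cut2_bound (laR_mem _) (thR_mem r _) (etR_mem _)).trans (thR_mono hr ?_)
    exact max_le_max le_rfl h2
  rw [hth]
  refine cut4_sum _ _ (sq_nonneg _) (fun k hk => ?_) (fun k k' hk hk' => ?_)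
  · exact pow_le_pow_left₀ (norm_nonneg _) (key k hk).2 2
  · exact Fin.ext (cut4_unique (key k hk).1 (key k' hk').1)

/-- TASK Cut5. The same proof with the two coordinates exchanged (`1 - laR t' ≠ 0` gives
`ag t'.1 < 2 * ag t'.2` by `laR_ne_one`; `t' ≠ 1` as `thR r t' ≠ 0`). -/
theorem sum_psi2 {r : ℝ} (hr : 0 < r) (t : T2) :
    ∑ k : Fin 9, ‖(psi2 r).comp (tQ (-(5 * (k : ℕ) : ℤ))) t‖ ^ 2 ≤ ‖th r t‖ ^ 2 := by
  obtain ⟨s, hs, hs'⟩ := exists_exp t.2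
  have hth : ‖th r t‖ = thR r t := by
    change ‖((thR r t : ℝ) : ℂ)‖ = _
    rw [Complex.norm_real, Real.norm_eq_abs, abs_of_nonneg (thR_mem r t).1]
  have key : ∀ k : Fin 9, ‖(psi2 r).comp (tQ (-(5 * (k : ℕ) : ℤ))) t‖ ^ 2 ≠ 0 →
      |(t.1 : ℂ).arg - 5 * (k : ℕ) * s| < 2 * |s| ∧
        ‖(psi2 r).comp (tQ (-(5 * (k : ℕ) : ℤ))) t‖ ≤ thR r t := by
    intro k hk
    have e : (psi2 r).comp (tQ (-(5 * (k : ℕ) : ℤ))) t =
        psi2 r (t.2 ^ (-(5 * ((k : ℕ) : ℤ))) * t.1, t.2) := by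
      rw [mul_comm (t.2 ^ (-(5 * ((k : ℕ) : ℤ)))) t.1]
      rfl
    rw [e] at hk ⊢
    have hne : psi2 r (t.2 ^ (-(5 * ((k : ℕ) : ℤ))) * t.1, t.2) ≠ 0 := by
      intro h
      rw [h, norm_zero] at hk
      simp at hk
    rw [psi2_apply hr, Complex.ofReal_ne_zero] at hne
    have hla := left_ne_zero_of_mul (left_ne_zero_of_mul hne)
    have hla' : laR (t.2 ^ (-(5 * ((k : ℕ) : ℤ))) * t.1, t.2) ≠ 1 := by
      intro h
      rw [h, sub_self] at hla
      exact hla rfl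
    have het := cut4_et (right_ne_zero_of_mul hne)
    have hs2 : |s| ≤ 1 / 20 := hs ▸ (le_max_right _ _).trans het.le
    have ht1 : ((t.2 ^ (-(5 * ((k : ℕ) : ℤ))) * t.1, t.2) : T2) ≠ 1 := by
      intro h
      have h0 := right_ne_zero_of_mul (left_ne_zero_of_mul hne)
      refine h0 (thR_eq_zero hr ?_)
      rw [(nrm_eq_zero_iff _).2 h]
      exact (half_pos hr).le
    have hl := laR_ne_one ht1 hla'
    have hl' : ag (t.2 ^ (-(5 * ((k : ℕ) : ℤ))) * t.1) < 2 * |s| := by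
      rw [hs]
      exact hl
    obtain ⟨h1, h2⟩ := cut4_sector (by omega) hs' hs2 hl'
    refine ⟨h1, ?_⟩
    rw [psi2_apply hr]
    refine (cut2_bound (cut2_one_sub (laR_mem _)) (thR_mem r _) (etR_mem _)).trans
      (thR_mono hr ?_)
    exact max_le_max h2 le_rfl
  rw [hth]
  refine cut4_sum _ _ (sq_nonneg _) (fun k hk => ?_) (fun k k' hk hk' => ?_)
  · exact pow_le_pow_left₀ (norm_nonneg _) (key k hk).2 2
  · exact Fin.ext (cut4_unique (key k hk).1 (key k' hk').1)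

end C37.PB
end

section

/-!
MP_c37615_al, PART B: a cocycle is a coboundary on `ℤ²` (relative property (T) of the pair, cocycle form).
-/

set_option autoImplicit false

open Filter Topology
open scoped InnerProductSpace

namespace C37.PB

variable {G : Type*} [Group G] [TopologicalSpace G] {H : Type*} [NormedAddCommGroup H]
  [InnerProductSpace ℂ H] [CompleteSpace H]

/-- TASK Bd1. -/
theorem cocycle_sub {U : URep G H} {b : G → H} (hb : IsCocycle U b) (ξ : H) :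
    IsCocycle U (fun g => b g - (U.op g ξ - ξ)) := by
  intro g h
  have e1 : U.op (g * h) ξ = U.op g (U.op h ξ) := by rw [U.mul]; rfl
  simp only [hb g h, e1, map_sub]
  abel

/-- TASK Bd1. Let `m = g n g⁻¹`, `w = π(g) b(n) - b(m)`. By `cocycle_conj`, `w = π(m) b(g) - b(g)`,
and by hypothesis `π(m) w = w`. So `‖w‖² = ⟪w, π(m) b(g)⟫ - ⟪w, b(g)⟫ =
⟪π(m) w, π(m) b(g)⟫ - ⟪w, b(g)⟫ = 0` (`inner_op`). -/
theorem conj_eq {U : URep G H} {b : G → H} (hb : IsCocycle U b) (g n : G)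
    (h : U.op (g * n * g⁻¹) (U.op g (b n) - b (g * n * g⁻¹)) = U.op g (b n) - b (g * n * g⁻¹)) :
    b (g * n * g⁻¹) = U.op g (b n) := by
  set m := g * n * g⁻¹ with hm
  have hw : U.op g (b n) - b m = U.op m (b g) - b g := by
    rw [hm, cocycle_conj hb g n]
    abel
  set w := U.op g (b n) - b m with hwdef
  have h0 : ⟪w, w⟫_ℂ = 0 := by
    have h1 : ⟪w, w⟫_ℂ = ⟪w, U.op m (b g)⟫_ℂ - ⟪w, b g⟫_ℂ := by
      rw [← inner_sub_right, ← hw]
    have h2 : ⟪w, U.op m (b g)⟫_ℂ = ⟪w, b g⟫_ℂ := by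
      have h3 := U.inner_op m w (b g)
      rw [h] at h3
      exact h3
    rw [h1, h2, sub_self]
  have h4 : w = 0 := inner_self_eq_zero.1 h0
  rw [hwdef] at h4
  exact (sub_eq_zero.1 h4).symm

namespace Ctx

variable (c : Ctx G H)

theorem bd2_aux (x : Fin 9 → ℝ) (a B M : ℝ) (hM : 0 ≤ M) (h1 : ∀ k, a ≤ x k + B)
    (h2 : ∑ k, x k ^ 2 ≤ M ^ 2) : a ≤ B + M / 3 := by
  by_contra hcon
  push Not at hcon
  have h3 : ∀ k, (a - B) ^ 2 ≤ x k ^ 2 := by
    intro k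
    have h4 : a - B ≤ x k := by linarith [h1 k]
    have h5 : 0 ≤ a - B := by linarith
    exact pow_le_pow_left₀ h5 h4 2
  have h6 : ∑ _k : Fin 9, (a - B) ^ 2 ≤ ∑ k, x k ^ 2 := Finset.sum_le_sum fun k _ => h3 k
  rw [Finset.sum_const, Finset.card_univ, Fintype.card_fin, nsmul_eq_mul] at h6
  have h7 : M / 3 < a - B := by linarith
  have h8 : 0 ≤ M / 3 := by positivity
  push_cast at h6
  nlinarith

theorem bd2_comp_le (f : C(T2, ℂ)) (g : C(T2, T2)) : ‖f.comp g‖ ≤ ‖f‖ := by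
  rw [ContinuousMap.norm_le _ (norm_nonneg _)]
  intro x
  exact f.norm_coe_le_norm (g x)

/-- TASK Bd2. Let `a = ‖Xi (psi1 r)‖`, `M = ‖Xi (th r)‖`, `f_k = psi1 r ∘ tP (-5k)`. By `op_P_xi` (the
operators are isometric) `a ≤ ‖Xi f_k‖ + ‖f_k‖ ‖b(P(-5k))‖ ≤ ‖Xi f_k‖ + B` (`phi_norm_le`,
`norm_psi1_le`). By `xi_sum_le`, `sum_psi1` (`Van f_k` by `van_comp`, `tP k 1 = 1`)
`∑_k ‖Xi f_k‖² ≤ M²`. If `a > B` then `9 (a - B)² ≤ M²`, so `a ≤ B + M / 3`; if `a ≤ B` clear. -/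
theorem xi_psi1_le {r B : ℝ} (hr : 0 < r)
    (hB : ∀ k : Fin 9, ‖c.b (c.p.P (-(5 * (k : ℕ) : ℤ)))‖ ≤ B) :
    ‖c.Xi (psi1 r)‖ ≤ B + ‖c.Xi (th r)‖ / 3 := by
  refine bd2_aux (fun k => ‖c.Xi ((psi1 r).comp (tP (-(5 * (k : ℕ) : ℤ))))‖) _ _ _ (norm_nonneg _)
    ?_ ?_
  · intro k
    have h1 := c.op_P_xi (-(5 * (k : ℕ) : ℤ)) (van_psi1 hr)
    have h2 : ‖c.Xi (psi1 r)‖ = ‖c.U.op (c.p.P (-(5 * (k : ℕ) : ℤ))) (c.Xi (psi1 r))‖ :=
      (c.U.norm _ _).symm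
    rw [h2, h1]
    refine (norm_add_le _ _).trans (add_le_add le_rfl ?_)
    refine (phi_norm_le c.Φ _ _).trans ?_
    have h3 : ‖(psi1 r).comp (tP (-(5 * (k : ℕ) : ℤ)))‖ ≤ 1 :=
      (bd2_comp_le _ _).trans (norm_psi1_le hr)
    calc _ ≤ 1 * ‖c.b (c.p.P (-(5 * (k : ℕ) : ℤ)))‖ :=
          mul_le_mul_of_nonneg_right h3 (norm_nonneg _)
      _ ≤ B := by rw [one_mul]; exact hB k
  · exact c.xi_sum_le (fun k => van_comp _ (by
      simp [tP]) (van_psi1 hr)) (van_th hr) (sum_psi1 hr)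

/-- TASK Bd2. The same. -/
theorem xi_psi2_le {r B : ℝ} (hr : 0 < r)
    (hB : ∀ k : Fin 9, ‖c.b (c.p.Q (-(5 * (k : ℕ) : ℤ)))‖ ≤ B) :
    ‖c.Xi (psi2 r)‖ ≤ B + ‖c.Xi (th r)‖ / 3 := by
  refine bd2_aux (fun k => ‖c.Xi ((psi2 r).comp (tQ (-(5 * (k : ℕ) : ℤ))))‖) _ _ _ (norm_nonneg _)
    ?_ ?_
  · intro k
    have h1 := c.op_Q_xi (-(5 * (k : ℕ) : ℤ)) (van_psi2 hr)
    have h2 : ‖c.Xi (psi2 r)‖ = ‖c.U.op (c.p.Q (-(5 * (k : ℕ) : ℤ))) (c.Xi (psi2 r))‖ :=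
      (c.U.norm _ _).symm
    rw [h2, h1]
    refine (norm_add_le _ _).trans (add_le_add le_rfl ?_)
    refine (phi_norm_le c.Φ _ _).trans ?_
    have h3 : ‖(psi2 r).comp (tQ (-(5 * (k : ℕ) : ℤ)))‖ ≤ 1 :=
      (bd2_comp_le _ _).trans (norm_psi2_le hr)
    calc _ ≤ 1 * ‖c.b (c.p.Q (-(5 * (k : ℕ) : ℤ)))‖ :=
          mul_le_mul_of_nonneg_right h3 (norm_nonneg _)
      _ ≤ B := by rw [one_mul]; exact hB k
  · exact c.xi_sum_le (fun k => van_comp _ (by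
      simp [tQ]) (van_psi2 hr)) (van_th hr) (sum_psi2 hr)

theorem bd3_van_add {f g : C(T2, ℂ)} (hf : Van f) (hg : Van g) : Van (f + g) := by
  filter_upwards [hf, hg] with t h1 h2
  rw [ContinuousMap.add_apply, h1, h2, add_zero]

theorem bd3_van_sub {f g : C(T2, ℂ)} (hf : Van f) (hg : Van g) : Van (f - g) := by
  filter_upwards [hf, hg] with t h1 h2
  rw [ContinuousMap.sub_apply, h1, h2, sub_zero]

/-- TASK Bd3. By `th_split`, `xi_add` and the two estimates,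
`M ≤ 2 B + 2 M / 3 + ‖Xi (1 - et)‖`, so `M ≤ 6 B + 3 ‖Xi (1 - et)‖`. (`B` = the maximum of the 18
norms.) -/
theorem xi_th_bounded : ∃ M : ℝ, ∀ r : ℝ, 0 < r → r ≤ 1 / 40 → ‖c.Xi (th r)‖ ≤ M := by
  set B : ℝ := ∑ k : Fin 9, ‖c.b (c.p.P (-(5 * (k : ℕ) : ℤ)))‖ +
    ∑ k : Fin 9, ‖c.b (c.p.Q (-(5 * (k : ℕ) : ℤ)))‖ with hB
  have hP : ∀ k : Fin 9, ‖c.b (c.p.P (-(5 * (k : ℕ) : ℤ)))‖ ≤ B := by
    intro k
    have h1 := Finset.single_le_sum (f := fun k : Fin 9 => ‖c.b (c.p.P (-(5 * (k : ℕ) : ℤ)))‖)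
      (fun _ _ => norm_nonneg _) (Finset.mem_univ k)
    have h2 : 0 ≤ ∑ k : Fin 9, ‖c.b (c.p.Q (-(5 * (k : ℕ) : ℤ)))‖ :=
      Finset.sum_nonneg fun _ _ => norm_nonneg _
    linarith
  have hQ : ∀ k : Fin 9, ‖c.b (c.p.Q (-(5 * (k : ℕ) : ℤ)))‖ ≤ B := by
    intro k
    have h1 := Finset.single_le_sum (f := fun k : Fin 9 => ‖c.b (c.p.Q (-(5 * (k : ℕ) : ℤ)))‖)
      (fun _ _ => norm_nonneg _) (Finset.mem_univ k)
    have h2 : 0 ≤ ∑ k : Fin 9, ‖c.b (c.p.P (-(5 * (k : ℕ) : ℤ)))‖ :=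
      Finset.sum_nonneg fun _ _ => norm_nonneg _
    linarith
  refine ⟨6 * B + 3 * ‖c.Xi (1 - et)‖, fun r hr hr2 => ?_⟩
  have h1 := c.xi_psi1_le hr hP
  have h2 := c.xi_psi2_le hr hQ
  have h3 : c.Xi (th r) = (c.Xi (psi1 r) + c.Xi (psi2 r)) + c.Xi (1 - et) := by
    rw [th_split hr hr2, c.xi_add (bd3_van_add (van_psi1 hr) (van_psi2 hr)) van_one_sub_et,
      c.xi_add (van_psi1 hr) (van_psi2 hr)]
  have h4 : ‖c.Xi (th r)‖ ≤ ‖c.Xi (psi1 r)‖ + ‖c.Xi (psi2 r)‖ + ‖c.Xi (1 - et)‖ := by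
    conv_lhs => rw [h3]
    exact norm_add₃_le
  linarith

/-- TASK Bd3. For `r' ≤ r`: `‖Xi(th r') - Xi(th r)‖² + ‖Xi(th r)‖² ≤ ‖Xi(th r')‖²`
(`xi_sum_le` with `κ = Fin 2`, `th_sq`, and `Xi(th r') = Xi(th r' - th r) + Xi(th r)` by `xi_add`;
`th r' - th r` vanishes near `1`). So `j ↦ ‖Xi(th r_j)‖²` is monotone and bounded, hence
convergent (Cauchy), and `Xi(th r_j)` is a Cauchy sequence. -/
theorem xi_cauchy : ∃ ξ : H, Tendsto (fun j : ℕ => c.Xi (th (1 / (40 * 2 ^ j)))) atTop (𝓝 ξ) := by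
  obtain ⟨M, hM⟩ := c.xi_th_bounded
  set x : ℕ → H := fun j => c.Xi (th (1 / (40 * 2 ^ j))) with hx
  have hr : ∀ j : ℕ, (0 : ℝ) < 1 / (40 * 2 ^ j) := fun j => by positivity
  have hmono : ∀ i j : ℕ, i ≤ j → (1 : ℝ) / (40 * 2 ^ j) ≤ 1 / (40 * 2 ^ i) := by
    intro i j hij
    refine one_div_le_one_div_of_le (by positivity) ?_
    have : (2 : ℝ) ^ i ≤ 2 ^ j := pow_le_pow_right₀ (by norm_num) hij
    linarith
  have hxM : ∀ j, ‖x j‖ ≤ M := by
    intro j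
    refine hM _ (hr j) ?_
    have := hmono 0 j (Nat.zero_le _)
    simpa using this
  have key : ∀ i j : ℕ, i ≤ j → ‖x j - x i‖ ^ 2 + ‖x i‖ ^ 2 ≤ ‖x j‖ ^ 2 := by
    intro i j hij
    have h1 := c.xi_sum_le (κ := Fin 2)
      (f := ![th (1 / (40 * 2 ^ j)) - th (1 / (40 * 2 ^ i)), th (1 / (40 * 2 ^ i))])
      (g := th (1 / (40 * 2 ^ j))) (by
        intro k
        fin_cases k
        · exact bd3_van_sub (van_th (hr j)) (van_th (hr i))
        · exact van_th (hr i)) (van_th (hr j)) (by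
        intro t
        rw [Fin.sum_univ_two]
        exact th_sq (hr j) (hmono i j hij) t)
    rw [Fin.sum_univ_two] at h1
    have h2 : c.Xi (th (1 / (40 * 2 ^ j)) - th (1 / (40 * 2 ^ i))) = x j - x i := by
      have h3 := c.xi_add (bd3_van_sub (van_th (hr j)) (van_th (hr i))) (van_th (hr i))
      rw [sub_add_cancel] at h3
      rw [hx]
      simp only
      rw [h3, add_sub_cancel_right]
    simp only [Matrix.cons_val_zero, Matrix.cons_val_one] at h1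
    rw [h2] at h1
    exact h1
  set a : ℕ → ℝ := fun j => ‖x j‖ ^ 2 with ha
  have hamono : Monotone a := by
    intro i j hij
    have := key i j hij
    simp only [ha]
    nlinarith [sq_nonneg ‖x j - x i‖]
  have habdd : BddAbove (Set.range a) := by
    refine ⟨M ^ 2, ?_⟩
    rintro _ ⟨j, rfl⟩
    exact pow_le_pow_left₀ (norm_nonneg _) (hxM j) 2
  have hlim := tendsto_atTop_ciSup hamono habdd
  set A := ⨆ i, a i with hA
  have hle : ∀ j, a j ≤ A := fun j => le_ciSup habdd j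
  have hdist : ∀ i j N : ℕ, N ≤ i → i ≤ j → dist (x i) (x j) ≤ Real.sqrt (A - a N) := by
    intro i j N hNi hij
    rw [dist_comm, dist_eq_norm]
    apply Real.le_sqrt_of_sq_le
    have h1 := key i j hij
    have h2 := hle j
    have h3 := hamono hNi
    simp only [ha] at h2 h3 ⊢
    linarith
  have hcau : CauchySeq x := by
    refine cauchySeq_of_le_tendsto_0 (fun N => Real.sqrt (A - a N)) ?_ ?_
    · intro n m N hn hm
      rcases le_total n m with h | h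
      · exact hdist n m N hn h
      · rw [dist_comm]; exact hdist m n N hm h
    · have h1 : Tendsto (fun N => A - a N) atTop (𝓝 (A - A)) := tendsto_const_nhds.sub hlim
      rw [sub_self] at h1
      have h2 := (Real.continuous_sqrt.tendsto 0).comp h1
      rw [Real.sqrt_zero] at h2
      exact h2
  exact cauchySeq_tendsto_of_complete hcau

/-- TASK Bd4. `Φ(th r) b(n) = Xi((e_n - 1) th r) = Φ(e_n - 1) Xi(th r) = π(n) Xi(th r) - Xi(th r)`
(`xi_ech`, `xi_mul`, `phi_ech`). -/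
theorem phi_th_tendsto {ξ : H}
    (h : Tendsto (fun j : ℕ => c.Xi (th (1 / (40 * 2 ^ j)))) atTop (𝓝 ξ)) (m n : ℤ) :
    Tendsto (fun j : ℕ => c.Φ (th (1 / (40 * 2 ^ j))) (c.b (c.p.u m n))) atTop
      (𝓝 (c.U.op (c.p.u m n) ξ - ξ)) := by
  have hr : ∀ j : ℕ, (0 : ℝ) < 1 / (40 * 2 ^ j) := fun j => by positivity
  have h1 : ∀ j : ℕ, c.Φ (th (1 / (40 * 2 ^ j))) (c.b (c.p.u m n)) =
      c.U.op (c.p.u m n) (c.Xi (th (1 / (40 * 2 ^ j)))) - c.Xi (th (1 / (40 * 2 ^ j))) := by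
    intro j
    rw [← c.xi_ech (van_th (hr j)) m n, c.xi_mul (van_th (hr j)), map_sub, c.phi_ech, map_one]
    rfl
  simp only [h1]
  exact (((c.U.op (c.p.u m n)).continuous.tendsto ξ).comp h).sub h

/-- TASK Bd4. `b(n) - (π(n) ξ - ξ) = lim Φ(1 - th r_j) b(n)` and
`(π(n') - 1) Φ(1 - th r_j) b(n) = Φ((e_{n'} - 1) (1 - th r_j)) b(n) → 0` by `ech_th_small` and
`phi_norm_le`. -/
theorem inv_of_lim {ξ : H}
    (h : Tendsto (fun j : ℕ => c.Xi (th (1 / (40 * 2 ^ j)))) atTop (𝓝 ξ)) (m n m' n' : ℤ) :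
    c.U.op (c.p.u m' n') (c.b (c.p.u m n) - (c.U.op (c.p.u m n) ξ - ξ))
      = c.b (c.p.u m n) - (c.U.op (c.p.u m n) ξ - ξ) := by
  have hr : ∀ j : ℕ, (0 : ℝ) < 1 / (40 * 2 ^ j) := fun j => by positivity
  set v := c.b (c.p.u m n) with hv
  set D := v - (c.U.op (c.p.u m n) ξ - ξ) with hD
  set F : ℕ → H := fun j => v - c.Φ (th (1 / (40 * 2 ^ j))) v with hF
  have h1 : Tendsto F atTop (𝓝 D) := tendsto_const_nhds.sub (c.phi_th_tendsto h m n)
  have h2 : Tendsto (fun j => c.U.op (c.p.u m' n') (F j) - F j) atTop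
      (𝓝 (c.U.op (c.p.u m' n') D - D)) :=
    (((c.U.op (c.p.u m' n')).continuous.tendsto D).comp h1).sub h1
  have h3 : ∀ j, ‖c.U.op (c.p.u m' n') (F j) - F j‖ ≤
      (|(m' : ℝ)| + |(n' : ℝ)|) * (1 / (40 * 2 ^ j)) * ‖v‖ := by
    intro j
    have e : c.U.op (c.p.u m' n') (F j) - F j =
        c.Φ ((ech m' n' - 1) * (1 - th (1 / (40 * 2 ^ j)))) v := by
      have e2 : c.Φ ((ech m' n' - 1) * (1 - th (1 / (40 * 2 ^ j)))) =
          (c.U.op (c.p.u m' n') - 1) * (1 - c.Φ (th (1 / (40 * 2 ^ j)))) := by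
        rw [map_mul, map_sub c.Φ, map_sub c.Φ, map_one, c.phi_ech]
      rw [e2]
      rfl
    rw [e]
    refine (phi_norm_le c.Φ _ _).trans ?_
    exact mul_le_mul_of_nonneg_right (ech_th_small m' n' (hr j)) (norm_nonneg _)
  have h4 : Tendsto (fun j : ℕ => (|(m' : ℝ)| + |(n' : ℝ)|) * (1 / (40 * 2 ^ j)) * ‖v‖) atTop
      (𝓝 0) := by
    have h5 : Tendsto (fun j : ℕ => (1 / 2 : ℝ) ^ j) atTop (𝓝 0) :=
      tendsto_pow_atTop_nhds_zero_of_lt_one (by norm_num) (by norm_num)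
    have h6 := h5.const_mul ((|(m' : ℝ)| + |(n' : ℝ)|) * (1 / 40) * ‖v‖)
    rw [mul_zero] at h6
    refine h6.congr fun j => ?_
    rw [div_pow, one_pow]
    field_simp
  have h7 : Tendsto (fun j => c.U.op (c.p.u m' n') (F j) - F j) atTop (𝓝 0) :=
    squeeze_zero_norm h3 h4
  exact sub_eq_zero.1 (tendsto_nhds_unique h2 h7)

/-- TASK Bd5. Take `ξ` from `xi_cauchy`, `b' = b - ∂ξ` (`cocycle_sub`). By `inv_of_lim` every
`b'(n)`, `n ∈ N = u(ℤ²)`, is `N`-invariant. Hence `b'` is additive on `N`.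
For `g = P k` and `n ∈ N`: `g⁻¹ N g = N`, so `π(g) b'(n)` is `N`-invariant too, and `conj_eq` gives
`b'(g n g⁻¹) = π(g) b'(n)`. With `n = u 0 1`: `b'(u 0 1) + k b'(u 1 0) = π(P k) b'(u 0 1)`, so
`|k| ‖b'(u 1 0)‖ ≤ 2 ‖b'(u 0 1)‖` for all `k`, so `b'(u 1 0) = 0`. With `Q` in the same way
`b'(u 0 1) = 0`. By additivity `b' = 0` on `N`. -/
theorem pair_fixed : ∃ ξ : H, ∀ m n : ℤ, c.b (c.p.u m n) = c.U.op (c.p.u m n) ξ - ξ := by
  obtain ⟨ξ, hξ⟩ := c.xi_cauchy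
  set b' : G → H := fun g => c.b g - (c.U.op g ξ - ξ) with hb'
  have hc : IsCocycle c.U b' := cocycle_sub c.hb ξ
  have hinv : ∀ m n m' n' : ℤ, c.U.op (c.p.u m' n') (b' (c.p.u m n)) = b' (c.p.u m n) :=
    fun m n m' n' => c.inv_of_lim hξ m n m' n'
  have hadd : ∀ m n m' n' : ℤ, b' (c.p.u (m + m') (n + n')) =
      b' (c.p.u m n) + b' (c.p.u m' n') := by
    intro m n m' n'
    rw [c.p.u_add, hc, hinv]
  have hconj : ∀ (g : G) (m n m' n' : ℤ), g * c.p.u m n * g⁻¹ = c.p.u m' n' →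
      b' (c.p.u m' n') = c.U.op g (b' (c.p.u m n)) := by
    intro g m n m' n' h
    have h1 : c.U.op (g * c.p.u m n * g⁻¹) (c.U.op g (b' (c.p.u m n))) =
        c.U.op g (b' (c.p.u m n)) := by
      have h2 : c.U.op (g * c.p.u m n * g⁻¹) (c.U.op g (b' (c.p.u m n))) =
          c.U.op g (c.U.op (c.p.u m n) (b' (c.p.u m n))) := by
        have h3 : c.U.op (g * c.p.u m n * g⁻¹) * c.U.op g = c.U.op g * c.U.op (c.p.u m n) := by
          rw [← c.U.mul, ← c.U.mul, inv_mul_cancel_right]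
        exact DFunLike.congr_fun h3 _
      rw [h2, hinv]
    have h4 := conj_eq hc g (c.p.u m n) (by
      rw [map_sub, h1, h]
      rw [hinv])
    rw [← h]
    exact h4
  have hP : ∀ k : ℤ, b' (c.p.u k 1) = c.U.op (c.p.P k) (b' (c.p.u 0 1)) := by
    intro k
    have h1 := hconj (c.p.P k) 0 1 (0 + k * 1) 1 (c.p.P_conj k 0 1)
    rwa [zero_add, mul_one] at h1
  have hQ : ∀ k : ℤ, b' (c.p.u 1 k) = c.U.op (c.p.Q k) (b' (c.p.u 1 0)) := by
    intro k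
    have h1 := hconj (c.p.Q k) 1 0 1 (0 + k * 1) (c.p.Q_conj k 1 0)
    rwa [zero_add, mul_one] at h1
  have hk : ∀ k : ℤ, b' (c.p.u k 1) = b' (c.p.u k 0) + b' (c.p.u 0 1) := by
    intro k
    have h1 := hadd k 0 0 1
    rwa [add_zero, zero_add] at h1
  have hk' : ∀ k : ℤ, b' (c.p.u 1 k) = b' (c.p.u 1 0) + b' (c.p.u 0 k) := by
    intro k
    have h1 := hadd 1 0 0 k
    rwa [add_zero, zero_add] at h1
  have hnat : ∀ k : ℕ, b' (c.p.u (k : ℤ) 0) = (k : ℝ) • b' (c.p.u 1 0) := by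
    intro k
    induction k with
    | zero =>
      have h1 := hadd 0 0 0 0
      rw [add_zero] at h1
      have h2 : b' (c.p.u 0 0) = 0 := by
        have h3 := h1
        nth_rewrite 1 [← add_zero (b' (c.p.u 0 0))] at h3
        exact (add_left_cancel h3).symm
      simpa using h2
    | succ k ih =>
      have h1 := hadd (k : ℤ) 0 1 0
      rw [add_zero, ih] at h1
      push_cast
      rw [h1, add_smul, one_smul]
  have h10 : b' (c.p.u 1 0) = 0 := by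
    by_contra hne
    have hpos : 0 < ‖b' (c.p.u 1 0)‖ := norm_pos_iff.2 hne
    obtain ⟨k, hk2⟩ := exists_nat_gt (2 * ‖b' (c.p.u 0 1)‖ / ‖b' (c.p.u 1 0)‖)
    rw [div_lt_iff₀ hpos] at hk2
    have h1 : ‖b' (c.p.u (k : ℤ) 0)‖ ≤ 2 * ‖b' (c.p.u 0 1)‖ := by
      have h2 : b' (c.p.u (k : ℤ) 0) = c.U.op (c.p.P k) (b' (c.p.u 0 1)) - b' (c.p.u 0 1) := by
        rw [← hP, hk, add_sub_cancel_right]
      rw [h2]
      refine (norm_sub_le _ _).trans ?_
      rw [c.U.norm]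
      linarith
    rw [hnat, norm_smul, Real.norm_natCast] at h1
    linarith
  have h01k : ∀ k : ℤ, b' (c.p.u 0 k) = 0 := by
    intro k
    have h1 := hk' k
    rw [hQ, h10, map_zero, zero_add] at h1
    exact h1.symm
  have h0k : ∀ k : ℤ, b' (c.p.u k 0) = 0 := by
    intro k
    have h1 := hk k
    rw [hP, h01k 1, map_zero, add_zero] at h1
    exact h1.symm
  refine ⟨ξ, fun m n => ?_⟩
  have h1 := hadd m 0 0 n
  rw [add_zero, zero_add, h0k, h01k, add_zero] at h1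
  exact sub_eq_zero.1 h1

end Ctx

/-- TASK Bd5. `exists_phi` for the unitaries `π(u 1 0)`, `π(u 0 1)` (they commute since
`u 1 0 * u 0 1 = u 1 1 = u 0 1 * u 1 0`), then `Ctx.pair_fixed`. -/
theorem pair_fixed' (U : URep G H) {b : G → H} (hb : IsCocycle U b) (p : Pair G) :
    ∃ ξ : H, ∀ m n : ℤ, b (p.u m n) = U.op (p.u m n) ξ - ξ := by
  have hcomm : U.op (p.u 1 0) * U.op (p.u 0 1) = U.op (p.u 0 1) * U.op (p.u 1 0) := by
    rw [← U.mul, ← U.mul, ← p.u_add, ← p.u_add]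
    norm_num
  obtain ⟨Φ, hz, hw⟩ := exists_phi (U.op (p.u 1 0)) (U.op (p.u 0 1)) (U.op_mem_unitary _)
    (U.op_mem_unitary _) hcomm
  exact Ctx.pair_fixed ⟨U, b, hb, p, Φ, hz, hw⟩

end C37.PB
end

section

/-!
MP_c37615_al, PART B: the circumcentre lemma.
-/

set_option autoImplicit false

open Filter Topology
open scoped InnerProductSpace

namespace C37.PB

theorem ci1_key {E : Type*} [NormedAddCommGroup E] [InnerProductSpace ℂ E]
    (B : Set E) (hne : B.Nonempty) (r : ℝ) (hr : 0 ≤ r)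
    (hmin : ∀ (v : E) (s : ℝ), (∀ x ∈ B, ‖v - x‖ ≤ s) → r ≤ s) (v w : E) (s t : ℝ)
    (hv : ∀ x ∈ B, ‖v - x‖ ≤ s) (hw : ∀ x ∈ B, ‖w - x‖ ≤ t) :
    ‖v - w‖ ^ 2 ≤ 2 * s ^ 2 + 2 * t ^ 2 - 4 * r ^ 2 := by
  set R : ℝ := (s ^ 2 + t ^ 2) / 2 - ‖v - w‖ ^ 2 / 4 with hR
  have h1 : ∀ x ∈ B, ‖(1 / 2 : ℂ) • (v + w) - x‖ ^ 2 ≤ R := by
    intro x hx
    have hpar := parallelogram_law_with_norm ℂ (v - x) (w - x)
    have e1 : v - x + (w - x) = (2 : ℂ) • ((1 / 2 : ℂ) • (v + w) - x) := by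
      rw [smul_sub, smul_smul, two_smul ℂ x]
      norm_num
      abel
    have e2 : v - x - (w - x) = v - w := by abel
    rw [e1, e2, norm_smul] at hpar
    have e3 : ‖(2 : ℂ)‖ = 2 := by norm_num
    rw [e3] at hpar
    have h2 := hv x hx
    have h3 := hw x hx
    have h4 : ‖v - x‖ * ‖v - x‖ ≤ s * s := mul_self_le_mul_self (norm_nonneg _) h2
    have h5 : ‖w - x‖ * ‖w - x‖ ≤ t * t := mul_self_le_mul_self (norm_nonneg _) h3
    rw [hR]
    nlinarith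
  obtain ⟨x0, hx0⟩ := hne
  have hR0 : 0 ≤ R := (sq_nonneg _).trans (h1 x0 hx0)
  have h2 := hmin ((1 / 2 : ℂ) • (v + w)) (Real.sqrt R) (fun x hx => Real.le_sqrt_of_sq_le (h1 x hx))
  have h3 : r ^ 2 ≤ R := by
    have := pow_le_pow_left₀ hr h2 2
    rwa [Real.sq_sqrt hR0] at this
  rw [hR] at h3
  linarith

/-- TASK Ci1. Circumcentre lemma. `ρ v = sup {‖v - x‖ : x ∈ B}` (`≥ 0`, `ρ` is 1-Lipschitz), `r = inf ρ`.
The parallelogram law gives for `x ∈ B`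
`‖(v + w) / 2 - x‖² = (‖v - x‖² + ‖w - x‖²) / 2 - ‖v - w‖² / 4`, so
`r² ≤ ρ((v + w) / 2)² ≤ (ρ(v)² + ρ(w)²) / 2 - ‖v - w‖² / 4`, so
`‖v - w‖² ≤ 2 ρ(v)² + 2 ρ(w)² - 4 r²`. Hence a minimising sequence is Cauchy, its limit `c`
satisfies `ρ c = r`, and `c` is the only vector with `ρ = r`. An isometry `T` with `T '' B = B`
satisfies `ρ (T c) = ρ c`, so `T c = c`. -/
theorem circumcentre {E : Type*} [NormedAddCommGroup E] [InnerProductSpace ℂ E] [CompleteSpace E]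
    (B : Set E) (hne : B.Nonempty) (C : ℝ) (hC : ∀ x ∈ B, ‖x‖ ≤ C) :
    ∃ c : E, ∀ T : E → E, (∀ x y, ‖T x - T y‖ = ‖x - y‖) → T '' B = B → T c = c := by
  set S : Set ℝ := {s | ∃ v : E, ∀ x ∈ B, ‖v - x‖ ≤ s} with hS
  have hSne : S.Nonempty := ⟨C, 0, fun x hx => by rw [zero_sub, norm_neg]; exact hC x hx⟩
  have hS0 : ∀ s ∈ S, 0 ≤ s := by
    rintro s ⟨v, hv⟩
    obtain ⟨x, hx⟩ := hne
    exact (norm_nonneg _).trans (hv x hx)
  have hbdd : BddBelow S := ⟨0, hS0⟩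
  set r := sInf S with hrdef
  have hr : 0 ≤ r := le_csInf hSne hS0
  have hmin : ∀ (v : E) (s : ℝ), (∀ x ∈ B, ‖v - x‖ ≤ s) → r ≤ s :=
    fun v s h => csInf_le hbdd ⟨v, h⟩
  have hex : ∀ n : ℕ, ∃ v : E, ∀ x ∈ B, ‖v - x‖ ≤ r + 1 / ((n : ℝ) + 1) := by
    intro n
    have hpos : (0 : ℝ) < 1 / ((n : ℝ) + 1) := by positivity
    obtain ⟨s, ⟨v, hv⟩, hs⟩ := exists_lt_of_csInf_lt hSne (show sInf S < r + 1 / ((n : ℝ) + 1) by
      rw [← hrdef]; linarith)
    exact ⟨v, fun x hx => (hv x hx).trans hs.le⟩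
  choose v hv using hex
  have hmono : ∀ i j : ℕ, i ≤ j → (1 : ℝ) / ((j : ℝ) + 1) ≤ 1 / ((i : ℝ) + 1) := by
    intro i j hij
    refine one_div_le_one_div_of_le (by positivity) ?_
    have : (i : ℝ) ≤ j := by exact_mod_cast hij
    linarith
  have hcau : CauchySeq v := by
    refine cauchySeq_of_le_tendsto_0
      (fun N : ℕ => Real.sqrt (4 * ((r + 1 / ((N : ℝ) + 1)) ^ 2 - r ^ 2))) ?_ ?_
    · intro n m N hn hm
      rw [dist_eq_norm]
      apply Real.le_sqrt_of_sq_le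
      have h1 := ci1_key B hne r hr hmin (v n) (v m) _ _ (hv n) (hv m)
      have hpos1 : (0 : ℝ) < 1 / ((n : ℝ) + 1) := by positivity
      have hpos2 : (0 : ℝ) < 1 / ((m : ℝ) + 1) := by positivity
      have h2 : (r + 1 / ((n : ℝ) + 1)) ^ 2 ≤ (r + 1 / ((N : ℝ) + 1)) ^ 2 :=
        pow_le_pow_left₀ (by linarith) (by linarith [hmono N n hn]) 2
      have h3 : (r + 1 / ((m : ℝ) + 1)) ^ 2 ≤ (r + 1 / ((N : ℝ) + 1)) ^ 2 :=
        pow_le_pow_left₀ (by linarith) (by linarith [hmono N m hm]) 2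
      linarith
    · have h1 : Tendsto (fun N : ℕ => 1 / ((N : ℝ) + 1)) atTop (𝓝 0) :=
        tendsto_one_div_add_atTop_nhds_zero_nat
      have h2 : Tendsto (fun N : ℕ => 4 * ((r + 1 / ((N : ℝ) + 1)) ^ 2 - r ^ 2)) atTop
          (𝓝 (4 * ((r + 0) ^ 2 - r ^ 2))) :=
        (((tendsto_const_nhds.add h1).pow 2).sub tendsto_const_nhds).const_mul 4
      rw [add_zero, sub_self, mul_zero] at h2
      have h3 := (Real.continuous_sqrt.tendsto 0).comp h2
      rw [Real.sqrt_zero] at h3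
      exact h3
  obtain ⟨c, hc⟩ := cauchySeq_tendsto_of_complete hcau
  have hcr : ∀ x ∈ B, ‖c - x‖ ≤ r := by
    intro x hx
    have h1 : Tendsto (fun n => ‖v n - x‖) atTop (𝓝 ‖c - x‖) :=
      (hc.sub tendsto_const_nhds).norm
    have h2 : Tendsto (fun n : ℕ => r + 1 / ((n : ℝ) + 1)) atTop (𝓝 (r + 0)) :=
      tendsto_const_nhds.add tendsto_one_div_add_atTop_nhds_zero_nat
    rw [add_zero] at h2
    exact le_of_tendsto_of_tendsto' h1 h2 (fun n => hv n x hx)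
  refine ⟨c, fun T hT hTB => ?_⟩
  have hTc : ∀ x ∈ B, ‖T c - x‖ ≤ r := by
    intro x hx
    rw [← hTB] at hx
    obtain ⟨y, hy, rfl⟩ := hx
    rw [hT]
    exact hcr y hy
  have h1 := ci1_key B hne r hr hmin (T c) c r r hTc hcr
  have h2 : ‖T c - c‖ ^ 2 ≤ 0 := by linarith
  have h3 : ‖T c - c‖ = 0 := by
    have := le_antisymm h2 (sq_nonneg _)
    exact pow_eq_zero_iff (two_ne_zero) |>.1 this
  exact sub_eq_zero.1 (norm_eq_zero.1 h3)

variable {G : Type*} [Group G] [TopologicalSpace G] {H : Type*} [NormedAddCommGroup H]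
  [InnerProductSpace ℂ H] [CompleteSpace H]

/-- TASK Ci2. Apply `circumcentre` to `B = {b g : g ∈ S}`, which is preserved by the isometries
`T_g v = π(g) v + b(g)`, `g ∈ S` (`T_g (b h) = b (g h)`). If `c` is the common fixed point then
`f = -c` works. -/
theorem exists_fixed_of_bounded (U : URep G H) {b : G → H} (hb : IsCocycle U b) (S : Subgroup G)
    (C : ℝ) (hC : ∀ g ∈ S, ‖b g‖ ≤ C) : ∃ f : H, ∀ g ∈ S, b g = U.op g f - f := by
  obtain ⟨c, hc⟩ := circumcentre (b '' (S : Set G)) ⟨b 1, 1, S.one_mem, rfl⟩ C (by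
    rintro _ ⟨g, hg, rfl⟩
    exact hC g hg)
  refine ⟨-c, fun g hg => ?_⟩
  have h1 := hc (fun v => U.op g v + b g) (by
    intro x y
    have e : U.op g x + b g - (U.op g y + b g) = U.op g (x - y) := by
      rw [map_sub]; abel
    simp only [e, U.norm]) (by
    ext z
    constructor
    · rintro ⟨_, ⟨h, hh, rfl⟩, rfl⟩
      refine ⟨g * h, S.mul_mem hg hh, ?_⟩
      rw [hb g h]
      exact add_comm _ _
    · rintro ⟨h, hh, rfl⟩
      refine ⟨b (g⁻¹ * h), ⟨g⁻¹ * h, S.mul_mem (S.inv_mem hg) hh, rfl⟩, ?_⟩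
      have e := hb g (g⁻¹ * h)
      rw [mul_inv_cancel_left] at e
      rw [e]
      exact add_comm _ _)
  have h2 : U.op g c + b g = c := h1
  rw [map_neg]
  have h3 : b g = c - U.op g c := eq_sub_of_add_eq' h2
  rw [h3]
  abel

end C37.PB
end

section

/-!
MP_c37615_al, PART B: the fixed point property.
-/

set_option autoImplicit false

open Filter Topology
open scoped InnerProductSpace

namespace C37.PB

variable {G : Type*} [Group G] [TopologicalSpace G] {H : Type*} [NormedAddCommGroup H]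
  [InnerProductSpace ℂ H] [CompleteSpace H]

/-- the pair `ℤ² ⋊ SL_2(ℤ)` in `G` -/
noncomputable def RootData.pair (D : RootData G) : Pair G where
  u m n := D.ι (el 0 2 (by decide) (m : ℝ) * el 1 2 (by decide) (n : ℝ))
  P k := D.ι (el 0 1 (by decide) (k : ℝ))
  Q k := D.ι (el 1 0 (by decide) (k : ℝ))
  u_add m n m' n' := by
    rw [← map_mul]
    congr 1
    rw [Int.cast_add, Int.cast_add, el_add, el_add,
      mul_assoc (el 0 2 _ (m : ℝ)) (el 0 2 _ (m' : ℝ)),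
      ← mul_assoc (el 0 2 _ (m' : ℝ)) (el 1 2 _ (n : ℝ)),
      el_comm 0 2 1 2 (by decide) (by decide) (by decide) (by decide)]
    simp only [mul_assoc]
  P_conj k m n := by
    rw [← map_mul, ← map_inv, ← map_mul, pair_P, Int.cast_add, Int.cast_mul]
  Q_conj k m n := by
    rw [← map_mul, ← map_inv, ← map_mul, pair_Q, Int.cast_add, Int.cast_mul]

/-- TASK FH1. For `g = ι (el 0 2 s)`, `s = m + r`, `m = ⌊s⌋`, `0 ≤ r ≤ 1`:
`b g = b (ι (el 0 2 m)) + π(..) b (ι (el 0 2 r))`, and `ι (el 0 2 m) = D.pair.u m 0`, so by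
`pair_fixed'` the first term has norm `≤ 2 ‖ξ‖`, and the second has norm `≤ C`. -/
theorem bdd_el02 (D : RootData G) (U : URep G H) {b : G → H} (hb : IsCocycle U b)
    (hbd : ∃ C, ∀ s ∈ Set.Icc (0 : ℝ) 1, ‖b (D.ι (el 0 2 (by decide) s))‖ ≤ C) :
    ∃ C, ∀ s : ℝ, ‖b (D.ι (el 0 2 (by decide) s))‖ ≤ C := by
  obtain ⟨C, hC⟩ := hbd
  obtain ⟨ξ, hξ⟩ := pair_fixed' U hb D.pair
  refine ⟨2 * ‖ξ‖ + C, fun s => ?_⟩
  have hu : D.ι (el 0 2 (by decide) ((⌊s⌋ : ℤ) : ℝ)) = D.pair.u ⌊s⌋ 0 := by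
    show _ = D.ι (el 0 2 (by decide) ((⌊s⌋ : ℤ) : ℝ) * el 1 2 (by decide) ((0 : ℤ) : ℝ))
    rw [Int.cast_zero, el_zero, mul_one]
  have hs : D.ι (el 0 2 (by decide) s) =
      D.ι (el 0 2 (by decide) ((⌊s⌋ : ℤ) : ℝ)) * D.ι (el 0 2 (by decide) (Int.fract s)) := by
    rw [← map_mul, ← el_add, Int.floor_add_fract]
  rw [hs, hb]
  have h1 : ‖b (D.ι (el 0 2 (by decide) ((⌊s⌋ : ℤ) : ℝ)))‖ ≤ 2 * ‖ξ‖ := by
    rw [hu, hξ]
    calc ‖U.op (D.pair.u ⌊s⌋ 0) ξ - ξ‖ ≤ ‖U.op (D.pair.u ⌊s⌋ 0) ξ‖ + ‖ξ‖ := norm_sub_le _ _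
      _ = 2 * ‖ξ‖ := by rw [U.norm]; ring
  have h2 : ‖b (D.ι (el 0 2 (by decide) (Int.fract s)))‖ ≤ C :=
    hC _ ⟨Int.fract_nonneg s, (Int.fract_lt_one s).le⟩
  calc _ ≤ ‖b (D.ι (el 0 2 (by decide) ((⌊s⌋ : ℤ) : ℝ)))‖ +
        ‖U.op (D.ι (el 0 2 (by decide) ((⌊s⌋ : ℤ) : ℝ))) (b (D.ι (el 0 2 (by decide) (Int.fract s))))‖ :=
        norm_add_le _ _
    _ ≤ 2 * ‖ξ‖ + C := by rw [U.norm]; exact add_le_add h1 h2

theorem fh1_mul_le {U : URep G H} {b : G → H} (hb : IsCocycle U b) (x y : G) :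
    ‖b (x * y)‖ ≤ ‖b x‖ + ‖b y‖ := by
  rw [hb]
  calc _ ≤ ‖b x‖ + ‖U.op x (b y)‖ := norm_add_le _ _
    _ = _ := by rw [U.norm]

/-- TASK FH1. Conjugate with the Weyl elements (`weyl`): `el i j s = w * el 0 2 (ε s) * w⁻¹`
(`ε = ± 1`, so `ε (ε s) = s`) and `‖b (x y)‖ ≤ ‖b x‖ + ‖b y‖`. -/
theorem bdd_el (D : RootData G) (U : URep G H) {b : G → H} (hb : IsCocycle U b)
    (hbd : ∃ C, ∀ s ∈ Set.Icc (0 : ℝ) 1, ‖b (D.ι (el 0 2 (by decide) s))‖ ≤ C)
    (i j : Fin 3) (h : i ≠ j) : ∃ C, ∀ s : ℝ, ‖b (D.ι (el i j h s))‖ ≤ C := by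
  obtain ⟨C, hC⟩ := bdd_el02 D U hb hbd
  obtain ⟨w, ε, hε, hw⟩ := weyl i j h
  refine ⟨‖b (D.ι w)‖ + C + ‖b (D.ι w⁻¹)‖, fun s => ?_⟩
  have hεε : ε * (ε * s) = s := by
    have : ε * ε = 1 := by
      rcases abs_eq (zero_le_one (α := ℝ)) |>.mp hε with h | h <;> rw [h] <;> norm_num
    rw [← mul_assoc, this, one_mul]
  have hs : D.ι (el i j h s) = D.ι w * D.ι (el 0 2 (by decide) (ε * s)) * D.ι w⁻¹ := by
    rw [← map_mul, ← map_mul, hw, hεε]
  rw [hs]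
  calc _ ≤ ‖b (D.ι w * D.ι (el 0 2 (by decide) (ε * s)))‖ + ‖b (D.ι w⁻¹)‖ := fh1_mul_le hb _ _
    _ ≤ (‖b (D.ι w)‖ + ‖b (D.ι (el 0 2 (by decide) (ε * s)))‖) + ‖b (D.ι w⁻¹)‖ := by
        gcongr; exact fh1_mul_le hb _ _
    _ ≤ _ := by gcongr; exact hC _

theorem fh2_inv_of_eq {U : URep G H} {f f' : H} {x : G} {v : H} (h1 : v = U.op x f - f)
    (h2 : v = U.op x f' - f') : U.op x (f - f') = f - f' := by
  rw [map_sub]
  have : U.op x f - f = U.op x f' - f' := h1.symm.trans h2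
  calc U.op x f - U.op x f' = (U.op x f - f) - (U.op x f' - f') + (f - f') := by abel
    _ = f - f' := by rw [this]; abel

/-- TASK FH2. `b` is bounded on `ι(SU)`, `ι(SLo)`, `ι(SC)` (`SU_decomp` etc.), so
`exists_fixed_of_bounded` (for the subgroup `SU.map D.ι` etc.) gives `f_1, f_2, f_3`. `f_1 - f_3` is
invariant under `ι (el 0 1 s)` (`el_mem_SU`, `el01_mem_SC`), `f_2 - f_3` under `ι (el 2 1 s)`; by
`mautner` both are `G`-invariant. So `b x = π(x) f_1 - f_1` for all `x` in `ι(SU) ∪ ι(SLo)`, in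
particular for all `ι (el i j s)`. The set of all `A` with `b (ι A) = π(ι A) f_1 - f_1` is a subgroup;
`el_gen`. -/
theorem fixed_SL3 (D : RootData G) (U : URep G H) {b : G → H} (hb : IsCocycle U b)
    (hbd : ∃ C, ∀ s ∈ Set.Icc (0 : ℝ) 1, ‖b (D.ι (el 0 2 (by decide) s))‖ ≤ C) :
    ∃ f : H, ∀ A : SL3, b (D.ι A) = U.op (D.ι A) f - f := by
  have hB := fun i j h => bdd_el D U hb hbd i j h
  choose C hC using hB
  have hsub : ∀ (S : Subgroup SL3) (K : ℝ), (∀ A ∈ S, ‖b (D.ι A)‖ ≤ K) →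
      ∃ f : H, ∀ A ∈ S, b (D.ι A) = U.op (D.ι A) f - f := by
    intro S K hK
    obtain ⟨f, hf⟩ := exists_fixed_of_bounded U hb (S.map D.ι) K (by
      rintro _ ⟨A, hA, rfl⟩
      exact hK A hA)
    exact ⟨f, fun A hA => hf _ ⟨A, hA, rfl⟩⟩
  obtain ⟨f1, hf1⟩ := hsub SU (C 1 2 (by decide) + C 0 2 (by decide) + C 0 1 (by decide)) (by
    intro A hA
    obtain ⟨x, y, z, rfl⟩ := SU_decomp hA
    rw [map_mul, map_mul]
    calc _ ≤ _ := fh1_mul_le hb _ _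
      _ ≤ _ := add_le_add ((fh1_mul_le hb _ _).trans (add_le_add (hC _ _ _ _) (hC _ _ _ _)))
        (hC _ _ _ _))
  obtain ⟨f2, hf2⟩ := hsub SLo (C 1 0 (by decide) + C 2 0 (by decide) + C 2 1 (by decide)) (by
    intro A hA
    obtain ⟨x, y, z, rfl⟩ := SLo_decomp hA
    rw [map_mul, map_mul]
    calc _ ≤ _ := fh1_mul_le hb _ _
      _ ≤ _ := add_le_add ((fh1_mul_le hb _ _).trans (add_le_add (hC _ _ _ _) (hC _ _ _ _)))
        (hC _ _ _ _))
  obtain ⟨f3, hf3⟩ := hsub SC (C 0 1 (by decide) + C 2 1 (by decide)) (by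
    intro A hA
    obtain ⟨x, y, rfl⟩ := SC_decomp hA
    rw [map_mul]
    exact (fh1_mul_le hb _ _).trans (add_le_add (hC _ _ _ _) (hC _ _ _ _)))
  have h13 : ∀ g, U.op g (f1 - f3) = f1 - f3 := by
    apply mautner D U (i := 0) (j := 1) (by decide)
    intro s
    exact fh2_inv_of_eq (hf1 _ (el_mem_SU 0 1 (by decide) (by decide) s)) (hf3 _ (el01_mem_SC s))
  have h23 : ∀ g, U.op g (f2 - f3) = f2 - f3 := by
    apply mautner D U (i := 2) (j := 1) (by decide)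
    intro s
    exact fh2_inv_of_eq (hf2 _ (el_mem_SLo 2 1 (by decide) (by decide) s)) (hf3 _ (el21_mem_SC s))
  have h12 : ∀ g, U.op g f2 - f2 = U.op g f1 - f1 := by
    intro g
    have e1 := h13 g
    have e2 := h23 g
    rw [map_sub] at e1 e2
    have e3 : U.op g f1 - f1 = U.op g f3 - f3 := by
      have : U.op g f1 - f1 = (U.op g f1 - U.op g f3) - (f1 - f3) + (U.op g f3 - f3) := by abel
      rw [this, e1]; abel
    have e4 : U.op g f2 - f2 = U.op g f3 - f3 := by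
      have : U.op g f2 - f2 = (U.op g f2 - U.op g f3) - (f2 - f3) + (U.op g f3 - f3) := by abel
      rw [this, e2]; abel
    rw [e3, e4]
  refine ⟨f1, ?_⟩
  have hc := cocycle_sub hb f1
  set c : G → H := fun g => b g - (U.op g f1 - f1) with hcdef
  let K : Subgroup SL3 :=
    { carrier := {A | c (D.ι A) = 0}
      one_mem' := by
        show c (D.ι 1) = 0
        rw [map_one]
        exact cocycle_one hc
      mul_mem' := by
        intro A B hA hB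
        show c (D.ι (A * B)) = 0
        rw [map_mul, hc]
        rw [show c (D.ι A) = 0 from hA, show c (D.ι B) = 0 from hB, map_zero, add_zero]
      inv_mem' := by
        intro A hA
        show c (D.ι A⁻¹) = 0
        rw [map_inv, cocycle_inv hc, show c (D.ι A) = 0 from hA, map_zero, neg_zero] }
  have hK : K = ⊤ := by
    apply el_gen
    intro i j h s
    show c (D.ι (el i j h s)) = 0
    show b (D.ι (el i j h s)) - (U.op (D.ι (el i j h s)) f1 - f1) = 0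
    rcases lt_or_gt_of_ne h with hlt | hlt
    · rw [hf1 _ (el_mem_SU i j h hlt s), sub_self]
    · rw [hf2 _ (el_mem_SLo i j h hlt s), h12, sub_self]
  intro A
  have : A ∈ K := by rw [hK]; trivial
  exact sub_eq_zero.mp this

/-- TASK FH3. Suppose `b` vanishes on `ι(SL_3)`. For `x = S i t`, and `u = ι (el p q s)` commuting with
it (`D.comm`): `b (u x) = b u + π(u) b(x) = π(u) b(x)` and `b (x u) = b x + π(x) b(u) = b x`. So `b x`
is invariant under `ι (el p q s)`, so `G`-invariant by `mautner`. Hence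
`b (S i (2 t)) = b (S i t * S i t) = 2 b (S i t)` and by `D.scale` (`d`)
`b (S i (2 t)) = b (ι d * S i t * (ι d)⁻¹) = π(ι d) b (S i t) = b (S i t)` (`cocycle_conj` or direct).
So `b (S i t) = 0`. The zero set of a cocycle is a subgroup; `D.gen`. -/
theorem zero_of_zero_SL3 (D : RootData G) (U : URep G H) {b : G → H} (hb : IsCocycle U b)
    (h0 : ∀ A : SL3, b (D.ι A) = 0) (g : G) : b g = 0 := by
  have hS : ∀ i t, b (D.S i t) = 0 := by
    intro i t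
    obtain ⟨p, q, h, hcomm⟩ := D.comm i
    have hinv : ∀ s, U.op (D.ι (el p q h s)) (b (D.S i t)) = b (D.S i t) := by
      intro s
      have e1 := hb (D.ι (el p q h s)) (D.S i t)
      have e2 := hb (D.S i t) (D.ι (el p q h s))
      rw [h0, zero_add] at e1
      rw [h0, map_zero, add_zero] at e2
      rw [← e1, hcomm, e2]
    have hall := mautner D U h hinv
    have hd : b (D.S i (2 * t)) = b (D.S i t) + b (D.S i t) := by
      rw [two_mul, D.S_add, hb, hall]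
    obtain ⟨d, hds⟩ := D.scale i
    have hc : b (D.S i (2 * t)) = b (D.S i t) := by
      rw [← hds t, hb, hb, h0, zero_add, hall, ← map_inv, h0, map_zero, add_zero]
    have : b (D.S i t) + b (D.S i t) = b (D.S i t) := by rw [← hd, hc]
    simpa using this
  let K : Subgroup G :=
    { carrier := {x | b x = 0}
      one_mem' := cocycle_one hb
      mul_mem' := by
        intro x y hx hy
        show b (x * y) = 0
        rw [hb, show b x = 0 from hx, show b y = 0 from hy, map_zero, add_zero]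
      inv_mem' := by
        intro x hx
        show b x⁻¹ = 0
        rw [cocycle_inv hb, show b x = 0 from hx, map_zero, neg_zero] }
  have hK : K = ⊤ := D.gen K (fun A => h0 A) hS
  have : g ∈ K := by rw [hK]; trivial
  exact this

/-- The fixed point property. -/
theorem FH (D : RootData G) (U : URep G H) {b : G → H} (hb : IsCocycle U b)
    (hbd : ∃ C, ∀ s ∈ Set.Icc (0 : ℝ) 1, ‖b (D.ι (el 0 2 (by decide) s))‖ ≤ C) :
    ∃ f : H, ∀ g, b g = U.op g f - f := by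
  obtain ⟨f, hf⟩ := fixed_SL3 D U hb hbd
  refine ⟨f, fun g => ?_⟩
  have := zero_of_zero_SL3 D U (cocycle_sub hb f) (fun A => by rw [hf A, sub_self]) g
  exact sub_eq_zero.mp this

end C37.PB
end

section

/-!
MP_c37615_al, PART B: conclusion.
-/

set_option autoImplicit false

open Filter Topology MeasureTheory

namespace C37.PB

variable {G : Type*} [Group G] [TopologicalSpace G] [IsTopologicalGroup G]
  [LocallyCompactSpace G] [PolishSpace G] [MeasurableSpace G] [BorelSpace G] {Γ : Subgroup G}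
  {W : G → ℝ} {χ : G → ℝ} {C : Set G}

/-- TASK Fi1. By `exists_cocycle` and `FH`: `b g = π(g) f - f`, so for every `g` and `μ`-almost every
`y`: `cf g y = f (g⁻¹ • y) - f y`. -/
theorem exists_f [T2Space (G ⧸ Γ)] (D : RootData G) (h : WData Γ W χ C)
    (hpath : ∀ g : G, ∃ c : ℝ → G, Continuous c ∧ c 0 = 1 ∧ c 1 = g)
    {ν : Measure G} {μ : Measure (G ⧸ Γ)} (hμ : QM Γ ν μ) :
    ∃ f : Lp ℂ 2 μ, ∀ g, ∀ᵐ y ∂μ, cf Γ W g y = f (g⁻¹ • y) - f y := by
  obtain ⟨U, b, hb, hbd, hop, hcf⟩ := exists_cocycle D h hpath hμ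
  obtain ⟨f, hf⟩ := FH D U hb hbd
  refine ⟨f, fun g => ?_⟩
  filter_upwards [hcf g, hop g f, Lp.coeFn_sub (U.op g f) f] with y h1 h2 h3
  rw [← h1, hf g, h3, Pi.sub_apply, h2]

/-- TASK Fi2. A measurable function which is invariant (a.e.) under all left translations is a.e.
constant. Fubini: `{(g, x) | F (g⁻¹ x) ≠ F x}` is null, so for some `x_0` (`ν ≠ 0`)
`F (g⁻¹ x_0) = F x_0` for a.e. `g`, and `g ↦ g⁻¹ x_0` preserves null sets. (Or the instance
`ErgodicSMul G G ν` and `aeconst_of_forall_preimage_smul_ae_eq`.) -/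
theorem ae_const (ν : Measure G) [ν.IsHaarMeasure] (F : G → ℂ) (hF : Measurable F)
    (hinv : ∀ g : G, ∀ᵐ x ∂ν, F (g⁻¹ * x) = F x) : ∃ c : ℂ, ∀ᵐ x ∂ν, F x = c := by
  have key : ∃ c, F =ᵐ[ν] Function.const G c := by
    refine exists_eventuallyEq_const_of_forall_separating MeasurableSet fun U hU ↦ ?_
    have h1 : EventuallyConst (F ⁻¹' U) (ae ν) := by
      refine aeconst_of_forall_preimage_smul_ae_eq G (hF hU).nullMeasurableSet fun g => ?_
      have h2 := hinv g⁻¹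
      rw [inv_inv] at h2
      refine (h2.mono fun x hx => ?_).set_eq
      show F (g * x) ∈ U ↔ F x ∈ U
      rw [hx]
    rw [eventuallyConst_set] at h1
    exact h1
  obtain ⟨c, hc⟩ := key
  exact ⟨c, hc⟩

/-- TASK Fi3. Let `F x = W x - f (mk x)` (measurable: choose the measurable representative of `f`). By
`cf_mk` and `QM.null` `F (g⁻¹ x) = F x` for a.e. `x`; `ae_const`. -/
theorem exists_c [T2Space (G ⧸ Γ)] (h : WData Γ W χ C) {ν : Measure G} [ν.IsHaarMeasure]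
    {μ : Measure (G ⧸ Γ)} (hμ : QM Γ ν μ) (f : Lp ℂ 2 μ)
    (hf : ∀ g, ∀ᵐ y ∂μ, cf Γ W g y = f (g⁻¹ • y) - f y) :
    ∃ c : ℂ, ∀ᵐ x ∂ν, (W x : ℂ) = f (QuotientGroup.mk x) + c := by
  have hfm : Measurable (f : G ⧸ Γ → ℂ) := (Lp.stronglyMeasurable f).measurable
  have hmk : Measurable (QuotientGroup.mk : G → G ⧸ Γ) := QuotientGroup.measurable_coe
  have hWm : Measurable fun x => ((W x : ℝ) : ℂ) :=
    (Complex.continuous_ofReal.comp h.cont).measurable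
  have hF : Measurable fun x : G => ((W x : ℝ) : ℂ) - f (QuotientGroup.mk x) := hWm.sub (hfm.comp hmk)
  obtain ⟨c, hc⟩ := ae_const ν (fun x : G => ((W x : ℝ) : ℂ) - f (QuotientGroup.mk x)) hF (by
    intro g
    have hbad := hf g
    rw [ae_iff] at hbad
    obtain ⟨E, hsub, hEm, hE0⟩ := exists_measurable_superset_of_null hbad
    have hnull := hμ.null E hEm hE0
    have : ∀ᵐ x ∂ν, x ∉ (QuotientGroup.mk : G → G ⧸ Γ) ⁻¹' E := by
      rw [ae_iff]
      have he : {a : G | ¬ a ∉ (QuotientGroup.mk : G → G ⧸ Γ) ⁻¹' E} = (QuotientGroup.mk : G → G ⧸ Γ) ⁻¹' E := by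
        ext a
        exact not_not
      rw [he]
      exact hnull
    filter_upwards [this] with x hx
    have hgood : cf Γ W g (QuotientGroup.mk x) = f (g⁻¹ • (QuotientGroup.mk x : G ⧸ Γ)) - f (QuotientGroup.mk x) := by
      by_contra hcon
      exact hx (hsub hcon)
    rw [cf_mk h g x] at hgood
    have hsm : g⁻¹ • (QuotientGroup.mk x : G ⧸ Γ) = QuotientGroup.mk (g⁻¹ * x) := rfl
    rw [hsm] at hgood
    push_cast at hgood
    linear_combination hgood)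
  refine ⟨c, ?_⟩
  filter_upwards [hc] with x hx
  linear_combination hx

/-- TASK Fi4. For a.e. `x` the equation holds for `x` and for `x γ` (right translations preserve null
sets), so `W (x γ) = W x`. -/
theorem chi_zero {ν : Measure G} [ν.IsHaarMeasure] (h : WData Γ W χ C)
    (f : G ⧸ Γ → ℂ) (c : ℂ) (hc : ∀ᵐ x ∂ν, (W x : ℂ) = f (QuotientGroup.mk x) + c) :
    ∀ γ ∈ Γ, χ γ = 0 := by
  intro γ hγ
  have h1 : ∀ᵐ x ∂ν, (W (x * γ) : ℂ) = f (QuotientGroup.mk (x * γ)) + c := by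
    rw [ae_iff] at hc ⊢
    exact (measure_mul_right_null ν γ).mpr hc
  obtain ⟨x, hx1, hx2⟩ := (hc.and h1).exists
  have h2 : (QuotientGroup.mk (x * γ) : G ⧸ Γ) = QuotientGroup.mk x :=
    QuotientGroup.mk_mul_of_mem x hγ
  rw [h2, ← hx1] at hx2
  have h3 : W (x * γ) = W x := by exact_mod_cast hx2
  have h4 := h.quasi γ hγ x
  linarith

/-- TASK Fi5. Suppose there are such `x_j`, let `O' = interior O`, `A_j = O' x_j` (open). `mk` is
injective on `A_j` and the sets `mk '' A_j` are pairwise disjoint, `μ (mk '' A_j) = ν (A_j) = ν(O') > 0`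
(`QM.vol`, right invariance). For `x ∈ mk ⁻¹' (mk '' A_j)`, `x = a γ`, `W x = W a` (as `χ = 0`), and for
a.e. such `x`: `‖f (mk x)‖ = |W x - c| ≥ |W x - re c| ≥ δ`. So `‖f‖ ≥ δ` a.e. on `⋃ mk '' A_j`
(`QM.null'`), a set of infinite measure; but `{‖f‖ ≥ δ}` has finite measure as `f ∈ L²`. -/
theorem no_sequence [T2Space (G ⧸ Γ)] (h : WData Γ W χ C) {ν : Measure G} [ν.IsHaarMeasure]
    [ν.IsMulRightInvariant] {μ : Measure (G ⧸ Γ)} (hμ : QM Γ ν μ) (f : Lp ℂ 2 μ) (c : ℂ)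
    (hc : ∀ᵐ x ∂ν, (W x : ℂ) = f (QuotientGroup.mk x) + c) (hχ : ∀ γ ∈ Γ, χ γ = 0)
    (δ : ℝ) (hδ : 0 < δ) (O : Set G) (hO : O ∈ 𝓝 (1 : G)) :
    ¬ ∃ x : ℕ → G, (∀ j, ∀ o ∈ O, δ ≤ |W (o * x j) - c.re|) ∧
      (∀ j k, ∀ o ∈ O, ∀ o' ∈ O, ∀ γ ∈ Γ, o * x j * γ = o' * x k → j = k ∧ γ = 1) := by
  rintro ⟨x, hx1, hx2⟩
  let O' : Set G := interior O
  have hO'open : IsOpen O' := isOpen_interior
  have hO'1 : (1 : G) ∈ O' := mem_interior_iff_mem_nhds.mpr hO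
  let A : ℕ → Set G := fun j => (fun z => z * (x j)⁻¹) ⁻¹' O'
  have hAopen : ∀ j, IsOpen (A j) := fun j => hO'open.preimage (continuous_mul_const _)
  have hAmem : ∀ j z, z ∈ A j → z * (x j)⁻¹ ∈ O := fun j z hz => interior_subset hz
  have hAz : ∀ j z, z = z * (x j)⁻¹ * x j := fun j z => by group
  have hmk : ∀ z z' : G, (QuotientGroup.mk z : G ⧸ Γ) = QuotientGroup.mk z' → z⁻¹ * z' ∈ Γ :=
    fun z z' hzz => QuotientGroup.eq.mp hzz
  have hkey : ∀ j k z z', z ∈ A j → z' ∈ A k → (QuotientGroup.mk z : G ⧸ Γ) = QuotientGroup.mk z' →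
      j = k ∧ z⁻¹ * z' = 1 := by
    intro j k z z' hz hz' hzz
    refine hx2 j k _ (hAmem j z hz) _ (hAmem k z' hz') (z⁻¹ * z') (hmk z z' hzz) ?_
    rw [← hAz, ← hAz]
    group
  have hinj : ∀ j, Set.InjOn (QuotientGroup.mk : G → G ⧸ Γ) (A j) := by
    intro j z hz z' hz' hzz
    exact (inv_mul_eq_one.mp (hkey j j z z' hz hz' hzz).2)
  have hdisj : Pairwise (Function.onFun Disjoint (fun j => (QuotientGroup.mk : G → G ⧸ Γ) '' A j)) := by
    intro j k hjk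
    rw [Function.onFun, Set.disjoint_left]
    rintro y ⟨z, hz, rfl⟩ ⟨z', hz', hzz⟩
    exact hjk (hkey j k z z' hz hz' hzz.symm).1
  have hvol : ∀ j, μ ((QuotientGroup.mk : G → G ⧸ Γ) '' A j) = ν O' := by
    intro j
    rw [hμ.vol (A j) (hAopen j) (hinj j)]
    exact measure_preimage_mul_right ν (x j)⁻¹ O'
  have hO'pos : 0 < ν O' := hO'open.measure_pos ν ⟨1, hO'1⟩
  have hmeasImg : ∀ j, MeasurableSet ((QuotientGroup.mk : G → G ⧸ Γ) '' A j) := by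
    intro j
    have h1 : IsOpen ((QuotientGroup.mk : G → G ⧸ Γ) '' A j) := QuotientGroup.isOpenMap_coe _ (hAopen j)
    exact measurableSet_quotient.mpr ((h1.preimage QuotientGroup.continuous_mk).measurableSet)
  let E : Set (G ⧸ Γ) := {y | δ ≤ ‖f y‖}
  have hEmeas : MeasurableSet E := by
    have h1 : Measurable (fun y => ‖f y‖) := (Lp.stronglyMeasurable f).measurable.norm
    exact measurableSet_le measurable_const h1
  have hEfin : μ E < ⊤ := by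
    have h1 := (Lp.memLp f).meas_ge_lt_top (by norm_num) (by norm_num) (ε := δ.toNNReal)
      (Real.toNNReal_pos.mpr hδ).ne'
    refine lt_of_le_of_lt (measure_mono ?_) h1
    intro y hy
    exact Real.toNNReal_le_iff_le_coe.mpr hy
  have hnull : ∀ j, μ (((QuotientGroup.mk : G → G ⧸ Γ) '' A j) \ E) = 0 := by
    intro j
    refine hμ.null' _ ((hmeasImg j).diff hEmeas) ?_
    refine measure_mono_null ?_ (ae_iff.mp hc)
    rintro z ⟨⟨a, ha, haz⟩, hzE⟩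
    intro hz
    apply hzE
    show δ ≤ ‖f (QuotientGroup.mk z)‖
    have h1 : a⁻¹ * z ∈ Γ := hmk a z haz
    have h2 : W z = W a := by
      have h3 := h.quasi _ h1 a
      rw [hχ _ h1, mul_inv_cancel_left, add_zero] at h3
      exact h3
    have h4 : f (QuotientGroup.mk z) = (W z : ℂ) - c := by rw [hz]; ring
    rw [h4]
    have h5 : |W a - c.re| ≤ ‖(W z : ℂ) - c‖ := by
      have h6 := Complex.abs_re_le_norm ((W z : ℂ) - c)
      simpa [h2] using h6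
    have h7 := hx1 j (a * (x j)⁻¹) (hAmem j a ha)
    rw [← hAz] at h7
    exact h7.trans h5
  have hU : μ (⋃ j, (QuotientGroup.mk : G → G ⧸ Γ) '' A j) = ⊤ := by
    rw [measure_iUnion hdisj hmeasImg]
    simp only [hvol]
    exact ENNReal.tsum_const_eq_top_of_ne_zero hO'pos.ne'
  have hsub : (⋃ j, (QuotientGroup.mk : G → G ⧸ Γ) '' A j) ⊆ E ∪ ⋃ j, (((QuotientGroup.mk : G → G ⧸ Γ) '' A j) \ E) := by
    intro y hy
    obtain ⟨j, hj⟩ := Set.mem_iUnion.mp hy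
    by_cases hyE : y ∈ E
    · exact Or.inl hyE
    · exact Or.inr (Set.mem_iUnion.mpr ⟨j, hj, hyE⟩)
  have h1 : μ (⋃ j, (QuotientGroup.mk : G → G ⧸ Γ) '' A j) ≤ μ E + 0 := by
    refine (measure_mono hsub).trans ((measure_union_le _ _).trans ?_)
    rw [measure_iUnion_null hnull]
  rw [hU, add_zero] at h1
  exact absurd hEfin (not_lt.mpr h1)

/-- The abstract theorem. -/
theorem B_abs (D : RootData G) (hpath : ∀ g : G, ∃ c : ℝ → G, Continuous c ∧ c 0 = 1 ∧ c 1 = g)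
    (hΓ : Disc Γ) (h : WData Γ W χ C) :
    (∀ γ ∈ Γ, χ γ = 0) ∧ ∃ c : ℝ, ∀ δ > 0, ∀ O ∈ 𝓝 (1 : G),
      ¬ ∃ x : ℕ → G, (∀ j, ∀ o ∈ O, δ ≤ |W (o * x j) - c|) ∧
        (∀ j k, ∀ o ∈ O, ∀ o' ∈ O, ∀ γ ∈ Γ, o * x j * γ = o' * x k → j = k ∧ γ = 1) := by
  have hcl : IsClosed (Γ : Set G) := hΓ.isClosed
  have hT2 : T2Space (G ⧸ Γ) := inferInstance
  let ν : Measure G := Measure.haar
  have hright : ν.IsMulRightInvariant := isMulRightInvariant_haar D ν
  obtain ⟨μ, hμ⟩ := hΓ.exists_QM ν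
  obtain ⟨f, hf⟩ := exists_f D h hpath hμ
  obtain ⟨c, hc⟩ := exists_c h hμ f hf
  have hχ := chi_zero h f c hc
  exact ⟨hχ, c.re, fun δ hδ O hO => no_sequence h hμ f c hc hχ δ hδ O hO⟩

end C37.PB
end

section

set_option autoImplicit false

open Filter Topology
open scoped ContDiff

namespace C37.PC

/-- The topological part of section 5: there is a connected set `Ω` off the saturation of `C1` on which `W ≠ c` and whose
stabiliser has finite index.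
Proof. `exists_cutoff` for the compact set `(C ∪ C1) ∪ {0}` gives `ρ, C'`; `ρ 0 = 1`. `exists_deep` (with `C := C ∪ C1 ∪ {0}`; `W` is locally
constant off `sat a C`, so off the larger saturation, `sat_mono`) gives `x0`; `U = {ρ < 1/2}`, `Ω = connectedComponentIn U x0`;
it contains `x0`, is preconnected, `W = W x0 ≠ c` on it (`comp_const`) and it does not meet `sat a C1` since `ρ = 1` there. `D` from `exists_stab`.
Claim `FinIdx D`. Suppose not. Let `f` from `exists_cut`, `C2'` from `shell_compact`. If `x ∉ a δ '' C2'` for all `δ ∈ D` then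
`fderiv ℝ f x = 0`: otherwise `x ∈ Ω`, `1/4 ≤ ρ x ≤ 1/3`, so `ρ x ≠ 0`, `x ∈ sat a C'` and `x ∈ a δ '' C2'`, `δ ∈ D`. Apply `A_two` with `n = 7`, the group
`D`, the restricted actions (`goodAction_sub`), `f`; its hypothesis `hnc`: if `K` is compact and all `v : R^7` lie in `a1 δ '' K`, `δ ∈ D`, then
`finIdx_of_orbit` (for `a1`, `o = 0`, `C2 = K`) gives `FinIdx D`, excluded. We get `c0, C3` compact with `f x = c0` if `x ∉ a δ '' C3` for all `δ ∈ D`.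
(1) By `exists_deep` there is `x ∈ Ω` with `x ∉ sat a (C' ∪ C3)`; then `ρ x = 0`, `f x = 1` and `x ∉ a δ '' C3`, so `c0 = 1`.
(2) By `finIdx_of_orbit` (contrapositive; `a`, `o = 0`, `C3`) there is `γ` with `a γ 0 ∉ a δ '' C3` for all `δ ∈ D`; so `f (a γ 0) = c0`; but
`ρ (a γ 0) = ρ 0 = 1`, so `a γ 0 ∉ U`, `a γ 0 ∉ Ω` (`connectedComponentIn_subset`) and `f (a γ 0) = 0`. So `c0 = 0`, contradiction. -/
theorem C_top {Γ : Type} [Group Γ] {a1 : Γ → (Fin 7 → ℝ) → (Fin 7 → ℝ)} {a : Γ → (Fin 8 → ℝ) → (Fin 8 → ℝ)}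
    (h1 : GoodAction Γ 7 a1) (h : GoodAction Γ 8 a) {C C1 : Set (Fin 8 → ℝ)} (hC : IsCompact C)
    (hC1 : IsCompact C1) {W : (Fin 8 → ℝ) → ℝ}
    (hWinv : ∀ g x, W (a g x) = W x) (hloc : ∀ x, x ∉ sat a C → ∀ᶠ y in 𝓝 x, W y = W x) (c : ℝ)
    (hne : ∀ C'' : Set (Fin 8 → ℝ), IsCompact C'' → ∃ x, W x ≠ c ∧ x ∉ sat a C'') :
    ∃ Ω : Set (Fin 8 → ℝ), Ω.Nonempty ∧ IsPreconnected Ω ∧ (∀ x ∈ Ω, W x ≠ c ∧ x ∉ sat a C1) ∧
      ∃ D : Subgroup Γ, FinIdx D ∧ ∀ δ ∈ D, ∀ x ∈ Ω, a δ x ∈ Ω := by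
  have hCc : IsCompact (C ∪ C1 ∪ {0}) := (hC.union hC1).union isCompact_singleton
  obtain ⟨ρ, C', hρs, hρinv, -, -, hρC, hC', hρC'⟩ := exists_cutoff h hCc
  have hρ00 : ρ 0 = 1 := hρC 0 ⟨1, 0, Or.inr rfl, h.one 0⟩
  have hloc' : ∀ x, x ∉ sat a (C ∪ C1 ∪ {0}) → ∀ᶠ y in 𝓝 x, W y = W x := fun x hx =>
    hloc x (fun hx' => hx (sat_mono (fun z hz => Or.inl (Or.inl hz)) hx'))
  obtain ⟨x0, hx0, hWx0, hdeep⟩ :=
    exists_deep h hρs.continuous hρinv hC' hρC' ⟨0, hρ00⟩ hρC hWinv hloc' c hne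
  have hUinv : ∀ g x, x ∈ {z | ρ z < 1/2} → a g x ∈ {z | ρ z < 1/2} := fun g x hx => by
    change ρ (a g x) < 1/2
    rw [hρinv]
    exact hx
  have hUsat : ∀ x ∈ {z | ρ z < 1/2}, x ∉ sat a (C ∪ C1 ∪ {0}) := fun x hx hx' => by
    have h1' : ρ x = 1 := hρC x hx'
    have h2' : ρ x < 1/2 := hx
    linarith
  refine ⟨connectedComponentIn {z | ρ z < 1/2} x0, ⟨x0, mem_connectedComponentIn hx0⟩,
    isPreconnected_connectedComponentIn, ?_, ?_⟩
  · intro x hx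
    refine ⟨?_, ?_⟩
    · rw [comp_const (fun z hz => hloc' z (hUsat z hz)) hx]
      exact hWx0
    · intro hx'
      exact hUsat x (connectedComponentIn_subset _ _ hx)
        (sat_mono (fun z hz => Or.inl (Or.inr hz)) hx')
  · obtain ⟨D, hD⟩ := exists_stab h hUinv x0 hx0
    refine ⟨D, ?_, fun δ hδ x hx => (hD δ x hx).1 hδ⟩
    by_contra hfin
    obtain ⟨f, hf, hfinv, hf1, hf0, hfd⟩ := exists_cut h hρs hρinv x0 D hD
    obtain ⟨C2', hC2', hshell⟩ := shell_compact h hρs.continuous hρinv hC' x0 D hD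
    have hfd0 : ∀ x, (∀ δ ∈ D, x ∉ a δ '' C2') → fderiv ℝ f x = 0 := by
      intro x hx
      by_contra hne'
      obtain ⟨hxΩ, h14, h13⟩ := hfd x hne'
      have hxs : x ∈ sat a C' := by
        by_contra hxs
        have := hρC' x hxs
        linarith
      obtain ⟨δ, hδ, hxδ⟩ := hshell x hxΩ h13 hxs
      exact hx δ hδ hxδ
    have hnc : ¬ ∃ K : Set (Fin 7 → ℝ), IsCompact K ∧
        ∀ x, ∃ g : D, x ∈ (fun δ : D => a1 (δ : Γ)) g '' K := by
      rintro ⟨K, hK, hK'⟩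
      refine hfin (finIdx_of_orbit h1 D 0 K hK (fun γ => ?_))
      obtain ⟨δ, hδ⟩ := hK' (a1 γ 0)
      exact ⟨δ, δ.2, hδ⟩
    obtain ⟨c0, C3, hC3, hfc⟩ := A_two 7 (by norm_num) D (fun δ : D => a1 (δ : Γ))
      (fun δ : D => a (δ : Γ)) (goodAction_sub h1 D) (goodAction_sub h D) hnc f hf
      (fun δ x => hfinv δ δ.2 x)
      ⟨C2', hC2', fun x hx => hfd0 x (fun δ hδ => hx ⟨δ, hδ⟩)⟩
    obtain ⟨x, hxΩ, hx⟩ := hdeep (C' ∪ C3) (hC'.union hC3)
    have hc1 : c0 = 1 := by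
      have e1 : ρ x = 0 := hρC' x (fun hx' => hx (sat_mono (fun z hz => Or.inl hz) hx'))
      have e2 : f x = 1 := hf1 x hxΩ (by rw [e1]; norm_num)
      rw [← hfc x (fun δ hδ => hx ⟨(δ : Γ), by
        obtain ⟨z, hz, hzx⟩ := hδ
        exact ⟨z, Or.inr hz, hzx⟩⟩), e2]
    have hγ : ∃ γ : Γ, ∀ δ ∈ D, a γ 0 ∉ a δ '' C3 := by
      by_contra hno
      push Not at hno
      exact hfin (finIdx_of_orbit h D 0 C3 hC3 hno)
    obtain ⟨γ, hγ⟩ := hγ
    have e3 : f (a γ 0) = c0 := hfc _ (fun δ => hγ δ δ.2)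
    have e4 : f (a γ 0) = 0 := hf0 _ (fun hmem => by
      have h6 : a γ 0 ∈ {z | ρ z < 1/2} := connectedComponentIn_subset _ _ hmem
      have h5 : ρ (a γ 0) < 1/2 := h6
      rw [hρinv, hρ00] at h5
      linarith)
    rw [e4, hc1] at e3
    exact zero_ne_one e3

end C37.PC
end
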