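import Mathlib
import Pool.Agent.Lib.MP_c37615_al.Defs

section

/-!
MP_c37615_al (S02984), part GX: null coordinates.
Index 0..6 of a vector in null coordinates = coefficients of y3, x1, x2, va, y2, y1, x3.
-/

set_option autoImplicit false

open Matrix

namespace C37.PGX

/-- cross product in null coordinates -/
noncomputable def crossN (u v : V) : V :=
  ![ (u 1 * v 2 - u 2 * v 1) - (u 3 * v 0 - u 0 * v 3),
     (u 3 * v 1 - u 1 * v 3) - (u 4 * v 0 - u 0 * v 4),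
     (u 3 * v 2 - u 2 * v 3) - (u 0 * v 5 - u 5 * v 0),
     (1/2) * ((u 1 * v 5 - u 5 * v 1) + (u 2 * v 4 - u 4 * v 2) + (u 6 * v 0 - u 0 * v 6)),
     (u 6 * v 1 - u 1 * v 6) - (u 3 * v 4 - u 4 * v 3),
     (u 2 * v 6 - u 6 * v 2) - (u 3 * v 5 - u 5 * v 3),
     (u 3 * v 6 - u 6 * v 3) - (u 5 * v 4 - u 4 * v 5) ]

/-- the form `B` in null coordinates -/
noncomputable def BN (u v : V) : ℝ :=
  -(u 3 * v 3) - (1/2) * (u 0 * v 6 + u 6 * v 0 + u 1 * v 5 + u 5 * v 1 + u 2 * v 4 + u 4 * v 2)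

/-- the matrix whose columns are y3, x1, x2, va, y2, y1, x3 -/
noncomputable def PN : Mat :=
  !![0, 1/2, 0, 0, 0, -1/2, 0;
     0, 0, 1/2, 0, -1/2, 0, 0;
     1/2, 0, 0, 0, 0, 0, -1/2;
     0, 0, 0, 1, 0, 0, 0;
     0, -1/2, 0, 0, 0, -1/2, 0;
     0, 0, -1/2, 0, -1/2, 0, 0;
     -1/2, 0, 0, 0, 0, 0, -1/2]

/-- the inverse of `PN` -/
noncomputable def PI : Mat :=
  !![0, 0, 1, 0, 0, 0, -1;
     1, 0, 0, 0, -1, 0, 0;
     0, 1, 0, 0, 0, -1, 0;
     0, 0, 0, 1, 0, 0, 0;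
     0, -1, 0, 0, 0, -1, 0;
     -1, 0, 0, 0, -1, 0, 0;
     0, 0, -1, 0, 0, 0, -1]

theorem PN_PI : PN * PI = 1 := by
  ext i j; fin_cases i <;> fin_cases j <;> simp [PN, PI, Matrix.mul_apply, Fin.sum_univ_succ] <;> norm_num

theorem PI_PN : PI * PN = 1 := by
  ext i j; fin_cases i <;> fin_cases j <;> simp [PN, PI, Matrix.mul_apply, Fin.sum_univ_succ] <;> norm_num

theorem PN_PI_vec (v : V) : PN *ᵥ (PI *ᵥ v) = v := by
  rw [Matrix.mulVec_mulVec, PN_PI, Matrix.one_mulVec]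

theorem PI_PN_vec (v : V) : PI *ᵥ (PN *ᵥ v) = v := by
  rw [Matrix.mulVec_mulVec, PI_PN, Matrix.one_mulVec]

/-- `PN` transports the structures -/
theorem cross_PN (u v : V) : cross (PN *ᵥ u) (PN *ᵥ v) = PN *ᵥ (crossN u v) := by
  ext i
  fin_cases i <;> simp [PN, cross, crossN, Matrix.mulVec, dotProduct, Fin.sum_univ_succ] <;> ring

theorem B_PN (u v : V) : B (PN *ᵥ u) (PN *ᵥ v) = BN u v := by
  simp [PN, B, BN, Matrix.mulVec, dotProduct, Fin.sum_univ_succ]; ring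

/-- membership in split G_2, in null coordinates: preserve the form and the cross product -/
def InN (M : Mat) : Prop :=
  (∀ u v : V, BN (M *ᵥ u) (M *ᵥ v) = BN u v) ∧ (∀ u v : V, crossN (M *ᵥ u) (M *ᵥ v) = M *ᵥ (crossN u v))

/-- from null coordinates to the standard coordinates -/
noncomputable def ofN (M : Mat) : Mat := PN * M * PI

/-- from standard coordinates to null coordinates -/
noncomputable def toN (g : Mat) : Mat := PI * g * PN

theorem ofN_toN (g : Mat) : ofN (toN g) = g := by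
  unfold ofN toN
  calc PN * (PI * g * PN) * PI = (PN * PI) * g * (PN * PI) := by simp only [Matrix.mul_assoc]
    _ = g := by rw [PN_PI, Matrix.one_mul, Matrix.mul_one]

theorem toN_ofN (M : Mat) : toN (ofN M) = M := by
  unfold ofN toN
  calc PI * (PN * M * PI) * PN = (PI * PN) * M * (PI * PN) := by simp only [Matrix.mul_assoc]
    _ = M := by rw [PI_PN, Matrix.one_mul, Matrix.mul_one]

theorem ofN_mul (M N : Mat) : ofN (M * N) = ofN M * ofN N := by
  unfold ofN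
  calc PN * (M * N) * PI = PN * M * 1 * N * PI := by simp only [Matrix.mul_assoc, Matrix.mul_one, Matrix.one_mul]
    _ = PN * M * (PI * PN) * N * PI := by rw [PI_PN]
    _ = PN * M * PI * (PN * N * PI) := by simp only [Matrix.mul_assoc]

theorem ofN_one : ofN 1 = 1 := by simp [ofN, PN_PI]

theorem toN_mul (g h : Mat) : toN (g * h) = toN g * toN h := by
  rw [← toN_ofN (toN g * toN h), ofN_mul, ofN_toN, ofN_toN]

theorem toN_one : toN 1 = 1 := by simp [toN, PI_PN]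

theorem ofN_mulVec (M : Mat) (v : V) : ofN M *ᵥ (PN *ᵥ v) = PN *ᵥ (M *ᵥ v) := by
  unfold ofN
  rw [← Matrix.mulVec_mulVec, ← Matrix.mulVec_mulVec, PI_PN_vec]

theorem toN_mulVec (g : Mat) (v : V) : toN g *ᵥ (PI *ᵥ v) = PI *ᵥ (g *ᵥ v) := by
  unfold toN
  rw [← Matrix.mulVec_mulVec, ← Matrix.mulVec_mulVec, PN_PI_vec]

/-- the null basis in null coordinates -/
theorem PN_single0 : PN *ᵥ (Pi.single 0 1) = y3 := by
  ext i; fin_cases i <;> simp [PN, y3]
theorem PN_single1 : PN *ᵥ (Pi.single 1 1) = x1 := by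
  ext i; fin_cases i <;> simp [PN, x1]
theorem PN_single2 : PN *ᵥ (Pi.single 2 1) = x2 := by
  ext i; fin_cases i <;> simp [PN, x2]
theorem PN_single3 : PN *ᵥ (Pi.single 3 1) = va := by
  ext i; fin_cases i <;> simp [PN, va]
theorem PN_single4 : PN *ᵥ (Pi.single 4 1) = y2 := by
  ext i; fin_cases i <;> simp [PN, y2]
theorem PN_single5 : PN *ᵥ (Pi.single 5 1) = y1 := by
  ext i; fin_cases i <;> simp [PN, y1]
theorem PN_single6 : PN *ᵥ (Pi.single 6 1) = x3 := by
  ext i; fin_cases i <;> simp [PN, x3]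

/-- the 12 roots: long Lij, short S_{+i} = Si, S_{-i} = Ti -/
inductive Rt | L12 | L21 | L13 | L31 | L23 | L32 | S1 | S2 | S3 | T1 | T2 | T3
  deriving DecidableEq, Fintype

/-- root elements `exp (s R)` in null coordinates -/
noncomputable def re : Rt → ℝ → Mat
  | .L12, s => !![1,0,0,0,0,0,0; 0,1,-s,0,0,0,0; 0,0,1,0,0,0,0; 0,0,0,1,0,0,0; 0,0,0,0,1,s,0; 0,0,0,0,0,1,0; 0,0,0,0,0,0,1]
  | .L21, s => !![1,0,0,0,0,0,0; 0,1,0,0,0,0,0; 0,-s,1,0,0,0,0; 0,0,0,1,0,0,0; 0,0,0,0,1,0,0; 0,0,0,0,s,1,0; 0,0,0,0,0,0,1]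
  | .L13, s => !![1,0,0,0,0,s,0; 0,1,0,0,0,0,-s; 0,0,1,0,0,0,0; 0,0,0,1,0,0,0; 0,0,0,0,1,0,0; 0,0,0,0,0,1,0; 0,0,0,0,0,0,1]
  | .L31, s => !![1,0,0,0,0,0,0; 0,1,0,0,0,0,0; 0,0,1,0,0,0,0; 0,0,0,1,0,0,0; 0,0,0,0,1,0,0; s,0,0,0,0,1,0; 0,-s,0,0,0,0,1]
  | .L23, s => !![1,0,0,0,s,0,0; 0,1,0,0,0,0,0; 0,0,1,0,0,0,-s; 0,0,0,1,0,0,0; 0,0,0,0,1,0,0; 0,0,0,0,0,1,0; 0,0,0,0,0,0,1]
  | .L32, s => !![1,0,0,0,0,0,0; 0,1,0,0,0,0,0; 0,0,1,0,0,0,0; 0,0,0,1,0,0,0; s,0,0,0,1,0,0; 0,0,0,0,0,1,0; 0,0,-s,0,0,0,1]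
  | .S1, s => !![1,0,s,0,0,0,0; 0,1,0,2*s,0,-s^2,0; 0,0,1,0,0,0,0; 0,0,0,1,0,-s,0; 0,0,0,0,1,0,-s; 0,0,0,0,0,1,0; 0,0,0,0,0,0,1]
  | .S2, s => !![1,s,0,0,0,0,0; 0,1,0,0,0,0,0; 0,0,1,-2*s,-s^2,0,0; 0,0,0,1,s,0,0; 0,0,0,0,1,0,0; 0,0,0,0,0,1,-s; 0,0,0,0,0,0,1]
  | .S3, s => !![1,0,0,0,0,0,0; 0,1,0,0,0,0,0; 0,0,1,0,0,0,0; -s,0,0,1,0,0,0; 0,s,0,0,1,0,0; 0,0,-s,0,0,1,0; -s^2,0,0,2*s,0,0,1]
  | .T1, s => !![1,0,0,0,0,0,0; 0,1,0,0,0,0,0; -s/2,0,1,0,0,0,0; 0,-s/2,0,1,0,0,0; 0,0,0,0,1,0,0; 0,-s^2/4,0,s,0,1,0; 0,0,0,0,s/2,0,1]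
  | .T2, s => !![1,0,0,0,0,0,0; s/2,1,0,0,0,0,0; 0,0,1,0,0,0,0; 0,0,-s/2,1,0,0,0; 0,0,-s^2/4,s,1,0,0; 0,0,0,0,0,1,0; 0,0,0,0,0,-s/2,1]
  | .T3, s => !![1,0,0,s,0,0,-s^2/4; 0,1,0,0,-s/2,0,0; 0,0,1,0,0,s/2,0; 0,0,0,1,0,0,-s/2; 0,0,0,0,1,0,0; 0,0,0,0,0,1,0; 0,0,0,0,0,0,1]

/-- the torus `iota (diag (t1, t2, (t1 t2)⁻¹))` in null coordinates -/
noncomputable def DN (t1 t2 : ℝ) : Mat :=
  Matrix.diagonal ![t1 * t2, t1, t2, 1, t2⁻¹, t1⁻¹, (t1 * t2)⁻¹]

/-- cofactor matrix of a 3x3 matrix -/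
noncomputable def cof (A : Matrix (Fin 3) (Fin 3) ℝ) : Matrix (Fin 3) (Fin 3) ℝ :=
  !![A 1 1 * A 2 2 - A 1 2 * A 2 1, -(A 1 0 * A 2 2 - A 1 2 * A 2 0), A 1 0 * A 2 1 - A 1 1 * A 2 0;
     -(A 0 1 * A 2 2 - A 0 2 * A 2 1), A 0 0 * A 2 2 - A 0 2 * A 2 0, -(A 0 0 * A 2 1 - A 0 1 * A 2 0);
     A 0 1 * A 1 2 - A 0 2 * A 1 1, -(A 0 0 * A 1 2 - A 0 2 * A 1 0), A 0 0 * A 1 1 - A 0 1 * A 1 0]

/-- SL_3 in null coordinates: `A` on span(x1,x2,x3), the cofactor matrix of `A` on span(y1,y2,y3), 1 on va.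
(For det A = 1 the cofactor matrix is the inverse transpose.) -/
noncomputable def iN (A : Matrix (Fin 3) (Fin 3) ℝ) : Mat :=
  !![cof A 2 2, 0, 0, 0, cof A 2 1, cof A 2 0, 0;
     0, A 0 0, A 0 1, 0, 0, 0, A 0 2;
     0, A 1 0, A 1 1, 0, 0, 0, A 1 2;
     0, 0, 0, 1, 0, 0, 0;
     cof A 1 2, 0, 0, 0, cof A 1 1, cof A 1 0, 0;
     cof A 0 2, 0, 0, 0, cof A 0 1, cof A 0 0, 0;
     0, A 2 0, A 2 1, 0, 0, 0, A 2 2]

/-- products of root elements -/
noncomputable def word (l : List (Rt × ℝ)) : Mat := (l.map fun p => re p.1 p.2).prod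

end C37.PGX
end

section

/-!
MP_c37615_al (S02984), part GX, task A01: elements of G are invertible and preserve `cross u v = 0`.
-/

set_option autoImplicit false
set_option linter.all false

open Matrix

namespace C37.PGX

/-- Proof: evaluate `h` at pairs of standard basis vectors: with `e i = Pi.single i 1` one has
phi v (e 1) (e 2) = v 0, phi v (e 0) (e 2) = - v 1, phi v (e 0) (e 1) = v 2, phi v (e 0) (e 4) = v 3 (sign to be checked),
phi v (e 0) (e 3) = ∓ v 4, phi v (e 0) (e 6) = ± v 5, phi v (e 0) (e 5) = ∓ v 6. -/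
theorem phi_nondeg (v : V) (h : ∀ a b : V, phi v a b = 0) : v = 0 := by
  have h0 := h (Pi.single 1 1) (Pi.single 2 1)
  have h1 := h (Pi.single 0 1) (Pi.single 2 1)
  have h2 := h (Pi.single 0 1) (Pi.single 1 1)
  have h3 := h (Pi.single 0 1) (Pi.single 4 1)
  have h4 := h (Pi.single 0 1) (Pi.single 3 1)
  have h5 := h (Pi.single 0 1) (Pi.single 6 1)
  have h6 := h (Pi.single 0 1) (Pi.single 5 1)
  simp [phi, e3, det3, Pi.single_apply] at h0 h1 h2 h3 h4 h5 h6
  funext i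
  fin_cases i <;> simp <;> linarith

/-- Proof: otherwise `g *ᵥ v = 0` for some `v ≠ 0` (`Matrix.exists_mulVec_eq_zero_iff`), so
`phi v a b = phi (g v) (g a) (g b) = phi 0 _ _ = 0`, contradiction with `phi_nondeg`. -/
theorem InG_det_ne (g : Mat) (hg : InG g) : g.det ≠ 0 := by
  intro hdet
  obtain ⟨v, hv, hv0⟩ := Matrix.exists_mulVec_eq_zero_iff.mpr hdet
  apply hv
  apply phi_nondeg
  intro a b
  have h1 := hg v a b
  rw [← h1, hv0]
  simp [phi, e3, det3]

/-- `B (cross u v) w = phi u v w` (`B_cross`) and `B` is nondegenerate (test with `Pi.single i 1`) -/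
theorem cross_eq_zero_iff (u v : V) : cross u v = 0 ↔ ∀ w, phi u v w = 0 := by
  constructor
  · intro h w
    rw [← B_cross, h]
    simp [B]
  · intro h
    funext i
    have h1 := h (Pi.single i 1)
    rw [← B_cross] at h1
    revert h1
    generalize cross u v = c
    intro h1
    fin_cases i <;> simp [B, Pi.single_apply] at h1 ⊢ <;> linarith

/-- by `cross_eq_zero_iff` and surjectivity of `g` (`InG_det_ne`) -/
theorem InG_cross_zero (g : Mat) (hg : InG g) (u v : V) :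
    cross (g *ᵥ u) (g *ᵥ v) = 0 ↔ cross u v = 0 := by
  rw [cross_eq_zero_iff, cross_eq_zero_iff]
  constructor
  · intro h w
    rw [← hg u v w]
    exact h _
  · intro h w
    have hu : IsUnit g.det := isUnit_iff_ne_zero.mpr (InG_det_ne g hg)
    have h1 : w = g *ᵥ (g⁻¹ *ᵥ w) := by
      rw [Matrix.mulVec_mulVec, Matrix.mul_nonsing_inv g hu, Matrix.one_mulVec]
    rw [h1, hg u v]
    exact h _

end C37.PGX
end

section

/-!
MP_c37615_al (S02984), part GX, task A02: characterisation of the null vectors by the cross product.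
-/

set_option autoImplicit false
set_option linter.all false

open Matrix

namespace C37.PGX

/-- Proof: by `cross_cross_self`, `0 = cross u (cross u v) = (-(B u u)) • v + (B u v) • u`; if `B u u ≠ 0` then
`v = (B u v / B u u) • u`, contradiction. -/
theorem null_of_cross_zero (u v : V) (hv : ∀ c : ℝ, v ≠ c • u) (h : cross u v = 0) : B u u = 0 := by
  by_contra hq
  have h1 := cross_cross_self u v
  rw [h] at h1
  have h2 : cross u 0 = 0 := by
    ext i; fin_cases i <;> simp [cross]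
  rw [h2] at h1
  apply hv (B u v / B u u)
  have h3 : (B u u) • v = (B u v) • u := by
    have h4 : (B u v) • u - (B u u) • v = 0 := by
      rw [h1]; module
    exact (sub_eq_zero.mp h4).symm
  rw [div_eq_inv_mul, mul_smul, ← h3, smul_smul, inv_mul_cancel₀ hq, one_smul]

/-- Proof. Let `J u = (u 0, u 1, u 2, -u 3, -u 4, -u 5, -u 6)`, so `B u (J u) = Σ (u i)^2 > 0`; `e = cross u (J u)`.
The linear map `V → ℝ^3`, `w ↦ (B u w, B (J u) w, B e w)` has a kernel vector `w ≠ 0` (dimension).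
`w` is not a multiple of `u`: `w = c • u` gives `c * B u (J u) = 0`, so `c = 0`.
If `cross u w = 0` take `v = w`.  Otherwise take `v = cross u w`:
`cross u v = (-(B u u)) • w + (B u w) • u = 0` by `cross_cross_self`; and if `v = c • u` then
`c * B u (J u) = B (cross u w) (J u) = phi u w (J u) = ± B w (cross u (J u)) = 0`, so `c = 0` and `cross u w = 0`, contradiction. -/
theorem exists_cross_zero (u : V) (hu : u ≠ 0) (hq : B u u = 0) :
    ∃ v : V, (∀ c : ℝ, v ≠ c • u) ∧ cross u v = 0 := by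
  let Ju : V := ![u 0, u 1, u 2, -u 3, -u 4, -u 5, -u 6]
  let e : V := cross u Ju
  have hpos : 0 < B u Ju := by
    have h1 : B u Ju = u 0 ^ 2 + u 1 ^ 2 + u 2 ^ 2 + u 3 ^ 2 + u 4 ^ 2 + u 5 ^ 2 + u 6 ^ 2 := by
      simp [B, Ju]; ring
    rw [h1]
    have h2 : ∃ i, u i ≠ 0 := by
      by_contra hcon
      push Not at hcon
      exact hu (funext hcon)
    obtain ⟨i, hi⟩ := h2
    have h3 : 0 < (u i) ^ 2 := by positivity
    fin_cases i <;> simp at h3 <;> nlinarith [sq_nonneg (u 0), sq_nonneg (u 1), sq_nonneg (u 2), sq_nonneg (u 3), sq_nonneg (u 4), sq_nonneg (u 5), sq_nonneg (u 6)]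
  let T : V →ₗ[ℝ] (Fin 3 → ℝ) :=
    { toFun := fun w => ![B u w, B Ju w, B e w]
      map_add' := by
        intro x y
        ext i
        fin_cases i <;> simp [B] <;> ring
      map_smul' := by
        intro c x
        ext i
        fin_cases i <;> simp [B] <;> ring }
  have hker : ∃ w : V, w ≠ 0 ∧ T w = 0 := by
    have h1 : LinearMap.ker T ≠ ⊥ := LinearMap.ker_ne_bot_of_finrank_lt (by simp)
    obtain ⟨w, hw, hw0⟩ := (Submodule.ne_bot_iff _).mp h1
    exact ⟨w, hw0, hw⟩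
  obtain ⟨w, hw0, hTw⟩ := hker
  have hw1 : B u w = 0 := congrFun hTw 0
  have hw2 : B Ju w = 0 := congrFun hTw 1
  have hw3 : B e w = 0 := congrFun hTw 2
  by_cases hc : cross u w = 0
  · refine ⟨w, ?_, hc⟩
    rintro c rfl
    have h1 : B Ju (c • u) = c * B u Ju := by simp [B]; ring
    rw [h1] at hw2
    rcases mul_eq_zero.mp hw2 with h2 | h2
    · apply hw0; rw [h2, zero_smul]
    · exact hpos.ne' h2
  · refine ⟨cross u w, ?_, ?_⟩
    · intro c hcu
      have h1 : B (cross u w) Ju = c * B u Ju := by rw [hcu]; simp [B]; ring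
      have h2 : B (cross u w) Ju = - B (cross u Ju) w := by
        rw [B_cross, B_cross]
        simp [phi, e3, det3]; ring
      have h3 : c * B u Ju = 0 := by
        rw [← h1, h2]
        show - B e w = 0
        rw [hw3, neg_zero]
      rcases mul_eq_zero.mp h3 with h4 | h4
      · apply hc; rw [hcu, h4, zero_smul]
      · exact hpos.ne' h4
    · rw [cross_cross_self, hq, hw1]
      simp

end C37.PGX
end

section

/-!
MP_c37615_al (S02984), part GX, task B01: basic facts about `InN`.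
(null coordinates, index 0..6 = y3, x1, x2, va, y2, y1, x3; see GX/N0.lean)
-/

set_option autoImplicit false
set_option linter.all false

open Matrix

namespace C37.PGX

/-- basis vectors in null coordinates -/
abbrev en (k : Fin 7) : V := Pi.single k 1

/-- weights of the norm: `|v|^2 = Σ v_i^2 / kap i` in null coordinates -/
def kap : Fin 7 → ℝ := ![2, 2, 2, 1, 2, 2, 2]

/-- the inverse of a matrix preserving `BN` -/
noncomputable def adjN (M : Mat) : Mat :=
  Matrix.of fun i j => kap i * M (Fin.rev j) (Fin.rev i) / kap j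

theorem InN_one : InN 1 := by
  constructor <;> intro u v <;> simp

theorem InN_mul {M N : Mat} (hM : InN M) (hN : InN N) : InN (M * N) := by
  constructor
  · intro u v
    rw [← Matrix.mulVec_mulVec, ← Matrix.mulVec_mulVec, hM.1, hN.1]
  · intro u v
    rw [← Matrix.mulVec_mulVec, ← Matrix.mulVec_mulVec, hM.2, hN.2, Matrix.mulVec_mulVec]

/-- Proof: `(adjN M * M) i j = Σ_k kap i * M (rev k) (rev i) / kap k * M k j`; and
`BN (M en a) (M en b) = BN (en a) (en b)` with `a = rev i`, `b = j` is (up to the factor -kap i / ... ) the same sum, because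
`BN u v = - Σ_k u (rev k) * v k / kap k`.  (First prove this formula for BN by `Fin.sum_univ_succ` and `ring`;
`BN (en (rev i)) (en j) = - (if i = j then 1 else 0) / kap i`.) -/
theorem adjN_mul (M : Mat) (h : ∀ u v : V, BN (M *ᵥ u) (M *ᵥ v) = BN u v) : adjN M * M = 1 := by
  have hBN : ∀ u v : V, BN u v = - ∑ k, u (Fin.rev k) * v k / kap k := by
    intro u v
    simp [BN, kap, Fin.sum_univ_succ, Fin.rev, Fin.succ]
    ring
  have hcol : ∀ a : Fin 7, M *ᵥ en a = fun k => M k a := by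
    intro a
    ext k
    simp [en, Matrix.mulVec, dotProduct, Pi.single_apply]
  ext i j
  have h1 := h (en (Fin.rev i)) (en j)
  rw [hBN, hBN, hcol, hcol] at h1
  have h2 : (adjN M * M) i j = kap i * ∑ k, M (Fin.rev k) (Fin.rev i) * M k j / kap k := by
    rw [Matrix.mul_apply, Finset.mul_sum]
    refine Finset.sum_congr rfl fun k _ => ?_
    simp only [adjN, Matrix.of_apply]
    ring
  have h3 : ∑ k, M (Fin.rev k) (Fin.rev i) * M k j / kap k
      = ∑ k, (en (Fin.rev i)) (Fin.rev k) * (en j) k / kap k := by linarith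
  rw [h2, h3]
  have h4 : ∀ k, (en (Fin.rev i)) (Fin.rev k) * (en j) k / kap k = if k = i then (if k = j then 1 / kap i else 0) else 0 := by
    intro k
    by_cases hk : k = i
    · subst hk
      by_cases hj : k = j
      · subst hj; simp [en]
      · simp [en, Pi.single_apply, hj]
    · have hk' : Fin.rev k ≠ Fin.rev i := fun h => hk (Fin.rev_injective h)
      simp [en, Pi.single_apply, hk, hk']
  simp only [h4]
  rw [Finset.sum_ite_eq' Finset.univ i (fun k => if k = j then 1 / kap i else 0)]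
  have hk0 : kap i ≠ 0 := by fin_cases i <;> simp [kap]
  by_cases hij : i = j
  · subst hij; simp [hk0]
  · simp [hij]

/-- from `adjN_mul` by `mul_eq_one_comm` -/
theorem mul_adjN (M : Mat) (h : ∀ u v : V, BN (M *ᵥ u) (M *ᵥ v) = BN u v) : M * adjN M = 1 :=
  _root_.mul_eq_one_comm.mp (adjN_mul M h)

theorem InN_det_ne (M : Mat) (h : InN M) : M.det ≠ 0 := by
  intro h0
  have h1 := adjN_mul M h.1
  have h2 := congrArg Matrix.det h1
  rw [Matrix.det_mul, h0, mul_zero, Matrix.det_one] at h2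
  exact zero_ne_one h2

/-- if `N * M = 1` and `M` in G then `N` in G (apply the equations for M to `N u`, `N v`) -/
theorem InN_of_mul_eq_one (M N : Mat) (hM : InN M) (h : N * M = 1) : InN N := by
  have h' : M * N = 1 := _root_.mul_eq_one_comm.mp h
  have hv : ∀ u : V, M *ᵥ (N *ᵥ u) = u := by
    intro u
    rw [Matrix.mulVec_mulVec, h', Matrix.one_mulVec]
  have hv' : ∀ u : V, N *ᵥ (M *ᵥ u) = u := by
    intro u
    rw [Matrix.mulVec_mulVec, h, Matrix.one_mulVec]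
  constructor
  · intro u v
    have h1 := hM.1 (N *ᵥ u) (N *ᵥ v)
    rw [hv, hv] at h1
    exact h1.symm
  · intro u v
    have h1 := hM.2 (N *ᵥ u) (N *ᵥ v)
    rw [hv, hv] at h1
    rw [h1, hv']

theorem InN_adjN (M : Mat) (hM : InN M) : InN (adjN M) :=
  InN_of_mul_eq_one M (adjN M) hM (adjN_mul M hM.1)

/-- basis products (each by `ext i; fin_cases i <;> simp [crossN]`, with care) -/
theorem crossN_12 : crossN (en 1) (en 2) = en 0 := by
  ext i; fin_cases i <;> simp [crossN, en, Pi.single_apply]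
theorem crossN_26 : crossN (en 2) (en 6) = en 5 := by
  ext i; fin_cases i <;> simp [crossN, en, Pi.single_apply]
theorem crossN_61 : crossN (en 6) (en 1) = en 4 := by
  ext i; fin_cases i <;> simp [crossN, en, Pi.single_apply]
theorem crossN_60 : crossN (en 6) (en 0) = (1/2 : ℝ) • en 3 := by
  ext i; fin_cases i <;> simp [crossN, en, Pi.single_apply]
theorem crossN_3 (v : V) : crossN (en 3) v = ![-v 0, v 1, v 2, 0, -v 4, -v 5, v 6] := by
  ext i; fin_cases i <;> simp [crossN, en, Pi.single_apply]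

/-- an element of G is determined by the images of x1, x2, x3:
en 0 = en 1 × en 2, en 5 = en 2 × en 6, en 4 = en 6 × en 1, en 3 = 2 • (en 6 × en 0). -/
theorem InN_ext (M N : Mat) (hM : InN M) (hN : InN N) (h1 : M *ᵥ en 1 = N *ᵥ en 1)
    (h2 : M *ᵥ en 2 = N *ᵥ en 2) (h6 : M *ᵥ en 6 = N *ᵥ en 6) : M = N := by
  have h0 : M *ᵥ en 0 = N *ᵥ en 0 := by
    rw [← crossN_12, ← hM.2, ← hN.2, h1, h2]
  have h5 : M *ᵥ en 5 = N *ᵥ en 5 := by
    rw [← crossN_26, ← hM.2, ← hN.2, h2, h6]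
  have h4 : M *ᵥ en 4 = N *ᵥ en 4 := by
    rw [← crossN_61, ← hM.2, ← hN.2, h6, h1]
  have h3 : M *ᵥ en 3 = N *ᵥ en 3 := by
    have e1 : en 3 = (2:ℝ) • crossN (en 6) (en 0) := by
      rw [crossN_60, smul_smul]; norm_num
    rw [e1, Matrix.mulVec_smul, Matrix.mulVec_smul, ← hM.2, ← hN.2, h6, h0]
  have hcol : ∀ (A : Mat) (a k : Fin 7), A k a = (A *ᵥ en a) k := by
    intro A a k
    simp [en, Matrix.mulVec, dotProduct, Pi.single_apply]
  ext k a
  rw [hcol M, hcol N]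
  fin_cases a
  · exact congrFun h0 k
  · exact congrFun h1 k
  · exact congrFun h2 k
  · exact congrFun h3 k
  · exact congrFun h4 k
  · exact congrFun h5 k
  · exact congrFun h6 k

end C37.PGX
end
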