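import Mathlib
import Pool.Agent.Lib.MP_c37615_al.Mg.G011

section

/-!
MP_c37615_al (S02984), part GX, task A03: a quadratic form vanishing on the null cone is a multiple of `B`.
-/

set_option autoImplicit false
set_option linter.all false

open Matrix

namespace C37.PGX

/-- linearity of `B` in the first variable -/
theorem A03_add_left (u v w : V) : B (u + v) w = B u w + B v w := by simp [B]; ring
theorem A03_add_right (u v w : V) : B u (v + w) = B u v + B u w := by simp [B]; ring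
theorem A03_smul_left (c : ℝ) (u w : V) : B (c • u) w = c * B u w := by simp [B]; ring
theorem A03_smul_right (c : ℝ) (u w : V) : B u (c • w) = c * B u w := by simp [B]; ring
theorem A03_symm (u w : V) : B u w = B w u := by simp [B]; ring

theorem A03_decomp (u : V) : u = u 0 • (Pi.single 0 1 : V) + u 1 • (Pi.single 1 1 : V) + u 2 • (Pi.single 2 1 : V)
    + u 3 • (Pi.single 3 1 : V) + u 4 • (Pi.single 4 1 : V) + u 5 • (Pi.single 5 1 : V) + u 6 • (Pi.single 6 1 : V) := by
  ext i; fin_cases i <;> simp [Pi.single_apply]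

/-- Proof. Let `b i j = B (M *ᵥ e i) (M *ᵥ e j)`, `e i = Pi.single i 1` (standard basis; B (e i) (e i) = 1 for i ≤ 2, -1 for i ≥ 3).
For i ≤ 2 < j the vectors e i + e j and e i - e j are null, so b i i + b j j ± 2 b i j = 0: b i j = 0, b j j = - b i i.
So all b i i (i ≤ 2) are equal to l := b 0 0, and b j j = - l (j ≥ 3).
For i ≠ i' ≤ 2: 3 e i + 4 e i' + 5 e 3 is null: 9 l + 16 l - 25 l + 24 b i i' = 0.  For j ≠ j' ≥ 3: 5 e 0 + 3 e j + 4 e j' is null: b j j' = 0.
Then expand `B (M u) (M v) = Σ_ij u i * v j * b i j = l * B u v`. -/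
theorem quad_prop (M : Mat) (h : ∀ u : V, B u u = 0 → B (M *ᵥ u) (M *ᵥ u) = 0) :
    ∃ l : ℝ, ∀ u v : V, B (M *ᵥ u) (M *ᵥ v) = l * B u v := by
  -- the bilinear form on basis vectors
  obtain ⟨b, hb⟩ : ∃ b : Fin 7 → Fin 7 → ℝ, ∀ i j, b i j = B (M *ᵥ (Pi.single i 1 : V)) (M *ᵥ (Pi.single j 1 : V)) :=
    ⟨_, fun _ _ => rfl⟩
  have hsym : ∀ i j, b i j = b j i := fun i j => by rw [hb, hb, A03_symm]
  have h2 : ∀ (i j : Fin 7) (x y : ℝ), B (x • (Pi.single i 1 : V) + y • (Pi.single j 1 : V)) (x • (Pi.single i 1 : V) + y • (Pi.single j 1 : V)) = 0 →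
      x ^ 2 * b i i + y ^ 2 * b j j + 2 * x * y * b i j = 0 := by
    intro i j x y hxy
    have h1 := h _ hxy
    simp only [Matrix.mulVec_add, Matrix.mulVec_smul, A03_add_left, A03_add_right, A03_smul_left, A03_smul_right, ← hb] at h1
    rw [hsym j i] at h1
    linarith
  have h3 : ∀ (i j k : Fin 7) (x y z : ℝ), B (x • (Pi.single i 1 : V) + y • (Pi.single j 1 : V) + z • (Pi.single k 1 : V))
      (x • (Pi.single i 1 : V) + y • (Pi.single j 1 : V) + z • (Pi.single k 1 : V)) = 0 →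
      x ^ 2 * b i i + y ^ 2 * b j j + z ^ 2 * b k k + 2 * x * y * b i j + 2 * x * z * b i k + 2 * y * z * b j k = 0 := by
    intro i j k x y z hxy
    have h1 := h _ hxy
    simp only [Matrix.mulVec_add, Matrix.mulVec_smul, A03_add_left, A03_add_right, A03_smul_left, A03_smul_right, ← hb] at h1
    rw [hsym j i, hsym k i, hsym k j] at h1
    linarith
  have hij : ∀ i j : Fin 7, i.val ≤ 2 → 3 ≤ j.val → b i j = 0 ∧ b j j = - b i i := by
    intro i j hi hj
    have hn1 : B ((1:ℝ) • (Pi.single i 1 : V) + (1:ℝ) • (Pi.single j 1 : V)) ((1:ℝ) • (Pi.single i 1 : V) + (1:ℝ) • (Pi.single j 1 : V)) = 0 := by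
      fin_cases i <;> fin_cases j <;> simp at hi hj <;> simp [B, Pi.single_apply]
    have hn2 : B ((1:ℝ) • (Pi.single i 1 : V) + (-1:ℝ) • (Pi.single j 1 : V)) ((1:ℝ) • (Pi.single i 1 : V) + (-1:ℝ) • (Pi.single j 1 : V)) = 0 := by
      fin_cases i <;> fin_cases j <;> simp at hi hj <;> simp [B, Pi.single_apply]
    have e1 := h2 i j 1 1 hn1
    have e2 := h2 i j 1 (-1) hn2
    constructor <;> linarith
  have h00 : ∀ j : Fin 7, 3 ≤ j.val → b j j = - b 0 0 := fun j hj => (hij 0 j (by simp) hj).2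
  have hii : ∀ i : Fin 7, i.val ≤ 2 → b i i = b 0 0 := by
    intro i hi
    have e1 := (hij i 3 hi (by simp)).2
    have e2 := h00 3 (by simp)
    linarith
  have hlow : ∀ i j : Fin 7, i.val ≤ 2 → j.val ≤ 2 → i ≠ j → b i j = 0 := by
    intro i j hi hj hne
    have hn : B ((3:ℝ) • (Pi.single i 1 : V) + (4:ℝ) • (Pi.single j 1 : V) + (5:ℝ) • (Pi.single 3 1 : V))
        ((3:ℝ) • (Pi.single i 1 : V) + (4:ℝ) • (Pi.single j 1 : V) + (5:ℝ) • (Pi.single 3 1 : V)) = 0 := by
      fin_cases i <;> fin_cases j <;> simp at hi hj hne <;> simp [B, Pi.single_apply] <;> norm_num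
    have e1 := h3 i j 3 3 4 5 hn
    have e2 := (hij i 3 hi (by simp)).1
    have e3 := (hij j 3 hj (by simp)).1
    have e4 := hii i hi
    have e5 := hii j hj
    have e6 := h00 3 (by simp)
    rw [e2, e3, e4, e5, e6] at e1
    linarith
  have hhigh : ∀ i j : Fin 7, 3 ≤ i.val → 3 ≤ j.val → i ≠ j → b i j = 0 := by
    intro i j hi hj hne
    have hn : B ((5:ℝ) • (Pi.single 0 1 : V) + (3:ℝ) • (Pi.single i 1 : V) + (4:ℝ) • (Pi.single j 1 : V))
        ((5:ℝ) • (Pi.single 0 1 : V) + (3:ℝ) • (Pi.single i 1 : V) + (4:ℝ) • (Pi.single j 1 : V)) = 0 := by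
      fin_cases i <;> fin_cases j <;> simp at hi hj hne <;> simp [B, Pi.single_apply] <;> norm_num
    have e1 := h3 0 i j 5 3 4 hn
    have e2 := (hij 0 i (by simp) hi).1
    have e3 := (hij 0 j (by simp) hj).1
    have e4 := h00 i hi
    have e5 := h00 j hj
    rw [e2, e3, e4, e5] at e1
    linarith
  refine ⟨b 0 0, ?_⟩
  have hbij : ∀ i j : Fin 7, b i j = b 0 0 * B (Pi.single i 1 : V) (Pi.single j 1 : V) := by
    intro i j
    by_cases hij' : i = j
    · subst hij'
      by_cases hi : i.val ≤ 2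
      · rw [hii i hi]
        fin_cases i <;> simp at hi <;> simp [B, Pi.single_apply]
      · rw [h00 i (by omega)]
        fin_cases i <;> simp at hi <;> simp [B, Pi.single_apply]
    · have hz : B (Pi.single i 1 : V) (Pi.single j 1 : V) = 0 := by
        fin_cases i <;> fin_cases j <;> simp at hij' <;> simp [B, Pi.single_apply]
      rw [hz, mul_zero]
      by_cases hi : i.val ≤ 2
      · by_cases hj : j.val ≤ 2
        · exact hlow i j hi hj hij'
        · exact (hij i j hi (by omega)).1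
      · by_cases hj : j.val ≤ 2
        · rw [hsym]; exact (hij j i hj (by omega)).1
        · exact hhigh i j (by omega) (by omega) hij'
  have hsumV : ∀ u : V, u = ∑ i, u i • (Pi.single i 1 : V) := by
    intro u
    ext j
    simp [Finset.sum_apply, Pi.single_apply]
  have hBsum : ∀ (f g : Fin 7 → V) (u v : V), B (∑ i, u i • f i) (∑ j, v j • g j) = ∑ i, ∑ j, u i * v j * B (f i) (g j) := by
    intro f g u v
    have hL : ∀ (s : Finset (Fin 7)) (w : V), B (∑ i ∈ s, u i • f i) w = ∑ i ∈ s, u i * B (f i) w := by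
      intro s w
      classical
      induction s using Finset.induction_on with
      | empty => simp [B]
      | insert a s ha ih => rw [Finset.sum_insert ha, Finset.sum_insert ha, A03_add_left, A03_smul_left, ih]
    have hR : ∀ (s : Finset (Fin 7)) (w : V), B w (∑ j ∈ s, v j • g j) = ∑ j ∈ s, v j * B w (g j) := by
      intro s w
      classical
      induction s using Finset.induction_on with
      | empty => simp [B]
      | insert a s ha ih => rw [Finset.sum_insert ha, Finset.sum_insert ha, A03_add_right, A03_smul_right, ih]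
    rw [hL]
    refine Finset.sum_congr rfl fun i _ => ?_
    rw [hR, Finset.mul_sum]
    refine Finset.sum_congr rfl fun j _ => ?_
    ring
  intro u v
  have e1 : M *ᵥ u = ∑ i, u i • (M *ᵥ (Pi.single i 1 : V)) := by
    conv_lhs => rw [hsumV u]
    rw [Matrix.mulVec_sum]
    refine Finset.sum_congr rfl fun i _ => ?_
    rw [Matrix.mulVec_smul]
  have e2 : M *ᵥ v = ∑ i, v i • (M *ᵥ (Pi.single i 1 : V)) := by
    conv_lhs => rw [hsumV v]
    rw [Matrix.mulVec_sum]
    refine Finset.sum_congr rfl fun i _ => ?_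
    rw [Matrix.mulVec_smul]
  rw [e1, e2, hBsum]
  have e3 : B u v = ∑ i, ∑ j, u i * v j * B (Pi.single i 1 : V) (Pi.single j 1 : V) := by
    conv_lhs => rw [hsumV u, hsumV v]
    exact hBsum _ _ u v
  rw [e3, Finset.mul_sum]
  refine Finset.sum_congr rfl fun i _ => ?_
  rw [Finset.mul_sum]
  refine Finset.sum_congr rfl fun j _ => ?_
  rw [← hb, hbij]
  ring

end C37.PGX
end

section

/-!
MP_c37615_al (S02984), part GX, task A04: G preserves `B` and `cross`.
-/

set_option autoImplicit false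
set_option linter.all false

open Matrix

namespace C37.PGX

private theorem A04_ext {a b : V} (h : ∀ w : V, B a w = B b w) : a = b := by
  ext i
  have h0 := h (Pi.single i 1)
  fin_cases i <;> simpa [B, Pi.single_apply] using h0

private theorem A04_smul (c : ℝ) (u v : V) : cross u (c • v) = c • cross u v := by
  ext i
  fin_cases i <;> simp [cross] <;> ring

private theorem A04_Bsmul (c : ℝ) (u v : V) : B (c • u) v = c * B u v := by
  simp [B]; ring

/-- Proof.  1. If `B u u = 0` then `B (g u) (g u) = 0`: for u = 0 clear; else take v from `exists_cross_zero`; `cross (g u) (g v) = 0`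
(`InG_cross_zero`) and `g v ≠ c • g u` (g injective, `InG_det_ne`), so `null_of_cross_zero` applies to g u, g v.
2. `quad_prop`: `B (g u) (g v) = l * B u v`.  `l ≠ 0`: otherwise B (g u) w = 0 for all u, w (g surjective), so g u = 0.
3. `B (cross (g u) (g v)) (g w) = phi (g u) (g v) (g w) = phi u v w = B (cross u v) w = l⁻¹ * B (g (cross u v)) (g w)`, g surjective,
B nondegenerate: `cross (g u) (g v) = l⁻¹ • g (cross u v)`.
4. Apply `cross_cross_self` to (u,v) and (g u, g v): `l⁻¹ • l⁻¹ • g (cross u (cross u v)) = l • g (-(B u u) v + (B u v) u)`.  Take u = Pi.single 0 1,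
v = Pi.single 1 1 (B u u = 1, B u v = 0): `l⁻¹ ^ 2 = l`, so `l ^ 3 = 1`, `l = 1` (real). -/
theorem InG_BX (g : Mat) (hg : InG g) : (∀ u v : V, B (g *ᵥ u) (g *ᵥ v) = B u v) ∧
    (∀ u v : V, cross (g *ᵥ u) (g *ᵥ v) = g *ᵥ (cross u v)) := by
  have hdet := InG_det_ne g hg
  have hu : IsUnit g.det := isUnit_iff_ne_zero.mpr hdet
  have hinj : ∀ a b : V, g *ᵥ a = g *ᵥ b → a = b := by
    intro a b hab
    have h1 := congrArg (fun x => g⁻¹ *ᵥ x) hab
    simpa [Matrix.mulVec_mulVec, Matrix.nonsing_inv_mul g hu] using h1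
  have hsurj : ∀ w : V, ∃ u : V, g *ᵥ u = w := by
    intro w
    refine ⟨g⁻¹ *ᵥ w, ?_⟩
    rw [Matrix.mulVec_mulVec, Matrix.mul_nonsing_inv g hu, Matrix.one_mulVec]
  have hnull : ∀ u : V, B u u = 0 → B (g *ᵥ u) (g *ᵥ u) = 0 := by
    intro u hq
    by_cases h0 : u = 0
    · rw [h0, Matrix.mulVec_zero]
      simp [B]
    · obtain ⟨v, hv, hc⟩ := exists_cross_zero u h0 hq
      refine null_of_cross_zero (g *ᵥ u) (g *ᵥ v) (fun c hc' => hv c ?_)
        ((InG_cross_zero g hg u v).mpr hc)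
      apply hinj
      rw [hc', Matrix.mulVec_smul]
  obtain ⟨l, hl⟩ := quad_prop g hnull
  have hl0 : l ≠ 0 := by
    intro h0
    obtain ⟨u, hu'⟩ := hsurj (Pi.single 0 1)
    have h1 := hl u u
    rw [hu', h0] at h1
    simp [B, Pi.single_apply] at h1
  have hcr : ∀ u v : V, cross (g *ᵥ u) (g *ᵥ v) = l⁻¹ • (g *ᵥ (cross u v)) := by
    intro u v
    apply A04_ext
    intro w
    obtain ⟨w', rfl⟩ := hsurj w
    rw [B_cross, hg, ← B_cross, A04_Bsmul, hl, ← mul_assoc, inv_mul_cancel₀ hl0, one_mul]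
  have hl1 : l = 1 := by
    set a : V := Pi.single 0 1 with ha
    set b : V := Pi.single 1 1 with hb
    have haa : B a a = 1 := by rw [ha]; simp [B, Pi.single_apply]
    have hab : B a b = 0 := by rw [ha, hb]; simp [B, Pi.single_apply]
    have h1 := cross_cross_self a b
    rw [haa, hab, zero_smul, add_zero] at h1
    have h2 := cross_cross_self (g *ᵥ a) (g *ᵥ b)
    rw [hl a a, hl a b, haa, hab, mul_one, mul_zero, zero_smul, add_zero, hcr, A04_smul, hcr, h1,
      Matrix.mulVec_smul, smul_smul, smul_smul] at h2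
    have hgb : g *ᵥ b ≠ 0 := by
      intro h0
      have h3 : b = 0 := hinj b 0 (by rw [h0, Matrix.mulVec_zero])
      have h4 := congrFun h3 1
      rw [hb] at h4
      simp at h4
    have h3 : l⁻¹ * l⁻¹ * (-1) = -l := smul_left_injective ℝ hgb h2
    have h4 : l ^ 3 = 1 := by
      field_simp at h3
      nlinarith [h3]
    have h5 : (l - 1) * (l ^ 2 + l + 1) = 0 := by linear_combination h4
    rcases mul_eq_zero.mp h5 with h6 | h6
    · linarith
    · nlinarith [sq_nonneg (l + 1 / 2)]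
  constructor
  · intro u v
    rw [hl, hl1, one_mul]
  · intro u v
    rw [hcr, hl1, inv_one, one_smul]

theorem InG_of_BX (g : Mat) (h1 : ∀ u v : V, B (g *ᵥ u) (g *ᵥ v) = B u v)
    (h2 : ∀ u v : V, cross (g *ᵥ u) (g *ᵥ v) = g *ᵥ (cross u v)) : InG g := by
  intro u v w
  rw [← B_cross, h2, h1, B_cross]

theorem InN_toN (g : Mat) (hg : InG g) : InN (toN g) := by
  obtain ⟨h1, h2⟩ := InG_BX g hg
  constructor
  · intro u v
    have e1 : toN g *ᵥ u = PI *ᵥ (g *ᵥ (PN *ᵥ u)) := by rw [← toN_mulVec, PI_PN_vec]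
    have e2 : toN g *ᵥ v = PI *ᵥ (g *ᵥ (PN *ᵥ v)) := by rw [← toN_mulVec, PI_PN_vec]
    rw [e1, e2, ← B_PN, PN_PI_vec, PN_PI_vec, h1, B_PN]
  · intro u v
    have e1 : toN g *ᵥ u = PI *ᵥ (g *ᵥ (PN *ᵥ u)) := by rw [← toN_mulVec, PI_PN_vec]
    have e2 : toN g *ᵥ v = PI *ᵥ (g *ᵥ (PN *ᵥ v)) := by rw [← toN_mulVec, PI_PN_vec]
    have e3 : toN g *ᵥ (crossN u v) = PI *ᵥ (g *ᵥ (PN *ᵥ (crossN u v))) := by rw [← toN_mulVec, PI_PN_vec]
    rw [e3, ← cross_PN, ← h2, e1, e2]
    have := cross_PN (PI *ᵥ (g *ᵥ (PN *ᵥ u))) (PI *ᵥ (g *ᵥ (PN *ᵥ v)))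
    rw [PN_PI_vec, PN_PI_vec] at this
    rw [this, PI_PN_vec]

theorem InG_ofN (M : Mat) (hM : InN M) : InG (ofN M) := by
  apply InG_of_BX
  · intro u v
    rw [← PN_PI_vec u, ← PN_PI_vec v, ofN_mulVec, ofN_mulVec, B_PN, B_PN, hM.1]
  · intro u v
    rw [← PN_PI_vec u, ← PN_PI_vec v, ofN_mulVec, ofN_mulVec, cross_PN, cross_PN, hM.2, ofN_mulVec]

end C37.PGX
end
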