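import Mathlib
import Pool.Agent.Lib.MP_c37615_al.GX.B03
import Pool.Agent.Lib.MP_c37615_al.Mg.G012

section

/-!
MP_c37615_al (S02984), part GX, task B05: products of root elements.
-/

set_option autoImplicit false
set_option linter.all false

open Matrix

namespace C37.PGX

theorem word_nil : word [] = 1 := by simp [word]

theorem word_cons (p : Rt × ℝ) (l : List (Rt × ℝ)) : word (p :: l) = re p.1 p.2 * word l := by simp [word]

theorem word_append (l l' : List (Rt × ℝ)) : word (l ++ l') = word l * word l' := by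
  simp [word]

theorem word_InN (l : List (Rt × ℝ)) : InN (word l) := by
  induction l with
  | nil => rw [word_nil]; exact InN_one
  | cons p l ih => rw [word_cons]; exact InN_mul (re_InN _ _) ih

/-- product of root elements -/
def Gen (M : Mat) : Prop := ∃ l : List (Rt × ℝ), M = word l

theorem Gen_one : Gen 1 := ⟨[], word_nil.symm⟩

theorem Gen_re (r : Rt) (s : ℝ) : Gen (re r s) := ⟨[(r, s)], by simp [word]⟩

theorem Gen_mul {M N : Mat} (hM : Gen M) (hN : Gen N) : Gen (M * N) := by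
  obtain ⟨l, rfl⟩ := hM
  obtain ⟨l', rfl⟩ := hN
  exact ⟨l ++ l', (word_append l l').symm⟩

/-- inverse word: reverse the list and change the signs of the parameters (`re_add`, `re_zero`) -/
theorem exists_word_inv (l : List (Rt × ℝ)) : ∃ l' : List (Rt × ℝ), word l' * word l = 1 ∧ word l * word l' = 1 := by
  induction l with
  | nil => exact ⟨[], by simp [word_nil], by simp [word_nil]⟩
  | cons p l ih =>
    obtain ⟨l', h1, h2⟩ := ih
    have e1 : re p.1 (-p.2) * re p.1 p.2 = 1 := by rw [← re_add]; simp [re_zero]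
    have e2 : re p.1 p.2 * re p.1 (-p.2) = 1 := by rw [← re_add]; simp [re_zero]
    have hw : word (l' ++ [(p.1, -p.2)]) = word l' * re p.1 (-p.2) := by
      rw [word_append, word_cons, word_nil, mul_one]
    refine ⟨l' ++ [(p.1, -p.2)], ?_, ?_⟩
    · rw [hw, word_cons]
      calc word l' * re p.1 (-p.2) * (re p.1 p.2 * word l)
          = word l' * (re p.1 (-p.2) * re p.1 p.2) * word l := by simp only [mul_assoc]
        _ = 1 := by rw [e1, mul_one, h1]
    · rw [hw, word_cons]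
      calc re p.1 p.2 * word l * (word l' * re p.1 (-p.2))
          = re p.1 p.2 * (word l * word l') * re p.1 (-p.2) := by simp only [mul_assoc]
        _ = 1 := by rw [h2, mul_one, e2]

theorem Gen_inv {M N : Mat} (hM : Gen M) (h : N * M = 1) : Gen N := by
  obtain ⟨l, rfl⟩ := hM
  obtain ⟨l', h1, h2⟩ := exists_word_inv l
  refine ⟨l', ?_⟩
  calc N = N * (word l * word l') := by rw [h2, mul_one]
    _ = (N * word l) * word l' := by rw [mul_assoc]
    _ = word l' := by rw [h, one_mul]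

private theorem B05_iN_Gen_12 (s : ℝ) : Gen (iN (Matrix.transvection 0 1 s)) := by
  have h := re_L12 (-s)
  rw [neg_neg] at h
  rw [← h]; exact Gen_re _ _

private theorem B05_iN_Gen_21 (s : ℝ) : Gen (iN (Matrix.transvection 1 0 s)) := by
  have h := re_L21 (-s)
  rw [neg_neg] at h
  rw [← h]; exact Gen_re _ _

private noncomputable def B05_W13 (c : ℝ) : Mat :=
  !![0,0,0,0,0,-c,0; 0,0,0,0,0,0,c; 0,0,1,0,0,0,0; 0,0,0,1,0,0,0; 0,0,0,0,1,0,0; c⁻¹,0,0,0,0,0,0; 0,-c⁻¹,0,0,0,0,0]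

private noncomputable def B05_W23 (c : ℝ) : Mat :=
  !![0,0,0,0,-c,0,0; 0,1,0,0,0,0,0; 0,0,0,0,0,0,c; 0,0,0,1,0,0,0; c⁻¹,0,0,0,0,0,0; 0,0,0,0,0,1,0; 0,0,-c⁻¹,0,0,0,0]

private theorem B05_W13_eq (c : ℝ) (hc : c ≠ 0) :
    re .L13 (-c) * re .L31 c⁻¹ * re .L13 (-c) = B05_W13 c := by
  ext i j
  fin_cases i <;> fin_cases j <;>
    simp [re, B05_W13, Matrix.mul_apply, Fin.sum_univ_succ, hc]

private theorem B05_W23_eq (c : ℝ) (hc : c ≠ 0) :
    re .L23 (-c) * re .L32 c⁻¹ * re .L23 (-c) = B05_W23 c := by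
  ext i j
  fin_cases i <;> fin_cases j <;>
    simp [re, B05_W23, Matrix.mul_apply, Fin.sum_univ_succ, hc]

private theorem B05_DN1 (c : ℝ) (hc : c ≠ 0) : DN c 1 = B05_W13 c * B05_W13 (-1) := by
  ext i j
  fin_cases i <;> fin_cases j <;>
    simp [DN, B05_W13, Matrix.mul_apply, Fin.sum_univ_succ, hc]

private theorem B05_DN2 (c : ℝ) (hc : c ≠ 0) : DN 1 c = B05_W23 c * B05_W23 (-1) := by
  ext i j
  fin_cases i <;> fin_cases j <;>
    simp [DN, B05_W23, Matrix.mul_apply, Fin.sum_univ_succ, hc]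

private theorem B05_Gen_W13 (c : ℝ) (hc : c ≠ 0) : Gen (B05_W13 c) := by
  rw [← B05_W13_eq c hc]
  exact Gen_mul (Gen_mul (Gen_re _ _) (Gen_re _ _)) (Gen_re _ _)

private theorem B05_Gen_W23 (c : ℝ) (hc : c ≠ 0) : Gen (B05_W23 c) := by
  rw [← B05_W23_eq c hc]
  exact Gen_mul (Gen_mul (Gen_re _ _) (Gen_re _ _)) (Gen_re _ _)

/-- torus elements are products of root elements:
DN c 1 = re L13 (-c) * re L31 (1/c) * re L13 (-c) * re L13 1 * re L31 (-1) * re L13 1 (checked by exact arithmetic),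
DN 1 c: the same with L23, L32; DN t1 t2 = DN t1 1 * DN 1 t2 (`DN_mul`). -/
theorem Gen_DN (t1 t2 : ℝ) (h1 : t1 ≠ 0) (h2 : t2 ≠ 0) : Gen (DN t1 t2) := by
  have h : DN t1 t2 = DN t1 1 * DN 1 t2 := by rw [DN_mul, mul_one, one_mul]
  have hm : (-1 : ℝ) ≠ 0 := by norm_num
  rw [h, B05_DN1 t1 h1, B05_DN2 t2 h2]
  exact Gen_mul (Gen_mul (B05_Gen_W13 _ h1) (B05_Gen_W13 _ hm))
    (Gen_mul (B05_Gen_W23 _ h2) (B05_Gen_W23 _ hm))

private theorem B05_block_ne (p q r s : ℝ) (h : p * s - q * r = 1) (hr : r ≠ 0) :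
    Gen (iN !![p, q, 0; r, s, 0; 0, 0, 1]) := by
  have e : (!![p, q, 0; r, s, 0; 0, 0, 1] : Matrix (Fin 3) (Fin 3) ℝ) =
      Matrix.transvection 0 1 ((p - 1) / r) * Matrix.transvection 1 0 r *
        Matrix.transvection 0 1 ((s - 1) / r) := by
    have hq : q = (p * s - 1) / r := by field_simp; linarith
    subst hq
    ext i j
    fin_cases i <;> fin_cases j <;>
      simp [Matrix.transvection, Matrix.mul_apply, Fin.sum_univ_succ, Matrix.single, Matrix.one_apply, hr] <;>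
      field_simp <;> ring
  rw [e, iN_mul, iN_mul]
  exact Gen_mul (Gen_mul (B05_iN_Gen_12 _) (B05_iN_Gen_21 _)) (B05_iN_Gen_12 _)

/-- 2x2 block [[p,q],[r,s]] on x1,x2, determinant 1:
if r ≠ 0: A = E12((p-1)/r) * E21(r) * E12((s-1)/r) (E_ij(t) = 1 + t E_ij = transvection, `re_L12`, `re_L21`, `iN_mul`);
if r = 0: E21(1) * A has lower left entry p ≠ 0, reduce to the first case. -/
theorem Gen_block (p q r s : ℝ) (h : p * s - q * r = 1) : Gen (iN !![p, q, 0; r, s, 0; 0, 0, 1]) := by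
  by_cases hr : r = 0
  · subst hr
    have hp : p ≠ 0 := by
      rintro rfl
      simp at h
    have e : (!![p, q, 0; 0, s, 0; 0, 0, 1] : Matrix (Fin 3) (Fin 3) ℝ) =
        Matrix.transvection 1 0 (-1) * !![p, q, 0; p, s + q, 0; 0, 0, 1] := by
      ext i j
      fin_cases i <;> fin_cases j <;>
        simp [Matrix.transvection, Matrix.mul_apply, Fin.sum_univ_succ, Matrix.single, Matrix.one_apply]
    rw [e, iN_mul]
    exact Gen_mul (B05_iN_Gen_21 _) (B05_block_ne _ _ _ _ (by linarith) hp)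
  · exact B05_block_ne p q r s h hr

end C37.PGX
end

section

/-!
MP_c37615_al (S02984), part GX, task D01: diagonal matrices with distinct entries and invariant subspaces.
-/

set_option autoImplicit false
set_option linter.all false

open Matrix

namespace C37.PGX

theorem D01_step {E : Type} [AddCommGroup E] [Module ℝ E] {ι : Type} (W : Submodule ℝ E) (T : E → E)
    (hW : ∀ w ∈ W, T w ∈ W) (ev : ι → E →ₗ[ℝ] ℝ) (d : ι → ℝ) (hT : ∀ i w, ev i (T w) = d i * ev i w)
    (F : Finset ℝ) (w : E) (hw : w ∈ W) :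
    ∃ w' ∈ W, ∀ i, ev i w' = (∏ c ∈ F, (d i - c)) * ev i w := by
  classical
  induction F using Finset.induction_on with
  | empty => exact ⟨w, hw, fun i => by simp⟩
  | insert a s ha ih =>
    obtain ⟨w', hw', h⟩ := ih
    refine ⟨T w' - a • w', W.sub_mem (hW _ hw') (W.smul_mem a hw'), fun i => ?_⟩
    rw [map_sub, map_smul, hT, h, Finset.prod_insert ha, smul_eq_mul]
    ring

theorem D01_proj {E : Type} [AddCommGroup E] [Module ℝ E] {ι : Type} (W : Submodule ℝ E) (T : E → E)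
    (hW : ∀ w ∈ W, T w ∈ W) (ev : ι → E →ₗ[ℝ] ℝ) (d : ι → ℝ) (hT : ∀ i w, ev i (T w) = d i * ev i w)
    (S : Finset ℝ) (hS : ∀ i, d i ∈ S) (l : ℝ) (w : E) (hw : w ∈ W) :
    ∃ w' ∈ W, (∀ i, d i = l → ev i w' = ev i w) ∧ (∀ i, d i ≠ l → ev i w' = 0) := by
  classical
  obtain ⟨w', hw', h⟩ := D01_step W T hW ev d hT (S.erase l) w hw
  have hP : ∏ c ∈ S.erase l, (l - c) ≠ 0 := by
    rw [Finset.prod_ne_zero_iff]
    intro c hc
    exact sub_ne_zero.2 (Finset.ne_of_mem_erase hc).symm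
  refine ⟨(∏ c ∈ S.erase l, (l - c))⁻¹ • w', W.smul_mem _ hw', fun i hi => ?_, fun i hi => ?_⟩
  · rw [map_smul, h, hi, smul_eq_mul, ← mul_assoc, inv_mul_cancel₀ hP, one_mul]
  · have h0 : ∏ c ∈ S.erase l, (d i - c) = 0 :=
      Finset.prod_eq_zero (i := d i) (Finset.mem_erase.2 ⟨hi, hS i⟩) (sub_self _)
    rw [map_smul, h, h0, zero_mul, smul_zero]

/-- Lagrange: for a finite set of distinct numbers there is a polynomial which is 1 at one of them and 0 at the others.
(`Lagrange.basis` or `∏ (X - C d j)` divided by its value.)  Then `(p(diagonal d) *ᵥ w) i = p (d i) * w i`. -/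
theorem inv_coord (W : Submodule ℝ V) (d : Fin 7 → ℝ) (hd : Function.Injective d)
    (hW : ∀ w ∈ W, Matrix.diagonal d *ᵥ w ∈ W) (w : V) (hw : w ∈ W) (i : Fin 7) : w i • en i ∈ W := by
  classical
  obtain ⟨w', hw', h1, h2⟩ := D01_proj W (fun w => Matrix.diagonal d *ᵥ w) hW
    (fun i => LinearMap.proj i) d (fun i w => by
      change (Matrix.diagonal d *ᵥ w) i = d i * w i
      rw [Matrix.mulVec_diagonal]) (Finset.univ.image d)
    (fun i => Finset.mem_image_of_mem d (Finset.mem_univ i)) (d i) w hw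
  have e : w i • en i = w' := by
    ext k
    by_cases hk : k = i
    · subst hk
      have := h1 k rfl
      change w' k = w k at this
      rw [this]
      simp
    · have := h2 k fun h => hk (hd h)
      change w' k = 0 at this
      rw [this]
      simp [hk]
  rw [e]
  exact hw'

/-- the regular torus element DN 3 2 = diag(6,3,2,1,1/2,1/3,1/6) -/
theorem DN32 : DN 3 2 = Matrix.diagonal ![6, 3, 2, 1, 1/2, 1/3, 1/6] := by
  unfold DN
  norm_num

theorem DN32_inj : Function.Injective (![6, 3, 2, 1, 1/2, 1/3, 1/6] : Fin 7 → ℝ) := by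
  intro i j h
  fin_cases i <;> fin_cases j <;> first | rfl | (exfalso; revert h; simp; try norm_num)

/-- irreducibility of the 7-dimensional representation (null coordinates).
Proof: let w ∈ W, w ≠ 0; some w i ≠ 0, so en i ∈ W by `inv_coord` (DN 3 2 ∈ G).  If en j ∈ W, g ∈ G, g k j ≠ 0 then en k ∈ W
(`inv_coord` applied to g *ᵥ en j).  With g = re S1 1, re T1 1, re S2 1, re T2 1 the nonzero entries (k, j), k ≠ j are:
S1: (1,3), (0,2), (4,6), (3,5);  T1: (3,1), (2,0), (6,4), (5,3);  S2: (2,3), (0,1), (5,6), (3,4);  T2: (3,2), (1,0), (6,5), (4,3).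
This graph is strongly connected, so all en k ∈ W, W = ⊤. -/
theorem InN_irreducible (W : Submodule ℝ V) (hW : ∀ g : Mat, InN g → ∀ w ∈ W, g *ᵥ w ∈ W) : W = ⊥ ∨ W = ⊤ := by
  by_cases hb : W = ⊥
  · exact Or.inl hb
  right
  have hcoord : ∀ w ∈ W, ∀ i, w i ≠ 0 → en i ∈ W := by
    intro w hw i hi
    have h1 : ∀ w ∈ W, Matrix.diagonal ![6, 3, 2, 1, 1/2, 1/3, 1/6] *ᵥ w ∈ W := by
      intro w hw
      rw [← DN32]
      exact hW _ (DN_InN 3 2 (by norm_num) (by norm_num)) w hw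
    have h2 := inv_coord W _ DN32_inj h1 w hw i
    have h3 := W.smul_mem (w i)⁻¹ h2
    rwa [smul_smul, inv_mul_cancel₀ hi, one_smul] at h3
  have step : ∀ g : Mat, InN g → ∀ j k, g k j ≠ 0 → en j ∈ W → en k ∈ W := by
    intro g hg j k hkj hj
    refine hcoord _ (hW g hg _ hj) k ?_
    have e : (g *ᵥ en j) k = g k j := by
      rw [Matrix.mulVec_single_one]
      rfl
    rw [e]
    exact hkj
  have a1 := step _ (re_InN .S1 1) 3 1 (by simp [re])
  have a2 := step _ (re_InN .S1 1) 2 0 (by simp [re])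
  have a3 := step _ (re_InN .S1 1) 6 4 (by simp [re])
  have a4 := step _ (re_InN .S1 1) 5 3 (by simp [re])
  have b1 := step _ (re_InN .T1 1) 1 3 (by simp [re])
  have b2 := step _ (re_InN .T1 1) 0 2 (by simp [re])
  have b3 := step _ (re_InN .T1 1) 4 6 (by simp [re])
  have b4 := step _ (re_InN .T1 1) 3 5 (by simp [re])
  have c1 := step _ (re_InN .S2 1) 3 2 (by simp [re])
  have c2 := step _ (re_InN .S2 1) 1 0 (by simp [re])
  have c3 := step _ (re_InN .S2 1) 6 5 (by simp [re])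
  have c4 := step _ (re_InN .S2 1) 4 3 (by simp [re])
  have d1 := step _ (re_InN .T2 1) 2 3 (by simp [re])
  have d2 := step _ (re_InN .T2 1) 0 1 (by simp [re])
  have d3 := step _ (re_InN .T2 1) 5 6 (by simp [re])
  have d4 := step _ (re_InN .T2 1) 3 4 (by simp [re])
  obtain ⟨w, hw, hw0⟩ := W.ne_bot_iff.1 hb
  obtain ⟨i, hi⟩ := Function.ne_iff.1 hw0
  have hen := hcoord w hw i hi
  have h3 : en 3 ∈ W := by
    fin_cases i
    · exact d1 (b2 hen)
    · exact b1 hen
    · exact d1 hen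
    · exact hen
    · exact c4 hen
    · exact a4 hen
    · exact c4 (a3 hen)
  have hall : ∀ k, en k ∈ W := by
    intro k
    fin_cases k
    · exact a2 (c1 h3)
    · exact a1 h3
    · exact c1 h3
    · exact h3
    · exact d4 h3
    · exact b4 h3
    · exact b3 (d4 h3)
  rw [eq_top_iff]
  intro v _
  have e : v = ∑ k, v k • en k := by
    ext j
    simp [Finset.sum_apply, Pi.single_apply]
  rw [e]
  exact W.sum_mem fun k _ => W.smul_mem _ (hall k)

end C37.PGX
end

section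

/-!
MP_c37615_al (S02984), part GX, task D02: commutative algebras normalised by G (1): no nilpotent elements.
-/

set_option autoImplicit false
set_option linter.all false

open Matrix

namespace C37.PGX

/-- general fact: a family of pairwise commuting nilpotent 7x7 matrices has a common nonzero kernel vector.
Proof: among the submodules U ≠ ⊥ of V invariant under all z ∈ S take a minimal one (V is such; finite dimension, e.g. minimal finrank).
For z ∈ S the submodule U ⊓ ker z is invariant under S (commutativity), and ≠ ⊥: z restricted to U is nilpotent (take w ∈ U, w ≠ 0, and the last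
nonzero z^k w).  So U ⊓ ker z = U by minimality, i.e. z U = 0 for all z ∈ S. -/
theorem common_kernel (S : Set Mat) (hS : ∀ z ∈ S, ∃ k : ℕ, z ^ k = 0) (hc : ∀ z ∈ S, ∀ z' ∈ S, z * z' = z' * z) :
    ∃ v : V, v ≠ 0 ∧ ∀ z ∈ S, z *ᵥ v = 0 := by
  classical
  let P : ℕ → Prop := fun n => ∃ U : Submodule ℝ V, U ≠ ⊥ ∧ (∀ z ∈ S, ∀ u ∈ U, z *ᵥ u ∈ U) ∧
    Module.finrank ℝ U = n
  have hP : ∃ n, P n := ⟨_, ⊤, top_ne_bot, fun _ _ _ _ => Submodule.mem_top, rfl⟩
  obtain ⟨U, hU, hinv, hfr⟩ := Nat.find_spec hP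
  have key : ∀ z ∈ S, ∀ u ∈ U, z *ᵥ u = 0 := by
    intro z hz
    let K : Submodule ℝ V := U ⊓ LinearMap.ker (Matrix.toLin' z)
    have hmemK : ∀ u, u ∈ K ↔ u ∈ U ∧ z *ᵥ u = 0 := by
      intro u
      change (u ∈ U ∧ u ∈ LinearMap.ker (Matrix.toLin' z)) ↔ _
      rw [LinearMap.mem_ker, Matrix.toLin'_apply]
    have hK : K ≠ ⊥ := by
      obtain ⟨w, hw, hw0⟩ := U.ne_bot_iff.1 hU
      obtain ⟨k, hk⟩ := hS z hz
      have hex : ∃ k : ℕ, z ^ k *ᵥ w = 0 := ⟨k, by rw [hk, Matrix.zero_mulVec]⟩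
      have h1 := Nat.find_spec hex
      have h0 : Nat.find hex ≠ 0 := by
        intro h
        rw [h, pow_zero, Matrix.one_mulVec] at h1
        exact hw0 h1
      obtain ⟨m, hm⟩ := Nat.exists_eq_succ_of_ne_zero h0
      have h2 : z ^ m *ᵥ w ≠ 0 := Nat.find_min hex (by rw [hm]; exact Nat.lt_succ_self m)
      have h3 : ∀ m, z ^ m *ᵥ w ∈ U := by
        intro m
        induction m with
        | zero => rw [pow_zero, Matrix.one_mulVec]; exact hw
        | succ m ih =>
          rw [pow_succ', ← Matrix.mulVec_mulVec]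
          exact hinv z hz _ ih
      rw [hm, Nat.succ_eq_add_one, pow_succ', ← Matrix.mulVec_mulVec] at h1
      exact (Submodule.ne_bot_iff _).2 ⟨z ^ m *ᵥ w, (hmemK _).2 ⟨h3 m, h1⟩, h2⟩
    have hKinv : ∀ z' ∈ S, ∀ u ∈ K, z' *ᵥ u ∈ K := by
      intro z' hz' u hu
      obtain ⟨hu1, hu2⟩ := (hmemK u).1 hu
      refine (hmemK _).2 ⟨hinv z' hz' u hu1, ?_⟩
      rw [Matrix.mulVec_mulVec, hc z hz z' hz', ← Matrix.mulVec_mulVec, hu2, Matrix.mulVec_zero]
    have hle : K ≤ U := inf_le_left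
    have hmin : Nat.find hP ≤ Module.finrank ℝ K := Nat.find_min' hP ⟨K, hK, hKinv, rfl⟩
    rw [← hfr] at hmin
    have hKU : K = U := Submodule.eq_of_le_of_finrank_le hle hmin
    intro u hu
    rw [← hKU] at hu
    exact ((hmemK u).1 hu).2
  obtain ⟨w, hw, hw0⟩ := U.ne_bot_iff.1 hU
  exact ⟨w, hw0, fun z hz => key z hz w hw⟩

theorem D02_adj_adj (g : Mat) (hg : InN g) : adjN (adjN g) = g := by
  have h1 := adjN_mul g hg.1
  have h2 := mul_adjN (adjN g) (InN_adjN g hg).1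
  calc adjN (adjN g) = (g * adjN g) * adjN (adjN g) := by rw [mul_adjN g hg.1, Matrix.one_mul]
    _ = g := by rw [Matrix.mul_assoc, h2, Matrix.mul_one]

/-- Proof: S = {z ∈ Z | z nilpotent}.  K0 = {v | ∀ z ∈ S, z v = 0} is a submodule, ≠ ⊥ by `common_kernel`, invariant under G:
z (g v) = g (g⁻¹ z g) v, g⁻¹ z g ∈ S (use `hG` for the inverse `adjN g`; nilpotency is invariant under conjugation).  So K0 = ⊤ by
`InN_irreducible`, so every z ∈ S is 0. -/
theorem nil_zero (Z : Submodule ℝ Mat) (hmul : ∀ a ∈ Z, ∀ b ∈ Z, a * b = b * a)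
    (hG : ∀ g : Mat, InN g → ∀ a ∈ Z, g * a * adjN g ∈ Z) (z : Mat) (hz : z ∈ Z) (hnil : ∃ k : ℕ, z ^ k = 0) : z = 0 := by
  let S : Set Mat := {z | z ∈ Z ∧ ∃ k : ℕ, z ^ k = 0}
  obtain ⟨v0, hv0, hv0'⟩ := common_kernel S (fun z hz => hz.2)
    (fun z hz z' hz' => hmul z hz.1 z' hz'.1)
  let K0 : Submodule ℝ V :=
    { carrier := {v | ∀ z ∈ S, z *ᵥ v = 0}
      add_mem' := fun {a b} ha hb z hz => by
        rw [Matrix.mulVec_add, ha z hz, hb z hz, add_zero]
      zero_mem' := fun z _ => Matrix.mulVec_zero z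
      smul_mem' := fun c v hv z hz => by
        rw [Matrix.mulVec_smul, hv z hz, smul_zero] }
  have hmem : ∀ v, v ∈ K0 ↔ ∀ z ∈ S, z *ᵥ v = 0 := fun v => Iff.rfl
  have hinv : ∀ g : Mat, InN g → ∀ w ∈ K0, g *ᵥ w ∈ K0 := by
    intro g hg w hw
    rw [hmem] at hw ⊢
    intro z hz
    have h1 : adjN g * g = 1 := adjN_mul g hg.1
    have h2 : g * adjN g = 1 := mul_adjN g hg.1
    have hz' : adjN g * z * g ∈ S := by
      refine ⟨?_, ?_⟩
      · have := hG (adjN g) (InN_adjN g hg) z hz.1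
        rwa [D02_adj_adj g hg] at this
      · obtain ⟨k, hk⟩ := hz.2
        have h3 : ∀ k : ℕ, (adjN g * z * g) ^ k = adjN g * z ^ k * g := by
          intro k
          induction k with
          | zero => rw [pow_zero, pow_zero, Matrix.mul_one, h1]
          | succ k ih =>
            rw [pow_succ, ih, pow_succ]
            calc adjN g * z ^ k * g * (adjN g * z * g)
                = adjN g * z ^ k * (g * adjN g) * z * g := by simp only [Matrix.mul_assoc]
              _ = adjN g * (z ^ k * z) * g := by rw [h2, Matrix.mul_one]; simp only [Matrix.mul_assoc]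
        exact ⟨k, by rw [h3, hk, Matrix.mul_zero, Matrix.zero_mul]⟩
    have h4 : z *ᵥ (g *ᵥ w) = g *ᵥ ((adjN g * z * g) *ᵥ w) := by
      rw [Matrix.mulVec_mulVec, Matrix.mulVec_mulVec]
      congr 1
      calc z * g = (g * adjN g) * z * g := by rw [h2, Matrix.one_mul]
        _ = g * (adjN g * z * g) := by simp only [Matrix.mul_assoc]
    rw [h4, hw _ hz', Matrix.mulVec_zero]
  have hz0 : ∀ v, z *ᵥ v = 0 := by
    intro v
    rcases InN_irreducible K0 hinv with h | h
    · exfalso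
      have : v0 ∈ K0 := hv0'
      rw [h, Submodule.mem_bot] at this
      exact hv0 this
    · have : v ∈ K0 := by rw [h]; exact Submodule.mem_top
      exact this z ⟨hz, hnil⟩
  ext i j
  have := congrFun (hz0 (Pi.single j 1)) i
  rw [Matrix.mulVec_single_one] at this
  exact this

end C37.PGX
end

section

/-!
MP_c37615_al (S02984), part GX, task D03: commutative algebras normalised by G (2): they are scalar.
-/

set_option autoImplicit false
set_option linter.all false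

open Matrix

namespace C37.PGX

/-- strictly upper triangular matrices are nilpotent (z ^ 7 = 0): `(z ^ k) i j = 0` unless `i + k ≤ j`. Same for lower triangular. -/
theorem upper_nil (z : Mat) (h : ∀ i j : Fin 7, j ≤ i → z i j = 0) : z ^ 7 = 0 := by
  have key : ∀ k : ℕ, ∀ i j : Fin 7, (j : ℕ) < (i : ℕ) + k → (z ^ k) i j = 0 := by
    intro k
    induction k with
    | zero =>
      intro i j hij
      rw [pow_zero, Matrix.one_apply_ne]
      intro h
      rw [h] at hij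
      omega
    | succ k ih =>
      intro i j hij
      rw [pow_succ, Matrix.mul_apply]
      refine Finset.sum_eq_zero fun l _ => ?_
      by_cases hl : (l : ℕ) < (i : ℕ) + k
      · rw [ih i l hl, zero_mul]
      · rw [h l j (by rw [Fin.le_def]; omega), mul_zero]
  ext i j
  exact key 7 i j (by omega)

theorem lower_nil (z : Mat) (h : ∀ i j : Fin 7, i ≤ j → z i j = 0) : z ^ 7 = 0 := by
  have h1 : zᵀ ^ 7 = 0 := upper_nil zᵀ fun i j hij => h j i hij
  rw [← Matrix.transpose_pow] at h1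
  rw [← Matrix.transpose_transpose (z ^ 7), h1, Matrix.transpose_zero]

/-- the diagonal of `DN 3 2` -/
noncomputable def D03_d : Fin 7 → ℝ := ![6, 3, 2, 1, 1/2, 1/3, 1/6]

theorem D03_anti : StrictAnti D03_d := by
  refine Fin.strictAnti_iff_succ_lt.2 fun i => ?_
  fin_cases i <;> simp [D03_d] <;> norm_num

theorem D03_pos (i : Fin 7) : 0 < D03_d i := by
  fin_cases i <;> simp [D03_d]

theorem D03_DN : DN 3 2 = Matrix.diagonal D03_d := DN32

theorem D03_InN : InN (DN 3 2) := DN_InN 3 2 (by norm_num) (by norm_num)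

theorem D03_adj : adjN (DN 3 2) = Matrix.diagonal fun i => (D03_d i)⁻¹ := by
  have h1 := adjN_mul (DN 3 2) D03_InN.1
  have h2 : DN 3 2 * Matrix.diagonal (fun i => (D03_d i)⁻¹) = 1 := by
    rw [D03_DN, Matrix.diagonal_mul_diagonal, ← Matrix.diagonal_one]
    congr 1
    ext i
    exact mul_inv_cancel₀ (D03_pos i).ne'
  calc adjN (DN 3 2) = adjN (DN 3 2) * (DN 3 2 * Matrix.diagonal (fun i => (D03_d i)⁻¹)) := by
        rw [h2, Matrix.mul_one]
    _ = Matrix.diagonal fun i => (D03_d i)⁻¹ := by rw [← Matrix.mul_assoc, h1, Matrix.one_mul]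

theorem D03_conj (z : Mat) (i j : Fin 7) :
    (DN 3 2 * z * adjN (DN 3 2)) i j = (D03_d i / D03_d j) * z i j := by
  rw [D03_adj, Matrix.mul_diagonal, D03_DN, Matrix.diagonal_mul]
  ring

/-- the matrix entry as a linear functional -/
def D03_ev (p : Fin 7 × Fin 7) : Mat →ₗ[ℝ] ℝ where
  toFun z := z p.1 p.2
  map_add' _ _ := rfl
  map_smul' _ _ := rfl

/-- Proof: let d = ![6,3,2,1,1/2,1/3,1/6], T z = DN 3 2 * z * adjN (DN 3 2), `(T z) i j = (d i / d j) * z i j` (adjN (DN 3 2) = diagonal (d⁻¹)), T maps Z to Z.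
The finitely many values d i / d j: by Lagrange interpolation there is for each value l a polynomial p with p(l) = 1 and p = 0 at the other values; p(T) z ∈ Z
has the entries z i j where d i / d j = l, and 0 elsewhere.
If l ≠ 1 this matrix is strictly upper triangular (l > 1, because d is strictly decreasing) or strictly lower triangular (l < 1), so nilpotent, so 0 by `nil_zero`.
For i ≠ j: l = d i / d j ≠ 1 and so z i j = 0. -/
theorem Z_diag (Z : Submodule ℝ Mat) (hmul : ∀ a ∈ Z, ∀ b ∈ Z, a * b = b * a)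
    (hG : ∀ g : Mat, InN g → ∀ a ∈ Z, g * a * adjN g ∈ Z) (z : Mat) (hz : z ∈ Z) (i j : Fin 7) (hij : i ≠ j) : z i j = 0 := by
  classical
  obtain ⟨z', hz', h1, h2⟩ := D01_proj Z (fun z => DN 3 2 * z * adjN (DN 3 2))
    (fun z hz => hG _ D03_InN z hz) D03_ev (fun p => D03_d p.1 / D03_d p.2)
    (fun p z => D03_conj z p.1 p.2) (Finset.univ.image fun p : Fin 7 × Fin 7 => D03_d p.1 / D03_d p.2)
    (fun p => Finset.mem_image_of_mem (fun p : Fin 7 × Fin 7 => D03_d p.1 / D03_d p.2) (Finset.mem_univ p))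
    (D03_d i / D03_d j) z hz
  have e1 : z' i j = z i j := h1 (i, j) rfl
  have e2 : ∀ a b, D03_d a / D03_d b ≠ D03_d i / D03_d j → z' a b = 0 := fun a b h => h2 (a, b) h
  rw [← e1]
  have hz0 : z' = 0 := by
    refine nil_zero Z hmul hG z' hz' ⟨7, ?_⟩
    rcases lt_or_gt_of_ne hij with h | h
    · have hl : 1 < D03_d i / D03_d j := (one_lt_div (D03_pos j)).2 (D03_anti h)
      refine upper_nil z' fun a b hba => e2 a b fun he => ?_
      rw [← he, one_lt_div (D03_pos b)] at hl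
      exact absurd (D03_anti.antitone hba) (not_le.2 hl)
    · have hl : D03_d i / D03_d j < 1 := (div_lt_one (D03_pos j)).2 (D03_anti h)
      refine lower_nil z' fun a b hab => e2 a b fun he => ?_
      rw [← he, div_lt_one (D03_pos b)] at hl
      exact absurd (D03_anti.antitone hab) (not_le.2 hl)
  rw [hz0]
  rfl

/-- Proof: z is diagonal by `Z_diag`.  For g ∈ G the matrix z' = g * z * adjN g ∈ Z is diagonal, and z' * g = g * z: `z' k k * g k j = g k j * z j j`.
For g = re r 1 (diagonal entries 1: z' k k = z k k) and g k j ≠ 0: z k k = z j j.  With r = S1: (1,3), (0,2), (4,6), (3,5) and r = S2: (2,3), (0,1), (5,6), (3,4)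
all diagonal entries are equal. -/
theorem Z_scalar (Z : Submodule ℝ Mat) (hmul : ∀ a ∈ Z, ∀ b ∈ Z, a * b = b * a)
    (hG : ∀ g : Mat, InN g → ∀ a ∈ Z, g * a * adjN g ∈ Z) (z : Mat) (hz : z ∈ Z) : ∃ c : ℝ, z = c • (1 : Mat) := by
  have hd := Z_diag Z hmul hG
  have hsum : ∀ a b : Mat, (∀ i j, i ≠ j → a i j = 0) → ∀ k j, (a * b) k j = a k k * b k j := by
    intro a b ha k j
    rw [Matrix.mul_apply]
    exact Finset.sum_eq_single k (fun l _ hl => by rw [ha k l hl.symm, zero_mul])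
      (fun h => absurd (Finset.mem_univ k) h)
  have hsum' : ∀ a b : Mat, (∀ i j, i ≠ j → b i j = 0) → ∀ k j, (a * b) k j = a k j * b j j := by
    intro a b hb k j
    rw [Matrix.mul_apply]
    exact Finset.sum_eq_single j (fun l _ hl => by rw [hb l j hl, mul_zero])
      (fun h => absurd (Finset.mem_univ j) h)
  have step : ∀ (r : Rt) (k j : Fin 7), re r 1 k k = 1 → re r 1 k j ≠ 0 → z k k = z j j := by
    intro r k j hkk hkj
    have hg := re_InN r 1
    have hz' := hG _ hg z hz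
    have e : (re r 1 * z * adjN (re r 1)) * re r 1 = re r 1 * z := by
      rw [Matrix.mul_assoc, adjN_mul _ hg.1, Matrix.mul_one]
    have e1 : ∀ k j, (re r 1 * z * adjN (re r 1)) k k * re r 1 k j = re r 1 k j * z j j := by
      intro k j
      rw [← hsum _ _ (hd _ hz'), e, hsum' _ _ (hd _ hz)]
    have e2 := e1 k k
    rw [hkk, mul_one, one_mul] at e2
    have e3 := e1 k j
    rw [e2, mul_comm] at e3
    exact mul_left_cancel₀ hkj e3
  have a1 := step .S1 1 3 (by simp [re]) (by simp [re])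
  have a2 := step .S1 0 2 (by simp [re]) (by simp [re])
  have a3 := step .S1 4 6 (by simp [re]) (by simp [re])
  have a4 := step .S1 3 5 (by simp [re]) (by simp [re])
  have c1 := step .S2 2 3 (by simp [re]) (by simp [re])
  have c2 := step .S2 0 1 (by simp [re]) (by simp [re])
  have c3 := step .S2 5 6 (by simp [re]) (by simp [re])
  have c4 := step .S2 3 4 (by simp [re]) (by simp [re])
  have hall : ∀ i, z i i = z 3 3 := by
    intro i
    fin_cases i
    · exact c2.trans a1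
    · exact a1
    · exact c1
    · rfl
    · exact c4.symm
    · exact a4.symm
    · exact a3.symm.trans c4.symm
  refine ⟨z 3 3, ?_⟩
  ext i j
  by_cases h : i = j
  · subst h
    rw [Matrix.smul_apply, Matrix.one_apply_eq, smul_eq_mul, mul_one]
    exact hall i
  · rw [Matrix.smul_apply, Matrix.one_apply_ne h, smul_zero]
    exact hd z hz i j h

end C37.PGX
end

section

/-!
MP_c37615_al (S02984), part GX, task D04: transfer of D01, D03 to standard coordinates; G spans the matrices.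
-/

set_option autoImplicit false
set_option linter.all false

open Matrix

namespace C37.PGX

/-- from `InN_irreducible` with the image of W under PI (`InG_ofN`, `InN_toN`, `ofN_mulVec`, `PN_PI_vec`) -/
theorem GX_irreducible' (W : Submodule ℝ V) (hW : ∀ g : Mat, InG g → ∀ w ∈ W, g *ᵥ w ∈ W) :
    W = ⊥ ∨ W = ⊤ := by
  have hmem : ∀ w, w ∈ W.comap (Matrix.toLin' PN) ↔ PN *ᵥ w ∈ W := by
    intro w
    rw [Submodule.mem_comap, Matrix.toLin'_apply]
  rcases InN_irreducible (W.comap (Matrix.toLin' PN)) (fun g hg w hw => by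
    rw [hmem] at hw ⊢
    rw [← ofN_mulVec]
    exact hW _ (InG_ofN g hg) _ hw) with h | h
  · left
    rw [eq_bot_iff]
    intro w hw
    have h1 : PI *ᵥ w ∈ W.comap (Matrix.toLin' PN) := by rw [hmem, PN_PI_vec]; exact hw
    rw [h, Submodule.mem_bot] at h1
    rw [Submodule.mem_bot, ← PN_PI_vec w, h1, Matrix.mulVec_zero]
  · right
    rw [eq_top_iff]
    intro w _
    have h1 : PI *ᵥ w ∈ W.comap (Matrix.toLin' PN) := by rw [h]; exact Submodule.mem_top
    rwa [hmem, PN_PI_vec] at h1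

/-- `ofN` as a linear map -/
noncomputable def D04_ofN : Mat →ₗ[ℝ] Mat where
  toFun := ofN
  map_add' a b := by
    unfold ofN
    rw [Matrix.mul_add, Matrix.add_mul]
  map_smul' c a := by
    unfold ofN
    rw [Matrix.mul_smul, Matrix.smul_mul]
    rfl

/-- from `Z_scalar` with the image of Z under `toN` (`z ↦ PI * z * PN`); g⁻¹ = ofN (adjN (toN g)) (`Matrix.inv_eq_left_inv`) -/
theorem GX_commAlg' (Z : Submodule ℝ Mat) (hmul : ∀ a ∈ Z, ∀ b ∈ Z, a * b ∈ Z ∧ a * b = b * a)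
    (hG : ∀ g : Mat, InG g → ∀ a ∈ Z, g * a * g⁻¹ ∈ Z) : ∀ a ∈ Z, ∃ c : ℝ, a = c • (1 : Mat) := by
  intro a ha
  have hmem : ∀ z, z ∈ Z.comap D04_ofN ↔ ofN z ∈ Z := fun z => Iff.rfl
  obtain ⟨c, hc⟩ := Z_scalar (Z.comap D04_ofN) (fun x hx y hy => by
      rw [hmem] at hx hy
      rw [← toN_ofN (x * y), ← toN_ofN (y * x), ofN_mul, ofN_mul, (hmul _ hx _ hy).2])
    (fun g hg x hx => by
      rw [hmem] at hx ⊢
      have h1 : ofN (adjN g) = (ofN g)⁻¹ := by
        refine (Matrix.inv_eq_left_inv ?_).symm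
        rw [← ofN_mul, adjN_mul g hg.1, ofN_one]
      rw [ofN_mul, ofN_mul, h1]
      exact hG _ (InG_ofN g hg) _ hx) (toN a) (by rw [hmem, ofN_toN]; exact ha)
  refine ⟨c, ?_⟩
  rw [← ofN_toN a, hc]
  have : D04_ofN (c • (1 : Mat)) = c • (1 : Mat) := by
    rw [map_smul]
    congr 1
    exact ofN_one
  exact this

/-- G spans the matrix algebra (null coordinates).
Proof: suppose trace (h * M) = 0 for all h in G, M ≠ 0.  The submodule S = {M | ∀ h, InN h → trace (h * M) = 0} is stable under left and right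
multiplication by elements of G (trace is cyclic).  Left multiplication by DN 3 2 = diagonal d multiplies row i by d i, right multiplication multiplies column j by d j:
with Lagrange polynomials, M ∈ S, M i j ≠ 0 gives that the matrix unit E i j = Matrix.single i j 1 is in S.  So `h j i = trace (h * E i j) = 0` for all h ∈ G.
Then W = span {h *ᵥ en i | h ∈ G} is G-invariant, contains en i ≠ 0, and is contained in {w | w j = 0}: contradiction to `InN_irreducible`. -/
theorem InN_span (M : Mat) (hM : M ≠ 0) : ∃ h : Mat, InN h ∧ (h * M).trace ≠ 0 := by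
  classical
  by_contra hcon
  push Not at hcon
  let S : Submodule ℝ Mat :=
    { carrier := {M | ∀ h, InN h → (h * M).trace = 0}
      add_mem' := fun {a b} ha hb h hh => by
        rw [Matrix.mul_add, Matrix.trace_add, ha h hh, hb h hh, add_zero]
      zero_mem' := fun h _ => by rw [Matrix.mul_zero, Matrix.trace_zero]
      smul_mem' := fun c a ha h hh => by
        rw [Matrix.mul_smul, Matrix.trace_smul, ha h hh, smul_zero] }
  have hmem : ∀ M, M ∈ S ↔ ∀ h, InN h → (h * M).trace = 0 := fun M => Iff.rfl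
  have hL : ∀ w ∈ S, DN 3 2 * w ∈ S := by
    intro w hw
    rw [hmem] at hw ⊢
    intro h hh
    rw [← Matrix.mul_assoc]
    exact hw _ (InN_mul hh D03_InN)
  have hR : ∀ w ∈ S, w * DN 3 2 ∈ S := by
    intro w hw
    rw [hmem] at hw ⊢
    intro h hh
    rw [← Matrix.mul_assoc, Matrix.trace_mul_comm, ← Matrix.mul_assoc]
    exact hw _ (InN_mul D03_InN hh)
  obtain ⟨i, j, hij⟩ : ∃ i j, M i j ≠ 0 := by
    by_contra hn
    push Not at hn
    exact hM (Matrix.ext hn)
  have hinj := D03_anti.injective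
  obtain ⟨M1, hM1, h1, h2⟩ := D01_proj S (fun z => DN 3 2 * z) hL D03_ev (fun p => D03_d p.1)
    (fun p z => by
      change (DN 3 2 * z) p.1 p.2 = D03_d p.1 * z p.1 p.2
      rw [D03_DN, Matrix.diagonal_mul]) (Finset.univ.image D03_d)
    (fun p => Finset.mem_image_of_mem _ (Finset.mem_univ _)) (D03_d i) M ((hmem M).2 hcon)
  obtain ⟨M2, hM2, k1, k2⟩ := D01_proj S (fun z => z * DN 3 2) hR D03_ev (fun p => D03_d p.2)
    (fun p z => by
      change (z * DN 3 2) p.1 p.2 = D03_d p.2 * z p.1 p.2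
      rw [D03_DN, Matrix.mul_diagonal, mul_comm]) (Finset.univ.image D03_d)
    (fun p => Finset.mem_image_of_mem _ (Finset.mem_univ _)) (D03_d j) M1 hM1
  have e : M2 = Matrix.single i j (M i j) := by
    ext a b
    by_cases hb : b = j
    · have q1 : M2 a b = M1 a b := k1 (a, b) (by rw [hb])
      by_cases ha : a = i
      · have q2 : M1 a b = M a b := h1 (a, b) (by rw [ha])
        rw [q1, q2, ha, hb, Matrix.single_apply_same]
      · have q2 : M1 a b = 0 := h2 (a, b) fun h => ha (hinj h)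
        rw [q1, q2, Matrix.single_apply_of_row_ne (Ne.symm ha)]
    · have q1 : M2 a b = 0 := k2 (a, b) fun h => hb (hinj h)
      rw [q1, Matrix.single_apply_of_col_ne _ _ (Ne.symm hb)]
  have hzero : ∀ h, InN h → h j i = 0 := by
    intro h hh
    have := (hmem M2).1 hM2 h hh
    rw [e, Matrix.trace_mul_comm, Matrix.trace_single_mul] at this
    exact (mul_eq_zero.1 this).resolve_left hij
  let W : Submodule ℝ V := Submodule.span ℝ {v | ∃ h, InN h ∧ v = h *ᵥ en i}
  have hW : ∀ g : Mat, InN g → ∀ w ∈ W, g *ᵥ w ∈ W := by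
    intro g hg w hw
    induction hw using Submodule.span_induction with
    | mem x hx =>
      obtain ⟨h, hh, rfl⟩ := hx
      refine Submodule.subset_span ⟨g * h, InN_mul hg hh, ?_⟩
      rw [Matrix.mulVec_mulVec]
    | zero => rw [Matrix.mulVec_zero]; exact Submodule.zero_mem _
    | add x y _ _ hx hy => rw [Matrix.mulVec_add]; exact Submodule.add_mem _ hx hy
    | smul c x _ hx => rw [Matrix.mulVec_smul]; exact Submodule.smul_mem _ c hx
  have hWj : ∀ w ∈ W, w j = 0 := by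
    intro w hw
    induction hw using Submodule.span_induction with
    | mem x hx =>
      obtain ⟨h, hh, rfl⟩ := hx
      rw [Matrix.mulVec_single_one]
      exact hzero h hh
    | zero => rfl
    | add x y _ _ hx hy => rw [Pi.add_apply, hx, hy, add_zero]
    | smul c x _ hx => rw [Pi.smul_apply, hx, smul_zero]
  rcases InN_irreducible W hW with h | h
  · have h3 : en i ∈ W := Submodule.subset_span ⟨1, InN_one, by rw [Matrix.one_mulVec]⟩
    rw [h, Submodule.mem_bot] at h3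
    have := congrFun h3 i
    simp at this
  · have h3 : en j ∈ W := by rw [h]; exact Submodule.mem_top
    have := hWj _ h3
    simp at this

theorem GX_span' (M : Mat) (hM : M ≠ 0) : ∃ h : Mat, InG h ∧ (h * M).trace ≠ 0 := by
  have h0 : toN M ≠ 0 := by
    intro h
    refine hM ?_
    rw [← ofN_toN M, h]
    unfold ofN
    rw [Matrix.mul_zero, Matrix.zero_mul]
  obtain ⟨h, hh, ht⟩ := InN_span (toN M) h0
  refine ⟨ofN h, InG_ofN h hh, ?_⟩
  have e : (ofN h * M).trace = (h * toN M).trace := by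
    conv_lhs => rw [← ofN_toN M, ← ofN_mul]
    unfold ofN
    rw [Matrix.trace_mul_comm, ← Matrix.mul_assoc, PI_PN, Matrix.one_mul]
  rw [e]
  exact ht

end C37.PGX
end

section

/-!
MP_c37615_al (S02984), part GX, task B04: the stabiliser of va is SL_3.
-/

set_option autoImplicit false
set_option linter.all false

open Matrix

namespace C37.PGX

private theorem B04_col (M : Mat) (i j : Fin 7) : (M *ᵥ en j) i = M i j := by
  simp [Matrix.mulVec_single_one]

private theorem B04_col' (M : Mat) (j : Fin 7) : M *ᵥ en j = fun i => M i j := by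
  ext i
  exact B04_col M i j

private theorem B04_x (M : Mat) (hM : InN M) (h : M *ᵥ en 3 = en 3) (j : Fin 7)
    (hj : crossN (en 3) (en j) = en j) :
    M 0 j = 0 ∧ M 3 j = 0 ∧ M 4 j = 0 ∧ M 5 j = 0 := by
  have h1 := hM.2 (en 3) (en j)
  rw [h, hj, crossN_3] at h1
  have e0 := congrFun h1 0
  have e3 := congrFun h1 3
  have e4 := congrFun h1 4
  have e5 := congrFun h1 5
  simp only [B04_col] at e0 e3 e4 e5
  simp at e0 e3 e4 e5
  refine ⟨by linarith, by linarith, by linarith, by linarith⟩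

/-- Proof. Put `A i j = M (x i) (x j)` with x 0 = 1, x 1 = 2, x 2 = 6.
For j ∈ {1,2,6}: `crossN (en 3) (en j) = en j`, so `crossN (en 3) (M *ᵥ en j) = M *ᵥ en j`, and `crossN_3` shows that the components
0,3,4,5 of `M *ᵥ en j` vanish.  For j ∈ {0,4,5}: `crossN (en 3) (en j) = - en j`: the components 1,2,3,6 of `M *ᵥ en j` vanish.
`M *ᵥ en 3 = en 3`.  The y-columns: `M *ᵥ en 0 = crossN (M *ᵥ en 1) (M *ᵥ en 2)` (`crossN_12`), `M *ᵥ en 5 = crossN (M *ᵥ en 2) (M *ᵥ en 6)`,
`M *ᵥ en 4 = crossN (M *ᵥ en 6) (M *ᵥ en 1)`: the entries are cofactors.  So `M = iN A`.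
`BN (M *ᵥ en 1) (M *ᵥ en 5) = BN (en 1) (en 5) = -1/2` gives `A 0 0 * cof A 0 0 + A 1 0 * cof A 1 0 + A 2 0 * cof A 2 0 = 1`, i.e. det A = 1. -/
theorem InN_stab (M : Mat) (hM : InN M) (h : M *ᵥ en 3 = en 3) :
    ∃ A : Matrix (Fin 3) (Fin 3) ℝ, A.det = 1 ∧ M = iN A := by
  obtain ⟨a0, a3, a4, a5⟩ := B04_x M hM h 1 (by
    rw [crossN_3]; ext i; fin_cases i <;> simp [Pi.single_apply])
  obtain ⟨b0, b3, b4, b5⟩ := B04_x M hM h 2 (by
    rw [crossN_3]; ext i; fin_cases i <;> simp [Pi.single_apply])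
  obtain ⟨c0, c3, c4, c5⟩ := B04_x M hM h 6 (by
    rw [crossN_3]; ext i; fin_cases i <;> simp [Pi.single_apply])
  have k0 : M *ᵥ en 0 = crossN (M *ᵥ en 1) (M *ᵥ en 2) := by rw [hM.2, crossN_12]
  have k5 : M *ᵥ en 5 = crossN (M *ᵥ en 2) (M *ᵥ en 6) := by rw [hM.2, crossN_26]
  have k4 : M *ᵥ en 4 = crossN (M *ᵥ en 6) (M *ᵥ en 1) := by rw [hM.2, crossN_61]
  have kB := hM.1 (en 1) (en 5)
  rw [B04_col', B04_col', B04_col'] at k0 k5 k4
  rw [B04_col', B04_col'] at kB
  rw [B04_col'] at h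
  have d : ∀ i, M i 0 = crossN (fun i => M i 1) (fun i => M i 2) i := fun i => congrFun k0 i
  have e : ∀ i, M i 5 = crossN (fun i => M i 2) (fun i => M i 6) i := fun i => congrFun k5 i
  have f : ∀ i, M i 4 = crossN (fun i => M i 6) (fun i => M i 1) i := fun i => congrFun k4 i
  have g : ∀ i, M i 3 = (en 3 : V) i := fun i => congrFun h i
  have hMi : M = iN !![M 1 1, M 1 2, M 1 6; M 2 1, M 2 2, M 2 6; M 6 1, M 6 2, M 6 6] := by
    ext i j
    fin_cases j
    · show M i 0 = _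
      rw [d]
      fin_cases i <;> simp [iN, cof, crossN, a0, a3, a4, a5, b0, b3, b4, b5] <;> ring
    · show M i 1 = _
      fin_cases i <;> simp [iN, cof, a0, a3, a4, a5]
    · show M i 2 = _
      fin_cases i <;> simp [iN, cof, b0, b3, b4, b5]
    · show M i 3 = _
      rw [g]
      fin_cases i <;> simp [iN, cof, Pi.single_apply]
    · show M i 4 = _
      rw [f]
      fin_cases i <;> simp [iN, cof, crossN, a0, a3, a4, a5, c0, c3, c4, c5] <;> ring
    · show M i 5 = _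
      rw [e]
      fin_cases i <;> simp [iN, cof, crossN, c0, c3, c4, c5, b0, b3, b4, b5] <;> ring
    · show M i 6 = _
      fin_cases i <;> simp [iN, cof, c0, c3, c4, c5]
  refine ⟨_, ?_, hMi⟩
  rw [Matrix.det_fin_three]
  have kB' : BN (fun i => M i 1) (fun i => M i 5) = -(1 / 2) := by
    rw [kB]
    simp [BN, Pi.single_apply]
  simp only [BN, e] at kB'
  simp [crossN, a0, a3, a4, a5, b0, b3, b4, b5, c0, c3, c4, c5] at kB'
  simp
  linarith

/-- if M fixes x3 and y3 then it fixes va: `en 3 = 2 • crossN (en 6) (en 0)` -/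
theorem InN_fix3 (M : Mat) (hM : InN M) (c : ℝ) (hc : c ≠ 0) (h6 : M *ᵥ en 6 = c • en 6)
    (h0 : M *ᵥ en 0 = c⁻¹ • en 0) : M *ᵥ en 3 = en 3 := by
  have e3 : en 3 = (2 : ℝ) • crossN (en 6) (en 0) := by
    rw [crossN_60, smul_smul]; norm_num
  have h1 := hM.2 (en 6) (en 0)
  rw [h6, h0] at h1
  have h2 : crossN (c • en 6) (c⁻¹ • en 0) = crossN (en 6) (en 0) := by
    ext i
    fin_cases i <;> simp [crossN, Pi.single_apply, hc]
  rw [h2] at h1
  rw [e3, Matrix.mulVec_smul, ← h1]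

end C37.PGX
end

section

/-!
MP_c37615_al (S02984), part GX, task B06: the unipotent elements moving x3 to a null vector (resp. y3).
All formulas of this file were checked with exact arithmetic.
-/

set_option autoImplicit false
set_option linter.all false

open Matrix

namespace C37.PGX

/-- for a null vector v with v 6 = 1, `word (nl v) *ᵥ en 6 = v` -/
noncomputable def nl (v : V) : List (Rt × ℝ) :=
  [(.S2, -v 5), (.S1, -v 4), (.T3, -2 * (v 3 + v 4 * v 5)), (.L23, v 4 * v 5 ^ 2 + 2 * v 3 * v 5 - v 2),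
   (.L13, -2 * v 3 * v 4 - 2 * v 4 ^ 2 * v 5 - v 1)]

/-- for a null vector w with w 0 = 1, `word (nlo w) *ᵥ en 0 = w` -/
noncomputable def nlo (w : V) : List (Rt × ℝ) :=
  [(.T2, 2 * w 1), (.T1, -2 * w 2), (.S3, -(w 3 + w 2 * w 1)), (.L32, -(w 2 * w 1 ^ 2 + 2 * w 3 * w 1 - w 4)),
   (.L31, -(-2 * w 3 * w 2 - 2 * w 2 ^ 2 * w 1 - w 5))]

private theorem B06_word (a b c d e : Rt × ℝ) :
    word [a, b, c, d, e] = re a.1 a.2 * (re b.1 b.2 * (re c.1 c.2 * (re d.1 d.2 * re e.1 e.2))) := by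
  simp [word]

private theorem B06_wordv (a b c d e : Rt × ℝ) (x : V) :
    word [a, b, c, d, e] *ᵥ x =
      re a.1 a.2 *ᵥ (re b.1 b.2 *ᵥ (re c.1 c.2 *ᵥ (re d.1 d.2 *ᵥ (re e.1 e.2 *ᵥ x)))) := by
  rw [B06_word]
  simp only [Matrix.mulVec_mulVec]

private theorem B06_S1 (s : ℝ) (x : V) : re .S1 s *ᵥ x =
    ![x 0 + s * x 2, x 1 + 2 * s * x 3 - s ^ 2 * x 5, x 2, x 3 - s * x 5, x 4 - s * x 6, x 5, x 6] := by
  ext i; fin_cases i <;> simp [re, Matrix.mulVec, dotProduct, Fin.sum_univ_succ] <;> ring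

private theorem B06_S2 (s : ℝ) (x : V) : re .S2 s *ᵥ x =
    ![x 0 + s * x 1, x 1, x 2 - 2 * s * x 3 - s ^ 2 * x 4, x 3 + s * x 4, x 4, x 5 - s * x 6, x 6] := by
  ext i; fin_cases i <;> simp [re, Matrix.mulVec, dotProduct, Fin.sum_univ_succ] <;> ring

private theorem B06_T3 (s : ℝ) (x : V) : re .T3 s *ᵥ x =
    ![x 0 + s * x 3 - s ^ 2 / 4 * x 6, x 1 - s / 2 * x 4, x 2 + s / 2 * x 5, x 3 - s / 2 * x 6, x 4, x 5, x 6] := by
  ext i; fin_cases i <;> simp [re, Matrix.mulVec, dotProduct, Fin.sum_univ_succ] <;> ring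

private theorem B06_L23 (s : ℝ) (x : V) : re .L23 s *ᵥ x =
    ![x 0 + s * x 4, x 1, x 2 - s * x 6, x 3, x 4, x 5, x 6] := by
  ext i; fin_cases i <;> simp [re, Matrix.mulVec, dotProduct, Fin.sum_univ_succ] <;> ring

private theorem B06_L13 (s : ℝ) (x : V) : re .L13 s *ᵥ x =
    ![x 0 + s * x 5, x 1 - s * x 6, x 2, x 3, x 4, x 5, x 6] := by
  ext i; fin_cases i <;> simp [re, Matrix.mulVec, dotProduct, Fin.sum_univ_succ] <;> ring

private theorem B06_T2 (s : ℝ) (x : V) : re .T2 s *ᵥ x =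
    ![x 0, s / 2 * x 0 + x 1, x 2, x 3 - s / 2 * x 2, x 4 - s ^ 2 / 4 * x 2 + s * x 3, x 5, x 6 - s / 2 * x 5] := by
  ext i; fin_cases i <;> simp [re, Matrix.mulVec, dotProduct, Fin.sum_univ_succ] <;> ring

private theorem B06_T1 (s : ℝ) (x : V) : re .T1 s *ᵥ x =
    ![x 0, x 1, x 2 - s / 2 * x 0, x 3 - s / 2 * x 1, x 4, x 5 - s ^ 2 / 4 * x 1 + s * x 3, x 6 + s / 2 * x 4] := by
  ext i; fin_cases i <;> simp [re, Matrix.mulVec, dotProduct, Fin.sum_univ_succ] <;> ring

private theorem B06_S3 (s : ℝ) (x : V) : re .S3 s *ᵥ x =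
    ![x 0, x 1, x 2, x 3 - s * x 0, x 4 + s * x 1, x 5 - s * x 2, x 6 - s ^ 2 * x 0 + 2 * s * x 3] := by
  ext i; fin_cases i <;> simp [re, Matrix.mulVec, dotProduct, Fin.sum_univ_succ] <;> ring

private theorem B06_L32 (s : ℝ) (x : V) : re .L32 s *ᵥ x =
    ![x 0, x 1, x 2, x 3, x 4 + s * x 0, x 5, x 6 - s * x 2] := by
  ext i; fin_cases i <;> simp [re, Matrix.mulVec, dotProduct, Fin.sum_univ_succ] <;> ring

private theorem B06_L31 (s : ℝ) (x : V) : re .L31 s *ᵥ x =
    ![x 0, x 1, x 2, x 3, x 4, x 5 + s * x 0, x 6 - s * x 1] := by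
  ext i; fin_cases i <;> simp [re, Matrix.mulVec, dotProduct, Fin.sum_univ_succ] <;> ring

private theorem B06_nlv (v x : V) : word (nl v) *ᵥ x =
    re .S2 (-v 5) *ᵥ (re .S1 (-v 4) *ᵥ (re .T3 (-2 * (v 3 + v 4 * v 5)) *ᵥ
      (re .L23 (v 4 * v 5 ^ 2 + 2 * v 3 * v 5 - v 2) *ᵥ
        (re .L13 (-2 * v 3 * v 4 - 2 * v 4 ^ 2 * v 5 - v 1) *ᵥ x)))) := by
  rw [nl, B06_wordv]

private theorem B06_nlov (w x : V) : word (nlo w) *ᵥ x =
    re .T2 (2 * w 1) *ᵥ (re .T1 (-2 * w 2) *ᵥ (re .S3 (-(w 3 + w 2 * w 1)) *ᵥ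
      (re .L32 (-(w 2 * w 1 ^ 2 + 2 * w 3 * w 1 - w 4)) *ᵥ
        (re .L31 (-(-2 * w 3 * w 2 - 2 * w 2 ^ 2 * w 1 - w 5)) *ᵥ x)))) := by
  rw [nlo, B06_wordv]

private theorem B06_entry (M : Mat) (i j : Fin 7) : M i j = (M *ᵥ en j) i := by
  simp [en]

/-- `BN v v = 0`, `v 6 = 1` means `v 0 = - v 3 ^ 2 - v 1 * v 5 - v 2 * v 4`; then compute
(multiply the five explicit matrices with `en 6` from the right to the left, `Matrix.mulVec_mulVec`). -/
theorem nl_en6 (v : V) (h6 : v 6 = 1) (hq : BN v v = 0) : word (nl v) *ᵥ en 6 = v := by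
  have h0 : v 0 = - v 3 ^ 2 - v 1 * v 5 - v 2 * v 4 := by
    simp only [BN, h6] at hq
    linarith
  rw [B06_nlv, B06_L13, B06_L23, B06_T3, B06_S1, B06_S2]
  ext i
  fin_cases i <;> simp [en, h6, h0] <;> ring

theorem nl_en0 (v : V) : word (nl v) *ᵥ en 0 = en 0 := by
  rw [B06_nlv, B06_L13, B06_L23, B06_T3, B06_S1, B06_S2]
  ext i
  fin_cases i <;> simp [en]

theorem nl_en1 (v : V) : word (nl v) *ᵥ en 1 = en 1 + (-v 5) • en 0 := by
  rw [B06_nlv, B06_L13, B06_L23, B06_T3, B06_S1, B06_S2]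
  ext i
  fin_cases i <;> simp [en]

/-- columns 5 and 4, only the entries 4,5,6 -/
theorem nl_col5 (v : V) : word (nl v) 6 5 = 0 ∧ word (nl v) 5 5 = 1 ∧ word (nl v) 4 5 = 0 := by
  simp only [B06_entry (word (nl v)), B06_nlv, B06_L13, B06_L23, B06_T3, B06_S1, B06_S2]
  simp [en]

theorem nl_col4 (v : V) : word (nl v) 6 4 = 0 ∧ word (nl v) 5 4 = 0 ∧ word (nl v) 4 4 = 1 := by
  simp only [B06_entry (word (nl v)), B06_nlv, B06_L13, B06_L23, B06_T3, B06_S1, B06_S2]
  simp [en]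

/-- columns 0..3: the entries 4,5,6 vanish -/
theorem nl_cols (v : V) (i j : Fin 7) (hj : j ≤ 3) (hi : 4 ≤ i) : word (nl v) i j = 0 := by
  rw [B06_entry (word (nl v)), B06_nlv, B06_L13, B06_L23, B06_T3, B06_S1, B06_S2]
  fin_cases i <;> simp at hi <;> fin_cases j <;> simp [en] at hj ⊢

/-- column 6, entries 4,5,6 (no assumption on v) -/
theorem nl_col6 (v : V) : word (nl v) 6 6 = 1 ∧ word (nl v) 5 6 = v 5 ∧ word (nl v) 4 6 = v 4 := by
  simp only [B06_entry (word (nl v)), B06_nlv, B06_L13, B06_L23, B06_T3, B06_S1, B06_S2]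
  simp [en]

theorem nlo_en0 (w : V) (h0 : w 0 = 1) (hq : BN w w = 0) : word (nlo w) *ᵥ en 0 = w := by
  have h6 : w 6 = - w 3 ^ 2 - w 1 * w 5 - w 2 * w 4 := by
    simp only [BN, h0] at hq
    linarith
  rw [B06_nlov, B06_L31, B06_L32, B06_S3, B06_T1, B06_T2]
  ext i
  fin_cases i <;> simp [en, h6, h0] <;> ring

theorem nlo_en6 (w : V) : word (nlo w) *ᵥ en 6 = en 6 := by
  rw [B06_nlov, B06_L31, B06_L32, B06_S3, B06_T1, B06_T2]
  ext i
  fin_cases i <;> simp [en]

end C37.PGX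
end

section

/-!
MP_c37615_al (S02984), part GX, task B07: moving a vector by root elements.
-/

set_option autoImplicit false
set_option linter.all false

open Matrix

namespace C37.PGX

theorem B07_a (v : V) (h : v 6 ≠ 0 ∨ v 1 ≠ 0 ∨ v 2 ≠ 0 ∨ v 3 ≠ 0 ∨ v 0 ≠ 0) : ∃ N : Mat, Gen N ∧ (N *ᵥ v) 6 ≠ 0 := by
  by_cases h6 : v 6 = 0
  swap
  · exact ⟨1, Gen_one, by rwa [Matrix.one_mulVec]⟩
  rcases h with h | h | h | h
  · exact absurd h6 h
  · refine ⟨re .L31 1, Gen_re _ _, ?_⟩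
    have : (re .L31 1 *ᵥ v) 6 = v 6 - v 1 := by
      simp [re, Matrix.mulVec, dotProduct, Fin.sum_univ_succ]; ring
    rw [this, h6]
    simpa using h
  · refine ⟨re .L32 1, Gen_re _ _, ?_⟩
    have : (re .L32 1 *ᵥ v) 6 = v 6 - v 2 := by
      simp [re, Matrix.mulVec, dotProduct, Fin.sum_univ_succ]; ring
    rw [this, h6]
    simpa using h
  · have hS : ∀ s : ℝ, (re .S3 s *ᵥ v) 6 = v 6 + 2 * s * v 3 - s ^ 2 * v 0 := by
      intro s
      simp [re, Matrix.mulVec, dotProduct, Fin.sum_univ_succ]; ring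
    by_cases h1 : (re .S3 1 *ᵥ v) 6 = 0
    · refine ⟨re .S3 (-1), Gen_re _ _, ?_⟩
      intro h2
      rw [hS] at h1 h2
      rw [h6] at h1 h2
      have e1 : v 3 = 0 := by linarith
      have e2 : v 0 = 0 := by linarith
      rcases h with h | h
      · exact h e1
      · exact h e2
    · exact ⟨re .S3 1, Gen_re _ _, h1⟩

/-- Proof: cases.  v 6 ≠ 0: N = 1.  Assume v 6 = 0.  v 1 ≠ 0: `(re L31 1 *ᵥ v) 6 = v 6 - v 1`.  v 2 ≠ 0: `(re L32 1 *ᵥ v) 6 = v 6 - v 2`.
`(re S3 s *ᵥ v) 6 = v 6 + 2 s v 3 - s^2 v 0`: if v 3 ≠ 0 or v 0 ≠ 0 then s = 1 or s = -1 works.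
If v 0 = v 1 = v 2 = v 3 = v 6 = 0: v 4 ≠ 0: `(re L23 1 *ᵥ v) 0 = v 0 + v 4 ≠ 0`, reduce to the previous case;
v 5 ≠ 0: `(re L13 1 *ᵥ v) 0 = v 0 + v 5 ≠ 0`, the same. -/
theorem exists_move6 (v : V) (hv : v ≠ 0) : ∃ N : Mat, Gen N ∧ (N *ᵥ v) 6 ≠ 0 := by
  by_cases h : v 6 ≠ 0 ∨ v 1 ≠ 0 ∨ v 2 ≠ 0 ∨ v 3 ≠ 0 ∨ v 0 ≠ 0
  · exact B07_a v h
  push Not at h
  obtain ⟨h6, h1, h2, h3, h0⟩ := h
  have h45 : v 4 ≠ 0 ∨ v 5 ≠ 0 := by
    by_contra hcon
    push Not at hcon
    apply hv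
    ext i
    fin_cases i
    · exact h0
    · exact h1
    · exact h2
    · exact h3
    · exact hcon.1
    · exact hcon.2
    · exact h6
  rcases h45 with h4 | h5
  · have e1 : (re .L23 1 *ᵥ v) 0 ≠ 0 := by
      have : (re .L23 1 *ᵥ v) 0 = v 0 + v 4 := by
        simp [re, Matrix.mulVec, dotProduct, Fin.sum_univ_succ]; try ring
      rw [this, h0]; simpa using h4
    obtain ⟨N, hN, hN'⟩ := B07_a (re .L23 1 *ᵥ v) (Or.inr (Or.inr (Or.inr (Or.inr e1))))
    refine ⟨N * re .L23 1, Gen_mul hN (Gen_re _ _), ?_⟩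
    rwa [← Matrix.mulVec_mulVec]
  · have e1 : (re .L13 1 *ᵥ v) 0 ≠ 0 := by
      have : (re .L13 1 *ᵥ v) 0 = v 0 + v 5 := by
        simp [re, Matrix.mulVec, dotProduct, Fin.sum_univ_succ]; try ring
      rw [this, h0]; simpa using h5
    obtain ⟨N, hN, hN'⟩ := B07_a (re .L13 1 *ᵥ v) (Or.inr (Or.inr (Or.inr (Or.inr e1))))
    refine ⟨N * re .L13 1, Gen_mul hN (Gen_re _ _), ?_⟩
    rwa [← Matrix.mulVec_mulVec]

/-- every nonzero null vector is in the orbit of `en 6` (x3).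
Proof: `exists_move6`: N v =: w, c = w 6 ≠ 0; v' = c⁻¹ • w is null with v' 6 = 1, so `word (nl v') *ᵥ en 6 = v'`; and
`DN c⁻¹ 1 *ᵥ en 6 = c • en 6`.  So v = N⁻¹ * word (nl v') * DN c⁻¹ 1 *ᵥ en 6 (`Gen_inv` for N⁻¹ = adjN N, `Gen_DN`, `InN` of Gen elements by `word_InN`). -/
theorem exists_to_null (v : V) (hv : v ≠ 0) (hq : BN v v = 0) : ∃ N : Mat, Gen N ∧ N *ᵥ en 6 = v := by
  obtain ⟨N, hN, hN6⟩ := exists_move6 v hv
  have hNin : InN N := by
    obtain ⟨l, rfl⟩ := hN
    exact word_InN l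
  obtain ⟨c, hc⟩ : ∃ c, c = (N *ᵥ v) 6 := ⟨_, rfl⟩
  have hc0 : c ≠ 0 := by rw [hc]; exact hN6
  have hw : BN (N *ᵥ v) (N *ᵥ v) = 0 := by rw [hNin.1, hq]
  have hv' : BN (c⁻¹ • (N *ᵥ v)) (c⁻¹ • (N *ᵥ v)) = 0 := by
    have : BN (c⁻¹ • (N *ᵥ v)) (c⁻¹ • (N *ᵥ v)) = c⁻¹ ^ 2 * BN (N *ᵥ v) (N *ᵥ v) := by
      simp only [BN, Pi.smul_apply, smul_eq_mul]; ring
    rw [this, hw, mul_zero]
  have hv6 : (c⁻¹ • (N *ᵥ v)) 6 = 1 := by
    rw [Pi.smul_apply, smul_eq_mul, ← hc, inv_mul_cancel₀ hc0]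
  have h1 := nl_en6 _ hv6 hv'
  have h2 : DN c⁻¹ 1 *ᵥ en 6 = c • en 6 := by
    ext i
    fin_cases i <;> simp [DN, en, Matrix.mulVec_diagonal, Pi.single_apply, Matrix.mulVec, dotProduct, Matrix.diagonal_apply, Fin.sum_univ_succ]
  have hadj : adjN N * N = 1 := adjN_mul N hNin.1
  have hGadj : Gen (adjN N) := Gen_inv hN hadj
  refine ⟨adjN N * (word (nl (c⁻¹ • (N *ᵥ v))) * DN c⁻¹ 1), Gen_mul hGadj (Gen_mul ⟨_, rfl⟩ (Gen_DN _ _ (inv_ne_zero hc0) one_ne_zero)), ?_⟩
  rw [← Matrix.mulVec_mulVec, ← Matrix.mulVec_mulVec, h2, Matrix.mulVec_smul, h1, smul_smul, mul_inv_cancel₀ hc0, one_smul,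
    Matrix.mulVec_mulVec, hadj, Matrix.one_mulVec]

end C37.PGX
end

section

/-!
MP_c37615_al (S02984), part GX, task B08: G is generated by the root elements.
-/

set_option autoImplicit false
set_option linter.all false

open Matrix

namespace C37.PGX

theorem B08_gen_in {N : Mat} (hN : Gen N) : InN N := by
  obtain ⟨l, rfl⟩ := hN
  exact word_InN l

/-- Proof: `w = M *ᵥ en 0`: `-(1/2) * w 0 = BN w (en 6) = BN (M *ᵥ en 0) (M *ᵥ en 6) = BN (en 0) (en 6) = -1/2` so w 0 = 1, and BN w w = 0.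
Take N = the inverse (adjN) of `word (nlo w)`: N fixes en 6, and N *ᵥ w = en 0. -/
theorem B08_step (M : Mat) (hM : InN M) (h6 : M *ᵥ en 6 = en 6) :
    ∃ N : Mat, Gen N ∧ (N * M) *ᵥ en 6 = en 6 ∧ (N * M) *ᵥ en 0 = en 0 := by
  obtain ⟨w, hw⟩ : ∃ w, w = M *ᵥ en 0 := ⟨_, rfl⟩
  have e1 : BN w (en 6) = - (1/2) * w 0 := by
    simp [BN, en, Pi.single_apply]
  have e2 : BN w (en 6) = - (1/2) := by
    have := hM.1 (en 0) (en 6)
    rw [h6, ← hw] at this
    rw [this]
    simp [BN, en, Pi.single_apply]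
  have hw0 : w 0 = 1 := by linarith
  have hq : BN w w = 0 := by
    rw [hw, hM.1]
    simp [BN, en, Pi.single_apply]
  have h3 := nlo_en0 w hw0 hq
  have h4 := nlo_en6 w
  have hin : InN (word (nlo w)) := word_InN _
  have hadj : adjN (word (nlo w)) * word (nlo w) = 1 := adjN_mul _ hin.1
  refine ⟨adjN (word (nlo w)), Gen_inv ⟨_, rfl⟩ hadj, ?_, ?_⟩
  · rw [← Matrix.mulVec_mulVec, h6]
    conv_lhs => rw [← h4]
    rw [Matrix.mulVec_mulVec, hadj, Matrix.one_mulVec]
  · rw [← Matrix.mulVec_mulVec, ← hw]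
    have h5 : adjN (word (nlo w)) *ᵥ (word (nlo w) *ᵥ en 0) = en 0 := by
      rw [Matrix.mulVec_mulVec, hadj, Matrix.one_mulVec]
    rwa [h3] at h5

/-- Proof: by `InN_fix3` (c = 1) and `InN_stab`, M = iN A, det A = 1; `M *ᵥ en 6 = en 6` says that the last column of A is (0,0,1);
`M *ᵥ en 0 = en 0` says cof A 2 2 = 1, cof A 1 2 = 0, cof A 0 2 = 0; A 2 0 = A 2 1 = 0 follows, and `Gen_block`. -/
theorem B08_last (M : Mat) (hM : InN M) (h6 : M *ᵥ en 6 = en 6) (h0 : M *ᵥ en 0 = en 0) : Gen M := by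
  have h3 := InN_fix3 M hM 1 one_ne_zero (by rw [one_smul]; exact h6) (by rw [inv_one, one_smul]; exact h0)
  obtain ⟨A, hA, rfl⟩ := InN_stab M hM h3
  have c6 : ∀ k, (iN A *ᵥ en 6) k = iN A k 6 := by
    intro k; simp [en, Matrix.mulVec, dotProduct, Pi.single_apply]
  have c0 : ∀ k, (iN A *ᵥ en 0) k = iN A k 0 := by
    intro k; simp [en, Matrix.mulVec, dotProduct, Pi.single_apply]
  have a02 : A 0 2 = 0 := by
    have := congrFun h6 1
    rw [c6] at this
    simpa [iN, en, Pi.single_apply] using this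
  have a12 : A 1 2 = 0 := by
    have := congrFun h6 2
    rw [c6] at this
    simpa [iN, en, Pi.single_apply] using this
  have a22 : A 2 2 = 1 := by
    have := congrFun h6 6
    rw [c6] at this
    simpa [iN, en, Pi.single_apply] using this
  have k22 : cof A 2 2 = 1 := by
    have := congrFun h0 0
    rw [c0] at this
    simpa [iN, en, Pi.single_apply] using this
  have k12 : cof A 1 2 = 0 := by
    have := congrFun h0 4
    rw [c0] at this
    simpa [iN, en, Pi.single_apply] using this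
  have k02 : cof A 0 2 = 0 := by
    have := congrFun h0 5
    rw [c0] at this
    simpa [iN, en, Pi.single_apply] using this
  simp [cof] at k22 k12 k02
  have a20 : A 2 0 = 0 := by
    linear_combination (-(A 2 0)) * k22 + (-(A 0 0)) * k02 + (- (A 1 0)) * k12
  have a21 : A 2 1 = 0 := by
    linear_combination (-(A 2 1)) * k22 + (-(A 0 1)) * k02 + (- (A 1 1)) * k12
  have hAeq : A = !![A 0 0, A 0 1, 0; A 1 0, A 1 1, 0; 0, 0, 1] := by
    ext i j
    fin_cases i <;> fin_cases j <;> simp [a02, a12, a22, a20, a21]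
  rw [hAeq]
  exact Gen_block _ _ _ _ k22

/-- Main generation theorem.  Proof: `v = M *ᵥ en 6` is a nonzero null vector, `exists_to_null` gives N ∈ Gen, N *ᵥ en 6 = v, so
adjN N * M fixes en 6; then `B08_step`, `B08_last`; use `Gen_inv`, `Gen_mul`, `InN_adjN`, `word_InN`. -/
theorem InN_Gen (M : Mat) (hM : InN M) : Gen M := by
  have hinv := adjN_mul M hM.1
  have hne : M *ᵥ en 6 ≠ 0 := by
    intro h
    have h1 : adjN M *ᵥ (M *ᵥ en 6) = en 6 := by rw [Matrix.mulVec_mulVec, hinv, Matrix.one_mulVec]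
    rw [h, Matrix.mulVec_zero] at h1
    have := congrFun h1 6
    simp [en] at this
  have hq : BN (M *ᵥ en 6) (M *ᵥ en 6) = 0 := by
    rw [hM.1]
    simp [BN, en, Pi.single_apply]
  obtain ⟨N, hN, hN6⟩ := exists_to_null _ hne hq
  have hNin := B08_gen_in hN
  have hNadj : adjN N * N = 1 := adjN_mul N hNin.1
  have hNadj' : N * adjN N = 1 := mul_adjN N hNin.1
  have h1 : InN (adjN N * M) := InN_mul (InN_adjN N hNin) hM
  have h2 : (adjN N * M) *ᵥ en 6 = en 6 := by
    rw [← Matrix.mulVec_mulVec, ← hN6, Matrix.mulVec_mulVec, hNadj, Matrix.one_mulVec]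
  obtain ⟨N2, hN2, h26, h20⟩ := B08_step _ h1 h2
  have hN2in := B08_gen_in hN2
  have h3 : Gen (N2 * (adjN N * M)) := B08_last _ (InN_mul hN2in h1) h26 h20
  have h4 : Gen (adjN N2) := Gen_inv hN2 (adjN_mul N2 hN2in.1)
  have h5 : M = N * (adjN N2 * (N2 * (adjN N * M))) := by
    rw [← Matrix.mul_assoc (adjN N2), adjN_mul N2 hN2in.1, Matrix.one_mul, ← Matrix.mul_assoc, hNadj', Matrix.one_mul]
  rw [h5]
  exact Gen_mul hN (Gen_mul h4 h3)

theorem Gen_InN (M : Mat) (hM : Gen M) : InN M := by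
  obtain ⟨l, rfl⟩ := hM
  exact word_InN l

end C37.PGX
end
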