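import Mathlib
import Pool.Agent.Lib.MP_c37615_al.Mg.G011

section

/-!
MP_c37615_al (S02984), part GX, task E02: frames (e,u1,u2,u3).
-/

set_option autoImplicit false
set_option linter.all false

open Matrix

namespace C37.PGX

theorem crossN_anti (u v : V) : crossN u v = - crossN v u := by
  ext i; fin_cases i <;> simp [crossN] <;> ring

theorem crossN_self (u : V) : crossN u u = 0 := by
  ext i; fin_cases i <;> simp [crossN] <;> ring

theorem BN_symm (u v : V) : BN u v = BN v u := by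
  simp [BN]; ring

/-- `BN (u × v) w` is alternating -/
theorem BN_crossN_cyc (u v w : V) : BN (crossN u v) w = BN (crossN v w) u := by
  simp [BN, crossN]; ring

theorem BN_crossN_swap (u v w : V) : BN (crossN u v) w = - BN (crossN v u) w := by
  simp [BN, crossN]; ring

/-- (I2) -/
theorem crossN_crossN (u v : V) : crossN u (crossN u v) = (-(BN u u)) • v + (BN u v) • u := by
  ext i; fin_cases i <;> simp [crossN, BN] <;> ring

/-- polarised (I2) -/
theorem crossN_polar (u v w : V) : crossN u (crossN v w) + crossN v (crossN u w) =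
    (-2 * BN u v) • w + (BN u w) • v + (BN v w) • u := by
  ext i; fin_cases i <;> simp [crossN, BN] <;> ring

/-- the matrix of the linear map with x1 ↦ u1, x2 ↦ u2, x3 ↦ u3, va ↦ e, y3 ↦ u1 × u2, y1 ↦ u2 × u3, y2 ↦ u3 × u1 (null coordinates) -/
noncomputable def frameM (e u1 u2 u3 : V) : Mat :=
  Matrix.of fun i j => (![crossN u1 u2, u1, u2, e, crossN u3 u1, crossN u2 u3, u3] : Fin 7 → V) j i

/-- a W-frame -/
structure Frame (e u1 u2 u3 : V) : Prop where
  he : BN e e = -1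
  h1 : crossN e u1 = u1
  h2 : crossN e u2 = u2
  h3 : crossN e u3 = u3
  h123 : BN (crossN u1 u2) u3 = -1/2

theorem BN_nondeg (d : V) (h : ∀ i : Fin 7, BN d (en i) = 0) : d = 0 := by
  have h0 := h 0; have h1 := h 1; have h2 := h 2; have h3 := h 3; have h4 := h 4; have h5 := h 5; have h6 := h 6
  simp [BN] at h0 h1 h2 h3 h4 h5 h6
  ext i; fin_cases i <;> simp <;> linarith

/-- `BN` as a bilinear map -/
noncomputable def E02_BNl : V →ₗ[ℝ] V →ₗ[ℝ] ℝ :=
  LinearMap.mk₂ ℝ BN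
    (by intro a b c; simp [BN]; ring) (by intro a b c; simp [BN]; ring)
    (by intro a b c; simp [BN]; ring) (by intro a b c; simp [BN]; ring)

/-- `crossN` as a bilinear map -/
noncomputable def E02_Cl : V →ₗ[ℝ] V →ₗ[ℝ] V :=
  LinearMap.mk₂ ℝ crossN
    (by intro a b c; ext i; fin_cases i <;> simp [crossN] <;> ring)
    (by intro a b c; ext i; fin_cases i <;> simp [crossN] <;> ring)
    (by intro a b c; ext i; fin_cases i <;> simp [crossN] <;> ring)
    (by intro a b c; ext i; fin_cases i <;> simp [crossN] <;> ring)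

/-- enough to check on the basis vectors (bilinearity): `M *ᵥ u = Σ u i • M *ᵥ en i` -/
theorem BN_of_basis (M : Mat) (h1 : ∀ i j : Fin 7, i ≤ j → BN (M *ᵥ en i) (M *ᵥ en j) = BN (en i) (en j)) (u v : V) :
    BN (M *ᵥ u) (M *ᵥ v) = BN u v := by
  have h2 : ∀ i j : Fin 7, BN (M *ᵥ en i) (M *ᵥ en j) = BN (en i) (en j) := by
    intro i j
    rcases le_total i j with h | h
    · exact h1 i j h
    · rw [BN_symm, h1 j i h, BN_symm]
  have key : E02_BNl.compl₁₂ (Matrix.mulVecLin M) (Matrix.mulVecLin M) = E02_BNl := by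
    apply (Pi.basisFun ℝ (Fin 7)).ext
    intro i
    apply (Pi.basisFun ℝ (Fin 7)).ext
    intro j
    simpa [E02_BNl] using h2 i j
  have := congrArg (fun f => f u v) key
  simpa [E02_BNl] using this

/-- the same for the cross product (antisymmetric) -/
theorem crossN_of_basis (M : Mat)
    (h2 : ∀ i j : Fin 7, i < j → crossN (M *ᵥ en i) (M *ᵥ en j) = M *ᵥ (crossN (en i) (en j))) (u v : V) :
    crossN (M *ᵥ u) (M *ᵥ v) = M *ᵥ (crossN u v) := by
  have h3 : ∀ i j : Fin 7, crossN (M *ᵥ en i) (M *ᵥ en j) = M *ᵥ (crossN (en i) (en j)) := by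
    intro i j
    rcases lt_trichotomy i j with h | h | h
    · exact h2 i j h
    · rw [h, crossN_self, crossN_self, Matrix.mulVec_zero]
    · rw [crossN_anti, h2 j i h, crossN_anti (en i) (en j), Matrix.mulVec_neg]
  have key : E02_Cl.compl₁₂ (Matrix.mulVecLin M) (Matrix.mulVecLin M) = E02_Cl.compr₂ (Matrix.mulVecLin M) := by
    apply (Pi.basisFun ℝ (Fin 7)).ext
    intro i
    apply (Pi.basisFun ℝ (Fin 7)).ext
    intro j
    simpa [E02_Cl] using h3 i j
  have := congrArg (fun f => f u v) key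
  simpa [E02_Cl] using this

/-- scalar products in a frame: u's are null, mutually orthogonal and orthogonal to e.
Proof: BN e u_i = BN e (e × u_i) = BN (u_i × e) e.. = 0 (`BN_crossN_cyc`, `crossN_self`); BN u_i u_j = BN (e × u_i) u_j = - BN (e × u_j) u_i = - BN u_j u_i. -/
theorem frame_null (e u1 u2 u3 : V) (h : Frame e u1 u2 u3) :
    BN e u1 = 0 ∧ BN e u2 = 0 ∧ BN e u3 = 0 ∧ BN u1 u1 = 0 ∧ BN u2 u2 = 0 ∧ BN u3 u3 = 0 ∧
    BN u1 u2 = 0 ∧ BN u2 u3 = 0 ∧ BN u3 u1 = 0 := by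
  have A : ∀ u : V, crossN e u = u → BN e u = 0 := by
    intro u hu
    have h1 := BN_crossN_cyc e u e
    have h2 := BN_crossN_swap e u e
    rw [hu] at h1 h2
    have h3 := BN_symm e u
    linarith
  have C : ∀ u v : V, crossN e u = u → crossN e v = v → BN u v = 0 := by
    intro u v hu hv
    -- BN u v = BN (e × u) v = BN (u × v) e = - BN (v × u) e = - BN (e × v) u = - BN v u
    have h1 := BN_crossN_cyc e u v
    have h2 := BN_crossN_swap u v e
    have h3 := BN_crossN_cyc e v u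
    rw [hu] at h1
    rw [hv] at h3
    have h4 := BN_symm u v
    linarith
  exact ⟨A _ h.h1, A _ h.h2, A _ h.h3, C _ _ h.h1 h.h1, C _ _ h.h2 h.h2, C _ _ h.h3 h.h3,
    C _ _ h.h1 h.h2, C _ _ h.h2 h.h3, C _ _ h.h3 h.h1⟩

/-- products with Y1 = u2 × u3, Y2 = u3 × u1, Y3 = u1 × u2.
e × Y3 = e × (u1 × u2) = - u1 × (e × u2) - 2 BN e u1 u2 + ... = - u1 × u2 (`crossN_polar` with (e,u1,u2));
u1 × Y2 = u1 × (u3 × u1) = - u1 × (u1 × u3) = 0 (`crossN_crossN`), u1 × Y3 = u1 × (u1 × u2) = 0, etc. -/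
theorem frame_prod1 (e u1 u2 u3 : V) (h : Frame e u1 u2 u3) :
    crossN e (crossN u1 u2) = - crossN u1 u2 ∧ crossN e (crossN u2 u3) = - crossN u2 u3 ∧ crossN e (crossN u3 u1) = - crossN u3 u1 ∧
    crossN u1 (crossN u3 u1) = 0 ∧ crossN u1 (crossN u1 u2) = 0 ∧ crossN u2 (crossN u1 u2) = 0 ∧ crossN u2 (crossN u2 u3) = 0 ∧
    crossN u3 (crossN u2 u3) = 0 ∧ crossN u3 (crossN u3 u1) = 0 := by
  obtain ⟨e1, e2, e3, n1, n2, n3, m12, m23, m31⟩ := frame_null e u1 u2 u3 h
  have P : ∀ u v : V, crossN e u = u → crossN e v = v → BN e u = 0 → BN e v = 0 → BN u v = 0 →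
      crossN e (crossN u v) = - crossN u v := by
    intro u v hu hv h1 h2 h3
    have := crossN_polar e u v
    rw [h1, h2, h3, hv] at this
    simp only [mul_zero, zero_smul, add_zero] at this
    exact eq_neg_of_add_eq_zero_left this
  have Q : ∀ u v : V, BN u u = 0 → BN u v = 0 → crossN u (crossN u v) = 0 := by
    intro u v h1 h2
    rw [crossN_crossN, h1, h2]; simp
  have R : ∀ u v : V, BN u u = 0 → BN u v = 0 → crossN u (crossN v u) = 0 := by
    intro u v h1 h2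
    rw [crossN_anti v u]
    have h3 := Q u v h1 h2
    have : crossN u (-crossN u v) = - crossN u (crossN u v) := by
      ext i; fin_cases i <;> simp [crossN] <;> ring
    rw [this, h3, neg_zero]
  have m13 : BN u1 u3 = 0 := by rw [BN_symm]; exact m31
  have m21 : BN u2 u1 = 0 := by rw [BN_symm]; exact m12
  have m32 : BN u3 u2 = 0 := by rw [BN_symm]; exact m23
  exact ⟨P _ _ h.h1 h.h2 e1 e2 m12, P _ _ h.h2 h.h3 e2 e3 m23, P _ _ h.h3 h.h1 e3 e1 m31,
    R _ _ n1 m13, Q _ _ n1 m12, R _ _ n2 m21, Q _ _ n2 m23, R _ _ n3 m32, Q _ _ n3 m31⟩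

/-- scalar products with the Y's: BN u_i Y_i = -1/2 (`BN_crossN_cyc`), BN u_i Y_j = 0 (i ≠ j), BN e Y_i = BN (e × ..).. = 0, BN Y_i Y_j = 0
(same proof as for the u's with e × Y = - Y). -/
theorem frame_null2 (e u1 u2 u3 : V) (h : Frame e u1 u2 u3) :
    BN u1 (crossN u2 u3) = -1/2 ∧ BN u2 (crossN u3 u1) = -1/2 ∧ BN u3 (crossN u1 u2) = -1/2 ∧
    BN u1 (crossN u3 u1) = 0 ∧ BN u1 (crossN u1 u2) = 0 ∧ BN u2 (crossN u1 u2) = 0 ∧ BN u2 (crossN u2 u3) = 0 ∧
    BN u3 (crossN u2 u3) = 0 ∧ BN u3 (crossN u3 u1) = 0 ∧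
    BN e (crossN u1 u2) = 0 ∧ BN e (crossN u2 u3) = 0 ∧ BN e (crossN u3 u1) = 0 ∧
    BN (crossN u1 u2) (crossN u1 u2) = 0 ∧ BN (crossN u2 u3) (crossN u2 u3) = 0 ∧ BN (crossN u3 u1) (crossN u3 u1) = 0 ∧
    BN (crossN u1 u2) (crossN u2 u3) = 0 ∧ BN (crossN u2 u3) (crossN u3 u1) = 0 ∧ BN (crossN u3 u1) (crossN u1 u2) = 0 := by
  obtain ⟨e1, e2, e3, n1, n2, n3, m12, m23, m31⟩ := frame_null e u1 u2 u3 h
  obtain ⟨p1, p2, p3, -⟩ := frame_prod1 e u1 u2 u3 h
  -- BN u (v × w) for repeated arguments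
  have S1 : ∀ u v : V, BN u (crossN u v) = 0 := by
    intro u v
    simp [BN, crossN]; ring
  have S2 : ∀ u v : V, BN u (crossN v u) = 0 := by
    intro u v
    simp [BN, crossN]; ring
  have A : ∀ u : V, crossN e u = -u → BN e u = 0 := by
    intro u hu
    have h1 := S1 e u
    rw [hu] at h1
    have : BN e (-u) = - BN e u := by simp [BN]; ring
    linarith
  have C : ∀ u v : V, crossN e u = -u → crossN e v = -v → BN u v = 0 := by
    intro u v hu hv
    have h1 := BN_crossN_cyc e u v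
    have h2 := BN_crossN_swap u v e
    have h3 := BN_crossN_cyc e v u
    rw [hu] at h1
    rw [hv] at h3
    have h4 := BN_symm u v
    have h5 : BN (-u) v = - BN u v := by simp [BN]; ring
    have h6 : BN (-v) u = - BN v u := by simp [BN]; ring
    linarith
  have T1 : BN u1 (crossN u2 u3) = -1/2 := by
    have := BN_crossN_cyc u1 u2 u3
    rw [BN_symm, ← this]; exact h.h123
  have T2 : BN u2 (crossN u3 u1) = -1/2 := by
    have h1 := BN_crossN_cyc u1 u2 u3
    have h2 := BN_crossN_cyc u2 u3 u1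
    rw [BN_symm, ← h2, ← h1]; exact h.h123
  have T3 : BN u3 (crossN u1 u2) = -1/2 := by
    rw [BN_symm]; exact h.h123
  exact ⟨T1, T2, T3, S2 _ _, S1 _ _, S2 _ _, S1 _ _, S2 _ _, S1 _ _, A _ p1, A _ p2, A _ p3,
    C _ _ p1 p1, C _ _ p2 p2, C _ _ p3 p3, C _ _ p1 p2, C _ _ p2 p3, C _ _ p3 p1⟩

/-- the frame matrix preserves BN: `BN_of_basis` and the tables; `frameM .. *ᵥ en j` = column j -/
theorem frame_BN (e u1 u2 u3 : V) (h : Frame e u1 u2 u3) (u v : V) :
    BN (frameM e u1 u2 u3 *ᵥ u) (frameM e u1 u2 u3 *ᵥ v) = BN u v := by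
  obtain ⟨e1, e2, e3, n1, n2, n3, m12, m23, m31⟩ := frame_null e u1 u2 u3 h
  obtain ⟨a1, a2, a3, a4, a5, a6, a7, a8, a9, b1, b2, b3, c1, c2, c3, d1, d2, d3⟩ := frame_null2 e u1 u2 u3 h
  have hc : ∀ j : Fin 7, frameM e u1 u2 u3 *ᵥ en j =
      (![crossN u1 u2, u1, u2, e, crossN u3 u1, crossN u2 u3, u3] : Fin 7 → V) j := by
    intro j
    ext i
    simp [frameM, Matrix.mulVec_single]
  have hR : ∀ i j : Fin 7, BN (en i) (en j) = if i.val + j.val = 6 then (if i.val = 3 then -1 else -1/2) else 0 := by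
    intro i j
    fin_cases i <;> fin_cases j <;> simp [BN] <;> norm_num
  apply BN_of_basis
  intro i j hij
  rw [hc, hc, hR]
  have he := h.he
  fin_cases i <;> fin_cases j <;>
    first
    | (exfalso; revert hij; decide)
    | skip
  all_goals simp
  all_goals
    first
    | assumption
    | (rw [BN_symm]; assumption)
    | (norm_num at *; assumption)
    | (norm_num at *; rw [BN_symm]; assumption)

end C37.PGX
end

section

/-!
MP_c37615_al (S02984), part GX, task E03: the frame matrix lies in G.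
-/

set_option autoImplicit false
set_option linter.all false

open Matrix

namespace C37.PGX

/-- Y2 × Y3 = -u1 etc.: `crossN (crossN u3 u1) (crossN u1 u2)`: with Y = Y2 = u3 × u1: Y2 × (u1 × u2) = - u1 × (Y2 × u2) - 2 BN Y2 u1 u2 + BN Y2 u2 u1 + BN u1 u2 Y2
(`crossN_polar` with (Y2, u1, u2)) `= - u1 × (Y2 × u2) - (1/2) u1`; this uses u2 × Y2: see below.  Better choose the other order:
Y2 × Y3 = - Y3 × (u3 × u1) and `crossN_polar` (Y3, u3, u1): Y3 × (u3 × u1) = - u3 × (Y3 × u1) - 2 BN Y3 u3 u1 + BN Y3 u1 u3 + BN u3 u1 Y3 = 0 + u1 + 0 + 0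
(Y3 × u1 = 0 by `frame_prod1`, BN Y3 u3 = -1/2, BN Y3 u1 = 0).  So Y2 × Y3 = - u1, and cyclically. -/
theorem frame_YY (e u1 u2 u3 : V) (h : Frame e u1 u2 u3) :
    crossN (crossN u3 u1) (crossN u1 u2) = -u1 ∧ crossN (crossN u1 u2) (crossN u2 u3) = -u2 ∧
    crossN (crossN u2 u3) (crossN u3 u1) = -u3 := by
  obtain ⟨e1, e2, e3, n1, n2, n3, m12, m23, m31⟩ := frame_null e u1 u2 u3 h
  obtain ⟨p1, p2, p3, q1, q2, q3, q4, q5, q6⟩ := frame_prod1 e u1 u2 u3 h
  obtain ⟨a1, a2, a3, a4, a5, a6, a7, a8, a9, b1, b2, b3, c1, c2, c3, d1, d2, d3⟩ := frame_null2 e u1 u2 u3 h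
  -- general: Y with BN Y u = -1/2, BN Y v = 0, BN u v = 0, Y × v = 0 gives Y × (u × v) = v
  have G : ∀ Y u v : V, BN u Y = -1/2 → BN v Y = 0 → BN u v = 0 → crossN v Y = 0 → crossN Y (crossN u v) = v := by
    intro Y u v h1 h2 h3 h4
    have h5 := crossN_polar Y u v
    have h6 : crossN Y v = 0 := by rw [crossN_anti, h4, neg_zero]
    have h7 : crossN u 0 = 0 := by ext i; fin_cases i <;> simp [crossN]
    rw [h6, h7, BN_symm Y u, h1, BN_symm Y v, h2, h3, show (-2 * (-1/2) : ℝ) = 1 by norm_num] at h5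
    simpa using h5
  refine ⟨?_, ?_, ?_⟩
  · rw [crossN_anti, G (crossN u1 u2) u3 u1 a3 a5 m31 q2]
  · rw [crossN_anti, G (crossN u2 u3) u1 u2 a1 a7 m12 q4]
  · rw [crossN_anti, G (crossN u3 u1) u2 u3 a2 a9 m23 q6]

/-- u_i × Y_i = e / 2.  Proof for i = 1: d = u1 × Y1 - (1/2) e satisfies BN d f = 0 for each f ∈ {e, u1, u2, u3, Y1, Y2, Y3}:
BN (u1 × Y1) e = BN (e × u1) Y1 = BN u1 Y1 = -1/2 = (1/2) BN e e; BN (u1 × Y1) u_j = BN (u_j × u1) Y1 = ± BN Y_k Y1 = 0; BN (u1 × Y1) Y_j = ± BN (Y1 × Y_j) u1 = ± BN u_k u1 = 0 (`frame_YY`).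
These are the columns of M = frameM, and M preserves BN (`frame_BN`) so is surjective (`mul_adjN`); `BN_nondeg`: d = 0. -/
theorem frame_uY (e u1 u2 u3 : V) (h : Frame e u1 u2 u3) :
    crossN u1 (crossN u2 u3) = (1/2 : ℝ) • e ∧ crossN u2 (crossN u3 u1) = (1/2 : ℝ) • e ∧
    crossN u3 (crossN u1 u2) = (1/2 : ℝ) • e := by
  obtain ⟨e1, e2, e3, n1, n2, n3, m12, m23, m31⟩ := frame_null e u1 u2 u3 h
  obtain ⟨p1, p2, p3, q1, q2, q3, q4, q5, q6⟩ := frame_prod1 e u1 u2 u3 h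
  obtain ⟨a1, a2, a3, a4, a5, a6, a7, a8, a9, b1, b2, b3, c1, c2, c3, d1, d2, d3⟩ := frame_null2 e u1 u2 u3 h
  have z : ∀ v : V, crossN v 0 = 0 := by intro v; ext i; fin_cases i <;> simp [crossN]
  -- all equal
  have E12 : crossN u1 (crossN u2 u3) = crossN u2 (crossN u3 u1) := by
    have h5 := crossN_polar u1 u2 u3
    rw [m12, BN_symm u1 u3, m31, m23] at h5
    simp only [mul_zero, zero_smul, add_zero] at h5
    have h6 : crossN u2 (crossN u3 u1) = - crossN u2 (crossN u1 u3) := by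
      rw [crossN_anti u3 u1]
      ext i; fin_cases i <;> simp [crossN] <;> ring
    rw [h6]
    exact eq_neg_of_add_eq_zero_left h5
  have E23 : crossN u2 (crossN u3 u1) = crossN u3 (crossN u1 u2) := by
    have h5 := crossN_polar u2 u3 u1
    rw [m23, BN_symm u2 u1, m12, m31] at h5
    simp only [mul_zero, zero_smul, add_zero] at h5
    have h6 : crossN u3 (crossN u1 u2) = - crossN u3 (crossN u2 u1) := by
      rw [crossN_anti u1 u2]
      ext i; fin_cases i <;> simp [crossN] <;> ring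
    rw [h6]
    exact eq_neg_of_add_eq_zero_left h5
  obtain ⟨y1, y2, y3⟩ := frame_YY e u1 u2 u3 h
  set M := frameM e u1 u2 u3 with hM
  have hc : ∀ j : Fin 7, M *ᵥ en j =
      (![crossN u1 u2, u1, u2, e, crossN u3 u1, crossN u2 u3, u3] : Fin 7 → V) j := by
    intro j
    ext i
    simp [hM, frameM, Matrix.mulVec_single]
  have key : crossN u1 (crossN u2 u3) = (1/2 : ℝ) • e := by
    rw [← sub_eq_zero]
    apply BN_nondeg
    intro i
    -- write en i = M *ᵥ w
    have hsurj : en i = M *ᵥ (adjN M *ᵥ en i) := by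
      rw [Matrix.mulVec_mulVec, mul_adjN M (frame_BN e u1 u2 u3 h), Matrix.one_mulVec]
    have lin : ∀ (d a b : V) , BN d (a + b) = BN d a + BN d b := by
      intro d a b; simp [BN]; ring
    have lin2 : ∀ (d a b : V) , BN (d - a) b = BN d b - BN a b := by
      intro d a b; simp [BN]; ring
    have lin3 : ∀ (c : ℝ) (a b : V) , BN (c • a) b = c * BN a b := by
      intro d a b; simp [BN]; ring
    have hb : ∀ j : Fin 7, BN (crossN u1 (crossN u2 u3) - (1/2 : ℝ) • e) (M *ᵥ en j) = 0 := by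
      intro j
      rw [hc, lin2, lin3]
      have t1 : BN (crossN u1 (crossN u2 u3)) e = -1/2 := by
        rw [BN_crossN_cyc, BN_crossN_cyc, h.h1]; exact a1
      have t2 : BN (crossN u1 (crossN u2 u3)) u1 = 0 := by simp [BN, crossN]; ring
      have t3 : BN (crossN u1 (crossN u2 u3)) u2 = 0 := by
        rw [E12]; simp [BN, crossN]; ring
      have t4 : BN (crossN u1 (crossN u2 u3)) u3 = 0 := by
        rw [E12, E23]; simp [BN, crossN]; ring
      have t5 : BN (crossN u1 (crossN u2 u3)) (crossN u2 u3) = 0 := by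
        generalize crossN u2 u3 = Y
        simp [BN, crossN]; ring
      have t6 : BN (crossN u1 (crossN u2 u3)) (crossN u3 u1) = 0 := by
        rw [E12]
        generalize crossN u3 u1 = Y
        simp [BN, crossN]; ring
      have t7 : BN (crossN u1 (crossN u2 u3)) (crossN u1 u2) = 0 := by
        rw [E12, E23]
        generalize crossN u1 u2 = Y
        simp [BN, crossN]; ring
      have he := h.he
      fin_cases j <;> simp
      · rw [t7, b1]; ring
      · rw [t2, e1]; ring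
      · rw [t3, e2]; ring
      · rw [t1, he]; ring
      · rw [t6, b3]; ring
      · rw [t5, b2]; ring
      · rw [t4, e3]; ring
    rw [hsurj]
    generalize adjN M *ᵥ en i = w
    have hw : M *ᵥ w = w 0 • M *ᵥ en 0 + w 1 • M *ᵥ en 1 + w 2 • M *ᵥ en 2 + w 3 • M *ᵥ en 3 + w 4 • M *ᵥ en 4
        + w 5 • M *ᵥ en 5 + w 6 • M *ᵥ en 6 := by
      rw [← Matrix.mulVec_smul, ← Matrix.mulVec_smul, ← Matrix.mulVec_smul, ← Matrix.mulVec_smul, ← Matrix.mulVec_smul,
        ← Matrix.mulVec_smul, ← Matrix.mulVec_smul, ← Matrix.mulVec_add, ← Matrix.mulVec_add, ← Matrix.mulVec_add,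
        ← Matrix.mulVec_add, ← Matrix.mulVec_add, ← Matrix.mulVec_add]
      congr 1
      ext k
      fin_cases k <;> simp
    have lin4 : ∀ (c : ℝ) (a b : V) , BN a (c • b) = c * BN a b := by
      intro d a b; simp [BN]; ring
    rw [hw, lin, lin, lin, lin, lin, lin, lin4, lin4, lin4, lin4, lin4, lin4, lin4, hb, hb, hb, hb, hb, hb, hb]
    ring
  exact ⟨key, E12 ▸ key, E23 ▸ E12 ▸ key⟩

/-- by `frame_BN`, `crossN_of_basis` and the tables (`frameM e u1 u2 u3 *ᵥ en j` = column j) -/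
theorem frame_InN (e u1 u2 u3 : V) (h : Frame e u1 u2 u3) : InN (frameM e u1 u2 u3) := by
  obtain ⟨p1, p2, p3, q1, q2, q3, q4, q5, q6⟩ := frame_prod1 e u1 u2 u3 h
  obtain ⟨y1, y2, y3⟩ := frame_YY e u1 u2 u3 h
  obtain ⟨r1, r2, r3⟩ := frame_uY e u1 u2 u3 h
  refine ⟨frame_BN e u1 u2 u3 h, ?_⟩
  apply crossN_of_basis
  intro i j hij
  set M := frameM e u1 u2 u3 with hM
  have hc : ∀ j : Fin 7, M *ᵥ en j =
      (![crossN u1 u2, u1, u2, e, crossN u3 u1, crossN u2 u3, u3] : Fin 7 → V) j := by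
    intro j
    ext i
    simp [hM, frameM, Matrix.mulVec_single]
  have g0 := hc 0
  have g1 := hc 1
  have g2 := hc 2
  have g3 := hc 3
  have g4 := hc 4
  have g5 := hc 5
  have g6 := hc 6
  simp only [Matrix.cons_val_zero, Matrix.cons_val_one, Matrix.cons_val, Fin.isValue] at g0 g1 g2 g3 g4 g5 g6
  have h1 := h.h1
  have h2 := h.h2
  have h3 := h.h3
  have t01 : crossN (en 0) (en 1) = 0 := by ext k; fin_cases k <;> simp [crossN]
  have t02 : crossN (en 0) (en 2) = 0 := by ext k; fin_cases k <;> simp [crossN]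
  have t03 : crossN (en 0) (en 3) = en 0 := by ext k; fin_cases k <;> simp [crossN]
  have t04 : crossN (en 0) (en 4) = en 1 := by ext k; fin_cases k <;> simp [crossN]
  have t05 : crossN (en 0) (en 5) = -en 2 := by ext k; fin_cases k <;> simp [crossN]
  have t06 : crossN (en 0) (en 6) = (-(1/2) : ℝ) • en 3 := by ext k; fin_cases k <;> simp [crossN]
  have t12 : crossN (en 1) (en 2) = en 0 := by ext k; fin_cases k <;> simp [crossN]
  have t13 : crossN (en 1) (en 3) = -en 1 := by ext k; fin_cases k <;> simp [crossN]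
  have t14 : crossN (en 1) (en 4) = 0 := by ext k; fin_cases k <;> simp [crossN]
  have t15 : crossN (en 1) (en 5) = (1/2 : ℝ) • en 3 := by ext k; fin_cases k <;> simp [crossN]
  have t16 : crossN (en 1) (en 6) = -en 4 := by ext k; fin_cases k <;> simp [crossN]
  have t23 : crossN (en 2) (en 3) = -en 2 := by ext k; fin_cases k <;> simp [crossN]
  have t24 : crossN (en 2) (en 4) = (1/2 : ℝ) • en 3 := by ext k; fin_cases k <;> simp [crossN]
  have t25 : crossN (en 2) (en 5) = 0 := by ext k; fin_cases k <;> simp [crossN]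
  have t26 : crossN (en 2) (en 6) = en 5 := by ext k; fin_cases k <;> simp [crossN]
  have t34 : crossN (en 3) (en 4) = -en 4 := by ext k; fin_cases k <;> simp [crossN]
  have t35 : crossN (en 3) (en 5) = -en 5 := by ext k; fin_cases k <;> simp [crossN]
  have t36 : crossN (en 3) (en 6) = en 6 := by ext k; fin_cases k <;> simp [crossN]
  have t45 : crossN (en 4) (en 5) = en 6 := by ext k; fin_cases k <;> simp [crossN]
  have t46 : crossN (en 4) (en 6) = 0 := by ext k; fin_cases k <;> simp [crossN]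
  have t56 : crossN (en 5) (en 6) = 0 := by ext k; fin_cases k <;> simp [crossN]
  fin_cases i <;> fin_cases j <;>
    first
    | (exfalso; revert hij; decide)
    | skip
  · change crossN (M *ᵥ en 0) (M *ᵥ en 1) = M *ᵥ crossN (en 0) (en 1)
    rw [t01, Matrix.mulVec_zero, g0, g1, crossN_anti, q2, neg_zero]
  · change crossN (M *ᵥ en 0) (M *ᵥ en 2) = M *ᵥ crossN (en 0) (en 2)
    rw [t02, Matrix.mulVec_zero, g0, g2, crossN_anti, q3, neg_zero]
  · change crossN (M *ᵥ en 0) (M *ᵥ en 3) = M *ᵥ crossN (en 0) (en 3)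
    rw [t03, g0, g3, crossN_anti, p1, neg_neg]
  · change crossN (M *ᵥ en 0) (M *ᵥ en 4) = M *ᵥ crossN (en 0) (en 4)
    rw [t04, g0, g4, g1, crossN_anti, y1, neg_neg]
  · change crossN (M *ᵥ en 0) (M *ᵥ en 5) = M *ᵥ crossN (en 0) (en 5)
    rw [t05, g0, g5, Matrix.mulVec_neg, g2, y2]
  · change crossN (M *ᵥ en 0) (M *ᵥ en 6) = M *ᵥ crossN (en 0) (en 6)
    rw [t06, g0, g6, Matrix.mulVec_smul, g3, crossN_anti, r3, neg_smul]
  · change crossN (M *ᵥ en 1) (M *ᵥ en 2) = M *ᵥ crossN (en 1) (en 2)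
    rw [t12, g1, g2, g0]
  · change crossN (M *ᵥ en 1) (M *ᵥ en 3) = M *ᵥ crossN (en 1) (en 3)
    rw [t13, g1, g3, Matrix.mulVec_neg, g1, crossN_anti, h1]
  · change crossN (M *ᵥ en 1) (M *ᵥ en 4) = M *ᵥ crossN (en 1) (en 4)
    rw [t14, g1, g4, Matrix.mulVec_zero, q1]
  · change crossN (M *ᵥ en 1) (M *ᵥ en 5) = M *ᵥ crossN (en 1) (en 5)
    rw [t15, g1, g5, Matrix.mulVec_smul, g3, r1]
  · change crossN (M *ᵥ en 1) (M *ᵥ en 6) = M *ᵥ crossN (en 1) (en 6)
    rw [t16, g1, g6, Matrix.mulVec_neg, g4, crossN_anti]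
  · change crossN (M *ᵥ en 2) (M *ᵥ en 3) = M *ᵥ crossN (en 2) (en 3)
    rw [t23, g2, g3, Matrix.mulVec_neg, g2, crossN_anti, h2]
  · change crossN (M *ᵥ en 2) (M *ᵥ en 4) = M *ᵥ crossN (en 2) (en 4)
    rw [t24, g2, g4, Matrix.mulVec_smul, g3, r2]
  · change crossN (M *ᵥ en 2) (M *ᵥ en 5) = M *ᵥ crossN (en 2) (en 5)
    rw [t25, g2, g5, Matrix.mulVec_zero, q4]
  · change crossN (M *ᵥ en 2) (M *ᵥ en 6) = M *ᵥ crossN (en 2) (en 6)
    rw [t26, g2, g6, g5]
  · change crossN (M *ᵥ en 3) (M *ᵥ en 4) = M *ᵥ crossN (en 3) (en 4)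
    rw [t34, g3, g4, Matrix.mulVec_neg, g4, p3]
  · change crossN (M *ᵥ en 3) (M *ᵥ en 5) = M *ᵥ crossN (en 3) (en 5)
    rw [t35, g3, g5, Matrix.mulVec_neg, g5, p2]
  · change crossN (M *ᵥ en 3) (M *ᵥ en 6) = M *ᵥ crossN (en 3) (en 6)
    rw [t36, g3, g6, h3]
  · change crossN (M *ᵥ en 4) (M *ᵥ en 5) = M *ᵥ crossN (en 4) (en 5)
    rw [t45, g4, g5, g6, crossN_anti, y3, neg_neg]
  · change crossN (M *ᵥ en 4) (M *ᵥ en 6) = M *ᵥ crossN (en 4) (en 6)
    rw [t46, g4, g6, Matrix.mulVec_zero, crossN_anti, q6, neg_zero]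
  · change crossN (M *ᵥ en 5) (M *ᵥ en 6) = M *ᵥ crossN (en 5) (en 6)
    rw [t56, g5, g6, Matrix.mulVec_zero, crossN_anti, q5, neg_zero]

end C37.PGX
end
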