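import Mathlib
import Pool.Agent.Lib.MP_c37615_al.Mg.G013
import Pool.Agent.Lib.MP_c37615_al.Mg.G012
import Pool.Agent.Lib.MP_c37615_al.Mg.G015

section

/-!
MP_c37615_al (S02984), part GX, task C01: polynomial curves in G, irreducibility of G.
-/

set_option autoImplicit false
set_option linter.all false

open Matrix

namespace C37.PGX

/-- the word with parameters multiplied by t -/
noncomputable def wordt (l : List (Rt × ℝ)) (t : ℝ) : Mat := word (l.map fun p => (p.1, t * p.2))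

theorem wordt_InN (l : List (Rt × ℝ)) (t : ℝ) : InN (wordt l t) := word_InN _

theorem wordt_zero (l : List (Rt × ℝ)) : wordt l 0 = 1 := by
  induction l with
  | nil => simp [wordt, word]
  | cons p l ih =>
    have : wordt (p :: l) 0 = re p.1 (0 * p.2) * wordt l 0 := by simp [wordt, word]
    rw [this, ih, zero_mul, re_zero, Matrix.mul_one]

theorem wordt_one (l : List (Rt × ℝ)) : wordt l 1 = word l := by
  simp [wordt]

theorem C01_re_poly (r : Rt) (s : ℝ) : ∃ Q : Matrix (Fin 7) (Fin 7) (Polynomial ℝ), ∀ (t : ℝ) (i j : Fin 7),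
    (Q i j).eval t = re r (t * s) i j := by
  open Polynomial in
  cases r
  · refine ⟨!![1,0,0,0,0,0,0; 0,1,-(C s * X),0,0,0,0; 0,0,1,0,0,0,0; 0,0,0,1,0,0,0; 0,0,0,0,1,(C s * X),0; 0,0,0,0,0,1,0; 0,0,0,0,0,0,1], ?_⟩
    intro t i j
    fin_cases i <;> fin_cases j <;> simp [re] <;> ring
  · refine ⟨!![1,0,0,0,0,0,0; 0,1,0,0,0,0,0; 0,-(C s * X),1,0,0,0,0; 0,0,0,1,0,0,0; 0,0,0,0,1,0,0; 0,0,0,0,(C s * X),1,0; 0,0,0,0,0,0,1], ?_⟩
    intro t i j
    fin_cases i <;> fin_cases j <;> simp [re] <;> ring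
  · refine ⟨!![1,0,0,0,0,(C s * X),0; 0,1,0,0,0,0,-(C s * X); 0,0,1,0,0,0,0; 0,0,0,1,0,0,0; 0,0,0,0,1,0,0; 0,0,0,0,0,1,0; 0,0,0,0,0,0,1], ?_⟩
    intro t i j
    fin_cases i <;> fin_cases j <;> simp [re] <;> ring
  · refine ⟨!![1,0,0,0,0,0,0; 0,1,0,0,0,0,0; 0,0,1,0,0,0,0; 0,0,0,1,0,0,0; 0,0,0,0,1,0,0; (C s * X),0,0,0,0,1,0; 0,-(C s * X),0,0,0,0,1], ?_⟩
    intro t i j
    fin_cases i <;> fin_cases j <;> simp [re] <;> ring
  · refine ⟨!![1,0,0,0,(C s * X),0,0; 0,1,0,0,0,0,0; 0,0,1,0,0,0,-(C s * X); 0,0,0,1,0,0,0; 0,0,0,0,1,0,0; 0,0,0,0,0,1,0; 0,0,0,0,0,0,1], ?_⟩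
    intro t i j
    fin_cases i <;> fin_cases j <;> simp [re] <;> ring
  · refine ⟨!![1,0,0,0,0,0,0; 0,1,0,0,0,0,0; 0,0,1,0,0,0,0; 0,0,0,1,0,0,0; (C s * X),0,0,0,1,0,0; 0,0,0,0,0,1,0; 0,0,-(C s * X),0,0,0,1], ?_⟩
    intro t i j
    fin_cases i <;> fin_cases j <;> simp [re] <;> ring
  · refine ⟨!![1,0,(C s * X),0,0,0,0; 0,1,0,2*(C s * X),0,-(C s * X)^2,0; 0,0,1,0,0,0,0; 0,0,0,1,0,-(C s * X),0; 0,0,0,0,1,0,-(C s * X); 0,0,0,0,0,1,0; 0,0,0,0,0,0,1], ?_⟩
    intro t i j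
    fin_cases i <;> fin_cases j <;> simp [re] <;> ring
  · refine ⟨!![1,(C s * X),0,0,0,0,0; 0,1,0,0,0,0,0; 0,0,1,-2*(C s * X),-(C s * X)^2,0,0; 0,0,0,1,(C s * X),0,0; 0,0,0,0,1,0,0; 0,0,0,0,0,1,-(C s * X); 0,0,0,0,0,0,1], ?_⟩
    intro t i j
    fin_cases i <;> fin_cases j <;> simp [re] <;> ring
  · refine ⟨!![1,0,0,0,0,0,0; 0,1,0,0,0,0,0; 0,0,1,0,0,0,0; -(C s * X),0,0,1,0,0,0; 0,(C s * X),0,0,1,0,0; 0,0,-(C s * X),0,0,1,0; -(C s * X)^2,0,0,2*(C s * X),0,0,1], ?_⟩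
    intro t i j
    fin_cases i <;> fin_cases j <;> simp [re] <;> ring
  · refine ⟨!![1,0,0,0,0,0,0; 0,1,0,0,0,0,0; -(C (s/2) * X),0,1,0,0,0,0; 0,-(C (s/2) * X),0,1,0,0,0; 0,0,0,0,1,0,0; 0,-(C (s/2) * X)^2,0,(C s * X),0,1,0; 0,0,0,0,(C (s/2) * X),0,1], ?_⟩
    intro t i j
    fin_cases i <;> fin_cases j <;> simp [re] <;> ring
  · refine ⟨!![1,0,0,0,0,0,0; (C (s/2) * X),1,0,0,0,0,0; 0,0,1,0,0,0,0; 0,0,-(C (s/2) * X),1,0,0,0; 0,0,-(C (s/2) * X)^2,(C s * X),1,0,0; 0,0,0,0,0,1,0; 0,0,0,0,0,-(C (s/2) * X),1], ?_⟩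
    intro t i j
    fin_cases i <;> fin_cases j <;> simp [re] <;> ring
  · refine ⟨!![1,0,0,(C s * X),0,0,-(C (s/2) * X)^2; 0,1,0,0,-(C (s/2) * X),0,0; 0,0,1,0,0,(C (s/2) * X),0; 0,0,0,1,0,0,-(C (s/2) * X); 0,0,0,0,1,0,0; 0,0,0,0,0,1,0; 0,0,0,0,0,0,1], ?_⟩
    intro t i j
    fin_cases i <;> fin_cases j <;> simp [re] <;> ring

/-- the entries of `wordt l t` are polynomials in t. -/
theorem wordt_poly (l : List (Rt × ℝ)) : ∃ Q : Matrix (Fin 7) (Fin 7) (Polynomial ℝ), ∀ (t : ℝ) (i j : Fin 7),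
    (Q i j).eval t = wordt l t i j := by
  induction l with
  | nil =>
    refine ⟨1, fun t i j => ?_⟩
    have : wordt [] t = 1 := by simp [wordt, word]
    rw [this]
    by_cases hij : i = j
    · subst hij; simp
    · simp [Matrix.one_apply, hij]
  | cons p l ih =>
    obtain ⟨Q, hQ⟩ := ih
    obtain ⟨Q', hQ'⟩ := C01_re_poly p.1 p.2
    refine ⟨Q' * Q, fun t i j => ?_⟩
    have h1 : wordt (p :: l) t = re p.1 (t * p.2) * wordt l t := by simp [wordt, word]
    rw [h1, Matrix.mul_apply, Matrix.mul_apply, Polynomial.eval_finset_sum]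
    refine Finset.sum_congr rfl fun k _ => ?_
    rw [Polynomial.eval_mul, hQ, hQ']

/-- polynomial curves in G joining two given points (standard coordinates).
Proof: `adjN (toN g) * toN h = word l` (`InN_Gen`); the curve `g * ofN (wordt l t)`. -/
theorem exists_polyCurve (g h : Mat) (hg : InG g) (hh : InG h) :
    ∃ Q : Matrix (Fin 7) (Fin 7) (Polynomial ℝ), (∀ t : ℝ, InG (Matrix.of fun i j => (Q i j).eval t)) ∧
      (∀ i j, (Q i j).eval 0 = g i j) ∧ (∀ i j, (Q i j).eval 1 = h i j) := by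
  have hgN := InN_toN g hg
  have hhN := InN_toN h hh
  obtain ⟨l, hl⟩ := InN_Gen _ (InN_mul (InN_adjN _ hgN) hhN)
  obtain ⟨Q, hQ⟩ := wordt_poly l
  -- constant matrices as polynomial matrices
  let cm : Mat → Matrix (Fin 7) (Fin 7) (Polynomial ℝ) := fun A => A.map Polynomial.C
  have hmul : ∀ (P P' : Matrix (Fin 7) (Fin 7) (Polynomial ℝ)) (t : ℝ),
      (Matrix.of fun i j => ((P * P') i j).eval t) = (Matrix.of fun i j => (P i j).eval t) * (Matrix.of fun i j => (P' i j).eval t) := by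
    intro P P' t
    ext i j
    simp [Matrix.mul_apply, Polynomial.eval_finset_sum]
  have hcm : ∀ (A : Mat) (t : ℝ), (Matrix.of fun i j => (cm A i j).eval t) = A := by
    intro A t
    ext i j
    simp [cm]
  have hQt : ∀ t : ℝ, (Matrix.of fun i j => (Q i j).eval t) = wordt l t := by
    intro t
    ext i j
    exact hQ t i j
  have key : ∀ t : ℝ, (Matrix.of fun i j => ((cm g * (cm PN * Q * cm PI)) i j).eval t) = g * ofN (wordt l t) := by
    intro t
    rw [hmul, hmul, hmul, hcm, hcm, hcm, hQt]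
    rfl
  refine ⟨cm g * (cm PN * Q * cm PI), ?_, ?_, ?_⟩
  · intro t
    rw [key t]
    have h1 := InG_ofN _ (wordt_InN l t)
    intro u v w
    rw [← Matrix.mulVec_mulVec, ← Matrix.mulVec_mulVec, ← Matrix.mulVec_mulVec, hg, h1]
  · intro i j
    have h1 := congrFun (congrFun (key 0) i) j
    rw [wordt_zero, ofN_one, Matrix.mul_one] at h1
    exact h1
  · intro i j
    have h1 := congrFun (congrFun (key 1) i) j
    rw [wordt_one, ← hl, ofN_mul, ofN_toN] at h1
    have h2 : g * (ofN (adjN (toN g)) * h) = h := by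
      have h3 : g * ofN (adjN (toN g)) = 1 := by
        have h4 : g = ofN (toN g) := (ofN_toN g).symm
        rw [h4, ← ofN_mul]
        have h5 : toN (ofN (toN g)) = toN g := by rw [ofN_toN]
        rw [h5, mul_adjN _ hgN.1, ofN_one]
      rw [← Matrix.mul_assoc, h3, Matrix.one_mul]
    rw [h2] at h1
    exact h1

/-- irreducibility of G.  Proof: otherwise P (g) ≠ 0 and Q (h) ≠ 0 for some g, h in G; along the polynomial curve of `exists_polyCurve`
P and Q are polynomials p, q in t (`MvPolynomial.aeval`/`eval₂` with values in Polynomial ℝ), p(0) ≠ 0, q(1) ≠ 0, and p * q vanishes at all t ∈ ℝ, so p * q = 0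
(infinite field, `Polynomial.funext`), so p = 0 or q = 0, contradiction. -/
theorem GX_irred' (P Q : MvPolynomial (Fin 7 × Fin 7) ℝ)
    (h : ∀ A : Mat, InG A → MvPolynomial.eval (fun p : Fin 7 × Fin 7 => A p.1 p.2) (P * Q) = 0) :
    (∀ A : Mat, InG A → MvPolynomial.eval (fun p : Fin 7 × Fin 7 => A p.1 p.2) P = 0) ∨
    (∀ A : Mat, InG A → MvPolynomial.eval (fun p : Fin 7 × Fin 7 => A p.1 p.2) Q = 0) := by
  by_contra hcon
  push Not at hcon
  obtain ⟨⟨g, hg, hPg⟩, ⟨k, hk, hQk⟩⟩ := hcon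
  obtain ⟨R, hR, hR0, hR1⟩ := exists_polyCurve g k hg hk
  let F : MvPolynomial (Fin 7 × Fin 7) ℝ → Polynomial ℝ := fun S =>
    MvPolynomial.aeval (fun p : Fin 7 × Fin 7 => R p.1 p.2) S
  have hF : ∀ (S : MvPolynomial (Fin 7 × Fin 7) ℝ) (t : ℝ), (F S).eval t =
      MvPolynomial.eval (fun p : Fin 7 × Fin 7 => (R p.1 p.2).eval t) S := by
    intro S t
    have h1 : (Polynomial.evalRingHom t).comp ((MvPolynomial.aeval (fun p : Fin 7 × Fin 7 => R p.1 p.2) : MvPolynomial (Fin 7 × Fin 7) ℝ →ₐ[ℝ] Polynomial ℝ) : MvPolynomial (Fin 7 × Fin 7) ℝ →+* Polynomial ℝ)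
        = MvPolynomial.eval (fun p : Fin 7 × Fin 7 => (R p.1 p.2).eval t) := by
      apply MvPolynomial.ringHom_ext
      · intro r
        simp
      · intro p
        simp
    exact RingHom.congr_fun h1 S
  have hprod : F P * F Q = 0 := by
    apply Polynomial.funext
    intro t
    rw [Polynomial.eval_mul, hF, hF, Polynomial.eval_zero, ← map_mul]
    exact h _ (hR t)
  rcases mul_eq_zero.mp hprod with h1 | h1
  · apply hPg
    have h2 := hF P 0
    rw [h1, Polynomial.eval_zero] at h2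
    rw [h2]
    simp only [hR0]
  · apply hQk
    have h2 := hF Q 1
    rw [h1, Polynomial.eval_zero] at h2
    rw [h2]
    simp only [hR1]

end C37.PGX
end

section

/-!
MP_c37615_al (S02984), part GX, task E01: the Borel subgroup, coordinates on AN.
-/

set_option autoImplicit false
set_option linter.all false

open Matrix

namespace C37.PGX

/-- the null vector with v 6 = 1 and prescribed coordinates -/
noncomputable def vx (x : Fin 8 → ℝ) : V :=
  ![-(x 2) ^ 2 - x 4 * x 0 - x 3 * x 1, x 4, x 3, x 2, x 1, x 0, 1]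

/-- coordinates on AN -/
noncomputable def sN (x : Fin 8 → ℝ) : Mat :=
  word (nl (vx x)) * re .L12 (x 5) * DN (Real.exp (-(x 7) / 2)) (Real.exp ((x 7 - x 6) / 2))

/-- the maximal compact subgroup in null coordinates -/
def KN (k : Mat) : Prop := InN k ∧ k * Matrix.diagonal kap * kᵀ = Matrix.diagonal kap

theorem vx_null (x : Fin 8 → ℝ) : BN (vx x) (vx x) = 0 := by
  simp [BN, vx]; ring

theorem vx_six (x : Fin 8 → ℝ) : vx x 6 = 1 := by
  simp [vx]

theorem sN_InN (x : Fin 8 → ℝ) : InN (sN x) := by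
  unfold sN
  exact InN_mul (InN_mul (word_InN _) (re_InN _ _)) (DN_InN _ _ (Real.exp_pos _).ne' (Real.exp_pos _).ne')

/-- Proof: m = DN s1 s2 with s1, s2 ∈ {1,-1} is in KN (diagonal matrix with entries ±1) -/
theorem KN_DN_sign (s1 s2 : ℝ) (h1 : s1 = 1 ∨ s1 = -1) (h2 : s2 = 1 ∨ s2 = -1) : KN (DN s1 s2) := by
  refine ⟨DN_InN s1 s2 (by rcases h1 with rfl | rfl <;> norm_num) (by rcases h2 with rfl | rfl <;> norm_num), ?_⟩
  ext i j
  rcases h1 with rfl | rfl <;> rcases h2 with rfl | rfl <;> fin_cases i <;> fin_cases j <;>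
    simp [DN, kap, Matrix.diagonal_mul_diagonal, Matrix.diagonal_transpose]

private theorem E01_word_BN (l : List (Rt × ℝ)) (u v : V) : BN (word l *ᵥ u) (word l *ᵥ v) = BN u v :=
  (word_InN l).1 u v

private theorem E01_adj_mulVec (n : Mat) (hn : InN n) (u w : V) (h : n *ᵥ u = w) : adjN n *ᵥ w = u := by
  rw [← h, Matrix.mulVec_mulVec, adjN_mul n hn.1, Matrix.one_mulVec]

/-- Proof. w = b *ᵥ en 6: `BN (b *ᵥ en 0) w = BN (en 0) (en 6) = -1/2` gives `b0 * w 6 = 1`; v = (w 6)⁻¹ • w is null with v 6 = 1; n = word (nl v), `n *ᵥ en 6 = v` (nl_en6),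
`n *ᵥ en 0 = en 0`, `n *ᵥ en 1 = en 1 + _ • en 0`.  c = adjN n * b satisfies c *ᵥ en 6 = w 6 • en 6, c *ᵥ en 0 = b0 • en 0 = (w 6)⁻¹ • en 0, so c fixes en 3 (`InN_fix3`), c = iN A,
det A = 1 (`InN_stab`).  Column 6 of c: A 0 2 = A 1 2 = 0, A 2 2 = w 6.  c *ᵥ en 1 = adjN n *ᵥ (b1 • en 1 + c0 • en 0) ∈ span (en 1, en 0): A 1 0 = 0, A 2 0 = 0.
Column 0: cof A 1 2 = 0 = A 0 0 * A 2 1 (up to sign), A 0 0 ≠ 0 (det): A 2 1 = 0.  So A = [[A00, A01, 0],[0, A11, 0],[0,0,(A00 A11)⁻¹]] and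
iN A = re L12 l * DN A00 A11 with l = - A01 / A11 (`re_L12`, `DN_eq_iN`, `iN_mul`). -/
theorem borel_aux (b : Mat) (hb : InN b) (b0 b1 c0 : ℝ) (h0 : b *ᵥ en 0 = b0 • en 0)
    (h1 : b *ᵥ en 1 = b1 • en 1 + c0 • en 0) : ∃ (v : V) (l t1 t2 : ℝ), v 6 = 1 ∧ BN v v = 0 ∧ t1 ≠ 0 ∧ t2 ≠ 0 ∧
      b = word (nl v) * re .L12 l * DN t1 t2 := by
  set w : V := b *ᵥ en 6 with hw
  have hBw : b0 * w 6 = 1 := by
    have h := hb.1 (en 0) (en 6)
    rw [h0, ← hw] at h
    simp [BN, en] at h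
    linarith
  have hb0 : b0 ≠ 0 := left_ne_zero_of_mul_eq_one hBw
  have hw6 : w 6 ≠ 0 := right_ne_zero_of_mul_eq_one hBw
  have hb0' : b0 = (w 6)⁻¹ := eq_inv_of_mul_eq_one_left hBw
  have hww : BN w w = 0 := by
    rw [hw, hb.1]; simp [BN, en]
  set v : V := (w 6)⁻¹ • w with hv
  have hv6 : v 6 = 1 := by simp [hv, hw6]
  have hvv : BN v v = 0 := by
    have : BN v v = (w 6)⁻¹ ^ 2 * BN w w := by simp [hv, BN]; ring
    rw [this, hww, mul_zero]
  set n : Mat := word (nl v) with hn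
  have hnI : InN n := word_InN _
  have hn6 : n *ᵥ en 6 = v := nl_en6 v hv6 hvv
  have hn0 : n *ᵥ en 0 = en 0 := nl_en0 v
  have hn1 : n *ᵥ en 1 = en 1 + (-v 5) • en 0 := nl_en1 v
  have ha6 : adjN n *ᵥ v = en 6 := E01_adj_mulVec n hnI _ _ hn6
  have ha0 : adjN n *ᵥ en 0 = en 0 := E01_adj_mulVec n hnI _ _ hn0
  have ha1 : adjN n *ᵥ en 1 = en 1 + (v 5) • en 0 := by
    apply E01_adj_mulVec n hnI
    rw [Matrix.mulVec_add, Matrix.mulVec_smul, hn1, hn0]
    simp
  set c : Mat := adjN n * b with hc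
  have hcI : InN c := InN_mul (InN_adjN n hnI) hb
  have hc6 : c *ᵥ en 6 = w 6 • en 6 := by
    rw [hc, ← Matrix.mulVec_mulVec, ← hw]
    have : w = w 6 • v := by rw [hv, smul_smul, mul_inv_cancel₀ hw6, one_smul]
    rw [this, Matrix.mulVec_smul, ha6]
    simp [hv6]
  have hc0 : c *ᵥ en 0 = (w 6)⁻¹ • en 0 := by
    rw [hc, ← Matrix.mulVec_mulVec, h0, Matrix.mulVec_smul, ha0, hb0']
  have hc1 : c *ᵥ en 1 = b1 • en 1 + (b1 * v 5 + c0) • en 0 := by
    rw [hc, ← Matrix.mulVec_mulVec, h1, Matrix.mulVec_add, Matrix.mulVec_smul, Matrix.mulVec_smul, ha1, ha0,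
      smul_add, smul_smul, add_smul]
    abel
  have hc3 := InN_fix3 c hcI (w 6) hw6 hc6 hc0
  obtain ⟨A, hA, hcA⟩ := InN_stab c hcI hc3
  have e6 : ∀ i, c i 6 = (w 6 • en 6 : V) i := by
    intro i; rw [← hc6]; simp [en]
  have e0 : ∀ i, c i 0 = ((w 6)⁻¹ • en 0 : V) i := by
    intro i; rw [← hc0]; simp [en]
  have e1 : ∀ i, c i 1 = (b1 • en 1 + (b1 * v 5 + c0) • en 0 : V) i := by
    intro i; rw [← hc1]; simp [en]
  have a02 : A 0 2 = 0 := by have := e6 1; rw [hcA] at this; simpa [iN, en] using this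
  have a12 : A 1 2 = 0 := by have := e6 2; rw [hcA] at this; simpa [iN, en] using this
  have a22 : A 2 2 = w 6 := by have := e6 6; rw [hcA] at this; simpa [iN, en] using this
  have a10 : A 1 0 = 0 := by have := e1 2; rw [hcA] at this; simpa [iN, en] using this
  have a20 : A 2 0 = 0 := by have := e1 6; rw [hcA] at this; simpa [iN, en] using this
  have hdet : A 0 0 * A 1 1 * A 2 2 = 1 := by
    have := hA
    rw [Matrix.det_fin_three] at this
    rw [a02, a12, a10, a20] at this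
    linarith
  have h00 : A 0 0 ≠ 0 := by
    intro h; rw [h] at hdet; simp at hdet
  have h11 : A 1 1 ≠ 0 := by
    intro h; rw [h] at hdet; simp at hdet
  have a21 : A 2 1 = 0 := by
    have := e0 4
    rw [hcA] at this
    have h2 : A 0 0 * A 2 1 = 0 := by
      have h3 : -(A 0 0 * A 2 1 - A 0 1 * A 2 0) = 0 := by simpa [iN, cof, en] using this
      rw [a20] at h3
      linarith
    exact (mul_eq_zero.mp h2).resolve_left h00
  refine ⟨v, -(A 0 1) / A 1 1, A 0 0, A 1 1, hv6, hvv, h00, h11, ?_⟩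
  have hbn : b = n * c := by
    rw [hc, ← Matrix.mul_assoc, mul_adjN n hnI.1, Matrix.one_mul]
  rw [hbn, Matrix.mul_assoc]
  congr 1
  rw [hcA, re_L12, DN_eq_iN _ _ h00 h11, ← iN_mul]
  congr 1
  have h22 : A 2 2 = (A 0 0 * A 1 1)⁻¹ := by
    apply eq_inv_of_mul_eq_one_left; linarith
  ext i j
  fin_cases i <;> fin_cases j <;>
    simp [Matrix.transvection, Matrix.mul_apply, Fin.sum_univ_succ, Matrix.single, Matrix.one_apply,
      a02, a12, a10, a20, a21, h22, Matrix.diagonal, h11]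

/-- Proof: from `borel_aux`: t_i = sign * |t_i|, DN t1 t2 = DN |t1| |t2| * DN s1 s2 (`DN_mul`); choose x 0 = v 5, x 1 = v 4, x 2 = v 3, x 3 = v 2, x 4 = v 1, x 5 = l,
x 7 = -2 log |t1|, x 6 = x 7 - 2 log |t2|; vx x = v because v is null with v 6 = 1. -/
theorem borel (b : Mat) (hb : InN b) (b0 b1 c0 : ℝ) (h0 : b *ᵥ en 0 = b0 • en 0)
    (h1 : b *ᵥ en 1 = b1 • en 1 + c0 • en 0) : ∃ (x : Fin 8 → ℝ) (m : Mat), KN m ∧ b = sN x * m := by
  obtain ⟨v, l, t1, t2, hv6, hvv, ht1, ht2, hb'⟩ := borel_aux b hb b0 b1 c0 h0 h1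
  set x : Fin 8 → ℝ := ![v 5, v 4, v 3, v 2, v 1, l, -2 * Real.log |t1| - 2 * Real.log |t2|, -2 * Real.log |t1|] with hx
  have hsgn : ∀ t : ℝ, t ≠ 0 → (t / |t| = 1 ∨ t / |t| = -1) := by
    intro t ht
    rcases lt_or_gt_of_ne ht with h | h
    · right; rw [abs_of_neg h]; field_simp
    · left; rw [abs_of_pos h]; field_simp
  refine ⟨x, DN (t1 / |t1|) (t2 / |t2|), KN_DN_sign _ _ (hsgn t1 ht1) (hsgn t2 ht2), ?_⟩
  have hvx : vx x = v := by
    have h0 : v 0 = - v 3 ^ 2 - v 1 * v 5 - v 2 * v 4 := by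
      simp only [BN, hv6] at hvv
      linarith
    ext i
    fin_cases i <;> simp [vx, hx, hv6, h0]
  have e1 : Real.exp (-(x 7) / 2) = |t1| := by
    have : -(x 7) / 2 = Real.log |t1| := by simp [hx]
    rw [this, Real.exp_log (abs_pos.mpr ht1)]
  have e2 : Real.exp ((x 7 - x 6) / 2) = |t2| := by
    have : (x 7 - x 6) / 2 = Real.log |t2| := by simp [hx]
    rw [this, Real.exp_log (abs_pos.mpr ht2)]
  have hx5 : x 5 = l := by simp [hx]
  unfold sN
  rw [hvx, e1, e2, hx5, Matrix.mul_assoc _ (DN |t1| |t2|), DN_mul, mul_div_cancel₀ _ (abs_pos.mpr ht1).ne',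
    mul_div_cancel₀ _ (abs_pos.mpr ht2).ne', hb']

end C37.PGX
end

section

/-!
MP_c37615_al (S02984), part GX, task E04: K is transitive on special flags.
-/

set_option autoImplicit false
set_option linter.all false

open Matrix

namespace C37.PGX

/-- the Cartan involution in null coordinates: va ↦ -va, xi ↦ -yi, yi ↦ -xi -/
def Jn (u : V) : V := fun i => -u (Fin.rev i)

/-- the Euclidean scalar product in null coordinates -/
noncomputable def En (u v : V) : ℝ := ∑ i, u i * v i / kap i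

theorem Jn_Jn (u : V) : Jn (Jn u) = u := by
  ext i; simp [Jn]

private theorem E04_Jn (u : V) : Jn u = ![-u 6, -u 5, -u 4, -u 3, -u 2, -u 1, -u 0] := by
  ext i; fin_cases i <;> rfl

theorem Jn_cross (u v : V) : crossN (Jn u) (Jn v) = Jn (crossN u v) := by
  rw [E04_Jn, E04_Jn, E04_Jn]
  ext i; fin_cases i <;> simp [crossN] <;> ring

theorem Jn_BN (u v : V) : BN (Jn u) (Jn v) = BN u v := by
  rw [E04_Jn, E04_Jn]
  simp [BN]
  ring

theorem BN_Jn (u v : V) : BN u (Jn v) = En u v := by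
  rw [E04_Jn]
  simp [BN, En, kap, Fin.sum_univ_succ]
  ring

theorem En_pos (u : V) (hu : u ≠ 0) : 0 < En u u := by
  have hk : ∀ i, 0 < kap i := by
    intro i; fin_cases i <;> simp [kap]
  obtain ⟨i, hi⟩ := Function.ne_iff.1 hu
  unfold En
  apply Finset.sum_pos'
  · intro j _
    exact div_nonneg (mul_self_nonneg _) (hk j).le
  · exact ⟨i, Finset.mem_univ _, div_pos (mul_self_pos.2 hi) (hk i)⟩

/-- Proof: `kᵀ * E * k = E` with E = diagonal (kap⁻¹) (En (k u) (k v) = BN (k u) (J (k v)) = BN (k u) (k (J v)) = BN u (J v) = En u v); hence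
`kᵀ * E * k * diagonal kap = 1`, so `k * diagonal kap * (kᵀ * E) = 1` and `k * diagonal kap * kᵀ = diagonal kap`. -/
theorem KN_of_Jn (k : Mat) (hk : InN k) (hJ : ∀ u : V, k *ᵥ (Jn u) = Jn (k *ᵥ u)) : KN k := by
  refine ⟨hk, ?_⟩
  have hkap : ∀ i, kap i ≠ 0 := by
    intro i; fin_cases i <;> simp [kap]
  have hE : ∀ u v : V, En (k *ᵥ u) (k *ᵥ v) = En u v := by
    intro u v
    rw [← BN_Jn, ← hJ, hk.1, BN_Jn]
  have hED : Matrix.diagonal (fun i => (kap i)⁻¹) * Matrix.diagonal kap = 1 := by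
    rw [Matrix.diagonal_mul_diagonal]
    rw [← Matrix.diagonal_one]
    congr 1
    ext i
    exact inv_mul_cancel₀ (hkap i)
  have hk1 : kᵀ * Matrix.diagonal (fun i => (kap i)⁻¹) * k = Matrix.diagonal (fun i => (kap i)⁻¹) := by
    ext i j
    have h := hE (en i) (en j)
    have e1 : k *ᵥ en i = k.col i := by ext a; simp [Matrix.col]
    have e2 : k *ᵥ en j = k.col j := by ext a; simp [Matrix.col]
    rw [e1, e2] at h
    simp only [En, Matrix.col_apply] at h
    rw [Matrix.mul_apply]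
    simp only [Matrix.mul_diagonal, Matrix.transpose_apply]
    have h2 : (∑ a, k a i * k a j / kap a) = ∑ a, k a i * (kap a)⁻¹ * k a j := by
      refine Finset.sum_congr rfl fun a _ => ?_
      rw [div_eq_mul_inv]; ring
    rw [← h2, h]
    by_cases hij : i = j
    · subst hij
      rw [Matrix.diagonal_apply_eq, Finset.sum_eq_single i]
      · simp
      · intro b _ hb
        simp [Pi.single_apply, hb]
      · simp
    · rw [Matrix.diagonal_apply_ne _ hij]
      apply Finset.sum_eq_zero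
      intro a _
      by_cases ha : a = i
      · subst ha
        simp [Pi.single_apply, hij]
      · simp [Pi.single_apply, ha]
  have h3 : (kᵀ * Matrix.diagonal (fun i => (kap i)⁻¹)) * (k * Matrix.diagonal kap) = 1 := by
    rw [← Matrix.mul_assoc, hk1, hED]
  have h4 := mul_eq_one_comm.1 h3
  calc k * Matrix.diagonal kap * kᵀ
      = k * Matrix.diagonal kap * (kᵀ * (Matrix.diagonal (fun i => (kap i)⁻¹) * Matrix.diagonal kap)) := by
        rw [hED, Matrix.mul_one]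
    _ = (k * Matrix.diagonal kap * (kᵀ * Matrix.diagonal (fun i => (kap i)⁻¹))) * Matrix.diagonal kap := by
        simp only [Matrix.mul_assoc]
    _ = Matrix.diagonal kap := by rw [h4, Matrix.one_mul]

private theorem E04_qN (u v : V) : BN (crossN u v) (crossN u v) = BN u u * BN v v - BN u v ^ 2 := by
  simp [BN, crossN]; ring
private theorem E04_cs (c : ℝ) (u v : V) : crossN (c • u) v = c • crossN u v := by
  ext i; fin_cases i <;> simp [crossN] <;> ring
private theorem E04_cs' (c : ℝ) (u v : V) : crossN u (c • v) = c • crossN u v := by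
  ext i; fin_cases i <;> simp [crossN] <;> ring
private theorem E04_cn (u v : V) : crossN (-u) v = - crossN u v := by
  ext i; fin_cases i <;> simp [crossN] <;> ring
private theorem E04_cn' (u v : V) : crossN u (-v) = - crossN u v := by
  ext i; fin_cases i <;> simp [crossN] <;> ring
private theorem E04_c0 (u : V) : crossN u 0 = 0 := by
  ext i; fin_cases i <;> simp [crossN]
private theorem E04_Bs (c : ℝ) (u v : V) : BN (c • u) v = c * BN u v := by
  simp [BN]; ring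
private theorem E04_Bs' (c : ℝ) (u v : V) : BN u (c • v) = c * BN u v := by
  simp [BN]; ring
private theorem E04_Bn (u v : V) : BN (-u) v = -BN u v := by
  simp [BN]; ring
private theorem E04_Bn' (u v : V) : BN u (-v) = -BN u v := by
  simp [BN]; ring
private theorem E04_Js (c : ℝ) (u : V) : Jn (c • u) = c • Jn u := by
  ext i; simp [Jn]
private theorem E04_Jneg (u : V) : Jn (-u) = -Jn u := by
  ext i; simp [Jn]
private theorem E04_Jadd (u v : V) : Jn (u + v) = Jn u + Jn v := by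
  ext i; simp [Jn]; ring
private theorem E04_En (u v : V) : En u v = En v u := by
  unfold En
  exact Finset.sum_congr rfl fun i _ => by ring

private theorem E04_frame (e u1 u2 u3 v : V) : frameM e u1 u2 u3 *ᵥ v =
    v 0 • crossN u1 u2 + v 1 • u1 + v 2 • u2 + v 3 • e + v 4 • crossN u3 u1 + v 5 • crossN u2 u3 + v 6 • u3 := by
  ext i
  simp only [frameM, Matrix.mulVec, dotProduct, Fin.sum_univ_succ, Matrix.of_apply]
  simp
  ring

/-- Let q = Jn p', e = -2 p' × q, u1 = p', u2 = - q × p, u3 = - Jn p.  Claims (use `crossN_polar`, `crossN_crossN`, `Jn_cross`, BN q p' = En p' p' = 1/2,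
BN (Jn p) p = 1/2, BN (Jn p) p' = En p p' = 0, BN q p = 0, BN (Jn p) q = BN p p' = 0, (Jn p) × q = Jn (p × p') = 0):
BN p p' = 0 because 0 = BN (p × p') (p × p') = BN p p * BN p' p' - (BN p p')^2 (ring identity).
1. BN e e = 4 (BN p' p' BN q q - (BN p' q)^2) = -1.
2. e × p' = -2 (p' × q) × p' = 2 p' × (p' × q) = 2 (BN p' q) p' = p'.
3. e × Jn p = -2 (p' × q) × Jn p = 2 Jn p × (p' × q) = 2 [ - p' × (Jn p × q) - 2 BN (Jn p) p' q + BN (Jn p) q p' + BN p' q (Jn p) ] = Jn p.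
4. Jn e = -2 q × p' = 2 p' × q = -e, so applying Jn to 3: (-e) × p = p, e × p = - p.
5. e × u2 = - e × (q × p) = q × (e × p) + 2 BN e q p - BN e p q - BN q p e = - q × p = u2  (BN e q = BN (Jn e) (Jn q) = - BN e p' = 0, BN e p = 0).
6. u1 × u2 = - p' × (q × p) = q × (p' × p) + 2 BN p' q p - BN p' p q - BN q p p' = p.
7. BN (u1 × u2) u3 = - BN p (Jn p) = -1/2.
So Frame e u1 u2 u3, k = frameM, k en 0 = u1 × u2 = p, k en 1 = p'.  Finally k commutes with Jn: check on the basis: Jn e = -e,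
u2 × u3 = (q × p) × Jn p = Jn p × (p × q) = - p × (Jn p × q) - 2 BN (Jn p) p q + BN (Jn p) q p + BN p q (Jn p) = - q = - Jn u1,
Jn u3 = - p = - u1 × u2, and then Jn u2 = - Jn q × Jn p = - p' × Jn p = - (u3 × u1) ... = -(u3 × u1) since u3 × u1 = - Jn p × p' = p' × Jn p. -/
theorem K_flag (p p' : V) (hp : BN p p = 0) (hp' : BN p' p' = 0) (hc : crossN p p' = 0)
    (h1 : En p p = 1/2) (h2 : En p' p' = 1/2) (h3 : En p p' = 0) :
    ∃ k : Mat, KN k ∧ k *ᵥ en 0 = p ∧ k *ᵥ en 1 = p' := by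
  obtain ⟨q, hq⟩ : ∃ q, q = Jn p' := ⟨_, rfl⟩
  obtain ⟨pj, hpj⟩ : ∃ q, q = Jn p := ⟨_, rfl⟩
  have hJq : Jn q = p' := by rw [hq, Jn_Jn]
  have hJpj : Jn pj = p := by rw [hpj, Jn_Jn]
  have b0 : BN p p' = 0 := by
    have := E04_qN p p'
    rw [hc, hp, hp'] at this
    have h00 : BN (0 : V) 0 = 0 := by simp [BN]
    rw [h00] at this
    have h01 : BN p p' ^ 2 = 0 := by linarith
    exact pow_eq_zero_iff (two_ne_zero) |>.1 h01
  have b1 : BN p q = 0 := by rw [hq, BN_Jn, h3]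
  have b2 : BN p' q = 1/2 := by rw [hq, BN_Jn, h2]
  have b3 : BN p pj = 1/2 := by rw [hpj, BN_Jn, h1]
  have b4 : BN p' pj = 0 := by rw [hpj, BN_Jn, E04_En, h3]
  have b5 : BN q q = 0 := by rw [hq, Jn_BN, hp']
  have b6 : BN pj pj = 0 := by rw [hpj, Jn_BN, hp]
  have b7 : BN pj q = 0 := by rw [hpj, hq, Jn_BN, b0]
  have c1 : crossN pj q = 0 := by
    rw [hpj, hq, Jn_cross, hc]
    ext i; simp [Jn]
  have c2 : crossN p' p = 0 := by rw [crossN_anti, hc, neg_zero]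
  obtain ⟨e, he⟩ : ∃ e, e = (-2 : ℝ) • crossN p' q := ⟨_, rfl⟩
  have s1 : BN e e = -1 := by
    rw [he, E04_Bs, E04_Bs', E04_qN, hp', b5, b2]; norm_num
  have s2 : crossN e p' = p' := by
    rw [he, E04_cs, crossN_anti (crossN p' q) p', crossN_crossN, hp', b2]
    module
  have s3 : crossN e pj = pj := by
    have h := crossN_polar pj p' q
    rw [c1, E04_c0, add_zero, BN_symm pj p', b4, b7, b2] at h
    rw [he, E04_cs, crossN_anti (crossN p' q) pj, h]
    module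
  have s4 : Jn e = -e := by
    rw [he, E04_Js, ← Jn_cross, hJq, ← hq, crossN_anti q p']
    module
  have s4' : crossN e p = -p := by
    have h := congrArg Jn s3
    rw [← Jn_cross, s4, hJpj, E04_cn] at h
    exact neg_eq_iff_eq_neg.1 h
  have beq : BN e q = 0 := by
    rw [he, E04_Bs, BN_crossN_cyc, crossN_self]
    simp [BN]
  have bep : BN e p = 0 := by
    have h := BN_crossN_cyc e p e
    rw [BN_crossN_swap p e e] at h
    rw [s4', E04_Bn, BN_symm p e] at h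
    linarith
  have s5 : crossN e (crossN q p) = crossN q p := by
    have h := crossN_polar e q p
    rw [s4', E04_cn', beq, bep, BN_symm q p, b1] at h
    have h' : crossN e (crossN q p) = crossN q p + ((-2 * 0 : ℝ) • p + (0 : ℝ) • q + (0 : ℝ) • e) := by
      rw [← h]; abel
    rw [h']
    module
  have s6 : crossN p' (crossN q p) = -p := by
    have h := crossN_polar p' q p
    rw [c2, E04_c0, add_zero, b2, BN_symm p' p, b0, BN_symm q p, b1] at h
    rw [h]
    module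
  have s7 : crossN pj (crossN p q) = -q := by
    have h := crossN_polar pj p q
    rw [c1, E04_c0, add_zero, BN_symm pj p, b3, b7, b1] at h
    rw [h]
    module
  have hF : Frame e p' (-(crossN q p)) (-pj) := by
    refine ⟨s1, s2, ?_, ?_, ?_⟩
    · rw [E04_cn', s5]
    · rw [E04_cn', s3]
    · rw [E04_cn', s6, neg_neg, E04_Bn', b3]; norm_num
  have col0 : crossN p' (-(crossN q p)) = p := by rw [E04_cn', s6, neg_neg]
  have col5 : crossN (-(crossN q p)) (-pj) = -q := by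
    rw [E04_cn, E04_cn', neg_neg, crossN_anti (crossN q p) pj, crossN_anti q p, E04_cn', neg_neg, s7]
  have col4 : crossN (-pj) p' = crossN p' pj := by
    rw [E04_cn, crossN_anti pj p', neg_neg]
  refine ⟨frameM e p' (-(crossN q p)) (-pj), KN_of_Jn _ (frame_InN _ _ _ _ hF) ?_, ?_, ?_⟩
  · intro u
    rw [E04_frame, E04_frame, col0, col4, col5]
    simp only [E04_Jadd, E04_Js, E04_Jneg, ← Jn_cross, s4, hJq, hJpj, ← hq, ← hpj]
    have j : ∀ i, Jn u i = -u (Fin.rev i) := fun i => rfl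
    have j0 : Jn u 0 = -u 6 := rfl
    have j1 : Jn u 1 = -u 5 := rfl
    have j2 : Jn u 2 = -u 4 := rfl
    have j3 : Jn u 3 = -u 3 := rfl
    have j4 : Jn u 4 = -u 2 := rfl
    have j5 : Jn u 5 = -u 1 := rfl
    have j6 : Jn u 6 = -u 0 := rfl
    rw [j0, j1, j2, j3, j4, j5, j6]
    module
  · rw [E04_frame, col0]
    simp
  · rw [E04_frame]
    simp

end C37.PGX
end

section

/-!
MP_c37615_al (S02984), part GX, task E05: Iwasawa decomposition.
-/

set_option autoImplicit false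
set_option linter.all false

open Matrix

namespace C37.PGX

theorem KN_one : KN 1 := by
  exact ⟨InN_one, by simp⟩

theorem KN_mul {k l : Mat} (hk : KN k) (hl : KN l) : KN (k * l) := by
  refine ⟨InN_mul hk.1 hl.1, ?_⟩
  rw [Matrix.transpose_mul]
  calc k * l * diagonal kap * (lᵀ * kᵀ) = k * (l * diagonal kap * lᵀ) * kᵀ := by simp only [Matrix.mul_assoc]
    _ = _ := by rw [hl.2, hk.2]

/-- inverse of an element of K: from k D kᵀ = D with k⁻¹ = adjN k (`mul_adjN`, `adjN_mul`) -/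
theorem KN_adjN {k : Mat} (hk : KN k) : KN (adjN k) := by
  refine ⟨InN_adjN k hk.1, ?_⟩
  have h1 := adjN_mul k hk.1.1
  calc adjN k * diagonal kap * (adjN k)ᵀ = adjN k * (k * diagonal kap * kᵀ) * (adjN k)ᵀ := by rw [hk.2]
    _ = (adjN k * k) * diagonal kap * (adjN k * k)ᵀ := by
      rw [Matrix.transpose_mul]; simp only [Matrix.mul_assoc]
    _ = diagonal kap := by rw [h1, Matrix.one_mul, Matrix.transpose_one, Matrix.mul_one]

private theorem E05_Es (c : ℝ) (u v : V) : En (c • u) v = c * En u v := by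
  unfold En
  rw [Finset.mul_sum]
  exact Finset.sum_congr rfl fun i _ => by simp; ring
private theorem E05_Esymm (u v : V) : En u v = En v u := by
  unfold En
  exact Finset.sum_congr rfl fun i _ => by ring
private theorem E05_Es' (c : ℝ) (u v : V) : En u (c • v) = c * En u v := by
  rw [E05_Esymm, E05_Es, E05_Esymm]
private theorem E05_Esub (u u' v : V) : En (u - u') v = En u v - En u' v := by
  unfold En
  rw [← Finset.sum_sub_distrib]
  exact Finset.sum_congr rfl fun i _ => by simp; ring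
private theorem E05_cs (c : ℝ) (u v : V) : crossN (c • u) v = c • crossN u v := by
  ext i; fin_cases i <;> simp [crossN] <;> ring
private theorem E05_cs' (c : ℝ) (u v : V) : crossN u (c • v) = c • crossN u v := by
  ext i; fin_cases i <;> simp [crossN] <;> ring
private theorem E05_csub' (u v w : V) : crossN u (v - w) = crossN u v - crossN u w := by
  ext i; fin_cases i <;> simp [crossN] <;> ring
private theorem E05_Bs (c : ℝ) (u v : V) : BN (c • u) v = c * BN u v := by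
  simp [BN]; ring
private theorem E05_Bs' (c : ℝ) (u v : V) : BN u (c • v) = c * BN u v := by
  simp [BN]; ring
private theorem E05_Bsub (u v : V) : BN (u - v) (u - v) = BN u u - 2 * BN u v + BN v v := by
  simp [BN]; ring

/-- Iwasawa decomposition.  Proof: h = adjN g; p0 = h *ᵥ en 0, p1 = h *ᵥ en 1: null, crossN p0 p1 = h *ᵥ crossN (en 0) (en 1) = 0, linearly independent (h invertible).
Gram-Schmidt for `En`: p = a • p0 with a > 0, En p p = 1/2; p' = b • (p1 - c • p0), c = En p1 p0 / En p0 p0, b > 0, En p' p' = 1/2 (p1 - c p0 ≠ 0 by independence); then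
BN p' p' = 0 since BN p0 p1 = 0 (from `BN (h u) (h v) = BN u v`), crossN p p' = 0, En p p' = 0.  `K_flag`: k en 0 = p, k en 1 = p'.
Let b' = g * k: b' en 0 = a • en 0, b' en 1 = b • en 1 - (b c) • en 0.  `borel`: b' = sN x * m, and g = sN x * (m * adjN k). -/
theorem iwasawa (g : Mat) (hg : InN g) : ∃ (x : Fin 8 → ℝ) (k : Mat), KN k ∧ g = sN x * k := by
  have hh : InN (adjN g) := InN_adjN g hg
  obtain ⟨h, hhd⟩ : ∃ h, h = adjN g := ⟨_, rfl⟩
  rw [← hhd] at hh
  have hgh : g * h = 1 := by rw [hhd]; exact mul_adjN g hg.1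
  have hhg : h * g = 1 := by rw [hhd]; exact adjN_mul g hg.1
  have ginj : ∀ v : V, h *ᵥ v = 0 → v = 0 := by
    intro v hv
    have := congrArg (g *ᵥ ·) hv
    simpa [Matrix.mulVec_mulVec, hgh] using this
  obtain ⟨p0, hp0⟩ : ∃ p, p = h *ᵥ en 0 := ⟨_, rfl⟩
  obtain ⟨p1, hp1⟩ : ∃ p, p = h *ᵥ en 1 := ⟨_, rfl⟩
  have b00 : BN p0 p0 = 0 := by rw [hp0, hh.1]; simp [BN]
  have b11 : BN p1 p1 = 0 := by rw [hp1, hh.1]; simp [BN]
  have b01 : BN p1 p0 = 0 := by rw [hp1, hp0, hh.1]; simp [BN]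
  have cc : crossN p0 p1 = 0 := by
    rw [hp0, hp1, hh.2]
    have : crossN (en 0) (en 1) = 0 := by
      ext i; fin_cases i <;> simp [crossN]
    rw [this, Matrix.mulVec_zero]
  have n0 : p0 ≠ 0 := by
    intro h0
    rw [hp0] at h0
    have := congrFun (ginj _ h0) 0
    simp at this
  have E0 : 0 < En p0 p0 := En_pos p0 n0
  obtain ⟨c, hc⟩ : ∃ c, c = En p1 p0 / En p0 p0 := ⟨_, rfl⟩
  obtain ⟨w, hw⟩ : ∃ w, w = p1 - c • p0 := ⟨_, rfl⟩
  have nw : w ≠ 0 := by
    intro h0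
    rw [hw, hp1, hp0, ← Matrix.mulVec_smul, ← Matrix.mulVec_sub] at h0
    have := congrFun (ginj _ h0) 1
    simp at this
  have Ew : 0 < En w w := En_pos w nw
  have Ew0 : En p0 w = 0 := by
    rw [E05_Esymm, hw, E05_Esub, E05_Es, hc]
    field_simp
    ring
  obtain ⟨a, ha⟩ : ∃ a, a = (Real.sqrt (2 * En p0 p0))⁻¹ := ⟨_, rfl⟩
  obtain ⟨b, hb⟩ : ∃ b, b = (Real.sqrt (2 * En w w))⁻¹ := ⟨_, rfl⟩
  have sq0 : Real.sqrt (2 * En p0 p0) ^ 2 = 2 * En p0 p0 := Real.sq_sqrt (by positivity)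
  have sqw : Real.sqrt (2 * En w w) ^ 2 = 2 * En w w := Real.sq_sqrt (by positivity)
  have sp0 : 0 < Real.sqrt (2 * En p0 p0) := Real.sqrt_pos.2 (by positivity)
  have spw : 0 < Real.sqrt (2 * En w w) := Real.sqrt_pos.2 (by positivity)
  have ea : a * (a * En p0 p0) = 1/2 := by
    rw [ha]
    have : En p0 p0 = Real.sqrt (2 * En p0 p0) ^ 2 / 2 := by rw [sq0]; ring
    rw [show (Real.sqrt (2 * En p0 p0))⁻¹ * ((Real.sqrt (2 * En p0 p0))⁻¹ * En p0 p0) =
      En p0 p0 / Real.sqrt (2 * En p0 p0) ^ 2 by field_simp, sq0]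
    field_simp
  have eb : b * (b * En w w) = 1/2 := by
    rw [hb]
    rw [show (Real.sqrt (2 * En w w))⁻¹ * ((Real.sqrt (2 * En w w))⁻¹ * En w w) =
      En w w / Real.sqrt (2 * En w w) ^ 2 by field_simp, sqw]
    field_simp
  obtain ⟨k, hk, hk0, hk1⟩ := K_flag (a • p0) (b • w)
    (by rw [E05_Bs, E05_Bs', b00]; ring)
    (by rw [E05_Bs, E05_Bs', hw, E05_Bsub, E05_Bs', E05_Bs', E05_Bs, b11, b01, b00]; ring)
    (by rw [E05_cs, E05_cs', hw, E05_csub', E05_cs', cc, crossN_self]; simp)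
    (by rw [E05_Es, E05_Es', ea])
    (by rw [E05_Es, E05_Es', eb])
    (by rw [E05_Es, E05_Es', Ew0]; ring)
  have hg0 : g *ᵥ p0 = en 0 := by rw [hp0, Matrix.mulVec_mulVec, hgh, Matrix.one_mulVec]
  have hg1 : g *ᵥ p1 = en 1 := by rw [hp1, Matrix.mulVec_mulVec, hgh, Matrix.one_mulVec]
  obtain ⟨x, m, hm, hx⟩ := borel (g * k) (InN_mul hg hk.1) a b (-(b * c))
    (by rw [← Matrix.mulVec_mulVec, hk0, Matrix.mulVec_smul, hg0])
    (by
      rw [← Matrix.mulVec_mulVec, hk1, Matrix.mulVec_smul, hw, Matrix.mulVec_sub, Matrix.mulVec_smul, hg0, hg1]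
      module)
  refine ⟨x, m * adjN k, KN_mul hm (KN_adjN hk), ?_⟩
  rw [← Matrix.mul_assoc, ← hx, Matrix.mul_assoc, mul_adjN k hk.1.1, Matrix.mul_one]

end C37.PGX
end

section

/-!
MP_c37615_al (S02984), part GX, task E06: the coordinates of g K.
-/

set_option autoImplicit false
set_option linter.all false

open Matrix

namespace C37.PGX

/-- the positive definite matrix g D gᵀ, D = diagonal kap; it determines g K -/
noncomputable def SN (g : Mat) : Mat := g * Matrix.diagonal kap * gᵀ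

theorem SN_apply (g : Mat) (i j : Fin 7) : SN g i j = ∑ k, g i k * kap k * g j k := by
  simp [SN, Matrix.mul_apply, Matrix.diagonal_apply]

theorem SN_mul_KN (g k : Mat) (hk : KN k) : SN (g * k) = SN g := by
  unfold SN
  rw [Matrix.transpose_mul]
  calc g * k * diagonal kap * (kᵀ * gᵀ) = g * (k * diagonal kap * kᵀ) * gᵀ := by simp only [Matrix.mul_assoc]
    _ = _ := by rw [hk.2]

/-- coordinates of g K -/
noncomputable def pN (g : Mat) : Fin 8 → ℝ :=
  ![SN g 5 6 / SN g 6 6, SN g 4 6 / SN g 6 6, SN g 3 6 / SN g 6 6, SN g 2 6 / SN g 6 6, SN g 1 6 / SN g 6 6,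
    (SN g 4 5 - SN g 4 6 * SN g 5 6 / SN g 6 6) / (SN g 5 5 - SN g 5 6 ^ 2 / SN g 6 6),
    Real.log (SN g 6 6 / 2), Real.log ((SN g 5 5 - SN g 5 6 ^ 2 / SN g 6 6) / 2)]

theorem pN_mul_KN (g k : Mat) (hk : KN k) : pN (g * k) = pN g := by
  unfold pN; rw [SN_mul_KN g k hk]

/-- rows 6 and 5 of g are linearly independent; `SN g 6 6 = Σ kap k (g 6 k)^2 > 0`, and for c = SN g 5 6 / SN g 6 6,
`SN g 5 5 - SN g 5 6 ^ 2 / SN g 6 6 = Σ_k kap k (g 5 k - c g 6 k)^2 > 0` (a zero row combination contradicts det g ≠ 0: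
the vector w = Pi.single 5 1 - c • Pi.single 6 1 would satisfy w ᵥ* g = 0; `Matrix.exists_vecMul_eq_zero_iff`). -/
theorem SN_pos (g : Mat) (hg : g.det ≠ 0) : 0 < SN g 6 6 ∧ 0 < SN g 5 5 - SN g 5 6 ^ 2 / SN g 6 6 := by
  have key : ∀ c d : ℝ, (c ≠ 0 ∨ d ≠ 0) → 0 < c ^ 2 * SN g 5 5 + 2 * c * d * SN g 5 6 + d ^ 2 * SN g 6 6 := by
    intro c d hcd
    have h1 : c ^ 2 * SN g 5 5 + 2 * c * d * SN g 5 6 + d ^ 2 * SN g 6 6 = ∑ k, kap k * (c * g 5 k + d * g 6 k) ^ 2 := by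
      rw [SN_apply, SN_apply, SN_apply, Finset.mul_sum, Finset.mul_sum, Finset.mul_sum, ← Finset.sum_add_distrib, ← Finset.sum_add_distrib]
      apply Finset.sum_congr rfl
      intro k _
      ring
    rw [h1]
    have hk : ∀ k, 0 < kap k := by
      intro k; fin_cases k <;> simp [kap]
    by_contra hcon
    push Not at hcon
    have h0 : ∀ k ∈ (Finset.univ : Finset (Fin 7)), 0 ≤ kap k * (c * g 5 k + d * g 6 k) ^ 2 := by
      intro k _
      exact mul_nonneg (hk k).le (sq_nonneg _)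
    have h2 : ∑ k, kap k * (c * g 5 k + d * g 6 k) ^ 2 = 0 := le_antisymm hcon (Finset.sum_nonneg h0)
    have h3 := (Finset.sum_eq_zero_iff_of_nonneg h0).1 h2
    apply hg
    rw [← Matrix.exists_vecMul_eq_zero_iff]
    refine ⟨c • Pi.single 5 1 + d • Pi.single 6 1, ?_, ?_⟩
    · intro h
      rcases hcd with hc | hd
      · have := congrFun h 5
        simp at this
        exact hc this
      · have := congrFun h 6
        simp at this
        exact hd this
    · rw [Matrix.add_vecMul, Matrix.smul_vecMul, Matrix.smul_vecMul]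
      ext k
      have h4 := h3 k (Finset.mem_univ k)
      have h5 : (c * g 5 k + d * g 6 k) ^ 2 = 0 := by
        rcases mul_eq_zero.1 h4 with h | h
        · exact absurd h (hk k).ne'
        · exact h
      have h6 : c * g 5 k + d * g 6 k = 0 := by
        rwa [sq_eq_zero_iff] at h5
      simpa using h6
  have h66 : 0 < SN g 6 6 := by
    have := key 0 1 (Or.inr one_ne_zero)
    simpa using this
  refine ⟨h66, ?_⟩
  have := key 1 (-(SN g 5 6 / SN g 6 6)) (Or.inl one_ne_zero)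
  have h7 : 1 ^ 2 * SN g 5 5 + 2 * 1 * (-(SN g 5 6 / SN g 6 6)) * SN g 5 6 + (-(SN g 5 6 / SN g 6 6)) ^ 2 * SN g 6 6
      = SN g 5 5 - SN g 5 6 ^ 2 / SN g 6 6 := by
    field_simp
    ring
  linarith

/-- rows 4,5,6 of sN x (from `nl_cols`, `nl_col4`, `nl_col5`, `nl_col6` and the explicit matrices re L12, DN; t1 = exp (-(x 7)/2), t2 = exp ((x 7 - x 6)/2)):
row 6 = (0,0,0,0,0,0,(t1 t2)⁻¹); row 5 = (0,0,0,0,0,t1⁻¹, x 0 * (t1 t2)⁻¹); row 4 = (0,0,0,0,t2⁻¹, x 5 * t1⁻¹, x 1 * (t1 t2)⁻¹) -/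
theorem sN_rows (x : Fin 8 → ℝ) :
    (∀ j : Fin 7, sN x 6 j = ![0, 0, 0, 0, 0, 0, Real.exp (x 6 / 2)] j) ∧
    (∀ j : Fin 7, sN x 5 j = ![0, 0, 0, 0, 0, Real.exp (x 7 / 2), x 0 * Real.exp (x 6 / 2)] j) ∧
    (∀ j : Fin 7, sN x 4 j = ![0, 0, 0, 0, Real.exp ((x 6 - x 7) / 2), x 5 * Real.exp (x 7 / 2), x 1 * Real.exp (x 6 / 2)] j) := by
  have hv5 : vx x 5 = x 0 := by simp [vx]
  have hv4 : vx x 4 = x 1 := by simp [vx]
  obtain ⟨c65, c55, c45⟩ := nl_col5 (vx x)
  obtain ⟨c64, c54, c44⟩ := nl_col4 (vx x)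
  obtain ⟨c66, c56, c46⟩ := nl_col6 (vx x)
  rw [hv5] at c56
  rw [hv4] at c46
  have z : ∀ i j : Fin 7, j ≤ 3 → 4 ≤ i → word (nl (vx x)) i j = 0 := nl_cols (vx x)
  have t1 : (Real.exp (-(x 7) / 2))⁻¹ = Real.exp (x 7 / 2) := by
    rw [← Real.exp_neg]; congr 1; ring
  have t2 : (Real.exp ((x 7 - x 6) / 2))⁻¹ = Real.exp ((x 6 - x 7) / 2) := by
    rw [← Real.exp_neg]; congr 1; ring
  have t12 : (Real.exp (-(x 7) / 2) * Real.exp ((x 7 - x 6) / 2))⁻¹ = Real.exp (x 6 / 2) := by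
    rw [← Real.exp_add, ← Real.exp_neg]; congr 1; ring
  have row : ∀ i : Fin 7, 4 ≤ i → ∀ j : Fin 7, sN x i j =
      ![0, 0, 0, 0, word (nl (vx x)) i 4 * Real.exp ((x 6 - x 7) / 2),
        (word (nl (vx x)) i 4 * x 5 + word (nl (vx x)) i 5) * Real.exp (x 7 / 2),
        word (nl (vx x)) i 6 * Real.exp (x 6 / 2)] j := by
    intro i hi j
    have z0 := z i 0 (by decide) hi
    have z1 := z i 1 (by decide) hi
    have z2 := z i 2 (by decide) hi
    have z3 := z i 3 (by decide) hi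
    unfold sN DN
    rw [Matrix.mul_diagonal, Matrix.mul_apply]
    rw [t1, t2, t12]
    fin_cases j <;> simp [re, Fin.sum_univ_succ, z0, z1, z2, z3]
  refine ⟨?_, ?_, ?_⟩
  · intro j
    rw [row 6 (by decide) j, c64, c65, c66]
    fin_cases j <;> simp
  · intro j
    rw [row 5 (by decide) j, c54, c55, c56]
    fin_cases j <;> simp
  · intro j
    rw [row 4 (by decide) j, c44, c45, c46]
    fin_cases j <;> simp

/-- column 6 of sN x: `sN x *ᵥ en 6 = (t1 t2)⁻¹ • vx x` (`nl_en6`, `vx_null`, `vx_six`; re L12 fixes en 6) -/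
theorem sN_col6 (x : Fin 8 → ℝ) (i : Fin 7) : sN x i 6 = Real.exp (x 6 / 2) * vx x i := by
  have t12 : (Real.exp (-(x 7) / 2) * Real.exp ((x 7 - x 6) / 2))⁻¹ = Real.exp (x 6 / 2) := by
    rw [← Real.exp_add, ← Real.exp_neg]; congr 1; ring
  have h1 : sN x *ᵥ en 6 = Real.exp (x 6 / 2) • vx x := by
    unfold sN
    rw [← Matrix.mulVec_mulVec, ← Matrix.mulVec_mulVec]
    have h2 : DN (Real.exp (-(x 7) / 2)) (Real.exp ((x 7 - x 6) / 2)) *ᵥ en 6 = Real.exp (x 6 / 2) • en 6 := by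
      ext i
      rw [DN, Matrix.mulVec_diagonal, t12]
      fin_cases i <;> simp
    have h3 : re .L12 (x 5) *ᵥ en 6 = en 6 := by
      ext i
      fin_cases i <;> simp [re]
    rw [h2, Matrix.mulVec_smul, Matrix.mulVec_smul, h3, nl_en6 _ (vx_six x) (vx_null x)]
  have h4 := congrFun h1 i
  rw [Matrix.mulVec_single_one] at h4
  simpa using h4

/-- Proof: SN (sN x) i 6 = 2 * sN x i 6 * sN x 6 6 (row 6 has only one entry) and so on: with a = exp (x 6 / 2), c = exp (x 7 / 2):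
SN 6 6 = 2 a^2, SN i 6 = 2 a^2 vx x i, SN 5 5 = 2 c^2 + 2 (x 0)^2 a^2, SN 4 5 = 2 x 5 c^2 + 2 x 0 x 1 a^2; log (exp ..) = ... -/
theorem pN_sN (x : Fin 8 → ℝ) : pN (sN x) = x := by
  obtain ⟨r6, r5, r4⟩ := sN_rows x
  have c6 := sN_col6 x
  have hi6 : ∀ i : Fin 7, SN (sN x) i 6 = 2 * Real.exp (x 6 / 2) ^ 2 * vx x i := by
    intro i
    rw [SN_apply]
    simp only [r6]
    rw [Fin.sum_univ_seven]
    simp [kap, c6]
    ring
  have h66 : SN (sN x) 6 6 = 2 * Real.exp (x 6 / 2) ^ 2 := by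
    rw [hi6, vx_six]; ring
  have h55 : SN (sN x) 5 5 = 2 * Real.exp (x 7 / 2) ^ 2 + 2 * (x 0 * Real.exp (x 6 / 2)) ^ 2 := by
    rw [SN_apply]
    simp only [r5]
    rw [Fin.sum_univ_seven]
    simp [kap]
    ring
  have h45 : SN (sN x) 4 5 = 2 * x 5 * Real.exp (x 7 / 2) ^ 2 + 2 * x 0 * x 1 * Real.exp (x 6 / 2) ^ 2 := by
    rw [SN_apply]
    simp only [r5, r4]
    rw [Fin.sum_univ_seven]
    simp [kap]
    ring
  have e6 : (Real.exp (x 6 / 2)) ≠ 0 := (Real.exp_pos _).ne'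
  have e7 : (Real.exp (x 7 / 2)) ≠ 0 := (Real.exp_pos _).ne'
  have v5 : vx x 5 = x 0 := by simp [vx]
  have v4 : vx x 4 = x 1 := by simp [vx]
  have v3 : vx x 3 = x 2 := by simp [vx]
  have v2 : vx x 2 = x 3 := by simp [vx]
  have v1 : vx x 1 = x 4 := by simp [vx]
  have hd : SN (sN x) 5 5 - SN (sN x) 5 6 ^ 2 / SN (sN x) 6 6 = 2 * Real.exp (x 7 / 2) ^ 2 := by
    rw [h55, h66, hi6, v5]
    field_simp
    ring
  have hn : SN (sN x) 4 5 - SN (sN x) 4 6 * SN (sN x) 5 6 / SN (sN x) 6 6 = 2 * x 5 * Real.exp (x 7 / 2) ^ 2 := by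
    rw [h45, h66, hi6, hi6, v5, v4]
    field_simp
    ring
  have hq : ∀ i : Fin 7, SN (sN x) i 6 / SN (sN x) 6 6 = vx x i := by
    intro i
    rw [h66, hi6]
    field_simp
  unfold pN
  rw [hq, hq, hq, hq, hq, hd, hn, h66, v5, v4, v3, v2, v1]
  have l6 : Real.log (2 * Real.exp (x 6 / 2) ^ 2 / 2) = x 6 := by
    rw [mul_div_cancel_left₀ _ two_ne_zero, ← Real.exp_nat_mul, Real.log_exp]
    push_cast; ring
  have l7 : Real.log (2 * Real.exp (x 7 / 2) ^ 2 / 2) = x 7 := by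
    rw [mul_div_cancel_left₀ _ two_ne_zero, ← Real.exp_nat_mul, Real.log_exp]
    push_cast; ring
  have l5 : 2 * x 5 * Real.exp (x 7 / 2) ^ 2 / (2 * Real.exp (x 7 / 2) ^ 2) = x 5 := by
    field_simp
  rw [l5, l6, l7]
  ext i
  fin_cases i <;> simp

end C37.PGX
end
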