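import Mathlib
import Pool.Agent.Lib.MP_c37615_al.Mg.G014
import Pool.Agent.Lib.MP_c37615_al.Mg.G013
import Pool.Agent.Lib.MP_c37615_al.Mg.G012
import Pool.Agent.Lib.MP_c37615_al.GX.Grp

section

/-!
MP_c37615_al (S02984), part GX, task E07: the smooth action on ℝ^8.
-/

set_option autoImplicit false
set_option linter.all false

open Matrix
open scoped ContDiff

namespace C37.PGX

/-- action of G on ℝ^8 = G/K -/
noncomputable def actN (g : Mat) (x : Fin 8 → ℝ) : Fin 8 → ℝ := pN (g * sN x)

/-- entries of sN are smooth: products of explicit matrices with entries built from x i, exp and inverse of exp -/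
theorem sN_smooth (i j : Fin 7) : ContDiff ℝ ∞ (fun x : Fin 8 → ℝ => sN x i j) := by
  have hx : ∀ k : Fin 8, ContDiff ℝ ∞ (fun x : Fin 8 → ℝ => x k) := fun k => contDiff_apply ℝ ℝ k
  -- products of smooth matrix valued functions
  have mulS : ∀ (F H : (Fin 8 → ℝ) → Mat), (∀ i j, ContDiff ℝ ∞ fun x => F x i j) → (∀ i j, ContDiff ℝ ∞ fun x => H x i j) →
      ∀ i j, ContDiff ℝ ∞ fun x => (F x * H x) i j := by
    intro F H hF hH i j
    simp only [Matrix.mul_apply]
    exact ContDiff.sum fun k _ => (hF i k).mul (hH k j)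
  have reS : ∀ (r : Rt) (f : (Fin 8 → ℝ) → ℝ), ContDiff ℝ ∞ f → ∀ i j, ContDiff ℝ ∞ fun x => re r (f x) i j := by
    intro r f hf i j
    cases r <;> fin_cases i <;> fin_cases j <;> simp [re] <;>
      first
      | exact contDiff_const
      | exact hf
      | exact hf.neg
      | exact (hf.pow 2).neg
      | exact contDiff_const.mul hf
      | exact (contDiff_const.mul hf).neg
      | exact hf.div_const _
      | exact (hf.div_const _).neg
      | exact ((hf.pow 2).div_const _).neg
      | exact hf.neg.div_const _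
      | exact (hf.pow 2).neg.div_const _
  have wS : ∀ (L : List (Rt × ((Fin 8 → ℝ) → ℝ))), (∀ p ∈ L, ContDiff ℝ ∞ p.2) →
      ∀ i j, ContDiff ℝ ∞ fun x => word (L.map fun p => (p.1, p.2 x)) i j := by
    intro L
    induction L with
    | nil =>
      intro _ i j
      simp only [List.map_nil, word_nil]
      exact contDiff_const
    | cons p L ih =>
      intro h i j
      have : (fun x => word ((p :: L).map fun p => (p.1, p.2 x)) i j) =
          fun x => (re p.1 (p.2 x) * word (L.map fun p => (p.1, p.2 x))) i j := by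
        funext x
        rw [List.map_cons, word_cons]
      rw [this]
      exact mulS _ _ (reS p.1 p.2 (h p (by simp))) (ih fun q hq => h q (by simp [hq])) i j
  have vS : ∀ k : Fin 7, ContDiff ℝ ∞ fun x : Fin 8 → ℝ => vx x k := by
    intro k
    fin_cases k <;> simp [vx]
    · exact (((hx 2).pow 2).neg.sub ((hx 4).mul (hx 0))).sub ((hx 3).mul (hx 1))
    · exact hx 4
    · exact hx 3
    · exact hx 2
    · exact hx 1
    · exact hx 0
    · exact contDiff_const
  have nS : ∀ i j, ContDiff ℝ ∞ fun x : Fin 8 → ℝ => word (nl (vx x)) i j := by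
    intro i j
    have := wS [(.S2, fun x => -vx x 5), (.S1, fun x => -vx x 4), (.T3, fun x => -2 * (vx x 3 + vx x 4 * vx x 5)),
      (.L23, fun x => vx x 4 * vx x 5 ^ 2 + 2 * vx x 3 * vx x 5 - vx x 2),
      (.L13, fun x => -2 * vx x 3 * vx x 4 - 2 * vx x 4 ^ 2 * vx x 5 - vx x 1)] (by
        intro p hp
        simp only [List.mem_cons, List.not_mem_nil, or_false] at hp
        rcases hp with rfl | rfl | rfl | rfl | rfl
        · exact (vS 5).neg
        · exact (vS 4).neg
        · exact contDiff_const.mul ((vS 3).add ((vS 4).mul (vS 5)))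
        · exact (((vS 4).mul ((vS 5).pow 2)).add ((contDiff_const.mul (vS 3)).mul (vS 5))).sub (vS 2)
        · exact (((contDiff_const.mul (vS 3)).mul (vS 4)).sub ((contDiff_const.mul ((vS 4).pow 2)).mul (vS 5))).sub (vS 1)) i j
    simpa [nl] using this
  have dS : ∀ i j, ContDiff ℝ ∞ fun x : Fin 8 → ℝ => DN (Real.exp (-(x 7) / 2)) (Real.exp ((x 7 - x 6) / 2)) i j := by
    have e1 : ContDiff ℝ ∞ fun x : Fin 8 → ℝ => Real.exp (-(x 7) / 2) := ((hx 7).neg.div_const _).exp
    have e2 : ContDiff ℝ ∞ fun x : Fin 8 → ℝ => Real.exp ((x 7 - x 6) / 2) := (((hx 7).sub (hx 6)).div_const _).exp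
    intro i j
    by_cases hij : i = j
    · subst hij
      simp only [DN, Matrix.diagonal_apply_eq]
      fin_cases i <;> simp
      · exact e1.mul e2
      · exact e1
      · exact e2
      · exact contDiff_const
      · exact e2.inv fun x => (Real.exp_pos _).ne'
      · exact e1.inv fun x => (Real.exp_pos _).ne'
      · exact (e2.inv fun x => (Real.exp_pos _).ne').mul (e1.inv fun x => (Real.exp_pos _).ne')
    · simp only [DN, Matrix.diagonal_apply_ne _ hij]
      exact contDiff_const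
  exact mulS _ _ (mulS _ _ nS (reS .L12 (fun x => x 5) (hx 5))) dS i j

/-- `SN (g * sN x) i j` is smooth in x; the denominators are positive by `SN_pos` (det (g * sN x) ≠ 0 by `InN_det_ne`) -/
theorem actN_smooth (g : Mat) (hg : InN g) : ContDiff ℝ ∞ (actN g) := by
  have hS : ∀ i j, ContDiff ℝ ∞ fun x : Fin 8 → ℝ => SN (g * sN x) i j := by
    intro i j
    simp only [SN_apply, Matrix.mul_apply]
    refine ContDiff.sum fun k _ => ContDiff.mul (ContDiff.mul (ContDiff.sum fun l _ => contDiff_const.mul (sN_smooth l k)) contDiff_const)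
      (ContDiff.sum fun l _ => contDiff_const.mul (sN_smooth l k))
  have hpos : ∀ x : Fin 8 → ℝ, 0 < SN (g * sN x) 6 6 ∧ 0 < SN (g * sN x) 5 5 - SN (g * sN x) 5 6 ^ 2 / SN (g * sN x) 6 6 := by
    intro x
    exact SN_pos _ (InN_det_ne _ (InN_mul hg (sN_InN x)))
  have n1 : ∀ x : Fin 8 → ℝ, SN (g * sN x) 6 6 ≠ 0 := fun x => (hpos x).1.ne'
  have n2 : ∀ x : Fin 8 → ℝ, SN (g * sN x) 5 5 - SN (g * sN x) 5 6 ^ 2 / SN (g * sN x) 6 6 ≠ 0 := fun x => (hpos x).2.ne'
  have hd : ContDiff ℝ ∞ fun x : Fin 8 → ℝ => SN (g * sN x) 5 5 - SN (g * sN x) 5 6 ^ 2 / SN (g * sN x) 6 6 :=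
    (hS 5 5).sub (((hS 5 6).pow 2).div (hS 6 6) n1)
  rw [contDiff_pi]
  intro k
  unfold actN pN
  fin_cases k <;> simp
  · exact (hS 5 6).div (hS 6 6) n1
  · exact (hS 4 6).div (hS 6 6) n1
  · exact (hS 3 6).div (hS 6 6) n1
  · exact (hS 2 6).div (hS 6 6) n1
  · exact (hS 1 6).div (hS 6 6) n1
  · exact ((hS 4 5).sub (((hS 4 6).mul (hS 5 6)).div (hS 6 6) n1)).div hd n2
  · exact ((hS 6 6).div_const _).log fun x => div_ne_zero (n1 x) two_ne_zero
  · exact (hd.div_const _).log fun x => div_ne_zero (n2 x) two_ne_zero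

/-- continuity of pN on invertible matrices -/
theorem pN_continuous {T : Type} [TopologicalSpace T] (F : T → Mat) (hF : Continuous F) (hd : ∀ t, (F t).det ≠ 0) :
    Continuous fun t => pN (F t) := by
  have hF' : ∀ i j, Continuous fun t => F t i j := fun i j => hF.matrix_elem i j
  have hS : ∀ i j, Continuous fun t => SN (F t) i j := by
    intro i j
    simp only [SN_apply]
    exact continuous_finset_sum _ fun k _ => ((hF' i k).mul continuous_const).mul (hF' j k)
  have hpos : ∀ t, 0 < SN (F t) 6 6 ∧ 0 < SN (F t) 5 5 - SN (F t) 5 6 ^ 2 / SN (F t) 6 6 := fun t => SN_pos _ (hd t)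
  have n1 : ∀ t, SN (F t) 6 6 ≠ 0 := fun t => (hpos t).1.ne'
  have n2 : ∀ t, SN (F t) 5 5 - SN (F t) 5 6 ^ 2 / SN (F t) 6 6 ≠ 0 := fun t => (hpos t).2.ne'
  have hdd : Continuous fun t => SN (F t) 5 5 - SN (F t) 5 6 ^ 2 / SN (F t) 6 6 :=
    (hS 5 5).sub (((hS 5 6).pow 2).div (hS 6 6) n1)
  apply continuous_pi
  intro k
  unfold pN
  fin_cases k <;> simp
  · exact (hS 5 6).div (hS 6 6) n1
  · exact (hS 4 6).div (hS 6 6) n1
  · exact (hS 3 6).div (hS 6 6) n1
  · exact (hS 2 6).div (hS 6 6) n1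
  · exact (hS 1 6).div (hS 6 6) n1
  · exact ((hS 4 5).sub (((hS 4 6).mul (hS 5 6)).div (hS 6 6) n1)).div hdd n2
  · exact ((hS 6 6).div_const _).log fun x => div_ne_zero (n1 x) two_ne_zero
  · exact (hdd.div_const _).log fun x => div_ne_zero (n2 x) two_ne_zero

/-- `h = sN y * k` (`iwasawa`), `pN h = y` (`pN_mul_KN`, `pN_sN`), `g * h = (g * sN y) * k`. -/
theorem pN_mul (g h : Mat) (hg : InN g) (hh : InN h) : pN (g * h) = actN g (pN h) := by
  obtain ⟨y, k, hk, rfl⟩ := iwasawa h hh
  rw [pN_mul_KN _ _ hk, pN_sN, ← Matrix.mul_assoc, pN_mul_KN _ _ hk, actN]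

theorem actN_one (x : Fin 8 → ℝ) : actN 1 x = x := by
  rw [actN, Matrix.one_mul, pN_sN]

theorem actN_mul (g h : Mat) (hg : InN g) (hh : InN h) (x : Fin 8 → ℝ) : actN (g * h) x = actN g (actN h x) := by
  rw [actN, Matrix.mul_assoc, pN_mul g _ hg (InN_mul hh (sN_InN x)), ← actN]

/-- Proof: (→) g = sN y k, h = sN y l with the same y = pN g = pN h, so adjN g * h = k⁻¹ * l (`KN_adjN`, `KN_mul`);  (←) h = g * (adjN g * h), `pN_mul_KN`. -/
theorem pN_eq_iff (g h : Mat) (hg : InN g) (hh : InN h) : pN g = pN h ↔ KN (adjN g * h) := by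
  constructor
  · intro e
    obtain ⟨y, k, hk, hgk⟩ := iwasawa g hg
    obtain ⟨z, l, hl, hhl⟩ := iwasawa h hh
    have h1 : pN g = y := by rw [hgk, pN_mul_KN _ _ hk, pN_sN]
    have h2 : pN h = z := by rw [hhl, pN_mul_KN _ _ hl, pN_sN]
    have hyz : y = z := by rw [← h1, ← h2, e]
    have h3 : adjN g * g = 1 := adjN_mul g hg.1
    have h4 : k * adjN k = 1 := mul_adjN k hk.1.1
    have h5 : sN y = g * adjN k := by
      rw [hgk, Matrix.mul_assoc, h4, Matrix.mul_one]
    have h6 : adjN g * h = adjN k * l := by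
      rw [hhl, ← hyz, h5, ← Matrix.mul_assoc, ← Matrix.mul_assoc, h3, Matrix.one_mul]
    rw [h6]
    exact KN_mul (KN_adjN hk) hl
  · intro hk
    have h1 : g * adjN g = 1 := mul_adjN g hg.1
    have h2 : h = g * (adjN g * h) := by rw [← Matrix.mul_assoc, h1, Matrix.one_mul]
    rw [h2, pN_mul_KN _ _ hk]

end C37.PGX
end

section

/-!
MP_c37615_al (S02984), part GX, task E08: the action preserves the orientation.
-/

set_option autoImplicit false
set_option linter.all false

open Matrix
open scoped ContDiff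

namespace C37.PGX

private theorem E08_chain (F G : (Fin 8 → ℝ) → (Fin 8 → ℝ)) (hF : ContDiff ℝ ∞ F) (hG : ContDiff ℝ ∞ G) (x : Fin 8 → ℝ) :
    (fderiv ℝ (F ∘ G) x).det = (fderiv ℝ F (G x)).det * (fderiv ℝ G x).det := by
  have h1 : DifferentiableAt ℝ F (G x) := hF.differentiable (by simp) _
  have h2 : DifferentiableAt ℝ G x := hG.differentiable (by simp) _
  rw [fderiv_comp x h1 h2]
  exact LinearMap.det_comp _ _

private theorem E08_mul (g h : Mat) (hg : InN g) (hh : InN h) (x : Fin 8 → ℝ) :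
    (fderiv ℝ (actN (g * h)) x).det = (fderiv ℝ (actN g) (actN h x)).det * (fderiv ℝ (actN h) x).det := by
  have : actN (g * h) = actN g ∘ actN h := by
    funext y
    exact actN_mul g h hg hh y
  rw [this]
  exact E08_chain _ _ (actN_smooth g hg) (actN_smooth h hh) x

/-- chain rule for `actN (adjN g) ∘ actN g = id` -/
theorem det_ne (g : Mat) (hg : InN g) (x : Fin 8 → ℝ) : (fderiv ℝ (actN g) x).det ≠ 0 := by
  intro h0
  have h := E08_mul (adjN g) g (InN_adjN g hg) hg x
  rw [adjN_mul g hg.1, h0, mul_zero] at h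
  have h1 : actN (1 : Mat) = id := by
    funext y
    exact actN_one y
  rw [h1, fderiv_id] at h
  have h2 : (ContinuousLinearMap.id ℝ (Fin 8 → ℝ)).det = 1 := by
    simp [ContinuousLinearMap.det]
  rw [h2] at h
  exact one_ne_zero h

/-- chain rule -/
theorem det_mul (g h : Mat) (hg : InN g) (hh : InN h) (x : Fin 8 → ℝ) :
    (fderiv ℝ (actN (g * h)) x).det = (fderiv ℝ (actN g) (actN h x)).det * (fderiv ℝ (actN h) x).det :=
  E08_mul g h hg hh x

/-- `x ↦ det (fderiv (actN g) x)` is continuous (`actN_smooth`) and has no zero, and ℝ^8 is connected (use `IsPreconnected.intermediate_value` or the segment from x to y) -/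
theorem det_sign (g : Mat) (hg : InN g) (x y : Fin 8 → ℝ) :
    0 < (fderiv ℝ (actN g) x).det * (fderiv ℝ (actN g) y).det := by
  have hc : Continuous fun z : Fin 8 → ℝ => (fderiv ℝ (actN g) z).det :=
    ContinuousLinearMap.continuous_det.comp ((actN_smooth g hg).continuous_fderiv (by simp))
  by_contra hcon
  push Not at hcon
  have hx := det_ne g hg x
  have hy := det_ne g hg y
  have key : ∃ z, (fderiv ℝ (actN g) z).det = 0 := by
    rcases mul_nonpos_iff.1 hcon with h | h
    · exact mem_range_of_exists_le_of_exists_ge hc ⟨y, h.2⟩ ⟨x, h.1⟩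
    · exact mem_range_of_exists_le_of_exists_ge hc ⟨x, h.1⟩ ⟨y, h.2⟩
  obtain ⟨z, hz⟩ := key
  exact det_ne g hg z hz

/-- squares have positive determinant (`det_mul`, `det_sign`); `re r s = re r (s/2) * re r (s/2)`; words by `det_mul`; `InN_Gen`. -/
theorem det_pos (g : Mat) (hg : InN g) (x : Fin 8 → ℝ) : 0 < (fderiv ℝ (actN g) x).det := by
  have hre : ∀ (r : Rt) (s : ℝ) (y : Fin 8 → ℝ), 0 < (fderiv ℝ (actN (re r s)) y).det := by
    intro r s y
    have h : re r s = re r (s/2) * re r (s/2) := by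
      rw [← re_add]; congr 1; ring
    rw [h, det_mul _ _ (re_InN r _) (re_InN r _)]
    exact det_sign _ (re_InN r _) _ _
  have hw : ∀ (l : List (Rt × ℝ)) (y : Fin 8 → ℝ), 0 < (fderiv ℝ (actN (word l)) y).det := by
    intro l
    induction l with
    | nil =>
      intro y
      have h1 : actN (word []) = id := by
        funext z
        rw [word_nil]
        exact actN_one z
      rw [h1, fderiv_id]
      have h2 : (ContinuousLinearMap.id ℝ (Fin 8 → ℝ)).det = 1 := by
        simp [ContinuousLinearMap.det]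
      rw [h2]
      exact one_pos
    | cons a l ih =>
      intro y
      have h : word (a :: l) = re a.1 a.2 * word l := by simp [word]
      rw [h, det_mul _ _ (re_InN _ _) (word_InN l)]
      exact mul_pos (hre _ _ _) (ih _)
  obtain ⟨l, rfl⟩ := InN_Gen g hg
  exact hw l x

end C37.PGX
end

section

/-!
MP_c37615_al (S02984), part GX, task F01: the group GG and matrices.
-/

set_option autoImplicit false
set_option linter.all false

open Matrix
open scoped ContDiff

namespace C37.PGX

/-- the matrix of g in null coordinates -/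
noncomputable def mN (g : GG) : Mat := toN ((g : GL (Fin 7) ℝ) : Mat)

theorem mN_InN (g : GG) : InN (mN g) := InN_toN _ g.2

theorem mN_mul (g h : GG) : mN (g * h) = mN g * mN h := by
  simp [mN, toN_mul]

theorem mN_one : mN 1 = 1 := by
  simp [mN, toN_one]

theorem mN_inj (g h : GG) (e : mN g = mN h) : g = h := by
  apply Subtype.ext
  apply Units.ext
  have := congrArg ofN e
  simpa [mN, ofN_toN] using this

theorem mN_inv (g : GG) : mN g⁻¹ = adjN (mN g) := by
  have h1 : mN g⁻¹ * mN g = 1 := by rw [← mN_mul, inv_mul_cancel, mN_one]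
  have h2 : mN g * adjN (mN g) = 1 := mul_adjN _ (mN_InN g).1
  calc mN g⁻¹ = mN g⁻¹ * (mN g * adjN (mN g)) := by rw [h2, Matrix.mul_one]
    _ = _ := by rw [← Matrix.mul_assoc, h1, Matrix.one_mul]

/-- the group element with a given matrix in null coordinates -/
noncomputable def mk (M : Mat) (h : InN M) : GG :=
  ⟨⟨ofN M, ofN (adjN M), by rw [← ofN_mul, mul_adjN M h.1, ofN_one], by rw [← ofN_mul, adjN_mul M h.1, ofN_one]⟩,
    InG_ofN M h⟩

theorem mN_mk (M : Mat) (h : InN M) : mN (mk M h) = M := by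
  simp [mN, mk, toN_ofN]

theorem mk_mN (g : GG) : mk (mN g) (mN_InN g) = g := mN_inj _ _ (mN_mk _ _)

theorem mk_mul (M N : Mat) (hM : InN M) (hN : InN N) : mk (M * N) (InN_mul hM hN) = mk M hM * mk N hN :=
  mN_inj _ _ (by rw [mN_mul, mN_mk, mN_mk, mN_mk])

/-- `Units.continuous_val`, `continuous_subtype_val` -/
theorem mN_continuous : Continuous mN := by
  unfold mN toN
  have h1 : Continuous fun g : GG => ((g : GL (Fin 7) ℝ) : Mat) :=
    Units.continuous_val.comp continuous_subtype_val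
  exact (continuous_const.matrix_mul h1).matrix_mul continuous_const

/-- continuity into GG can be checked on matrices: `Continuous.subtype_mk`, `Units.continuous_iff`, entries of ofN (adjN (F t)) are continuous -/
theorem mk_continuous {T : Type} [TopologicalSpace T] (F : T → Mat) (hF : Continuous F) (h : ∀ t, InN (F t)) :
    Continuous fun t => mk (F t) (h t) := by
  unfold mk
  refine Continuous.subtype_mk ?_ _
  rw [Units.continuous_iff]
  constructor
  · show Continuous fun t => ofN (F t)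
    unfold ofN
    exact (continuous_const.matrix_mul hF).matrix_mul continuous_const
  · show Continuous fun t => ofN (adjN (F t))
    unfold ofN
    refine (continuous_const.matrix_mul ?_).matrix_mul continuous_const
    unfold adjN
    refine continuous_pi fun i => continuous_pi fun j => ?_
    simp only [Matrix.of_apply]
    have : Continuous fun t => F t (Fin.rev j) (Fin.rev i) := (continuous_apply_apply (Fin.rev j) (Fin.rev i)).comp hF
    exact (continuous_const.mul this).div_const _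

/-- `ofN k` is orthogonal iff `k * diagonal kap * kᵀ = diagonal kap`, because `PN * diagonal kap * PNᵀ = 1` and `PI * PIᵀ = diagonal kap` -/
theorem mem_Kset_iff (k : GG) : k ∈ Kset ↔ KN (mN k) := by
  have hPI : PI * PIᵀ = Matrix.diagonal kap := by
    ext i j; fin_cases i <;> fin_cases j <;>
      simp [PI, kap, Matrix.mul_apply, Fin.sum_univ_succ, Matrix.diagonal_apply] <;> norm_num
  have hPN : PN * Matrix.diagonal kap * PNᵀ = 1 := by
    rw [← hPI]
    calc PN * (PI * PIᵀ) * PNᵀ = (PN * PI) * (PN * PI)ᵀ := by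
          rw [Matrix.transpose_mul]; simp only [Matrix.mul_assoc]
      _ = 1 := by rw [PN_PI]; simp
  have hk : ((k : GL (Fin 7) ℝ) : Mat) = PN * mN k * PI := by
    have := ofN_toN ((k : GL (Fin 7) ℝ) : Mat)
    exact this.symm
  have hkk : ((k : GL (Fin 7) ℝ) : Mat) * (((k : GL (Fin 7) ℝ) : Mat))ᵀ
      = PN * (mN k * Matrix.diagonal kap * (mN k)ᵀ) * PNᵀ := by
    rw [hk, ← hPI, Matrix.transpose_mul, Matrix.transpose_mul]
    simp only [Matrix.mul_assoc]
  have hmem : k ∈ Kset ↔ ((k : GL (Fin 7) ℝ) : Mat) * (((k : GL (Fin 7) ℝ) : Mat))ᵀ = 1 := by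
    unfold Kset
    rw [Set.mem_setOf_eq]
    exact mul_eq_one_comm
  rw [hmem, hkk]
  constructor
  · intro h
    refine ⟨mN_InN k, ?_⟩
    have h3 : PI * (PN * (mN k * Matrix.diagonal kap * (mN k)ᵀ) * PNᵀ) * PIᵀ = PI * 1 * PIᵀ := by rw [h]
    rw [Matrix.mul_one, hPI] at h3
    refine Eq.trans ?_ h3
    calc mN k * Matrix.diagonal kap * (mN k)ᵀ
        = (PI * PN) * (mN k * Matrix.diagonal kap * (mN k)ᵀ) * (PI * PN)ᵀ := by
          rw [PI_PN]; simp
      _ = _ := by
          rw [Matrix.transpose_mul]; simp only [Matrix.mul_assoc]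
  · intro h
    rw [h.2, hPN]

/-- The set C = {M : Mat | InN M ∧ M * diagonal kap * Mᵀ = diagonal kap} is compact (closed, and bounded: Σ_j kap j (M i j)^2 = kap i), and
Kset is the range of the continuous map C → GG, M ↦ mk M (`mk_continuous`, `mem_Kset_iff`, `mk_mN`). -/
theorem Kset_compact : IsCompact Kset := by
  have hcomp : IsCompact {M : Mat | KN M} := by
    have hbox : IsCompact (Set.pi Set.univ (fun _ : Fin 7 => Set.pi Set.univ (fun _ : Fin 7 => Set.Icc (-2 : ℝ) 2))) :=
      isCompact_univ_pi fun _ => isCompact_univ_pi fun _ => isCompact_Icc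
    refine IsCompact.of_isClosed_subset hbox ?_ ?_
    · have e : {M : Mat | KN M} =
          ((⋂ u : V, ⋂ v : V, {M : Mat | BN (M *ᵥ u) (M *ᵥ v) = BN u v}) ∩
            (⋂ u : V, ⋂ v : V, {M : Mat | crossN (M *ᵥ u) (M *ᵥ v) = M *ᵥ (crossN u v)})) ∩
            {M : Mat | M * Matrix.diagonal kap * Mᵀ = Matrix.diagonal kap} := by
        ext M
        simp [KN, InN]
      rw [e]
      have hmv : ∀ u : V, Continuous fun M : Mat => M *ᵥ u := fun u => continuous_id.matrix_mulVec continuous_const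
      have hmvi : ∀ (u : V) (i : Fin 7), Continuous fun M : Mat => (M *ᵥ u) i := fun u i =>
        (continuous_apply i).comp (hmv u)
      refine IsClosed.inter (IsClosed.inter ?_ ?_) ?_
      · refine isClosed_iInter fun u => isClosed_iInter fun v => isClosed_eq ?_ continuous_const
        unfold BN
        have a0 := hmvi u 0; have a1 := hmvi u 1; have a2 := hmvi u 2; have a3 := hmvi u 3
        have a4 := hmvi u 4; have a5 := hmvi u 5; have a6 := hmvi u 6
        have b0 := hmvi v 0; have b1 := hmvi v 1; have b2 := hmvi v 2; have b3 := hmvi v 3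
        have b4 := hmvi v 4; have b5 := hmvi v 5; have b6 := hmvi v 6
        exact ((a3.mul b3).neg).sub (continuous_const.mul
          ((((((a0.mul b6).add (a6.mul b0)).add (a1.mul b5)).add (a5.mul b1)).add (a2.mul b4)).add (a4.mul b2)))
      · refine isClosed_iInter fun u => isClosed_iInter fun v => isClosed_eq ?_ (hmv _)
        have a0 := hmvi u 0; have a1 := hmvi u 1; have a2 := hmvi u 2; have a3 := hmvi u 3
        have a4 := hmvi u 4; have a5 := hmvi u 5; have a6 := hmvi u 6
        have b0 := hmvi v 0; have b1 := hmvi v 1; have b2 := hmvi v 2; have b3 := hmvi v 3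
        have b4 := hmvi v 4; have b5 := hmvi v 5; have b6 := hmvi v 6
        unfold crossN
        refine continuous_pi fun i => ?_
        fin_cases i
        · exact ((a1.mul b2).sub (a2.mul b1)).sub ((a3.mul b0).sub (a0.mul b3))
        · exact ((a3.mul b1).sub (a1.mul b3)).sub ((a4.mul b0).sub (a0.mul b4))
        · exact ((a3.mul b2).sub (a2.mul b3)).sub ((a0.mul b5).sub (a5.mul b0))
        · exact continuous_const.mul ((((a1.mul b5).sub (a5.mul b1)).add ((a2.mul b4).sub (a4.mul b2))).add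
            ((a6.mul b0).sub (a0.mul b6)))
        · exact ((a6.mul b1).sub (a1.mul b6)).sub ((a3.mul b4).sub (a4.mul b3))
        · exact ((a2.mul b6).sub (a6.mul b2)).sub ((a3.mul b5).sub (a5.mul b3))
        · exact ((a3.mul b6).sub (a6.mul b3)).sub ((a5.mul b4).sub (a4.mul b5))
      · refine isClosed_eq ?_ continuous_const
        exact (continuous_id.matrix_mul continuous_const).matrix_mul continuous_id.matrix_transpose
    · intro M hM
      have h2 : M * Matrix.diagonal kap * Mᵀ = Matrix.diagonal kap := hM.2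
      intro i _ j _
      have h3 : ∑ k, M i k * kap k * M i k = kap i := by
        have := congrFun (congrFun h2 i) i
        simpa [Matrix.mul_apply, Matrix.diagonal_apply] using this
      have hk1 : ∀ k : Fin 7, 1 ≤ kap k := by
        intro k; fin_cases k <;> simp [kap]
      have hk2 : kap i ≤ 2 := by
        fin_cases i <;> simp [kap]
      have h4 : M i j * kap j * M i j ≤ ∑ k, M i k * kap k * M i k :=
        Finset.single_le_sum (f := fun k => M i k * kap k * M i k)
          (fun k _ => by nlinarith [hk1 k, mul_self_nonneg (M i k)]) (Finset.mem_univ j)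
      have h5 : M i j * M i j ≤ 2 := by
        nlinarith [hk1 j, mul_self_nonneg (M i j)]
      constructor <;> nlinarith [mul_self_nonneg (M i j - 2), mul_self_nonneg (M i j + 2)]
  have himg : Kset = Set.range (fun M : {M : Mat | KN M} => mk M.1 M.2.1) := by
    ext k
    constructor
    · intro hk
      exact ⟨⟨mN k, (mem_Kset_iff k).1 hk⟩, mk_mN k⟩
    · rintro ⟨M, rfl⟩
      rw [mem_Kset_iff, mN_mk]
      exact M.2
  rw [himg]
  haveI : CompactSpace {M : Mat | KN M} := isCompact_iff_compactSpace.1 hcomp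
  exact isCompact_range (mk_continuous (fun M : {M : Mat | KN M} => M.1) continuous_subtype_val (fun M => M.2.1))

end C37.PGX
end

section

/-!
MP_c37615_al (S02984), part GX, task F02: the model of G/K, path connectedness, no subgroup of finite index, det = 1.
-/

set_option autoImplicit false
set_option linter.all false

open Matrix
open scoped ContDiff

namespace C37.PGX

/-- act g = actN (mN g), p g = pN (mN g), s x = mk (sN x) _.  Continuity of p: `pN_continuous`, `InN_det_ne`, `mN_continuous`; of s: `mk_continuous`, `sN_smooth`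
(continuity of a matrix valued function is entrywise: `continuous_matrix`/`continuous_pi`); the rest: `pN_sN`, `pN_mul`, `actN_smooth`, `det_pos`,
`pN_eq_iff` with `mN (g⁻¹ * h) = adjN (mN g) * mN h`, `mem_Kset_iff`, `Kset_compact`. -/
theorem GX_model' : ∃ (act : GG → X → X) (p : GG → X) (s : X → GG),
    Continuous p ∧ Continuous s ∧ (∀ x, p (s x) = x) ∧ (∀ g h, p (g * h) = act g (p h)) ∧
    (∀ g, ContDiff ℝ ∞ (act g)) ∧ (∀ g x, 0 < (fderiv ℝ (act g) x).det) ∧
    (∀ g h, p g = p h ↔ g⁻¹ * h ∈ Kset) ∧ IsCompact Kset := by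
  refine ⟨fun g => actN (mN g), fun g => pN (mN g), fun x => mk (sN x) (sN_InN x), ?_, ?_, ?_, ?_, ?_, ?_, ?_, Kset_compact⟩
  · exact pN_continuous mN mN_continuous (fun g => InN_det_ne _ (mN_InN g))
  · refine mk_continuous sN ?_ sN_InN
    exact continuous_pi fun i => continuous_pi fun j => (sN_smooth i j).continuous
  · intro x
    show pN (mN (mk (sN x) (sN_InN x))) = x
    rw [mN_mk, pN_sN]
  · intro g h
    show pN (mN (g * h)) = actN (mN g) (pN (mN h))
    rw [mN_mul, pN_mul _ _ (mN_InN g) (mN_InN h)]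
  · intro g
    exact actN_smooth _ (mN_InN g)
  · intro g x
    exact det_pos _ (mN_InN g) x
  · intro g h
    show pN (mN g) = pN (mN h) ↔ g⁻¹ * h ∈ Kset
    rw [pN_eq_iff _ _ (mN_InN g) (mN_InN h), mem_Kset_iff, mN_mul, mN_inv]

/-- root elements of GG -/
noncomputable def rG (r : Rt) (s : ℝ) : GG := mk (re r s) (re_InN r s)

theorem rG_add (r : Rt) (s t : ℝ) : rG r (s + t) = rG r s * rG r t := by
  apply mN_inj
  rw [mN_mul, rG, rG, rG, mN_mk, mN_mk, mN_mk, re_add]

theorem rG_zero (r : Rt) : rG r 0 = 1 := by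
  apply mN_inj
  rw [rG, mN_mk, re_zero, mN_one]

/-- entries of re r s are continuous in s (12 cases); `mk_continuous` -/
theorem rG_continuous (r : Rt) : Continuous (rG r) := by
  refine mk_continuous (re r) ?_ (re_InN r)
  obtain ⟨Q, hQ⟩ := wordt_poly [(r, 1)]
  have e : re r = fun t => Matrix.of fun i j => (Q i j).eval t := by
    funext t
    ext i j
    rw [Matrix.of_apply, hQ t i j]
    simp [wordt, word]
  rw [e]
  exact continuous_pi fun i => continuous_pi fun j => (Q i j).continuous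

/-- `InN_Gen` : `mN g = word l`, induction on l -/
theorem rG_generate (H : Subgroup GG) (hH : ∀ r s, rG r s ∈ H) : H = ⊤ := by
  have key : ∀ (l : List (Rt × ℝ)) (g : GG), mN g = word l → g ∈ H := by
    intro l
    induction l with
    | nil =>
      intro g hg
      rw [word_nil, ← mN_one] at hg
      rw [mN_inj _ _ hg]
      exact H.one_mem
    | cons p l ih =>
      intro g hg
      have h1 : mk (word l) (word_InN l) ∈ H := ih _ (mN_mk _ _)
      have h2 : g = rG p.1 p.2 * mk (word l) (word_InN l) := by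
        apply mN_inj
        rw [mN_mul, rG, mN_mk, mN_mk, hg, word_cons]
      rw [h2]
      exact H.mul_mem (hH _ _) h1
  rw [eq_top_iff]
  intro g _
  obtain ⟨l, hl⟩ := InN_Gen (mN g) (mN_InN g)
  exact key l g hl

/-- `mN g = word l` (`InN_Gen`), c t = mk (wordt l t) _ (`wordt_InN`, `wordt_zero`, `wordt_one`, continuity from `wordt_poly` or by induction) -/
theorem GX_pathConnected' (g : GG) : ∃ c : ℝ → GG, Continuous c ∧ c 0 = 1 ∧ c 1 = g := by
  obtain ⟨l, hl⟩ := InN_Gen (mN g) (mN_InN g)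
  refine ⟨fun t => mk (wordt l t) (wordt_InN l t), ?_, ?_, ?_⟩
  · refine mk_continuous (wordt l) ?_ (wordt_InN l)
    obtain ⟨Q, hQ⟩ := wordt_poly l
    have e : wordt l = fun t => Matrix.of fun i j => (Q i j).eval t := by
      funext t
      ext i j
      rw [Matrix.of_apply, hQ t i j]
    rw [e]
    exact continuous_pi fun i => continuous_pi fun j => (Q i j).continuous
  · apply mN_inj
    show mN (mk (wordt l 0) (wordt_InN l 0)) = mN 1
    rw [mN_mk, wordt_zero, mN_one]
  · apply mN_inj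
    show mN (mk (wordt l 1) (wordt_InN l 1)) = mN g
    rw [mN_mk, wordt_one, hl]

/-- H of finite index: its normal core N has finite index m > 0 and g ^ m ∈ N ≤ H for all g (`Subgroup.normalCore`, `Subgroup.pow_index_mem` or the order of G/N).
`rG r s = (rG r (s / m)) ^ m ∈ H`; `rG_generate`. -/
theorem GX_noFiniteIndex' (H : Subgroup GG) (hH : H.FiniteIndex) : H = ⊤ := by
  haveI := hH
  haveI : H.normalCore.FiniteIndex := inferInstance
  have hm : H.normalCore.index ≠ 0 := Subgroup.FiniteIndex.index_ne_zero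
  have hpow : ∀ (r : Rt) (t : ℝ) (n : ℕ), rG r t ^ n = rG r (n * t) := by
    intro r t n
    induction n with
    | zero => simp [rG_zero]
    | succ n ih =>
      rw [pow_succ, ih, ← rG_add]
      congr 1
      push_cast
      ring
  apply rG_generate
  intro r s
  have h1 := Subgroup.pow_index_mem (H := H.normalCore) (rG r (s / H.normalCore.index))
  rw [hpow] at h1
  have h2 : ((H.normalCore.index : ℕ) : ℝ) * (s / H.normalCore.index) = s := by
    have : ((H.normalCore.index : ℕ) : ℝ) ≠ 0 := by exact_mod_cast hm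
    field_simp
  rw [h2] at h1
  exact H.normalCore_le h1

/-- det (re r s) = 1: e.g. `d(s) = det (re r s)` : det (re r s) = det (re r (s/2))^2 > 0 and = ±1 because re r s preserves BN
(`adjN M * M = 1` and det (adjN M) = det M: adjN M is obtained from Mᵀ by multiplication with diagonal kap, its inverse and the reversal permutation);
or directly: all `re r s` are unitriangular in a suitable order (`Matrix.det_of_upperTriangular`, `Matrix.det_of_lowerTriangular`).
Then det (word l) = 1 and det g = det (toN g) = 1. -/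
theorem GX_det (g : Mat) (hg : InG g) : g.det = 1 := by
  have hre : ∀ (r : Rt) (s : ℝ), (re r s).det = 1 := by
    intro r s
    cases r
    case L12 | L13 | L23 | S1 | S2 | T3 =>
      rw [Matrix.det_of_upperTriangular]
      · simp [re, Fin.prod_univ_succ]
      · intro i j hij
        fin_cases i <;> fin_cases j <;> first | (exfalso; revert hij; decide) | simp [re]
    case L21 | L31 | L32 | S3 | T1 | T2 =>
      rw [Matrix.det_of_lowerTriangular]
      · simp [re, Fin.prod_univ_succ]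
      · intro i j hij
        fin_cases i <;> fin_cases j <;> first | (exfalso; revert hij; decide) | simp [re]
  have hw : ∀ l : List (Rt × ℝ), (word l).det = 1 := by
    intro l
    induction l with
    | nil => rw [word_nil, Matrix.det_one]
    | cons p l ih => rw [word_cons, Matrix.det_mul, hre, ih, mul_one]
  obtain ⟨l, hl⟩ := InN_Gen (toN g) (InN_toN g hg)
  have h1 : (toN g).det = 1 := by rw [hl, hw]
  have h2 : PN.det * PI.det = 1 := by rw [← Matrix.det_mul, PN_PI, Matrix.det_one]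
  rw [← ofN_toN g]
  unfold ofN
  rw [Matrix.det_mul, Matrix.det_mul, h1, mul_one, h2]

end C37.PGX
end

section

/-!
MP_c37615_al (S02984), part GX, task G01: transitivity statements in standard coordinates, stabiliser of va.
-/

set_option autoImplicit false
set_option linter.all false

open Matrix
open scoped ContDiff

namespace C37.PGX

private theorem G01_iN3 (A : Matrix (Fin 3) (Fin 3) ℝ) : iN A *ᵥ en 3 = en 3 := by
  ext i
  fin_cases i <;> simp [iN, en]

private theorem G01_va : va = PN *ᵥ en 3 := PN_single3.symm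

/-- xv, yv in null coordinates: xv c = PN *ᵥ (c 0 en 1 + c 1 en 2 + c 2 en 6), yv c = PN *ᵥ (c 0 en 5 + c 1 en 4 + c 2 en 0) (`PN_single..`) -/
theorem xv_eq (c : Fin 3 → ℝ) : xv c = PN *ᵥ ![0, c 0, c 1, 0, 0, 0, c 2] := by
  ext i
  fin_cases i <;> simp [xv, x1, x2, x3, PN, Matrix.mulVec, dotProduct, Fin.sum_univ_succ] <;> ring

theorem yv_eq (c : Fin 3 → ℝ) : yv c = PN *ᵥ ![c 2, 0, 0, 0, c 1, c 0, 0] := by
  ext i
  fin_cases i <;> simp [yv, y1, y2, y3, PN, Matrix.mulVec, dotProduct, Fin.sum_univ_succ] <;> ring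

private theorem G01_iNx (A : Matrix (Fin 3) (Fin 3) ℝ) (c : Fin 3 → ℝ) :
    iN A *ᵥ ![0, c 0, c 1, 0, 0, 0, c 2] = ![0, (A *ᵥ c) 0, (A *ᵥ c) 1, 0, 0, 0, (A *ᵥ c) 2] := by
  ext i
  fin_cases i <;> simp [iN, Matrix.mulVec, dotProduct, Fin.sum_univ_succ] <;> ring

private theorem G01_iNy (A : Matrix (Fin 3) (Fin 3) ℝ) (c : Fin 3 → ℝ) :
    iN A *ᵥ ![c 2, 0, 0, 0, c 1, c 0, 0] =
      ![(cof A *ᵥ c) 2, 0, 0, 0, (cof A *ᵥ c) 1, (cof A *ᵥ c) 0, 0] := by
  ext i
  fin_cases i <;> simp only [iN, Matrix.mulVec, dotProduct, Fin.sum_univ_succ] <;> simp <;> ring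

private theorem G01_iota (A : Matrix (Fin 3) (Fin 3) ℝ) (hA : A.det = 1) :
    ofN (iN A) *ᵥ va = va ∧ (∀ c, ofN (iN A) *ᵥ (xv c) = xv (A *ᵥ c)) ∧
      (∀ c, ofN (iN A) *ᵥ (yv c) = yv ((A⁻¹)ᵀ *ᵥ c)) := by
  refine ⟨?_, ?_, ?_⟩
  · rw [G01_va, ofN_mulVec, G01_iN3]
  · intro c
    rw [xv_eq, xv_eq, ofN_mulVec, G01_iNx]
  · intro c
    rw [yv_eq, yv_eq, ofN_mulVec, G01_iNy, ← cof_eq A hA]

/-- g = ofN (iN A), `ofN_mulVec`, `cof_eq` -/
theorem GX_iota' (A : Matrix (Fin 3) (Fin 3) ℝ) (hA : A.det = 1) :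
    ∃ g : Mat, InG g ∧ g *ᵥ va = va ∧ (∀ c, g *ᵥ (xv c) = xv (A *ᵥ c)) ∧
      (∀ c, g *ᵥ (yv c) = yv ((A⁻¹)ᵀ *ᵥ c)) :=
  ⟨ofN (iN A), InG_ofN _ (iN_InN A hA), G01_iota A hA⟩

/-- `InN_stab` for toN g (`toN_mulVec`, `PN_single3`, PI_PN_vec), then the same computation -/
theorem GX_stab_va' (g : Mat) (hg : InG g) (h : g *ᵥ va = va) :
    ∃ A : Matrix (Fin 3) (Fin 3) ℝ, A.det = 1 ∧ (∀ c, g *ᵥ (xv c) = xv (A *ᵥ c)) ∧
      (∀ c, g *ᵥ (yv c) = yv ((A⁻¹)ᵀ *ᵥ c)) := by
  have h3 : toN g *ᵥ en 3 = en 3 := by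
    have e : en 3 = PI *ᵥ va := by rw [G01_va, PI_PN_vec]
    rw [e, toN_mulVec, h]
  obtain ⟨A, hA, hgA⟩ := InN_stab (toN g) (InN_toN g hg) h3
  have hg' : g = ofN (iN A) := by rw [← hgA, ofN_toN]
  obtain ⟨-, h1, h2⟩ := G01_iota A hA
  exact ⟨A, hA, by rw [hg']; exact h1, by rw [hg']; exact h2⟩

private theorem G01_orth (e u : V) : BN (crossN e u) u = 0 := by
  simp [BN, crossN]; ring

private theorem G01_orth' (e u : V) : BN (crossN e u) e = 0 := by
  simp [BN, crossN]; ring

private theorem G01_BN_add (u v w : V) : BN (u + v) w = BN u w + BN v w := by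
  simp [BN]; ring

private theorem G01_cross_add (u v w : V) : crossN u (v + w) = crossN u v + crossN u w := by
  ext i; fin_cases i <;> simp [crossN] <;> ring

private theorem G01_exists_u (e : V) : ∃ u : V, BN e u = 0 ∧ BN u u ≠ 0 := by
  by_cases h : e 2 - e 4 = 0 ∧ e 1 - e 5 = 0
  · refine ⟨![0, 1, 0, 0, 0, -1, 0], ?_, ?_⟩
    · simp [BN]; linarith [h.2]
    · simp [BN]
  · refine ⟨![0, e 2 - e 4, -(e 1 - e 5), 0, e 1 - e 5, -(e 2 - e 4), 0], ?_, ?_⟩
    · simp [BN]; ring
    · have : BN ![0, e 2 - e 4, -(e 1 - e 5), 0, e 1 - e 5, -(e 2 - e 4), 0]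
          ![0, e 2 - e 4, -(e 1 - e 5), 0, e 1 - e 5, -(e 2 - e 4), 0] =
          (e 2 - e 4) ^ 2 + (e 1 - e 5) ^ 2 := by
        simp [BN]; ring
      rw [this]
      intro h0
      apply h
      constructor
      · nlinarith [sq_nonneg (e 2 - e 4), sq_nonneg (e 1 - e 5)]
      · nlinarith [sq_nonneg (e 2 - e 4), sq_nonneg (e 1 - e 5)]

/-- Null coordinates.  Proof: choose u with BN e u = 0 and BN u u ≠ 0 (in span of en 1, en 5, en 2, en 4; e.g. u = combination of en 1 - en 5 (BN = 1) and en 2 - en 4 (BN = 1) orthogonal to e).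
w = u + crossN e u satisfies crossN e w = w (`crossN_crossN`: crossN e (crossN e u) = u), BN w u = BN u u ≠ 0 (BN (crossN e u) u = 0), so w ≠ 0, and w is null:
BN w w = BN (crossN e w) w = 0.  `exists_to_null`: w = N *ᵥ en 6, N ∈ Gen ⊆ G.  e' = adjN N *ᵥ e has crossN e' (en 6) = en 6: reading the components, e' 0 = e' 1 = e' 2 = 0, e' 3 = 1.
Then e' = re T2 (e' 4) * re T1 (e' 5) * re S3 ((e' 6 + e' 4 * e' 5 / 2) / 2) *ᵥ en 3  (checked by hand: re S3 c en 3 = en 3 + 2c en 6, re T1 s: en 3 ↦ en 3 + s en 5, en 6 ↦ en 6,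
re T2 s: en 3 ↦ en 3 + s en 4, en 5 ↦ en 5 - (s/2) en 6, en 6 ↦ en 6). -/
theorem InN_trans_neg (e : V) (he : BN e e = -1) : ∃ M : Mat, InN M ∧ M *ᵥ en 3 = e := by
  obtain ⟨u, hu1, hu2⟩ := G01_exists_u e
  set w : V := u + crossN e u with hw
  have hew : crossN e w = w := by
    rw [hw, G01_cross_add, crossN_crossN, he, hu1]
    simp [add_comm]
  have hw0 : w ≠ 0 := by
    intro h0
    apply hu2
    have h1 : BN w u = BN u u := by rw [hw, G01_BN_add, G01_orth, add_zero]
    rw [← h1, h0]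
    simp [BN]
  have hww : BN w w = 0 := by
    have := G01_orth e w
    rwa [hew] at this
  obtain ⟨N, hN, hN6⟩ := exists_to_null w hw0 hww
  have hNI : InN N := Gen_InN N hN
  set e' : V := adjN N *ᵥ e with he'
  have hNe : N *ᵥ e' = e := by
    rw [he', Matrix.mulVec_mulVec, mul_adjN N hNI.1, Matrix.one_mulVec]
  have h6 : crossN e' (en 6) = en 6 := by
    have h1 : N *ᵥ (crossN e' (en 6)) = N *ᵥ en 6 := by
      rw [← hNI.2, hNe, hN6, hew]
    have h2 := congrArg (fun x => adjN N *ᵥ x) h1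
    simpa only [Matrix.mulVec_mulVec, adjN_mul N hNI.1, Matrix.one_mulVec] using h2
  have c0 : e' 0 = 0 := by have := congrFun h6 3; simp [crossN, en] at this; exact this
  have c1 : e' 1 = 0 := by have := congrFun h6 4; simp [crossN, en] at this; exact this
  have c2 : e' 2 = 0 := by have := congrFun h6 5; simp [crossN, en] at this; exact this
  have c3 : e' 3 = 1 := by have := congrFun h6 6; simp [crossN, en] at this; exact this
  refine ⟨N * (re .T2 (e' 4) * (re .T1 (e' 5) * re .S3 ((e' 6 + e' 4 * e' 5 / 2) / 2))),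
    InN_mul hNI (InN_mul (re_InN _ _) (InN_mul (re_InN _ _) (re_InN _ _))), ?_⟩
  have h3 : (re .T2 (e' 4) * (re .T1 (e' 5) * re .S3 ((e' 6 + e' 4 * e' 5 / 2) / 2))) *ᵥ en 3 = e' := by
    rw [← Matrix.mulVec_mulVec, ← Matrix.mulVec_mulVec]
    have s1 : re .S3 ((e' 6 + e' 4 * e' 5 / 2) / 2) *ᵥ en 3 = ![0, 0, 0, 1, 0, 0, e' 6 + e' 4 * e' 5 / 2] := by
      ext i
      fin_cases i <;> simp [re, en] <;> ring
    rw [s1]
    have s2 : re .T1 (e' 5) *ᵥ ![0, 0, 0, 1, 0, 0, e' 6 + e' 4 * e' 5 / 2] =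
        ![0, 0, 0, 1, 0, e' 5, e' 6 + e' 4 * e' 5 / 2] := by
      ext i
      fin_cases i <;> simp [re, Matrix.mulVec, dotProduct, Fin.sum_univ_succ]
    rw [s2]
    ext i
    fin_cases i <;> simp [re, Matrix.mulVec, dotProduct, Fin.sum_univ_succ, c0, c1, c2, c3]
    ring
  rw [← Matrix.mulVec_mulVec, h3, hNe]

private theorem G01_PI_B (p : V) (a : ℝ) (h : B p p = a) : BN (PI *ᵥ p) (PI *ᵥ p) = a := by
  rw [← B_PN, PN_PI_vec, h]

theorem GX_trans_neg' (e : V) (he : B e e = -1) : ∃ g : Mat, InG g ∧ g *ᵥ va = e := by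
  obtain ⟨M, hM, hM3⟩ := InN_trans_neg (PI *ᵥ e) (G01_PI_B e _ he)
  exact ⟨ofN M, InG_ofN M hM, by rw [G01_va, ofN_mulVec, hM3, PN_PI_vec]⟩

private theorem G01_cross_gs (p p' : V) (a b t : ℝ) :
    crossN (a • p) (b • (p' - t • p)) = (a * b) • crossN p p' := by
  ext i; fin_cases i <;> simp [crossN] <;> ring

private theorem G01_BN_gs (p p' : V) (b t : ℝ) :
    BN (b • (p' - t • p)) (b • (p' - t • p)) = b ^ 2 * (BN p' p' - 2 * t * BN p p' + t ^ 2 * BN p p) := by
  simp [BN]; ring

private theorem G01_En_smul (p p' : V) (a b : ℝ) : En (a • p) (b • p') = a * b * En p p' := by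
  simp only [En, Finset.mul_sum, Pi.smul_apply, smul_eq_mul]
  exact Finset.sum_congr rfl fun i _ => by ring

private theorem G01_En_sub (p p' : V) (t : ℝ) : En p (p' - t • p) = En p p' - t * En p p := by
  simp only [En, Finset.mul_sum, ← Finset.sum_sub_distrib, Pi.sub_apply, Pi.smul_apply, smul_eq_mul]
  exact Finset.sum_congr rfl fun i _ => by ring

private theorem G01_cross_sq (p p' : V) : BN (crossN p p') (crossN p p') = BN p p * BN p' p' - BN p p' ^ 2 := by
  simp [BN, crossN]; ring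

/-- null coordinates: Gram-Schmidt and `K_flag` (as in the proof of `iwasawa`) -/
theorem InN_trans_flag (p p' : V) (hp : BN p p = 0) (hp' : BN p' p' = 0) (hc : crossN p p' = 0)
    (hli : LinearIndependent ℝ ![p, p']) :
    ∃ M : Mat, InN M ∧ ∃ c d e : ℝ, c ≠ 0 ∧ e ≠ 0 ∧ M *ᵥ en 0 = c • p ∧ M *ᵥ en 1 = d • p + e • p' := by
  have hp0 : p ≠ 0 := by
    have := hli.ne_zero 0
    simpa using this
  have hE : 0 < En p p := En_pos p hp0
  set t : ℝ := En p p' / En p p with ht
  set p1 : V := p' - t • p with hp1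
  have hp10 : p1 ≠ 0 := by
    intro h0
    have := LinearIndependent.pair_iff.mp hli (-t) 1 (by
      rw [one_smul, neg_smul]
      have : p' - t • p = 0 := h0
      rw [← this]; abel)
    exact one_ne_zero this.2
  have hE1 : 0 < En p1 p1 := En_pos p1 hp10
  have hpp' : BN p p' = 0 := by
    have h := G01_cross_sq p p'
    rw [hc, hp, hp'] at h
    have h0 : BN (0 : V) 0 = 0 := by simp [BN]
    rw [h0] at h
    have : BN p p' ^ 2 = 0 := by linarith
    exact pow_eq_zero_iff (two_ne_zero) |>.mp this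
  set a : ℝ := (Real.sqrt (2 * En p p))⁻¹ with ha
  set b : ℝ := (Real.sqrt (2 * En p1 p1))⁻¹ with hb
  have ha0 : a ≠ 0 := inv_ne_zero (Real.sqrt_pos.mpr (by linarith)).ne'
  have hb0 : b ≠ 0 := inv_ne_zero (Real.sqrt_pos.mpr (by linarith)).ne'
  have haa : a * a * En p p = 1 / 2 := by
    have : a * a = (2 * En p p)⁻¹ := by
      rw [ha, ← mul_inv, Real.mul_self_sqrt (by linarith)]
    rw [this]; field_simp
  have hbb : b * b * En p1 p1 = 1 / 2 := by
    have : b * b = (2 * En p1 p1)⁻¹ := by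
      rw [hb, ← mul_inv, Real.mul_self_sqrt (by linarith)]
    rw [this]; field_simp
  obtain ⟨k, hk, hk0, hk1⟩ := K_flag (a • p) (b • p1)
    (by
      have : BN (a • p) (a • p) = a ^ 2 * BN p p := by simp [BN]; ring
      rw [this, hp, mul_zero])
    (by rw [hp1, G01_BN_gs, hp, hp', hpp']; ring)
    (by rw [hp1, G01_cross_gs, hc, smul_zero])
    (by rw [G01_En_smul, haa])
    (by rw [G01_En_smul, hbb])
    (by
      rw [G01_En_smul, hp1, G01_En_sub, ht, div_mul_cancel₀ _ hE.ne', sub_self, mul_zero])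
  refine ⟨k, hk.1, a, -(b * t), b, ha0, hb0, hk0, ?_⟩
  rw [hk1, hp1, smul_sub, smul_smul, neg_smul]
  abel

theorem GX_trans_flag' (p p' : V) (hp : B p p = 0) (hp' : B p' p' = 0) (hc : cross p p' = 0)
    (hli : LinearIndependent ℝ ![p, p']) :
    ∃ g : Mat, InG g ∧ ∃ c d e : ℝ, c ≠ 0 ∧ e ≠ 0 ∧ g *ᵥ y3 = c • p ∧ g *ᵥ x1 = d • p + e • p' := by
  have hcn : crossN (PI *ᵥ p) (PI *ᵥ p') = 0 := by
    have h := cross_PN (PI *ᵥ p) (PI *ᵥ p')
    rw [PN_PI_vec, PN_PI_vec, hc] at h
    rw [← PI_PN_vec (crossN (PI *ᵥ p) (PI *ᵥ p')), ← h, Matrix.mulVec_zero]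
  have hl : LinearIndependent ℝ ![PI *ᵥ p, PI *ᵥ p'] := by
    rw [LinearIndependent.pair_iff]
    intro s t hst
    apply LinearIndependent.pair_iff.mp hli s t
    have h := congrArg (fun x => PN *ᵥ x) hst
    simpa only [Matrix.mulVec_add, Matrix.mulVec_smul, PN_PI_vec, Matrix.mulVec_zero] using h
  obtain ⟨M, hM, c, d, e, h1, h2, h3, h4⟩ := InN_trans_flag _ _ (G01_PI_B p _ hp) (G01_PI_B p' _ hp') hcn hl
  refine ⟨ofN M, InG_ofN M hM, c, d, e, h1, h2, ?_, ?_⟩
  · rw [← PN_single0, ofN_mulVec]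
    show PN *ᵥ (M *ᵥ en 0) = _
    rw [h3, Matrix.mulVec_smul, PN_PI_vec]
  · rw [← PN_single1, ofN_mulVec]
    show PN *ᵥ (M *ᵥ en 1) = _
    rw [h4, Matrix.mulVec_add, Matrix.mulVec_smul, Matrix.mulVec_smul, PN_PI_vec, PN_PI_vec]

end C37.PGX
end
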