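import Mathlib
import Pool.Agent.Lib.MP_c37615_al.Mg.G016
import Pool.Agent.Lib.MP_c37615_al.Defs2
import Pool.Agent.Lib.MP_c37615_al.Mg.G013
import Pool.Agent.Lib.MP_c37615_al.Mg.G007
import Pool.Agent.Lib.MP_c37615_al.C.Base
import Pool.Agent.Lib.MP_c37615_al.R.RDefs
import Pool.Agent.Lib.MP_c37615_al.Defs
import Pool.Agent.Lib.MP_c37615_al.D.Core
import Pool.Agent.Lib.MP_c37615_al.Mg.G033

section

/-!
MP_c37615_al (S02984), part GX, task F03: root data for part B.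
-/

set_option autoImplicit false
set_option linter.all false

open Matrix
open scoped ContDiff

namespace C37.PGX

/-- SL_3 in GG -/
noncomputable def iG : Matrix.SpecialLinearGroup (Fin 3) ℝ →* GG where
  toFun A := mk (iN A.1) (iN_InN A.1 A.2)
  map_one' := by
    apply mN_inj; rw [mN_mk, mN_one]; exact iN_one
  map_mul' A A' := by
    apply mN_inj; rw [mN_mul, mN_mk, mN_mk, mN_mk]; exact iN_mul _ _

/-- `mk_continuous`; entries of iN are polynomials in the entries -/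
theorem iG_continuous : Continuous iG := by
  have h : Continuous (fun A : Matrix.SpecialLinearGroup (Fin 3) ℝ => iN A.1) := by
    have hv : Continuous (fun A : Matrix.SpecialLinearGroup (Fin 3) ℝ => A.1) := continuous_subtype_val
    have he : ∀ i j, Continuous (fun A : Matrix.SpecialLinearGroup (Fin 3) ℝ => A.1 i j) :=
      fun i j => hv.matrix_elem i j
    refine continuous_matrix fun i j => ?_
    fin_cases i <;> fin_cases j <;> simp [iN, cof] <;>
      first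
      | exact continuous_const
      | exact he _ _
      | exact ((he _ _).mul (he _ _)).sub ((he _ _).mul (he _ _))
      | exact continuous_const
  exact mk_continuous _ h (fun A => iN_InN A.1 A.2)

private theorem F03_conj {r : Rt} {A : Matrix.SpecialLinearGroup (Fin 3) ℝ}
    (h : ∀ s, iN A.1 * re r s = re r (2 * s) * iN A.1) (s : ℝ) :
    iG A * rG r s * (iG A)⁻¹ = rG r (2 * s) := by
  rw [mul_inv_eq_iff_eq_mul]
  apply mN_inj
  rw [mN_mul, mN_mul]
  simp only [rG, mN_mk]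
  show mN (mk (iN A.1) (iN_InN A.1 A.2)) * re r s = re r (2 * s) * mN (mk (iN A.1) (iN_InN A.1 A.2))
  rw [mN_mk]
  exact h s

private noncomputable def F03_d (a b c : ℝ) (h : a * b * c = 1) : Matrix.SpecialLinearGroup (Fin 3) ℝ :=
  ⟨Matrix.diagonal ![a, b, c], by simp [Matrix.det_diagonal, Fin.prod_univ_three, h]⟩

private theorem F03_S1 (s : ℝ) : iN (F03_d 2 (1/2) 1 (by norm_num)).1 * re .S1 s =
    re .S1 (2 * s) * iN (F03_d 2 (1/2) 1 (by norm_num)).1 := by
  ext i j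
  fin_cases i <;> fin_cases j <;>
    simp [F03_d, iN, cof, re, Matrix.mul_apply, Fin.sum_univ_succ] <;> ring

private theorem F03_T1 (s : ℝ) : iN (F03_d (1/2) 2 1 (by norm_num)).1 * re .T1 s =
    re .T1 (2 * s) * iN (F03_d (1/2) 2 1 (by norm_num)).1 := by
  ext i j
  fin_cases i <;> fin_cases j <;>
    simp [F03_d, iN, cof, re, Matrix.mul_apply, Fin.sum_univ_succ] <;> ring

private theorem F03_S2 (s : ℝ) : iN (F03_d (1/2) 2 1 (by norm_num)).1 * re .S2 s =
    re .S2 (2 * s) * iN (F03_d (1/2) 2 1 (by norm_num)).1 := by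
  ext i j
  fin_cases i <;> fin_cases j <;>
    simp [F03_d, iN, cof, re, Matrix.mul_apply, Fin.sum_univ_succ] <;> ring

private theorem F03_T2 (s : ℝ) : iN (F03_d 2 (1/2) 1 (by norm_num)).1 * re .T2 s =
    re .T2 (2 * s) * iN (F03_d 2 (1/2) 1 (by norm_num)).1 := by
  ext i j
  fin_cases i <;> fin_cases j <;>
    simp [F03_d, iN, cof, re, Matrix.mul_apply, Fin.sum_univ_succ] <;> ring

private theorem F03_S3 (s : ℝ) : iN (F03_d (1/2) 1 2 (by norm_num)).1 * re .S3 s =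
    re .S3 (2 * s) * iN (F03_d (1/2) 1 2 (by norm_num)).1 := by
  ext i j
  fin_cases i <;> fin_cases j <;>
    simp [F03_d, iN, cof, re, Matrix.mul_apply, Fin.sum_univ_succ] <;> ring

private theorem F03_T3 (s : ℝ) : iN (F03_d 2 1 (1/2) (by norm_num)).1 * re .T3 s =
    re .T3 (2 * s) * iN (F03_d 2 1 (1/2) (by norm_num)).1 := by
  ext i j
  fin_cases i <;> fin_cases j <;>
    simp [F03_d, iN, cof, re, Matrix.mul_apply, Fin.sum_univ_succ] <;> ring

private theorem F03_comm {p q : Fin 3} (h : p ≠ q) {r l : Rt}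
    (hl : ∀ s, re l s = iN (Matrix.transvection p q (-s)))
    (hc : ∀ s t, re l s * re r t = re r t * re l s) (s t : ℝ) :
    iG (Matrix.SpecialLinearGroup.transvection h s) * rG r t =
      rG r t * iG (Matrix.SpecialLinearGroup.transvection h s) := by
  have e : mN (iG (Matrix.SpecialLinearGroup.transvection h s)) = re l (-s) := by
    show mN (mk (iN (Matrix.SpecialLinearGroup.transvection h s).1)
      (iN_InN _ (Matrix.SpecialLinearGroup.transvection h s).2)) = _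
    rw [mN_mk, hl, neg_neg]
    rfl
  apply mN_inj
  rw [mN_mul, mN_mul, e]
  simp only [rG, mN_mk]
  exact hc _ _

private theorem F03_c1 (s t : ℝ) : re .L23 s * re .S1 t = re .S1 t * re .L23 s := by
  ext i j
  fin_cases i <;> fin_cases j <;> simp [re, Matrix.mul_apply, Fin.sum_univ_succ] <;> ring
private theorem F03_c2 (s t : ℝ) : re .L13 s * re .S2 t = re .S2 t * re .L13 s := by
  ext i j
  fin_cases i <;> fin_cases j <;> simp [re, Matrix.mul_apply, Fin.sum_univ_succ] <;> ring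
private theorem F03_c3 (s t : ℝ) : re .L12 s * re .S3 t = re .S3 t * re .L12 s := by
  ext i j
  fin_cases i <;> fin_cases j <;> simp [re, Matrix.mul_apply, Fin.sum_univ_succ] <;> ring
private theorem F03_c4 (s t : ℝ) : re .L23 s * re .T1 t = re .T1 t * re .L23 s := by
  ext i j
  fin_cases i <;> fin_cases j <;> simp [re, Matrix.mul_apply, Fin.sum_univ_succ] <;> ring
private theorem F03_c5 (s t : ℝ) : re .L13 s * re .T2 t = re .T2 t * re .L13 s := by
  ext i j
  fin_cases i <;> fin_cases j <;> simp [re, Matrix.mul_apply, Fin.sum_univ_succ] <;> ring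
private theorem F03_c6 (s t : ℝ) : re .L12 s * re .T3 t = re .T3 t * re .L12 s := by
  ext i j
  fin_cases i <;> fin_cases j <;> simp [re, Matrix.mul_apply, Fin.sum_univ_succ] <;> ring

/-- the six short root groups -/
noncomputable def sG : Fin 6 → ℝ → GG := fun i => rG (![Rt.S1, Rt.S2, Rt.S3, Rt.T1, Rt.T2, Rt.T3] i)

/-- the torus element scaling a short root group by 2: for S1 (a ↦ 2 x1): diag(2,1/2,1) (x1 has weight 2): DN 2 (1/2) * re S1 s * DN (1/2) 2 = re S1 (2 s);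
for T1 the inverse diag(1/2,2,1); S2, T2: diag(1/2,2,1), diag(2,1/2,1); S3, T3: diag(1/2,1,2), diag(2,1,1/2).
Check on matrices: `mN_inj`, `mN_mk`, `DN_eq_iN`. -/
theorem sG_scale (i : Fin 6) : ∃ d : Matrix.SpecialLinearGroup (Fin 3) ℝ, ∀ s, iG d * sG i s * (iG d)⁻¹ = sG i (2 * s) := by
  fin_cases i
  · exact ⟨_, F03_conj F03_S1⟩
  · exact ⟨_, F03_conj F03_S2⟩
  · exact ⟨_, F03_conj F03_S3⟩
  · exact ⟨_, F03_conj F03_T1⟩
  · exact ⟨_, F03_conj F03_T2⟩
  · exact ⟨_, F03_conj F03_T3⟩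

/-- commuting long root groups: S1, T1 commute with E_23 = transvection (p,q) = (1,2) and E_32;  S2, T2 with (2,0) / (0,2);  S3, T3 with (0,1) / (1,0):
find a working pair for each by computing `re (short) t * iN (transvection p q s) = iN (transvection p q s) * re (short) t` -/
theorem sG_comm (i : Fin 6) : ∃ p q : Fin 3, ∃ h : p ≠ q, ∀ s t,
    iG (Matrix.SpecialLinearGroup.transvection h s) * sG i t = sG i t * iG (Matrix.SpecialLinearGroup.transvection h s) := by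
  fin_cases i
  · exact ⟨1, 2, by decide, F03_comm _ re_L23 F03_c1⟩
  · exact ⟨0, 2, by decide, F03_comm _ re_L13 F03_c2⟩
  · exact ⟨0, 1, by decide, F03_comm _ re_L12 F03_c3⟩
  · exact ⟨1, 2, by decide, F03_comm _ re_L23 F03_c4⟩
  · exact ⟨0, 2, by decide, F03_comm _ re_L13 F03_c5⟩
  · exact ⟨0, 1, by decide, F03_comm _ re_L12 F03_c6⟩

/-- `rG_generate`: the long root elements are images of transvections (`re_L12`, ...) -/
theorem iG_sG_generate (H : Subgroup GG) (h1 : ∀ A, iG A ∈ H) (h2 : ∀ i s, sG i s ∈ H) : H = ⊤ := by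
  have hl : ∀ (l : Rt) (p q : Fin 3) (h : p ≠ q) (hl : ∀ s, re l s = iN (Matrix.transvection p q (-s))) (s : ℝ),
      rG l s ∈ H := by
    intro l p q h hl s
    have e : rG l s = iG (Matrix.SpecialLinearGroup.transvection h (-s)) := by
      apply mN_inj
      show _ = mN (mk (iN (Matrix.SpecialLinearGroup.transvection h (-s)).1)
        (iN_InN _ (Matrix.SpecialLinearGroup.transvection h (-s)).2))
      rw [mN_mk, rG, mN_mk, hl]
      rfl
    rw [e]; exact h1 _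
  apply rG_generate
  intro r s
  cases r
  · exact hl _ 0 1 (by decide) re_L12 s
  · exact hl _ 1 0 (by decide) re_L21 s
  · exact hl _ 0 2 (by decide) re_L13 s
  · exact hl _ 2 0 (by decide) re_L31 s
  · exact hl _ 1 2 (by decide) re_L23 s
  · exact hl _ 2 1 (by decide) re_L32 s
  · exact h2 0 s
  · exact h2 1 s
  · exact h2 2 s
  · exact h2 3 s
  · exact h2 4 s
  · exact h2 5 s

theorem GX_rootData' : ∃ (ι : Matrix.SpecialLinearGroup (Fin 3) ℝ →* GG) (S : Fin 6 → ℝ → GG),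
    Continuous ι ∧ (∀ i, Continuous (S i)) ∧ (∀ i s t, S i (s + t) = S i s * S i t) ∧
    (∀ i, ∃ d : Matrix.SpecialLinearGroup (Fin 3) ℝ, ∀ s, ι d * S i s * (ι d)⁻¹ = S i (2 * s)) ∧
    (∀ i, ∃ p q : Fin 3, ∃ h : p ≠ q, ∀ s t,
      ι (Matrix.SpecialLinearGroup.transvection h s) * S i t = S i t * ι (Matrix.SpecialLinearGroup.transvection h s)) ∧
    (∀ H : Subgroup GG, (∀ A, ι A ∈ H) → (∀ i s, S i s ∈ H) → H = ⊤) :=
  ⟨iG, sG, iG_continuous, fun i => rG_continuous _, fun i s t => rG_add _ _ _, sG_scale, sG_comm, iG_sG_generate⟩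

end C37.PGX
end

section

/-!
MP_c37615_al (S02984): exports of PART GX
-/

set_option autoImplicit false

open Filter Topology
open scoped ContDiff

namespace C37

/-! ### Part GX -/

theorem GX_model : ∃ (act : GG → X → X) (p : GG → X) (s : X → GG),
    Continuous p ∧ Continuous s ∧ (∀ x, p (s x) = x) ∧ (∀ g h, p (g * h) = act g (p h)) ∧
    (∀ g, ContDiff ℝ ∞ (act g)) ∧ (∀ g x, 0 < (fderiv ℝ (act g) x).det) ∧
    (∀ g h, p g = p h ↔ g⁻¹ * h ∈ Kset) ∧ IsCompact Kset := PGX.GX_model'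

/-- irreducibility of G -/
theorem GX_irred (P Q : MvPolynomial (Fin 7 × Fin 7) ℝ)
    (h : ∀ A : Mat, InG A → MvPolynomial.eval (fun p : Fin 7 × Fin 7 => A p.1 p.2) (P * Q) = 0) :
    (∀ A : Mat, InG A → MvPolynomial.eval (fun p : Fin 7 × Fin 7 => A p.1 p.2) P = 0) ∨
    (∀ A : Mat, InG A → MvPolynomial.eval (fun p : Fin 7 × Fin 7 => A p.1 p.2) Q = 0) := PGX.GX_irred' P Q h

/-- root elements of G (as matrices): unipotent one-parameter groups -/
theorem GX_pathConnected (g : GG) : ∃ c : ℝ → GG, Continuous c ∧ c 0 = 1 ∧ c 1 = g := PGX.GX_pathConnected' g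

theorem GX_B (g : Mat) (hg : InG g) (u v : V) :
    B (g.mulVec u) (g.mulVec v) = B u v ∧ cross (g.mulVec u) (g.mulVec v) = g.mulVec (cross u v) ∧ g.det = 1 :=
  ⟨(PGX.InG_BX g hg).1 u v, (PGX.InG_BX g hg).2 u v, PGX.GX_det g hg⟩

/-- invariant subspaces -/
theorem GX_irreducible (W : Submodule ℝ V) (hW : ∀ g : Mat, InG g → ∀ w ∈ W, g.mulVec w ∈ W) :
    W = ⊥ ∨ W = ⊤ := PGX.GX_irreducible' W hW

/-- (CA): commutative algebras normalised by G are scalar -/
theorem GX_commAlg (Z : Submodule ℝ Mat) (hmul : ∀ a ∈ Z, ∀ b ∈ Z, a * b ∈ Z ∧ a * b = b * a)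
    (hG : ∀ g : Mat, InG g → ∀ a ∈ Z, g * a * g⁻¹ ∈ Z) : ∀ a ∈ Z, ∃ c : ℝ, a = c • (1 : Mat) :=
  PGX.GX_commAlg' Z hmul hG

/-- (CA) for a finite index subgroup: H a subgroup of GG of finite index is everything -/
theorem GX_noFiniteIndex (H : Subgroup GG) (hH : H.FiniteIndex) : H = ⊤ := PGX.GX_noFiniteIndex' H hH

/-- G spans the matrix algebra -/
theorem GX_span (M : Mat) (hM : M ≠ 0) : ∃ h : Mat, InG h ∧ (h * M).trace ≠ 0 := PGX.GX_span' M hM

/-- transitivity on the quadric q = -1 -/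
theorem GX_trans_neg (e : V) (he : B e e = -1) : ∃ g : Mat, InG g ∧ g.mulVec va = e := PGX.GX_trans_neg' e he

/-- the stabiliser of va is SL_3 -/
theorem GX_stab_va (g : Mat) (hg : InG g) (h : g.mulVec va = va) :
    ∃ A : Matrix (Fin 3) (Fin 3) ℝ, A.det = 1 ∧ (∀ c, g.mulVec (xv c) = xv (A.mulVec c)) ∧
      (∀ c, g.mulVec (yv c) = yv ((A⁻¹).transpose.mulVec c)) := PGX.GX_stab_va' g hg h

theorem GX_iota (A : Matrix (Fin 3) (Fin 3) ℝ) (hA : A.det = 1) :
    ∃ g : Mat, InG g ∧ g.mulVec va = va ∧ (∀ c, g.mulVec (xv c) = xv (A.mulVec c)) ∧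
      (∀ c, g.mulVec (yv c) = yv ((A⁻¹).transpose.mulVec c)) := PGX.GX_iota' A hA

/-- transitivity on special flags -/
theorem GX_trans_flag (p p' : V) (hp : B p p = 0) (hp' : B p' p' = 0) (hc : cross p p' = 0)
    (hli : LinearIndependent ℝ ![p, p']) :
    ∃ g : Mat, InG g ∧ ∃ c d e : ℝ, c ≠ 0 ∧ e ≠ 0 ∧ g.mulVec y3 = c • p ∧ g.mulVec x1 = d • p + e • p' :=
  PGX.GX_trans_flag' p p' hp hp' hc hli

/-- data for part B -/
theorem GX_rootData : ∃ (ι : Matrix.SpecialLinearGroup (Fin 3) ℝ →* GG) (S : Fin 6 → ℝ → GG),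
    Continuous ι ∧ (∀ i, Continuous (S i)) ∧ (∀ i s t, S i (s + t) = S i s * S i t) ∧
    (∀ i, ∃ d : Matrix.SpecialLinearGroup (Fin 3) ℝ, ∀ s, ι d * S i s * (ι d)⁻¹ = S i (2 * s)) ∧
    (∀ i, ∃ p q : Fin 3, ∃ h : p ≠ q, ∀ s t,
      ι ⟨Matrix.transvection p q s, Matrix.det_transvection_of_ne p q h s⟩ * S i t
        = S i t * ι ⟨Matrix.transvection p q s, Matrix.det_transvection_of_ne p q h s⟩) ∧
    (∀ H : Subgroup GG, (∀ A, ι A ∈ H) → (∀ i s, S i s ∈ H) → H = ⊤) := PGX.GX_rootData'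

end C37
end

section

/-!
MP_c37615_al, PART B: the group `GG` and the final theorem.
-/

set_option autoImplicit false

open Filter Topology MeasureTheory

namespace C37.PB

theorem gi1_closed_matrix : IsClosed {g : Mat | InG g} := by
  have : {g : Mat | InG g} = ⋂ u : V, ⋂ v : V, ⋂ w : V,
      {g : Mat | phi (g.mulVec u) (g.mulVec v) (g.mulVec w) = phi u v w} := by
    ext g
    simp [InG]
  rw [this]
  refine isClosed_iInter fun u => isClosed_iInter fun v => isClosed_iInter fun w => ?_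
  refine isClosed_eq ?_ continuous_const
  have h : ∀ u : V, ∀ i : Fin 7, Continuous fun g : Mat => g.mulVec u i := by
    intro u i
    simp only [Matrix.mulVec, dotProduct]
    fun_prop
  unfold phi e3 det3
  have := h u
  have := h v
  have := h w
  fun_prop

/-- TASK GI1. `Gs` is closed in `GL (Fin 7) ℝ` (`InG` is an intersection of closed conditions). -/
theorem isClosed_Gs : IsClosed (Gs : Set (GL (Fin 7) ℝ)) :=
  gi1_closed_matrix.preimage Units.continuous_val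

instance gi1_lc_mat : LocallyCompactSpace Mat := inferInstanceAs (LocallyCompactSpace (Fin 7 → Fin 7 → ℝ))

instance gi1_polish_mat : PolishSpace Mat := inferInstanceAs (PolishSpace (Fin 7 → Fin 7 → ℝ))

/-- TASK GI1. `Units.isClosedEmbedding_embedProduct`. -/
theorem locallyCompact_GG : LocallyCompactSpace GG := by
  have h : LocallyCompactSpace (GL (Fin 7) ℝ) := inferInstance
  exact isClosed_Gs.isClosedEmbedding_subtypeVal.locallyCompactSpace

/-- TASK GI1. -/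
theorem polish_GG : PolishSpace GG := by
  have hop : PolishSpace Matᵐᵒᵖ := MulOpposite.opHomeomorph.symm.isClosedEmbedding.polishSpace
  have h : PolishSpace (GL (Fin 7) ℝ) :=
    (Units.isClosedEmbedding_embedProduct (α := Mat)).polishSpace
  exact isClosed_Gs.isClosedEmbedding_subtypeVal.polishSpace

/-- the root data of `GG` -/
theorem exists_rootData : Nonempty (RootData GG) := by
  obtain ⟨ι, S, h1, h2, h3, h4, h5, h6⟩ := GX_rootData
  exact ⟨⟨ι, S, h1, h2, h3, h4, h5, h6⟩⟩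

/-- TASK GI2. Apply `B_abs` to `W' x = W x⁻¹`, `χ' γ = χ γ⁻¹`, `C' = C⁻¹`
(`W' (x γ) = W (γ⁻¹ x⁻¹) = W' x + χ γ⁻¹`), with `borel GG`, `GX_pathConnected`, `exists_rootData`.
For the last statement: given `x_j` for `O`, the elements `x_j⁻¹` and the neighbourhood `O⁻¹`
contradict `B_abs`. -/
theorem B_main (Γ : Subgroup GG) (hΓ : ∀ K : Set GG, IsCompact K → {γ : GG | γ ∈ Γ ∧ γ ∈ K}.Finite)
    (W : GG → ℝ) (hW : Continuous W) (χ : GG → ℝ) (hχ : ∀ γ ∈ Γ, ∀ x, W (γ * x) = W x + χ γ)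
    (C : Set GG) (hC : IsCompact C) (hloc : ∀ x, (∀ γ ∈ Γ, γ * x ∉ C) → ∀ᶠ y in 𝓝 x, W y = W x) :
    (∀ γ ∈ Γ, χ γ = 0) ∧ ∃ c : ℝ, ∀ δ > 0, ∀ O ∈ 𝓝 (1 : GG),
      ¬ ∃ x : ℕ → GG, (∀ j, ∀ o ∈ O, δ ≤ |W (x j * o) - c|) ∧
        (∀ j k, ∀ o ∈ O, ∀ o' ∈ O, ∀ γ ∈ Γ, γ * (x j * o) = x k * o' → j = k ∧ γ = 1) := by
  have hlc := locallyCompact_GG
  have hpol := polish_GG
  let _ : MeasurableSpace GG := borel GG
  have _ : BorelSpace GG := ⟨rfl⟩
  obtain ⟨D⟩ := exists_rootData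
  have hWD : WData Γ (fun x => W x⁻¹) (fun γ => χ γ⁻¹) ((fun x => x⁻¹) '' C) := by
    refine ⟨hW.comp continuous_inv, ?_, hC.image continuous_inv, ?_⟩
    · intro γ hγ x
      rw [mul_inv_rev]
      exact hχ γ⁻¹ (Γ.inv_mem hγ) x⁻¹
    · intro x hx
      have h1 : ∀ γ ∈ Γ, γ * x⁻¹ ∉ C := by
        intro γ hγ hmem
        refine hx γ⁻¹ (Γ.inv_mem hγ) ⟨γ * x⁻¹, hmem, ?_⟩
        simp
      exact (continuous_inv.tendsto x).eventually (hloc x⁻¹ h1)
  obtain ⟨h1, c, h2⟩ := B_abs D GX_pathConnected hΓ hWD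
  refine ⟨fun γ hγ => ?_, c, fun δ hδ O hO => ?_⟩
  · have := h1 γ⁻¹ (Γ.inv_mem hγ)
    simpa using this
  · rintro ⟨x, hx1, hx2⟩
    have hO' : (fun x : GG => x⁻¹) ⁻¹' O ∈ 𝓝 (1 : GG) :=
      continuous_inv.continuousAt.preimage_mem_nhds (by simpa using hO)
    refine h2 δ hδ _ hO' ⟨fun j => (x j)⁻¹, ?_, ?_⟩
    · intro j o ho
      have := hx1 j o⁻¹ ho
      simpa [mul_inv_rev] using this
    · intro j k o ho o' ho' γ hγ heq
      have h3 := hx2 j k o⁻¹ ho o'⁻¹ ho' γ⁻¹ (Γ.inv_mem hγ) (by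
        have := congrArg (fun z => z⁻¹) heq
        simpa [mul_inv_rev, mul_assoc] using this)
      refine ⟨h3.1, ?_⟩
      simpa using h3.2

end C37.PB
end

section

/-!
MP_c37615_al (S02984): exports of PART B
-/

set_option autoImplicit false

open Filter Topology
open scoped ContDiff

namespace C37

/-! ### Part B -/

theorem B_main (Γ : Subgroup GG) (hΓ : ∀ K : Set GG, IsCompact K → {γ : GG | γ ∈ Γ ∧ γ ∈ K}.Finite)
    (W : GG → ℝ) (hW : Continuous W) (χ : GG → ℝ) (hχ : ∀ γ ∈ Γ, ∀ x, W (γ * x) = W x + χ γ)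
    (C : Set GG) (hC : IsCompact C) (hloc : ∀ x, (∀ γ ∈ Γ, γ * x ∉ C) → ∀ᶠ y in 𝓝 x, W y = W x) :
    (∀ γ ∈ Γ, χ γ = 0) ∧ ∃ c : ℝ, ∀ δ > 0, ∀ O ∈ 𝓝 (1 : GG),
      ¬ ∃ x : ℕ → GG, (∀ j, ∀ o ∈ O, δ ≤ |W (x j * o) - c|) ∧
        (∀ j k, ∀ o ∈ O, ∀ o' ∈ O, ∀ γ ∈ Γ, γ * (x j * o) = x k * o' → j = k ∧ γ = 1) :=
  PB.B_main Γ hΓ W hW χ hχ C hC hloc

end C37
end

section

set_option autoImplicit false

open Filter Topology
open scoped ContDiff

namespace C37.PC

/-- evaluation of a polynomial at a matrix -/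
noncomputable def evm (A : Mat) (P : MvPolynomial (Fin 7 × Fin 7) ℝ) : ℝ :=
  MvPolynomial.eval (fun p : Fin 7 × Fin 7 => A p.1 p.2) P

/-- Substitution of `A ↦ A * M`. Proof: `Q = MvPolynomial.bind₁ (fun p => ∑ k, MvPolynomial.X (p.1, k) * MvPolynomial.C (M k p.2)) P`
(`MvPolynomial.aeval`/`eval₂Hom` lemmas, `Matrix.mul_apply`). -/
theorem evm_mul_right (M : Mat) (P : MvPolynomial (Fin 7 × Fin 7) ℝ) :
    ∃ Q : MvPolynomial (Fin 7 × Fin 7) ℝ, ∀ A : Mat, evm A Q = evm (A * M) P := by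
  refine ⟨MvPolynomial.bind₁ (fun p : Fin 7 × Fin 7 =>
    ∑ k, MvPolynomial.X (p.1, k) * MvPolynomial.C (M k p.2)) P, fun A => ?_⟩
  unfold evm
  rw [← MvPolynomial.coe_aeval_eq_eval, ← MvPolynomial.coe_aeval_eq_eval]
  show (MvPolynomial.aeval fun p : Fin 7 × Fin 7 => A p.1 p.2) (MvPolynomial.bind₁ _ P) = _
  rw [MvPolynomial.aeval_bind₁]
  show _ = (MvPolynomial.aeval fun p : Fin 7 × Fin 7 => (A * M) p.1 p.2) P
  congr 2
  funext p
  rw [map_sum, Matrix.mul_apply]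
  refine Finset.sum_congr rfl fun k _ => ?_
  rw [map_mul, MvPolynomial.aeval_X, MvPolynomial.aeval_C]
  rfl

/-- Irreducibility for finite products: induction on the finset with `GX_irred`; the empty product is `1`, which does not vanish at
`A = 1` (`InG 1`). -/
theorem irred_prod {ι : Type} (F : Finset ι) (P : ι → MvPolynomial (Fin 7 × Fin 7) ℝ)
    (h : ∀ A : Mat, InG A → evm A (∏ i ∈ F, P i) = 0) : ∃ i ∈ F, ∀ A : Mat, InG A → evm A (P i) = 0 := by
  classical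
  induction F using Finset.induction_on with
  | empty =>
    exfalso
    have h1 := h 1 (by intro u v w; simp)
    simp [evm] at h1
  | insert i F hi ih =>
    have h2 : ∀ A : Mat, InG A → MvPolynomial.eval (fun p : Fin 7 × Fin 7 => A p.1 p.2)
        (P i * ∏ j ∈ F, P j) = 0 := by
      intro A hA
      have := h A hA
      rw [Finset.prod_insert hi] at this
      exact this
    rcases GX_irred _ _ h2 with h3 | h3
    · exact ⟨i, Finset.mem_insert_self i F, h3⟩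
    · obtain ⟨j, hj, hj2⟩ := ih h3
      exact ⟨j, Finset.mem_insert_of_mem hj, hj2⟩

/-- `lin` is multiplicative: `(γ * δ).linear = γ.linear * δ.linear` as linear maps, `LinearMap.toMatrix'_comp`. -/
theorem lin_mul (γ δ : V ≃ᵃ[ℝ] V) : lin (γ * δ) = lin γ * lin δ := by
  unfold lin
  rw [← LinearMap.toMatrix'_comp]
  rfl

theorem lin_one : lin 1 = 1 := by
  unfold lin
  exact LinearMap.toMatrix'_id

theorem lin_inv (γ : V ≃ᵃ[ℝ] V) : lin γ * lin γ⁻¹ = 1 ∧ lin γ⁻¹ * lin γ = 1 ∧ lin γ⁻¹ = (lin γ)⁻¹ := by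
  have h1 : lin γ * lin γ⁻¹ = 1 := by rw [← lin_mul, mul_inv_cancel, lin_one]
  have h2 : lin γ⁻¹ * lin γ = 1 := by rw [← lin_mul, inv_mul_cancel, lin_one]
  exact ⟨h1, h2, (Matrix.inv_eq_left_inv h2).symm⟩

theorem lin_pow (γ : V ≃ᵃ[ℝ] V) (n : ℕ) : lin (γ ^ n) = lin γ ^ n := by
  induction n with
  | zero => rw [pow_zero, pow_zero, lin_one]
  | succ n ih => rw [pow_succ, pow_succ, lin_mul, ih]

/-- `lin γ` preserves `phi` for `γ ∈ Γ`: `LinearMap.toMatrix'_mulVec`. -/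
theorem lin_inG (Γ : Subgroup (V ≃ᵃ[ℝ] V)) (h : Cryst Γ) (γ : V ≃ᵃ[ℝ] V) (hγ : γ ∈ Γ) : InG (lin γ) := by
  intro u v w
  unfold lin
  rw [LinearMap.toMatrix'_mulVec, LinearMap.toMatrix'_mulVec, LinearMap.toMatrix'_mulVec]
  exact h.inG γ hγ u v w

/-- `InG` is closed under products and inverses. (The inverse: use an explicit two-sided inverse matrix.) -/
theorem inG_mul {A B : Mat} (hA : InG A) (hB : InG B) : InG (A * B) := by
  intro u v w
  have h1 := hA (B.mulVec u) (B.mulVec v) (B.mulVec w)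
  rw [Matrix.mulVec_mulVec, Matrix.mulVec_mulVec, Matrix.mulVec_mulVec] at h1
  rw [h1]
  exact hB u v w

theorem inG_of_inv {A A' : Mat} (hA : InG A) (h1 : A * A' = 1) : InG A' := by
  intro u v w
  have h2 := hA (A'.mulVec u) (A'.mulVec v) (A'.mulVec w)
  rw [Matrix.mulVec_mulVec, Matrix.mulVec_mulVec, Matrix.mulVec_mulVec, h1,
    Matrix.one_mulVec, Matrix.one_mulVec, Matrix.one_mulVec] at h2
  exact h2.symm

/-- Zariski density of finite index subgroups.
Proof. `FinIdx D` gives a finite `F ⊆ Γ` with `γ = δ * f`. For `f ∈ F` let `P_f` be the polynomial with `evm A P_f = evm (A * (lin f)⁻¹) P`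
(`evm_mul_right`). The product of the `P_f` vanishes on `lin γ` for all `γ ∈ Γ` (write `γ = δ f`: `lin γ * (lin f)⁻¹ = lin δ`), so by `h.zd`
it vanishes on `G`; by `irred_prod` some `P_f` vanishes on `G`. For `A` with `InG A`, `A * lin f` is in `G` (`inG_mul`, `lin_inG`), so
`0 = evm (A * lin f) P_f = evm A P`. -/
theorem zd_finIdx (Γ : Subgroup (V ≃ᵃ[ℝ] V)) (h : Cryst Γ) (D : Subgroup Γ) (hD : FinIdx D)
    (P : MvPolynomial (Fin 7 × Fin 7) ℝ) (hP : ∀ δ ∈ D, evm (lin (δ : V ≃ᵃ[ℝ] V)) P = 0) :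
    ∀ A : Mat, InG A → evm A P = 0 := by
  obtain ⟨F, hF⟩ := hD
  choose Q hQ using fun f : Γ => evm_mul_right (lin (f : V ≃ᵃ[ℝ] V)⁻¹) P
  have hprod : ∀ A : Mat, InG A → evm A (∏ f ∈ F, Q f) = 0 := by
    apply h.zd
    intro γ hγ
    obtain ⟨δ, hδ, f, hf, hγf⟩ := hF ⟨γ, hγ⟩
    show evm (lin γ) (∏ f ∈ F, Q f) = 0
    unfold evm
    rw [map_prod]
    apply Finset.prod_eq_zero hf
    show evm (lin γ) (Q f) = 0
    rw [hQ, ← lin_mul]
    have : γ * (f : V ≃ᵃ[ℝ] V)⁻¹ = (δ : V ≃ᵃ[ℝ] V) := by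
      have h1 : γ = (δ : V ≃ᵃ[ℝ] V) * (f : V ≃ᵃ[ℝ] V) := congrArg Subtype.val hγf
      rw [h1, mul_inv_cancel_right]
    rw [this]
    exact hP δ hδ
  obtain ⟨f, hf, hf2⟩ := irred_prod F Q hprod
  intro A hA
  have h1 := hf2 (A * lin (f : V ≃ᵃ[ℝ] V)) (inG_mul hA (lin_inG Γ h _ f.2))
  rw [hQ, mul_assoc, (lin_inv (f : V ≃ᵃ[ℝ] V)).1, mul_one] at h1
  exact h1

end C37.PC
end

section

/-!
MP_c37615_al (S02984), part R, file InjC. See /team-store/MP_c37615_PAPER.md, section 2.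
-/

set_option autoImplicit false

open Filter Topology

namespace C37.PR

/-- The (0,0) entries of elements of G are infinitely many. Proof: for `t > 0` take in `GX_iota`
`A = Matrix.diagonal ![t, t⁻¹, 1]` (det 1, `(A⁻¹)ᵀ = diagonal ![t⁻¹, t, 1]`). Since `Pi.single 0 1 = e0 = x1 - y1
= xv ![1,0,0] - yv ![1,0,0]`, `g e0 = t • x1 - t⁻¹ • y1`, whose coordinate 0 is `(t + t⁻¹)/2 = g 0 0`. These values are
pairwise distinct for `t = 1, 2, 3, ...` (`t ↦ t + 1/t` injective on `[1, ∞)`). -/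
theorem entry_infinite : {x : ℝ | ∃ A : Mat, InG A ∧ A 0 0 = x}.Infinite := by
  have key : ∀ t : ℝ, t ≠ 0 → ∃ A : Mat, InG A ∧ A 0 0 = (t + t⁻¹) / 2 := by
    intro t ht
    have hdet : (Matrix.diagonal ![t, t⁻¹, 1] : Matrix (Fin 3) (Fin 3) ℝ).det = 1 := by
      rw [Matrix.det_diagonal, Fin.prod_univ_three]
      simp [ht]
    obtain ⟨g, hg, -, hx, hy⟩ := GX_iota _ hdet
    refine ⟨g, hg, ?_⟩
    have hinv : (Matrix.diagonal ![t, t⁻¹, 1] : Matrix (Fin 3) (Fin 3) ℝ)⁻¹ =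
        Matrix.diagonal ![t⁻¹, t, 1] := by
      refine Matrix.inv_eq_right_inv ?_
      rw [Matrix.diagonal_mul_diagonal, ← Matrix.diagonal_one]
      congr 1
      ext i
      fin_cases i <;> simp [ht]
    have e0 : (Pi.single 0 1 : V) = xv ![1, 0, 0] - yv ![1, 0, 0] := by
      ext i
      fin_cases i <;> simp [xv, yv, x1, y1]; norm_num
    have e1 : g 0 0 = (g.mulVec (Pi.single 0 1)) 0 := by
      rw [Matrix.mulVec_single_one]
      rfl
    rw [e1, e0, Matrix.mulVec_sub, hx, hy, hinv, Matrix.diagonal_transpose]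
    simp [xv, yv, x1, y1, x2, y2, x3, y3, Matrix.mulVec_diagonal]
    ring
  refine Set.infinite_of_injective_forall_mem
    (f := fun n : ℕ => (((n : ℝ) + 1) + ((n : ℝ) + 1)⁻¹) / 2) ?_ ?_
  · intro m n hmn
    have hm : (0 : ℝ) ≤ m := Nat.cast_nonneg m
    have hn : (0 : ℝ) ≤ n := Nat.cast_nonneg n
    have hmn' : (((m : ℝ) + 1) + ((m : ℝ) + 1)⁻¹) / 2 = (((n : ℝ) + 1) + ((n : ℝ) + 1)⁻¹) / 2 := hmn
    have h2 : ((m : ℝ) - n) * (((m : ℝ) + 1) * ((n : ℝ) + 1) - 1) = 0 := by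
      field_simp at hmn'
      linear_combination hmn'
    rcases mul_eq_zero.1 h2 with h3 | h3
    · exact_mod_cast sub_eq_zero.1 h3
    · have hm0 : (m : ℝ) = 0 := by nlinarith [mul_nonneg hm hn]
      have hn0 : (n : ℝ) = 0 := by nlinarith [mul_nonneg hm hn]
      have : (m : ℝ) = n := by rw [hm0, hn0]
      exact_mod_cast this
  · intro n
    exact key ((n : ℝ) + 1) (by positivity)

end C37.PR
end

section

/-!
MP_c37615_al (S02984), part R, file InjD. See /team-store/MP_c37615_PAPER.md, section 2.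
-/

set_option autoImplicit false

open Filter Topology

namespace C37.PR

/-- The set of linear parts is infinite. -/
theorem lin_infinite (Γ : Subgroup (V ≃ᵃ[ℝ] V)) (h : Cryst Γ) :
    ¬ (lin '' (Γ : Set (V ≃ᵃ[ℝ] V))).Finite := by
  intro hfin
  apply entry_infinite
  have hpoly : PolyFn (fun A => ∏ M ∈ hfin.toFinset, (A 0 0 - M 0 0)) :=
    PolyFn.prod _ _ fun M _ => (PolyFn.entry 0 0).sub (PolyFn.const _)
  have h0 : ∀ γ ∈ Γ, (fun A : Mat => ∏ M ∈ hfin.toFinset, (A 0 0 - M 0 0)) (lin γ) = 0 := by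
    intro γ hγ
    refine Finset.prod_eq_zero (i := lin γ) ?_ ?_
    · rw [Set.Finite.mem_toFinset]
      exact ⟨γ, hγ, rfl⟩
    · simp
  refine (hfin.image (fun M : Mat => M 0 0)).subset ?_
  rintro x ⟨A, hA, rfl⟩
  have h1 := cryst_dense h hpoly h0 A hA
  obtain ⟨M, hM, hM'⟩ := Finset.prod_eq_zero_iff.mp h1
  rw [Set.Finite.mem_toFinset] at hM
  exact ⟨M, hM, (sub_eq_zero.mp hM').symm⟩

end C37.PR
end

section

/-!
MP_c37615_al (S02984), part D-IIb (paper 6.4.4 - 6.4.6), file B_C1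
-/

set_option autoImplicit false

open Filter Topology NormedSpace

namespace C37
namespace DB

/-- products and inverses in G. `InG` of the product: `Matrix.mulVec_mulVec`. Inverse: `GX_B` gives det = 1, so
`g * g⁻¹ = 1 = g⁻¹ * g` (`Matrix.mul_nonsing_inv`); `phi (g⁻¹ u) .. = phi (g (g⁻¹ u)) .. = phi u ..`. -/
theorem inG_mul (g h : Mat) (hg : InG g) (hh : InG h) : InG (g * h) := by
  intro u v w
  rw [← Matrix.mulVec_mulVec, ← Matrix.mulVec_mulVec, ← Matrix.mulVec_mulVec, hg, hh]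

theorem inG_inv (g : Mat) (hg : InG g) : InG g⁻¹ ∧ g * g⁻¹ = 1 ∧ g⁻¹ * g = 1 := by
  have hd : g.det = 1 := (GX_B g hg 0 0).2.2
  have hu : IsUnit g.det := by rw [hd]; exact isUnit_one
  have h1 : g * g⁻¹ = 1 := Matrix.mul_nonsing_inv g hu
  have h2 : g⁻¹ * g = 1 := Matrix.nonsing_inv_mul g hu
  refine ⟨fun u v w => ?_, h1, h2⟩
  have h3 : ∀ u : V, g.mulVec (g⁻¹.mulVec u) = u := by
    intro u
    rw [Matrix.mulVec_mulVec, h1, Matrix.one_mulVec]
  have := hg (g⁻¹.mulVec u) (g⁻¹.mulVec v) (g⁻¹.mulVec w)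
  rw [h3, h3, h3] at this
  exact this.symm

theorem inG_isUnit (g : Mat) (hg : InG g) : IsUnit g := by
  obtain ⟨_, h1, h2⟩ := inG_inv g hg
  exact ⟨⟨g, g⁻¹, h1, h2⟩, rfl⟩

end DB
end C37
end
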