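import Mathlib
import Pool.Agent.Lib.MP_c37615_al.R.RDefs
import Pool.Agent.Lib.MP_c37615_al.Mg.G018

section

/-!
MP_c37615_al (S02984), part R, file NormA. See /team-store/MP_c37615_PAPER.md, section 2.
-/

set_option autoImplicit false

open Filter Topology

namespace C37.PR

namespace NormAAux

theorem inv_bound {A : Type} [NormedRing A] [NormOneClass A] (g g' : A)
    (hg' : g' * g = 1) (h1 : ‖g - 1‖ ≤ 1 / 4) : ‖g'‖ ≤ 4 / 3 := by
  have h2 : g' = 1 - g' * (g - 1) := by rw [mul_sub, hg', mul_one]; abel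
  have h3 : ‖g'‖ ≤ 1 + ‖g'‖ * (1 / 4) := by
    calc ‖g'‖ = ‖1 - g' * (g - 1)‖ := by rw [← h2]
      _ ≤ ‖(1 : A)‖ + ‖g' * (g - 1)‖ := norm_sub_le _ _
      _ ≤ 1 + ‖g'‖ * ‖g - 1‖ := by rw [norm_one]; gcongr; exact norm_mul_le _ _
      _ ≤ 1 + ‖g'‖ * (1 / 4) := by gcongr
  linarith

end NormAAux

/-- Commutator estimate in a normed ring with `‖1‖ = 1`. -/
theorem norm_comm_le {A : Type} [NormedRing A] [NormOneClass A] (g k g' k' : A)
    (hg : g * g' = 1) (hg' : g' * g = 1) (hk : k * k' = 1) (hk' : k' * k = 1)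
    (h1 : ‖g - 1‖ ≤ 1 / 4) (h2 : ‖k - 1‖ ≤ 1 / 4) :
    ‖g * k * g' * k' - 1‖ ≤ 4 * ‖g - 1‖ * ‖k - 1‖ := by
  have hA := NormAAux.inv_bound g g' hg' h1
  have hB := NormAAux.inv_bound k k' hk' h2
  have h3 : g * k * g' * k' - 1 = ((g - 1) * (k - 1) - (k - 1) * (g - 1)) * g' * k' := by
    have h4 : k * g * g' * k' = 1 := by rw [mul_assoc k g g', hg, mul_one, hk]
    calc g * k * g' * k' - 1 = g * k * g' * k' - k * g * g' * k' := by rw [h4]
      _ = _ := by noncomm_ring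
  have h5 : ‖(g - 1) * (k - 1) - (k - 1) * (g - 1)‖ ≤ 2 * (‖g - 1‖ * ‖k - 1‖) := by
    calc ‖(g - 1) * (k - 1) - (k - 1) * (g - 1)‖ ≤ ‖(g - 1) * (k - 1)‖ + ‖(k - 1) * (g - 1)‖ := norm_sub_le _ _
      _ ≤ ‖g - 1‖ * ‖k - 1‖ + ‖k - 1‖ * ‖g - 1‖ := add_le_add (norm_mul_le _ _) (norm_mul_le _ _)
      _ = 2 * (‖g - 1‖ * ‖k - 1‖) := by ring
  rw [h3]
  have hp : 0 ≤ ‖g - 1‖ * ‖k - 1‖ := by positivity
  calc ‖((g - 1) * (k - 1) - (k - 1) * (g - 1)) * g' * k'‖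
      ≤ ‖((g - 1) * (k - 1) - (k - 1) * (g - 1)) * g'‖ * ‖k'‖ := norm_mul_le _ _
    _ ≤ (‖(g - 1) * (k - 1) - (k - 1) * (g - 1)‖ * ‖g'‖) * ‖k'‖ := by gcongr; exact norm_mul_le _ _
    _ ≤ (2 * (‖g - 1‖ * ‖k - 1‖) * (4 / 3)) * (4 / 3) := by gcongr
    _ ≤ 4 * ‖g - 1‖ * ‖k - 1‖ := by nlinarith

end C37.PR
end

section

/-!
MP_c37615_al (S02984), part R, file NormB. See /team-store/MP_c37615_PAPER.md, section 2.
-/

set_option autoImplicit false

open Filter Topology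

namespace C37.PR

/-- Use `Matrix.fromBlocks_multiply`, `lin_mul`, `aff_mul_zero`. -/
theorem T8_mul (d : ℝ) (γ δ : V ≃ᵃ[ℝ] V) : T8 d (γ * δ) = T8 d γ * T8 d δ := by
  unfold T8
  rw [Matrix.fromBlocks_multiply, Matrix.fromBlocks_inj]
  refine ⟨?_, ?_, ?_, ?_⟩
  · rw [lin_mul, Matrix.mul_zero, add_zero]
  · ext i j
    rw [Matrix.mul_one, Matrix.add_apply, Matrix.mul_apply, aff_mul_zero]
    simp only [Matrix.of_apply, Pi.add_apply, Matrix.mulVec, dotProduct]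
    rw [mul_add, Finset.mul_sum]
    congr 1
    refine Finset.sum_congr rfl (fun k _ => ?_)
    ring
  · simp
  · simp

theorem T8_one (d : ℝ) : T8 d 1 = 1 := by
  unfold T8
  rw [← Matrix.fromBlocks_one, Matrix.fromBlocks_inj]
  refine ⟨lin_one, ?_, rfl, rfl⟩
  ext i j
  simp

open scoped Matrix.Norms.Operator in
/-- `norm_comm_le` applied to `T8 d γ`, `T8 d δ`, `T8 d γ⁻¹`, `T8 d δ⁻¹` (`T8_mul`, `T8_one`). -/
theorem nu_comm (d : ℝ) (γ δ : V ≃ᵃ[ℝ] V) (h1 : nu d γ ≤ 1 / 4) (h2 : nu d δ ≤ 1 / 4) :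
    nu d (γ * δ * γ⁻¹ * δ⁻¹) ≤ 4 * nu d γ * nu d δ := by
  unfold nu at *
  rw [T8_mul, T8_mul, T8_mul]

  exact norm_comm_le (T8 d γ) (T8 d δ) (T8 d γ⁻¹) (T8 d δ⁻¹)
    (by rw [← T8_mul, mul_inv_cancel, T8_one]) (by rw [← T8_mul, inv_mul_cancel, T8_one])
    (by rw [← T8_mul, mul_inv_cancel, T8_one]) (by rw [← T8_mul, inv_mul_cancel, T8_one]) h1 h2

open scoped Matrix.Norms.Operator in
/-- If `d > 0` and `nu d γ = 0` then `γ = 1` (`norm_eq_zero`, blocks, `aff_ext`). -/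
theorem eq_one_of_nu (d : ℝ) (hd : 0 < d) (γ : V ≃ᵃ[ℝ] V) (h : nu d γ = 0) : γ = 1 := by
  unfold nu at h
  rw [norm_eq_zero, sub_eq_zero] at h
  unfold T8 at h
  rw [← Matrix.fromBlocks_one, Matrix.fromBlocks_inj] at h
  refine aff_ext γ 1 (by rw [h.1, lin_one]) ?_
  funext i
  have h2 := congrFun (congrFun h.2.1 i) ()
  simp only [Matrix.of_apply, Matrix.zero_apply, mul_eq_zero] at h2
  rcases h2 with h2 | h2
  · exact absurd h2 hd.ne'
  · rw [h2]
    rfl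

end C37.PR
end

section

/-!
MP_c37615_al (S02984), part R, file NormC. See /team-store/MP_c37615_PAPER.md, section 2.
-/

set_option autoImplicit false

open Filter Topology

namespace C37.PR

namespace NormCAux

open scoped Matrix.Norms.Operator in
theorem row_le {m n : Type} [Fintype m] [Fintype n] (A : Matrix m n ℝ) (i : m) : ∑ j, |A i j| ≤ ‖A‖ := by
  rw [Matrix.linfty_opNorm_def]
  have h1 : (∑ j, ‖A i j‖₊) ≤ Finset.univ.sup fun i => ∑ j, ‖A i j‖₊ :=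
    Finset.le_sup (f := fun i => ∑ j, ‖A i j‖₊) (Finset.mem_univ i)
  have h2 := NNReal.coe_le_coe.mpr h1
  simpa [NNReal.coe_sum] using h2

open scoped Matrix.Norms.Operator in
theorem norm_le {m n : Type} [Fintype m] [Fintype n] (A : Matrix m n ℝ) (c : ℝ) (hc : 0 ≤ c)
    (h : ∀ i, ∑ j, |A i j| ≤ c) : ‖A‖ ≤ c := by
  lift c to NNReal using hc
  rw [Matrix.linfty_opNorm_def]
  refine NNReal.coe_le_coe.mpr (Finset.sup_le ?_)
  intro i _
  rw [← NNReal.coe_le_coe, NNReal.coe_sum]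
  simpa using h i

end NormCAux

open scoped Matrix.Norms.Operator in
/-- `nu d γ ≤ mu γ + d * ∑ i, |γ 0 i|` for `d ≥ 0`. -/
theorem nu_le (d : ℝ) (hd : 0 ≤ d) (γ : V ≃ᵃ[ℝ] V) : nu d γ ≤ mu γ + d * ∑ i, |γ 0 i| := by
  unfold nu
  have hS : 0 ≤ d * ∑ i, |γ 0 i| := by positivity
  refine NormCAux.norm_le _ _ (add_nonneg (mu_nonneg γ) hS) ?_
  intro i
  rcases i with i | i
  · have h1 : ∀ j : Fin 7, (T8 d γ - 1) (Sum.inl i) (Sum.inl j) = (lin γ - 1) i j := by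
      intro j
      simp [T8, Matrix.sub_apply, Matrix.one_apply]
    have h2 : ∀ j : Unit, (T8 d γ - 1) (Sum.inl i) (Sum.inr j) = d * γ 0 i := by
      intro j
      simp [T8, Matrix.sub_apply, Matrix.one_apply]
    rw [Fintype.sum_sum_type]
    simp only [h1, h2]
    have h3 : ∑ j, |(lin γ - 1) i j| ≤ mu γ := NormCAux.row_le _ i
    have h4 : |γ 0 i| ≤ ∑ i, |γ 0 i| :=
      Finset.single_le_sum (f := fun i => |γ 0 i|) (fun _ _ => abs_nonneg _) (Finset.mem_univ i)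
    have h5 : ∑ _j : Unit, |d * γ 0 i| ≤ d * ∑ i, |γ 0 i| := by
      simp only [Finset.univ_unique, Finset.sum_const, Finset.card_singleton, one_smul, abs_mul, abs_of_nonneg hd]
      gcongr
    linarith
  · have h1 : ∀ j, (T8 d γ - 1) (Sum.inr i) j = 0 := by
      intro j
      rcases j with j | j
      · simp [T8, Matrix.sub_apply, Matrix.one_apply]
      · simp [T8, Matrix.sub_apply, Matrix.one_apply]
    simp only [h1, abs_zero, Finset.sum_const_zero]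
    exact add_nonneg (mu_nonneg γ) hS

/-- For a finite set of affine maps with `mu γ < e` there is `d > 0` with `nu d γ < 2 * e` on the set. -/
theorem exists_scale (F : Finset (V ≃ᵃ[ℝ] V)) (e : ℝ) (he : 0 < e) (hF : ∀ γ ∈ F, mu γ < e) :
    ∃ d : ℝ, 0 < d ∧ ∀ γ ∈ F, nu d γ < 2 * e := by
  let S : ℝ := ∑ γ ∈ F, ∑ i, |γ 0 i|
  have hS : 0 ≤ S := Finset.sum_nonneg fun γ _ => Finset.sum_nonneg fun i _ => abs_nonneg _
  refine ⟨e / (S + 1), by positivity, fun γ hγ => ?_⟩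
  have h1 := nu_le (e / (S + 1)) (by positivity) γ
  have h2 : ∑ i, |γ 0 i| ≤ S :=
    Finset.single_le_sum (f := fun γ : V ≃ᵃ[ℝ] V => ∑ i, |γ 0 i|)
      (fun γ _ => Finset.sum_nonneg fun i _ => abs_nonneg _) hγ
  have h3 : e / (S + 1) * ∑ i, |γ 0 i| ≤ e := by
    calc e / (S + 1) * ∑ i, |γ 0 i| ≤ e / (S + 1) * S := by gcongr
      _ ≤ e := by
        rw [div_mul_eq_mul_div, div_le_iff₀ (by positivity)]
        nlinarith
  have h4 := hF γ hγ
  linarith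

end C37.PR
end

section

/-!
MP_c37615_al (S02984), part R, file NormD. See /team-store/MP_c37615_PAPER.md, section 2.
-/

set_option autoImplicit false

open Filter Topology

namespace C37.PR

open scoped Matrix.Norms.Operator in
/-- Discreteness of Γ in Aff(V): for `d > 0` only finitely many `γ ∈ Γ` have `nu d γ ≤ R`. -/
theorem nu_finite (Γ : Subgroup (V ≃ᵃ[ℝ] V)) (h : Cryst Γ) (d : ℝ) (hd : 0 < d) (R : ℝ) :
    {γ : V ≃ᵃ[ℝ] V | γ ∈ Γ ∧ nu d γ ≤ R}.Finite := by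
  let K : Set V := Set.Icc (fun _ => -(|R| / d)) (fun _ => |R| / d)
  have hK : IsCompact K := isCompact_Icc
  refine (h.proper K hK).subset ?_
  rintro γ ⟨hγ, hnu⟩
  have h0 : 0 ≤ |R| / d := by positivity
  have hz : (0 : V) ∈ K := ⟨fun i => by simp [h0], fun i => by simp [h0]⟩
  refine ⟨hγ, γ 0, ⟨0, hz, rfl⟩, ?_⟩
  have hi : ∀ i, |γ 0 i| ≤ |R| / d := by
    intro i
    have h1 := NormCAux.row_le (T8 d γ - 1) (Sum.inl i)
    rw [Fintype.sum_sum_type] at h1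
    have h2 : ∀ j : Unit, (T8 d γ - 1) (Sum.inl i) (Sum.inr j) = d * γ 0 i := by
      intro j
      simp [T8, Matrix.sub_apply, Matrix.one_apply]
    simp only [h2] at h1
    have h3 : 0 ≤ ∑ j : Fin 7, |(T8 d γ - 1) (Sum.inl i) (Sum.inl j)| :=
      Finset.sum_nonneg fun _ _ => abs_nonneg _
    have h4 : ∑ _j : Unit, |d * γ 0 i| = d * |γ 0 i| := by
      simp [abs_mul, abs_of_pos hd]
    rw [h4] at h1
    have h5 : d * |γ 0 i| ≤ |R| := by
      have h6 : ‖T8 d γ - 1‖ ≤ R := hnu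
      have h7 := le_abs_self R
      linarith
    rw [le_div_iff₀ hd]
    linarith
  constructor
  · intro i
    exact (abs_le.mp (hi i)).1
  · intro i
    exact (abs_le.mp (hi i)).2

end C37.PR
end

section

/-!
MP_c37615_al (S02984), part R, file DiscA. See /team-store/MP_c37615_PAPER.md, section 2.
-/

set_option autoImplicit false

open Filter Topology

namespace C37.PR

/-- Zassenhaus argument. Let `F` be a finite subset of Γ, not contained in {1}, and `d > 0` with `nu d f ≤ 1/8` for `f ∈ F`. There is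
`z ≠ 1` in the subgroup generated by F which commutes with all `f ∈ F`. Proof: the set
`{γ ∈ closure F | γ ≠ 1 ∧ nu d γ ≤ 1/8}` is finite (`nu_finite`, `closure F ≤ Γ`) and nonempty; let `z` be an element with
`nu d z` minimal; `nu d z > 0` (`eq_one_of_nu`). For `f ∈ F` let `w = z * f * z⁻¹ * f⁻¹ ∈ closure F`; `nu d w ≤ 4 * nu d z * nu d f ≤ nu d z / 2 < nu d z`
(`nu_comm`), so `w = 1` by minimality, i.e. `z * f = f * z`. -/
theorem exists_commuting (Γ : Subgroup (V ≃ᵃ[ℝ] V)) (h : Cryst Γ) (F : Finset (V ≃ᵃ[ℝ] V)) (hF : ∀ f ∈ F, f ∈ Γ)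
    (hne : ∃ f ∈ F, f ≠ 1) (d : ℝ) (hd : 0 < d) (hnu : ∀ f ∈ F, nu d f ≤ 1 / 8) :
    ∃ z ∈ Subgroup.closure (F : Set (V ≃ᵃ[ℝ] V)), z ≠ 1 ∧ ∀ f ∈ F, z * f = f * z := by
  have hcl : Subgroup.closure (F : Set (V ≃ᵃ[ℝ] V)) ≤ Γ :=
    (Subgroup.closure_le Γ).mpr fun f hf => hF f hf
  have hfin : {γ : V ≃ᵃ[ℝ] V | γ ∈ Subgroup.closure (F : Set (V ≃ᵃ[ℝ] V)) ∧ γ ≠ 1 ∧
      nu d γ ≤ 1 / 8}.Finite :=
    (nu_finite Γ h d hd (1 / 8)).subset fun γ hγ => ⟨hcl hγ.1, hγ.2.2⟩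
  have hnon : {γ : V ≃ᵃ[ℝ] V | γ ∈ Subgroup.closure (F : Set (V ≃ᵃ[ℝ] V)) ∧ γ ≠ 1 ∧
      nu d γ ≤ 1 / 8}.Nonempty := by
    obtain ⟨f, hf, hf1⟩ := hne
    exact ⟨f, Subgroup.subset_closure hf, hf1, hnu f hf⟩
  obtain ⟨z, ⟨hz, hz1, hz8⟩, hmin⟩ := Set.exists_min_image _ (nu d) hfin hnon
  have hzpos : 0 < nu d z := by
    refine lt_of_le_of_ne (nu_nonneg d z) fun h0 => hz1 (eq_one_of_nu d hd z h0.symm)
  refine ⟨z, hz, hz1, fun f hf => ?_⟩
  have hfc : f ∈ Subgroup.closure (F : Set (V ≃ᵃ[ℝ] V)) := Subgroup.subset_closure hf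
  have hw : z * f * z⁻¹ * f⁻¹ ∈ Subgroup.closure (F : Set (V ≃ᵃ[ℝ] V)) :=
    mul_mem (mul_mem (mul_mem hz hfc) (inv_mem hz)) (inv_mem hfc)
  have hf8 := hnu f hf
  have hcomm := nu_comm d z f (by linarith) (by linarith)
  have hlt : nu d (z * f * z⁻¹ * f⁻¹) < nu d z := by
    have h1 : 4 * nu d z * nu d f ≤ 4 * nu d z * (1 / 8) :=
      mul_le_mul_of_nonneg_left hf8 (by positivity)
    linarith
  have hone : z * f * z⁻¹ * f⁻¹ = 1 := by
    by_contra hne1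
    have := hmin _ ⟨hw, hne1, by linarith⟩
    linarith
  have h2 : z * f * z⁻¹ = f := mul_inv_eq_one.mp hone
  have h3 : z * f * z⁻¹ * z = f * z := by rw [h2]
  rwa [inv_mul_cancel_right] at h3

end C37.PR
end

section

/-!
MP_c37615_al (S02984), part R, file AlgC. See /team-store/MP_c37615_PAPER.md, section 2.
-/

set_option autoImplicit false

open Filter Topology

namespace C37.PR

/-- A subalgebra of the matrix algebra contains the inverses of its elements. -/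
theorem inv_mem_subalgebra (Aa : Subalgebra ℝ Mat) (a b : Mat) (ha : a ∈ Aa) (hab : a * b = 1) (hba : b * a = 1) : b ∈ Aa := by
  let f : Aa →ₗ[ℝ] Aa := LinearMap.mulLeft ℝ (⟨a, ha⟩ : Aa)
  have hf : Function.Injective f := by
    intro x y hxy
    have h1 : a * (x : Mat) = a * (y : Mat) := congrArg Subtype.val hxy
    have h2 : b * (a * (x : Mat)) = b * (a * (y : Mat)) := by rw [h1]
    rw [← mul_assoc, ← mul_assoc, hba, one_mul, one_mul] at h2
    exact Subtype.ext h2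
  have hs : Function.Surjective f := LinearMap.injective_iff_surjective.mp hf
  obtain ⟨x, hx⟩ := hs 1
  have h1 : a * (x : Mat) = 1 := congrArg Subtype.val hx
  have h2 : (x : Mat) = b := by
    calc (x : Mat) = (b * a) * (x : Mat) := by rw [hba, one_mul]
      _ = b * (a * (x : Mat)) := by rw [mul_assoc]
      _ = b := by rw [h1, mul_one]
  rw [← h2]
  exact x.2

end C37.PR
end

section

/-!
MP_c37615_al (S02984), part R, file DiscB. See /team-store/MP_c37615_PAPER.md, section 2.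
-/

set_option autoImplicit false

open Filter Topology

namespace C37.PR

/-- The linear part of an element of the subgroup generated by F lies in the algebra generated by the linear parts of F. -/
theorem lin_mem_adjoin (F : Finset (V ≃ᵃ[ℝ] V)) (z : V ≃ᵃ[ℝ] V) (hz : z ∈ Subgroup.closure (F : Set (V ≃ᵃ[ℝ] V))) :
    lin z ∈ Algebra.adjoin ℝ (lin '' (F : Set (V ≃ᵃ[ℝ] V))) := by
  induction hz using Subgroup.closure_induction with
  | mem x hx => exact Algebra.subset_adjoin ⟨x, hx, rfl⟩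
  | one => rw [lin_one]; exact Subalgebra.one_mem _
  | mul x y _ _ hx hy => rw [lin_mul]; exact Subalgebra.mul_mem _ hx hy
  | inv x _ hx => exact inv_mem_subalgebra _ _ _ hx (lin_mul_inv x) (lin_inv_mul x)

/-- If `z` commutes with F then `lin z` commutes with the algebra generated by the linear parts of F. -/
theorem lin_comm_adjoin (F : Finset (V ≃ᵃ[ℝ] V)) (z : V ≃ᵃ[ℝ] V) (hz : ∀ f ∈ F, z * f = f * z) (a : Mat)
    (ha : a ∈ Algebra.adjoin ℝ (lin '' (F : Set (V ≃ᵃ[ℝ] V)))) : lin z * a = a * lin z := by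
  induction ha using Algebra.adjoin_induction with
  | mem x hx =>
    obtain ⟨f, hf, rfl⟩ := hx
    rw [← lin_mul, ← lin_mul, hz f hf]
  | algebraMap r => exact (Algebra.commutes r (lin z)).symm
  | add x y _ _ hx hy => rw [mul_add, add_mul, hx, hy]
  | mul x y _ _ hx hy => rw [← mul_assoc, hx, mul_assoc, hy, mul_assoc]

end C37.PR
end

section

/-!
MP_c37615_al (S02984), part R, file DiscC. See /team-store/MP_c37615_PAPER.md, section 2.
-/

set_option autoImplicit false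

open Filter Topology

namespace C37.PR

/-- If Γ contains elements `≠ 1` with `mu` arbitrarily small, then some stabilised algebra `Aeps Γ e0` contains in its centre the
linear part of some `z ∈ Γ`, `z ≠ 1`. -/
theorem exists_central (Γ : Subgroup (V ≃ᵃ[ℝ] V)) (h : Cryst Γ) (hnd : ∀ e : ℝ, 0 < e → ∃ γ ∈ Γ, γ ≠ 1 ∧ mu γ < e) :
    ∃ e0 : ℝ, 0 < e0 ∧ (∀ e, 0 < e → e ≤ e0 → Aeps Γ e = Aeps Γ e0) ∧ ∃ z ∈ Γ, z ≠ 1 ∧ lin z ∈ centre (Aeps Γ e0) := by
  classical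
  obtain ⟨e0, he0, he0', hst⟩ := stabilise (Aeps Γ) (by
    intro e e' he hee
    refine Algebra.adjoin_mono ?_
    refine Set.image_mono ?_
    rintro γ ⟨hγ, hm⟩
    exact ⟨hγ, lt_of_lt_of_le hm hee⟩) (1/16) (by norm_num)
  refine ⟨e0, he0, hst, ?_⟩
  obtain ⟨F0, hF0, hF0'⟩ := adjoin_finite (lin '' {γ : V ≃ᵃ[ℝ] V | γ ∈ Γ ∧ mu γ < e0})
  have hch : ∀ M : Mat, ∃ γ : V ≃ᵃ[ℝ] V, M ∈ F0 → (γ ∈ Γ ∧ mu γ < e0) ∧ lin γ = M := by
    intro M
    by_cases hM : M ∈ F0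
    · obtain ⟨γ, hγ, hγ'⟩ := hF0 hM
      exact ⟨γ, fun _ => ⟨hγ, hγ'⟩⟩
    · exact ⟨1, fun h => absurd h hM⟩
  choose pre hpre using hch
  obtain ⟨γ1, hγ1, hγ1ne, hγ1mu⟩ := hnd e0 he0
  let F : Finset (V ≃ᵃ[ℝ] V) := insert γ1 (F0.image pre)
  have hF : ∀ f ∈ F, f ∈ Γ ∧ mu f < e0 := by
    intro f hf
    rcases Finset.mem_insert.mp hf with rfl | hf
    · exact ⟨hγ1, hγ1mu⟩
    · obtain ⟨M, hM, rfl⟩ := Finset.mem_image.mp hf
      exact (hpre M hM).1
  have hadj : Algebra.adjoin ℝ (lin '' (F : Set (V ≃ᵃ[ℝ] V))) = Aeps Γ e0 := by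
    apply le_antisymm
    · refine Algebra.adjoin_mono ?_
      refine Set.image_mono ?_
      intro f hf
      exact hF f hf
    · unfold Aeps
      rw [← hF0']
      refine Algebra.adjoin_mono ?_
      intro M hM
      refine ⟨pre M, ?_, (hpre M hM).2⟩
      simp only [F, Finset.coe_insert, Finset.coe_image]
      exact Or.inr ⟨M, hM, rfl⟩
  obtain ⟨d, hd, hnu⟩ := exists_scale F e0 he0 (fun f hf => (hF f hf).2)
  obtain ⟨z, hz, hz1, hzc⟩ := exists_commuting Γ h F (fun f hf => (hF f hf).1)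
    ⟨γ1, Finset.mem_insert_self _ _, hγ1ne⟩ d hd (fun f hf => by
      have := hnu f hf
      linarith)
  refine ⟨z, ?_, hz1, ?_, ?_⟩
  · have : Subgroup.closure (F : Set (V ≃ᵃ[ℝ] V)) ≤ Γ := by
      rw [Subgroup.closure_le]
      intro f hf
      exact (hF f hf).1
    exact this hz
  · have := lin_mem_adjoin F z hz
    rwa [hadj] at this
  · intro b hb
    rw [← hadj] at hb
    exact lin_comm_adjoin F z hzc b hb

end C37.PR
end
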