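import Mathlib

section

/-!
MP_c37615_al, PART B: basic definitions (unitary representations, cocycles, elementary matrices,
the abstract root data of the group, the torus).
-/

set_option autoImplicit false

open Filter Topology

namespace C37.PB

/-- `SL_3(ℝ)` -/
abbrev SL3 := Matrix.SpecialLinearGroup (Fin 3) ℝ

/-- the elementary matrix `1 + s E_ij` -/
def el (i j : Fin 3) (h : i ≠ j) (s : ℝ) : SL3 :=
  ⟨Matrix.transvection i j s, Matrix.det_transvection_of_ne i j h s⟩

/-- the diagonal entries `2` at `i`, `1/2` at `j`, `1` elsewhere -/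
noncomputable def dgv (i j : Fin 3) (k : Fin 3) : ℝ := if k = i then 2 else if k = j then 1 / 2 else 1

theorem prod_dgv (i j : Fin 3) (h : i ≠ j) : ∏ k, dgv i j k = 1 := by
  fin_cases i <;> fin_cases j <;> simp_all [dgv, Fin.prod_univ_three]

/-- the diagonal matrix with entries `2` at `i`, `1/2` at `j`, `1` elsewhere -/
noncomputable def dg (i j : Fin 3) (h : i ≠ j) : SL3 :=
  ⟨Matrix.diagonal (dgv i j), by rw [Matrix.det_diagonal, prod_dgv i j h]⟩

/-- The abstract root data: a homomorphism from `SL_3(ℝ)` and six one-parameter groups. -/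
structure RootData (G : Type*) [Group G] [TopologicalSpace G] where
  ι : SL3 →* G
  S : Fin 6 → ℝ → G
  ι_cont : Continuous ι
  S_cont : ∀ i, Continuous (S i)
  S_add : ∀ i s t, S i (s + t) = S i s * S i t
  scale : ∀ i, ∃ d : SL3, ∀ s, ι d * S i s * (ι d)⁻¹ = S i (2 * s)
  comm : ∀ i, ∃ p q : Fin 3, ∃ h : p ≠ q, ∀ s t, ι (el p q h s) * S i t = S i t * ι (el p q h s)
  gen : ∀ H : Subgroup G, (∀ A, ι A ∈ H) → (∀ i s, S i s ∈ H) → H = ⊤

/-- Unitary representations (strongly continuous). -/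
structure URep (G : Type*) [Group G] [TopologicalSpace G] (H : Type*) [NormedAddCommGroup H]
    [InnerProductSpace ℂ H] where
  op : G → (H →L[ℂ] H)
  one : op 1 = 1
  mul : ∀ g h, op (g * h) = op g * op h
  norm : ∀ g v, ‖op g v‖ = ‖v‖
  cont : ∀ v, Continuous fun g => op g v

/-- cocycles -/
def IsCocycle {G : Type*} [Group G] [TopologicalSpace G] {H : Type*} [NormedAddCommGroup H]
    [InnerProductSpace ℂ H] (U : URep G H) (b : G → H) : Prop :=
  ∀ g h, b (g * h) = b g + U.op g (b h)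

/-- the two-dimensional torus -/
abbrev T2 := Circle × Circle

/-- the first coordinate function -/
def ez : C(T2, ℂ) := ⟨fun t => (t.1 : ℂ), by fun_prop⟩

/-- the second coordinate function -/
def ew : C(T2, ℂ) := ⟨fun t => (t.2 : ℂ), by fun_prop⟩

/-- the character `z^m w^n` -/
noncomputable def ech (m n : ℤ) : C(T2, ℂ) :=
  ⟨fun t => ((t.1 ^ m * t.2 ^ n : Circle) : ℂ),
    (by fun_prop : Continuous fun z : Circle => (z : ℂ)).comp
      (((continuous_fst (X := Circle) (Y := Circle)).zpow m).mul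
        ((continuous_snd (X := Circle) (Y := Circle)).zpow n))⟩

end C37.PB
end

section

/-!
MP_c37615_al, PART B: the unitary representation on `L²(X, μ)`.
-/

set_option autoImplicit false

open Filter Topology MeasureTheory

namespace C37.PB

variable {G : Type*} [Group G] [TopologicalSpace G] [IsTopologicalGroup G]
  [MeasurableSpace G] [OpensMeasurableSpace G]
  {X : Type*} [TopologicalSpace X] [T2Space X] [MeasurableSpace X] [BorelSpace X]
  [MulAction G X] [ContinuousSMul G X]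

/-- TASK Lt1. `op g f = DomMulAct.mk g⁻¹ • f`: `Lp.instContinuousSMulDomMulAct`,
`DomMulAct.norm_smul_Lp`, `DomMulAct.smul_Lp_ae_eq`. The multiplication of `Gᵈᵐᵃ` is opposite. -/
theorem exists_L2 (μ : Measure X) [IsLocallyFiniteMeasure μ] [μ.InnerRegularCompactLTTop]
    [SMulInvariantMeasure G X μ] : ∃ U : URep G (Lp ℂ 2 μ),
      ∀ g (f : Lp ℂ 2 μ), ∀ᵐ x ∂μ, U.op g f x = f (g⁻¹ • x) := by
  have : Fact ((2 : ENNReal) ≠ ⊤) := ⟨by simp⟩
  have hcs : ContinuousSMul Gᵈᵐᵃ (Lp ℂ 2 μ) := inferInstance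
  let T : G → (Lp ℂ 2 μ →L[ℂ] Lp ℂ 2 μ) := fun g =>
    { toFun := fun f => DomMulAct.mk g⁻¹ • f
      map_add' := fun f f' => smul_add _ _ _
      map_smul' := fun a f => smul_comm _ _ _
      cont := continuous_const_smul _ }
  refine ⟨{ op := T, one := ?_, mul := ?_, norm := ?_, cont := ?_ }, ?_⟩
  · ext1 f
    change DomMulAct.mk (1 : G)⁻¹ • f = f
    rw [inv_one, DomMulAct.mk_one, one_smul]
  · intro g k
    ext1 f
    change DomMulAct.mk (g * k)⁻¹ • f = DomMulAct.mk g⁻¹ • DomMulAct.mk k⁻¹ • f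
    rw [mul_inv_rev, DomMulAct.mk_mul, mul_smul]
  · intro g f
    exact DomMulAct.norm_smul_Lp _ _
  · intro f
    have h1 : Continuous fun g : G => DomMulAct.mk g⁻¹ :=
      DomMulAct.continuous_mk.comp continuous_inv
    exact h1.smul continuous_const
  · intro g f
    exact DomMulAct.smul_Lp_ae_eq (DomMulAct.mk g⁻¹) f

end C37.PB
end

section

/-!
MP_c37615_al, PART B: discrete subgroups, fundamental domains, the invariant measure on `G ⧸ Γ`.
-/

set_option autoImplicit false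

open Filter Topology MeasureTheory
open scoped Pointwise

namespace C37.PB

/-- discreteness of a subgroup, in the form used here -/
def Disc {G : Type*} [Group G] [TopologicalSpace G] (Γ : Subgroup G) : Prop :=
  ∀ K : Set G, IsCompact K → {γ : G | γ ∈ Γ ∧ γ ∈ K}.Finite

variable {G : Type*} [Group G] [TopologicalSpace G] [IsTopologicalGroup G] [LocallyCompactSpace G]
  [PolishSpace G]

/-- TASK Qu1. `G` is σ-compact. -/
theorem Disc.countable {Γ : Subgroup G} (h : Disc Γ) : Countable Γ := by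
  have h1 : (Γ : Set G) = ⋃ n, {γ : G | γ ∈ Γ ∧ γ ∈ compactCovering G n} := by
    ext x
    simp only [SetLike.mem_coe, Set.mem_iUnion, Set.mem_setOf_eq]
    constructor
    · intro hx
      obtain ⟨n, hn⟩ := exists_mem_compactCovering x
      exact ⟨n, hx, hn⟩
    · rintro ⟨n, hx, -⟩
      exact hx
  have h2 : (Γ : Set G).Countable := by
    rw [h1]
    exact Set.countable_iUnion (fun n => (h _ (isCompact_compactCovering G n)).countable)
  exact h2.to_subtype

/-- TASK Qu1. A limit point of `Γ` has a compact neighbourhood `K`, and `Γ ∩ K` is finite, so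
closed. -/
theorem Disc.isClosed {Γ : Subgroup G} (h : Disc Γ) : IsClosed (Γ : Set G) := by
  rw [← isOpen_compl_iff, isOpen_iff_mem_nhds]
  intro x hx
  obtain ⟨K, hK, hxK⟩ := exists_compact_mem_nhds x
  have hfin := h K hK
  have h1 : ({γ : G | γ ∈ Γ ∧ γ ∈ K})ᶜ ∈ 𝓝 x :=
    hfin.isClosed.isOpen_compl.mem_nhds (fun h2 => hx h2.1)
  filter_upwards [hxK, h1] with y hy1 hy2 hy3
  exact hy2 ⟨hy3, hy1⟩

/-- TASK Qu1. There is an open `V ∋ 1` with `V ∩ Γ = {1}` (remove finitely many points from a compact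
neighbourhood of `1`), an open `W ∋ 1` with `W⁻¹ W ⊆ V` and compact closure; `O = x W`:
`mk (x w) = mk (x w')` means `w⁻¹ w' ∈ Γ ∩ V`. -/
theorem Disc.exists_nhds {Γ : Subgroup G} (h : Disc Γ) (x : G) : ∃ O : Set G, IsOpen O ∧ x ∈ O ∧
    Set.InjOn (QuotientGroup.mk : G → G ⧸ Γ) O ∧ IsCompact (closure O) := by
  obtain ⟨K, hK, h1K⟩ := exists_compact_mem_nhds (1 : G)
  have hfin := (h K hK).subset (Set.diff_subset (t := {1}))
  have hV : (interior K ∩ ({γ : G | γ ∈ Γ ∧ γ ∈ K} \ {1})ᶜ) ∈ 𝓝 (1 : G) := by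
    refine Filter.inter_mem (interior_mem_nhds.mpr h1K) (hfin.isClosed.isOpen_compl.mem_nhds ?_)
    intro h2
    exact h2.2 rfl
  have hcont : Continuous (fun p : G × G => p.1⁻¹ * p.2) := by fun_prop
  have h3 : Tendsto (fun p : G × G => p.1⁻¹ * p.2) (𝓝 ((1 : G), (1 : G))) (𝓝 (1 : G)) := by
    have := hcont.tendsto ((1 : G), (1 : G))
    simpa using this
  have h4 := h3 hV
  rw [Filter.mem_map, nhds_prod_eq, Filter.mem_prod_self_iff] at h4
  obtain ⟨W, hW, hW2⟩ := h4
  let W' : Set G := interior (W ∩ K)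
  have hW'o : IsOpen W' := isOpen_interior
  have h1W' : (1 : G) ∈ W' := mem_interior_iff_mem_nhds.mpr (Filter.inter_mem hW h1K)
  refine ⟨(Homeomorph.mulLeft x) '' W', (Homeomorph.mulLeft x).isOpen_image.mpr hW'o, ⟨1, h1W', by simp⟩, ?_, ?_⟩
  · rintro a ⟨w, hw, rfl⟩ b ⟨w', hw', rfl⟩ hab
    rw [QuotientGroup.eq] at hab
    simp only [Homeomorph.coe_mulLeft, mul_inv_rev, mul_assoc, inv_mul_cancel_left] at hab
    have h5 : (w, w') ∈ W ×ˢ W := ⟨(interior_subset hw).1, (interior_subset hw').1⟩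
    have h6 := hW2 h5
    have h7 : w⁻¹ * w' = 1 := by
      by_contra h8
      exact h6.2 ⟨⟨hab, interior_subset h6.1⟩, h8⟩
    have h8 : w = w' := by
      rw [inv_mul_eq_one] at h7; exact h7
    rw [h8]
  · rw [← Homeomorph.image_closure]
    refine IsCompact.image ?_ (Homeomorph.mulLeft x).continuous
    refine hK.of_isClosed_subset isClosed_closure ?_
    exact closure_minimal (interior_subset.trans Set.inter_subset_right) hK.isClosed

/-- TASK Qu1. Lindelöf. -/
theorem Disc.exists_cover {Γ : Subgroup G} (h : Disc Γ) : ∃ O : ℕ → Set G,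
    (∀ n, IsOpen (O n) ∧ Set.InjOn (QuotientGroup.mk : G → G ⧸ Γ) (O n) ∧
      IsCompact (closure (O n))) ∧ ⋃ n, O n = Set.univ := by
  choose O hO1 hO2 hO3 hO4 using fun x : G => h.exists_nhds x
  obtain ⟨S, hS, hS2⟩ := TopologicalSpace.countable_cover_nhds (fun x => (hO1 x).mem_nhds (hO2 x))
  have hne : S.Nonempty := by
    by_contra h1
    rw [Set.not_nonempty_iff_eq_empty] at h1
    rw [h1] at hS2
    simp only [Set.mem_empty_iff_false, Set.iUnion_of_empty, Set.iUnion_empty] at hS2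
    exact (Set.univ_nonempty (α := G)).ne_empty hS2.symm
  obtain ⟨f, hf⟩ := hS.exists_eq_range hne
  refine ⟨fun n => O (f n), fun n => ⟨hO1 _, hO3 _, hO4 _⟩, ?_⟩
  rw [← hS2, hf, Set.biUnion_range]

variable [MeasurableSpace G] [BorelSpace G]

/-- TASK Qu2. With the cover `O` from `Disc.exists_cover` put
`F = ⋃ n, O n \ ⋃ m < n, mk ⁻¹' (mk '' O m)` (the sets `mk ⁻¹' (mk '' O m)` are open). For every
`x` there is exactly one `γ ∈ Γ` with `x γ ∈ F` (take the least `n` with
`x ∈ mk ⁻¹' (mk '' O n)`). Use `IsFundamentalDomain.mk'`. -/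
theorem Disc.exists_fundDom {Γ : Subgroup G} (h : Disc Γ) (ν : Measure G) :
    ∃ F : Set G, MeasurableSet F ∧ IsFundamentalDomain Γ.op F ν := by
  obtain ⟨O, hO, hcov⟩ := h.exists_cover
  have hSopen : ∀ n, IsOpen ((QuotientGroup.mk : G → G ⧸ Γ) ⁻¹' ((QuotientGroup.mk : G → G ⧸ Γ) '' O n)) := fun n =>
    (QuotientGroup.isOpenMap_coe (O n) (hO n).1).preimage QuotientGroup.continuous_mk
  have hmkmul : ∀ (x : G) (g : Γ.op), (QuotientGroup.mk (g • x) : G ⧸ Γ) = QuotientGroup.mk x := by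
    intro x g
    have h1 : g • x = x * (MulOpposite.unop (g : Gᵐᵒᵖ)) := rfl
    rw [h1]
    exact QuotientGroup.mk_mul_of_mem x g.2
  refine ⟨⋃ n, (O n \ ⋃ m, ⋃ (_ : m < n), (QuotientGroup.mk : G → G ⧸ Γ) ⁻¹' ((QuotientGroup.mk : G → G ⧸ Γ) '' O m)), ?_, ?_⟩
  · refine MeasurableSet.iUnion (fun n => (hO n).1.measurableSet.diff ?_)
    exact MeasurableSet.iUnion (fun m => MeasurableSet.iUnion (fun _ => (hSopen m).measurableSet))
  · refine IsFundamentalDomain.mk' ?_ ?_
    · refine MeasurableSet.nullMeasurableSet ?_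
      refine MeasurableSet.iUnion (fun n => (hO n).1.measurableSet.diff ?_)
      exact MeasurableSet.iUnion (fun m => MeasurableSet.iUnion (fun _ => (hSopen m).measurableSet))
    · intro x
      classical
      have hex : ∃ n, x ∈ (QuotientGroup.mk : G → G ⧸ Γ) ⁻¹' ((QuotientGroup.mk : G → G ⧸ Γ) '' O n) := by
        have h1 : x ∈ ⋃ n, O n := by rw [hcov]; exact Set.mem_univ x
        obtain ⟨n, hn⟩ := Set.mem_iUnion.mp h1
        exact ⟨n, x, hn, rfl⟩
      have hmem : ∀ g : Γ.op, g • x ∈ (⋃ n, (O n \ ⋃ m, ⋃ (_ : m < n), (QuotientGroup.mk : G → G ⧸ Γ) ⁻¹' ((QuotientGroup.mk : G → G ⧸ Γ) '' O m)))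
          ↔ g • x ∈ O (Nat.find hex) := by
        intro g
        constructor
        · intro h1
          obtain ⟨k, hk1, hk2⟩ := Set.mem_iUnion.mp h1
          have h2 : Nat.find hex = k := by
            rw [Nat.find_eq_iff]
            refine ⟨⟨g • x, hk1, hmkmul x g⟩, ?_⟩
            intro m hm h3
            apply hk2
            rw [Set.mem_iUnion]
            refine ⟨m, Set.mem_iUnion.mpr ⟨hm, ?_⟩⟩
            obtain ⟨y, hy, hy2⟩ := h3
            exact ⟨y, hy, hy2.trans (hmkmul x g).symm⟩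
          rw [h2]
          exact hk1
        · intro h1
          refine Set.mem_iUnion.mpr ⟨Nat.find hex, h1, ?_⟩
          intro h2
          obtain ⟨m, h3⟩ := Set.mem_iUnion.mp h2
          obtain ⟨hm, h4⟩ := Set.mem_iUnion.mp h3
          obtain ⟨y, hy, hy2⟩ := h4
          exact Nat.find_min hex hm ⟨y, hy, hy2.trans (hmkmul x g)⟩
      obtain ⟨y, hy, hy2⟩ := Nat.find_spec hex
      have h5 : x⁻¹ * y ∈ Γ := by
        rw [← QuotientGroup.eq]; exact hy2.symm
      refine ⟨⟨MulOpposite.op (x⁻¹ * y), h5⟩, ?_, ?_⟩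
      · show _ ∈ _
        rw [hmem]
        have h6 : (⟨MulOpposite.op (x⁻¹ * y), h5⟩ : Γ.op) • x = x * (x⁻¹ * y) := rfl
        rw [h6, mul_inv_cancel_left]
        exact hy
      · intro g hg
        have hg' := (hmem g).mp hg
        have h7 := (hO (Nat.find hex)).2.1 hg' hy ((hmkmul x g).trans hy2.symm)
        apply Subtype.ext
        have h8 : g • x = x * (MulOpposite.unop (g : Gᵐᵒᵖ)) := rfl
        rw [h8] at h7
        have h9 : MulOpposite.unop (g : Gᵐᵒᵖ) = x⁻¹ * y := by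
          rw [← h7, inv_mul_cancel_left]
        show (g : Gᵐᵒᵖ) = MulOpposite.op (x⁻¹ * y)
        rw [← h9, MulOpposite.op_unop]

/-- the invariant measure on the quotient -/
structure QM {G : Type*} [Group G] [TopologicalSpace G] [MeasurableSpace G] (Γ : Subgroup G)
    (ν : Measure G) (μ : Measure (G ⧸ Γ)) : Prop where
  inv : SMulInvariantMeasure G (G ⧸ Γ) μ
  fin : IsFiniteMeasureOnCompacts μ
  null : ∀ E : Set (G ⧸ Γ), MeasurableSet E → μ E = 0 → ν ((QuotientGroup.mk : G → G ⧸ Γ) ⁻¹' E) = 0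
  null' : ∀ E : Set (G ⧸ Γ), MeasurableSet E → ν ((QuotientGroup.mk : G → G ⧸ Γ) ⁻¹' E) = 0 → μ E = 0
  vol : ∀ A : Set G, IsOpen A → Set.InjOn (QuotientGroup.mk : G → G ⧸ Γ) A →
    μ ((QuotientGroup.mk : G → G ⧸ Γ) '' A) = ν A

theorem qu3_preimage {G : Type*} [Group G] (Γ : Subgroup G) (A : Set G) :
    (QuotientGroup.mk : G → G ⧸ Γ) ⁻¹' ((QuotientGroup.mk : G → G ⧸ Γ) '' A) =
      ⋃ g : Γ.op, g • A := by
  ext x
  simp only [Set.mem_preimage, Set.mem_image, Set.mem_iUnion, Set.mem_smul_set]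
  constructor
  · rintro ⟨a, ha, hax⟩
    refine ⟨⟨MulOpposite.op (a⁻¹ * x), ?_⟩, a, ha, ?_⟩
    · exact QuotientGroup.eq.1 hax
    · show a * (a⁻¹ * x) = x
      group
  · rintro ⟨⟨g, hg⟩, a, ha, hax⟩
    refine ⟨a, ha, ?_⟩
    rw [QuotientGroup.eq]
    have h2 : a * g.unop = x := hax
    rw [← h2, inv_mul_cancel_left]
    exact hg

theorem qu3_disjoint {G : Type*} [Group G] (Γ : Subgroup G) {A : Set G}
    (hinj : Set.InjOn (QuotientGroup.mk : G → G ⧸ Γ) A) :
    Pairwise (fun g h : Γ.op => Disjoint (g • A) (h • A)) := by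
  intro g h hgh
  rw [Set.disjoint_left]
  rintro x ⟨a, ha, rfl⟩ ⟨b, hb, hab⟩
  have hab' : b * h.1.unop = a * g.1.unop := hab
  have h1 : (QuotientGroup.mk a : G ⧸ Γ) = QuotientGroup.mk b := by
    rw [QuotientGroup.eq]
    have h2 : a⁻¹ * b = g.1.unop * (h.1.unop)⁻¹ := by
      rw [eq_mul_inv_iff_mul_eq, mul_assoc, hab', inv_mul_cancel_left]
    rw [h2]
    exact Γ.mul_mem g.2 (Γ.inv_mem h.2)
  have h3 := hinj ha hb h1
  subst h3
  apply hgh
  apply Subtype.ext
  apply MulOpposite.unop_injective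
  exact (mul_left_cancel hab').symm

/-- TASK Qu3. Let `F` be a measurable fundamental domain for `Γ.op`, and let `A` be open with `mk`
injective on `A`. The sets `g • A` (`g ∈ Γ.op`) are pairwise disjoint with union
`mk ⁻¹' (mk '' A)`, so `ν (F ∩ mk ⁻¹' (mk '' A)) = ∑ ν (F ∩ g • A) = ν A`
(`IsFundamentalDomain.measure_eq_tsum`). -/
theorem vol_aux {Γ : Subgroup G} (hc : Countable Γ) (ν : Measure G) [ν.IsMulRightInvariant]
    {F : Set G} (hFm : MeasurableSet F) (hF : IsFundamentalDomain Γ.op F ν) (A : Set G)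
    (hA : IsOpen A) (hinj : Set.InjOn (QuotientGroup.mk : G → G ⧸ Γ) A) :
    ν ((QuotientGroup.mk : G → G ⧸ Γ) ⁻¹' ((QuotientGroup.mk : G → G ⧸ Γ) '' A) ∩ F) = ν A := by
  have hc' : Countable Γ.op := by
    let e : Γ.op ≃ Γ := ⟨fun g => ⟨g.1.unop, g.2⟩, fun g => ⟨MulOpposite.op g.1, g.2⟩,
      fun _ => rfl, fun _ => rfl⟩
    exact e.injective.countable
  rw [hF.measure_eq_tsum A, qu3_preimage, Set.iUnion_inter, measure_iUnion]
  · intro g h hgh
    exact ((qu3_disjoint Γ hinj) hgh).mono Set.inter_subset_left Set.inter_subset_left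
  · intro g
    refine MeasurableSet.inter ?_ hFm
    exact hA.measurableSet.const_smul g

/-- TASK Qu4. `μ = map mk (ν.restrict F)`. Invariance:
`IsFundamentalDomain.quotientMeasureEqMeasurePreimage_quotientMeasure` and
`QuotientMeasureEqMeasurePreimage.smulInvariantMeasure_quotient`. Volumes: `vol_aux`.
Null sets: `μ E = ν (mk ⁻¹' E ∩ F)` and `IsFundamentalDomain.measure_zero_of_invariant`.
Finite on compacts: a compact `K` is covered by finitely many sets `mk '' O n` (open) of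
`Disc.exists_cover`, `μ (mk '' O n) = ν (O n) ≤ ν (closure (O n)) < ∞`. -/
theorem Disc.exists_QM {Γ : Subgroup G} [T2Space (G ⧸ Γ)] (h : Disc Γ) (ν : Measure G)
    [ν.IsHaarMeasure] [ν.IsMulRightInvariant] : ∃ μ : Measure (G ⧸ Γ), QM Γ ν μ := by
  classical
  obtain ⟨F, hFm, hF⟩ := h.exists_fundDom ν
  have hc : Countable Γ := h.countable
  have hc' : Countable Γ.op := Countable.of_equiv Γ (Subgroup.equivOp Γ)
  have hopen : IsOpenMap (QuotientGroup.mk : G → G ⧸ Γ) := QuotientGroup.isOpenMap_coe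
  have hcont : Continuous (QuotientGroup.mk : G → G ⧸ Γ) := QuotientGroup.continuous_mk
  have hsurj : Function.Surjective (QuotientGroup.mk : G → G ⧸ Γ) := QuotientGroup.mk_surjective
  have hmk : Measurable (QuotientGroup.mk : G → G ⧸ Γ) := hcont.measurable
  have hqm : QuotientMeasureEqMeasurePreimage ν
      ((ν.restrict F).map (QuotientGroup.mk : G → G ⧸ Γ)) :=
    hF.quotientMeasureEqMeasurePreimage_quotientMeasure
  have hfd : HasFundamentalDomain Γ.op G ν := ⟨⟨F, hF⟩⟩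
  have happ : ∀ E : Set (G ⧸ Γ), MeasurableSet E →
      ((ν.restrict F).map (QuotientGroup.mk : G → G ⧸ Γ)) E
        = ν ((QuotientGroup.mk : G → G ⧸ Γ) ⁻¹' E ∩ F) := by
    intro E hE
    rw [Measure.map_apply hmk hE, Measure.restrict_apply (hmk hE)]
  have hvol : ∀ A : Set G, IsOpen A → Set.InjOn (QuotientGroup.mk : G → G ⧸ Γ) A →
      ((ν.restrict F).map (QuotientGroup.mk : G → G ⧸ Γ)) ((QuotientGroup.mk : G → G ⧸ Γ) '' A)
        = ν A := by
    intro A hA hinj
    rw [happ _ (hopen A hA).measurableSet]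
    exact vol_aux hc ν hFm hF A hA hinj
  refine ⟨(ν.restrict F).map (QuotientGroup.mk : G → G ⧸ Γ), ?_, ?_, ?_, ?_, hvol⟩
  · exact @QuotientMeasureEqMeasurePreimage.smulInvariantMeasure_quotient G _ _ ν Γ _ hqm _ _ _ _
      _ _ _ hfd
  · refine ⟨fun K hK => ?_⟩
    obtain ⟨O, hO, hcov⟩ := h.exists_cover
    obtain ⟨t, ht⟩ := hK.elim_finite_subcover (fun n => (QuotientGroup.mk : G → G ⧸ Γ) '' O n)
      (fun n => hopen _ (hO n).1) (by
        intro q _
        obtain ⟨x, rfl⟩ := hsurj q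
        have hx : x ∈ ⋃ n, O n := by rw [hcov]; trivial
        obtain ⟨n, hn⟩ := Set.mem_iUnion.mp hx
        exact Set.mem_iUnion.mpr ⟨n, ⟨x, hn, rfl⟩⟩)
    refine lt_of_le_of_lt (measure_mono ht) ?_
    refine lt_of_le_of_lt (measure_biUnion_finset_le t _) ?_
    refine ENNReal.sum_lt_top.mpr ?_
    intro n _
    rw [hvol _ (hO n).1 (hO n).2.1]
    exact lt_of_le_of_lt (measure_mono subset_closure) (hO n).2.2.measure_lt_top
  · intro E hE h0
    rw [happ E hE] at h0
    refine hF.measure_zero_of_invariant _ (fun g => ?_) h0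
    ext x
    rw [Set.mem_smul_set_iff_inv_smul_mem, Set.mem_preimage, Set.mem_preimage]
    have : (QuotientGroup.mk (g⁻¹ • x) : G ⧸ Γ) = QuotientGroup.mk x := by
      apply QuotientGroup.eq.mpr
      have h1 : g⁻¹ • x = x * MulOpposite.unop (g⁻¹ : Γ.op) := rfl
      rw [h1]
      have h2 : MulOpposite.unop ((g⁻¹ : Γ.op) : Gᵐᵒᵖ) ∈ Γ := (g⁻¹ : Γ.op).2
      simpa [mul_inv_rev, mul_assoc] using Γ.inv_mem h2
    rw [this]
  · intro E hE h0
    rw [happ E hE]
    exact measure_mono_null Set.inter_subset_left h0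

/-- TASK Qu5. `G ⧸ Γ` is a locally compact Hausdorff second countable (so metrizable) space, `μ` is
finite on compacts, so it is regular. -/
theorem QM.innerRegular {Γ : Subgroup G} [T2Space (G ⧸ Γ)] {ν : Measure G} {μ : Measure (G ⧸ Γ)}
    (h : QM Γ ν μ) : IsLocallyFiniteMeasure μ ∧ μ.InnerRegularCompactLTTop := by
  haveI := h.fin
  haveI : IsLocallyFiniteMeasure μ := isLocallyFiniteMeasure_of_isFiniteMeasureOnCompacts
  refine ⟨inferInstance, inferInstance⟩

end C37.PB
end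

section

/-!
MP_c37615_al D TASK T06a: power bound for real matrices with spectral radius < 1.  (independent of the rest)

Proof: map A to a complex matrix A_C (`A.map Complex.ofReal`).  Its spectrum is the set of roots of the characteristic polynomial, all of modulus < 1, finite,
so spectralRadius < 1 (compact nonempty spectrum; if n = 0 trivial).  Gelfand's formula (`spectrum.pow_nnnorm_pow_one_div_tendsto_nhds_spectralRadius`,
for the complete normed algebra of complex matrices with an operator norm, e.g. `Matrix.linftyOpNormedAlgebra` as local instances)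
gives theta < 1 and N with ‖A_C^k‖ <= theta^k for k >= N, hence ‖A_C^k‖ <= C theta^k for all k.  Then bound the entries of A^k v.
-/

set_option autoImplicit false

namespace C37

open Filter Topology

section
attribute [local instance] Matrix.linftyOpNormedRing Matrix.linftyOpNormedAlgebra

private theorem T06a_gelfand {n : ℕ} (A : Matrix (Fin n) (Fin n) ℂ)
    (h : ∀ z : ℂ, (A.charpoly).IsRoot z → ‖z‖ < 1) :
    ∃ (C θ : ℝ), 0 ≤ C ∧ 0 < θ ∧ θ < 1 ∧ ∀ (k : ℕ) , ‖A ^ k‖ ≤ C * θ ^ k := by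
  have hrad : spectralRadius ℂ A < 1 := by
    rcases subsingleton_or_nontrivial (Matrix (Fin n) (Fin n) ℂ) with hs | hn
    · rw [spectrum.SpectralRadius.of_subsingleton]
      exact zero_lt_one
    · have hne : (spectrum ℂ A).Nonempty := spectrum.nonempty_of_isAlgClosed_of_finiteDimensional ℂ A
      rw [show (1 : ENNReal) = ((1 : NNReal) : ENNReal) from rfl]
      refine spectrum.spectralRadius_lt_of_forall_lt_of_nonempty hne ?_
      intro k hk
      have hk' : (A.charpoly).IsRoot k := by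
        rw [← Matrix.mem_spectrum_iff_isRoot_charpoly]
        exact hk
      have := h k hk'
      exact_mod_cast this
  have hlim := spectrum.pow_nnnorm_pow_one_div_tendsto_nhds_spectralRadius A
  obtain ⟨θ, hθ1, hθ2⟩ := ENNReal.lt_iff_exists_nnreal_btwn.1 hrad
  have hev := (tendsto_order.1 hlim).2 _ hθ1
  obtain ⟨N, hN⟩ := eventually_atTop.1 hev
  have hθ2' : (θ : ℝ) < 1 := by exact_mod_cast hθ2
  set t : ℝ := max θ (1/2) with ht
  have ht0 : 0 < t := lt_of_lt_of_le (by norm_num) (le_max_right _ _)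
  have ht1 : t < 1 := max_lt hθ2' (by norm_num)
  refine ⟨1 + ∑ k ∈ Finset.range (N + 1), ‖A ^ k‖ / t ^ k, t, by positivity, ht0, ht1, ?_⟩
  intro k
  rcases le_or_gt (N + 1) k with hk | hk
  · have h1 := hN k (by omega)
    have hk0 : (k : ℝ) ≠ 0 := by
      have : 0 < k := by omega
      positivity
    have h2 : (‖A ^ k‖₊ : ENNReal) ≤ (θ : ENNReal) ^ (k : ℝ) := by
      have h3 := ENNReal.rpow_le_rpow (le_of_lt h1) (Nat.cast_nonneg k : (0:ℝ) ≤ (k : ℝ))
      rwa [← ENNReal.rpow_mul, one_div, inv_mul_cancel₀ hk0, ENNReal.rpow_one] at h3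
    rw [ENNReal.rpow_natCast] at h2
    have h4 : ‖A ^ k‖ ≤ (θ : ℝ) ^ k := by
      have h5 : (‖A ^ k‖₊ : ENNReal) ≤ ((θ ^ k : NNReal) : ENNReal) := by
        rw [ENNReal.coe_pow]; exact h2
      have h6 := ENNReal.coe_le_coe.1 h5
      have h7 : ((‖A ^ k‖₊ : NNReal) : ℝ) ≤ ((θ ^ k : NNReal) : ℝ) := by exact_mod_cast h6
      rwa [coe_nnnorm, NNReal.coe_pow] at h7
    have h8 : (θ : ℝ) ^ k ≤ t ^ k := pow_le_pow_left₀ θ.coe_nonneg (le_max_left _ _) k
    have h9 : 0 ≤ ∑ k ∈ Finset.range (N + 1), ‖A ^ k‖ / t ^ k := by positivity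
    have h10 : 0 < t ^ k := by positivity
    nlinarith
  · have h1 : ‖A ^ k‖ / t ^ k ≤ ∑ k ∈ Finset.range (N + 1), ‖A ^ k‖ / t ^ k :=
      Finset.single_le_sum (f := fun k => ‖A ^ k‖ / t ^ k) (fun i _ => by positivity) (Finset.mem_range.2 hk)
    have h10 : 0 < t ^ k := by positivity
    rw [div_le_iff₀ h10] at h1
    nlinarith

theorem matrix_pow_bound {n : ℕ} (A : Matrix (Fin n) (Fin n) ℝ)
    (h : ∀ z : ℂ, ((A.map (algebraMap ℝ ℂ)).charpoly).IsRoot z → ‖z‖ < 1) :
    ∃ (C θ : ℝ), 0 ≤ C ∧ 0 ≤ θ ∧ θ < 1 ∧ ∀ (k : ℕ) (v : Fin n → ℝ), ‖(A ^ k).mulVec v‖ ≤ C * θ ^ k * ‖v‖ := by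
  obtain ⟨C, θ, hC, h0, h1, hb⟩ := T06a_gelfand (A.map (algebraMap ℝ ℂ)) h
  refine ⟨C, θ, hC, h0.le, h1, ?_⟩
  intro k v
  have hnorm : ∀ w : Fin n → ℝ, ‖(fun i => ((w i : ℝ) : ℂ))‖ = ‖w‖ := by
    intro w
    simp only [Pi.norm_def, Complex.nnnorm_real]
  have hmv : ((A.map (algebraMap ℝ ℂ)) ^ k).mulVec (fun i => ((v i : ℝ) : ℂ)) = fun i => ((((A ^ k).mulVec v) i : ℝ) : ℂ) := by
    have hp : (A.map (algebraMap ℝ ℂ)) ^ k = (A ^ k).map (algebraMap ℝ ℂ) := by
      have := (map_pow (RingHom.mapMatrix (m := Fin n) (algebraMap ℝ ℂ)) A k)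
      simpa [RingHom.mapMatrix_apply] using this.symm
    rw [hp]
    ext i
    simp [Matrix.mulVec, dotProduct]
  rw [← hnorm, ← hmv]
  calc _ ≤ ‖(A.map (algebraMap ℝ ℂ)) ^ k‖ * ‖(fun i => ((v i : ℝ) : ℂ))‖ := Matrix.linfty_opNorm_mulVec _ _
    _ ≤ C * θ ^ k * ‖v‖ := by
      rw [hnorm]
      exact mul_le_mul_of_nonneg_right (hb k) (norm_nonneg _)
end

end C37
end

section

set_option autoImplicit false

namespace C37

open Polynomial Matrix in
/-- deflation of an eigenvalue -/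
theorem charpoly_deflate {m : ℕ} (A : Matrix (Fin (m+1)) (Fin (m+1)) ℝ) (r u : Fin (m+1) → ℝ) (l : ℝ)
    (hA : A.transpose.mulVec r = l • r) (hru : r ⬝ᵥ u = 1) :
    (X - C l) * (A - vecMulVec (A.mulVec u) r).charpoly = X * A.charpoly := by
  apply Polynomial.eq_of_infinite_eval_eq
  apply Set.Infinite.mono (s := {z : ℝ | z ≠ l})
  swap
  · exact Set.Infinite.mono (s := Set.univ \ {l}) (by intro x hx; simpa using hx)
      (Set.infinite_univ.sdiff (Set.finite_singleton l))
  intro z hz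
  have hz' : z - l ≠ 0 := sub_ne_zero.mpr hz
  simp only [Set.mem_ofPred_eq, eval_mul, eval_sub, eval_X, eval_C, Matrix.eval_charpoly]
  set w := A.mulVec u with hw
  have hr : r ᵥ* A = l • r := by
    rw [← hA, mulVec_transpose]
  have h1 : ((z - l) • (1 : Matrix (Fin (m+1)) (Fin (m+1)) ℝ) + vecMulVec w r) * (scalar (Fin (m+1)) z - A)
      = (z - l) • (scalar (Fin (m+1)) z - (A - vecMulVec w r)) := by
    have h2 : vecMulVec w r * (scalar (Fin (m+1)) z - A) = (z - l) • vecMulVec w r := by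
      rw [mul_sub, Matrix.vecMulVec_mul, Matrix.vecMulVec_mul, hr]
      ext i j
      simp [vecMulVec, Matrix.sub_apply, Matrix.vecMul_diagonal]
      ring
    rw [add_mul, h2]
    simp only [smul_mul_assoc, one_mul]
    rw [← smul_add]
    congr 1
    abel
  have h3 := congrArg Matrix.det h1
  rw [det_mul, det_smul] at h3
  have h4 : ((z - l) • (1 : Matrix (Fin (m+1)) (Fin (m+1)) ℝ) + vecMulVec w r).det = (z - l) ^ m * z := by
    have h5 : (z - l) • (1 : Matrix (Fin (m+1)) (Fin (m+1)) ℝ) + vecMulVec w r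
      = (z - l) • (1 + vecMulVec ((z - l)⁻¹ • w) r) := by
      ext i j
      simp [vecMulVec, Matrix.one_apply]
      field_simp
      simp
    rw [h5, det_smul, vecMulVec_eq (ι := Unit), det_one_add_replicateCol_mul_replicateRow]
    have h6 : r ⬝ᵥ w = l := by
      rw [hw, dotProduct_mulVec, hr, smul_dotProduct, hru]; simp
    rw [dotProduct_smul, h6]
    simp only [Fintype.card_fin, smul_eq_mul]
    field_simp
    ring
  rw [h4] at h3
  simp only [Fintype.card_fin] at h3
  have h7 : (z - l) ^ m ≠ 0 := pow_ne_zero _ hz'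
  apply mul_left_cancel₀ h7
  rw [← mul_assoc, ← mul_assoc, ← pow_succ, h3]

open Polynomial Matrix in
theorem matrix_pow_bound_ker {n : ℕ} (A : Matrix (Fin (n+1)) (Fin (n+1)) ℝ) (r : Fin (n+1) → ℝ) (hr : r ≠ 0) (l : ℝ)
    (hA : A.transpose.mulVec r = l • r)
    (h : ∀ z : ℂ, ((A.map (algebraMap ℝ ℂ)).charpoly).IsRoot z → z = (l : ℂ) ∨ ‖z‖ < 1)
    (hsimple : (A.charpoly).rootMultiplicity l = 1) (hl : 1 ≤ |l|) :
    ∃ (C θ : ℝ), 0 ≤ C ∧ 0 ≤ θ ∧ θ < 1 ∧ ∀ (k : ℕ) (v : Fin (n+1) → ℝ), (∑ i, r i * v i) = 0 →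
      ‖(A ^ k).mulVec v‖ ≤ C * θ ^ k * ‖v‖ := by
  have hrr : r ⬝ᵥ r ≠ 0 := by
    intro h0
    exact hr (dotProduct_self_eq_zero.mp h0)
  set u : Fin (n+1) → ℝ := (r ⬝ᵥ r)⁻¹ • r with hu
  have hru : r ⬝ᵥ u = 1 := by
    rw [hu, dotProduct_smul, smul_eq_mul]; field_simp
  have hl0 : l ≠ 0 := by
    intro h0; rw [h0] at hl; simp at hl; linarith
  set A' := A - vecMulVec (A.mulVec u) r with hA'
  have hdef := charpoly_deflate A r u l hA hru
  rw [← hA'] at hdef
  -- l is not a root of A'.charpoly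
  have hAne : A.charpoly ≠ 0 := (Matrix.charpoly_monic A).ne_zero
  have hA'ne : A'.charpoly ≠ 0 := (Matrix.charpoly_monic A').ne_zero
  have hmult : A'.charpoly.rootMultiplicity l = 0 := by
    have h1 := congrArg (Polynomial.rootMultiplicity l) hdef
    rw [Polynomial.rootMultiplicity_mul (mul_ne_zero (X_sub_C_ne_zero l) hA'ne),
      Polynomial.rootMultiplicity_mul (mul_ne_zero X_ne_zero hAne), hsimple,
      Polynomial.rootMultiplicity_X_sub_C_self] at h1
    have h2 : (X : ℝ[X]).rootMultiplicity l = 0 := by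
      rw [Polynomial.rootMultiplicity_eq_zero]
      simpa using hl0
    omega
  have hroot : ¬ A'.charpoly.IsRoot l := by
    intro hh
    have := (Polynomial.rootMultiplicity_pos hA'ne).mpr hh
    omega
  have hall : ∀ z : ℂ, ((A'.map (algebraMap ℝ ℂ)).charpoly).IsRoot z → ‖z‖ < 1 := by
    intro z hz
    have hmap := congrArg (Polynomial.map (algebraMap ℝ ℂ)) hdef
    rw [Polynomial.map_mul, Polynomial.map_mul, ← Matrix.charpoly_map, ← Matrix.charpoly_map] at hmap
    have h1 := congrArg (Polynomial.eval z) hmap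
    rw [Polynomial.eval_mul, Polynomial.eval_mul, hz.eq_zero] at h1
    simp only [Polynomial.map_X, Polynomial.eval_X, mul_zero] at h1
    rcases mul_eq_zero.mp h1.symm with h0 | h0
    · rw [h0]; simp
    · rcases h z h0 with h2 | h2
      · exfalso
        apply hroot
        rw [h2, Matrix.charpoly_map, Polynomial.IsRoot.def] at hz
        have h3 : Polynomial.eval ((algebraMap ℝ ℂ) l) (Polynomial.map (algebraMap ℝ ℂ) A'.charpoly) = 0 := hz
        rw [Polynomial.eval_map_apply] at h3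
        have h4 : ((Polynomial.eval l A'.charpoly : ℝ) : ℂ) = 0 := h3
        rw [Polynomial.IsRoot.def]
        exact_mod_cast h4
      · exact h2
  obtain ⟨C, θ, hC, hθ, hθ1, hb⟩ := matrix_pow_bound A' hall
  refine ⟨C, θ, hC, hθ, hθ1, ?_⟩
  intro k v hv
  have hv' : r ⬝ᵥ v = 0 := hv
  have hstep : ∀ (x : Fin (n+1) → ℝ), r ⬝ᵥ x = 0 → A'.mulVec x = A.mulVec x ∧ r ⬝ᵥ (A.mulVec x) = 0 := by
    intro x hx
    constructor
    · rw [hA', sub_mulVec, vecMulVec_mulVec, hx]
      simp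
    · rw [dotProduct_mulVec, ← mulVec_transpose, hA, smul_dotProduct, hx, smul_zero]
  have hind : ∀ j : ℕ, (A ^ j).mulVec v = (A' ^ j).mulVec v ∧ r ⬝ᵥ ((A ^ j).mulVec v) = 0 := by
    intro j
    induction j with
    | zero => simp [hv']
    | succ j ih =>
      obtain ⟨ih1, ih2⟩ := ih
      have h1 := hstep _ ih2
      constructor
      · rw [pow_succ', pow_succ', ← mulVec_mulVec, ← mulVec_mulVec, ← ih1, h1.1]
      · rw [pow_succ', ← mulVec_mulVec]
        exact h1.2
  rw [(hind k).1]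
  exact hb k v

end C37
end
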