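import Mathlib
import Pool.Agent.Lib.MP_c37615_al.Mg.G008
import Pool.Agent.Lib.MP_c37615_al.Defs
import Pool.Agent.Lib.MP_c37615_al.D.Core
import Pool.Agent.Lib.MP_c37615_al.D.T01
import Pool.Agent.Lib.MP_c37615_al.D.T03

section

/-!
MP_c37615_al D TASK T07: dynamics of 3x3 matrices of determinant 1 without eigenvalues of modulus 1.

`sl3_dyn`: let l1,l2,l3 be the complex roots of the characteristic polynomial (with multiplicity), l1 l2 l3 = 1.  No root has modulus 1: a real one would be +-1, excluded by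
det(A-1) <> 0, det(A+1) <> 0; a non-real root z of modulus 1 has conj z as another root and the third root is 1/(z conj z) = 1, excluded.
So the number m of roots with modulus > 1 is 1 or 2 (the product of the moduli is 1).
If m = 1: this root l is real (else conj l is another), simple, the other two have modulus < 1.  Take eigenvectors v of A, r of A^T for l.  If r.v = 0 then v lies in the kernel of the functional r,
on which ‖A^k v‖ -> 0 (`matrix_pow_bound_ker`), contradicting A^k v = l^k v.  The bounds: `matrix_pow_bound_ker` for A with r and for A^T with v.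
Sign: det(A-1) det(A+1) = det(A^2-1) = prod (l_i^2 - 1): (l^2-1) > 0 and (l2^2-1)(l3^2-1) > 0 (both real in (-1,1) or complex conjugate).
If m = 2: A⁻¹ has characteristic roots 1/l_i, so m = 1 for A⁻¹.
-/

set_option autoImplicit false

namespace C37

/-- one eigenvalue outside the unit disc, two inside -/
def SLdata (A : Matrix (Fin 3) (Fin 3) ℝ) : Prop :=
  ∃ (l : ℝ) (v r : Fin 3 → ℝ) (C θ : ℝ), 1 < |l| ∧ v ≠ 0 ∧ r ≠ 0 ∧ A.mulVec v = l • v ∧ A.transpose.mulVec r = l • r ∧
    (r 0 * v 0 + r 1 * v 1 + r 2 * v 2 ≠ 0) ∧ 0 ≤ C ∧ 0 ≤ θ ∧ θ < 1 ∧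
    (∀ (n : ℕ) (x : Fin 3 → ℝ), x 0 * r 0 + x 1 * r 1 + x 2 * r 2 = 0 → ‖(A ^ n).mulVec x‖ ≤ C * θ ^ n * ‖x‖) ∧
    (∀ (n : ℕ) (w : Fin 3 → ℝ), w 0 * v 0 + w 1 * v 1 + w 2 * v 2 = 0 → ‖((A.transpose) ^ n).mulVec w‖ ≤ C * θ ^ n * ‖w‖) ∧
    0 < (A - 1).det * (A + 1).det

open Polynomial in
private theorem T07_charpoly (A : Matrix (Fin 3) (Fin 3) ℝ) (hA : A.det = 1) :
    A.charpoly = X ^ 3 - C A.trace * X ^ 2 + C (A⁻¹).trace * X - 1 := by
  have hinv : A⁻¹ = A.adjugate := by
    rw [Matrix.inv_def, hA]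
    simp
  have hC : (1 : ℝ[X]) = C A.det := by rw [hA]; simp
  rw [hinv, hC, Matrix.charpoly, Matrix.det_fin_three, Matrix.det_fin_three, Matrix.trace_fin_three,
    Matrix.trace_fin_three, Matrix.adjugate_fin_three]
  simp
  ring

open Polynomial in
private theorem T07_eval (A : Matrix (Fin 3) (Fin 3) ℝ) (hA : A.det = 1) (x : ℝ) :
    (A - x • 1).det = -(x ^ 3 - A.trace * x ^ 2 + (A⁻¹).trace * x - 1) := by
  have h := congrArg (Polynomial.eval x) (T07_charpoly A hA)
  rw [Matrix.eval_charpoly] at h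
  simp only [eval_sub, eval_add, eval_pow, eval_X, eval_mul, eval_C, eval_one] at h
  rw [← h]
  have : A - x • (1 : Matrix (Fin 3) (Fin 3) ℝ) = -(Matrix.scalar (Fin 3) x - A) := by
    rw [Matrix.scalar_apply, ← Matrix.smul_one_eq_diagonal]
    abel
  rw [this, Matrix.det_neg]
  simp
  norm_num

/-- a bundled bound -/
private theorem T07_ker (A : Matrix (Fin 3) (Fin 3) ℝ) (hA : A.det = 1) (l u w : ℝ)
    (ht : A.trace = l - u) (hs : (A⁻¹).trace = w - l * u) (hlw : l * w = 1) (hl : 1 < |l|)
    (hQ : ∀ z : ℂ, z ^ 2 + u * z + w = 0 → ‖z‖ < 1) (M : Matrix (Fin 3) (Fin 3) ℝ)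
    (hM : M.charpoly = A.charpoly) (r : Fin 3 → ℝ) (hr : r ≠ 0)
    (hAr : M.transpose.mulVec r = l • r) :
    ∃ (C θ : ℝ), 0 ≤ C ∧ 0 ≤ θ ∧ θ < 1 ∧ ∀ (k : ℕ) (v : Fin 3 → ℝ), (∑ i, r i * v i) = 0 →
      ‖(M ^ k).mulVec v‖ ≤ C * θ ^ k * ‖v‖ := by
  have hcp : M.charpoly = (Polynomial.X - Polynomial.C l) * (Polynomial.X ^ 2 + Polynomial.C u * Polynomial.X + Polynomial.C w) := by
    have hC : (1 : Polynomial ℝ) = Polynomial.C l * Polynomial.C w := by
      rw [← Polynomial.C_mul, hlw, Polynomial.C_1]
    rw [hM, T07_charpoly A hA, ht, hs, hC]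
    simp only [Polynomial.C_sub, Polynomial.C_mul]
    ring
  refine matrix_pow_bound_ker M r hr l hAr ?_ ?_ hl.le
  · intro z hz
    rw [Matrix.charpoly_map, hcp, Polynomial.IsRoot.def] at hz
    simp only [Polynomial.map_mul, Polynomial.map_sub, Polynomial.map_add, Polynomial.map_pow, Polynomial.map_X,
      Polynomial.map_C, Polynomial.eval_mul, Polynomial.eval_sub, Polynomial.eval_add, Polynomial.eval_pow,
      Polynomial.eval_X, Polynomial.eval_C, mul_eq_zero] at hz
    rcases hz with hz | hz
    · left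
      have := sub_eq_zero.1 hz
      simpa using this
    · right
      exact hQ z (by simpa using hz)
  · rw [hcp]
    have hQl : ¬ (Polynomial.X ^ 2 + Polynomial.C u * Polynomial.X + Polynomial.C w : Polynomial ℝ).IsRoot l := by
      intro hroot
      rw [Polynomial.IsRoot.def] at hroot
      simp only [Polynomial.eval_add, Polynomial.eval_pow, Polynomial.eval_X, Polynomial.eval_mul, Polynomial.eval_C] at hroot
      have h := hQ (l : ℂ) (by exact_mod_cast hroot)
      rw [Complex.norm_real, Real.norm_eq_abs] at h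
      linarith
    have hne : (Polynomial.X ^ 2 + Polynomial.C u * Polynomial.X + Polynomial.C w : Polynomial ℝ) ≠ 0 := by
      intro h0
      apply hQl
      rw [h0]
      exact Polynomial.eval_zero
    rw [Polynomial.rootMultiplicity_mul (mul_ne_zero (Polynomial.X_sub_C_ne_zero l) hne),
      Polynomial.rootMultiplicity_X_sub_C_self, Polynomial.rootMultiplicity_eq_zero hQl]

private theorem T07_Qpos (u w : ℝ) (hQ : ∀ z : ℂ, z ^ 2 + u * z + w = 0 → ‖z‖ < 1) :
    0 < 1 + u + w ∧ 0 < 1 - u + w := by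
  have hreal : ∀ x : ℝ, x ^ 2 + u * x + w = 0 → |x| < 1 := by
    intro x hx
    have h := hQ (x : ℂ) (by exact_mod_cast hx)
    rwa [Complex.norm_real, Real.norm_eq_abs] at h
  constructor
  · by_contra hcon
    push Not at hcon
    have hd : (2 + u) ^ 2 ≤ u ^ 2 - 4 * w := by nlinarith
    have hd0 : 0 ≤ u ^ 2 - 4 * w := le_trans (sq_nonneg _) hd
    have hs : 2 + u ≤ Real.sqrt (u ^ 2 - 4 * w) := Real.le_sqrt_of_sq_le hd
    have hsq := Real.sq_sqrt hd0
    have h := hreal ((-u + Real.sqrt (u ^ 2 - 4 * w)) / 2) (by nlinarith)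
    have h' := (abs_lt.1 h).2
    linarith
  · by_contra hcon
    push Not at hcon
    have hd : (2 - u) ^ 2 ≤ u ^ 2 - 4 * w := by nlinarith
    have hd0 : 0 ≤ u ^ 2 - 4 * w := le_trans (sq_nonneg _) hd
    have hs : 2 - u ≤ Real.sqrt (u ^ 2 - 4 * w) := Real.le_sqrt_of_sq_le hd
    have hsq := Real.sq_sqrt hd0
    have h := hreal ((-u - Real.sqrt (u ^ 2 - 4 * w)) / 2) (by nlinarith)
    have h' := (abs_lt.1 h).1
    linarith

private theorem T07_eig (M : Matrix (Fin 3) (Fin 3) ℝ) (l : ℝ) (h : (M - l • 1).det = 0) :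
    ∃ v : Fin 3 → ℝ, v ≠ 0 ∧ M.mulVec v = l • v := by
  obtain ⟨v, hv, hv2⟩ := Matrix.exists_mulVec_eq_zero_iff.2 h
  refine ⟨v, hv, ?_⟩
  rw [Matrix.sub_mulVec, Matrix.smul_mulVec, Matrix.one_mulVec, sub_eq_zero] at hv2
  exact hv2

private theorem T07_core (A : Matrix (Fin 3) (Fin 3) ℝ) (hA : A.det = 1) (l u w : ℝ)
    (ht : A.trace = l - u) (hs : (A⁻¹).trace = w - l * u) (hlw : l * w = 1) (hl : 1 < |l|)
    (hQ : ∀ z : ℂ, z ^ 2 + u * z + w = 0 → ‖z‖ < 1) : SLdata A := by
  have hdet : (A - l • 1).det = 0 := by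
    rw [T07_eval A hA, ht, hs]
    linear_combination (-1) * hlw
  have hdetT : (A.transpose - l • 1).det = 0 := by
    have h : A.transpose - l • (1 : Matrix (Fin 3) (Fin 3) ℝ) = (A - l • 1).transpose := by
      rw [Matrix.transpose_sub, Matrix.transpose_smul, Matrix.transpose_one]
    rw [h, Matrix.det_transpose, hdet]
  obtain ⟨v, hv, hAv⟩ := T07_eig A l hdet
  obtain ⟨r, hr, hAr⟩ := T07_eig A.transpose l hdetT
  obtain ⟨C1, θ1, hC1, hθ1, hθ1', hb1⟩ := T07_ker A hA l u w ht hs hlw hl hQ A rfl r hr hAr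
  obtain ⟨C2, θ2, hC2, hθ2, hθ2', hb2⟩ := T07_ker A hA l u w ht hs hlw hl hQ A.transpose
    (Matrix.charpoly_transpose A) v hv (by rw [Matrix.transpose_transpose]; exact hAv)
  have hpow : ∀ n : ℕ, (A ^ n).mulVec v = l ^ n • v := by
    intro n
    induction n with
    | zero => simp
    | succ n ih => rw [pow_succ, ← Matrix.mulVec_mulVec, hAv, Matrix.mulVec_smul, ih, smul_smul, ← pow_succ']
  have hrv : r 0 * v 0 + r 1 * v 1 + r 2 * v 2 ≠ 0 := by
    intro h0
    have hb := fun k => hb1 k v (by rw [Fin.sum_univ_three]; exact h0)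
    have hvn : 0 < ‖v‖ := norm_pos_iff.2 hv
    have hlim : Filter.Tendsto (fun k : ℕ => C1 * θ1 ^ k) Filter.atTop (nhds (C1 * 0)) :=
      (tendsto_pow_atTop_nhds_zero_of_lt_one hθ1 hθ1').const_mul C1
    rw [mul_zero] at hlim
    obtain ⟨k, hk⟩ := ((tendsto_order.1 hlim).2 1 one_pos).exists
    have h1 := hb k
    rw [hpow, norm_smul, norm_pow, Real.norm_eq_abs] at h1
    have h2 : (1 : ℝ) ≤ |l| ^ k := one_le_pow₀ hl.le
    nlinarith
  obtain ⟨hq1, hq2⟩ := T07_Qpos u w hQ
  have hm1 : (A - 1).det = -(1 - A.trace + (A⁻¹).trace - 1) := by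
    have := T07_eval A hA 1
    rw [one_smul] at this
    rw [this]; ring
  have hp1 : (A + 1).det = -(-1 - A.trace - (A⁻¹).trace - 1) := by
    have := T07_eval A hA (-1)
    rw [neg_one_smul, sub_neg_eq_add] at this
    rw [this]; ring
  refine ⟨l, v, r, max C1 C2, max θ1 θ2, hl, hv, hr, hAv, hAr, hrv, le_max_of_le_left hC1, le_max_of_le_left hθ1,
    max_lt hθ1' hθ2', ?_, ?_, ?_⟩
  · intro n x hx
    refine (hb1 n x (by rw [Fin.sum_univ_three]; linarith)).trans ?_
    gcongr
    · exact le_max_left _ _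
    · exact le_max_left _ _
  · intro n x hx
    refine (hb2 n x (by rw [Fin.sum_univ_three]; linarith)).trans ?_
    gcongr
    · exact le_max_right _ _
    · exact le_max_right _ _
  · rw [hm1, hp1, ht, hs]
    have e1 : -(1 - (l - u) + (w - l * u) - 1) = (l - 1) * (1 + u + w) := by linear_combination hlw * (-1)
    have e2 : -(-1 - (l - u) - (w - l * u) - 1) = (l + 1) * (1 - u + w) := by linear_combination hlw * (-1)
    rw [e1, e2]
    have hl2 : 0 < (l - 1) * (l + 1) := by
      have : 1 < |l| ^ 2 := by nlinarith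
      rw [sq_abs] at this
      nlinarith
    have : 0 < ((l - 1) * (l + 1)) * ((1 + u + w) * (1 - u + w)) := mul_pos hl2 (mul_pos hq1 hq2)
    linarith [this, (by ring : (l - 1) * (1 + u + w) * ((l + 1) * (1 - u + w)) = ((l - 1) * (l + 1)) * ((1 + u + w) * (1 - u + w)))]

/-- real roots -/
private theorem T07_real (A : Matrix (Fin 3) (Fin 3) ℝ) (hA : A.det = 1) (a b c : ℝ)
    (ht : A.trace = a + b + c) (hs : (A⁻¹).trace = a * b + b * c + c * a) (habc : a * b * c = 1)
    (ha : 1 < |a|) (hb : |b| < 1) (hc : |c| < 1) : SLdata A := by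
  refine T07_core A hA a (-(b + c)) (b * c) (by rw [ht]; ring) (by rw [hs]; ring) (by rw [← habc]; ring) ha ?_
  intro z hz
  have hz' : (z - b) * (z - c) = 0 := by
    rw [← hz]; push_cast; ring
  rcases mul_eq_zero.1 hz' with h | h
  · rw [sub_eq_zero.1 h, Complex.norm_real, Real.norm_eq_abs]; exact hb
  · rw [sub_eq_zero.1 h, Complex.norm_real, Real.norm_eq_abs]; exact hc

private theorem T07_invdet (A : Matrix (Fin 3) (Fin 3) ℝ) (hA : A.det = 1) : (A⁻¹).det = 1 ∧ (A⁻¹)⁻¹ = A := by
  have hu : IsUnit A.det := by rw [hA]; exact isUnit_one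
  constructor
  · rw [Matrix.det_nonsing_inv, hA]; simp
  · exact Matrix.nonsing_inv_nonsing_inv A hu

/-- real roots, two large -/
private theorem T07_real2 (A : Matrix (Fin 3) (Fin 3) ℝ) (hA : A.det = 1) (a b c : ℝ)
    (ht : A.trace = a + b + c) (hs : (A⁻¹).trace = a * b + b * c + c * a) (habc : a * b * c = 1)
    (ha : |a| < 1) (hb : 1 < |b|) (hc : 1 < |c|) : SLdata A⁻¹ := by
  obtain ⟨hi1, hi2⟩ := T07_invdet A hA
  have h0 : a ≠ 0 ∧ b ≠ 0 ∧ c ≠ 0 := by
    refine ⟨?_, ?_, ?_⟩ <;> rintro rfl <;> norm_num at habc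
  have e1 : b * c = a⁻¹ := by
    rw [eq_comm, inv_eq_iff_eq_inv, eq_comm, inv_eq_of_mul_eq_one_left]
    rw [← habc]; ring
  have e2 : c * a = b⁻¹ := by
    rw [eq_comm, inv_eq_iff_eq_inv, eq_comm, inv_eq_of_mul_eq_one_left]
    rw [← habc]; ring
  have e3 : a * b = c⁻¹ := by
    rw [eq_comm, inv_eq_iff_eq_inv, eq_comm, inv_eq_of_mul_eq_one_left]
    rw [← habc]; ring
  have habs : |a| * |b| * |c| = 1 := by rw [← abs_mul, ← abs_mul, habc, abs_one]
  refine T07_real A⁻¹ hi1 a⁻¹ b⁻¹ c⁻¹ ?_ ?_ ?_ ?_ ?_ ?_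
  · rw [hs, e1, e2, e3]; ring
  · rw [hi2, ht, ← mul_inv, ← mul_inv, ← mul_inv, e3, inv_inv, e1, inv_inv, e2, inv_inv]; ring
  · rw [← mul_inv, ← mul_inv, habc, inv_one]
  · rw [abs_inv]
    exact (one_lt_inv₀ (abs_pos.2 h0.1)).2 ha
  · rw [abs_inv]
    exact inv_lt_one_of_one_lt₀ hb
  · rw [abs_inv]
    exact inv_lt_one_of_one_lt₀ hc

/-- complex roots -/
private theorem T07_cplx (A : Matrix (Fin 3) (Fin 3) ℝ) (hA : A.det = 1) (l u w : ℝ)
    (ht : A.trace = l - u) (hs : (A⁻¹).trace = w - l * u) (hlw : l * w = 1) (hl : 1 < l)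
    (hd : u ^ 2 < 4 * w) : SLdata A := by
  have hw : w < 1 := by
    by_contra hcon
    push Not at hcon
    nlinarith
  refine T07_core A hA l u w ht hs hlw (by rw [abs_of_pos (by linarith)]; exact hl) ?_
  intro z hz
  have hre := congrArg Complex.re hz
  have him := congrArg Complex.im hz
  simp only [Complex.add_re, Complex.add_im, Complex.mul_re, Complex.mul_im, Complex.ofReal_re, Complex.ofReal_im,
    Complex.zero_re, Complex.zero_im, pow_two] at hre him
  have him' : z.im * (2 * z.re + u) = 0 := by linarith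
  have hn : ‖z‖ ^ 2 < 1 := by
    rw [Complex.sq_norm, Complex.normSq_apply]
    rcases mul_eq_zero.1 him' with h | h
    · exfalso
      rw [h] at hre
      nlinarith [sq_nonneg (2 * z.re + u)]
    · have hu : u = -(2 * z.re) := by linarith
      rw [hu] at hre
      nlinarith
  nlinarith [norm_nonneg z]

theorem sl3_dyn (A : Matrix (Fin 3) (Fin 3) ℝ) (hA : A.det = 1) (h1 : (A - 1).det ≠ 0) (h2 : (A + 1).det ≠ 0) :
    SLdata A ∨ SLdata A⁻¹ := by
  obtain ⟨hi1, hi2⟩ := T07_invdet A hA
  have hroot : ∀ x : ℝ, x ^ 3 - A.trace * x ^ 2 + (A⁻¹).trace * x - 1 = 0 → |x| ≠ 1 := by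
    intro x hx habs
    rcases eq_or_eq_neg_of_abs_eq habs with h | h
    · apply h1
      have := T07_eval A hA x
      rw [hx, h, one_smul] at this
      rw [this]; simp
    · apply h2
      have := T07_eval A hA x
      rw [hx, h, neg_one_smul, sub_neg_eq_add] at this
      rw [this]; simp
  -- a positive real root
  obtain ⟨l, hl0, hl⟩ : ∃ l : ℝ, 0 < l ∧ l ^ 3 - A.trace * l ^ 2 + (A⁻¹).trace * l - 1 = 0 := by
    set t := A.trace
    set s := (A⁻¹).trace
    have hcont : Continuous (fun x : ℝ => x ^ 3 - t * x ^ 2 + s * x - 1) := by fun_prop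
    set M : ℝ := 1 + |t| + |s| with hM
    have hM1 : 1 ≤ M := by have := abs_nonneg t; have := abs_nonneg s; linarith
    have hbig : 0 ≤ M ^ 3 - t * M ^ 2 + s * M - 1 := by
      have ht := le_abs_self t
      have hs := neg_abs_le s
      have a1 : t * M ^ 2 ≤ |t| * M ^ 2 := by gcongr
      have a2 : -|s| * M ≤ s * M := by gcongr
      have a3 : |s| * M ≤ |s| * M ^ 2 := by
        have : M ≤ M ^ 2 := by nlinarith
        gcongr
      have a4 : 1 ≤ M ^ 2 := by nlinarith
      have a5 : M ^ 3 = M ^ 2 + |t| * M ^ 2 + |s| * M ^ 2 := by rw [hM]; ring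
      linarith
    have hivt := intermediate_value_Icc (by linarith : (0:ℝ) ≤ M) hcont.continuousOn
    obtain ⟨l, hlm, hl⟩ := hivt (show (0:ℝ) ∈ Set.Icc _ _ from ⟨by norm_num, hbig⟩)
    refine ⟨l, ?_, hl⟩
    rcases eq_or_lt_of_le hlm.1 with h | h
    · rw [← h] at hl
      norm_num at hl
    · exact h
  set t := A.trace with htdef
  set s := (A⁻¹).trace with hsdef
  set w : ℝ := 1 / l with hw
  set u : ℝ := l - t with hu
  have hlw : l * w = 1 := by rw [hw]; field_simp
  have ht : t = l - u := by rw [hu]; ring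
  have hs : s = w - l * u := by
    have : l * s = l * (w - l * u) := by
      rw [mul_sub, hlw, hu]
      linear_combination hl
    exact mul_left_cancel₀ hl0.ne' this
  rcases lt_or_ge (u ^ 2) (4 * w) with hd | hd
  · -- complex pair
    have hl1 := hroot l hl
    rw [abs_of_pos hl0] at hl1
    rcases lt_or_gt_of_ne hl1 with hlt | hgt
    · right
      have hw0 : 0 < w := by rw [hw]; positivity
      refine T07_cplx A⁻¹ hi1 w (u * l) l ?_ ?_ (by rw [mul_comm]; exact hlw) ?_ ?_
      · rw [← hsdef, hs]; ring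
      · rw [hi2, ← htdef, ht]
        linear_combination u * hlw
      · rw [hw]
        exact (one_lt_div hl0).2 hlt
      · have h4 : (u * l) ^ 2 < 4 * w * l ^ 2 := by
          have : 0 < l ^ 2 := by positivity
          nlinarith
        have h5 : 4 * w * l ^ 2 = 4 * l := by linear_combination (4 * l) * hlw
        linarith
    · left
      exact T07_cplx A hA l u w ht hs hlw hgt hd
  · -- real roots
    set D := Real.sqrt (u ^ 2 - 4 * w) with hD
    have hDsq : D ^ 2 = u ^ 2 - 4 * w := Real.sq_sqrt (by linarith)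
    set b : ℝ := (-u + D) / 2 with hb
    set c : ℝ := (-u - D) / 2 with hc
    have hbc : b + c = -u := by rw [hb, hc]; ring
    have hbc2 : b * c = w := by rw [hb, hc]; linear_combination (-1/4) * hDsq
    have ht' : t = l + b + c := by rw [ht]; linear_combination (-1) * hbc
    have hs' : s = l * b + b * c + c * l := by
      rw [hs]; linear_combination (-l) * hbc - hbc2
    have habc : l * b * c = 1 := by rw [mul_assoc, hbc2, hlw]
    have r1 := hroot l hl
    have r2 : |b| ≠ 1 := by
      apply hroot b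
      rw [ht', hs']
      linear_combination habc
    have r3 : |c| ≠ 1 := by
      apply hroot c
      rw [ht', hs']
      linear_combination habc
    have habs : |l| * |b| * |c| = 1 := by rw [← abs_mul, ← abs_mul, habc, abs_one]
    have hl0' := abs_nonneg l
    have hb0' := abs_nonneg b
    have hc0' := abs_nonneg c
    have habc2 : b * l * c = 1 := by rw [← habc]; ring
    have habc3 : c * l * b = 1 := by rw [← habc]; ring
    have t2 : t = b + l + c := by rw [ht']; ring
    have t3 : t = c + l + b := by rw [ht']; ring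
    have s2 : s = b * l + l * c + c * b := by rw [hs']; ring
    have s3 : s = c * l + l * b + b * c := by rw [hs']; ring
    rcases lt_or_gt_of_ne r1 with l1 | l1 <;> rcases lt_or_gt_of_ne r2 with l2 | l2 <;>
      rcases lt_or_gt_of_ne r3 with l3 | l3
    · exfalso
      have : |l| * |b| < 1 := by nlinarith
      nlinarith [mul_nonneg hl0' hb0']
    · left; exact T07_real A hA c l b t3 s3 habc3 l3 l1 l2
    · left; exact T07_real A hA b l c t2 s2 habc2 l2 l1 l3
    · right; exact T07_real2 A hA l b c ht' hs' habc l1 l2 l3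
    · left; exact T07_real A hA l b c ht' hs' habc l1 l2 l3
    · right; exact T07_real2 A hA b l c t2 s2 habc2 l2 l1 l3
    · right; exact T07_real2 A hA c l b t3 s3 habc3 l3 l1 l2
    · exfalso
      have : 1 < |l| * |b| := by nlinarith
      nlinarith

end C37
end

section

/-!
MP_c37615_al D TASK T09: decomposition of V with respect to two null vectors p, r with B p r <> 0.

Write c = B p r, e = (1/c) cross p r, so B e e = -1 (`q_cross_null`), B e p = B e r = 0.
`cross e p = -p`, `cross e r = r` (from cross_cross_self: cross p (cross p r) = B p r • p).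
`null_decomp`: for v put t = - B v e, a = B v r / c, b = B v p / c, v' = v - t•e... precisely: v = t • e' + a • p + b • r + v', with B v' p = B v' r = B v' e = 0.
 Then v1 = a • p + (1/2)(v' + cross e v'), v2 = b • r + (1/2)(v' - cross e v').  One has cross e (cross e v') = v' (B e e = -1, B e v' = 0).
 For w = v' + cross e v': cross e w = w, B w p = 0 (B (cross e v') p = - B v' (cross e p) = B v' p = 0), B w e = 0.  By `cross_cross_polar p w e`:
   cross p (cross w e) + cross w (cross p e) = -2 B p w e + B p e w + B w e p = 0, and cross w e = -w, cross p e = p, so -cross p w + cross w p = -2 cross p w = 0.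
   So cross p v1 = 0.  Similarly cross r v2 = 0 (w' = v' - cross e v' has cross e w' = -w', cross e r = r).
`null_disjoint`: by `cross_cross_polar p r u`: 0 = -2 B p r u + B p u r + B r u p and B p u = B r u = 0 (`perp_of_cross_zero`).
`perp_of_cross_zero`: cross_cross_self p u: 0 = -(B p p) u + (B p u) p gives B p u = 0; q_cross: 0 = ... ; B u u = 0: cross u (cross u p) = -(B u u) p + (B u p) u = 0.
`unit_diff`: cross p (cross p s) = (B p s) p for p null.
-/

set_option autoImplicit false

namespace C37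

/-- polarised double cross product identity -/
theorem cross_cross_polar (u v w : V) :
    cross u (cross v w) + cross v (cross u w) = (-2 * B u v) • w + (B u w) • v + (B v w) • u := by
  ext i; fin_cases i <;> simp [cross, B] <;> ring

private theorem T09_cross_zero (p : V) : cross p 0 = 0 := by
  have := cross_smul_right 0 p 0
  simpa using this

private theorem T09_cross_neg_right (p v : V) : cross p (-v) = -cross p v := by
  have := cross_smul_right (-1) p v
  simpa using this

private theorem T09_cross_sub_right (p u v : V) : cross p (u - v) = cross p u - cross p v := by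
  rw [sub_eq_add_neg, cross_add_right, T09_cross_neg_right, sub_eq_add_neg]

private theorem T09_B_zero_left (v : V) : B 0 v = 0 := by
  have := B_smul_left 0 0 v
  simpa using this

private theorem T09_B_zero_right (v : V) : B v 0 = 0 := by
  have := B_smul_right 0 v 0
  simpa using this

private theorem T09_B_neg_left (u v : V) : B (-u) v = -B u v := by
  have := B_smul_left (-1) u v
  simpa using this

private theorem T09_B_sub_left (u u' v : V) : B (u - u') v = B u v - B u' v := by
  rw [sub_eq_add_neg, B_add_left, T09_B_neg_left, sub_eq_add_neg]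

/-- if cross p u = 0, p null, then u is orthogonal to p; if moreover p ≠ 0 then u is null -/
theorem perp_of_cross_zero (p u : V) (hp : B p p = 0) (hp0 : p ≠ 0) (h : cross p u = 0) : B p u = 0 ∧ B u u = 0 := by
  have h1 := cross_cross_self p u
  rw [h, T09_cross_zero, hp, neg_zero, zero_smul, zero_add] at h1
  have h2 : B p u = 0 := by
    rcases smul_eq_zero.mp h1.symm with h | h
    · exact h
    · exact absurd h hp0
  refine ⟨h2, ?_⟩
  have h3 := cross_cross_self u p
  rw [cross_anti u p, h, neg_zero, T09_cross_zero, B_comm u p, h2, zero_smul, add_zero] at h3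
  rcases smul_eq_zero.mp h3.symm with h | h
  · linarith
  · exact absurd h hp0

theorem null_disjoint (p r : V) (hp : B p p = 0) (hr : B r r = 0) (hc : B p r ≠ 0) (u : V)
    (h1 : cross p u = 0) (h2 : cross r u = 0) : u = 0 := by
  have hp0 : p ≠ 0 := by rintro rfl; exact hc (T09_B_zero_left r)
  have hr0 : r ≠ 0 := by rintro rfl; exact hc (T09_B_zero_right p)
  have h3 := (perp_of_cross_zero p u hp hp0 h1).1
  have h4 := (perp_of_cross_zero r u hr hr0 h2).1
  have h5 := cross_cross_polar p r u
  rw [h1, h2, T09_cross_zero, T09_cross_zero, h3, h4, zero_smul, zero_smul, add_zero, add_zero, add_zero] at h5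
  rcases smul_eq_zero.mp h5.symm with h | h
  · exact absurd h (mul_ne_zero (by norm_num) hc)
  · exact h

/-- vectors killed by cross p are orthogonal to cross p r -/
theorem B_ker_cross (p r v : V) (h : cross p v = 0) : B v (cross p r) = 0 := by
  rw [← B_cross_cycl, cross_anti v p, h, neg_zero, T09_B_zero_left]
theorem B_ker_cross' (p r v : V) (h : cross r v = 0) : B v (cross p r) = 0 := by
  rw [B_comm, B_cross_cycl, h, T09_B_zero_right]

/-- the unit vector e(p,r) = (1/B p r) cross p r has q = -1 -/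
theorem q_unit (p r : V) (hp : B p p = 0) (hc : B p r ≠ 0) :
    B ((1 / B p r) • cross p r) ((1 / B p r) • cross p r) = -1 := by
  rw [B_smul_left, B_smul_right, q_cross, hp]
  field_simp
  ring

private theorem T09_p_e (p r : V) (hp : B p p = 0) (hc : B p r ≠ 0) : cross p ((1 / B p r) • cross p r) = p := by
  rw [cross_smul_right, cross_cross_self, hp, neg_zero, zero_smul, zero_add, smul_smul, one_div, inv_mul_cancel₀ hc, one_smul]

private theorem T09_r_e (p r : V) (hr : B r r = 0) (hc : B p r ≠ 0) : cross r ((1 / B p r) • cross p r) = -r := by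
  rw [cross_smul_right, cross_anti p r, T09_cross_neg_right, cross_cross_self, hr, neg_zero, zero_smul, zero_add, B_comm r p, smul_neg,
    smul_smul, one_div, inv_mul_cancel₀ hc, one_smul]

/-- e(p,r) modulo the kernel of cross p does not depend on r -/
theorem unit_diff (p r r' : V) (hp : B p p = 0) (hc : B p r ≠ 0) (hc' : B p r' ≠ 0) :
    cross p ((1 / B p r') • cross p r' - (1 / B p r) • cross p r) = 0 := by
  rw [T09_cross_sub_right, T09_p_e p r hp hc, T09_p_e p r' hp hc', sub_self]
theorem unit_diff' (p p' r : V) (hr : B r r = 0) (hc : B p r ≠ 0) (hc' : B p' r ≠ 0) :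
    cross r ((1 / B p' r) • cross p' r - (1 / B p r) • cross p r) = 0 := by
  rw [T09_cross_sub_right, T09_r_e p r hr hc, T09_r_e p' r hr hc', sub_self]

/-- the eigenvector argument: if `B e e = -1`, `cross p e = ε p`, v' orthogonal to e and p, then cross p kills v' + ε cross e v' -/
private theorem T09_kill (p e v : V) (ε : ℝ) (hε : ε * ε = 1) (he : B e e = -1) (hpe : cross p e = ε • p) (h1 : B v e = 0) (h2 : B v p = 0) (h3 : B p e = 0) :
    cross p (v + ε • cross e v) = 0 := by
  set w : V := v + ε • cross e v with hw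
  have a1 : cross e w = ε • w := by
    rw [hw, cross_add_right, cross_smul_right, cross_cross_self, he, B_comm e v, h1, zero_smul, add_zero, neg_neg, one_smul, smul_add, smul_smul, hε, one_smul, add_comm]
  have a2 : B w p = 0 := by
    rw [hw, B_add_left, B_smul_left, h2, B_cross_cycl, B_comm e, B_cross_cycl, hpe, B_smul_right, h2]
    ring
  have a3 : B w e = 0 := by
    rw [hw, B_add_left, B_smul_left, h1, B_comm (cross e v) e, ← B_cross_cycl, cross_self, T09_B_zero_left]
    ring
  have a4 := cross_cross_polar p w e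
  rw [cross_anti w e, a1, hpe, B_comm p w, a2, h3, a3, cross_smul_right, T09_cross_neg_right, cross_smul_right, cross_anti w p] at a4
  simp only [mul_zero, zero_smul, add_zero, smul_neg] at a4
  have a5 : (-(2 * ε)) • cross p w = 0 := by
    rw [← a4]; module
  rcases smul_eq_zero.mp a5 with h | h
  · exfalso
    have : ε = 0 := by linarith
    rw [this] at hε
    norm_num at hε
  · exact h

theorem null_decomp (p r : V) (hp : B p p = 0) (hr : B r r = 0) (hc : B p r ≠ 0) (v : V) :
    ∃ (v1 : V) (t : ℝ) (v2 : V), cross p v1 = 0 ∧ cross r v2 = 0 ∧ v = v1 + t • ((1 / B p r) • cross p r) + v2 := by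
  have q1 := q_unit p r hp hc
  have q2 := T09_p_e p r hp hc
  have q3 := T09_r_e p r hr hc
  have q4 : B p ((1 / B p r) • cross p r) = 0 := by
    rw [B_smul_right, B_ker_cross p r p (cross_self p), mul_zero]
  have q5 : B r ((1 / B p r) • cross p r) = 0 := by
    rw [B_smul_right, B_ker_cross' p r r (cross_self r), mul_zero]
  generalize (1 / B p r) • cross p r = e at q1 q2 q3 q4 q5 ⊢
  set w : V := v - (-(B v e)) • e - (B v r / B p r) • p - (B v p / B p r) • r with hw
  have w1 : B w e = 0 := by
    rw [hw, T09_B_sub_left, T09_B_sub_left, T09_B_sub_left, B_smul_left, B_smul_left, B_smul_left, q1, q4, q5]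
    ring
  have w2 : B w p = 0 := by
    rw [hw, T09_B_sub_left, T09_B_sub_left, T09_B_sub_left, B_smul_left, B_smul_left, B_smul_left, hp, B_comm e p, q4, B_comm r p]
    field_simp
    ring
  have w3 : B w r = 0 := by
    rw [hw, T09_B_sub_left, T09_B_sub_left, T09_B_sub_left, B_smul_left, B_smul_left, B_smul_left, hr, B_comm e r, q5]
    field_simp
    ring
  have k1 := T09_kill p e w 1 (by norm_num) q1 (by rw [q2, one_smul]) w1 w2 q4
  have k2 := T09_kill r e w (-1) (by norm_num) q1 (by rw [q3]; module) w1 w3 q5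
  refine ⟨(B v r / B p r) • p + (1/2 : ℝ) • (w + (1:ℝ) • cross e w), -(B v e), (B v p / B p r) • r + (1/2 : ℝ) • (w + (-1:ℝ) • cross e w), ?_, ?_, ?_⟩
  · rw [cross_add_right, cross_smul_right, cross_smul_right, cross_self, k1]; simp
  · rw [cross_add_right, cross_smul_right, cross_smul_right, cross_self, k2]; simp
  · have : v = w + (-(B v e)) • e + (B v r / B p r) • p + (B v p / B p r) • r := by
      rw [hw]; abel
    nth_rewrite 1 [this]
    module

end C37
end
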