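import Mathlib
import Pool.Agent.Lib.MP_c37615_al.Defs
import Pool.Agent.Lib.MP_c37615_al.Mg.G017
import Pool.Agent.Lib.MP_c37615_al.D.Core
import Pool.Agent.Lib.MP_c37615_al.D.T01
import Pool.Agent.Lib.MP_c37615_al.Defs2
import Pool.Agent.Lib.MP_c37615_al.D.T05
import Pool.Agent.Lib.MP_c37615_al.Mg.G026
import Pool.Agent.Lib.MP_c37615_al.D.T03

section

/-!
MP_c37615_al D TASK T02: equivariance of `Ev`.  Use `GX_B` (g preserves `B` and `cross`, det g = 1), `Lmat_mulVec`, `B_Ev`.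

* `Lmat_conj`: apply both sides to v: cross (g w) (g v) = g (cross w v).
* `key_trace`: B (h v) (Ev (h M)) = trace (Lmat (h v) h M) = trace (h (Lmat v) M).
* `Ev_conj`: B (Ev (g M g⁻¹)) w = trace (Lmat w g M g⁻¹) = trace (g⁻¹ (Lmat w) g M) = trace (Lmat (g⁻¹ w) M) = B (Ev M) (g⁻¹ w) = B (g (Ev M)) w; then B_nondeg.
* `Ev_fixed`: take M = g.
* `Ev_inv`: B (Ev g⁻¹) w = trace (Lmat w g⁻¹); transpose with respect to B: the B-adjoint of g⁻¹ is g, of Lmat w is - Lmat w, so it is - trace (g Lmat w).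
-/

set_option autoImplicit false

namespace C37

theorem T02_ext (A A' : Mat) (h : ∀ v : V, A.mulVec v = A'.mulVec v) : A = A' :=
  Matrix.mulVec_injective (funext h)

theorem T02_Bext (u u' : V) (h : ∀ v, B u v = B u' v) : u = u' := by
  have h1 : u + (-1 : ℝ) • u' = 0 := by
    refine B_nondeg _ (fun v => ?_)
    rw [B_add_left, B_smul_left, h v]
    ring
  have h2 : u = (u + (-1 : ℝ) • u') + u' := by
    ext i
    simp
  rw [h2, h1, zero_add]

/-- the matrix of the form -/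
def T02_S : Mat := Matrix.diagonal sg

theorem T02_B (u v : V) : B u v = u ⬝ᵥ (T02_S.mulVec v) := by
  unfold B T02_S sg
  simp only [dotProduct, Matrix.mulVec_diagonal, Fin.sum_univ_succ, Fin.sum_univ_zero]
  simp
  ring

theorem T02_SS : T02_S * T02_S = 1 := by
  unfold T02_S sg
  rw [Matrix.diagonal_mul_diagonal, ← Matrix.diagonal_one]
  congr 1
  funext i
  fin_cases i <;> simp

theorem T02_St : T02_S.transpose = T02_S := by
  unfold T02_S
  rw [Matrix.diagonal_transpose]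

/-- adjoints -/
theorem T02_adj (A A' : Mat) (h : ∀ u v : V, B (A.mulVec u) v = B u (A'.mulVec v)) :
    T02_S * A.transpose * T02_S = A' := by
  have h1 : A.transpose * T02_S = T02_S * A' := by
    ext i j
    have h2 := h (Pi.single i 1) (Pi.single j 1)
    rw [T02_B, T02_B, ← Matrix.vecMul_transpose, ← Matrix.dotProduct_mulVec,
      Matrix.mulVec_mulVec, Matrix.mulVec_mulVec] at h2
    simpa using h2
  rw [Matrix.mul_assoc, h1, ← Matrix.mul_assoc, T02_SS, Matrix.one_mul]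

theorem T02_c (u : V) (i : Fin 7) : Continuous fun g : Mat => g.mulVec u i :=
  (continuous_apply i).comp (Continuous.matrix_mulVec continuous_id continuous_const)

theorem InG_one : InG (1 : Mat) := by
  intro u v w
  simp
theorem InG_mul (g h : Mat) (hg : InG g) (hh : InG h) : InG (g * h) := by
  intro u v w
  rw [← Matrix.mulVec_mulVec, ← Matrix.mulVec_mulVec, ← Matrix.mulVec_mulVec, hg, hh]
theorem InG_inv (g : Mat) (hg : InG g) : InG g⁻¹ ∧ g * g⁻¹ = 1 ∧ g⁻¹ * g = 1 := by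
  have hdet : IsUnit g.det := by
    rw [(GX_B g hg 0 0).2.2]
    exact isUnit_one
  have h1 : g * g⁻¹ = 1 := Matrix.mul_nonsing_inv g hdet
  have h2 : g⁻¹ * g = 1 := Matrix.nonsing_inv_mul g hdet
  refine ⟨fun u v w => ?_, h1, h2⟩
  have h3 := hg (g⁻¹.mulVec u) (g⁻¹.mulVec v) (g⁻¹.mulVec w)
  simp only [Matrix.mulVec_mulVec, h1, Matrix.one_mulVec] at h3
  exact h3.symm
theorem InG_closed : IsClosed {g : Mat | InG g} := by
  unfold InG
  simp only [Set.ofPred_forall]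
  refine isClosed_iInter (fun u => isClosed_iInter (fun v => isClosed_iInter (fun w => ?_)))
  refine isClosed_eq ?_ continuous_const
  have hu := T02_c u
  have hv := T02_c v
  have hw := T02_c w
  unfold phi e3 det3
  fun_prop
theorem Lmat_conj (g : Mat) (hg : InG g) (w : V) : Lmat (g.mulVec w) * g = g * Lmat w := by
  refine T02_ext _ _ (fun v => ?_)
  rw [← Matrix.mulVec_mulVec, ← Matrix.mulVec_mulVec, Lmat_mulVec, Lmat_mulVec]
  exact (GX_B g hg w v).2.1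
theorem key_trace (h : Mat) (hh : InG h) (v : V) (M : Mat) :
    B (h.mulVec v) (Ev (h * M)) = (h * (Lmat v * M)).trace := by
  rw [B_comm, B_Ev, ← Matrix.mul_assoc, Lmat_conj h hh, Matrix.mul_assoc]
theorem Ev_conj (g : Mat) (hg : InG g) (M : Mat) : Ev (g * M * g⁻¹) = g.mulVec (Ev M) := by
  obtain ⟨-, h1, h2⟩ := InG_inv g hg
  refine T02_Bext _ _ (fun w => ?_)
  obtain ⟨w', rfl⟩ : ∃ w', w = g.mulVec w' :=
    ⟨g⁻¹.mulVec w, by rw [Matrix.mulVec_mulVec, h1, Matrix.one_mulVec]⟩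
  rw [(GX_B g hg (Ev M) w').1, B_Ev, B_Ev]
  have e : Lmat (g.mulVec w') * (g * M * g⁻¹) = g * (Lmat w' * M) * g⁻¹ := by
    rw [← Matrix.mul_assoc, ← Matrix.mul_assoc, Lmat_conj g hg, Matrix.mul_assoc g]
  rw [e, Matrix.trace_mul_comm, ← Matrix.mul_assoc, h2, Matrix.one_mul]
theorem Ev_fixed (g : Mat) (hg : InG g) : g.mulVec (Ev g) = Ev g := by
  obtain ⟨-, h1, h2⟩ := InG_inv g hg
  rw [← Ev_conj g hg g, Matrix.mul_assoc, h1, Matrix.mul_one]
theorem Ev_inv (g : Mat) (hg : InG g) : Ev g⁻¹ = -Ev g ∧ (g⁻¹).trace = g.trace := by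
  obtain ⟨-, h1, h2⟩ := InG_inv g hg
  have hadj : T02_S * g.transpose * T02_S = g⁻¹ := by
    refine T02_adj g g⁻¹ (fun u v => ?_)
    rw [← (GX_B g hg u (g⁻¹.mulVec v)).1, Matrix.mulVec_mulVec, h1, Matrix.one_mulVec]
  have hL : ∀ w, T02_S * (Lmat w).transpose * T02_S = -Lmat w := by
    intro w
    refine T02_adj _ _ (fun u v => ?_)
    rw [Lmat_mulVec, Matrix.neg_mulVec, Lmat_mulVec]
    simp [B, cross]
    ring
  constructor
  · refine T02_Bext _ _ (fun w => ?_)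
    have e1 : B (-Ev g) w = -B (Ev g) w := by
      simp [B]
      ring
    rw [e1, B_Ev, B_Ev]
    have e2 : (Lmat w * g⁻¹).trace = ((Lmat w * g⁻¹).transpose).trace :=
      (Matrix.trace_transpose _).symm
    have e3 : (Lmat w * g⁻¹).transpose = T02_S * (g * T02_S * (Lmat w).transpose) := by
      rw [← hadj, Matrix.transpose_mul, Matrix.transpose_mul, Matrix.transpose_mul, T02_St,
        Matrix.transpose_transpose, Matrix.mul_assoc, Matrix.mul_assoc]
    rw [e2, e3, Matrix.trace_mul_comm]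
    have e4 : g * T02_S * (Lmat w).transpose * T02_S = -(g * Lmat w) := by
      rw [Matrix.mul_assoc g, Matrix.mul_assoc g, hL w, Matrix.mul_neg]
    rw [e4, Matrix.trace_neg, Matrix.trace_mul_comm]
  · rw [← hadj, Matrix.trace_mul_comm, ← Matrix.mul_assoc, T02_SS, Matrix.one_mul,
      Matrix.trace_transpose]

end C37
end

section

/-!
MP_c37615_al D TASK T04: linear part, translation part, and invariance of the sign function `FF`.

`FF_conj`: δ = (g,v), γ = (h,u): δγδ⁻¹ has linear part h' = g h g⁻¹ and translation part g u + v - h' v.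
trace h' = trace h; Ev h' = g Ev h; B (g u) (g Ev h) = B u (Ev h); B (v - h' v) (Ev h') = 0 because h' fixes Ev h' and preserves B.
`FF_inv`: use `Ev_inv`: B (-(g⁻¹ u)) (-Ev g) = B (g⁻¹ u) (g⁻¹ Ev g) = B u (Ev g).
-/

set_option autoImplicit false

namespace C37

/-- the sign function of an affine map -/
noncomputable def Fs (γ : V ≃ᵃ[ℝ] V) : ℝ := FF (lin γ) (tv γ)

private theorem T04_lin_mulVec (γ : V ≃ᵃ[ℝ] V) (v : V) : (lin γ).mulVec v = γ.linear v := by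
  unfold lin
  rw [LinearMap.toMatrix'_mulVec]
  rfl

theorem aff_apply (γ : V ≃ᵃ[ℝ] V) (v : V) : γ v = (lin γ).mulVec v + tv γ := by
  rw [T04_lin_mulVec]
  unfold tv
  have h := γ.map_vadd (0 : V) v
  simpa using h

theorem lin_mul (γ δ : V ≃ᵃ[ℝ] V) : lin (γ * δ) = lin γ * lin δ := by
  unfold lin
  rw [← LinearMap.toMatrix'_mul]
  rfl

theorem tv_mul (γ δ : V ≃ᵃ[ℝ] V) : tv (γ * δ) = (lin γ).mulVec (tv δ) + tv γ := by
  rw [← aff_apply]
  rfl

theorem lin_one : lin (1 : V ≃ᵃ[ℝ] V) = 1 := by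
  unfold lin
  rw [← LinearMap.toMatrix'_one]
  rfl

theorem tv_one : tv (1 : V ≃ᵃ[ℝ] V) = 0 := rfl

theorem lin_inv (γ : V ≃ᵃ[ℝ] V) : lin γ⁻¹ = (lin γ)⁻¹ ∧ lin γ * lin γ⁻¹ = 1 ∧ lin γ⁻¹ * lin γ = 1 := by
  have h1 : lin γ * lin γ⁻¹ = 1 := by rw [← lin_mul, mul_inv_cancel, lin_one]
  have h2 : lin γ⁻¹ * lin γ = 1 := by rw [← lin_mul, inv_mul_cancel, lin_one]
  exact ⟨(Matrix.inv_eq_left_inv h2).symm, h1, h2⟩

theorem tv_inv (γ : V ≃ᵃ[ℝ] V) : tv γ⁻¹ = -((lin γ)⁻¹.mulVec (tv γ)) := by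
  have h := tv_mul γ⁻¹ γ
  rw [inv_mul_cancel, tv_one, (lin_inv γ).1] at h
  exact (neg_eq_of_add_eq_zero_right h.symm).symm

theorem aff_ext (γ δ : V ≃ᵃ[ℝ] V) (h1 : lin γ = lin δ) (h2 : tv γ = tv δ) : γ = δ := by
  ext v : 1
  rw [aff_apply, aff_apply, h1, h2]

theorem Cryst.lin_InG {Γ : Subgroup (V ≃ᵃ[ℝ] V)} (h : Cryst Γ) (γ : V ≃ᵃ[ℝ] V) (hγ : γ ∈ Γ) : InG (lin γ) := by
  intro u v w
  rw [T04_lin_mulVec, T04_lin_mulVec, T04_lin_mulVec]
  exact h.inG γ hγ u v w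

theorem FF_conj (g h : Mat) (hg : InG g) (hh : InG h) (u v : V) :
    FF (g * h * g⁻¹) (g.mulVec u + v - (g * h * g⁻¹).mulVec v) = FF h u := by
  obtain ⟨hgi, hg1, hg2⟩ := InG_inv g hg
  have hh' : InG (g * h * g⁻¹) := InG_mul _ _ (InG_mul _ _ hg hh) hgi
  have htr : (g * h * g⁻¹).trace = h.trace := by
    rw [Matrix.trace_mul_comm, ← mul_assoc, hg2, one_mul]
  unfold FF
  rw [htr]
  congr 1
  have hEv := Ev_conj g hg h
  have hfix := Ev_fixed _ hh'
  have e1 : B (g.mulVec u) (Ev (g * h * g⁻¹)) = B u (Ev h) := by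
    rw [hEv, (GX_B g hg u (Ev h)).1]
  have e2 : B ((g * h * g⁻¹).mulVec v) (Ev (g * h * g⁻¹)) = B v (Ev (g * h * g⁻¹)) := by
    conv_lhs => rw [← hfix]
    exact (GX_B _ hh' v _).1
  rw [sub_eq_add_neg, B_add_left, B_add_left, e1, ← neg_one_smul ℝ ((g * h * g⁻¹).mulVec v), B_smul_left, e2]
  ring

theorem FF_inv (g : Mat) (hg : InG g) (u : V) : FF g⁻¹ (-(g⁻¹.mulVec u)) = FF g u := by
  obtain ⟨hgi, hg1, hg2⟩ := InG_inv g hg
  obtain ⟨h1, h2⟩ := Ev_inv g hg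
  unfold FF
  rw [h1, h2]
  congr 1
  have hfix : g⁻¹.mulVec (Ev g) = Ev g := by
    conv_lhs => rw [← Ev_fixed g hg]
    rw [Matrix.mulVec_mulVec, hg2, Matrix.one_mulVec]
  rw [← neg_one_smul ℝ (g⁻¹.mulVec u), ← neg_one_smul ℝ (Ev g), B_smul_left, B_smul_right]
  conv_lhs => rw [← hfix]
  rw [(GX_B _ hgi u (Ev g)).1]
  ring

private theorem T04_conj_parts (δ γ : V ≃ᵃ[ℝ] V) :
    lin (δ * γ * δ⁻¹) = lin δ * lin γ * (lin δ)⁻¹ ∧
    tv (δ * γ * δ⁻¹) = (lin δ).mulVec (tv γ) + tv δ - (lin δ * lin γ * (lin δ)⁻¹).mulVec (tv δ) := by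
  constructor
  · rw [lin_mul, lin_mul, (lin_inv δ).1]
  · rw [tv_mul, tv_mul, lin_mul, tv_inv, Matrix.mulVec_neg, Matrix.mulVec_mulVec]
    abel

theorem Fs_conj (δ γ : V ≃ᵃ[ℝ] V) (hδ : InG (lin δ)) (hγ : InG (lin γ)) : Fs (δ * γ * δ⁻¹) = Fs γ := by
  unfold Fs
  rw [(T04_conj_parts δ γ).1, (T04_conj_parts δ γ).2]
  exact FF_conj _ _ hδ hγ _ _

theorem Fs_inv (γ : V ≃ᵃ[ℝ] V) (hγ : InG (lin γ)) : Fs γ⁻¹ = Fs γ := by
  unfold Fs
  rw [(lin_inv γ).1, tv_inv]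
  exact FF_inv _ hγ _

/-- Hyp is invariant under conjugation and inversion -/
theorem Hyp_conj (g h : Mat) (hg : InG g) (hh : Hyp h) : Hyp (g * h * g⁻¹) := by
  obtain ⟨hgi, hg1, hg2⟩ := InG_inv g hg
  refine ⟨?_, ?_⟩
  · rw [Ev_conj g hg h, (GX_B g hg _ _).1]
    exact hh.1
  · rw [Matrix.trace_mul_comm, ← mul_assoc, hg2, one_mul]
    exact hh.2

theorem Hyp_inv (g : Mat) (hg : InG g) (hh : Hyp g) : Hyp g⁻¹ := by
  obtain ⟨h1, h2⟩ := Ev_inv g hg
  refine ⟨?_, ?_⟩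
  · rw [h1, ← neg_one_smul ℝ (Ev g), B_smul_left, B_smul_right]
    have := hh.1
    linarith
  · rw [h2]
    exact hh.2

end C37
end

section

/-!
MP_c37615_al D TASK T08a: from `SLdata A` to the dynamical data of g.

p = xv v, r' = yv r, rho = l.  cross p w = 0 means w = t p + yv d with d.v = 0 (`ker_cross_xv`); g⁻¹ p = l⁻¹ p; g⁻¹ (yv d) = yv (Aᵀ d) (from StabBy: g (yv (Aᵀ d)) = yv d).
So (g⁻¹)^n w = t l^{-n} p + yv ((Aᵀ)^n d), bounded by C' theta'^n ‖w‖ with theta' = max theta (1/|l|); the coordinates (t,d) are bounded by a constant times ‖w‖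
(a linear injective map between finite dimensional spaces, or explicit).  Similarly cross r' w = 0 means w = t r' + xv d, d.r = 0, and g (yv r) = l⁻¹ yv r, g (xv d) = xv (A d).
B p r' = -(1/2) v.r <> 0, cross p r' = (1/2)(v.r) va, so (1/B p r') cross p r' = - va and
(trace g + 1) Ev g = -(det (A+1)) (det (A-1)) va  (`trace_stab`, `Ev_stab`, `det3_sub_one`, `det3_add_one`): k = det(A+1) det(A-1) > 0.
-/

set_option autoImplicit false

namespace C37

/-- dynamical data of a loxodromic element of G -/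
structure HypData (g : Mat) (p r : V) (ρ : ℝ) : Prop where
  pnull : B p p = 0
  rnull : B r r = 0
  pr : B p r ≠ 0
  gp : g.mulVec p = ρ • p
  gr : g.mulVec r = ρ⁻¹ • r
  rho : 1 < |ρ|
  bound : ∃ (C θ : ℝ), 0 ≤ C ∧ 0 ≤ θ ∧ θ < 1 ∧
    (∀ (n : ℕ) (w : V), cross p w = 0 → ‖((g⁻¹) ^ n).mulVec w‖ ≤ C * θ ^ n * ‖w‖) ∧
    (∀ (n : ℕ) (w : V), cross r w = 0 → ‖(g ^ n).mulVec w‖ ≤ C * θ ^ n * ‖w‖)
  sign : ∃ k : ℝ, 0 < k ∧ (g.trace + 1) • Ev g = (k / B p r) • cross p r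

theorem T08a_pow_eig {m : ℕ} (M : Matrix (Fin m) (Fin m) ℝ) (p : Fin m → ℝ) (a : ℝ)
    (h : M.mulVec p = a • p) (n : ℕ) : (M ^ n).mulVec p = a ^ n • p := by
  induction n with
  | zero => simp
  | succ n ih =>
    rw [pow_succ, ← Matrix.mulVec_mulVec, h, Matrix.mulVec_smul, ih, smul_smul, pow_succ, mul_comm]

theorem T08a_pow_int {m k : ℕ} (M : Matrix (Fin m) (Fin m) ℝ) (N : Matrix (Fin k) (Fin k) ℝ)
    (f : (Fin k → ℝ) → (Fin m → ℝ)) (h : ∀ d, M.mulVec (f d) = f (N.mulVec d)) (n : ℕ)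
    (d : Fin k → ℝ) : (M ^ n).mulVec (f d) = f ((N ^ n).mulVec d) := by
  induction n generalizing d with
  | zero => simp
  | succ n ih =>
    rw [pow_succ, ← Matrix.mulVec_mulVec, h, ih, Matrix.mulVec_mulVec, pow_succ]

theorem T08a_xv_smul (a : ℝ) (c : Fin 3 → ℝ) : xv (a • c) = a • xv c := by
  simp only [xv, Pi.smul_apply, smul_eq_mul, smul_add, smul_smul]

theorem T08a_yv_smul (a : ℝ) (c : Fin 3 → ℝ) : yv (a • c) = a • yv c := by
  simp only [yv, Pi.smul_apply, smul_eq_mul, smul_add, smul_smul]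

theorem T08a_xv_norm (c : Fin 3 → ℝ) : ‖xv c‖ ≤ ‖c‖ := by
  have h0 := abs_le.1 (norm_le_pi_norm c 0)
  have h1 := abs_le.1 (norm_le_pi_norm c 1)
  have h2 := abs_le.1 (norm_le_pi_norm c 2)
  have h3 := norm_nonneg c
  refine (pi_norm_le_iff_of_nonneg h3).2 (fun i => ?_)
  rw [Real.norm_eq_abs, abs_le]
  fin_cases i <;> simp [xv, x1, x2, x3] <;> constructor <;> linarith [h0.1, h0.2, h1.1, h1.2, h2.1, h2.2]

theorem T08a_yv_norm (c : Fin 3 → ℝ) : ‖yv c‖ ≤ ‖c‖ := by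
  have h0 := abs_le.1 (norm_le_pi_norm c 0)
  have h1 := abs_le.1 (norm_le_pi_norm c 1)
  have h2 := abs_le.1 (norm_le_pi_norm c 2)
  have h3 := norm_nonneg c
  refine (pi_norm_le_iff_of_nonneg h3).2 (fun i => ?_)
  rw [Real.norm_eq_abs, abs_le]
  fin_cases i <;> simp [yv, y1, y2, y3] <;> constructor <;> linarith [h0.1, h0.2, h1.1, h1.2, h2.1, h2.2]

/-- the coordinates are bounded by the vector -/
theorem T08a_coord (a b : Fin 3 → ℝ) : ‖a‖ ≤ 2 * ‖xv a + yv b‖ ∧ ‖b‖ ≤ 2 * ‖xv a + yv b‖ := by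
  set w := xv a + yv b with hw
  have e : ∀ i, |w i| ≤ ‖w‖ := fun i => norm_le_pi_norm w i
  have h0 := abs_le.1 (e 0)
  have h1 := abs_le.1 (e 1)
  have h2 := abs_le.1 (e 2)
  have h4 := abs_le.1 (e 4)
  have h5 := abs_le.1 (e 5)
  have h6 := abs_le.1 (e 6)
  have w0 : w 0 = a 0 / 2 - b 0 / 2 := by rw [hw]; simp [xv, yv, x1, x2, x3, y1, y2, y3]; ring
  have w4 : w 4 = - a 0 / 2 - b 0 / 2 := by rw [hw]; simp [xv, yv, x1, x2, x3, y1, y2, y3]; ring
  have w1 : w 1 = a 1 / 2 - b 1 / 2 := by rw [hw]; simp [xv, yv, x1, x2, x3, y1, y2, y3]; ring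
  have w5 : w 5 = - a 1 / 2 - b 1 / 2 := by rw [hw]; simp [xv, yv, x1, x2, x3, y1, y2, y3]; ring
  have w2 : w 2 = - a 2 / 2 + b 2 / 2 := by rw [hw]; simp [xv, yv, x1, x2, x3, y1, y2, y3]; ring
  have w6 : w 6 = - a 2 / 2 - b 2 / 2 := by rw [hw]; simp [xv, yv, x1, x2, x3, y1, y2, y3]; ring
  rw [w0] at h0
  rw [w1] at h1
  rw [w2] at h2
  rw [w4] at h4
  rw [w5] at h5
  rw [w6] at h6
  have hn : 0 ≤ 2 * ‖w‖ := by positivity
  constructor
  · refine (pi_norm_le_iff_of_nonneg hn).2 (fun i => ?_)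
    rw [Real.norm_eq_abs, abs_le]
    fin_cases i <;> simp only [Fin.zero_eta, Fin.mk_one, Fin.reduceFinMk] <;> constructor <;>
      linarith [h0.1, h0.2, h1.1, h1.2, h2.1, h2.2, h4.1, h4.2, h5.1, h5.2, h6.1, h6.2]
  · refine (pi_norm_le_iff_of_nonneg hn).2 (fun i => ?_)
    rw [Real.norm_eq_abs, abs_le]
    fin_cases i <;> simp only [Fin.zero_eta, Fin.mk_one, Fin.reduceFinMk] <;> constructor <;>
      linarith [h0.1, h0.2, h1.1, h1.2, h2.1, h2.2, h4.1, h4.2, h5.1, h5.2, h6.1, h6.2]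

theorem T08a_est {l C θ : ℝ} (hl : 1 < |l|) (hC : 0 ≤ C) (hθ : 0 ≤ θ) (n : ℕ) {X Y W : ℝ}
    (hX : 0 ≤ X) (hXW : X ≤ 2 * W) (hY : 0 ≤ Y) (hYW : Y ≤ 2 * W) :
    |l|⁻¹ ^ n * X + C * θ ^ n * Y ≤ (2 + 2 * C) * (max θ |l|⁻¹) ^ n * W := by
  have h1 : |l|⁻¹ ^ n ≤ (max θ |l|⁻¹) ^ n :=
    pow_le_pow_left₀ (by positivity) (le_max_right _ _) n
  have h2 : θ ^ n ≤ (max θ |l|⁻¹) ^ n := pow_le_pow_left₀ hθ (le_max_left _ _) n
  have h3 : 0 ≤ (max θ |l|⁻¹) ^ n := by positivity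
  calc |l|⁻¹ ^ n * X + C * θ ^ n * Y ≤ (max θ |l|⁻¹) ^ n * (2 * W) +
        C * (max θ |l|⁻¹) ^ n * (2 * W) := by gcongr
    _ = (2 + 2 * C) * (max θ |l|⁻¹) ^ n * W := by ring

theorem HypData_of_SLdata (g : Mat) (A : Matrix (Fin 3) (Fin 3) ℝ) (hA : A.det = 1) (h : StabBy g A) (hg : InG g)
    (hs : SLdata A) : ∃ (p r : V) (ρ : ℝ), HypData g p r ρ := by
  obtain ⟨l, v, r, C, θ, hl, hv, hr, hAv, hAr, hrv, hC, hθ, hθ1, hb1, hb2, hsg⟩ := hs
  obtain ⟨hva, hx, hy⟩ := h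
  obtain ⟨-, hgi, hgi'⟩ := InG_inv g hg
  have hl0 : l ≠ 0 := by
    rintro rfl
    simp at hl
    linarith
  have hdet : IsUnit A.det := by rw [hA]; exact isUnit_one
  have hAA : A * A⁻¹ = 1 := Matrix.mul_nonsing_inv A hdet
  have hAAt : (A⁻¹).transpose * A.transpose = 1 := by
    rw [← Matrix.transpose_mul, hAA, Matrix.transpose_one]
  have hgp : g.mulVec (xv v) = l • xv v := by
    rw [hx, hAv, T08a_xv_smul]
  have hArinv : (A⁻¹).transpose.mulVec r = l⁻¹ • r := by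
    have h1 : (A⁻¹).transpose.mulVec (l • r) = r := by
      rw [← hAr, Matrix.mulVec_mulVec, hAAt, Matrix.one_mulVec]
    rw [Matrix.mulVec_smul] at h1
    conv_rhs => rw [← h1]
    rw [smul_smul, inv_mul_cancel₀ hl0, one_smul]
  have hgr : g.mulVec (yv r) = l⁻¹ • yv r := by
    rw [hy, hArinv, T08a_yv_smul]
  have hgip : g⁻¹.mulVec (xv v) = l⁻¹ • xv v := by
    have h1 : g⁻¹.mulVec (l • xv v) = xv v := by
      rw [← hgp, Matrix.mulVec_mulVec, hgi', Matrix.one_mulVec]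
    rw [Matrix.mulVec_smul] at h1
    conv_rhs => rw [← h1]
    rw [smul_smul, inv_mul_cancel₀ hl0, one_smul]
  have hgiy : ∀ d, g⁻¹.mulVec (yv d) = yv (A.transpose.mulVec d) := by
    intro d
    have h1 : g.mulVec (yv (A.transpose.mulVec d)) = yv d := by
      rw [hy, Matrix.mulVec_mulVec, hAAt, Matrix.one_mulVec]
    rw [← h1, Matrix.mulVec_mulVec, hgi', Matrix.one_mulVec]
  have hli : |l|⁻¹ < 1 := inv_lt_one_of_one_lt₀ hl
  have hvr : B (xv v) (yv r) ≠ 0 := by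
    rw [B_xv_yv]
    have h1 : v 0 * r 0 + v 1 * r 1 + v 2 * r 2 ≠ 0 := by
      intro h2
      apply hrv
      linarith
    exact mul_ne_zero (by norm_num) h1
  refine ⟨xv v, yv r, l, ?_⟩
  refine ⟨(B_xv_xv v v).1, (B_xv_xv r r).2.1, hvr, hgp, hgr, hl, ?_, ?_⟩
  · refine ⟨2 + 2 * C, max θ |l|⁻¹, by positivity, le_max_of_le_left hθ, max_lt hθ1 hli, ?_, ?_⟩
    · intro n w hw
      obtain ⟨t, d, hwe, hd⟩ := ker_cross_xv v hv w hw
      have hc := T08a_coord (t • v) d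
      rw [T08a_xv_smul, ← hwe] at hc
      have h1 : ((g⁻¹) ^ n).mulVec w = xv ((l⁻¹ ^ n) • (t • v)) +
          yv ((A.transpose ^ n).mulVec d) := by
        rw [hwe, Matrix.mulVec_add, Matrix.mulVec_smul, T08a_pow_eig _ _ _ hgip n,
          T08a_pow_int _ _ yv hgiy n d, T08a_xv_smul, T08a_xv_smul, smul_comm]
      rw [h1]
      have h2 : ‖xv ((l⁻¹ ^ n) • (t • v))‖ ≤ |l|⁻¹ ^ n * ‖t • v‖ := by
        refine (T08a_xv_norm _).trans ?_
        rw [norm_smul, norm_pow, norm_inv, Real.norm_eq_abs l]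
      have h3 : ‖yv ((A.transpose ^ n).mulVec d)‖ ≤ C * θ ^ n * ‖d‖ :=
        (T08a_yv_norm _).trans (hb2 n d hd)
      exact (norm_add_le _ _).trans ((add_le_add h2 h3).trans
        (T08a_est hl hC hθ n (norm_nonneg _) hc.1 (norm_nonneg _) hc.2))
    · intro n w hw
      obtain ⟨t, d, hwe, hd⟩ := ker_cross_yv r hr w hw
      have hc := T08a_coord d (t • r)
      rw [T08a_yv_smul, add_comm (xv d), ← hwe] at hc
      have h1 : (g ^ n).mulVec w = yv ((l⁻¹ ^ n) • (t • r)) + xv ((A ^ n).mulVec d) := by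
        rw [hwe, Matrix.mulVec_add, Matrix.mulVec_smul, T08a_pow_eig _ _ _ hgr n,
          T08a_pow_int _ _ xv hx n d, T08a_yv_smul, T08a_yv_smul, smul_comm]
      rw [h1]
      have h2 : ‖yv ((l⁻¹ ^ n) • (t • r))‖ ≤ |l|⁻¹ ^ n * ‖t • r‖ := by
        refine (T08a_yv_norm _).trans ?_
        rw [norm_smul, norm_pow, norm_inv, Real.norm_eq_abs l]
      have h3 : ‖xv ((A ^ n).mulVec d)‖ ≤ C * θ ^ n * ‖d‖ :=
        (T08a_xv_norm _).trans (hb1 n d hd)
      exact (norm_add_le _ _).trans ((add_le_add h2 h3).trans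
        (T08a_est hl hC hθ n (norm_nonneg _) hc.2 (norm_nonneg _) hc.1))
  · refine ⟨(A - 1).det * (A + 1).det, hsg, ?_⟩
    have ht := trace_stab g A ⟨hva, hx, hy⟩
    have hE := Ev_stab g A ⟨hva, hx, hy⟩
    rw [det3_sub_one A hA, det3_add_one A hA, ht, hE, cross_xv_yv, smul_smul, smul_smul]
    congr 1
    rw [div_mul_eq_mul_div, eq_div_iff hvr, B_xv_yv]
    ring

end C37
end

section

/-!
MP_c37615_al D TASK T08b: every `Hyp` element of G has dynamical data.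

`HypData_inv`: data for g⁻¹ with (p,r,rho) gives data for g with (r,p,rho): g⁻¹ p = rho p gives g p = rho⁻¹ p, g⁻¹ r = rho⁻¹ r gives g r = rho r;
 the two bounds are exchanged ((g⁻¹)⁻¹ = g); sign: Ev g⁻¹ = - Ev g, trace g⁻¹ = trace g (`Ev_inv`), cross p r = - cross r p, B p r = B r p.
`HypData_conj`: h g h⁻¹ with (h p, h r): h preserves B, cross; Ev (h g h⁻¹) = h Ev g; the bounds with constants multiplied by ‖h‖ ‖h⁻¹‖ (operator bounds for mulVec).
`HypData_of_Hyp`: e = (1/sqrt(-q(Ev g))) Ev g has B e e = -1, g e = e (`Ev_fixed`).  `GX_trans_neg`: h va = e.  g' = h⁻¹ g h fixes va, is in G; `GX_stab_va` gives A with StabBy g' A, det A = 1.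
 `Ev_conj`: Ev g' = h⁻¹ Ev g = sqrt(..) va <> 0 so by `Ev_stab`, `det3_sub_one`: det (A-1) <> 0; trace g' + 1 = trace g + 1 <> 0 so det (A+1) <> 0 (`trace_stab`, `det3_add_one`).
 `sl3_dyn`: SLdata A (then T08a) or SLdata A⁻¹: then StabBy g'⁻¹ A⁻¹, T08a for g'⁻¹ and HypData_inv.  Finally HypData_conj.
-/

set_option autoImplicit false

namespace C37

private theorem T08b_bd (h : Mat) : ∃ K : ℝ, 0 ≤ K ∧ ∀ v : V, ‖h.mulVec v‖ ≤ K * ‖v‖ := by
  refine ⟨‖(Matrix.toLin' h).toContinuousLinearMap‖, norm_nonneg _, ?_⟩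
  intro v
  have := (Matrix.toLin' h).toContinuousLinearMap.le_opNorm v
  simpa using this

private theorem T08b_invinv (g : Mat) (hg : InG g) : (g⁻¹)⁻¹ = g := by
  obtain ⟨-, h1, h2⟩ := InG_inv g hg
  exact Matrix.inv_eq_left_inv h1

theorem HypData_inv (g : Mat) (hg : InG g) (p r : V) (ρ : ℝ) (h : HypData g⁻¹ p r ρ) : HypData g r p ρ := by
  obtain ⟨-, h1, h2⟩ := InG_inv g hg
  have hρ : ρ ≠ 0 := by
    rintro rfl
    have := h.rho
    rw [abs_zero] at this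
    linarith
  obtain ⟨C, θ, hC, h0, h1', hb1, hb2⟩ := h.bound
  obtain ⟨k, hk, hk2⟩ := h.sign
  refine ⟨h.rnull, h.pnull, by rw [B_comm]; exact h.pr, ?_, ?_, h.rho, ?_, ?_⟩
  · have := congrArg g.mulVec h.gr
    rw [Matrix.mulVec_mulVec, h1, Matrix.one_mulVec, Matrix.mulVec_smul] at this
    conv_rhs => rw [this, smul_smul, mul_inv_cancel₀ hρ, one_smul]
  · have := congrArg g.mulVec h.gp
    rw [Matrix.mulVec_mulVec, h1, Matrix.one_mulVec, Matrix.mulVec_smul] at this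
    conv_rhs => rw [this, smul_smul, inv_mul_cancel₀ hρ, one_smul]
  · refine ⟨C, θ, hC, h0, h1', hb2, ?_⟩
    intro n w hw
    have := hb1 n w hw
    rwa [T08b_invinv g hg] at this
  · refine ⟨k, hk, ?_⟩
    obtain ⟨he, ht⟩ := Ev_inv g hg
    rw [he, ht] at hk2
    rw [B_comm r p, cross_anti r p, smul_neg, ← hk2, smul_neg, neg_neg]

theorem HypData_conj (h g : Mat) (hh : InG h) (hg : InG g) (p r : V) (ρ : ℝ) (hd : HypData g p r ρ) :
    HypData (h * g * h⁻¹) (h.mulVec p) (h.mulVec r) ρ := by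
  obtain ⟨hhi, h1, h2⟩ := InG_inv h hh
  obtain ⟨hgi, g1, g2⟩ := InG_inv g hg
  have hinj : ∀ x : V, h.mulVec x = 0 → x = 0 := by
    intro x hx
    have := congrArg h⁻¹.mulVec hx
    rwa [Matrix.mulVec_mulVec, h2, Matrix.one_mulVec, Matrix.mulVec_zero] at this
  have hcross : ∀ x w : V, cross (h.mulVec x) w = 0 → cross x (h⁻¹.mulVec w) = 0 := by
    intro x w hw
    apply hinj
    rw [← (GX_B h hh _ _).2.1, Matrix.mulVec_mulVec, h1, Matrix.one_mulVec, hw]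
  have hpow : ∀ (a : Mat) (n : ℕ), (h * a * h⁻¹) ^ n = h * a ^ n * h⁻¹ := by
    intro a n
    induction n with
    | zero => simp [h1]
    | succ n ih =>
      rw [pow_succ, ih, pow_succ]
      calc h * a ^ n * h⁻¹ * (h * a * h⁻¹) = h * a ^ n * (h⁻¹ * h) * a * h⁻¹ := by simp only [mul_assoc]
        _ = h * (a ^ n * a) * h⁻¹ := by rw [h2]; simp only [mul_assoc, mul_one]
  have hinv : (h * g * h⁻¹)⁻¹ = h * g⁻¹ * h⁻¹ := by
    apply Matrix.inv_eq_left_inv
    calc h * g⁻¹ * h⁻¹ * (h * g * h⁻¹) = h * g⁻¹ * (h⁻¹ * h) * g * h⁻¹ := by simp only [mul_assoc]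
      _ = h * (g⁻¹ * g) * h⁻¹ := by rw [h2]; simp only [mul_assoc, mul_one]
      _ = 1 := by rw [g2, mul_one, h1]
  obtain ⟨K1, hK1, hb1⟩ := T08b_bd h
  obtain ⟨K2, hK2, hb2⟩ := T08b_bd h⁻¹
  obtain ⟨C, θ, hC, h0, h1', hB1, hB2⟩ := hd.bound
  obtain ⟨k, hk, hk2⟩ := hd.sign
  have hcomb : ∀ (a : Mat) (n : ℕ) (w x : V), (∀ (n : ℕ) (w : V), cross x w = 0 → ‖(a ^ n).mulVec w‖ ≤ C * θ ^ n * ‖w‖) →
      cross (h.mulVec x) w = 0 → ‖((h * a * h⁻¹) ^ n).mulVec w‖ ≤ (K1 * C * K2) * θ ^ n * ‖w‖ := by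
    intro a n w x hyp hw
    rw [hpow, ← Matrix.mulVec_mulVec, ← Matrix.mulVec_mulVec]
    calc ‖h.mulVec ((a ^ n).mulVec (h⁻¹.mulVec w))‖ ≤ K1 * ‖(a ^ n).mulVec (h⁻¹.mulVec w)‖ := hb1 _
      _ ≤ K1 * (C * θ ^ n * ‖h⁻¹.mulVec w‖) := by
        gcongr
        exact hyp n _ (hcross x w hw)
      _ ≤ K1 * (C * θ ^ n * (K2 * ‖w‖)) := by
        gcongr
        exact hb2 w
      _ = (K1 * C * K2) * θ ^ n * ‖w‖ := by ring
  refine ⟨?_, ?_, ?_, ?_, ?_, hd.rho, ?_, ?_⟩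
  · rw [(GX_B h hh _ _).1]; exact hd.pnull
  · rw [(GX_B h hh _ _).1]; exact hd.rnull
  · rw [(GX_B h hh _ _).1]; exact hd.pr
  · rw [Matrix.mulVec_mulVec, mul_assoc, h2, mul_one, ← Matrix.mulVec_mulVec, hd.gp, Matrix.mulVec_smul]
  · rw [Matrix.mulVec_mulVec, mul_assoc, h2, mul_one, ← Matrix.mulVec_mulVec, hd.gr, Matrix.mulVec_smul]
  · refine ⟨K1 * C * K2, θ, by positivity, h0, h1', ?_, ?_⟩
    · intro n w hw
      rw [hinv]
      exact hcomb g⁻¹ n w p hB1 hw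
    · intro n w hw
      exact hcomb g n w r hB2 hw
  · refine ⟨k, hk, ?_⟩
    have htr : (h * g * h⁻¹).trace = g.trace := by
      rw [Matrix.trace_mul_comm, ← mul_assoc, h2, one_mul]
    rw [htr, Ev_conj h hh g, (GX_B h hh p r).1, (GX_B h hh p r).2.1, ← Matrix.mulVec_smul, hk2, Matrix.mulVec_smul]

theorem StabBy_inv (g : Mat) (A : Matrix (Fin 3) (Fin 3) ℝ) (hA : A.det = 1) (hg : InG g) (h : StabBy g A) :
    StabBy g⁻¹ A⁻¹ := by
  obtain ⟨-, g1, g2⟩ := InG_inv g hg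
  obtain ⟨ha, hx, hy⟩ := h
  have hu : IsUnit A.det := by rw [hA]; exact isUnit_one
  have hA1 : A * A⁻¹ = 1 := Matrix.mul_nonsing_inv A hu
  have hA2 : A⁻¹ * A = 1 := Matrix.nonsing_inv_mul A hu
  have hinv : (A⁻¹)⁻¹ = A := Matrix.nonsing_inv_nonsing_inv A hu
  refine ⟨?_, ?_, ?_⟩
  · conv_lhs => rw [← ha]
    rw [Matrix.mulVec_mulVec, g2, Matrix.one_mulVec]
  · intro c
    have := hx (A⁻¹.mulVec c)
    rw [Matrix.mulVec_mulVec, hA1, Matrix.one_mulVec] at this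
    rw [← this, Matrix.mulVec_mulVec, g2, Matrix.one_mulVec]
  · intro c
    rw [hinv]
    have := hy (A.transpose.mulVec c)
    rw [Matrix.mulVec_mulVec, ← Matrix.transpose_mul, hA1, Matrix.transpose_one, Matrix.one_mulVec] at this
    rw [← this, Matrix.mulVec_mulVec, g2, Matrix.one_mulVec]

theorem HypData_of_Hyp (g : Mat) (hg : InG g) (hh : Hyp g) : ∃ (p r : V) (ρ : ℝ), HypData g p r ρ := by
  obtain ⟨hq, ht⟩ := hh
  set c : ℝ := Real.sqrt (-(B (Ev g) (Ev g))) with hc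
  have hc0 : 0 < c := Real.sqrt_pos.2 (by linarith)
  have hcsq : c ^ 2 = -(B (Ev g) (Ev g)) := Real.sq_sqrt (by linarith)
  have he : B (c⁻¹ • Ev g) (c⁻¹ • Ev g) = -1 := by
    rw [B_smul_left, B_smul_right]
    have : B (Ev g) (Ev g) = -(c ^ 2) := by linarith
    rw [this]
    field_simp
  obtain ⟨h, hh, hva⟩ := GX_trans_neg _ he
  obtain ⟨hhi, h1, h2⟩ := InG_inv h hh
  have hEvg : Ev g = c • h.mulVec va := by
    rw [hva, smul_smul, mul_inv_cancel₀ hc0.ne', one_smul]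
  have hg' : InG (h⁻¹ * g * h) := InG_mul _ _ (InG_mul _ _ hhi hg) hh
  have hfix : (h⁻¹ * g * h).mulVec va = va := by
    have h3 : g.mulVec (h.mulVec va) = h.mulVec va := by
      rw [hva, Matrix.mulVec_smul, Ev_fixed g hg]
    rw [← Matrix.mulVec_mulVec, ← Matrix.mulVec_mulVec, h3, Matrix.mulVec_mulVec, h2, Matrix.one_mulVec]
  obtain ⟨A, hA, hAx, hAy⟩ := GX_stab_va _ hg' hfix
  have hst : StabBy (h⁻¹ * g * h) A := ⟨hfix, hAx, hAy⟩
  have hii := T08b_invinv h hh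
  have hEv' : Ev (h⁻¹ * g * h) = c • va := by
    have := Ev_conj h⁻¹ hhi g
    rw [hii] at this
    rw [this, hEvg, Matrix.mulVec_smul, Matrix.mulVec_mulVec, h2, Matrix.one_mulVec]
  have hva3 : va 3 = 1 := by simp [va]
  have hd1 : (A - 1).det ≠ 0 := by
    rw [det3_sub_one A hA]
    intro h0
    have h4 := Ev_stab _ A hst
    rw [h0, hEv'] at h4
    have := congrFun h4 3
    simp [hva3] at this
    exact hc0.ne' this
  have htr : (h⁻¹ * g * h).trace = g.trace := by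
    rw [Matrix.trace_mul_comm, ← mul_assoc, h1, one_mul]
  have hd2 : (A + 1).det ≠ 0 := by
    rw [det3_add_one A hA]
    intro h0
    have h4 := trace_stab _ A hst
    rw [htr] at h4
    apply ht
    rw [h4]; linarith
  have hback : h * (h⁻¹ * g * h) * h⁻¹ = g := by
    calc h * (h⁻¹ * g * h) * h⁻¹ = (h * h⁻¹) * g * (h * h⁻¹) := by simp only [mul_assoc]
      _ = g := by rw [h1, one_mul, mul_one]
  have key : ∃ (p r : V) (ρ : ℝ), HypData (h⁻¹ * g * h) p r ρ := by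
    rcases sl3_dyn A hA hd1 hd2 with hs | hs
    · exact HypData_of_SLdata _ A hA hst hg' hs
    · have hst' := StabBy_inv _ A hA hg' hst
      have hAi : (A⁻¹).det = 1 := by
        rw [Matrix.det_nonsing_inv, hA]; simp
      obtain ⟨p, r, ρ, hd⟩ := HypData_of_SLdata _ A⁻¹ hAi hst' (InG_inv _ hg').1 hs
      exact ⟨r, p, ρ, HypData_inv _ hg' p r ρ hd⟩
  obtain ⟨p, r, ρ, hd⟩ := key
  have := HypData_conj h _ hh hg' p r ρ hd
  rw [hback] at this
  exact ⟨_, _, _, this⟩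

end C37
end

section

/-!
MP_c37615_al D TASK T10: the invariant affine line of a loxodromic affine map v ↦ g v + u.

e = (1/B p r) cross p r.  g e = e: g (cross p r) = cross (g p) (g r) = cross (ρ p) (ρ⁻¹ r).
`hyp_ker_inv`: cross p w = 0 → cross p (g w) = 0: ρ cross p (g w) = cross (g p) (g w) = g (cross p w) = 0, ρ <> 0.
`hyp_line`: write u = u1 + t e + u2 (`null_decomp`).  g - 1 is injective on {w : cross p w = 0} (if g w = w then w = (g⁻¹)^n w -> 0 by the bound), and maps this finite dimensional space into itself,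
hence is surjective on it: o1 with g o1 - o1 = -u1; similarly o2 in {cross r w = 0} with g o2 - o2 = -u2.  o = o1 + o2: g o + u - o = t e.  So α = t.
 FF g u = (trace g + 1) B u (Ev g) = B u ((trace g+1) • Ev g) = (k / B p r) B u (cross p r) = k B u e = k (0 - t + 0) (`B_ker_cross`, `B_ker_cross'`, `q_unit`) = - k t.
-/

set_option autoImplicit false

namespace C37

private theorem T10_cross_zero (p : V) : cross p 0 = 0 := by
  have := cross_smul_right 0 p 0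
  simpa using this

private theorem T10_rho {g : Mat} {p r : V} {ρ : ℝ} (h : HypData g p r ρ) : ρ ≠ 0 := by
  intro h0; have := h.rho; rw [h0] at this; norm_num at this

theorem hyp_fix_e (g : Mat) (hg : InG g) (p r : V) (ρ : ℝ) (h : HypData g p r ρ) :
    g.mulVec ((1 / B p r) • cross p r) = (1 / B p r) • cross p r := by
  have h1 := (GX_B g hg p r).2.1
  rw [h.gp, h.gr, cross_smul_left, cross_smul_right, smul_smul, mul_inv_cancel₀ (T10_rho h), one_smul] at h1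
  rw [Matrix.mulVec_smul, ← h1]

theorem hyp_ker_inv (g : Mat) (hg : InG g) (p r : V) (ρ : ℝ) (h : HypData g p r ρ) (w : V) (hw : cross p w = 0) :
    cross p (g.mulVec w) = 0 ∧ cross p (g⁻¹.mulVec w) = 0 := by
  obtain ⟨-, hi1, hi2⟩ := InG_inv g hg
  constructor
  · have h1 := (GX_B g hg p w).2.1
    rw [h.gp, hw, cross_smul_left, Matrix.mulVec_zero] at h1
    exact (smul_eq_zero.mp h1).resolve_left (T10_rho h)
  · have h1 := (GX_B g hg p (g⁻¹.mulVec w)).2.1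
    rw [Matrix.mulVec_mulVec, hi1, Matrix.one_mulVec, h.gp, cross_smul_left, hw, smul_zero] at h1
    have h2 := congrArg (fun x => g⁻¹.mulVec x) h1
    simp only [Matrix.mulVec_mulVec, hi2, Matrix.one_mulVec, Matrix.mulVec_zero] at h2
    exact h2.symm

theorem hyp_ker_inv' (g : Mat) (hg : InG g) (p r : V) (ρ : ℝ) (h : HypData g p r ρ) (w : V) (hw : cross r w = 0) :
    cross r (g.mulVec w) = 0 ∧ cross r (g⁻¹.mulVec w) = 0 := by
  obtain ⟨-, hi1, hi2⟩ := InG_inv g hg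
  constructor
  · have h1 := (GX_B g hg r w).2.1
    rw [h.gr, hw, cross_smul_left, Matrix.mulVec_zero] at h1
    exact (smul_eq_zero.mp h1).resolve_left (inv_ne_zero (T10_rho h))
  · have h1 := (GX_B g hg r (g⁻¹.mulVec w)).2.1
    rw [Matrix.mulVec_mulVec, hi1, Matrix.one_mulVec, h.gr, cross_smul_left, hw, smul_zero] at h1
    have h2 := congrArg (fun x => g⁻¹.mulVec x) h1
    simp only [Matrix.mulVec_mulVec, hi2, Matrix.one_mulVec, Matrix.mulVec_zero] at h2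
    exact h2.symm

private theorem T10_surj (T : V →ₗ[ℝ] V) (K : Submodule ℝ V) (hK : ∀ w ∈ K, T w ∈ K) (hinj : ∀ w ∈ K, T w = 0 → w = 0)
    (u : V) (hu : u ∈ K) : ∃ w ∈ K, T w = u := by
  have h1 : Function.Injective (T.restrict hK) := by
    rw [← LinearMap.ker_eq_bot, LinearMap.ker_eq_bot']
    rintro ⟨w, hw⟩ h
    have h2 : T w = 0 := by
      have := congrArg Subtype.val h
      simpa using this
    exact Subtype.ext (hinj w hw h2)
  obtain ⟨⟨w, hw⟩, h2⟩ := (LinearMap.injective_iff_surjective.mp h1) ⟨u, hu⟩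
  refine ⟨w, hw, ?_⟩
  have := congrArg Subtype.val h2
  simpa using this

private theorem T10_zero_of_bound (w : V) (C θ : ℝ) (h0 : 0 ≤ θ) (h1 : θ < 1) (h : ∀ n : ℕ, ‖w‖ ≤ C * θ ^ n * ‖w‖) : w = 0 := by
  have h2 : Filter.Tendsto (fun n : ℕ => C * θ ^ n * ‖w‖) Filter.atTop (nhds (C * 0 * ‖w‖)) :=
    ((tendsto_pow_atTop_nhds_zero_of_lt_one h0 h1).const_mul C).mul_const _
  have h3 := ge_of_tendsto' h2 h
  rw [mul_zero, zero_mul] at h3
  exact norm_le_zero_iff.mp h3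

theorem hyp_line (g : Mat) (hg : InG g) (p r : V) (ρ : ℝ) (h : HypData g p r ρ) (u : V) :
    ∃ (o : V) (α k : ℝ), g.mulVec o + u = o + α • ((1 / B p r) • cross p r) ∧ 0 < k ∧ FF g u = -(k * α) := by
  obtain ⟨u1, t, u2, hu1, hu2, hu⟩ := null_decomp p r h.pnull h.rnull h.pr u
  obtain ⟨C, θ, hC, hθ0, hθ1, hb1, hb2⟩ := h.bound
  obtain ⟨k, hk, hs⟩ := h.sign
  obtain ⟨-, hi1, hi2⟩ := InG_inv g hg
  let T : V →ₗ[ℝ] V := Matrix.mulVecLin g - LinearMap.id
  have hT : ∀ w, T w = g.mulVec w - w := fun w => rfl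
  let K1 : Submodule ℝ V := LinearMap.ker (Matrix.mulVecLin (Lmat p))
  let K2 : Submodule ℝ V := LinearMap.ker (Matrix.mulVecLin (Lmat r))
  have hK1 : ∀ w, w ∈ K1 ↔ cross p w = 0 := by
    intro w
    rw [LinearMap.mem_ker, Matrix.mulVecLin_apply, Lmat_mulVec]
  have hK2 : ∀ w, w ∈ K2 ↔ cross r w = 0 := by
    intro w
    rw [LinearMap.mem_ker, Matrix.mulVecLin_apply, Lmat_mulVec]
  obtain ⟨o1, -, ho1⟩ := T10_surj T K1
    (by
      intro w hw
      rw [hT]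
      exact K1.sub_mem ((hK1 _).mpr (hyp_ker_inv g hg p r ρ h w ((hK1 w).mp hw)).1) hw)
    (by
      intro w hw h0
      rw [hT, sub_eq_zero] at h0
      have h1 : g⁻¹.mulVec w = w := by
        conv_lhs => rw [← h0]
        rw [Matrix.mulVec_mulVec, hi2, Matrix.one_mulVec]
      have h2 : ∀ n : ℕ, (g⁻¹ ^ n).mulVec w = w := by
        intro n
        induction n with
        | zero => simp
        | succ n ih => rw [pow_succ, ← Matrix.mulVec_mulVec, h1, ih]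
      refine T10_zero_of_bound w C θ hθ0 hθ1 (fun n => ?_)
      have := hb1 n w ((hK1 w).mp hw)
      rwa [h2] at this)
    (-u1) (K1.neg_mem ((hK1 _).mpr hu1))
  obtain ⟨o2, -, ho2⟩ := T10_surj T K2
    (by
      intro w hw
      rw [hT]
      exact K2.sub_mem ((hK2 _).mpr (hyp_ker_inv' g hg p r ρ h w ((hK2 w).mp hw)).1) hw)
    (by
      intro w hw h0
      rw [hT, sub_eq_zero] at h0
      have h2 : ∀ n : ℕ, (g ^ n).mulVec w = w := by
        intro n
        induction n with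
        | zero => simp
        | succ n ih => rw [pow_succ, ← Matrix.mulVec_mulVec, h0, ih]
      refine T10_zero_of_bound w C θ hθ0 hθ1 (fun n => ?_)
      have := hb2 n w ((hK2 w).mp hw)
      rwa [h2] at this)
    (-u2) (K2.neg_mem ((hK2 _).mpr hu2))
  rw [hT, sub_eq_iff_eq_add] at ho1 ho2
  refine ⟨o1 + o2, t, k, ?_, hk, ?_⟩
  · rw [Matrix.mulVec_add, ho1, ho2]
    nth_rewrite 1 [hu]
    abel
  · have h1 : FF g u = B u ((g.trace + 1) • Ev g) := by
      rw [B_smul_right]; rfl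
    have h2 : (k / B p r) • cross p r = k • ((1 / B p r) • cross p r) := by
      rw [smul_smul]; congr 1; ring
    have q1 := q_unit p r h.pnull h.pr
    have q2 : B u1 ((1 / B p r) • cross p r) = 0 := by rw [B_smul_right, B_ker_cross p r u1 hu1, mul_zero]
    have q3 : B u2 ((1 / B p r) • cross p r) = 0 := by rw [B_smul_right, B_ker_cross' p r u2 hu2, mul_zero]
    rw [h1, hs, h2, B_smul_right, hu]
    generalize (1 / B p r) • cross p r = e at q1 q2 q3 ⊢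
    rw [B_add_left, B_add_left, B_smul_left, q1, q2, q3]
    ring

end C37
end

section

/-!
MP_c37615_al D TASK T11: iterates along the invariant affine line.

If γ o = o + α e, (lin γ) e = e then by induction γ^n (o + t e + w) = o + (t + nα) e + (lin γ)^n w for n ∈ ℕ and
γ^{-n} (o + t e + w) = o + (t - nα) e + ((lin γ)⁻¹)^n w.  (`aff_apply`.)
`no_fixed_line`: if α = 0 then γ fixes o; the powers γ^n (n ∈ ℕ) are pairwise different (lin γ^n p = ρ^n p, |ρ| > 1, p ≠ 0) and all map the compact set {o} to itself: contradiction with `Cryst.proper`.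
-/

set_option autoImplicit false

namespace C37

private theorem T11_step (γ : V ≃ᵃ[ℝ] V) (o e : V) (α : ℝ) (h1 : γ o = o + α • e) (h2 : (lin γ).mulVec e = e) (s : ℝ) (w : V) :
    γ (o + s • e + w) = o + (s + α) • e + (lin γ).mulVec w := by
  rw [aff_apply] at h1 ⊢
  rw [Matrix.mulVec_add, Matrix.mulVec_add, Matrix.mulVec_smul, h2]
  have h3 : (lin γ).mulVec o = o + α • e - tv γ := by rw [← h1]; abel
  rw [h3]
  module

theorem iter_pos (γ : V ≃ᵃ[ℝ] V) (o e : V) (α : ℝ) (h1 : γ o = o + α • e) (h2 : (lin γ).mulVec e = e) (n : ℕ) (t : ℝ) (w : V) :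
    (γ ^ n) (o + t • e + w) = o + (t + n * α) • e + ((lin γ) ^ n).mulVec w := by
  induction n with
  | zero => simp
  | succ n ih =>
    have h3 : (γ ^ (n + 1)) (o + t • e + w) = γ ((γ ^ n) (o + t • e + w)) := by
      rw [pow_succ']; rfl
    rw [h3, ih, T11_step γ o e α h1 h2, Matrix.mulVec_mulVec, ← pow_succ']
    congr 3
    push_cast
    ring

theorem iter_neg (γ : V ≃ᵃ[ℝ] V) (o e : V) (α : ℝ) (h1 : γ o = o + α • e) (h2 : (lin γ).mulVec e = e) (n : ℕ) (t : ℝ) (w : V) :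
    ((γ⁻¹) ^ n) (o + t • e + w) = o + (t - n * α) • e + (((lin γ)⁻¹) ^ n).mulVec w := by
  obtain ⟨hi0, hi1, hi2⟩ := lin_inv γ
  rw [hi0] at hi1 hi2
  have hstep : ∀ (s : ℝ) (w : V), γ⁻¹ (o + s • e + w) = o + (s - α) • e + ((lin γ)⁻¹).mulVec w := by
    intro s w
    have h3 := T11_step γ o e α h1 h2 (s - α) (((lin γ)⁻¹).mulVec w)
    rw [Matrix.mulVec_mulVec, hi1, Matrix.one_mulVec, sub_add_cancel] at h3
    rw [← h3]
    have h4 : ∀ x : V, γ⁻¹ (γ x) = x := fun x => by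
      have : γ⁻¹ (γ x) = (γ⁻¹ * γ) x := rfl
      rw [this, inv_mul_cancel]; rfl
    exact h4 _
  induction n with
  | zero => simp
  | succ n ih =>
    have h3 : ((γ⁻¹) ^ (n + 1)) (o + t • e + w) = γ⁻¹ (((γ⁻¹) ^ n) (o + t • e + w)) := by
      rw [pow_succ']; rfl
    rw [h3, ih, hstep, Matrix.mulVec_mulVec, ← pow_succ']
    congr 3
    push_cast
    ring

theorem no_fixed_line (Γ : Subgroup (V ≃ᵃ[ℝ] V)) (h : Cryst Γ) (γ : V ≃ᵃ[ℝ] V) (hγ : γ ∈ Γ) (p r : V) (ρ : ℝ)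
    (hd : HypData (lin γ) p r ρ) (o : V) : γ o ≠ o := by
  intro ho
  have hp0 : p ≠ 0 := by
    intro h0
    apply hd.pr
    rw [h0]
    have := B_smul_left 0 0 r
    simpa using this
  have hfin := h.proper {o} isCompact_singleton
  have hpo : ∀ n : ℕ, (γ ^ n) o = o := by
    intro n
    induction n with
    | zero => rfl
    | succ n ih =>
      have h3 : (γ ^ (n + 1)) o = γ ((γ ^ n) o) := by
        rw [pow_succ']; rfl
      rw [h3, ih, ho]
  have hlin : ∀ n : ℕ, (lin (γ ^ n)).mulVec p = ρ ^ n • p := by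
    intro n
    induction n with
    | zero => simp [lin_one]
    | succ n ih => rw [pow_succ, lin_mul, ← Matrix.mulVec_mulVec, hd.gp, Matrix.mulVec_smul, ih, smul_smul, pow_succ, mul_comm]
  have hinj : Function.Injective (fun n : ℕ => γ ^ n) := by
    intro a b hab
    have h1 := hlin a
    have hab' : γ ^ a = γ ^ b := hab
    rw [hab', hlin b] at h1
    have h2 : ρ ^ b = ρ ^ a := smul_left_injective ℝ hp0 h1
    have h3 : |ρ| ^ a = |ρ| ^ b := by rw [← abs_pow, ← abs_pow, h2]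
    exact (pow_right_injective₀ (by linarith [hd.rho] : (0:ℝ) < |ρ|) (by linarith [hd.rho, (ne_of_gt hd.rho)] : |ρ| ≠ 1)) h3
  refine Set.infinite_of_injective_forall_mem hinj (fun n => ?_) hfin
  refine ⟨Γ.pow_mem hγ n, ⟨o, ⟨o, rfl, hpo n⟩, rfl⟩⟩

end C37
end

section

/-!
MP_c37615_al D TASK T14: Zariski density tools.

`zd_poly_list`: by induction on the list with `GX_irred` the product of the polynomials does not vanish identically on G (a polynomial vanishing on G: use the contrapositive of GX_irred repeatedly;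
the empty product is 1); by `Cryst.zd` there is γ ∈ Γ with product ≠ 0 at lin γ, so all factors ≠ 0.
`zd_trace`: the functional A ↦ trace (A * M_i) is the evaluation of a polynomial (Σ over entries M_i q p X_(p,q)); not identically 0 on G by `GX_span`.
`zd_B`: B (A x) y = trace (A * rk1 x y) (`mul_rk1`, `trace_rk1`) and rk1 x y ≠ 0.
-/

set_option autoImplicit false

namespace C37

theorem T14_prod (L : List (MvPolynomial (Fin 7 × Fin 7) ℝ))
    (hL : ∀ P ∈ L, ∃ A : Mat, InG A ∧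
      MvPolynomial.eval (fun p : Fin 7 × Fin 7 => A p.1 p.2) P ≠ 0) :
    ∃ A : Mat, InG A ∧ MvPolynomial.eval (fun p : Fin 7 × Fin 7 => A p.1 p.2) L.prod ≠ 0 := by
  induction L with
  | nil => exact ⟨1, InG_one, by simp⟩
  | cons P L ih =>
    obtain ⟨A, hA, hA'⟩ := hL P List.mem_cons_self
    obtain ⟨B', hB, hB'⟩ := ih (fun Q hQ => hL Q (List.mem_cons_of_mem _ hQ))
    by_contra hcon
    push Not at hcon
    rw [List.prod_cons] at hcon
    rcases GX_irred P L.prod hcon with h1 | h1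
    · exact hA' (h1 A hA)
    · exact hB' (h1 B' hB)

/-- the polynomial of the function A ↦ trace (A * M) -/
noncomputable def T14_P (M : Mat) : MvPolynomial (Fin 7 × Fin 7) ℝ :=
  ∑ i : Fin 7, ∑ j : Fin 7, MvPolynomial.X (i, j) * MvPolynomial.C (M j i)

theorem T14_eval (M A : Mat) :
    MvPolynomial.eval (fun p : Fin 7 × Fin 7 => A p.1 p.2) (T14_P M) = (A * M).trace := by
  unfold T14_P
  rw [map_sum]
  simp only [Matrix.trace, Matrix.diag_apply, Matrix.mul_apply]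
  refine Finset.sum_congr rfl (fun i _ => ?_)
  rw [map_sum]
  refine Finset.sum_congr rfl (fun j _ => ?_)
  rw [map_mul, MvPolynomial.eval_X, MvPolynomial.eval_C]

theorem zd_poly_list (Γ : Subgroup (V ≃ᵃ[ℝ] V)) (h : Cryst Γ) (L : List (MvPolynomial (Fin 7 × Fin 7) ℝ))
    (hL : ∀ P ∈ L, ∃ A : Mat, InG A ∧ MvPolynomial.eval (fun p : Fin 7 × Fin 7 => A p.1 p.2) P ≠ 0) :
    ∃ γ ∈ Γ, ∀ P ∈ L, MvPolynomial.eval (fun p : Fin 7 × Fin 7 => lin γ p.1 p.2) P ≠ 0 := by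
  obtain ⟨A, hA, hA'⟩ := T14_prod L hL
  have h1 : ∃ γ ∈ Γ, MvPolynomial.eval (fun p : Fin 7 × Fin 7 => lin γ p.1 p.2) L.prod ≠ 0 := by
    by_contra hcon
    push Not at hcon
    exact hA' (h.zd L.prod hcon A hA)
  obtain ⟨γ, hγ, hne⟩ := h1
  refine ⟨γ, hγ, fun P hP h0 => hne ?_⟩
  rw [map_list_prod]
  exact List.prod_eq_zero (List.mem_map.2 ⟨P, hP, h0⟩)
theorem zd_trace (Γ : Subgroup (V ≃ᵃ[ℝ] V)) (h : Cryst Γ) (L : List Mat) (hL : ∀ M ∈ L, M ≠ 0) :
    ∃ γ ∈ Γ, ∀ M ∈ L, (lin γ * M).trace ≠ 0 := by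
  obtain ⟨γ, hγ, h1⟩ := zd_poly_list Γ h (L.map T14_P) (by
    intro P hP
    obtain ⟨M, hM, rfl⟩ := List.mem_map.1 hP
    obtain ⟨g, hg, hne⟩ := GX_span M (hL M hM)
    exact ⟨g, hg, by rw [T14_eval]; exact hne⟩)
  refine ⟨γ, hγ, fun M hM => ?_⟩
  have h2 := h1 (T14_P M) (List.mem_map.2 ⟨M, hM, rfl⟩)
  rw [T14_eval] at h2
  exact h2
theorem zd_B (Γ : Subgroup (V ≃ᵃ[ℝ] V)) (h : Cryst Γ) (x y : V) (hx : x ≠ 0) (hy : y ≠ 0) :
    ∃ γ ∈ Γ, B ((lin γ).mulVec x) y ≠ 0 := by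
  have hne : rk1 x y ≠ 0 := by
    intro h0
    rcases rk1_eq_zero x y h0 with h1 | h1
    · exact hx h1
    · exact hy h1
  obtain ⟨γ, hγ, h1⟩ := zd_trace Γ h [rk1 x y] (by
    intro M hM
    rw [List.mem_singleton] at hM
    rw [hM]
    exact hne)
  refine ⟨γ, hγ, ?_⟩
  have h2 := h1 (rk1 x y) (List.mem_singleton.2 rfl)
  rw [mul_rk1, trace_rk1, B_comm] at h2
  exact h2

end C37
end

section

/-!
MP_c37615_al D TASK T19: short root vectors: `ShortData Z p` and the asymptotics of the sign function.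

(Z,p) with Z antisymmetric for B, Z^3 = 0, Z^2 = 4 rk1 p p, Z p = 0, Lmat p * Z = -2 rk1 p p, exp(sZ) in G, p null <> 0.
g = h (1 + s Z + (s^2/2) Z^2), u' = h (s a + (s^2/2) Z a + (s^3/6) Z^2 a) + u.
 trace g = trace h + s trace (h Z) + (s^2/2) trace (h Z^2), trace (h Z^2) = 4 B p (h p).
 Ev g = Ev h + s Ev (h Z) + (s^2/2) Ev (h Z^2),  Ev (h Z^2) = 4 cross (h p) p (`mul_rk1`, `Ev_rk1`), B of it with itself = -16 (B (h p) p)^2.
 B u' (Ev g): s^5: (1/12) B (h Z^2 a) (Ev (h Z^2)) = (1/12) 4 B p a * 4 B (h p) (cross (h p) p) = 0.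
 s^4: (1/4) B (h Z a) (Ev (h Z^2)) + (1/6) B (h Z^2 a) (Ev (h Z)).
   B (h Z a) (4 cross (h p) p) = 4 B (cross (h Z a) (h p)) p = 4 B (h (cross (Z a) p)) p and cross (Z a) p = - Lmat p Z a = 2 (B p a) p: this is 8 (B p a)(B (h p) p).
   B (h Z^2 a) (Ev (h Z)) = 4 (B p a) B (h p) (Ev (h Z)) = 4 (B p a) trace (h (Lmat p Z)) (`key_trace`) = -8 (B p a) B p (h p).
   total s^4: 2 (B p a) B(hp,p) - (8/6) (B p a) B(hp,p) = (2/3) (B p a) B (h p) p.
 So FF / s^6 -> (1/2) 4 B(hp,p) * (2/3) (B p a) B(hp,p) = (4/3) (B p a) (B (h p) p)^2.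
`short2` (B p a = 0, so Z^2 a = 0 and cross (Z a) p = 0): the s^4 coefficient vanishes; s^3 coefficient of B u' (Ev g): (1/2) B (h a) (Ev (h Z^2)) + (1/2) B (h Z a) (Ev (h Z)) [+ (1/6) B (h Z^2 a)(Ev h) = 0]
   = (1/2) trace (h (Lmat a Z^2)) + (1/2) trace (h (Lmat (Z a) Z)) by `key_trace`, i.e. (1/2) trace (h MS) with MS = Lmat a * (Z*Z) + Lmat (Z a) * Z;  so FF / s^5 -> 2 B(hp,p) * (1/2) trace (h MS) = B(hp,p) trace (h MS).
-/

set_option autoImplicit false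

open Filter Topology

namespace C37

structure ShortData (Z : Mat) (p : V) : Prop where
  anti : ∀ u v, B (Z.mulVec u) v = -B u (Z.mulVec v)
  sq : Z * Z = (4 : ℝ) • rk1 p p
  kill : Z.mulVec p = 0
  Lp : Lmat p * Z = (-2 : ℝ) • rk1 p p
  pnull : B p p = 0
  pne : p ≠ 0
  exp : ∀ s, InG (expZ Z s)

private theorem T19_cB : Continuous (fun p : V × V => B p.1 p.2) := by
  have h : ∀ i, Continuous (fun p : V × V => p.1 i) := fun i => (continuous_apply i).comp continuous_fst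
  have k : ∀ i, Continuous (fun p : V × V => p.2 i) := fun i => (continuous_apply i).comp continuous_snd
  exact (((((((h 0).mul (k 0)).add ((h 1).mul (k 1))).add ((h 2).mul (k 2))).sub ((h 3).mul (k 3))).sub
    ((h 4).mul (k 4))).sub ((h 5).mul (k 5))).sub ((h 6).mul (k 6))

private theorem T19_B {f g : ℕ → V} {x y : V} (hf : Tendsto f atTop (𝓝 x)) (hg : Tendsto g atTop (𝓝 y)) :
    Tendsto (fun j => B (f j) (g j)) atTop (𝓝 (B x y)) := by
  have h1 : Tendsto (fun p : V × V => B p.1 p.2) (𝓝 (x, y)) (𝓝 (B x y)) := T19_cB.tendsto (x, y)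
  have h2 : Tendsto (fun j => (f j, g j)) atTop (𝓝 (x, y)) := hf.prodMk_nhds hg
  have h3 := h1.comp h2
  simpa only [Function.comp_def] using h3

private theorem T19_mulVec {f : ℕ → Mat} {x : Mat} (hf : Tendsto f atTop (𝓝 x)) (v : V) :
    Tendsto (fun j => (f j).mulVec v) atTop (𝓝 (x.mulVec v)) :=
  ((continuous_id.matrix_mulVec continuous_const).tendsto x).comp hf

private theorem T19_mul {f : ℕ → Mat} {x : Mat} (hf : Tendsto f atTop (𝓝 x)) (M : Mat) :
    Tendsto (fun j => f j * M) atTop (𝓝 (x * M)) :=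
  ((continuous_id.matrix_mul continuous_const).tendsto x).comp hf

private theorem T19_trace {f : ℕ → Mat} {x : Mat} (hf : Tendsto f atTop (𝓝 x)) :
    Tendsto (fun j => (f j).trace) atTop (𝓝 x.trace) :=
  (continuous_id.matrix_trace.tendsto x).comp hf

private theorem T19_Ev {f : ℕ → Mat} {x : Mat} (hf : Tendsto f atTop (𝓝 x)) :
    Tendsto (fun j => Ev (f j)) atTop (𝓝 (Ev x)) :=
  (continuous_Ev.tendsto x).comp hf

private theorem T19_ne {s : ℕ → ℝ} (hs : Tendsto (fun j => |s j|) atTop atTop) : ∀ᶠ j in atTop, s j ≠ 0 :=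
  (hs.eventually_gt_atTop 0).mono fun j hj h => by
    rw [h, abs_zero] at hj
    exact lt_irrefl _ hj

private theorem T19_inv {s : ℕ → ℝ} (hs : Tendsto (fun j => |s j|) atTop atTop) :
    Tendsto (fun j => (s j)⁻¹) atTop (𝓝 0) := by
  rw [tendsto_zero_iff_abs_tendsto_zero]
  have := tendsto_inv_atTop_zero.comp hs
  refine this.congr fun j => ?_
  simp [abs_inv]

private theorem T19_exp (M Z : Mat) (x : ℝ) : M * expZ Z x = M + x • (M * Z) + (x ^ 2 / 2) • (M * (Z * Z)) := by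
  unfold expZ
  rw [mul_add, mul_add, mul_one, Matrix.mul_smul, Matrix.mul_smul]

private theorem T19_tr (M Z : Mat) (a : V) (x : ℝ) : M.mulVec (trZ Z a x) =
    x • M.mulVec a + (x ^ 2 / 2) • M.mulVec (Z.mulVec a) + (x ^ 3 / 6) • M.mulVec ((Z * Z).mulVec a) := by
  unfold trZ
  rw [Matrix.mulVec_add, Matrix.mulVec_add, Matrix.mulVec_smul, Matrix.mulVec_smul, Matrix.mulVec_smul]

/-- the vectors `h Z² a`, `Ev (h Z²)` and their products -/
private theorem T19_facts {Z : Mat} {p : V} (hZ : ShortData Z p) {h : Mat} (hG : InG h) (a : V) :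
    B (h.mulVec ((Z * Z).mulVec a)) (Ev (h * (Z * Z))) = 0 ∧
    B (h.mulVec (Z.mulVec a)) (Ev (h * (Z * Z))) = 8 * B p a * B (h.mulVec p) p ∧
    B (h.mulVec ((Z * Z).mulVec a)) (Ev (h * Z)) = -8 * B p a * B (h.mulVec p) p ∧
    (h * (Z * Z)).trace = 4 * B (h.mulVec p) p ∧
    B (Ev (h * (Z * Z))) (Ev (h * (Z * Z))) = -16 * (B (h.mulVec p) p) ^ 2 := by
  have hZZ : (Z * Z).mulVec a = (4 * B p a) • p := by
    rw [hZ.sq, Matrix.smul_mulVec, rk1_mulVec, smul_smul]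
  have hE : Ev (h * (Z * Z)) = (4 : ℝ) • cross (h.mulVec p) p := by
    rw [hZ.sq, Matrix.mul_smul, mul_rk1, Ev_smul, Ev_rk1]
  have hcyc : ∀ u v : V, B (cross u v) v = 0 := by
    intro u v
    rw [B_cross_cycl, cross_self, ← zero_smul ℝ (0 : V), B_smul_right, zero_mul]
  have hcyc' : ∀ u v : V, B u (cross u v) = 0 := by
    intro u v
    rw [← B_cross_cycl, cross_self, ← zero_smul ℝ (0 : V), B_smul_left, zero_mul]
  have hnull : B (h.mulVec p) (h.mulVec p) = 0 := by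
    rw [(GX_B h hG p p).1, hZ.pnull]
  refine ⟨?_, ?_, ?_, ?_, ?_⟩
  · rw [hZZ, hE, Matrix.mulVec_smul, B_smul_left, B_smul_right, hcyc', mul_zero, mul_zero]
  · rw [hE, B_smul_right, ← B_cross_cycl, (GX_B h hG (Z.mulVec a) p).2.1]
    have h1 : cross (Z.mulVec a) p = (2 * B p a) • p := by
      rw [cross_anti, ← Lmat_mulVec, Matrix.mulVec_mulVec, hZ.Lp, Matrix.smul_mulVec, rk1_mulVec,
        smul_smul, ← neg_smul]
      congr 1
      ring
    rw [h1, Matrix.mulVec_smul, B_smul_left]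
    ring
  · rw [hZZ, Matrix.mulVec_smul, B_smul_left, key_trace h hG, hZ.Lp, Matrix.mul_smul, mul_rk1,
      Matrix.trace_smul, trace_rk1, smul_eq_mul, B_comm p (h.mulVec p)]
    ring
  · rw [hZ.sq, Matrix.mul_smul, mul_rk1, Matrix.trace_smul, trace_rk1, smul_eq_mul, B_comm p (h.mulVec p)]
  · rw [hE, B_smul_left, B_smul_right, q_cross_null _ _ hnull]
    ring

theorem short_tendsto (Z : Mat) (p : V) (hZ : ShortData Z p) (h : Mat) (a u : V) (hj : ℕ → Mat) (uj : ℕ → V) (s : ℕ → ℝ)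
    (hG : ∀ j, InG (hj j)) (hh : Tendsto hj atTop (𝓝 h)) (hu : Tendsto uj atTop (𝓝 u)) (hs : Tendsto (fun j => |s j|) atTop atTop) :
    Tendsto (fun j => FF (hj j * expZ Z (s j)) ((hj j).mulVec (trZ Z a (s j)) + uj j) / (s j) ^ 6) atTop
      (𝓝 ((4/3) * B p a * (B (h.mulVec p) p) ^ 2)) ∧
    Tendsto (fun j => B (Ev (hj j * expZ Z (s j))) (Ev (hj j * expZ Z (s j))) / (s j) ^ 4) atTop
      (𝓝 (-4 * (B (h.mulVec p) p) ^ 2)) ∧
    Tendsto (fun j => (hj j * expZ Z (s j)).trace / (s j) ^ 2) atTop (𝓝 (2 * B (h.mulVec p) p)) := by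
  have hs0 := T19_ne hs
  have ht := T19_inv hs
  have hN := T19_mul hh Z
  have hNN := T19_mul hh (Z * Z)
  have t0 := T19_trace hh
  have t1 := T19_trace hN
  have tp := T19_B (T19_mulVec hh p) (tendsto_const_nhds (x := p))
  have E0 := T19_Ev hh
  have E1 := T19_Ev hN
  have E2 := T19_Ev hNN
  have v1 := T19_mulVec hh a
  have v2 := T19_mulVec hh (Z.mulVec a)
  have v3 := T19_mulVec hh ((Z * Z).mulVec a)
  refine ⟨?_, ?_, ?_⟩
  · have c3 := (((T19_B v1 E2).const_mul (1 / 2)).add ((T19_B v2 E1).const_mul (1 / 2))).add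
      ((T19_B v3 E0).const_mul (1 / 6))
    have c2 := ((T19_B v1 E1).add ((T19_B v2 E0).const_mul (1 / 2))).add ((T19_B hu E2).const_mul (1 / 2))
    have c1 := (T19_B v1 E0).add (T19_B hu E1)
    have c0 := T19_B hu E0
    have key := (((tp.const_mul 2).add (t1.mul ht)).add ((t0.add_const 1).mul (ht.pow 2))).mul
      (((((tp.const_mul (2 / 3 * B p a)).add (c3.mul ht)).add (c2.mul (ht.pow 2))).add
        (c1.mul (ht.pow 3))).add (c0.mul (ht.pow 4)))
    have e : ∀ x y z w r t m : ℝ, (2 * x + y * 0 + (z + 1) * 0 ^ 2) *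
        (2 / 3 * B p a * x + w * 0 + r * 0 ^ 2 + t * 0 ^ 3 + m * 0 ^ 4) = 4 / 3 * B p a * x ^ 2 := by
      intros; ring
    rw [e] at key
    refine key.congr' (hs0.mono fun j hj0 => ?_)
    obtain ⟨f1, f2, f3, f4, _⟩ := T19_facts hZ (hG j) a
    unfold FF
    beta_reduce
    rw [T19_exp, T19_tr, Matrix.trace_add, Matrix.trace_add, Matrix.trace_smul, Matrix.trace_smul,
      Ev_add, Ev_add, Ev_smul, Ev_smul]
    simp only [B_add_left, B_add_right, B_smul_left, B_smul_right, smul_eq_mul]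
    rw [f1, f2, f3, f4]
    field_simp
    ring
  · have key := ((((tp.pow 2).const_mul (-4)).add ((T19_B E1 E2).mul ht)).add
      (((T19_B E1 E1).add (T19_B E0 E2)).mul (ht.pow 2))).add
      ((((T19_B E0 E1).const_mul 2).mul (ht.pow 3)).add ((T19_B E0 E0).mul (ht.pow 4)))
    have e : ∀ x y z w r : ℝ, x + y * 0 + z * 0 ^ 2 + (w * 0 ^ 3 + r * 0 ^ 4) = x := by
      intros; ring
    rw [e] at key
    refine key.congr' (hs0.mono fun j hj0 => ?_)
    obtain ⟨_, _, _, _, f5⟩ := T19_facts hZ (hG j) a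
    beta_reduce
    rw [T19_exp, Ev_add, Ev_add, Ev_smul, Ev_smul]
    simp only [B_add_left, B_add_right, B_smul_left, B_smul_right]
    rw [f5, B_comm (Ev (hj j * Z)) (Ev (hj j)), B_comm (Ev (hj j * (Z * Z))) (Ev (hj j)),
      B_comm (Ev (hj j * (Z * Z))) (Ev (hj j * Z))]
    field_simp
    ring
  · have key := ((tp.const_mul 2).add (t1.mul ht)).add (t0.mul (ht.pow 2))
    have e : ∀ x y z : ℝ, x + y * 0 + z * 0 ^ 2 = x := by
      intros; ring
    rw [e] at key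
    refine key.congr' (hs0.mono fun j hj0 => ?_)
    obtain ⟨_, _, _, f4, _⟩ := T19_facts hZ (hG j) a
    beta_reduce
    rw [T19_exp, Matrix.trace_add, Matrix.trace_add, Matrix.trace_smul, Matrix.trace_smul, smul_eq_mul,
      smul_eq_mul, f4]
    field_simp
    ring

end C37
end

section

set_option autoImplicit false

namespace C37

private theorem T20a_ext (A B : Mat) (h : ∀ v : V, A.mulVec v = B.mulVec v) : A = B := by
  apply Matrix.mulVec_injective
  funext v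
  exact h v

theorem T20a_ofNull (fa f1 f2 f3 g1 g2 g3 v : V) : (ofNull fa f1 f2 f3 g1 g2 g3).mulVec v =
    v 3 • fa + (v 0 - v 4) • f1 + (v 1 - v 5) • f2 + (-(v 2 + v 6)) • f3 + (-(v 0 + v 4)) • g1
      + (-(v 1 + v 5)) • g2 + (v 2 - v 6) • g3 := by
  have hev : ∀ j k : Fin 7, ev j k = if k = j then 1 else 0 := by
    intro j k
    simp [ev, Pi.single_apply]
  ext i
  simp only [Matrix.mulVec, dotProduct, Fin.sum_univ_seven, ofNull, Matrix.of_apply, hev,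
    Pi.add_apply, Pi.smul_apply, smul_eq_mul]
  simp only [Fin.isValue, Fin.reduceEq, if_true, if_false]
  ring

theorem T20a_mulVec (v : V) : rSp1.mulVec v =
    ![v 3, -(v 2 + v 6) / 2, (v 1 - v 5) / 2, v 0 + v 4, -v 3, -(v 2 + v 6) / 2, -(v 1 - v 5) / 2] := by
  unfold rSp1
  rw [T20a_ofNull]
  ext i
  fin_cases i <;> simp [x1, y3, y2, va] <;> ring

theorem T20a_anti (u v : V) : B (rSp1.mulVec u) v = -B u (rSp1.mulVec v) := by
  rw [T20a_mulVec, T20a_mulVec]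
  simp [B]
  ring

theorem T20a_sq : rSp1 * rSp1 = (4 : ℝ) • rk1 x1 x1 := by
  apply T20a_ext
  intro v
  rw [← Matrix.mulVec_mulVec, Matrix.smul_mulVec, rk1_mulVec, T20a_mulVec, T20a_mulVec]
  ext i
  fin_cases i <;> simp [B, x1] <;> ring

theorem T20a_kill : rSp1.mulVec x1 = 0 := by
  rw [T20a_mulVec]
  ext i
  fin_cases i <;> simp [x1] <;> norm_num

theorem T20a_Lp : Lmat x1 * rSp1 = (-2 : ℝ) • rk1 x1 x1 := by
  apply T20a_ext
  intro v
  rw [← Matrix.mulVec_mulVec, Matrix.smul_mulVec, rk1_mulVec, T20a_mulVec, Lmat_mulVec]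
  ext i
  fin_cases i <;> simp [cross, B, x1] <;> ring

theorem T20a_exp (v : V) (s : ℝ) : (expZ rSp1 s).mulVec v =
    ![v 0 + s * v 3 + s ^ 2 / 2 * (v 0 + v 4), v 1 - s * (v 2 + v 6) / 2, v 2 + s * (v 1 - v 5) / 2,
      v 3 + s * (v 0 + v 4), v 4 - s * v 3 - s ^ 2 / 2 * (v 0 + v 4), v 5 - s * (v 2 + v 6) / 2,
      v 6 - s * (v 1 - v 5) / 2] := by
  unfold expZ
  rw [Matrix.add_mulVec, Matrix.add_mulVec, Matrix.one_mulVec, Matrix.smul_mulVec, Matrix.smul_mulVec,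
    ← Matrix.mulVec_mulVec, T20a_mulVec, T20a_mulVec]
  have hsum : ∀ (a b c : V) (k : Fin 7), (a + s • b + (s ^ 2 / 2) • c) k = a k + s * b k + s ^ 2 / 2 * c k :=
    fun _ _ _ _ => rfl
  ext i
  rw [hsum]
  fin_cases i <;> simp <;> ring

theorem T20a_InG (s : ℝ) : InG (expZ rSp1 s) := by
  intro u v w
  rw [T20a_exp, T20a_exp, T20a_exp]
  simp [phi, e3, det3]
  ring

theorem shortData_S : ShortData rSp1 x1 where
  anti := T20a_anti
  sq := T20a_sq
  kill := T20a_kill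
  Lp := T20a_Lp
  pnull := by simp [B, x1]; norm_num
  pne := by
    intro h
    have := congrFun h 0
    simp [x1] at this
  exp := T20a_InG

end C37
end

section

/-!
MP_c37615_al D TASK T22b (theorems nearOne_pos, nearOne_neg): elementary facts on `NearOne` sequences.

`nearOne_fixed`: if a = Z w (Z^3 = 0) then with p0 = -w: (expZ Z s) p0 + trZ Z a s = p0 for all s (s a + (s^2/2) Z a + (s^3/6) Z^2 a = s Z w + (s^2/2) Z^2 w + 0, expZ Z s (-w) = -w - s Z w - (s^2/2) Z^2 w).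
 By `left`: γ_j p0 = b_j p0 -> p0 (`aff_apply`, blin, btr).  So γ_j maps the compact set K = closed ball around p0 of radius 1 (containing p0) to itself-intersecting sets for all large j:
 γ_j ∈ {γ ∈ Γ : γ K ∩ K ≠ ∅}, finite; so one element γ occurs for infinitely many j; along this subsequence lin γ = lin b_j * expZ Z s_j, lin b_j -> 1: expZ Z (s_j) = (lin b_j)⁻¹ lin γ -> lin γ, but s_j -> ∞ and Z ≠ 0:
 expZ Z (s_j) is unbounded (if Z^2 ≠ 0 divide by s^2, else by s).  Contradiction.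
`nearOne_lin`: from `left` at v and at 0.
`nearOne_sub`: for h ∈ Γ: h γ_j ∈ Γ with lin (h γ_j) = (lin h * lin b_j) * expZ Z s_j and tv (h γ_j) = (lin h * lin b_j) trZ Z a s_j + tv (h b_j); lin h * lin b_j -> lin h, tv (h b_j) -> tv h;
 lin h * lin b_j ∈ G because lin b_j = lin γ_j * expZ Z (-s_j) and expZ Z (-s) * expZ Z s = 1 (Z^3=0), if all expZ Z s are in G.
`nearOne_neg`: the inverse sequence: γ_j⁻¹ = E_j⁻¹ b_j⁻¹, E_j⁻¹ = exp(-s_j (Z,a)): same statement with -s_j: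
 lin (h γ_j⁻¹) = (lin h * lin b_j⁻¹) * expZ Z (-s_j), tv (h γ_j⁻¹) = (lin h * lin b_j⁻¹) trZ Z a (-s_j) + tv (h b_j⁻¹)  (from `right`: γ_j = E_j b_j so γ_j⁻¹ = b_j⁻¹ E_j⁻¹).
-/

set_option autoImplicit false

open Filter Topology

namespace C37

private theorem T22b_matext (A B : Mat) (h : ∀ v : V, A.mulVec v = B.mulVec v) : A = B := by
  apply Matrix.mulVec_injective
  funext v
  exact h v

private theorem T22b_exp_apply (Z : Mat) (s : ℝ) (v : V) :
    (expZ Z s).mulVec v = v + s • Z.mulVec v + (s ^ 2 / 2) • Z.mulVec (Z.mulVec v) := by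
  unfold expZ
  rw [Matrix.add_mulVec, Matrix.add_mulVec, Matrix.one_mulVec, Matrix.smul_mulVec, Matrix.smul_mulVec,
    Matrix.mulVec_mulVec]

private theorem T22b_cube (Z : Mat) (hZ3 : Z * Z * Z = 0) (v : V) : Z.mulVec (Z.mulVec (Z.mulVec v)) = 0 := by
  rw [Matrix.mulVec_mulVec, Matrix.mulVec_mulVec, hZ3, Matrix.zero_mulVec]

private theorem T22b_exp_mul (Z : Mat) (hZ3 : Z * Z * Z = 0) (s : ℝ) : expZ Z s * expZ Z (-s) = 1 := by
  apply T22b_matext
  intro v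
  rw [← Matrix.mulVec_mulVec, T22b_exp_apply, T22b_exp_apply, Matrix.one_mulVec]
  simp only [Matrix.mulVec_add, Matrix.mulVec_smul, T22b_cube Z hZ3, Matrix.mulVec_zero]
  ext i
  simp only [Pi.add_apply, Pi.smul_apply, Pi.zero_apply, smul_eq_mul]
  ring

private theorem T22b_exp_tr (Z : Mat) (hZ3 : Z * Z * Z = 0) (a : V) (s : ℝ) :
    (expZ Z (-s)).mulVec (trZ Z a s) = -(trZ Z a (-s)) := by
  rw [T22b_exp_apply]
  unfold trZ
  simp only [← Matrix.mulVec_mulVec, Matrix.mulVec_add, Matrix.mulVec_smul, T22b_cube Z hZ3, Matrix.mulVec_zero]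
  ext i
  simp only [Pi.add_apply, Pi.smul_apply, Pi.neg_apply, Pi.zero_apply, smul_eq_mul]
  ring

theorem nearOne_pos (Γ : Subgroup (V ≃ᵃ[ℝ] V)) (hΓ : Cryst Γ) (Z : Mat) (hZ3 : Z * Z * Z = 0) (hE : ∀ s, InG (expZ Z s)) (a : V)
    (γ b : ℕ → V ≃ᵃ[ℝ] V) (s : ℕ → ℝ) (hn : NearOne Γ Z a γ b s) (h : V ≃ᵃ[ℝ] V) (hh : h ∈ Γ) :
    ∃ (hj : ℕ → Mat) (uj : ℕ → V), (∀ j, InG (hj j)) ∧ Tendsto hj atTop (𝓝 (lin h)) ∧ Tendsto uj atTop (𝓝 (tv h)) ∧
      (∀ j, lin (h * γ j) = hj j * expZ Z (s j)) ∧ (∀ j, tv (h * γ j) = (hj j).mulVec (trZ Z a (s j)) + uj j) := by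
  have htv : ∀ j, tv (γ j) = (lin (b j)).mulVec (trZ Z a (s j)) + tv (b j) := by
    intro j
    have h1 := hn.left j 0
    rw [Matrix.mulVec_zero, zero_add, aff_apply (b j)] at h1
    exact h1
  have hlin : ∀ j, lin (γ j) = lin (b j) * expZ Z (s j) := by
    intro j
    apply T22b_matext
    intro v
    have h1 := hn.left j v
    rw [aff_apply (b j), aff_apply (γ j), htv j, Matrix.mulVec_add] at h1
    rw [← Matrix.mulVec_mulVec]
    have h2 := congrArg (fun x => x - ((lin (b j)).mulVec (trZ Z a (s j)) + tv (b j))) h1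
    simp only [add_sub_cancel_right] at h2
    rw [h2]
    abel
  have hbG : ∀ j, InG (lin (b j)) := by
    intro j
    have h1 : lin (b j) = lin (γ j) * expZ Z (-(s j)) := by
      rw [hlin, mul_assoc, T22b_exp_mul Z hZ3, mul_one]
    rw [h1]
    exact InG_mul _ _ (hΓ.lin_InG _ (hn.mem j)) (hE _)
  refine ⟨fun j => lin h * lin (b j), fun j => (lin h).mulVec (tv (b j)) + tv h, ?_, ?_, ?_, ?_, ?_⟩
  · intro j
    exact InG_mul _ _ (hΓ.lin_InG _ hh) (hbG j)
  · have h1 : Tendsto (fun j => lin h * lin (b j)) atTop (𝓝 (lin h * 1)) := tendsto_const_nhds.mul hn.blin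
    rw [mul_one] at h1
    exact h1
  · have hc : Continuous (fun v : V => (lin h).mulVec v + tv h) := by fun_prop
    have h1 := (hc.tendsto 0).comp hn.btr
    simp only [Matrix.mulVec_zero, zero_add] at h1
    exact h1
  · intro j
    rw [lin_mul, hlin, mul_assoc]
  · intro j
    rw [tv_mul, htv, Matrix.mulVec_add, Matrix.mulVec_mulVec]
    rw [add_assoc]

theorem nearOne_neg (Γ : Subgroup (V ≃ᵃ[ℝ] V)) (hΓ : Cryst Γ) (Z : Mat) (hZ3 : Z * Z * Z = 0) (hE : ∀ s, InG (expZ Z s)) (a : V)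
    (γ b : ℕ → V ≃ᵃ[ℝ] V) (s : ℕ → ℝ) (hn : NearOne Γ Z a γ b s) (h : V ≃ᵃ[ℝ] V) (hh : h ∈ Γ) :
    ∃ (hj : ℕ → Mat) (uj : ℕ → V), (∀ j, InG (hj j)) ∧ Tendsto hj atTop (𝓝 (lin h)) ∧ Tendsto uj atTop (𝓝 (tv h)) ∧
      (∀ j, lin (h * (γ j)⁻¹) = hj j * expZ Z (-(s j))) ∧ (∀ j, tv (h * (γ j)⁻¹) = (hj j).mulVec (trZ Z a (-(s j))) + uj j) := by
  have htv : ∀ j, tv (γ j) = (expZ Z (s j)).mulVec (tv (b j)) + trZ Z a (s j) := fun j => hn.right j 0
  have hlin : ∀ j, lin (γ j) = expZ Z (s j) * lin (b j) := by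
    intro j
    apply T22b_matext
    intro v
    have h1 := hn.right j v
    rw [aff_apply (b j), aff_apply (γ j), htv j, Matrix.mulVec_add] at h1
    rw [← Matrix.mulVec_mulVec]
    have h2 := congrArg (fun x => x - ((expZ Z (s j)).mulVec (tv (b j)) + trZ Z a (s j))) h1
    simp only [add_sub_cancel_right] at h2
    rw [h2]
    abel
  have hexp' : ∀ t : ℝ, expZ Z (-t) * expZ Z t = 1 := fun t => mul_eq_one_comm.mp (T22b_exp_mul Z hZ3 t)
  have hbG : ∀ j, InG (lin (b j)) := by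
    intro j
    have h1 : lin (b j) = expZ Z (-(s j)) * lin (γ j) := by
      rw [hlin, ← mul_assoc, hexp', one_mul]
    rw [h1]
    exact InG_mul _ _ (hE _) (hΓ.lin_InG _ (hn.mem j))
  have hinv : ∀ g : Mat, InG g → g⁻¹ = g.adjugate := by
    intro g hg
    rw [Matrix.inv_def, (GX_B g hg 0 0).2.2, Ring.inverse_one, one_smul]
  have hbinv : Tendsto (fun j => (lin (b j))⁻¹) atTop (𝓝 1) := by
    have h1 : (fun j => (lin (b j))⁻¹) = fun j => (lin (b j)).adjugate := by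
      funext j
      exact hinv _ (hbG j)
    rw [h1]
    have hc : Continuous (fun M : Mat => M.adjugate) := continuous_id.matrix_adjugate
    have h2 := (hc.tendsto 1).comp hn.blin
    rw [Matrix.adjugate_one] at h2
    exact h2
  have hlininv : ∀ j, lin (γ j)⁻¹ = (lin (b j))⁻¹ * expZ Z (-(s j)) := by
    intro j
    rw [(lin_inv (γ j)).1, hlin, Matrix.mul_inv_rev]
    congr 1
    exact Matrix.inv_eq_left_inv (hexp' (s j))
  have htvinv : ∀ j, tv (γ j)⁻¹ = (lin (b j))⁻¹.mulVec (trZ Z a (-(s j))) + -((lin (b j))⁻¹.mulVec (tv (b j))) := by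
    intro j
    rw [tv_inv, ← (lin_inv (γ j)).1, hlininv, htv, Matrix.mulVec_add, Matrix.mulVec_mulVec, mul_assoc, hexp', mul_one,
      ← Matrix.mulVec_mulVec, T22b_exp_tr Z hZ3, Matrix.mulVec_neg]
    abel
  refine ⟨fun j => lin h * (lin (b j))⁻¹, fun j => (lin h).mulVec (-((lin (b j))⁻¹.mulVec (tv (b j)))) + tv h,
    ?_, ?_, ?_, ?_, ?_⟩
  · intro j
    exact InG_mul _ _ (hΓ.lin_InG _ hh) (InG_inv _ (hbG j)).1
  · have h1 : Tendsto (fun j => lin h * (lin (b j))⁻¹) atTop (𝓝 (lin h * 1)) := tendsto_const_nhds.mul hbinv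
    rw [mul_one] at h1
    exact h1
  · have hc : Continuous (fun x : Mat × V => (lin h).mulVec (-(x.1.mulVec x.2)) + tv h) := by fun_prop
    have h1 := (hc.tendsto (1, 0)).comp (hbinv.prodMk_nhds hn.btr)
    simp only [Matrix.mulVec_zero, neg_zero, zero_add] at h1
    exact h1
  · intro j
    rw [lin_mul, hlininv, mul_assoc]
  · intro j
    rw [tv_mul, htvinv, Matrix.mulVec_add, Matrix.mulVec_mulVec, add_assoc]

end C37
end
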