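import Mathlib
import Pool.Agent.Lib.MP_c37615_al.Defs
import Pool.Agent.Lib.MP_c37615_al.D.Core
import Pool.Agent.Lib.MP_c37615_al.Mg.G033

section

/-!
MP_c37615_al (S02984), part D-IIb (paper 6.4.4 - 6.4.6), file B_N07
-/

set_option autoImplicit false

open Filter Topology NormedSpace

namespace C37
namespace DB

private theorem Wm_ofNull_mulVec (fa f1 f2 f3 g1 g2 g3 v : V) :
    (ofNull fa f1 f2 f3 g1 g2 g3).mulVec v = (v 3) • fa + (v 0 - v 4) • f1 + (v 1 - v 5) • f2 +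
      (-(v 2 + v 6)) • f3 + (-(v 0 + v 4)) • g1 + (-(v 1 + v 5)) • g2 + (v 2 - v 6) • g3 := by
  ext i
  simp only [ofNull, Matrix.mulVec, dotProduct, Fin.sum_univ_seven, ev, Matrix.of_apply, Pi.add_apply,
    Pi.smul_apply, smul_eq_mul]
  simp
  ring

private theorem Wm_mulVec (v : V) : Wm.mulVec v =
    (![(1) * v 2, (-1) * v 1, (1) * v 0, (-1) * v 3, (1) * v 6, (1) * v 5, (1) * v 4] : V) := by
  unfold Wm
  rw [Wm_ofNull_mulVec]
  ext i
  fin_cases i <;> simp [va, x1, x2, x3, y1, y2, y3] <;> ring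

/-- the reflection `Wm` lies in G. Pure computation: `InG` unfolds to a polynomial identity; first get
`Wm.mulVec v = ![...]` explicitly (a signed permutation in the null basis, see `ofNull` for the coordinates), then
`simp [phi, e3, det3]; ring`. -/
theorem inG_Wm : InG Wm := by
  intro u v w
  rw [Wm_mulVec, Wm_mulVec, Wm_mulVec]
  simp [phi, e3, det3]
  ring

end DB
end C37
end

section

/-!
MP_c37615_al (S02984), part D-IIb (paper 6.4.4 - 6.4.6), file B_T1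
-/

set_option autoImplicit false

open Filter Topology NormedSpace

namespace C37
namespace DB

/-- conjugation by exp(t S+2) on the Heisenberg part. -/
theorem tw_Sp2 (t b c d e f : ℝ) : expZ rSp2 t * nn b 0 c d e f =
    nn b 0 (c - t * b) (d + 4 * t * c - 2 * t ^ 2 * b) (e - 3 / 2 * t * d - 3 * t ^ 2 * c + t ^ 3 * b) f
      * expZ rSp2 t := by
  obtain ⟨a0, a1, a2, a3, a4, a5, a6⟩ := tL12
  obtain ⟨b0, b1, b2, b3, b4, b5, b6⟩ := tL13
  obtain ⟨c0, c1, c2, c3, c4, c5, c6⟩ := tL23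
  obtain ⟨d0, d1, d2, d3, d4, d5, d6⟩ := tSp1
  obtain ⟨e0, e1, e2, e3, e4, e5, e6⟩ := tSp2
  obtain ⟨f0, f1, f2, f3, f4, f5, f6⟩ := tSm3
  obtain ⟨g0, g1, g2, g3, g4, g5, g6⟩ := tSm2
  obtain ⟨h0, h1, h2, h3, h4, h5, h6⟩ := tWm
  apply null_ext <;>
  · simp only [expZ, nn, ← Matrix.mulVec_mulVec, Matrix.add_mulVec, Matrix.smul_mulVec, Matrix.mulVec_add,
      Matrix.mulVec_smul, Matrix.mulVec_neg, Matrix.one_mulVec, Matrix.mulVec_zero, Matrix.zero_mulVec,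
      a0, a1, a2, a3, a4, a5, a6, b0, b1, b2, b3, b4, b5, b6, c0, c1, c2, c3, c4, c5, c6,
      d0, d1, d2, d3, d4, d5, d6, e0, e1, e2, e3, e4, e5, e6, f0, f1, f2, f3, f4, f5, f6,
      g0, g1, g2, g3, g4, g5, g6, h0, h1, h2, h3, h4, h5, h6]
    module

end DB
end C37
end

section

/-!
MP_c37615_al (S02984), part D-IIb (paper 6.4.4 - 6.4.6), file B_T2
-/

set_option autoImplicit false

open Filter Topology NormedSpace

namespace C37
namespace DB

/-- conjugation by exp(t S-2) on the Heisenberg part. -/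
theorem tw_Sm2 (t b c d e f : ℝ) : expZ rSm2 t * nn b 0 c d e f =
    nn (b - 3 / 2 * t * c - 3 / 8 * t ^ 2 * d + 1 / 8 * t ^ 3 * e) 0 (c + 1 / 2 * t * d - 1 / 4 * t ^ 2 * e)
      (d - t * e) e f * expZ rSm2 t := by
  obtain ⟨a0, a1, a2, a3, a4, a5, a6⟩ := tL12
  obtain ⟨b0, b1, b2, b3, b4, b5, b6⟩ := tL13
  obtain ⟨c0, c1, c2, c3, c4, c5, c6⟩ := tL23
  obtain ⟨d0, d1, d2, d3, d4, d5, d6⟩ := tSp1
  obtain ⟨e0, e1, e2, e3, e4, e5, e6⟩ := tSp2
  obtain ⟨f0, f1, f2, f3, f4, f5, f6⟩ := tSm3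
  obtain ⟨g0, g1, g2, g3, g4, g5, g6⟩ := tSm2
  obtain ⟨h0, h1, h2, h3, h4, h5, h6⟩ := tWm
  apply null_ext <;>
  · simp only [expZ, nn, ← Matrix.mulVec_mulVec, Matrix.add_mulVec, Matrix.smul_mulVec, Matrix.mulVec_add,
      Matrix.mulVec_smul, Matrix.mulVec_neg, Matrix.one_mulVec, Matrix.mulVec_zero, Matrix.zero_mulVec,
      a0, a1, a2, a3, a4, a5, a6, b0, b1, b2, b3, b4, b5, b6, c0, c1, c2, c3, c4, c5, c6,
      d0, d1, d2, d3, d4, d5, d6, e0, e1, e2, e3, e4, e5, e6, f0, f1, f2, f3, f4, f5, f6,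
      g0, g1, g2, g3, g4, g5, g6, h0, h1, h2, h3, h4, h5, h6]
    module

end DB
end C37
end

section

/-!
MP_c37615_al (S02984), part D-IIb (paper 6.4.4 - 6.4.6), file B_T3
-/

set_option autoImplicit false

open Filter Topology NormedSpace

namespace C37
namespace DB

/-- conjugation by exp(t S-3). Proof: `null_ext`; for each null basis vector rewrite `(M * N).mulVec v = M.mulVec (N.mulVec v)`
(`← Matrix.mulVec_mulVec`), unfold `nn`, `expZ`, use linearity (`Matrix.add_mulVec`, `Matrix.smul_mulVec`, `Matrix.mulVec_add`,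
`Matrix.mulVec_smul`, `Matrix.mulVec_neg`, `Matrix.one_mulVec`) and the tables `tL12` ... of B_N03; finish with `module`
(or `ext i` + `simp` + `ring`). (Checked by exact arithmetic.) -/
theorem tw_Sm3 (t b c d e f : ℝ) : expZ rSm3 t * nn b 0 c d e f =
    nn b 0 c d e (f - 3 / 2 * t * c) * expZ rSm3 t := by
  obtain ⟨aq1, aq2, aq3, aq4, aq5, aq6, aq7⟩ := tL12
  obtain ⟨bq1, bq2, bq3, bq4, bq5, bq6, bq7⟩ := tL13
  obtain ⟨cq1, cq2, cq3, cq4, cq5, cq6, cq7⟩ := tL23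
  obtain ⟨dq1, dq2, dq3, dq4, dq5, dq6, dq7⟩ := tSp1
  obtain ⟨eq1, eq2, eq3, eq4, eq5, eq6, eq7⟩ := tSp2
  obtain ⟨gq1, gq2, gq3, gq4, gq5, gq6, gq7⟩ := tSm3
  apply null_ext <;>
  · rw [← Matrix.mulVec_mulVec, ← Matrix.mulVec_mulVec]
    simp only [nn, expZ, Matrix.add_mulVec, Matrix.smul_mulVec, Matrix.mulVec_add, Matrix.mulVec_smul,
      Matrix.mulVec_neg, Matrix.one_mulVec, ← Matrix.mulVec_mulVec, Matrix.mulVec_zero, aq1, aq2, aq3, aq4, aq5, aq6, aq7, bq1, bq2, bq3, bq4, bq5, bq6, bq7, cq1, cq2, cq3, cq4, cq5, cq6, cq7, dq1, dq2, dq3, dq4, dq5, dq6, dq7, eq1, eq2, eq3, eq4, eq5, eq6, eq7, gq1, gq2, gq3, gq4, gq5, gq6, gq7]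
    module

end DB
end C37
end

section

/-!
MP_c37615_al (S02984), part D-IIb (paper 6.4.4 - 6.4.6), file B_T4
-/

set_option autoImplicit false

open Filter Topology NormedSpace

namespace C37
namespace DB

/-- conjugation by exp(t L23). Proof: `null_ext`; for each null basis vector rewrite `(M * N).mulVec v = M.mulVec (N.mulVec v)`
(`← Matrix.mulVec_mulVec`), unfold `nn`, `expZ`, use linearity (`Matrix.add_mulVec`, `Matrix.smul_mulVec`, `Matrix.mulVec_add`,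
`Matrix.mulVec_smul`, `Matrix.mulVec_neg`, `Matrix.one_mulVec`) and the tables `tL12` ... of B_N03; finish with `module`
(or `ext i` + `simp` + `ring`). (Checked by exact arithmetic.) -/
theorem tw_L23 (t b c d e f : ℝ) : expZ rL23 t * nn b 0 c d e f =
    nn b 0 c d e (f + t * b) * expZ rL23 t := by
  obtain ⟨aq1, aq2, aq3, aq4, aq5, aq6, aq7⟩ := tL12
  obtain ⟨bq1, bq2, bq3, bq4, bq5, bq6, bq7⟩ := tL13
  obtain ⟨cq1, cq2, cq3, cq4, cq5, cq6, cq7⟩ := tL23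
  obtain ⟨dq1, dq2, dq3, dq4, dq5, dq6, dq7⟩ := tSp1
  obtain ⟨eq1, eq2, eq3, eq4, eq5, eq6, eq7⟩ := tSp2
  obtain ⟨gq1, gq2, gq3, gq4, gq5, gq6, gq7⟩ := tSm3
  apply null_ext <;>
  · rw [← Matrix.mulVec_mulVec, ← Matrix.mulVec_mulVec]
    simp only [nn, expZ, Matrix.add_mulVec, Matrix.smul_mulVec, Matrix.mulVec_add, Matrix.mulVec_smul,
      Matrix.mulVec_neg, Matrix.one_mulVec, ← Matrix.mulVec_mulVec, Matrix.mulVec_zero, aq1, aq2, aq3, aq4, aq5, aq6, aq7, bq1, bq2, bq3, bq4, bq5, bq6, bq7, cq1, cq2, cq3, cq4, cq5, cq6, cq7, dq1, dq2, dq3, dq4, dq5, dq6, dq7, eq1, eq2, eq3, eq4, eq5, eq6, eq7, gq1, gq2, gq3, gq4, gq5, gq6, gq7]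
    module

end DB
end C37
end

section

/-!
MP_c37615_al (S02984), part D-IIb (paper 6.4.4 - 6.4.6), file B_T5
-/

set_option autoImplicit false

open Filter Topology NormedSpace

namespace C37
namespace DB

/-- conjugation by the reflection. Proof: `null_ext`; for each null basis vector rewrite `(M * N).mulVec v = M.mulVec (N.mulVec v)`
(`← Matrix.mulVec_mulVec`), unfold `nn`, `expZ`, use linearity (`Matrix.add_mulVec`, `Matrix.smul_mulVec`, `Matrix.mulVec_add`,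
`Matrix.mulVec_smul`, `Matrix.mulVec_neg`, `Matrix.one_mulVec`) and the tables `tL12` ... of B_N03; finish with `module`
(or `ext i` + `simp` + `ring`). (Checked by exact arithmetic.) -/
theorem tw_Wm (b c d e f : ℝ) : Wm * nn b 0 c d e f =
    nn (-e) 0 (-(d / 2)) (-(2 * c)) (-b) (-f) * Wm := by
  obtain ⟨a0, a1, a2, a3, a4, a5, a6⟩ := tL12
  obtain ⟨b0, b1, b2, b3, b4, b5, b6⟩ := tL13
  obtain ⟨c0, c1, c2, c3, c4, c5, c6⟩ := tL23
  obtain ⟨d0, d1, d2, d3, d4, d5, d6⟩ := tSp1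
  obtain ⟨e0, e1, e2, e3, e4, e5, e6⟩ := tSp2
  obtain ⟨f0, f1, f2, f3, f4, f5, f6⟩ := tSm3
  obtain ⟨w0, w1, w2, w3, w4, w5, w6⟩ := tWm
  refine null_ext _ _ ?_ ?_ ?_ ?_ ?_ ?_ ?_ <;>
  · simp only [← Matrix.mulVec_mulVec, nn, Matrix.add_mulVec, Matrix.smul_mulVec,
      Matrix.mulVec_add, Matrix.mulVec_smul, Matrix.mulVec_neg, Matrix.mulVec_zero,
      a0, a1, a2, a3, a4, a5, a6, b0, b1, b2, b3, b4, b5, b6, c0, c1, c2, c3, c4, c5, c6,
      d0, d1, d2, d3, d4, d5, d6, e0, e1, e2, e3, e4, e5, e6, f0, f1, f2, f3, f4, f5, f6,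
      w0, w1, w2, w3, w4, w5, w6]
    module

end DB
end C37
end

section

/-!
MP_c37615_al (S02984), part D-IIb (paper 6.4.4 - 6.4.6), file B_K1
-/

set_option autoImplicit false

open Filter Topology NormedSpace

namespace C37
namespace DB

/-- last step before entering `P`: choose `w ∈ W \ P`, let `k` be minimal with `X^k w ∈ P` (`Nat.find`; exists because some power
of `X` is 0), `k ≠ 0`, take `X^(k-1) w`. -/
theorem nil_step (X : Mat) (hX : IsNilpotent X) (P W : Submodule ℝ V) (hne : ∃ w ∈ W, w ∉ P)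
    (hW : ∀ v ∈ W, X.mulVec v ∈ W) : ∃ w ∈ W, w ∉ P ∧ X.mulVec w ∈ P := by
  obtain ⟨w, hw, hwP⟩ := hne
  obtain ⟨n, hn⟩ := hX
  have hex : ∃ k : ℕ, (X ^ k).mulVec w ∈ P := ⟨n, by rw [hn, Matrix.zero_mulVec]; exact P.zero_mem⟩
  have hWk : ∀ k : ℕ, (X ^ k).mulVec w ∈ W := by
    intro k
    induction k with
    | zero => rw [pow_zero, Matrix.one_mulVec]; exact hw
    | succ k ih =>
      rw [pow_succ', ← Matrix.mulVec_mulVec]
      exact hW _ ih
  classical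
  have hk := Nat.find_spec hex
  have hk0 : Nat.find hex ≠ 0 := by
    intro h0
    rw [h0, pow_zero, Matrix.one_mulVec] at hk
    exact hwP hk
  obtain ⟨m, hm⟩ := Nat.exists_eq_succ_of_ne_zero hk0
  refine ⟨(X ^ m).mulVec w, hWk m, ?_, ?_⟩
  · exact Nat.find_min hex (by omega)
  · rw [Matrix.mulVec_mulVec, ← pow_succ']
    rw [hm] at hk
    exact hk

/-- Proof: apply `nil_step` to `X`; `W1 := {v ∈ W | X v ∈ P}` (a submodule) contains a vector outside `P` and is invariant under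
`Y`: `X (Y v) = Y (X v) ∈ P`. Apply `nil_step` to `Y` and `W1`. -/
theorem nil_step2 (X Y : Mat) (hX : IsNilpotent X) (hY : IsNilpotent Y) (hXY : X * Y = Y * X)
    (P W : Submodule ℝ V) (hne : ∃ w ∈ W, w ∉ P) (hWX : ∀ v ∈ W, X.mulVec v ∈ W)
    (hWY : ∀ v ∈ W, Y.mulVec v ∈ W) (hPY : ∀ v ∈ P, Y.mulVec v ∈ P) :
    ∃ w ∈ W, w ∉ P ∧ X.mulVec w ∈ P ∧ Y.mulVec w ∈ P := by
  let W1 : Submodule ℝ V := W ⊓ P.comap X.mulVecLin
  obtain ⟨w, hw, hwP, hXw⟩ := nil_step X hX P W hne hWX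
  obtain ⟨w', hw', hwP', hYw'⟩ := nil_step Y hY P W1 ⟨w, ⟨hw, hXw⟩, hwP⟩ (by
    rintro v ⟨hv, hXv⟩
    refine ⟨hWY v hv, ?_⟩
    have hXv' : X.mulVec v ∈ P := hXv
    change X.mulVec (Y.mulVec v) ∈ P
    rw [Matrix.mulVec_mulVec, hXY, ← Matrix.mulVec_mulVec]
    exact hPY _ hXv')
  exact ⟨w', hw'.1, hwP', hw'.2, hYw'⟩

end DB
end C37
end

section

/-!
MP_c37615_al (S02984), part D-IIb (paper 6.4.4 - 6.4.6), file B_K2
-/

set_option autoImplicit false

open Filter Topology NormedSpace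

namespace C37
namespace DB

/-- common null kernel vector.
Proof: `nil_step2` with `W := range of X` (e.g. `LinearMap.range X.mulVecLin`; invariant under `Y` since `Y X u = X (Y u)`; it contains a nonzero vector because
`X ≠ 0`) and `P := ⊥`: there is `p = X u ≠ 0` with `X p = Y p = 0`. `B p p = B (X u) p = - B u (X p) = 0` by `Der X`. -/
theorem null_kernel (X Y : Mat) (hX : IsNilpotent X) (hY : IsNilpotent Y) (hXY : X * Y = Y * X)
    (dX : Der X) (hX0 : X ≠ 0) : ∃ p : V, p ≠ 0 ∧ B p p = 0 ∧ X.mulVec p = 0 ∧ Y.mulVec p = 0 := by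
  have hne : ∃ w ∈ LinearMap.range X.mulVecLin, w ∉ (⊥ : Submodule ℝ V) := by
    by_contra hcon
    push Not at hcon
    apply hX0
    apply Matrix.mulVec_injective
    funext v
    have h1 := hcon (X.mulVec v) ⟨v, rfl⟩
    rw [Submodule.mem_bot] at h1
    rw [h1, Matrix.zero_mulVec]
  obtain ⟨p, ⟨u, hu⟩, hp0, hXp, hYp⟩ := nil_step2 X Y hX hY hXY ⊥ (LinearMap.range X.mulVecLin) hne
    (by
      rintro v ⟨u, rfl⟩
      exact ⟨X.mulVec u, rfl⟩)
    (by
      rintro v ⟨u, rfl⟩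
      refine ⟨Y.mulVec u, ?_⟩
      change X.mulVec (Y.mulVec u) = Y.mulVec (X.mulVec u)
      rw [Matrix.mulVec_mulVec, hXY, ← Matrix.mulVec_mulVec])
    (by
      intro v hv
      rw [Submodule.mem_bot] at hv ⊢
      rw [hv, Matrix.mulVec_zero])
  rw [Submodule.mem_bot] at hp0 hXp hYp
  refine ⟨p, hp0, ?_, hXp, hYp⟩
  have hu' : X.mulVec u = p := hu
  have h1 := dX.1 u p
  rw [hu', hXp] at h1
  have h2 : B u 0 = 0 := by simp [B]
  rw [h2, add_zero] at h1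
  exact h1

end DB
end C37
end
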