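import Mathlib
import Pool.Agent.Lib.MP_c37615_al.Defs
import Pool.Agent.Lib.MP_c37615_al.D.Core
import Pool.Agent.Lib.MP_c37615_al.Mg.G033
import Pool.Agent.Lib.MP_c37615_al.Mg.G037

section

/-!
MP_c37615_al (S02984), part D-IIb (paper 6.4.4 - 6.4.6), file B_K3
-/

set_option autoImplicit false

open Filter Topology NormedSpace

namespace C37
namespace DB

/-- the kernel of `cross p` is larger than the line through `p`, for null `p ≠ 0`.
Proof. `J p := ![p 0, p 1, p 2, -p 3, -p 4, -p 5, -p 6]`, `B p (J p) = ∑ (p i)^2 > 0`. The three linear functionals `v ↦ B p v`,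
`v ↦ B (J p) v`, `v ↦ B (cross p (J p)) v` on the 7-dimensional space have a common zero `v ≠ 0` (kernel of a linear map
`V → Fin 3 → ℝ` is not trivial: `LinearMap.exists_ne_zero_of_finrank_lt` / `ker_ne_bot_of_finrank_lt`). `v` is not a multiple of `p` (`v = c p` gives `c * B p (J p) = 0`, `c = 0`,
`v = 0`). If `cross p v = 0` take `v`. Otherwise take `w := cross p v`: `cross p w = -(B p p) v + (B p v) p = 0`
(`cross_cross_self`); if `w = c p` then `c * B p (J p) = B (cross p v) (J p) = phi p v (J p) = - B (cross p (J p)) v = 0`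
(`B_cross`, antisymmetry of `phi`: `phi p v w = - phi p w v` by unfolding and `ring`), so `c = 0` and `w = 0`, contradiction. -/
theorem exists_cross_zero (p : V) (hp0 : p ≠ 0) (hp : B p p = 0) :
    ∃ v : V, cross p v = 0 ∧ ∀ c : ℝ, v ≠ c • p := by
  set q : V := ![p 0, p 1, p 2, -p 3, -p 4, -p 5, -p 6] with hq
  have hpq : 0 < B p q := by
    have h1 : B p q = p 0 ^ 2 + p 1 ^ 2 + p 2 ^ 2 + p 3 ^ 2 + p 4 ^ 2 + p 5 ^ 2 + p 6 ^ 2 := by
      simp [B, hq]
      ring
    rw [h1]
    obtain ⟨i, hi⟩ := Function.ne_iff.1 hp0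
    have hi' : p i ≠ 0 := hi
    fin_cases i <;> simp at hi' <;> positivity
  let T : V →ₗ[ℝ] (Fin 3 → ℝ) :=
    { toFun := fun v => ![B p v, B q v, B (cross p q) v]
      map_add' := by
        intro u v
        ext i
        fin_cases i <;> simp [B] <;> ring
      map_smul' := by
        intro c v
        ext i
        fin_cases i <;> simp [B] <;> ring }
  have hker : LinearMap.ker T ≠ ⊥ := by
    apply LinearMap.ker_ne_bot_of_finrank_lt
    simp
  obtain ⟨v, hv, hv0⟩ := (Submodule.ne_bot_iff _).1 hker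
  rw [LinearMap.mem_ker] at hv
  have h1 : B p v = 0 := congrFun hv 0
  have h2 : B q v = 0 := congrFun hv 1
  have h3 : B (cross p q) v = 0 := congrFun hv 2
  by_cases hcv : cross p v = 0
  · refine ⟨v, hcv, ?_⟩
    intro c hc
    apply hv0
    have h4 : B q v = c * B p q := by
      rw [hc]
      simp only [B, Pi.smul_apply, smul_eq_mul]
      ring
    rw [h2] at h4
    have hc0 : c = 0 := by
      rcases mul_eq_zero.1 h4.symm with h | h
      · exact h
      · exact absurd h hpq.ne'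
    rw [hc, hc0, zero_smul]
  · refine ⟨cross p v, ?_, ?_⟩
    · rw [cross_cross_self, hp, h1, neg_zero, zero_smul, zero_smul, add_zero]
    · intro c hc
      apply hcv
      have h4 : B (cross p v) q = -B (cross p q) v := by
        rw [B_cross, B_cross]
        simp only [phi, e3, det3]
        ring
      have h5 : B (cross p v) q = c * B p q := by
        rw [hc]
        simp only [B, Pi.smul_apply, smul_eq_mul]
        ring
      rw [h4, h3, neg_zero] at h5
      have hc0 : c = 0 := by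
        rcases mul_eq_zero.1 h5.symm with h | h
        · exact h
        · exact absurd h hpq.ne'
      rw [hc, hc0, zero_smul]

end DB
end C37
end

section

/-!
MP_c37615_al (S02984), part D-IIb (paper 6.4.4 - 6.4.6), file B_K4
-/

set_option autoImplicit false

open Filter Topology NormedSpace

namespace C37
namespace DB

theorem K4_cross_zero (p : V) : cross p 0 = 0 := by
  funext i
  fin_cases i <;> simp [cross]

theorem K4_zero_cross (p : V) : cross 0 p = 0 := by
  funext i
  fin_cases i <;> simp [cross]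

theorem K4_cross_add (p u v : V) : cross p (u + v) = cross p u + cross p v := by
  funext i
  rw [Pi.add_apply]
  fin_cases i <;> simp [cross] <;> ring

theorem K4_cross_smul (c : ℝ) (p v : V) : cross p (c • v) = c • cross p v := by
  funext i
  rw [Pi.smul_apply]
  fin_cases i <;> simp [cross] <;> ring

/-- invariant special flag.
Proof: `nil_step2` with `W := {v | cross p v = 0}` (submodule; `X` invariant: `0 = X (cross p v) = cross (X p) v + cross p (X v)
= cross p (X v)`, same for `Y`), `P := span {p}` (`Y` maps it to 0), vector outside `P` by `exists_cross_zero`. -/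
theorem exists_flag (X Y : Mat) (hX : IsNilpotent X) (hY : IsNilpotent Y) (hXY : X * Y = Y * X)
    (dX : Der X) (dY : Der Y) (p : V) (hp0 : p ≠ 0) (hp : B p p = 0) (hXp : X.mulVec p = 0)
    (hYp : Y.mulVec p = 0) :
    ∃ p' : V, cross p p' = 0 ∧ (∀ c : ℝ, p' ≠ c • p) ∧ (∃ x : ℝ, X.mulVec p' = x • p) ∧
      (∃ y : ℝ, Y.mulVec p' = y • p) := by
  let W : Submodule ℝ V :=
    { carrier := {v | cross p v = 0}
      zero_mem' := K4_cross_zero p
      add_mem' := by
        intro u v hu hv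
        change cross p (u + v) = 0
        rw [K4_cross_add, show cross p u = 0 from hu, show cross p v = 0 from hv, add_zero]
      smul_mem' := by
        intro c v hv
        change cross p (c • v) = 0
        rw [K4_cross_smul, show cross p v = 0 from hv, smul_zero] }
  have hinv : ∀ Z : Mat, Der Z → Z.mulVec p = 0 → ∀ v ∈ W, Z.mulVec v ∈ W := by
    intro Z dZ hZp v hv
    have hv' : cross p v = 0 := hv
    change cross p (Z.mulVec v) = 0
    have h1 := dZ.2 p v
    rw [hv', hZp, Matrix.mulVec_zero, K4_zero_cross, zero_add] at h1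
    exact h1.symm
  obtain ⟨v, hv, hvne⟩ := exists_cross_zero p hp0 hp
  obtain ⟨w, hw, hwP, hXw, hYw⟩ := nil_step2 X Y hX hY hXY (Submodule.span ℝ {p}) W
    ⟨v, hv, by
      intro hmem
      obtain ⟨c, hc⟩ := Submodule.mem_span_singleton.1 hmem
      exact hvne c hc.symm⟩
    (hinv X dX hXp) (hinv Y dY hYp)
    (by
      intro u hu
      obtain ⟨c, rfl⟩ := Submodule.mem_span_singleton.1 hu
      rw [Matrix.mulVec_smul, hYp, smul_zero]
      exact Submodule.zero_mem _)
  obtain ⟨x, hx⟩ := Submodule.mem_span_singleton.1 hXw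
  obtain ⟨y, hy⟩ := Submodule.mem_span_singleton.1 hYw
  refine ⟨w, hw, ?_, ⟨x, hx.symm⟩, ⟨y, hy.symm⟩⟩
  intro c hc
  exact hwP (Submodule.mem_span_singleton.2 ⟨c, hc.symm⟩)

end DB
end C37
end

section

/-!
MP_c37615_al (S02984), part D-IIb (paper 6.4.4 - 6.4.6), file B_K5
-/

set_option autoImplicit false

open Filter Topology NormedSpace

namespace C37
namespace DB

/-- Proof: `cross p' p = - cross p p' = 0` and `cross_cross_self p' p : cross p' (cross p' p) = -(B p' p') • p + (B p' p) • p'`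
give `(B p' p') • p = (B p' p) • p'`; `cross_cross_self p p'` gives `(B p p') • p = (B p p) • p' = 0`, so `B p p' = 0`,
hence `(B p' p') • p = 0` and `B p' p' = 0`. (`B` symmetric: unfold, `ring`.) -/
theorem flag_null (p p' : V) (hp0 : p ≠ 0) (hp : B p p = 0) (hc : cross p p' = 0) : B p' p' = 0 := by
  have hzero : ∀ u : V, cross u 0 = 0 := by
    intro u
    funext i
    fin_cases i <;> simp [cross]
  have hcomm : cross p' p = 0 := by
    have h1 : cross p' p = -cross p p' := by
      funext i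
      rw [Pi.neg_apply]
      fin_cases i <;> simp [cross] <;> ring
    rw [h1, hc, neg_zero]
  have hBs : B p' p = B p p' := by
    simp only [B]
    ring
  have h1 := cross_cross_self p' p
  rw [hcomm, hzero] at h1
  have h2 := cross_cross_self p p'
  rw [hc, hzero, hp, neg_zero, zero_smul, zero_add] at h2
  have h3 : B p p' = 0 := (smul_eq_zero.1 h2.symm).resolve_right hp0
  rw [hBs, h3, zero_smul, add_zero] at h1
  have h4 := (smul_eq_zero.1 h1.symm).resolve_right hp0
  exact neg_eq_zero.1 h4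

/-- Proof: `LinearIndependent.pair_iff`: `s • p + t • p' = 0`; `t ≠ 0` would give `p' = (-s/t) • p`; so `t = 0`, then `s = 0`. -/
theorem flag_li (p p' : V) (hp0 : p ≠ 0) (hne : ∀ c : ℝ, p' ≠ c • p) : LinearIndependent ℝ ![p, p'] := by
  rw [LinearIndependent.pair_iff]
  intro s t hst
  have ht : t = 0 := by
    by_contra ht
    apply hne (-s / t)
    have h1 : t • p' = (-s) • p := by
      rw [neg_smul, eq_neg_iff_add_eq_zero, add_comm]
      exact hst
    have h2 : p' = t⁻¹ • (t • p') := by rw [smul_smul, inv_mul_cancel₀ ht, one_smul]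
    rw [h2, h1, smul_smul, div_eq_inv_mul]
  rw [ht, zero_smul, add_zero] at hst
  exact ⟨(smul_eq_zero.1 hst).resolve_right hp0, ht⟩

end DB
end C37
end

section

/-!
MP_c37615_al (S02984), part D-IIb (paper 6.4.4 - 6.4.6), file B_J0
-/

set_option autoImplicit false

open Filter Topology NormedSpace

namespace C37
namespace DB

/-- exponential of a nilpotent matrix is a finite sum.
Proof: `NormedSpace.exp_eq_tsum` (some rational/real version), `tsum_eq_sum` since `N^i = 0` for `i ≥ k`. -/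
theorem exp_nilp {n : Type} [Fintype n] [DecidableEq n] (N : Matrix n n ℝ) (k : ℕ) (hN : N ^ k = 0) :
    exp N = ∑ i ∈ Finset.range k, ((i.factorial : ℝ)⁻¹) • N ^ i := by
  rw [exp_eq_tsum ℝ]
  refine tsum_eq_sum fun i hi => ?_
  have hi' : k ≤ i := by simpa using hi
  rw [pow_eq_zero_of_le hi' hN, smul_zero]

end DB
end C37
end

section

/-!
MP_c37615_al (S02984), part D-IIb (paper 6.4.4 - 6.4.6), file B_J1
-/

set_option autoImplicit false

open Filter Topology NormedSpace

namespace C37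
namespace DB

private theorem J1_aux {n : Type} [Fintype n] [DecidableEq n] (k : ℕ) :
    ∀ N : Matrix n n ℝ, N ^ k = 0 → ∃ X ∈ Algebra.adjoin ℝ {N}, IsNilpotent X ∧ exp X = 1 + N := by
  induction k with
  | zero =>
    intro N hN
    rw [pow_zero] at hN
    refine ⟨0, zero_mem _, IsNilpotent.zero, ?_⟩
    have h : ∀ M : Matrix n n ℝ, M = 0 := fun M => by rw [← mul_one M, hN, mul_zero]
    rw [h (exp 0), h (1 + N)]
  | succ k ih =>
    intro N hN
    by_cases hk : k = 0
    · subst hk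
      rw [zero_add, pow_one] at hN
      refine ⟨0, zero_mem _, IsNilpotent.zero, ?_⟩
      rw [hN, NormedSpace.exp_zero, add_zero]
    obtain ⟨m, rfl⟩ := Nat.exists_eq_succ_of_ne_zero hk
    have hNN : N ∈ Algebra.adjoin ℝ {N} := Algebra.self_mem_adjoin_singleton ℝ N
    -- exp (-N)
    have hneg : (-N) ^ (m + 2) = 0 := by
      rw [neg_pow, show m + 2 = m.succ + 1 from rfl, hN, mul_zero]
    obtain ⟨P, hP, hexp⟩ : ∃ P ∈ Algebra.adjoin ℝ {N}, exp (-N) = 1 - N + N ^ 2 * P := by
      refine ⟨∑ i ∈ Finset.range m, (((i + 2).factorial : ℝ)⁻¹) • (-N) ^ i, ?_, ?_⟩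
      · exact sum_mem fun i _ => Subalgebra.smul_mem _ (pow_mem (neg_mem hNN) i) _
      · rw [exp_nilp (-N) (m + 2) hneg, Finset.sum_range_succ', Finset.sum_range_succ',
          Finset.mul_sum]
        have h1 : ∀ i ∈ Finset.range m, (((i + 1 + 1).factorial : ℝ)⁻¹) • (-N) ^ (i + 1 + 1)
            = N ^ 2 * ((((i + 2).factorial : ℝ)⁻¹) • (-N) ^ i) := by
          intro i _
          rw [Matrix.mul_smul, show i + 1 + 1 = i + 2 from rfl]
          congr 1
          rw [add_comm, pow_add, neg_sq]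
        rw [Finset.sum_congr rfl h1]
        simp
        abel
    have hcomm : ∀ Y ∈ Algebra.adjoin ℝ {N}, Commute N Y := fun Y hY =>
      Algebra.commute_of_mem_adjoin_self hY
    let Q : Matrix n n ℝ := -1 + (1 + N) * P
    have hQ : Q ∈ Algebra.adjoin ℝ {N} :=
      add_mem (neg_mem (one_mem _)) (mul_mem (add_mem (one_mem _) hNN) hP)
    have hprod : (1 + N) * exp (-N) = 1 + N ^ 2 * Q := by
      rw [hexp]
      have hc := hcomm P hP
      simp only [Q]
      have e1 : N * (N ^ 2 * P) = N ^ 2 * (N * P) := by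
        rw [← mul_assoc, ← mul_assoc, ← pow_succ, ← pow_succ']
      rw [add_mul, one_mul, mul_add, mul_sub, mul_one, e1, mul_add, mul_neg, mul_one, add_mul,
        one_mul, mul_add, pow_two]
      abel
    have hN' : (N ^ 2 * Q) ^ (m + 1) = 0 := by
      rw [((hcomm Q hQ).pow_left 2).mul_pow, ← pow_mul]
      rw [pow_eq_zero_of_le (by omega : m.succ + 1 ≤ 2 * (m + 1)) hN, zero_mul]
    obtain ⟨X', hX', hnil', hexp'⟩ := ih (N ^ 2 * Q) hN'
    have hX'N : X' ∈ Algebra.adjoin ℝ {N} := by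
      have hle : Algebra.adjoin ℝ {N ^ 2 * Q} ≤ Algebra.adjoin ℝ {N} :=
        Algebra.adjoin_le (by
          intro y hy
          rw [Set.mem_singleton_iff] at hy
          rw [hy]
          exact mul_mem (pow_mem hNN 2) hQ)
      exact hle hX'
    have hcX : Commute N X' := hcomm X' hX'N
    refine ⟨N + X', add_mem hNN hX'N, ?_, ?_⟩
    · exact hcX.isNilpotent_add ⟨_, hN⟩ hnil'
    · rw [Matrix.exp_add_of_commute N X' hcX, hexp', ← hprod]
      have hc1 : Commute (exp N) (1 + N) := by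
        have : Commute N (exp N) := (Commute.refl N).exp_right
        exact ((Commute.one_right _).add_right this.symm)
      rw [← mul_assoc, hc1.eq, mul_assoc, ← Matrix.exp_add_of_commute N (-N) (Commute.neg_right (Commute.refl N)),
        add_neg_cancel, NormedSpace.exp_zero, mul_one]

/-- logarithm of a unipotent matrix.
Proof: strong induction on `k` of: for all `N` with `N^k = 0` there is `X ∈ adjoin {N}`, nilpotent, `exp X = 1 + N`.
`k ≤ 1`: `N = 0` (for `k = 0` we have `1 = 0`, every matrix is 0), `X = 0`. `k ≥ 2`: by `exp_nilp` (`(-N)^k=0`)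
`exp (-N) = 1 - N + N^2 * P` with `P ∈ adjoin {N}`; so `(1+N) * exp (-N) = 1 + N'`, `N' = N^2 * Q`, `Q ∈ adjoin {N}` (commutative),
`N'^(k-1) = N^(2(k-1)) Q^(k-1) = 0`. Induction hypothesis: `X' ∈ adjoin {N'} ≤ adjoin {N}`, `exp X' = 1 + N'`. `X := N + X'`:
`exp X = exp N * exp X'` (`Matrix.exp_add_of_commute`) `= exp N * (1+N) * exp (-N) = 1 + N`. `X` is nilpotent (sum of commuting nilpotents,
`Commute.isNilpotent_add`). -/
theorem exists_log {n : Type} [Fintype n] [DecidableEq n] (N : Matrix n n ℝ) (hN : IsNilpotent N) :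
    ∃ X ∈ Algebra.adjoin ℝ {N}, IsNilpotent X ∧ exp X = 1 + N := by
  obtain ⟨k, hk⟩ := hN
  exact J1_aux k N hk

end DB
end C37
end

section

/-!
MP_c37615_al (S02984), part D-IIb (paper 6.4.4 - 6.4.6), file B_J2
-/

set_option autoImplicit false

open Filter Topology NormedSpace

namespace C37
namespace DB

/-- Jordan-Chevalley for real matrices.
Proof: `Module.End.exists_isNilpotent_isSemisimple` for `f := Matrix.toLin' T` (or via the algebra equivalence
`Matrix.toLinAlgEquiv'`, transporting `adjoin`); `p := minpoly ℝ s`: squarefree (`Module.End.IsSemisimple.minpoly_squarefree`), hence separable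
(`PerfectField.separable_iff_squarefree`); transport back to matrices. -/
theorem jc_matrix {n : Type} [Fintype n] [DecidableEq n] (T : Matrix n n ℝ) :
    ∃ S N : Matrix n n ℝ, S ∈ Algebra.adjoin ℝ {T} ∧ N ∈ Algebra.adjoin ℝ {T} ∧ IsNilpotent N ∧ T = S + N ∧
      ∃ p : Polynomial ℝ, p.Separable ∧ Polynomial.aeval S p = 0 := by
  let e : Matrix n n ℝ ≃ₐ[ℝ] Module.End ℝ (n → ℝ) := Matrix.toLinAlgEquiv'
  obtain ⟨N, hN, S, hS, nN, sS, hf⟩ := Module.End.exists_isNilpotent_isSemisimple (K := ℝ) (f := e T)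
  have key : ∀ x ∈ Algebra.adjoin ℝ {e T}, e.symm x ∈ Algebra.adjoin ℝ {T} := by
    intro x hx
    have h1 : e.symm x ∈ (Algebra.adjoin ℝ {e T}).map (e.symm : Module.End ℝ (n → ℝ) →ₐ[ℝ] Matrix n n ℝ) :=
      ⟨x, hx, rfl⟩
    rw [AlgHom.map_adjoin] at h1
    simpa using h1
  refine ⟨e.symm S, e.symm N, key S hS, key N hN, ?_, ?_, minpoly ℝ S, ?_, ?_⟩
  · exact nN.map e.symm
  · rw [← map_add, add_comm, ← hf, AlgEquiv.symm_apply_apply]
  · exact PerfectField.separable_iff_squarefree.mpr sS.minpoly_squarefree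
  · have h1 := Polynomial.aeval_algHom_apply (e.symm : Module.End ℝ (n → ℝ) →ₐ[ℝ] Matrix n n ℝ) S (minpoly ℝ S)
    rw [minpoly.aeval, map_zero] at h1
    exact h1

end DB
end C37
end

section

/-!
MP_c37615_al (S02984), part D-IIb (paper 6.4.4 - 6.4.6), file B_H4
-/

set_option autoImplicit false

open Filter Topology NormedSpace

namespace C37
namespace DB

theorem B_H4_pow (Z : Mat) (a : V) (k : ℕ) : (hat0 Z a) ^ (k + 1) = hat0 (Z ^ (k + 1)) ((Z ^ k).mulVec a) := by
  induction k with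
  | zero => simp
  | succ k ih =>
    rw [pow_succ' (hat0 Z a), ih, hat0_mul, ← pow_succ', Matrix.mulVec_mulVec, ← pow_succ']

theorem B_H4_lb_smul (c : ℝ) (M : HMat) : lb (c • M) = c • lb M := rfl
theorem B_H4_lb_add (M N : HMat) : lb (M + N) = lb M + lb N := rfl
theorem B_H4_lb_one : lb (1 : HMat) = 1 := by
  rw [← hat_one, lb_hat]

theorem B_H4_lb_sum (s : Finset ℕ) (f : ℕ → HMat) : lb (∑ i ∈ s, f i) = ∑ i ∈ s, lb (f i) := by
  classical
  induction s using Finset.induction_on with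
  | empty => simp; rfl
  | insert i s hi ih => rw [Finset.sum_insert hi, Finset.sum_insert hi, B_H4_lb_add, ih]

theorem B_H4_lb_pow (Z : Mat) (a : V) (k : ℕ) : lb ((hat0 Z a) ^ k) = Z ^ k := by
  cases k with
  | zero => rw [pow_zero, pow_zero, B_H4_lb_one]
  | succ k => rw [B_H4_pow, lb_hat0]

theorem B_H4_row_pow (Z : Mat) (a : V) (k : ℕ) : Matrix.vecMul eRow ((hat0 Z a) ^ (k + 1)) = 0 := by
  rw [B_H4_pow, row_hat0]

/-- Proof: `(hat0 Z a)^(k+1) = hat0 (Z^(k+1)) (Z^k a)` by induction. For `Z*Z*Z = 0`: `(hat0 Z a)^4 = 0`, so by `exp_nilp` (k = 4)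
`exp (t • hat0 Z a) = 1 + t • hat0 Z a + (t²/2) • hat0 (Z Z) (Z a) + (t³/6) • hat0 0 (Z Z a) = hat (expZ Z t) (trZ Z a t)`. -/
theorem exp_hat0 (Z : Mat) (a : V) (h3 : Z * Z * Z = 0) (t : ℝ) :
    exp (t • hat0 Z a) = hat (expZ Z t) (trZ Z a t) := by
  have hZ3 : Z ^ 3 = 0 := by rw [← h3]; noncomm_ring
  have h4 : (t • hat0 Z a) ^ 4 = 0 := by
    rw [smul_pow, B_H4_pow Z a 3, hZ3]
    have : Z ^ (3 + 1) = 0 := by rw [pow_succ, hZ3, zero_mul]
    rw [this, Matrix.zero_mulVec]
    have h0 : hat0 0 0 = 0 := by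
      have := hat0_smul 0 0 0
      simpa using this.symm
    rw [h0, smul_zero]
  rw [exp_nilp _ 4 h4]
  have e1 : (t • hat0 Z a) ^ 1 = hat0 (t • Z) (t • a) := by rw [pow_one, hat0_smul]
  have e2 : (t • hat0 Z a) ^ 2 = hat0 (t ^ 2 • (Z * Z)) (t ^ 2 • Z.mulVec a) := by
    rw [smul_pow, B_H4_pow Z a 1, hat0_smul, pow_one, ← pow_two]
  have e3 : (t • hat0 Z a) ^ 3 = hat0 0 (t ^ 3 • (Z * Z).mulVec a) := by
    rw [smul_pow, B_H4_pow Z a 2, hat0_smul, ← pow_two]
    have : Z ^ (2 + 1) = 0 := hZ3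
    rw [this, smul_zero]
  have hfac3 : ((Nat.factorial 3 : ℕ) : ℝ) = 6 := by norm_num [Nat.factorial]
  have hfac2 : ((Nat.factorial 2 : ℕ) : ℝ) = 2 := by norm_num [Nat.factorial]
  rw [Finset.sum_range_succ, Finset.sum_range_succ, Finset.sum_range_succ, Finset.sum_range_succ,
    Finset.sum_range_zero, e1, e2, e3, hfac3, hfac2, pow_zero]
  rw [← hat_one]
  ext i j
  rcases i with i | i <;> rcases j with j | j
  · simp [hat, hat0, expZ, Matrix.one_apply]
    ring
  · simp [hat, hat0, trZ]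
    ring
  · simp [hat, hat0]
  · simp [hat, hat0]

/-- the linear part of the exponential. Proof for nilpotent `Z`: `(hat0 Z a)^(k+1) = hat0 (Z^(k+1)) (Z^k a)`, `exp_nilp` for both (if `Z^k = 0` then `(hat0 Z a)^(k+1) = 0`),
`lb` is linear, `lb 1 = 1`. -/
theorem lb_exp_hat0 (Z : Mat) (a : V) (hZ : IsNilpotent Z) : lb (exp (hat0 Z a)) = exp Z := by
  obtain ⟨k, hk⟩ := hZ
  have hk1 : Z ^ (k + 1) = 0 := by rw [pow_succ, hk, zero_mul]
  have hk2 : (hat0 Z a) ^ (k + 1) = 0 := by
    rw [B_H4_pow, hk1, hk, Matrix.zero_mulVec]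
    have := hat0_smul 0 0 0
    simpa using this.symm
  rw [exp_nilp _ _ hk2, exp_nilp _ _ hk1, B_H4_lb_sum]
  refine Finset.sum_congr rfl fun i _ => ?_
  rw [B_H4_lb_smul, B_H4_lb_pow]
theorem row_exp_hat0 (Z : Mat) (a : V) (hZ : IsNilpotent Z) : Matrix.vecMul eRow (exp (hat0 Z a)) = eRow := by
  obtain ⟨k, hk⟩ := hZ
  have hk1 : Z ^ (k + 1) = 0 := by rw [pow_succ, hk, zero_mul]
  have hk2 : (hat0 Z a) ^ (k + 1) = 0 := by
    rw [B_H4_pow, hk1, hk, Matrix.zero_mulVec]
    have := hat0_smul 0 0 0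
    simpa using this.symm
  rw [exp_nilp _ _ hk2, Finset.sum_range_succ', Matrix.vecMul_add]
  have h0 : Matrix.vecMul eRow (∑ i ∈ Finset.range k, (((i + 1).factorial : ℝ)⁻¹) • (hat0 Z a) ^ (i + 1)) = 0 := by
    have hgen : ∀ s : Finset ℕ,
        Matrix.vecMul eRow (∑ i ∈ s, (((i + 1).factorial : ℝ)⁻¹) • (hat0 Z a) ^ (i + 1)) = 0 := by
      intro s
      classical
      induction s using Finset.induction_on with
      | empty => simp
      | insert i s hi ih =>
        rw [Finset.sum_insert hi, Matrix.vecMul_add, ih, Matrix.vecMul_smul, B_H4_row_pow, smul_zero, add_zero]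
    exact hgen _
  rw [h0, zero_add]
  simp
theorem nilp_hat0 (Z : Mat) (a : V) (hZ : IsNilpotent Z) : IsNilpotent (hat0 Z a) := by
  obtain ⟨k, hk⟩ := hZ
  have hk1 : Z ^ (k + 1) = 0 := by rw [pow_succ, hk, zero_mul]
  refine ⟨k + 1, ?_⟩
  rw [B_H4_pow, hk1, hk, Matrix.zero_mulVec]
  have := hat0_smul 0 0 0
  simpa using this.symm
theorem nilp_lb (X : HMat) (hr : Matrix.vecMul eRow X = 0) (hX : IsNilpotent X) : IsNilpotent (lb X) := by
  obtain ⟨k, hk⟩ := hX
  refine ⟨k, ?_⟩
  have h1 := B_H4_lb_pow (lb X) (tb X) k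
  rw [← eq_hat0 X hr, hk] at h1
  rw [← h1]
  rfl

end DB
end C37
end

section

/-!
MP_c37615_al (S02984), part D-IIb (paper 6.4.4 - 6.4.6), file B_P6
-/

set_option autoImplicit false

open Filter Topology NormedSpace

namespace C37
namespace DB

/-- coordinates of `exp (x • Z) u` as polynomials in `x` -/
private noncomputable def P6_pe (Z : Mat) (k : ℕ) (u : V) (i : Fin 7) : Polynomial ℝ :=
  ∑ j ∈ Finset.range k, Polynomial.C (((j.factorial : ℝ)⁻¹) * ((Z ^ j).mulVec u i)) * Polynomial.X ^ j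

private theorem P6_eval (Z : Mat) (k : ℕ) (hk : Z ^ k = 0) (u : V) (x : ℝ) (i : Fin 7) :
    (P6_pe Z k u i).eval x = (exp (x • Z)).mulVec u i := by
  have h1 : (x • Z) ^ k = 0 := by rw [smul_pow, hk, smul_zero]
  rw [exp_nilp (x • Z) k h1, Matrix.sum_mulVec, Finset.sum_apply, P6_pe, Polynomial.eval_finsetSum]
  refine Finset.sum_congr rfl fun j _ => ?_
  rw [Polynomial.eval_mul, Polynomial.eval_C, Polynomial.eval_pow, Polynomial.eval_X, smul_pow,
    Matrix.smul_mulVec, Matrix.smul_mulVec, Pi.smul_apply, Pi.smul_apply, smul_eq_mul, smul_eq_mul]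
  ring

private theorem P6_pow (g : Mat) (hg : InG g) (m : ℕ) : InG (g ^ m) := by
  induction m with
  | zero => intro u v w; simp
  | succ m ih =>
    intro u v w
    rw [pow_succ, ← Matrix.mulVec_mulVec, ← Matrix.mulVec_mulVec, ← Matrix.mulVec_mulVec, ih, hg]

/-- the three-form on polynomial vectors -/
private noncomputable def P6_d3 (a b c d e f g h i : Polynomial ℝ) : Polynomial ℝ :=
  a * (e * i - f * h) - b * (d * i - f * g) + c * (d * h - e * g)

private noncomputable def P6_e3 (i j k : Fin 7) (u v w : Fin 7 → Polynomial ℝ) : Polynomial ℝ :=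
  P6_d3 (u i) (u j) (u k) (v i) (v j) (v k) (w i) (w j) (w k)

private noncomputable def P6_phi (u v w : Fin 7 → Polynomial ℝ) : Polynomial ℝ :=
  P6_e3 0 1 2 u v w - P6_e3 0 3 4 u v w - P6_e3 0 5 6 u v w
    - P6_e3 1 3 5 u v w + P6_e3 1 4 6 u v w + P6_e3 2 3 6 u v w + P6_e3 2 4 5 u v w

private theorem P6_phi_eval (u v w : Fin 7 → Polynomial ℝ) (x : ℝ) :
    (P6_phi u v w).eval x = phi (fun i => (u i).eval x) (fun i => (v i).eval x) (fun i => (w i).eval x) := by
  simp only [P6_phi, P6_e3, P6_d3, phi, e3, det3, Polynomial.eval_add, Polynomial.eval_sub, Polynomial.eval_mul]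

private theorem P6_prod (a b c K : ℝ) (hK : 0 ≤ K) (ha : |a| ≤ K) (hb : |b| ≤ K) (hc : |c| ≤ K) :
    |a * b * c| ≤ K ^ 3 := by
  rw [abs_mul, abs_mul]
  calc |a| * |b| * |c| ≤ K * K * K := by gcongr
    _ = K ^ 3 := by ring

private theorem P6_det (a b c d e f g h i K : ℝ) (hK : 0 ≤ K) (ha : |a| ≤ K) (hb : |b| ≤ K) (hc : |c| ≤ K)
    (hd : |d| ≤ K) (he : |e| ≤ K) (hf : |f| ≤ K) (hg : |g| ≤ K) (hh : |h| ≤ K) (hi : |i| ≤ K) :
    |det3 a b c d e f g h i| ≤ 6 * K ^ 3 := by
  have t1 := abs_le.1 (P6_prod a e i K hK ha he hi)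
  have t2 := abs_le.1 (P6_prod a f h K hK ha hf hh)
  have t3 := abs_le.1 (P6_prod b d i K hK hb hd hi)
  have t4 := abs_le.1 (P6_prod b f g K hK hb hf hg)
  have t5 := abs_le.1 (P6_prod c d h K hK hc hd hh)
  have t6 := abs_le.1 (P6_prod c e g K hK hc he hg)
  have hdet : det3 a b c d e f g h i = a * e * i - a * f * h - b * d * i + b * f * g + c * d * h - c * e * g := by
    unfold det3; ring
  rw [hdet, abs_le]
  constructor <;> linarith [t1.1, t1.2, t2.1, t2.2, t3.1, t3.2, t4.1, t4.2, t5.1, t5.2, t6.1, t6.2]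

private theorem P6_bound (u v w : V) (K : ℝ) (hK : 0 ≤ K) (hu : ∀ i, |u i| ≤ K) (hv : ∀ i, |v i| ≤ K)
    (hw : ∀ i, |w i| ≤ K) : |phi u v w| ≤ 42 * K ^ 3 := by
  have t : ∀ i j k : Fin 7, |e3 i j k u v w| ≤ 6 * K ^ 3 := fun i j k =>
    P6_det _ _ _ _ _ _ _ _ _ K hK (hu i) (hu j) (hu k) (hv i) (hv j) (hv k) (hw i) (hw j) (hw k)
  have t1 := abs_le.1 (t 0 1 2)
  have t2 := abs_le.1 (t 0 3 4)
  have t3 := abs_le.1 (t 0 5 6)
  have t4 := abs_le.1 (t 1 3 5)
  have t5 := abs_le.1 (t 1 4 6)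
  have t6 := abs_le.1 (t 2 3 6)
  have t7 := abs_le.1 (t 2 4 5)
  unfold phi
  rw [abs_le]
  constructor <;> linarith [t1.1, t1.2, t2.1, t2.2, t3.1, t3.2, t4.1, t4.2, t5.1, t5.2, t6.1, t6.2, t7.1, t7.2]

/-- one-parameter groups in G from one element (no recurrence needed).
Proof. `g := S * exp Z ∈ G`, so `g^m ∈ G` for `m : ℕ`, and `g^m = exp (m • Z) * S^m` (`exp Z` commutes with `S`; `Matrix.exp_nsmul`). Substitute
`u' := (S⁻¹)^m u` etc. into `phi (g^m u') (g^m v') (g^m w') = phi u' v' w'`: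
`phi (exp(mZ) u) (exp(mZ) v) (exp(mZ) w) = phi (S^(-m) u) (S^(-m) v) (S^(-m) w)` for all `m : ℕ`, bounded in `m` because `S` is `BddZ`.
The left side is `P.eval (m : ℝ)` for a real polynomial `P` (`exp_nilp`: the coordinates of `exp (x • Z) u` are polynomials in `x`, and
`phi` is a polynomial in the coordinates), with `P.eval x = phi (exp (x•Z) u) (exp (x•Z) v) (exp (x•Z) w)` for all real `x`. A real polynomial which is bounded along the naturals is constant
(degree > 0 implies `|P.eval x| → ∞`: `Polynomial.abs_tendsto_atTop`, compose with `tendsto_natCast_atTop_atTop`). So `P.eval x = P.eval 0 = phi u v w`. -/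
theorem inG_exp_of_jordan (S Z : Mat) (hS : BddZ S) (hZ : IsNilpotent Z) (hc : Commute S Z)
    (hg : InG (S * exp Z)) : ∀ x : ℝ, InG (exp (x • Z)) := by
  obtain ⟨k, hk⟩ := hZ
  obtain ⟨hSu, C, hC⟩ := hS
  have hSZ : Commute S (exp Z) := by
    have h1 : exp Z = ∑ i ∈ Finset.range k, ((i.factorial : ℝ)⁻¹) • Z ^ i := exp_nilp Z k hk
    rw [h1]
    exact Commute.sum_right _ _ _ fun i _ => (hc.pow_right i).smul_right _
  have hpow : ∀ m : ℕ, (S * exp Z) ^ m = exp ((m : ℝ) • Z) * S ^ m := by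
    intro m
    rw [hSZ.mul_pow]
    have h1 : exp ((m : ℝ) • Z) = exp Z ^ m := by
      rw [← Matrix.exp_nsmul, Nat.cast_smul_eq_nsmul]
    rw [h1]
    exact (hSZ.pow_pow m m).eq
  have hInG : ∀ m : ℕ, InG ((S * exp Z) ^ m) := P6_pow _ hg
  intro x u v w
  -- the polynomial
  have hP : ∀ y : ℝ, (P6_phi (P6_pe Z k u) (P6_pe Z k v) (P6_pe Z k w)).eval y =
      phi ((exp (y • Z)).mulVec u) ((exp (y • Z)).mulVec v) ((exp (y • Z)).mulVec w) := by
    intro y
    rw [P6_phi_eval]
    congr 1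
    · funext i; exact P6_eval Z k hk u y i
    · funext i; exact P6_eval Z k hk v y i
    · funext i; exact P6_eval Z k hk w y i
  set P := P6_phi (P6_pe Z k u) (P6_pe Z k v) (P6_pe Z k w) with hPd
  -- boundedness along the naturals
  have hbd : ∃ K : ℝ, ∀ m : ℕ, |P.eval (m : ℝ)| ≤ K := by
    have hvec : ∀ (t : V), ∃ K : ℝ, 0 ≤ K ∧ ∀ (m : ℕ) (i : Fin 7), |(S ^ (-(m : ℤ))).mulVec t i| ≤ K := by
      intro t
      refine ⟨∑ j, |C| * |t j|, Finset.sum_nonneg fun j _ => by positivity, ?_⟩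
      intro m i
      unfold Matrix.mulVec dotProduct
      refine (Finset.abs_sum_le_sum_abs _ _).trans (Finset.sum_le_sum fun j _ => ?_)
      rw [abs_mul]
      exact mul_le_mul_of_nonneg_right ((hC _ i j).trans (le_abs_self C)) (abs_nonneg _)
    obtain ⟨K1, hK1, h1⟩ := hvec u
    obtain ⟨K2, hK2, h2⟩ := hvec v
    obtain ⟨K3, hK3, h3⟩ := hvec w
    refine ⟨42 * (max K1 (max K2 K3)) ^ 3, ?_⟩
    intro m
    rw [hP]
    have hinv : S ^ m * S ^ (-(m : ℤ)) = 1 := by
      rw [← zpow_natCast, ← Matrix.zpow_add hSu, add_neg_cancel, zpow_zero]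
    have hback : ∀ t : V, ((S * exp Z) ^ m).mulVec ((S ^ (-(m : ℤ))).mulVec t) = (exp ((m : ℝ) • Z)).mulVec t := by
      intro t
      rw [Matrix.mulVec_mulVec, hpow, mul_assoc, hinv, mul_one]
    rw [← hback u, ← hback v, ← hback w, hInG m]
    have hM0 : 0 ≤ max K1 (max K2 K3) := le_max_of_le_left hK1
    exact P6_bound _ _ _ _ hM0
      (fun i => (h1 m i).trans (le_max_left _ _))
      (fun i => (h2 m i).trans ((le_max_left _ _).trans (le_max_right _ _)))
      (fun i => (h3 m i).trans ((le_max_right _ _).trans (le_max_right _ _)))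
  obtain ⟨K, hK⟩ := hbd
  have hdeg : P.degree ≤ 0 := by
    by_contra hcon
    push Not at hcon
    have h1 := (Polynomial.abs_tendsto_atTop P hcon).comp tendsto_natCast_atTop_atTop
    obtain ⟨m, hm⟩ := (tendsto_atTop.1 h1 (K + 1)).exists
    have := hK m
    simp only [Function.comp] at hm
    linarith
  have hconst : ∀ y : ℝ, P.eval y = P.eval 0 := by
    intro y
    rw [Polynomial.eq_C_of_degree_le_zero hdeg, Polynomial.eval_C, Polynomial.eval_C]
  rw [← hP x, hconst x, hP 0]
  simp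

end DB
end C37
end
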