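import Mathlib
import Pool.Agent.Lib.MP_c37615_al.Mg.G018
import Pool.Agent.Lib.MP_c37615_al.Mg.G017
import Pool.Agent.Lib.MP_c37615_al.R.InvC
import Pool.Agent.Lib.MP_c37615_al.R.RDefs
import Pool.Agent.Lib.MP_c37615_al.R.InvB
import Pool.Agent.Lib.MP_c37615_al.Mg.G020
import Pool.Agent.Lib.MP_c37615_al.Defs2
import Pool.Agent.Lib.MP_c37615_al.R.TorsB
import Pool.Agent.Lib.MP_c37615_al.Defs
import Pool.Agent.Lib.MP_c37615_al.D.Core
import Pool.Agent.Lib.MP_c37615_al.D.T01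
import Pool.Agent.Lib.MP_c37615_al.Mg.G025
import Pool.Agent.Lib.MP_c37615_al.D.T03
import Pool.Agent.Lib.MP_c37615_al.Mg.G033
import Pool.Agent.Lib.MP_c37615_al.Mg.G038

section

/-!
MP_c37615_al (S02984), part R, file InjE. See /team-store/MP_c37615_PAPER.md, section 2.
-/

set_option autoImplicit false

open Filter Topology

namespace C37.PR

/-- The linear part is injective on Γ. -/
theorem lin_injective (Γ : Subgroup (V ≃ᵃ[ℝ] V)) (h : Cryst Γ) : ∀ γ ∈ Γ, lin γ = 1 → γ = 1 := by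
  intro γ hγ hl
  have hinv : ∀ δ ∈ Γ, ∀ w ∈ Submodule.span ℝ (TV Γ), (lin δ).mulVec w ∈ Submodule.span ℝ (TV Γ) := by
    intro δ hδ w hw
    induction hw using Submodule.span_induction with
    | mem x hx => exact Submodule.subset_span (TV_inv Γ δ hδ x hx)
    | zero => rw [Matrix.mulVec_zero]; exact Submodule.zero_mem _
    | add x y _ _ hx hy => rw [Matrix.mulVec_add]; exact Submodule.add_mem _ hx hy
    | smul c x _ hx => rw [Matrix.mulVec_smul]; exact Submodule.smul_mem _ c hx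
  rcases GX_irreducible (Submodule.span ℝ (TV Γ)) (fun g hg w hw => subspace_inv Γ h _ hinv g hg w hw) with h1 | h1
  · have h2 : γ 0 ∈ Submodule.span ℝ (TV Γ) := Submodule.subset_span ⟨γ, hγ, hl, rfl⟩
    rw [h1, Submodule.mem_bot] at h2
    exact aff_ext γ 1 (hl.trans lin_one.symm) h2
  · exact absurd (finite_lin_of_span Γ h h1) (lin_infinite Γ h)

end C37.PR
end

section

/-!
MP_c37615_al (S02984), part R, file InvA. See /team-store/MP_c37615_PAPER.md, section 2.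
-/

set_option autoImplicit false

open Filter Topology

namespace C37.PR

/-- `B u v = u ⬝ J0 v`. Expand (`simp [B, J0, dotProduct, Matrix.mulVec_diagonal, Fin.sum_univ_succ]; ring`). -/
theorem B_eq_J0 (u v : V) : B u v = u ⬝ᵥ (J0.mulVec v) := by
  unfold B J0
  simp only [dotProduct, Matrix.mulVec_diagonal, Fin.sum_univ_succ, Fin.sum_univ_zero]
  simp
  ring

/-- `J0 * J0 = 1`. -/
theorem J0_mul_J0 : J0 * J0 = 1 := by
  unfold J0
  rw [Matrix.diagonal_mul_diagonal, ← Matrix.diagonal_one]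
  congr 1
  funext i
  fin_cases i <;> simp

/-- A scalar matrix in G is the identity: `phi (c u) (c v) (c w) = c^3 phi u v w` and `phi e0 e1 e2 = 1`
(`e_i = Pi.single i 1`), so `c^3 = 1`, `c = 1`. -/
theorem scalar_inG (c : ℝ) (h : InG (c • (1 : Mat))) : c = 1 := by
  have h1 := h (Pi.single 0 1) (Pi.single 1 1) (Pi.single 2 1)
  simp only [Matrix.smul_mulVec, Matrix.one_mulVec] at h1
  have h2 : phi (c • (Pi.single 0 1 : V)) (c • (Pi.single 1 1 : V)) (c • (Pi.single 2 1 : V)) =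
      c ^ 3 := by
    simp [phi, e3, det3]
    ring
  have h3 : phi (Pi.single 0 1 : V) (Pi.single 1 1 : V) (Pi.single 2 1 : V) = 1 := by
    simp [phi, e3, det3]
  rw [h2, h3] at h1
  have h4 : (c - 1) * (c ^ 2 + c + 1) = 0 := by ring_nf; linarith
  rcases mul_eq_zero.1 h4 with h5 | h5
  · linarith
  · nlinarith [sq_nonneg (c + 1 / 2)]

/-- Inverse of an element of G: from `GX_B` (`B (g u) (g v) = B u v`) we get `gᵀ J0 g = J0`
(test on basis vectors, or `Matrix.dotProduct_mulVec`), so `(J0 gᵀ J0) g = J0 J0 = 1`, and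
`g * (J0 gᵀ J0) = 1` by `Matrix.mul_eq_one_comm`; then `Matrix.inv_eq_left_inv`. -/
theorem InvAAux.left (g : Mat) (hg : InG g) : J0 * g.transpose * J0 * g = 1 := by
  have h1 : g.transpose * J0 * g = J0 := by
    ext i j
    have h2 := (GX_B g hg (Pi.single i 1) (Pi.single j 1)).1
    rw [B_eq_J0, B_eq_J0] at h2
    rw [Matrix.mulVec_mulVec, ← Matrix.vecMul_transpose, ← Matrix.dotProduct_mulVec,
      Matrix.mulVec_mulVec, ← Matrix.mul_assoc] at h2
    simpa using h2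
  rw [Matrix.mul_assoc, Matrix.mul_assoc, ← Matrix.mul_assoc g.transpose, h1, J0_mul_J0]

theorem inG_inv (g : Mat) (hg : InG g) : g⁻¹ = J0 * g.transpose * J0 :=
  Matrix.inv_eq_left_inv (InvAAux.left g hg)

/-- `g * g⁻¹ = 1` and `g⁻¹ * g = 1` for `g` in G (`det g = 1` by `GX_B`). -/
theorem inG_mul_inv (g : Mat) (hg : InG g) : g * g⁻¹ = 1 ∧ g⁻¹ * g = 1 := by
  rw [inG_inv g hg]
  exact ⟨mul_eq_one_comm.1 (InvAAux.left g hg), InvAAux.left g hg⟩

end C37.PR
end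

section

/-!
MP_c37615_al (S02984), part R, file InvD. See /team-store/MP_c37615_PAPER.md, section 2.
-/

set_option autoImplicit false

open Filter Topology

namespace C37.PR

namespace InvDAux

/-- polynomial matrix valued functions -/
def PM (F : Mat → Mat) : Prop := ∀ i j, PolyFn (fun A => F A i j)

theorem PM.const (M : Mat) : PM (fun _ => M) := fun i j => PolyFn.const (M i j)

theorem PM.ident : PM (fun A => A) := fun i j => PolyFn.entry i j

theorem PM.tr {F : Mat → Mat} (hF : PM F) : PM (fun A => (F A).transpose) := fun i j => hF j i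

theorem PM.mul {F K : Mat → Mat} (hF : PM F) (hK : PM K) : PM (fun A => F A * K A) := by
  intro i j
  have h := PolyFn.sum Finset.univ (fun k A => F A i k * K A k j)
    fun k _ => (hF i k).mul (hK k j)
  exact h

end InvDAux

/-- A subspace of the matrices normalised by Γ is normalised by G. Proof: as `subspace_inv`, with the function
`A ↦ ∑ i, ∑ j, c i j * (A * a * (J0 * Aᵀ * J0)) i j`, polynomial in the entries of A; for `A = lin γ` and for `A = g`
the matrix `J0 * Aᵀ * J0` is the inverse of A by `inG_inv` (`lin_inG`). -/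
theorem conj_inv (Γ : Subgroup (V ≃ᵃ[ℝ] V)) (h : Cryst Γ) (W : Submodule ℝ Mat)
    (hW : ∀ γ ∈ Γ, ∀ a ∈ W, lin γ * a * (lin γ)⁻¹ ∈ W) (g : Mat) (hg : InG g) (a : Mat) (ha : a ∈ W) :
    g * a * g⁻¹ ∈ W := by
  by_contra hn
  obtain ⟨c, hc, hc'⟩ := exists_functional_Mat W (g * a * g⁻¹) hn
  have hm : InvDAux.PM (fun A => A * a * (J0 * A.transpose * J0)) :=
    (InvDAux.PM.ident.mul (InvDAux.PM.const a)).mul
      (((InvDAux.PM.const J0).mul InvDAux.PM.ident.tr).mul (InvDAux.PM.const J0))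
  have hp : PolyFn (fun A => ∑ i, ∑ j, c i j * (A * a * (J0 * A.transpose * J0)) i j) := by
    refine PolyFn.sum _ (fun i A => ∑ j, c i j * (A * a * (J0 * A.transpose * J0)) i j) fun i _ => ?_
    refine PolyFn.sum _ (fun j A => c i j * (A * a * (J0 * A.transpose * J0)) i j) fun j _ => ?_
    exact (PolyFn.const (c i j)).mul (hm i j)
  refine hc' ?_
  rw [inG_inv g hg]
  refine cryst_dense h hp (fun γ hγ => ?_) g hg
  rw [← inG_inv (lin γ) (lin_inG h hγ)]
  exact hc _ (hW γ hγ a ha)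

end C37.PR
end

section

/-!
MP_c37615_al (S02984), part R, file DiscD. See /team-store/MP_c37615_PAPER.md, section 2.
-/

set_option autoImplicit false

open Filter Topology

namespace C37.PR

/-- The image of the linear part is discrete at 1. Proof: otherwise `exists_central` gives `e0`, `z`. The subspace `centre (Aeps Γ e0)` is normalised by Γ
(`Aeps_normal` for `γ` and `γ⁻¹`, `centre_conj`, `lin_inv`), hence by G (`conj_inv`), and commutative (`centre_mul`), so by `GX_commAlg`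
`lin z = c • 1`; `scalar_inG` gives `c = 1`, `lin z = 1`, and `lin_injective` gives `z = 1`, contradiction. -/
theorem disc_one (Γ : Subgroup (V ≃ᵃ[ℝ] V)) (h : Cryst Γ) : ∃ e : ℝ, 0 < e ∧ ∀ γ ∈ Γ, mu γ < e → γ = 1 := by
  by_contra hcon
  push Not at hcon
  have hnd : ∀ e : ℝ, 0 < e → ∃ γ ∈ Γ, γ ≠ 1 ∧ mu γ < e := by
    intro e he
    obtain ⟨γ, h1, h2, h3⟩ := hcon e he
    exact ⟨γ, h1, h3, h2⟩
  obtain ⟨e0, he0, hst, z, hz, hz1, hzc⟩ := exists_central Γ h hnd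
  have hnorm : ∀ γ ∈ Γ, ∀ a ∈ centre (Aeps Γ e0), lin γ * a * (lin γ)⁻¹ ∈ centre (Aeps Γ e0) := by
    intro γ hγ a ha
    rw [← lin_inv]
    refine centre_conj (Aeps Γ e0) (lin γ) (lin γ⁻¹) (lin_mul_inv γ) (lin_inv_mul γ) ?_ ?_ a ha
    · intro b hb
      exact Aeps_normal Γ e0 he0 hst γ hγ b hb
    · intro b hb
      have := Aeps_normal Γ e0 he0 hst γ⁻¹ (Γ.inv_mem hγ) b hb
      simpa using this
  have hG : ∀ g : Mat, InG g → ∀ a ∈ centre (Aeps Γ e0), g * a * g⁻¹ ∈ centre (Aeps Γ e0) := by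
    intro g hg a ha
    exact conj_inv Γ h _ hnorm g hg a ha
  obtain ⟨c, hc⟩ := GX_commAlg (centre (Aeps Γ e0))
    (fun a ha b hb => centre_mul (Aeps Γ e0) a ha b hb) hG (lin z) hzc
  have hzG := lin_inG h hz
  rw [hc] at hzG
  have hc1 := scalar_inG c hzG
  apply hz1
  apply lin_injective Γ h z hz
  rw [hc, hc1, one_smul]

end C37.PR
end

section

/-!
MP_c37615_al (S02984), part R, file DiscE. See /team-store/MP_c37615_PAPER.md, section 2.
-/

set_option autoImplicit false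

open Filter Topology

namespace C37.PR

open scoped Matrix.Norms.Operator in
/-- The set of `γ ∈ Γ` with `lin γ` and its inverse in a compact set is finite. -/
theorem disc_finite (Γ : Subgroup (V ≃ᵃ[ℝ] V)) (h : Cryst Γ) (K : Set Mat) (hK : IsCompact K) :
    {γ : V ≃ᵃ[ℝ] V | γ ∈ Γ ∧ lin γ ∈ K ∧ (lin γ)⁻¹ ∈ K}.Finite := by
  by_contra hinf
  rw [← Set.Infinite] at hinf
  obtain ⟨e, he, hdisc⟩ := disc_one Γ h
  let f := Set.Infinite.natEmbedding _ hinf
  have hf : ∀ n, (f n : V ≃ᵃ[ℝ] V) ∈ Γ ∧ lin (f n : V ≃ᵃ[ℝ] V) ∈ K ∧ (lin (f n : V ≃ᵃ[ℝ] V))⁻¹ ∈ K := fun n => (f n).2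
  have hinj : ∀ m n, (f m : V ≃ᵃ[ℝ] V) = f n → m = n := by
    intro m n hmn
    exact f.injective (Subtype.ext hmn)
  have hKK : IsCompact (K ×ˢ K) := hK.prod hK
  haveI : FirstCountableTopology Mat := inferInstanceAs (FirstCountableTopology (Fin 7 → Fin 7 → ℝ))
  obtain ⟨M, hM, φ, hφ, hlim⟩ := hKK.tendsto_subseq
    (x := fun n => ((lin (f n : V ≃ᵃ[ℝ] V), (lin (f n : V ≃ᵃ[ℝ] V))⁻¹) : Mat × Mat))
    (fun n => ⟨(hf n).2.1, (hf n).2.2⟩)
  have h1 : Tendsto (fun n => lin (f (φ n) : V ≃ᵃ[ℝ] V)) atTop (𝓝 M.1) :=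
    (continuous_fst.tendsto M).comp hlim
  have h2 : Tendsto (fun n => (lin (f (φ n) : V ≃ᵃ[ℝ] V))⁻¹) atTop (𝓝 M.2) :=
    (continuous_snd.tendsto M).comp hlim
  have h3 : Tendsto (fun n => (lin (f (φ n) : V ≃ᵃ[ℝ] V))⁻¹ * lin (f (φ n) : V ≃ᵃ[ℝ] V)) atTop (𝓝 (M.2 * M.1)) :=
    h2.mul h1
  have h4 : M.2 * M.1 = 1 := by
    have : (fun n => (lin (f (φ n) : V ≃ᵃ[ℝ] V))⁻¹ * lin (f (φ n) : V ≃ᵃ[ℝ] V)) = fun _ => (1 : Mat) := by
      funext n
      rw [← lin_inv, lin_inv_mul]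
    rw [this] at h3
    exact (tendsto_nhds_unique h3 tendsto_const_nhds)
  have h5 : Tendsto (fun n => (lin (f (φ n) : V ≃ᵃ[ℝ] V))⁻¹ * lin (f (φ (n+1)) : V ≃ᵃ[ℝ] V)) atTop (𝓝 (M.2 * M.1)) :=
    h2.mul (h1.comp (tendsto_add_atTop_nat 1))
  rw [h4] at h5
  have h6 : Tendsto (fun n => mu ((f (φ n) : V ≃ᵃ[ℝ] V)⁻¹ * (f (φ (n+1)) : V ≃ᵃ[ℝ] V))) atTop (𝓝 0) := by
    have h7 : Tendsto (fun n => ‖(lin (f (φ n) : V ≃ᵃ[ℝ] V))⁻¹ * lin (f (φ (n+1)) : V ≃ᵃ[ℝ] V) - 1‖) atTop (𝓝 0) := by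
      have := (h5.sub_const (1 : Mat)).norm
      simpa using this
    refine h7.congr ?_
    intro n
    unfold mu
    rw [lin_mul, lin_inv]
  have h8 := (h6.eventually (gt_mem_nhds he)).exists
  obtain ⟨n, hn⟩ := h8
  have h9 := hdisc _ (Γ.mul_mem (Γ.inv_mem (hf (φ n)).1) (hf (φ (n+1))).1) hn
  have h10 : (f (φ n) : V ≃ᵃ[ℝ] V) = f (φ (n+1)) := (inv_mul_eq_one.mp h9)
  have h11 := hinj _ _ h10
  have h12 := hφ (Nat.lt_succ_self n)
  rw [h11] at h12
  exact lt_irrefl _ h12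

end C37.PR
end

section

/-!
MP_c37615_al (S02984): exports of PART R
-/

set_option autoImplicit false

open Filter Topology
open scoped ContDiff

namespace C37

/-! ### Part R -/

theorem R_injective (Γ : Subgroup (V ≃ᵃ[ℝ] V)) (h : Cryst Γ) : ∀ γ ∈ Γ, lin γ = 1 → γ = 1 :=
  PR.lin_injective Γ h

theorem R_discrete (Γ : Subgroup (V ≃ᵃ[ℝ] V)) (h : Cryst Γ) (K : Set Mat) (hK : IsCompact K) :
    {γ : V ≃ᵃ[ℝ] V | γ ∈ Γ ∧ lin γ ∈ K ∧ (lin γ)⁻¹ ∈ K}.Finite :=
  PR.disc_finite Γ h K hK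

theorem R_torsion (Γ : Subgroup (V ≃ᵃ[ℝ] V)) (h : Cryst Γ) :
    ∃ N : ℕ, 0 < N ∧ ∀ γ ∈ Γ, IsOfFinOrder γ → ∃ k, 0 < k ∧ k ≤ N ∧ γ ^ k = 1 :=
  PR.torsion_bound Γ h

end C37
end

section

/-!
MP_c37615_al (S02984), part D-IIa: linear parts of affine maps, elements of G (basic lemmas).
-/

set_option autoImplicit false

open Filter Topology

namespace C37

theorem d2_lin_mulVec (s : V ≃ᵃ[ℝ] V) (v : V) : (lin s).mulVec v = s.linear v := by
  unfold lin
  rw [LinearMap.toMatrix'_mulVec]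
  rfl

theorem d2_apply (s : V ≃ᵃ[ℝ] V) (v : V) : s v = (lin s).mulVec v + tv s := by
  rw [d2_lin_mulVec]
  have := s.map_vadd 0 v
  simp only [vadd_eq_add, add_zero] at this
  simpa [tv] using this

theorem d2_apply_add (s : V ≃ᵃ[ℝ] V) (v w : V) : s (v + w) = s v + (lin s).mulVec w := by
  rw [d2_apply, d2_apply s v, Matrix.mulVec_add]
  abel

theorem d2_lin_one : lin (1 : V ≃ᵃ[ℝ] V) = 1 := by
  have : ∀ v : V, (lin (1 : V ≃ᵃ[ℝ] V)).mulVec v = (1 : Mat).mulVec v := by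
    intro v
    rw [d2_lin_mulVec, Matrix.one_mulVec]
    rfl
  exact Matrix.mulVec_injective (funext this)

theorem d2_lin_mul (s t : V ≃ᵃ[ℝ] V) : lin (s * t) = lin s * lin t := by
  have : ∀ v : V, (lin (s * t)).mulVec v = (lin s * lin t).mulVec v := by
    intro v
    rw [← Matrix.mulVec_mulVec, d2_lin_mulVec, d2_lin_mulVec, d2_lin_mulVec]
    rfl
  exact Matrix.mulVec_injective (funext this)

theorem d2_lin_mul_inv (s : V ≃ᵃ[ℝ] V) : lin s * lin s⁻¹ = 1 := by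
  rw [← d2_lin_mul, mul_inv_cancel, d2_lin_one]

theorem d2_lin_det (s : V ≃ᵃ[ℝ] V) : IsUnit (lin s).det := by
  have h := congrArg Matrix.det (d2_lin_mul_inv s)
  rw [Matrix.det_mul, Matrix.det_one] at h
  exact IsUnit.of_mul_eq_one _ h

theorem d2_lin_inv (s : V ≃ᵃ[ℝ] V) : lin s⁻¹ = (lin s)⁻¹ :=
  (Matrix.inv_eq_right_inv (d2_lin_mul_inv s)).symm

theorem d2_lin_pow (s : V ≃ᵃ[ℝ] V) (n : ℕ) : lin (s ^ n) = (lin s) ^ n := by
  induction n with
  | zero => simp [d2_lin_one]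
  | succ n ih => rw [pow_succ, d2_lin_mul, ih, pow_succ]

theorem d2_tv_mul (s t : V ≃ᵃ[ℝ] V) : tv (s * t) = (lin s).mulVec (tv t) + tv s := by
  have : tv (s * t) = s (tv t) := rfl
  rw [this, d2_apply]

/-! ### elements of G -/

theorem d2_InG_one : InG 1 := by
  intro u v w
  simp

theorem d2_InG_mul {g h : Mat} (hg : InG g) (hh : InG h) : InG (g * h) := by
  intro u v w
  rw [← Matrix.mulVec_mulVec, ← Matrix.mulVec_mulVec, ← Matrix.mulVec_mulVec, hg, hh]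

theorem d2_InG_det {g : Mat} (hg : InG g) : IsUnit g.det := by
  rw [(GX_B g hg 0 0).2.2]
  exact isUnit_one

theorem d2_InG_inv {g : Mat} (hg : InG g) : InG g⁻¹ := by
  intro u v w
  have h1 : ∀ x : V, g.mulVec (g⁻¹.mulVec x) = x := by
    intro x
    rw [Matrix.mulVec_mulVec, Matrix.mul_nonsing_inv g (d2_InG_det hg), Matrix.one_mulVec]
  have := hg (g⁻¹.mulVec u) (g⁻¹.mulVec v) (g⁻¹.mulVec w)
  rw [h1, h1, h1] at this
  exact this.symm

theorem d2_InG_pow {g : Mat} (hg : InG g) (n : ℕ) : InG (g ^ n) := by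
  induction n with
  | zero => simpa using d2_InG_one
  | succ n ih => rw [pow_succ]; exact d2_InG_mul ih hg

theorem d2_InG_lin {Γ : Subgroup (V ≃ᵃ[ℝ] V)} (h : Cryst Γ) {γ : V ≃ᵃ[ℝ] V} (hγ : γ ∈ Γ) :
    InG (lin γ) := by
  intro u v w
  rw [d2_lin_mulVec, d2_lin_mulVec, d2_lin_mulVec]
  exact h.inG γ hγ u v w

theorem d2_B_inv {g : Mat} (hg : InG g) (u v : V) : B (g.mulVec u) (g.mulVec v) = B u v :=
  (GX_B g hg u v).1

theorem d2_cross_inv {g : Mat} (hg : InG g) (u v : V) :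
    cross (g.mulVec u) (g.mulVec v) = g.mulVec (cross u v) :=
  (GX_B g hg u v).2.1

/-- commuting with the inverse -/
theorem d2_comm_inv {g h : Mat} (hg : IsUnit g.det) (hc : h * g = g * h) : h * g⁻¹ = g⁻¹ * h := by
  have h1 := Matrix.mul_nonsing_inv g hg
  have h2 := Matrix.nonsing_inv_mul g hg
  calc h * g⁻¹ = (g⁻¹ * g) * h * g⁻¹ := by rw [h2, one_mul]
    _ = g⁻¹ * (h * g) * g⁻¹ := by rw [hc]; simp only [mul_assoc]
    _ = g⁻¹ * h := by simp only [mul_assoc]; rw [h1, mul_one]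

theorem d2_inv_mulVec {g : Mat} (hg : IsUnit g.det) (v : V) : g⁻¹.mulVec (g.mulVec v) = v := by
  rw [Matrix.mulVec_mulVec, Matrix.nonsing_inv_mul g hg, Matrix.one_mulVec]

theorem d2_mulVec_inv {g : Mat} (hg : IsUnit g.det) (v : V) : g.mulVec (g⁻¹.mulVec v) = v := by
  rw [Matrix.mulVec_mulVec, Matrix.mul_nonsing_inv g hg, Matrix.one_mulVec]

/-- the cyclic identity (all products can be computed with it) -/
theorem d2_cyc (X Y v : V) :
    cross X (cross Y v) = cross v (cross X Y) + (-(B X Y)) • v + (2 * B X v) • Y + (-(B Y v)) • X := by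
  funext i
  rw [Pi.add_apply, Pi.add_apply, Pi.add_apply, Pi.smul_apply, Pi.smul_apply, Pi.smul_apply]
  simp only [smul_eq_mul, B]
  fin_cases i <;> simp [cross] <;> ring

end C37
end

section

/-!
MP_c37615_al D TASK T19b: second order asymptotics for short root vectors.  Formulas: see the docstring of T19.lean (`short2`).
-/

set_option autoImplicit false

open Filter Topology

namespace C37

private theorem T19b_cB : Continuous (fun p : V × V => B p.1 p.2) := by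
  have h : ∀ i, Continuous (fun p : V × V => p.1 i) := fun i => (continuous_apply i).comp continuous_fst
  have k : ∀ i, Continuous (fun p : V × V => p.2 i) := fun i => (continuous_apply i).comp continuous_snd
  exact (((((((h 0).mul (k 0)).add ((h 1).mul (k 1))).add ((h 2).mul (k 2))).sub ((h 3).mul (k 3))).sub
    ((h 4).mul (k 4))).sub ((h 5).mul (k 5))).sub ((h 6).mul (k 6))

private theorem T19b_B {f g : ℕ → V} {x y : V} (hf : Tendsto f atTop (𝓝 x)) (hg : Tendsto g atTop (𝓝 y)) :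
    Tendsto (fun j => B (f j) (g j)) atTop (𝓝 (B x y)) := by
  have h1 : Tendsto (fun p : V × V => B p.1 p.2) (𝓝 (x, y)) (𝓝 (B x y)) := T19b_cB.tendsto (x, y)
  have h2 : Tendsto (fun j => (f j, g j)) atTop (𝓝 (x, y)) := hf.prodMk_nhds hg
  have h3 := h1.comp h2
  simpa only [Function.comp_def] using h3

private theorem T19b_mulVec {f : ℕ → Mat} {x : Mat} (hf : Tendsto f atTop (𝓝 x)) (v : V) :
    Tendsto (fun j => (f j).mulVec v) atTop (𝓝 (x.mulVec v)) :=
  ((continuous_id.matrix_mulVec continuous_const).tendsto x).comp hf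

private theorem T19b_mul {f : ℕ → Mat} {x : Mat} (hf : Tendsto f atTop (𝓝 x)) (M : Mat) :
    Tendsto (fun j => f j * M) atTop (𝓝 (x * M)) :=
  ((continuous_id.matrix_mul continuous_const).tendsto x).comp hf

private theorem T19b_trace {f : ℕ → Mat} {x : Mat} (hf : Tendsto f atTop (𝓝 x)) :
    Tendsto (fun j => (f j).trace) atTop (𝓝 x.trace) :=
  (continuous_id.matrix_trace.tendsto x).comp hf

private theorem T19b_Ev {f : ℕ → Mat} {x : Mat} (hf : Tendsto f atTop (𝓝 x)) :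
    Tendsto (fun j => Ev (f j)) atTop (𝓝 (Ev x)) :=
  (continuous_Ev.tendsto x).comp hf

private theorem T19b_ne {s : ℕ → ℝ} (hs : Tendsto (fun j => |s j|) atTop atTop) : ∀ᶠ j in atTop, s j ≠ 0 :=
  (hs.eventually_gt_atTop 0).mono fun j hj h => by
    rw [h, abs_zero] at hj
    exact lt_irrefl _ hj

private theorem T19b_inv {s : ℕ → ℝ} (hs : Tendsto (fun j => |s j|) atTop atTop) :
    Tendsto (fun j => (s j)⁻¹) atTop (𝓝 0) := by
  rw [tendsto_zero_iff_abs_tendsto_zero]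
  have := tendsto_inv_atTop_zero.comp hs
  refine this.congr fun j => ?_
  simp [abs_inv]

private theorem T19b_exp (M Z : Mat) (x : ℝ) : M * expZ Z x = M + x • (M * Z) + (x ^ 2 / 2) • (M * (Z * Z)) := by
  unfold expZ
  rw [mul_add, mul_add, mul_one, Matrix.mul_smul, Matrix.mul_smul]

private theorem T19b_tr (M Z : Mat) (a : V) (x : ℝ) : M.mulVec (trZ Z a x) =
    x • M.mulVec a + (x ^ 2 / 2) • M.mulVec (Z.mulVec a) + (x ^ 3 / 6) • M.mulVec ((Z * Z).mulVec a) := by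
  unfold trZ
  rw [Matrix.mulVec_add, Matrix.mulVec_add, Matrix.mulVec_smul, Matrix.mulVec_smul, Matrix.mulVec_smul]

theorem short2_tendsto (Z : Mat) (p : V) (hZ : ShortData Z p) (h : Mat) (a u : V) (hpa : B p a = 0) (hj : ℕ → Mat) (uj : ℕ → V) (s : ℕ → ℝ)
    (hG : ∀ j, InG (hj j)) (hh : Tendsto hj atTop (𝓝 h)) (hu : Tendsto uj atTop (𝓝 u)) (hs : Tendsto (fun j => |s j|) atTop atTop) :
    Tendsto (fun j => FF (hj j * expZ Z (s j)) ((hj j).mulVec (trZ Z a (s j)) + uj j) / (s j) ^ 5) atTop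
      (𝓝 (B (h.mulVec p) p * (h * (Lmat a * (Z * Z) + Lmat (Z.mulVec a) * Z)).trace)) := by
  have hs0 := T19b_ne hs
  have ht := T19b_inv hs
  have hN := T19b_mul hh Z
  have hNN := T19b_mul hh (Z * Z)
  have t0 := T19b_trace hh
  have t1 := T19b_trace hN
  have tp := T19b_B (T19b_mulVec hh p) (tendsto_const_nhds (x := p))
  have tM := T19b_trace (T19b_mul hh (Lmat a * (Z * Z) + Lmat (Z.mulVec a) * Z))
  have E0 := T19b_Ev hh
  have E1 := T19b_Ev hN
  have E2 := T19b_Ev hNN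
  have v1 := T19b_mulVec hh a
  have v2 := T19b_mulVec hh (Z.mulVec a)
  have c2 := ((T19b_B v1 E1).add ((T19b_B v2 E0).const_mul (1 / 2))).add ((T19b_B hu E2).const_mul (1 / 2))
  have c1 := (T19b_B v1 E0).add (T19b_B hu E1)
  have c0 := T19b_B hu E0
  have key := (((tp.const_mul 2).add (t1.mul ht)).add ((t0.add_const 1).mul (ht.pow 2))).mul
    ((((tM.const_mul (1 / 2)).add (c2.mul ht)).add (c1.mul (ht.pow 2))).add (c0.mul (ht.pow 3)))
  have e : ∀ x y z w r t m : ℝ, (2 * x + y * 0 + (z + 1) * 0 ^ 2) *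
      (1 / 2 * w + r * 0 + t * 0 ^ 2 + m * 0 ^ 3) = x * w := by
    intros; ring
  rw [e] at key
  refine key.congr' (hs0.mono fun j hj0 => ?_)
  have hZZ : (Z * Z).mulVec a = 0 := by
    rw [hZ.sq, Matrix.smul_mulVec, rk1_mulVec, hpa, zero_smul, smul_zero]
  have hv3 : (hj j).mulVec ((Z * Z).mulVec a) = 0 := by rw [hZZ, Matrix.mulVec_zero]
  have f2 : B ((hj j).mulVec (Z.mulVec a)) (Ev (hj j * (Z * Z))) = 0 := by
    have h1 : cross (Z.mulVec a) p = 0 := by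
      rw [cross_anti, ← Lmat_mulVec, Matrix.mulVec_mulVec, hZ.Lp, Matrix.smul_mulVec, rk1_mulVec, hpa,
        zero_smul, smul_zero, neg_zero]
    rw [hZ.sq, Matrix.mul_smul, mul_rk1, Ev_smul, Ev_rk1, B_smul_right, ← B_cross_cycl,
      (GX_B (hj j) (hG j) (Z.mulVec a) p).2.1, h1, Matrix.mulVec_zero, ← zero_smul ℝ (0 : V), B_smul_left,
      zero_mul, mul_zero]
  have f4 : (hj j * (Z * Z)).trace = 4 * B ((hj j).mulVec p) p := by
    rw [hZ.sq, Matrix.mul_smul, mul_rk1, Matrix.trace_smul, trace_rk1, smul_eq_mul, B_comm p ((hj j).mulVec p)]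
  have f6 : (hj j * (Lmat a * (Z * Z) + Lmat (Z.mulVec a) * Z)).trace =
      B ((hj j).mulVec a) (Ev (hj j * (Z * Z))) + B ((hj j).mulVec (Z.mulVec a)) (Ev (hj j * Z)) := by
    rw [key_trace _ (hG j), key_trace _ (hG j), ← Matrix.trace_add, ← Matrix.mul_add]
  unfold FF
  beta_reduce
  rw [T19b_exp, T19b_tr, Matrix.trace_add, Matrix.trace_add, Matrix.trace_smul, Matrix.trace_smul,
    Ev_add, Ev_add, Ev_smul, Ev_smul, hv3, smul_zero, add_zero, f6]
  simp only [B_add_left, B_add_right, B_smul_left, B_smul_right, smul_eq_mul]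
  rw [f2, f4]
  field_simp
  ring

end C37
end

section

/-!
MP_c37615_al D TASK T28: conjugation of the group by an affine map δ with linear part in G (exported as D_conj).

Elements of the new group: δ γ δ⁻¹, γ ∈ Γ.  proper / cocompact: replace a compact set K by δ⁻¹ K (affine maps of V are homeomorphisms: `AffineEquiv` continuity in finite dimension, `AffineEquiv.toHomeomorph..` or LinearMap continuity).
inG: lin (δ γ δ⁻¹) = lin δ * lin γ * (lin δ)⁻¹.  zd: given P vanishing on the new group, the polynomial P' with P'(A) = P (lin δ * A * (lin δ)⁻¹) (compose P with the linear substitution: `MvPolynomial.bind₁`, eval of it)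
 vanishes on lin Γ, hence on G; for A ∈ G apply it to (lin δ)⁻¹ A (lin δ) ∈ G.
-/

set_option autoImplicit false

namespace C37

private theorem T28_lin (γ : V ≃ᵃ[ℝ] V) (u : V) : γ.linear u = (lin γ).mulVec u := by
  unfold lin
  rw [LinearMap.toMatrix'_mulVec]
  rfl

/-- the substitution A ↦ D A E in a polynomial -/
private theorem T28_subst (P : MvPolynomial (Fin 7 × Fin 7) ℝ) (D E : Mat) :
    ∃ Q : MvPolynomial (Fin 7 × Fin 7) ℝ, ∀ A : Mat,
      MvPolynomial.eval (fun p : Fin 7 × Fin 7 => A p.1 p.2) Q =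
      MvPolynomial.eval (fun p : Fin 7 × Fin 7 => (D * A * E) p.1 p.2) P := by
  refine ⟨MvPolynomial.bind₁ (fun p : Fin 7 × Fin 7 => ∑ j, (∑ i, MvPolynomial.C (D p.1 i) *
    MvPolynomial.X (i, j)) * MvPolynomial.C (E j p.2)) P, fun A => ?_⟩
  rw [← MvPolynomial.coe_aeval_eq_eval]
  change MvPolynomial.aeval _ (MvPolynomial.bind₁ _ P) = _
  rw [MvPolynomial.aeval_bind₁, ← MvPolynomial.coe_aeval_eq_eval]
  change _ = MvPolynomial.aeval _ P
  congr 2
  funext p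
  simp only [map_sum, map_mul, MvPolynomial.aeval_X, MvPolynomial.algHom_C, Matrix.mul_apply]
  rfl

theorem D_conj_proof (Γ : Subgroup (V ≃ᵃ[ℝ] V)) (h : Cryst Γ) (δ : V ≃ᵃ[ℝ] V) (hδ : InG (lin δ)) :
    Cryst (Γ.map (MulAut.conj δ).toMonoidHom) := by
  have hc : ∀ γ : V ≃ᵃ[ℝ] V, (MulAut.conj δ).toMonoidHom γ = δ * γ * δ⁻¹ := fun γ => rfl
  have happ : ∀ (γ : V ≃ᵃ[ℝ] V) (x : V), (δ * γ * δ⁻¹) x = δ (γ (δ.symm x)) := fun γ x => rfl
  refine ⟨fun K hK => ?_, ?_, ?_, ?_⟩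
  · have hK' : IsCompact (δ.symm '' K) := hK.image δ.symm.continuous_of_finiteDimensional
    refine ((h.proper _ hK').image (MulAut.conj δ).toMonoidHom).subset ?_
    rintro γ' ⟨⟨γ, hγ, rfl⟩, ⟨y, ⟨x, hx, hxy⟩, hy⟩⟩
    refine ⟨γ, ⟨hγ, ⟨δ.symm y, ⟨δ.symm x, ⟨x, hx, rfl⟩, ?_⟩, ⟨y, hy, rfl⟩⟩⟩, rfl⟩
    rw [hc, happ] at hxy
    rw [← hxy, AffineEquiv.symm_apply_apply]
  · obtain ⟨K, hK, hK2⟩ := h.cocompact
    refine ⟨δ '' K, hK.image δ.continuous_of_finiteDimensional, fun x => ?_⟩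
    obtain ⟨γ, hγ, ⟨k, hk, hk2⟩⟩ := hK2 (δ.symm x)
    refine ⟨_, ⟨γ, hγ, rfl⟩, ⟨δ k, ⟨k, hk, rfl⟩, ?_⟩⟩
    rw [hc, happ, AffineEquiv.symm_apply_apply, hk2, AffineEquiv.apply_symm_apply]
  · rintro _ ⟨γ, hγ, rfl⟩ u v w
    rw [T28_lin, T28_lin, T28_lin, hc]
    have h1 : InG (lin (δ * γ * δ⁻¹)) := by
      rw [lin_mul, lin_mul, (lin_inv δ).1]
      exact InG_mul _ _ (InG_mul _ _ hδ (h.lin_InG γ hγ)) (InG_inv _ hδ).1
    exact h1 u v w
  · intro P hP A hA
    obtain ⟨Q, hQ⟩ := T28_subst P (lin δ) (lin δ)⁻¹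
    have h2 : InG ((lin δ)⁻¹ * A * lin δ) := InG_mul _ _ (InG_mul _ _ (InG_inv _ hδ).1 hA) hδ
    have h3 := h.zd Q (fun γ hγ => ?_) _ h2
    · rw [hQ] at h3
      have h4 : lin δ * ((lin δ)⁻¹ * A * lin δ) * (lin δ)⁻¹ = A := by
        obtain ⟨_, h5, h6⟩ := InG_inv _ hδ
        calc lin δ * ((lin δ)⁻¹ * A * lin δ) * (lin δ)⁻¹
            = (lin δ * (lin δ)⁻¹) * A * (lin δ * (lin δ)⁻¹) := by simp only [Matrix.mul_assoc]
          _ = A := by rw [h5, Matrix.one_mul, Matrix.mul_one]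
      rw [h4] at h3
      exact h3
    · have h5 := hQ (lin γ)
      have h6 := hP _ ⟨γ, hγ, rfl⟩
      refine h5.trans ?_
      rw [hc] at h6
      have h7 : LinearMap.toMatrix' (δ * γ * δ⁻¹).linear.toLinearMap =
          lin δ * lin γ * (lin δ)⁻¹ := by
        have h8 : lin (δ * γ * δ⁻¹) = lin δ * lin γ * (lin δ)⁻¹ := by
          rw [lin_mul, lin_mul, (lin_inv δ).1]
        exact h8
      rw [h7] at h6
      exact h6

end C37
end

section

/-!
MP_c37615_al (S02984), part D-IIb (paper 6.4.4 - 6.4.6), file B_K6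
-/

set_option autoImplicit false

open Filter Topology NormedSpace

namespace C37
namespace DB

/-- move the flag to the standard one.
Proof: `GX_trans_flag p p'` (with `flag_null`, `flag_li`): `g y3 = c • p`, `g x1 = d • p + e • p'`, `c, e ≠ 0`. `g⁻¹ (g v) = v`
(`inG_inv`). `(g⁻¹ X g) y3 = g⁻¹ (c • X p) = 0`; `(g⁻¹ X g) x1 = g⁻¹ (e • x • p) = (e x / c) • y3` because
`p = (1/c) • g y3`. Same for `Y`. -/
theorem exists_frame (X Y : Mat) (p p' : V) (hp0 : p ≠ 0) (hp : B p p = 0) (hc : cross p p' = 0)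
    (hne : ∀ c : ℝ, p' ≠ c • p) (hXp : X.mulVec p = 0) (hYp : Y.mulVec p = 0)
    (hX' : ∃ x : ℝ, X.mulVec p' = x • p) (hY' : ∃ y : ℝ, Y.mulVec p' = y • p) :
    ∃ g : Mat, InG g ∧ (g⁻¹ * X * g).mulVec y3 = 0 ∧ (∃ c : ℝ, (g⁻¹ * X * g).mulVec x1 = c • y3) ∧
      (g⁻¹ * Y * g).mulVec y3 = 0 ∧ (∃ c : ℝ, (g⁻¹ * Y * g).mulVec x1 = c • y3) := by
  obtain ⟨g, hg, c, d, e, hc0, he0, hgy, hgx⟩ := GX_trans_flag p p' hp (flag_null p p' hp0 hp hc) hc
    (flag_li p p' hp0 hne)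
  obtain ⟨-, -, hinv⟩ := inG_inv g hg
  have hgg : ∀ v : V, g⁻¹.mulVec (g.mulVec v) = v := by
    intro v
    rw [Matrix.mulVec_mulVec, hinv, Matrix.one_mulVec]
  have hp3 : g⁻¹.mulVec p = c⁻¹ • y3 := by
    have h1 := hgg y3
    rw [hgy, Matrix.mulVec_smul] at h1
    rw [← h1, smul_smul, inv_mul_cancel₀ hc0, one_smul]
  have key : ∀ Z : Mat, Z.mulVec p = 0 → (∃ x : ℝ, Z.mulVec p' = x • p) →
      (g⁻¹ * Z * g).mulVec y3 = 0 ∧ ∃ c : ℝ, (g⁻¹ * Z * g).mulVec x1 = c • y3 := by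
    rintro Z hZ ⟨x, hx⟩
    constructor
    · rw [← Matrix.mulVec_mulVec, hgy, Matrix.mulVec_smul, ← Matrix.mulVec_mulVec, hZ,
        Matrix.mulVec_zero, smul_zero]
    · refine ⟨e * x * c⁻¹, ?_⟩
      rw [← Matrix.mulVec_mulVec, hgx, Matrix.mulVec_add, Matrix.mulVec_smul, Matrix.mulVec_smul,
        ← Matrix.mulVec_mulVec, ← Matrix.mulVec_mulVec, hZ, hx, Matrix.mulVec_zero, smul_zero,
        zero_add, Matrix.mulVec_smul, hp3, smul_smul, smul_smul]
  exact ⟨g, hg, (key X hXp hX').1, (key X hXp hX').2, (key Y hYp hY').1, (key Y hYp hY').2⟩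

end DB
end C37
end
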