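import Mathlib
import Pool.Agent.Lib.MP_c37615_al.Mg.G022
import Pool.Agent.Lib.MP_c37615_al.D2.A_G00

section

/-!
MP_c37615_al (S02984), part D-IIa: dynamical subspaces of a matrix; explicit matrices `jT`.
-/

set_option autoImplicit false

open Filter Topology

namespace C37

/-- vectors contracted exponentially by `g ^ n`, n → +∞ -/
def Vlt (g : Mat) : Submodule ℝ V where
  carrier := {v | ∃ C ρ : ℝ, 0 < ρ ∧ ρ < 1 ∧ ∀ n : ℕ, ‖(g ^ n).mulVec v‖ ≤ C * ρ ^ n}
  zero_mem' := ⟨0, 1/2, by norm_num, by norm_num, by intro n; simp⟩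
  add_mem' := by
    rintro u v ⟨C, ρ, h0, h1, h⟩ ⟨C', ρ', h0', h1', h'⟩
    refine ⟨|C| + |C'|, max ρ ρ', lt_max_of_lt_left h0, max_lt h1 h1', ?_⟩
    intro n
    rw [Matrix.mulVec_add]
    have a1 : C * ρ ^ n ≤ |C| * (max ρ ρ') ^ n :=
      (mul_le_mul_of_nonneg_right (le_abs_self C) (by positivity)).trans
        (mul_le_mul_of_nonneg_left (pow_le_pow_left₀ h0.le (le_max_left _ _) n) (abs_nonneg C))
    have a2 : C' * ρ' ^ n ≤ |C'| * (max ρ ρ') ^ n :=
      (mul_le_mul_of_nonneg_right (le_abs_self C') (by positivity)).trans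
        (mul_le_mul_of_nonneg_left (pow_le_pow_left₀ h0'.le (le_max_right _ _) n) (abs_nonneg C'))
    calc ‖(g ^ n).mulVec u + (g ^ n).mulVec v‖ ≤ ‖(g ^ n).mulVec u‖ + ‖(g ^ n).mulVec v‖ := norm_add_le _ _
      _ ≤ |C| * (max ρ ρ') ^ n + |C'| * (max ρ ρ') ^ n :=
        add_le_add ((h n).trans a1) ((h' n).trans a2)
      _ = (|C| + |C'|) * (max ρ ρ') ^ n := by ring
  smul_mem' := by
    rintro c v ⟨C, ρ, h0, h1, h⟩
    refine ⟨|c| * C, ρ, h0, h1, ?_⟩
    intro n
    rw [Matrix.mulVec_smul, norm_smul, Real.norm_eq_abs, mul_assoc]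
    exact mul_le_mul_of_nonneg_left (h n) (abs_nonneg c)

/-- vectors of subexponential growth under `g ^ n`, n → +∞ -/
def Vsub (g : Mat) : Submodule ℝ V where
  carrier := {v | ∀ ρ : ℝ, 1 < ρ → ∃ C : ℝ, ∀ n : ℕ, ‖(g ^ n).mulVec v‖ ≤ C * ρ ^ n}
  zero_mem' := by
    intro ρ hρ
    exact ⟨0, by intro n; simp⟩
  add_mem' := by
    intro u v hu hv ρ hρ
    obtain ⟨C, h⟩ := hu ρ hρ
    obtain ⟨C', h'⟩ := hv ρ hρ
    refine ⟨C + C', ?_⟩
    intro n
    rw [Matrix.mulVec_add]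
    calc ‖(g ^ n).mulVec u + (g ^ n).mulVec v‖ ≤ ‖(g ^ n).mulVec u‖ + ‖(g ^ n).mulVec v‖ := norm_add_le _ _
      _ ≤ C * ρ ^ n + C' * ρ ^ n := add_le_add (h n) (h' n)
      _ = (C + C') * ρ ^ n := by ring
  smul_mem' := by
    intro c v hv ρ hρ
    obtain ⟨C, h⟩ := hv ρ hρ
    refine ⟨|c| * C, ?_⟩
    intro n
    rw [Matrix.mulVec_smul, norm_smul, Real.norm_eq_abs, mul_assoc]
    exact mul_le_mul_of_nonneg_left (h n) (abs_nonneg c)

/-- vectors of subexponential growth under `g ^ n`, n ∈ ℤ -/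
noncomputable def Veq (g : Mat) : Submodule ℝ V := Vsub g ⊓ Vsub g⁻¹

theorem mem_Vlt {g : Mat} {v : V} : v ∈ Vlt g ↔
    ∃ C ρ : ℝ, 0 < ρ ∧ ρ < 1 ∧ ∀ n : ℕ, ‖(g ^ n).mulVec v‖ ≤ C * ρ ^ n := Iff.rfl

theorem mem_Vsub {g : Mat} {v : V} : v ∈ Vsub g ↔
    ∀ ρ : ℝ, 1 < ρ → ∃ C : ℝ, ∀ n : ℕ, ‖(g ^ n).mulVec v‖ ≤ C * ρ ^ n := Iff.rfl

theorem mem_Veq {g : Mat} {v : V} : v ∈ Veq g ↔ v ∈ Vsub g ∧ v ∈ Vsub g⁻¹ := Submodule.mem_inf

/-- the standard three-dimensional space span(va, x1, y1) -/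
noncomputable def E00 : Submodule ℝ V := Submodule.span ℝ {va, x1, y1}

/-- the element of G acting on span(x2, y3) by the matrix T = [[a,b],[c,d]]
(x2 ↦ a x2 + c y3, y3 ↦ b x2 + d y3), preserving span(y2,x3) and span(va,x1,y1) -/
noncomputable def jT (T : Matrix (Fin 2) (Fin 2) ℝ) : Mat :=
  ofNull
    ((T.det⁻¹ * (T 0 0 * T 1 1 + T 0 1 * T 1 0)) • va + (T.det⁻¹ * (2 * T 1 0 * T 1 1)) • x1
      + (-(T.det⁻¹ * (2 * T 0 0 * T 0 1))) • y1)
    ((T.det⁻¹ * (T 0 1 * T 1 1)) • va + (T.det⁻¹ * (T 1 1 * T 1 1)) • x1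
      + (-(T.det⁻¹ * (T 0 1 * T 0 1))) • y1)
    (T 0 0 • x2 + T 1 0 • y3)
    ((-(T.det⁻¹ * T 1 0)) • y2 + (T.det⁻¹ * T 0 0) • x3)
    ((-(T.det⁻¹ * (T 0 0 * T 1 0))) • va + (-(T.det⁻¹ * (T 1 0 * T 1 0))) • x1
      + (T.det⁻¹ * (T 0 0 * T 0 0)) • y1)
    ((T.det⁻¹ * T 1 1) • y2 + (-(T.det⁻¹ * T 0 1)) • x3)
    (T 0 1 • x2 + T 1 1 • y3)

end C37
end

section

/-!
MP_c37615_al (S02984), part D-IIa: bilinear algebra.
-/

set_option autoImplicit false

open Filter Topology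

namespace C37

/-! ### bilinearity -/

theorem d2_B_comm (u v : V) : B u v = B v u := by unfold B; ring
theorem d2_B_add_left (u u' v : V) : B (u + u') v = B u v + B u' v := by
  simp only [B, Pi.add_apply]; ring
theorem d2_B_add_right (u v v' : V) : B u (v + v') = B u v + B u v' := by
  simp only [B, Pi.add_apply]; ring
theorem d2_B_smul_left (c : ℝ) (u v : V) : B (c • u) v = c * B u v := by
  simp only [B, Pi.smul_apply, smul_eq_mul]; ring
theorem d2_B_smul_right (c : ℝ) (u v : V) : B u (c • v) = c * B u v := by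
  simp only [B, Pi.smul_apply, smul_eq_mul]; ring
theorem d2_B_zero_left (v : V) : B 0 v = 0 := by simp [B]
theorem d2_B_zero_right (v : V) : B v 0 = 0 := by simp [B]

theorem d2_cross_add_left (u u' v : V) : cross (u + u') v = cross u v + cross u' v := by
  funext i; rw [Pi.add_apply]; fin_cases i <;> simp [cross] <;> ring
theorem d2_cross_add_right (u v v' : V) : cross u (v + v') = cross u v + cross u v' := by
  funext i; rw [Pi.add_apply]; fin_cases i <;> simp [cross] <;> ring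
theorem d2_cross_smul_left (c : ℝ) (u v : V) : cross (c • u) v = c • cross u v := by
  funext i; rw [Pi.smul_apply]; fin_cases i <;> simp [cross] <;> ring
theorem d2_cross_smul_right (c : ℝ) (u v : V) : cross u (c • v) = c • cross u v := by
  funext i; rw [Pi.smul_apply]; fin_cases i <;> simp [cross] <;> ring
theorem d2_cross_comm (u v : V) : cross u v = -cross v u := by
  funext i; rw [Pi.neg_apply]; fin_cases i <;> simp [cross] <;> ring
theorem d2_cross_self (u : V) : cross u u = 0 := by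
  funext i; rw [Pi.zero_apply]; fin_cases i <;> simp [cross] <;> ring

end C37
end

section

/-!
MP_c37615_al (S02984), part D-IIa: task P01 (norms)
-/

set_option autoImplicit false

open Filter Topology

namespace C37

private theorem P01_pair (u v : V) (i j : Fin 7) :
    -(‖u‖ * ‖v‖) ≤ u i * v j ∧ u i * v j ≤ ‖u‖ * ‖v‖ := by
  have h1 : |u i| ≤ ‖u‖ := norm_le_pi_norm u i
  have h2 : |v j| ≤ ‖v‖ := norm_le_pi_norm v j
  rw [← abs_le, abs_mul]
  exact mul_le_mul h1 h2 (abs_nonneg _) (norm_nonneg _)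

/-- P01a. Each coordinate of `cross u v` is a sum of 6 products `± u i * v j`, `|u i| ≤ ‖u‖` (sup norm:
`norm_le_pi_norm`), `pi_norm_le_iff_of_nonneg`. -/
theorem d2_norm_cross (u v : V) : ‖cross u v‖ ≤ 6 * (‖u‖ * ‖v‖) := by
  have h := P01_pair u v
  rw [pi_norm_le_iff_of_nonneg (by positivity)]
  intro i
  rw [Real.norm_eq_abs, abs_le]
  fin_cases i
  · simp only [cross, Fin.zero_eta, Fin.isValue, Matrix.cons_val_zero]
    have h1 := h 1 2; have h2 := h 2 1; have h3 := h 3 4; have h4 := h 4 3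
    have h5 := h 5 6; have h6 := h 6 5
    constructor <;> linarith [h1.1, h1.2, h2.1, h2.2, h3.1, h3.2, h4.1, h4.2, h5.1, h5.2, h6.1, h6.2]
  · have h1 := h 0 2; have h2 := h 2 0; have h3 := h 3 5; have h4 := h 5 3
    have h5 := h 4 6; have h6 := h 6 4
    simp [cross]
    constructor <;> linarith [h1.1, h1.2, h2.1, h2.2, h3.1, h3.2, h4.1, h4.2, h5.1, h5.2, h6.1, h6.2]
  · have h1 := h 0 1; have h2 := h 1 0; have h3 := h 3 6; have h4 := h 6 3
    have h5 := h 4 5; have h6 := h 5 4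
    simp [cross]
    constructor <;> linarith [h1.1, h1.2, h2.1, h2.2, h3.1, h3.2, h4.1, h4.2, h5.1, h5.2, h6.1, h6.2]
  · have h1 := h 0 4; have h2 := h 4 0; have h3 := h 1 5; have h4 := h 5 1
    have h5 := h 2 6; have h6 := h 6 2
    simp [cross]
    constructor <;> linarith [h1.1, h1.2, h2.1, h2.2, h3.1, h3.2, h4.1, h4.2, h5.1, h5.2, h6.1, h6.2]
  · have h1 := h 0 3; have h2 := h 3 0; have h3 := h 1 6; have h4 := h 6 1
    have h5 := h 2 5; have h6 := h 5 2
    simp [cross]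
    constructor <;> linarith [h1.1, h1.2, h2.1, h2.2, h3.1, h3.2, h4.1, h4.2, h5.1, h5.2, h6.1, h6.2]
  · have h1 := h 0 6; have h2 := h 6 0; have h3 := h 1 3; have h4 := h 3 1
    have h5 := h 2 4; have h6 := h 4 2
    simp [cross]
    constructor <;> linarith [h1.1, h1.2, h2.1, h2.2, h3.1, h3.2, h4.1, h4.2, h5.1, h5.2, h6.1, h6.2]
  · have h1 := h 0 5; have h2 := h 5 0; have h3 := h 1 4; have h4 := h 4 1
    have h5 := h 2 3; have h6 := h 3 2
    simp [cross]
    constructor <;> linarith [h1.1, h1.2, h2.1, h2.2, h3.1, h3.2, h4.1, h4.2, h5.1, h5.2, h6.1, h6.2]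

/-- P01b. `B u v` is a sum of seven products. -/
theorem d2_abs_B (u v : V) : |B u v| ≤ 7 * (‖u‖ * ‖v‖) := by
  have h := P01_pair u v
  have h0 := h 0 0; have h1 := h 1 1; have h2 := h 2 2; have h3 := h 3 3
  have h4 := h 4 4; have h5 := h 5 5; have h6 := h 6 6
  rw [abs_le]
  unfold B
  constructor <;> linarith [h0.1, h0.2, h1.1, h1.2, h2.1, h2.2, h3.1, h3.2, h4.1, h4.2, h5.1, h5.2, h6.1, h6.2]

/-- P01c. Take `c = 1 + ∑ i j |M i j|` (or the operator norm of `Matrix.toLin'` as a continuous linear map, plus 1). -/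
theorem d2_mulVec_bound (M : Mat) : ∃ c : ℝ, 1 ≤ c ∧ ∀ v : V, ‖M.mulVec v‖ ≤ c * ‖v‖ := by
  have hs : 0 ≤ ∑ i, ∑ j, |M i j| :=
    Finset.sum_nonneg (fun i _ => Finset.sum_nonneg (fun j _ => abs_nonneg _))
  refine ⟨1 + ∑ i, ∑ j, |M i j|, by linarith, ?_⟩
  intro v
  have hv : 0 ≤ ‖v‖ := norm_nonneg v
  rw [pi_norm_le_iff_of_nonneg (by positivity)]
  intro i
  rw [Real.norm_eq_abs]
  calc |M.mulVec v i| = |∑ j, M i j * v j| := rfl
    _ ≤ ∑ j, |M i j * v j| := Finset.abs_sum_le_sum_abs _ _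
    _ ≤ ∑ j, |M i j| * ‖v‖ := by
        apply Finset.sum_le_sum
        intro j _
        rw [abs_mul]
        exact mul_le_mul_of_nonneg_left (norm_le_pi_norm v j) (abs_nonneg _)
    _ = (∑ j, |M i j|) * ‖v‖ := by rw [Finset.sum_mul]
    _ ≤ (1 + ∑ i, ∑ j, |M i j|) * ‖v‖ := by
        apply mul_le_mul_of_nonneg_right _ hv
        have := Finset.single_le_sum (f := fun i => ∑ j, |M i j|)
          (fun i _ => Finset.sum_nonneg (fun j _ => abs_nonneg (M i j))) (Finset.mem_univ i)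
        have h2 : (∑ j, |M i j|) ≤ ∑ i, ∑ j, |M i j| := this
        linarith

/-- P01d. Induction from `d2_mulVec_bound` (same c): `M^(n+1) v = M^n (M v)`. -/
theorem d2_pow_bound (M : Mat) : ∃ c : ℝ, 1 ≤ c ∧ ∀ (n : ℕ) (v : V), ‖(M ^ n).mulVec v‖ ≤ c ^ n * ‖v‖ := by
  obtain ⟨c, hc, h⟩ := d2_mulVec_bound M
  refine ⟨c, hc, ?_⟩
  intro n
  induction n with
  | zero => intro v; simp
  | succ n ih =>
    intro v
    rw [pow_succ, ← Matrix.mulVec_mulVec]
    calc ‖(M ^ n).mulVec (M.mulVec v)‖ ≤ c ^ n * ‖M.mulVec v‖ := ih _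
      _ ≤ c ^ n * (c * ‖v‖) := mul_le_mul_of_nonneg_left (h v) (by positivity)
      _ = c ^ (n + 1) * ‖v‖ := by ring

/-- P01e. Test with the standard basis vectors `Pi.single i 1`. -/
theorem d2_nondeg (u : V) (h : ∀ v : V, B u v = 0) : u = 0 := by
  funext i
  have hi := h (Pi.single i 1)
  fin_cases i <;> simpa [B, Pi.single_apply] using hi

end C37
end

section

/-!
MP_c37615_al (S02984), part D-IIa: task G04 (complexification)
-/

set_option autoImplicit false

open Filter Topology Polynomial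

namespace C37

/-- complexification -/
noncomputable def cmat (g : Mat) : Matrix (Fin 7) (Fin 7) ℂ := g.map Complex.ofReal
noncomputable def cvec (v : V) : Fin 7 → ℂ := fun i => (v i : ℂ)
/-- real part of a complex matrix -/
noncomputable def rmat (N : Matrix (Fin 7) (Fin 7) ℂ) : Mat := N.map Complex.re

/-- G04a. `Matrix.map_mul`-type lemmas (`(RingHom.mapMatrix Complex.ofRealHom)`). -/
theorem cmat_mul (g h : Mat) : cmat (g * h) = cmat g * cmat h := by
  ext i j
  simp [cmat, Matrix.mul_apply]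
theorem cmat_one : cmat 1 = 1 := by
  ext i j
  by_cases h : i = j
  · subst h; simp [cmat]
  · simp [cmat, Matrix.one_apply_ne h]
theorem cmat_pow (g : Mat) (n : ℕ) : cmat (g ^ n) = cmat g ^ n := by
  induction n with
  | zero => rw [pow_zero, pow_zero, cmat_one]
  | succ n ih => rw [pow_succ, pow_succ, cmat_mul, ih]

/-- G04b. entrywise: Re(∑ h_ik N_kj) = ∑ h_ik Re N_kj for real h. -/
theorem rmat_mul_left (h : Mat) (N : Matrix (Fin 7) (Fin 7) ℂ) : rmat (cmat h * N) = h * rmat N := by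
  ext i j
  simp only [rmat, cmat, Matrix.mul_apply, Matrix.map_apply, Complex.re_sum, Complex.re_ofReal_mul]
theorem rmat_mul_right (h : Mat) (N : Matrix (Fin 7) (Fin 7) ℂ) : rmat (N * cmat h) = rmat N * h := by
  ext i j
  simp only [rmat, cmat, Matrix.mul_apply, Matrix.map_apply, Complex.re_sum, Complex.re_mul_ofReal]
theorem rmat_add (N N' : Matrix (Fin 7) (Fin 7) ℂ) : rmat (N + N') = rmat N + rmat N' := by
  ext i j
  simp [rmat]
theorem rmat_one : rmat 1 = 1 := by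
  ext i j
  by_cases h : i = j
  · subst h; simp [rmat]
  · simp [rmat, Matrix.one_apply_ne h]

theorem G04_mulVec (N : Matrix (Fin 7) (Fin 7) ℂ) (v : V) (i : Fin 7) :
    (rmat N).mulVec v i = (N.mulVec (cvec v) i).re := by
  simp only [Matrix.mulVec, dotProduct, rmat, cvec, Matrix.map_apply, Complex.re_sum, Complex.re_mul_ofReal]

/-- G04c. `‖g^n (rmat N) v‖ ≤ ‖(cmat g ^ n) (N (cvec v))‖`
(coordinates: the left side is the real part of the right side, because `rmat (cmat (g^n) * N) = g^n * rmat N`;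
`Complex.abs_re_le_norm`; sup norms, `norm_le_pi_norm`). -/
theorem norm_rmat_le (g : Mat) (N : Matrix (Fin 7) (Fin 7) ℂ) (v : V) (n : ℕ) :
    ‖(g ^ n).mulVec ((rmat N).mulVec v)‖ ≤ ‖(cmat g ^ n).mulVec (N.mulVec (cvec v))‖ := by
  rw [pi_norm_le_iff_of_nonneg (norm_nonneg _)]
  intro i
  rw [Matrix.mulVec_mulVec, ← rmat_mul_left, G04_mulVec, cmat_pow, ← Matrix.mulVec_mulVec, Real.norm_eq_abs]
  exact (Complex.abs_re_le_norm _).trans (norm_le_pi_norm ((cmat g ^ n).mulVec (N.mulVec (cvec v))) i)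

end C37
end

section

/-!
MP_c37615_al (S02984), part D-IIa: task P02 (Vlt, Vsub, Veq and commuting matrices)
-/

set_option autoImplicit false

open Filter Topology

namespace C37

private theorem P02_comm {g h : Mat} (hc : h * g = g * h) (n : ℕ) (v : V) :
    (g ^ n).mulVec (h.mulVec v) = h.mulVec ((g ^ n).mulVec v) := by
  have h1 : h * g ^ n = g ^ n * h := (Commute.pow_right (show Commute h g from hc) n)
  rw [Matrix.mulVec_mulVec, Matrix.mulVec_mulVec, h1]

/-- P02a. `ρ ^ n ≤ 1 ≤ ρ' ^ n`; replace C by |C|. -/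
theorem Vlt_le_Vsub (g : Mat) : Vlt g ≤ Vsub g := by
  intro v hv
  rw [mem_Vlt] at hv
  rw [mem_Vsub]
  obtain ⟨C, ρ, h0, h1, h⟩ := hv
  intro ρ' hρ'
  refine ⟨|C|, fun n => (h n).trans ?_⟩
  have h2 : ρ ^ n ≤ ρ' ^ n := pow_le_pow_left₀ h0.le (h1.le.trans hρ'.le) n
  calc C * ρ ^ n ≤ |C| * ρ ^ n := mul_le_mul_of_nonneg_right (le_abs_self C) (by positivity)
    _ ≤ |C| * ρ' ^ n := mul_le_mul_of_nonneg_left h2 (abs_nonneg C)

/-- P02b. `g^n (h v) = h (g^n v)` (`Commute.pow_right`), then `d2_mulVec_bound h`. -/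
theorem Vlt_comm {g h : Mat} (hc : h * g = g * h) {v : V} (hv : v ∈ Vlt g) : h.mulVec v ∈ Vlt g := by
  rw [mem_Vlt] at hv ⊢
  obtain ⟨C, ρ, h0, h1, hb⟩ := hv
  obtain ⟨c, hc1, hcb⟩ := d2_mulVec_bound h
  refine ⟨c * C, ρ, h0, h1, fun n => ?_⟩
  rw [P02_comm hc n v, mul_assoc]
  exact (hcb _).trans (mul_le_mul_of_nonneg_left (hb n) (by linarith))

/-- P02c. same -/
theorem Vsub_comm {g h : Mat} (hc : h * g = g * h) {v : V} (hv : v ∈ Vsub g) : h.mulVec v ∈ Vsub g := by
  rw [mem_Vsub] at hv ⊢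
  intro ρ hρ
  obtain ⟨C, hb⟩ := hv ρ hρ
  obtain ⟨c, hc1, hcb⟩ := d2_mulVec_bound h
  refine ⟨c * C, fun n => ?_⟩
  rw [P02_comm hc n v, mul_assoc]
  exact (hcb _).trans (mul_le_mul_of_nonneg_left (hb n) (by linarith))

/-- P02d. from P02c for g and g⁻¹ (`d2_comm_inv`). -/
theorem Veq_comm {g h : Mat} (hg : IsUnit g.det) (hc : h * g = g * h) {v : V} (hv : v ∈ Veq g) :
    h.mulVec v ∈ Veq g := by
  rw [mem_Veq] at hv ⊢
  exact ⟨Vsub_comm hc hv.1, Vsub_comm (d2_comm_inv hg hc) hv.2⟩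

end C37
end

section

/-!
MP_c37615_al (S02984), part D-IIa: task P03 (Vlt, Vsub and the form, the cross product)
-/

set_option autoImplicit false

open Filter Topology

namespace C37

/-- a number larger than one which is still contracted by `ρ` -/
private theorem P03_rho {ρ : ℝ} (h0 : 0 < ρ) (h1 : ρ < 1) : ∃ ρ' : ℝ, 1 < ρ' ∧ 0 < ρ * ρ' ∧ ρ * ρ' < 1 := by
  refine ⟨(1 + 1 / ρ) / 2, ?_, ?_, ?_⟩
  · have : 1 < 1 / ρ := by rw [lt_div_iff₀ h0]; linarith
    linarith
  · positivity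
  · have : ρ * ((1 + 1 / ρ) / 2) = (ρ + 1) / 2 := by field_simp
    rw [this]; linarith

/-- P03a. `B u v = B (g^n u) (g^n v)` (d2_B_inv for g^n, d2_InG_pow), and
`|B (g^n u) (g^n v)| ≤ 7 C ρ^n C' ρ'^n` with `ρ < 1`, `ρ' > 1` chosen with `ρ ρ' < 1`
(ρ' = (1 + 1/ρ)/2 …); the right side tends to 0. -/
theorem Vlt_B {g : Mat} (hg : InG g) {u v : V} (hu : u ∈ Vlt g) (hv : v ∈ Vsub g) : B u v = 0 := by
  rw [mem_Vlt] at hu
  rw [mem_Vsub] at hv
  obtain ⟨C, ρ, h0, h1, hb⟩ := hu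
  obtain ⟨ρ', hρ', hp0, hp1⟩ := P03_rho h0 h1
  obtain ⟨C', hb'⟩ := hv ρ' hρ'
  have hle : ∀ n : ℕ, |B u v| ≤ 7 * (|C| * |C'|) * (ρ * ρ') ^ n := by
    intro n
    have e1 : B u v = B ((g ^ n).mulVec u) ((g ^ n).mulVec v) := (d2_B_inv (d2_InG_pow hg n) u v).symm
    rw [e1]
    refine (d2_abs_B _ _).trans ?_
    have h3 : ‖(g ^ n).mulVec u‖ ≤ |C| * ρ ^ n :=
      (hb n).trans (mul_le_mul_of_nonneg_right (le_abs_self C) (by positivity))
    have h4 : ‖(g ^ n).mulVec v‖ ≤ |C'| * ρ' ^ n :=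
      (hb' n).trans (mul_le_mul_of_nonneg_right (le_abs_self C') (by positivity))
    have h5 : ‖(g ^ n).mulVec u‖ * ‖(g ^ n).mulVec v‖ ≤ (|C| * ρ ^ n) * (|C'| * ρ' ^ n) :=
      mul_le_mul h3 h4 (norm_nonneg _) (by positivity)
    calc 7 * (‖(g ^ n).mulVec u‖ * ‖(g ^ n).mulVec v‖) ≤ 7 * ((|C| * ρ ^ n) * (|C'| * ρ' ^ n)) := by linarith
      _ = 7 * (|C| * |C'|) * (ρ * ρ') ^ n := by rw [mul_pow]; ring
  have hlim : Tendsto (fun n : ℕ => 7 * (|C| * |C'|) * (ρ * ρ') ^ n) atTop (𝓝 (7 * (|C| * |C'|) * 0)) :=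
    (tendsto_pow_atTop_nhds_zero_of_lt_one hp0.le hp1).const_mul _
  rw [mul_zero] at hlim
  have : |B u v| ≤ 0 := ge_of_tendsto' hlim hle
  exact abs_eq_zero.mp (le_antisymm this (abs_nonneg _))

/-- P03b. `g^n (u × v) = (g^n u) × (g^n v)` (d2_cross_inv for g^n), d2_norm_cross; given ρ>1 use √ρ for u and v. -/
theorem Vsub_cross {g : Mat} (hg : InG g) {u v : V} (hu : u ∈ Vsub g) (hv : v ∈ Vsub g) :
    cross u v ∈ Vsub g := by
  rw [mem_Vsub] at hu hv ⊢
  intro ρ hρ
  have hs : 1 < Real.sqrt ρ := by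
    rw [Real.lt_sqrt (by norm_num)]
    simpa using hρ
  have hs2 : Real.sqrt ρ * Real.sqrt ρ = ρ := Real.mul_self_sqrt (by linarith)
  obtain ⟨C, hb⟩ := hu _ hs
  obtain ⟨C', hb'⟩ := hv _ hs
  refine ⟨6 * (|C| * |C'|), fun n => ?_⟩
  rw [← d2_cross_inv (d2_InG_pow hg n)]
  refine (d2_norm_cross _ _).trans ?_
  have h3 : ‖(g ^ n).mulVec u‖ ≤ |C| * Real.sqrt ρ ^ n :=
    (hb n).trans (mul_le_mul_of_nonneg_right (le_abs_self C) (by positivity))
  have h4 : ‖(g ^ n).mulVec v‖ ≤ |C'| * Real.sqrt ρ ^ n :=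
    (hb' n).trans (mul_le_mul_of_nonneg_right (le_abs_self C') (by positivity))
  have h5 : ‖(g ^ n).mulVec u‖ * ‖(g ^ n).mulVec v‖ ≤ (|C| * Real.sqrt ρ ^ n) * (|C'| * Real.sqrt ρ ^ n) :=
    mul_le_mul h3 h4 (norm_nonneg _) (by positivity)
  calc 6 * (‖(g ^ n).mulVec u‖ * ‖(g ^ n).mulVec v‖)
      ≤ 6 * ((|C| * Real.sqrt ρ ^ n) * (|C'| * Real.sqrt ρ ^ n)) := by linarith
    _ = 6 * (|C| * |C'|) * (Real.sqrt ρ * Real.sqrt ρ) ^ n := by rw [mul_pow]; ring
    _ = 6 * (|C| * |C'|) * ρ ^ n := by rw [hs2]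

/-- P03c. same with ρ<1 for u and ρ'>1, ρρ'<1 for v. -/
theorem Vlt_cross {g : Mat} (hg : InG g) {u v : V} (hu : u ∈ Vlt g) (hv : v ∈ Vsub g) :
    cross u v ∈ Vlt g := by
  rw [mem_Vlt] at hu ⊢
  rw [mem_Vsub] at hv
  obtain ⟨C, ρ, h0, h1, hb⟩ := hu
  obtain ⟨ρ', hρ', hp0, hp1⟩ := P03_rho h0 h1
  obtain ⟨C', hb'⟩ := hv ρ' hρ'
  refine ⟨6 * (|C| * |C'|), ρ * ρ', hp0, hp1, fun n => ?_⟩
  rw [← d2_cross_inv (d2_InG_pow hg n)]
  refine (d2_norm_cross _ _).trans ?_
  have h3 : ‖(g ^ n).mulVec u‖ ≤ |C| * ρ ^ n :=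
    (hb n).trans (mul_le_mul_of_nonneg_right (le_abs_self C) (by positivity))
  have h4 : ‖(g ^ n).mulVec v‖ ≤ |C'| * ρ' ^ n :=
    (hb' n).trans (mul_le_mul_of_nonneg_right (le_abs_self C') (by positivity))
  have h5 : ‖(g ^ n).mulVec u‖ * ‖(g ^ n).mulVec v‖ ≤ (|C| * ρ ^ n) * (|C'| * ρ' ^ n) :=
    mul_le_mul h3 h4 (norm_nonneg _) (by positivity)
  calc 6 * (‖(g ^ n).mulVec u‖ * ‖(g ^ n).mulVec v‖)
      ≤ 6 * ((|C| * ρ ^ n) * (|C'| * ρ' ^ n)) := by linarith
    _ = 6 * (|C| * |C'|) * (ρ * ρ') ^ n := by rw [mul_pow]; ring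

end C37
end

section

/-!
MP_c37615_al (S02984), part D-IIa: task N01 (subalgebras)
-/

set_option autoImplicit false

open Filter Topology Polynomial

namespace C37

/-- the bilinear form of B -/
noncomputable def N01_BF : LinearMap.BilinForm ℝ V :=
  LinearMap.mk₂ ℝ B d2_B_add_left (fun c m n => by rw [d2_B_smul_left, smul_eq_mul])
    d2_B_add_right (fun c m n => by rw [d2_B_smul_right, smul_eq_mul])

theorem N01_BF_apply (u v : V) : N01_BF u v = B u v := rfl

theorem N01_compl (W : Submodule ℝ V) (hnd : ∀ u ∈ W, (∀ v ∈ W, B u v = 0) → u = 0) :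
    IsCompl W (N01_BF.orthogonal W) := by
  apply LinearMap.BilinForm.isCompl_orthogonal_of_restrict_nondegenerate
  · intro x y hxy
    rw [N01_BF_apply, d2_B_comm, ← N01_BF_apply]
    exact hxy
  · constructor
    · intro x hx
      apply Subtype.ext
      apply hnd x.1 x.2
      intro v hv
      exact hx ⟨v, hv⟩
    · intro x hx
      apply Subtype.ext
      apply hnd x.1 x.2
      intro v hv
      rw [d2_B_comm]
      exact hx ⟨v, hv⟩

/-- N01a. A nonzero subspace W' on which B is nondegenerate contains w with B w w ≠ 0 (polarisation). Here W' is the orthogonal of W: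
if W ≠ ⊤ and W is nondegenerate there is w with B w u = 0 for all u ∈ W, and B w w ≠ 0.
(W^⊥ ≠ 0: `LinearMap.BilinForm` orthogonal, V = W ⊕ W^⊥ (`LinearMap.BilinForm.isCompl_orthogonal_of_restrict_nondegenerate`); if B w w = 0 for all w ∈ W^⊥ then
B = 0 on W^⊥ and W^⊥ is orthogonal to everything, contradiction with d2_nondeg.) You may define the bilinear form of B as
`LinearMap.mk₂ ℝ B ...`. -/
theorem d2_aniso (W : Submodule ℝ V) (hnd : ∀ u ∈ W, (∀ v ∈ W, B u v = 0) → u = 0) (hne : W ≠ ⊤) :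
    ∃ w : V, (∀ u ∈ W, B w u = 0) ∧ B w w ≠ 0 := by
  by_contra hcon
  push Not at hcon
  have hc := N01_compl W hnd
  -- B vanishes on the orthogonal
  have hO : ∀ w : V, (∀ u ∈ W, B w u = 0) → w = 0 := by
    intro w hw
    apply d2_nondeg
    intro v
    have hv : v ∈ W ⊔ N01_BF.orthogonal W := by rw [hc.sup_eq_top]; trivial
    obtain ⟨a, ha, b, hb, hab⟩ := Submodule.mem_sup.1 hv
    have hb' : ∀ u ∈ W, B b u = 0 := by
      intro u hu
      rw [d2_B_comm]
      exact (LinearMap.BilinForm.mem_orthogonal_iff.1 hb) u hu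
    rw [← hab, d2_B_add_right, hw a ha, zero_add]
    have h1 := hcon w hw
    have h2 := hcon b hb'
    have h3 := hcon (w + b) (fun u hu => by rw [d2_B_add_left, hw u hu, hb' u hu, add_zero])
    rw [d2_B_add_left, d2_B_add_right, d2_B_add_right, h1, h2, d2_B_comm b w] at h3
    linarith
  apply hne
  rw [eq_top_iff]
  intro v _
  have hv : v ∈ W ⊔ N01_BF.orthogonal W := by rw [hc.sup_eq_top]; trivial
  obtain ⟨a, ha, b, hb, hab⟩ := Submodule.mem_sup.1 hv
  have hb' : ∀ u ∈ W, B b u = 0 := by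
    intro u hu
    rw [d2_B_comm]
    exact (LinearMap.BilinForm.mem_orthogonal_iff.1 hb) u hu
  have hb0 := hO b hb'
  rw [← hab, hb0, add_zero]
  exact ha

theorem N01_alt (u v w : V) : B (cross u v) w = -B (cross u w) v := by
  rw [B_cross, B_cross]
  simp only [phi, e3, det3]
  ring

theorem N01_alt0 (u w : V) : B (cross u w) w = 0 := by
  rw [B_cross]
  simp only [phi, e3, det3]
  ring

/-- the linear map u ↦ cross u w -/
noncomputable def N01_L (w : V) : V →ₗ[ℝ] V where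
  toFun u := cross u w
  map_add' u v := d2_cross_add_left u v w
  map_smul' c u := d2_cross_smul_left c u w

/-- N01b. With w from N01a: the map u ↦ cross u w on W is injective (`cross w (cross w u) = -(B w w) u + B(w,u) w`, cross_cross_self);
its image U is orthogonal to W (B (cross u w) u' = phi u w u' = - B (cross u u') w = 0 since cross u u' ∈ W; B_cross, phi is alternating: ring)
and to w. W ⊓ U = 0 (nondegeneracy of W), w ∉ W + U..: finrank W + finrank U + 1 ≤ 7 (W + ℝw + U is direct), finrank U = finrank W. -/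
theorem d2_dim (W : Submodule ℝ V) (hW : ∀ u ∈ W, ∀ v ∈ W, cross u v ∈ W)
    (hnd : ∀ u ∈ W, (∀ v ∈ W, B u v = 0) → u = 0) (hne : W ≠ ⊤) : Module.finrank ℝ W ≤ 3 := by
  obtain ⟨w, hw, hww⟩ := d2_aniso W hnd hne
  have hinj : Set.InjOn (N01_L w) W := by
    intro a ha b hb hab
    have h1 : N01_L w (a - b) = 0 := by rw [map_sub, hab, sub_self]
    have hmem : a - b ∈ W := W.sub_mem ha hb
    have h2 : cross (a - b) w = 0 := h1
    have h3 : cross w (a - b) = 0 := by rw [d2_cross_comm, h2, neg_zero]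
    have h4 := cross_cross_self w (a - b)
    rw [h3, hw _ hmem, zero_smul, add_zero] at h4
    have h5 : cross w 0 = 0 := by
      have := d2_cross_smul_right 0 w 0
      rwa [zero_smul, zero_smul] at this
    rw [h5] at h4
    have h6 : -(B w w) ≠ 0 := neg_ne_zero.2 hww
    exact sub_eq_zero.1 ((smul_eq_zero.1 h4.symm).resolve_left h6)
  have hfr : Module.finrank ℝ (W.map (N01_L w)) = Module.finrank ℝ W := by
    have h1 : W.map (N01_L w) = LinearMap.range ((N01_L w).comp W.subtype) := by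
      rw [LinearMap.range_comp, Submodule.range_subtype]
    rw [h1, LinearMap.finrank_range_of_inj]
    intro a b hab
    exact Subtype.ext (hinj a.2 b.2 hab)
  have hinf : W ⊓ W.map (N01_L w) = ⊥ := by
    rw [eq_bot_iff]
    rintro x ⟨hx, u, hu, hux⟩
    have hux' : cross u w = x := hux
    rw [Submodule.mem_bot]
    apply hnd x hx
    intro v hv
    rw [← hux', N01_alt, d2_B_comm, hw _ (hW u hu v hv), neg_zero]
  have hne' : W ⊔ W.map (N01_L w) ≠ ⊤ := by
    intro htop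
    have hmem : w ∈ W ⊔ W.map (N01_L w) := by rw [htop]; trivial
    obtain ⟨a, ha, b, ⟨u, hu, hub⟩, hab⟩ := Submodule.mem_sup.1 hmem
    have hub' : cross u w = b := hub
    apply hww
    have h7 := d2_B_add_right w a b
    rw [hab] at h7
    rw [h7, hw a ha, ← hub', d2_B_comm, N01_alt0, add_zero]
  have h1 := Submodule.finrank_lt hne'
  have h2 := Submodule.finrank_sup_add_finrank_inf_eq W (W.map (N01_L w))
  rw [hinf, finrank_bot, add_zero, hfr] at h2
  have h3 : Module.finrank ℝ V = 7 := by simp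
  rw [h3, h2] at h1
  omega

end C37
end

section

/-!
MP_c37615_al (S02984), part D-IIa: task P04 (conjugation)
-/

set_option autoImplicit false

open Filter Topology

namespace C37

private theorem P04_pow {g k : Mat} (hk : IsUnit k.det) (n : ℕ) :
    (k⁻¹ * g * k) ^ n = k⁻¹ * g ^ n * k := by
  have h1 : k * k⁻¹ = 1 := Matrix.mul_nonsing_inv k hk
  have h2 : k⁻¹ * k = 1 := Matrix.nonsing_inv_mul k hk
  induction n with
  | zero => rw [pow_zero, pow_zero, mul_one, h2]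
  | succ n ih =>
    rw [pow_succ, ih, pow_succ]
    calc k⁻¹ * g ^ n * k * (k⁻¹ * g * k) = k⁻¹ * g ^ n * (k * k⁻¹) * g * k := by simp only [mul_assoc]
      _ = k⁻¹ * (g ^ n * g) * k := by rw [h1, mul_one]; simp only [mul_assoc]

private theorem P04_apply {g k : Mat} (hk : IsUnit k.det) (n : ℕ) (v : V) :
    ((k⁻¹ * g * k) ^ n).mulVec (k⁻¹.mulVec v) = k⁻¹.mulVec ((g ^ n).mulVec v) := by
  rw [P04_pow hk n, Matrix.mulVec_mulVec, Matrix.mulVec_mulVec]
  have h1 : k * k⁻¹ = 1 := Matrix.mul_nonsing_inv k hk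
  rw [mul_assoc, h1, mul_one]

private theorem P04_sub {g k : Mat} (hk : IsUnit k.det) {v : V} (hv : v ∈ Vsub g) :
    k⁻¹.mulVec v ∈ Vsub (k⁻¹ * g * k) := by
  rw [mem_Vsub] at hv ⊢
  intro ρ hρ
  obtain ⟨C, hb⟩ := hv ρ hρ
  obtain ⟨c, hc1, hcb⟩ := d2_mulVec_bound k⁻¹
  refine ⟨c * C, fun n => ?_⟩
  rw [P04_apply hk n v, mul_assoc]
  exact (hcb _).trans (mul_le_mul_of_nonneg_left (hb n) (by linarith))

/-- P04a. conjugation: `(k⁻¹ g k)^n (k⁻¹ v) = k⁻¹ g^n v`, bounded by `d2_mulVec_bound k⁻¹`. -/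
theorem Vlt_conj {g k : Mat} (hk : IsUnit k.det) {v : V} (hv : v ∈ Vlt g) : k⁻¹.mulVec v ∈ Vlt (k⁻¹ * g * k) := by
  rw [mem_Vlt] at hv ⊢
  obtain ⟨C, ρ, h0, h1, hb⟩ := hv
  obtain ⟨c, hc1, hcb⟩ := d2_mulVec_bound k⁻¹
  refine ⟨c * C, ρ, h0, h1, fun n => ?_⟩
  rw [P04_apply hk n v, mul_assoc]
  exact (hcb _).trans (mul_le_mul_of_nonneg_left (hb n) (by linarith))

/-- P04b. same; `(k⁻¹ g k)⁻¹ = k⁻¹ g⁻¹ k` (Matrix.mul_inv_rev, Matrix.nonsing_inv_nonsing_inv). -/
theorem Veq_conj {g k : Mat} (hk : IsUnit k.det) {v : V} (hv : v ∈ Veq g) : k⁻¹.mulVec v ∈ Veq (k⁻¹ * g * k) := by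
  rw [mem_Veq] at hv ⊢
  refine ⟨P04_sub hk hv.1, ?_⟩
  have h1 : (k⁻¹ * g * k)⁻¹ = k⁻¹ * g⁻¹ * k := by
    rw [Matrix.mul_inv_rev, Matrix.mul_inv_rev, Matrix.nonsing_inv_nonsing_inv k hk, mul_assoc]
  rw [h1]
  exact P04_sub hk hv.2

end C37
end

section

/-!
MP_c37615_al (S02984), part D-IIa: task F01 (null planes, dual bases)
-/

set_option autoImplicit false

open Filter Topology Polynomial

namespace C37

theorem F01_span (P : Submodule ℝ V) (hdim : Module.finrank ℝ P = 2) {u v : V} (hu : u ∈ P)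
    (hv : v ∈ P) (h : ∀ s t : ℝ, s • u + t • v = 0 → s = 0 ∧ t = 0) :
    Submodule.span ℝ {u, v} = P := by
  have hli : LinearIndependent ℝ ![u, v] := LinearIndependent.pair_iff.2 h
  have hr : Set.range ![u, v] = {u, v} := by
    rw [Matrix.range_cons, Matrix.range_cons, Matrix.range_empty, Set.union_empty,
      Set.singleton_union]
  apply Submodule.eq_of_le_of_finrank_eq
  · rw [Submodule.span_le]
    intro w hw
    rcases hw with rfl | hw
    · exact hu
    · rw [Set.mem_singleton_iff.1 hw]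
      exact hv
  · rw [hdim, ← hr, finrank_span_eq_card hli, Fintype.card_fin]

/-- F01a. Let u, v ∈ P, w := cross u v ∈ P. `cross u w = -(B u u) v + (B u v) u = 0` (cross_cross_self), `cross v w = - cross v (cross v u) = 0`.
If w ≠ 0 then u, v are independent (cross u (c u) = 0), so they span P, w = c u + d v; 0 = cross u w = d w, 0 = cross v w = -c w; so c = d = 0, w = 0. -/
theorem d2_null_plane (P : Submodule ℝ V) (hdim : Module.finrank ℝ P = 2) (hB : ∀ u ∈ P, ∀ v ∈ P, B u v = 0)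
    (hx : ∀ u ∈ P, ∀ v ∈ P, cross u v ∈ P) : ∀ u ∈ P, ∀ v ∈ P, cross u v = 0 := by
  intro u hu v hv
  by_contra hne
  have huv : ∀ s t : ℝ, cross u (s • u + t • v) = t • cross u v := by
    intro s t
    rw [d2_cross_add_right, d2_cross_smul_right, d2_cross_smul_right, d2_cross_self, smul_zero,
      zero_add]
  have hvu : ∀ s t : ℝ, cross v (s • u + t • v) = (-s) • cross u v := by
    intro s t
    rw [d2_cross_add_right, d2_cross_smul_right, d2_cross_smul_right, d2_cross_self, smul_zero,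
      add_zero, d2_cross_comm v u, smul_neg, neg_smul]
  have hz : cross u 0 = 0 := by
    have h := d2_cross_smul_right 0 u 0
    rwa [zero_smul, zero_smul] at h
  have hz' : cross v 0 = 0 := by
    have h := d2_cross_smul_right 0 v 0
    rwa [zero_smul, zero_smul] at h
  have hspan := F01_span P hdim hu hv (by
    intro s t h0
    have h1 := huv s t
    have h2 := hvu s t
    rw [h0, hz] at h1
    rw [h0, hz'] at h2
    have h3 := (smul_eq_zero.1 h1.symm).resolve_right hne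
    have h4 := (smul_eq_zero.1 h2.symm).resolve_right hne
    exact ⟨by linarith, h3⟩)
  have hw : cross u v ∈ Submodule.span ℝ {u, v} := by
    rw [hspan]
    exact hx u hu v hv
  obtain ⟨c, d, hcd⟩ := Submodule.mem_span_pair.1 hw
  have h1 := huv c d
  have h2 := hvu c d
  have e1 : cross u (cross u v) = 0 := by
    rw [cross_cross_self, hB u hu u hu, hB u hu v hv, neg_zero, zero_smul, zero_smul, add_zero]
  have e2 : cross v (cross u v) = 0 := by
    rw [d2_cross_comm u v]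
    have h3 := d2_cross_smul_right (-1) v (cross v u)
    rw [neg_one_smul, neg_one_smul] at h3
    rw [h3, cross_cross_self, hB v hv v hv, hB v hv u hu, neg_zero, zero_smul, zero_smul, add_zero,
      neg_zero]
  rw [hcd, e1] at h1
  rw [hcd, e2] at h2
  have h3 := (smul_eq_zero.1 h1.symm).resolve_right hne
  have h4 := (smul_eq_zero.1 h2.symm).resolve_right hne
  apply hne
  rw [← hcd, h3, neg_eq_zero.1 h4, zero_smul, zero_smul, add_zero]

/-- F01b. P, R two-dimensional, in perfect duality for B: dual bases (with the normalisation -1/2). The map R → (Fin 2 → ℝ), r ↦ (B p r, B p' r) for a basis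
p, p' of P is injective (if B p r = B p' r = 0 then B u r = 0 for all u ∈ P, so r = 0), hence surjective. -/
theorem d2_dual_basis (P R : Submodule ℝ V) (hP : Module.finrank ℝ P = 2) (hR : Module.finrank ℝ R = 2)
    (hpair : ∀ r ∈ R, (∀ u ∈ P, B r u = 0) → r = 0) :
    ∃ p ∈ P, ∃ p' ∈ P, ∃ r ∈ R, ∃ r' ∈ R, B p r = -1/2 ∧ B p' r' = -1/2 ∧ B p r' = 0 ∧ B p' r = 0 ∧
      Submodule.span ℝ {p', p} = P ∧ Submodule.span ℝ {r', r} = R := by
  let b : Module.Basis (Fin 2) ℝ P := Module.finBasisOfFinrankEq ℝ P hP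
  set p : V := (b 0 : V) with hp
  set p' : V := (b 1 : V) with hp'
  have hrep : ∀ u ∈ P, ∃ c d : ℝ, u = c • p + d • p' := by
    intro u hu
    have h := b.sum_repr ⟨u, hu⟩
    rw [Fin.sum_univ_two] at h
    have h1 := congrArg (Subtype.val) h
    exact ⟨b.repr ⟨u, hu⟩ 0, b.repr ⟨u, hu⟩ 1, h1.symm⟩
  let Φ : R →ₗ[ℝ] (Fin 2 → ℝ) :=
    { toFun := fun r => ![B p r, B p' r]
      map_add' := by
        intro r s
        funext i
        fin_cases i
        · exact d2_B_add_right p r s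
        · exact d2_B_add_right p' r s
      map_smul' := by
        intro c r
        funext i
        fin_cases i
        · exact d2_B_smul_right c p r
        · exact d2_B_smul_right c p' r }
  have hΦ0 : ∀ r : R, Φ r 0 = B p r := fun r => rfl
  have hΦ1 : ∀ r : R, Φ r 1 = B p' r := fun r => rfl
  have hinj : Function.Injective Φ := by
    rw [← LinearMap.ker_eq_bot, LinearMap.ker_eq_bot']
    intro r hr
    have h0 : B p r = 0 := by rw [← hΦ0, hr]; rfl
    have h1 : B p' r = 0 := by rw [← hΦ1, hr]; rfl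
    apply Subtype.ext
    apply hpair r r.2
    intro u hu
    obtain ⟨c, d, rfl⟩ := hrep u hu
    rw [d2_B_add_right, d2_B_smul_right, d2_B_smul_right, d2_B_comm _ p, d2_B_comm _ p', h0, h1,
      mul_zero, mul_zero, add_zero]
  have hsurj : Function.Surjective Φ := by
    rw [← LinearMap.injective_iff_surjective_of_finrank_eq_finrank]
    · exact hinj
    · rw [hR, Module.finrank_fin_fun]
  obtain ⟨r, hr⟩ := hsurj ![-1/2, 0]
  obtain ⟨r', hr'⟩ := hsurj ![0, -1/2]
  have a1 : B p r = -1/2 := by rw [← hΦ0, hr]; rfl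
  have a2 : B p' r = 0 := by rw [← hΦ1, hr]; rfl
  have a3 : B p r' = 0 := by rw [← hΦ0, hr']; rfl
  have a4 : B p' r' = -1/2 := by rw [← hΦ1, hr']; rfl
  refine ⟨p, (b 0).2, p', (b 1).2, r, r.2, r', r'.2, a1, a4, a3, a2, ?_, ?_⟩
  · apply F01_span P hP (b 1).2 (b 0).2
    intro s t h0
    have h1 : B (s • p' + t • p) r = 0 := by rw [h0, d2_B_zero_left]
    have h2 : B (s • p' + t • p) r' = 0 := by rw [h0, d2_B_zero_left]
    rw [d2_B_add_left, d2_B_smul_left, d2_B_smul_left, a1, a2] at h1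
    rw [d2_B_add_left, d2_B_smul_left, d2_B_smul_left, a3, a4] at h2
    constructor <;> linarith
  · apply F01_span R hR r'.2 r.2
    intro s t h0
    have h1 : B p (s • (r' : V) + t • (r : V)) = 0 := by rw [h0, d2_B_zero_right]
    have h2 : B p' (s • (r' : V) + t • (r : V)) = 0 := by rw [h0, d2_B_zero_right]
    rw [d2_B_add_right, d2_B_smul_right, d2_B_smul_right, a1, a3] at h1
    rw [d2_B_add_right, d2_B_smul_right, d2_B_smul_right, a2, a4] at h2
    constructor <;> linarith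

end C37
end

section

/-!
MP_c37615_al (S02984), part D-IIa: task F02 (frames)
-/

set_option autoImplicit false

open Filter Topology Polynomial

namespace C37

/-- F02a. `cross va w = w` means w ∈ span(x1,x2,x3): coordinates. -/
theorem d2_eig_va (w : V) (hw : cross va w = w) : ∃ c : Fin 3 → ℝ, w = xv c := by
  have h0 := congrFun hw 0
  have h1 := congrFun hw 1
  have h2 := congrFun hw 2
  have h3 := congrFun hw 3
  have h4 := congrFun hw 4
  have h5 := congrFun hw 5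
  have h6 := congrFun hw 6
  simp [cross, va] at h0 h1 h2 h3 h4 h5 h6
  refine ⟨![w 0 - w 4, w 1 - w 5, -(w 2 + w 6)], ?_⟩
  ext i
  fin_cases i <;> simp [xv, x1, x2, x3] <;> linarith

/-- F02b. phi (xv c) (xv c') (xv c'') = -(1/2) det(c, c', c'') (ring). -/
theorem d2_phi_xv (c c' c'' : Fin 3 → ℝ) : phi (xv c) (xv c') (xv c'') =
    -(1/2) * Matrix.det (Matrix.of ![c, c', c'']) := by
  rw [Matrix.det_fin_three]
  simp [phi, e3, det3, xv, x1, x2, x3]
  ring

/-- F02c. W-frames. e with B e e = -1, cross e ui = ui, phi u1 u2 u3 = -1/2: there is g in G with g va = e, g xi = ui.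
GX_trans_neg gives g0 with g0 va = e; wi := g0⁻¹ ui satisfy cross va wi = wi (d2_cross_inv), so wi = xv ci; phi w1 w2 w3 = phi u1 u2 u3 = -1/2 so
the matrix A with columns ci has det 1; GX_iota gives k with k va = va, k (xv c) = xv (A c), so k xi = wi. g = g0 * k. -/
theorem d2_Wframe (e u1 u2 u3 : V) (he : B e e = -1) (h1 : cross e u1 = u1) (h2 : cross e u2 = u2)
    (h3 : cross e u3 = u3) (hphi : phi u1 u2 u3 = -1/2) :
    ∃ g : Mat, InG g ∧ g.mulVec va = e ∧ g.mulVec x1 = u1 ∧ g.mulVec x2 = u2 ∧ g.mulVec x3 = u3 := by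
  obtain ⟨g0, hg0, hva⟩ := GX_trans_neg e he
  have hdet := d2_InG_det hg0
  have hgi := d2_InG_inv hg0
  have hva' : g0⁻¹.mulVec e = va := by rw [← hva, d2_inv_mulVec hdet]
  have hx : ∀ u : V, cross e u = u → ∃ c : Fin 3 → ℝ, g0⁻¹.mulVec u = xv c := by
    intro u hu
    apply d2_eig_va
    rw [← hva', d2_cross_inv hgi, hu]
  obtain ⟨c1, hc1⟩ := hx u1 h1
  obtain ⟨c2, hc2⟩ := hx u2 h2
  obtain ⟨c3, hc3⟩ := hx u3 h3
  have hphi' := hgi u1 u2 u3
  rw [hc1, hc2, hc3, d2_phi_xv, hphi] at hphi'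
  have hdetA : (Matrix.of ![c1, c2, c3]).transpose.det = 1 := by
    rw [Matrix.det_transpose]
    linarith
  obtain ⟨k, hk, hkva, hkx, -⟩ := GX_iota _ hdetA
  have hcol : ∀ j : Fin 3, (Matrix.of ![c1, c2, c3]).transpose.mulVec (Pi.single j 1) = ![c1, c2, c3] j := by
    intro j
    rw [Matrix.mulVec_single_one]
    ext i
    fin_cases j <;> rfl
  have x1e : x1 = xv (Pi.single 0 1) := by
    simp [xv]
  have x2e : x2 = xv (Pi.single 1 1) := by
    simp [xv]
  have x3e : x3 = xv (Pi.single 2 1) := by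
    simp [xv]
  refine ⟨g0 * k, d2_InG_mul hg0 hk, ?_, ?_, ?_, ?_⟩
  · rw [← Matrix.mulVec_mulVec, hkva, hva]
  · rw [← Matrix.mulVec_mulVec, x1e, hkx, hcol 0]
    show g0.mulVec (xv c1) = u1
    rw [← hc1, d2_mulVec_inv hdet]
  · rw [← Matrix.mulVec_mulVec, x2e, hkx, hcol 1]
    show g0.mulVec (xv c2) = u2
    rw [← hc2, d2_mulVec_inv hdet]
  · rw [← Matrix.mulVec_mulVec, x3e, hkx, hcol 2]
    show g0.mulVec (xv c3) = u3
    rw [← hc3, d2_mulVec_inv hdet]

theorem F02_cyc (u v w : V) : B (cross u v) w = B u (cross v w) := by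
  simp [B, cross]; ring
theorem F02_neg_left (u v : V) : cross (-u) v = -cross u v := by
  funext i; rw [Pi.neg_apply]; fin_cases i <;> simp [cross] <;> ring
theorem F02_neg_right (u v : V) : cross u (-v) = -cross u v := by
  funext i; rw [Pi.neg_apply]; fin_cases i <;> simp [cross] <;> ring
theorem F02_cross_zero (u : V) : cross u 0 = 0 := by
  funext i; rw [Pi.zero_apply]; fin_cases i <;> simp [cross]

/-- F02d. Use d2_Wframe with e = -2 cross p r, u1 = - cross r' p, u2 = p', u3 = r. Everything from d2_cyc: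
B e e = 4 (B p p B r r - (B p r)^2) = -1 (q_cross); cross e r = 2 cross r (cross p r) .. = r; cross e p' = 2 cross p' (cross p r) and by d2_cyc (X = p', Y = p, v = r)
cross p' (cross p r) = cross r (cross p' p) + .. = -(B p r) p' + 2 (B p' r) p = p'/2 ; cross e (cross r' p): compute cross e r' = -r', cross e p = -p by d2_cyc, then
d2_cyc for cross e (cross r' p); phi u1 u2 u3 = B (cross u1 u2) u3, cross u1 u2 = cross p' (cross r' p) = - cross p' (cross p r') = p (d2_cyc), so = B p r = -1/2.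
Then g y3 = g (cross x1 x2) = cross u1 u2 = p, g y2 = g (cross x3 x1) = cross u3 u1 = - cross r (cross r' p) = r' (d2_cyc with X = r, Y = r', v = p). -/
theorem d2_frame (p p' r r' : V) (h1 : B p p = 0) (h2 : B p p' = 0) (h3 : B p' p' = 0) (h4 : cross p p' = 0)
    (h5 : B r r = 0) (h6 : B r r' = 0) (h7 : B r' r' = 0) (h8 : cross r r' = 0)
    (h9 : B p r = -1/2) (h10 : B p' r' = -1/2) (h11 : B p r' = 0) (h12 : B p' r = 0) :
    ∃ g : Mat, InG g ∧ g.mulVec y3 = p ∧ g.mulVec x2 = p' ∧ g.mulVec x3 = r ∧ g.mulVec y2 = r' := by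
  have k9 : B r p = -1/2 := by rw [d2_B_comm, h9]
  have k11 : B r' p = 0 := by rw [d2_B_comm, h11]
  have k12 : B r p' = 0 := by rw [d2_B_comm, h12]
  have k10 : B r' p' = -1/2 := by rw [d2_B_comm, h10]
  have k2 : B p' p = 0 := by rw [d2_B_comm, h2]
  have k6 : B r' r = 0 := by rw [d2_B_comm, h6]
  have k4 : cross p' p = 0 := by rw [d2_cross_comm, h4, neg_zero]
  have k8 : cross r' r = 0 := by rw [d2_cross_comm, h8, neg_zero]
  obtain ⟨e, he⟩ : ∃ e : V, e = (-2 : ℝ) • cross p r := ⟨_, rfl⟩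
  have s1 : B e e = -1 := by
    rw [he, d2_B_smul_left, d2_B_smul_right, q_cross, h1, h5, h9]; norm_num
  have s2 : cross e r = r := by
    rw [he, d2_cross_smul_left, d2_cross_comm (cross p r) r, d2_cross_comm p r, F02_neg_right, cross_cross_self, h5, k9]
    module
  have s3 : cross e p' = p' := by
    rw [he, d2_cross_smul_left, d2_cross_comm (cross p r) p', d2_cyc p' p r, k4, F02_cross_zero, k2, h12, h9]
    module
  have t1 : cross r (cross r' p) = -r' := by
    rw [d2_cyc r r' p, h8, F02_cross_zero, h6, k9, k11]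
    module
  have s4 : cross e r' = -r' := by
    rw [he, d2_cross_smul_left, d2_cross_comm (cross p r) r', d2_cyc r' p r, t1, k11, k6, h9]
    module
  have s5 : cross e p = -p := by
    rw [he, d2_cross_smul_left, d2_cross_comm (cross p r) p, cross_cross_self, h1, h9]
    module
  have ber : B e r' = 0 := by
    rw [he, d2_B_smul_left, F02_cyc, h8, d2_B_zero_right, mul_zero]
  have bep : B e p = 0 := by
    rw [he, d2_B_smul_left, d2_B_comm, ← F02_cyc, d2_cross_self, d2_B_zero_left, mul_zero]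
  have s6 : cross e (cross r' p) = cross r' p := by
    rw [d2_cyc e r' p, s4, F02_neg_right, d2_cross_comm p r', ber, bep, k11]
    module
  have t2 : cross p (cross p' r') = (1/2 : ℝ) • p := by
    rw [d2_cyc p p' r', h4, F02_cross_zero, h2, h11, h10]
    module
  have t3 : cross p' (cross r' p) = p := by
    rw [d2_cyc p' r' p, t2, h10, k2, k11]
    module
  have u12 : cross (-cross r' p) p' = p := by
    rw [F02_neg_left, d2_cross_comm (cross r' p) p', neg_neg, t3]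
  obtain ⟨g, hg, hgva, hg1, hg2, hg3⟩ := d2_Wframe e (-cross r' p) p' r s1
    (by rw [F02_neg_right, s6]) s3 s2 (by rw [← B_cross, u12, h9])
  refine ⟨g, hg, ?_, hg2, hg3, ?_⟩
  · rw [← cross_x1_x2, ← d2_cross_inv hg, hg1, hg2, u12]
  · rw [← cross_x3_x1, ← d2_cross_inv hg, hg1, hg3, F02_neg_right, t1, neg_neg]

end C37
end

section

/-!
MP_c37615_al (S02984), part D-IIa: task J01 (the matrices jT: values and products)
-/

set_option autoImplicit false

open Filter Topology Polynomial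

namespace C37

theorem J01_mulVec (fa f1 f2 f3 g1 g2 g3 v : V) (i : Fin 7) :
    (ofNull fa f1 f2 f3 g1 g2 g3).mulVec v i = v 3 * fa i + (v 0 - v 4) * f1 i + (v 1 - v 5) * f2 i
      + (-(v 2 + v 6)) * f3 i + (-(v 0 + v 4)) * g1 i + (-(v 1 + v 5)) * g2 i + (v 2 - v 6) * g3 i := by
  have e : ∀ j k : Fin 7, ev j k = if k = j then 1 else 0 := by
    intro j k
    unfold ev
    rw [Pi.single_apply]
  simp only [Matrix.mulVec, dotProduct, ofNull, Matrix.of_apply, Fin.sum_univ_seven, e]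
  simp only [Fin.isValue, Fin.reduceEq, if_true, if_false]
  ring

/-- J01a. values of ofNull on the null basis (funext, fin_cases, simp [ofNull, Matrix.mulVec, dotProduct, Fin.sum_univ_succ, ev, va, x1, ...]; ring). -/
theorem ofNull_va (fa f1 f2 f3 g1 g2 g3 : V) : (ofNull fa f1 f2 f3 g1 g2 g3).mulVec va = fa := by
  funext i
  rw [J01_mulVec]
  simp [va]
theorem ofNull_x1 (fa f1 f2 f3 g1 g2 g3 : V) : (ofNull fa f1 f2 f3 g1 g2 g3).mulVec x1 = f1 := by
  funext i
  rw [J01_mulVec]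
  simp [x1]
  ring
theorem ofNull_x2 (fa f1 f2 f3 g1 g2 g3 : V) : (ofNull fa f1 f2 f3 g1 g2 g3).mulVec x2 = f2 := by
  funext i
  rw [J01_mulVec]
  simp [x2]
  ring
theorem ofNull_x3 (fa f1 f2 f3 g1 g2 g3 : V) : (ofNull fa f1 f2 f3 g1 g2 g3).mulVec x3 = f3 := by
  funext i
  rw [J01_mulVec]
  simp [x3]
theorem ofNull_y1 (fa f1 f2 f3 g1 g2 g3 : V) : (ofNull fa f1 f2 f3 g1 g2 g3).mulVec y1 = g1 := by
  funext i
  rw [J01_mulVec]
  simp [y1]
theorem ofNull_y2 (fa f1 f2 f3 g1 g2 g3 : V) : (ofNull fa f1 f2 f3 g1 g2 g3).mulVec y2 = g2 := by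
  funext i
  rw [J01_mulVec]
  simp [y2]
theorem ofNull_y3 (fa f1 f2 f3 g1 g2 g3 : V) : (ofNull fa f1 f2 f3 g1 g2 g3).mulVec y3 = g3 := by
  funext i
  rw [J01_mulVec]
  simp [y3]
  ring

/-- J01b. every vector in the null basis -/
theorem d2_null_expand (v : V) : v = (v 3) • va + (v 0 - v 4) • x1 + (v 1 - v 5) • x2 + (-(v 2 + v 6)) • x3
    + (-(v 0 + v 4)) • y1 + (-(v 1 + v 5)) • y2 + (v 2 - v 6) • y3 := by
  funext i
  simp only [Pi.add_apply, Pi.smul_apply, smul_eq_mul]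
  fin_cases i <;> simp [va, x1, x2, x3, y1, y2, y3] <;> ring

/-- J01c. two matrices equal on the null basis are equal -/
theorem d2_mat_ext {M N : Mat} (ha : M.mulVec va = N.mulVec va) (h1 : M.mulVec x1 = N.mulVec x1)
    (h2 : M.mulVec x2 = N.mulVec x2) (h3 : M.mulVec x3 = N.mulVec x3) (k1 : M.mulVec y1 = N.mulVec y1)
    (k2 : M.mulVec y2 = N.mulVec y2) (k3 : M.mulVec y3 = N.mulVec y3) : M = N := by
  have key : ∀ v : V, M.mulVec v = N.mulVec v := by
    intro v
    rw [d2_null_expand v]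
    simp only [Matrix.mulVec_add, Matrix.mulVec_smul, ha, h1, h2, h3, k1, k2, k3]
  exact Matrix.ext_of_mulVec_single fun i => key _

end C37
end

section

/-!
MP_c37615_al (S02984), part D-IIa: two by two matrices: definitions (no sorry)
-/

set_option autoImplicit false

open Filter Topology Polynomial

namespace C37

abbrev M2 := Matrix (Fin 2) (Fin 2) ℝ

/-- powers bounded up to the scalar sqrt|det| -/
def BddPow (T : M2) : Prop := ∃ C : ℝ, ∀ (n : ℕ) (i j : Fin 2), |(T ^ n) i j| ≤ C * (Real.sqrt |T.det|) ^ n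

/-- c (1 + N), N ≠ 0, N^2 = 0 -/
def UnipType (T : M2) : Prop := ∃ (c : ℝ) (N : M2), c ≠ 0 ∧ N ≠ 0 ∧ N * N = 0 ∧ T = c • (1 + N)

/-- the standard matrices -/
noncomputable def D2m (r s : ℝ) : M2 := !![Real.exp r, 0; Real.exp r * s, Real.exp r]

end C37
end
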