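import Mathlib
import Pool.Agent.Lib.MP_c37615_al.Defs
import Pool.Agent.Lib.MP_c37615_al.Defs2
import Pool.Agent.Lib.MP_c37615_al.Mg.G017
import Pool.Agent.Lib.MP_c37615_al.D.Core
import Pool.Agent.Lib.MP_c37615_al.D.T01
import Pool.Agent.Lib.MP_c37615_al.Mg.G025
import Pool.Agent.Lib.MP_c37615_al.Mg.G026
import Pool.Agent.Lib.MP_c37615_al.D.T03

section

/-!
MP_c37615_al D TASK T12: the sign lemma in transversal position.

γ1 with data (p,r,ρ), line o1, e1 = e(p,r), α1 > 0;  γ2 with data (p',r',ρ'), line o2, e2 = e(p',r'), α2 < 0;  B p r' ≠ 0.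
ν = (1/B p r') cross p r'.  By `unit_diff`, d1 := ν - e1 is killed by cross p; by `unit_diff'`, d2 := ν - e2 is killed by cross r'.
By `null_decomp p r'`: o2 - o1 = v1 + t ν + v2, cross p v1 = 0, cross r' v2 = 0.  For every real s put w(s) = o1 + v1 + (t + s) ν = o2 - v2 + s ν.
 w(s) = o1 + (t+s) e1 + (v1 + (t+s) d1) and w(s) = o2 + s e2 + (-v2 + s d2).
 So γ1^{-n} w(s) = o1 + (t + s - n α1) e1 + (g⁻¹)^n (v1 + (t+s) d1), γ2^m w(s) = o2 + (s + m α2) e2 + h^m (-v2 + s d2)   (`iter_neg`, `iter_pos`).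
For n ∈ ℕ take s = n α1 and m = m_n = ⌊n α1 / (-α2)⌋ (natural number).  Then s + m α2 ∈ [0, -α2], and
 ‖γ1^{-n} w‖ ≤ ‖o1‖ + |t| ‖e1‖ + C θ^n (‖v1‖ + (|t| + n α1)‖d1‖) ≤ R, ‖γ2^{m} w‖ ≤ ‖o2‖ + |α2| ‖e2‖ + C' θ'^m (‖v2‖ + n α1 ‖d2‖) ≤ R, with R independent of n
 (n θ^n bounded; n α1 ≤ (m+1)|α2|, (m+1)θ'^m bounded).
With K = closed ball of radius R, δ_n = γ2^{m_n} γ1^n ∈ Γ maps γ1^{-n}w ∈ K to γ2^{m_n} w ∈ K, so δ_n ∈ {γ ∈ Γ : γ K ∩ K ≠ ∅}, which is finite.
But lin δ_n p = ρ^n h^{m_n} p and B (h^m p) r' = B p (h^{-m} r') = ρ'^m B p r', so |B ((lin δ_n) p) r'| = |ρ|^n |ρ'|^{m_n} |B p r'| is unbounded: infinitely many different δ_n.  Contradiction.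
-/

set_option autoImplicit false

namespace C37

open Filter Topology in
/-- boundedness of n θ^n type sequences -/
theorem bdd_lin_geom (θ a b : ℝ) (h0 : 0 ≤ θ) (h1 : θ < 1) (ha : 0 ≤ a) (hb : 0 ≤ b) : ∃ R : ℝ, ∀ n : ℕ, θ ^ n * (a + n * b) ≤ R := by
  have h : Tendsto (fun n : ℕ => θ ^ n * (a + n * b)) atTop (𝓝 0) := by
    have e1 := (tendsto_pow_atTop_nhds_zero_of_lt_one h0 h1).mul_const a
    have e2 := (tendsto_self_mul_const_pow_of_lt_one h0 h1).mul_const b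
    have e3 := e1.add e2
    simp only [zero_mul, add_zero] at e3
    refine e3.congr (fun n => ?_)
    ring
  obtain ⟨R, hR⟩ := h.bddAbove_range
  exact ⟨R, fun n => hR ⟨n, rfl⟩⟩

private theorem T12_lin_pow (γ : V ≃ᵃ[ℝ] V) (n : ℕ) : lin (γ ^ n) = (lin γ) ^ n := by
  induction n with
  | zero => simp [lin_one]
  | succ n ih => rw [pow_succ, pow_succ, lin_mul, ih]

private theorem T12_pow_p (g : Mat) (p : V) (ρ : ℝ) (h : g.mulVec p = ρ • p) (n : ℕ) : (g ^ n).mulVec p = ρ ^ n • p := by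
  induction n with
  | zero => simp
  | succ n ih => rw [pow_succ, ← Matrix.mulVec_mulVec, h, Matrix.mulVec_smul, ih, smul_smul, pow_succ, mul_comm]

private theorem T12_pow_B (g : Mat) (hg : InG g) (r : V) (ρ : ℝ) (hρ : ρ ≠ 0) (h : g.mulVec r = ρ⁻¹ • r) (n : ℕ) (x : V) :
    B ((g ^ n).mulVec x) r = ρ ^ n * B x r := by
  induction n generalizing x with
  | zero => simp
  | succ n ih =>
    rw [pow_succ, ← Matrix.mulVec_mulVec, ih]
    have h1 := (GX_B g hg x r).1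
    rw [h, B_smul_right] at h1
    have h2 : B (g.mulVec x) r = ρ * B x r := by
      rw [← h1]; field_simp
    rw [h2]; ring

theorem sign_transversal (Γ : Subgroup (V ≃ᵃ[ℝ] V)) (hΓ : Cryst Γ) (γ1 γ2 : V ≃ᵃ[ℝ] V) (h1 : γ1 ∈ Γ) (h2 : γ2 ∈ Γ)
    (p r p' r' : V) (ρ ρ' : ℝ) (d1 : HypData (lin γ1) p r ρ) (d2 : HypData (lin γ2) p' r' ρ') (hpr : B p r' ≠ 0)
    (o1 o2 : V) (α1 α2 : ℝ) (l1 : γ1 o1 = o1 + α1 • ((1 / B p r) • cross p r))
    (l2 : γ2 o2 = o2 + α2 • ((1 / B p' r') • cross p' r')) (hα1 : 0 < α1) (hα2 : α2 < 0) : False := by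
  have hG1 : InG (lin γ1) := hΓ.lin_InG γ1 h1
  have hG2 : InG (lin γ2) := hΓ.lin_InG γ2 h2
  have hf1 := hyp_fix_e _ hG1 p r ρ d1
  have hf2 := hyp_fix_e _ hG2 p' r' ρ' d2
  set e1 : V := (1 / B p r) • cross p r with he1
  set e2 : V := (1 / B p' r') • cross p' r' with he2
  set ν : V := (1 / B p r') • cross p r' with hν
  have k1 : cross p (ν - e1) = 0 := unit_diff p r r' d1.pnull d1.pr hpr
  have k2 : cross r' (ν - e2) = 0 := unit_diff' p' p r' d2.rnull d2.pr hpr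
  obtain ⟨v1, t, v2, hv1, hv2, hv⟩ := null_decomp p r' d1.pnull d2.rnull hpr (o2 - o1)
  obtain ⟨C, θ, hC, hθ0, hθ1, hb1, -⟩ := d1.bound
  obtain ⟨C', θ', hC', hθ0', hθ1', -, hb2⟩ := d2.bound
  have hα2' : 0 < -α2 := by linarith
  -- the sequences
  let w : ℕ → V := fun n => o1 + v1 + (t + n * α1) • ν
  have hw1 : ∀ n : ℕ, w n = o1 + (t + n * α1) • e1 + (v1 + (t + n * α1) • (ν - e1)) := by
    intro n; simp only [w]; module
  have hw2 : ∀ n : ℕ, w n = o2 + (n * α1) • e2 + (-v2 + (n * α1) • (ν - e2)) := by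
    intro n
    have hv' : o2 = o1 + (v1 + t • ν + v2) := by
      rw [← hν] at hv
      rw [← hv]; abel
    simp only [w]
    rw [hv']
    module
  let m : ℕ → ℕ := fun n => ⌊n * α1 / (-α2)⌋₊
  have hm1 : ∀ n : ℕ, (m n : ℝ) * (-α2) ≤ n * α1 := by
    intro n
    have : (m n : ℝ) ≤ n * α1 / (-α2) := Nat.floor_le (by positivity)
    rwa [le_div_iff₀ hα2'] at this
  have hm2 : ∀ n : ℕ, (n : ℝ) * α1 ≤ (m n + 1) * (-α2) := by
    intro n
    have : n * α1 / (-α2) < m n + 1 := Nat.lt_floor_add_one _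
    rw [div_lt_iff₀ hα2'] at this
    exact this.le
  have hx : ∀ n : ℕ, ((γ1⁻¹) ^ n) (w n) = o1 + t • e1 + (((lin γ1)⁻¹) ^ n).mulVec (v1 + (t + n * α1) • (ν - e1)) := by
    intro n
    rw [hw1, iter_neg γ1 o1 e1 α1 l1 hf1 n]
    congr 3
    ring
  have hy : ∀ n : ℕ, (γ2 ^ (m n)) (w n) = o2 + (n * α1 + m n * α2) • e2 + ((lin γ2) ^ (m n)).mulVec (-v2 + (n * α1) • (ν - e2)) := by
    intro n
    rw [hw2, iter_pos γ2 o2 e2 α2 l2 hf2 (m n)]
  obtain ⟨R1, hR1⟩ := bdd_lin_geom θ (‖v1‖ + |t| * ‖ν - e1‖) (α1 * ‖ν - e1‖) hθ0 hθ1 (by positivity) (by positivity)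
  obtain ⟨R2, hR2⟩ := bdd_lin_geom θ' (‖v2‖ + (-α2) * ‖ν - e2‖) ((-α2) * ‖ν - e2‖) hθ0' hθ1' (by positivity) (by positivity)
  have hbx : ∀ n : ℕ, ‖((γ1⁻¹) ^ n) (w n)‖ ≤ ‖o1 + t • e1‖ + C * R1 := by
    intro n
    rw [hx]
    refine (norm_add_le _ _).trans ?_
    have hk : cross p (v1 + (t + n * α1) • (ν - e1)) = 0 := by
      rw [cross_add_right, cross_smul_right, hv1, k1]; simp
    have h3 := hb1 n _ hk
    have h4 : ‖v1 + (t + n * α1) • (ν - e1)‖ ≤ ‖v1‖ + |t| * ‖ν - e1‖ + n * (α1 * ‖ν - e1‖) := by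
      refine (norm_add_le _ _).trans ?_
      rw [norm_smul, Real.norm_eq_abs]
      have h5 : |t + n * α1| ≤ |t| + n * α1 := by
        refine (abs_add_le _ _).trans ?_
        rw [abs_of_nonneg (by positivity : (0:ℝ) ≤ n * α1)]
      have h6 := mul_le_mul_of_nonneg_right h5 (norm_nonneg (ν - e1))
      linarith
    have h7 : C * θ ^ n * ‖v1 + (t + n * α1) • (ν - e1)‖ ≤ C * R1 := by
      rw [mul_assoc]
      refine mul_le_mul_of_nonneg_left ?_ hC
      exact (mul_le_mul_of_nonneg_left h4 (pow_nonneg hθ0 n)).trans (hR1 n)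
    linarith
  have hby : ∀ n : ℕ, ‖(γ2 ^ (m n)) (w n)‖ ≤ ‖o2‖ + (-α2) * ‖e2‖ + C' * R2 := by
    intro n
    rw [hy]
    refine (norm_add_le _ _).trans ?_
    have hk : cross r' (-v2 + (n * α1) • (ν - e2)) = 0 := by
      have : -v2 = (-1 : ℝ) • v2 := by simp
      rw [this, cross_add_right, cross_smul_right, cross_smul_right, hv2, k2]; simp
    have h3 := hb2 (m n) _ hk
    have h4 : ‖-v2 + (n * α1) • (ν - e2)‖ ≤ ‖v2‖ + (-α2) * ‖ν - e2‖ + m n * ((-α2) * ‖ν - e2‖) := by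
      refine (norm_add_le _ _).trans ?_
      rw [norm_smul, Real.norm_eq_abs, norm_neg, abs_of_nonneg (by positivity : (0:ℝ) ≤ n * α1)]
      have h6 := mul_le_mul_of_nonneg_right (hm2 n) (norm_nonneg (ν - e2))
      linarith
    have h7 : C' * θ' ^ (m n) * ‖-v2 + (n * α1) • (ν - e2)‖ ≤ C' * R2 := by
      rw [mul_assoc]
      refine mul_le_mul_of_nonneg_left ?_ hC'
      exact (mul_le_mul_of_nonneg_left h4 (pow_nonneg hθ0' (m n))).trans (hR2 (m n))
    have h8 : ‖o2 + (n * α1 + m n * α2) • e2‖ ≤ ‖o2‖ + (-α2) * ‖e2‖ := by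
      refine (norm_add_le _ _).trans ?_
      rw [norm_smul, Real.norm_eq_abs]
      have h9 : |n * α1 + m n * α2| ≤ -α2 := by
        rw [abs_le]
        have := hm1 n
        have := hm2 n
        constructor <;> nlinarith
      have := mul_le_mul_of_nonneg_right h9 (norm_nonneg e2)
      linarith
    linarith
  -- the compact set
  set R : ℝ := max (‖o1 + t • e1‖ + C * R1) (‖o2‖ + (-α2) * ‖e2‖ + C' * R2) with hR
  have hfin := hΓ.proper (Metric.closedBall (0 : V) R) (isCompact_closedBall _ _)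
  have hmem : ∀ n : ℕ, (γ2 ^ (m n) * γ1 ^ n) ∈ {γ : V ≃ᵃ[ℝ] V | γ ∈ Γ ∧ ((⇑γ) '' (Metric.closedBall (0 : V) R) ∩ (Metric.closedBall (0 : V) R)).Nonempty} := by
    intro n
    refine ⟨Γ.mul_mem (Γ.pow_mem h2 _) (Γ.pow_mem h1 _), ⟨(γ2 ^ (m n)) (w n), ⟨((γ1⁻¹) ^ n) (w n), ?_, ?_⟩, ?_⟩⟩
    · rw [mem_closedBall_zero_iff]
      exact (hbx n).trans (le_max_left _ _)
    · have h10 : (γ2 ^ (m n) * γ1 ^ n) (((γ1⁻¹) ^ n) (w n)) = (γ2 ^ (m n) * γ1 ^ n * (γ1⁻¹) ^ n) (w n) := rfl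
      rw [h10, mul_assoc, inv_pow, mul_inv_cancel, mul_one]
    · rw [mem_closedBall_zero_iff]
      exact (hby n).trans (le_max_right _ _)
  -- unboundedness
  have hfin2 := hfin.image (fun γ : V ≃ᵃ[ℝ] V => |B ((lin γ).mulVec p) r'|)
  obtain ⟨M, hM⟩ := hfin2.bddAbove
  have hM' : ∀ n : ℕ, |B ((lin (γ2 ^ (m n) * γ1 ^ n)).mulVec p) r'| ≤ M := by
    intro n
    exact hM ⟨_, hmem n, rfl⟩
  have hρ' : ρ' ≠ 0 := by
    intro h; have := d2.rho; rw [h] at this; norm_num at this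
  have hval : ∀ n : ℕ, |ρ| ^ n * |B p r'| ≤ M := by
    intro n
    refine le_trans ?_ (hM' n)
    rw [lin_mul, T12_lin_pow, T12_lin_pow, ← Matrix.mulVec_mulVec, T12_pow_p _ p ρ d1.gp, T12_pow_B _ hG2 r' ρ' hρ' d2.gr,
      B_smul_left, abs_mul, abs_mul, abs_pow, abs_pow]
    have : 1 ≤ |ρ'| ^ (m n) := one_le_pow₀ d2.rho.le
    have h11 : 0 ≤ |ρ| ^ n * |B p r'| := by positivity
    nlinarith
  have hpos : 0 < |B p r'| := abs_pos.mpr hpr
  obtain ⟨n, hn⟩ := ((tendsto_pow_atTop_atTop_of_one_lt d1.rho).eventually_gt_atTop (M / |B p r'|)).exists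
  have := hval n
  rw [div_lt_iff₀ hpos] at hn
  linarith

end C37
end

section

/-!
MP_c37615_al D TASK T15: the sign lemma.

Data: `HypData_of_Hyp` for lin γ1, lin γ2; lines and α1, α2 by `hyp_line` (γ o = lin γ o + tv γ by `aff_apply`), Fs γi = -(k_i αi), k_i > 0.
α_i ≠ 0: `no_fixed_line`.  Suppose Fs γ1 * Fs γ2 ≤ 0; then α1 α2 < 0.  By symmetry (exchange γ1, γ2) assume α1 > 0 > α2.
Choose f ∈ Γ with B (lin f r2') p ≠ 0 (`zd_B`, r2' = the repelling vector of γ2, p = p1).  Replace γ2 by f γ2 f⁻¹ ∈ Γ: data by `HypData_conj` with (lin f p', lin f r'), its line passes through f o2 with the same α2: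
 (f γ2 f⁻¹)(f o2) = f (o2 + α2 e2) = f o2 + α2 (lin f) e2, and (lin f) e2 = e(lin f p', lin f r') (lin f preserves B and cross).  `sign_transversal` gives a contradiction.
-/

set_option autoImplicit false

namespace C37

private lemma T15_aux (Γ : Subgroup (V ≃ᵃ[ℝ] V)) (hΓ : Cryst Γ) (γ1 γ2 : V ≃ᵃ[ℝ] V) (h1 : γ1 ∈ Γ) (h2 : γ2 ∈ Γ)
    (p r p' r' : V) (ρ ρ' : ℝ) (d1 : HypData (lin γ1) p r ρ) (d2 : HypData (lin γ2) p' r' ρ')
    (o1 o2 : V) (α1 α2 : ℝ) (l1 : γ1 o1 = o1 + α1 • ((1 / B p r) • cross p r))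
    (l2 : γ2 o2 = o2 + α2 • ((1 / B p' r') • cross p' r')) (hα1 : 0 < α1) (hα2 : α2 < 0) : False := by
  have hp0 : p ≠ 0 := by
    intro h
    apply d1.pr
    rw [h]
    simp [B]
  have hr0 : r' ≠ 0 := by
    intro h
    apply d2.pr
    rw [h]
    simp [B]
  obtain ⟨f, hf, hfB⟩ := zd_B Γ hΓ r' p hr0 hp0
  have hfG : InG (lin f) := hΓ.lin_InG f hf
  have hγG : InG (lin γ2) := hΓ.lin_InG γ2 h2
  have hmem : f * γ2 * f⁻¹ ∈ Γ := Γ.mul_mem (Γ.mul_mem hf h2) (Γ.inv_mem hf)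
  have hlin : lin (f * γ2 * f⁻¹) = lin f * lin γ2 * (lin f)⁻¹ := by
    rw [lin_mul, lin_mul, (lin_inv f).1]
  have d2' := HypData_conj (lin f) (lin γ2) hfG hγG p' r' ρ' d2
  rw [← hlin] at d2'
  have hpr : B p ((lin f).mulVec r') ≠ 0 := by rw [B_comm]; exact hfB
  have hBB := (GX_B (lin f) hfG p' r')
  have l2' : (f * γ2 * f⁻¹) (f o2) = f o2 + α2 • ((1 / B ((lin f).mulVec p') ((lin f).mulVec r')) •
      cross ((lin f).mulVec p') ((lin f).mulVec r')) := by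
    have e1 : (f * γ2 * f⁻¹) (f o2) = f (γ2 o2) := by
      have h3 : (f * γ2 * f⁻¹) * f = f * γ2 := by group
      have h4 := congrArg (fun g : V ≃ᵃ[ℝ] V => g o2) h3
      exact h4
    rw [e1, l2, hBB.1, hBB.2.1, aff_apply f (o2 + _), aff_apply f o2, Matrix.mulVec_add, Matrix.mulVec_smul,
      Matrix.mulVec_smul]
    abel
  exact sign_transversal Γ hΓ γ1 (f * γ2 * f⁻¹) h1 hmem p r _ _ ρ ρ' d1 d2' hpr o1 (f o2) α1 α2 l1 l2' hα1 hα2

theorem sign_lemma (Γ : Subgroup (V ≃ᵃ[ℝ] V)) (hΓ : Cryst Γ) (γ1 γ2 : V ≃ᵃ[ℝ] V) (h1 : γ1 ∈ Γ) (h2 : γ2 ∈ Γ)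
    (y1 : Hyp (lin γ1)) (y2 : Hyp (lin γ2)) : 0 < Fs γ1 * Fs γ2 := by
  have g1 : InG (lin γ1) := hΓ.lin_InG γ1 h1
  have g2 : InG (lin γ2) := hΓ.lin_InG γ2 h2
  obtain ⟨p, r, ρ, d1⟩ := HypData_of_Hyp (lin γ1) g1 y1
  obtain ⟨p', r', ρ', d2⟩ := HypData_of_Hyp (lin γ2) g2 y2
  obtain ⟨o1, α1, k1, l1, hk1, hF1⟩ := hyp_line (lin γ1) g1 p r ρ d1 (tv γ1)
  obtain ⟨o2, α2, k2, l2, hk2, hF2⟩ := hyp_line (lin γ2) g2 p' r' ρ' d2 (tv γ2)
  rw [← aff_apply] at l1 l2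
  have n1 : α1 ≠ 0 := by
    intro h
    rw [h, zero_smul, add_zero] at l1
    exact no_fixed_line Γ hΓ γ1 h1 p r ρ d1 o1 l1
  have n2 : α2 ≠ 0 := by
    intro h
    rw [h, zero_smul, add_zero] at l2
    exact no_fixed_line Γ hΓ γ2 h2 p' r' ρ' d2 o2 l2
  have e1 : Fs γ1 = -(k1 * α1) := hF1
  have e2 : Fs γ2 = -(k2 * α2) := hF2
  rw [e1, e2]
  have hprod : -(k1 * α1) * -(k2 * α2) = (k1 * k2) * (α1 * α2) := by ring
  rw [hprod]
  apply mul_pos (mul_pos hk1 hk2)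
  rcases lt_or_gt_of_ne n1 with s1 | s1
  · rcases lt_or_gt_of_ne n2 with s2 | s2
    · exact mul_pos_of_neg_of_neg s1 s2
    · exact (T15_aux Γ hΓ γ2 γ1 h2 h1 p' r' p r ρ' ρ d2 d1 o2 o1 α2 α1 l2 l1 s2 s1).elim
  · rcases lt_or_gt_of_ne n2 with s2 | s2
    · exact (T15_aux Γ hΓ γ1 γ2 h1 h2 p r p' r' ρ ρ' d1 d2 o1 o2 α1 α2 l1 l2 s1 s2).elim
    · exact mul_pos s1 s2

end C37
end

section

/-!
MP_c37615_al D TASK T20b: the second explicit short root vector (finite computations in coordinates).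
-/

set_option autoImplicit false

namespace C37

private theorem T20b_ext (A B : Mat) (h : ∀ v : V, A.mulVec v = B.mulVec v) : A = B := by
  apply Matrix.mulVec_injective
  funext v
  exact h v

theorem T20b_ofNull (fa f1 f2 f3 g1 g2 g3 v : V) : (ofNull fa f1 f2 f3 g1 g2 g3).mulVec v =
    v 3 • fa + (v 0 - v 4) • f1 + (v 1 - v 5) • f2 + (-(v 2 + v 6)) • f3 + (-(v 0 + v 4)) • g1
      + (-(v 1 + v 5)) • g2 + (v 2 - v 6) • g3 := by
  have hev : ∀ j k : Fin 7, ev j k = if k = j then 1 else 0 := by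
    intro j k
    simp [ev, Pi.single_apply]
  ext i
  simp only [Matrix.mulVec, dotProduct, Fin.sum_univ_seven, ofNull, Matrix.of_apply, hev,
    Pi.add_apply, Pi.smul_apply, smul_eq_mul]
  simp only [Fin.isValue, Fin.reduceEq, if_true, if_false]
  ring

theorem T20b_mulVec (v : V) : ((2:ℝ) • rL12 + rL23 + rSp1).mulVec v =
    ![v 3 - v 1 + v 5, v 0 + v 4, -v 5, v 0 + v 4, v 1 - v 5 - v 3, v 0 + v 4 - v 2 - v 6, v 5] := by
  unfold rSp1 rL12 rL23
  rw [Matrix.add_mulVec, Matrix.add_mulVec, Matrix.smul_mulVec, T20b_ofNull, T20b_ofNull, T20b_ofNull]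
  ext i
  fin_cases i <;> simp [x1, x2, y3, y2, va] <;> ring

theorem T20b_anti (u v : V) : B (((2:ℝ) • rL12 + rL23 + rSp1).mulVec u) v
    = -B u (((2:ℝ) • rL12 + rL23 + rSp1).mulVec v) := by
  rw [T20b_mulVec, T20b_mulVec]
  simp [B]
  ring

theorem T20b_sq : ((2:ℝ) • rL12 + rL23 + rSp1) * ((2:ℝ) • rL12 + rL23 + rSp1)
    = (4 : ℝ) • rk1 (y3 - x1) (y3 - x1) := by
  apply T20b_ext
  intro v
  rw [← Matrix.mulVec_mulVec, Matrix.smul_mulVec, rk1_mulVec, T20b_mulVec, T20b_mulVec]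
  ext i
  fin_cases i <;> simp [B, x1, y3] <;> ring

theorem T20b_kill : ((2:ℝ) • rL12 + rL23 + rSp1).mulVec (y3 - x1) = 0 := by
  rw [T20b_mulVec]
  ext i
  fin_cases i <;> simp [x1, y3] <;> norm_num

theorem T20b_Lp : Lmat (y3 - x1) * ((2:ℝ) • rL12 + rL23 + rSp1) = (-2 : ℝ) • rk1 (y3 - x1) (y3 - x1) := by
  apply T20b_ext
  intro v
  rw [← Matrix.mulVec_mulVec, Matrix.smul_mulVec, rk1_mulVec, T20b_mulVec, Lmat_mulVec]
  ext i
  fin_cases i <;> simp [cross, B, x1, y3] <;> ring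

theorem T20b_exp (v : V) (s : ℝ) : (expZ ((2:ℝ) • rL12 + rL23 + rSp1) s).mulVec v =
    ![v 0 + s * (v 3 - v 1 + v 5) + s ^ 2 / 2 * (v 0 + v 4 - (v 0 + v 4) + (v 0 + v 4 - v 2 - v 6)),
      v 1 + s * (v 0 + v 4),
      v 2 - s * v 5 - s ^ 2 / 2 * (v 0 + v 4 - v 2 - v 6),
      v 3 + s * (v 0 + v 4),
      v 4 + s * (v 1 - v 5 - v 3) + s ^ 2 / 2 * (v 0 + v 4 - (v 0 + v 4 - v 2 - v 6) - (v 0 + v 4)),
      v 5 + s * (v 0 + v 4 - v 2 - v 6),
      v 6 + s * v 5 + s ^ 2 / 2 * (v 0 + v 4 - v 2 - v 6)] := by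
  unfold expZ
  rw [Matrix.add_mulVec, Matrix.add_mulVec, Matrix.one_mulVec, Matrix.smul_mulVec, Matrix.smul_mulVec,
    ← Matrix.mulVec_mulVec, T20b_mulVec, T20b_mulVec]
  have hsum : ∀ (a b c : V) (k : Fin 7), (a + s • b + (s ^ 2 / 2) • c) k = a k + s * b k + s ^ 2 / 2 * c k :=
    fun _ _ _ _ => rfl
  ext i
  rw [hsum]
  fin_cases i <;> simp <;> first | ring1 | (right; ring1)

theorem T20b_InG (s : ℝ) : InG (expZ ((2:ℝ) • rL12 + rL23 + rSp1) s) := by
  intro u v w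
  rw [T20b_exp, T20b_exp, T20b_exp]
  simp [phi, e3, det3]
  ring

theorem shortData_Z' : ShortData ((2:ℝ) • rL12 + rL23 + rSp1) (y3 - x1) where
  anti := T20b_anti
  sq := T20b_sq
  kill := T20b_kill
  Lp := T20b_Lp
  pnull := by simp [B, x1, y3]; norm_num
  pne := by
    intro h
    have := congrFun h 0
    simp [x1, y3] at this
  exp := T20b_InG

end C37
end

section

/-!
MP_c37615_al D TASK T20c: the two explicit short root vectors (finite computations in coordinates).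
-/

set_option autoImplicit false

namespace C37

private theorem T20c_ofNull (fa f1 f2 f3 g1 g2 g3 v : V) : (ofNull fa f1 f2 f3 g1 g2 g3).mulVec v =
    v 3 • fa + (v 0 - v 4) • f1 + (v 1 - v 5) • f2 + (-(v 2 + v 6)) • f3 + (-(v 0 + v 4)) • g1
      + (-(v 1 + v 5)) • g2 + (v 2 - v 6) • g3 := by
  have hev : ∀ j k : Fin 7, ev j k = if k = j then 1 else 0 := by
    intro j k
    simp [ev, Pi.single_apply]
  ext i
  simp only [Matrix.mulVec, dotProduct, Fin.sum_univ_seven, ofNull, Matrix.of_apply, hev,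
    Pi.add_apply, Pi.smul_apply, smul_eq_mul]
  simp only [Fin.isValue, Fin.reduceEq, if_true, if_false]
  ring

private theorem T20c_S (v : V) : rSp1.mulVec v =
    ![v 3, -(v 2 + v 6) / 2, (v 1 - v 5) / 2, v 0 + v 4, -v 3, -(v 2 + v 6) / 2, -(v 1 - v 5) / 2] := by
  unfold rSp1
  rw [T20c_ofNull]
  ext i
  fin_cases i <;> simp [x1, y3, y2, va] <;> ring

private theorem T20c_N (v : V) : ((2:ℝ) • rL12 + rL23).mulVec v =
    ![- v 1 + v 5, v 0 + v 4 + (v 2 + v 6) / 2, -(v 1 + v 5) / 2, 0, v 1 - v 5,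
      v 0 + v 4 - (v 2 + v 6) / 2, (v 1 + v 5) / 2] := by
  unfold rL12 rL23
  rw [Matrix.add_mulVec, Matrix.smul_mulVec, T20c_ofNull, T20c_ofNull]
  ext i
  fin_cases i <;> simp [x1, x2, y3, y2] <;> ring

/-- if `B x1 a = 0` and the next coefficient vanishes then a ∈ Im S -/
theorem MS_zero (a : V) (h1 : B x1 a = 0) (h : Lmat a * (rSp1 * rSp1) + Lmat (rSp1.mulVec a) * rSp1 = 0) :
    ∃ w : V, a = rSp1.mulVec w := by
  have h2 : ∀ v : V, cross a (rSp1.mulVec (rSp1.mulVec v)) + cross (rSp1.mulVec a) (rSp1.mulVec v) = 0 := by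
    intro v
    have h3 := congrArg (fun M : Mat => M.mulVec v) h
    simp only [Matrix.add_mulVec, ← Matrix.mulVec_mulVec, Lmat_mulVec, Matrix.zero_mulVec] at h3
    exact h3
  -- test vector y1
  have h4 := h2 y1
  simp only [T20c_S] at h4
  have e1 : a 0 + a 4 = 0 := by
    simp [B, x1] at h1
    linarith
  have q1 := congrFun h4 1
  have q2 := congrFun h4 2
  simp [cross, y1] at q1 q2
  refine ⟨![a 3, 2 * a 2, -2 * a 1, a 0, 0, 0, 0], ?_⟩
  rw [T20c_S]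
  ext i
  fin_cases i <;> simp <;> linarith

/-- the cocycle condition relates the two leading coefficients -/
theorem cocycle_rel (aS aN : V) (hco : ((2:ℝ) • rL12 + rL23).mulVec aS = rSp1.mulVec aN) :
    B (y3 - x1) (aN + aS) = -3 * B x1 aS := by
  rw [T20c_S, T20c_N] at hco
  have q0 := congrFun hco 0
  have q1 := congrFun hco 1
  have q2 := congrFun hco 2
  have q3 := congrFun hco 3
  have q5 := congrFun hco 5
  simp at q0 q1 q2 q3 q5
  simp [B, x1, y3]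
  linarith

end C37
end

section

/-!
MP_c37615_al D TASK T22a (theorem nearOne_fixed): elementary facts on `NearOne` sequences.

`nearOne_fixed`: if a = Z w (Z^3 = 0) then with p0 = -w: (expZ Z s) p0 + trZ Z a s = p0 for all s (s a + (s^2/2) Z a + (s^3/6) Z^2 a = s Z w + (s^2/2) Z^2 w + 0, expZ Z s (-w) = -w - s Z w - (s^2/2) Z^2 w).
 By `left`: γ_j p0 = b_j p0 -> p0 (`aff_apply`, blin, btr).  So γ_j maps the compact set K = closed ball around p0 of radius 1 (containing p0) to itself-intersecting sets for all large j: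
 γ_j ∈ {γ ∈ Γ : γ K ∩ K ≠ ∅}, finite; so one element γ occurs for infinitely many j; along this subsequence lin γ = lin b_j * expZ Z s_j, lin b_j -> 1: expZ Z (s_j) = (lin b_j)⁻¹ lin γ -> lin γ, but s_j -> ∞ and Z ≠ 0:
 expZ Z (s_j) is unbounded (if Z^2 ≠ 0 divide by s^2, else by s).  Contradiction.
`nearOne_lin`: from `left` at v and at 0.
`nearOne_sub`: for h ∈ Γ: h γ_j ∈ Γ with lin (h γ_j) = (lin h * lin b_j) * expZ Z s_j and tv (h γ_j) = (lin h * lin b_j) trZ Z a s_j + tv (h b_j); lin h * lin b_j -> lin h, tv (h b_j) -> tv h;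
 lin h * lin b_j ∈ G because lin b_j = lin γ_j * expZ Z (-s_j) and expZ Z (-s) * expZ Z s = 1 (Z^3=0), if all expZ Z s are in G.
`nearOne_neg`: the inverse sequence: γ_j⁻¹ = E_j⁻¹ b_j⁻¹, E_j⁻¹ = exp(-s_j (Z,a)): same statement with -s_j:
 lin (h γ_j⁻¹) = (lin h * lin b_j⁻¹) * expZ Z (-s_j), tv (h γ_j⁻¹) = (lin h * lin b_j⁻¹) trZ Z a (-s_j) + tv (h b_j⁻¹)  (from `right`: γ_j = E_j b_j so γ_j⁻¹ = b_j⁻¹ E_j⁻¹).
-/

set_option autoImplicit false

open Filter Topology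

namespace C37

private theorem T22a_matext (A B : Mat) (h : ∀ v : V, A.mulVec v = B.mulVec v) : A = B := by
  apply Matrix.mulVec_injective
  funext v
  exact h v

private theorem T22a_exp_apply (Z : Mat) (s : ℝ) (v : V) :
    (expZ Z s).mulVec v = v + s • Z.mulVec v + (s ^ 2 / 2) • Z.mulVec (Z.mulVec v) := by
  unfold expZ
  rw [Matrix.add_mulVec, Matrix.add_mulVec, Matrix.one_mulVec, Matrix.smul_mulVec, Matrix.smul_mulVec,
    Matrix.mulVec_mulVec]

private theorem T22a_cube (Z : Mat) (hZ3 : Z * Z * Z = 0) (v : V) : Z.mulVec (Z.mulVec (Z.mulVec v)) = 0 := by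
  rw [Matrix.mulVec_mulVec, Matrix.mulVec_mulVec, hZ3, Matrix.zero_mulVec]

private theorem T22a_fix (Z : Mat) (hZ3 : Z * Z * Z = 0) (w : V) (s : ℝ) :
    (expZ Z s).mulVec (-w) + trZ Z (Z.mulVec w) s = -w := by
  rw [T22a_exp_apply]
  unfold trZ
  simp only [← Matrix.mulVec_mulVec, Matrix.mulVec_neg, T22a_cube Z hZ3, smul_zero]
  ext i
  simp only [Pi.add_apply, Pi.smul_apply, Pi.neg_apply, Pi.zero_apply, smul_eq_mul]
  ring

/-- a bounded sequence of matrices divided by a sequence tending to infinity -/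
private theorem T22a_zero (M : ℕ → Mat) (C : ℝ) (hM : ∀ᶠ j in atTop, ∀ i k, |M j i k| ≤ C) (t : ℕ → ℝ)
    (ht : Tendsto t atTop atTop) : Tendsto (fun j => (1 / t j) • M j) atTop (𝓝 0) := by
  refine tendsto_pi_nhds.mpr fun i => tendsto_pi_nhds.mpr fun k => ?_
  have h1 : Tendsto (fun j => C * (1 / t j)) atTop (𝓝 0) := by
    have h2 : Tendsto (fun j => 1 / t j) atTop (𝓝 0) := by
      simp only [one_div]
      exact tendsto_inv_atTop_zero.comp ht
    have h3 := h2.const_mul C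
    rw [mul_zero] at h3
    exact h3
  refine squeeze_zero_norm' ?_ h1
  filter_upwards [hM, ht.eventually_gt_atTop 0] with j h2 h3
  show ‖(1 / t j) * M j i k‖ ≤ _
  rw [Real.norm_eq_abs, abs_mul, abs_of_pos (by positivity : 0 < 1 / t j), mul_comm]
  exact mul_le_mul_of_nonneg_right (h2 i k) (by positivity)

theorem nearOne_fixed (Γ : Subgroup (V ≃ᵃ[ℝ] V)) (h : Cryst Γ) (Z : Mat) (hZ3 : Z * Z * Z = 0) (hZ : Z ≠ 0) (w : V)
    (γ b : ℕ → V ≃ᵃ[ℝ] V) (s : ℕ → ℝ) (hn : NearOne Γ Z (Z.mulVec w) γ b s) : False := by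
  have htv : ∀ j, tv (γ j) = (lin (b j)).mulVec (trZ Z (Z.mulVec w) (s j)) + tv (b j) := by
    intro j
    have h1 := hn.left j 0
    rw [Matrix.mulVec_zero, zero_add, aff_apply (b j)] at h1
    exact h1
  have hlin : ∀ j, lin (γ j) = lin (b j) * expZ Z (s j) := by
    intro j
    apply T22a_matext
    intro v
    have h1 := hn.left j v
    rw [aff_apply (b j), aff_apply (γ j), htv j, Matrix.mulVec_add] at h1
    rw [← Matrix.mulVec_mulVec]
    have h2 := congrArg (fun x => x - ((lin (b j)).mulVec (trZ Z (Z.mulVec w) (s j)) + tv (b j))) h1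
    simp only [add_sub_cancel_right] at h2
    rw [h2]
    abel
  -- the point -w
  have hγ0 : ∀ j, γ j (-w) = (lin (b j)).mulVec (-w) + tv (b j) := by
    intro j
    rw [hn.left, T22a_fix Z hZ3, aff_apply]
  have hlim : Tendsto (fun j => γ j (-w)) atTop (𝓝 (-w)) := by
    have hc : Continuous (fun x : Mat × V => x.1.mulVec (-w) + x.2) := by fun_prop
    have h1 := (hc.tendsto (1, 0)).comp (hn.blin.prodMk_nhds hn.btr)
    simp only [Matrix.one_mulVec, add_zero] at h1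
    have h2 : (fun j => γ j (-w)) = (fun x : Mat × V => x.1.mulVec (-w) + x.2) ∘ (fun j => (lin (b j), tv (b j))) := by
      funext j
      exact hγ0 j
    rw [h2]
    exact h1
  have hfin := h.proper (Metric.closedBall (-w) 1) (isCompact_closedBall _ _)
  have hev : ∀ᶠ j in atTop, γ j ∈ {γ : V ≃ᵃ[ℝ] V | γ ∈ Γ ∧
      ((⇑γ) '' Metric.closedBall (-w) 1 ∩ Metric.closedBall (-w) 1).Nonempty} := by
    filter_upwards [hlim (Metric.closedBall_mem_nhds _ one_pos)] with j hj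
    exact ⟨hn.mem j, γ j (-w), ⟨-w, Metric.mem_closedBall_self zero_le_one, rfl⟩, hj⟩
  -- boundedness of the linear parts
  obtain ⟨C, hC⟩ : ∃ C : ℝ, ∀ᶠ j in atTop, ∀ i k, |lin (γ j) i k| ≤ C := by
    obtain ⟨C, hC⟩ := (hfin.image (fun γ : V ≃ᵃ[ℝ] V => ∑ i, ∑ k, |lin γ i k|)).bddAbove
    refine ⟨C, hev.mono fun j hj i k => ?_⟩
    have h1 : (∑ i, ∑ k, |lin (γ j) i k|) ≤ C := hC ⟨γ j, hj, rfl⟩
    refine le_trans ?_ h1
    calc |lin (γ j) i k| ≤ ∑ k, |lin (γ j) i k| :=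
          Finset.single_le_sum (f := fun k => |lin (γ j) i k|) (fun k _ => abs_nonneg _) (Finset.mem_univ k)
      _ ≤ ∑ i, ∑ k, |lin (γ j) i k| :=
          Finset.single_le_sum (f := fun i => ∑ k, |lin (γ j) i k|)
            (fun i _ => Finset.sum_nonneg fun k _ => abs_nonneg _) (Finset.mem_univ i)
  have hinv : Tendsto (fun j => 1 / s j) atTop (𝓝 0) := by
    simp only [one_div]
    exact tendsto_inv_atTop_zero.comp hn.sinf
  have hspos := hn.sinf.eventually_gt_atTop 0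
  -- first: Z * Z = 0
  have hZZ : Z * Z = 0 := by
    have hs2 : Tendsto (fun j => (s j) ^ 2) atTop atTop := (tendsto_pow_atTop two_ne_zero).comp hn.sinf
    have h1 := T22a_zero (fun j => lin (γ j)) C hC (fun j => (s j) ^ 2) hs2
    have h2 : Tendsto (fun j => lin (b j) * ((1 / s j) ^ 2 • (1 : Mat) + (1 / s j) • Z + (1/2 : ℝ) • (Z * Z))) atTop
        (𝓝 (1 * ((0 : ℝ) ^ 2 • (1 : Mat) + (0 : ℝ) • Z + (1/2 : ℝ) • (Z * Z)))) := by
      refine hn.blin.mul ?_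
      exact ((((hinv.pow 2).smul_const (1 : Mat)).add (hinv.smul_const Z)).add tendsto_const_nhds)
    have h3 : (fun j => lin (b j) * ((1 / s j) ^ 2 • (1 : Mat) + (1 / s j) • Z + (1/2 : ℝ) • (Z * Z)))
        =ᶠ[atTop] fun j => (1 / (s j) ^ 2) • lin (γ j) := by
      filter_upwards [hspos] with j hj
      rw [hlin, ← mul_smul_comm (1 / (s j) ^ 2) (lin (b j)) (expZ Z (s j))]
      congr 1
      unfold expZ
      rw [smul_add, smul_add, smul_smul, smul_smul]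
      have e1 : (1 / s j) ^ 2 = 1 / (s j) ^ 2 := by rw [div_pow, one_pow]
      have e2 : 1 / (s j) ^ 2 * s j = 1 / s j := by field_simp
      have e3 : 1 / (s j) ^ 2 * ((s j) ^ 2 / 2) = 1 / 2 := by field_simp
      rw [e1, e2, e3]
    have h4 := tendsto_nhds_unique (h2.congr' h3) h1
    rw [one_mul, zero_pow two_ne_zero, zero_smul, zero_smul, zero_add, zero_add] at h4
    have h5 := congrArg (fun M : Mat => (2 : ℝ) • M) h4
    simp only [smul_smul, smul_zero] at h5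
    norm_num at h5
    exact h5
  -- then Z = 0
  have h1 := T22a_zero (fun j => lin (γ j)) C hC s hn.sinf
  have h2 : Tendsto (fun j => lin (b j) * ((1 / s j) • (1 : Mat) + Z)) atTop
      (𝓝 (1 * ((0 : ℝ) • (1 : Mat) + Z))) := by
    refine hn.blin.mul ?_
    exact (hinv.smul_const (1 : Mat)).add tendsto_const_nhds
  have h3 : (fun j => lin (b j) * ((1 / s j) • (1 : Mat) + Z)) =ᶠ[atTop] fun j => (1 / (s j)) • lin (γ j) := by
    filter_upwards [hspos] with j hj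
    rw [hlin, ← mul_smul_comm (1 / (s j)) (lin (b j)) (expZ Z (s j))]
    congr 1
    unfold expZ
    rw [hZZ, smul_zero, add_zero, smul_add, smul_smul]
    have e2 : 1 / (s j) * s j = 1 := by field_simp
    rw [e2, one_smul]
  have h4 := tendsto_nhds_unique (h2.congr' h3) h1
  rw [one_mul, zero_smul, zero_add] at h4
  exact hZ h4

end C37
end

section

/-!
MP_c37615_al D TASK T27: asymptotics for the sequences eH0 r * expZ S σ, r -> +∞, σ -> σ0  (S = rSp1).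

Pi = projection to span(x2,y3): e^{-r} eH0 r -> Pi.  Explicit: Pi * (S*S) = 0, Pi * S = (-2) • rk1 y3 y2, Lmat x1 * Pi = Pi * S, Lmat x1 * (Pi * S) = 0.
With T = trace (h Pi S): Ev (h Pi expZ S σ) = Ev (h Pi) + σ Ev (h Pi S); Ev (h Pi S) = -2 cross (h y3) y2, B of it with itself = -4 (B (h y3) y2)² = - T² (T = -2 B y2 (h y3)).
B (h x1) (Ev (h Pi)) = trace (h (Lmat x1 Pi)) = T, B (h x1) (Ev (h Pi S)) = 0 (`key_trace`).
g_j = h * (eH0 r_j * expZ S σ_j), u_j = h (r_j μ x1 + w_j) + u, w_j bounded: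
 e^{-r_j} g_j -> h Pi expZ S σ0; e^{-r_j} trace -> trace (h Pi) + σ0 T; (e^{-r_j}/r_j) B u_j (Ev g_j) -> μ B (h x1) (Ev (h Pi expZ S σ0)) = μ T;
 e^{-2r_j} B(Ev)(Ev) -> B (Ev (h Pi) + σ0 Ev (h Pi S)) (same).
-/

set_option autoImplicit false
set_option linter.unusedSimpArgs false
set_option linter.unreachableTactic false
set_option linter.unusedTactic false
set_option linter.unusedVariables false

open Filter Topology

namespace C37

noncomputable def PiM : Mat := ofNull 0 0 x2 0 0 0 y3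

private lemma T27_mulVec (fa f1 f2 f3 g1 g2 g3 v : V) :
    (ofNull fa f1 f2 f3 g1 g2 g3).mulVec v = v 3 • fa + (v 0 - v 4) • f1 + (v 1 - v 5) • f2 + (-(v 2 + v 6)) • f3 +
      (-(v 0 + v 4)) • g1 + (-(v 1 + v 5)) • g2 + (v 2 - v 6) • g3 := by
  ext i
  simp [Matrix.mulVec, dotProduct, ofNull, Fin.sum_univ_succ, ev, Pi.single_apply]
  ring

private lemma T27_ext (M N : Mat) (h : ∀ v : V, M.mulVec v = N.mulVec v) : M = N := by
  ext i j
  have := congrFun (h (Pi.single j 1)) i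
  simpa using this

theorem PiM_facts : PiM * (rSp1 * rSp1) = 0 ∧ PiM * rSp1 = (-2 : ℝ) • rk1 y3 y2 ∧ Lmat x1 * PiM = PiM * rSp1 ∧
    Lmat x1 * (PiM * rSp1) = 0 := by
  refine ⟨?_, ?_, ?_, ?_⟩
  · apply T27_ext
    intro v
    rw [← Matrix.mulVec_mulVec, ← Matrix.mulVec_mulVec, Matrix.zero_mulVec, rSp1, PiM]
    simp only [T27_mulVec]
    ext i
    fin_cases i <;> simp [x1, x2, x3, y1, y2, y3, va] <;> ring
  · apply T27_ext
    intro v
    rw [← Matrix.mulVec_mulVec, Matrix.smul_mulVec, rk1_mulVec, rSp1, PiM]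
    simp only [T27_mulVec]
    ext i
    fin_cases i <;> simp [x1, x2, x3, y1, y2, y3, va, B] <;> ring
  · apply T27_ext
    intro v
    rw [← Matrix.mulVec_mulVec, ← Matrix.mulVec_mulVec, Lmat_mulVec, rSp1, PiM]
    simp only [T27_mulVec]
    ext i
    fin_cases i <;> simp [x1, x2, x3, y1, y2, y3, va, cross] <;> ring
  · apply T27_ext
    intro v
    rw [← Matrix.mulVec_mulVec, ← Matrix.mulVec_mulVec, Lmat_mulVec, Matrix.zero_mulVec, rSp1, PiM]
    simp only [T27_mulVec]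
    ext i
    fin_cases i <;> simp [x1, x2, x3, y1, y2, y3, va, cross] <;> ring

theorem eH0_InG (r : ℝ) : InG (eH0 r) := by
  intro u v w
  have hab : Real.exp r * Real.exp (-r) = 1 := by rw [← Real.exp_add]; simp
  have hv : ∀ u : V, (eH0 r).mulVec u = ![u 0, (Real.exp r * (u 1 - u 5) + Real.exp (-r) * (u 1 + u 5)) / 2,
      (Real.exp r * (u 2 - u 6) + Real.exp (-r) * (u 2 + u 6)) / 2, u 3, u 4,
      (-(Real.exp r * (u 1 - u 5)) + Real.exp (-r) * (u 1 + u 5)) / 2,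
      (-(Real.exp r * (u 2 - u 6)) + Real.exp (-r) * (u 2 + u 6)) / 2] := by
    intro u
    rw [eH0, T27_mulVec]
    ext i
    fin_cases i <;> simp [x1, x2, x3, y1, y2, y3, va] <;> ring
  rw [hv u, hv v, hv w]
  have hb : Real.exp (-r) = (Real.exp r)⁻¹ := Real.exp_neg r
  have ha : Real.exp r ≠ 0 := (Real.exp_pos r).ne'
  generalize Real.exp r = a at *
  generalize Real.exp (-r) = b at *
  subst hb
  simp [phi, e3, det3]
  field_simp
  ring

theorem eH0_tendsto : Tendsto (fun r : ℝ => Real.exp (-r) • eH0 r) atTop (𝓝 PiM) := by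
  have e : ∀ r : ℝ, Real.exp (-r) • eH0 r = PiM + Real.exp (-r) • ofNull va x1 0 0 y1 0 0 +
      (Real.exp (-r) * Real.exp (-r)) • ofNull 0 0 0 x3 0 y2 0 := by
    intro r
    have hab : Real.exp (-r) * Real.exp r = 1 := by rw [← Real.exp_add]; simp
    apply T27_ext
    intro v
    rw [Matrix.add_mulVec, Matrix.add_mulVec, Matrix.smul_mulVec, Matrix.smul_mulVec, Matrix.smul_mulVec, eH0, PiM]
    simp only [T27_mulVec, smul_add, smul_zero, add_zero, zero_add]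
    rw [smul_comm (Real.exp (-r)) (v 1 - v 5) (Real.exp r • x2), smul_smul (Real.exp (-r)) (Real.exp r) x2, hab, one_smul,
      smul_comm (Real.exp (-r)) (v 2 - v 6) (Real.exp r • y3), smul_smul (Real.exp (-r)) (Real.exp r) y3, hab, one_smul]
    module
  simp_rw [e]
  have h0 : Tendsto (fun r : ℝ => Real.exp (-r)) atTop (𝓝 0) := Real.tendsto_exp_neg_atTop_nhds_zero
  have h1 : Tendsto (fun r : ℝ => Real.exp (-r) • ofNull va x1 0 0 y1 0 0) atTop (𝓝 ((0:ℝ) • ofNull va x1 0 0 y1 0 0)) :=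
    h0.smul_const _
  have h2 : Tendsto (fun r : ℝ => (Real.exp (-r) * Real.exp (-r)) • ofNull 0 0 0 x3 0 y2 0) atTop
      (𝓝 (((0:ℝ) * 0) • ofNull 0 0 0 x3 0 y2 0)) := (h0.mul h0).smul_const _
  have := (tendsto_const_nhds (x := PiM)).add h1 |>.add h2
  simpa using this

private lemma T27_B_tendsto {u v : ℕ → V} {u0 v0 : V} (hu : Tendsto u atTop (𝓝 u0)) (hv : Tendsto v atTop (𝓝 v0)) :
    Tendsto (fun j => B (u j) (v j)) atTop (𝓝 (B u0 v0)) := by
  have hu' := tendsto_pi_nhds.1 hu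
  have hv' := tendsto_pi_nhds.1 hv
  unfold B
  exact (((((((hu' 0).mul (hv' 0)).add ((hu' 1).mul (hv' 1))).add ((hu' 2).mul (hv' 2))).sub ((hu' 3).mul (hv' 3))).sub
    ((hu' 4).mul (hv' 4))).sub ((hu' 5).mul (hv' 5))).sub ((hu' 6).mul (hv' 6))

private lemma T27_lim (h : Mat) (σ0 : ℝ) (r σ : ℕ → ℝ) (hr : Tendsto r atTop atTop) (hσ : Tendsto σ atTop (𝓝 σ0)) :
    Tendsto (fun j => Real.exp (-(r j)) • (h * (eH0 (r j) * expZ rSp1 (σ j)))) atTop
      (𝓝 (h * PiM + σ0 • (h * (PiM * rSp1)))) := by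
  have h1 : Tendsto (fun j => Real.exp (-(r j)) • eH0 (r j)) atTop (𝓝 PiM) := eH0_tendsto.comp hr
  have h2 : Tendsto (fun j => expZ rSp1 (σ j)) atTop (𝓝 (expZ rSp1 σ0)) := by
    have hc : Continuous (fun s : ℝ => expZ rSp1 s) := by
      unfold expZ
      fun_prop
    exact (hc.tendsto σ0).comp hσ
  have h3 := (h1.mul h2).const_mul h
  have e1 : h * (PiM * expZ rSp1 σ0) = h * PiM + σ0 • (h * (PiM * rSp1)) := by
    rw [expZ]
    simp only [mul_add, mul_one, mul_smul_comm, PiM_facts.1, smul_zero, mul_zero, add_zero]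
  rw [e1] at h3
  refine h3.congr (fun j => ?_)
  rw [smul_mul_assoc, mul_smul_comm]

theorem alpha_tendsto (h : Mat) (hh : InG h) (u : V) (μ σ0 C : ℝ) (r σ : ℕ → ℝ) (w : ℕ → V) (hr : Tendsto r atTop atTop)
    (hσ : Tendsto σ atTop (𝓝 σ0)) (hw : ∀ j, ‖w j‖ ≤ C) :
    Tendsto (fun j => FF (h * (eH0 (r j) * expZ rSp1 (σ j))) (h.mulVec ((r j * μ) • x1 + w j) + u) * Real.exp (-2 * r j) / r j) atTop
      (𝓝 (((h * PiM).trace + σ0 * (h * (PiM * rSp1)).trace) * (μ * (h * (PiM * rSp1)).trace))) ∧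
    Tendsto (fun j => B (Ev (h * (eH0 (r j) * expZ rSp1 (σ j)))) (Ev (h * (eH0 (r j) * expZ rSp1 (σ j)))) * Real.exp (-2 * r j)) atTop
      (𝓝 (B (Ev (h * PiM) + σ0 • Ev (h * (PiM * rSp1))) (Ev (h * PiM) + σ0 • Ev (h * (PiM * rSp1))))) ∧
    Tendsto (fun j => (h * (eH0 (r j) * expZ rSp1 (σ j))).trace * Real.exp (-(r j))) atTop
      (𝓝 ((h * PiM).trace + σ0 * (h * (PiM * rSp1)).trace)) := by
  have hG := T27_lim h σ0 r σ hr hσ
  have hee : ∀ j, Real.exp (-2 * r j) = Real.exp (-(r j)) * Real.exp (-(r j)) := by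
    intro j; rw [← Real.exp_add]; congr 1; ring
  have htr : Tendsto (fun j => (h * (eH0 (r j) * expZ rSp1 (σ j))).trace * Real.exp (-(r j))) atTop
      (𝓝 ((h * PiM).trace + σ0 * (h * (PiM * rSp1)).trace)) := by
    have h1 : Tendsto (fun j => (Real.exp (-(r j)) • (h * (eH0 (r j) * expZ rSp1 (σ j)))).trace) atTop
        (𝓝 (h * PiM + σ0 • (h * (PiM * rSp1))).trace) := by
      have hc : Continuous (fun M : Mat => M.trace) := Continuous.matrix_trace continuous_id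
      exact (hc.tendsto _).comp hG
    rw [Matrix.trace_add, Matrix.trace_smul, smul_eq_mul] at h1
    refine h1.congr (fun j => ?_)
    rw [Matrix.trace_smul, smul_eq_mul, mul_comm]
  have hEv : Tendsto (fun j => Ev (Real.exp (-(r j)) • (h * (eH0 (r j) * expZ rSp1 (σ j))))) atTop
      (𝓝 (Ev (h * PiM) + σ0 • Ev (h * (PiM * rSp1)))) := by
    have := (continuous_Ev.tendsto _).comp hG
    rw [Ev_add, Ev_smul] at this
    exact this
  refine ⟨?_, ?_, htr⟩
  · have he0 : Tendsto (fun j => Real.exp (-(r j))) atTop (𝓝 0) :=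
      Real.tendsto_exp_neg_atTop_nhds_zero.comp hr
    have hinv : Tendsto (fun j => (r j)⁻¹) atTop (𝓝 0) := tendsto_inv_atTop_zero.comp hr
    have hw0 : Tendsto (fun j => (r j)⁻¹ • w j) atTop (𝓝 0) := by
      rw [tendsto_zero_iff_norm_tendsto_zero]
      have hup : Tendsto (fun j => |(r j)⁻¹| * C) atTop (𝓝 0) := by
        have := (hinv.abs).mul_const C
        simpa using this
      refine squeeze_zero (fun j => norm_nonneg _) (fun j => ?_) hup
      rw [norm_smul, Real.norm_eq_abs]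
      exact mul_le_mul_of_nonneg_left (hw j) (abs_nonneg _)
    have hvec : Tendsto (fun j => h.mulVec (μ • x1 + (r j)⁻¹ • w j) + (r j)⁻¹ • u) atTop (𝓝 (μ • h.mulVec x1)) := by
      have hcm : Continuous (fun v : V => h.mulVec v) := by fun_prop
      have h1 : Tendsto (fun j => μ • x1 + (r j)⁻¹ • w j) atTop (𝓝 (μ • x1)) := by
        have := (tendsto_const_nhds (x := μ • x1)).add hw0
        simpa using this
      have h2 := (hcm.tendsto _).comp h1
      have h3 : Tendsto (fun j => (r j)⁻¹ • u) atTop (𝓝 ((0:ℝ) • u)) := hinv.smul_const u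
      have h4 := h2.add h3
      rw [zero_smul, add_zero, Matrix.mulVec_smul] at h4
      exact h4
    have hB := T27_B_tendsto hvec hEv
    have hlimB : B (μ • h.mulVec x1) (Ev (h * PiM) + σ0 • Ev (h * (PiM * rSp1))) = μ * (h * (PiM * rSp1)).trace := by
      rw [B_smul_left, B_add_right, B_smul_right, key_trace h hh, key_trace h hh, PiM_facts.2.2.1, PiM_facts.2.2.2]
      simp
    rw [hlimB] at hB
    have hprod := ((htr.add he0).mul hB)
    rw [add_zero] at hprod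
    refine hprod.congr' ?_
    filter_upwards [hr.eventually_gt_atTop 0] with j hj
    have hr0 : r j ≠ 0 := hj.ne'
    have e1 : h.mulVec ((r j * μ) • x1 + w j) + u = r j • (h.mulVec (μ • x1 + (r j)⁻¹ • w j) + (r j)⁻¹ • u) := by
      rw [smul_add, ← Matrix.mulVec_smul, smul_add, smul_smul, smul_smul, smul_smul, mul_inv_cancel₀ hr0, one_smul, one_smul]
    rw [FF, e1, B_smul_left, Ev_smul, B_smul_right, hee j]
    field_simp
  · have hB := T27_B_tendsto hEv hEv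
    refine hB.congr (fun j => ?_)
    rw [Ev_smul, B_smul_left, B_smul_right, hee j]
    ring

theorem alpha_q (h : Mat) (hh : InG h) (σ : ℝ) :
    B (Ev (h * (PiM * rSp1))) (Ev (h * (PiM * rSp1))) = -((h * (PiM * rSp1)).trace) ^ 2 := by
  have hnull : B (h.mulVec y3) (h.mulVec y3) = 0 := by
    rw [(GX_B h hh y3 y3).1]
    simp [B, y3]
    norm_num
  rw [PiM_facts.2.1, mul_smul_comm, mul_rk1, Ev_smul, B_smul_left, B_smul_right, Ev_rk1, q_cross_null _ _ hnull,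
    Matrix.trace_smul, trace_rk1, smul_eq_mul, B_comm y2]
  ring

end C37
end
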