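import Mathlib
import Pool.Agent.Lib.MP_c37615_al.Defs
import Pool.Agent.Lib.MP_c37615_al.D.Core
import Pool.Agent.Lib.MP_c37615_al.Mg.G033

section

/-!
MP_c37615_al (S02984), part D-IIb (paper 6.4.4 - 6.4.6), file B_F0
-/

set_option autoImplicit false

open Filter Topology NormedSpace

namespace C37
namespace DB

/-- a singular 2 x 2 matrix has a kernel: if `p = q = r = s = 0` take (1,0); if `(p,r) ≠ 0` take `(r,-p)`; else take
`(s,-q)`. -/
theorem sing22 (p q r s : ℝ) (h : p * s - q * r = 0) :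
    ∃ x y : ℝ, (x ≠ 0 ∨ y ≠ 0) ∧ x * p + y * r = 0 ∧ x * q + y * s = 0 := by
  by_cases h1 : p = 0 ∧ r = 0
  · obtain ⟨rfl, rfl⟩ := h1
    by_cases h2 : q = 0 ∧ s = 0
    · obtain ⟨rfl, rfl⟩ := h2
      exact ⟨1, 0, Or.inl one_ne_zero, by ring, by ring⟩
    · refine ⟨s, -q, ?_, by ring, by ring⟩
      by_contra hcon
      push Not at hcon
      exact h2 ⟨neg_eq_zero.1 hcon.2, hcon.1⟩
  · refine ⟨r, -p, ?_, by ring, by linear_combination (-1) * h⟩
    by_contra hcon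
    push Not at hcon
    exact h1 ⟨neg_eq_zero.1 hcon.2, hcon.1⟩

/-- a real quartic with vanishing invariant I has a real root.
Proof: `Q t := A t^4 + 4 B t^3 + 6 C t^2 + 4 D t + E`, `t0 := -B/A`. Then `A^3 * (A * Q t0) = -3 (A C - B^2)^2 * A`... precisely
`A^3 * Q t0 = A^3 E - 4 A^2 B D + 6 A B^2 C - 3 B^4 = -3 (A C - B^2)^2` using `A E - 4 B D + 3 C^2 = 0`
(so `A * Q t0 ≤ 0`, multiply by the square `A^2`). And `A * Q t` is positive for large `t` (leading coefficient `A^2 > 0`), e.g. by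
`Filter.Tendsto` of polynomials or an explicit bound. Intermediate value theorem (`Q` continuous, `intermediate_value_uIcc` or
`mem_range_of_exists_le_of_exists_ge`). -/
theorem qroot (A B C D E : ℝ) (hA : A ≠ 0) (hI : A * E - 4 * B * D + 3 * C ^ 2 = 0) :
    ∃ t : ℝ, A * t ^ 4 + 4 * B * t ^ 3 + 6 * C * t ^ 2 + 4 * D * t + E = 0 := by
  set f : ℝ → ℝ := fun t => A * (A * t ^ 4 + 4 * B * t ^ 3 + 6 * C * t ^ 2 + 4 * D * t + E) with hf
  have hcont : Continuous f := by rw [hf]; fun_prop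
  have hA2 : 0 < A ^ 2 := by positivity
  have h1 : ∃ a, f a ≤ 0 := by
    refine ⟨-B / A, ?_⟩
    have e : A ^ 2 * f (-B / A) = -3 * (A * C - B ^ 2) ^ 2 := by
      rw [hf]
      field_simp
      linear_combination A ^ 2 * hI
    have h2 : A ^ 2 * f (-B / A) ≤ 0 := by
      rw [e]; nlinarith [sq_nonneg (A * C - B ^ 2)]
    by_contra hcon
    push Not at hcon
    have := mul_pos hA2 hcon
    linarith
  have h2 : ∃ b, 0 ≤ f b := by
    set S : ℝ := 4 * |A * B| + 6 * |A * C| + 4 * |A * D| + |A * E| with hS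
    have hS0 : 0 ≤ S := by rw [hS]; positivity
    set T : ℝ := 1 + S / A ^ 2 with hT
    have hT1 : 1 ≤ T := by
      have : 0 ≤ S / A ^ 2 := by positivity
      linarith
    have hT0 : 0 < T := by linarith
    have hTA : A ^ 2 * T = A ^ 2 + S := by
      rw [hT]; field_simp
    refine ⟨T, ?_⟩
    have e : f T = T ^ 3 * (A ^ 2 * T) + 4 * (A * B) * T ^ 3 + 6 * (A * C) * T ^ 2 + 4 * (A * D) * T + A * E := by
      rw [hf]; ring
    rw [e, hTA]
    have hT2 : T ^ 2 ≤ T ^ 3 := pow_le_pow_right₀ hT1 (by norm_num)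
    have hT3 : T ≤ T ^ 3 := by
      calc T = T ^ 1 := (pow_one T).symm
        _ ≤ T ^ 3 := pow_le_pow_right₀ hT1 (by norm_num)
    have hT4 : 1 ≤ T ^ 3 := one_le_pow₀ hT1
    have b1 : -(4 * |A * B| * T ^ 3) ≤ 4 * (A * B) * T ^ 3 := by
      have := neg_abs_le (A * B)
      have h3 : 0 < T ^ 3 := by positivity
      nlinarith
    have b2 : -(6 * |A * C| * T ^ 3) ≤ 6 * (A * C) * T ^ 2 := by
      have h3 := neg_abs_le (A * C)
      have h4 : 0 ≤ |A * C| := abs_nonneg _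
      have h5 : 0 < T ^ 2 := by positivity
      have h6 : -(|A * C| * T ^ 2) ≤ (A * C) * T ^ 2 := by nlinarith
      have h7 : |A * C| * T ^ 2 ≤ |A * C| * T ^ 3 := mul_le_mul_of_nonneg_left hT2 h4
      nlinarith
    have b3 : -(4 * |A * D| * T ^ 3) ≤ 4 * (A * D) * T := by
      have h3 := neg_abs_le (A * D)
      have h4 : 0 ≤ |A * D| := abs_nonneg _
      have h6 : -(|A * D| * T) ≤ (A * D) * T := by nlinarith
      have h7 : |A * D| * T ≤ |A * D| * T ^ 3 := mul_le_mul_of_nonneg_left hT3 h4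
      nlinarith
    have b4 : -(|A * E| * T ^ 3) ≤ A * E := by
      have h3 := neg_abs_le (A * E)
      have h4 : 0 ≤ |A * E| := abs_nonneg _
      have h7 : |A * E| * 1 ≤ |A * E| * T ^ 3 := mul_le_mul_of_nonneg_left hT4 h4
      linarith
    have h8 : T ^ 3 * (A ^ 2 + S) = T ^ 3 * A ^ 2 + (4 * |A * B| * T ^ 3 + 6 * |A * C| * T ^ 3 + 4 * |A * D| * T ^ 3 + |A * E| * T ^ 3) := by
      rw [hS]; ring
    have h9 : 0 < T ^ 3 * A ^ 2 := by positivity
    linarith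
  obtain ⟨t, ht⟩ := mem_range_of_exists_le_of_exists_ge hcont h1 h2
  exact ⟨t, (mul_eq_zero.1 ht).resolve_left hA⟩

theorem cube_root (r : ℝ) (hr : r ≠ 0) : ∃ t : ℝ, t ≠ 0 ∧ t ^ 3 = r := by
  have key : ∀ x : ℝ, 0 < x → ∃ t : ℝ, t ≠ 0 ∧ t ^ 3 = x := by
    intro x hx
    have h := Real.rpow_inv_natCast_pow hx.le (by norm_num : (3 : ℕ) ≠ 0)
    refine ⟨x ^ (((3 : ℕ) : ℝ)⁻¹), ?_, h⟩
    intro h0
    rw [h0] at h
    norm_num at h
    linarith
  rcases lt_or_gt_of_ne hr with h | h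
  · obtain ⟨t, ht0, ht⟩ := key (-r) (by linarith)
    exact ⟨-t, neg_ne_zero.2 ht0, by rw [Odd.neg_pow (by decide), ht, neg_neg]⟩
  · exact key r h

end DB
end C37
end

section

/-!
MP_c37615_al (S02984), part D-IIb (paper 6.4.4 - 6.4.6), file B_N04_rSm2
-/

set_option autoImplicit false

open Filter Topology NormedSpace

namespace C37
namespace DB

private theorem rSm2_ofNull_mulVec (fa f1 f2 f3 g1 g2 g3 v : V) :
    (ofNull fa f1 f2 f3 g1 g2 g3).mulVec v = (v 3) • fa + (v 0 - v 4) • f1 + (v 1 - v 5) • f2 +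
      (-(v 2 + v 6)) • f3 + (-(v 0 + v 4)) • g1 + (-(v 1 + v 5)) • g2 + (v 2 - v 6) • g3 := by
  ext i
  simp only [ofNull, Matrix.mulVec, dotProduct, Fin.sum_univ_seven, ev, Matrix.of_apply, Pi.add_apply,
    Pi.smul_apply, smul_eq_mul]
  simp
  ring

private theorem rSm2_mulVec (v : V) : rSm2.mulVec v =
    (![(1/4) * v 2 + (-1/4) * v 6, (-1/2) * v 3, (-1/4) * v 0 + (-1/4) * v 4, (-1/2) * v 1 + (1/2) * v 5, (-1/4) * v 2 + (1/4) * v 6, (-1/2) * v 3, (-1/4) * v 0 + (-1/4) * v 4] : V) := by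
  unfold rSm2
  rw [rSm2_ofNull_mulVec]
  ext i
  fin_cases i <;> simp [va, x1, x2, x3, y1, y2, y3] <;> ring

/-- `rSm2` is a derivation of the cross product, skew for `B`.
Proof: pure computation. Unfold `Der`, `rSm2`, `ofNull`, `ev`, `Matrix.mulVec`, `dotProduct`, `Fin.sum_univ_seven`, `cross`,
`B`, `va`, `x1`, ...; first prove a formula `rSm2.mulVec v = ![...]` with the 7 entries explicit linear forms in `v`
(the coordinates of `v` in the null basis are in the docstring of `ofNull`), then the two identities by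
`simp` and `ring` (componentwise, `fin_cases i`). -/
theorem der_rSm2 : Der rSm2 := by
  constructor
  · intro u v
    rw [rSm2_mulVec, rSm2_mulVec]
    simp [B]
    ring
  · intro u v
    rw [rSm2_mulVec, rSm2_mulVec, rSm2_mulVec]
    ext i
    fin_cases i <;> simp [cross] <;> ring

end DB
end C37
end

section

/-!
MP_c37615_al (S02984), part D-IIb (paper 6.4.4 - 6.4.6), file B_N06
-/

set_option autoImplicit false

open Filter Topology NormedSpace

namespace C37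
namespace DB

/-! Cubes of the root matrices vanish: check on the null basis (`null_ext`, `Matrix.mulVec_mulVec` backwards, tables). -/
theorem cube_rSp1 : rSp1 * rSp1 * rSp1 = 0 := by
  obtain ⟨ha, h1, h2, h3, k1, k2, k3⟩ := tSp1
  refine null_ext _ _ ?_ ?_ ?_ ?_ ?_ ?_ ?_ <;>
    simp [← Matrix.mulVec_mulVec, Matrix.mulVec_smul, Matrix.mulVec_neg, ha, h1, h2, h3, k1, k2, k3]
theorem cube_rSp2 : rSp2 * rSp2 * rSp2 = 0 := by
  obtain ⟨ha, h1, h2, h3, k1, k2, k3⟩ := tSp2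
  refine null_ext _ _ ?_ ?_ ?_ ?_ ?_ ?_ ?_ <;>
    simp [← Matrix.mulVec_mulVec, Matrix.mulVec_smul, Matrix.mulVec_neg, ha, h1, h2, h3, k1, k2, k3]
theorem cube_rSm2 : rSm2 * rSm2 * rSm2 = 0 := by
  obtain ⟨ha, h1, h2, h3, k1, k2, k3⟩ := tSm2
  refine null_ext _ _ ?_ ?_ ?_ ?_ ?_ ?_ ?_ <;>
    simp [← Matrix.mulVec_mulVec, Matrix.mulVec_smul, Matrix.mulVec_neg, ha, h1, h2, h3, k1, k2, k3]
theorem cube_rSm3 : rSm3 * rSm3 * rSm3 = 0 := by
  obtain ⟨ha, h1, h2, h3, k1, k2, k3⟩ := tSm3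
  refine null_ext _ _ ?_ ?_ ?_ ?_ ?_ ?_ ?_ <;>
    simp [← Matrix.mulVec_mulVec, Matrix.mulVec_smul, Matrix.mulVec_neg, ha, h1, h2, h3, k1, k2, k3]
theorem cube_rL23 : rL23 * rL23 * rL23 = 0 := by
  obtain ⟨ha, h1, h2, h3, k1, k2, k3⟩ := tL23
  refine null_ext _ _ ?_ ?_ ?_ ?_ ?_ ?_ ?_ <;>
    simp [← Matrix.mulVec_mulVec, Matrix.mulVec_smul, Matrix.mulVec_neg, ha, h1, h2, h3, k1, k2, k3]
theorem cube_d1 : ((2:ℝ) • rL12 + rL23 + rSp1) * ((2:ℝ) • rL12 + rL23 + rSp1) * ((2:ℝ) • rL12 + rL23 + rSp1) = 0 := by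
  obtain ⟨ha, h1, h2, h3, k1, k2, k3⟩ := tSp1
  obtain ⟨ha', h1', h2', h3', k1', k2', k3'⟩ := tL12
  obtain ⟨ha'', h1'', h2'', h3'', k1'', k2'', k3''⟩ := tL23
  refine null_ext _ _ ?_ ?_ ?_ ?_ ?_ ?_ ?_ <;>
    simp [← Matrix.mulVec_mulVec, Matrix.mulVec_smul, Matrix.mulVec_neg, Matrix.mulVec_add,
      Matrix.add_mulVec, Matrix.smul_mulVec, ha, h1, h2, h3, k1, k2, k3, ha', h1', h2', h3', k1', k2',
      k3', ha'', h1'', h2'', h3'', k1'', k2'', k3'']

end DB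
end C37
end
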