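import Mathlib
import Pool.Agent.Lib.MP_c37615_al.Defs
import Pool.Agent.Lib.MP_c37615_al.D.Core
import Pool.Agent.Lib.MP_c37615_al.Mg.G033

section

/-!
MP_c37615_al (S02984), part D-IIb (paper 6.4.4 - 6.4.6), file B_N04_rSm3
-/

set_option autoImplicit false

open Filter Topology NormedSpace

namespace C37
namespace DB

private theorem rSm3_ofNull_mulVec (fa f1 f2 f3 g1 g2 g3 v : V) :
    (ofNull fa f1 f2 f3 g1 g2 g3).mulVec v = (v 3) • fa + (v 0 - v 4) • f1 + (v 1 - v 5) • f2 +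
      (-(v 2 + v 6)) • f3 + (-(v 0 + v 4)) • g1 + (-(v 1 + v 5)) • g2 + (v 2 - v 6) • g3 := by
  ext i
  simp only [ofNull, Matrix.mulVec, dotProduct, Fin.sum_univ_seven, ev, Matrix.of_apply, Pi.add_apply,
    Pi.smul_apply, smul_eq_mul]
  simp
  ring

private theorem rSm3_mulVec (v : V) : rSm3.mulVec v =
    (![(1/4) * v 1 + (1/4) * v 5, (-1/4) * v 0 + (-1/4) * v 4, (1/2) * v 3, (1/2) * v 2 + (1/2) * v 6, (-1/4) * v 1 + (-1/4) * v 5, (1/4) * v 0 + (1/4) * v 4, (-1/2) * v 3] : V) := by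
  unfold rSm3
  rw [rSm3_ofNull_mulVec]
  ext i
  fin_cases i <;> simp [va, x1, x2, x3, y1, y2, y3] <;> ring

/-- `rSm3` is a derivation of the cross product, skew for `B`.
Proof: pure computation. Unfold `Der`, `rSm3`, `ofNull`, `ev`, `Matrix.mulVec`, `dotProduct`, `Fin.sum_univ_seven`, `cross`,
`B`, `va`, `x1`, ...; first prove a formula `rSm3.mulVec v = ![...]` with the 7 entries explicit linear forms in `v`
(the coordinates of `v` in the null basis are in the docstring of `ofNull`), then the two identities by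
`simp` and `ring` (componentwise, `fin_cases i`). -/
theorem der_rSm3 : Der rSm3 := by
  constructor
  · intro u v
    rw [rSm3_mulVec, rSm3_mulVec]
    simp [B]
    ring
  · intro u v
    rw [rSm3_mulVec, rSm3_mulVec, rSm3_mulVec]
    ext i
    fin_cases i <;> simp [cross] <;> ring

end DB
end C37
end

section

/-!
MP_c37615_al (S02984), part D-IIb (paper 6.4.4 - 6.4.6), file B_N04_rSp2
-/

set_option autoImplicit false

open Filter Topology NormedSpace

namespace C37
namespace DB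

private theorem rSp2_ofNull_mulVec (fa f1 f2 f3 g1 g2 g3 v : V) :
    (ofNull fa f1 f2 f3 g1 g2 g3).mulVec v = (v 3) • fa + (v 0 - v 4) • f1 + (v 1 - v 5) • f2 +
      (-(v 2 + v 6)) • f3 + (-(v 0 + v 4)) • g1 + (-(v 1 + v 5)) • g2 + (v 2 - v 6) • g3 := by
  ext i
  simp only [ofNull, Matrix.mulVec, dotProduct, Fin.sum_univ_seven, ev, Matrix.of_apply, Pi.add_apply,
    Pi.smul_apply, smul_eq_mul]
  simp
  ring

private theorem rSp2_mulVec (v : V) : rSp2.mulVec v =
    (![(-1/2) * v 2 + (-1/2) * v 6, (-1) * v 3, (1/2) * v 0 + (-1/2) * v 4, (-1) * v 1 + (-1) * v 5, (-1/2) * v 2 + (-1/2) * v 6, (1) * v 3, (-1/2) * v 0 + (1/2) * v 4] : V) := by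
  unfold rSp2
  rw [rSp2_ofNull_mulVec]
  ext i
  fin_cases i <;> simp [va, x1, x2, x3, y1, y2, y3] <;> ring

/-- `rSp2` is a derivation of the cross product, skew for `B`.
Proof: pure computation. Unfold `Der`, `rSp2`, `ofNull`, `ev`, `Matrix.mulVec`, `dotProduct`, `Fin.sum_univ_seven`, `cross`,
`B`, `va`, `x1`, ...; first prove a formula `rSp2.mulVec v = ![...]` with the 7 entries explicit linear forms in `v`
(the coordinates of `v` in the null basis are in the docstring of `ofNull`), then the two identities by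
`simp` and `ring` (componentwise, `fin_cases i`). -/
theorem der_rSp2 : Der rSp2 := by
  constructor
  · intro u v
    rw [rSp2_mulVec, rSp2_mulVec]
    simp [B]
    ring
  · intro u v
    rw [rSp2_mulVec, rSp2_mulVec, rSp2_mulVec]
    ext i
    fin_cases i <;> simp [cross] <;> ring

end DB
end C37
end

section

/-!
MP_c37615_al (S02984), part D-IIb (paper 6.4.4 - 6.4.6), file B_N05
-/

set_option autoImplicit false

open Filter Topology NormedSpace

namespace C37
namespace DB

private theorem N05_B_add (a b c : V) : B (a + b) c = B a c + B b c := by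
  simp [B]
  ring
private theorem N05_a1 (a b c d : V) : phi (a + b) c d = phi a c d + phi b c d := by
  simp [phi, e3, det3]
  ring
private theorem N05_a2 (a b c d : V) : phi c (a + b) d = phi c a d + phi c b d := by
  simp [phi, e3, det3]
  ring
private theorem N05_a3 (a b c d : V) : phi c d (a + b) = phi c d a + phi c d b := by
  simp [phi, e3, det3]
  ring
private theorem N05_s1 (r : ℝ) (a c d : V) : phi (r • a) c d = r * phi a c d := by
  simp [phi, e3, det3]
  ring
private theorem N05_s2 (r : ℝ) (a c d : V) : phi c (r • a) d = r * phi c a d := by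
  simp [phi, e3, det3]
  ring
private theorem N05_s3 (r : ℝ) (a c d : V) : phi c d (r • a) = r * phi c d a := by
  simp [phi, e3, det3]
  ring
private theorem N05_z1 (c d : V) : phi 0 c d = 0 := by
  simp [phi, e3, det3]
private theorem N05_z2 (c d : V) : phi c 0 d = 0 := by
  simp [phi, e3, det3]
private theorem N05_z3 (c d : V) : phi c d 0 = 0 := by
  simp [phi, e3, det3]

/-- exponentials of nilpotent derivations lie in G.
Proof. Fix `u v w` and put `E t := expZ Z t`, `f t := phi (E t u) (E t v) (E t w)`, where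
`phi u v w = B (cross u v) w` (`B_cross`).
`E t u = u + t • Z u + (t^2/2) • Z Z u`, so each coordinate is a polynomial in `t`; it has derivative
`Z u + t • Z Z u = Z (E t u)` because `Z Z Z u = 0`. `phi` is trilinear (`cross` and `B` are bilinear: unfold and `ring`), so
`f' t = phi (Z (E t u)) (E t v) (E t w) + phi (E t u) (Z (E t v)) (E t w) + phi (E t u) (E t v) (Z (E t w))`
`= B (cross (Z a) b + cross a (Z b)) c + B (cross a b) (Z c) = B (Z (cross a b)) c + B (cross a b) (Z c) = 0`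
by `Der` (with `a = E t u` etc.). So `f` is constant (`is_const_of_deriv_eq_zero`) and `f 0 = phi u v w`.
(Alternative without calculus: expand; the coefficient of `t^n` is `1/n!` times the `n`-th iterate of the zero expression
`phi (Z u) v w + phi u (Z v) w + phi u v (Z w) = 0`, using `Z Z Z = 0`.) -/
theorem expZ_inG (Z : Mat) (hZ : Der Z) (h3 : Z * Z * Z = 0) (t : ℝ) : InG (expZ Z t) := by
  have R : ∀ a b c : V, phi (Z.mulVec a) b c + phi a (Z.mulVec b) c + phi a b (Z.mulVec c) = 0 := by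
    intro a b c
    have h1 := hZ.1 (cross a b) c
    rw [hZ.2, N05_B_add, B_cross, B_cross, B_cross] at h1
    exact h1
  have hz3 : ∀ a : V, Z.mulVec (Z.mulVec (Z.mulVec a)) = 0 := by
    intro a
    rw [Matrix.mulVec_mulVec, Matrix.mulVec_mulVec, h3, Matrix.zero_mulVec]
  have hE : ∀ a : V, (expZ Z t).mulVec a = a + t • Z.mulVec a + (t ^ 2 / 2) • Z.mulVec (Z.mulVec a) := by
    intro a
    rw [expZ, Matrix.add_mulVec, Matrix.add_mulVec, Matrix.one_mulVec, Matrix.smul_mulVec,
      Matrix.smul_mulVec, ← Matrix.mulVec_mulVec]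
  intro u v w
  rw [hE, hE, hE]
  have ku := hz3 u
  have kv := hz3 v
  have kw := hz3 w
  obtain ⟨u1, hu1⟩ : ∃ a, a = Z.mulVec u := ⟨_, rfl⟩
  obtain ⟨v1, hv1⟩ : ∃ a, a = Z.mulVec v := ⟨_, rfl⟩
  obtain ⟨w1, hw1⟩ : ∃ a, a = Z.mulVec w := ⟨_, rfl⟩
  obtain ⟨u2, hu2⟩ : ∃ a, a = Z.mulVec u1 := ⟨_, rfl⟩
  obtain ⟨v2, hv2⟩ : ∃ a, a = Z.mulVec v1 := ⟨_, rfl⟩
  obtain ⟨w2, hw2⟩ : ∃ a, a = Z.mulVec w1 := ⟨_, rfl⟩
  rw [← hu1, ← hu2] at ku
  rw [← hv1, ← hv2] at kv
  rw [← hw1, ← hw2] at kw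
  rw [← hu1, ← hv1, ← hw1, ← hu2, ← hv2, ← hw2]
  have r000 := R u v w
  have r001 := R u v w1
  have r002 := R u v w2
  have r010 := R u v1 w
  have r011 := R u v1 w1
  have r012 := R u v1 w2
  have r020 := R u v2 w
  have r021 := R u v2 w1
  have r022 := R u v2 w2
  have r100 := R u1 v w
  have r101 := R u1 v w1
  have r102 := R u1 v w2
  have r110 := R u1 v1 w
  have r111 := R u1 v1 w1
  have r112 := R u1 v1 w2
  have r120 := R u1 v2 w
  have r121 := R u1 v2 w1
  have r122 := R u1 v2 w2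
  have r200 := R u2 v w
  have r201 := R u2 v w1
  have r202 := R u2 v w2
  have r210 := R u2 v1 w
  have r211 := R u2 v1 w1
  have r212 := R u2 v1 w2
  have r220 := R u2 v2 w
  have r221 := R u2 v2 w1
  have r222 := R u2 v2 w2
  simp only [← hu1, ← hu2, ← hv1, ← hv2, ← hw1, ← hw2, ku, kv, kw, N05_z1, N05_z2, N05_z3] at r000 r001 r002 r010 r011 r012 r020 r021 r022 r100 r101 r102 r110 r111 r112 r120 r121 r122 r200 r201 r202 r210 r211 r212 r220 r221 r222
  simp only [N05_a1, N05_a2, N05_a3, N05_s1, N05_s2, N05_s3]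
  linear_combination (1 / 1 * t ^ 1) * r000 +
    (1 / 2 * t ^ 2) * r001 +
    (1 / 6 * t ^ 3) * r002 +
    (1 / 2 * t ^ 2) * r010 +
    (1 / 3 * t ^ 3) * r011 +
    (1 / 8 * t ^ 4) * r012 +
    (1 / 6 * t ^ 3) * r020 +
    (1 / 8 * t ^ 4) * r021 +
    (1 / 20 * t ^ 5) * r022 +
    (1 / 2 * t ^ 2) * r100 +
    (1 / 3 * t ^ 3) * r101 +
    (1 / 8 * t ^ 4) * r102 +
    (1 / 3 * t ^ 3) * r110 +
    (1 / 4 * t ^ 4) * r111 +
    (1 / 10 * t ^ 5) * r112 +
    (1 / 8 * t ^ 4) * r120 +
    (1 / 10 * t ^ 5) * r121 +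
    (1 / 24 * t ^ 6) * r122 +
    (1 / 6 * t ^ 3) * r200 +
    (1 / 8 * t ^ 4) * r201 +
    (1 / 20 * t ^ 5) * r202 +
    (1 / 8 * t ^ 4) * r210 +
    (1 / 10 * t ^ 5) * r211 +
    (1 / 24 * t ^ 6) * r212 +
    (1 / 20 * t ^ 5) * r220 +
    (1 / 24 * t ^ 6) * r221 +
    (1 / 56 * t ^ 7) * r222

end DB
end C37
end
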