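import Mathlib
import Pool.Agent.Lib.MP_c37615_al.Defs
import Pool.Agent.Lib.MP_c37615_al.D.Core
import Pool.Agent.Lib.MP_c37615_al.Mg.G033
import Pool.Agent.Lib.MP_c37615_al.Mg.G017
import Pool.Agent.Lib.MP_c37615_al.Mg.G036
import Pool.Agent.Lib.MP_c37615_al.Mg.G035
import Pool.Agent.Lib.MP_c37615_al.Mg.G037
import Pool.Agent.Lib.MP_c37615_al.Mg.G005

section

/-!
MP_c37615_al (S02984), part D-IIb (paper 6.4.4 - 6.4.6), file B_C2
-/

set_option autoImplicit false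

open Filter Topology NormedSpace

namespace C37
namespace DB

/-- `Good` is invariant under conjugation: if `g` works for `X' Y'` then `g * h` works for `X Y`, since
`g * h * (c•X+d•Y) = g * (c•X'+d•Y') * h`. -/
theorem good_conj (X Y X' Y' h : Mat) (hh : InG h) (h1 : h * X = X' * h) (h2 : h * Y = Y' * h)
    (hg : Good X' Y') : Good X Y := by
  have key : ∀ c d : ℝ, h * (c • X + d • Y) = (c • X' + d • Y') * h := by
    intro c d
    rw [mul_add, Matrix.mul_smul, Matrix.mul_smul, h1, h2, add_mul, Matrix.smul_mul, Matrix.smul_mul]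
  obtain ⟨g, hgG, hor⟩ := hg
  refine ⟨g * h, inG_mul g h hgG hh, ?_⟩
  rcases hor with ⟨c, d, hc⟩ | ⟨c, d, c', d', hc, hc'⟩
  · left
    refine ⟨c, d, ?_⟩
    rw [mul_assoc, key, ← mul_assoc, hc, mul_assoc]
  · right
    refine ⟨c, d, c', d', ?_, ?_⟩
    · rw [mul_assoc, key, ← mul_assoc, hc, mul_assoc]
    · rw [mul_assoc, key, ← mul_assoc, hc', mul_assoc]

/-- `Good` only depends on the plane: combinations of combinations are combinations. -/
theorem good_span (X Y : Mat) (a b c d : ℝ) (h : Good (a • X + b • Y) (c • X + d • Y)) : Good X Y := by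
  have key : ∀ p q : ℝ, p • (a • X + b • Y) + q • (c • X + d • Y)
      = (p * a + q * c) • X + (p * b + q * d) • Y := by
    intro p q
    module
  obtain ⟨g, hgG, hor⟩ := h
  refine ⟨g, hgG, ?_⟩
  rcases hor with ⟨p, q, hc⟩ | ⟨p, q, p', q', hc, hc'⟩
  · left
    refine ⟨p * a + q * c, p * b + q * d, ?_⟩
    rw [← key]
    exact hc
  · right
    refine ⟨p * a + q * c, p * b + q * d, p' * a + q' * c, p' * b + q' * d, ?_, ?_⟩
    · rw [← key]
      exact hc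
    · rw [← key]
      exact hc'

theorem comm_conj (X Y X' Y' h : Mat) (hh : InG h) (h1 : h * X = X' * h) (h2 : h * Y = Y' * h)
    (hc : X * Y = Y * X) : X' * Y' = Y' * X' := by
  obtain ⟨_, h3, h4⟩ := inG_inv h hh
  have e1 : X' * Y' * h = h * (X * Y) := by
    rw [mul_assoc, ← h2, ← mul_assoc, ← h1, mul_assoc]
  have e2 : Y' * X' * h = h * (Y * X) := by
    rw [mul_assoc, ← h1, ← mul_assoc, ← h2, mul_assoc]
  have e3 : X' * Y' * h = Y' * X' * h := by rw [e1, e2, hc]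
  calc X' * Y' = X' * Y' * (h * h⁻¹) := by rw [h3, mul_one]
    _ = (X' * Y' * h) * h⁻¹ := by rw [mul_assoc (X' * Y')]
    _ = (Y' * X' * h) * h⁻¹ := by rw [e3]
    _ = Y' * X' * (h * h⁻¹) := by rw [mul_assoc (Y' * X')]
    _ = Y' * X' := by rw [h3, mul_one]

theorem ind_conj (X Y X' Y' h : Mat) (hh : InG h) (h1 : h * X = X' * h) (h2 : h * Y = Y' * h)
    (hi : Ind2 X Y) : Ind2 X' Y' := by
  obtain ⟨_, h3, h4⟩ := inG_inv h hh
  intro x y hxy
  apply hi x y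
  have e1 : h * (x • X + y • Y) = (x • X' + y • Y') * h := by
    rw [mul_add, Matrix.mul_smul, Matrix.mul_smul, h1, h2, add_mul, Matrix.smul_mul, Matrix.smul_mul]
  rw [hxy, zero_mul] at e1
  calc x • X + y • Y = (h⁻¹ * h) * (x • X + y • Y) := by rw [h4, one_mul]
    _ = h⁻¹ * (h * (x • X + y • Y)) := by rw [mul_assoc]
    _ = 0 := by rw [e1, mul_zero]

/-- if `a d - b c ≠ 0` then the combinations are independent: from `x•(aX+bY)+y•(cX+dY)=0` get `xa+yc=0`, `xb+yd=0`. -/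
theorem ind_span (X Y : Mat) (a b c d : ℝ) (hdet : a * d - b * c ≠ 0) (hi : Ind2 X Y) :
    Ind2 (a • X + b • Y) (c • X + d • Y) := by
  intro x y hxy
  have key : x • (a • X + b • Y) + y • (c • X + d • Y)
      = (x * a + y * c) • X + (x * b + y * d) • Y := by
    module
  rw [key] at hxy
  obtain ⟨e1, e2⟩ := hi _ _ hxy
  have hx : x * (a * d - b * c) = 0 := by linear_combination d * e1 - c * e2
  have hy : y * (a * d - b * c) = 0 := by linear_combination a * e2 - b * e1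
  exact ⟨(mul_eq_zero.mp hx).resolve_right hdet, (mul_eq_zero.mp hy).resolve_right hdet⟩

theorem comm_span (X Y : Mat) (a b c d : ℝ) (hc : X * Y = Y * X) :
    (a • X + b • Y) * (c • X + d • Y) = (c • X + d • Y) * (a • X + b • Y) := by
  simp only [add_mul, mul_add, Matrix.smul_mul, Matrix.mul_smul, smul_smul, hc]
  module

end DB
end C37
end

section

/-!
MP_c37615_al (S02984), part D-IIb (paper 6.4.4 - 6.4.6), file B_T6
-/

set_option autoImplicit false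

open Filter Topology NormedSpace

namespace C37
namespace DB

/-- conjugation by the torus element iota(diag(1,t,1/t)).
Proof: `GX_iota` with `A = Matrix.diagonal ![1, t, 1/t]` (determinant 1), `A⁻¹ᵀ = diagonal ![1, 1/t, t]`. With
`xv (Pi.single 0 1) = x1` etc.: `g` fixes `va`, `x1`, `y1`, `g x2 = t • x2`, `g x3 = (1/t) • x3`, `g y2 = (1/t) • y2`,
`g y3 = t • y3`. Then `null_ext` as in B_T1 (both sides on each null basis vector, tables, `module`/`field_simp`). -/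
theorem tw_torus (t : ℝ) (ht : t ≠ 0) : ∃ g : Mat, InG g ∧ ∀ b c e : ℝ,
    g * nn b 0 c 0 e 0 = nn (b / t) 0 c 0 (e * t ^ 2) 0 * g := by
  have hdet : (Matrix.diagonal ![1, t, t⁻¹] : Matrix (Fin 3) (Fin 3) ℝ).det = 1 := by
    rw [Matrix.det_diagonal, Fin.prod_univ_three]
    simp [ht]
  have hinv : (Matrix.diagonal ![1, t, t⁻¹] : Matrix (Fin 3) (Fin 3) ℝ)⁻¹ =
      Matrix.diagonal ![1, t⁻¹, t] := by
    refine Matrix.inv_eq_right_inv ?_
    rw [Matrix.diagonal_mul_diagonal, ← Matrix.diagonal_one]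
    congr 1
    ext i
    fin_cases i <;> simp [ht]
  obtain ⟨g, hg, hva, hx, hy⟩ := GX_iota _ hdet
  rw [hinv, Matrix.diagonal_transpose] at hy
  have hx1 : g.mulVec x1 = x1 := by
    have := hx ![1, 0, 0]
    simpa [xv, Matrix.mulVec_diagonal] using this
  have hx2 : g.mulVec x2 = t • x2 := by
    have := hx ![0, 1, 0]
    simpa [xv, Matrix.mulVec_diagonal] using this
  have hx3 : g.mulVec x3 = t⁻¹ • x3 := by
    have := hx ![0, 0, 1]
    simpa [xv, Matrix.mulVec_diagonal] using this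
  have hy1 : g.mulVec y1 = y1 := by
    have := hy ![1, 0, 0]
    simpa [yv, Matrix.mulVec_diagonal] using this
  have hy2 : g.mulVec y2 = t⁻¹ • y2 := by
    have := hy ![0, 1, 0]
    simpa [yv, Matrix.mulVec_diagonal] using this
  have hy3 : g.mulVec y3 = t • y3 := by
    have := hy ![0, 0, 1]
    simpa [yv, Matrix.mulVec_diagonal] using this
  refine ⟨g, hg, fun b c e => ?_⟩
  obtain ⟨aq1, aq2, aq3, aq4, aq5, aq6, aq7⟩ := tL12
  obtain ⟨bq1, bq2, bq3, bq4, bq5, bq6, bq7⟩ := tL13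
  obtain ⟨cq1, cq2, cq3, cq4, cq5, cq6, cq7⟩ := tL23
  obtain ⟨dq1, dq2, dq3, dq4, dq5, dq6, dq7⟩ := tSp1
  obtain ⟨eq1, eq2, eq3, eq4, eq5, eq6, eq7⟩ := tSp2
  obtain ⟨gq1, gq2, gq3, gq4, gq5, gq6, gq7⟩ := tSm3
  apply null_ext <;>
  · rw [← Matrix.mulVec_mulVec, ← Matrix.mulVec_mulVec]
    simp only [nn, expZ, Matrix.add_mulVec, Matrix.smul_mulVec, Matrix.mulVec_add, Matrix.mulVec_smul,
      Matrix.mulVec_neg, Matrix.one_mulVec, ← Matrix.mulVec_mulVec, Matrix.mulVec_zero, hva, hx1, hx2, hx3, hy1, hy2, hy3,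
      aq1, aq2, aq3, aq4, aq5, aq6, aq7, bq1, bq2, bq3, bq4, bq5, bq6, bq7, cq1, cq2, cq3, cq4, cq5, cq6, cq7, dq1, dq2, dq3, dq4, dq5, dq6, dq7, eq1, eq2, eq3, eq4, eq5, eq6, eq7, gq1, gq2, gq3, gq4, gq5, gq6, gq7]
    match_scalars <;> (try field_simp) <;> (try ring)

end DB
end C37
end

section

/-!
MP_c37615_al (S02984), part D-IIb (paper 6.4.4 - 6.4.6), file B_T7
-/

set_option autoImplicit false

open Filter Topology NormedSpace

namespace C37
namespace DB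

private theorem T7_table (A Ai : Matrix (Fin 3) (Fin 3) ℝ) (hA : A.det = 1) (hinv : A * Ai.transpose = 1) :
    ∃ g : Mat, InG g ∧ g.mulVec va = va ∧
      g.mulVec x1 = A 0 0 • x1 + A 1 0 • x2 + A 2 0 • x3 ∧
      g.mulVec x2 = A 0 1 • x1 + A 1 1 • x2 + A 2 1 • x3 ∧
      g.mulVec x3 = A 0 2 • x1 + A 1 2 • x2 + A 2 2 • x3 ∧
      g.mulVec y1 = Ai 0 0 • y1 + Ai 1 0 • y2 + Ai 2 0 • y3 ∧
      g.mulVec y2 = Ai 0 1 • y1 + Ai 1 1 • y2 + Ai 2 1 • y3 ∧
      g.mulVec y3 = Ai 0 2 • y1 + Ai 1 2 • y2 + Ai 2 2 • y3 := by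
  obtain ⟨g, hg, hva, hx, hy⟩ := GX_iota A hA
  have hAi : A⁻¹.transpose = Ai := by
    rw [Matrix.inv_eq_right_inv hinv, Matrix.transpose_transpose]
  rw [hAi] at hy
  have ex1 : x1 = xv ![1, 0, 0] := by simp [xv]
  have ex2 : x2 = xv ![0, 1, 0] := by simp [xv]
  have ex3 : x3 = xv ![0, 0, 1] := by simp [xv]
  have ey1 : y1 = yv ![1, 0, 0] := by simp [yv]
  have ey2 : y2 = yv ![0, 1, 0] := by simp [yv]
  have ey3 : y3 = yv ![0, 0, 1] := by simp [yv]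
  have kx1 := hx ![1, 0, 0]
  have kx2 := hx ![0, 1, 0]
  have kx3 := hx ![0, 0, 1]
  have ky1 := hy ![1, 0, 0]
  have ky2 := hy ![0, 1, 0]
  have ky3 := hy ![0, 0, 1]
  rw [← ex1] at kx1
  rw [← ex2] at kx2
  rw [← ex3] at kx3
  rw [← ey1] at ky1
  rw [← ey2] at ky2
  rw [← ey3] at ky3
  refine ⟨g, hg, hva, ?_, ?_, ?_, ?_, ?_, ?_⟩
  · rw [kx1]; simp [xv, Matrix.mulVec, dotProduct, Fin.sum_univ_three]
  · rw [kx2]; simp [xv, Matrix.mulVec, dotProduct, Fin.sum_univ_three]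
  · rw [kx3]; simp [xv, Matrix.mulVec, dotProduct, Fin.sum_univ_three]
  · rw [ky1]; simp [yv, Matrix.mulVec, dotProduct, Fin.sum_univ_three]
  · rw [ky2]; simp [yv, Matrix.mulVec, dotProduct, Fin.sum_univ_three]
  · rw [ky3]; simp [yv, Matrix.mulVec, dotProduct, Fin.sum_univ_three]

/-- long root vectors, first kind.
Proof: `GX_iota` with `A = !![e, -f, 0; f/(e^2+f^2), e/(e^2+f^2), 0; 0, 0, 1]`, determinant 1. Let `n := e*rL23 + f*rL13`:
`x3 ↦ -(e x2 + f x1)`, `y2 ↦ e y3`, `y1 ↦ f y3`, all others to 0. `g` on span(x): `g (f x1 + e x2) = x2` (A maps (f,e,0) to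
(0,1,0)), `g x3 = x3`; on span(y) `g yv c = yv (A⁻¹ᵀ c)`, `A⁻¹ᵀ = !![e/(e^2+f^2), -f/(e^2+f^2), 0; f, e, 0; 0, 0, 1]` (verify
`A * A⁻¹ = 1` for this explicit matrix), so `g y1 = (e/(e^2+f^2)) y1 + f y2`, `g y2 = -(f/(e^2+f^2)) y1 + e y2`,
`g y3 = y3`. Check `g (n v) = rL23 (g v)` for the 7 null basis vectors. -/
theorem long1 (e f : ℝ) (h : e ≠ 0 ∨ f ≠ 0) : ∃ g : Mat, InG g ∧ g * nn 0 0 0 0 e f = rL23 * g := by
  have hD : e ^ 2 + f ^ 2 ≠ 0 := by
    rcases h with h | h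
    · have := pow_pos (abs_pos.mpr h) 2
      rw [sq_abs] at this
      positivity
    · have := pow_pos (abs_pos.mpr h) 2
      rw [sq_abs] at this
      positivity
  obtain ⟨D, hDD⟩ : ∃ D : ℝ, D * (e ^ 2 + f ^ 2) = 1 := ⟨_, inv_mul_cancel₀ hD⟩
  obtain ⟨g, hg, ga, g1, g2, g3, k1, k2, k3⟩ := T7_table
    !![e, -f, 0; f * D, e * D, 0; 0, 0, 1] !![e * D, -(f * D), 0; f, e, 0; 0, 0, 1]
    (by
      rw [Matrix.det_fin_three]
      simp
      linear_combination hDD)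
    (by
      ext i j
      fin_cases i <;> fin_cases j <;> simp [Matrix.mul_apply, Fin.sum_univ_three] <;>
        first
        | ring1
        | linear_combination hDD)
  simp only [Matrix.of_apply, Matrix.cons_val', Matrix.cons_val_zero, Matrix.cons_val_one, Matrix.cons_val,
    Matrix.cons_val_fin_one] at g1 g2 g3 k1 k2 k3
  obtain ⟨a0, a1, a2, a3, b1, b2, b3⟩ := tL13
  obtain ⟨c0, c1, c2, c3, d1, d2, d3⟩ := tL23
  refine ⟨g, hg, ?_⟩
  apply null_ext <;> rw [← Matrix.mulVec_mulVec, ← Matrix.mulVec_mulVec] <;>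
    simp only [nn, Matrix.add_mulVec, Matrix.smul_mulVec, Matrix.mulVec_add, Matrix.mulVec_smul, Matrix.mulVec_neg,
      Matrix.mulVec_zero, zero_smul, zero_add, ga, g1, g2, g3, k1, k2, k3, a0, a1, a2, a3, b1, b2, b3,
      c0, c1, c2, c3, d1, d2, d3, smul_zero, add_zero]
  · linear_combination (norm := module) hDD • (-x2)
  · module
  · module

end DB
end C37
end

section

/-!
MP_c37615_al (S02984), part D-IIb (paper 6.4.4 - 6.4.6), file B_T8
-/

set_option autoImplicit false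

open Filter Topology NormedSpace

namespace C37
namespace DB

private theorem T8_table (A Ai : Matrix (Fin 3) (Fin 3) ℝ) (hA : A.det = 1) (hinv : A * Ai.transpose = 1) :
    ∃ g : Mat, InG g ∧ g.mulVec va = va ∧
      g.mulVec x1 = A 0 0 • x1 + A 1 0 • x2 + A 2 0 • x3 ∧
      g.mulVec x2 = A 0 1 • x1 + A 1 1 • x2 + A 2 1 • x3 ∧
      g.mulVec x3 = A 0 2 • x1 + A 1 2 • x2 + A 2 2 • x3 ∧
      g.mulVec y1 = Ai 0 0 • y1 + Ai 1 0 • y2 + Ai 2 0 • y3 ∧
      g.mulVec y2 = Ai 0 1 • y1 + Ai 1 1 • y2 + Ai 2 1 • y3 ∧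
      g.mulVec y3 = Ai 0 2 • y1 + Ai 1 2 • y2 + Ai 2 2 • y3 := by
  obtain ⟨g, hg, hva, hx, hy⟩ := GX_iota A hA
  have hAi : A⁻¹.transpose = Ai := by
    rw [Matrix.inv_eq_right_inv hinv, Matrix.transpose_transpose]
  rw [hAi] at hy
  have ex1 : x1 = xv ![1, 0, 0] := by simp [xv]
  have ex2 : x2 = xv ![0, 1, 0] := by simp [xv]
  have ex3 : x3 = xv ![0, 0, 1] := by simp [xv]
  have ey1 : y1 = yv ![1, 0, 0] := by simp [yv]
  have ey2 : y2 = yv ![0, 1, 0] := by simp [yv]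
  have ey3 : y3 = yv ![0, 0, 1] := by simp [yv]
  have kx1 := hx ![1, 0, 0]
  have kx2 := hx ![0, 1, 0]
  have kx3 := hx ![0, 0, 1]
  have ky1 := hy ![1, 0, 0]
  have ky2 := hy ![0, 1, 0]
  have ky3 := hy ![0, 0, 1]
  rw [← ex1] at kx1
  rw [← ex2] at kx2
  rw [← ex3] at kx3
  rw [← ey1] at ky1
  rw [← ey2] at ky2
  rw [← ey3] at ky3
  refine ⟨g, hg, hva, ?_, ?_, ?_, ?_, ?_, ?_⟩
  · rw [kx1]; simp [xv, Matrix.mulVec, dotProduct, Fin.sum_univ_three]
  · rw [kx2]; simp [xv, Matrix.mulVec, dotProduct, Fin.sum_univ_three]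
  · rw [kx3]; simp [xv, Matrix.mulVec, dotProduct, Fin.sum_univ_three]
  · rw [ky1]; simp [yv, Matrix.mulVec, dotProduct, Fin.sum_univ_three]
  · rw [ky2]; simp [yv, Matrix.mulVec, dotProduct, Fin.sum_univ_three]
  · rw [ky3]; simp [yv, Matrix.mulVec, dotProduct, Fin.sum_univ_three]

/-- long root vectors, second kind.
Proof: `GX_iota` with `A = !![0, -f/(b^2+f^2), b/(b^2+f^2); 1, 0, 0; 0, b, f]`, determinant 1. Let `n := b*rL12 + f*rL13`:
`x2 ↦ -b x1`, `x3 ↦ -f x1`, `y1 ↦ b y2 + f y3`, all others to 0. `g x1 = x2`,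
`g x2 = -(f/(b^2+f^2)) x1 + b x3`, `g x3 = (b/(b^2+f^2)) x1 + f x3`. `A⁻¹ᵀ = !![0, -f, b; 1, 0, 0; 0, b/(b^2+f^2), f/(b^2+f^2)]`
(verify for this explicit matrix that its transpose times `A` is 1), so `g y1 = y2`, `g y2 = -f y1 + (b/(b^2+f^2)) y3`,
`g y3 = b y1 + (f/(b^2+f^2)) y3`. Check `g (n v) = rL23 (g v)` on the null basis
(e.g. `g (n y1) = b g y2 + f g y3 = y3 = rL23 y2`). -/
theorem long2 (b f : ℝ) (h : b ≠ 0 ∨ f ≠ 0) : ∃ g : Mat, InG g ∧ g * nn b 0 0 0 0 f = rL23 * g := by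
  have hD : b ^ 2 + f ^ 2 ≠ 0 := by
    rcases h with h | h
    · have := pow_pos (abs_pos.mpr h) 2
      rw [sq_abs] at this
      positivity
    · have := pow_pos (abs_pos.mpr h) 2
      rw [sq_abs] at this
      positivity
  obtain ⟨D, hDD⟩ : ∃ D : ℝ, D * (b ^ 2 + f ^ 2) = 1 := ⟨_, inv_mul_cancel₀ hD⟩
  obtain ⟨g, hg, ga, g1, g2, g3, k1, k2, k3⟩ := T8_table
    !![0, -(f * D), b * D; 1, 0, 0; 0, b, f] !![0, -f, b; 1, 0, 0; 0, b * D, f * D]
    (by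
      rw [Matrix.det_fin_three]
      simp
      linear_combination hDD)
    (by
      ext i j
      fin_cases i <;> fin_cases j <;> simp [Matrix.mul_apply, Fin.sum_univ_three] <;>
        first
        | ring1
        | linear_combination hDD)
  simp only [Matrix.of_apply, Matrix.cons_val', Matrix.cons_val_zero, Matrix.cons_val_one, Matrix.cons_val,
    Matrix.cons_val_fin_one] at g1 g2 g3 k1 k2 k3
  obtain ⟨a0, a1, a2, a3, b1, b2, b3⟩ := tL13
  obtain ⟨c0, c1, c2, c3, d1, d2, d3⟩ := tL23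
  obtain ⟨e0, e1, e2, e3, l1, l2, l3⟩ := tL12
  refine ⟨g, hg, ?_⟩
  apply null_ext <;> rw [← Matrix.mulVec_mulVec, ← Matrix.mulVec_mulVec] <;>
    simp only [nn, Matrix.add_mulVec, Matrix.smul_mulVec, Matrix.mulVec_add, Matrix.mulVec_smul, Matrix.mulVec_neg,
      Matrix.mulVec_zero, zero_smul, zero_add, ga, g1, g2, g3, k1, k2, k3, a0, a1, a2, a3, b1, b2, b3,
      c0, c1, c2, c3, d1, d2, d3, e0, e1, e2, e3, l1, l2, l3, smul_zero, add_zero]
  · module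
  · module
  · linear_combination (norm := module) hDD • y3


end DB
end C37
end

section

/-!
MP_c37615_al (S02984), part D-IIb (paper 6.4.4 - 6.4.6), file B_F1
-/

set_option autoImplicit false

open Filter Topology NormedSpace

namespace C37
namespace DB

/-- the case where the S+2 coordinate of the first element is not 0.
Proof: `nn_comm` gives `b a2 = a b2`, `a c2 = c a2`, `a d2 = d a2`. By `nn_lin` the combination
`(-(a2/a)) • X + 1 • Y = nn 0 0 0 0 e' f'` with `e' = e2 - a2 e/a`, `f' = f2 - a2 f/a`; it is not zero by `Ind2`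
(coefficient 1 of Y), so `e' ≠ 0 ∨ f' ≠ 0` (`nn_zero`); `long1` gives `g`; `Good` by the first alternative. -/
theorem good_a (b a c d e f b2 a2 c2 d2 e2 f2 : ℝ) (ha : a ≠ 0)
    (hc : nn b a c d e f * nn b2 a2 c2 d2 e2 f2 = nn b2 a2 c2 d2 e2 f2 * nn b a c d e f)
    (hi : Ind2 (nn b a c d e f) (nn b2 a2 c2 d2 e2 f2)) :
    Good (nn b a c d e f) (nn b2 a2 c2 d2 e2 f2) := by
  obtain ⟨h1, h2, h3, -⟩ := nn_comm _ _ _ _ _ _ _ _ _ _ _ _ hc
  have key : (-(a2 / a)) • nn b a c d e f + (1:ℝ) • nn b2 a2 c2 d2 e2 f2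
      = nn 0 0 0 0 (e2 - a2 / a * e) (f2 - a2 / a * f) := by
    rw [nn_lin]
    have k1 : -(a2 / a) * b + 1 * b2 = 0 := by field_simp; linarith
    have k2 : -(a2 / a) * a + 1 * a2 = 0 := by field_simp; ring
    have k3 : -(a2 / a) * c + 1 * c2 = 0 := by field_simp; linarith
    have k4 : -(a2 / a) * d + 1 * d2 = 0 := by field_simp; linarith
    have k5 : -(a2 / a) * e + 1 * e2 = e2 - a2 / a * e := by ring
    have k6 : -(a2 / a) * f + 1 * f2 = f2 - a2 / a * f := by ring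
    rw [k1, k2, k3, k4, k5, k6]
  have hne : (e2 - a2 / a * e) ≠ 0 ∨ (f2 - a2 / a * f) ≠ 0 := by
    by_contra hcon
    push Not at hcon
    rw [hcon.1, hcon.2, nn_zero] at key
    have := (hi _ _ key).2
    norm_num at this
  obtain ⟨g, hg, hg1⟩ := long1 _ _ hne
  exact ⟨g, hg, Or.inl ⟨-(a2 / a), 1, by rw [key, hg1]⟩⟩

end DB
end C37
end

section

/-!
MP_c37615_al (S02984), part D-IIb (paper 6.4.4 - 6.4.6), file B_F2
-/

set_option autoImplicit false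

open Filter Topology NormedSpace

namespace C37
namespace DB

/-- the plane contains S+1.
Proof: `nn_comm` (with b=a=d=e=f=0, c=1) gives `d2 = 0`. Let `Y' := (-c2) • X + 1 • Y = nn b2 0 0 0 e2 f2` (`nn_lin`), not zero
by `Ind2`. If `b2 = 0`: `Y' = nn 0 0 0 0 e2 f2`, `long1`. If `e2 = 0`: `nn b2 0 0 0 0 f2`, `long2`. Otherwise let
`s := -f2/b2` and `t` with `t^3 = b2/(2 e2)` (`cube_root`), `k := e2 * t^2` (so `b2/t = 2 k`, `k ≠ 0`). `h1 := expZ rL23 s` (in G by `expZ_inG`,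
`der_rL23`, `cube_rL23`), `h2` from `tw_torus t`. `g := h2 * h1`. `g * nn 0 0 1 0 0 0 = nn 0 0 1 0 0 0 * g` and
`g * nn b2 0 0 0 e2 f2 = nn (b2/t) 0 0 0 (e2 t^2) 0 * g = (k • (2 • rL12 + rL23)) * g`. So the second alternative of `Good`
holds with `(c,d) = (1,0)`, `(c',d') = (1/k) * (-c2, 1)` (`nn 0 0 1 0 0 0 = rSp1`). -/
theorem good_S1 (b2 c2 d2 e2 f2 : ℝ)
    (hc : nn 0 0 1 0 0 0 * nn b2 0 c2 d2 e2 f2 = nn b2 0 c2 d2 e2 f2 * nn 0 0 1 0 0 0)
    (hi : Ind2 (nn 0 0 1 0 0 0) (nn b2 0 c2 d2 e2 f2)) :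
    Good (nn 0 0 1 0 0 0) (nn b2 0 c2 d2 e2 f2) := by
  obtain ⟨-, -, -, h4⟩ := nn_comm _ _ _ _ _ _ _ _ _ _ _ _ hc
  have hd : d2 = 0 := by linarith
  subst hd
  have key : (-c2) • nn 0 0 1 0 0 0 + (1:ℝ) • nn b2 0 c2 0 e2 f2 = nn b2 0 0 0 e2 f2 := by
    rw [nn_lin]
    have k1 : -c2 * 0 + 1 * b2 = b2 := by ring
    have k2 : -c2 * 0 + 1 * (0:ℝ) = 0 := by ring
    have k3 : -c2 * 1 + 1 * c2 = 0 := by ring
    have k5 : -c2 * 0 + 1 * e2 = e2 := by ring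
    have k6 : -c2 * 0 + 1 * f2 = f2 := by ring
    rw [k1, k2, k3, k5, k6]
  have hne : nn b2 0 0 0 e2 f2 ≠ 0 := by
    intro h
    rw [h] at key
    have := (hi _ _ key).2
    norm_num at this
  by_cases hb : b2 = 0
  · subst hb
    have hne' : e2 ≠ 0 ∨ f2 ≠ 0 := by
      by_contra hcon
      push Not at hcon
      apply hne
      rw [hcon.1, hcon.2, nn_zero]
    obtain ⟨g, hg, hg1⟩ := long1 _ _ hne'
    exact ⟨g, hg, Or.inl ⟨-c2, 1, by rw [key, hg1]⟩⟩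
  by_cases he : e2 = 0
  · subst he
    obtain ⟨g, hg, hg1⟩ := long2 b2 f2 (Or.inl hb)
    exact ⟨g, hg, Or.inl ⟨-c2, 1, by rw [key, hg1]⟩⟩
  obtain ⟨t, ht, ht3⟩ := cube_root (b2 / (2 * e2)) (div_ne_zero hb (by simpa using he))
  obtain ⟨h2, hh2, hh2'⟩ := tw_torus t ht
  have hh1 : InG (expZ rL23 (-f2 / b2)) := expZ_inG _ der_rL23 cube_rL23 _
  have e1 : expZ rL23 (-f2 / b2) * nn b2 0 0 0 e2 f2
      = nn b2 0 0 0 e2 0 * expZ rL23 (-f2 / b2) := by
    rw [tw_L23]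
    have k : f2 + -f2 / b2 * b2 = 0 := by field_simp; ring
    rw [k]
  have e2' : expZ rL23 (-f2 / b2) * nn 0 0 1 0 0 0
      = nn 0 0 1 0 0 0 * expZ rL23 (-f2 / b2) := by
    rw [tw_L23]
    have k : (0:ℝ) + -f2 / b2 * 0 = 0 := by ring
    rw [k]
  have hS : nn 0 0 1 0 0 0 = rSp1 := by
    unfold nn
    module
  have g1 : h2 * nn 0 0 1 0 0 0 = nn 0 0 1 0 0 0 * h2 := by
    have h := hh2' 0 1 0
    rw [zero_div, zero_mul] at h
    exact h
  have g2 : h2 * nn b2 0 0 0 e2 0 = nn (b2 / t) 0 0 0 (e2 * t ^ 2) 0 * h2 := hh2' b2 0 e2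
  have hk : e2 * t ^ 2 ≠ 0 := mul_ne_zero he (pow_ne_zero 2 ht)
  have hbt : b2 / t = 2 * (e2 * t ^ 2) := by
    field_simp
    have : e2 * t ^ 3 * 2 = b2 := by
      rw [ht3]
      field_simp
    linarith
  have hkn : nn (b2 / t) 0 0 0 (e2 * t ^ 2) 0 = (e2 * t ^ 2) • ((2:ℝ) • rL12 + rL23) := by
    rw [hbt]
    unfold nn
    module
  refine ⟨h2 * expZ rL23 (-f2 / b2), inG_mul _ _ hh2 hh1, Or.inr
    ⟨1, 0, 1 / (e2 * t ^ 2) * (-c2), 1 / (e2 * t ^ 2), ?_, ?_⟩⟩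
  · rw [one_smul, zero_smul, add_zero, Matrix.mul_assoc, e2', ← Matrix.mul_assoc, g1, hS,
      Matrix.mul_assoc]
  · have e3 : (1 / (e2 * t ^ 2) * (-c2)) • nn 0 0 1 0 0 0
        + (1 / (e2 * t ^ 2)) • nn b2 0 c2 0 e2 f2 = (1 / (e2 * t ^ 2)) • nn b2 0 0 0 e2 f2 := by
      rw [← key]
      module
    rw [e3, Matrix.mul_smul, Matrix.mul_assoc, e1, ← Matrix.mul_assoc, g2, hkn]
    rw [Matrix.mul_assoc, Matrix.smul_mul, smul_smul, one_div, inv_mul_cancel₀ hk, one_smul]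

end DB
end C37
end

section

/-!
MP_c37615_al (S02984), part D-IIb (paper 6.4.4 - 6.4.6), file B_F3
-/

set_option autoImplicit false

open Filter Topology NormedSpace

namespace C37
namespace DB

/-- form A: the first element has vanishing coordinates S+2, S-3, L23.
Proof. `X := nn b 0 c 0 0 f ≠ 0` (Ind2). If `c = 0`: `long2 b f` (b ≠ 0 or f ≠ 0), first alternative with (1,0).
If `c ≠ 0`: conjugate by `h1 := expZ rSm2 s`, `s := 2 b/(3 c)` (`tw_Sm2`: X becomes `nn 0 0 c 0 0 f`, Y becomes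
`nn b3 0 c3 d3 e2 f2`), then by `h2 := expZ rSm3 u`, `u := 2 f/(3 c)` (`tw_Sm3`: X becomes `nn 0 0 c 0 0 0`, Y becomes
`nn b3 0 c3 d3 e2 f4`). By `good_conj` (twice) and `good_span` (X' = c • nn 0 0 1 0 0 0: use
`Good ((1/c)•X' + 0•Y') (0•X' + 1•Y')`) it suffices to apply `good_S1`; the hypotheses are transported by `comm_conj`, `ind_conj`,
`comm_span`, `ind_span`. -/
theorem good_formA (b c f b2 c2 d2 e2 f2 : ℝ)
    (hc : nn b 0 c 0 0 f * nn b2 0 c2 d2 e2 f2 = nn b2 0 c2 d2 e2 f2 * nn b 0 c 0 0 f)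
    (hi : Ind2 (nn b 0 c 0 0 f) (nn b2 0 c2 d2 e2 f2)) :
    Good (nn b 0 c 0 0 f) (nn b2 0 c2 d2 e2 f2) := by
  by_cases hc0 : c = 0
  · subst hc0
    have hbf : b ≠ 0 ∨ f ≠ 0 := by
      by_contra hcon
      push Not at hcon
      obtain ⟨rfl, rfl⟩ := hcon
      have h1 := hi 1 0 (by rw [nn_zero, smul_zero, zero_smul, add_zero])
      exact one_ne_zero h1.1
    obtain ⟨g, hg, hgx⟩ := long2 b f hbf
    refine ⟨g, hg, Or.inl ⟨1, 0, ?_⟩⟩
    rw [one_smul, zero_smul, add_zero]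
    exact hgx
  · have hI1 : InG (expZ rSm2 (2 * b / (3 * c))) := expZ_inG _ der_rSm2 cube_rSm2 _
    have hI2 : InG (expZ rSm3 (2 * f / (3 * c))) := expZ_inG _ der_rSm3 cube_rSm3 _
    have hX1 := tw_Sm2 (2 * b / (3 * c)) b c 0 0 f
    have hY1 := tw_Sm2 (2 * b / (3 * c)) b2 c2 d2 e2 f2
    have e1 : b - 3 / 2 * (2 * b / (3 * c)) * c - 3 / 8 * (2 * b / (3 * c)) ^ 2 * 0
        + 1 / 8 * (2 * b / (3 * c)) ^ 3 * 0 = 0 := by
      field_simp
      ring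
    have e2' : c + 1 / 2 * (2 * b / (3 * c)) * 0 - 1 / 4 * (2 * b / (3 * c)) ^ 2 * 0 = c := by ring
    have e3' : (0:ℝ) - 2 * b / (3 * c) * 0 = 0 := by ring
    rw [e1, e2', e3'] at hX1
    generalize b2 - 3 / 2 * (2 * b / (3 * c)) * c2 - 3 / 8 * (2 * b / (3 * c)) ^ 2 * d2
        + 1 / 8 * (2 * b / (3 * c)) ^ 3 * e2 = b3 at hY1
    generalize c2 + 1 / 2 * (2 * b / (3 * c)) * d2 - 1 / 4 * (2 * b / (3 * c)) ^ 2 * e2 = c3 at hY1
    generalize d2 - 2 * b / (3 * c) * e2 = d3 at hY1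
    refine good_conj _ _ _ _ _ hI1 hX1 hY1 ?_
    have hc1 := comm_conj _ _ _ _ _ hI1 hX1 hY1 hc
    have hi1 := ind_conj _ _ _ _ _ hI1 hX1 hY1 hi
    have hX2 := tw_Sm3 (2 * f / (3 * c)) 0 c 0 0 f
    have hY2 := tw_Sm3 (2 * f / (3 * c)) b3 c3 d3 e2 f2
    have e4 : f - 3 / 2 * (2 * f / (3 * c)) * c = 0 := by
      field_simp
      ring
    rw [e4] at hX2
    generalize f2 - 3 / 2 * (2 * f / (3 * c)) * c3 = f4 at hY2
    refine good_conj _ _ _ _ _ hI2 hX2 hY2 ?_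
    have hc2 := comm_conj _ _ _ _ _ hI2 hX2 hY2 hc1
    have hi2 := ind_conj _ _ _ _ _ hI2 hX2 hY2 hi1
    have k1 : (1 / c) • nn 0 0 c 0 0 0 + (0:ℝ) • nn b3 0 c3 d3 e2 f4 = nn 0 0 1 0 0 0 := by
      rw [nn_lin]
      congr 1
      all_goals first
        | ring1
        | (field_simp; ring1)
    have k2 : (0:ℝ) • nn 0 0 c 0 0 0 + (1:ℝ) • nn b3 0 c3 d3 e2 f4 = nn b3 0 c3 d3 e2 f4 := by
      rw [zero_smul, one_smul, zero_add]
    have hc3 := comm_span _ _ (1 / c) 0 0 1 hc2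
    have hi3 := ind_span _ _ (1 / c) 0 0 1 (by
      rw [mul_one, mul_zero, sub_zero]
      exact one_div_ne_zero hc0) hi2
    rw [k1, k2] at hc3 hi3
    refine good_span _ _ (1 / c) 0 0 1 ?_
    rw [k1, k2]
    exact good_S1 b3 c3 d3 e2 f4 hc3 hi3

end DB
end C37
end

section

/-!
MP_c37615_al (S02984), part D-IIb (paper 6.4.4 - 6.4.6), file B_F4
-/

set_option autoImplicit false

open Filter Topology NormedSpace

namespace C37
namespace DB

/-- form B: reduce to form A by the reflection `Wm` (`tw_Wm`, `inG_Wm`, `good_conj`, `comm_conj`, `ind_conj`). -/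
theorem good_formB (d e f b2 c2 d2 e2 f2 : ℝ)
    (hc : nn 0 0 0 d e f * nn b2 0 c2 d2 e2 f2 = nn b2 0 c2 d2 e2 f2 * nn 0 0 0 d e f)
    (hi : Ind2 (nn 0 0 0 d e f) (nn b2 0 c2 d2 e2 f2)) :
    Good (nn 0 0 0 d e f) (nn b2 0 c2 d2 e2 f2) := by
  have h1 : Wm * nn 0 0 0 d e f = nn (-e) 0 (-(d / 2)) 0 0 (-f) * Wm := by
    rw [tw_Wm]
    have k1 : -(2 * (0:ℝ)) = 0 := by ring
    have k2 : -(0:ℝ) = 0 := by ring
    rw [k1, k2]
  have h2 := tw_Wm b2 c2 d2 e2 f2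
  exact good_conj _ _ _ _ Wm inG_Wm h1 h2 (good_formA _ _ _ _ _ _ _ _
    (comm_conj _ _ _ _ Wm inG_Wm h1 h2 hc) (ind_conj _ _ _ _ Wm inG_Wm h1 h2 hi))

end DB
end C37
end

section

/-!
MP_c37615_al (S02984), part D-IIb (paper 6.4.4 - 6.4.6), file B_F5
-/

set_option autoImplicit false

open Filter Topology NormedSpace

namespace C37
namespace DB

/-- two commuting independent elements of the Heisenberg algebra.
Proof. Write `X = nn b 0 c d e f`, `Y = nn b2 0 c2 d2 e2 f2`. `nn_comm`: `b e2 - e b2 = (3/2)(c d2 - d c2)`.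
Let `pbc := b c2 - c b2`, `pbd := b d2 - d b2`, `pcd := c d2 - d c2`, `pce := c e2 - e c2`, `pde := d e2 - e d2`.
(1) `pbc = 0`: `sing22 b c b2 c2` gives `(x,y) ≠ 0` with `x b + y b2 = 0`, `x c + y c2 = 0`. Complete to an invertible matrix
(if `x ≠ 0` take second element `Y`, else second element `X`): by `good_span`, `ind_span`, `comm_span`, `nn_lin` reduce to
`good_formB` for the first element `x•X + y•Y = nn 0 0 0 .. .. ..`.
(2) `pbc ≠ 0`: `qroot` with `A := 2 pbc`, `B := pbd/2`, `C := -pcd`, `D := pce`, `E := pde`: the invariant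
`A E - 4 B D + 3 C^2 = 2 pbc pde - 2 pbd pce + 3 pcd^2 = 0` follows from the Pluecker relation
`pbc pde - pbd pce + pbe pcd = 0` (`ring` identity, `pbe := b e2 - e b2`) and `pbe = (3/2) pcd`. Root `t`. Conjugate by `expZ rSp2 t` (`tw_Sp2`):
new coordinates `d(t) = d + 4tc - 2t²b`, `e(t) = e - 3/2 t d - 3t²c + t³b`, same for Y; and
`d(t) e2(t) - e(t) d2(t) = A t^4 + 4 B t^3 + 6 C t^2 + 4 D t + E = 0` (linear_combination with the relation `pbe = 3/2 pcd`). `sing22` gives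
`(x,y) ≠ 0` killing both; as in (1) reduce to `good_formA`. -/
theorem good_heis (b c d e f b2 c2 d2 e2 f2 : ℝ)
    (hc : nn b 0 c d e f * nn b2 0 c2 d2 e2 f2 = nn b2 0 c2 d2 e2 f2 * nn b 0 c d e f)
    (hi : Ind2 (nn b 0 c d e f) (nn b2 0 c2 d2 e2 f2)) :
    Good (nn b 0 c d e f) (nn b2 0 c2 d2 e2 f2) := by
  have hrel := (nn_comm b 0 c d e f b2 0 c2 d2 e2 f2 hc).2.2.2
  have hcompl : ∀ x y : ℝ, (x ≠ 0 ∨ y ≠ 0) → ∃ z w : ℝ, x * w - y * z ≠ 0 := by
    intro x y h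
    rcases h with h | h
    · exact ⟨0, 1, by simpa using h⟩
    · exact ⟨1, 0, by simpa using h⟩
  by_cases hpbc : b * c2 - c * b2 = 0
  · obtain ⟨x, y, hxy, e1, e2'⟩ := sing22 b c b2 c2 hpbc
    obtain ⟨z, w, hdet⟩ := hcompl x y hxy
    apply good_span _ _ x y z w
    have hc' := comm_span (nn b 0 c d e f) (nn b2 0 c2 d2 e2 f2) x y z w hc
    have hi' := ind_span (nn b 0 c d e f) (nn b2 0 c2 d2 e2 f2) x y z w hdet hi
    have f1 : x • nn b 0 c d e f + y • nn b2 0 c2 d2 e2 f2 =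
        nn 0 0 0 (x * d + y * d2) (x * e + y * e2) (x * f + y * f2) := by
      rw [nn_lin, e1, e2']; simp
    have f2' : z • nn b 0 c d e f + w • nn b2 0 c2 d2 e2 f2 =
        nn (z * b + w * b2) 0 (z * c + w * c2) (z * d + w * d2) (z * e + w * e2) (z * f + w * f2) := by
      rw [nn_lin]; simp
    rw [f1, f2'] at hc' hi' ⊢
    exact good_formB _ _ _ _ _ _ _ _ hc' hi'
  · obtain ⟨t, ht⟩ := qroot (2 * (b * c2 - c * b2)) ((b * d2 - d * b2) / 2) (-(c * d2 - d * c2)) (c * e2 - e * c2)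
      (d * e2 - e * d2) (mul_ne_zero two_ne_zero hpbc) (by linear_combination (-2) * (c * d2 - d * c2) * hrel)
    have hh : InG (expZ rSp2 t) := expZ_inG rSp2 der_rSp2 cube_rSp2 t
    have h1 := tw_Sp2 t b c d e f
    have h2 := tw_Sp2 t b2 c2 d2 e2 f2
    refine good_conj _ _ _ _ _ hh h1 h2 ?_
    have hc1 := comm_conj _ _ _ _ _ hh h1 h2 hc
    have hi1 := ind_conj _ _ _ _ _ hh h1 h2 hi
    generalize hC1 : c - t * b = c' at hc1 hi1 ⊢
    generalize hC2 : c2 - t * b2 = c2' at hc1 hi1 ⊢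
    generalize hD1 : d + 4 * t * c - 2 * t ^ 2 * b = d' at hc1 hi1 ⊢
    generalize hD2 : d2 + 4 * t * c2 - 2 * t ^ 2 * b2 = d2' at hc1 hi1 ⊢
    generalize hE1 : e - 3 / 2 * t * d - 3 * t ^ 2 * c + t ^ 3 * b = e' at hc1 hi1 ⊢
    generalize hE2 : e2 - 3 / 2 * t * d2 - 3 * t ^ 2 * c2 + t ^ 3 * b2 = e2' at hc1 hi1 ⊢
    have hde : d' * e2' - e' * d2' = 0 := by
      rw [← hD1, ← hD2, ← hE1, ← hE2]
      linear_combination ht - 2 * t ^ 2 * hrel
    obtain ⟨x, y, hxy, g1, g2⟩ := sing22 d' e' d2' e2' hde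
    obtain ⟨z, w, hdet⟩ := hcompl x y hxy
    apply good_span _ _ x y z w
    have hc' := comm_span (nn b 0 c' d' e' f) (nn b2 0 c2' d2' e2' f2) x y z w hc1
    have hi' := ind_span (nn b 0 c' d' e' f) (nn b2 0 c2' d2' e2' f2) x y z w hdet hi1
    have f1 : x • nn b 0 c' d' e' f + y • nn b2 0 c2' d2' e2' f2 =
        nn (x * b + y * b2) 0 (x * c' + y * c2') 0 0 (x * f + y * f2) := by
      rw [nn_lin, g1, g2]; simp
    have f2' : z • nn b 0 c' d' e' f + w • nn b2 0 c2' d2' e2' f2 =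
        nn (z * b + w * b2) 0 (z * c' + w * c2') (z * d' + w * d2') (z * e' + w * e2') (z * f + w * f2) := by
      rw [nn_lin]; simp
    rw [f1, f2'] at hc' hi' ⊢
    exact good_formA _ _ _ _ _ _ _ _ hc' hi'

end DB
end C37
end
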