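import Mathlib
import Pool.Agent.Lib.MP_c37615_al.C.Base
import Pool.Agent.Lib.MP_c37615_al.C.F01
import Pool.Agent.Lib.MP_c37615_al.Mg.G018

section

set_option autoImplicit false

open Filter Topology
open scoped ContDiff

namespace C37.PC

private theorem F02_sq (A : Mat) : fro A ^ 2 = (A.transpose * A).trace := by
  rw [fro_sq, Matrix.trace]
  simp only [Matrix.diag_apply, Matrix.mul_apply, Matrix.transpose_apply]
  rw [Finset.sum_comm]
  refine Finset.sum_congr rfl fun i _ => Finset.sum_congr rfl fun j _ => ?_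
  ring

/-- Invariance of the Frobenius norm under orthogonal conjugation.
Proof. `k⁻¹ = kᵀ` (`Matrix.inv_eq_left_inv`), `k kᵀ = 1` (`mul_eq_one_comm`). `fro A ^ 2 = trace (Aᵀ A)`. So
`fro (kᵀ A k)^2 = trace (kᵀ Aᵀ k kᵀ A k) = trace (kᵀ Aᵀ A k) = trace (Aᵀ A k kᵀ) = trace (Aᵀ A)` (`Matrix.trace_mul_comm`),
and both `fro` are nonnegative. -/
theorem fro_conj_orth (A k : Mat) (hk : k.transpose * k = 1) : fro (k⁻¹ * A * k) = fro A := by
  have hk' : k * k.transpose = 1 := mul_eq_one_comm.mp hk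
  rw [Matrix.inv_eq_left_inv hk]
  have h : fro (k.transpose * A * k) ^ 2 = fro A ^ 2 := by
    rw [F02_sq, F02_sq]
    have e1 : (k.transpose * A * k).transpose * (k.transpose * A * k)
        = k.transpose * (A.transpose * A * k) := by
      rw [Matrix.transpose_mul, Matrix.transpose_mul, Matrix.transpose_transpose]
      calc k.transpose * (A.transpose * k) * (k.transpose * A * k)
          = k.transpose * (A.transpose * (k * k.transpose) * A * k) := by
            simp only [Matrix.mul_assoc]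
        _ = k.transpose * (A.transpose * A * k) := by rw [hk', Matrix.mul_one]
    rw [e1, Matrix.trace_mul_comm, Matrix.mul_assoc, hk', Matrix.mul_one]
  have h1 := abs_eq_abs.mpr (sq_eq_sq_iff_eq_or_eq_neg.mp h)
  rwa [abs_of_nonneg (fro_nonneg _), abs_of_nonneg (fro_nonneg _)] at h1

/-- Commutator estimate.
Proof. `a = A - 1`, `b = B - 1`. `A B A' B' - 1 = (A B - B A) A' B'` because `B A A' B' = 1`; `A B - B A = a b - b a`.
For every `Y`: `Y A' = Y - Y A' a` (as `Y = Y A' A = Y A' (1 + a)`), so `fro (Y A') ≤ fro Y + fro (Y A') / 2`, i.e.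
`fro (Y A') ≤ 2 fro Y`; the same for `B'`. Hence the norm is `≤ 4 fro (a b - b a) ≤ 8 fro a fro b`. -/
theorem fro_comm (A A' B B' : Mat) (hA : A * A' = 1) (hA' : A' * A = 1) (hB : B * B' = 1) (hB' : B' * B = 1)
    (h1 : fro (A - 1) ≤ 1/2) (h2 : fro (B - 1) ≤ 1/2) :
    fro (A * B * A' * B' - 1) ≤ 8 * fro (A - 1) * fro (B - 1) := by
  have key : ∀ (Y A A' : Mat), A' * A = 1 → fro (A - 1) ≤ 1/2 → fro (Y * A') ≤ 2 * fro Y := by
    intro Y A A' hA' h
    have e : Y * A' = Y + -(Y * A' * (A - 1)) := by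
      rw [mul_sub, mul_assoc Y A' A, hA', mul_one, mul_one]
      abel
    have h3 : fro (Y * A') ≤ fro Y + fro (Y * A') * fro (A - 1) := by
      calc fro (Y * A') = fro (Y + -(Y * A' * (A - 1))) := by rw [← e]
        _ ≤ fro Y + fro (-(Y * A' * (A - 1))) := fro_add _ _
        _ = fro Y + fro (Y * A' * (A - 1)) := by rw [fro_neg]
        _ ≤ fro Y + fro (Y * A') * fro (A - 1) := by
            have := fro_mul (Y * A') (A - 1)
            linarith
    have h4 : fro (Y * A') * fro (A - 1) ≤ fro (Y * A') * (1/2) :=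
      mul_le_mul_of_nonneg_left h (fro_nonneg _)
    linarith
  have e1 : A * B * A' * B' - 1 = ((A - 1) * (B - 1) + -((B - 1) * (A - 1))) * A' * B' := by
    have e2 : (A - 1) * (B - 1) + -((B - 1) * (A - 1)) = A * B - B * A := by noncomm_ring
    rw [e2, sub_mul, sub_mul]
    have e3 : B * A * A' * B' = 1 := by
      rw [mul_assoc B A A', hA, mul_one, hB]
    rw [e3]
  rw [e1]
  have h5 := key (((A - 1) * (B - 1) + -((B - 1) * (A - 1))) * A') B B' hB' h2
  have h6 := key ((A - 1) * (B - 1) + -((B - 1) * (A - 1))) A A' hA' h1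
  have h7 := fro_add ((A - 1) * (B - 1)) (-((B - 1) * (A - 1)))
  rw [fro_neg] at h7
  have h8 := fro_mul (A - 1) (B - 1)
  have h9 := fro_mul (B - 1) (A - 1)
  nlinarith

/-- Matrices of bounded order close to `1` are `1`.
Proof. Choose `ε > 0` with `(1 + ε) ^ N < 2` (e.g. `ε = 1/(2N)`, `(1+ε)^N ≤ exp (1/2) < 2`, or by continuity). If `fro (A - 1) < ε` then by induction
`fro (A ^ j - 1) ≤ (1 + ε) ^ j - 1`, because `A^(j+1) - 1 = (A^j - 1)(A - 1) + (A - 1) + (A^j - 1)`. From `A ^ k = 1`: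
`0 = A ^ k - 1 = (∑ j < k, A ^ j) (A - 1)` (`geom_sum_mul`), so `k (A - 1) = - (∑ j < k, (A ^ j - 1)) (A - 1)` and
`k fro (A - 1) ≤ (∑ j < k, ((1 + ε) ^ j - 1)) fro (A - 1)`; the sum is `< k` (each term `< 1`, `0 < k`), so `fro (A - 1) = 0`. -/
theorem fro_torsion (N : ℕ) (hN : 0 < N) : ∃ ε : ℝ, 0 < ε ∧ ∀ (A : Mat) (k : ℕ), 0 < k → k ≤ N → A ^ k = 1 →
    fro (A - 1) < ε → A = 1 := by
  -- choice of epsilon
  have hcont : ContinuousAt (fun x : ℝ => (1 + x) ^ N) 0 := by fun_prop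
  have hev : ∀ᶠ x : ℝ in 𝓝 0, (1 + x) ^ N < 2 := by
    apply hcont.eventually_lt continuousAt_const
    simp
  obtain ⟨r, hr, hball⟩ := Metric.eventually_nhds_iff.mp hev
  refine ⟨r / 2, by positivity, ?_⟩
  intro A k hk0 hkN hAk hA
  set ε := r / 2 with hεdef
  have hε0 : 0 < ε := by positivity
  have hε : (1 + ε) ^ N < 2 := by
    apply hball
    rw [Real.dist_eq, sub_zero, abs_of_pos hε0]
    linarith
  have hpow : ∀ j : ℕ, fro (A ^ j - 1) ≤ (1 + ε) ^ j - 1 := by
    intro j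
    induction j with
    | zero => simp [(fro_eq_zero (0 : Mat)).mpr rfl]
    | succ j ih =>
      have e : A ^ (j + 1) - 1 = ((A ^ j - 1) * (A - 1) + (A - 1)) + (A ^ j - 1) := by
        rw [pow_succ]; noncomm_ring
      rw [e]
      have h1 := fro_add ((A ^ j - 1) * (A - 1) + (A - 1)) (A ^ j - 1)
      have h2 := fro_add ((A ^ j - 1) * (A - 1)) (A - 1)
      have h3 := fro_mul (A ^ j - 1) (A - 1)
      have h4 : fro (A ^ j - 1) * fro (A - 1) ≤ ((1 + ε) ^ j - 1) * ε :=
        mul_le_mul ih hA.le (fro_nonneg _) ((fro_nonneg _).trans ih)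
      rw [pow_succ]
      nlinarith
  have hterm : ∀ j, j < k → fro (A ^ j - 1) < 1 := by
    intro j hj
    have h1 := hpow j
    have h2 : (1 + ε) ^ j ≤ (1 + ε) ^ N := pow_le_pow_right₀ (by linarith) (by omega)
    linarith
  -- the geometric sum
  have hg : (∑ j ∈ Finset.range k, A ^ j) * (A - 1) = 0 := by
    rw [geom_sum_mul, hAk, sub_self]
  have hsum : ∑ j ∈ Finset.range k, A ^ j = (k : ℝ) • (1 : Mat) + ∑ j ∈ Finset.range k, (A ^ j - 1) := by
    rw [Finset.sum_sub_distrib, Finset.sum_const, Finset.card_range, Nat.cast_smul_eq_nsmul]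
    abel
  have hk1 : (k : ℝ) • (A - 1) = -((∑ j ∈ Finset.range k, (A ^ j - 1)) * (A - 1)) := by
    rw [hsum, add_mul, smul_mul_assoc, one_mul] at hg
    exact eq_neg_of_add_eq_zero_left hg
  have hfs : ∀ n : ℕ, n ≤ k → 0 < n → fro (∑ j ∈ Finset.range n, (A ^ j - 1)) < n := by
    intro n
    induction n with
    | zero => intro _ h; exact absurd h (lt_irrefl _)
    | succ n ih =>
      intro hn _
      rw [Finset.sum_range_succ]
      have h1 := fro_add (∑ j ∈ Finset.range n, (A ^ j - 1)) (A ^ n - 1)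
      have h2 := hterm n (by omega)
      rcases Nat.eq_zero_or_pos n with h0 | h0
      · subst h0
        simp only [Finset.range_zero, Finset.sum_empty, zero_add] at h1 ⊢
        push_cast
        linarith
      · have h3 := ih (by omega) h0
        push_cast
        linarith
  have h1 : (k : ℝ) * fro (A - 1) ≤ fro (∑ j ∈ Finset.range k, (A ^ j - 1)) * fro (A - 1) := by
    have h2 : fro ((k : ℝ) • (A - 1)) = (k : ℝ) * fro (A - 1) := by
      rw [fro_smul, abs_of_nonneg (Nat.cast_nonneg k)]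
    rw [← h2, hk1, fro_neg]
    exact fro_mul _ _
  have h2 := hfs k le_rfl hk0
  have h3 : fro (A - 1) = 0 := by
    rcases (fro_nonneg (A - 1)).eq_or_lt with h | h
    · exact h.symm
    · exfalso
      have := mul_lt_mul_of_pos_right h2 h
      linarith
  have := (fro_eq_zero _).mp h3
  exact sub_eq_zero.mp this

end C37.PC
end

section

set_option autoImplicit false

open Filter Topology
open scoped ContDiff

namespace C37.PC

/-- Choice of `ε`: small elements have infinite order.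
Proof. `ε = min ε1 (1/16)` with `ε1` from `fro_torsion N`. Let `γ ≠ 1`, `Small ε g (L γ)`, `γ` of finite order: `γ ^ k = 1`, `0 < k ≤ N`.
`A = mat (g⁻¹ * L γ * g)` satisfies `A ^ k = mat (g⁻¹ * L (γ ^ k) * g) = 1` and `fro (A - 1) < ε1`, so `A = 1`, `L γ = 1`
(`mat_injective`), `γ = 1`. -/
theorem exists_eps {Γ : Type} [Group Γ] (L : Γ →* GG) (hinj : Function.Injective L)
    (htor : ∃ N : ℕ, 0 < N ∧ ∀ γ : Γ, IsOfFinOrder γ → ∃ k, 0 < k ∧ k ≤ N ∧ γ ^ k = 1) :
    ∃ ε : ℝ, 0 < ε ∧ ε ≤ 1/16 ∧ ∀ (g : GG) (γ : Γ), γ ≠ 1 → Small ε g (L γ) → ¬ IsOfFinOrder γ := by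
  obtain ⟨N, hN, hγ⟩ := htor
  obtain ⟨ε1, hε1, hA⟩ := fro_torsion N hN
  refine ⟨min ε1 (1/16), lt_min hε1 (by norm_num), min_le_right _ _, ?_⟩
  intro g γ hne hs hfin
  obtain ⟨k, hk0, hkN, hk⟩ := hγ γ hfin
  have hpow : ∀ j : ℕ, mat (g⁻¹ * L γ * g) ^ j = mat (g⁻¹ * L (γ ^ j) * g) := by
    intro j
    induction j with
    | zero => rw [pow_zero, pow_zero, map_one, mul_one, inv_mul_cancel, mat_one]
    | succ j ih =>
      rw [pow_succ, ih, ← mat_mul]
      congr 1
      rw [pow_succ, map_mul]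
      group
  have h1 : mat (g⁻¹ * L γ * g) = 1 := by
    apply hA _ k hk0 hkN
    · rw [hpow, hk, map_one, mul_one, inv_mul_cancel, mat_one]
    · exact lt_of_lt_of_le hs (min_le_left _ _)
  have h2 : g⁻¹ * L γ * g = 1 := mat_injective (h1.trans mat_one.symm)
  have h3 : L γ = 1 := by
    calc L γ = g * (g⁻¹ * L γ * g) * g⁻¹ := by group
      _ = 1 := by rw [h2]; group
  exact hne (hinj (h3.trans (map_one L).symm))

/-- Small elements at the same point are commensurable.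
Proof. Put `n γ = fro (mat (g⁻¹ * L γ * g) - 1)`. The set `S = {γ | γ ≠ 1 ∧ n γ < ε}` is finite: it is contained in `{γ | L γ ∈ K}`, `K` from
`small_subset_compact g`, apply `hL`. `S` is nonempty (`α ∈ S`); let `μ ∈ S` minimise `n` on `S` (`Set.exists_min_image`). `n μ > 0`
(`fro_eq_zero`, `mat_injective`, `hinj`). For `σ ∈ S` put `κ = μ * σ * μ⁻¹ * σ⁻¹`; by `fro_comm` (applied to the matrices of `g⁻¹ (L μ) g`, `g⁻¹ (L σ) g` and of their
inverses) `n κ ≤ 8 * n μ * n σ ≤ n μ / 2 < n μ < ε`. So `κ = 1` (otherwise `κ ∈ S` contradicts minimality), i.e. `μ σ = σ μ`. By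
`hNZ` (both have infinite order by `hε`) `Csr μ σ`. Applied to `σ = α`, `σ = β`: `Csr α β` by `csr_symm`, `csr_trans`. -/
theorem csr_of_small {Γ : Type} [Group Γ] (L : Γ →* GG) (hinj : Function.Injective L) (hL : Disc L)
    (hNZ : ∀ α β : Γ, α * β = β * α → ¬ IsOfFinOrder α → ¬ IsOfFinOrder β → Csr α β)
    {ε : ℝ} (hε0 : 0 < ε) (hε1 : ε ≤ 1/16)
    (hε : ∀ (g : GG) (γ : Γ), γ ≠ 1 → Small ε g (L γ) → ¬ IsOfFinOrder γ)
    (g : GG) (α β : Γ) (hα : α ≠ 1) (hβ : β ≠ 1) (h1 : Small ε g (L α)) (h2 : Small ε g (L β)) : Csr α β := by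
  obtain ⟨K, hK, hKs⟩ := small_subset_compact g
  let n : Γ → ℝ := fun γ => fro (mat (g⁻¹ * L γ * g) - 1)
  have hfin : {γ : Γ | γ ≠ 1 ∧ n γ < ε}.Finite := by
    refine (hL K hK).subset ?_
    rintro γ ⟨_, h⟩
    refine hKs _ ?_
    have : n γ < ε := h
    show n γ ≤ 1/2
    linarith
  obtain ⟨μ, ⟨hμ1, hμ2⟩, hmin⟩ := Set.exists_min_image _ n hfin ⟨α, hα, h1⟩
  have hμ0 : 0 < n μ := by
    rcases (fro_nonneg (mat (g⁻¹ * L μ * g) - 1)).eq_or_lt with h | h
    · exfalso
      have h3 := sub_eq_zero.mp ((fro_eq_zero _).mp h.symm)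
      have h4 : g⁻¹ * L μ * g = 1 := mat_injective (h3.trans mat_one.symm)
      have h5 : L μ = 1 := by
        calc L μ = g * (g⁻¹ * L μ * g) * g⁻¹ := by group
          _ = 1 := by rw [h4]; group
      exact hμ1 (hinj (h5.trans (map_one L).symm))
    · exact h
  have hcomm : ∀ σ : Γ, σ ≠ 1 → n σ < ε → Csr μ σ := by
    intro σ hσ1 hσ2
    have hk : n (μ * σ * μ⁻¹ * σ⁻¹) ≤ 8 * n μ * n σ := by
      have e : mat (g⁻¹ * L (μ * σ * μ⁻¹ * σ⁻¹) * g) = mat (g⁻¹ * L μ * g) * mat (g⁻¹ * L σ * g) *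
          mat (g⁻¹ * L μ⁻¹ * g) * mat (g⁻¹ * L σ⁻¹ * g) := by
        rw [← mat_mul, ← mat_mul, ← mat_mul]
        congr 1
        simp only [map_mul]
        group
      show fro (mat (g⁻¹ * L (μ * σ * μ⁻¹ * σ⁻¹) * g) - 1) ≤ _
      rw [e]
      have hinv : ∀ τ : Γ, mat (g⁻¹ * L τ * g) * mat (g⁻¹ * L τ⁻¹ * g) = 1 := by
        intro τ
        rw [← mat_mul, ← mat_one]
        congr 1
        rw [map_inv]; group
      have hinv' : ∀ τ : Γ, mat (g⁻¹ * L τ⁻¹ * g) * mat (g⁻¹ * L τ * g) = 1 := by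
        intro τ
        rw [← mat_mul, ← mat_one]
        congr 1
        rw [map_inv]; group
      apply fro_comm _ _ _ _ (hinv μ) (hinv' μ) (hinv σ) (hinv' σ)
      · show n μ ≤ 1/2
        linarith
      · show n σ ≤ 1/2
        linarith
    have hk2 : n (μ * σ * μ⁻¹ * σ⁻¹) < n μ := by
      have : 8 * n μ * n σ ≤ n μ / 2 := by
        have h3 : n μ * n σ ≤ n μ * (1/16) := mul_le_mul_of_nonneg_left (by linarith) hμ0.le
        linarith
      linarith
    have hk3 : μ * σ * μ⁻¹ * σ⁻¹ = 1 := by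
      by_contra hne
      have := hmin (μ * σ * μ⁻¹ * σ⁻¹) ⟨hne, by linarith⟩
      linarith
    have hk4 : μ * σ = σ * μ := by
      have h5 : μ * σ * μ⁻¹ = σ := mul_inv_eq_one.mp hk3
      have h6 := congrArg (· * μ) h5
      simpa using h6
    exact hNZ μ σ hk4 (hε g μ hμ1 hμ2) (hε g σ hσ1 hσ2)
  exact csr_trans (csr_symm (hcomm α hα h1)) (hcomm β hβ h2)

/-- Smallness only depends on the point of `X`.
Proof. `k = g⁻¹ * g' ∈ Kset` (`p_eq`), `g' = g * k`, `mat (g'⁻¹ * γ * g') - 1 = (mat k)⁻¹ * (mat (g⁻¹ * γ * g) - 1) * mat k`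
(`mat_mul`, `mat_inv`); apply `fro_conj_orth`. -/
theorem small_congr {act : GG → X → X} {p : GG → X} {s : X → GG} (hM : Model act p s) {ε : ℝ} {g g' γ : GG}
    (hp : p g = p g') : Small ε g γ ↔ Small ε g' γ := by
  have hk : g⁻¹ * g' ∈ Kset := (hM.p_eq g g').mp hp
  have hk1 : (mat (g⁻¹ * g')).transpose * mat (g⁻¹ * g') = 1 := hk
  have e : mat (g'⁻¹ * γ * g') - 1 = (mat (g⁻¹ * g'))⁻¹ * (mat (g⁻¹ * γ * g) - 1) * mat (g⁻¹ * g') := by
    rw [← mat_inv, mul_sub, sub_mul, mul_one, mat_inv_mul, ← mat_mul, ← mat_mul]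
    congr 2
    group
  unfold Small
  rw [e, fro_conj_orth _ _ hk1]

/-- Equivariance of smallness.
Proof. `p (s (act h x)) = act h x = act h (p (s x)) = p (h * s x)`; by `small_congr` it is enough to treat the base point `h * s x`:
`(h * s x)⁻¹ * (h * γ * h⁻¹) * (h * s x) = (s x)⁻¹ * γ * s x`. -/
theorem small_act {act : GG → X → X} {p : GG → X} {s : X → GG} (hM : Model act p s) {ε : ℝ} (h γ : GG) (x : X) :
    Small ε (s (act h x)) (h * γ * h⁻¹) ↔ Small ε (s x) γ := by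
  have hp : p (s (act h x)) = p (h * s x) := by
    rw [hM.p_s, hM.p_mul, hM.p_s]
  rw [small_congr hM hp]
  unfold Small
  have e : (h * s x)⁻¹ * (h * γ * h⁻¹) * (h * s x) = (s x)⁻¹ * γ * s x := by group
  rw [e]

/-- Smallness is an open condition (`small_cont`, continuity of `s`). -/
theorem small_open {act : GG → X → X} {p : GG → X} {s : X → GG} (hM : Model act p s) {ε : ℝ} {γ : GG} {x : X}
    (h : Small ε (s x) γ) : ∀ᶠ y in 𝓝 x, Small ε (s y) γ := by
  have hc : Continuous (fun y => fro (mat ((s y)⁻¹ * γ * s y) - 1)) := (small_cont γ).comp hM.s_cont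
  exact hc.continuousAt.eventually_lt continuousAt_const h

end C37.PC
end

section

set_option autoImplicit false

open Filter Topology
open scoped ContDiff

namespace C37.PC

/-- The commensurability class of the small elements is constant on a preconnected set.
Proof. Let `P x y : ∀ α β, α ≠ 1 → β ≠ 1 → Small ε (s x) (L α) → Small ε (s y) (L β) → Csr α β`.
Use `IsPreconnected.induction₂'` (or `induction₂`) on `Ω`. Local: for `x ∈ Ω` choose `σ ≠ 1` with `Small ε (s x) (L σ)`; by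
`small_open` it is small at all `y` near `x`; there `P x y`: `α ~ σ` (both small at `x`, `csr_of_small`) and `σ ~ β` (both small at `y`), so
`α ~ β`; and `P y x` by symmetry. Transitivity for `x, y, z ∈ Ω`: choose a small `σ ≠ 1` at `y`: `α ~ σ ~ β`. -/
theorem class_const {act : GG → X → X} {p : GG → X} {s : X → GG} (hM : Model act p s) {Γ : Type} [Group Γ]
    (L : Γ →* GG) {ε : ℝ}
    (hcs : ∀ (g : GG) (α β : Γ), α ≠ 1 → β ≠ 1 → Small ε g (L α) → Small ε g (L β) → Csr α β)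
    {Ω : Set X} (hΩ : IsPreconnected Ω) (hS : ∀ x ∈ Ω, ∃ γ : Γ, γ ≠ 1 ∧ Small ε (s x) (L γ))
    {x y : X} (hx : x ∈ Ω) (hy : y ∈ Ω) (α β : Γ) (hα : α ≠ 1) (hβ : β ≠ 1)
    (h1 : Small ε (s x) (L α)) (h2 : Small ε (s y) (L β)) : Csr α β := by
  have key := hΩ.induction₂' (fun x y => ∀ α β : Γ, α ≠ 1 → β ≠ 1 → Small ε (s x) (L α) →
    Small ε (s y) (L β) → Csr α β)
    (by
      intro x hx
      obtain ⟨σ, hσ, hσs⟩ := hS x hx
      have hev := small_open hM hσs
      refine (hev.filter_mono nhdsWithin_le_nhds).mono ?_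
      intro y hy
      constructor
      · intro α β hα hβ h1 h2
        exact csr_trans (hcs (s x) α σ hα hσ h1 hσs) (hcs (s y) σ β hσ hβ hy h2)
      · intro α β hα hβ h1 h2
        exact csr_trans (hcs (s y) α σ hα hσ h1 hy) (hcs (s x) σ β hσ hβ hσs h2))
    (by
      intro x y z hx hy hz hxy hyz α β hα hβ h1 h2
      obtain ⟨σ, hσ, hσs⟩ := hS y hy
      exact csr_trans (hxy α σ hα hσ h1 hσs) (hyz σ β hσ hβ hσs h2))
    hx hy
  exact key α β hα hβ h1 h2

/-- The stabiliser of `Ω` normalises the class.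
Proof. Take `x ∈ Ω` and `α ≠ 1` small at `x` (`hS`); it has infinite order by `hε`. For `δ ∈ D`: `act (L δ) x ∈ Ω` and `δ α δ⁻¹ ≠ 1` is small at
`act (L δ) x` (`small_act` with `h = L δ`, `γ = L α`, `map_mul`, `map_inv`); apply `class_const` to the points `act (L δ) x`, `x`. -/
theorem exists_normalised {act : GG → X → X} {p : GG → X} {s : X → GG} (hM : Model act p s) {Γ : Type} [Group Γ]
    (L : Γ →* GG) {ε : ℝ}
    (hε : ∀ (g : GG) (γ : Γ), γ ≠ 1 → Small ε g (L γ) → ¬ IsOfFinOrder γ)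
    (hcs : ∀ (g : GG) (α β : Γ), α ≠ 1 → β ≠ 1 → Small ε g (L α) → Small ε g (L β) → Csr α β)
    {Ω : Set X} (hne : Ω.Nonempty) (hΩ : IsPreconnected Ω) (hS : ∀ x ∈ Ω, ∃ γ : Γ, γ ≠ 1 ∧ Small ε (s x) (L γ))
    (D : Subgroup Γ) (hD : ∀ δ ∈ D, ∀ x ∈ Ω, act (L δ) x ∈ Ω) :
    ∃ α : Γ, ¬ IsOfFinOrder α ∧ ∀ δ ∈ D, Csr (δ * α * δ⁻¹) α := by
  obtain ⟨x, hx⟩ := hne
  obtain ⟨α, hα, hαs⟩ := hS x hx
  refine ⟨α, hε _ _ hα hαs, fun δ hδ => ?_⟩
  have hne : δ * α * δ⁻¹ ≠ 1 := by
    intro h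
    apply hα
    have h1 : α = δ⁻¹ * (δ * α * δ⁻¹) * δ := by group
    rw [h1, h]; group
  have hs : Small ε (s (act (L δ) x)) (L (δ * α * δ⁻¹)) := by
    rw [map_mul, map_mul, map_inv]
    exact (small_act hM (L δ) (L α) x).mpr hαs
  exact class_const hM L hcs hΩ hS (hD δ hδ x hx) hx _ _ hne hα hs hαs

end C37.PC
end

section

set_option autoImplicit false

open Filter Topology
open scoped ContDiff

namespace C37.PC

/-- Stabilisation of the algebras generated by powers.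
Proof. Choose `N ≥ 1` such that `Module.finrank ℝ (Algebra.adjoin ℝ {A ^ N})` is minimal among all `N ≥ 1` (`Nat.find` / well-foundedness). For `k ≥ 1`,
`A ^ (N * k) = (A ^ N) ^ k`, so `Algebra.adjoin ℝ {A ^ (N * k)} ≤ Algebra.adjoin ℝ {A ^ N}` and the finrank of the left side is not smaller, so they
are equal (`Submodule.eq_of_le_of_finrank_le` for `Subalgebra.toSubmodule`), hence `A ^ N` lies in the left one. -/
theorem exists_stable_power (A : Mat) : ∃ N : ℕ, 0 < N ∧ ∀ k : ℕ, 0 < k →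
    A ^ N ∈ Algebra.adjoin ℝ {A ^ (N * k)} := by
  classical
  let f : ℕ → ℕ := fun N => Module.finrank ℝ (Subalgebra.toSubmodule (Algebra.adjoin ℝ {A ^ N}))
  have hex : ∃ d : ℕ, ∃ N : ℕ, 0 < N ∧ f N = d := ⟨f 1, 1, one_pos, rfl⟩
  obtain ⟨N, hN, hfN⟩ := Nat.find_spec hex
  refine ⟨N, hN, fun k hk => ?_⟩
  have hle : Algebra.adjoin ℝ {A ^ (N * k)} ≤ Algebra.adjoin ℝ {A ^ N} := by
    apply Algebra.adjoin_le
    intro x hx
    rw [Set.mem_singleton_iff] at hx
    subst hx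
    rw [pow_mul]
    exact Subalgebra.pow_mem _ (Algebra.subset_adjoin (Set.mem_singleton _)) k
  have hle' : Subalgebra.toSubmodule (Algebra.adjoin ℝ {A ^ (N * k)}) ≤
      Subalgebra.toSubmodule (Algebra.adjoin ℝ {A ^ N}) := hle
  have hmin : f N ≤ f (N * k) := by
    rw [hfN]
    exact Nat.find_min' hex ⟨N * k, Nat.mul_pos hN hk, rfl⟩
  have heq := Submodule.eq_of_le_of_finrank_le hle' hmin
  have hmem : A ^ N ∈ Subalgebra.toSubmodule (Algebra.adjoin ℝ {A ^ N}) :=
    Algebra.subset_adjoin (Set.mem_singleton _)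
  rw [← heq] at hmem
  exact hmem

/-- A subalgebra of a finite dimensional algebra is closed under inverses.
Proof. Left multiplication by `A` maps `Z` to `Z` linearly and injectively (`A' * A = 1`), `Z` is finite dimensional, so it is surjective onto `Z`: there is
`z ∈ Z` with `A * z = 1`, and `z = A'`. (`LinearMap.injective_iff_surjective`.) -/
theorem subalgebra_inv_mem (Z : Subalgebra ℝ Mat) {A A' : Mat} (hA : A ∈ Z) (h1 : A * A' = 1) (h2 : A' * A = 1) :
    A' ∈ Z := by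
  let f : Z →ₗ[ℝ] Z := LinearMap.mulLeft ℝ (⟨A, hA⟩ : Z)
  have hinj : Function.Injective f := by
    intro x y hxy
    have h3 : A * (x : Mat) = A * (y : Mat) := congrArg Subtype.val hxy
    apply Subtype.ext
    calc (x : Mat) = (A' * A) * x := by rw [h2, one_mul]
      _ = A' * (A * x) := by rw [mul_assoc]
      _ = A' * (A * y) := by rw [h3]
      _ = (A' * A) * y := by rw [mul_assoc]
      _ = y := by rw [h2, one_mul]
  haveI : FiniteDimensional ℝ Z := inferInstanceAs (FiniteDimensional ℝ (Subalgebra.toSubmodule Z))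
  obtain ⟨z, hz⟩ := (LinearMap.injective_iff_surjective.mp hinj) 1
  have hz' : A * (z : Mat) = 1 := congrArg Subtype.val hz
  have : A' = z := by
    calc A' = A' * (A * z) := by rw [hz', mul_one]
      _ = (A' * A) * z := by rw [mul_assoc]
      _ = z := by rw [h2, one_mul]
  rw [this]
  exact z.2

end C37.PC
end
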