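import Mathlib
import Pool.Agent.Lib.MP_c37615_al.Defs
import Pool.Agent.Lib.MP_c37615_al.D.Core
import Pool.Agent.Lib.MP_c37615_al.Mg.G033
import Pool.Agent.Lib.MP_c37615_al.Mg.G017
import Pool.Agent.Lib.MP_c37615_al.Mg.G038
import Pool.Agent.Lib.MP_c37615_al.C.Base
import Pool.Agent.Lib.MP_c37615_al.Mg.G043
import Pool.Agent.Lib.MP_c37615_al.Mg.G022

section

/-!
MP_c37615_al (S02984), part D-IIb (paper 6.4.4 - 6.4.6), file B_K8
-/

set_option autoImplicit false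

open Filter Topology NormedSpace

namespace C37
namespace DB

/-- derivations are stable under conjugation by G: `GX_B` for `g` and `g⁻¹` (`inG_inv`).
`B (g⁻¹ Z g u) v = B (Z (g u)) (g v)`; `g⁻¹ Z g (u x v) = g⁻¹ Z (g u x g v) = g⁻¹ (Z g u x g v + g u x Z g v)`
`= (g⁻¹ Z g u) x v + u x (g⁻¹ Z g v)`. -/
theorem der_conj (Z g : Mat) (hg : InG g) (hZ : Der Z) : Der (g⁻¹ * Z * g) := by
  obtain ⟨hgi, h1, h2⟩ := inG_inv g hg
  have hv : ∀ u : V, g.mulVec (g⁻¹.mulVec u) = u := by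
    intro u
    rw [Matrix.mulVec_mulVec, h1, Matrix.one_mulVec]
  have hv' : ∀ u : V, g⁻¹.mulVec (g.mulVec u) = u := by
    intro u
    rw [Matrix.mulVec_mulVec, h2, Matrix.one_mulVec]
  have hm : ∀ u : V, (g⁻¹ * Z * g).mulVec u = g⁻¹.mulVec (Z.mulVec (g.mulVec u)) := by
    intro u
    rw [Matrix.mulVec_mulVec, Matrix.mulVec_mulVec, Matrix.mul_assoc]
  have hB : ∀ u v : V, B (g⁻¹.mulVec u) v = B u (g.mulVec v) := by
    intro u v
    rw [← (GX_B g hg (g⁻¹.mulVec u) v).1, hv]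
  have hB' : ∀ u v : V, B v (g⁻¹.mulVec u) = B (g.mulVec v) u := by
    intro u v
    rw [← (GX_B g hg v (g⁻¹.mulVec u)).1, hv]
  have hX : ∀ u v : V, cross (g.mulVec u) (g.mulVec v) = g.mulVec (cross u v) := fun u v => (GX_B g hg u v).2.1
  have hXi : ∀ u v : V, cross (g⁻¹.mulVec u) v = g⁻¹.mulVec (cross u (g.mulVec v)) := by
    intro u v
    have h3 := hX (g⁻¹.mulVec u) v
    rw [hv] at h3
    rw [h3, hv']
  have hXi' : ∀ u v : V, cross v (g⁻¹.mulVec u) = g⁻¹.mulVec (cross (g.mulVec v) u) := by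
    intro u v
    have h3 := hX v (g⁻¹.mulVec u)
    rw [hv] at h3
    rw [h3, hv']
  constructor
  · intro u v
    rw [hm, hm, hB, hB']
    exact hZ.1 _ _
  · intro u v
    rw [hm, hm, hm, hXi, hXi', ← Matrix.mulVec_add, ← hX, hZ.2]

end DB
end C37
end

section

/-!
MP_c37615_al (S02984), part D-IIb (paper 6.4.4 - 6.4.6), file B_P2
-/

set_option autoImplicit false

open Filter Topology NormedSpace

namespace C37
namespace DB

theorem B_P2_nilp (P Q X : HMat) (h2 : Q * P = 1) (h1 : P * Q = 1) (h : IsNilpotent X) : IsNilpotent (P * X * Q) := by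
  obtain ⟨n, hn⟩ := h
  have hs : SemiconjBy P X (P * X * Q) := by
    rw [SemiconjBy, mul_assoc (P * X) Q P, h2, mul_one]
  have h3 := (hs.pow_right n).eq
  rw [hn, mul_zero] at h3
  refine ⟨n, ?_⟩
  calc (P * X * Q) ^ n = (P * X * Q) ^ n * (P * Q) := by rw [h1, mul_one]
    _ = ((P * X * Q) ^ n * P) * Q := (mul_assoc _ _ _).symm
    _ = 0 := by rw [← h3, zero_mul]

theorem B_P2_comm (P Q X Y : HMat) (h2 : Q * P = 1) (h : Commute X Y) : Commute (P * X * Q) (P * Y * Q) := by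
  rw [Commute, SemiconjBy]
  calc P * X * Q * (P * Y * Q) = P * X * (Q * P) * Y * Q := by simp only [mul_assoc]
    _ = P * (X * Y) * Q := by rw [h2]; simp only [mul_assoc, mul_one]
    _ = P * (Y * X) * Q := by rw [h.eq]
    _ = P * Y * (Q * P) * X * Q := by rw [h2]; simp only [mul_assoc, mul_one]
    _ = P * Y * Q * (P * X * Q) := by simp only [mul_assoc]

theorem B_P2_bdd (P Q S : HMat) (h2 : Q * P = 1) (h1 : P * Q = 1) (h : BddZ S) : BddZ (P * S * Q) := by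
  obtain ⟨hd, C, hC⟩ := h
  have hP : IsUnit P.det := (Matrix.isUnit_iff_isUnit_det P).mp ⟨⟨P, Q, h1, h2⟩, rfl⟩
  have hQ : IsUnit Q.det := (Matrix.isUnit_iff_isUnit_det Q).mp ⟨⟨Q, P, h2, h1⟩, rfl⟩
  have hd' : IsUnit (P * S * Q).det := by
    rw [Matrix.det_mul, Matrix.det_mul]
    exact (hP.mul hd).mul hQ
  have hC0 : 0 ≤ C := (abs_nonneg _).trans (hC 0 (Sum.inr ()) (Sum.inr ()))
  have hs : SemiconjBy P S (P * S * Q) := by
    rw [SemiconjBy, mul_assoc (P * S) Q P, h2, mul_one]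
  refine ⟨hd', (∑ i, ∑ a, |P i a|) * C * (∑ b, ∑ j, |Q b j|), fun k i j => ?_⟩
  have h3 := (Matrix.SemiconjBy.zpow_right hd hd' hs k).eq
  have h4 : (P * S * Q) ^ k = P * S ^ k * Q := by
    calc (P * S * Q) ^ k = (P * S * Q) ^ k * (P * Q) := by rw [h1, mul_one]
      _ = ((P * S * Q) ^ k * P) * Q := (mul_assoc _ _ _).symm
      _ = P * S ^ k * Q := by rw [← h3]
  rw [h4, Matrix.mul_apply]
  have h5 : ∀ b, |(P * S ^ k) i b| ≤ (∑ i, ∑ a, |P i a|) * C := by
    intro b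
    rw [Matrix.mul_apply]
    calc |∑ a, P i a * (S ^ k) a b| ≤ ∑ a, |P i a * (S ^ k) a b| := Finset.abs_sum_le_sum_abs _ _
      _ ≤ ∑ a, |P i a| * C := Finset.sum_le_sum fun a _ => by
          rw [abs_mul]
          exact mul_le_mul_of_nonneg_left (hC k a b) (abs_nonneg _)
      _ = (∑ a, |P i a|) * C := by rw [Finset.sum_mul]
      _ ≤ (∑ i, ∑ a, |P i a|) * C := by
          refine mul_le_mul_of_nonneg_right ?_ hC0
          exact Finset.single_le_sum (f := fun i => ∑ a, |P i a|)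
            (fun i _ => Finset.sum_nonneg fun a _ => abs_nonneg _) (Finset.mem_univ i)
  have hK : 0 ≤ (∑ i, ∑ a, |P i a|) * C :=
    mul_nonneg (Finset.sum_nonneg fun i _ => Finset.sum_nonneg fun a _ => abs_nonneg _) hC0
  calc |∑ b, (P * S ^ k) i b * Q b j| ≤ ∑ b, |(P * S ^ k) i b * Q b j| := Finset.abs_sum_le_sum_abs _ _
    _ ≤ ∑ b, ((∑ i, ∑ a, |P i a|) * C) * ∑ j, |Q b j| := Finset.sum_le_sum fun b _ => by
        rw [abs_mul]
        refine mul_le_mul (h5 b) ?_ (abs_nonneg _) hK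
        exact Finset.single_le_sum (f := fun j => |Q b j|) (fun j _ => abs_nonneg _) (Finset.mem_univ j)
    _ = (∑ i, ∑ a, |P i a|) * C * (∑ b, ∑ j, |Q b j|) := by rw [Finset.mul_sum]

/-- conjugation of the decomposition by the linear map `g ∈ G`; `δ` is the affine equivalence with linear part `g` fixing 0.
Proof: `hatA (δ α δ⁻¹) = ĝ (hatA α) ĝ⁻¹` with `ĝ := hat g 0`; `Matrix.exp_conj`; `(ĝ S ĝ⁻¹)^k = ĝ S^k ĝ⁻¹` (bounded entries);
rows: `e ĝ = e`, `e ĝ⁻¹ = e`; nilpotent and commutation are preserved. -/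
theorem jpair_conj (α β δ : V ≃ᵃ[ℝ] V) (S X S' X' : HMat) (h : JPair α β S X S' X') (g : Mat) (hg : InG g)
    (hd : lin δ = g) (hd0 : tv δ = 0) :
    JPair (δ * α * δ⁻¹) (δ * β * δ⁻¹) (hat g 0 * S * (hat g 0)⁻¹) (hat g 0 * X * (hat g 0)⁻¹)
      (hat g 0 * S' * (hat g 0)⁻¹) (hat g 0 * X' * (hat g 0)⁻¹) := by
  have hu : IsUnit (hat g 0).det := by
    rw [det_hat]
    exact (Matrix.isUnit_iff_isUnit_det g).mp (inG_isUnit g hg)
  have hU : IsUnit (hat g 0) := (Matrix.isUnit_iff_isUnit_det _).mpr hu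
  have hA : hatA δ = hat g 0 := by rw [hatA, hd, hd0]
  have h1 : hat g 0 * (hat g 0)⁻¹ = 1 := Matrix.mul_nonsing_inv _ hu
  have h2 : (hat g 0)⁻¹ * hat g 0 = 1 := Matrix.nonsing_inv_mul _ hu
  have rP : Matrix.vecMul eRow (hat g 0) = eRow := row_hat _ _
  have rQ : Matrix.vecMul eRow (hat g 0)⁻¹ = eRow := by
    conv_lhs => rw [← rP]
    rw [Matrix.vecMul_vecMul, h1, Matrix.vecMul_one]
  have hmul : ∀ A B : HMat, hat g 0 * (A * B) * (hat g 0)⁻¹ =
      (hat g 0 * A * (hat g 0)⁻¹) * (hat g 0 * B * (hat g 0)⁻¹) := by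
    intro A B
    calc hat g 0 * (A * B) * (hat g 0)⁻¹ = hat g 0 * A * ((hat g 0)⁻¹ * hat g 0) * B * (hat g 0)⁻¹ := by
          rw [h2]; simp only [mul_assoc, mul_one]
      _ = _ := by simp only [mul_assoc]
  have rS : ∀ A : HMat, Matrix.vecMul eRow A = eRow → Matrix.vecMul eRow (hat g 0 * A * (hat g 0)⁻¹) = eRow := by
    intro A hA
    rw [← Matrix.vecMul_vecMul, ← Matrix.vecMul_vecMul, rP, hA, rQ]
  have rX : ∀ A : HMat, Matrix.vecMul eRow A = 0 → Matrix.vecMul eRow (hat g 0 * A * (hat g 0)⁻¹) = 0 := by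
    intro A hA
    rw [← Matrix.vecMul_vecMul, ← Matrix.vecMul_vecMul, rP, hA, Matrix.zero_vecMul]
  exact {
    ea := by
      rw [Matrix.exp_conj _ _ hU, ← hmul, ← h.ea, hatA_mul, hatA_mul, hatA_inv, hA]
    eb := by
      rw [Matrix.exp_conj _ _ hU, ← hmul, ← h.eb, hatA_mul, hatA_mul, hatA_inv, hA]
    rS := rS _ h.rS
    rS' := rS _ h.rS'
    rX := rX _ h.rX
    rX' := rX _ h.rX'
    nX := B_P2_nilp _ _ _ h2 h1 h.nX
    nX' := B_P2_nilp _ _ _ h2 h1 h.nX'
    bS := B_P2_bdd _ _ _ h2 h1 h.bS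
    bS' := B_P2_bdd _ _ _ h2 h1 h.bS'
    cSX := B_P2_comm _ _ _ _ h2 h.cSX
    cSS' := B_P2_comm _ _ _ _ h2 h.cSS'
    cSX' := B_P2_comm _ _ _ _ h2 h.cSX'
    cXS' := B_P2_comm _ _ _ _ h2 h.cXS'
    cXX' := B_P2_comm _ _ _ _ h2 h.cXX'
    cS'X' := B_P2_comm _ _ _ _ h2 h.cS'X' }

end DB
end C37
end

section

/-!
MP_c37615_al (S02984), part D-IIb (paper 6.4.4 - 6.4.6), file B_P7
-/

set_option autoImplicit false

open Filter Topology NormedSpace

namespace C37
namespace DB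

/-- coordinates of `exp (x • Z) u` as polynomials in `x` -/
private noncomputable def P7_pe (Z : Mat) (k : ℕ) (u : V) (i : Fin 7) : Polynomial ℝ :=
  ∑ j ∈ Finset.range k, Polynomial.C (((j.factorial : ℝ)⁻¹) * ((Z ^ j).mulVec u i)) * Polynomial.X ^ j

private theorem P7_eval (Z : Mat) (k : ℕ) (hk : Z ^ k = 0) (u : V) (x : ℝ) (i : Fin 7) :
    (P7_pe Z k u i).eval x = (exp (x • Z)).mulVec u i := by
  have h1 : (x • Z) ^ k = 0 := by rw [smul_pow, hk, smul_zero]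
  rw [exp_nilp (x • Z) k h1, Matrix.sum_mulVec, Finset.sum_apply, P7_pe, Polynomial.eval_finsetSum]
  refine Finset.sum_congr rfl fun j _ => ?_
  rw [Polynomial.eval_mul, Polynomial.eval_C, Polynomial.eval_pow, Polynomial.eval_X, smul_pow,
    Matrix.smul_mulVec, Matrix.smul_mulVec, Pi.smul_apply, Pi.smul_apply, smul_eq_mul, smul_eq_mul]
  ring

private theorem P7_coeff0 (Z : Mat) (k : ℕ) (u : V) (i : Fin 7) : (P7_pe Z (k + 2) u i).coeff 0 = u i := by
  rw [P7_pe, Polynomial.finsetSum_coeff, Finset.sum_eq_single 0]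
  · simp
  · intro b _ hb
    rw [Polynomial.coeff_C_mul, Polynomial.coeff_X_pow, if_neg (Ne.symm hb), mul_zero]
  · intro h
    exact absurd (Finset.mem_range.2 (by omega)) h

private theorem P7_coeff1 (Z : Mat) (k : ℕ) (u : V) (i : Fin 7) :
    (P7_pe Z (k + 2) u i).coeff 1 = Z.mulVec u i := by
  rw [P7_pe, Polynomial.finsetSum_coeff, Finset.sum_eq_single 1]
  · simp
  · intro b _ hb
    rw [Polynomial.coeff_C_mul, Polynomial.coeff_X_pow, if_neg (Ne.symm hb), mul_zero]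
  · intro h
    exact absurd (Finset.mem_range.2 (by omega)) h

private noncomputable def P7_B (u v : Fin 7 → Polynomial ℝ) : Polynomial ℝ :=
  u 0 * v 0 + u 1 * v 1 + u 2 * v 2 - u 3 * v 3 - u 4 * v 4 - u 5 * v 5 - u 6 * v 6

private theorem P7_B_eval (u v : Fin 7 → Polynomial ℝ) (x : ℝ) :
    (P7_B u v).eval x = B (fun i => (u i).eval x) (fun i => (v i).eval x) := by
  simp only [P7_B, B, Polynomial.eval_add, Polynomial.eval_sub, Polynomial.eval_mul]

private noncomputable def P7_cross (u v : Fin 7 → Polynomial ℝ) : Fin 7 → Polynomial ℝ :=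
  ![ (u 1 * v 2 - u 2 * v 1) - (u 3 * v 4 - u 4 * v 3) - (u 5 * v 6 - u 6 * v 5),
     -(u 0 * v 2 - u 2 * v 0) - (u 3 * v 5 - u 5 * v 3) + (u 4 * v 6 - u 6 * v 4),
     (u 0 * v 1 - u 1 * v 0) + (u 3 * v 6 - u 6 * v 3) + (u 4 * v 5 - u 5 * v 4),
     -(u 0 * v 4 - u 4 * v 0) - (u 1 * v 5 - u 5 * v 1) + (u 2 * v 6 - u 6 * v 2),
     (u 0 * v 3 - u 3 * v 0) + (u 1 * v 6 - u 6 * v 1) + (u 2 * v 5 - u 5 * v 2),
     -(u 0 * v 6 - u 6 * v 0) + (u 1 * v 3 - u 3 * v 1) - (u 2 * v 4 - u 4 * v 2),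
     (u 0 * v 5 - u 5 * v 0) - (u 1 * v 4 - u 4 * v 1) - (u 2 * v 3 - u 3 * v 2) ]

private theorem P7_cross_eval (u v : Fin 7 → Polynomial ℝ) (x : ℝ) (i : Fin 7) :
    (P7_cross u v i).eval x = cross (fun i => (u i).eval x) (fun i => (v i).eval x) i := by
  fin_cases i <;> simp [P7_cross, cross]

/-- differentiate `B (exp(xZ) u) (exp(xZ) v) = B u v` and `cross (exp(xZ) u) (exp(xZ) v) = exp(xZ) (cross u v)` (`GX_B`) at `x = 0`.
`exp (x • Z) u` has derivative `Z u` at 0 (for nilpotent `Z` it is a polynomial in `x` by `exp_nilp`, or use `hasDerivAt_exp_smul_const`). -/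
theorem der_of_inG_exp (Z : Mat) (hZ : IsNilpotent Z) (h : ∀ x : ℝ, InG (exp (x • Z))) : Der Z := by
  obtain ⟨k, hk⟩ := hZ
  have hk2 : Z ^ (k + 2) = 0 := by rw [pow_add, hk, zero_mul]
  constructor
  · intro u v
    have hpol : P7_B (P7_pe Z (k + 2) u) (P7_pe Z (k + 2) v) = Polynomial.C (B u v) := by
      apply Polynomial.funext
      intro x
      rw [P7_B_eval, Polynomial.eval_C, ← (GX_B _ (h x) u v).1]
      congr 1
      · funext i; exact P7_eval Z (k + 2) hk2 u x i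
      · funext i; exact P7_eval Z (k + 2) hk2 v x i
    have h1 := congrArg (fun p => Polynomial.coeff p 1) hpol
    simp only [Polynomial.coeff_C_of_ne_zero (one_ne_zero)] at h1
    rw [← h1, P7_B]
    simp only [Polynomial.coeff_add, Polynomial.coeff_sub, Polynomial.mul_coeff_one, P7_coeff0, P7_coeff1]
    unfold B
    ring
  · intro u v
    funext i
    have hpol : P7_cross (P7_pe Z (k + 2) u) (P7_pe Z (k + 2) v) i = P7_pe Z (k + 2) (cross u v) i := by
      apply Polynomial.funext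
      intro x
      rw [P7_cross_eval, P7_eval Z (k + 2) hk2, ← (GX_B _ (h x) u v).2.1]
      have e1 : (fun i => (P7_pe Z (k + 2) u i).eval x) = (exp (x • Z)).mulVec u :=
        funext fun i => P7_eval Z (k + 2) hk2 u x i
      have e2 : (fun i => (P7_pe Z (k + 2) v i).eval x) = (exp (x • Z)).mulVec v :=
        funext fun i => P7_eval Z (k + 2) hk2 v x i
      rw [e1, e2]
    have h1 := congrArg (fun p => Polynomial.coeff p 1) hpol
    simp only [P7_coeff1] at h1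
    rw [← h1, Pi.add_apply]
    fin_cases i <;> simp [P7_cross, cross, Polynomial.mul_coeff_one, P7_coeff0, P7_coeff1] <;> ring

end DB
end C37
end

section

/-!
MP_c37615_al (S02984), part D-IIb (paper 6.4.4 - 6.4.6), file B_P8
-/

set_option autoImplicit false

open Filter Topology NormedSpace

namespace C37
namespace DB

/-- Proof: `S = hat gS uS`, `X = hat0 Z a` (`eq_hat`, `eq_hat0`) with `Z = lb X` nilpotent (`nilp_lb`). `lin α = lb (hatA α) = lb S * lb (exp X) = gS * exp Z` (`lb_mul`,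
`lb_exp_hat0`, `row_exp_hat0`), `BddZ gS` (`bddZ_lb`), `Commute gS Z` (`lb_commute`). `inG_exp_of_jordan`, `der_of_inG_exp`. Same for `β`. -/
theorem jpair_der (α β : V ≃ᵃ[ℝ] V) (ha : InG (lin α)) (hb : InG (lin β)) (S X S' X' : HMat)
    (h : JPair α β S X S' X') : Der (lb X) ∧ Der (lb X') ∧ IsNilpotent (lb X) ∧ IsNilpotent (lb X') ∧
      lb X * lb X' = lb X' * lb X := by
  have key : ∀ (γ : V ≃ᵃ[ℝ] V) (T Y : HMat), InG (lin γ) → hatA γ = T * exp Y → Matrix.vecMul eRow T = eRow →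
      Matrix.vecMul eRow Y = 0 → IsNilpotent Y → BddZ T → Commute T Y → Der (lb Y) ∧ IsNilpotent (lb Y) := by
    intro γ T Y hγ hT rT rY nY bT cTY
    have nl : IsNilpotent (lb Y) := nilp_lb Y rY nY
    have hY := eq_hat0 Y rY
    have hexp : lb (exp Y) = exp (lb Y) := by
      conv_lhs => rw [hY]
      exact lb_exp_hat0 _ _ nl
    have hrow : Matrix.vecMul eRow (exp Y) = eRow := by
      conv_lhs => rw [hY]
      exact row_exp_hat0 _ _ nl
    have hlin : lin γ = lb T * exp (lb Y) := by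
      have h1 : lb (hatA γ) = lin γ := lb_hat _ _
      rw [← h1, hT, lb_mul _ _ (Or.inl hrow), hexp]
    have hb : BddZ (lb T) := by
      have h1 := eq_hat T rT
      rw [h1] at bT
      exact bddZ_lb _ _ bT
    have hc : Commute (lb T) (lb Y) := lb_commute T Y (Or.inl rT) (Or.inr rY) cTY
    have hG : InG (lb T * exp (lb Y)) := by rw [← hlin]; exact hγ
    exact ⟨der_of_inG_exp _ nl (inG_exp_of_jordan _ _ hb nl hc hG), nl⟩
  obtain ⟨d1, n1⟩ := key α S X ha h.ea h.rS h.rX h.nX h.bS h.cSX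
  obtain ⟨d2, n2⟩ := key β S' X' hb h.eb h.rS' h.rX' h.nX' h.bS' h.cS'X'
  exact ⟨d1, d2, n1, n2, (lb_commute X X' (Or.inr h.rX) (Or.inr h.rX') h.cXX').eq⟩

end DB
end C37
end

section

set_option autoImplicit false

open Filter Topology
open scoped ContDiff

namespace C37.PC

/-- The function `A ↦ φ (A * M * adjugate A)` is a polynomial in the entries of `A` (`φ` linear).
Proof. Let `Xm : Matrix (Fin 7) (Fin 7) (MvPolynomial (Fin 7 × Fin 7) ℝ) := Matrix.of fun i j => X (i, j)`. The matrix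
`Y = Xm * M.map C * Xm.adjugate` has polynomial entries and the evaluation ring homomorphism maps it to `A * M * adjugate A`
(`RingHom.map_adjugate`, `Matrix.map_mul`). `φ B = ∑ i j, B i j * φ (Matrix.single i j 1)` (`Matrix.matrix_eq_sum_single`). -/
theorem exists_conj_poly (M : Mat) (φ : Mat →ₗ[ℝ] ℝ) :
    ∃ P : MvPolynomial (Fin 7 × Fin 7) ℝ, ∀ A : Mat, evm A P = φ (A * M * A.adjugate) := by
  let Xm : Matrix (Fin 7) (Fin 7) (MvPolynomial (Fin 7 × Fin 7) ℝ) :=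
    Matrix.of fun i j => MvPolynomial.X (i, j)
  let Y : Matrix (Fin 7) (Fin 7) (MvPolynomial (Fin 7 × Fin 7) ℝ) :=
    Xm * M.map MvPolynomial.C * Xm.adjugate
  refine ⟨∑ i, ∑ j, Y i j * MvPolynomial.C (φ (Matrix.single i j 1)), fun A => ?_⟩
  let f : MvPolynomial (Fin 7 × Fin 7) ℝ →+* ℝ :=
    MvPolynomial.eval (fun p : Fin 7 × Fin 7 => A p.1 p.2)
  have hX : Xm.map f = A := by
    ext i j
    show f (MvPolynomial.X (i, j)) = A i j
    exact MvPolynomial.eval_X _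
  have hC : (M.map (MvPolynomial.C : ℝ →+* MvPolynomial (Fin 7 × Fin 7) ℝ)).map f = M := by
    ext i j
    show f (MvPolynomial.C (M i j)) = M i j
    exact MvPolynomial.eval_C _
  have hY : Y.map f = A * M * A.adjugate := by
    have h1 : Y.map f = Xm.map f * (M.map (MvPolynomial.C : ℝ →+* MvPolynomial (Fin 7 × Fin 7) ℝ)).map f
        * (Xm.adjugate).map f := by
      show (Xm * M.map MvPolynomial.C * Xm.adjugate).map f = _
      rw [Matrix.map_mul, Matrix.map_mul]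
    have h2 : (Xm.adjugate).map f = (Xm.map f).adjugate := RingHom.map_adjugate f Xm
    rw [h1, h2, hX, hC]
  have hφ : ∀ B : Mat, φ B = ∑ i, ∑ j, B i j * φ (Matrix.single i j 1) := by
    intro B
    conv_lhs => rw [Matrix.matrix_eq_sum_single B]
    rw [map_sum]
    refine Finset.sum_congr rfl fun i _ => ?_
    rw [map_sum]
    refine Finset.sum_congr rfl fun j _ => ?_
    have : Matrix.single i j (B i j) = B i j • Matrix.single i j (1 : ℝ) := by
      rw [Matrix.smul_single, smul_eq_mul, mul_one]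
    rw [this, map_smul, smul_eq_mul]
  rw [hφ, ← hY]
  show f _ = _
  rw [map_sum]
  refine Finset.sum_congr rfl fun i _ => ?_
  rw [map_sum]
  refine Finset.sum_congr rfl fun j _ => ?_
  rw [map_mul]
  congr 1
  exact MvPolynomial.eval_C _

/-- A subspace normalised by (the linear parts of) a finite index subgroup is normalised by `G`.
Proof. Let `InG g`, `M ∈ Z`; `det g = 1` (`GX_B`), so `g⁻¹ = adjugate g` (`Matrix.inv_def`). If `g * M * g⁻¹ ∉ Z` there is a linear form `φ` vanishing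
on `Z` with `φ (g * M * g⁻¹) ≠ 0` (`Submodule.exists_le_ker_of_notMem` or `Submodule.exists_dual_map_eq_bot_of_notMem`, ...). The polynomial
`P` of `exists_conj_poly M φ` vanishes at `lin δ`, `δ ∈ D` (`lin δ * M * (lin δ)⁻¹ ∈ Z`, `det (lin δ) = 1`), so on `G` (`zd_finIdx`): contradiction. -/
theorem normalised_of_finIdx (Γ : Subgroup (V ≃ᵃ[ℝ] V)) (h : Cryst Γ) (D : Subgroup Γ) (hD : FinIdx D)
    (Z : Submodule ℝ Mat) (hZ : ∀ δ ∈ D, ∀ M ∈ Z, lin (δ : V ≃ᵃ[ℝ] V) * M * (lin (δ : V ≃ᵃ[ℝ] V))⁻¹ ∈ Z) :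
    ∀ g : Mat, InG g → ∀ M ∈ Z, g * M * g⁻¹ ∈ Z := by
  have hadj : ∀ g : Mat, InG g → g⁻¹ = g.adjugate := by
    intro g hg
    rw [Matrix.inv_def, (GX_B g hg 0 0).2.2, Ring.inverse_one, one_smul]
  intro g hg M hM
  by_contra hcon
  obtain ⟨φ, hφ1, hφ2⟩ := Submodule.exists_le_ker_of_notMem hcon
  obtain ⟨P, hP⟩ := exists_conj_poly M φ
  have h1 := zd_finIdx Γ h D hD P (by
    intro δ hδ
    rw [hP, ← hadj _ (lin_inG Γ h _ δ.2)]
    exact hφ2 (hZ δ hδ M hM)) g hg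
  rw [hP, ← hadj g hg] at h1
  exact hφ1 h1

/-- Scalar matrices in `G` are `1`.
Proof. `g = c • 1`, by `GX_B` `c ^ 2 * B u v = B u v` and `c ^ 2 • cross u v = c • cross u v` for all `u, v`; with `cross x1 x2 = y3 ≠ 0`
(or any nonzero cross product) `c ^ 2 = c`, and `c ≠ 0` since `det g = 1`; so `c = 1`. -/
theorem scalar_inG (c : ℝ) (h : InG (c • (1 : Mat))) : c = 1 := by
  obtain ⟨h1, h2, _⟩ := GX_B _ h x1 x2
  have e : ∀ u : V, (c • (1 : Mat)).mulVec u = c • u := by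
    intro u
    rw [Matrix.smul_mulVec, Matrix.one_mulVec]
  obtain ⟨h3, _, _⟩ := GX_B _ h va va
  rw [e] at h3
  rw [e, e, e, cross_x1_x2] at h2
  have h4 := congrFun h2 2
  simp [cross, x1, x2, y3, B, va] at h3 h4
  have h5 : c * c = 1 := by linarith
  nlinarith

end C37.PC
end

section

set_option autoImplicit false

open Filter Topology
open scoped ContDiff

namespace C37.PC

private theorem Z04_pos (α δ : V ≃ᵃ[ℝ] V) (N : ℕ)
    (hN : ∀ k : ℕ, 0 < k → lin α ^ N ∈ Algebra.adjoin ℝ {lin α ^ (N * k)}) (k : ℕ) (hk : 0 < k) (n : ℤ)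
    (h : (δ * α * δ⁻¹) ^ k = α ^ n) :
    ∀ Y ∈ Algebra.adjoin ℝ {lin α ^ N}, lin δ * Y * (lin δ)⁻¹ ∈ Algebra.adjoin ℝ {lin α ^ N} := by
  -- the generator
  have hgen : lin δ * lin α ^ (N * k) * (lin δ)⁻¹ ∈ Algebra.adjoin ℝ {lin α ^ N} := by
    have e1 : lin δ * lin α ^ (N * k) * (lin δ)⁻¹ = lin ((α ^ N) ^ n) := by
      rw [← (lin_inv δ).2.2, ← lin_pow, ← lin_mul, ← lin_mul]
      congr 1
      calc δ * α ^ (N * k) * δ⁻¹ = (δ * α * δ⁻¹) ^ (N * k) := by rw [conj_pow]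
        _ = ((δ * α * δ⁻¹) ^ k) ^ N := by rw [mul_comm N k, pow_mul]
        _ = (α ^ n) ^ N := by rw [h]
        _ = (α ^ N) ^ n := by rw [← zpow_natCast, ← zpow_natCast, ← zpow_mul, ← zpow_mul, mul_comm]
    rw [e1]
    have hmem : lin α ^ N ∈ Algebra.adjoin ℝ {lin α ^ N} :=
      Algebra.subset_adjoin (Set.mem_singleton _)
    rcases Int.eq_nat_or_neg n with ⟨j, hj | hj⟩
    · rw [hj, zpow_natCast, lin_pow, lin_pow]
      exact Subalgebra.pow_mem _ hmem j
    · rw [hj, zpow_neg, zpow_natCast]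
      apply subalgebra_inv_mem _ (A := lin ((α ^ N) ^ j))
      · rw [lin_pow, lin_pow]
        exact Subalgebra.pow_mem _ hmem j
      · exact (lin_inv _).1
      · exact (lin_inv _).2.1
  intro Y hY
  -- `Y` lies in the algebra generated by the higher power
  have hle : Algebra.adjoin ℝ {lin α ^ N} ≤ Algebra.adjoin ℝ {lin α ^ (N * k)} := by
    apply Algebra.adjoin_le
    intro x hx
    rw [Set.mem_singleton_iff] at hx
    subst hx
    exact hN k hk
  have hδ1 : lin δ * (lin δ)⁻¹ = 1 := by rw [← (lin_inv δ).2.2]; exact (lin_inv δ).1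
  have hδ2 : (lin δ)⁻¹ * lin δ = 1 := by rw [← (lin_inv δ).2.2]; exact (lin_inv δ).2.1
  have hY' := hle hY
  refine Algebra.adjoin_induction (p := fun Y _ => lin δ * Y * (lin δ)⁻¹ ∈ Algebra.adjoin ℝ {lin α ^ N})
    ?_ ?_ ?_ ?_ hY'
  · intro x hx
    rw [Set.mem_singleton_iff] at hx
    subst hx
    exact hgen
  · intro r
    have : lin δ * (algebraMap ℝ Mat r) * (lin δ)⁻¹ = algebraMap ℝ Mat r := by
      rw [← Algebra.commutes r (lin δ), mul_assoc, hδ1, mul_one]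
    rw [this]
    exact Subalgebra.algebraMap_mem _ r
  · intro x y _ _ hx hy
    have : lin δ * (x + y) * (lin δ)⁻¹ = lin δ * x * (lin δ)⁻¹ + lin δ * y * (lin δ)⁻¹ := by
      rw [mul_add, add_mul]
    rw [this]
    exact Subalgebra.add_mem _ hx hy
  · intro x y _ _ hx hy
    have : lin δ * (x * y) * (lin δ)⁻¹ = (lin δ * x * (lin δ)⁻¹) * (lin δ * y * (lin δ)⁻¹) := by
      calc lin δ * (x * y) * (lin δ)⁻¹ = lin δ * x * 1 * y * (lin δ)⁻¹ := by
            simp only [mul_assoc, one_mul]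
        _ = lin δ * x * ((lin δ)⁻¹ * lin δ) * y * (lin δ)⁻¹ := by rw [hδ2]
        _ = _ := by simp only [mul_assoc]
    rw [this]
    exact Subalgebra.mul_mem _ hx hy

/-- The algebra generated by a stable power is normalised by every element which maps `α` to a commensurable element.
Proof. Let `A = lin α`, `M = lin δ`, `Z = Algebra.adjoin ℝ {A ^ N}`. From `hN`: `A ^ N ∈ adjoin {A ^ (N * k)}` for all `k > 0`, so
`Z ≤ adjoin {A ^ (N * k)}`. Let `(δ α δ⁻¹) ^ m = α ^ n`, `m, n ≠ 0`; replacing `(m, n)` by `(-m, -n)` we may assume `m = k > 0`. Then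
`M * A ^ (N * k) * M⁻¹ = lin ((δ α δ⁻¹) ^ (k * N)) = lin ((α ^ n) ^ N) = (lin (α ^ N)) ^ n`, which is a power of `A ^ N ∈ Z` if `n > 0`, and a power of
the inverse of `A ^ N` if `n < 0`: in both cases it is in `Z` (`subalgebra_inv_mem`). The map `Y ↦ M * Y * M⁻¹` is an algebra homomorphism, so it maps
`adjoin {A ^ (N * k)}` into `Z` (`Algebra.adjoin_induction`), in particular `Z` into `Z`. -/
theorem normalises (α δ : V ≃ᵃ[ℝ] V) (N : ℕ) (hN0 : 0 < N)
    (hN : ∀ k : ℕ, 0 < k → lin α ^ N ∈ Algebra.adjoin ℝ {lin α ^ (N * k)}) (m n : ℤ) (hm : m ≠ 0) (hn : n ≠ 0)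
    (h : (δ * α * δ⁻¹) ^ m = α ^ n) :
    ∀ Y ∈ Algebra.adjoin ℝ {lin α ^ N}, lin δ * Y * (lin δ)⁻¹ ∈ Algebra.adjoin ℝ {lin α ^ N} := by
  rcases Int.eq_nat_or_neg m with ⟨j, hj | hj⟩
  · have hj0 : 0 < j := by
      rcases Nat.eq_zero_or_pos j with h0 | h0
      · subst h0; simp at hj; exact absurd hj hm
      · exact h0
    rw [hj, zpow_natCast] at h
    exact Z04_pos α δ N hN j hj0 n h
  · have hj0 : 0 < j := by
      rcases Nat.eq_zero_or_pos j with h0 | h0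
      · subst h0; simp at hj; exact absurd hj hm
      · exact h0
    rw [hj, zpow_neg, zpow_natCast] at h
    refine Z04_pos α δ N hN j hj0 (-n) ?_
    rw [zpow_neg, ← h, inv_inv]

/-- Section 5.4: a subgroup normalising the class of an element of infinite order has infinite index.
Proof. Let `A = lin α`, `N` from `exists_stable_power A`, `Z = Subalgebra.toSubmodule (Algebra.adjoin ℝ {A ^ N})`: closed under products and commutative
(`Algebra.adjoinCommRingOfComm`-type argument, or `Algebra.adjoin_induction₂`: elements of the algebra generated by one element commute). By `normalises` and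
`normalised_of_finIdx` it is normalised by `G`. By `GX_commAlg`, `A ^ N = c • 1`; `A ^ N = lin (α ^ N)` is in `G` (`lin_inG`), so `c = 1` (`scalar_inG`),
`lin (α ^ N) = 1`, `α ^ N = 1` (`R_injective`), `0 < N`: `α` has finite order (`isOfFinOrder_iff_pow_eq_one`), contradiction. -/
theorem not_finIdx (Γ : Subgroup (V ≃ᵃ[ℝ] V)) (h : Cryst Γ) (D : Subgroup Γ) (α : Γ) (hα : ¬ IsOfFinOrder α)
    (hD : ∀ δ ∈ D, Csr (δ * α * δ⁻¹) α) : ¬ FinIdx D := by
  intro hfin
  obtain ⟨N, hN0, hN⟩ := exists_stable_power (lin (α : V ≃ᵃ[ℝ] V))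
  set A : Mat := lin (α : V ≃ᵃ[ℝ] V) with hAdef
  have hcomm : ∀ a ∈ Algebra.adjoin ℝ {A ^ N}, ∀ b ∈ Algebra.adjoin ℝ {A ^ N}, a * b = b * a := by
    intro a ha b hb
    letI := Algebra.adjoinCommRingOfComm ℝ (s := {A ^ N}) (by
      intro x hx y hy
      rw [Set.mem_singleton_iff] at hx hy
      rw [hx, hy])
    have := mul_comm (⟨a, ha⟩ : Algebra.adjoin ℝ {A ^ N}) ⟨b, hb⟩
    exact congrArg Subtype.val this
  have hnorm : ∀ δ ∈ D, ∀ M ∈ Subalgebra.toSubmodule (Algebra.adjoin ℝ {A ^ N}),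
      lin (δ : V ≃ᵃ[ℝ] V) * M * (lin (δ : V ≃ᵃ[ℝ] V))⁻¹ ∈ Subalgebra.toSubmodule (Algebra.adjoin ℝ {A ^ N}) := by
    intro δ hδ M hM
    obtain ⟨m, n, hm, hn, e⟩ := hD δ hδ
    have e' : ((δ : V ≃ᵃ[ℝ] V) * (α : V ≃ᵃ[ℝ] V) * (δ : V ≃ᵃ[ℝ] V)⁻¹) ^ m = (α : V ≃ᵃ[ℝ] V) ^ n := by
      have := congrArg (Subtype.val : Γ → V ≃ᵃ[ℝ] V) e
      simpa using this
    exact normalises (α : V ≃ᵃ[ℝ] V) (δ : V ≃ᵃ[ℝ] V) N hN0 hN m n hm hn e' M hM
  have hG := normalised_of_finIdx Γ h D hfin _ hnorm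
  obtain ⟨c, hc⟩ := GX_commAlg (Subalgebra.toSubmodule (Algebra.adjoin ℝ {A ^ N}))
    (fun a ha b hb => ⟨Subalgebra.mul_mem _ ha hb, hcomm a ha b hb⟩) hG (A ^ N)
    (Algebra.subset_adjoin (Set.mem_singleton _))
  have h1 : lin ((α : V ≃ᵃ[ℝ] V) ^ N) = c • (1 : Mat) := by rw [lin_pow]; exact hc
  have h2 : InG (c • (1 : Mat)) := by
    rw [← h1]
    exact lin_inG Γ h _ (Subgroup.pow_mem Γ α.2 N)
  have h3 := scalar_inG c h2
  have h4 : (α : V ≃ᵃ[ℝ] V) ^ N = 1 := by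
    apply R_injective Γ h _ (Subgroup.pow_mem Γ α.2 N)
    rw [h1, h3, one_smul]
  apply hα
  rw [isOfFinOrder_iff_pow_eq_one]
  exact ⟨N, hN0, Subtype.ext (by simpa using h4)⟩

end C37.PC
end
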