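import Mathlib
import Pool.Agent.Lib.MP_c37615_al.Defs
import Pool.Agent.Lib.MP_c37615_al.D.Core
import Pool.Agent.Lib.MP_c37615_al.Mg.G033
import Pool.Agent.Lib.MP_c37615_al.Mg.G038

section

/-!
MP_c37615_al (S02984), part D-IIb (paper 6.4.4 - 6.4.6), file B_J3
-/

set_option autoImplicit false

open Filter Topology NormedSpace

namespace C37
namespace DB

theorem J3_eig_pow {n : Type} [Fintype n] [DecidableEq n] (M : Matrix n n ℂ) (μ : ℂ) (v : n → ℂ)
    (h : M.mulVec v = μ • v) (k : ℕ) : (M ^ k).mulVec v = μ ^ k • v := by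
  induction k with
  | zero => simp
  | succ k ih => rw [pow_succ, ← Matrix.mulVec_mulVec, h, Matrix.mulVec_smul, ih, smul_smul, pow_succ, mul_comm]

/-- diagonalisable complex matrices with eigenvalues of modulus one have bounded powers. -/
theorem bdd_complex {n : Type} [Fintype n] [DecidableEq n] (M M' : Matrix n n ℂ) (p : Polynomial ℂ)
    (hp : p.Separable) (h0 : Polynomial.aeval M p = 0) (hM' : M' * M = 1)
    (hev : ∀ (z : ℂ) (w : n → ℂ), w ≠ 0 → M.mulVec w = z • w → ‖z‖ = 1) :
    ∃ C : ℝ, ∀ (k : ℕ) (i j : n), ‖(M ^ k) i j‖ ≤ C ∧ ‖(M' ^ k) i j‖ ≤ C := by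
  classical
  set f : Module.End ℂ (n → ℂ) := Matrix.toLin' M with hf
  have hss : f.IsSemisimple := by
    apply Module.End.isSemisimple_of_squarefree_aeval_eq_zero hp.squarefree
    have h1 : Polynomial.aeval (Matrix.toLinAlgEquiv' M) p = Matrix.toLinAlgEquiv' (Polynomial.aeval M p) :=
      Polynomial.aeval_algHom_apply (Matrix.toLinAlgEquiv' (R := ℂ) (n := n)) M p
    rw [h0, map_zero] at h1
    exact h1
  have htop : ⨆ μ, f.eigenspace μ = ⊤ := by
    rw [← Module.End.iSup_maxGenEigenspace_eq_top f]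
    exact iSup_congr (fun μ => (hss.isFinitelySemisimple.maxGenEigenspace_eq_eigenspace μ).symm)
  have hQ : ∀ v : n → ℂ, ∃ C : ℝ, ∀ (k : ℕ) (i : n), ‖((M ^ k).mulVec v) i‖ ≤ C ∧ ‖((M' ^ k).mulVec v) i‖ ≤ C := by
    intro v
    have hv : v ∈ ⨆ μ, f.eigenspace μ := by rw [htop]; exact Submodule.mem_top
    refine Submodule.iSup_induction (fun μ => f.eigenspace μ)
      (motive := fun v => ∃ C : ℝ, ∀ (k : ℕ) (i : n), ‖((M ^ k).mulVec v) i‖ ≤ C ∧ ‖((M' ^ k).mulVec v) i‖ ≤ C) hv ?_ ?_ ?_
    · intro μ x hx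
      have hx1 : M.mulVec x = μ • x := by
        have := Module.End.mem_eigenspace_iff.mp hx
        rw [hf, Matrix.toLin'_apply] at this
        exact this
      by_cases hx0 : x = 0
      · refine ⟨0, fun k i => ?_⟩
        rw [hx0]; simp
      · have hn := hev μ x hx0 hx1
        have hμ : μ ≠ 0 := by
          intro h; rw [h] at hn; simp at hn
        have hx2 : M'.mulVec x = μ⁻¹ • x := by
          have h2 : M'.mulVec (M.mulVec x) = x := by rw [Matrix.mulVec_mulVec, hM', Matrix.one_mulVec]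
          rw [hx1, Matrix.mulVec_smul] at h2
          rw [← h2, smul_smul, inv_mul_cancel₀ hμ, one_smul, h2]
        refine ⟨‖x‖, fun k i => ?_⟩
        rw [J3_eig_pow M μ x hx1, J3_eig_pow M' μ⁻¹ x hx2, Pi.smul_apply, Pi.smul_apply, smul_eq_mul, smul_eq_mul,
          norm_mul, norm_mul, norm_pow, norm_pow, norm_inv, hn]
        simp only [one_pow, inv_one, one_mul]
        exact ⟨norm_le_pi_norm x i, norm_le_pi_norm x i⟩
    · refine ⟨0, fun k i => ?_⟩
      simp
    · rintro x y ⟨C1, h1⟩ ⟨C2, h2⟩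
      refine ⟨C1 + C2, fun k i => ?_⟩
      rw [Matrix.mulVec_add, Matrix.mulVec_add, Pi.add_apply, Pi.add_apply]
      exact ⟨(norm_add_le _ _).trans (add_le_add (h1 k i).1 (h2 k i).1),
        (norm_add_le _ _).trans (add_le_add (h1 k i).2 (h2 k i).2)⟩
  choose C hC using fun j : n => hQ (Pi.single j 1)
  refine ⟨∑ j, |C j|, fun k i j => ?_⟩
  have h1 := hC j k i
  rw [Matrix.mulVec_single_one, Matrix.mulVec_single_one] at h1
  have h2 : C j ≤ ∑ j, |C j| := (le_abs_self _).trans (Finset.single_le_sum (f := fun j => |C j|)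
    (fun j _ => abs_nonneg (C j)) (Finset.mem_univ j))
  exact ⟨h1.1.trans h2, h1.2.trans h2⟩

end DB
end C37
end

section

/-!
MP_c37615_al (S02984), part D-IIb (paper 6.4.4 - 6.4.6), file B_J4
-/

set_option autoImplicit false

open Filter Topology NormedSpace

namespace C37
namespace DB

theorem J4_map_pow {n : Type} [Fintype n] [DecidableEq n] (S : Matrix n n ℝ) (k : ℕ) (i j : n) :
    ((S.map (algebraMap ℝ ℂ)) ^ k) i j = (((S ^ k) i j : ℝ) : ℂ) := by
  have h := map_pow ((algebraMap ℝ ℂ).mapMatrix : Matrix n n ℝ →+* Matrix n n ℂ) S k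
  have h2 := congrFun (congrFun h i) j
  simpa using h2.symm

/-- real semisimple matrices with eigenvalues of modulus one have bounded integer powers. -/
theorem bddZ_of_separable {n : Type} [Fintype n] [DecidableEq n] (S : Matrix n n ℝ) (p : Polynomial ℝ)
    (hp : p.Separable) (h0 : Polynomial.aeval S p = 0) (hev : EV1 S) : BddZ S := by
  have hdet : IsUnit S.det := by
    rw [isUnit_iff_ne_zero]
    intro hd
    obtain ⟨w, hw, hw2⟩ := Matrix.exists_mulVec_eq_zero_iff.mpr hd
    have h1 := hev 0 (fun i => ((w i : ℝ) : ℂ)) (by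
      intro h
      apply hw
      funext i
      have := congrFun h i
      simpa using this) (by
      funext i
      have h2 := congrFun hw2 i
      simp only [Matrix.mulVec, dotProduct, Matrix.map_apply, Pi.zero_apply, zero_smul] at h2 ⊢
      have h3 : ((∑ j, S i j * w j : ℝ) : ℂ) = 0 := by rw [h2]; simp
      push_cast at h3
      simpa using h3)
    simp at h1
  set M := S.map (algebraMap ℝ ℂ) with hM
  set q := p.map (algebraMap ℝ ℂ) with hq
  have hqs : q.Separable := hp.map
  have haev : Polynomial.aeval M q = 0 := by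
    have h1 : Polynomial.aeval M q = (algebraMap ℝ ℂ).mapMatrix (Polynomial.aeval S p) := by
      rw [hq, Polynomial.aeval_map_algebraMap]
      have := Polynomial.aeval_algHom_apply ((Algebra.ofId ℝ ℂ).mapMatrix : Matrix n n ℝ →ₐ[ℝ] Matrix n n ℂ) S p
      exact this
    rw [h1, h0, map_zero]
  have hinv : (S⁻¹).map (algebraMap ℝ ℂ) * M = 1 := by
    have h1 := congrArg ((algebraMap ℝ ℂ).mapMatrix : Matrix n n ℝ →+* Matrix n n ℂ) (Matrix.nonsing_inv_mul S hdet)
    rw [map_mul, map_one] at h1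
    exact h1
  obtain ⟨C, hC⟩ := bdd_complex M ((S⁻¹).map (algebraMap ℝ ℂ)) q hqs haev hinv (fun z w hw hz => hev z w hw hz)
  refine ⟨hdet, C, ?_⟩
  have hpos : ∀ (k : ℕ) (i j : n), |(S ^ k) i j| ≤ C ∧ |((S⁻¹) ^ k) i j| ≤ C := by
    intro k i j
    have h1 := hC k i j
    rw [J4_map_pow, J4_map_pow, Complex.norm_real, Complex.norm_real] at h1
    exact h1
  intro k i j
  cases k with
  | ofNat m =>
    have := (hpos m i j).1
    rw [Int.ofNat_eq_natCast, zpow_natCast]
    exact this
  | negSucc m =>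
    have := (hpos (m + 1) i j).2
    rw [zpow_negSucc, ← Matrix.inv_pow']
    exact this

end DB
end C37
end

section

/-!
MP_c37615_al (S02984), part D-IIb (paper 6.4.4 - 6.4.6), file B_J5
-/

set_option autoImplicit false

open Filter Topology NormedSpace

namespace C37
namespace DB

/-- commuting nilpotent perturbations do not change the eigenvalues.
Proof: let `S w = z w`, `w ≠ 0` (complexified). `N` (complexified, nilpotent, commuting with `S`): let `k` be minimal with `N^k w = 0` (k ≥ 1) and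
`w' := N^(k-1) w ≠ 0`: `S w' = z w'`, `N w' = 0`, so `T w' = z w'` and `‖z‖ = 1` by `EV1 T`. (Use `Matrix.map` is a ring homomorphism:
`RingHom.mapMatrix`.) -/
theorem EV1_of_nilp {n : Type} [Fintype n] [DecidableEq n] (T S N : Matrix n n ℝ) (hT : EV1 T)
    (hTS : T = S + N) (hc : Commute S N) (hN : IsNilpotent N) : EV1 S := by
  classical
  intro z w hw hSw
  let φ : Matrix n n ℝ →+* Matrix n n ℂ := (algebraMap ℝ ℂ).mapMatrix
  obtain ⟨k, hk⟩ := hN
  have hk' : (φ N) ^ k = 0 := by rw [← map_pow, hk, map_zero]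
  have hc' : Commute (φ S) (φ N) := hc.map φ
  have hex : ∃ j, ((φ N) ^ j).mulVec w = 0 := ⟨k, by rw [hk', Matrix.zero_mulVec]⟩
  have hmin := Nat.find_spec hex
  have hpos : Nat.find hex ≠ 0 := by
    intro h0
    rw [h0, pow_zero, Matrix.one_mulVec] at hmin
    exact hw hmin
  obtain ⟨m, hm⟩ := Nat.exists_eq_succ_of_ne_zero hpos
  have hw' : ((φ N) ^ m).mulVec w ≠ 0 := Nat.find_min hex (by rw [hm]; exact Nat.lt_succ_self m)
  rw [hm, Nat.succ_eq_add_one, pow_succ'] at hmin
  apply hT z (((φ N) ^ m).mulVec w) hw'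
  have e1 : T.map (algebraMap ℝ ℂ) = φ S + φ N := by
    rw [← map_add, ← hTS]
    rfl
  rw [e1, Matrix.add_mulVec]
  have e2 : (φ N).mulVec (((φ N) ^ m).mulVec w) = 0 := by
    rw [Matrix.mulVec_mulVec]
    exact hmin
  have e3 : (φ S).mulVec (((φ N) ^ m).mulVec w) = z • ((φ N) ^ m).mulVec w := by
    rw [Matrix.mulVec_mulVec, (hc'.pow_right m).eq, ← Matrix.mulVec_mulVec]
    have : (φ S).mulVec w = z • w := hSw
    rw [this, Matrix.mulVec_smul]
  rw [e2, e3, add_zero]

end DB
end C37
end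

section

/-!
MP_c37615_al (S02984), part D-IIb (paper 6.4.4 - 6.4.6), file B_J6
-/

set_option autoImplicit false

open Filter Topology NormedSpace

namespace C37
namespace DB

/-- left eigenvectors of `T` are left eigenvectors of polynomials in `T`: `Algebra.adjoin_induction`. -/
theorem adjoin_row {n : Type} [Fintype n] [DecidableEq n] (T : Matrix n n ℝ) (e : n → ℝ)
    (c0 : ℝ) (h : Matrix.vecMul e T = c0 • e) (S : Matrix n n ℝ) (hS : S ∈ Algebra.adjoin ℝ {T}) :
    ∃ c : ℝ, Matrix.vecMul e S = c • e := by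
  induction hS using Algebra.adjoin_induction with
  | mem x hx =>
    rw [Set.mem_singleton_iff] at hx
    exact ⟨c0, by rw [hx]; exact h⟩
  | algebraMap r =>
    refine ⟨r, ?_⟩
    rw [Algebra.algebraMap_eq_smul_one, Matrix.vecMul_smul, Matrix.vecMul_one]
  | add x y _ _ hx hy =>
    obtain ⟨a, ha⟩ := hx
    obtain ⟨b, hb⟩ := hy
    exact ⟨a + b, by rw [Matrix.vecMul_add, ha, hb, add_smul]⟩
  | mul x y _ _ hx hy =>
    obtain ⟨a, ha⟩ := hx
    obtain ⟨b, hb⟩ := hy
    exact ⟨a * b, by rw [← Matrix.vecMul_vecMul, ha, Matrix.smul_vecMul, hb, smul_smul]⟩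

/-- a nilpotent matrix has eigenvalue 0 on every left eigenvector: `e N^k = c^k e`. -/
theorem nilp_row {n : Type} [Fintype n] [DecidableEq n] (N : Matrix n n ℝ) (e : n → ℝ) (he : e ≠ 0)
    (c : ℝ) (h : Matrix.vecMul e N = c • e) (hN : IsNilpotent N) : Matrix.vecMul e N = 0 := by
  obtain ⟨k, hk⟩ := hN
  have h1 : ∀ j : ℕ, Matrix.vecMul e (N ^ j) = c ^ j • e := by
    intro j
    induction j with
    | zero => simp
    | succ j ih => rw [pow_succ, ← Matrix.vecMul_vecMul, ih, Matrix.smul_vecMul, h, smul_smul, pow_succ]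
  have h2 := h1 k
  rw [hk, Matrix.vecMul_zero] at h2
  have h3 : c ^ k = 0 := by
    rcases smul_eq_zero.mp h2.symm with h | h
    · exact h
    · exact absurd h he
  have h4 : c = 0 := (pow_eq_zero_iff (by rintro rfl; simp at h3)).mp h3
  rw [h, h4, zero_smul]

/-- elements of `adjoin {T}` commute with everything commuting with `T` (`Algebra.adjoin_induction`). -/
theorem adjoin_commute {n : Type} [Fintype n] [DecidableEq n] (T S M : Matrix n n ℝ)
    (hS : S ∈ Algebra.adjoin ℝ {T}) (hM : Commute T M) : Commute S M := by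
  induction hS using Algebra.adjoin_induction with
  | mem x hx =>
    rw [Set.mem_singleton_iff] at hx
    rw [hx]; exact hM
  | algebraMap r => exact Algebra.commutes r M
  | add x y _ _ hx hy => exact hx.add_left hy
  | mul x y _ _ hx hy => exact hx.mul_left hy

end DB
end C37
end

section

/-!
MP_c37615_al (S02984), part D-IIb (paper 6.4.4 - 6.4.6), file B_J7
-/

set_option autoImplicit false

open Filter Topology NormedSpace

namespace C37
namespace DB

/-- multiplicative Jordan decomposition `T = S exp X` with a fixed row vector.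
Proof: `jc_matrix`: `T = S + N`, `S, N ∈ adjoin {T}`, so `S` and `N` commute (`adjoin_commute`). `EV1 S` (`EV1_of_nilp`), `BddZ S`
(`bddZ_of_separable`). `N' := S⁻¹ * N` is nilpotent (commuting product), `T = S * (1 + N')`; `exists_log`: `exp X = 1 + N'`, `X ∈ adjoin {N'}` nilpotent.
Rows: `e N = 0` (`adjoin_row`, `nilp_row`), so `e S = e T = e`, `e S⁻¹ = e`, `e N' = e S⁻¹ N = e N = 0`, `e X = c e` (`adjoin_row` for N' with
`c0 = 0`), `e X = 0` (`nilp_row`). Commutation: `M` commuting with `T` commutes with `S`, `N`, `S⁻¹`, `N'`, `X` (`adjoin_commute`). -/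
theorem jordan_row {n : Type} [Fintype n] [DecidableEq n] (T : Matrix n n ℝ) (hT : EV1 T) (e : n → ℝ)
    (he : e ≠ 0) (heT : Matrix.vecMul e T = e) :
    ∃ S X : Matrix n n ℝ, T = S * exp X ∧ IsNilpotent X ∧ BddZ S ∧ Matrix.vecMul e S = e ∧
      Matrix.vecMul e X = 0 ∧ ∀ M : Matrix n n ℝ, Commute T M → Commute S M ∧ Commute X M := by
  obtain ⟨S, N, hS, hN, hNn, hTS, p, hp, hp0⟩ := jc_matrix T
  have hTT : Commute T T := Commute.refl T
  have hST : Commute S T := adjoin_commute T S T hS hTT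
  have hNT : Commute N T := adjoin_commute T N T hN hTT
  have hSN : Commute S N := by
    have := adjoin_commute T S N hS hNT.symm
    exact this
  have hev : EV1 S := EV1_of_nilp T S N hT hTS hSN hNn
  have hb : BddZ S := bddZ_of_separable S p hp hp0 hev
  have hdet : IsUnit S.det := hb.1
  have hrow : Matrix.vecMul e T = (1:ℝ) • e := by rw [heT, one_smul]
  obtain ⟨cN, hcN⟩ := adjoin_row T e 1 hrow N hN
  have heN : Matrix.vecMul e N = 0 := nilp_row N e he cN hcN hNn
  have heS : Matrix.vecMul e S = e := by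
    have h1 : Matrix.vecMul e T = Matrix.vecMul e S + Matrix.vecMul e N := by
      rw [← Matrix.vecMul_add, ← hTS]
    rw [heT, heN, add_zero] at h1
    exact h1.symm
  have hSS : S * S⁻¹ = 1 := Matrix.mul_nonsing_inv S hdet
  have hSS' : S⁻¹ * S = 1 := Matrix.nonsing_inv_mul S hdet
  have heSi : Matrix.vecMul e S⁻¹ = e := by
    calc Matrix.vecMul e S⁻¹ = Matrix.vecMul (Matrix.vecMul e S) S⁻¹ := by rw [heS]
      _ = Matrix.vecMul e (S * S⁻¹) := by rw [Matrix.vecMul_vecMul]
      _ = e := by rw [hSS, Matrix.vecMul_one]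
  have inv_comm : ∀ M : Matrix n n ℝ, Commute S M → Commute S⁻¹ M := by
    intro M hM
    have h2 : S * M = M * S := hM
    have : S⁻¹ * M = M * S⁻¹ := by
      calc S⁻¹ * M = S⁻¹ * (M * (S * S⁻¹)) := by rw [hSS, mul_one]
        _ = S⁻¹ * (M * S) * S⁻¹ := by simp only [mul_assoc]
        _ = S⁻¹ * (S * M) * S⁻¹ := by rw [h2]
        _ = (S⁻¹ * S) * M * S⁻¹ := by simp only [mul_assoc]
        _ = M * S⁻¹ := by rw [hSS', one_mul]
    exact this
  have hSiN : Commute S⁻¹ N := inv_comm N hSN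
  have hN'nil : IsNilpotent (S⁻¹ * N) := by
    obtain ⟨k, hk⟩ := hNn
    exact ⟨k, by rw [hSiN.mul_pow, hk, mul_zero]⟩
  obtain ⟨X, hX, hXn, hexp⟩ := exists_log (S⁻¹ * N) hN'nil
  have heN' : Matrix.vecMul e (S⁻¹ * N) = (0:ℝ) • e := by
    rw [← Matrix.vecMul_vecMul, heSi, heN, zero_smul]
  obtain ⟨cX, hcX⟩ := adjoin_row (S⁻¹ * N) e 0 heN' X hX
  refine ⟨S, X, ?_, hXn, hb, heS, nilp_row X e he cX hcX hXn, ?_⟩
  · rw [hexp, mul_add, mul_one, ← mul_assoc, hSS, one_mul]
    exact hTS
  · intro M hM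
    have hSM : Commute S M := adjoin_commute T S M hS hM
    have hNM : Commute N M := adjoin_commute T N M hN hM
    have hN'M : Commute (S⁻¹ * N) M := (inv_comm M hSM).mul_left hNM
    exact ⟨hSM, adjoin_commute (S⁻¹ * N) X M hX hN'M⟩

end DB
end C37
end

section

/-!
MP_c37615_al (S02984), part D-IIb (paper 6.4.4 - 6.4.6), file B_P1
-/

set_option autoImplicit false

open Filter Topology NormedSpace

namespace C37
namespace DB

/-- simultaneous Jordan decomposition.
Proof: `jordan_row` for `hatA α` (`EV1_hatA`, `row_hat`, `eRow_ne`) gives `S, X`; for `hatA β` gives `S', X'`. `hatA α` and `hatA β` commute (`hatA_mul`).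
`Commute S X`: `hatA α` commutes with itself, so `X` commutes with `hatA α`, hence (second use of the commutation property with `M := X`) `S` commutes with `X`.
`S, X` commute with `hatA β`, hence with `S'` and `X'`. -/
theorem jpair_exists (α β : V ≃ᵃ[ℝ] V) (hcomm : α * β = β * α) (ha : EV1 (lin α)) (hb : EV1 (lin β)) :
    ∃ S X S' X' : HMat, JPair α β S X S' X' := by
  obtain ⟨S, X, e1, nX, bS, rS, rX, cM⟩ := jordan_row (hatA α) (EV1_hatA α ha) eRow eRow_ne (row_hat _ _)
  obtain ⟨S', X', e2, nX', bS', rS', rX', cM'⟩ := jordan_row (hatA β) (EV1_hatA β hb) eRow eRow_ne (row_hat _ _)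
  have hab : Commute (hatA α) (hatA β) := by
    rw [Commute, SemiconjBy, ← hatA_mul, ← hatA_mul, hcomm]
  have h1 := cM (hatA α) (Commute.refl _)
  have h2 := cM' (hatA β) (Commute.refl _)
  have h3 := cM (hatA β) hab
  have h4 := cM' S h3.1.symm
  have h5 := cM' X h3.2.symm
  refine ⟨S, X, S', X', ?_⟩
  exact { ea := e1, eb := e2, rS := rS, rS' := rS', rX := rX, rX' := rX', nX := nX, nX' := nX', bS := bS, bS' := bS',
          cSX := (cM X h1.2.symm).1, cSS' := h4.1.symm, cSX' := h4.2.symm, cXS' := h5.1.symm, cXX' := h5.2.symm,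
          cS'X' := (cM' X' h2.2.symm).1 }

end DB
end C37
end

section

/-!
MP_c37615_al (S02984), part D-IIb (paper 6.4.4 - 6.4.6), file B_P3
-/

set_option autoImplicit false

open Filter Topology NormedSpace

namespace C37
namespace DB

/-- the product formula.
Proof: `hatA (α^m * β^k) = (S exp X)^m (S' exp X')^k` (`hatA_mul`, `hatA_zpow`), `Matrix.Commute.mul_zpow`, `Matrix.exp_zsmul`, everything commutes, so
`= S^m S'^k exp ((m:ℝ) • X + (k:ℝ) • X')` (`Matrix.exp_add_of_commute`); then write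
`m X + k X' = ((m - t c) X + (k - t d) X') + t (c X + d X')` and split again. (Commute of `S` with `exp X`: `Commute.exp_right`.) -/
theorem jpair_formula (α β : V ≃ᵃ[ℝ] V) (S X S' X' : HMat) (h : JPair α β S X S' X') (m k : ℤ) (t c d : ℝ) :
    hatA (α ^ m * β ^ k) =
      (S ^ m * S' ^ k * exp (((m:ℝ) - t * c) • X + ((k:ℝ) - t * d) • X')) * exp (t • (c • X + d • X')) := by
  have hsX : ∀ a b a' b' : ℝ, Commute (a • X + b • X') (a' • X + b' • X') := by
    intro a b a' b'
    have h1 : Commute X X' := h.cXX'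
    refine Commute.add_left (Commute.add_right ?_ ?_) (Commute.add_right ?_ ?_)
    · exact ((Commute.refl X).smul_left a).smul_right a'
    · exact (h1.smul_left a).smul_right b'
    · exact (h1.symm.smul_left b).smul_right a'
    · exact ((Commute.refl X').smul_left b).smul_right b'
  have hzm : ((m:ℝ) • X : HMat) = m • X := by
    exact Int.cast_smul_eq_zsmul ℝ m X
  have hzk : ((k:ℝ) • X' : HMat) = k • X' := by
    exact Int.cast_smul_eq_zsmul ℝ k X'
  have hcXX' : Commute ((m:ℝ) • X) ((k:ℝ) • X') := (h.cXX'.smul_left _).smul_right _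
  have hSe : Commute S (exp X) := h.cSX.exp_right
  have hS'e : Commute S' (exp X') := h.cS'X'.exp_right
  have e1 : exp (((m:ℝ) - t * c) • X + ((k:ℝ) - t * d) • X') * exp (t • (c • X + d • X'))
      = exp X ^ m * exp X' ^ k := by
    have h3 : t • (c • X + d • X') = (t * c) • X + (t * d) • X' := by
      rw [smul_add, smul_smul, smul_smul]
    rw [h3, ← Matrix.exp_add_of_commute _ _ (hsX _ _ _ _)]
    have h4 : ((m:ℝ) - t * c) • X + ((k:ℝ) - t * d) • X' + ((t * c) • X + (t * d) • X')
        = (m:ℝ) • X + (k:ℝ) • X' := by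
      rw [sub_smul, sub_smul]; abel
    rw [h4, Matrix.exp_add_of_commute _ _ hcXX', hzm, hzk, Matrix.exp_zsmul, Matrix.exp_zsmul]
  have hcomm1 : Commute (exp X ^ m) (S' ^ k) := by
    have hu : Commute (exp X) S' := (Commute.exp_right h.cXS'.symm).symm
    exact Matrix.Commute.zpow_zpow hu m k
  rw [mul_assoc, e1, hatA_mul, hatA_zpow, hatA_zpow, h.ea, h.eb,
    Matrix.Commute.mul_zpow hSe m, Matrix.Commute.mul_zpow hS'e k]
  calc S ^ m * exp X ^ m * (S' ^ k * exp X' ^ k) = S ^ m * (exp X ^ m * S' ^ k) * exp X' ^ k := by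
        simp only [mul_assoc]
    _ = S ^ m * (S' ^ k * exp X ^ m) * exp X' ^ k := by rw [hcomm1.eq]
    _ = S ^ m * S' ^ k * (exp X ^ m * exp X' ^ k) := by simp only [mul_assoc]

end DB
end C37
end
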