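import Mathlib
import Pool.Agent.Lib.MP_c37615_al.Defs
import Pool.Agent.Lib.MP_c37615_al.D.Core
import Pool.Agent.Lib.MP_c37615_al.Mg.G033
import Pool.Agent.Lib.MP_c37615_al.Mg.G038
import Pool.Agent.Lib.MP_c37615_al.Mg.G040

section

/-!
MP_c37615_al (S02984), part D-IIb (paper 6.4.4 - 6.4.6), file B_P4
-/

set_option autoImplicit false

open Filter Topology NormedSpace

namespace C37
namespace DB

set_option backward.isDefEq.respectTransparency false in
private theorem P4_cont {n : Type} [Fintype n] [DecidableEq n] :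
    Continuous (exp : Matrix n n ℝ → Matrix n n ℝ) :=
  open scoped Matrix.Norms.Operator in NormedSpace.exp_continuous

/-- Proof: `exp` is continuous (`NormedSpace.exp_continuous` for a local normed algebra structure on matrices, e.g.
`open scoped Norms.Operator` / `attribute [local instance] Matrix.linftyOpNormedRing Matrix.linftyOpNormedAlgebra`; or use
that the argument is a combination of two commuting nilpotent matrices, so `exp` is a polynomial in the two coefficients), `exp 0 = 1`, and multiplication is continuous. -/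
theorem tendsto_bracket (A : ℕ → HMat) (X X' : HMat) (r r' : ℕ → ℝ) (hA : Tendsto A atTop (𝓝 1))
    (hr : Tendsto r atTop (𝓝 0)) (hr' : Tendsto r' atTop (𝓝 0)) :
    Tendsto (fun j => A j * exp (r j • X + r' j • X')) atTop (𝓝 1) := by
  have h1 : Tendsto (fun j => r j • X + r' j • X') atTop (𝓝 ((0:ℝ) • X + (0:ℝ) • X')) :=
    (hr.smul_const X).add (hr'.smul_const X')
  have h2 : Tendsto (fun j => exp (r j • X + r' j • X')) atTop (𝓝 (exp ((0:ℝ) • X + (0:ℝ) • X'))) :=
    (P4_cont.tendsto _).comp h1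
  have h3 : exp ((0:ℝ) • X + (0:ℝ) • X') = (1 : HMat) := by
    rw [zero_smul, zero_smul, add_zero, NormedSpace.exp_zero]
  rw [h3] at h2
  have h4 := hA.mul h2
  rw [mul_one] at h4
  exact h4

end DB
end C37
end

section

/-!
MP_c37615_al (S02984), part D-IIb (paper 6.4.4 - 6.4.6), file B_R1
-/

set_option autoImplicit false

open Filter Topology NormedSpace

namespace C37
namespace DB

/-- a sequence in a compact set: differences along a subsequence.
Proof: the matrices `(S ^ m) * (S' ^ k)` have entries bounded by `C := (card n) * C1 * C2`, so they lie in the compact set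
`Set.pi univ (fun i => Set.pi univ (fun j => Set.Icc (-C) C))` of matrices (= functions). -/
theorem compact_matrices {n : Type} [Fintype n] (C : ℝ) :
    IsCompact {M : Matrix n n ℝ | ∀ i j, |M i j| ≤ C} := by
  have h : {M : Matrix n n ℝ | ∀ i j, |M i j| ≤ C} =
      Set.pi Set.univ (fun _ : n => Set.pi Set.univ (fun _ : n => Set.Icc (-C) C)) := by
    ext M
    constructor
    · intro hM i _ j _
      exact abs_le.mp (hM i j)
    · intro hM i j
      exact abs_le.mpr (hM i (Set.mem_univ i) j (Set.mem_univ j))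
  rw [h]
  exact isCompact_univ_pi fun _ => isCompact_univ_pi fun _ => isCompact_Icc

theorem bddZ_mul_bound {n : Type} [Fintype n] [DecidableEq n] (S S' : Matrix n n ℝ) (hS : BddZ S) (hS' : BddZ S') :
    ∃ C : ℝ, ∀ (m k : ℤ) (i j : n), |(S ^ m * S' ^ k) i j| ≤ C := by
  obtain ⟨-, C1, h1⟩ := hS
  obtain ⟨-, C2, h2⟩ := hS'
  refine ⟨∑ _l : n, C1 * C2, ?_⟩
  intro m k i j
  rw [Matrix.mul_apply]
  refine (Finset.abs_sum_le_sum_abs _ _).trans (Finset.sum_le_sum fun l _ => ?_)
  rw [abs_mul]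
  exact mul_le_mul (h1 m i l) (h2 k l j) (abs_nonneg _) ((abs_nonneg _).trans (h1 m i l))

end DB
end C37
end

section

/-!
MP_c37615_al (S02984), part D-IIb (paper 6.4.4 - 6.4.6), file B_R2
-/

set_option autoImplicit false

open Filter Topology NormedSpace

namespace C37
namespace DB

/-- RECURRENCE.
Proof. For `j : ℕ` let `m0 j := round (j * c)`, `k0 j := round (j * d)`, `A j := S^(m0 j) * S'^(k0 j)`,
`A' j := S^(-(m0 j)) * S'^(-(k0 j))` (inverse of `A j` since `S`, `S'` commute), `r j := (m0 j : ℝ) - j c`, `r' j := (k0 j : ℝ) - j d` (absolute value ≤ 1/2).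
The quadruple `(A j, A' j, r j, r' j)` lies in a compact set (`bddZ_mul_bound`, `compact_matrices`, `Icc`), so
along a strictly increasing `φ : ℕ → ℕ` it converges to `(A, A', r, r')` (`IsCompact.tendsto_subseq`), `A * A' = 1` (limit of `A j * A' j = 1`).
Put `m j := m0 (φ (2 j)) - m0 (φ j)`, `k j := k0 (φ (2 j)) - k0 (φ j)`, `t j := φ (2 j) - φ j ≥ j` (strictly increasing functions satisfy
`φ (a + b) ≥ φ a + b`), so `t → ∞`. `m j - t j c = r (φ (2j)) - r (φ j) → r - r = 0`; same for `k`.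
`S^(m j) * S'^(k j) = A (φ (2j)) * A' (φ j) → A * A' = 1`. (`2 j → ∞`, compose tendsto.) -/
theorem recurrence {n : Type} [Fintype n] [DecidableEq n] (S S' : Matrix n n ℝ) (hS : BddZ S) (hS' : BddZ S')
    (hc : Commute S S') (c d : ℝ) :
    ∃ (m k : ℕ → ℤ) (t : ℕ → ℝ), Tendsto t atTop atTop ∧
      Tendsto (fun j => (m j : ℝ) - t j * c) atTop (𝓝 0) ∧
      Tendsto (fun j => (k j : ℝ) - t j * d) atTop (𝓝 0) ∧
      Tendsto (fun j => S ^ (m j) * S' ^ (k j)) atTop (𝓝 1) := by
  have hSu := hS.1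
  have hSu' := hS'.1
  obtain ⟨C, hC⟩ := bddZ_mul_bound S S' hS hS'
  set m0 : ℕ → ℤ := fun j => round ((j : ℝ) * c) with hm0
  set k0 : ℕ → ℤ := fun j => round ((j : ℝ) * d) with hk0
  set A : ℕ → Matrix n n ℝ := fun j => S ^ (m0 j) * S' ^ (k0 j) with hA
  set A' : ℕ → Matrix n n ℝ := fun j => S ^ (-(m0 j)) * S' ^ (-(k0 j)) with hA'
  set r : ℕ → ℝ := fun j => (m0 j : ℝ) - (j : ℝ) * c with hr
  set r' : ℕ → ℝ := fun j => (k0 j : ℝ) - (j : ℝ) * d with hr'
  have hzz : ∀ a b : ℤ, S ^ a * S' ^ b = S' ^ b * S ^ a := fun a b => Matrix.Commute.zpow_zpow hc a b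
  have hinv1 : ∀ a : ℤ, S ^ a * S ^ (-a) = 1 := by
    intro a
    rw [← Matrix.zpow_add hSu, add_neg_cancel, zpow_zero]
  have hinv2 : ∀ a : ℤ, S' ^ a * S' ^ (-a) = 1 := by
    intro a
    rw [← Matrix.zpow_add hSu', add_neg_cancel, zpow_zero]
  have hAA : ∀ j, A j * A' j = 1 := by
    intro j
    simp only [hA, hA']
    calc S ^ (m0 j) * S' ^ (k0 j) * (S ^ (-(m0 j)) * S' ^ (-(k0 j)))
        = S ^ (m0 j) * (S' ^ (k0 j) * S ^ (-(m0 j))) * S' ^ (-(k0 j)) := by simp only [mul_assoc]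
      _ = S ^ (m0 j) * (S ^ (-(m0 j)) * S' ^ (k0 j)) * S' ^ (-(k0 j)) := by rw [hzz]
      _ = (S ^ (m0 j) * S ^ (-(m0 j))) * (S' ^ (k0 j) * S' ^ (-(k0 j))) := by simp only [mul_assoc]
      _ = 1 := by rw [hinv1, hinv2, one_mul]
  have hcomp : IsCompact (({M : Matrix n n ℝ | ∀ i j, |M i j| ≤ C} ×ˢ {M : Matrix n n ℝ | ∀ i j, |M i j| ≤ C}) ×ˢ
      (Set.Icc (-(1/2) : ℝ) (1/2) ×ˢ Set.Icc (-(1/2) : ℝ) (1/2))) :=
    ((compact_matrices C).prod (compact_matrices C)).prod (isCompact_Icc.prod isCompact_Icc)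
  have hround : ∀ x : ℝ, (round x : ℝ) - x ∈ Set.Icc (-(1/2) : ℝ) (1/2) := by
    intro x
    have := abs_le.1 (abs_sub_round x)
    constructor <;> linarith [this.1, this.2]
  have hfc : FirstCountableTopology (Matrix n n ℝ) := inferInstanceAs (FirstCountableTopology (n → n → ℝ))
  obtain ⟨⟨⟨A0, A0'⟩, r0, r0'⟩, -, φ, hφ, hlim⟩ := hcomp.tendsto_subseq
    (x := fun j => ((A j, A' j), (r j, r' j)))
    (fun j => ⟨⟨hC _ _, hC _ _⟩, hround _, hround _⟩)
  have hlA : Tendsto (fun j => A (φ j)) atTop (𝓝 A0) :=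
    ((continuous_fst.comp continuous_fst).tendsto _).comp hlim
  have hlA' : Tendsto (fun j => A' (φ j)) atTop (𝓝 A0') :=
    ((continuous_snd.comp continuous_fst).tendsto _).comp hlim
  have hlr : Tendsto (fun j => r (φ j)) atTop (𝓝 r0) :=
    ((continuous_fst.comp continuous_snd).tendsto _).comp hlim
  have hlr' : Tendsto (fun j => r' (φ j)) atTop (𝓝 r0') :=
    ((continuous_snd.comp continuous_snd).tendsto _).comp hlim
  have hone : A0 * A0' = 1 := by
    have h1 := hlA.mul hlA'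
    simp_rw [hAA] at h1
    exact (tendsto_nhds_unique h1 tendsto_const_nhds)
  have h2j : Tendsto (fun j : ℕ => 2 * j) atTop atTop :=
    tendsto_atTop_mono (fun j => (show j ≤ 2 * j by omega)) tendsto_id
  have hge : ∀ j : ℕ, φ j + j ≤ φ (2 * j) := by
    intro j
    have := hφ.add_le_nat j j
    rw [two_mul]
    omega
  refine ⟨fun j => m0 (φ (2 * j)) - m0 (φ j), fun j => k0 (φ (2 * j)) - k0 (φ j),
    fun j => (φ (2 * j) : ℝ) - (φ j : ℝ), ?_, ?_, ?_, ?_⟩
  · refine tendsto_atTop_mono (fun j => ?_) tendsto_natCast_atTop_atTop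
    have := hge j
    have h3 : ((φ j : ℝ) + (j : ℝ)) ≤ (φ (2 * j) : ℝ) := by exact_mod_cast this
    linarith
  · have h3 := (hlr.comp h2j).sub hlr
    rw [sub_self] at h3
    refine h3.congr (fun j => ?_)
    simp only [Function.comp, hr]
    push_cast
    ring
  · have h3 := (hlr'.comp h2j).sub hlr'
    rw [sub_self] at h3
    refine h3.congr (fun j => ?_)
    simp only [Function.comp, hr']
    push_cast
    ring
  · have h3 := (hlA.comp h2j).mul hlA'
    rw [hone] at h3
    refine h3.congr (fun j => ?_)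
    simp only [Function.comp, hA, hA']
    rw [sub_eq_add_neg, sub_eq_add_neg, Matrix.zpow_add hSu, Matrix.zpow_add hSu']
    calc S ^ (m0 (φ (2 * j))) * S' ^ (k0 (φ (2 * j))) * (S ^ (-(m0 (φ j))) * S' ^ (-(k0 (φ j))))
        = S ^ (m0 (φ (2 * j))) * (S' ^ (k0 (φ (2 * j))) * S ^ (-(m0 (φ j)))) * S' ^ (-(k0 (φ j))) := by
          simp only [mul_assoc]
      _ = S ^ (m0 (φ (2 * j))) * (S ^ (-(m0 (φ j))) * S' ^ (k0 (φ (2 * j)))) * S' ^ (-(k0 (φ j))) := by rw [hzz]
      _ = S ^ (m0 (φ (2 * j))) * S ^ (-(m0 (φ j))) * (S' ^ (k0 (φ (2 * j))) * S' ^ (-(k0 (φ j)))) := by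
          simp only [mul_assoc]

end DB
end C37
end

section

/-!
MP_c37615_al (S02984), part D-IIb (paper 6.4.4 - 6.4.6), file B_P9
-/

set_option autoImplicit false

open Filter Topology NormedSpace

namespace C37
namespace DB

private theorem jn_expZ_mul (Z : Mat) (h3 : Z * Z * Z = 0) (s : ℝ) : expZ Z s * expZ Z (-s) = 1 := by
  have h4 : Z * Z * (Z * Z) = 0 := by
    rw [← mul_assoc, h3, Matrix.zero_mul]
  have h5 : Z * (Z * Z) = 0 := by rw [← mul_assoc, h3]
  unfold expZ
  simp only [add_mul, mul_add, one_mul, mul_one, smul_mul_assoc, mul_smul_comm, h3, h4, h5, smul_zero, add_zero]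
  module

private theorem jn_unit (Z : Mat) (h3 : Z * Z * Z = 0) (s : ℝ) : IsUnit (expZ Z s) := by
  have h1 := jn_expZ_mul Z h3 s
  have h2 := jn_expZ_mul Z h3 (-s)
  rw [neg_neg] at h2
  exact ⟨⟨expZ Z s, expZ Z (-s), h1, h2⟩, rfl⟩

/-- sequences near the affine one-parameter group of `(Z, a)`.
Proof: `recurrence` gives `m, k, s := t`. `γ j := α^(m j) * β^(k j) ∈ Γ`. `E j` := the affine equivalence with `lin = expZ Z (s j)`, `tv = trZ Z a (s j)`
(`exists_aff`; `expZ Z s` is a unit with inverse `expZ Z (-s)` as `Z³=0`), so `hatA (E j) = exp (s j • hat0 Z a)` (`exp_hat0`). `b j := γ j * (E j)⁻¹`.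
`hatA (b j) = A_j := S^m S'^k exp(..)` of `jpair_formula` (cancel the invertible factor `exp (s • (c•X+d•X'))`), which tends to 1 (`tendsto_bracket`), so `lin (b j) = lb (hatA (b j)) → 1` and
`tv (b j) = tb (hatA (b j)) → 0`. `left`: `γ j v = b j (E j v)`, `E j v = expZ.. v + trZ..` (`hatA_apply`). `right`: `γ j` and `E j` commute because their matrices commute (all of `S, S', X, X'` commute with
`c•X+d•X'`; `hatA_inj`), so `γ j = E j * b j`. -/
theorem jpair_near (Γ : Subgroup (V ≃ᵃ[ℝ] V)) (α β : V ≃ᵃ[ℝ] V) (hα : α ∈ Γ) (hβ : β ∈ Γ)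
    (S X S' X' : HMat) (h : JPair α β S X S' X') (c d : ℝ) (Z : Mat) (a : V) (hZ : c • X + d • X' = hat0 Z a)
    (h3 : Z * Z * Z = 0) : ∃ (γ b : ℕ → V ≃ᵃ[ℝ] V) (s : ℕ → ℝ), NearOne Γ Z a γ b s := by
  obtain ⟨m, k, t, ht, hm, hk, hA⟩ := recurrence S S' h.bS h.bS' h.cSS' c d
  choose E hE1 hE2 using fun j => exists_aff (expZ Z (t j)) (jn_unit Z h3 (t j)) (trZ Z a (t j))
  have hEhat : ∀ j, hatA (E j) = exp (t j • hat0 Z a) := fun j => by
    rw [exp_hat0 Z a h3, hatA, hE1, hE2]
  obtain ⟨γ, hγ⟩ : ∃ γ : ℕ → V ≃ᵃ[ℝ] V, ∀ j, γ j = α ^ m j * β ^ k j := ⟨fun j => α ^ m j * β ^ k j, fun _ => rfl⟩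
  obtain ⟨b, hb⟩ : ∃ b : ℕ → V ≃ᵃ[ℝ] V, ∀ j, b j = γ j * (E j)⁻¹ := ⟨fun j => γ j * (E j)⁻¹, fun _ => rfl⟩
  have hbE : ∀ j, γ j = b j * E j := fun j => by rw [hb]; group
  have hbhat : ∀ j, hatA (b j) = S ^ (m j) * S' ^ (k j) * exp (((m j : ℝ) - t j * c) • X + ((k j : ℝ) - t j * d) • X') := by
    intro j
    have h1 := jpair_formula α β S X S' X' h (m j) (k j) (t j) c d
    rw [← hγ, hbE, hatA_mul, hZ, ← hEhat] at h1
    have hU := hatA_isUnit (E j)
    have h2 := congrArg (fun M => M * (hatA (E j))⁻¹) h1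
    simp only [mul_assoc, Matrix.mul_nonsing_inv _ hU, mul_one] at h2
    rw [h2, mul_assoc]
  have hlim : Tendsto (fun j => hatA (b j)) atTop (𝓝 1) := by
    have := tendsto_bracket (fun j => S ^ (m j) * S' ^ (k j)) X X' (fun j => (m j : ℝ) - t j * c)
      (fun j => (k j : ℝ) - t j * d) hA hm hk
    refine this.congr fun j => ?_
    rw [hbhat]
  have hcomm : ∀ j, Commute (γ j) (E j) := by
    intro j
    refine hatA_inj _ _ ?_
    rw [hatA_mul, hatA_mul, hEhat, ← hZ, hγ, hatA_mul, hatA_zpow, hatA_zpow, h.ea, h.eb]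
    have c1 : Commute S (t j • (c • X + d • X')) :=
      ((h.cSX.smul_right c).add_right (h.cSX'.smul_right d)).smul_right (t j)
    have c2 : Commute X (t j • (c • X + d • X')) :=
      (((Commute.refl X).smul_right c).add_right (h.cXX'.smul_right d)).smul_right (t j)
    have c3 : Commute S' (t j • (c • X + d • X')) :=
      ((h.cXS'.symm.smul_right c).add_right (h.cS'X'.smul_right d)).smul_right (t j)
    have c4 : Commute X' (t j • (c • X + d • X')) :=
      ((h.cXX'.symm.smul_right c).add_right ((Commute.refl X').smul_right d)).smul_right (t j)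
    have d1 : Commute (S * exp X) (exp (t j • (c • X + d • X'))) :=
      (c1.exp_right).mul_left (c2.exp)
    have d2 : Commute (S' * exp X') (exp (t j • (c • X + d • X'))) :=
      (c3.exp_right).mul_left (c4.exp)
    have d3 : Commute ((S * exp X) ^ m j) (exp (t j • (c • X + d • X'))) := by
      exact Matrix.Commute.zpow_left d1 (m j)
    have d4 : Commute ((S' * exp X') ^ k j) (exp (t j • (c • X + d • X'))) := by
      exact Matrix.Commute.zpow_left d2 (k j)
    exact (d3.mul_left d4).eq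
  refine ⟨γ, b, t, ?_, ?_, ?_, ?_, ?_, ht⟩
  · intro j
    rw [hγ]
    exact Γ.mul_mem (Γ.zpow_mem hα _) (Γ.zpow_mem hβ _)
  · intro j v
    have : γ j v = b j (E j v) := by
      conv_lhs => rw [hbE j]
      rfl
    rw [this, hatA_apply (E j) v, hE1, hE2]
  · intro j v
    have h1 : γ j = E j * b j := by
      have h2 := (hcomm j).eq
      have h3 : b j * E j * E j = E j * b j * E j := by
        rw [mul_assoc (E j), ← hbE j]
        exact h2
      have h4 := mul_right_cancel h3
      rw [hbE j]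
      exact h4
    have : γ j v = E j (b j v) := by
      conv_lhs => rw [h1]
      rfl
    rw [this, hatA_apply (E j) (b j v), hE1, hE2]
  · have h1 : ∀ j, lin (b j) = lb (hatA (b j)) := fun j => (lb_hat _ _).symm
    have h2 : Continuous (lb : HMat → Mat) := by
      unfold lb Matrix.toBlocks₁₁
      exact continuous_matrix fun i j => by
        simp only [Matrix.of_apply]
        fun_prop
    have h3 : lb (1 : HMat) = 1 := by rw [← hat_one, lb_hat]
    have h4 := (h2.tendsto (1 : HMat)).comp hlim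
    rw [h3] at h4
    refine h4.congr fun j => ?_
    simp only [Function.comp_apply]
    rw [h1]
  · have h1 : ∀ j, tv (b j) = tb (hatA (b j)) := fun j => (tb_hat _ _).symm
    have h2 : Continuous (tb : HMat → V) := by
      unfold tb
      fun_prop
    have h3 : tb (1 : HMat) = 0 := by rw [← hat_one, tb_hat]
    have h4 := (h2.tendsto (1 : HMat)).comp hlim
    rw [h3] at h4
    refine h4.congr fun j => ?_
    simp only [Function.comp_apply]
    rw [h1]

end DB
end C37
end
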