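import Mathlib
import Pool.Agent.Lib.MP_c37615_al.Defs
import Pool.Agent.Lib.MP_c37615_al.Defs2
import Pool.Agent.Lib.MP_c37615_al.Mg.G017
import Pool.Agent.Lib.MP_c37615_al.D.Core
import Pool.Agent.Lib.MP_c37615_al.D.T01
import Pool.Agent.Lib.MP_c37615_al.Mg.G025
import Pool.Agent.Lib.MP_c37615_al.D.T03
import Pool.Agent.Lib.MP_c37615_al.Mg.G027
import Pool.Agent.Lib.MP_c37615_al.Mg.G022
import Pool.Agent.Lib.MP_c37615_al.Mg.G026
import Pool.Agent.Lib.MP_c37615_al.Mg.G023
import Pool.Agent.Lib.MP_c37615_al.Mg.G033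
import Pool.Agent.Lib.MP_c37615_al.Mg.G036
import Pool.Agent.Lib.MP_c37615_al.Mg.G035
import Pool.Agent.Lib.MP_c37615_al.Mg.G037
import Pool.Agent.Lib.MP_c37615_al.Mg.G034
import Pool.Agent.Lib.MP_c37615_al.Mg.G005
import Pool.Agent.Lib.MP_c37615_al.Mg.G038
import Pool.Agent.Lib.MP_c37615_al.D2.B_K7
import Pool.Agent.Lib.MP_c37615_al.Mg.G039
import Pool.Agent.Lib.MP_c37615_al.Mg.G040
import Pool.Agent.Lib.MP_c37615_al.Mg.G041

section

/-!
MP_c37615_al D TASK T23: consequences of the sign lemma for short root directions.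

`short_sign`: (Z,p) short data, NearOne sequence, B p a ≠ 0.  Choose h ∈ Γ with B (lin h p) p ≠ 0 (`zd_B`).  By `nearOne_pos` and `short_tendsto`: for large j the element h γ_j ∈ Γ satisfies
 B (Ev) (Ev) < 0 (limit -4 (B hp p)^2 < 0 after division by s^4), |trace| -> ∞ so trace ≠ -1: Hyp; and Fs (h γ_j) = FF .. has the sign of (4/3) B p a (B hp p)^2, i.e. of B p a.
 So there is a Hyp element of Γ whose Fs has the sign of B p a.
`short_nonzero`: B p a = 0 and some h0-functional M = Lmat a * (Z*Z) + Lmat (Z a) * Z ≠ 0: choose h ∈ Γ with B (lin h p) p ≠ 0 and trace (lin h * M) ≠ 0 (`zd_trace` for the list [rk1 p p, M]);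
 `nearOne_pos` with `short2_tendsto` (s_j -> +∞) and `nearOne_neg` (parameter -s_j, |−s_j| -> ∞): FF / s^5 has the same nonzero limit, but s^5 has opposite signs: two Hyp elements of Γ with opposite
 signs of Fs: contradiction to `sign_lemma`.
-/

set_option autoImplicit false

open Filter Topology

namespace C37

private theorem T23_hyp (M : ℕ → Mat) (s : ℕ → ℝ) (c : ℝ) (hc : c ≠ 0)
    (hs : Tendsto (fun j => |s j|) atTop atTop)
    (h1 : Tendsto (fun j => B (Ev (M j)) (Ev (M j)) / (s j) ^ 4) atTop (𝓝 (-4 * c ^ 2)))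
    (h2 : Tendsto (fun j => (M j).trace / (s j) ^ 2) atTop (𝓝 (2 * c))) :
    ∀ᶠ j in atTop, Hyp (M j) := by
  have hneg : (-4 : ℝ) * c ^ 2 < 0 := by
    have := pow_pos (abs_pos.mpr hc) 2
    rw [sq_abs] at this
    linarith
  have e1 := h1.eventually_lt_const hneg
  have e2 : ∀ᶠ j in atTop, |c| < |(M j).trace / (s j) ^ 2| := by
    have h3 : Tendsto (fun j => |(M j).trace / (s j) ^ 2|) atTop (𝓝 |2 * c|) := h2.abs
    apply h3.eventually_const_lt
    rw [abs_mul]
    have := abs_pos.mpr hc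
    norm_num
    linarith
  have e3 : ∀ᶠ j in atTop, 1 / |c| + 1 < |s j| := hs.eventually_gt_atTop _
  filter_upwards [e1, e2, e3] with j g1 g2 g3
  have hc' := abs_pos.mpr hc
  have hs1 : 1 < |s j| := by
    have : 0 < 1 / |c| := by positivity
    linarith
  have hs0 : s j ≠ 0 := by
    intro h0
    rw [h0, abs_zero] at hs1
    linarith
  have hs2 : 0 < (s j) ^ 2 := by positivity
  have hs4 : 0 < (s j) ^ 4 := by positivity
  constructor
  · by_contra hcon
    rw [not_lt] at hcon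
    have := div_nonneg hcon hs4.le
    linarith
  · intro ht
    rw [ht, abs_div, abs_neg, abs_one, abs_of_pos hs2] at g2
    rw [lt_div_iff₀ hs2] at g2
    have h5 : |c| * |s j| ≤ |c| * (s j) ^ 2 := by
      apply mul_le_mul_of_nonneg_left _ hc'.le
      rw [← sq_abs]
      nlinarith
    have h6 : 1 < |c| * |s j| := by
      have : |c| * (1 / |c| + 1) < |c| * |s j| := mul_lt_mul_of_pos_left g3 hc'
      have h7 : |c| * (1 / |c| + 1) = 1 + |c| := by field_simp
      linarith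
    linarith

theorem short_sign (Γ : Subgroup (V ≃ᵃ[ℝ] V)) (hΓ : Cryst Γ) (Z : Mat) (p : V) (hZ : ShortData Z p) (a : V) (hpa : B p a ≠ 0)
    (γ b : ℕ → V ≃ᵃ[ℝ] V) (s : ℕ → ℝ) (hn : NearOne Γ Z a γ b s) :
    ∃ δ ∈ Γ, Hyp (lin δ) ∧ 0 < B p a * Fs δ := by
  obtain ⟨h, hh, hB⟩ := zd_B Γ hΓ p p hZ.pne hZ.pne
  have hZ3 : Z * Z * Z = 0 := by
    rw [hZ.sq, smul_mul_assoc, rk1_mul_anti _ _ _ hZ.anti, hZ.kill]
    ext i j
    simp [rk1]
  obtain ⟨hj, uj, hG, hjt, ujt, hlin, htv⟩ := nearOne_pos Γ hΓ Z hZ3 hZ.exp a γ b s hn h hh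
  have hs : Tendsto (fun j => |s j|) atTop atTop := tendsto_abs_atTop_atTop.comp hn.sinf
  obtain ⟨t1, t2, t3⟩ := short_tendsto Z p hZ (lin h) a (tv h) hj uj s hG hjt ujt hs
  have hH := T23_hyp (fun j => hj j * expZ Z (s j)) s _ hB hs t2 t3
  have hF : ∀ᶠ j in atTop, 0 < B p a * (FF (hj j * expZ Z (s j)) ((hj j).mulVec (trZ Z a (s j)) + uj j) / (s j) ^ 6) := by
    have t4 := t1.const_mul (B p a)
    apply t4.eventually_const_lt
    have h1 : 0 < (B p a) ^ 2 := by positivity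
    have h2 : 0 < (B ((lin h).mulVec p) p) ^ 2 := by positivity
    have h3 : B p a * (4 / 3 * B p a * B ((lin h).mulVec p) p ^ 2) = 4 / 3 * ((B p a) ^ 2 * (B ((lin h).mulVec p) p) ^ 2) := by ring
    rw [h3]
    positivity
  have hs1 := hs.eventually_gt_atTop 0
  obtain ⟨j, g1, g2, g3⟩ := (hH.and (hF.and hs1)).exists
  have hs0 : s j ≠ 0 := by
    intro h0
    rw [h0, abs_zero] at g3
    exact lt_irrefl _ g3
  refine ⟨h * γ j, Γ.mul_mem hh (hn.mem j), ?_, ?_⟩
  · rw [hlin]; exact g1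
  · unfold Fs
    rw [hlin, htv]
    have h6 : 0 < (s j) ^ 6 := by positivity
    rw [← mul_div_assoc] at g2
    by_contra hcon
    rw [not_lt] at hcon
    have := div_nonpos_of_nonpos_of_nonneg hcon h6.le
    linarith

theorem short_nonzero (Γ : Subgroup (V ≃ᵃ[ℝ] V)) (hΓ : Cryst Γ) (Z : Mat) (p : V) (hZ : ShortData Z p) (a : V) (hpa : B p a = 0)
    (hM : Lmat a * (Z * Z) + Lmat (Z.mulVec a) * Z ≠ 0)
    (γ b : ℕ → V ≃ᵃ[ℝ] V) (s : ℕ → ℝ) (hn : NearOne Γ Z a γ b s) : False := by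
  have hrk : rk1 p p ≠ 0 := by
    intro h0
    rcases rk1_eq_zero _ _ h0 with h1 | h1 <;> exact hZ.pne h1
  obtain ⟨h, hh, hL⟩ := zd_trace Γ hΓ [rk1 p p, Lmat a * (Z * Z) + Lmat (Z.mulVec a) * Z] (by
    intro M hMm
    simp only [List.mem_cons, List.not_mem_nil, or_false] at hMm
    rcases hMm with rfl | rfl
    · exact hrk
    · exact hM)
  have hB : B ((lin h).mulVec p) p ≠ 0 := by
    have h1 := hL (rk1 p p) (by simp)
    rw [mul_rk1, trace_rk1, B_comm] at h1
    exact h1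
  have hT := hL (Lmat a * (Z * Z) + Lmat (Z.mulVec a) * Z) (by simp)
  have hZ3 : Z * Z * Z = 0 := by
    rw [hZ.sq, smul_mul_assoc, rk1_mul_anti _ _ _ hZ.anti, hZ.kill]
    ext i j
    simp [rk1]
  have hs : Tendsto (fun j => |s j|) atTop atTop := tendsto_abs_atTop_atTop.comp hn.sinf
  have hs' : Tendsto (fun j => |-(s j)|) atTop atTop := by simpa [abs_neg] using hs
  obtain ⟨hj, uj, hG, hjt, ujt, hlin, htv⟩ := nearOne_pos Γ hΓ Z hZ3 hZ.exp a γ b s hn h hh
  obtain ⟨hj', uj', hG', hjt', ujt', hlin', htv'⟩ := nearOne_neg Γ hΓ Z hZ3 hZ.exp a γ b s hn h hh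
  obtain ⟨_, t2, t3⟩ := short_tendsto Z p hZ (lin h) a (tv h) hj uj s hG hjt ujt hs
  obtain ⟨_, t2', t3'⟩ := short_tendsto Z p hZ (lin h) a (tv h) hj' uj' (fun j => -(s j)) hG' hjt' ujt' hs'
  have t1 := short2_tendsto Z p hZ (lin h) a (tv h) hpa hj uj s hG hjt ujt hs
  have t1' := short2_tendsto Z p hZ (lin h) a (tv h) hpa hj' uj' (fun j => -(s j)) hG' hjt' ujt' hs'
  have hH := T23_hyp (fun j => hj j * expZ Z (s j)) s _ hB hs t2 t3
  have hH' := T23_hyp (fun j => hj' j * expZ Z (-(s j))) (fun j => -(s j)) _ hB hs' t2' t3'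
  have hprod := t1.mul t1'
  have hc : 0 < B ((lin h).mulVec p) p * (lin h * (Lmat a * (Z * Z) + Lmat (Z.mulVec a) * Z)).trace *
      (B ((lin h).mulVec p) p * (lin h * (Lmat a * (Z * Z) + Lmat (Z.mulVec a) * Z)).trace) :=
    mul_self_pos.mpr (mul_ne_zero hB hT)
  have hpos := hprod.eventually_const_lt hc
  have hs1 := hn.sinf.eventually_gt_atTop 0
  obtain ⟨j, g1, g2, g3, g4⟩ := (hH.and (hH'.and (hpos.and hs1))).exists
  have hsl := sign_lemma Γ hΓ (h * γ j) (h * (γ j)⁻¹) (Γ.mul_mem hh (hn.mem j))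
    (Γ.mul_mem hh (Γ.inv_mem (hn.mem j))) (by rw [hlin]; exact g1) (by rw [hlin']; exact g2)
  unfold Fs at hsl
  rw [hlin, htv, hlin', htv'] at hsl
  have h10 : 0 < (s j) ^ 10 := by positivity
  have e : FF (hj j * expZ Z (s j)) ((hj j).mulVec (trZ Z a (s j)) + uj j) / (s j) ^ 5 *
      (FF (hj' j * expZ Z (-(s j))) ((hj' j).mulVec (trZ Z a (-(s j))) + uj' j) / (-(s j)) ^ 5)
      = -(FF (hj j * expZ Z (s j)) ((hj j).mulVec (trZ Z a (s j)) + uj j) *
      FF (hj' j * expZ Z (-(s j))) ((hj' j).mulVec (trZ Z a (-(s j))) + uj' j)) / (s j) ^ 10 := by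
    have hs0 : s j ≠ 0 := g4.ne'
    rw [div_mul_div_comm]
    have : (s j) ^ 5 * (-(s j)) ^ 5 = -((s j) ^ 10) := by ring
    rw [this, div_neg, neg_div]
  rw [e] at g3
  have := div_neg_of_neg_of_pos (neg_lt_zero.mpr hsl) h10
  linarith

/-- ShortData implies Z^3 = 0 and Z ≠ 0 -/
theorem short_cube (Z : Mat) (p : V) (hZ : ShortData Z p) : Z * Z * Z = 0 ∧ Z ≠ 0 := by
  constructor
  · rw [hZ.sq, smul_mul_assoc, rk1_mul_anti _ _ _ hZ.anti, hZ.kill]
    ext i j
    simp [rk1]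
  · intro h0
    have h1 := hZ.sq
    rw [h0, mul_zero] at h1
    have h2 : rk1 p p = 0 := by
      have h3 := congrArg (fun M : Mat => (1/4 : ℝ) • M) h1
      simp only [smul_zero, smul_smul] at h3
      norm_num at h3
      exact h3.symm
    rcases rk1_eq_zero _ _ h2 with h4 | h4 <;> exact hZ.pne h4

end C37
end

section

/-!
MP_c37615_al D TASK T24: exclusion of span(S, 2 L12 + L23)  (theorem `D_d1_proof`, exported as D_d1).

If B x1 aS ≠ 0: `short_sign` for (rSp1, x1) gives δ ∈ Γ Hyp with Fs δ of the sign of B x1 aS; for (Z', y3 - x1) with a = aN + aS, B (y3-x1) a = -3 B x1 aS ≠ 0 (`cocycle_rel`): δ' ∈ Γ Hyp with Fs δ' of the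
 opposite sign.  Contradiction to `sign_lemma`.
If B x1 aS = 0: if M = Lmat aS * S² + Lmat (S aS) * S ≠ 0: `short_nonzero`; otherwise aS = S w (`MS_zero`) and `nearOne_fixed` gives a contradiction.
-/

set_option autoImplicit false

namespace C37

theorem D_d1_proof (Γ : Subgroup (V ≃ᵃ[ℝ] V)) (h : Cryst Γ) (aS aN : V)
    (hco : ((2:ℝ) • rL12 + rL23).mulVec aS = rSp1.mulVec aN)
    (γ b : ℕ → V ≃ᵃ[ℝ] V) (s : ℕ → ℝ) (hn : NearOne Γ rSp1 aS γ b s)
    (γ' b' : ℕ → V ≃ᵃ[ℝ] V) (s' : ℕ → ℝ)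
    (hn' : NearOne Γ ((2:ℝ) • rL12 + rL23 + rSp1) (aN + aS) γ' b' s') : False := by
  by_cases h0 : B x1 aS = 0
  · by_cases hM : Lmat aS * (rSp1 * rSp1) + Lmat (rSp1.mulVec aS) * rSp1 = 0
    · obtain ⟨w, hw⟩ := MS_zero aS h0 hM
      obtain ⟨hc1, hc2⟩ := short_cube rSp1 x1 shortData_S
      rw [hw] at hn
      exact nearOne_fixed Γ h rSp1 hc1 hc2 w γ b s hn
    · exact short_nonzero Γ h rSp1 x1 shortData_S aS h0 hM γ b s hn
  · obtain ⟨δ, hδ, hyp, hpos⟩ := short_sign Γ h rSp1 x1 shortData_S aS h0 γ b s hn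
    have hrel := cocycle_rel aS aN hco
    have h1 : B (y3 - x1) (aN + aS) ≠ 0 := by
      rw [hrel]
      exact mul_ne_zero (by norm_num) h0
    obtain ⟨δ', hδ', hyp', hpos'⟩ := short_sign Γ h _ (y3 - x1) shortData_Z' (aN + aS) h1 γ' b' s' hn'
    have hs := sign_lemma Γ h δ δ' hδ hδ' hyp hyp'
    rw [hrel] at hpos'
    have h2 : 0 < (B x1 aS * Fs δ) * (-3 * B x1 aS * Fs δ') := mul_pos hpos hpos'
    have h3 : (B x1 aS * Fs δ) * (-3 * B x1 aS * Fs δ') = -3 * (B x1 aS) ^ 2 * (Fs δ * Fs δ') := by ring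
    rw [h3] at h2
    have h4 : 0 ≤ (B x1 aS) ^ 2 * (Fs δ * Fs δ') := mul_nonneg (sq_nonneg _) hs.le
    linarith

end C37
end

section

/-!
MP_c37615_al D TASK T13: a loxodromic element is proximal: ρ^{-n} g^n → (1/B r p) rk1 p r.

`ker_repr`: cross p v = 0.  α = B v r / B p r, v' = v - α p; cross p v' = 0, B v' r = 0, B v' p = 0.  s = -(1/(2 B p r)) cross r v'.  `cross_cross_polar p r v'` gives
 cross p (cross r v') = -2 (B p r) v', so cross p s = v'; cross r s is a multiple of cross r (cross r v') = (B r v') r - (B r r) v' = 0.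
`hyp_top`: w = v1 + t e + v2 (`null_decomp`), v1 = α p + cross p s.  g^n v1 = α ρ^n p + cross (g^n p) (g^n s) = ρ^n (α p + cross p (g^n s)), g^n s -> 0 (bound, cross r s = 0), g^n e = e, g^n v2 -> 0.
 So ρ^{-n} g^n w -> α p, and B r w = B r v1 = α B r p (B r (cross p s) = 0 as B (cross p s) r = B s' ... : B r v1' = 0 by construction; B r e = 0; B r v2 = 0 by `perp_of_cross_zero`).
-/

set_option autoImplicit false

open Filter Topology

namespace C37

private theorem T13_cross_zero (p : V) : cross p 0 = 0 := by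
  have := cross_smul_right 0 p 0
  simpa using this

private theorem T13_cross_neg_right (p v : V) : cross p (-v) = -cross p v := by
  have := cross_smul_right (-1) p v
  simpa using this

private theorem T13_cross_sub_right (p u v : V) : cross p (u - v) = cross p u - cross p v := by
  rw [sub_eq_add_neg, cross_add_right, T13_cross_neg_right, sub_eq_add_neg]

private theorem T13_B_zero_left (v : V) : B 0 v = 0 := by
  have := B_smul_left 0 0 v
  simpa using this

private theorem T13_B_zero_right (v : V) : B v 0 = 0 := by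
  have := B_smul_right 0 v 0
  simpa using this

private theorem T13_B_neg_left (u v : V) : B (-u) v = -B u v := by
  have := B_smul_left (-1) u v
  simpa using this

private theorem T13_B_sub_left (u u' v : V) : B (u - u') v = B u v - B u' v := by
  rw [sub_eq_add_neg, B_add_left, T13_B_neg_left, sub_eq_add_neg]

theorem ker_repr (p r v : V) (hp : B p p = 0) (hr : B r r = 0) (hc : B p r ≠ 0) (h : cross p v = 0) :
    ∃ s : V, v = (B v r / B p r) • p + cross p s ∧ cross r s = 0 := by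
  have hp0 : p ≠ 0 := by rintro rfl; exact hc (T13_B_zero_left r)
  set v' : V := v - (B v r / B p r) • p with hv'
  have h1 : cross p v' = 0 := by
    rw [hv', T13_cross_sub_right, cross_smul_right, cross_self, h, smul_zero, sub_zero]
  have h2 : B p v' = 0 := (perp_of_cross_zero p v' hp hp0 h1).1
  have h3 : B r v' = 0 := by
    rw [B_comm, hv', T13_B_sub_left, B_smul_left]
    field_simp
    ring
  have h4 := cross_cross_polar p r v'
  rw [h1, h2, h3, T13_cross_zero, zero_smul, zero_smul, add_zero, add_zero, add_zero] at h4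
  refine ⟨(-(1 / (2 * B p r))) • cross r v', ?_, ?_⟩
  · rw [cross_smul_right, h4, smul_smul]
    have : -(1 / (2 * B p r)) * (-2 * B p r) = 1 := by field_simp
    rw [this, one_smul, hv']
    abel
  · rw [cross_smul_right, cross_cross_self, hr, h3]
    simp

private theorem T13_pow_vec (g : Mat) (p : V) (ρ : ℝ) (h : g.mulVec p = ρ • p) (n : ℕ) : (g ^ n).mulVec p = ρ ^ n • p := by
  induction n with
  | zero => simp
  | succ n ih => rw [pow_succ, ← Matrix.mulVec_mulVec, h, Matrix.mulVec_smul, ih, smul_smul, pow_succ, mul_comm]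

private theorem T13_pow_InG (g : Mat) (hg : InG g) (n : ℕ) : InG (g ^ n) := by
  induction n with
  | zero => rw [pow_zero]; exact InG_one
  | succ n ih => rw [pow_succ]; exact InG_mul _ _ ih hg

private theorem T13_tendsto_zero (g : Mat) (C θ : ℝ) (h0 : 0 ≤ θ) (h1 : θ < 1) (w : V)
    (h : ∀ n : ℕ, ‖(g ^ n).mulVec w‖ ≤ C * θ ^ n * ‖w‖) : Tendsto (fun n : ℕ => (g ^ n).mulVec w) atTop (𝓝 0) := by
  have h2 : Tendsto (fun n : ℕ => C * θ ^ n * ‖w‖) atTop (𝓝 (C * 0 * ‖w‖)) :=
    ((tendsto_pow_atTop_nhds_zero_of_lt_one h0 h1).const_mul C).mul_const _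
  rw [mul_zero, zero_mul] at h2
  exact squeeze_zero_norm h h2

theorem hyp_top (g : Mat) (hg : InG g) (p r : V) (ρ : ℝ) (h : HypData g p r ρ) :
    Tendsto (fun n : ℕ => (ρ ^ n)⁻¹ • g ^ n) atTop (𝓝 ((1 / B r p) • rk1 p r)) := by
  have hρ : ρ ≠ 0 := by
    intro h0; have := h.rho; rw [h0] at this; norm_num at this
  have hr0 : r ≠ 0 := by rintro rfl; exact h.pr (T13_B_zero_right p)
  obtain ⟨C, θ, hC, hθ0, hθ1, hb1, hb2⟩ := h.bound
  have hinv : Tendsto (fun n : ℕ => (ρ ^ n)⁻¹) atTop (𝓝 0) := by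
    have h3 : Tendsto (fun n : ℕ => (ρ⁻¹) ^ n) atTop (𝓝 0) := by
      apply tendsto_pow_atTop_nhds_zero_of_abs_lt_one
      rw [abs_inv]
      exact inv_lt_one_of_one_lt₀ h.rho
    refine h3.congr (fun n => ?_)
    rw [inv_pow]
  have key : ∀ w : V, Tendsto (fun n : ℕ => (ρ ^ n)⁻¹ • (g ^ n).mulVec w) atTop (𝓝 ((1 / B r p) • (B r w • p))) := by
    intro w
    obtain ⟨v1, t, v2, hv1, hv2, hw⟩ := null_decomp p r h.pnull h.rnull h.pr w
    obtain ⟨s, hs1, hs2⟩ := ker_repr p r v1 h.pnull h.rnull h.pr hv1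
    have he := T13_pow_vec g ((1 / B p r) • cross p r) 1 (by
      have h1 := (GX_B g hg p r).2.1
      rw [h.gp, h.gr, cross_smul_left, cross_smul_right, smul_smul, mul_inv_cancel₀ hρ, one_smul] at h1
      rw [Matrix.mulVec_smul, ← h1, one_smul])
    have t1 := T13_tendsto_zero g C θ hθ0 hθ1 v2 (fun n => hb2 n v2 hv2)
    have t2 := T13_tendsto_zero g C θ hθ0 hθ1 s (fun n => hb2 n s hs2)
    have t3 : Tendsto (fun n : ℕ => cross p ((g ^ n).mulVec s)) atTop (𝓝 0) := by
      have hc : Continuous (fun x : V => (Lmat p).mulVec x) := Continuous.matrix_mulVec continuous_const continuous_id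
      have h5 := (hc.tendsto 0).comp t2
      simp only [Matrix.mulVec_zero] at h5
      refine h5.congr (fun n => ?_)
      simp only [Function.comp_apply]
      rw [Lmat_mulVec]
    have hval : ∀ n : ℕ, (ρ ^ n)⁻¹ • (g ^ n).mulVec w = (B v1 r / B p r) • p + cross p ((g ^ n).mulVec s) +
        ((ρ ^ n)⁻¹ * t) • ((1 / B p r) • cross p r) + (ρ ^ n)⁻¹ • (g ^ n).mulVec v2 := by
      intro n
      have hρn : ρ ^ n ≠ 0 := pow_ne_zero n hρ
      have h6 : (g ^ n).mulVec v1 = ρ ^ n • ((B v1 r / B p r) • p + cross p ((g ^ n).mulVec s)) := by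
        have h7 := (GX_B (g ^ n) (T13_pow_InG g hg n) p s).2.1
        rw [T13_pow_vec g p ρ h.gp n, cross_smul_left] at h7
        conv_lhs => rw [hs1]
        rw [Matrix.mulVec_add, Matrix.mulVec_smul, T13_pow_vec g p ρ h.gp n, ← h7]
        module
      rw [hw, Matrix.mulVec_add, Matrix.mulVec_add, Matrix.mulVec_smul, he n, one_pow, one_smul, h6, smul_add, smul_add, smul_smul, inv_mul_cancel₀ hρn, one_smul, smul_smul]
    have hlim : (1 / B r p) • (B r w • p) = (B v1 r / B p r) • p + 0 + ((0:ℝ) * t) • ((1 / B p r) • cross p r) + (0:ℝ) • (0 : V) := by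
      have h8 : B r w = B v1 r := by
        rw [hw, B_add_right, B_add_right, B_smul_right, B_smul_right, B_ker_cross' p r r (cross_self r), (perp_of_cross_zero r v2 h.rnull hr0 hv2).1, B_comm r v1]
        ring
      rw [h8, B_comm r p, smul_smul, zero_mul, zero_smul, zero_smul, add_zero, add_zero, add_zero]
      congr 1
      ring
    rw [hlim]
    refine Tendsto.congr (fun n => (hval n).symm) ?_
    exact ((tendsto_const_nhds.add t3).add ((hinv.mul_const t).smul_const _)).add (hinv.smul t1)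
  refine tendsto_pi_nhds.mpr (fun i => tendsto_pi_nhds.mpr (fun j => ?_))
  have h9 := (tendsto_pi_nhds.mp (key (Pi.single j 1))) i
  have h10 : ((1 / B r p) • rk1 p r) i j = ((1 / B r p) • (B r (Pi.single j 1) • p)) i := by
    rw [← rk1_mulVec, Matrix.mulVec_single_one]
    rfl
  rw [h10]
  refine h9.congr (fun n => ?_)
  rw [Matrix.mulVec_single_one]
  rfl

end C37
end

section

/-!
MP_c37615_al (S02984), part D-IIa: task T05 (unipotent type: common normal form)
-/

set_option autoImplicit false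

open Filter Topology Polynomial

namespace C37

theorem T05_ext (A B : M2) (h00 : A 0 0 = B 0 0) (h01 : A 0 1 = B 0 1) (h10 : A 1 0 = B 1 0)
    (h11 : A 1 1 = B 1 1) : A = B := by
  ext i j
  fin_cases i <;> fin_cases j <;> assumption

theorem T05_mul (A B : M2) (i j : Fin 2) : (A * B) i j = A i 0 * B 0 j + A i 1 * B 1 j := by
  rw [Matrix.mul_apply, Fin.sum_univ_two]

/-- entries of a nilpotent matrix -/
theorem T05_nil (N : M2) (hN : N ≠ 0) (hN2 : N * N = 0) :
    N 1 1 = - N 0 0 ∧ N 0 0 * N 0 0 = - (N 0 1 * N 1 0) ∧ (N 0 1 ≠ 0 ∨ N 1 0 ≠ 0) := by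
  have e00 := congrFun (congrFun hN2 0) 0
  have e01 := congrFun (congrFun hN2 0) 1
  have e10 := congrFun (congrFun hN2 1) 0
  have e11 := congrFun (congrFun hN2 1) 1
  rw [T05_mul, Matrix.zero_apply] at e00 e01 e10 e11
  have hne : N 0 1 ≠ 0 ∨ N 1 0 ≠ 0 := by
    by_contra h
    push Not at h
    obtain ⟨h1, h2⟩ := h
    rw [h1, h2] at e00 e11
    apply hN
    apply T05_ext
    · simpa using e00
    · simpa using h1
    · simpa using h2
    · simpa using e11
  refine ⟨?_, by linarith, hne⟩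
  rcases hne with h | h
  · have : N 0 1 * (N 0 0 + N 1 1) = 0 := by linarith
    rcases mul_eq_zero.1 this with h' | h'
    · exact absurd h' h
    · linarith
  · have : N 1 0 * (N 0 0 + N 1 1) = 0 := by linarith
    rcases mul_eq_zero.1 this with h' | h'
    · exact absurd h' h
    · linarith

/-- T05a. matrices commuting with a nonzero nilpotent N (2x2) are x 1 + y N. (N has rank one: choose v with N v ≠ 0, basis v, N v; or entries.) -/
theorem d2_commutant_nil (N U : M2) (hN : N ≠ 0) (hN2 : N * N = 0) (hc : N * U = U * N) :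
    ∃ x y : ℝ, U = x • (1 : M2) + y • N := by
  obtain ⟨h1, h2, h3⟩ := T05_nil N hN hN2
  have e00 := congrFun (congrFun hc 0) 0
  have e01 := congrFun (congrFun hc 0) 1
  have e10 := congrFun (congrFun hc 1) 0
  have e11 := congrFun (congrFun hc 1) 1
  rw [T05_mul, T05_mul] at e00 e01 e10 e11
  rw [h1] at e01 e10 e11
  rcases h3 with h | h
  · refine ⟨U 0 0 - U 0 1 / N 0 1 * N 0 0, U 0 1 / N 0 1, ?_⟩
    apply T05_ext
    · simp
    · simp
      field_simp
    · simp
      field_simp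
      linarith
    · simp
      field_simp
      rw [h1]
      linarith
  · refine ⟨U 0 0 - U 1 0 / N 1 0 * N 0 0, U 1 0 / N 1 0, ?_⟩
    apply T05_ext
    · simp
    · simp
      field_simp
      linarith
    · simp
      field_simp
    · simp
      field_simp
      rw [h1]
      linarith

/-- T05b. N ≠ 0, N^2 = 0: choose v with N v ≠ 0 and Q = matrix with columns v, N v: N Q = Q E with E = !![0,0;1,0]. -/
theorem d2_nil_form (N : M2) (hN : N ≠ 0) (hN2 : N * N = 0) : ∃ Q : M2, Q.det ≠ 0 ∧ N * Q = Q * !![0, 0; 1, 0] := by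
  obtain ⟨h1, h2, h3⟩ := T05_nil N hN hN2
  rcases h3 with h | h
  · -- v = e_1 (second basis vector), N v = (N 0 1, N 1 1)
    refine ⟨!![0, N 0 1; 1, N 1 1], ?_, ?_⟩
    · rw [Matrix.det_fin_two]
      simpa using h
    · apply T05_ext
      · simp [T05_mul]
      · simp [T05_mul, h1]
        ring
      · simp [T05_mul]
      · simp [T05_mul, h1]
        linarith
  · refine ⟨!![1, N 0 0; 0, N 1 0], ?_, ?_⟩
    · rw [Matrix.det_fin_two]
      simpa using h
    · apply T05_ext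
      · simp [T05_mul]
      · simp [T05_mul]
        linarith
      · simp [T05_mul]
      · simp [T05_mul, h1]
        ring

/-- T05c. T = c(1+N), U commutes with T so with N: U = x + y N, x ≠ 0 (det U = x^2). T^2 = c^2 (1 + 2N), U^2 = x^2 (1 + (2 y / x) N).
r1 = log (c^2), s1 = 2, r2 = log (x^2), s2 = 2 y / x. -/
theorem d2_unip_conj (T U : M2) (hU : U.det ≠ 0) (hc : T * U = U * T) (hT : UnipType T) :
    ∃ (Q : M2) (r1 s1 r2 s2 : ℝ), Q.det ≠ 0 ∧ T * T * Q = Q * D2m r1 s1 ∧ U * U * Q = Q * D2m r2 s2 := by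
  obtain ⟨c, N, hc0, hN, hN2, hT⟩ := hT
  have hcN : N * U = U * N := by
    rw [hT, Matrix.smul_mul, Matrix.mul_smul, add_mul, mul_add, one_mul, mul_one] at hc
    have h1 := smul_right_injective M2 hc0 hc
    simpa using h1
  obtain ⟨x, y, hU'⟩ := d2_commutant_nil N U hN hN2 hcN
  obtain ⟨Q, hQ, hNQ⟩ := d2_nil_form N hN hN2
  obtain ⟨h1, h2, h3⟩ := T05_nil N hN hN2
  have hx : x ≠ 0 := by
    intro h
    apply hU
    rw [hU', h, zero_smul, zero_add, Matrix.det_smul, Matrix.det_fin_two, h1]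
    have : N 0 0 * -N 0 0 - N 0 1 * N 1 0 = 0 := by linarith
    rw [this, mul_zero]
  have hTT : T * T = (c ^ 2) • (1 : M2) + (2 * c ^ 2) • N := by
    have : T * T = (c ^ 2) • (1 + N + (N + N * N)) := by
      rw [hT, Matrix.smul_mul, Matrix.mul_smul, smul_smul]
      simp only [pow_two, one_mul, mul_one, add_mul, mul_add]
    rw [this, hN2]
    apply T05_ext <;> simp <;> ring
  have hUU : U * U = (x ^ 2) • (1 : M2) + (2 * x * y) • N := by
    have : U * U = (x ^ 2) • (1 : M2) + (2 * x * y) • N + (y ^ 2) • (N * N) := by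
      rw [hU']
      apply T05_ext <;> simp [T05_mul] <;> ring
    rw [this, hN2, smul_zero, add_zero]
  have hD : ∀ r s : ℝ, D2m r s = (Real.exp r) • (1 : M2) + (Real.exp r * s) • !![0, 0; 1, 0] := by
    intro r s
    unfold D2m
    apply T05_ext <;> simp
  refine ⟨Q, Real.log (c ^ 2), 2, Real.log (x ^ 2), 2 * y / x, hQ, ?_, ?_⟩
  · rw [hTT, hD, Real.exp_log (by positivity), add_mul, mul_add, Matrix.smul_mul, Matrix.smul_mul,
      Matrix.mul_smul, Matrix.mul_smul, one_mul, mul_one, hNQ, mul_comm (c ^ 2) 2]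
  · rw [hUU, hD, Real.exp_log (by positivity), add_mul, mul_add, Matrix.smul_mul, Matrix.smul_mul,
      Matrix.mul_smul, Matrix.mul_smul, one_mul, mul_one, hNQ]
    have : x ^ 2 * (2 * y / x) = 2 * x * y := by field_simp
    rw [this]

end C37
end

section

/-!
MP_c37615_al (S02984), part D-IIb (paper 6.4.4 - 6.4.6), file B_F6
-/

set_option autoImplicit false

open Filter Topology NormedSpace

namespace C37
namespace DB

/-- all commuting independent pairs in the nilradical: if `a ≠ 0` use `good_a`; if `a2 ≠ 0` swap (`good_span` with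
`(0,1,1,0)`, `ind_span`, symmetric commutation) and `good_a`; else `good_heis`. -/
theorem good_nn (b a c d e f b2 a2 c2 d2 e2 f2 : ℝ)
    (hc : nn b a c d e f * nn b2 a2 c2 d2 e2 f2 = nn b2 a2 c2 d2 e2 f2 * nn b a c d e f)
    (hi : Ind2 (nn b a c d e f) (nn b2 a2 c2 d2 e2 f2)) :
    Good (nn b a c d e f) (nn b2 a2 c2 d2 e2 f2) := by
  by_cases ha : a = 0
  · by_cases ha2 : a2 = 0
    · subst ha
      subst ha2
      exact good_heis b c d e f b2 c2 d2 e2 f2 hc hi
    · have h1 : Good (nn b2 a2 c2 d2 e2 f2) (nn b a c d e f) := by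
        refine good_a b2 a2 c2 d2 e2 f2 b a c d e f ha2 hc.symm ?_
        intro x y hxy
        have h2 := hi y x (by rw [add_comm]; exact hxy)
        exact ⟨h2.2, h2.1⟩
      refine good_span (nn b a c d e f) (nn b2 a2 c2 d2 e2 f2) 0 1 1 0 ?_
      simpa using h1
  · exact good_a b a c d e f b2 a2 c2 d2 e2 f2 ha hc hi

end DB
end C37
end

section

/-!
MP_c37615_al (S02984), part D-IIb (paper 6.4.4 - 6.4.6), file B_K9
-/

set_option autoImplicit false

open Filter Topology NormedSpace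

namespace C37
namespace DB

/-- CLASSIFICATION (paper 6.4.5).
Proof: `X ≠ 0` by `Ind2` (x=1,y=0). `null_kernel`, `exists_flag`, `exists_frame`: `g` with `X' := g⁻¹ X g`, `Y' := g⁻¹ Y g` preserving the standard flag;
`der_conj`, `der_nn`: `X' = nn ..`, `Y' = nn ..`. With `h := g⁻¹` (in G): `h * X = X' * h` (since `X' * g⁻¹ = g⁻¹ X g g⁻¹`),
`h * Y = Y' * h`; `comm_conj`, `ind_conj`, `good_nn`, `good_conj`. -/
theorem classification (X Y : Mat) (hX : IsNilpotent X) (hY : IsNilpotent Y) (hXY : X * Y = Y * X)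
    (dX : Der X) (dY : Der Y) (hi : Ind2 X Y) : Good X Y := by
  have hX0 : X ≠ 0 := by
    intro h0
    have h1 := hi 1 0 (by rw [h0]; simp)
    exact one_ne_zero h1.1
  obtain ⟨p, hp0, hp, hXp, hYp⟩ := null_kernel X Y hX hY hXY dX hX0
  obtain ⟨p', hc, hne, hX', hY'⟩ := exists_flag X Y hX hY hXY dX dY p hp0 hp hXp hYp
  obtain ⟨g, hg, e1, e2, e3, e4⟩ := exists_frame X Y p p' hp0 hp hc hne hXp hYp hX' hY'
  obtain ⟨b, a, c, d, e, f, hXn⟩ := der_nn _ (der_conj X g hg dX) e1 e2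
  obtain ⟨b2, a2, c2, d2, e2', f2, hYn⟩ := der_nn _ (der_conj Y g hg dY) e3 e4
  obtain ⟨hgi, h1, h2⟩ := inG_inv g hg
  have hXc : g⁻¹ * X = (g⁻¹ * X * g) * g⁻¹ := by
    rw [Matrix.mul_assoc (g⁻¹ * X), h1, Matrix.mul_one]
  have hYc : g⁻¹ * Y = (g⁻¹ * Y * g) * g⁻¹ := by
    rw [Matrix.mul_assoc (g⁻¹ * Y), h1, Matrix.mul_one]
  have hcomm := comm_conj X Y _ _ g⁻¹ hgi hXc hYc hXY
  have hind := ind_conj X Y _ _ g⁻¹ hgi hXc hYc hi
  refine good_conj X Y _ _ g⁻¹ hgi hXc hYc ?_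
  rw [hXn, hYn] at hcomm hind ⊢
  exact good_nn _ _ _ _ _ _ _ _ _ _ _ _ hcomm hind

end DB
end C37
end

section

/-!
MP_c37615_al (S02984), part D-IIb (paper 6.4.4 - 6.4.6), file B_P5
-/

set_option autoImplicit false

open Filter Topology NormedSpace

namespace C37
namespace DB

private theorem ji_compact : IsCompact {M : Mat | ∀ i j, |M i j| ≤ 2} := by
  have h : {M : Mat | ∀ i j, |M i j| ≤ 2} =
      Set.pi Set.univ (fun _ : Fin 7 => Set.pi Set.univ (fun _ : Fin 7 => Set.Icc (-2 : ℝ) 2)) := by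
    ext M
    constructor
    · intro hM i _ j _
      exact abs_le.mp (hM i j)
    · intro hM i j
      exact abs_le.mpr (hM i (Set.mem_univ _) j (Set.mem_univ _))
  rw [h]
  exact isCompact_univ_pi fun _ => isCompact_univ_pi fun _ => isCompact_Icc

private theorem ji_event (M : ℕ → Mat) (hM : Tendsto M atTop (𝓝 1)) :
    ∀ᶠ j in atTop, M j ∈ {M : Mat | ∀ i j, |M i j| ≤ 2} := by
  have h1 : ∀ i l : Fin 7, ∀ᶠ j in atTop, |M j i l| ≤ 2 := by
    intro i l
    have hc : Continuous (fun N : Mat => |N i l|) := by fun_prop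
    have h2 := (hc.tendsto 1).comp hM
    have h3 : |(1 : Mat) i l| < 2 := by
      by_cases h : i = l
      · subst h; simp
      · rw [Matrix.one_apply_ne h]; simp
    have h4 := h2.eventually (gt_mem_nhds h3)
    exact h4.mono fun j hj => le_of_lt hj
  have h2 := eventually_all.mpr fun i => eventually_all.mpr (h1 i)
  exact h2.mono fun j hj i l => hj i l

private theorem ji_inv (M : ℕ → Mat) (hM : Tendsto M atTop (𝓝 1)) :
    Tendsto (fun j => (M j)⁻¹) atTop (𝓝 1) := by
  have hd : Tendsto (fun j => (M j).det) atTop (𝓝 1) := by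
    have hc : Continuous (fun N : Mat => N.det) := Continuous.matrix_det continuous_id
    have h2 := (hc.tendsto 1).comp hM
    rw [Matrix.det_one] at h2
    exact h2
  have ha : Tendsto (fun j => (M j).adjugate) atTop (𝓝 1) := by
    have hc : Continuous (fun N : Mat => N.adjugate) := Continuous.matrix_adjugate continuous_id
    have h2 := (hc.tendsto 1).comp hM
    rw [Matrix.adjugate_one] at h2
    exact h2
  have h3 := (hd.inv₀ one_ne_zero).smul ha
  rw [inv_one, one_smul] at h3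
  refine h3.congr fun j => ?_
  rw [Matrix.inv_def, Ring.inverse_eq_inv']

private theorem ji_zero (m : ℕ → ℤ) (t : ℕ → ℝ) (c : ℝ) (ht : Tendsto t atTop atTop)
    (hm : Tendsto (fun j => (m j : ℝ) - t j * c) atTop (𝓝 0)) (h0 : ∀ᶠ j in atTop, m j = 0) : c = 0 := by
  by_contra hc
  have h1 : Tendsto (fun j => t j * c) atTop (𝓝 0) := by
    have h2 := hm.neg
    rw [neg_zero] at h2
    refine h2.congr' ?_
    filter_upwards [h0] with j hj
    rw [hj]; simp
  have h2 : Tendsto t atTop (𝓝 (0 * c⁻¹)) := by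
    refine (h1.mul_const c⁻¹).congr fun j => ?_
    rw [mul_assoc, mul_inv_cancel₀ hc, mul_one]
  exact not_tendsto_nhds_of_tendsto_atTop ht _ h2

/-- the linear parts of `X`, `X'` are linearly independent.
Proof: suppose `c • lb X + d • lb X' = 0`, `(c,d) ≠ (0,0)`. `recurrence` for `S, S'` gives `m, k, t`. By `jpair_formula`
`hatA (α^m β^k) = A_j * exp (t_j • (c•X + d•X'))`, `A_j → 1` (`tendsto_bracket`). `c•X + d•X'` has last row 0 and linear part 0, so it is `hat0 0 a`
(`eq_hat0`), and `lb (exp (t • hat0 0 a)) = 1` with last row `e` (`exp_hat0` with Z = 0 or `lb_exp_hat0`, `row_exp_hat0`), so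
`lin (α^m β^k) = lb (hatA ..) = lb A_j * 1 → 1` (`lb_mul`). Let `K := {M | ∀ i j, |M i j| ≤ 2}` (compact). For large `j` `lin γ_j` and its inverse lie in
`K` (inverse of matrices tending to 1 tends to 1), so by `R_discrete` `γ_j` takes finitely many values for large `j`; a value taken infinitely often has `lin γ = 1`, hence (R_injective) `γ = 1`;
all other values have `lin γ ≠ 1` and occur only finitely often (limit 1), so `γ_j = 1` for all large `j`, so `m j = k j = 0` for large `j` (`hind`). But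
`m j - t j c → 0`, `k j - t j d → 0`, `t j → ∞`, so `t j c → 0` and `t j d → 0`: contradiction if `c ≠ 0` or `d ≠ 0`. -/
theorem jpair_ind (Γ : Subgroup (V ≃ᵃ[ℝ] V)) (hΓ : Cryst Γ) (α β : V ≃ᵃ[ℝ] V) (hα : α ∈ Γ) (hβ : β ∈ Γ)
    (hind : ∀ m n : ℤ, α ^ m * β ^ n = 1 → m = 0 ∧ n = 0) (S X S' X' : HMat) (h : JPair α β S X S' X') :
    Ind2 (lb X) (lb X') := by
  intro c d hcd
  obtain ⟨m, k, t, ht, hm, hk, hA⟩ := recurrence S S' h.bS h.bS' h.cSS' c d
  have hrow : Matrix.vecMul eRow (c • X + d • X') = 0 := by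
    rw [Matrix.vecMul_add, Matrix.vecMul_smul, Matrix.vecMul_smul, h.rX, h.rX']
    simp
  have hlb : lb (c • X + d • X') = 0 := by
    have h1 : lb (c • X + d • X') = c • lb X + d • lb X' := by
      ext i j
      simp [lb, Matrix.toBlocks₁₁]
    rw [h1, hcd]
  have hX : c • X + d • X' = hat0 0 (tb (c • X + d • X')) := by
    have h1 := eq_hat0 _ hrow
    rw [hlb] at h1
    exact h1
  obtain ⟨a, ha⟩ : ∃ a, a = tb (c • X + d • X') := ⟨_, rfl⟩
  rw [← ha] at hX
  obtain ⟨γ, hγ⟩ : ∃ γ : ℕ → V ≃ᵃ[ℝ] V, ∀ j, γ j = α ^ m j * β ^ k j := ⟨fun j => α ^ m j * β ^ k j, fun _ => rfl⟩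
  have hγΓ : ∀ j, γ j ∈ Γ := by
    intro j
    rw [hγ]
    exact Γ.mul_mem (Γ.zpow_mem hα _) (Γ.zpow_mem hβ _)
  have hlim := tendsto_bracket (fun j => S ^ (m j) * S' ^ (k j)) X X' (fun j => (m j : ℝ) - t j * c)
      (fun j => (k j : ℝ) - t j * d) hA hm hk
  have hclb : Continuous (lb : HMat → Mat) := by
    unfold lb Matrix.toBlocks₁₁
    exact continuous_matrix fun i j => by
      simp only [Matrix.of_apply]
      fun_prop
  have hlb1 : lb (1 : HMat) = 1 := by rw [← hat_one, lb_hat]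
  have hlin : Tendsto (fun j => lin (γ j)) atTop (𝓝 1) := by
    have h4 := (hclb.tendsto (1 : HMat)).comp hlim
    rw [hlb1] at h4
    refine h4.congr fun j => ?_
    simp only [Function.comp_apply]
    have h5 : lin (γ j) = lb (hatA (γ j)) := (lb_hat _ _).symm
    have h6 : exp (t j • (c • X + d • X')) = hat 1 (trZ 0 a (t j)) := by
      rw [hX, exp_hat0 0 a (by simp)]
      congr 1
      unfold expZ
      simp
    rw [h5, hγ, jpair_formula α β S X S' X' h (m j) (k j) (t j) c d, h6,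
      lb_mul _ _ (Or.inl (row_hat _ _)), lb_hat, mul_one]
  have hinv := ji_inv _ hlin
  have hfin := R_discrete Γ hΓ _ ji_compact
  have hmem : ∀ᶠ j in atTop, γ j ∈ {γ : V ≃ᵃ[ℝ] V | γ ∈ Γ ∧ lin γ ∈ {M : Mat | ∀ i j, |M i j| ≤ 2} ∧
      (lin γ)⁻¹ ∈ {M : Mat | ∀ i j, |M i j| ≤ 2}} := by
    filter_upwards [ji_event _ hlin, ji_event _ hinv] with j h1 h2
    exact ⟨hγΓ j, h1, h2⟩
  have hne : ∀ᶠ j in atTop, ∀ δ ∈ {γ : V ≃ᵃ[ℝ] V | γ ∈ Γ ∧ lin γ ∈ {M : Mat | ∀ i j, |M i j| ≤ 2} ∧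
      (lin γ)⁻¹ ∈ {M : Mat | ∀ i j, |M i j| ≤ 2}}, lin δ ≠ 1 → γ j ≠ δ := by
    rw [Set.Finite.eventually_all hfin]
    intro δ _
    by_cases h1 : lin δ = 1
    · exact Eventually.of_forall fun j h2 => absurd h1 h2
    · have h2 : ∀ᶠ j in atTop, lin (γ j) ≠ lin δ :=
        hlin.eventually (isOpen_ne.mem_nhds (Ne.symm h1))
      filter_upwards [h2] with j h3 _ h4
      exact h3 (by rw [h4])
  have hone : ∀ᶠ j in atTop, m j = 0 ∧ k j = 0 := by
    filter_upwards [hmem, hne] with j h1 h2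
    have h3 : lin (γ j) = 1 := by
      by_contra h4
      exact h2 (γ j) h1 h4 rfl
    have h4 := R_injective Γ hΓ (γ j) (hγΓ j) h3
    rw [hγ] at h4
    exact hind _ _ h4
  exact ⟨ji_zero m t c ht hm (hone.mono fun j hj => hj.1), ji_zero k t d ht hk (hone.mono fun j hj => hj.2)⟩

end DB
end C37
end
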