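import Mathlib

section

/-!
MP_c37615_al D TASK T25a: (independent) two non commuting elements of SL_2(R) have a positive word with |trace| > 2.

Words: elements of `Submonoid.closure {a, b}` different from the trivial choice (any element of the submonoid generated by a and b is fine).
Proof.  Suppose |tr w| ≤ 2 for all w in the submonoid S generated by a,b.
Case 1: |tr a| = 2: a = ε(1+n), n² = 0, a^k = ε^k (1 + k n), tr (n b) = 0 and the traceless part of b is proportional to n: contradiction.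
Case 2: |tr a|, |tr b| < 2.  Powers are recurrent (Cayley-Hamilton recursion is bounded), so a⁻¹, b⁻¹ lie in the closure of S; the commutator has
 tr [a,b] = 2 - det (ab - ba) > 2.  Contradiction.
-/

set_option autoImplicit false

namespace C37

open Filter Topology

/-- coefficients of the Cayley-Hamilton recursion -/
private noncomputable def T25a_al (t : ℝ) : ℕ → ℝ
  | 0 => 0
  | 1 => 1
  | (n + 2) => t * T25a_al t (n + 1) - T25a_al t n

private lemma T25a_ch (a : Matrix (Fin 2) (Fin 2) ℝ) (ha : a.det = 1) : a * a = a.trace • a - 1 := by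
  rw [Matrix.det_fin_two] at ha
  ext i j
  fin_cases i <;> fin_cases j <;>
    simp [Matrix.mul_apply, Fin.sum_univ_two, Matrix.trace_fin_two] <;> linarith

private lemma T25a_pow (a : Matrix (Fin 2) (Fin 2) ℝ) (ha : a.det = 1) (n : ℕ) :
    a ^ (n + 1) = T25a_al a.trace (n + 1) • a - T25a_al a.trace n • (1 : Matrix (Fin 2) (Fin 2) ℝ) := by
  induction n with
  | zero => simp [T25a_al]
  | succ n ih =>
    rw [pow_succ, ih, sub_mul, smul_mul_assoc, smul_mul_assoc, one_mul, T25a_ch a ha]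
    have : T25a_al a.trace (n + 1 + 1) = a.trace * T25a_al a.trace (n + 1) - T25a_al a.trace n := rfl
    rw [this]
    module

private lemma T25a_inv (t : ℝ) (n : ℕ) :
    (T25a_al t (n + 1)) ^ 2 - t * T25a_al t (n + 1) * T25a_al t n + (T25a_al t n) ^ 2 = 1 := by
  induction n with
  | zero => simp [T25a_al]
  | succ n ih =>
    have : T25a_al t (n + 1 + 1) = t * T25a_al t (n + 1) - T25a_al t n := rfl
    rw [this]
    linear_combination ih

private lemma T25a_bdd (t : ℝ) (ht : |t| < 2) : ∃ M : ℝ, ∀ n, |T25a_al t n| ≤ M := by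
  have ht2 : 0 < 1 - t ^ 2 / 4 := by
    have h1 := abs_lt.1 ht
    nlinarith [h1.1, h1.2]
  refine ⟨1 / (1 - t ^ 2 / 4) + 1, fun n => ?_⟩
  have h := T25a_inv t n
  have h1 : (1 - t ^ 2 / 4) * (T25a_al t n) ^ 2 ≤ 1 := by
    nlinarith [sq_nonneg (T25a_al t (n + 1) - t / 2 * T25a_al t n)]
  have h2 : (T25a_al t n) ^ 2 ≤ 1 / (1 - t ^ 2 / 4) := by
    rw [le_div_iff₀ ht2]; linarith
  have h3 : |T25a_al t n| ≤ (T25a_al t n) ^ 2 + 1 := by
    rw [← sq_abs]
    nlinarith [sq_nonneg (|T25a_al t n| - 1), abs_nonneg (T25a_al t n)]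
  linarith

private lemma T25a_adj (a : Matrix (Fin 2) (Fin 2) ℝ) (ha : a.det = 1) :
    a * a⁻¹ = 1 ∧ a⁻¹ * a = 1 ∧ a⁻¹.det = 1 ∧ a⁻¹.trace = a.trace := by
  have hu : IsUnit a.det := by rw [ha]; exact isUnit_one
  refine ⟨Matrix.mul_nonsing_inv a hu, Matrix.nonsing_inv_mul a hu, ?_, ?_⟩
  · rw [Matrix.det_nonsing_inv, ha]; simp
  · rw [Matrix.inv_def, ha]
    simp [Matrix.adjugate_fin_two, Matrix.trace_fin_two, add_comm]

private lemma T25a_rec (a : Matrix (Fin 2) (Fin 2) ℝ) (ha : a.det = 1) (ht : |a.trace| < 2) :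
    a⁻¹ ∈ closure (Set.range (fun n : ℕ => a ^ n)) := by
  obtain ⟨M, hM⟩ := T25a_bdd a.trace ht
  obtain ⟨h1, h2, h3, h4⟩ := T25a_adj a ha
  have hc : IsCompact (Set.Icc (-M) M ×ˢ Set.Icc (-M) M : Set (ℝ × ℝ)) := isCompact_Icc.prod isCompact_Icc
  obtain ⟨⟨p, q⟩, -, φ, hφ, hlim⟩ := hc.tendsto_subseq
    (x := fun n : ℕ => (T25a_al a.trace n, T25a_al a.trace (n + 1)))
    (fun n => ⟨abs_le.1 (hM n), abs_le.1 (hM (n + 1))⟩)
  have hp : Tendsto (fun n => T25a_al a.trace (φ n)) atTop (𝓝 p) := (continuous_fst.tendsto _).comp hlim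
  have hq : Tendsto (fun n => T25a_al a.trace (φ n + 1)) atTop (𝓝 q) := (continuous_snd.tendsto _).comp hlim
  have hL : Tendsto (fun n => a ^ (φ n + 1)) atTop (𝓝 (q • a - p • (1 : Matrix (Fin 2) (Fin 2) ℝ))) := by
    simp_rw [T25a_pow a ha]
    exact (hq.smul_const a).sub (hp.smul_const _)
  have hL' : Tendsto (fun n => a⁻¹ ^ (φ n + 1)) atTop (𝓝 (q • a⁻¹ - p • (1 : Matrix (Fin 2) (Fin 2) ℝ))) := by
    simp_rw [T25a_pow a⁻¹ h3, h4]
    exact (hq.smul_const a⁻¹).sub (hp.smul_const _)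
  have hcomm : Commute a a⁻¹ := by rw [Commute, SemiconjBy, h1, h2]
  have hone : ∀ n : ℕ, a ^ n * a⁻¹ ^ n = 1 := by
    intro n; rw [← hcomm.mul_pow, h1, one_pow]
  have hLL : (q • a - p • (1 : Matrix (Fin 2) (Fin 2) ℝ)) * (q • a⁻¹ - p • (1 : Matrix (Fin 2) (Fin 2) ℝ)) = 1 := by
    have := hL.mul hL'
    simp_rw [hone] at this
    exact (tendsto_nhds_unique this tendsto_const_nhds)
  have hL2 : Tendsto (fun n => a ^ (φ (n + 1) + 1)) atTop (𝓝 (q • a - p • (1 : Matrix (Fin 2) (Fin 2) ℝ))) :=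
    hL.comp (tendsto_add_atTop_nat 1)
  have hfin : Tendsto (fun n => a ^ (φ (n + 1) + 1) * a⁻¹ ^ (φ n + 1) * a⁻¹) atTop (𝓝 a⁻¹) := by
    have := (hL2.mul hL').mul_const a⁻¹
    rwa [hLL, one_mul] at this
  refine mem_closure_of_tendsto hfin (Filter.Eventually.of_forall fun n => ?_)
  have hlt : φ n < φ (n + 1) := hφ (Nat.lt_succ_self n)
  refine ⟨φ (n + 1) - φ n - 1, ?_⟩
  show a ^ (φ (n + 1) - φ n - 1) = _
  have e : φ (n + 1) + 1 = (φ (n + 1) - φ n - 1) + (φ n + 1 + 1) := by omega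
  rw [e, pow_add, mul_assoc, mul_assoc, ← pow_succ, hone, mul_one]

private lemma T25a_det_neg (a b : Matrix (Fin 2) (Fin 2) ℝ) (ha : a.det = 1) (ht : |a.trace| < 2) (hab : a * b ≠ b * a) :
    (a * b - b * a).det < 0 := by
  have htt := abs_lt.1 ht
  rw [Matrix.det_fin_two] at ha
  rw [Matrix.trace_fin_two] at htt
  set p := (a 0 0 - a 1 1) / 2 with hp
  set q := a 0 1 with hq
  set r := a 1 0 with hr
  set u := (a * b - b * a) 0 0 with hu
  set v := (a * b - b * a) 0 1 with hv
  set w := (a * b - b * a) 1 0 with hw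
  have huu : (a * b - b * a) 1 1 = -u := by
    rw [hu]; simp [Matrix.mul_apply, Fin.sum_univ_two]; ring
  have hdisc : 0 < -p ^ 2 - q * r := by
    have : -p ^ 2 - q * r = 1 - (a 0 0 + a 1 1) ^ 2 / 4 := by
      rw [hp]; linear_combination ha
    rw [this]; nlinarith [htt.1, htt.2]
  have horth : 2 * p * u + q * w + r * v = 0 := by
    rw [hp, hu, hw, hv, hq, hr]; simp [Matrix.mul_apply, Fin.sum_univ_two]; ring
  rw [Matrix.det_fin_two, huu, ← hu, ← hv, ← hw]
  have hq0 : q ≠ 0 := by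
    intro h; rw [h] at hdisc; nlinarith [sq_nonneg p]
  have key : q ^ 2 * (u ^ 2 + v * w) = (q * u - p * v) ^ 2 + (-p ^ 2 - q * r) * v ^ 2 := by
    linear_combination (q * v) * horth
  have hq2 : 0 < q ^ 2 := by positivity
  by_contra hcon
  push Not at hcon
  have h1 : q ^ 2 * (u ^ 2 + v * w) ≤ 0 := by nlinarith
  have hv0 : v = 0 := by
    by_contra hv0
    have : 0 < v ^ 2 := by positivity
    nlinarith [sq_nonneg (q * u - p * v), mul_pos hdisc this]
  have hu0 : u = 0 := by
    rw [hv0] at key h1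
    have : (q * u) ^ 2 ≤ 0 := by nlinarith
    have h2 : q * u = 0 := by
      have := sq_nonneg (q * u)
      exact pow_eq_zero_iff (two_ne_zero) |>.1 (le_antisymm ‹_› this)
    exact (mul_eq_zero.1 h2).resolve_left hq0
  have hw0 : w = 0 := by
    rw [hv0, hu0] at horth
    have : q * w = 0 := by linarith
    exact (mul_eq_zero.1 this).resolve_left hq0
  apply hab
  have hz : a * b - b * a = 0 := by
    ext i j
    fin_cases i <;> fin_cases j
    · exact hu0
    · exact hv0
    · exact hw0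
    · show (a * b - b * a) 1 1 = 0
      rw [huu, hu0, neg_zero]
  exact sub_eq_zero.1 hz

private lemma T25a_comm_trace (a b : Matrix (Fin 2) (Fin 2) ℝ) (ha : a.det = 1) (hb : b.det = 1) (ht : |a.trace| < 2)
    (hab : a * b ≠ b * a) : 2 < (a * b * a⁻¹ * b⁻¹).trace := by
  obtain ⟨h1, h2, h3, h4⟩ := T25a_adj a ha
  obtain ⟨k1, k2, k3, k4⟩ := T25a_adj b hb
  have hneg := T25a_det_neg a b ha ht hab
  have e : a * b * a⁻¹ * b⁻¹ - 1 = (a * b - b * a) * (a⁻¹ * b⁻¹) := by
    have : b * a * (a⁻¹ * b⁻¹) = 1 := by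
      calc b * a * (a⁻¹ * b⁻¹) = b * (a * a⁻¹) * b⁻¹ := by simp only [mul_assoc]
        _ = 1 := by rw [h1, mul_one, k1]
    rw [sub_mul, this]
    simp only [mul_assoc]
  have hd : (a * b * a⁻¹ * b⁻¹ - 1).det = (a * b - b * a).det := by
    rw [e, Matrix.det_mul, Matrix.det_mul, h3, k3]; ring
  have hd1 : (a * b * a⁻¹ * b⁻¹).det = 1 := by
    rw [Matrix.det_mul, Matrix.det_mul, Matrix.det_mul, ha, hb, h3, k3]; ring
  have gen : ∀ M : Matrix (Fin 2) (Fin 2) ℝ, (M - 1).det = M.det - M.trace + 1 := by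
    intro M
    rw [Matrix.det_fin_two, Matrix.det_fin_two, Matrix.trace_fin_two]
    simp
    ring
  rw [gen, hd1] at hd
  linarith

private lemma T25a_par (a b : Matrix (Fin 2) (Fin 2) ℝ) (ha : a.det = 1) (hb : b.det = 1) (hab : a * b ≠ b * a)
    (ht : |a.trace| = 2) (hk : ∀ k : ℕ, |(a ^ k * b).trace| ≤ 2) : False := by
  obtain ⟨ε, he, hta⟩ : ∃ ε : ℝ, ε ^ 2 = 1 ∧ a.trace = 2 * ε := by
    rcases abs_eq (by norm_num : (0:ℝ) ≤ 2) |>.1 ht with h | h
    · exact ⟨1, by norm_num, by rw [h]; norm_num⟩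
    · exact ⟨-1, by norm_num, by rw [h]; norm_num⟩
  set n : Matrix (Fin 2) (Fin 2) ℝ := ε • a - 1 with hn
  have hee : ε * ε = 1 := by rw [← sq]; exact he
  have han : a = ε • (1 + n) := by
    rw [hn]
    have : ε • (1 + (ε • a - 1)) = (ε * ε) • a := by module
    rw [this, hee, one_smul]
  have hnn : n * n = 0 := by
    rw [hn, sub_mul, one_mul, mul_sub, mul_one, smul_mul_smul_comm, T25a_ch a ha, hta, hee]
    module
  have hpow : ∀ k : ℕ, a ^ k = (ε ^ k) • (1 + (k : ℝ) • n) := by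
    intro k
    induction k with
    | zero => simp
    | succ k ih =>
      rw [pow_succ, ih]
      conv_lhs => rw [han]
      rw [smul_mul_smul_comm, add_mul, one_mul, mul_add, mul_one, smul_mul_assoc, hnn, smul_zero, add_zero,
        ← pow_succ]
      push_cast
      module
  have habs : |ε| = 1 := by
    have : |ε| ^ 2 = 1 := by rw [sq_abs]; exact he
    nlinarith [abs_nonneg ε, sq_nonneg (|ε| - 1)]
  have htr : (n * b).trace = 0 := by
    by_contra h0
    have hpos : 0 < |(n * b).trace| := abs_pos.2 h0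
    obtain ⟨k, hk4⟩ := exists_nat_gt (4 / |(n * b).trace|)
    rw [div_lt_iff₀ hpos] at hk4
    have e : (a ^ k * b).trace = ε ^ k * (b.trace + k * (n * b).trace) := by
      rw [hpow k, smul_mul_assoc, add_mul, one_mul, smul_mul_assoc, Matrix.trace_smul, Matrix.trace_add,
        Matrix.trace_smul]
      simp [smul_eq_mul]
    have h2 := hk k
    rw [e, abs_mul, abs_pow, habs, one_pow, one_mul] at h2
    have h0b := hk 0
    rw [pow_zero, one_mul] at h0b
    have h3 : |(k : ℝ) * (n * b).trace| ≤ 4 := by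
      have : (k : ℝ) * (n * b).trace = (b.trace + k * (n * b).trace) - b.trace := by ring
      rw [this]
      exact (abs_sub _ _).trans (by linarith)
    rw [abs_mul, Nat.abs_cast] at h3
    linarith
  have h0b := hk 0
  rw [pow_zero, one_mul] at h0b
  have hbt := abs_le.1 h0b
  -- coordinates
  have hn11 : n 1 1 = -(n 0 0) := by
    rw [hn]
    simp [Matrix.trace_fin_two] at hta ⊢
    linear_combination ε * hta + 2 * he
  have hdet : (n 0 0) ^ 2 + n 0 1 * n 1 0 = 0 := by
    have := congrFun (congrFun hnn 0) 0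
    simp [Matrix.mul_apply, Fin.sum_univ_two] at this
    linear_combination this
  rw [Matrix.trace_fin_two] at hbt
  rw [Matrix.det_fin_two] at hb
  have htr' : n 0 0 * (b 0 0 - b 1 1) + n 0 1 * b 1 0 + n 1 0 * b 0 1 = 0 := by
    rw [Matrix.trace_fin_two] at htr
    simp [Matrix.mul_apply, Fin.sum_univ_two] at htr
    rw [hn11] at htr
    linear_combination htr
  set p := n 0 0 with hp
  set q := n 0 1 with hq
  set r := n 1 0 with hr
  set u := (b 0 0 - b 1 1) / 2 with hu
  set v := b 0 1 with hv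
  set w := b 1 0 with hw
  have horth : 2 * p * u + q * w + r * v = 0 := by rw [hu]; linear_combination htr'
  have hD : u ^ 2 + v * w ≤ 0 := by
    have : u ^ 2 + v * w = (b 0 0 + b 1 1) ^ 2 / 4 - 1 := by rw [hu]; linear_combination (-1) * hb
    rw [this]; nlinarith [hbt.1, hbt.2]
  have k1 : (q * u - p * v) ^ 2 ≤ 0 := by
    have : (q * u - p * v) ^ 2 = q ^ 2 * (u ^ 2 + v * w) := by
      linear_combination (-(q * v)) * horth + v ^ 2 * hdet
    rw [this]; nlinarith [sq_nonneg q]
  have k2 : (r * u - p * w) ^ 2 ≤ 0 := by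
    have : (r * u - p * w) ^ 2 = r ^ 2 * (u ^ 2 + v * w) := by
      linear_combination (-(r * w)) * horth + w ^ 2 * hdet
    rw [this]; nlinarith [sq_nonneg r]
  have k3 : (q * w - r * v) ^ 2 ≤ 0 := by
    have : (q * w - r * v) ^ 2 = 4 * p ^ 2 * (u ^ 2 + v * w) := by
      linear_combination (q * w + r * v - 2 * p * u) * horth - 4 * v * w * hdet
    rw [this]; nlinarith [sq_nonneg p]
  have l1 : q * u - p * v = 0 := pow_eq_zero_iff (two_ne_zero) |>.1 (le_antisymm k1 (sq_nonneg _))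
  have l2 : r * u - p * w = 0 := pow_eq_zero_iff (two_ne_zero) |>.1 (le_antisymm k2 (sq_nonneg _))
  have l3 : q * w - r * v = 0 := pow_eq_zero_iff (two_ne_zero) |>.1 (le_antisymm k3 (sq_nonneg _))
  have hnb : n * b = b * n := by
    ext i j
    fin_cases i <;> fin_cases j
    · simp [Matrix.mul_apply, Fin.sum_univ_two]
      rw [← hq, ← hv, ← hw, ← hr]; linear_combination l3
    · simp [Matrix.mul_apply, Fin.sum_univ_two]
      rw [← hq, ← hv, hn11, ← hp]; rw [hu] at l1; linear_combination (-2) * l1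
    · simp [Matrix.mul_apply, Fin.sum_univ_two]
      rw [← hr, ← hw, hn11, ← hp]; rw [hu] at l2; linear_combination 2 * l2
    · simp [Matrix.mul_apply, Fin.sum_univ_two]
      rw [← hq, ← hv, ← hw, ← hr]; linear_combination (-1) * l3
  apply hab
  rw [han, smul_mul_assoc, mul_smul_comm, add_mul, mul_add, one_mul, mul_one, hnb]

theorem sl2_word (a b : Matrix (Fin 2) (Fin 2) ℝ) (ha : a.det = 1) (hb : b.det = 1) (hab : a * b ≠ b * a) :
    ∃ w ∈ Submonoid.closure ({a, b} : Set (Matrix (Fin 2) (Fin 2) ℝ)), 2 < |w.trace| := by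
  by_contra hcon
  push Not at hcon
  set S := Submonoid.closure ({a, b} : Set (Matrix (Fin 2) (Fin 2) ℝ)) with hS
  have haS : a ∈ S := Submonoid.subset_closure (by simp)
  have hbS : b ∈ S := Submonoid.subset_closure (by simp)
  rcases lt_or_eq_of_le (hcon a haS) with hta | hta
  · rcases lt_or_eq_of_le (hcon b hbS) with htb | htb
    · have hcl : ∀ w ∈ S.topologicalClosure, |w.trace| ≤ 2 := by
        intro w hw
        have hclosed : IsClosed {w : Matrix (Fin 2) (Fin 2) ℝ | |w.trace| ≤ 2} := by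
          apply isClosed_le _ continuous_const
          exact (Continuous.matrix_trace continuous_id).abs
        have : (S : Set (Matrix (Fin 2) (Fin 2) ℝ)) ⊆ {w | |w.trace| ≤ 2} := fun w hw => hcon w hw
        exact closure_minimal this hclosed hw
      have hrec : ∀ c ∈ S, c.det = 1 → |c.trace| < 2 → c⁻¹ ∈ S.topologicalClosure := by
        intro c hc hd ht
        have h1 := T25a_rec c hd ht
        have h2 : Set.range (fun n : ℕ => c ^ n) ⊆ (S : Set (Matrix (Fin 2) (Fin 2) ℝ)) := by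
          rintro _ ⟨n, rfl⟩
          exact S.pow_mem hc n
        exact closure_mono h2 h1
      have haC : a ∈ S.topologicalClosure := S.le_topologicalClosure haS
      have hbC : b ∈ S.topologicalClosure := S.le_topologicalClosure hbS
      have hm := S.topologicalClosure.mul_mem (S.topologicalClosure.mul_mem (S.topologicalClosure.mul_mem haC hbC)
        (hrec a haS ha hta)) (hrec b hbS hb htb)
      have h1 := hcl _ hm
      have h2 := T25a_comm_trace a b ha hb hta hab
      have h3 := le_abs_self (a * b * a⁻¹ * b⁻¹).trace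
      linarith
    · refine T25a_par b a hb ha (fun h => hab h.symm) htb (fun k => hcon _ ?_)
      exact S.mul_mem (S.pow_mem hbS k) haS
  · refine T25a_par a b ha hb hab hta (fun k => hcon _ ?_)
    exact S.mul_mem (S.pow_mem haS k) hbS

end C37
end

section

/-!
MP_c37615_al D TASK T25a2: (independent) version of `sl2_word` without normalisation.

If 4 det a < (tr a)² take w = a (a ≠ 1 because tr² = 4 det for a = 1); same for b.  Otherwise det a ≥ (tr a)²/4 > 0, det b > 0; a' = a / sqrt (det a), b' similarly, det = 1, do not commute; `sl2_word`: w' in the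
submonoid generated by a',b' with |tr w'| > 2; by closure induction w' = c • w with c > 0, w in the submonoid generated by a,b; det w = 1/c² ..., so tr w ² = tr w' ²/c² > 4/c² = 4 det w.  w ≠ 1 since for w = 1 we would have
tr² = 4 det.
-/

set_option autoImplicit false

namespace C37

private theorem T25a2_closure (a b : Matrix (Fin 2) (Fin 2) ℝ) (r s : ℝ) (hr : 0 < r) (hs : 0 < s)
    (hra : (r • a).det = 1) (hsb : (s • b).det = 1) :
    ∀ w' ∈ Submonoid.closure ({r • a, s • b} : Set (Matrix (Fin 2) (Fin 2) ℝ)),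
      w'.det = 1 ∧ ∃ c : ℝ, 0 < c ∧ ∃ w ∈ Submonoid.closure ({a, b} : Set (Matrix (Fin 2) (Fin 2) ℝ)),
        w' = c • w := by
  intro w' hw'
  induction hw' using Submonoid.closure_induction with
  | mem x hx =>
    rcases hx with rfl | hx
    · exact ⟨hra, r, hr, a, Submonoid.subset_closure (by simp), rfl⟩
    · rw [Set.mem_singleton_iff] at hx
      subst hx
      exact ⟨hsb, s, hs, b, Submonoid.subset_closure (by simp), rfl⟩
  | one => exact ⟨Matrix.det_one, 1, one_pos, 1, Submonoid.one_mem _, by rw [one_smul]⟩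
  | mul x y _ _ hx hy =>
    obtain ⟨hx1, c, hc, w, hw, rfl⟩ := hx
    obtain ⟨hy1, d, hd, v, hv, rfl⟩ := hy
    refine ⟨by rw [Matrix.det_mul, hx1, hy1, one_mul], c * d, mul_pos hc hd, w * v,
      Submonoid.mul_mem _ hw hv, ?_⟩
    rw [Matrix.smul_mul, Matrix.mul_smul, smul_smul]

/-- version without normalisation: if a, b do not commute and have nonzero traces, then some word has trace² > 4 det -/
theorem gl2_word (a b : Matrix (Fin 2) (Fin 2) ℝ) (ha : a.trace ≠ 0) (hb : b.trace ≠ 0) (hab : a * b ≠ b * a) :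
    ∃ w ∈ Submonoid.closure ({a, b} : Set (Matrix (Fin 2) (Fin 2) ℝ)), w ≠ 1 ∧ 4 * w.det < w.trace ^ 2 ∧ w.trace ≠ 0 := by
  have hne : ∀ w : Matrix (Fin 2) (Fin 2) ℝ, 4 * w.det < w.trace ^ 2 → w ≠ 1 := by
    rintro w hw rfl
    rw [Matrix.det_one, Matrix.trace_one, Fintype.card_fin] at hw
    norm_num at hw
  by_cases h1 : 4 * a.det < a.trace ^ 2
  · exact ⟨a, Submonoid.subset_closure (by simp), hne a h1, h1, ha⟩
  by_cases h2 : 4 * b.det < b.trace ^ 2
  · exact ⟨b, Submonoid.subset_closure (by simp), hne b h2, h2, hb⟩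
  rw [not_lt] at h1 h2
  have hda : 0 < a.det := by
    have := sq_pos_of_ne_zero ha
    linarith
  have hdb : 0 < b.det := by
    have := sq_pos_of_ne_zero hb
    linarith
  have hr : 0 < (Real.sqrt a.det)⁻¹ := by positivity
  have hs : 0 < (Real.sqrt b.det)⁻¹ := by positivity
  have hr2 : (Real.sqrt a.det)⁻¹ ^ 2 * a.det = 1 := by
    rw [inv_pow, Real.sq_sqrt hda.le, inv_mul_cancel₀ hda.ne']
  have hs2 : (Real.sqrt b.det)⁻¹ ^ 2 * b.det = 1 := by
    rw [inv_pow, Real.sq_sqrt hdb.le, inv_mul_cancel₀ hdb.ne']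
  have hra : ((Real.sqrt a.det)⁻¹ • a).det = 1 := by
    rw [Matrix.det_smul, Fintype.card_fin, hr2]
  have hsb : ((Real.sqrt b.det)⁻¹ • b).det = 1 := by
    rw [Matrix.det_smul, Fintype.card_fin, hs2]
  have hab' : ((Real.sqrt a.det)⁻¹ • a) * ((Real.sqrt b.det)⁻¹ • b) ≠
      ((Real.sqrt b.det)⁻¹ • b) * ((Real.sqrt a.det)⁻¹ • a) := by
    intro h
    rw [Matrix.smul_mul, Matrix.mul_smul, smul_smul, Matrix.smul_mul, Matrix.mul_smul, smul_smul,
      mul_comm (Real.sqrt b.det)⁻¹] at h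
    exact hab (smul_right_injective _ (mul_pos hr hs).ne' h)
  obtain ⟨w', hw', htr⟩ := sl2_word _ _ hra hsb hab'
  obtain ⟨hdet, c, hc, w, hw, rfl⟩ := T25a2_closure a b _ _ hr hs hra hsb w' hw'
  rw [Matrix.det_smul, Fintype.card_fin] at hdet
  rw [Matrix.trace_smul, smul_eq_mul] at htr
  have h3 : 4 < (c * w.trace) ^ 2 := by
    have h4 := abs_nonneg (c * w.trace)
    rw [← sq_abs]
    nlinarith
  have h5 : 4 * w.det < w.trace ^ 2 := by
    have hc2 : 0 < c ^ 2 := by positivity
    by_contra hcon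
    rw [not_lt] at hcon
    have : c ^ 2 * w.trace ^ 2 ≤ c ^ 2 * (4 * w.det) := mul_le_mul_of_nonneg_left hcon hc2.le
    nlinarith
  refine ⟨w, hw, hne w h5, h5, ?_⟩
  intro h
  rw [h, mul_zero] at h3
  norm_num at h3

end C37
end
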