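import Mathlib
import Pool.Agent.Lib.MP_c37615_al.Defs
import Pool.Agent.Lib.MP_c37615_al.Defs2
import Pool.Agent.Lib.MP_c37615_al.Mg.G017
import Pool.Agent.Lib.MP_c37615_al.D.Core
import Pool.Agent.Lib.MP_c37615_al.D.T01
import Pool.Agent.Lib.MP_c37615_al.Mg.G025
import Pool.Agent.Lib.MP_c37615_al.D.T03
import Pool.Agent.Lib.MP_c37615_al.Mg.G026
import Pool.Agent.Lib.MP_c37615_al.Mg.G027
import Pool.Agent.Lib.MP_c37615_al.Mg.G030
import Pool.Agent.Lib.MP_c37615_al.Mg.G028

section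

/-!
MP_c37615_al D TASK T17: algebra of the long root vector N = rL23 (x3 ↦ -x2, y2 ↦ y3, other null basis vectors ↦ 0).

All statements are explicit matrix computations (unfold, `ext i j; fin_cases i; fin_cases j`, `simp`, `norm_num`) or consequences.
`rL23_bracket_zero`: N v, N w ∈ span(x2,y3) and cross x2 y3 = 0.
`LR_identity` (B (h N a) (Ev (h N)) = 0): `key_trace`: = trace (h * (Lmat (N a) * N)) and Lmat (N a) * N = 0.
`CN`: by `key_trace` B (h a) (Ev (h N)) = trace (h (Lmat a N)), B (h N a) (Ev h) = trace (h Lmat (N a)).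
`CN_zero`: if Lmat a * N + (1/2) Lmat (N a) = 0 then a ∈ Im N (compare entries; exact computation shows that the kernel is exactly span(x2,y3) = Im N).
-/

set_option autoImplicit false

namespace C37

private theorem T17_mulVec (v : V) : rL23.mulVec v = ((v 2 + v 6)) • x2 + (-(v 1 + v 5)) • y3 := by
  ext i
  simp only [rL23, ofNull, ev, Matrix.mulVec, dotProduct, Fin.sum_univ_succ, Matrix.of_apply]
  fin_cases i <;> simp [x2, y3] <;> ring

private theorem T17_ext (M N : Mat) (h : ∀ v : V, M.mulVec v = N.mulVec v) : M = N :=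
  Matrix.toLin'.injective (LinearMap.ext (fun v => by simpa using h v))

theorem rL23_sq : rL23 * rL23 = 0 := by
  apply T17_ext
  intro v
  rw [← Matrix.mulVec_mulVec, Matrix.zero_mulVec, T17_mulVec, T17_mulVec]
  ext i
  fin_cases i <;> simp [x2, y3] <;> ring

theorem rL23_anti (u v : V) : B (rL23.mulVec u) v = -B u (rL23.mulVec v) := by
  rw [T17_mulVec, T17_mulVec]
  simp [B, x2, y3]
  ring

theorem rL23_deriv (u v : V) : rL23.mulVec (cross u v) = cross (rL23.mulVec u) v + cross u (rL23.mulVec v) := by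
  rw [T17_mulVec, T17_mulVec, T17_mulVec]
  ext i
  fin_cases i <;> simp [cross, x2, y3] <;> ring

theorem rL23_bracket_zero (a : V) : Lmat (rL23.mulVec a) * rL23 = 0 := by
  apply T17_ext
  intro v
  rw [← Matrix.mulVec_mulVec, Matrix.zero_mulVec, Lmat_mulVec, T17_mulVec, T17_mulVec]
  ext i
  fin_cases i <;> simp [cross, x2, y3] <;> ring

private theorem T17_phi_add1 (u u' v w : V) (s : ℝ) : phi (u + s • u') v w = phi u v w + s * phi u' v w := by
  simp [phi, e3, det3]
  ring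
private theorem T17_phi_add2 (u v v' w : V) (s : ℝ) : phi u (v + s • v') w = phi u v w + s * phi u v' w := by
  simp [phi, e3, det3]
  ring
private theorem T17_phi_add3 (u v w w' : V) (s : ℝ) : phi u v (w + s • w') = phi u v w + s * phi u v w' := by
  simp [phi, e3, det3]
  ring

theorem InG_exp_rL23 (s : ℝ) : InG (1 + s • rL23) := by
  intro u v w
  have e : ∀ u : V, (1 + s • rL23).mulVec u = u + s • rL23.mulVec u := by
    intro u
    rw [Matrix.add_mulVec, Matrix.one_mulVec, Matrix.smul_mulVec]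
  have h1 : phi (rL23.mulVec u) v w + phi u (rL23.mulVec v) w + phi u v (rL23.mulVec w) = 0 := by
    rw [← B_cross, ← B_cross, ← B_cross, ← B_add_left, ← rL23_deriv, rL23_anti]
    ring
  have h2 : phi (rL23.mulVec u) (rL23.mulVec v) w = 0 := by
    have := congrArg (fun M : Mat => M.mulVec v) (rL23_bracket_zero u)
    simp only [← Matrix.mulVec_mulVec, Lmat_mulVec, Matrix.zero_mulVec] at this
    rw [← B_cross, this]
    simp [B]
  have h3 : phi u (rL23.mulVec v) (rL23.mulVec w) = 0 := by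
    have := congrArg (fun M : Mat => M.mulVec w) (rL23_bracket_zero v)
    simp only [← Matrix.mulVec_mulVec, Lmat_mulVec, Matrix.zero_mulVec] at this
    rw [← B_cross, B_cross_cycl, this]
    simp [B]
  have h4 : phi (rL23.mulVec u) v (rL23.mulVec w) = 0 := by
    have := congrArg (fun M : Mat => M.mulVec w) (rL23_bracket_zero u)
    simp only [← Matrix.mulVec_mulVec, Lmat_mulVec, Matrix.zero_mulVec] at this
    have h5 : B (cross (rL23.mulVec u) v) (rL23.mulVec w) = -B (cross v (rL23.mulVec u)) (rL23.mulVec w) := by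
      rw [cross_anti (rL23.mulVec u) v, ← neg_one_smul ℝ (cross v (rL23.mulVec u)), B_smul_left]
      ring
    rw [← B_cross, h5, B_cross_cycl, this]
    simp [B]
  have h6 : phi (rL23.mulVec u) (rL23.mulVec v) (rL23.mulVec w) = 0 := by
    have := congrArg (fun M : Mat => M.mulVec v) (rL23_bracket_zero u)
    simp only [← Matrix.mulVec_mulVec, Lmat_mulVec, Matrix.zero_mulVec] at this
    rw [← B_cross, this]
    simp [B]
  rw [e, e, e]
  simp only [T17_phi_add1, T17_phi_add2, T17_phi_add3, h2, h3, h4, h6]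
  linear_combination s * h1

theorem LR_identity (h : Mat) (hh : InG h) (a : V) : B (h.mulVec (rL23.mulVec a)) (Ev (h * rL23)) = 0 := by
  rw [key_trace h hh, rL23_bracket_zero]
  simp

/-- the matrix M_a with C(h) = trace (h M_a) -/
noncomputable def MN (a : V) : Mat := Lmat a * rL23 + (1/2 : ℝ) • Lmat (rL23.mulVec a)
theorem CN (h : Mat) (hh : InG h) (a : V) :
    B (h.mulVec a) (Ev (h * rL23)) + (1/2) * B (h.mulVec (rL23.mulVec a)) (Ev h) = (h * MN a).trace := by
  have h1 := key_trace h hh a rL23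
  have h2 := key_trace h hh (rL23.mulVec a) 1
  rw [mul_one, mul_one] at h2
  rw [h1, h2, MN, Matrix.mul_add, Matrix.trace_add, Matrix.mul_smul, Matrix.trace_smul, smul_eq_mul]

theorem CN_zero (a : V) (h : MN a = 0) : ∃ w : V, a = rL23.mulVec w := by
  have key : ∀ v : V, cross a (rL23.mulVec v) + (1/2 : ℝ) • cross (rL23.mulVec a) v = 0 := by
    intro v
    have := congrArg (fun M : Mat => M.mulVec v) h
    simpa [MN, Matrix.add_mulVec, Matrix.smul_mulVec, ← Matrix.mulVec_mulVec, Lmat_mulVec] using this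
  simp only [T17_mulVec] at key
  have k0 := key ![1, 0, 0, 0, 0, 0, 0]
  have k01 := congrFun k0 1
  have k02 := congrFun k0 2
  simp [cross, x2, y3] at k01 k02
  have hα : a 2 + a 6 = 0 := by linarith
  have hβ : a 1 + a 5 = 0 := by linarith
  have q1 := key ![0, 0, 1, 0, 0, 0, 0]
  have q2 := key ![0, 1, 0, 0, 0, 0, 0]
  have q10 := congrFun q1 0
  have q11 := congrFun q1 1
  have q12 := congrFun q1 2
  have q13 := congrFun q1 3
  have q14 := congrFun q1 4
  have q15 := congrFun q1 5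
  have q16 := congrFun q1 6
  have q20 := congrFun q2 0
  have q21 := congrFun q2 1
  have q22 := congrFun q2 2
  have q23 := congrFun q2 3
  have q24 := congrFun q2 4
  have q25 := congrFun q2 5
  have q26 := congrFun q2 6
  simp [cross, x2, y3] at q10 q11 q12 q13 q14 q15 q16 q20 q21 q22 q23 q24 q25 q26
  have a0 : a 0 = 0 := by linarith
  have a3 : a 3 = 0 := by linarith
  have a4 : a 4 = 0 := by linarith
  refine ⟨![0, -2 * a 2, 2 * a 1, 0, 0, 0, 0], ?_⟩
  rw [T17_mulVec]
  ext i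
  fin_cases i <;> simp [x2, y3, a0, a3, a4] <;> linarith

end C37
end

section

/-!
MP_c37615_al D TASK T18: asymptotics of the sign function along a long root one-parameter group.

N = rL23, N^2 = 0: expZ N s = 1 + s N (`rL23_sq`), trZ N a s = s a + (s^2/2) N a.
g_j = h_j (1 + s_j N), u_j' = h_j (s_j a + (s_j^2/2) N a) + u_j.
 trace g_j / s_j -> trace (h N).  Ev g_j = Ev h_j + s_j Ev (h_j N), so Ev g_j / s_j -> Ev (h N), B (Ev g_j)(Ev g_j)/s_j^2 -> B (Ev (hN)) (Ev (hN)).
 B u_j' (Ev g_j) = s_j^3 (1/2) B (h_j N a) (Ev (h_j N))  [= 0 by `LR_identity`]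
    + s_j^2 ( B (h_j a) (Ev (h_j N)) + (1/2) B (h_j N a) (Ev h_j) ) [= s_j^2 trace (h_j M_a) by `CN`]
    + s_j ( B (h_j a) (Ev h_j) + B u_j (Ev (h_j N)) ) + B u_j (Ev h_j),
 so B u_j' (Ev g_j) / s_j^2 -> trace (h M_a) and FF g_j u_j' / s_j^3 -> trace (h N) trace (h M_a).
-/

set_option autoImplicit false

open Filter Topology

namespace C37

private theorem T18_cB : Continuous (fun p : V × V => B p.1 p.2) := by
  have h : ∀ i, Continuous (fun p : V × V => p.1 i) := fun i => (continuous_apply i).comp continuous_fst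
  have k : ∀ i, Continuous (fun p : V × V => p.2 i) := fun i => (continuous_apply i).comp continuous_snd
  exact (((((((h 0).mul (k 0)).add ((h 1).mul (k 1))).add ((h 2).mul (k 2))).sub ((h 3).mul (k 3))).sub
    ((h 4).mul (k 4))).sub ((h 5).mul (k 5))).sub ((h 6).mul (k 6))

private theorem T18_B {f g : ℕ → V} {x y : V} (hf : Tendsto f atTop (𝓝 x)) (hg : Tendsto g atTop (𝓝 y)) :
    Tendsto (fun j => B (f j) (g j)) atTop (𝓝 (B x y)) := by
  have h1 : Tendsto (fun p : V × V => B p.1 p.2) (𝓝 (x, y)) (𝓝 (B x y)) := T18_cB.tendsto (x, y)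
  have h2 : Tendsto (fun j => (f j, g j)) atTop (𝓝 (x, y)) := hf.prodMk_nhds hg
  have h3 := h1.comp h2
  simpa only [Function.comp_def] using h3

private theorem T18_mulVec {f : ℕ → Mat} {x : Mat} (hf : Tendsto f atTop (𝓝 x)) (v : V) :
    Tendsto (fun j => (f j).mulVec v) atTop (𝓝 (x.mulVec v)) :=
  ((continuous_id.matrix_mulVec continuous_const).tendsto x).comp hf

private theorem T18_mul {f : ℕ → Mat} {x : Mat} (hf : Tendsto f atTop (𝓝 x)) (M : Mat) :
    Tendsto (fun j => f j * M) atTop (𝓝 (x * M)) :=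
  ((continuous_id.matrix_mul continuous_const).tendsto x).comp hf

private theorem T18_trace {f : ℕ → Mat} {x : Mat} (hf : Tendsto f atTop (𝓝 x)) :
    Tendsto (fun j => (f j).trace) atTop (𝓝 x.trace) :=
  (continuous_id.matrix_trace.tendsto x).comp hf

private theorem T18_Ev {f : ℕ → Mat} {x : Mat} (hf : Tendsto f atTop (𝓝 x)) :
    Tendsto (fun j => Ev (f j)) atTop (𝓝 (Ev x)) :=
  (continuous_Ev.tendsto x).comp hf

theorem LR_tendsto (h : Mat) (a u : V) (hj : ℕ → Mat) (uj : ℕ → V) (s : ℕ → ℝ) (hG : ∀ j, InG (hj j))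
    (hh : Tendsto hj atTop (𝓝 h)) (hu : Tendsto uj atTop (𝓝 u)) (hs : Tendsto (fun j => |s j|) atTop atTop) :
    Tendsto (fun j => FF (hj j * expZ rL23 (s j)) ((hj j).mulVec (trZ rL23 a (s j)) + uj j) / (s j) ^ 3) atTop
      (𝓝 ((h * rL23).trace * (h * MN a).trace)) ∧
    Tendsto (fun j => B (Ev (hj j * expZ rL23 (s j))) (Ev (hj j * expZ rL23 (s j))) / (s j) ^ 2) atTop
      (𝓝 (B (Ev (h * rL23)) (Ev (h * rL23)))) ∧
    Tendsto (fun j => (hj j * expZ rL23 (s j)).trace / s j) atTop (𝓝 (h * rL23).trace) := by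
  have hs0 : ∀ᶠ j in atTop, s j ≠ 0 := (hs.eventually_gt_atTop 0).mono fun j hj h => by
    rw [h, abs_zero] at hj
    exact lt_irrefl _ hj
  have ht : Tendsto (fun j => (s j)⁻¹) atTop (𝓝 0) := by
    rw [tendsto_zero_iff_abs_tendsto_zero]
    have := tendsto_inv_atTop_zero.comp hs
    refine this.congr fun j => ?_
    simp [abs_inv]
  have hexp : ∀ (M : Mat) (x : ℝ), M * expZ rL23 x = M + x • (M * rL23) := by
    intro M x
    unfold expZ
    rw [rL23_sq, smul_zero, add_zero, mul_add, mul_one, Matrix.mul_smul]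
  have htr : ∀ (M : Mat) (x : ℝ), M.mulVec (trZ rL23 a x) =
      x • M.mulVec a + (x ^ 2 / 2) • M.mulVec (rL23.mulVec a) := by
    intro M x
    unfold trZ
    rw [rL23_sq, Matrix.zero_mulVec, smul_zero, add_zero, Matrix.mulVec_add, Matrix.mulVec_smul,
      Matrix.mulVec_smul]
  have hN := T18_mul hh rL23
  have tα := T18_trace hh
  have tβ := T18_trace hN
  have E0 := T18_Ev hh
  have E1 := T18_Ev hN
  have v1 := T18_mulVec hh a
  refine ⟨?_, ?_, ?_⟩
  · have tc := T18_trace (T18_mul hh (MN a))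
    have td := (T18_B v1 E0).add (T18_B hu E1)
    have te := T18_B hu E0
    have key := (tβ.add ((tα.add_const 1).mul ht)).mul
      ((tc.add (td.mul ht)).add (te.mul (ht.pow 2)))
    have e : ((h * rL23).trace + (h.trace + 1) * 0) * ((h * MN a).trace +
        (B (h.mulVec a) (Ev h) + B u (Ev (h * rL23))) * 0 + B u (Ev h) * 0 ^ 2) =
        (h * rL23).trace * (h * MN a).trace := by ring
    rw [e] at key
    refine key.congr' (hs0.mono fun j hj0 => ?_)
    have h1 := LR_identity (hj j) (hG j) a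
    have h2 := CN (hj j) (hG j) a
    unfold FF
    beta_reduce
    rw [hexp, htr, Matrix.trace_add, Matrix.trace_smul, Ev_add, Ev_smul]
    simp only [B_add_left, B_add_right, B_smul_left, B_smul_right, smul_eq_mul]
    rw [← h2, h1]
    field_simp
    ring
  · have key := ((T18_B E1 E1).add (((T18_B E0 E1).const_mul 2).mul ht)).add ((T18_B E0 E0).mul (ht.pow 2))
    have e : B (Ev (h * rL23)) (Ev (h * rL23)) + 2 * B (Ev h) (Ev (h * rL23)) * 0 + B (Ev h) (Ev h) * 0 ^ 2 =
        B (Ev (h * rL23)) (Ev (h * rL23)) := by ring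
    rw [e] at key
    refine key.congr' (hs0.mono fun j hj0 => ?_)
    beta_reduce
    rw [hexp, Ev_add, Ev_smul]
    simp only [B_add_left, B_add_right, B_smul_left, B_smul_right]
    rw [B_comm (Ev (hj j * rL23)) (Ev (hj j))]
    field_simp
    ring
  · have key := tβ.add (tα.mul ht)
    have e : (h * rL23).trace + h.trace * 0 = (h * rL23).trace := by ring
    rw [e] at key
    refine key.congr' (hs0.mono fun j hj0 => ?_)
    beta_reduce
    rw [hexp, Matrix.trace_add, Matrix.trace_smul, smul_eq_mul]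
    field_simp
    ring

end C37
end

section

/-!
MP_c37615_al D TASK T25b: the 2x2 block of a matrix M: bt M = matrix of (N M) restricted to Im N = span(x2,y3), in the basis (x2,y3); N = rL23.

N v = (v 2 + v 6) x2 + (-(v 1 + v 5)) y3  (x3-coordinate of v is -(v2+v6), N x3 = -x2; y2-coordinate is -(v1+v5), N y2 = y3).
`bt_mul`: N M N M' on Im N.  `bt_trace`: trace (M N) = trace (N M) and N M has image in Im N.
`bt_disc`: h ∈ G, X = h x2, Y = h y3: null, B X Y = 0, cross X Y = 0.  N = rk1-combination: N v = -2 (B y3 v) x2 + ... precisely N = 2 • (rk1 y3 x2) - 2 • (rk1 x2 y3) up to checking signs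
 (x3* = -2 y3, y2* = -2 x2: N = -x2 ⊗ x3* + y3 ⊗ y2* = 2 rk1 x2 y3 - 2 rk1 y3 x2).  So h N = 2 rk1 X y3 - 2 rk1 Y x2, Ev (h N) = 2 cross X y3 - 2 cross Y x2,
 B(..)(..) = 4 [ B(X×y3,X×y3) + B(Y×x2,Y×x2) - 2 B(X×y3, Y×x2) ] = 4 [ -(B X y3)² - (B Y x2)² - 2 B (X×y3) (Y×x2) ].
 Polarised q_cross: B(X×y3,Y×x2) + B(X×x2,Y×y3) = 2 B X Y B y3 x2 - B X y3 B Y x2 - B X x2 B Y y3 = -(B X y3)(B Y x2) - (B X x2)(B Y y3).
 `special_pair`: cross X (cross Y v) = - B Y v X + 2 B X v Y for a special pair (X,Y null, B X Y = 0, cross X Y = 0); so B (X×x2) (Y×y3) = - B x2 (X × (Y×y3)) = B Y y3 B X x2 - 2 B X y3 B Y x2.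
 Hence B(X×y3,Y×x2) = (B X y3)(B Y x2) - 2 (B X x2)(B Y y3).  In coordinates bt h = [[ 2·B X y3.., ...]]: (bt h) 0 0 = X 2 + X 6 = -(x3-coord of X) = 2 B X y3, (bt h) 0 1 = 2 B Y y3, (bt h) 1 0 = -2 B X x2, (bt h) 1 1 = -2 B Y x2.
 trace = 2 B X y3 - 2 B Y x2, det = -4 B X y3 B Y x2 + 4 B Y y3 B X x2, trace² - 4 det = 4 (BXy3)² + 4 (BYx2)² + 8 BXy3 BYx2 - 16 BYy3 BXx2.  Matches.
 (`special_pair` proof: both sides are linear in v.  For X,Y independent, or use: from cross_cross_polar X Y v: cross X (cross Y v) + cross Y (cross X v) = B X v Y + B Y v X; the difference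
  D v = cross X (cross Y v) - cross Y (cross X v) satisfies D v = 3 (B X v Y - B Y v X) for special pairs; since G is transitive on special pairs up to scaling one may transport to X = x2, Y = y3 with
  `GX_trans_flag`; here X = h x2, Y = h y3 so simply transport the identity for (x2,y3) by h: cross (h a) (h b) = h (cross a b).)
-/

set_option autoImplicit false

namespace C37

noncomputable def bt (M : Mat) : Matrix (Fin 2) (Fin 2) ℝ :=
  !![ (M.mulVec x2) 2 + (M.mulVec x2) 6, (M.mulVec y3) 2 + (M.mulVec y3) 6;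
      -((M.mulVec x2) 1 + (M.mulVec x2) 5), -((M.mulVec y3) 1 + (M.mulVec y3) 5) ]

theorem rL23_mulVec (v : V) : rL23.mulVec v = (v 2 + v 6) • x2 + (-(v 1 + v 5)) • y3 := by
  ext i
  fin_cases i <;>
    simp [rL23, ofNull, Matrix.mulVec, dotProduct, Fin.sum_univ_succ, ev, x2, y3, Pi.single_apply] <;>
    ring
theorem bt_mul (M M' : Mat) : bt (M * rL23 * M') = bt M * bt M' := by
  have h : ∀ v : V, (M * rL23 * M').mulVec v = ((M'.mulVec v) 2 + (M'.mulVec v) 6) • M.mulVec x2 +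
      (-((M'.mulVec v) 1 + (M'.mulVec v) 5)) • M.mulVec y3 := by
    intro v
    rw [← Matrix.mulVec_mulVec, ← Matrix.mulVec_mulVec, rL23_mulVec, Matrix.mulVec_add,
      Matrix.mulVec_smul, Matrix.mulVec_smul]
  unfold bt
  rw [h, h, Matrix.mul_fin_two]
  simp only [Pi.add_apply, Pi.smul_apply, smul_eq_mul]
  congr 1
  refine congrArg₂ _ ?_ (congrArg₂ _ ?_ rfl)
  · refine congrArg₂ _ (by ring) (congrArg₂ _ (by ring) rfl)
  · refine congrArg₂ _ (by ring) (congrArg₂ _ (by ring) rfl)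
theorem bt_trace (M : Mat) : (M * rL23).trace = (bt M).trace := by
  unfold bt
  rw [Matrix.trace_fin_two_of]
  have h : ∀ i, (M * rL23) i i = ((M * rL23).mulVec (ev i)) i := by
    intro i
    simp [ev]
  have h2 : ∀ v : V, (M * rL23).mulVec v = (v 2 + v 6) • M.mulVec x2 +
      (-(v 1 + v 5)) • M.mulVec y3 := by
    intro v
    rw [← Matrix.mulVec_mulVec, rL23_mulVec, Matrix.mulVec_add,
      Matrix.mulVec_smul, Matrix.mulVec_smul]
  unfold Matrix.trace
  simp only [Matrix.diag_apply, h, h2, Fin.sum_univ_succ]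
  simp [ev, Pi.single_apply]
  ring
private theorem T25b_N : rL23 = (2 : ℝ) • rk1 x2 y3 + (-2 : ℝ) • rk1 y3 x2 := by
  refine Matrix.ext fun i j => ?_
  fin_cases i <;> fin_cases j <;>
    simp [rL23, ofNull, rk1, sg, ev, x2, y3, Pi.single_apply] <;> norm_num

private theorem T25b_sp (v : V) : cross x2 (cross y3 v) = (-(B y3 v)) • x2 + (2 * B x2 v) • y3 := by
  ext i
  fin_cases i <;> simp [cross, B, x2, y3] <;> ring

private theorem T25b_special {h : Mat} (hh : InG h) (v : V) :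
    cross (h.mulVec x2) (cross (h.mulVec y3) v) =
      (-(B (h.mulVec y3) v)) • h.mulVec x2 + (2 * B (h.mulVec x2) v) • h.mulVec y3 := by
  obtain ⟨_, h1, _⟩ := InG_inv h hh
  have hv : v = h.mulVec (h⁻¹.mulVec v) := by
    rw [Matrix.mulVec_mulVec, h1, Matrix.one_mulVec]
  rw [hv, (GX_B h hh _ _).2.1, (GX_B h hh _ _).2.1, T25b_sp, Matrix.mulVec_add, Matrix.mulVec_smul,
    Matrix.mulVec_smul, (GX_B h hh _ _).1, (GX_B h hh _ _).1]

theorem bt_disc (h : Mat) (hh : InG h) :
    B (Ev (h * rL23)) (Ev (h * rL23)) = -((bt h).trace ^ 2 - 4 * (bt h).det) := by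
  have e1 : h * rL23 = (2 : ℝ) • rk1 (h.mulVec x2) y3 + (-2 : ℝ) • rk1 (h.mulVec y3) x2 := by
    rw [T25b_N, Matrix.mul_add, Matrix.mul_smul, Matrix.mul_smul, mul_rk1, mul_rk1]
  have sp := T25b_special hh x2
  have hX : B (h.mulVec x2) (h.mulVec x2) = 0 := by
    rw [(GX_B h hh _ _).1]; simp [B, x2]; norm_num
  have hY : B (h.mulVec y3) (h.mulVec y3) = 0 := by
    rw [(GX_B h hh _ _).1]; simp [B, y3]; norm_num
  have hbt : bt h = !![2 * B (h.mulVec x2) y3, 2 * B (h.mulVec y3) y3;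
      -2 * B (h.mulVec x2) x2, -2 * B (h.mulVec y3) x2] := by
    unfold bt
    have h1 : ∀ v : V, B v y3 = (v 2 + v 6) / 2 := by
      intro v; simp [B, y3]; ring
    have h2 : ∀ v : V, B v x2 = (v 1 + v 5) / 2 := by
      intro v; simp [B, x2]; ring
    rw [h1, h1, h2, h2]
    refine congrArg _ ?_
    refine congrArg₂ _ ?_ (congrArg₂ _ ?_ rfl)
    · refine congrArg₂ _ (by ring) (congrArg₂ _ (by ring) rfl)
    · refine congrArg₂ _ (by ring) (congrArg₂ _ (by ring) rfl)
  rw [hbt, Matrix.trace_fin_two_of, Matrix.det_fin_two_of, e1, Ev_add, Ev_smul, Ev_smul, Ev_rk1,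
    Ev_rk1]
  generalize h.mulVec x2 = X at *
  generalize h.mulVec y3 = Y at *
  have q1 := q_cross_null X y3 hX
  have q2 := q_cross_null Y x2 hY
  have q3 : B (cross X y3) (cross Y x2) = B Y x2 * B X y3 - 2 * (B X x2 * B Y y3) := by
    rw [cross_anti X y3, ← neg_one_smul ℝ (cross y3 X), B_smul_left, B_cross_cycl, sp,
      B_add_right, B_smul_right, B_smul_right, B_comm y3 X, B_comm y3 Y]
    ring
  rw [B_add_left, B_add_right, B_add_right, B_smul_left, B_smul_left, B_smul_left, B_smul_left,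
    B_smul_right, B_smul_right, B_smul_right, B_smul_right, B_comm (cross Y x2) (cross X y3), q1, q2,
    q3]
  ring
theorem bt_continuous : Continuous bt := by
  have h : ∀ (v : V) (k : Fin 7), Continuous fun M : Mat => (M.mulVec v) k := by
    intro v k
    exact (continuous_apply k).comp (Continuous.matrix_mulVec continuous_id continuous_const)
  refine continuous_matrix fun i j => ?_
  fin_cases i <;> fin_cases j
  · exact (h x2 2).add (h x2 6)
  · exact (h y3 2).add (h y3 6)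
  · exact ((h x2 1).add (h x2 5)).neg
  · exact ((h y3 1).add (h y3 5)).neg

theorem bt_smul (c : ℝ) (M : Mat) : bt (c • M) = c • bt M := by
  unfold bt
  rw [Matrix.smul_mulVec, Matrix.smul_mulVec]
  refine Matrix.ext fun i j => ?_
  fin_cases i <;> fin_cases j <;> simp <;> ring

end C37
end

section

/-!
MP_c37615_al D TASK T25c: the cone closure of lin Γ.

`Cone Γ` = matrices M that are limits of c_k • lin δ_k with c_k > 0, δ_k ∈ Γ.
`cone_mul`: multiply the sequences.  `cone_lin`: constant sequence.  `cone_N`: c_j = 1/s_j (for s_j > 0; shift the sequence), lin γ_j = lin b_j * (1 + s_j N) (from NearOne.left), b_j -> 1.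
`cone_disc`: closed homogeneous condition, true for c • g, g ∈ G (`bt_disc`, Ev_smul, bt_smul), so for limits (continuous_Ev, bt_continuous).
`cone_hyp`: M = lim c_k lin δ_k with det M = 0: c_k^7 = det (c_k lin δ_k) -> 0 (det lin δ_k = 1, `GX_B`), so c_k -> 0; c_k trace -> trace M ≠ 0 so |trace lin δ_k| -> ∞; c_k² B(Ev)(Ev) -> B (Ev M) (Ev M) < 0.
-/

set_option autoImplicit false

open Filter Topology

namespace C37

def Cone (Γ : Subgroup (V ≃ᵃ[ℝ] V)) : Set Mat :=
  {M | ∃ (c : ℕ → ℝ) (δ : ℕ → V ≃ᵃ[ℝ] V), (∀ k, 0 < c k) ∧ (∀ k, δ k ∈ Γ) ∧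
    Tendsto (fun k => c k • lin (δ k)) atTop (𝓝 M)}

theorem cone_mul (Γ : Subgroup (V ≃ᵃ[ℝ] V)) (M M' : Mat) (h : M ∈ Cone Γ) (h' : M' ∈ Cone Γ) : M * M' ∈ Cone Γ := by
  obtain ⟨c, δ, hc, hδ, ht⟩ := h
  obtain ⟨c', δ', hc', hδ', ht'⟩ := h'
  refine ⟨fun k => c k * c' k, fun k => δ k * δ' k, fun k => mul_pos (hc k) (hc' k),
    fun k => Γ.mul_mem (hδ k) (hδ' k), ?_⟩
  have := ht.mul ht'
  refine this.congr (fun k => ?_)
  rw [lin_mul, smul_mul_smul_comm]

theorem cone_lin (Γ : Subgroup (V ≃ᵃ[ℝ] V)) (γ : V ≃ᵃ[ℝ] V) (h : γ ∈ Γ) : lin γ ∈ Cone Γ := by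
  refine ⟨fun _ => 1, fun _ => γ, fun _ => one_pos, fun _ => h, ?_⟩
  simp

private theorem T25c_left (Z : Mat) (a : V) (γ b : V ≃ᵃ[ℝ] V) (s : ℝ)
    (hn : ∀ v, γ v = b ((expZ Z s).mulVec v + trZ Z a s)) : lin γ = lin b * expZ Z s := by
  have h0 : tv γ = (lin b).mulVec (trZ Z a s) + tv b := by
    have := hn 0
    rw [Matrix.mulVec_zero, zero_add, aff_apply b] at this
    exact this
  have h1 : ∀ v : V, (lin γ).mulVec v = (lin b * expZ Z s).mulVec v := by
    intro v
    have := hn v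
    rw [aff_apply γ, aff_apply b, h0, Matrix.mulVec_add, ← Matrix.mulVec_mulVec] at *
    have h2 : (lin γ).mulVec v + ((lin b).mulVec (trZ Z a s) + tv b)
        = (lin b).mulVec ((expZ Z s).mulVec v) + ((lin b).mulVec (trZ Z a s) + tv b) := by
      rw [this]; abel
    exact add_right_cancel h2
  apply Matrix.ext_of_mulVec_single
  intro i
  exact h1 _

theorem cone_N (Γ : Subgroup (V ≃ᵃ[ℝ] V)) (a : V) (γ b : ℕ → V ≃ᵃ[ℝ] V) (s : ℕ → ℝ) (hn : NearOne Γ rL23 a γ b s) :
    rL23 ∈ Cone Γ := by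
  obtain ⟨K, hK⟩ := Filter.eventually_atTop.mp (hn.sinf.eventually_gt_atTop 0)
  have hs : Tendsto (fun k => s (k + K)) atTop atTop := hn.sinf.comp (tendsto_add_atTop_nat K)
  have hb : Tendsto (fun k => lin (b (k + K))) atTop (𝓝 1) := hn.blin.comp (tendsto_add_atTop_nat K)
  refine ⟨fun k => (s (k + K))⁻¹, fun k => γ (k + K), fun k => inv_pos.mpr (hK _ (by omega)),
    fun k => hn.mem _, ?_⟩
  have h1 : Tendsto (fun k => lin (b (k + K)) * ((s (k + K))⁻¹ • (1 : Mat) + rL23)) atTop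
      (𝓝 (1 * ((0 : ℝ) • (1 : Mat) + rL23))) := by
    apply hb.mul
    apply Tendsto.add _ tendsto_const_nhds
    exact (tendsto_inv_atTop_zero.comp hs).smul_const _
  rw [zero_smul, zero_add, one_mul] at h1
  refine h1.congr (fun k => ?_)
  have hne : s (k + K) ≠ 0 := (hK (k + K) (by omega)).ne'
  rw [T25c_left _ _ _ _ _ (hn.left (k + K)), expZ, rL23_sq, smul_zero, add_zero, ← Matrix.mul_smul,
    smul_add, smul_smul, inv_mul_cancel₀ hne, one_smul]

theorem cone_disc (Γ : Subgroup (V ≃ᵃ[ℝ] V)) (hΓ : Cryst Γ) (M : Mat) (h : M ∈ Cone Γ) :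
    B (Ev (M * rL23)) (Ev (M * rL23)) = -((bt M).trace ^ 2 - 4 * (bt M).det) := by
  obtain ⟨c, δ, hc, hδ, ht⟩ := h
  have hcl : IsClosed {M : Mat | B (Ev (M * rL23)) (Ev (M * rL23)) = -((bt M).trace ^ 2 - 4 * (bt M).det)} := by
    apply isClosed_eq
    · exact continuous_Bself.comp (continuous_Ev.comp (continuous_id.mul continuous_const))
    · apply Continuous.neg
      apply Continuous.sub
      · exact (Continuous.matrix_trace bt_continuous).pow 2
      · exact continuous_const.mul (Continuous.matrix_det bt_continuous)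
  refine hcl.mem_of_tendsto ht (Filter.Eventually.of_forall (fun k => ?_))
  have hd := bt_disc (lin (δ k)) (Cryst.lin_InG hΓ (δ k) (hδ k))
  show B (Ev ((c k • lin (δ k)) * rL23)) (Ev ((c k • lin (δ k)) * rL23))
    = -((bt (c k • lin (δ k))).trace ^ 2 - 4 * (bt (c k • lin (δ k))).det)
  rw [Matrix.smul_mul, Ev_smul, B_smul_left, B_smul_right, hd, bt_smul, Matrix.trace_smul, Matrix.det_smul]
  simp only [Fintype.card_fin, smul_eq_mul]
  ring

theorem cone_hyp (Γ : Subgroup (V ≃ᵃ[ℝ] V)) (hΓ : Cryst Γ) (M : Mat) (h : M ∈ Cone Γ) (hdet : M.det = 0)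
    (hq : B (Ev M) (Ev M) < 0) (ht : M.trace ≠ 0) : ∃ δ ∈ Γ, Hyp (lin δ) := by
  obtain ⟨c, δ, hc, hδ, hlim⟩ := h
  have hpow : Tendsto (fun k => (c k) ^ 7) atTop (𝓝 0) := by
    have hcd : Continuous (fun A : Mat => Matrix.det A) := Continuous.matrix_det continuous_id
    have h0 := (hcd.tendsto M).comp hlim
    have h1 : Tendsto (fun k => (c k • lin (δ k)).det) atTop (𝓝 M.det) := by
      simpa only [Function.comp_def] using h0
    rw [hdet] at h1
    refine h1.congr (fun k => ?_)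
    rw [Matrix.det_smul, (GX_B _ (Cryst.lin_InG hΓ (δ k) (hδ k)) 0 0).2.2, mul_one, Fintype.card_fin]
  have hc0 : Tendsto c atTop (𝓝 0) := by
    rw [tendsto_order]
    constructor
    · intro a ha
      exact Filter.Eventually.of_forall (fun k => ha.trans (hc k))
    · intro a ha
      have h2 := (tendsto_order.mp hpow).2 (a ^ 7) (by positivity)
      filter_upwards [h2] with k hk
      exact lt_of_pow_lt_pow_left₀ 7 ha.le hk
  have htr : Tendsto (fun k => c k * (lin (δ k)).trace + c k) atTop (𝓝 (M.trace + 0)) := by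
    apply Tendsto.add _ hc0
    have h1 : Tendsto (fun k => (c k • lin (δ k)).trace) atTop (𝓝 M.trace) :=
      ((Continuous.matrix_trace continuous_id).tendsto M).comp hlim
    refine h1.congr (fun k => ?_)
    rw [Matrix.trace_smul, smul_eq_mul]
  rw [add_zero] at htr
  have hB : Tendsto (fun k => B (Ev (c k • lin (δ k))) (Ev (c k • lin (δ k)))) atTop (𝓝 (B (Ev M) (Ev M))) :=
    ((continuous_Bself.comp continuous_Ev).tendsto M).comp hlim
  have h3 := htr.eventually_ne ht
  have h4 := (tendsto_order.mp hB).2 0 hq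
  obtain ⟨k, hk3, hk4⟩ := (h3.and h4).exists
  refine ⟨δ k, hδ k, ?_, ?_⟩
  · rw [Ev_smul, B_smul_left, B_smul_right] at hk4
    by_contra hcon
    push Not at hcon
    have : 0 ≤ c k * (c k * B (Ev (lin (δ k))) (Ev (lin (δ k)))) :=
      mul_nonneg (hc k).le (mul_nonneg (hc k).le hcon)
    linarith
  · intro hcon
    apply hk3
    rw [hcon]
    ring

end C37
end

section

/-!
MP_c37615_al D TASK T25d: existence of a Hyp element if there is a NearOne sequence for the long root vector.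

`bt_generic`: the entries of bt (lin h) and its trace are functionals trace (lin h * M), M ≠ 0 (`zd_trace`).  Choose h1 ∈ Γ with trace (bt h1) ≠ 0 and (bt h1) 0 1 ≠ 0.  With A = bt h1 the functional
 X ↦ (A X - X A) 0 0 = A01 X10 - A10 X01 is nonzero, so h ↦ that of bt (lin h) is trace (lin h * M'), M' ≠ 0 (because (bt M) takes all values: e.g. M = matrices rk1).  Choose h2 ∈ Γ with this ≠ 0 and trace (bt h2) ≠ 0.
`exists_hyp_of_long`: a = bt h1, b = bt h2: `gl2_word` gives w ≠ 1 in the submonoid generated, trace² > 4 det, trace ≠ 0.  By `Submonoid.closure_induction`: every element w of the submonoid is 1 or bt M for some M ∈ Cone Γ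
 (a = bt (lin h1), b = bt (lin h2); bt M * bt M' = bt (M * rL23 * M'), `cone_mul`, `cone_N`).  So w = bt M, M ∈ Cone Γ.  M * rL23 ∈ Cone Γ, det = 0 (rL23² = 0), trace = trace w ≠ 0 (`bt_trace`),
 B(Ev)(Ev) = -(trace² - 4 det) < 0 (`cone_disc`).  `cone_hyp`.
-/

set_option autoImplicit false

open Filter Topology

namespace C37

private def T25d_w0 : V := ![0, 0, 1, 0, 0, 0, 1]
private def T25d_w1 : V := ![0, -1, 0, 0, 0, -1, 0]

private theorem T25d_dot (h : Mat) (x w : V) :
    (h * Matrix.vecMulVec x w).trace = (h.mulVec x) ⬝ᵥ w := by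
  rw [Matrix.mul_vecMulVec, Matrix.trace_vecMulVec]

private theorem T25d_dot0 (v : V) : v ⬝ᵥ T25d_w0 = v 2 + v 6 := by
  simp [dotProduct, T25d_w0, Fin.sum_univ_succ]

private theorem T25d_dot1 (v : V) : v ⬝ᵥ T25d_w1 = -(v 1 + v 5) := by
  simp [dotProduct, T25d_w1, Fin.sum_univ_succ]
  show -v 1 + -v 5 = -v 5 + -v 1
  ring

private theorem T25d_N : rL23 ≠ 0 := by
  intro h0
  have h1 := rL23_mulVec (Pi.single 2 1)
  rw [h0, Matrix.zero_mulVec] at h1
  have h2 := congrFun h1 1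
  simp [x2, y3] at h2

theorem bt_generic (Γ : Subgroup (V ≃ᵃ[ℝ] V)) (h : Cryst Γ) : ∃ h1 ∈ Γ, ∃ h2 ∈ Γ, (bt (lin h1)).trace ≠ 0 ∧ (bt (lin h2)).trace ≠ 0 ∧
    bt (lin h1) * bt (lin h2) ≠ bt (lin h2) * bt (lin h1) := by
  have hM2 : Matrix.vecMulVec y3 T25d_w0 ≠ 0 := by
    intro h0
    have h1 := congrFun (congrFun h0 2) 2
    simp [Matrix.vecMulVec, y3, T25d_w0] at h1
  obtain ⟨h1, hh1, hL1⟩ := zd_trace Γ h [rL23, Matrix.vecMulVec y3 T25d_w0] (by
    intro M hM
    simp only [List.mem_cons, List.not_mem_nil, or_false] at hM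
    rcases hM with rfl | rfl
    · exact T25d_N
    · exact hM2)
  have ht1 := hL1 rL23 (by simp)
  have hA01 := hL1 (Matrix.vecMulVec y3 T25d_w0) (by simp)
  rw [bt_trace] at ht1
  rw [T25d_dot, T25d_dot0] at hA01
  set A := bt (lin h1) with hA
  have hA01' : A 0 1 ≠ 0 := by
    rw [hA]; simpa [bt] using hA01
  have hM3 : (A 0 1) • Matrix.vecMulVec x2 T25d_w1 - (A 1 0) • Matrix.vecMulVec y3 T25d_w0 ≠ 0 := by
    intro h0
    have h1 := congrFun (congrFun h0 1) 1
    simp [Matrix.vecMulVec, x2, y3, T25d_w0, T25d_w1] at h1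
    exact hA01' h1
  obtain ⟨h2, hh2, hL2⟩ := zd_trace Γ h
    [rL23, (A 0 1) • Matrix.vecMulVec x2 T25d_w1 - (A 1 0) • Matrix.vecMulVec y3 T25d_w0] (by
    intro M hM
    simp only [List.mem_cons, List.not_mem_nil, or_false] at hM
    rcases hM with rfl | rfl
    · exact T25d_N
    · exact hM3)
  have ht2 := hL2 rL23 (by simp)
  have hc := hL2 ((A 0 1) • Matrix.vecMulVec x2 T25d_w1 - (A 1 0) • Matrix.vecMulVec y3 T25d_w0) (by simp)
  rw [bt_trace] at ht2
  rw [Matrix.mul_sub, Matrix.trace_sub, Matrix.mul_smul, Matrix.mul_smul, Matrix.trace_smul, Matrix.trace_smul,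
    T25d_dot, T25d_dot, T25d_dot0, T25d_dot1, smul_eq_mul, smul_eq_mul] at hc
  refine ⟨h1, hh1, h2, hh2, ht1, ht2, ?_⟩
  intro hcomm
  apply hc
  have h00 := congrFun (congrFun hcomm 0) 0
  rw [Matrix.mul_apply, Matrix.mul_apply, Fin.sum_univ_two, Fin.sum_univ_two, ← hA] at h00
  have e10 : bt (lin h2) 1 0 = -(((lin h2).mulVec x2) 1 + ((lin h2).mulVec x2) 5) := by simp [bt]
  have e01 : bt (lin h2) 0 1 = (((lin h2).mulVec y3) 2 + ((lin h2).mulVec y3) 6) := by simp [bt]
  rw [← e10, ← e01]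
  linarith

theorem exists_hyp_of_long (Γ : Subgroup (V ≃ᵃ[ℝ] V)) (h : Cryst Γ) (a : V) (γ b : ℕ → V ≃ᵃ[ℝ] V) (s : ℕ → ℝ)
    (hn : NearOne Γ rL23 a γ b s) : ∃ δ ∈ Γ, Hyp (lin δ) := by
  obtain ⟨h1, hh1, h2, hh2, ht1, ht2, hne⟩ := bt_generic Γ h
  obtain ⟨w, hw, hw1, hwd, hwt⟩ := gl2_word (bt (lin h1)) (bt (lin h2)) ht1 ht2 hne
  have hN : rL23 ∈ Cone Γ := cone_N Γ a γ b s hn
  have key : w = 1 ∨ ∃ M ∈ Cone Γ, bt M = w := by
    refine Submonoid.closure_induction
      (motive := fun w _ => w = 1 ∨ ∃ M ∈ Cone Γ, bt M = w) ?_ ?_ ?_ hw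
    · intro x hx
      simp only [Set.mem_insert_iff, Set.mem_singleton_iff] at hx
      rcases hx with rfl | rfl
      · exact Or.inr ⟨lin h1, cone_lin Γ h1 hh1, rfl⟩
      · exact Or.inr ⟨lin h2, cone_lin Γ h2 hh2, rfl⟩
    · exact Or.inl rfl
    · intro x y _ _ hx hy
      rcases hx with rfl | ⟨M, hM, rfl⟩
      · rcases hy with rfl | ⟨M', hM', rfl⟩
        · left; rw [one_mul]
        · right; exact ⟨M', hM', by rw [one_mul]⟩
      · rcases hy with rfl | ⟨M', hM', rfl⟩
        · right; exact ⟨M, hM, by rw [mul_one]⟩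
        · right
          exact ⟨M * rL23 * M', cone_mul Γ _ _ (cone_mul Γ _ _ hM hN) hM', bt_mul M M'⟩
  rcases key with hk | ⟨M, hM, hMw⟩
  · exact absurd hk hw1
  · apply cone_hyp Γ h (M * rL23) (cone_mul Γ _ _ hM hN)
    · have hdN : (rL23).det = 0 := by
        have h2 : (rL23).det * (rL23).det = 0 := by
          rw [← Matrix.det_mul, rL23_sq]
          exact Matrix.det_zero
        exact mul_self_eq_zero.mp h2
      rw [Matrix.det_mul, hdN, mul_zero]
    · rw [cone_disc Γ h M hM, hMw]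
      linarith
    · rw [bt_trace, hMw]
      exact hwt

end C37
end

section

/-!
MP_c37615_al D TASK T26a: a good element h ∈ Γ for the long root argument.

`trace_rec`: if W is invertible and trace (A * W^n * M) = 0 for all n ≥ n0 then trace (A * M) = 0.  (Cayley-Hamilton: the constant coefficient of charpoly W is ± det W ≠ 0, so W^n is a combination of W^{n+1},…,W^{n+7};
 downward induction from n0 to 0.)
`good_h`: w ∈ Γ Hyp, `HypData_of_Hyp` for lin w: (p,r,ρ), W = (lin w)².  Let M = MN a ≠ 0.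
 Choose γ ∈ Γ with N (lin γ r) ≠ 0: take any u with N u ≠ 0 and γ with B (lin γ r) (N u) ≠ 0 (`zd_B`; B (lin γ r) (N u) = - B (N lin γ r) u).  f2 = γ⁻¹, z = N (lin f2⁻¹ r) ≠ 0.
 Choose f1 ∈ Γ with B z (lin f1 p) ≠ 0 and trace (lin f1 * (lin f2 * M)) ≠ 0 (`zd_trace` for the list [rk1 p z, lin f2 * M]).
 By `trace_rec` there are arbitrarily large n with trace (lin f1 * W^n * lin f2 * M) ≠ 0.  h = f1 w^{2n} f2.
 As n -> ∞: ρ^{-2n} lin h -> (1/B r p) lin f1 (rk1 p r) lin f2 (`hyp_top`), and (rk1 p r) lin f2 N = rk1 p (-(N (lin f2⁻¹ r))) = rk1 p (-z) (`rk1_mul_iso`, `rk1_mul_anti`);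
 so ρ^{-2n} (lin h) N -> -(1/B r p) rk1 (lin f1 p) z, with trace -(1/B r p) B z (lin f1 p) ≠ 0 and Ev = -(1/B r p) cross (lin f1 p) z, B(Ev)(Ev) = -(B (lin f1 p) z)²/(B r p)² < 0 (`q_cross_null`).
 So for n large and trace(..M) ≠ 0 all three conditions hold.
-/

set_option autoImplicit false

open Filter Topology

namespace C37

/-- downward induction step -/
private theorem T26a_step (A W M : Mat) (hW : W.det ≠ 0) (m : ℕ)
    (h : ∀ n, m < n → (A * W ^ n * M).trace = 0) : (A * W ^ m * M).trace = 0 := by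
  have h1 : Polynomial.aeval W W.charpoly = 0 := Matrix.aeval_self_charpoly W
  rw [Polynomial.aeval_eq_sum_range] at h1
  have h2 : (A * (W ^ m * ∑ i ∈ Finset.range (W.charpoly.natDegree + 1),
      W.charpoly.coeff i • W ^ i) * M).trace = 0 := by
    rw [h1]; simp
  have h3 : A * (W ^ m * ∑ i ∈ Finset.range (W.charpoly.natDegree + 1),
      W.charpoly.coeff i • W ^ i) * M = ∑ i ∈ Finset.range (W.charpoly.natDegree + 1),
      W.charpoly.coeff i • (A * W ^ (m + i) * M) := by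
    rw [Finset.mul_sum, Finset.mul_sum, Finset.sum_mul]
    refine Finset.sum_congr rfl fun i _ => ?_
    rw [Matrix.mul_smul, Matrix.mul_smul, Matrix.smul_mul, ← pow_add]
  rw [h3, Matrix.trace_sum] at h2
  have h4 : ∑ i ∈ Finset.range (W.charpoly.natDegree + 1),
      (W.charpoly.coeff i • (A * W ^ (m + i) * M)).trace =
      W.charpoly.coeff 0 * (A * W ^ m * M).trace := by
    rw [Finset.sum_eq_single 0]
    · rw [Matrix.trace_smul, smul_eq_mul, add_zero]
    · intro i _ hi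
      rw [Matrix.trace_smul, h (m + i) (by omega), smul_zero]
    · intro hi
      exact absurd (Finset.mem_range.2 (Nat.succ_pos _)) hi
  rw [h4] at h2
  have h5 : W.charpoly.coeff 0 ≠ 0 := by
    intro h0
    apply hW
    rw [Matrix.det_eq_sign_charpoly_coeff, h0, mul_zero]
  exact (mul_eq_zero.1 h2).resolve_left h5

theorem trace_rec (A W M : Mat) (hW : W.det ≠ 0) (n0 : ℕ) (h : ∀ n, n0 ≤ n → (A * W ^ n * M).trace = 0) : (A * M).trace = 0 := by
  have key : ∀ k, k ≤ n0 → ∀ n, n0 - k ≤ n → (A * W ^ n * M).trace = 0 := by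
    intro k
    induction k with
    | zero => intro _ n hn; exact h n hn
    | succ k ih =>
      intro hk n hn
      rcases Nat.lt_or_ge n (n0 - k) with h1 | h1
      · have h2 : n = n0 - (k + 1) := by omega
        refine T26a_step A W M hW n ?_
        intro n' hn'
        exact ih (by omega) n' (by omega)
      · exact ih (by omega) n h1
  have h1 := key n0 le_rfl 0 (by omega)
  rwa [pow_zero, Matrix.mul_one] at h1

private theorem T26a_ne : ∃ u : V, rL23.mulVec u ≠ 0 := by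
  refine ⟨y2, ?_⟩
  intro h
  have h1 := congrFun h 2
  simp [rL23, ofNull, Matrix.mulVec, dotProduct, Fin.sum_univ_succ, ev, y2, x2, y3, Pi.single_apply] at h1

theorem good_h (Γ : Subgroup (V ≃ᵃ[ℝ] V)) (hΓ : Cryst Γ) (w : V ≃ᵃ[ℝ] V) (hw : w ∈ Γ) (hyp : Hyp (lin w)) (M : Mat) (hM : M ≠ 0) :
    ∃ h ∈ Γ, B (Ev (lin h * rL23)) (Ev (lin h * rL23)) < 0 ∧ (lin h * rL23).trace ≠ 0 ∧ (lin h * M).trace ≠ 0 := by
  have hwG := hΓ.lin_InG w hw
  obtain ⟨p, r, ρ, hd⟩ := HypData_of_Hyp (lin w) hwG hyp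
  have htop := hyp_top (lin w) hwG p r ρ hd
  have hBz : ∀ v : V, B 0 v = 0 := by
    intro v
    have := B_smul_left 0 0 v
    simpa using this
  have hp0 : p ≠ 0 := by
    intro h; exact hd.pr (by rw [h]; exact hBz r)
  have hr0 : r ≠ 0 := by
    intro h; exact hd.pr (by rw [h, B_comm]; exact hBz p)
  have hrp : B r p ≠ 0 := by rw [B_comm]; exact hd.pr
  obtain ⟨u, hu⟩ := T26a_ne
  obtain ⟨γ, hγ, hγ2⟩ := zd_B Γ hΓ r (rL23.mulVec u) hr0 hu
  set z : V := rL23.mulVec ((lin γ).mulVec r) with hz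
  have hz0 : z ≠ 0 := by
    intro h
    have h1 := rL23_anti ((lin γ).mulVec r) u
    rw [← hz, h, hBz] at h1
    exact hγ2 (by linarith)
  set f2 : V ≃ᵃ[ℝ] V := γ⁻¹ with hf2
  have hf2Γ : f2 ∈ Γ := Γ.inv_mem hγ
  have hlin := lin_inv γ
  have hf2inv : (lin f2)⁻¹ = lin γ := by
    rw [hf2]
    exact Matrix.inv_eq_left_inv hlin.2.1
  have hM2 : lin f2 * M ≠ 0 := by
    intro h
    apply hM
    have h1 : lin γ * (lin f2 * M) = M := by
      rw [← Matrix.mul_assoc, hf2, hlin.2.1, Matrix.one_mul]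
    rw [← h1, h, Matrix.mul_zero]
  have hrk : rk1 p z ≠ 0 := by
    intro h
    rcases rk1_eq_zero p z h with h | h
    · exact hp0 h
    · exact hz0 h
  obtain ⟨f1, hf1, hf1L⟩ := zd_trace Γ hΓ [rk1 p z, lin f2 * M] (by
    intro K hK
    simp only [List.mem_cons, List.not_mem_nil, or_false] at hK
    rcases hK with rfl | rfl
    · exact hrk
    · exact hM2)
  have ha := hf1L (rk1 p z) (by simp)
  have hb := hf1L (lin f2 * M) (by simp)
  rw [mul_rk1, trace_rk1] at ha
  have hf1G := hΓ.lin_InG f1 hf1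
  have hf2G := hΓ.lin_InG f2 hf2Γ
  -- the limit
  set K : Mat := lin f1 * ((1 / B r p) • rk1 p r) * lin f2 * rL23 with hK
  have hKeq : K = (1 / B r p) • rk1 ((lin f1).mulVec p) (-z) := by
    rw [hK, Matrix.mul_smul, Matrix.smul_mul, Matrix.smul_mul]
    congr 1
    rw [mul_rk1, rk1_mul_iso _ _ _ (fun a b => (GX_B _ hf2G a b).1)
      (by rw [(GX_B _ hf2G 0 0).2.2]; exact isUnit_one), hf2inv,
      rk1_mul_anti _ _ _ rL23_anti]
  have hlim : Tendsto (fun n : ℕ => (ρ ^ n)⁻¹ • (lin f1 * (lin w) ^ n * lin f2 * rL23)) atTop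
      (𝓝 K) := by
    have h1 : Continuous (fun X : Mat => lin f1 * X * lin f2 * rL23) := by fun_prop
    have h2 := (h1.tendsto _).comp htop
    refine h2.congr fun n => ?_
    simp only [Function.comp_apply, Matrix.mul_smul, Matrix.smul_mul]
  have hBneg : B (Ev K) (Ev K) < 0 := by
    rw [hKeq, Ev_smul, Ev_rk1, B_smul_left, B_smul_right, q_cross_null]
    · have h1 : B ((lin f1).mulVec p) (-z) ≠ 0 := by
        have h2 : B ((lin f1).mulVec p) (-z) = -B z ((lin f1).mulVec p) := by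
          have h3 := B_smul_right (-1) ((lin f1).mulVec p) z
          rw [neg_one_smul, B_comm ((lin f1).mulVec p) z] at h3
          rw [h3]; ring
        rw [h2]; exact neg_ne_zero.2 ha
      have h4 : 0 < (1 / B r p) ^ 2 := by positivity
      have h5 : 0 < B ((lin f1).mulVec p) (-z) ^ 2 := by positivity
      have h6 : 0 < (1 / B r p) ^ 2 * B ((lin f1).mulVec p) (-z) ^ 2 := mul_pos h4 h5
      nlinarith
    · rw [(GX_B _ hf1G p p).1]; exact hd.pnull
  have htr : K.trace ≠ 0 := by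
    rw [hKeq, Matrix.trace_smul, trace_rk1, smul_eq_mul]
    refine mul_ne_zero (one_div_ne_zero hrp) ?_
    have h3 := B_smul_left (-1) z ((lin f1).mulVec p)
    rw [neg_one_smul] at h3
    rw [h3]
    intro h; apply ha; linarith
  have hev1 : ∀ᶠ n : ℕ in atTop, B (Ev ((ρ ^ n)⁻¹ • (lin f1 * (lin w) ^ n * lin f2 * rL23)))
      (Ev ((ρ ^ n)⁻¹ • (lin f1 * (lin w) ^ n * lin f2 * rL23))) < 0 := by
    have h1 : Continuous (fun X : Mat => B (Ev X) (Ev X)) := continuous_Bself.comp continuous_Ev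
    exact ((h1.tendsto K).comp hlim).eventually (gt_mem_nhds hBneg)
  have hev2 : ∀ᶠ n : ℕ in atTop,
      ((ρ ^ n)⁻¹ • (lin f1 * (lin w) ^ n * lin f2 * rL23)).trace ≠ 0 := by
    have h1 : Continuous (fun X : Mat => X.trace) := continuous_id.matrix_trace
    exact ((h1.tendsto K).comp hlim).eventually (isOpen_ne.mem_nhds htr)
  obtain ⟨n0, hn0⟩ := eventually_atTop.1 (hev1.and hev2)
  have hWdet : (lin w).det ≠ 0 := by rw [(GX_B _ hwG 0 0).2.2]; exact one_ne_zero
  have hex : ∃ n, n0 ≤ n ∧ (lin f1 * (lin w) ^ n * (lin f2 * M)).trace ≠ 0 := by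
    by_contra hcon
    push Not at hcon
    exact hb (trace_rec (lin f1) (lin w) (lin f2 * M) hWdet n0 hcon)
  obtain ⟨n, hn, hnM⟩ := hex
  have hlinpow : ∀ n : ℕ, lin (w ^ n) = (lin w) ^ n := by
    intro n
    induction n with
    | zero => rw [pow_zero, pow_zero, lin_one]
    | succ n ih => rw [pow_succ, pow_succ, lin_mul, ih]
  refine ⟨f1 * w ^ n * f2, Γ.mul_mem (Γ.mul_mem hf1 (Γ.pow_mem hw n)) hf2Γ, ?_, ?_, ?_⟩
  · have h1 := (hn0 n hn).1
    rw [Ev_smul, B_smul_left, B_smul_right] at h1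
    rw [lin_mul, lin_mul, hlinpow]
    by_contra hcon
    push Not at hcon
    have h2 : 0 ≤ ((ρ ^ n)⁻¹) ^ 2 * B (Ev (lin f1 * (lin w) ^ n * lin f2 * rL23))
        (Ev (lin f1 * (lin w) ^ n * lin f2 * rL23)) := mul_nonneg (sq_nonneg _) hcon
    nlinarith
  · have h1 := (hn0 n hn).2
    rw [Matrix.trace_smul] at h1
    rw [lin_mul, lin_mul, hlinpow]
    intro h
    apply h1
    rw [h, smul_zero]
  · rw [lin_mul, lin_mul, hlinpow, Matrix.mul_assoc]
    exact hnM

end C37
end
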