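import Mathlib
import Pool.Agent.Lib.MP_c37615_al.Defs
import Pool.Agent.Lib.MP_c37615_al.Defs2
import Pool.Agent.Lib.MP_c37615_al.Mg.G017
import Pool.Agent.Lib.MP_c37615_al.D.Core
import Pool.Agent.Lib.MP_c37615_al.Mg.G027
import Pool.Agent.Lib.MP_c37615_al.Mg.G029
import Pool.Agent.Lib.MP_c37615_al.Mg.G025
import Pool.Agent.Lib.MP_c37615_al.D.T03
import Pool.Agent.Lib.MP_c37615_al.Mg.G028
import Pool.Agent.Lib.MP_c37615_al.Mg.G022
import Pool.Agent.Lib.MP_c37615_al.Mg.G023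
import Pool.Agent.Lib.MP_c37615_al.Mg.G033
import Pool.Agent.Lib.MP_c37615_al.Mg.G035
import Pool.Agent.Lib.MP_c37615_al.Mg.G040
import Pool.Agent.Lib.MP_c37615_al.Mg.G039
import Pool.Agent.Lib.MP_c37615_al.Mg.G041

section

/-!
MP_c37615_al D TASK T26b: no NearOne sequence for the long root vector (exported as D_LR).

N = rL23, N² = 0 (so N³ = 0), N ≠ 0, expZ N s ∈ G (`InG_exp_rL23`, expZ N s = 1 + s N).
If MN a = 0: a = N w (`CN_zero`): `nearOne_fixed`.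
Otherwise `exists_hyp_of_long`, `good_h` with M = MN a: h ∈ Γ.  `nearOne_pos` and `nearOne_neg` give h γ_j and h γ_j⁻¹ ∈ Γ; by `LR_tendsto` (parameters s_j and -s_j): for large j both are Hyp
 (B(Ev)(Ev)/s² -> negative, |trace| -> ∞ as trace/s -> nonzero) and Fs / (±s_j)³ -> trace (h N) trace (h MN a) ≠ 0: opposite signs.  `sign_lemma`: contradiction.
-/

set_option autoImplicit false

open Filter Topology

namespace C37

private theorem T26b_ne : rL23 ≠ 0 := by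
  intro h0
  have h : rL23.mulVec y2 = 0 := by rw [h0, Matrix.zero_mulVec]
  have h1 := congrFun h 2
  simp [rL23, ofNull, Matrix.mulVec, dotProduct, Fin.sum_univ_succ, ev, y2, x2, y3, Pi.single_apply] at h1

private theorem T26b_expZ (s : ℝ) : expZ rL23 s = 1 + s • rL23 := by
  rw [expZ, rL23_sq, smul_zero, add_zero]

/-- from the asymptotics: eventually Hyp -/
private theorem T26b_hyp (g : ℕ → Mat) (s : ℕ → ℝ) (c d : ℝ) (hc : c ≠ 0) (hd : d < 0)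
    (hs : Tendsto (fun j => |s j|) atTop atTop)
    (h1 : Tendsto (fun j => B (Ev (g j)) (Ev (g j)) / (s j) ^ 2) atTop (𝓝 d))
    (h2 : Tendsto (fun j => (g j).trace / s j) atTop (𝓝 c)) : ∀ᶠ j in atTop, Hyp (g j) := by
  have e1 : ∀ᶠ j in atTop, B (Ev (g j)) (Ev (g j)) / (s j) ^ 2 < 0 :=
    h1.eventually (gt_mem_nhds hd)
  have e2 : ∀ᶠ j in atTop, |c| / 2 < |(g j).trace / s j| := by
    have h3 : |c| / 2 < |c| := by
      have : 0 < |c| := abs_pos.2 hc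
      linarith
    exact h2.abs.eventually (lt_mem_nhds h3)
  have e3 : ∀ᶠ j in atTop, 2 / |c| + 1 < |s j| := hs.eventually_gt_atTop _
  filter_upwards [e1, e2, e3] with j a1 a2 a3
  have hc0 : 0 < |c| := abs_pos.2 hc
  have hs0 : 0 < |s j| := by
    have : 0 < 2 / |c| := by positivity
    linarith
  constructor
  · by_contra hcon
    push Not at hcon
    have : 0 ≤ B (Ev (g j)) (Ev (g j)) / (s j) ^ 2 := div_nonneg hcon (sq_nonneg _)
    linarith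
  · intro ht
    rw [ht, abs_div, abs_neg, abs_one, lt_div_iff₀ hs0] at a2
    have h4 : 2 / |c| < |s j| := by linarith
    rw [div_lt_iff₀ hc0] at h4
    linarith

theorem D_LR_proof (Γ : Subgroup (V ≃ᵃ[ℝ] V)) (h : Cryst Γ) (a : V) (γ b : ℕ → V ≃ᵃ[ℝ] V) (s : ℕ → ℝ)
    (hn : NearOne Γ rL23 a γ b s) : False := by
  have hZ3 : rL23 * rL23 * rL23 = 0 := by rw [rL23_sq, Matrix.zero_mul]
  have hE : ∀ s, InG (expZ rL23 s) := by
    intro s
    rw [T26b_expZ]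
    exact InG_exp_rL23 s
  by_cases hMN : MN a = 0
  · obtain ⟨w, hw⟩ := CN_zero a hMN
    rw [hw] at hn
    exact nearOne_fixed Γ h rL23 hZ3 T26b_ne w γ b s hn
  · obtain ⟨δ, hδ, hyp⟩ := exists_hyp_of_long Γ h a γ b s hn
    obtain ⟨k, hk, k1, k2, k3⟩ := good_h Γ h δ hδ hyp (MN a) hMN
    obtain ⟨hj, uj, p1, p2, p3, p4, p5⟩ := nearOne_pos Γ h rL23 hZ3 hE a γ b s hn k hk
    obtain ⟨hj', uj', q1, q2, q3, q4, q5⟩ := nearOne_neg Γ h rL23 hZ3 hE a γ b s hn k hk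
    have hsabs : Tendsto (fun j => |s j|) atTop atTop :=
      tendsto_abs_atTop_atTop.comp hn.sinf
    have hsabs' : Tendsto (fun j => |(-(s j))|) atTop atTop := by
      simp only [abs_neg]; exact hsabs
    obtain ⟨t1, t2, t3⟩ := LR_tendsto (lin k) a (tv k) hj uj s p1 p2 p3 hsabs
    obtain ⟨r1, r2, r3⟩ := LR_tendsto (lin k) a (tv k) hj' uj' (fun j => -(s j)) q1 q2 q3 hsabs'
    have y1 := T26b_hyp _ _ _ _ k2 k1 hsabs t2 t3
    have y2 := T26b_hyp _ _ _ _ k2 k1 hsabs' r2 r3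
    set c := (lin k * rL23).trace * (lin k * MN a).trace with hc
    have hc0 : c ≠ 0 := mul_ne_zero k2 k3
    have hprod := t1.mul r1
    have hcc : 0 < c * c := mul_self_pos.2 hc0
    have e1 := hprod.eventually (lt_mem_nhds hcc)
    have e2 : ∀ᶠ j in atTop, 0 < s j := hn.sinf.eventually_gt_atTop 0
    obtain ⟨j, ⟨⟨⟨a1, a2⟩, a3⟩, a4⟩⟩ := (((y1.and y2).and e1).and e2).exists
    have hF1 : FF (hj j * expZ rL23 (s j)) ((hj j).mulVec (trZ rL23 a (s j)) + uj j) =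
        Fs (k * γ j) := by rw [Fs, p4, p5]
    have hF2 : FF (hj' j * expZ rL23 (-(s j))) ((hj' j).mulVec (trZ rL23 a (-(s j))) + uj' j) =
        Fs (k * (γ j)⁻¹) := by rw [Fs, q4, q5]
    have a3' : 0 < Fs (k * γ j) / (s j) ^ 3 * (Fs (k * (γ j)⁻¹) / (-(s j)) ^ 3) := by
      rw [← hF1, ← hF2]; exact a3
    have hpos := sign_lemma Γ h (k * γ j) (k * (γ j)⁻¹) (Γ.mul_mem hk (hn.mem j))
      (Γ.mul_mem hk (Γ.inv_mem (hn.mem j))) (by rw [p4]; exact a1) (by rw [q4]; exact a2)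
    have hs6 : 0 < (s j) ^ 6 := by positivity
    have e : Fs (k * γ j) / (s j) ^ 3 * (Fs (k * (γ j)⁻¹) / (-(s j)) ^ 3) =
        -((Fs (k * γ j) * Fs (k * (γ j)⁻¹)) / (s j) ^ 6) := by
      have hsne : s j ≠ 0 := a4.ne'
      field_simp
    rw [e] at a3'
    have : 0 < (Fs (k * γ j) * Fs (k * (γ j)⁻¹)) / (s j) ^ 6 := div_pos hpos hs6
    linarith

end C37
end

section

/-!
MP_c37615_al D TASK T27b: the case dim V_{=1} = 3 (exported as D_alpha).

Choose h ∈ Γ with T = trace (lin h * (PiM * rSp1)) ≠ 0 (`zd_trace`; PiM * rSp1 ≠ 0).  The functions of σ: Q(σ) = B (Ev (hΠ) + σ Ev (hΠS)) (same) is a quadratic polynomial with leading coefficient -T² < 0 (`alpha_q`),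
 L(σ) = trace (hΠ) + σ T.  Choose t1 > C0 so large that for all σ ≥ t1 - C0: Q(σ) < 0 and L(σ) has the sign of T, and for all σ ≤ -t1 + C0: Q(σ) < 0 and L(σ) has the sign of -T.
 hseq t1: sequence with |σ_j - t1| ≤ C0: pass to a subsequence with σ_j -> σ0 ∈ [t1 - C0, t1 + C0] (compactness).  w_j = tv γ_j - (r_j μ) x1 bounded by C1.  lin (h γ_j) = lin h * (eH0 r_j * expZ S σ_j), tv (h γ_j) = lin h (tv γ_j) + tv h.
 By `alpha_tendsto`: for large j, h γ_j is Hyp (trace e^{-r} -> L(σ0) ≠ 0 so |trace| -> ∞) and Fs (h γ_j) has the sign of L(σ0) μ T, i.e. of μ.  With t = -t1: sign of -μ.  `sign_lemma`: contradiction.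
-/

set_option autoImplicit false

open Filter Topology

namespace C37

private lemma T27b_fs (Γ : Subgroup (V ≃ᵃ[ℝ] V)) (h : Cryst Γ) (f : V ≃ᵃ[ℝ] V) (hf : f ∈ Γ) (μ : ℝ) (hμ : μ ≠ 0) (σ0 C1 : ℝ)
    (γ : ℕ → V ≃ᵃ[ℝ] V) (r σ : ℕ → ℝ) (hγ : ∀ j, γ j ∈ Γ) (hr : Tendsto r atTop atTop) (hσ : Tendsto σ atTop (𝓝 σ0))
    (hlin : ∀ j, lin (γ j) = eH0 (r j) * expZ rSp1 (σ j)) (htv : ∀ j, ‖tv (γ j) - (r j * μ) • x1‖ ≤ C1)
    (hT : (lin f * (PiM * rSp1)).trace ≠ 0)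
    (hL : (lin f * PiM).trace + σ0 * (lin f * (PiM * rSp1)).trace ≠ 0)
    (hQ : B (Ev (lin f * PiM) + σ0 • Ev (lin f * (PiM * rSp1))) (Ev (lin f * PiM) + σ0 • Ev (lin f * (PiM * rSp1))) < 0) :
    ∃ δ ∈ Γ, Hyp (lin δ) ∧
      0 < Fs δ * (((lin f * PiM).trace + σ0 * (lin f * (PiM * rSp1)).trace) * (μ * (lin f * (PiM * rSp1)).trace)) := by
  have hfG : InG (lin f) := h.lin_InG f hf
  obtain ⟨t1, t2, t3⟩ := alpha_tendsto (lin f) hfG (tv f) μ σ0 C1 r σ (fun j => tv (γ j) - (r j * μ) • x1) hr hσ htv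
  set L := (lin f * PiM).trace + σ0 * (lin f * (PiM * rSp1)).trace with hLdef
  set T := (lin f * (PiM * rSp1)).trace with hTdef
  have hLT : L * (μ * T) ≠ 0 := mul_ne_zero hL (mul_ne_zero hμ hT)
  -- eventual signs
  have s1 : ∀ᶠ j in atTop, 0 < (FF (lin f * (eH0 (r j) * expZ rSp1 (σ j))) ((lin f).mulVec ((r j * μ) • x1 +
      (tv (γ j) - (r j * μ) • x1)) + tv f) * Real.exp (-2 * r j) / r j) * (L * (μ * T)) := by
    have : Tendsto (fun j => (FF (lin f * (eH0 (r j) * expZ rSp1 (σ j))) ((lin f).mulVec ((r j * μ) • x1 +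
      (tv (γ j) - (r j * μ) • x1)) + tv f) * Real.exp (-2 * r j) / r j) * (L * (μ * T))) atTop
      (𝓝 ((L * (μ * T)) * (L * (μ * T)))) := t1.mul_const _
    have hpos : 0 < (L * (μ * T)) * (L * (μ * T)) := mul_self_pos.2 hLT
    exact this.eventually (lt_mem_nhds hpos)
  have s2 : ∀ᶠ j in atTop, B (Ev (lin f * (eH0 (r j) * expZ rSp1 (σ j)))) (Ev (lin f * (eH0 (r j) * expZ rSp1 (σ j)))) *
      Real.exp (-2 * r j) < 0 := t2.eventually (gt_mem_nhds hQ)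
  have s3 : ∀ᶠ j in atTop, (lin f * (eH0 (r j) * expZ rSp1 (σ j))).trace ≠ -1 := by
    have he0 : Tendsto (fun j => Real.exp (-(r j))) atTop (𝓝 0) :=
      Real.tendsto_exp_neg_atTop_nhds_zero.comp hr
    have h4 := t3.add he0
    rw [add_zero] at h4
    have h5 : ∀ᶠ j in atTop, (lin f * (eH0 (r j) * expZ rSp1 (σ j))).trace * Real.exp (-(r j)) + Real.exp (-(r j)) ≠ 0 :=
      h4.eventually_ne hL
    filter_upwards [h5] with j hj hcon
    apply hj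
    rw [hcon]; ring
  obtain ⟨j, k1, k2, k3, k4⟩ := (s1.and (s2.and (s3.and (hr.eventually_gt_atTop 0)))).exists
  have e1 : lin (f * γ j) = lin f * (eH0 (r j) * expZ rSp1 (σ j)) := by rw [lin_mul, hlin j]
  have e2 : tv (f * γ j) = (lin f).mulVec ((r j * μ) • x1 + (tv (γ j) - (r j * μ) • x1)) + tv f := by
    rw [tv_mul, add_sub_cancel]
  refine ⟨f * γ j, Γ.mul_mem hf (hγ j), ⟨?_, ?_⟩, ?_⟩
  · rw [e1]
    by_contra hcon
    push Not at hcon
    have := mul_nonneg hcon (Real.exp_pos (-2 * r j)).le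
    linarith
  · rw [e1]; exact k3
  · rw [Fs, e1, e2]
    rw [mul_div_assoc, mul_assoc] at k1
    have hexp : 0 < Real.exp (-2 * r j) / r j := div_pos (Real.exp_pos _) k4
    have e3 : FF (lin f * (eH0 (r j) * expZ rSp1 (σ j))) ((lin f).mulVec ((r j * μ) • x1 +
      (tv (γ j) - (r j * μ) • x1)) + tv f) * (Real.exp (-2 * r j) / r j * (L * (μ * T))) =
      (FF (lin f * (eH0 (r j) * expZ rSp1 (σ j))) ((lin f).mulVec ((r j * μ) • x1 +
      (tv (γ j) - (r j * μ) • x1)) + tv f) * (L * (μ * T))) * (Real.exp (-2 * r j) / r j) := by ring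
    rw [e3] at k1
    exact (pos_iff_pos_of_mul_pos k1).2 hexp

private lemma T27b_sub (t C0 : ℝ) (r σ : ℕ → ℝ) (hr : Tendsto r atTop atTop) (hσ : ∀ j, |σ j - t| ≤ C0) :
    ∃ (φ : ℕ → ℕ) (σ0 : ℝ), Tendsto (fun j => r (φ j)) atTop atTop ∧ Tendsto (fun j => σ (φ j)) atTop (𝓝 σ0) ∧
      t - C0 ≤ σ0 ∧ σ0 ≤ t + C0 := by
  have hc : IsCompact (Set.Icc (t - C0) (t + C0)) := isCompact_Icc
  have hmem : ∀ j, σ j ∈ Set.Icc (t - C0) (t + C0) := by
    intro j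
    have := abs_le.1 (hσ j)
    constructor <;> linarith [this.1, this.2]
  obtain ⟨σ0, hσ0, φ, hφ, hlim⟩ := hc.tendsto_subseq hmem
  exact ⟨φ, σ0, hr.comp hφ.tendsto_atTop, hlim, hσ0.1, hσ0.2⟩

theorem D_alpha_proof (Γ : Subgroup (V ≃ᵃ[ℝ] V)) (h : Cryst Γ) (μ : ℝ) (hμ : μ ≠ 0) (C0 : ℝ)
    (hseq : ∀ t : ℝ, ∃ (γ : ℕ → V ≃ᵃ[ℝ] V) (r σ : ℕ → ℝ), (∀ j, γ j ∈ Γ) ∧ Tendsto r atTop atTop ∧
      (∀ j, |σ j - t| ≤ C0) ∧ (∀ j, lin (γ j) = eH0 (r j) * expZ rSp1 (σ j)) ∧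
      (∃ C1 : ℝ, ∀ j, ‖tv (γ j) - (r j * μ) • x1‖ ≤ C1)) : False := by
  have hPS : PiM * rSp1 ≠ 0 := by
    rw [PiM_facts.2.1]
    intro h0
    have h1 : rk1 y3 y2 = 0 := by
      have := congrArg (fun M : Mat => (-(1/2) : ℝ) • M) h0
      simpa [smul_smul] using this
    rcases rk1_eq_zero _ _ h1 with h2 | h2
    · have := congrFun h2 2
      simp [y3] at this
    · have := congrFun h2 1
      simp [y2] at this
  obtain ⟨f, hf, hfT⟩ := zd_trace Γ h [PiM * rSp1] (by intro M hM; rw [List.mem_singleton] at hM; rw [hM]; exact hPS)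
  have hT : (lin f * (PiM * rSp1)).trace ≠ 0 := hfT _ (List.mem_singleton_self _)
  have hfG : InG (lin f) := h.lin_InG f hf
  set T := (lin f * (PiM * rSp1)).trace with hTdef
  set A := (lin f * PiM).trace with hA
  set E1 := Ev (lin f * PiM) with hE1
  set E2 := Ev (lin f * (PiM * rSp1)) with hE2
  have hq2 : B E2 E2 = -T ^ 2 := alpha_q (lin f) hfG 0
  have hTT : 0 < T ^ 2 := by positivity
  -- Q σ < 0 and sign of L σ for |σ| large
  have hQf : ∀ σ : ℝ, B (E1 + σ • E2) (E1 + σ • E2) = B E1 E1 + 2 * σ * B E1 E2 - σ ^ 2 * T ^ 2 := by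
    intro σ
    rw [B_add_left, B_add_right, B_add_right, B_smul_left, B_smul_right, B_smul_left, B_smul_right, hq2, B_comm E2 E1]
    ring
  obtain ⟨R, hR1, hR2⟩ : ∃ R : ℝ, (∀ σ : ℝ, R ≤ |σ| → B (E1 + σ • E2) (E1 + σ • E2) < 0) ∧
      (∀ σ : ℝ, R ≤ |σ| → 0 < (A + σ * T) * (σ * T)) := by
    refine ⟨(|B E1 E1| + 2 * |B E1 E2| + |A| * |T| + 1) / T ^ 2 + 1, ?_, ?_⟩
    · intro σ hσ
      rw [hQf]
      set K := |B E1 E1| + 2 * |B E1 E2| + |A| * |T| + 1 with hK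
      have hK1 : 1 ≤ |σ| := by
        have : 0 ≤ K / T ^ 2 := by positivity
        linarith
      have hK2 : K / T ^ 2 < |σ| := by linarith
      rw [div_lt_iff₀ hTT] at hK2
      have hs2 : |σ| ^ 2 = σ ^ 2 := sq_abs σ
      have b1 : B E1 E1 ≤ |B E1 E1| * |σ| := by
        calc B E1 E1 ≤ |B E1 E1| := le_abs_self _
          _ ≤ |B E1 E1| * |σ| := le_mul_of_one_le_right (abs_nonneg _) hK1
      have b2 : 2 * σ * B E1 E2 ≤ 2 * |B E1 E2| * |σ| := by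
        have := le_abs_self (σ * B E1 E2)
        rw [abs_mul] at this
        nlinarith
      have b3 : (|B E1 E1| + 2 * |B E1 E2|) * |σ| < σ ^ 2 * T ^ 2 := by
        have c1 : K * |σ| < (|σ| * T ^ 2) * |σ| := mul_lt_mul_of_pos_right hK2 (by linarith)
        have c2 : (|σ| * T ^ 2) * |σ| = σ ^ 2 * T ^ 2 := by rw [← hs2]; ring
        have c3 : (|B E1 E1| + 2 * |B E1 E2|) * |σ| ≤ K * |σ| := by
          apply mul_le_mul_of_nonneg_right _ (abs_nonneg _)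
          rw [hK]
          have : 0 ≤ |A| * |T| := by positivity
          linarith
        linarith
      linarith
    · intro σ hσ
      set K := |B E1 E1| + 2 * |B E1 E2| + |A| * |T| + 1 with hK
      have hK1 : 1 ≤ |σ| := by
        have : 0 ≤ K / T ^ 2 := by positivity
        linarith
      have hK2 : K / T ^ 2 < |σ| := by linarith
      rw [div_lt_iff₀ hTT] at hK2
      have hs2 : |σ| ^ 2 = σ ^ 2 := sq_abs σ
      have c1 : K * |σ| < (|σ| * T ^ 2) * |σ| := mul_lt_mul_of_pos_right hK2 (by linarith)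
      have c2 : (|σ| * T ^ 2) * |σ| = (σ * T) ^ 2 := by rw [mul_pow, ← hs2]; ring
      have c3 : |A| * |T| * |σ| ≤ K * |σ| := by
        apply mul_le_mul_of_nonneg_right _ (abs_nonneg _)
        rw [hK]
        have h1 := abs_nonneg (B E1 E1)
        have h2 := abs_nonneg (B E1 E2)
        linarith
      have c4 : -(|A| * |T| * |σ|) ≤ A * (σ * T) := by
        have := neg_abs_le (A * (σ * T))
        rw [abs_mul, abs_mul] at this
        nlinarith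
      have c5 : (A + σ * T) * (σ * T) = A * (σ * T) + (σ * T) ^ 2 := by ring
      rw [c5]
      linarith
  -- two sequences
  have hC0 : 0 ≤ C0 := by
    obtain ⟨γ, r, σ, -, -, hb, -⟩ := hseq 0
    exact (abs_nonneg _).trans (hb 0)
  have key : ∀ t : ℝ, R + C0 ≤ |t| → ∀ σ0 : ℝ, t - C0 ≤ σ0 → σ0 ≤ t + C0 → R ≤ |σ0| := by
    intro t ht σ0 h1 h2
    have : |t - σ0| ≤ C0 := abs_le.2 ⟨by linarith, by linarith⟩
    have h3 := abs_sub_abs_le_abs_sub t σ0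
    linarith
  have main : ∀ t : ℝ, R + C0 ≤ |t| → ∃ δ ∈ Γ, Hyp (lin δ) ∧ ∃ σ0 : ℝ, t - C0 ≤ σ0 ∧ σ0 ≤ t + C0 ∧
      0 < Fs δ * ((A + σ0 * T) * (μ * T)) ∧ 0 < (A + σ0 * T) * (σ0 * T) := by
    intro t ht
    obtain ⟨γ, r, σ, m1, m2, m3, m4, C1, m5⟩ := hseq t
    obtain ⟨φ, σ0, n1, n2, n3, n4⟩ := T27b_sub t C0 r σ m2 m3
    have hR0 := key t ht σ0 n3 n4
    have hL := hR2 σ0 hR0
    have hL0 : A + σ0 * T ≠ 0 := by
      intro h0; rw [h0, zero_mul] at hL; exact lt_irrefl _ hL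
    obtain ⟨δ, p1, p2, p3⟩ := T27b_fs Γ h f hf μ hμ σ0 C1 (fun j => γ (φ j)) (fun j => r (φ j)) (fun j => σ (φ j))
      (fun j => m1 _) n1 n2 (fun j => m4 _) (fun j => m5 _) hT hL0 (hR1 σ0 hR0)
    exact ⟨δ, p1, p2, σ0, n3, n4, p3, hL⟩
  set t1 : ℝ := |R| + C0 + 1 with ht1
  have habs1 : |t1| = t1 := abs_of_nonneg (by positivity)
  have hRle := le_abs_self R
  obtain ⟨δ1, a1, a2, s1, a3, a4, a5, a6⟩ := main t1 (by rw [habs1, ht1]; linarith)
  obtain ⟨δ2, b1, b2, s2, b3, b4, b5, b6⟩ := main (-t1) (by rw [abs_neg, habs1, ht1]; linarith)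
  have hs1 : 0 < s1 := by
    have := abs_nonneg R
    rw [ht1] at a3; linarith
  have hs2 : s2 < 0 := by
    have := abs_nonneg R
    rw [ht1] at b4; linarith
  have hsign := sign_lemma Γ h δ1 δ2 a1 b1 a2 b2
  -- signs: (A + s T) T has the sign of s
  have c1 : 0 < (A + s1 * T) * T := by
    have : 0 < ((A + s1 * T) * T) * s1 := by
      have e : ((A + s1 * T) * T) * s1 = (A + s1 * T) * (s1 * T) := by ring
      rw [e]; exact a6
    exact (pos_iff_pos_of_mul_pos this).2 hs1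
  have c2 : (A + s2 * T) * T < 0 := by
    have : 0 < ((A + s2 * T) * T) * s2 := by
      have e : ((A + s2 * T) * T) * s2 = (A + s2 * T) * (s2 * T) := by ring
      rw [e]; exact b6
    by_contra hcon
    push Not at hcon
    have := mul_nonpos_of_nonneg_of_nonpos hcon hs2.le
    linarith
  have d1 : 0 < (Fs δ1 * μ) * ((A + s1 * T) * T) := by
    have e : (Fs δ1 * μ) * ((A + s1 * T) * T) = Fs δ1 * ((A + s1 * T) * (μ * T)) := by ring
    rw [e]; exact a5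
  have d2 : 0 < (Fs δ2 * μ) * ((A + s2 * T) * T) := by
    have e : (Fs δ2 * μ) * ((A + s2 * T) * T) = Fs δ2 * ((A + s2 * T) * (μ * T)) := by ring
    rw [e]; exact b5
  have f1 : 0 < Fs δ1 * μ := (pos_iff_pos_of_mul_pos d1).2 c1
  have f2 : Fs δ2 * μ < 0 := by
    by_contra hcon
    push Not at hcon
    have := mul_nonpos_of_nonneg_of_nonpos hcon c2.le
    linarith
  have f3 : (Fs δ1 * μ) * (Fs δ2 * μ) < 0 := mul_neg_of_pos_of_neg f1 f2
  have f4 : 0 < (Fs δ1 * Fs δ2) * (μ * μ) := mul_pos hsign (mul_self_pos.2 hμ)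
  have f5 : (Fs δ1 * μ) * (Fs δ2 * μ) = (Fs δ1 * Fs δ2) * (μ * μ) := by ring
  linarith

end C37
end

section

/-!
MP_c37615_al (S02984), part D: interface between D-I (signs and asymptotics, helper64) and
D-II (structure of Z^2 subgroups).
-/

set_option autoImplicit false

open Filter Topology

namespace C37

/-- conjugation by an element of G -/
theorem D_conj (Γ : Subgroup (V ≃ᵃ[ℝ] V)) (h : Cryst Γ) (δ : V ≃ᵃ[ℝ] V) (hδ : InG (lin δ)) :
    Cryst (Γ.map (MulAut.conj δ).toMonoidHom) := D_conj_proof Γ h δ hδ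

/-- D-I (1): no sequence near a long root one-parameter group -/
theorem D_LR (Γ : Subgroup (V ≃ᵃ[ℝ] V)) (h : Cryst Γ) (a : V) (γ b : ℕ → V ≃ᵃ[ℝ] V) (s : ℕ → ℝ)
    (hn : NearOne Γ rL23 a γ b s) : False := D_LR_proof Γ h a γ b s hn

/-- D-I (2): no Z^2 of type span(S+1, 2 L12 + L23) -/
theorem D_d1 (Γ : Subgroup (V ≃ᵃ[ℝ] V)) (h : Cryst Γ) (aS aN : V)
    (hco : ((2:ℝ) • rL12 + rL23).mulVec aS = rSp1.mulVec aN)
    (γ b : ℕ → V ≃ᵃ[ℝ] V) (s : ℕ → ℝ) (hn : NearOne Γ rSp1 aS γ b s)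
    (γ' b' : ℕ → V ≃ᵃ[ℝ] V) (s' : ℕ → ℝ)
    (hn' : NearOne Γ ((2:ℝ) • rL12 + rL23 + rSp1) (aN + aS) γ' b' s') : False :=
  D_d1_proof Γ h aS aN hco γ b s hn γ' b' s' hn'

/-- D-I (3): the case dim V_{=1} = 3 -/
theorem D_alpha (Γ : Subgroup (V ≃ᵃ[ℝ] V)) (h : Cryst Γ) (μ : ℝ) (hμ : μ ≠ 0) (C0 : ℝ)
    (hseq : ∀ t : ℝ, ∃ (γ : ℕ → V ≃ᵃ[ℝ] V) (r σ : ℕ → ℝ), (∀ j, γ j ∈ Γ) ∧ Tendsto r atTop atTop ∧
      (∀ j, |σ j - t| ≤ C0) ∧ (∀ j, lin (γ j) = eH0 (r j) * expZ rSp1 (σ j)) ∧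
      (∃ C1 : ℝ, ∀ j, ‖tv (γ j) - (r j * μ) • x1‖ ≤ C1)) : False :=
  D_alpha_proof Γ h μ hμ C0 hseq

end C37
end

section

/-!
MP_c37615_al (S02984), part D-IIa: rank two abelian subgroups (no sorry here)
-/

set_option autoImplicit false

open Filter Topology Polynomial

namespace C37

/-- two commuting elements of a crystallographic group generating a free abelian group of rank two -/
structure Z2 (Γ : Subgroup (V ≃ᵃ[ℝ] V)) (α β : V ≃ᵃ[ℝ] V) : Prop where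
  cryst : Cryst Γ
  ha : α ∈ Γ
  hb : β ∈ Γ
  comm : α * β = β * α
  inj : ∀ m n : ℤ, α ^ m * β ^ n = 1 → m = 0 ∧ n = 0

/-- the general element of the group -/
def zel (α β : V ≃ᵃ[ℝ] V) (m n : ℤ) : V ≃ᵃ[ℝ] V := α ^ m * β ^ n

end C37
end

section

/-!
MP_c37615_al (S02984), part D-IIa: task Z01 (Z^2 subgroups)
-/

set_option autoImplicit false

open Filter Topology Polynomial

namespace C37

/-- Z01a. -/
theorem Z2.swap {Γ : Subgroup (V ≃ᵃ[ℝ] V)} {α β : V ≃ᵃ[ℝ] V} (h : Z2 Γ α β) : Z2 Γ β α := by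
  refine ⟨h.cryst, h.hb, h.ha, h.comm.symm, fun m n hmn => ?_⟩
  have hc : Commute α β := h.comm
  have h1 : β ^ m * α ^ n = α ^ n * β ^ m := ((hc.symm).zpow_zpow m n).eq
  rw [h1] at hmn
  exact ⟨(h.inj n m hmn).2, (h.inj n m hmn).1⟩

/-- Z01b. α^(2m) β^(2n) = 1 gives 2m = 0 = 2n. -/
theorem Z2.sq {Γ : Subgroup (V ≃ᵃ[ℝ] V)} {α β : V ≃ᵃ[ℝ] V} (h : Z2 Γ α β) : Z2 Γ (α ^ 2) (β ^ 2) := by
  have hc : Commute α β := h.comm
  refine ⟨h.cryst, Γ.pow_mem h.ha 2, Γ.pow_mem h.hb 2, (hc.pow_pow 2 2).eq, fun m n hmn => ?_⟩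
  have h1 : ∀ (x : V ≃ᵃ[ℝ] V) (k : ℤ), (x ^ 2) ^ k = x ^ (2 * k) := by
    intro x k
    rw [zpow_mul]
    norm_cast
  rw [h1, h1] at hmn
  have h2 := h.inj _ _ hmn
  constructor <;> omega

/-- Z01c. D_conj (import Pool.Agent.Lib.MP_c37615_al.D.DI). -/
theorem Z2.conj {Γ : Subgroup (V ≃ᵃ[ℝ] V)} {α β : V ≃ᵃ[ℝ] V} (h : Z2 Γ α β) (δ : V ≃ᵃ[ℝ] V) (hδ : InG (lin δ)) :
    Z2 (Γ.map (MulAut.conj δ).toMonoidHom) (δ * α * δ⁻¹) (δ * β * δ⁻¹) := by
  refine ⟨D_conj Γ h.cryst δ hδ, ⟨α, h.ha, rfl⟩, ⟨β, h.hb, rfl⟩, ?_, fun m n hmn => ?_⟩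
  · have h1 := h.comm
    calc δ * α * δ⁻¹ * (δ * β * δ⁻¹) = δ * (α * β) * δ⁻¹ := by group
      _ = δ * (β * α) * δ⁻¹ := by rw [h1]
      _ = _ := by group
  · rw [conj_zpow, conj_zpow] at hmn
    refine h.inj m n ?_
    have h2 : δ * (α ^ m * β ^ n) * δ⁻¹ = 1 := by
      rw [← hmn]; group
    have h3 := conj_eq_one_iff.1 h2
    exact h3

theorem zel_mem {Γ : Subgroup (V ≃ᵃ[ℝ] V)} {α β : V ≃ᵃ[ℝ] V} (h : Z2 Γ α β) (m n : ℤ) : zel α β m n ∈ Γ :=
  Γ.mul_mem (Γ.zpow_mem h.ha m) (Γ.zpow_mem h.hb n)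

theorem zel_mul {Γ : Subgroup (V ≃ᵃ[ℝ] V)} {α β : V ≃ᵃ[ℝ] V} (h : Z2 Γ α β) (m n m' n' : ℤ) :
    zel α β m n * zel α β m' n' = zel α β (m + m') (n + n') := by
  have hc : Commute α β := h.comm
  have h1 : β ^ n * α ^ m' = α ^ m' * β ^ n := ((hc.symm).zpow_zpow n m').eq
  unfold zel
  calc α ^ m * β ^ n * (α ^ m' * β ^ n') = α ^ m * (β ^ n * α ^ m') * β ^ n' := by
        simp only [mul_assoc]
    _ = α ^ m * (α ^ m' * β ^ n) * β ^ n' := by rw [h1]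
    _ = (α ^ m * α ^ m') * (β ^ n * β ^ n') := by simp only [mul_assoc]
    _ = _ := by rw [← zpow_add, ← zpow_add]

theorem zel_inv {Γ : Subgroup (V ≃ᵃ[ℝ] V)} {α β : V ≃ᵃ[ℝ] V} (h : Z2 Γ α β) (m n : ℤ) :
    (zel α β m n)⁻¹ = zel α β (-m) (-n) := by
  refine inv_eq_of_mul_eq_one_right ?_
  rw [zel_mul h]
  simp [zel]

theorem zel_injective {Γ : Subgroup (V ≃ᵃ[ℝ] V)} {α β : V ≃ᵃ[ℝ] V} (h : Z2 Γ α β) :
    Function.Injective (fun p : ℤ × ℤ => zel α β p.1 p.2) := by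
  rintro ⟨m, n⟩ ⟨m', n'⟩ hmn
  have h0 : zel α β m n = zel α β m' n' := hmn
  have h1 : zel α β (m + -m') (n + -n') = 1 := by
    rw [← zel_mul h, ← zel_inv h, h0, mul_inv_cancel]
  have h2 := h.inj _ _ h1
  refine Prod.ext ?_ ?_
  · change m = m'
    omega
  · change n = n'
    omega

theorem zel_conj (α β δ : V ≃ᵃ[ℝ] V) (m n : ℤ) :
    zel (δ * α * δ⁻¹) (δ * β * δ⁻¹) m n = δ * zel α β m n * δ⁻¹ := by
  unfold zel
  rw [conj_zpow, conj_zpow]
  group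

theorem zel_sq (α β : V ≃ᵃ[ℝ] V) (m n : ℤ) : zel (α ^ 2) (β ^ 2) m n = zel α β (2 * m) (2 * n) := by
  have h1 : ∀ (x : V ≃ᵃ[ℝ] V) (k : ℤ), (x ^ 2) ^ k = x ^ (2 * k) := by
    intro x k
    rw [zpow_mul]
    norm_cast
  unfold zel
  rw [h1, h1]

/-- Z01d. α^m β^n = 1: if m = 0 then β^n = 1 so n = 0 (infinite order, `isOfFinOrder_iff_zpow_eq_one`); similarly n = 0; if both are nonzero
α^m = β^(-n) contradicts hnc. -/
theorem D2A_inj (α β : V ≃ᵃ[ℝ] V) (hcomm : α * β = β * α) (h1 : ¬ IsOfFinOrder α)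
    (h2 : ¬ IsOfFinOrder β) (hnc : ¬ ∃ m n : ℤ, m ≠ 0 ∧ n ≠ 0 ∧ α ^ m = β ^ n) :
    ∀ m n : ℤ, α ^ m * β ^ n = 1 → m = 0 ∧ n = 0 := by
  intro m n hmn
  by_cases hm : m = 0
  · refine ⟨hm, ?_⟩
    by_contra hn
    rw [hm, zpow_zero, one_mul] at hmn
    exact h2 (isOfFinOrder_iff_zpow_eq_one.2 ⟨n, hn, hmn⟩)
  · by_cases hn : n = 0
    · exfalso
      rw [hn, zpow_zero, mul_one] at hmn
      exact h1 (isOfFinOrder_iff_zpow_eq_one.2 ⟨m, hm, hmn⟩)
    · exfalso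
      refine hnc ⟨m, -n, hm, by omega, ?_⟩
      rw [zpow_neg]
      exact eq_inv_of_mul_eq_one_left hmn

end C37
end

section

/-!
MP_c37615_al (S02984), part D-IIa: task T01 (elliptic matrices have bounded powers)
-/

set_option autoImplicit false

open Filter Topology Polynomial

namespace C37

/-- T01a. u 0 = 0, u 1 = 1, u (n+2) = τ u (n+1) - u n with |τ| < 2: the quantity u (n+1)^2 - τ u n u (n+1) + u n^2 is constant = 1 and is
≥ (1 - |τ|/2)(u n^2 + u (n+1)^2). -/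
theorem d2_cheb_bound (τ : ℝ) (hτ : |τ| < 2) (u : ℕ → ℝ) (h0 : u 0 = 0) (h1 : u 1 = 1)
    (h : ∀ n, u (n + 2) = τ * u (n + 1) - u n) : ∃ C : ℝ, ∀ n, |u n| ≤ C := by
  have hE : ∀ n, u (n + 1) ^ 2 - τ * u n * u (n + 1) + u n ^ 2 = 1 := by
    intro n
    induction n with
    | zero => rw [h0, h1]; norm_num
    | succ n ih =>
      rw [h n]
      linear_combination ih
  have hd : 0 < 1 - |τ| / 2 := by linarith
  have hb : ∀ n, (1 - |τ| / 2) * u n ^ 2 ≤ 1 := by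
    intro n
    have h2 := hE n
    have h3 : τ * u n * u (n + 1) ≤ |τ| / 2 * (u n ^ 2 + u (n + 1) ^ 2) := by
      have h4 : τ * u n * u (n + 1) ≤ |τ| * (|u n| * |u (n + 1)|) := by
        rw [← abs_mul, ← abs_mul, ← mul_assoc]
        exact le_abs_self _
      have h5 : |u n| * |u (n + 1)| ≤ (u n ^ 2 + u (n + 1) ^ 2) / 2 := by
        nlinarith [sq_abs (u n), sq_abs (u (n + 1)), sq_nonneg (|u n| - |u (n + 1)|)]
      have h6 := mul_le_mul_of_nonneg_left h5 (abs_nonneg τ)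
      linarith
    have h7 : 0 ≤ (1 - |τ| / 2) * u (n + 1) ^ 2 := by positivity
    nlinarith
  refine ⟨1 + 1 / (1 - |τ| / 2), fun n => ?_⟩
  have h8 : u n ^ 2 ≤ 1 / (1 - |τ| / 2) := by
    rw [le_div_iff₀ hd]
    linarith [hb n]
  have h9 : |u n| ≤ 1 + u n ^ 2 := by
    nlinarith [sq_abs (u n), sq_nonneg (|u n| - 1)]
  linarith

/-- the sequence -/
noncomputable def T01_u (τ : ℝ) : ℕ → ℝ
  | 0 => 0
  | 1 => 1
  | (n + 2) => τ * T01_u τ (n + 1) - T01_u τ n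

theorem T01_ch (T : M2) : T * T = T.trace • T - T.det • (1 : M2) := by
  ext i j
  fin_cases i <;> fin_cases j <;>
    simp [Matrix.mul_apply, Fin.sum_univ_two, Matrix.trace_fin_two, Matrix.det_fin_two] <;> ring

theorem T01_pow (T : M2) (s τ : ℝ) (h1 : T.trace = τ * s) (h2 : T.det = s * s) (n : ℕ) :
    T ^ (n + 1) = s ^ n • (T01_u τ (n + 1) • T - (s * T01_u τ n) • (1 : M2)) := by
  induction n with
  | zero => simp [T01_u]
  | succ n ih =>
    rw [pow_succ, ih, Matrix.smul_mul, sub_mul, Matrix.smul_mul, Matrix.smul_mul, one_mul, T01_ch T,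
      h1, h2]
    have h3 : T01_u τ (n + 1 + 1) = τ * T01_u τ (n + 1) - T01_u τ n := by
      rw [T01_u]
    rw [h3]
    ext i j
    simp only [Matrix.smul_apply, Matrix.sub_apply, smul_eq_mul]
    ring

/-- T01b. Δ = det T > 0, s = √Δ, τ = trace / s, |τ| < 2. By Cayley–Hamilton T * T = (trace) T - Δ 1 (Matrix.det_fin_two, entries: ring), and by induction
T^(n+1) = s^n (u (n+1) T - s u n 1). Hence the entries of T^(n+1) are ≤ s^n (C max|T i j| + s C) = O(s^(n+1)). -/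
theorem d2_elliptic (T : M2) (h : T.trace ^ 2 - 4 * T.det < 0) : BddPow T := by
  have hd : 0 < T.det := by nlinarith [sq_nonneg T.trace]
  set s := Real.sqrt |T.det| with hs
  have hs2 : s * s = T.det := by
    rw [hs, Real.mul_self_sqrt (abs_nonneg _), abs_of_pos hd]
  have hs0 : 0 < s := Real.sqrt_pos.2 (abs_pos.2 hd.ne')
  set τ := T.trace / s with hτd
  have h1 : T.trace = τ * s := by rw [hτd]; field_simp
  have hτ : |τ| < 2 := by
    have h2 : τ ^ 2 < 2 ^ 2 := by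
      have h3 : τ ^ 2 * (s * s) < 2 ^ 2 * (s * s) := by
        rw [hs2]
        have : τ ^ 2 * T.det = T.trace ^ 2 := by rw [h1, ← hs2]; ring
        linarith
      exact lt_of_mul_lt_mul_right h3 (by positivity)
    exact abs_lt_of_sq_lt_sq h2 (by norm_num)
  obtain ⟨C, hC⟩ := d2_cheb_bound τ hτ (T01_u τ) (by rw [T01_u]) (by rw [T01_u])
    (fun n => by rw [T01_u])
  have hC0 : 0 ≤ C := (abs_nonneg _).trans (hC 0)
  set M := |T 0 0| + |T 0 1| + |T 1 0| + |T 1 1| with hM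
  have hM0 : 0 ≤ M := by positivity
  have hTM : ∀ i j, |T i j| ≤ M := by
    intro i j
    have a1 := abs_nonneg (T 0 0)
    have a2 := abs_nonneg (T 0 1)
    have a3 := abs_nonneg (T 1 0)
    have a4 := abs_nonneg (T 1 1)
    fin_cases i <;> fin_cases j <;> simp only [Fin.zero_eta, Fin.mk_one, Fin.isValue] <;> linarith
  refine ⟨1 + C * M / s + C, fun n i j => ?_⟩
  rcases n with _ | n
  · simp only [pow_zero, mul_one]
    have h4 : |(1 : M2) i j| ≤ 1 := by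
      fin_cases i <;> fin_cases j <;> simp
    have h5 : 0 ≤ C * M / s := by positivity
    linarith
  · rw [T01_pow T s τ h1 hs2.symm n]
    simp only [Matrix.smul_apply, Matrix.sub_apply, smul_eq_mul]
    rw [abs_mul, abs_of_pos (pow_pos hs0 n)]
    have h4 : |(1 : M2) i j| ≤ 1 := by
      fin_cases i <;> fin_cases j <;> simp
    have h5 : |T01_u τ (n + 1) * T i j - s * T01_u τ n * (1 : M2) i j| ≤ C * M + s * C := by
      refine (abs_sub _ _).trans ?_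
      rw [abs_mul, abs_mul, abs_mul, abs_of_pos hs0]
      have h6 : |T01_u τ (n + 1)| * |T i j| ≤ C * M :=
        mul_le_mul (hC _) (hTM i j) (abs_nonneg _) hC0
      have h7 : s * |T01_u τ n| * |(1 : M2) i j| ≤ s * C * 1 :=
        mul_le_mul (mul_le_mul_of_nonneg_left (hC n) hs0.le) h4 (abs_nonneg _) (by positivity)
      linarith
    calc s ^ n * |T01_u τ (n + 1) * T i j - s * T01_u τ n * (1 : M2) i j|
        ≤ s ^ n * (C * M + s * C) := mul_le_mul_of_nonneg_left h5 (by positivity)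
      _ = (C * M / s + C) * s ^ (n + 1) := by
        rw [pow_succ]; field_simp
      _ ≤ (1 + C * M / s + C) * s ^ (n + 1) := by
        apply mul_le_mul_of_nonneg_right _ (by positivity)
        linarith

end C37
end

section

/-!
MP_c37615_al (S02984), part D-IIa: task T02 (trichotomy)
-/

set_option autoImplicit false

open Filter Topology Polynomial

namespace C37

theorem T02_ch (T : M2) : T * T = T.trace • T - T.det • (1 : M2) := by
  ext i j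
  fin_cases i <;> fin_cases j <;>
    simp [Matrix.mul_apply, Fin.sum_univ_two, Matrix.trace_fin_two, Matrix.det_fin_two] <;> ring

theorem T02_one (i j : Fin 2) : |(1 : M2) i j| ≤ 1 := by
  fin_cases i <;> fin_cases j <;> simp

/-- T02a. trace = 0, det < 0: T * T = |det| 1, so T^(2k) = |det|^k, T^(2k+1) = |det|^k T. -/
theorem d2_tr_zero (T : M2) (h0 : T.trace = 0) (hd : T.det < 0) : BddPow T := by
  set s := Real.sqrt |T.det| with hs
  have hs2 : s ^ 2 = |T.det| := Real.sq_sqrt (abs_nonneg _)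
  have hs0 : 0 < s := Real.sqrt_pos.2 (abs_pos.2 hd.ne)
  have h1 : T ^ 2 = (s ^ 2) • (1 : M2) := by
    rw [pow_two, T02_ch, h0, zero_smul, zero_sub, ← neg_smul, hs2, abs_of_neg hd]
  have h2 : ∀ k : ℕ, T ^ (2 * k) = (s ^ (2 * k)) • (1 : M2) := by
    intro k
    rw [pow_mul, h1, _root_.smul_pow, one_pow, pow_mul]
  set M := |T 0 0| + |T 0 1| + |T 1 0| + |T 1 1| with hM
  have hM0 : 0 ≤ M := by positivity
  have hTM : ∀ i j, |T i j| ≤ M := by
    intro i j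
    have a1 := abs_nonneg (T 0 0)
    have a2 := abs_nonneg (T 0 1)
    have a3 := abs_nonneg (T 1 0)
    have a4 := abs_nonneg (T 1 1)
    fin_cases i <;> fin_cases j <;> simp only [Fin.zero_eta, Fin.mk_one, Fin.isValue] <;> linarith
  refine ⟨1 + M / s, fun n i j => ?_⟩
  have hMs : 0 ≤ M / s := by positivity
  rcases Nat.even_or_odd' n with ⟨k, rfl | rfl⟩
  · rw [h2 k, Matrix.smul_apply, smul_eq_mul, abs_mul, abs_of_pos (pow_pos hs0 _), mul_comm]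
    apply mul_le_mul_of_nonneg_right _ (by positivity)
    linarith [T02_one i j]
  · rw [pow_succ, h2 k, Matrix.smul_mul, one_mul, Matrix.smul_apply, smul_eq_mul, abs_mul,
      abs_of_pos (pow_pos hs0 _)]
    calc s ^ (2 * k) * |T i j| ≤ s ^ (2 * k) * M := mul_le_mul_of_nonneg_left (hTM i j) (by positivity)
      _ = M / s * s ^ (2 * k + 1) := by rw [pow_succ]; field_simp
      _ ≤ (1 + M / s) * s ^ (2 * k + 1) := by
        apply mul_le_mul_of_nonneg_right _ (by positivity)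
        linarith

/-- T02b. scalar matrices c 1 (c ≠ 0): det = c^2, √ = |c|. -/
theorem d2_scalar_bdd (c : ℝ) : BddPow (c • (1 : M2)) := by
  have hdet : (c • (1 : M2)).det = c ^ 2 := by
    simp
  refine ⟨1, fun n i j => ?_⟩
  rw [hdet, _root_.smul_pow, one_pow, Matrix.smul_apply, smul_eq_mul, abs_mul, abs_pow, one_mul,
    abs_of_nonneg (sq_nonneg c), Real.sqrt_sq_eq_abs]
  calc |c| ^ n * |(1 : M2) i j| ≤ |c| ^ n * 1 := mul_le_mul_of_nonneg_left (T02_one i j) (by positivity)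
    _ = _ := mul_one _

/-- T02c. D := trace^2 - 4 det. D < 0: d2_elliptic. D > 0: trace = 0 so det < 0: d2_tr_zero. D = 0: c := trace/2, c^2 = det ≠ 0,
M := T - c 1 satisfies M * M = 0 (Cayley–Hamilton); N := c⁻¹ M; if N = 0 T is scalar, else UnipType. -/
theorem d2_T_cases (T : M2) (hT : T.det ≠ 0) (h : 0 < T.trace ^ 2 - 4 * T.det → T.trace = 0) :
    BddPow T ∨ UnipType T := by
  rcases lt_trichotomy (T.trace ^ 2 - 4 * T.det) 0 with hD | hD | hD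
  · exact Or.inl (d2_elliptic T hD)
  · set c := T.trace / 2 with hc
    have h1 : T.trace = 2 * c := by rw [hc]; ring
    have h2 : T.det = c ^ 2 := by rw [hc]; linarith
    have hc0 : c ≠ 0 := by
      intro h3
      apply hT
      rw [h2, h3]
      norm_num
    have h3 : (T - c • (1 : M2)) * (T - c • (1 : M2)) = 0 := by
      rw [sub_mul, mul_sub, mul_sub, Matrix.smul_mul, Matrix.mul_smul, Matrix.smul_mul,
        Matrix.mul_smul, one_mul, mul_one, mul_one, T02_ch T, h1, h2]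
      ext i j
      simp only [Matrix.smul_apply, Matrix.sub_apply, smul_eq_mul, Matrix.zero_apply]
      ring
    by_cases hN : T - c • (1 : M2) = 0
    · left
      rw [sub_eq_zero.1 hN]
      exact d2_scalar_bdd c
    · right
      refine ⟨c, c⁻¹ • (T - c • (1 : M2)), hc0, smul_ne_zero (inv_ne_zero hc0) hN, ?_, ?_⟩
      · rw [Matrix.smul_mul, Matrix.mul_smul, h3, smul_zero, smul_zero]
      · rw [smul_add, smul_smul, mul_inv_cancel₀ hc0, one_smul]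
        abel
  · left
    have h0 := h hD
    apply d2_tr_zero T h0
    rw [h0] at hD
    linarith

end C37
end

section

/-!
MP_c37615_al (S02984), part D-IIa: task Z02 (pigeonhole, lattices)
-/

set_option autoImplicit false

open Filter Topology Polynomial

namespace C37

/-- Z02a. a = 0: all (m, 0). a ≠ 0: for every n choose m = -⌊n b / a⌋ (then m a + n b = a * (n b / a - ⌊n b / a⌋), of absolute value ≤ |a|). -/
theorem d2_pig (a b : ℝ) : {p : ℤ × ℤ | |(p.1 : ℝ) * a + (p.2 : ℝ) * b| ≤ |a|}.Infinite := by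
  by_cases ha : a = 0
  · refine Set.infinite_of_injective_forall_mem (f := fun m : ℤ => ((m, 0) : ℤ × ℤ)) ?_ ?_
    · intro m m' h
      exact (Prod.mk.inj h).1
    · intro m
      simp [ha]
  · refine Set.infinite_of_injective_forall_mem (f := fun n : ℤ => ((-⌊(n : ℝ) * b / a⌋, n) : ℤ × ℤ)) ?_ ?_
    · intro m m' h
      exact (Prod.mk.inj h).2
    · intro n
      show |((-⌊(n : ℝ) * b / a⌋ : ℤ) : ℝ) * a + (n : ℝ) * b| ≤ |a|
      have h1 := Int.floor_le ((n : ℝ) * b / a)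
      have h2 := Int.lt_floor_add_one ((n : ℝ) * b / a)
      have h3 : ((-⌊(n : ℝ) * b / a⌋ : ℤ) : ℝ) * a + (n : ℝ) * b = ((n : ℝ) * b / a - ⌊(n : ℝ) * b / a⌋) * a := by
        push_cast
        field_simp
        ring
      rw [h3, abs_mul, abs_of_nonneg (by linarith : 0 ≤ (n : ℝ) * b / a - ⌊(n : ℝ) * b / a⌋)]
      have := abs_nonneg a
      nlinarith

/-- Z02b. Solve x r1 + y r2 = R, x s1 + y s2 = t (Cramer), m = ⌊x⌋, n = ⌊y⌋. -/
theorem d2_lattice (r1 s1 r2 s2 : ℝ) (hD : r1 * s2 - r2 * s1 ≠ 0) (R t : ℝ) : ∃ m n : ℤ,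
    |(m : ℝ) * r1 + (n : ℝ) * r2 - R| ≤ |r1| + |r2| ∧ |(m : ℝ) * s1 + (n : ℝ) * s2 - t| ≤ |s1| + |s2| := by
  obtain ⟨x, hx⟩ : ∃ x : ℝ, x = (R * s2 - t * r2) / (r1 * s2 - r2 * s1) := ⟨_, rfl⟩
  obtain ⟨y, hy⟩ : ∃ y : ℝ, y = (t * r1 - R * s1) / (r1 * s2 - r2 * s1) := ⟨_, rfl⟩
  have hxD : x * (r1 * s2 - r2 * s1) = R * s2 - t * r2 := by rw [hx, div_mul_cancel₀ _ hD]
  have hyD : y * (r1 * s2 - r2 * s1) = t * r1 - R * s1 := by rw [hy, div_mul_cancel₀ _ hD]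
  have e1 : x * r1 + y * r2 = R := by
    apply mul_right_cancel₀ hD
    linear_combination r1 * hxD + r2 * hyD
  have e2 : x * s1 + y * s2 = t := by
    apply mul_right_cancel₀ hD
    linear_combination s1 * hxD + s2 * hyD
  have fx1 := Int.floor_le x
  have fx2 := Int.lt_floor_add_one x
  have fy1 := Int.floor_le y
  have fy2 := Int.lt_floor_add_one y
  have ax : |((⌊x⌋ : ℤ) : ℝ) - x| ≤ 1 := abs_le.2 ⟨by linarith, by linarith⟩
  have ay : |((⌊y⌋ : ℤ) : ℝ) - y| ≤ 1 := abs_le.2 ⟨by linarith, by linarith⟩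
  have key : ∀ a b : ℝ, |(((⌊x⌋ : ℤ) : ℝ) - x) * a + (((⌊y⌋ : ℤ) : ℝ) - y) * b| ≤ |a| + |b| := by
    intro a b
    refine (abs_add_le _ _).trans ?_
    rw [abs_mul, abs_mul]
    have := abs_nonneg a
    have := abs_nonneg b
    nlinarith
  refine ⟨⌊x⌋, ⌊y⌋, ?_, ?_⟩
  · rw [← e1]
    have := key r1 r2
    rwa [show ((⌊x⌋ : ℤ) : ℝ) * r1 + ((⌊y⌋ : ℤ) : ℝ) * r2 - (x * r1 + y * r2) =
      (((⌊x⌋ : ℤ) : ℝ) - x) * r1 + (((⌊y⌋ : ℤ) : ℝ) - y) * r2 by ring]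
  · rw [← e2]
    have := key s1 s2
    rwa [show ((⌊x⌋ : ℤ) : ℝ) * s1 + ((⌊y⌋ : ℤ) : ℝ) * s2 - (x * s1 + y * s2) =
      (((⌊x⌋ : ℤ) : ℝ) - x) * s1 + (((⌊y⌋ : ℤ) : ℝ) - y) * s2 by ring]

end C37
end

section

/-!
MP_c37615_al (S02984), part D-IIa: task Z03 (two contradictions)
-/

set_option autoImplicit false

open Filter Topology Polynomial

namespace C37

/-- Z03a. PROPERNESS: infinitely many elements moving one point into a bounded set. K = closed ball of radius max C ‖o‖ (compact: finite dimension);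
o ∈ K and γ o ∈ K; the image of A under zel is infinite (zel_injective). -/
theorem d2_proper_contra {Γ : Subgroup (V ≃ᵃ[ℝ] V)} {α β : V ≃ᵃ[ℝ] V} (h : Z2 Γ α β) (A : Set (ℤ × ℤ)) (hA : A.Infinite)
    (o : V) (C : ℝ) (hb : ∀ p ∈ A, ‖zel α β p.1 p.2 o‖ ≤ C) : False := by
  have h1 := h.cryst.proper (Metric.closedBall (0 : V) (max C ‖o‖)) (isCompact_closedBall _ _)
  have h2 : ((fun p : ℤ × ℤ => zel α β p.1 p.2) '' A).Infinite :=
    hA.image ((zel_injective h).injOn)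
  refine h2 (h1.subset ?_)
  rintro _ ⟨p, hp, rfl⟩
  refine ⟨zel_mem h _ _, zel α β p.1 p.2 o, ⟨o, ?_, rfl⟩, ?_⟩
  · rw [mem_closedBall_zero_iff]
    exact le_max_right _ _
  · rw [mem_closedBall_zero_iff]
    exact (hb p hp).trans (le_max_left _ _)

/-- Z03b. DISCRETENESS of linear parts: R_discrete with K = {M | ∀ i j, |M i j| ≤ C} (compact: `isCompact_univ_pi` twice, Icc;
or closed and bounded). -/
theorem d2_disc_contra {Γ : Subgroup (V ≃ᵃ[ℝ] V)} {α β : V ≃ᵃ[ℝ] V} (h : Z2 Γ α β) (A : Set (ℤ × ℤ)) (hA : A.Infinite)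
    (C : ℝ) (hb : ∀ p ∈ A, ∀ i j, |lin (zel α β p.1 p.2) i j| ≤ C)
    (hb' : ∀ p ∈ A, ∀ i j, |(lin (zel α β p.1 p.2))⁻¹ i j| ≤ C) : False := by
  have hK : IsCompact (Set.pi Set.univ (fun _ : Fin 7 => Set.pi Set.univ
      (fun _ : Fin 7 => Set.Icc (-C) C))) :=
    isCompact_univ_pi (fun _ => isCompact_univ_pi (fun _ => isCompact_Icc))
  have h1 := R_discrete Γ h.cryst _ hK
  have h2 : ((fun p : ℤ × ℤ => zel α β p.1 p.2) '' A).Infinite :=
    hA.image ((zel_injective h).injOn)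
  refine h2 (h1.subset ?_)
  rintro _ ⟨p, hp, rfl⟩
  refine ⟨zel_mem h _ _, ?_, ?_⟩
  · intro i _ j _
    exact abs_le.1 (hb p hp i j)
  · intro i _ j _
    exact abs_le.1 (hb' p hp i j)

end C37
end

section

/-!
MP_c37615_al (S02984), part D-IIa: task U01 (the cocycle UU)
-/

set_option autoImplicit false

open Filter Topology Polynomial

namespace C37

/-- translation parts -/
noncomputable def UU (μ ν η κ r s : ℝ) : V :=
  (μ * r + ν * s + η * s ^ 2 - κ * s ^ 3 / 3) • x1 + (η * s - κ * s ^ 2 / 2) • va + (κ * s) • y1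

/-- the linear parts -/
noncomputable def gU (r s : ℝ) : Mat := eH0 r * expZ rSp1 s

theorem U01_expZ_apply (Z : Mat) (s : ℝ) (v : V) :
    (expZ Z s).mulVec v = v + s • Z.mulVec v + (s ^ 2 / 2) • Z.mulVec (Z.mulVec v) := by
  unfold expZ
  rw [Matrix.add_mulVec, Matrix.add_mulVec, Matrix.one_mulVec, Matrix.smul_mulVec, Matrix.smul_mulVec,
    Matrix.mulVec_mulVec]

theorem U01_gU_apply (r s : ℝ) (v : V) : (gU r s).mulVec v = (eH0 r).mulVec v + s • (eH0 r).mulVec (rSp1.mulVec v)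
    + (s ^ 2 / 2) • (eH0 r).mulVec (rSp1.mulVec (rSp1.mulVec v)) := by
  unfold gU
  rw [← Matrix.mulVec_mulVec, U01_expZ_apply, Matrix.mulVec_add, Matrix.mulVec_add, Matrix.mulVec_smul, Matrix.mulVec_smul]

theorem U01_S_va : rSp1.mulVec va = (2:ℝ) • x1 := ofNull_va _ _ _ _ _ _ _
theorem U01_S_x1 : rSp1.mulVec x1 = 0 := ofNull_x1 _ _ _ _ _ _ _
theorem U01_S_x2 : rSp1.mulVec x2 = y3 := ofNull_x2 _ _ _ _ _ _ _
theorem U01_S_x3 : rSp1.mulVec x3 = -y2 := ofNull_x3 _ _ _ _ _ _ _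
theorem U01_S_y1 : rSp1.mulVec y1 = -va := ofNull_y1 _ _ _ _ _ _ _
theorem U01_S_y2 : rSp1.mulVec y2 = 0 := ofNull_y2 _ _ _ _ _ _ _
theorem U01_S_y3 : rSp1.mulVec y3 = 0 := ofNull_y3 _ _ _ _ _ _ _
theorem U01_H_va (r : ℝ) : (eH0 r).mulVec va = va := ofNull_va _ _ _ _ _ _ _
theorem U01_H_x1 (r : ℝ) : (eH0 r).mulVec x1 = x1 := ofNull_x1 _ _ _ _ _ _ _
theorem U01_H_x2 (r : ℝ) : (eH0 r).mulVec x2 = Real.exp r • x2 := ofNull_x2 _ _ _ _ _ _ _
theorem U01_H_x3 (r : ℝ) : (eH0 r).mulVec x3 = Real.exp (-r) • x3 := ofNull_x3 _ _ _ _ _ _ _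
theorem U01_H_y1 (r : ℝ) : (eH0 r).mulVec y1 = y1 := ofNull_y1 _ _ _ _ _ _ _
theorem U01_H_y2 (r : ℝ) : (eH0 r).mulVec y2 = Real.exp (-r) • y2 := ofNull_y2 _ _ _ _ _ _ _
theorem U01_H_y3 (r : ℝ) : (eH0 r).mulVec y3 = Real.exp r • y3 := ofNull_y3 _ _ _ _ _ _ _

/-- U01a. values of gU r s on x1, va, y1 -/
theorem gU_x1 (r s : ℝ) : (gU r s).mulVec x1 = x1 := by
  rw [U01_gU_apply, U01_S_x1, Matrix.mulVec_zero, Matrix.mulVec_zero, Matrix.mulVec_zero, U01_H_x1]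
  module
theorem gU_va (r s : ℝ) : (gU r s).mulVec va = va + (2 * s) • x1 := by
  rw [U01_gU_apply, U01_S_va, Matrix.mulVec_smul, Matrix.mulVec_smul, Matrix.mulVec_smul, U01_S_x1, Matrix.mulVec_zero,
    U01_H_x1, U01_H_va]
  module
theorem gU_y1 (r s : ℝ) : (gU r s).mulVec y1 = y1 + (-s) • va + (-(s ^ 2)) • x1 := by
  rw [U01_gU_apply, U01_S_y1, Matrix.mulVec_neg, Matrix.mulVec_neg, U01_S_va, U01_H_va, U01_H_y1, Matrix.mulVec_neg,
    Matrix.mulVec_smul, U01_H_x1]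
  module
theorem U01_gU_x2 (r s : ℝ) : (gU r s).mulVec x2 = Real.exp r • x2 + (Real.exp r * s) • y3 := by
  rw [U01_gU_apply, U01_S_x2, U01_S_y3, Matrix.mulVec_zero, U01_H_x2, U01_H_y3]
  module
theorem U01_gU_x3 (r s : ℝ) : (gU r s).mulVec x3 = Real.exp (-r) • x3 + (-(Real.exp (-r) * s)) • y2 := by
  rw [U01_gU_apply, U01_S_x3, Matrix.mulVec_neg, Matrix.mulVec_neg, U01_S_y2, neg_zero, Matrix.mulVec_zero, U01_H_x3, U01_H_y2]
  module
theorem U01_gU_y2 (r s : ℝ) : (gU r s).mulVec y2 = Real.exp (-r) • y2 := by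
  rw [U01_gU_apply, U01_S_y2, Matrix.mulVec_zero, Matrix.mulVec_zero, Matrix.mulVec_zero, U01_H_y2]
  module
theorem U01_gU_y3 (r s : ℝ) : (gU r s).mulVec y3 = Real.exp r • y3 := by
  rw [U01_gU_apply, U01_S_y3, Matrix.mulVec_zero, Matrix.mulVec_zero, Matrix.mulVec_zero, U01_H_y3]
  module

/-- U01b. d2_mat_ext (values on x2, y3: e^r x2 + e^r s y3, e^r y3; x3 ↦ e^(-r) x3 - e^(-r) s y2; y2 ↦ e^(-r) y2). -/
theorem gU_mul (r s r' s' : ℝ) : gU r s * gU r' s' = gU (r + r') (s + s') := by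
  have e1 : Real.exp (r + r') = Real.exp r * Real.exp r' := Real.exp_add r r'
  have e2 : Real.exp (-(r + r')) = Real.exp (-r) * Real.exp (-r') := by rw [← Real.exp_add]; congr 1; ring
  apply d2_mat_ext
  · rw [← Matrix.mulVec_mulVec, gU_va, gU_va, Matrix.mulVec_add, Matrix.mulVec_smul, gU_va, gU_x1]
    module
  · rw [← Matrix.mulVec_mulVec, gU_x1, gU_x1, gU_x1]
  · rw [← Matrix.mulVec_mulVec, U01_gU_x2, U01_gU_x2, Matrix.mulVec_add, Matrix.mulVec_smul, Matrix.mulVec_smul,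
      U01_gU_x2, U01_gU_y3, e1]
    module
  · rw [← Matrix.mulVec_mulVec, U01_gU_x3, U01_gU_x3, Matrix.mulVec_add, Matrix.mulVec_smul, Matrix.mulVec_smul,
      U01_gU_x3, U01_gU_y2, e2]
    module
  · rw [← Matrix.mulVec_mulVec, gU_y1, gU_y1, Matrix.mulVec_add, Matrix.mulVec_add, Matrix.mulVec_smul, Matrix.mulVec_smul,
      gU_y1, gU_va, gU_x1]
    module
  · rw [← Matrix.mulVec_mulVec, U01_gU_y2, U01_gU_y2, Matrix.mulVec_smul, U01_gU_y2, e2]
    module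
  · rw [← Matrix.mulVec_mulVec, U01_gU_y3, U01_gU_y3, Matrix.mulVec_smul, U01_gU_y3, e1]
    module

theorem gU_zero : gU 0 0 = 1 := by
  apply d2_mat_ext
  · rw [gU_va, Matrix.one_mulVec]; module
  · rw [gU_x1, Matrix.one_mulVec]
  · rw [U01_gU_x2, Matrix.one_mulVec, Real.exp_zero]; module
  · rw [U01_gU_x3, Matrix.one_mulVec, neg_zero, Real.exp_zero]; module
  · rw [gU_y1, Matrix.one_mulVec]; module
  · rw [U01_gU_y2, Matrix.one_mulVec, neg_zero, Real.exp_zero]; module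
  · rw [U01_gU_y3, Matrix.one_mulVec, Real.exp_zero]; module

/-- U01c. cocycle identity (from U01a, coefficients by ring). -/
theorem UU_add (μ ν η κ r s r' s' : ℝ) :
    UU μ ν η κ (r + r') (s + s') = (gU r s).mulVec (UU μ ν η κ r' s') + UU μ ν η κ r s := by
  unfold UU
  rw [Matrix.mulVec_add, Matrix.mulVec_add, Matrix.mulVec_smul, Matrix.mulVec_smul, Matrix.mulVec_smul, gU_y1, gU_va, gU_x1]
  module
theorem UU_zero (μ ν η κ : ℝ) : UU μ ν η κ 0 0 = 0 := by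
  unfold UU
  module

theorem U01_lin_inv (r s : ℝ) (γ : V ≃ᵃ[ℝ] V) (h1 : lin γ = gU r s) : lin γ⁻¹ = gU (-r) (-s) := by
  rw [d2_lin_inv, h1]
  apply Matrix.inv_eq_right_inv
  rw [gU_mul, add_neg_cancel, add_neg_cancel, gU_zero]

theorem U01_tv_inv (μ ν η κ r s : ℝ) (γ : V ≃ᵃ[ℝ] V) (h1 : lin γ = gU r s) (h2 : tv γ = UU μ ν η κ r s) :
    tv γ⁻¹ = UU μ ν η κ (-r) (-s) := by
  have h3 : (gU r s).mulVec (tv γ⁻¹) + UU μ ν η κ r s = 0 := by
    have := d2_tv_mul γ γ⁻¹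
    rw [mul_inv_cancel, h1, h2] at this
    rw [← this]
    rfl
  have h4 : (gU r s).mulVec (UU μ ν η κ (-r) (-s)) + UU μ ν η κ r s = 0 := by
    rw [← UU_add, add_neg_cancel, add_neg_cancel, UU_zero]
  have h5 : (gU r s).mulVec (tv γ⁻¹) = (gU r s).mulVec (UU μ ν η κ (-r) (-s)) := by
    rw [eq_neg_of_add_eq_zero_left h3, eq_neg_of_add_eq_zero_left h4]
  have h6 := congrArg (fun v => (gU (-r) (-s)).mulVec v) h5
  simp only [Matrix.mulVec_mulVec, gU_mul, neg_add_cancel, gU_zero, Matrix.one_mulVec] at h6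
  exact h6

theorem U01_lin_pow (r s : ℝ) (γ : V ≃ᵃ[ℝ] V) (h1 : lin γ = gU r s) (n : ℕ) :
    lin (γ ^ n) = gU (n * r) (n * s) := by
  induction n with
  | zero => rw [pow_zero, d2_lin_one]; simp [gU_zero]
  | succ n ih =>
    rw [pow_succ, d2_lin_mul, ih, h1, gU_mul]
    congr 1 <;> push_cast <;> ring

theorem U01_tv_pow (μ ν η κ r s : ℝ) (γ : V ≃ᵃ[ℝ] V) (h1 : lin γ = gU r s) (h2 : tv γ = UU μ ν η κ r s) (n : ℕ) :
    tv (γ ^ n) = UU μ ν η κ (n * r) (n * s) := by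
  induction n with
  | zero =>
    rw [pow_zero]
    simp only [Nat.cast_zero, zero_mul, UU_zero]
    rfl
  | succ n ih =>
    rw [pow_succ, d2_tv_mul, U01_lin_pow r s γ h1, h2, ih, ← UU_add]
    congr 1 <;> push_cast <;> ring

theorem U01_lin_zpow (r s : ℝ) (γ : V ≃ᵃ[ℝ] V) (h1 : lin γ = gU r s) (m : ℤ) :
    lin (γ ^ m) = gU (m * r) (m * s) := by
  cases m with
  | ofNat n =>
    have := U01_lin_pow r s γ h1 n
    rw [Int.ofNat_eq_natCast, zpow_natCast, this]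
    simp
  | negSucc n =>
    rw [zpow_negSucc]
    have := U01_lin_inv _ _ _ (U01_lin_pow r s γ h1 (n + 1))
    rw [this]
    congr 1 <;> push_cast [Int.cast_negSucc] <;> ring

/-- U01d. integer powers: induction on m (Int.induction_on), d2_lin_mul, d2_tv_mul, gU_mul, UU_add; for the inverse use uniqueness:
lin (s * s⁻¹) = 1, tv (s * s⁻¹) = 0. -/
theorem UU_zpow (μ ν η κ r s : ℝ) (γ : V ≃ᵃ[ℝ] V) (h1 : lin γ = gU r s) (h2 : tv γ = UU μ ν η κ r s) (m : ℤ) :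
    lin (γ ^ m) = gU (m * r) (m * s) ∧ tv (γ ^ m) = UU μ ν η κ (m * r) (m * s) := by
  refine ⟨U01_lin_zpow r s γ h1 m, ?_⟩
  cases m with
  | ofNat n =>
    have := U01_tv_pow μ ν η κ r s γ h1 h2 n
    rw [Int.ofNat_eq_natCast, zpow_natCast, this]
    simp
  | negSucc n =>
    rw [zpow_negSucc]
    have := U01_tv_inv μ ν η κ _ _ _ (U01_lin_pow r s γ h1 (n + 1)) (U01_tv_pow μ ν η κ r s γ h1 h2 (n + 1))
    rw [this]
    congr 1 <;> push_cast [Int.cast_negSucc] <;> ring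

theorem UU_zel (μ ν η κ r1 s1 r2 s2 : ℝ) (α β : V ≃ᵃ[ℝ] V) (h1 : lin α = gU r1 s1) (h2 : tv α = UU μ ν η κ r1 s1)
    (k1 : lin β = gU r2 s2) (k2 : tv β = UU μ ν η κ r2 s2) (m n : ℤ) :
    lin (zel α β m n) = gU (m * r1 + n * r2) (m * s1 + n * s2) ∧
    tv (zel α β m n) = UU μ ν η κ (m * r1 + n * r2) (m * s1 + n * s2) := by
  have ha := UU_zpow μ ν η κ r1 s1 α h1 h2 m
  have hb := UU_zpow μ ν η κ r2 s2 β k1 k2 n
  unfold zel
  constructor
  · rw [d2_lin_mul, ha.1, hb.1, gU_mul]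
  · rw [d2_tv_mul, ha.1, ha.2, hb.2, UU_add]

/-- U01e. lin only (no hypothesis on tv) -/
theorem gU_zel (r1 s1 r2 s2 : ℝ) (α β : V ≃ᵃ[ℝ] V) (h1 : lin α = gU r1 s1) (k1 : lin β = gU r2 s2) (m n : ℤ) :
    lin (zel α β m n) = gU (m * r1 + n * r2) (m * s1 + n * s2) := by
  unfold zel
  rw [d2_lin_mul, U01_lin_zpow r1 s1 α h1, U01_lin_zpow r2 s2 β k1, gU_mul]

end C37
end

section

/-!
MP_c37615_al (S02984), part D-IIb (paper 6.4.4 - 6.4.6): assembly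
-/

set_option autoImplicit false

open Filter Topology NormedSpace

namespace C37
namespace DB

theorem conj_comb (g : Mat) (hg : InG g) (X X' : HMat) (hX : Matrix.vecMul eRow X = 0)
    (hX' : Matrix.vecMul eRow X' = 0) (c d : ℝ) (Z : Mat) (h : g * (c • lb X + d • lb X') = Z * g) :
    ∃ a : V, c • (hat g 0 * X * (hat g 0)⁻¹) + d • (hat g 0 * X' * (hat g 0)⁻¹) = hat0 Z a := by
  obtain ⟨hg', h1, h2⟩ := inG_inv g hg
  have e1 : hat g 0 * hat g⁻¹ 0 = 1 := by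
    rw [hat_mul, h1]; simp [hat_one]
  have e2 : (hat g 0)⁻¹ = hat g⁻¹ 0 := Matrix.inv_eq_right_inv e1
  rw [e2]
  obtain ⟨Y, a, rfl⟩ : ∃ Y a, X = hat0 Y a := ⟨_, _, eq_hat0 X hX⟩
  obtain ⟨Y', a', rfl⟩ : ∃ Y a, X' = hat0 Y a := ⟨_, _, eq_hat0 X' hX'⟩
  rw [lb_hat0, lb_hat0] at h
  have key : ∀ (W : Mat) (b : V), hat g 0 * hat0 W b * hat g⁻¹ 0 = hat0 (g * W * g⁻¹) (g.mulVec b) := by
    intro W b
    simp only [hat, hat0, Matrix.fromBlocks_multiply]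
    ext i j
    rcases i with i | i <;> rcases j with j | j <;>
      simp [Matrix.mul_apply, Matrix.mulVec, dotProduct]
  rw [key, key]
  refine ⟨c • g.mulVec a + d • g.mulVec a', ?_⟩
  rw [hat0_smul, hat0_smul, hat0_add]
  congr 1
  have : c • (g * Y * g⁻¹) + d • (g * Y' * g⁻¹) = (g * (c • Y + d • Y')) * g⁻¹ := by
    simp only [Matrix.mul_add, Matrix.add_mul, Matrix.mul_smul, Matrix.smul_mul]
  rw [this, h, Matrix.mul_assoc, h1, Matrix.mul_one]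

/-- no independent pair with all eigenvalues of modulus one -/
theorem nz_core (Γ : Subgroup (V ≃ᵃ[ℝ] V)) (hΓ : Cryst Γ) (α β : V ≃ᵃ[ℝ] V) (hα : α ∈ Γ) (hβ : β ∈ Γ)
    (hcomm : α * β = β * α) (hind : ∀ m n : ℤ, α ^ m * β ^ n = 1 → m = 0 ∧ n = 0)
    (ha : EV1 (lin α)) (hb : EV1 (lin β)) : False := by
  obtain ⟨S, X, S', X', J⟩ := jpair_exists α β hcomm ha hb
  have gin : ∀ γ ∈ Γ, InG (lin γ) := by
    intro γ hγ u v w
    have := hΓ.inG γ hγ u v w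
    simpa [lin, LinearMap.toMatrix'_mulVec] using this
  obtain ⟨dX, dX', nX, nX', hXX'⟩ := jpair_der α β (gin α hα) (gin β hβ) S X S' X' J
  have hi := jpair_ind Γ hΓ α β hα hβ hind S X S' X' J
  obtain ⟨g, hg, hcase⟩ := classification (lb X) (lb X') nX nX' hXX' dX dX' hi
  obtain ⟨δ, hd, hd0⟩ := exists_aff g (inG_isUnit g hg) 0
  have hΓ' := D_conj Γ hΓ δ (hd ▸ hg)
  have J' := jpair_conj α β δ S X S' X' J g hg hd hd0
  have mem : ∀ γ ∈ Γ, δ * γ * δ⁻¹ ∈ Γ.map (MulAut.conj δ).toMonoidHom := by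
    intro γ hγ
    exact ⟨γ, hγ, by simp [MulAut.conj_apply]⟩
  rcases hcase with ⟨c, d, hcd⟩ | ⟨c, d, c', d', h1, h2⟩
  · obtain ⟨a, ha'⟩ := conj_comb g hg X X' J.rX J.rX' c d rL23 hcd
    obtain ⟨γ, b, s, hn⟩ := jpair_near _ _ _ (mem α hα) (mem β hβ) _ _ _ _ J' c d rL23 a ha' cube_rL23
    exact D_LR _ hΓ' a γ b s hn
  · obtain ⟨aS, hS⟩ := conj_comb g hg X X' J.rX J.rX' c d rSp1 h1
    obtain ⟨aN, hN⟩ := conj_comb g hg X X' J.rX J.rX' c' d' _ h2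
    obtain ⟨γ, b, s, hn⟩ := jpair_near _ _ _ (mem α hα) (mem β hβ) _ _ _ _ J' c d rSp1 aS hS cube_rSp1
    have hsum : (c' + c) • (hat g 0 * X * (hat g 0)⁻¹) + (d' + d) • (hat g 0 * X' * (hat g 0)⁻¹) =
        hat0 ((2:ℝ) • rL12 + rL23 + rSp1) (aN + aS) := by
      rw [← hat0_add, ← hN, ← hS]; module
    obtain ⟨γ', b', s', hn'⟩ := jpair_near _ _ _ (mem α hα) (mem β hβ) _ _ _ _ J' _ _ _ _ hsum cube_d1
    have hcm : hat0 ((2:ℝ) • rL12 + rL23) aN * hat0 rSp1 aS = hat0 rSp1 aS * hat0 ((2:ℝ) • rL12 + rL23) aN := by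
      rw [← hN, ← hS]
      have hc := J'.cXX'
      have e1 := hc.eq
      simp only [Matrix.add_mul, Matrix.mul_add, Matrix.smul_mul, Matrix.mul_smul, e1]
      module
    rw [hat0_mul, hat0_mul] at hcm
    exact D_d1 _ hΓ' aS aN (hat0_inj _ _ _ _ hcm).2 γ b s hn γ' b' s' hn'

end DB
end C37
end
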