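import Mathlib
import Pool.Agent.Lib.MP_c37615_al.Mg.G023
import Pool.Agent.Lib.MP_c37615_al.Mg.G031

section

/-!
MP_c37615_al (S02984), part D-IIa: task J02 (jT is a homomorphism)
-/

set_option autoImplicit false

open Filter Topology Polynomial

namespace C37

theorem J02_va (T : Matrix (Fin 2) (Fin 2) ℝ) : (jT T).mulVec va =
    (T.det⁻¹ * (T 0 0 * T 1 1 + T 0 1 * T 1 0)) • va + (T.det⁻¹ * (2 * T 1 0 * T 1 1)) • x1
      + (-(T.det⁻¹ * (2 * T 0 0 * T 0 1))) • y1 := ofNull_va _ _ _ _ _ _ _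
theorem J02_x1 (T : Matrix (Fin 2) (Fin 2) ℝ) : (jT T).mulVec x1 =
    (T.det⁻¹ * (T 0 1 * T 1 1)) • va + (T.det⁻¹ * (T 1 1 * T 1 1)) • x1
      + (-(T.det⁻¹ * (T 0 1 * T 0 1))) • y1 := ofNull_x1 _ _ _ _ _ _ _
theorem J02_x2 (T : Matrix (Fin 2) (Fin 2) ℝ) : (jT T).mulVec x2 =
    T 0 0 • x2 + T 1 0 • y3 := ofNull_x2 _ _ _ _ _ _ _
theorem J02_x3 (T : Matrix (Fin 2) (Fin 2) ℝ) : (jT T).mulVec x3 =
    (-(T.det⁻¹ * T 1 0)) • y2 + (T.det⁻¹ * T 0 0) • x3 := ofNull_x3 _ _ _ _ _ _ _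
theorem J02_y1 (T : Matrix (Fin 2) (Fin 2) ℝ) : (jT T).mulVec y1 =
    (-(T.det⁻¹ * (T 0 0 * T 1 0))) • va + (-(T.det⁻¹ * (T 1 0 * T 1 0))) • x1
      + (T.det⁻¹ * (T 0 0 * T 0 0)) • y1 := ofNull_y1 _ _ _ _ _ _ _
theorem J02_y2 (T : Matrix (Fin 2) (Fin 2) ℝ) : (jT T).mulVec y2 =
    (T.det⁻¹ * T 1 1) • y2 + (-(T.det⁻¹ * T 0 1)) • x3 := ofNull_y2 _ _ _ _ _ _ _
theorem J02_y3 (T : Matrix (Fin 2) (Fin 2) ℝ) : (jT T).mulVec y3 =
    T 0 1 • x2 + T 1 1 • y3 := ofNull_y3 _ _ _ _ _ _ _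

/-- J02a. d2_mat_ext, values of jT on the null basis, mulVec is linear; field_simp / ring in the coefficients
(T.det = T 0 0 * T 1 1 - T 0 1 * T 1 0: Matrix.det_fin_two; product: Matrix.mul_apply, Fin.sum_univ_two). -/
theorem d2_jT_mul (T U : Matrix (Fin 2) (Fin 2) ℝ) (hT : T.det ≠ 0) (hU : U.det ≠ 0) :
    jT T * jT U = jT (T * U) := by
  have hd : ((T * U).det)⁻¹ = T.det⁻¹ * U.det⁻¹ := by
    rw [Matrix.det_mul, mul_inv]
  have e : ∀ i j : Fin 2, (T * U) i j = T i 0 * U 0 j + T i 1 * U 1 j := by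
    intro i j
    rw [Matrix.mul_apply, Fin.sum_univ_two]
  apply d2_mat_ext <;> rw [← Matrix.mulVec_mulVec] <;>
    simp only [J02_va, J02_x1, J02_x2, J02_x3, J02_y1, J02_y2, J02_y3, Matrix.mulVec_add,
      Matrix.mulVec_smul, hd, e] <;>
    (funext i; simp only [Pi.add_apply, Pi.smul_apply, smul_eq_mul]; ring)

/-- J02b. -/
theorem d2_jT_one : jT 1 = 1 := by
  apply d2_mat_ext <;> rw [Matrix.one_mulVec] <;>
    simp [J02_va, J02_x1, J02_x2, J02_x3, J02_y1, J02_y2, J02_y3]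

/-- J02c. T is determined by jT T x2 and jT T y3 (coordinates v 1 - v 5 and v 2 - v 6). -/
theorem d2_jT_inj (T U : Matrix (Fin 2) (Fin 2) ℝ) (h : jT T = jT U) : T = U := by
  have h2 := J02_x2 T
  rw [h, J02_x2 U] at h2
  have h3 := J02_y3 T
  rw [h, J02_y3 U] at h3
  have a1 := congrFun h2 1
  have a2 := congrFun h2 2
  have a3 := congrFun h3 1
  have a4 := congrFun h3 2
  simp only [Pi.add_apply, Pi.smul_apply, smul_eq_mul] at a1 a2 a3 a4
  have x21 : x2 1 = 1 / 2 := by simp [x2]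
  have x22 : x2 2 = 0 := by simp [x2]
  have y31 : y3 1 = 0 := by simp [y3]
  have y32 : y3 2 = 1 / 2 := by simp [y3]
  rw [x21, y31] at a1 a3
  rw [x22, y32] at a2 a4
  ext i j
  fin_cases i <;> fin_cases j
  · change T 0 0 = U 0 0
    linarith
  · change T 0 1 = U 0 1
    linarith
  · change T 1 0 = U 1 0
    linarith
  · change T 1 1 = U 1 1
    linarith

/-- J02d. span(va,x1,y1) is preserved. -/
theorem d2_jT_E00 (T : Matrix (Fin 2) (Fin 2) ℝ) (v : V) (hv : v ∈ E00) : (jT T).mulVec v ∈ E00 := by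
  have hva : va ∈ E00 := Submodule.subset_span (by simp)
  have hx1 : x1 ∈ E00 := Submodule.subset_span (by simp)
  have hy1 : y1 ∈ E00 := Submodule.subset_span (by simp)
  have hle : E00 ≤ E00.comap (Matrix.mulVecLin (jT T)) := by
    unfold E00
    rw [Submodule.span_le]
    intro w hw
    have hw' : w = va ∨ w = x1 ∨ w = y1 := by simpa using hw
    change (jT T).mulVec w ∈ E00
    rcases hw' with rfl | rfl | rfl
    · rw [J02_va]
      exact E00.add_mem (E00.add_mem (E00.smul_mem _ hva) (E00.smul_mem _ hx1)) (E00.smul_mem _ hy1)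
    · rw [J02_x1]
      exact E00.add_mem (E00.add_mem (E00.smul_mem _ hva) (E00.smul_mem _ hx1)) (E00.smul_mem _ hy1)
    · rw [J02_y1]
      exact E00.add_mem (E00.add_mem (E00.smul_mem _ hva) (E00.smul_mem _ hx1)) (E00.smul_mem _ hy1)
  exact hle hv

/-- J02e. eH0 r * expZ rSp1 σ : x2 ↦ e^r x2 + σ e^r y3, y3 ↦ e^r y3, va ↦ va + 2σ x1, ... : d2_mat_ext. The determinant is exp(r)^2. -/
theorem d2_jT_unip (r σ : ℝ) : eH0 r * expZ rSp1 σ = jT !![Real.exp r, 0; Real.exp r * σ, Real.exp r] := by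
  have hdet : (!![Real.exp r, 0; Real.exp r * σ, Real.exp r] : Matrix (Fin 2) (Fin 2) ℝ).det⁻¹ =
      Real.exp (-r) * Real.exp (-r) := by
    rw [Matrix.det_fin_two_of, Real.exp_neg]
    rw [zero_mul, sub_zero, mul_inv]
  have he : Real.exp r * Real.exp (-r) = 1 := by
    rw [← Real.exp_add, add_neg_cancel, Real.exp_zero]
  have s0 : (rSp1).mulVec va = (2 : ℝ) • x1 := ofNull_va _ _ _ _ _ _ _
  have s1 : (rSp1).mulVec x1 = 0 := ofNull_x1 _ _ _ _ _ _ _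
  have s2 : (rSp1).mulVec x2 = y3 := ofNull_x2 _ _ _ _ _ _ _
  have s3 : (rSp1).mulVec x3 = -y2 := ofNull_x3 _ _ _ _ _ _ _
  have s4 : (rSp1).mulVec y1 = -va := ofNull_y1 _ _ _ _ _ _ _
  have s5 : (rSp1).mulVec y2 = 0 := ofNull_y2 _ _ _ _ _ _ _
  have s6 : (rSp1).mulVec y3 = 0 := ofNull_y3 _ _ _ _ _ _ _
  have t0 : (eH0 r).mulVec va = va := ofNull_va _ _ _ _ _ _ _
  have t1 : (eH0 r).mulVec x1 = x1 := ofNull_x1 _ _ _ _ _ _ _
  have t2 : (eH0 r).mulVec x2 = Real.exp r • x2 := ofNull_x2 _ _ _ _ _ _ _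
  have t3 : (eH0 r).mulVec x3 = Real.exp (-r) • x3 := ofNull_x3 _ _ _ _ _ _ _
  have t4 : (eH0 r).mulVec y1 = y1 := ofNull_y1 _ _ _ _ _ _ _
  have t5 : (eH0 r).mulVec y2 = Real.exp (-r) • y2 := ofNull_y2 _ _ _ _ _ _ _
  have t6 : (eH0 r).mulVec y3 = Real.exp r • y3 := ofNull_y3 _ _ _ _ _ _ _
  have hexp : ∀ v : V, (expZ rSp1 σ).mulVec v =
      v + σ • (rSp1).mulVec v + (σ ^ 2 / 2) • (rSp1).mulVec ((rSp1).mulVec v) := by
    intro v
    unfold expZ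
    rw [Matrix.add_mulVec, Matrix.add_mulVec, Matrix.one_mulVec, Matrix.smul_mulVec,
      Matrix.smul_mulVec, Matrix.mulVec_mulVec]
  have m00 : (!![Real.exp r, 0; Real.exp r * σ, Real.exp r] : Matrix (Fin 2) (Fin 2) ℝ) 0 0 =
    Real.exp r := rfl
  have m01 : (!![Real.exp r, 0; Real.exp r * σ, Real.exp r] : Matrix (Fin 2) (Fin 2) ℝ) 0 1 =
    0 := rfl
  have m10 : (!![Real.exp r, 0; Real.exp r * σ, Real.exp r] : Matrix (Fin 2) (Fin 2) ℝ) 1 0 =
    Real.exp r * σ := rfl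
  have m11 : (!![Real.exp r, 0; Real.exp r * σ, Real.exp r] : Matrix (Fin 2) (Fin 2) ℝ) 1 1 =
    Real.exp r := rfl
  have he2 : Real.exp (-r) * Real.exp (-r) * (Real.exp r * Real.exp r) = 1 := by
    calc Real.exp (-r) * Real.exp (-r) * (Real.exp r * Real.exp r) =
        (Real.exp r * Real.exp (-r)) * (Real.exp r * Real.exp (-r)) := by ring
      _ = 1 := by rw [he, mul_one]
  have he3 : Real.exp (-r) * Real.exp (-r) * Real.exp r = Real.exp (-r) := by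
    calc Real.exp (-r) * Real.exp (-r) * Real.exp r =
        (Real.exp r * Real.exp (-r)) * Real.exp (-r) := by ring
      _ = Real.exp (-r) := by rw [he, one_mul]
  apply d2_mat_ext <;> rw [← Matrix.mulVec_mulVec, hexp]
  · rw [J02_va, hdet, m00, m01, m10, m11, s0, Matrix.mulVec_smul, s1, Matrix.mulVec_add,
      Matrix.mulVec_add, t0, Matrix.mulVec_smul, Matrix.mulVec_smul, t1]
    funext i
    simp only [Pi.add_apply, Pi.smul_apply, smul_eq_mul, Matrix.mulVec_smul, smul_zero,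
      Matrix.mulVec_zero, Pi.zero_apply]
    linear_combination (-(va i) - 2 * σ * x1 i) * he2
  · rw [J02_x1, hdet, m01, m11, s1, Matrix.mulVec_zero, smul_zero, smul_zero, add_zero, add_zero,
      t1]
    funext i
    simp only [Pi.add_apply, Pi.smul_apply, smul_eq_mul]
    linear_combination (-(x1 i)) * he2
  · rw [J02_x2, m00, m10, s2, s6, smul_zero, add_zero, Matrix.mulVec_add, Matrix.mulVec_smul, t2,
      t6]
    funext i
    simp only [Pi.add_apply, Pi.smul_apply, smul_eq_mul]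
    ring
  · rw [J02_x3, hdet, m00, m10, s3, Matrix.mulVec_neg, s5, neg_zero, smul_zero, add_zero,
      Matrix.mulVec_add, Matrix.mulVec_smul, Matrix.mulVec_neg, t3, t5]
    funext i
    simp only [Pi.add_apply, Pi.smul_apply, smul_eq_mul, Pi.neg_apply]
    linear_combination (σ * y2 i - x3 i) * he3
  · rw [J02_y1, hdet, m00, m10, s4, Matrix.mulVec_neg, s0, Matrix.mulVec_add, Matrix.mulVec_add,
      Matrix.mulVec_smul, Matrix.mulVec_smul, Matrix.mulVec_neg, Matrix.mulVec_neg,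
      Matrix.mulVec_smul, t0, t1, t4]
    funext i
    simp only [Pi.add_apply, Pi.smul_apply, smul_eq_mul, Pi.neg_apply]
    linear_combination (σ * va i + σ ^ 2 * x1 i - y1 i) * he2
  · rw [J02_y2, hdet, m01, m11, s5, Matrix.mulVec_zero, smul_zero, smul_zero, add_zero, add_zero,
      t5]
    funext i
    simp only [Pi.add_apply, Pi.smul_apply, smul_eq_mul]
    linear_combination (-(y2 i)) * he3
  · rw [J02_y3, m01, m11, s6, Matrix.mulVec_zero, smul_zero, smul_zero, add_zero, add_zero, t6]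
    funext i
    simp only [Pi.add_apply, Pi.smul_apply, smul_eq_mul]
    ring

theorem J02_lin3 {a b c u v w K : ℝ} (ha : |a| ≤ K) (hb : |b| ≤ K) (hc : |c| ≤ K)
    (hu : |u| ≤ 1) (hv : |v| ≤ 1) (hw : |w| ≤ 1) : |a * u + b * v + c * w| ≤ 3 * K := by
  have h : ∀ {x y : ℝ}, |x| ≤ K → |y| ≤ 1 → |x * y| ≤ K := by
    intro x y hx hy
    rw [abs_mul]
    calc |x| * |y| ≤ |x| * 1 := mul_le_mul_of_nonneg_left hy (abs_nonneg x)
      _ ≤ K := by rw [mul_one]; exact hx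
  have h1 := h ha hu
  have h2 := h hb hv
  have h3 := h hc hw
  have h4 := abs_add_le (a * u + b * v) (c * w)
  have h5 := abs_add_le (a * u) (b * v)
  linarith

/-- J02f. entries of jT T are bounded in terms of the entries of T and of T.det⁻¹: every entry of jT T is a sum of at most 21 products of
absolute value ≤ 2 C^3 (coordinates of the null basis are 0, ±1/2, ±1; entries of ofNull). Any explicit constant is fine; if 200 C^3 is inconvenient
tell helper53. -/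
theorem d2_jT_bound (T : Matrix (Fin 2) (Fin 2) ℝ) (C : ℝ) (hC : 1 ≤ C) (h : ∀ i j, |T i j| ≤ C) (hd : |T.det⁻¹| ≤ C) :
    ∀ i j, |jT T i j| ≤ 200 * C ^ 3 := by
  intro i j
  have hC0 : 0 ≤ C := by linarith
  have hC2 : C ≤ C ^ 2 := by nlinarith
  have hC3 : C ^ 2 ≤ C ^ 3 := by nlinarith [sq_nonneg C]
  have bva : ∀ i, |va i| ≤ 1 := by intro i; fin_cases i <;> simp [va]
  have bx1 : ∀ i, |x1 i| ≤ 1 := by intro i; fin_cases i <;> simp [x1] <;> norm_num [abs_le]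
  have bx2 : ∀ i, |x2 i| ≤ 1 := by intro i; fin_cases i <;> simp [x2] <;> norm_num [abs_le]
  have bx3 : ∀ i, |x3 i| ≤ 1 := by intro i; fin_cases i <;> simp [x3] <;> norm_num [abs_le]
  have by1 : ∀ i, |y1 i| ≤ 1 := by intro i; fin_cases i <;> simp [y1] <;> norm_num [abs_le]
  have by2 : ∀ i, |y2 i| ≤ 1 := by intro i; fin_cases i <;> simp [y2] <;> norm_num [abs_le]
  have by3 : ∀ i, |y3 i| ≤ 1 := by intro i; fin_cases i <;> simp [y3] <;> norm_num [abs_le]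
  have m2 : ∀ i j k l, |T i j * T k l| ≤ C ^ 2 := by
    intro i j k l
    rw [abs_mul, sq]
    exact mul_le_mul (h i j) (h k l) (abs_nonneg _) hC0
  have m3 : ∀ x : ℝ, |x| ≤ 2 * C ^ 2 → |T.det⁻¹ * x| ≤ 2 * C ^ 3 := by
    intro x hx
    rw [abs_mul]
    calc |T.det⁻¹| * |x| ≤ C * (2 * C ^ 2) := mul_le_mul hd hx (abs_nonneg _) hC0
      _ = 2 * C ^ 3 := by ring
  have m1 : ∀ i j, |T i j| ≤ 2 * C ^ 3 := fun i j => by have := h i j; linarith
  have m1' : ∀ i j, |T.det⁻¹ * T i j| ≤ 2 * C ^ 3 := fun i j =>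
    m3 _ (by have := h i j; linarith)
  have m2' : ∀ i j k l, |T.det⁻¹ * (T i j * T k l)| ≤ 2 * C ^ 3 := fun i j k l =>
    m3 _ (by have := m2 i j k l; linarith)
  have hz : |(0 : ℝ)| ≤ 2 * C ^ 3 := by
    rw [abs_zero]
    positivity
  have c1 : |T.det⁻¹ * (T 0 0 * T 1 1 + T 0 1 * T 1 0)| ≤ 2 * C ^ 3 := by
    apply m3
    have := abs_add_le (T 0 0 * T 1 1) (T 0 1 * T 1 0)
    have h1 := m2 0 0 1 1
    have h2 := m2 0 1 1 0
    linarith
  have c2 : ∀ i j k l, |T.det⁻¹ * (2 * T i j * T k l)| ≤ 2 * C ^ 3 := by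
    intro i j k l
    apply m3
    rw [mul_assoc, abs_mul, abs_two]
    have := m2 i j k l
    linarith
  have c3 : ∀ x : ℝ, |x| ≤ 2 * C ^ 3 → |-x| ≤ 2 * C ^ 3 := by
    intro x hx
    rwa [abs_neg]
  have Ba := J02_lin3 c1 (c2 1 0 1 1) (c3 _ (c2 0 0 0 1)) (bva i) (bx1 i) (by1 i)
  have B1 := J02_lin3 (m2' 0 1 1 1) (m2' 1 1 1 1) (c3 _ (m2' 0 1 0 1)) (bva i) (bx1 i) (by1 i)
  have B2 := J02_lin3 (m1 0 0) (m1 1 0) hz (bx2 i) (by3 i) (bva i)
  have B3 := J02_lin3 (c3 _ (m1' 1 0)) (m1' 0 0) hz (by2 i) (bx3 i) (bva i)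
  have B4 := J02_lin3 (c3 _ (m2' 0 0 1 0)) (c3 _ (m2' 1 0 1 0)) (m2' 0 0 0 0) (bva i) (bx1 i) (by1 i)
  have B5 := J02_lin3 (m1' 1 1) (c3 _ (m1' 0 1)) hz (by2 i) (bx3 i) (bva i)
  have B6 := J02_lin3 (m1 0 1) (m1 1 1) hz (bx2 i) (by3 i) (bva i)
  rw [zero_mul, add_zero] at B2 B3 B5 B6
  have hev : ∀ k, |ev j k| ≤ 1 := by
    intro k
    unfold ev
    rw [Pi.single_apply]
    split_ifs <;> simp
  have hev1 : ∀ k l, |ev j k - ev j l| ≤ 2 := by
    intro k l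
    have := abs_sub (ev j k) (ev j l)
    have h1 := hev k
    have h2 := hev l
    linarith
  have hev2 : ∀ k l, |-(ev j k + ev j l)| ≤ 2 := by
    intro k l
    rw [abs_neg]
    have := abs_add_le (ev j k) (ev j l)
    have h1 := hev k
    have h2 := hev l
    linarith
  have hm : ∀ {x y : ℝ}, |x| ≤ 2 → |y| ≤ 3 * (2 * C ^ 3) → |x * y| ≤ 12 * C ^ 3 := by
    intro x y hx hy
    rw [abs_mul]
    calc |x| * |y| ≤ 2 * (3 * (2 * C ^ 3)) := mul_le_mul hx hy (abs_nonneg _) (by norm_num)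
      _ = 12 * C ^ 3 := by ring
  have H0 := hm ((hev 3).trans (by norm_num)) Ba
  have H1 := hm (hev1 0 4) B1
  have H2 := hm (hev1 1 5) B2
  have H3 := hm (hev2 2 6) B3
  have H4 := hm (hev2 0 4) B4
  have H5 := hm (hev2 1 5) B5
  have H6 := hm (hev1 2 6) B6
  have hC3' : 0 ≤ C ^ 3 := by positivity
  unfold jT ofNull
  simp only [Matrix.of_apply, Pi.add_apply, Pi.smul_apply, smul_eq_mul]
  rw [abs_le] at H0 H1 H2 H3 H4 H5 H6 ⊢
  constructor
  · linarith [H0.1, H1.1, H2.1, H3.1, H4.1, H5.1, H6.1]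
  · linarith [H0.2, H1.2, H2.2, H3.2, H4.2, H5.2, H6.2]

end C37
end

section

/-!
MP_c37615_al (S02984), part D-IIa: task T03 (hyperbolic matrices grow)
-/

set_option autoImplicit false

open Filter Topology Polynomial

namespace C37

theorem T03_ch (T : M2) : T * T = T.trace • T - T.det • (1 : M2) := by
  ext i j
  fin_cases i <;> fin_cases j <;>
    simp [Matrix.mul_apply, Fin.sum_univ_two, Matrix.trace_fin_two, Matrix.det_fin_two] <;> ring

theorem T03_rec (T : M2) (n : ℕ) :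
    (T ^ (n + 2)).trace = T.trace * (T ^ (n + 1)).trace - T.det * (T ^ n).trace := by
  have h : T ^ (n + 2) = T.trace • T ^ (n + 1) - T.det • T ^ n := by
    rw [pow_add, pow_two, T03_ch, mul_sub, Matrix.mul_smul, Matrix.mul_smul, mul_one, pow_succ]
  rw [h, Matrix.trace_sub, Matrix.trace_smul, Matrix.trace_smul, smul_eq_mul, smul_eq_mul]

theorem T03_tr (T : M2) (a b : ℝ) (h1 : T.trace = a + b) (h2 : T.det = a * b) :
    ∀ n : ℕ, (T ^ n).trace = a ^ n + b ^ n ∧ (T ^ (n + 1)).trace = a ^ (n + 1) + b ^ (n + 1) := by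
  intro n
  induction n with
  | zero =>
    constructor
    · rw [pow_zero, Matrix.trace_one]; simp; norm_num
    · simp [h1]
  | succ n ih =>
    refine ⟨ih.2, ?_⟩
    rw [show n + 1 + 1 = n + 2 from rfl, T03_rec, ih.1, ih.2, h1, h2]
    ring

theorem T03_main (T : M2) (a b : ℝ) (h1 : T.trace = a + b) (h2 : T.det = a * b) (hb : b ≠ 0)
    (hab : |b| < |a|) :
    ∃ c ρ : ℝ, 0 < c ∧ 1 < ρ ∧ ∀ n : ℕ, 1 ≤ n → c * ρ ^ n ≤ |(T ^ n).trace ^ 2 / T.det ^ n| := by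
  have hb0 : 0 < |b| := abs_pos.2 hb
  have ha0 : 0 < |a| := hb0.trans hab
  have ha : a ≠ 0 := abs_pos.1 ha0
  have hr : |b| / |a| < 1 := (div_lt_one ha0).2 hab
  have hr0 : 0 < |b| / |a| := div_pos hb0 ha0
  refine ⟨(1 - |b| / |a|) ^ 2, |a| / |b|, by nlinarith [sq_nonneg (1 - |b| / |a|), sub_pos.2 hr], (one_lt_div hb0).2 hab,
    fun n hn => ?_⟩
  rw [(T03_tr T a b h1 h2 n).1, h2]
  have h3 : (a ^ n + b ^ n) ^ 2 / (a * b) ^ n = (a / b) ^ n * (1 + (b / a) ^ n) ^ 2 := by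
    rw [div_pow, div_pow, mul_pow]
    field_simp
  rw [h3, abs_mul, abs_pow, abs_div, abs_of_nonneg (sq_nonneg (1 + (b / a) ^ n)), mul_comm]
  apply mul_le_mul_of_nonneg_left _ (by positivity)
  have h4 : |(b / a) ^ n| ≤ |b| / |a| := by
    rw [abs_pow, abs_div]
    exact pow_le_of_le_one hr0.le hr.le (by omega)
  have h5 : 1 - |b| / |a| ≤ 1 + (b / a) ^ n := by
    have := neg_abs_le ((b / a) ^ n)
    linarith
  exact pow_le_pow_left₀ (by linarith) h5 2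

/-- T03. D = trace^2 - 4 det > 0, trace ≠ 0: λ, μ = (trace ± √D)/2 real, λ ≠ ±μ, λ μ = det ≠ 0; we may take |μ| < |λ|. trace (T^n) = λ^n + μ^n
(induction with T^(n+2) = trace T^(n+1) - det T^n). So |trace (T^n)^2 / det^n| = |λ/μ|^n (1 + (μ/λ)^n)^2 ≥ |λ/μ|^n (1 - |μ/λ|)^2 for n ≥ 1. -/
theorem d2_hyp_growth (T : M2) (hT : T.det ≠ 0) (hD : 0 < T.trace ^ 2 - 4 * T.det) (ht : T.trace ≠ 0) :
    ∃ c ρ : ℝ, 0 < c ∧ 1 < ρ ∧ ∀ n : ℕ, 1 ≤ n → c * ρ ^ n ≤ |(T ^ n).trace ^ 2 / T.det ^ n| := by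
  set r := Real.sqrt (T.trace ^ 2 - 4 * T.det) with hr
  have hr2 : r ^ 2 = T.trace ^ 2 - 4 * T.det := Real.sq_sqrt hD.le
  have hr0 : 0 < r := Real.sqrt_pos.2 hD
  set a := (T.trace + r) / 2 with ha
  set b := (T.trace - r) / 2 with hb
  have hs : T.trace = a + b := by rw [ha, hb]; ring
  have hm : T.det = a * b := by
    have : a * b = (T.trace ^ 2 - r ^ 2) / 4 := by rw [ha, hb]; ring
    rw [this, hr2]; ring
  have hb0 : b ≠ 0 := by
    intro h; apply hT; rw [hm, h, mul_zero]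
  have ha0 : a ≠ 0 := by
    intro h; apply hT; rw [hm, h, zero_mul]
  have hdiff : a - b = r := by rw [ha, hb]; ring
  rcases lt_trichotomy |b| |a| with h | h | h
  · exact T03_main T a b hs hm hb0 h
  · exfalso
    rcases abs_eq_abs.1 h with h' | h'
    · rw [h'] at hdiff
      linarith
    · apply ht
      rw [hs, h']
      ring
  · exact T03_main T b a (by rw [hs]; ring) (by rw [hm]; ring) ha0 h

end C37
end

section

/-!
MP_c37615_al (S02984), part D-IIa: task T04 (subexponential on E00 excludes hyperbolic)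
-/

set_option autoImplicit false

open Filter Topology Polynomial

namespace C37

/-- T04a. coefficient of va in jT T va plus coefficient of x1 in jT T x1 plus coefficient of y1 in jT T y1. (coordinates: va ↔ v 3, x1 ↔ v 0 - v 4,
y1 ↔ -(v 0 + v 4); values ofNull_va etc.) -/
theorem d2_tr_formula (T : M2) (hT : T.det ≠ 0) :
    (jT T).mulVec va 3 + ((jT T).mulVec x1 0 - (jT T).mulVec x1 4) + (-((jT T).mulVec y1 0 + (jT T).mulVec y1 4))
      = T.trace ^ 2 / T.det - 1 := by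
  unfold jT
  rw [ofNull_va, ofNull_x1, ofNull_y1]
  simp only [Pi.add_apply, Pi.smul_apply, smul_eq_mul, va, x1, y1]
  simp
  rw [Matrix.trace_fin_two]
  have hd : T.det = T 0 0 * T 1 1 - T 0 1 * T 1 0 := Matrix.det_fin_two T
  field_simp
  rw [hd]
  ring

/-- T04b. (jT T)^n = jT (T^n) (d2_jT_mul, d2_jT_one). -/
theorem d2_jT_pow (T : M2) (hT : T.det ≠ 0) (n : ℕ) : (jT T) ^ n = jT (T ^ n) := by
  induction n with
  | zero => rw [pow_zero, pow_zero, d2_jT_one]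
  | succ n ih =>
    rw [pow_succ, ih, pow_succ, d2_jT_mul _ _ (by rw [Matrix.det_pow]; exact pow_ne_zero _ hT) hT]

/-- T04c. If trace ≠ 0: d2_hyp_growth gives c ρ^n ≤ |tr(T^n)^2/det(T)^n| ≤ 1 + 5 max(‖(jT T)^n va‖, ‖(jT T)^n x1‖, ‖(jT T)^n y1‖) ≤ 1 + 5 C ρ'^n with
ρ' = √ρ: contradiction for n large. -/
theorem d2_growth_T (T : M2) (hT : T.det ≠ 0) (h : E00 ≤ Vsub (jT T))
    (hD : 0 < T.trace ^ 2 - 4 * T.det) : T.trace = 0 := by
  by_contra ht
  obtain ⟨c, ρ, hc, hρ, hg⟩ := d2_hyp_growth T hT hD ht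
  set σ := Real.sqrt ρ with hσ
  have hσ2 : σ * σ = ρ := Real.mul_self_sqrt (by linarith)
  have hσ1 : 1 < σ := by
    rw [hσ, Real.lt_sqrt (by norm_num)]
    simpa using hρ
  have hva : va ∈ E00 := Submodule.subset_span (by simp)
  have hx1 : x1 ∈ E00 := Submodule.subset_span (by simp)
  have hy1 : y1 ∈ E00 := Submodule.subset_span (by simp)
  obtain ⟨C1, h1⟩ := mem_Vsub.1 (h hva) σ hσ1
  obtain ⟨C2, h2⟩ := mem_Vsub.1 (h hx1) σ hσ1
  obtain ⟨C3, h3⟩ := mem_Vsub.1 (h hy1) σ hσ1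
  have hkey : ∀ n : ℕ, 1 ≤ n → c * (σ ^ n * σ ^ n) ≤ 1 + (C1 + 2 * C2 + 2 * C3) * σ ^ n := by
    intro n hn
    have h4 := hg n hn
    have hTn : (T ^ n).det ≠ 0 := by rw [Matrix.det_pow]; exact pow_ne_zero _ hT
    have h5 := d2_tr_formula (T ^ n) hTn
    rw [← d2_jT_pow T hT n, Matrix.det_pow] at h5
    have h6 : (T ^ n).trace ^ 2 / T.det ^ n = 1 + ((jT T ^ n).mulVec va 3 +
      ((jT T ^ n).mulVec x1 0 - (jT T ^ n).mulVec x1 4) +
      (-((jT T ^ n).mulVec y1 0 + (jT T ^ n).mulVec y1 4))) := by rw [h5]; ring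
    rw [h6] at h4
    have b1 : |(jT T ^ n).mulVec va 3| ≤ C1 * σ ^ n := (norm_le_pi_norm _ 3).trans (h1 n)
    have b2 : |(jT T ^ n).mulVec x1 0| ≤ C2 * σ ^ n := (norm_le_pi_norm _ 0).trans (h2 n)
    have b3 : |(jT T ^ n).mulVec x1 4| ≤ C2 * σ ^ n := (norm_le_pi_norm _ 4).trans (h2 n)
    have b4 : |(jT T ^ n).mulVec y1 0| ≤ C3 * σ ^ n := (norm_le_pi_norm _ 0).trans (h3 n)
    have b5 : |(jT T ^ n).mulVec y1 4| ≤ C3 * σ ^ n := (norm_le_pi_norm _ 4).trans (h3 n)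
    rw [abs_le] at b1 b2 b3 b4 b5
    have h7 : |1 + ((jT T ^ n).mulVec va 3 +
      ((jT T ^ n).mulVec x1 0 - (jT T ^ n).mulVec x1 4) +
      (-((jT T ^ n).mulVec y1 0 + (jT T ^ n).mulVec y1 4)))| ≤ 1 + (C1 + 2 * C2 + 2 * C3) * σ ^ n := by
      rw [abs_le]
      constructor <;> linarith [b1.1, b1.2, b2.1, b2.2, b3.1, b3.2, b4.1, b4.2, b5.1, b5.2]
    calc c * (σ ^ n * σ ^ n) = c * ρ ^ n := by rw [← mul_pow, hσ2]
      _ ≤ _ := h4
      _ ≤ _ := h7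
  set D := 1 + |C1 + 2 * C2 + 2 * C3| with hDd
  have hbd : ∀ n : ℕ, 1 ≤ n → σ ^ n ≤ D / c := by
    intro n hn
    have hσn : 1 ≤ σ ^ n := one_le_pow₀ hσ1.le
    have h8 := hkey n hn
    have h9 : (C1 + 2 * C2 + 2 * C3) * σ ^ n ≤ |C1 + 2 * C2 + 2 * C3| * σ ^ n :=
      mul_le_mul_of_nonneg_right (le_abs_self _) (by positivity)
    rw [le_div_iff₀ hc]
    have h10 : c * (σ ^ n * σ ^ n) ≤ D * σ ^ n := by
      rw [hDd]; nlinarith
    have hσp : 0 < σ ^ n := by positivity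
    have h11 : (σ ^ n * c) * σ ^ n ≤ D * σ ^ n := by nlinarith
    exact le_of_mul_le_mul_right h11 hσp
  have hlim := tendsto_pow_atTop_atTop_of_one_lt hσ1
  obtain ⟨n, hn1, hn2⟩ := ((hlim.eventually_gt_atTop (D / c)).and (eventually_ge_atTop 1)).exists
  exact absurd (hbd n hn2) (not_le.2 hn1)

end C37
end

section

/-!
MP_c37615_al (S02984), part D-IIa: task T06 (both bounded: contradiction)
-/

set_option autoImplicit false

open Filter Topology Polynomial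

namespace C37

theorem T06_det_zpow (T : M2) (m : ℤ) : (T ^ m).det = T.det ^ m := by
  rcases Int.eq_nat_or_neg m with ⟨n, rfl | rfl⟩
  · rw [zpow_natCast, zpow_natCast, Matrix.det_pow]
  · rw [Matrix.zpow_neg_natCast, zpow_neg, zpow_natCast, Matrix.det_nonsing_inv, Matrix.det_pow,
      Ring.inverse_eq_inv']

/-- T06a. integer powers: for n ≥ 0 it is BddPow (√|det|^n = exp (n L)); T^(-n) = (T^n)⁻¹ = det(T^n)⁻¹ adjugate (T^n), whose entries are ± those of T^n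
divided by det^n: ≤ C exp(nL) exp(-2nL). -/
theorem d2_bdd_zpow (T : M2) (hT : T.det ≠ 0) (h : BddPow T) : ∃ C : ℝ, 1 ≤ C ∧ ∀ (m : ℤ) (i j : Fin 2),
    |(T ^ m) i j| ≤ C * Real.exp ((m : ℝ) * (Real.log |T.det| / 2)) := by
  obtain ⟨C, hC⟩ := h
  have hdp : 0 < |T.det| := abs_pos.2 hT
  set L := Real.log |T.det| / 2 with hL
  have hexp : Real.sqrt |T.det| = Real.exp L := by
    rw [hL, Real.exp_half, Real.exp_log hdp]
  have hexp2 : |T.det| = Real.exp (2 * L) := by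
    rw [hL, mul_div_cancel₀ _ (two_ne_zero), Real.exp_log hdp]
  have hpow : ∀ (n : ℕ) (i j : Fin 2), |(T ^ n) i j| ≤ max 1 C * Real.exp (n * L) := by
    intro n i j
    refine (hC n i j).trans ?_
    rw [hexp, ← Real.exp_nat_mul]
    exact mul_le_mul_of_nonneg_right (le_max_right _ _) (Real.exp_pos _).le
  refine ⟨max 1 C, le_max_left _ _, fun m i j => ?_⟩
  rcases Int.eq_nat_or_neg m with ⟨n, rfl | rfl⟩
  · rw [zpow_natCast]
    exact_mod_cast hpow n i j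
  · rw [Matrix.zpow_neg_natCast, Matrix.inv_def, Ring.inverse_eq_inv', Matrix.smul_apply, smul_eq_mul,
      abs_mul, Matrix.det_pow, abs_inv, abs_pow, hexp2, ← Real.exp_nat_mul, ← Real.exp_neg]
    have h1 : |(T ^ n).adjugate i j| ≤ max 1 C * Real.exp (n * L) := by
      rw [Matrix.adjugate_fin_two]
      fin_cases i <;> fin_cases j
      · simpa using hpow n 1 1
      · simpa using hpow n 0 1
      · simpa using hpow n 1 0
      · simpa using hpow n 0 0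
    calc Real.exp (-(n * (2 * L))) * |(T ^ n).adjugate i j|
        ≤ Real.exp (-(n * (2 * L))) * (max 1 C * Real.exp (n * L)) :=
          mul_le_mul_of_nonneg_left h1 (Real.exp_pos _).le
      _ = max 1 C * (Real.exp (-(n * (2 * L))) * Real.exp (n * L)) := by ring
      _ = max 1 C * Real.exp (((-(n : ℤ) : ℤ) : ℝ) * L) := by
        rw [← Real.exp_add]
        congr 2
        push_cast
        ring

theorem T06_jT_pow (T : M2) (hT : T.det ≠ 0) (n : ℕ) : (jT T) ^ n = jT (T ^ n) := by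
  induction n with
  | zero => rw [pow_zero, pow_zero, d2_jT_one]
  | succ n ih =>
    rw [pow_succ, ih, pow_succ, d2_jT_mul _ _ (by rw [Matrix.det_pow]; exact pow_ne_zero _ hT) hT]

theorem T06_lin_zpow (α : V ≃ᵃ[ℝ] V) (T : M2) (hT : T.det ≠ 0) (hα : lin α = jT T) (m : ℤ) :
    lin (α ^ m) = jT (T ^ m) := by
  have hn : ∀ n : ℕ, (T ^ n).det ≠ 0 := fun n => by
    rw [Matrix.det_pow]; exact pow_ne_zero _ hT
  rcases Int.eq_nat_or_neg m with ⟨n, rfl | rfl⟩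
  · rw [zpow_natCast, zpow_natCast, d2_lin_pow, hα, T06_jT_pow T hT]
  · rw [zpow_neg, zpow_natCast, d2_lin_inv, d2_lin_pow, hα, T06_jT_pow T hT, Matrix.zpow_neg_natCast]
    apply Matrix.inv_eq_right_inv
    have hu : IsUnit (T ^ n).det := isUnit_iff_ne_zero.2 (hn n)
    rw [d2_jT_mul _ _ (hn n), Matrix.mul_nonsing_inv _ hu, d2_jT_one]
    rw [Matrix.det_nonsing_inv, Ring.inverse_eq_inv']
    exact inv_ne_zero (hn n)

/-- T06b. d2_jT_mul, d2_jT_one; lin of zpow: lin (α^m) = jT (T^m) for m ∈ ℤ ((jT T)⁻¹ = jT T⁻¹). -/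
theorem d2_lin_zel_jT (α β : V ≃ᵃ[ℝ] V) (T U : M2) (hT : T.det ≠ 0) (hU : U.det ≠ 0) (hα : lin α = jT T) (hβ : lin β = jT U)
    (m n : ℤ) : lin (zel α β m n) = jT (T ^ m * U ^ n) ∧ (T ^ m * U ^ n).det = T.det ^ m * U.det ^ n := by
  constructor
  · unfold zel
    rw [d2_lin_mul, T06_lin_zpow α T hT hα, T06_lin_zpow β U hU hβ, d2_jT_mul]
    · rw [T06_det_zpow]; exact zpow_ne_zero _ hT
    · rw [T06_det_zpow]; exact zpow_ne_zero _ hU
  · rw [Matrix.det_mul, T06_det_zpow, T06_det_zpow]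

/-- T06c. A := {p | |p.1 L + p.2 L'| ≤ |L|} is infinite (d2_pig), L = log|det T|/2, L' = log|det U|/2. For p ∈ A the entries of T^m U^n are
≤ 2 C C' exp(mL + nL') ≤ 2 C C' exp|L|, |det⁻¹| = exp(-2(mL+nL')) ≤ exp(2|L|): d2_jT_bound. The inverse of lin (zel m n) is lin (zel (-m) (-n)) (zel_inv, d2_lin_inv) and
(-m,-n) ∈ A. d2_disc_contra. -/
theorem d2_bb {Γ : Subgroup (V ≃ᵃ[ℝ] V)} {α β : V ≃ᵃ[ℝ] V} (h : Z2 Γ α β) (T U : M2) (hT : T.det ≠ 0) (hU : U.det ≠ 0)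
    (hα : lin α = jT T) (hβ : lin β = jT U) (bT : BddPow T) (bU : BddPow U) : False := by
  obtain ⟨C, hC1, hC⟩ := d2_bdd_zpow T hT bT
  obtain ⟨C', hC1', hC'⟩ := d2_bdd_zpow U hU bU
  set L := Real.log |T.det| / 2 with hL
  set L' := Real.log |U.det| / 2 with hL'
  have hC0 : 0 ≤ C := by linarith
  have hC0' : 0 ≤ C' := by linarith
  have hexpT : |T.det| = Real.exp (2 * L) := by
    rw [hL, mul_div_cancel₀ _ (two_ne_zero), Real.exp_log (abs_pos.2 hT)]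
  have hexpU : |U.det| = Real.exp (2 * L') := by
    rw [hL', mul_div_cancel₀ _ (two_ne_zero), Real.exp_log (abs_pos.2 hU)]
  have hzexp : ∀ (x : ℝ) (m : ℤ), Real.exp x ^ m = Real.exp ((m : ℝ) * x) := by
    intro x m
    rw [mul_comm, Real.exp_mul, Real.rpow_intCast]
  set K := 2 * C * C' * Real.exp (2 * |L|) with hK
  have hCC : 1 ≤ C * C' := by nlinarith
  have hK1 : 1 ≤ K := by
    have h1 : 1 ≤ Real.exp (2 * |L|) := Real.one_le_exp (by positivity)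
    rw [hK]
    nlinarith
  have hb : ∀ m n : ℤ, |(m : ℝ) * L + (n : ℝ) * L'| ≤ |L| →
      ∀ i j, |lin (zel α β m n) i j| ≤ 200 * K ^ 3 := by
    intro m n hmn
    obtain ⟨e1, e2⟩ := d2_lin_zel_jT α β T U hT hU hα hβ m n
    rw [abs_le] at hmn
    rw [e1]
    apply d2_jT_bound _ K hK1
    · intro i j
      rw [Matrix.mul_apply, Fin.sum_univ_two]
      have h3 : ∀ k, |(T ^ m) i k * (U ^ n) k j| ≤ C * C' * Real.exp (2 * |L|) := by
        intro k
        rw [abs_mul]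
        calc |(T ^ m) i k| * |(U ^ n) k j|
            ≤ (C * Real.exp ((m : ℝ) * L)) * (C' * Real.exp ((n : ℝ) * L')) :=
              mul_le_mul (hC m i k) (hC' n k j) (abs_nonneg _) (by positivity)
          _ = C * C' * Real.exp ((m : ℝ) * L + (n : ℝ) * L') := by rw [Real.exp_add]; ring
          _ ≤ C * C' * Real.exp (2 * |L|) := by
            apply mul_le_mul_of_nonneg_left _ (by positivity)
            apply Real.exp_le_exp.2
            linarith [hmn.2, abs_nonneg L]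
      refine (abs_add_le _ _).trans ?_
      have := h3 0
      have := h3 1
      rw [hK]
      linarith
    · rw [e2, abs_inv, abs_mul, abs_zpow, abs_zpow, hexpT, hexpU, hzexp, hzexp, ← Real.exp_add,
        ← Real.exp_neg]
      have h4 : Real.exp (-((m : ℝ) * (2 * L) + (n : ℝ) * (2 * L'))) ≤ Real.exp (2 * |L|) := by
        apply Real.exp_le_exp.2
        linarith [hmn.1]
      have h5 : 0 < Real.exp (2 * |L|) := Real.exp_pos _
      refine h4.trans ?_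
      rw [hK]
      nlinarith
  refine d2_disc_contra h _ (d2_pig L L') (200 * K ^ 3) (fun p hp => hb p.1 p.2 hp) ?_
  intro p hp
  rw [← d2_lin_inv, zel_inv h]
  apply hb
  have : ((-p.1 : ℤ) : ℝ) * L + ((-p.2 : ℤ) : ℝ) * L' = -((p.1 : ℝ) * L + (p.2 : ℝ) * L') := by
    push_cast; ring
  rw [this, abs_neg]
  exact hp

end C37
end

section

/-!
MP_c37615_al (S02984), part D-IIa: task U02 (existence of the parameters)
-/

set_option autoImplicit false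

open Filter Topology Polynomial

namespace C37

theorem U02_mem (u : V) (h : u ∈ E00) : ∃ X A Y : ℝ, u = X • x1 + A • va + Y • y1 := by
  unfold E00 at h
  rw [Submodule.mem_span_triple] at h
  obtain ⟨a, b, c, h⟩ := h
  exact ⟨b, a, c, by rw [← h]; module⟩

theorem U02_ext (X A Y X' A' Y' : ℝ) (h : X • x1 + A • va + Y • y1 = X' • x1 + A' • va + Y' • y1) :
    X = X' ∧ A = A' ∧ Y = Y' := by
  have h0 := congrFun h 0
  have h3 := congrFun h 3
  have h4 := congrFun h 4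
  simp [x1, va, y1] at h0 h3 h4
  refine ⟨by linarith, h3, by linarith⟩

theorem U02_cramer (r1 s1 r2 s2 R1 R2 : ℝ) (hD : r1 * s2 - r2 * s1 ≠ 0) :
    ∃ μ ν : ℝ, μ * r1 + ν * s1 = R1 ∧ μ * r2 + ν * s2 = R2 := by
  refine ⟨(R1 * s2 - R2 * s1) / (r1 * s2 - r2 * s1), (r1 * R2 - r2 * R1) / (r1 * s2 - r2 * s1), ?_, ?_⟩
  · rw [div_mul_eq_mul_div, div_mul_eq_mul_div, ← add_div, div_eq_iff hD]; ring
  · rw [div_mul_eq_mul_div, div_mul_eq_mul_div, ← add_div, div_eq_iff hD]; ring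

/-- U02. Write u1 = X1 x1 + A1 va + Y1 y1, u2 = X2 x1 + A2 va + Y2 y1 (E00 is the span of va, x1, y1: Submodule.mem_span_triple or span_insert; they are independent).
hcomm with gU_x1, gU_va, gU_y1 gives s1 Y2 = s2 Y1 and 2 s1 A2 - s1^2 Y2 = 2 s2 A1 - s2^2 Y1. (s1,s2) ≠ (0,0) because of hD. So Y_i = κ s_i; then
s1 (A2 + κ s2^2/2) = s2 (A1 + κ s1^2/2), so A_i = η s_i - κ s_i^2/2; finally solve μ r_i + ν s_i = X_i - η s_i^2 + κ s_i^3/3 (Cramer, hD). -/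
theorem UU_exists (r1 s1 r2 s2 : ℝ) (hD : r1 * s2 - r2 * s1 ≠ 0) (u1 u2 : V) (h1 : u1 ∈ E00) (h2 : u2 ∈ E00)
    (hcomm : (gU r1 s1).mulVec u2 + u1 = (gU r2 s2).mulVec u1 + u2) :
    ∃ μ ν η κ : ℝ, u1 = UU μ ν η κ r1 s1 ∧ u2 = UU μ ν η κ r2 s2 := by
  obtain ⟨X1, A1, Y1, e1⟩ := U02_mem u1 h1
  obtain ⟨X2, A2, Y2, e2⟩ := U02_mem u2 h2
  rw [e1, e2] at hcomm
  simp only [Matrix.mulVec_add, Matrix.mulVec_smul, gU_x1, gU_va, gU_y1] at hcomm
  have h3 := U02_ext (X2 + 2 * s1 * A2 - s1 ^ 2 * Y2 + X1) (A2 - s1 * Y2 + A1) (Y2 + Y1)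
    (X1 + 2 * s2 * A1 - s2 ^ 2 * Y1 + X2) (A1 - s2 * Y1 + A2) (Y1 + Y2)
    (by
      have e3 : (X2 + 2 * s1 * A2 - s1 ^ 2 * Y2 + X1) • x1 + (A2 - s1 * Y2 + A1) • va + (Y2 + Y1) • y1 =
        X2 • x1 + A2 • (va + (2 * s1) • x1) + Y2 • (y1 + -s1 • va + -s1 ^ 2 • x1) + (X1 • x1 + A1 • va + Y1 • y1) := by
        module
      have e4 : (X1 + 2 * s2 * A1 - s2 ^ 2 * Y1 + X2) • x1 + (A1 - s2 * Y1 + A2) • va + (Y1 + Y2) • y1 =
        X1 • x1 + A1 • (va + (2 * s2) • x1) + Y1 • (y1 + -s2 • va + -s2 ^ 2 • x1) + (X2 • x1 + A2 • va + Y2 • y1) := by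
        module
      rw [e3, e4]
      exact hcomm)
  obtain ⟨hx, ha, _⟩ := h3
  have q1 : s1 * Y2 = s2 * Y1 := by linarith
  have q2 : 2 * s1 * A2 - s1 ^ 2 * Y2 = 2 * s2 * A1 - s2 ^ 2 * Y1 := by linarith
  have hk : ∃ κ η : ℝ, Y1 = κ * s1 ∧ Y2 = κ * s2 ∧ A1 = η * s1 - κ * s1 ^ 2 / 2 ∧ A2 = η * s2 - κ * s2 ^ 2 / 2 := by
    by_cases hs : s1 = 0
    · have hs2 : s2 ≠ 0 := by
        intro h0
        apply hD
        rw [hs, h0]; ring
      refine ⟨Y2 / s2, (A2 + Y2 / s2 * s2 ^ 2 / 2) / s2, ?_, ?_, ?_, ?_⟩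
      · rw [hs] at q1 ⊢
        have : s2 * Y1 = 0 := by linarith
        rcases mul_eq_zero.mp this with h | h
        · exact absurd h hs2
        · rw [h]; ring
      · field_simp
      · rw [hs] at q1 q2 ⊢
        have h5 : s2 * Y1 = 0 := by linarith
        have h6 : Y1 = 0 := by
          rcases mul_eq_zero.mp h5 with h | h
          · exact absurd h hs2
          · exact h
        rw [h6] at q2
        have : s2 * A1 = 0 := by linarith
        rcases mul_eq_zero.mp this with h | h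
        · exact absurd h hs2
        · rw [h]; ring
      · field_simp
        ring
    · refine ⟨Y1 / s1, (A1 + Y1 / s1 * s1 ^ 2 / 2) / s1, ?_, ?_, ?_, ?_⟩
      · field_simp
      · field_simp
        linarith
      · field_simp
        ring
      · have h5 : Y2 = s2 * Y1 / s1 := by
          rw [eq_div_iff hs]; linarith
        rw [h5] at q2
        field_simp at q2 ⊢
        linear_combination q2
  obtain ⟨κ, η, k1, k2, k3, k4⟩ := hk
  obtain ⟨μ, ν, c1, c2⟩ := U02_cramer r1 s1 r2 s2 (X1 - η * s1 ^ 2 + κ * s1 ^ 3 / 3) (X2 - η * s2 ^ 2 + κ * s2 ^ 3 / 3) hD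
  refine ⟨μ, ν, η, κ, ?_, ?_⟩
  · rw [e1]
    unfold UU
    rw [← k1, ← k3]
    congr 2
    congr 1
    linarith
  · rw [e2]
    unfold UU
    rw [← k2, ← k4]
    congr 2
    congr 1
    linarith

end C37
end

section

/-!
MP_c37615_al (S02984), part D-IIa: task M01 (uniform estimates)
-/

set_option autoImplicit false

open Filter Topology Polynomial

namespace C37

theorem M01_norm (A : Mat) (v : V) :
    ‖A.mulVec v‖ ≤ (∑ j, ‖A.mulVec (Pi.single j (1 : ℝ) : V)‖) * ‖v‖ := by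
  have h1 : v = ∑ j, v j • (Pi.single j (1 : ℝ) : V) := by
    ext i
    simp [Finset.sum_apply, Pi.single_apply]
  have h2 : A.mulVec v = ∑ j, v j • A.mulVec (Pi.single j (1 : ℝ) : V) := by
    conv_lhs => rw [h1]
    rw [← Matrix.mulVecLin_apply, map_sum]
    refine Finset.sum_congr rfl (fun j _ => ?_)
    rw [map_smul, Matrix.mulVecLin_apply]
  rw [h2, Finset.sum_mul]
  refine (norm_sum_le _ _).trans (Finset.sum_le_sum (fun j _ => ?_))
  rw [norm_smul, mul_comm]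
  exact mul_le_mul_of_nonneg_left (norm_le_pi_norm v j) (norm_nonneg _)

/-- M01a. Uniform constants: apply the hypothesis to the 7 basis vectors `Pi.single j 1`; ρ := max of the ρ_j, C := ∑ |C_j|;
`v = ∑ v j • Pi.single j 1`, `|v j| ≤ ‖v‖`. -/
theorem Vlt_unif (g P : Mat) (h : ∀ v, P.mulVec v ∈ Vlt g) : ∃ C ρ : ℝ, 0 ≤ C ∧ 0 < ρ ∧ ρ < 1 ∧
    ∀ (n : ℕ) (v : V), ‖(g ^ n).mulVec (P.mulVec v)‖ ≤ C * ρ ^ n * ‖v‖ := by
  choose C ρ h0 h1 hb using fun j : Fin 7 => mem_Vlt.1 (h (Pi.single j (1 : ℝ)))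
  obtain ⟨j0, _, hj0⟩ := Finset.exists_max_image Finset.univ ρ ⟨0, Finset.mem_univ _⟩
  refine ⟨∑ j, |C j|, ρ j0, Finset.sum_nonneg (fun j _ => abs_nonneg _), h0 j0, h1 j0, ?_⟩
  intro n v
  rw [Matrix.mulVec_mulVec]
  refine (M01_norm _ v).trans (mul_le_mul_of_nonneg_right ?_ (norm_nonneg _))
  rw [Finset.sum_mul]
  refine Finset.sum_le_sum (fun j _ => ?_)
  rw [← Matrix.mulVec_mulVec]
  refine (hb j n).trans ?_
  refine (mul_le_mul_of_nonneg_right (le_abs_self (C j)) (pow_nonneg (h0 j).le n)).trans ?_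
  exact mul_le_mul_of_nonneg_left (pow_le_pow_left₀ (h0 j).le (hj0 j (Finset.mem_univ _)) n)
    (abs_nonneg _)

/-- M01b. same -/
theorem Vsub_unif (g P : Mat) (h : ∀ v, P.mulVec v ∈ Vsub g) (ρ : ℝ) (hρ : 1 < ρ) : ∃ C : ℝ, 0 ≤ C ∧
    ∀ (n : ℕ) (v : V), ‖(g ^ n).mulVec (P.mulVec v)‖ ≤ C * ρ ^ n * ‖v‖ := by
  choose C hb using fun j : Fin 7 => mem_Vsub.1 (h (Pi.single j (1 : ℝ))) ρ hρ
  refine ⟨∑ j, |C j|, Finset.sum_nonneg (fun j _ => abs_nonneg _), ?_⟩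
  intro n v
  rw [Matrix.mulVec_mulVec]
  refine (M01_norm _ v).trans (mul_le_mul_of_nonneg_right ?_ (norm_nonneg _))
  rw [Finset.sum_mul]
  refine Finset.sum_le_sum (fun j _ => ?_)
  rw [← Matrix.mulVec_mulVec]
  refine (hb j n).trans ?_
  exact mul_le_mul_of_nonneg_right (le_abs_self (C j)) (pow_nonneg (by linarith) n)

end C37
end

section

/-!
MP_c37615_al (S02984), part D-IIa: task M02 (estimates for g^k h)
-/

set_option autoImplicit false

open Filter Topology Polynomial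

namespace C37

theorem M02_pow {g h : Mat} (hc : g * h = h * g) (k n : ℕ) : (g ^ k * h) ^ n = g ^ (k * n) * h ^ n := by
  have h1 : Commute (g ^ k) h := (show Commute g h from hc).pow_left k
  rw [h1.mul_pow, pow_mul]

theorem M02_comm {g h : Mat} (hc : g * h = h * g) (m n : ℕ) : g ^ m * h ^ n = h ^ n * g ^ m :=
  ((show Commute g h from hc).pow_pow m n)

theorem M02_choose (f : ℝ → ℝ) (hf : Continuous f) (a : ℝ) (h : f 1 < a) : ∃ x : ℝ, 1 < x ∧ f x < a := by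
  have h1 : ∀ᶠ x in 𝓝 (1 : ℝ), f x < a := (hf.tendsto 1).eventually (gt_mem_nhds h)
  have h2 : ∀ᶠ x in 𝓝[>] (1 : ℝ), f x < a := h1.filter_mono nhdsWithin_le_nhds
  have h3 : ∀ᶠ x in 𝓝[>] (1 : ℝ), 1 < x := self_mem_nhdsWithin
  obtain ⟨x, hx⟩ := (h3.and h2).exists
  exact ⟨x, hx⟩

/-- M02a. `(g^k h)^n P v = h^n g^(kn) P v` (g, h commute), `‖h^n u‖ ≤ c^n ‖u‖` (d2_pow_bound),
`‖g^(kn) P v‖ ≤ C ρ^(kn) ‖v‖` (Vlt_unif): the norm is ≤ C (c ρ^k)^n ‖v‖ and c ρ^k < 1 for k ≥ k0. -/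
theorem Vlt_pow_mul (g h P : Mat) (hc : g * h = h * g) (hP : ∀ v, P.mulVec v ∈ Vlt g) :
    ∃ k0 : ℕ, ∀ k, k0 ≤ k → ∀ v, P.mulVec v ∈ Vlt (g ^ k * h) := by
  obtain ⟨C, ρ, hC, hρ0, hρ1, hb⟩ := Vlt_unif g P hP
  obtain ⟨c, hc1, hcb⟩ := d2_pow_bound h
  have hcpos : 0 < c := by linarith
  obtain ⟨k0, hk0⟩ := exists_pow_lt_of_lt_one (one_div_pos.2 hcpos) hρ1
  refine ⟨k0, fun k hk v => ?_⟩
  have h1 : c * ρ ^ k < 1 := by
    have h2 : ρ ^ k ≤ ρ ^ k0 := pow_le_pow_of_le_one hρ0.le hρ1.le hk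
    have h3 : ρ ^ k < 1 / c := lt_of_le_of_lt h2 hk0
    rw [lt_div_iff₀ hcpos] at h3
    linarith
  rw [mem_Vlt]
  refine ⟨C * ‖v‖, c * ρ ^ k, by positivity, h1, fun n => ?_⟩
  rw [M02_pow hc, M02_comm hc, ← Matrix.mulVec_mulVec]
  calc ‖(h ^ n).mulVec ((g ^ (k * n)).mulVec (P.mulVec v))‖ ≤ c ^ n * ‖(g ^ (k * n)).mulVec (P.mulVec v)‖ := hcb n _
    _ ≤ c ^ n * (C * ρ ^ (k * n) * ‖v‖) := mul_le_mul_of_nonneg_left (hb _ _) (by positivity)
    _ = C * ‖v‖ * (c * ρ ^ k) ^ n := by rw [mul_pow, ← pow_mul]; ring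

/-- M02b. `(g^k h)^n (P (Q v)) = g^(kn) P (h^n (Q v))` (h commutes with g and P), norm ≤ C ρ'^(kn) C' ρ^n ‖v‖, where
Q: Vlt_unif for h (rate ρ<1), P: Vsub_unif for g (rate ρ'>1 chosen with ρ'^k ρ < 1). -/
theorem Vlt_pow_mul' (g h P Q : Mat) (hc : g * h = h * g) (hPh : h * P = P * h)
    (hP : ∀ v, P.mulVec v ∈ Vsub g) (hQ : ∀ v, Q.mulVec v ∈ Vlt h) (k : ℕ) (v : V) :
    P.mulVec (Q.mulVec v) ∈ Vlt (g ^ k * h) := by
  obtain ⟨C', ρ, hC', hρ0, hρ1, hb'⟩ := Vlt_unif h Q hQ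
  obtain ⟨r, hr1, hr⟩ := M02_choose (fun x => x ^ k * ρ) (by fun_prop) 1 (by simpa using hρ1)
  obtain ⟨C, hC, hb⟩ := Vsub_unif g P hP r hr1
  have hr0 : 0 < r := by linarith
  have hcomm : ∀ n : ℕ, h ^ n * P = P * h ^ n := fun n => ((show Commute h P from hPh).pow_left n)
  rw [mem_Vlt]
  refine ⟨C * C' * ‖v‖, r ^ k * ρ, by positivity, hr, fun n => ?_⟩
  have e : ((g ^ k * h) ^ n).mulVec (P.mulVec (Q.mulVec v)) =
      (g ^ (k * n)).mulVec (P.mulVec ((h ^ n).mulVec (Q.mulVec v))) := by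
    rw [M02_pow hc, Matrix.mulVec_mulVec (v := Q.mulVec v), mul_assoc, hcomm n]
    rw [Matrix.mulVec_mulVec (v := (h ^ n).mulVec (Q.mulVec v)), Matrix.mulVec_mulVec (v := Q.mulVec v), mul_assoc]
  rw [e]
  calc ‖(g ^ (k * n)).mulVec (P.mulVec ((h ^ n).mulVec (Q.mulVec v)))‖
      ≤ C * r ^ (k * n) * ‖(h ^ n).mulVec (Q.mulVec v)‖ := hb _ _
    _ ≤ C * r ^ (k * n) * (C' * ρ ^ n * ‖v‖) := mul_le_mul_of_nonneg_left (hb' _ _) (by positivity)
    _ = C * C' * ‖v‖ * (r ^ k * ρ) ^ n := by rw [mul_pow, ← pow_mul]; ring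

/-- M02c. same with Q in Vsub h: given ρ>1 choose ρ'>1 with ρ'^(k+1) ≤ ρ. -/
theorem Vsub_pow_mul (g h P Q : Mat) (hc : g * h = h * g) (hPh : h * P = P * h)
    (hP : ∀ v, P.mulVec v ∈ Vsub g) (hQ : ∀ v, Q.mulVec v ∈ Vsub h) (k : ℕ) (v : V) :
    P.mulVec (Q.mulVec v) ∈ Vsub (g ^ k * h) := by
  rw [mem_Vsub]
  intro ρ hρ
  obtain ⟨r, hr1, hr⟩ := M02_choose (fun x => x ^ k * x) (by fun_prop) ρ (by simpa using hρ)
  obtain ⟨C', hC', hb'⟩ := Vsub_unif h Q hQ r hr1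
  obtain ⟨C, hC, hb⟩ := Vsub_unif g P hP r hr1
  have hr0 : 0 < r := by linarith
  have hcomm : ∀ n : ℕ, h ^ n * P = P * h ^ n := fun n => ((show Commute h P from hPh).pow_left n)
  refine ⟨C * C' * ‖v‖, fun n => ?_⟩
  have e : ((g ^ k * h) ^ n).mulVec (P.mulVec (Q.mulVec v)) =
      (g ^ (k * n)).mulVec (P.mulVec ((h ^ n).mulVec (Q.mulVec v))) := by
    rw [M02_pow hc, Matrix.mulVec_mulVec (v := Q.mulVec v), mul_assoc, hcomm n]
    rw [Matrix.mulVec_mulVec (v := (h ^ n).mulVec (Q.mulVec v)), Matrix.mulVec_mulVec (v := Q.mulVec v), mul_assoc]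
  rw [e]
  calc ‖(g ^ (k * n)).mulVec (P.mulVec ((h ^ n).mulVec (Q.mulVec v)))‖
      ≤ C * r ^ (k * n) * ‖(h ^ n).mulVec (Q.mulVec v)‖ := hb _ _
    _ ≤ C * r ^ (k * n) * (C' * r ^ n * ‖v‖) := mul_le_mul_of_nonneg_left (hb' _ _) (by positivity)
    _ = C * C' * ‖v‖ * (r ^ k * r) ^ n := by rw [mul_pow, ← pow_mul]; ring
    _ ≤ C * C' * ‖v‖ * ρ ^ n := by
      apply mul_le_mul_of_nonneg_left _ (by positivity)
      exact pow_le_pow_left₀ (by positivity) hr.le n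

end C37
end
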