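import Mathlib
import Pool.Agent.Lib.MP_c37615_al.Mg.G023
import Pool.Agent.Lib.MP_c37615_al.D2.A_G03
import Pool.Agent.Lib.MP_c37615_al.D2.A_G02
import Pool.Agent.Lib.MP_c37615_al.Mg.G031
import Pool.Agent.Lib.MP_c37615_al.Mg.G032
import Pool.Agent.Lib.MP_c37615_al.Mg.G028
import Pool.Agent.Lib.MP_c37615_al.Defs2
import Pool.Agent.Lib.MP_c37615_al.C.Base
import Pool.Agent.Lib.MP_c37615_al.Mg.G017
import Pool.Agent.Lib.MP_c37615_al.Mg.G022
import Pool.Agent.Lib.MP_c37615_al.Mg.G018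
import Pool.Agent.Lib.MP_c37615_al.Mg.G042
import Pool.Agent.Lib.MP_c37615_al.Mg.G007
import Pool.Agent.Lib.MP_c37615_al.Mg.G043
import Pool.Agent.Lib.MP_c37615_al.Mg.G039

section

/-!
MP_c37615_al (S02984), part D-IIa: task G07 (eigenvalues)
-/

set_option autoImplicit false

open Filter Topology Polynomial

namespace C37

theorem G07_inv (g : Mat) (hg : IsUnit g.det) (w : Fin 7 → ℂ) :
    (cmat g⁻¹).mulVec ((cmat g).mulVec w) = w := by
  rw [Matrix.mulVec_mulVec, ← cmat_mul, Matrix.nonsing_inv_mul g hg, cmat_one, Matrix.one_mulVec]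

/-- G07a. z root of the complex charpoly: there is a nonzero complex eigenvector
(`Matrix.exists_mulVec_eq_zero_iff` for `z • 1 - cmat g`, whose det is the value of the charpoly `Matrix.eval_charpoly`-like;
`Matrix.charpoly_map`). Moreover z ≠ 0 if det g is a unit. -/
theorem d2_eigvec (g : Mat) (hg : IsUnit g.det) (z : ℂ)
    (hz : (g.charpoly.map (algebraMap ℝ ℂ)).IsRoot z) : z ≠ 0 ∧ ∃ w : Fin 7 → ℂ, w ≠ 0 ∧ (cmat g).mulVec w = z • w := by
  have h1 : (cmat g).charpoly = g.charpoly.map (algebraMap ℝ ℂ) := by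
    rw [← Matrix.charpoly_map]
    rfl
  have h2 : (Matrix.scalar (Fin 7) z - cmat g).det = 0 := by
    rw [← Matrix.eval_charpoly, h1]
    exact hz
  obtain ⟨w, hw, h3⟩ := Matrix.exists_mulVec_eq_zero_iff.2 h2
  have h4 : (cmat g).mulVec w = z • w := by
    rw [Matrix.sub_mulVec, sub_eq_zero] at h3
    rw [← h3]
    ext i
    simp [Matrix.scalar_apply, Matrix.mulVec_diagonal]
  refine ⟨?_, w, hw, h4⟩
  rintro rfl
  have h5 := G07_inv g hg w
  rw [h4, zero_smul, Matrix.mulVec_zero] at h5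
  exact hw h5.symm

theorem G07_cvec (g : Mat) (v : V) : (cmat g).mulVec (cvec v) = cvec (g.mulVec v) := by
  ext i
  simp [cmat, cvec, Matrix.mulVec, dotProduct]

theorem G07_norm (v : V) : ‖cvec v‖ ≤ ‖v‖ := by
  rw [pi_norm_le_iff_of_nonneg (norm_nonneg v)]
  intro i
  have : ‖cvec v i‖ = ‖v i‖ := by
    unfold cvec
    rw [Complex.norm_real]
  rw [this]
  exact norm_le_pi_norm v i

/-- G07b. If all real vectors are subexponential for g, an eigenvalue z has ‖z‖ ≤ 1: w = cvec a + i cvec b (a = re, b = im), so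
‖M^n w‖ ≤ ‖g^n a‖ + ‖g^n b‖ ≤ C ρ^n for every ρ>1, and M^n w = z^n w; so ‖z‖^n ≤ C' ρ^n for all n, hence ‖z‖ ≤ ρ for every ρ>1. -/
theorem d2_eig_le (g : Mat) (h : Vsub g = ⊤) (z : ℂ) (w : Fin 7 → ℂ) (hw : w ≠ 0)
    (hz : (cmat g).mulVec w = z • w) : ‖z‖ ≤ 1 := by
  by_contra hcon
  push Not at hcon
  obtain ⟨a, ha⟩ : ∃ a : V, a = fun i => (w i).re := ⟨_, rfl⟩
  obtain ⟨b, hb⟩ : ∃ b : V, b = fun i => (w i).im := ⟨_, rfl⟩
  have hwab : w = cvec a + Complex.I • cvec b := by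
    ext i
    rw [ha, hb]
    simp only [cvec, Pi.add_apply, Pi.smul_apply, smul_eq_mul]
    rw [mul_comm, Complex.re_add_im]
  obtain ⟨ρ, hρ⟩ : ∃ ρ : ℝ, ρ = (1 + ‖z‖) / 2 := ⟨_, rfl⟩
  have hρ1 : 1 < ρ := by rw [hρ]; linarith
  have hρz : ρ < ‖z‖ := by rw [hρ]; linarith
  have hmem : ∀ v : V, v ∈ Vsub g := fun v => by rw [h]; trivial
  obtain ⟨C, hC⟩ := mem_Vsub.1 (hmem a) ρ hρ1
  obtain ⟨C', hC'⟩ := mem_Vsub.1 (hmem b) ρ hρ1
  have hpow : ∀ n : ℕ, (cmat (g ^ n)).mulVec w = z ^ n • w := by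
    intro n
    induction n with
    | zero => rw [pow_zero, cmat_one, Matrix.one_mulVec, pow_zero, one_smul]
    | succ n ih =>
      rw [pow_succ, cmat_mul, ← Matrix.mulVec_mulVec, hz, Matrix.mulVec_smul, ih, smul_smul,
        pow_succ, mul_comm]
  have hbd : ∀ n : ℕ, ‖z‖ ^ n * ‖w‖ ≤ (C + C') * ρ ^ n := by
    intro n
    have h1 : ‖(cmat (g ^ n)).mulVec w‖ = ‖z‖ ^ n * ‖w‖ := by
      rw [hpow, norm_smul, norm_pow]
    rw [← h1]
    conv_lhs => rw [hwab]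
    rw [Matrix.mulVec_add, Matrix.mulVec_smul, G07_cvec, G07_cvec]
    refine (norm_add_le _ _).trans ?_
    rw [norm_smul, Complex.norm_I, one_mul, add_mul]
    exact add_le_add ((G07_norm _).trans (hC n)) ((G07_norm _).trans (hC' n))
  have hwn : 0 < ‖w‖ := norm_pos_iff.2 hw
  have hr : 1 < ‖z‖ / ρ := by
    rw [one_lt_div (by linarith)]
    exact hρz
  obtain ⟨n, hn⟩ := pow_unbounded_of_one_lt ((C + C') / ‖w‖) hr
  have h2 := hbd n
  rw [div_pow, div_lt_div_iff₀ hwn (by positivity)] at hn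
  linarith

/-- G07c. G07b for g and (g⁻¹, z⁻¹). -/
theorem d2_eig (g : Mat) (hg : IsUnit g.det) (h : Veq g = ⊤) (z : ℂ)
    (hz : (g.charpoly.map (algebraMap ℝ ℂ)).IsRoot z) : ‖z‖ = 1 := by
  obtain ⟨hz0, w, hw, hw2⟩ := d2_eigvec g hg z hz
  have h1 : Vsub g = ⊤ := by
    rw [eq_top_iff, ← h]
    exact inf_le_left
  have h2 : Vsub g⁻¹ = ⊤ := by
    rw [eq_top_iff, ← h]
    exact inf_le_right
  have h3 := d2_eig_le g h1 z w hw hw2
  have h4 : (cmat g⁻¹).mulVec w = z⁻¹ • w := by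
    have h5 := G07_inv g hg w
    rw [hw2, Matrix.mulVec_smul] at h5
    rw [← h5, smul_smul, inv_mul_cancel₀ hz0, one_smul, h5]
  have h5 := d2_eig_le g⁻¹ h2 z⁻¹ w hw h4
  rw [norm_inv] at h5
  have h6 : 0 < ‖z‖ := norm_pos_iff.2 hz0
  have h7 : 1 ≤ ‖z‖ := by
    have := (inv_le_one₀ h6).1 h5
    exact this
  linarith

end C37
end

section

/-!
MP_c37615_al (S02984), part D-IIa: task G05 (roots of the characteristic polynomial)
-/

set_option autoImplicit false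

open Filter Topology Polynomial

namespace C37

/-- G05. `charpoly (cmat g) = d2pr (roots)` (monic, splits over ℂ: `IsAlgClosed.splits`, product form of a monic split polynomial),
Cayley–Hamilton `Matrix.aeval_self_charpoly`; the roots are nonzero because `det (cmat g) ≠ 0`
(`det (cmat g) = (det g : ℂ)`, and 0 root of charpoly means det (-M) = 0). -/
theorem d2_roots (g : Mat) (hg : IsUnit g.det) :
    ∃ S : Multiset ℂ, (∀ z ∈ S, z ≠ 0) ∧ aeval (cmat g) (d2pr S) = 0 := by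
  refine ⟨(cmat g).charpoly.roots, ?_, ?_⟩
  · intro z hz hz0
    rw [Polynomial.mem_roots (Matrix.charpoly_monic _).ne_zero, hz0, Polynomial.IsRoot.def,
      Matrix.eval_charpoly] at hz
    have h1 : (cmat g).det ≠ 0 := by
      have h2 : (cmat g).det = ((g.det : ℝ) : ℂ) := by
        have := RingHom.map_det Complex.ofRealHom g
        rw [RingHom.mapMatrix_apply] at this
        exact this.symm
      rw [h2]
      exact_mod_cast hg.ne_zero
    apply h1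
    have h3 : Matrix.scalar (Fin 7) (0 : ℂ) - cmat g = -(cmat g) := by
      rw [map_zero, zero_sub]
    rw [h3, Matrix.det_neg] at hz
    simpa using hz
  · have h1 : d2pr (cmat g).charpoly.roots = (cmat g).charpoly := by
      unfold d2pr
      exact ((IsAlgClosed.splits (cmat g).charpoly).eq_prod_roots_of_monic (Matrix.charpoly_monic _)).symm
    rw [h1]
    exact Matrix.aeval_self_charpoly _

end C37
end

section

/-!
MP_c37615_al (S02984), part D-IIa: task G06 (spectral projections)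
-/

set_option autoImplicit false

open Filter Topology Polynomial

namespace C37

theorem G06_rho (S : Multiset ℂ) (f : ℂ → ℝ) (h : ∀ z ∈ S, f z < 1) :
    ∃ ρ : ℝ, 0 < ρ ∧ ρ < 1 ∧ ∀ z ∈ S, f z < ρ := by
  induction S using Multiset.induction with
  | empty => exact ⟨1/2, by norm_num, by norm_num, fun z hz => absurd hz (Multiset.notMem_zero z)⟩
  | cons z S ih =>
    obtain ⟨ρ, h0, h1, h2⟩ := ih (fun y hy => h y (Multiset.mem_cons_of_mem hy))
    have hz := h z (Multiset.mem_cons_self z S)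
    refine ⟨max ρ ((1 + f z) / 2), lt_max_of_lt_left h0, max_lt h1 (by linarith), ?_⟩
    intro y hy
    rcases Multiset.mem_cons.1 hy with rfl | hy
    · exact lt_max_of_lt_right (by linarith)
    · exact lt_max_of_lt_left (h2 y hy)

theorem G06_comm (M N : Matrix (Fin 7) (Fin 7) ℂ) (h : Commute N M) (P : ℂ[X]) : Commute N (aeval M P) := by
  induction P using Polynomial.induction_on' with
  | add p q hp hq => rw [map_add]; exact hp.add_right hq
  | monomial n a =>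
    rw [aeval_monomial]
    have h1 : Commute N (algebraMap ℂ (Matrix (Fin 7) (Fin 7) ℂ) a) := (Algebra.commutes a N).symm
    exact h1.mul_right (h.pow_right n)

/-- G06. THE SPECTRAL PROJECTIONS. Take S from d2_roots; S1, S2, S3 = S.filter (‖z‖ < 1), (‖z‖ = 1), (1 < ‖z‖), so S = S1+S2+S3;
P1, P2, P3 from d2_bezout; Πi := rmat (aeval (cmat g) Pi). Sum = rmat 1 = 1. For v real, w := (aeval M Pi).mulVec (cvec v)
satisfies `(aeval M (d2pr Si)).mulVec w = 0` (aeval of the product d2pr Si * Pi, which is a multiple of d2pr S, is 0).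
i=1: choose 0<ρ<1 bigger than all ‖z‖, z ∈ S1 (finite multiset), d2_grow, norm_rmat_le.
i=2: for every ρ>1, d2_grow for M = cmat g and d2_grow_inv for M' = cmat g⁻¹ (M * M' = 1).
i=3: d2_grow_inv with 0<ρ<1 bigger than all ‖z⁻¹‖, z ∈ S3; norm_rmat_le for g⁻¹.
Commutation: if h g = g h then cmat h commutes with cmat g, so with aeval (cmat g) Pi; take real parts (rmat_mul_left/right). -/
theorem dyn_proj (g : Mat) (hg : IsUnit g.det) : ∃ P1 P2 P3 : Mat, P1 + P2 + P3 = 1 ∧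
    (∀ v, P1.mulVec v ∈ Vlt g) ∧ (∀ v, P2.mulVec v ∈ Veq g) ∧ (∀ v, P3.mulVec v ∈ Vlt g⁻¹) ∧
    (∀ h : Mat, h * g = g * h → h * P1 = P1 * h ∧ h * P2 = P2 * h ∧ h * P3 = P3 * h) := by
  obtain ⟨S, hS0, hS⟩ := d2_roots g hg
  set M := cmat g with hM
  have hMM : M * cmat g⁻¹ = 1 := by
    rw [hM, ← cmat_mul, Matrix.mul_nonsing_inv g hg, cmat_one]
  set S1 := S.filter (fun z => ‖z‖ < 1) with hS1
  set T := S.filter (fun z => ¬ ‖z‖ < 1) with hT
  set S2 := T.filter (fun z => ‖z‖ = 1) with hS2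
  set S3 := T.filter (fun z => ¬ ‖z‖ = 1) with hS3
  have m1 : ∀ z ∈ S1, z ∈ S ∧ ‖z‖ < 1 := fun z hz => Multiset.mem_filter.1 hz
  have m2 : ∀ z ∈ S2, z ∈ S ∧ ‖z‖ = 1 := by
    intro z hz
    have h1 := Multiset.mem_filter.1 hz
    have h2 := Multiset.mem_filter.1 h1.1
    exact ⟨h2.1, h1.2⟩
  have m3 : ∀ z ∈ S3, z ∈ S ∧ 1 < ‖z‖ := by
    intro z hz
    have h1 := Multiset.mem_filter.1 hz
    have h2 := Multiset.mem_filter.1 h1.1
    exact ⟨h2.1, lt_of_le_of_ne (not_lt.1 h2.2) (Ne.symm h1.2)⟩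
  have hsum : S1 + S2 + S3 = S := by
    rw [add_assoc, hS2, hS3, Multiset.filter_add_not, hS1, hT, Multiset.filter_add_not]
  obtain ⟨P1, P2, P3, hP, d1, d2, d3⟩ := d2_bezout S1 S2 S3
    (fun z h1 h2 => by have a1 := (m1 z h1).2; have a2 := (m2 z h2).2; linarith)
    (fun z h1 h2 => by have a1 := (m1 z h1).2; have a2 := (m3 z h2).2; linarith)
    (fun z h1 h2 => by have a1 := (m2 z h1).2; have a2 := (m3 z h2).2; linarith)
  rw [hsum] at d1 d2 d3
  have hker : ∀ (S' : Multiset ℂ) (P : ℂ[X]), d2pr S ∣ d2pr S' * P → ∀ v : V,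
      (aeval M (d2pr S')).mulVec ((aeval M P).mulVec (cvec v)) = 0 := by
    rintro S' P ⟨Q, hQ⟩ v
    rw [Matrix.mulVec_mulVec, ← map_mul, hQ, map_mul, hS, zero_mul, Matrix.zero_mulVec]
  refine ⟨rmat (aeval M P1), rmat (aeval M P2), rmat (aeval M P3), ?_, ?_, ?_, ?_, ?_⟩
  · rw [← rmat_add, ← rmat_add, ← map_add, ← map_add, hP, map_one, rmat_one]
  · intro v
    obtain ⟨ρ, h0, h1, h2⟩ := G06_rho S1 (fun z => ‖z‖) (fun z hz => (m1 z hz).2)
    obtain ⟨C, hC⟩ := d2_grow M S1 _ (hker S1 P1 d1 v) ρ h0 h2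
    exact ⟨C, ρ, h0, h1, fun n => (norm_rmat_le g _ v n).trans (hC n)⟩
  · intro v
    rw [mem_Veq, mem_Vsub, mem_Vsub]
    constructor
    · intro ρ hρ
      obtain ⟨C, hC⟩ := d2_grow M S2 _ (hker S2 P2 d2 v) ρ (by linarith)
        (fun z hz => by rw [(m2 z hz).2]; exact hρ)
      exact ⟨C, fun n => (norm_rmat_le g _ v n).trans (hC n)⟩
    · intro ρ hρ
      obtain ⟨C, hC⟩ := d2_grow_inv M (cmat g⁻¹) hMM S2 _ (hker S2 P2 d2 v) ρ (by linarith)
        (fun z hz => ⟨hS0 z (m2 z hz).1, by rw [norm_inv, (m2 z hz).2, inv_one]; exact hρ⟩)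
      exact ⟨C, fun n => (norm_rmat_le g⁻¹ _ v n).trans (hC n)⟩
  · intro v
    obtain ⟨ρ, h0, h1, h2⟩ := G06_rho S3 (fun z => ‖z⁻¹‖) (fun z hz => by
      show ‖z⁻¹‖ < 1
      rw [norm_inv]
      exact inv_lt_one_of_one_lt₀ (m3 z hz).2)
    obtain ⟨C, hC⟩ := d2_grow_inv M (cmat g⁻¹) hMM S3 _ (hker S3 P3 d3 v) ρ h0
      (fun z hz => ⟨hS0 z (m3 z hz).1, h2 z hz⟩)
    exact ⟨C, ρ, h0, h1, fun n => (norm_rmat_le g⁻¹ _ v n).trans (hC n)⟩
  · intro h hh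
    have hc : Commute (cmat h) M := by
      show cmat h * cmat g = cmat g * cmat h
      rw [← cmat_mul, ← cmat_mul, hh]
    have key : ∀ P : ℂ[X], h * rmat (aeval M P) = rmat (aeval M P) * h := by
      intro P
      rw [← rmat_mul_left, ← rmat_mul_right, (G06_comm M (cmat h) hc P).eq]
    exact ⟨key P1, key P2, key P3⟩

end C37
end

section

/-!
MP_c37615_al (S02984), part D-IIa: task M03 (independence)
-/

set_option autoImplicit false

open Filter Topology Polynomial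

namespace C37

/-- M03b. from dyn_proj -/
theorem dyn_decomp (g : Mat) (hg : IsUnit g.det) (v : V) : ∃ v1 v2 v3 : V, v1 ∈ Vlt g ∧ v2 ∈ Veq g ∧ v3 ∈ Vlt g⁻¹ ∧
    v = v1 + v2 + v3 := by
  obtain ⟨P1, P2, P3, hs, h1, h2, h3, _⟩ := dyn_proj g hg
  refine ⟨P1.mulVec v, P2.mulVec v, P3.mulVec v, h1 v, h2 v, h3 v, ?_⟩
  rw [← Matrix.add_mulVec, ← Matrix.add_mulVec, hs, Matrix.one_mulVec]

theorem M03_zero {g : Mat} (hg : InG g) {u : V} (h1 : ∀ v ∈ Vlt g, B u v = 0)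
    (h2 : ∀ v ∈ Veq g, B u v = 0) (h3 : ∀ v ∈ Vlt g⁻¹, B u v = 0) : u = 0 := by
  refine d2_nondeg u (fun v => ?_)
  obtain ⟨v1, v2, v3, k1, k2, k3, rfl⟩ := dyn_decomp g (d2_InG_det hg) v
  rw [d2_B_add_right, d2_B_add_right, h1 v1 k1, h2 v2 k2, h3 v3 k3]
  norm_num

/-- M03a. Orthogonality: B(V_<, V_<) = B(V_<, V_=) = 0 (Vlt_B, Vlt_le_Vsub), B(V_=, V_>) = 0 (Vlt_B for g⁻¹; `B u v = B v u`).
If v ∈ Veq g and v is also in Vlt g ⊔ Vlt g⁻¹ (v = u + w), then B(v, ·) = 0 on V_<, V_>, V_= hence on V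
(dyn_proj: every vector is a sum of three), so v = 0 by d2_nondeg. If v ∈ Vlt g ∩ Vlt g⁻¹ the same. -/
theorem dyn_indep {g : Mat} (hg : InG g) {v1 v2 v3 : V} (h1 : v1 ∈ Vlt g) (h2 : v2 ∈ Veq g) (h3 : v3 ∈ Vlt g⁻¹)
    (h : v1 + v2 + v3 = 0) : v1 = 0 ∧ v2 = 0 ∧ v3 = 0 := by
  have hg' := d2_InG_inv hg
  have e2 : v2 = -v1 + -v3 := by
    have h' : v2 = (v1 + v2 + v3) + (-v1 + -v3) := by abel
    rw [h', h, zero_add]
  have hz2 : v2 = 0 := by
    refine M03_zero hg (fun v hv => ?_) (fun v hv => ?_) (fun v hv => ?_)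
    · rw [d2_B_comm]
      exact Vlt_B hg hv (mem_Veq.1 h2).1
    · rw [e2, d2_B_add_left, Vlt_B hg ((Vlt g).neg_mem h1) (mem_Veq.1 hv).1,
        Vlt_B hg' ((Vlt g⁻¹).neg_mem h3) (mem_Veq.1 hv).2, add_zero]
    · rw [d2_B_comm]
      exact Vlt_B hg' hv (mem_Veq.1 h2).2
  have e1 : v1 = -v3 := by
    rw [hz2, add_zero] at h
    exact eq_neg_of_add_eq_zero_left h
  have hz1 : v1 = 0 := by
    refine M03_zero hg (fun v hv => ?_) (fun v hv => ?_) (fun v hv => ?_)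
    · exact Vlt_B hg h1 (Vlt_le_Vsub g hv)
    · exact Vlt_B hg h1 (mem_Veq.1 hv).1
    · rw [e1]
      exact Vlt_B hg' ((Vlt g⁻¹).neg_mem h3) (Vlt_le_Vsub g⁻¹ hv)
  refine ⟨hz1, hz2, ?_⟩
  rw [hz1] at e1
  exact (neg_eq_zero.1 e1.symm)

/-- M03c. Veq is nondegenerate: B(u, Vlt) = 0 = B(u, Vlt g⁻¹) by Vlt_B, so B(u, ·) = 0. -/
theorem Veq_nondeg {g : Mat} (hg : InG g) {u : V} (hu : u ∈ Veq g) (h : ∀ v ∈ Veq g, B u v = 0) : u = 0 := by
  refine M03_zero hg (fun v hv => ?_) h (fun v hv => ?_)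
  · rw [d2_B_comm]
    exact Vlt_B hg hv (mem_Veq.1 hu).1
  · rw [d2_B_comm]
    exact Vlt_B (d2_InG_inv hg) hv (mem_Veq.1 hu).2

/-- M03d. the pairing of Vlt g and Vlt g⁻¹ is nondegenerate -/
theorem Vlt_pairing {g : Mat} (hg : InG g) {u : V} (hu : u ∈ Vlt g) (h : ∀ v ∈ Vlt g⁻¹, B u v = 0) : u = 0 :=
  M03_zero hg (fun v hv => Vlt_B hg hu (Vlt_le_Vsub g hv)) (fun v hv => Vlt_B hg hu (mem_Veq.1 hv).1) h

/-- M03e. -/
theorem Veq_cross {g : Mat} (hg : InG g) {u v : V} (hu : u ∈ Veq g) (hv : v ∈ Veq g) : cross u v ∈ Veq g :=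
  mem_Veq.2 ⟨Vsub_cross hg (mem_Veq.1 hu).1 (mem_Veq.1 hv).1,
    Vsub_cross (d2_InG_inv hg) (mem_Veq.1 hu).2 (mem_Veq.1 hv).2⟩

end C37
end

section

/-!
MP_c37615_al (S02984), part D-IIa: task N02 (dimensions)
-/

set_option autoImplicit false

open Filter Topology Polynomial

namespace C37

/-- N02a. Vlt g, Veq g, Vlt g⁻¹ are independent (dyn_indep) and span V (dyn_decomp). -/
theorem dyn_finrank {g : Mat} (hg : InG g) : Module.finrank ℝ (Vlt g) + Module.finrank ℝ (Veq g)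
    + Module.finrank ℝ (Vlt g⁻¹) = 7 := by
  have hdet := d2_InG_det hg
  have h1 : Vlt g ⊓ Veq g = ⊥ := by
    rw [eq_bot_iff]
    rintro x ⟨hx1, hx2⟩
    rw [Submodule.mem_bot]
    exact (dyn_indep hg hx1 ((Veq g).neg_mem hx2) (Vlt g⁻¹).zero_mem
      (by rw [add_neg_cancel, add_zero])).1
  have h2 : (Vlt g ⊔ Veq g) ⊓ Vlt g⁻¹ = ⊥ := by
    rw [eq_bot_iff]
    rintro x ⟨hx1, hx2⟩
    rw [Submodule.mem_bot]
    obtain ⟨a, ha, b, hb, hab⟩ := Submodule.mem_sup.1 hx1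
    have h3 := (dyn_indep hg ha hb ((Vlt g⁻¹).neg_mem hx2)
      (by rw [hab, add_neg_cancel])).2.2
    exact neg_eq_zero.1 h3
  have h3 : (Vlt g ⊔ Veq g) ⊔ Vlt g⁻¹ = ⊤ := by
    rw [eq_top_iff]
    intro v _
    obtain ⟨v1, v2, v3, hv1, hv2, hv3, hv⟩ := dyn_decomp g hdet v
    rw [hv]
    exact Submodule.add_mem_sup (Submodule.add_mem_sup hv1 hv2) hv3
  have e1 := Submodule.finrank_sup_add_finrank_inf_eq (Vlt g) (Veq g)
  have e2 := Submodule.finrank_sup_add_finrank_inf_eq (Vlt g ⊔ Veq g) (Vlt g⁻¹)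
  rw [h1, finrank_bot, add_zero] at e1
  rw [h2, h3, finrank_bot, add_zero, finrank_top] at e2
  have h7 : Module.finrank ℝ V = 7 := by simp
  omega

theorem N02_le {g : Mat} (hg : InG g) : Module.finrank ℝ (Vlt g) ≤ Module.finrank ℝ (Vlt g⁻¹) := by
  let T : Vlt g →ₗ[ℝ] Module.Dual ℝ (Vlt g⁻¹) :=
    LinearMap.mk₂ ℝ (fun (u : Vlt g) (v : Vlt g⁻¹) => B u.1 v.1)
      (fun u u' v => d2_B_add_left u.1 u'.1 v.1)
      (fun c u v => by
        change B (c • u.1) v.1 = _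
        rw [d2_B_smul_left, smul_eq_mul])
      (fun u v v' => d2_B_add_right u.1 v.1 v'.1)
      (fun c u v => by
        change B u.1 (c • v.1) = _
        rw [d2_B_smul_right, smul_eq_mul])
  have hT : Function.Injective T := by
    rw [← LinearMap.ker_eq_bot, eq_bot_iff]
    intro u hu
    rw [LinearMap.mem_ker] at hu
    rw [Submodule.mem_bot]
    apply Subtype.ext
    apply Vlt_pairing hg u.2
    intro v hv
    exact LinearMap.congr_fun hu (⟨v, hv⟩ : Vlt g⁻¹)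
  have h1 := LinearMap.finrank_le_finrank_of_injective hT
  rwa [Subspace.dual_finrank_eq] at h1

/-- N02b. The pairing B : Vlt g × Vlt g⁻¹ → ℝ is nondegenerate on both sides (Vlt_pairing for g and for g⁻¹), so the
dimensions agree (injective linear map into the dual, both ways). -/
theorem dyn_finrank_eq {g : Mat} (hg : InG g) : Module.finrank ℝ (Vlt g) = Module.finrank ℝ (Vlt g⁻¹) := by
  apply le_antisymm (N02_le hg)
  have h := N02_le (d2_InG_inv hg)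
  rwa [Matrix.nonsing_inv_nonsing_inv g (d2_InG_det hg)] at h

/-- N02c. finrank Veq is 7 - 2k; if Veq ≠ ⊤ it is ≤ 3 by d2_dim (Veq_cross, Veq_nondeg). -/
theorem dyn_cases {g : Mat} (hg : InG g) : Veq g = ⊤ ∨ Module.finrank ℝ (Veq g) = 1 ∨
    (Module.finrank ℝ (Veq g) = 3 ∧ Module.finrank ℝ (Vlt g) = 2 ∧ Module.finrank ℝ (Vlt g⁻¹) = 2) := by
  by_cases htop : Veq g = ⊤
  · exact Or.inl htop
  · right
    have h1 := dyn_finrank hg
    have h2 := dyn_finrank_eq hg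
    have h3 := d2_dim (Veq g) (fun u hu v hv => Veq_cross hg hu hv)
      (fun u hu h => Veq_nondeg hg hu h) htop
    omega

end C37
end

section

/-!
MP_c37615_al (S02984), part D-IIa: task N03 (invariant affine subspace)
-/

set_option autoImplicit false

open Filter Topology Polynomial

namespace C37

theorem N03_zero_of_fixed {g : Mat} {w : V} (hw : w ∈ Vlt g) (h : g.mulVec w = w) : w = 0 := by
  obtain ⟨C, ρ, h0, h1, hC⟩ := hw
  have hn : ∀ n : ℕ, (g ^ n).mulVec w = w := by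
    intro n
    induction n with
    | zero => rw [pow_zero, Matrix.one_mulVec]
    | succ n ih => rw [pow_succ, ← Matrix.mulVec_mulVec, h, ih]
  have h2 : ∀ n : ℕ, ‖w‖ ≤ C * ρ ^ n := by
    intro n
    have := hC n
    rwa [hn] at this
  have h3 : Tendsto (fun n : ℕ => C * ρ ^ n) atTop (𝓝 (C * 0)) :=
    (tendsto_pow_atTop_nhds_zero_of_lt_one h0.le h1).const_mul C
  rw [mul_zero] at h3
  have h4 : ‖w‖ ≤ 0 := ge_of_tendsto' h3 h2
  exact norm_le_zero_iff.1 h4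

theorem N03_fixed {g : Mat} (hg : InG g) {w1 w2 w3 : V} (h1 : w1 ∈ Vlt g) (h2 : w2 ∈ Veq g)
    (h3 : w3 ∈ Vlt g⁻¹) (h : (g.mulVec w1 - w1) + w2 + (g.mulVec w3 - w3) = 0) :
    w1 = 0 ∧ w3 = 0 := by
  have hdet := d2_InG_det hg
  have hd := dyn_indep hg ((Vlt g).sub_mem (Vlt_comm rfl h1) h1) h2
    ((Vlt g⁻¹).sub_mem (Vlt_comm (d2_comm_inv hdet rfl) h3) h3) h
  refine ⟨N03_zero_of_fixed h1 (sub_eq_zero.1 hd.1), ?_⟩
  have h4 : g.mulVec w3 = w3 := sub_eq_zero.1 hd.2.2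
  apply N03_zero_of_fixed h3
  conv_lhs => rw [← h4]
  exact d2_inv_mulVec hdet w3

/-- N03. g := lin t. Let Q := Vlt g ⊔ Vlt g⁻¹. The map g - 1 sends Vlt g, Vlt g⁻¹ into themselves (Vlt_comm) and is injective on Q: if
g w = w with w = w1 + w3 then (g w1 - w1) + 0 + (g w3 - w3) = 0, so g w1 = w1 and g w3 = w3 (dyn_indep), so w1 = g^n w1 → 0, w1 = 0,
and w3 = g⁻¹ w3 so w3 = 0. Finite dimension: g - 1 maps Q onto Q. Let t 0 = u1 + u2 + u3 (dyn_decomp), o ∈ Q with g o - o = -(u1+u3);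
then t o - o = g o + t 0 - o = u2 ∈ Veq g. Let s commute with t, w := s o - o. t (s o) - s o = s (t o) - s o = lin s (t o - o) ∈ Veq g
(Veq_comm), and it equals (t o - o) + (g w - w) (d2_apply_add), so g w - w ∈ Veq g. Write w = w1+w2+w3;
(g w1 - w1) + (g w2 - w2 - (g w - w)) + (g w3 - w3) = 0, so by dyn_indep g w1 = w1, g w3 = w3, so w1 = w3 = 0 as before; w = w2. -/
theorem aff_point (t : V ≃ᵃ[ℝ] V) (ht : InG (lin t)) : ∃ o : V, ∀ s : V ≃ᵃ[ℝ] V, s * t = t * s →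
    s o - o ∈ Veq (lin t) := by
  set g := lin t with hgdef
  have hdet := d2_InG_det ht
  -- the map g - 1 on Q
  let Q : Submodule ℝ V := Vlt g ⊔ Vlt g⁻¹
  have hQmem : ∀ w ∈ Q, g.mulVec w - w ∈ Q := by
    intro w hw
    obtain ⟨a, ha, b, hb, hab⟩ := Submodule.mem_sup.1 hw
    rw [← hab, Matrix.mulVec_add]
    have h1 : g.mulVec a + g.mulVec b - (a + b) = (g.mulVec a - a) + (g.mulVec b - b) := by abel
    rw [h1]
    exact Submodule.add_mem_sup ((Vlt g).sub_mem (Vlt_comm rfl ha) ha)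
      ((Vlt g⁻¹).sub_mem (Vlt_comm (d2_comm_inv hdet rfl) hb) hb)
  let F : Q →ₗ[ℝ] Q :=
    { toFun := fun w => ⟨g.mulVec w.1 - w.1, hQmem w.1 w.2⟩
      map_add' := by
        intro a b
        apply Subtype.ext
        change g.mulVec (a.1 + b.1) - (a.1 + b.1) = (g.mulVec a.1 - a.1) + (g.mulVec b.1 - b.1)
        rw [Matrix.mulVec_add]
        abel
      map_smul' := by
        intro c a
        apply Subtype.ext
        change g.mulVec (c • a.1) - c • a.1 = c • (g.mulVec a.1 - a.1)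
        rw [Matrix.mulVec_smul, smul_sub] }
  have hFinj : Function.Injective F := by
    rw [← LinearMap.ker_eq_bot, eq_bot_iff]
    intro w hw
    rw [LinearMap.mem_ker] at hw
    have hw' : g.mulVec w.1 - w.1 = 0 := congrArg Subtype.val hw
    obtain ⟨a, ha, b, hb, hab⟩ := Submodule.mem_sup.1 w.2
    have h1 : (g.mulVec a - a) + 0 + (g.mulVec b - b) = 0 := by
      rw [← hab, Matrix.mulVec_add] at hw'
      refine Eq.trans ?_ hw'
      abel
    obtain ⟨ha0, hb0⟩ := N03_fixed ht ha (Veq g).zero_mem hb h1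
    rw [Submodule.mem_bot]
    apply Subtype.ext
    rw [← hab, ha0, hb0, add_zero]
    rfl
  have hFsurj : Function.Surjective F := LinearMap.injective_iff_surjective.1 hFinj
  obtain ⟨u1, u2, u3, hu1, hu2, hu3, hu⟩ := dyn_decomp g hdet (tv t)
  obtain ⟨o, ho⟩ := hFsurj ⟨-(u1 + u3), Q.neg_mem (Submodule.add_mem_sup hu1 hu3)⟩
  have ho' : g.mulVec o.1 - o.1 = -(u1 + u3) := congrArg Subtype.val ho
  refine ⟨o.1, ?_⟩
  have hto : t o.1 - o.1 = u2 := by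
    rw [d2_apply, ← hgdef, hu]
    have h1 : g.mulVec o.1 = o.1 + -(u1 + u3) := by rw [← ho']; abel
    rw [h1]
    abel
  intro s hs
  have hcomm : lin s * g = g * lin s := by
    rw [hgdef, ← d2_lin_mul, ← d2_lin_mul, hs]
  obtain ⟨w, hw⟩ : ∃ w, w = s o.1 - o.1 := ⟨_, rfl⟩
  rw [← hw]
  -- t (s o) - s o = lin s u2
  have h1 : t (s o.1) - s o.1 = (lin s).mulVec u2 := by
    have h2 : t (s o.1) = s (t o.1) := by
      have := congrArg (fun f : V ≃ᵃ[ℝ] V => f o.1) hs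
      exact this.symm
    have h3 : t o.1 = o.1 + u2 := by rw [← hto]; abel
    rw [h2, h3, d2_apply_add]
    abel
  have h2 : t (s o.1) - s o.1 = u2 + (g.mulVec w - w) := by
    have h3 : s o.1 = o.1 + w := by rw [hw]; abel
    have h4 : t o.1 = o.1 + u2 := by rw [← hto]; abel
    rw [h3, d2_apply_add, h4]
    abel
  have h3 : g.mulVec w - w ∈ Veq g := by
    have h4 : g.mulVec w - w = (lin s).mulVec u2 - u2 := by
      rw [← h1, h2]
      abel
    rw [h4]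
    exact (Veq g).sub_mem (Veq_comm hdet hcomm hu2) hu2
  obtain ⟨w1, w2, w3, hw1, hw2, hw3, hw'⟩ := dyn_decomp g hdet w
  have h5 : (g.mulVec w1 - w1) + (g.mulVec w2 - w2 - (g.mulVec w - w)) + (g.mulVec w3 - w3) = 0 := by
    rw [hw', Matrix.mulVec_add, Matrix.mulVec_add]
    abel
  have h6 := N03_fixed ht hw1
    ((Veq g).sub_mem ((Veq g).sub_mem (Veq_comm hdet rfl hw2) hw2) h3) hw3 h5
  rw [hw', h6.1, h6.2, zero_add, add_zero]
  exact hw2

end C37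
end

section

/-!
MP_c37615_al (S02984), part D-IIa: task J03 (elements preserving the standard planes)
-/

set_option autoImplicit false

open Filter Topology Polynomial

namespace C37

theorem J03_va : va = (2 : ℝ) • cross x3 y3 := by
  rw [cross_x3_y3]; module

theorem J03_x1 : x1 = (-1 : ℝ) • cross y2 y3 := by
  funext i; fin_cases i <;> simp [cross, y2, y3, x1] <;> norm_num

theorem J03_y1 : y1 = cross x2 x3 := cross_x2_x3.symm

/-- values on the four vectors and invariance give the matrix -/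
theorem J03_eq (g : Mat) (hg : InG g) (T : Matrix (Fin 2) (Fin 2) ℝ)
    (h1 : g.mulVec x2 = T 0 0 • x2 + T 1 0 • y3)
    (h2 : g.mulVec y3 = T 0 1 • x2 + T 1 1 • y3)
    (h3 : g.mulVec x3 = (-(T.det⁻¹ * T 1 0)) • y2 + (T.det⁻¹ * T 0 0) • x3)
    (h4 : g.mulVec y2 = (T.det⁻¹ * T 1 1) • y2 + (-(T.det⁻¹ * T 0 1)) • x3) : g = jT T := by
  apply d2_mat_ext
  · unfold jT
    rw [ofNull_va]
    conv_lhs => rw [J03_va]
    rw [Matrix.mulVec_smul, ← d2_cross_inv hg, h3, h2]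
    generalize T.det⁻¹ = D
    funext i
    fin_cases i <;> simp [cross, y2, y3, x1, x2, x3, y1, va] <;> ring
  · unfold jT
    rw [ofNull_x1]
    conv_lhs => rw [J03_x1]
    rw [Matrix.mulVec_smul, ← d2_cross_inv hg, h4, h2]
    generalize T.det⁻¹ = D
    funext i
    fin_cases i <;> simp [cross, y2, y3, x1, x2, x3, y1, va] <;> ring
  · unfold jT
    rw [ofNull_x2, h1]
  · unfold jT
    rw [ofNull_x3, h3]
  · unfold jT
    rw [ofNull_y1]
    conv_lhs => rw [J03_y1]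
    rw [← d2_cross_inv hg, h3, h1]
    generalize T.det⁻¹ = D
    funext i
    fin_cases i <;> simp [cross, y2, y3, x1, x2, x3, y1, va] <;> ring
  · unfold jT
    rw [ofNull_y2, h4]
  · unfold jT
    rw [ofNull_y3, h2]

/-- the form on combinations -/
theorem J03_B (a c e f : ℝ) : B (a • x2 + c • y3) (e • y2 + f • x3) = -(1/2) * (a * e + c * f) := by
  simp [B, x2, y3, y2, x3]; ring

/-- J03a. g x2 = a x2 + c y3, g y3 = b x2 + d y3, g x3 = e x3 + f y2, g y2 = h x3 + k y2. B-invariance (B x2 y2 = -1/2 = B x3 y3, all other products of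
x2,y3,x3,y2 are 0): a k + c h = 1, a f + c e = 0, b k + d h = 0, b f + d e = 1. So det T ≠ 0 and k = d/Δ, f = -c/Δ, h = -b/Δ, e = a/Δ.
va = 2 cross x3 y3, x1 = - cross y2 y3, y1 = cross x2 x3, so g va, g x1, g y1 are determined (d2_cross_inv); d2_mat_ext. -/
theorem d2_jT_of_preserves (g : Mat) (hg : InG g)
    (h1 : g.mulVec x2 ∈ Submodule.span ℝ {x2, y3}) (h2 : g.mulVec y3 ∈ Submodule.span ℝ {x2, y3})
    (h3 : g.mulVec x3 ∈ Submodule.span ℝ {y2, x3}) (h4 : g.mulVec y2 ∈ Submodule.span ℝ {y2, x3}) :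
    ∃ T : Matrix (Fin 2) (Fin 2) ℝ, T.det ≠ 0 ∧ g = jT T := by
  rw [Submodule.mem_span_pair] at h1 h2 h3 h4
  obtain ⟨a, c, h1⟩ := h1
  obtain ⟨b, d, h2⟩ := h2
  obtain ⟨f, e, h3⟩ := h3
  obtain ⟨k, h, h4⟩ := h4
  have e1 : a * k + c * h = 1 := by
    have := d2_B_inv hg x2 y2
    rw [← h1, ← h4, J03_B] at this
    have h0 : B x2 y2 = -1/2 := by simp [B, x2, y2]; norm_num
    rw [h0] at this
    linarith
  have e2 : a * f + c * e = 0 := by
    have := d2_B_inv hg x2 x3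
    rw [← h1, ← h3, J03_B] at this
    have h0 : B x2 x3 = 0 := by simp [B, x2, x3]
    rw [h0] at this
    linarith
  have e3 : b * k + d * h = 0 := by
    have := d2_B_inv hg y3 y2
    rw [← h2, ← h4, J03_B] at this
    have h0 : B y3 y2 = 0 := by simp [B, y3, y2]
    rw [h0] at this
    linarith
  have e4 : b * f + d * e = 1 := by
    have := d2_B_inv hg y3 x3
    rw [← h2, ← h3, J03_B] at this
    have h0 : B y3 x3 = -1/2 := by simp [B, y3, x3]; norm_num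
    rw [h0] at this
    linarith
  have hD : (a * d - b * c) * (k * e - f * h) = 1 := by
    have : (a * d - b * c) * (k * e - f * h) =
      (a * k + c * h) * (b * f + d * e) - (a * f + c * e) * (b * k + d * h) := by ring
    rw [this, e1, e2, e3, e4]; ring
  have hne : a * d - b * c ≠ 0 := left_ne_zero_of_mul (hD ▸ one_ne_zero)
  have hdet : (!![a, b; c, d] : Matrix (Fin 2) (Fin 2) ℝ).det = a * d - b * c := by
    rw [Matrix.det_fin_two_of]
  refine ⟨!![a, b; c, d], by rw [hdet]; exact hne, ?_⟩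
  apply J03_eq g hg
  · rw [← h1]; simp
  · rw [← h2]; simp
  · rw [← h3, hdet]
    have hf : -((a * d - b * c)⁻¹ * (!![a, b; c, d] : Matrix (Fin 2) (Fin 2) ℝ) 1 0) = f := by
      simp only [Matrix.of_apply, Matrix.cons_val', Matrix.cons_val_zero, Matrix.cons_val_one,
        Matrix.cons_val_fin_one]
      field_simp
      linear_combination c * e4 - d * e2
    have he : (a * d - b * c)⁻¹ * (!![a, b; c, d] : Matrix (Fin 2) (Fin 2) ℝ) 0 0 = e := by
      simp only [Matrix.of_apply, Matrix.cons_val', Matrix.cons_val_zero, Matrix.cons_val_one,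
        Matrix.cons_val_fin_one]
      field_simp
      linear_combination b * e2 - a * e4
    rw [hf, he]
  · rw [← h4, hdet]
    have hk : (a * d - b * c)⁻¹ * (!![a, b; c, d] : Matrix (Fin 2) (Fin 2) ℝ) 1 1 = k := by
      simp only [Matrix.of_apply, Matrix.cons_val', Matrix.cons_val_zero, Matrix.cons_val_one,
        Matrix.cons_val_fin_one]
      field_simp
      linear_combination c * e3 - d * e1
    have hh : -((a * d - b * c)⁻¹ * (!![a, b; c, d] : Matrix (Fin 2) (Fin 2) ℝ) 0 1) = h := by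
      simp only [Matrix.of_apply, Matrix.cons_val', Matrix.cons_val_zero, Matrix.cons_val_one,
        Matrix.cons_val_fin_one]
      field_simp
      linear_combination b * e1 - a * e3
    rw [hk, hh]

/-- J03b. d2_frame with p = b x2 + d y3, p' = a x2 + c y3, r = Δ⁻¹(-c y2 + a x3), r' = Δ⁻¹(d y2 - b x3) gives g in G, then J03a's computation
shows g = jT T (or check directly). -/
theorem d2_jT_InG (T : Matrix (Fin 2) (Fin 2) ℝ) (hT : T.det ≠ 0) : InG (jT T) := by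
  have hdet := Matrix.det_fin_two T
  have hD : T.det⁻¹ * (T 0 0 * T 1 1 - T 0 1 * T 1 0) = 1 := by
    rw [← hdet]; exact inv_mul_cancel₀ hT
  obtain ⟨g, hg, g1, g2, g3, g4⟩ := d2_frame (T 0 1 • x2 + T 1 1 • y3) (T 0 0 • x2 + T 1 0 • y3)
    ((-(T.det⁻¹ * T 1 0)) • y2 + (T.det⁻¹ * T 0 0) • x3)
    ((T.det⁻¹ * T 1 1) • y2 + (-(T.det⁻¹ * T 0 1)) • x3)
    (by simp [B, x2, y3]; ring) (by simp [B, x2, y3]; ring) (by simp [B, x2, y3]; ring)
    (by funext i; fin_cases i <;> simp [cross, x2, y3] <;> ring)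
    (by simp [B, y2, x3]) (by simp [B, y2, x3]) (by simp [B, y2, x3])
    (by funext i; fin_cases i <;> simp [cross, y2, x3] <;> ring)
    (by rw [J03_B]; linear_combination -(1/2) * hD)
    (by rw [J03_B]; linear_combination -(1/2) * hD)
    (by rw [J03_B]; ring)
    (by rw [J03_B]; ring)
  rw [← J03_eq g hg T g2 g1 g3 g4]
  exact hg

/-- J03c. w orthogonal to x2, y3, x3, y2 is in span(va,x1,y1) (d2_null_expand). -/
theorem d2_E00_of_orth (w : V) (h1 : B w x2 = 0) (h2 : B w y3 = 0) (h3 : B w x3 = 0) (h4 : B w y2 = 0) : w ∈ E00 := by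
  simp [B, x2] at h1
  simp [B, y3] at h2
  simp [B, x3] at h3
  simp [B, y2] at h4
  have a1 : w 1 = 0 := by linarith
  have a5 : w 5 = 0 := by linarith
  have a2 : w 2 = 0 := by linarith
  have a6 : w 6 = 0 := by linarith
  have hw : w = (w 3) • va + (w 0 - w 4) • x1 + (-(w 0 + w 4)) • y1 := by
    conv_lhs => rw [d2_null_expand w]
    rw [a1, a5, a2, a6]
    module
  rw [hw]
  unfold E00
  refine Submodule.add_mem _ (Submodule.add_mem _ (Submodule.smul_mem _ _ (Submodule.subset_span ?_))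
    (Submodule.smul_mem _ _ (Submodule.subset_span ?_))) (Submodule.smul_mem _ _ (Submodule.subset_span ?_))
  · simp
  · simp
  · simp

/-- J03d. -/
theorem d2_E00_finrank : Module.finrank ℝ E00 = 3 := by
  have hr : ({va, x1, y1} : Set V) = Set.range ![va, x1, y1] := by
    simp [Matrix.range_cons, Matrix.range_empty]
    ext z; simp only [Set.mem_insert_iff, Set.mem_singleton_iff]; tauto
  have hli : LinearIndependent ℝ ![va, x1, y1] := by
    rw [Fintype.linearIndependent_iff]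
    intro c hc
    simp only [Fin.sum_univ_three, Matrix.cons_val_zero, Matrix.cons_val_one, Matrix.cons_val] at hc
    have k0 := congrFun hc 0
    have k3 := congrFun hc 3
    have k4 := congrFun hc 4
    simp [va, x1, y1] at k0 k3 k4
    intro i
    fin_cases i
    · simpa using k3
    · simp only [Fin.mk_one]; linarith
    · show c 2 = 0
      linarith
  unfold E00
  rw [hr, finrank_span_eq_card hli]
  simp

end C37
end

section

/-!
MP_c37615_al (S02984), part D-IIa: task S01 (adapted frame)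
-/

set_option autoImplicit false

open Filter Topology Polynomial

namespace C37

/-- S01a. P = Vlt gt⁻¹, R = Vlt gt are totally null (Vlt_B, Vlt_le_Vsub), closed under cross (Vlt_cross), so P × P = 0 = R × R (d2_null_plane);
d2_dual_basis (the pairing: Vlt_pairing) gives p, p', r, r'; d2_frame gives g. Veq gt is orthogonal to P and R (Vlt_B), so g⁻¹ maps it into E00
(d2_E00_of_orth, B-invariance of g⁻¹); both have dimension 3 (d2_E00_finrank), so g⁻¹ (Veq gt) = E00. -/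
theorem d2_adapted {gt : Mat} (hg : InG gt) (h2 : Module.finrank ℝ (Vlt gt) = 2) (h2' : Module.finrank ℝ (Vlt gt⁻¹) = 2)
    (h3 : Module.finrank ℝ (Veq gt) = 3) : ∃ g : Mat, InG g ∧
      Submodule.span ℝ {g.mulVec x2, g.mulVec y3} = Vlt gt⁻¹ ∧ Submodule.span ℝ {g.mulVec y2, g.mulVec x3} = Vlt gt ∧
      (∀ v, v ∈ Veq gt ↔ g⁻¹.mulVec v ∈ E00) := by
  have hgi : InG gt⁻¹ := d2_InG_inv hg
  have hPB : ∀ u ∈ Vlt gt⁻¹, ∀ v ∈ Vlt gt⁻¹, B u v = 0 := fun u hu v hv => Vlt_B hgi hu (Vlt_le_Vsub _ hv)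
  have hRB : ∀ u ∈ Vlt gt, ∀ v ∈ Vlt gt, B u v = 0 := fun u hu v hv => Vlt_B hg hu (Vlt_le_Vsub _ hv)
  have hPx : ∀ u ∈ Vlt gt⁻¹, ∀ v ∈ Vlt gt⁻¹, cross u v = 0 :=
    d2_null_plane _ h2' hPB (fun u hu v hv => Vlt_cross hgi hu (Vlt_le_Vsub _ hv))
  have hRx : ∀ u ∈ Vlt gt, ∀ v ∈ Vlt gt, cross u v = 0 :=
    d2_null_plane _ h2 hRB (fun u hu v hv => Vlt_cross hg hu (Vlt_le_Vsub _ hv))
  obtain ⟨p, hp, p', hp', r, hr, r', hr', e1, e2, e3, e4, sP, sR⟩ :=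
    d2_dual_basis (Vlt gt⁻¹) (Vlt gt) h2' h2 (fun r hr h => Vlt_pairing hg hr h)
  obtain ⟨g, hgG, f1, f2, f3, f4⟩ := d2_frame p p' r r' (hPB p hp p hp) (hPB p hp p' hp') (hPB p' hp' p' hp')
    (hPx p hp p' hp') (hRB r hr r hr) (hRB r hr r' hr') (hRB r' hr' r' hr') (hRx r hr r' hr') e1 e2 e3 e4
  have hgd := d2_InG_det hgG
  refine ⟨g, hgG, ?_, ?_, ?_⟩
  · rw [f1, f2]; exact sP
  · rw [f3, f4]; exact sR
  · have k1 : g⁻¹ * g = 1 := Matrix.nonsing_inv_mul g hgd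
    have k2 : g * g⁻¹ = 1 := Matrix.mul_nonsing_inv g hgd
    let e : V ≃ₗ[ℝ] V := Matrix.toLin'OfInv k2 k1
    have he : ∀ v, e v = g⁻¹.mulVec v := fun v => rfl
    have hB : ∀ v w, B (g⁻¹.mulVec v) w = B v (g.mulVec w) := by
      intro v w
      have := d2_B_inv hgG (g⁻¹.mulVec v) w
      rw [d2_mulVec_inv hgd] at this
      exact this.symm
    have hle : (Veq gt).map (e : V →ₗ[ℝ] V) ≤ E00 := by
      rintro _ ⟨v, hv, rfl⟩
      have hv' := mem_Veq.mp hv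
      show g⁻¹.mulVec v ∈ E00
      apply d2_E00_of_orth
      · rw [hB, f2, d2_B_comm]; exact Vlt_B hgi hp' hv'.2
      · rw [hB, f1, d2_B_comm]; exact Vlt_B hgi hp hv'.2
      · rw [hB, f3, d2_B_comm]; exact Vlt_B hg hr hv'.1
      · rw [hB, f4, d2_B_comm]; exact Vlt_B hg hr' hv'.1
    have hfin : Module.finrank ℝ ((Veq gt).map (e : V →ₗ[ℝ] V)) = Module.finrank ℝ E00 := by
      rw [d2_E00_finrank, ← h3]
      exact LinearEquiv.finrank_map_eq e (Veq gt)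
    have heq : (Veq gt).map (e : V →ₗ[ℝ] V) = E00 := Submodule.eq_of_le_of_finrank_eq hle hfin
    intro v
    constructor
    · intro hv
      rw [← heq]
      exact ⟨v, hv, rfl⟩
    · intro hv
      rw [← heq] at hv
      obtain ⟨w, hw, hw'⟩ := hv
      have hwv : w = v := e.injective hw'
      rw [← hwv]
      exact hw

private theorem S01_aux {g : Mat} (hg : IsUnit g.det) (u v w : V)
    (h : w ∈ Submodule.span ℝ {g.mulVec u, g.mulVec v}) : g⁻¹.mulVec w ∈ Submodule.span ℝ {u, v} := by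
  rw [Submodule.mem_span_pair] at h ⊢
  obtain ⟨a, b, rfl⟩ := h
  refine ⟨a, b, ?_⟩
  rw [Matrix.mulVec_add, Matrix.mulVec_smul, Matrix.mulVec_smul, d2_inv_mulVec hg, d2_inv_mulVec hg]

/-- S01b. s preserves Vlt gt⁻¹ and Vlt gt (Vlt_comm, d2_comm_inv), so g⁻¹ s g preserves span(x2,y3) and span(y2,x3): d2_jT_of_preserves. -/
theorem d2_commutant_jT {gt g s : Mat} (hgt : InG gt) (hg : InG g) (hs : InG s) (hc : s * gt = gt * s)
    (hP : Submodule.span ℝ {g.mulVec x2, g.mulVec y3} = Vlt gt⁻¹)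
    (hR : Submodule.span ℝ {g.mulVec y2, g.mulVec x3} = Vlt gt) :
    ∃ T : Matrix (Fin 2) (Fin 2) ℝ, T.det ≠ 0 ∧ g⁻¹ * s * g = jT T := by
  have hgd := d2_InG_det hg
  have hci : s * gt⁻¹ = gt⁻¹ * s := d2_comm_inv (d2_InG_det hgt) hc
  have hsP : ∀ w, w ∈ Submodule.span ℝ {g.mulVec x2, g.mulVec y3} →
      g⁻¹.mulVec (s.mulVec w) ∈ Submodule.span ℝ {x2, y3} := by
    intro w hw
    apply S01_aux hgd
    rw [hP] at hw ⊢
    exact Vlt_comm hci hw
  have hsR : ∀ w, w ∈ Submodule.span ℝ {g.mulVec y2, g.mulVec x3} →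
      g⁻¹.mulVec (s.mulVec w) ∈ Submodule.span ℝ {y2, x3} := by
    intro w hw
    apply S01_aux hgd
    rw [hR] at hw ⊢
    exact Vlt_comm hc hw
  have e : ∀ v, (g⁻¹ * s * g).mulVec v = g⁻¹.mulVec (s.mulVec (g.mulVec v)) := by
    intro v
    rw [Matrix.mulVec_mulVec, Matrix.mulVec_mulVec]
  refine d2_jT_of_preserves (g⁻¹ * s * g) (d2_InG_mul (d2_InG_mul (d2_InG_inv hg) hs) hg) ?_ ?_ ?_ ?_
  · rw [e]; exact hsP _ (Submodule.subset_span (by simp))
  · rw [e]; exact hsP _ (Submodule.subset_span (by simp))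
  · rw [e]; exact hsR _ (Submodule.subset_span (by simp))
  · rw [e]; exact hsR _ (Submodule.subset_span (by simp))

end C37
end

section

/-!
MP_c37615_al (S02984), part D-IIa: task S02 (standard form)
-/

set_option autoImplicit false

open Filter Topology Polynomial

namespace C37

/-- S02a. affine equivalence with given linear part and translation: built from Matrix.toLin' / GeneralLinearGroup and vector addition. -/
theorem d2_mk_aff (g : Mat) (hg : IsUnit g.det) (o : V) : ∃ δ : V ≃ᵃ[ℝ] V, lin δ = g⁻¹ ∧ (∀ v, δ v = g⁻¹.mulVec (v - o)) ∧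
    (∀ v, δ⁻¹ v = g.mulVec v + o) := by
  have h1 : g⁻¹ * g = 1 := Matrix.nonsing_inv_mul g hg
  have h2 : g * g⁻¹ = 1 := Matrix.mul_nonsing_inv g hg
  let e : V ≃ₗ[ℝ] V := Matrix.toLin'OfInv h2 h1
  have he : ∀ v, e v = g⁻¹.mulVec v := fun v => rfl
  let δ : V ≃ᵃ[ℝ] V :=
    { toFun := fun v => g⁻¹.mulVec (v - o)
      invFun := fun v => g.mulVec v + o
      left_inv := by
        intro v
        simp only [Matrix.mulVec_mulVec, h2, Matrix.one_mulVec, sub_add_cancel]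
      right_inv := by
        intro v
        simp only [add_sub_cancel_right, Matrix.mulVec_mulVec, h1, Matrix.one_mulVec]
      linear := e
      map_vadd' := by
        intro p v
        show g⁻¹.mulVec (v + p - o) = e v + g⁻¹.mulVec (p - o)
        rw [he, ← Matrix.mulVec_add]
        congr 1
        abel }
  have hδ : ∀ v, δ v = g⁻¹.mulVec (v - o) := fun v => rfl
  refine ⟨δ, ?_, hδ, fun v => rfl⟩
  apply Matrix.mulVec_injective
  funext v
  rw [d2_lin_mulVec]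
  exact he v

/-- S02b. o from aff_point for t; g from d2_adapted for lin t; δ from d2_mk_aff. lin (δ s δ⁻¹) = g⁻¹ (lin s) g (d2_lin_mul, d2_lin_inv), so = jT T by
d2_commutant_jT; tv (δ s δ⁻¹) = δ (s (δ⁻¹ 0)) = g⁻¹ (s o - o) ∈ E00 (aff_point: s o - o ∈ Veq (lin t)). For v ∈ E00: g v ∈ Veq (lin t) ≤ Veq (lin s),
so v = g⁻¹ (g v) ∈ Veq (g⁻¹ (lin s) g) by Veq_conj; zel_conj. -/
theorem d2_standard {Γ : Subgroup (V ≃ᵃ[ℝ] V)} {α β : V ≃ᵃ[ℝ] V} (h : Z2 Γ α β) (t : V ≃ᵃ[ℝ] V) (ht : t ∈ Γ)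
    (htα : α * t = t * α) (htβ : β * t = t * β) (hmin : ∀ m n : ℤ, Veq (lin t) ≤ Veq (lin (zel α β m n)))
    (h3 : Module.finrank ℝ (Veq (lin t)) = 3) (h2 : Module.finrank ℝ (Vlt (lin t)) = 2)
    (h2' : Module.finrank ℝ (Vlt (lin t)⁻¹) = 2) :
    ∃ (δ : V ≃ᵃ[ℝ] V) (T U : Matrix (Fin 2) (Fin 2) ℝ), InG (lin δ) ∧ T.det ≠ 0 ∧ U.det ≠ 0 ∧
      lin (δ * α * δ⁻¹) = jT T ∧ lin (δ * β * δ⁻¹) = jT U ∧ tv (δ * α * δ⁻¹) ∈ E00 ∧ tv (δ * β * δ⁻¹) ∈ E00 ∧
      (∀ m n : ℤ, E00 ≤ Veq (lin (zel (δ * α * δ⁻¹) (δ * β * δ⁻¹) m n))) := by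
  have hGt : InG (lin t) := d2_InG_lin h.cryst ht
  obtain ⟨o, ho⟩ := aff_point t hGt
  obtain ⟨g, hg, hP, hR, hE⟩ := d2_adapted hGt h2 h2' h3
  have hgd := d2_InG_det hg
  obtain ⟨δ, hδ1, hδ2, hδ3⟩ := d2_mk_aff g hgd o
  have hlinv : lin δ⁻¹ = g := by
    rw [d2_lin_inv, hδ1, Matrix.nonsing_inv_nonsing_inv g hgd]
  have hlin : ∀ s : V ≃ᵃ[ℝ] V, lin (δ * s * δ⁻¹) = g⁻¹ * lin s * g := by
    intro s
    rw [d2_lin_mul, d2_lin_mul, hlinv, hδ1]
  have htv : ∀ s : V ≃ᵃ[ℝ] V, s * t = t * s → tv (δ * s * δ⁻¹) ∈ E00 := by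
    intro s hs
    have e1 : tv (δ * s * δ⁻¹) = g⁻¹.mulVec (s o - o) := by
      show δ (s (δ⁻¹ 0)) = _
      rw [hδ3, hδ2, Matrix.mulVec_zero, zero_add]
    rw [e1]
    exact (hE _).mp (ho s hs)
  have hcl : ∀ s : V ≃ᵃ[ℝ] V, s * t = t * s → lin s * lin t = lin t * lin s := by
    intro s hs
    rw [← d2_lin_mul, ← d2_lin_mul, hs]
  obtain ⟨T, hT, hT'⟩ := d2_commutant_jT hGt hg (d2_InG_lin h.cryst h.ha) (hcl α htα) hP hR
  obtain ⟨U, hU, hU'⟩ := d2_commutant_jT hGt hg (d2_InG_lin h.cryst h.hb) (hcl β htβ) hP hR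
  refine ⟨δ, T, U, ?_, hT, hU, ?_, ?_, htv α htα, htv β htβ, ?_⟩
  · rw [hδ1]; exact d2_InG_inv hg
  · rw [hlin]; exact hT'
  · rw [hlin]; exact hU'
  · intro m n v hv
    rw [zel_conj, hlin]
    have h5 : g.mulVec v ∈ Veq (lin t) := by
      rw [hE, d2_inv_mulVec hgd]
      exact hv
    have h6 := Veq_conj hgd (hmin m n h5)
    rw [d2_inv_mulVec hgd] at h6
    exact h6

end C37
end

section

/-!
MP_c37615_al (S02984), part D-IIa: task U03 (independence of the parameters)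
-/

set_option autoImplicit false

open Filter Topology Polynomial

namespace C37

private theorem U03_cont (i j : Fin 7) : Continuous (fun p : ℝ × ℝ => gU p.1 p.2 i j) := by
  unfold gU eH0 expZ ofNull
  simp only [Matrix.mul_apply, Matrix.of_apply, Matrix.add_apply, Matrix.smul_apply, Pi.smul_apply, smul_eq_mul]
  fun_prop

/-- U03a. entries of gU r s are bounded when |r|, |s| ≤ C (exp (±r) ≤ exp C): explicit entries, or continuity of (r,s) ↦ gU r s and compactness of [-C,C]^2. -/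
theorem gU_bound (C : ℝ) : ∃ C' : ℝ, ∀ r s : ℝ, |r| ≤ C → |s| ≤ C → ∀ i j, |gU r s i j| ≤ C' := by
  have hK : IsCompact (Set.Icc (-C) C ×ˢ Set.Icc (-C) C : Set (ℝ × ℝ)) := isCompact_Icc.prod isCompact_Icc
  have h1 : ∀ i j : Fin 7, ∃ c : ℝ, ∀ p ∈ (Set.Icc (-C) C ×ˢ Set.Icc (-C) C : Set (ℝ × ℝ)), ‖gU p.1 p.2 i j‖ ≤ c :=
    fun i j => hK.exists_bound_of_continuousOn (U03_cont i j).continuousOn
  choose c hc using h1
  refine ⟨∑ i, ∑ j, |c i j|, ?_⟩
  intro r s hr hs i j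
  have h2 := hc i j (r, s) ⟨abs_le.mp hr, abs_le.mp hs⟩
  rw [Real.norm_eq_abs] at h2
  have h3 : |c i j| ≤ ∑ j, |c i j| :=
    Finset.single_le_sum (f := fun j => |c i j|) (fun _ _ => abs_nonneg _) (Finset.mem_univ j)
  have h4 : ∑ j, |c i j| ≤ ∑ i, ∑ j, |c i j| :=
    Finset.single_le_sum (f := fun i => ∑ j, |c i j|)
      (fun _ _ => Finset.sum_nonneg (fun _ _ => abs_nonneg _)) (Finset.mem_univ i)
  exact (h2.trans (le_abs_self _)).trans (h3.trans h4)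

private theorem U03_set (r1 s1 r2 s2 : ℝ) (h : r1 * s2 - r2 * s1 = 0) :
    ∃ (A : Set (ℤ × ℤ)) (C : ℝ), A.Infinite ∧ ∀ p ∈ A, |(p.1 : ℝ) * r1 + p.2 * r2| ≤ C ∧
      |(p.1 : ℝ) * s1 + p.2 * s2| ≤ C := by
  by_cases hr : r1 = 0
  · by_cases hs : s1 = 0
    · refine ⟨Set.range (fun m : ℤ => ((m, 0) : ℤ × ℤ)), 0, ?_, ?_⟩
      · exact Set.infinite_range_of_injective (fun a b hab => (Prod.mk.inj hab).1)
      · rintro _ ⟨m, rfl⟩
        simp [hr, hs]
    · have hr2 : r2 = 0 := by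
        rw [hr] at h
        have : r2 * s1 = 0 := by linarith
        rcases mul_eq_zero.mp this with h' | h'
        · exact h'
        · exact absurd h' hs
      refine ⟨_, |s1|, d2_pig s1 s2, ?_⟩
      intro p hp
      refine ⟨?_, hp⟩
      rw [hr, hr2]
      simp
  · have hk : s2 = r2 / r1 * s1 := by
      field_simp
      linarith
    refine ⟨_, |r1| + |s1|, d2_pig 1 (r2 / r1), ?_⟩
    intro p hp
    have hp' : |(p.1 : ℝ) * 1 + p.2 * (r2 / r1)| ≤ 1 := by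
      have := hp
      simpa using this
    have e1 : (p.1 : ℝ) * r1 + p.2 * r2 = ((p.1 : ℝ) * 1 + p.2 * (r2 / r1)) * r1 := by
      field_simp
    have e2 : (p.1 : ℝ) * s1 + p.2 * s2 = ((p.1 : ℝ) * 1 + p.2 * (r2 / r1)) * s1 := by
      rw [hk]; ring
    constructor
    · rw [e1, abs_mul]
      nlinarith [abs_nonneg r1, abs_nonneg s1, mul_le_mul_of_nonneg_right hp' (abs_nonneg r1)]
    · rw [e2, abs_mul]
      nlinarith [abs_nonneg r1, abs_nonneg s1, mul_le_mul_of_nonneg_right hp' (abs_nonneg s1)]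

/-- U03b. Suppose r1 s2 = r2 s1. If (r1,s1) = 0 then all zel m 0 have linear part gU 0 0 = 1: d2_disc_contra. Otherwise (r2,s2) = k (r1,s1) and
A = {p | |p.1 * 1 + p.2 * k| ≤ |1|} is infinite (d2_pig) and the linear parts gU ((m + n k) r1) ((m + n k) s1) are bounded (gU_bound), with inverses
lin (zel (-m) (-n)) (gU_zel, zel_inv, d2_lin_inv): d2_disc_contra. -/
theorem d2_U_indep {Γ : Subgroup (V ≃ᵃ[ℝ] V)} {α β : V ≃ᵃ[ℝ] V} (h : Z2 Γ α β) (r1 s1 r2 s2 : ℝ)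
    (h1 : lin α = gU r1 s1) (k1 : lin β = gU r2 s2) : r1 * s2 - r2 * s1 ≠ 0 := by
  intro h0
  obtain ⟨A, C, hA, hb⟩ := U03_set r1 s1 r2 s2 h0
  obtain ⟨C', hC'⟩ := gU_bound C
  refine d2_disc_contra h A hA C' ?_ ?_
  · intro p hp i j
    rw [gU_zel r1 s1 r2 s2 α β h1 k1]
    exact hC' _ _ (hb p hp).1 (hb p hp).2 i j
  · intro p hp i j
    rw [← d2_lin_inv, zel_inv h, gU_zel r1 s1 r2 s2 α β h1 k1]
    apply hC'
    · have e : ((-p.1 : ℤ) : ℝ) * r1 + ((-p.2 : ℤ) : ℝ) * r2 = -((p.1 : ℝ) * r1 + p.2 * r2) := by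
        push_cast; ring
      rw [e, abs_neg]
      exact (hb p hp).1
    · have e : ((-p.1 : ℤ) : ℝ) * s1 + ((-p.2 : ℤ) : ℝ) * s2 = -((p.1 : ℝ) * s1 + p.2 * s2) := by
        push_cast; ring
      rw [e, abs_neg]
      exact (hb p hp).2

end C37
end

section

/-!
MP_c37615_al (S02984), part D-IIa: task U04 (the unipotent case: contradiction)
-/

set_option autoImplicit false

open Filter Topology Polynomial

namespace C37

/-- U04a. UU with μ = 0 is bounded when |s| ≤ C. -/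
theorem UU_bound (μ ν η κ C : ℝ) : ∃ C1 : ℝ, ∀ r s : ℝ, |s| ≤ C → ‖UU μ ν η κ r s - (r * μ) • x1‖ ≤ C1 := by
  have hc : Continuous (fun s : ℝ => (ν * s + η * s ^ 2 - κ * s ^ 3 / 3) • x1 + (η * s - κ * s ^ 2 / 2) • va
      + (κ * s) • y1) := by fun_prop
  obtain ⟨C1, h1⟩ := (isCompact_Icc (a := -C) (b := C)).exists_bound_of_continuousOn hc.continuousOn
  refine ⟨C1, ?_⟩
  intro r s hs
  have h2 := h1 s (abs_le.mp hs)
  have e : UU μ ν η κ r s - (r * μ) • x1 = (ν * s + η * s ^ 2 - κ * s ^ 3 / 3) • x1 + (η * s - κ * s ^ 2 / 2) • va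
      + (κ * s) • y1 := by
    unfold UU
    module
  rw [e]
  exact h2

/-- U04b. UU_exists (hcomm from α * β = β * α, d2_tv_mul; hD from d2_U_indep) gives μ, ν, η, κ; UU_zel. If μ = 0: A = {p | |p.1 s1 + p.2 s2| ≤ |s1|} is infinite
(d2_pig), zel m n maps 0 to UU.. which is bounded on A (UU_bound): d2_proper_contra with o = 0. If μ ≠ 0: D_alpha (D/DI.lean) with
C0 = |s1| + |s2|: for t and j choose m_j, n_j by d2_lattice (R = j), γ j = zel m_j n_j, r j = m_j r1 + n_j r2 ≥ j - (|r1|+|r2|) → ∞,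
s j = m_j s1 + n_j s2 within C0 of t; UU_bound with C = |t| + C0. -/
theorem d2_case3_unip {Γ : Subgroup (V ≃ᵃ[ℝ] V)} {α β : V ≃ᵃ[ℝ] V} (h : Z2 Γ α β) (r1 s1 r2 s2 : ℝ)
    (h1 : lin α = gU r1 s1) (k1 : lin β = gU r2 s2) (h2 : tv α ∈ E00) (k2 : tv β ∈ E00) : False := by
  have hD := d2_U_indep h r1 s1 r2 s2 h1 k1
  have hcomm : (gU r1 s1).mulVec (tv β) + tv α = (gU r2 s2).mulVec (tv α) + tv β := by
    rw [← h1, ← k1, ← d2_tv_mul, ← d2_tv_mul, h.comm]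
  obtain ⟨μ, ν, η, κ, e1, e2⟩ := UU_exists r1 s1 r2 s2 hD (tv α) (tv β) h2 k2 hcomm
  have hz := fun m n : ℤ => UU_zel μ ν η κ r1 s1 r2 s2 α β h1 e1 k1 e2 m n
  by_cases hμ : μ = 0
  · obtain ⟨C1, hC1⟩ := UU_bound μ ν η κ |s1|
    refine d2_proper_contra h _ (d2_pig s1 s2) 0 C1 ?_
    intro p hp
    have h3 := hC1 ((p.1 : ℝ) * r1 + p.2 * r2) _ hp
    rw [hμ, mul_zero, zero_smul, sub_zero] at h3
    have h4 : zel α β p.1 p.2 0 = tv (zel α β p.1 p.2) := rfl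
    rw [h4, (hz p.1 p.2).2, hμ]
    exact h3
  · refine D_alpha Γ h.cryst μ hμ (|s1| + |s2|) ?_
    intro t
    choose m n hm hn using fun j : ℕ => d2_lattice r1 s1 r2 s2 hD (j : ℝ) t
    obtain ⟨C1, hC1⟩ := UU_bound μ ν η κ (|t| + (|s1| + |s2|))
    refine ⟨fun j => zel α β (m j) (n j), fun j => (m j : ℝ) * r1 + (n j : ℝ) * r2,
      fun j => (m j : ℝ) * s1 + (n j : ℝ) * s2, fun j => zel_mem h _ _, ?_, hn, fun j => (hz _ _).1, C1, ?_⟩
    · refine tendsto_atTop_mono (f := fun j : ℕ => (j : ℝ) - (|r1| + |r2|)) ?_ ?_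
      · intro j
        have := (abs_le.mp (hm j)).1
        linarith
      · exact tendsto_atTop_add_const_right _ _ tendsto_natCast_atTop_atTop
    · intro j
      simp only
      rw [(hz (m j) (n j)).2]
      apply hC1
      have := hn j
      calc |(m j : ℝ) * s1 + (n j : ℝ) * s2| = |t + ((m j : ℝ) * s1 + (n j : ℝ) * s2 - t)| := by ring_nf
        _ ≤ |t| + |(m j : ℝ) * s1 + (n j : ℝ) * s2 - t| := abs_add_le _ _
        _ ≤ |t| + (|s1| + |s2|) := by linarith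

end C37
end

section

/-!
MP_c37615_al (S02984), part D-IIa: task X01 (unipotent type: reduction to U04)
-/

set_option autoImplicit false

open Filter Topology Polynomial

namespace C37

private theorem X01_det (r s : ℝ) : (D2m r s).det ≠ 0 := by
  unfold D2m
  rw [Matrix.det_fin_two_of, zero_mul, sub_zero]
  positivity

private theorem X01_inv (Q : M2) (hQ : Q.det ≠ 0) : (jT Q)⁻¹ = jT Q⁻¹ := by
  apply Matrix.inv_eq_right_inv
  have hQu : IsUnit Q.det := isUnit_iff_ne_zero.mpr hQ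
  have hQi : Q⁻¹.det ≠ 0 := by
    have h := congrArg Matrix.det (Matrix.mul_nonsing_inv Q hQu)
    rw [Matrix.det_mul, Matrix.det_one] at h
    intro h0
    rw [h0, mul_zero] at h
    exact zero_ne_one h
  rw [d2_jT_mul Q Q⁻¹ hQ hQi, Matrix.mul_nonsing_inv Q hQu, d2_jT_one]

private theorem X01_lin {α δ : V ≃ᵃ[ℝ] V} (T Q : M2) (r s : ℝ) (hT : T.det ≠ 0) (hQ : Q.det ≠ 0)
    (hα : lin α = jT T) (hδ : lin δ = (jT Q)⁻¹) (hc : T * T * Q = Q * D2m r s) (hQG : IsUnit (jT Q).det) :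
    lin (δ * α ^ 2 * δ⁻¹) = gU r s := by
  have hTT : (T * T).det ≠ 0 := by rw [Matrix.det_mul]; exact mul_ne_zero hT hT
  rw [d2_lin_mul, d2_lin_mul, d2_lin_inv, hδ, d2_lin_pow, hα, pow_two, Matrix.nonsing_inv_nonsing_inv _ hQG,
    d2_jT_mul T T hT hT, mul_assoc, d2_jT_mul (T * T) Q hTT hQ, hc, ← d2_jT_mul Q _ hQ (X01_det r s),
    ← mul_assoc, Matrix.nonsing_inv_mul _ hQG, one_mul]
  unfold gU
  rw [d2_jT_unip]
  rfl

private theorem X01_tv {α δ : V ≃ᵃ[ℝ] V} (T Q : M2) (hQ : Q.det ≠ 0)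
    (hα : lin α = jT T) (tα : tv α ∈ E00) (hδ2 : ∀ v, δ v = (jT Q)⁻¹.mulVec (v - 0))
    (hδ3 : ∀ v, δ⁻¹ v = (jT Q).mulVec v + 0) : tv (δ * α ^ 2 * δ⁻¹) ∈ E00 := by
  have e1 : tv (δ * α ^ 2 * δ⁻¹) = (jT Q)⁻¹.mulVec (tv (α ^ 2)) := by
    show δ ((α ^ 2) (δ⁻¹ 0)) = _
    rw [hδ3, hδ2, Matrix.mulVec_zero, zero_add, sub_zero]
    rfl
  rw [e1, X01_inv Q hQ, pow_two, d2_tv_mul, hα]
  exact d2_jT_E00 _ _ (Submodule.add_mem _ (d2_jT_E00 _ _ tα) tα)

/-- X01. T, U commute (d2_jT_mul, d2_jT_inj, lin α lin β = lin β lin α). Q, r1, s1, r2, s2 from d2_unip_conj. δ from d2_mk_aff for g = jT Q (InG: d2_jT_InG) and o = 0: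
lin δ = (jT Q)⁻¹ = jT Q⁻¹. lin (δ α^2 δ⁻¹) = jT (Q⁻¹ T T Q) = jT (D2m r1 s1) = gU r1 s1 (d2_jT_unip), tv (δ α^2 δ⁻¹) = (jT Q)⁻¹ (tv (α^2)) ∈ E00
(tv (α^2) = lin α (tv α) + tv α, d2_jT_E00). Z2.sq, Z2.conj, d2_case3_unip. -/
theorem d2_unip_fin {Γ : Subgroup (V ≃ᵃ[ℝ] V)} {α β : V ≃ᵃ[ℝ] V} (h : Z2 Γ α β) (T U : M2) (hT : T.det ≠ 0) (hU : U.det ≠ 0)
    (hα : lin α = jT T) (hβ : lin β = jT U) (tα : tv α ∈ E00) (tβ : tv β ∈ E00) (hu : UnipType T) : False := by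
  have hTU : T * U = U * T := by
    apply d2_jT_inj
    rw [← d2_jT_mul T U hT hU, ← d2_jT_mul U T hU hT, ← hα, ← hβ, ← d2_lin_mul, ← d2_lin_mul, h.comm]
  obtain ⟨Q, r1, s1, r2, s2, hQ, c1, c2⟩ := d2_unip_conj T U hU hTU hu
  have hQG := d2_jT_InG Q hQ
  have hQd := d2_InG_det hQG
  obtain ⟨δ, hδ1, hδ2, hδ3⟩ := d2_mk_aff (jT Q) hQd 0
  have hδG : InG (lin δ) := by rw [hδ1]; exact d2_InG_inv hQG
  exact d2_case3_unip (h.sq.conj δ hδG) r1 s1 r2 s2
    (X01_lin T Q r1 s1 hT hQ hα hδ1 c1 hQd) (X01_lin U Q r2 s2 hU hQ hβ hδ1 c2 hQd)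
    (X01_tv T Q hQ hα tα hδ2 hδ3) (X01_tv U Q hQ hβ tβ hδ2 hδ3)

end C37
end

section

/-!
MP_c37615_al (S02984), part D-IIa: task M04 (minimal pairs)
-/

set_option autoImplicit false

open Filter Topology Polynomial

namespace C37

/-- M04. Let P1,P2,P3 (Q1,Q2,Q3) be the projections of g (of h), dyn_proj; all Pi commute with h, Qj commute with h hence, as Pi
commutes with h, Qj * Pi = Pi * Qj. Choose k ≥ k0 of Vlt_pow_mul for (g,h,P1) and for (g⁻¹,h⁻¹,P3). Note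
(g^k h)⁻¹ = (g⁻¹)^k h⁻¹ (they commute). Let v ∈ Veq (g^k h). v = P1 v + P3 v + P2 Q1 v + P2 Q2 v + P2 Q3 v.
a := P1 v + P2 Q1 v ∈ Vlt (g^k h); c := P3 v + P2 Q3 v ∈ Vlt (g^k h)⁻¹; b := P2 Q2 v ∈ Veq (g^k h) (Vsub_pow_mul twice).
(-a) + (v - b) + (-c) = 0 so a = 0, c = 0, v = b by dyn_indep. b = P2 (Q2 v) ∈ Veq g; b = Q2 (P2 v) ∈ Veq h. -/
theorem dyn_min_pair {g h : Mat} (hg : InG g) (hh : InG h) (hc : g * h = h * g) :
    ∃ k : ℕ, Veq (g ^ k * h) ≤ Veq g ⊓ Veq h := by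
  have dg := d2_InG_det hg
  have dh := d2_InG_det hh
  obtain ⟨P1, P2, P3, hs, hP1, hP2, hP3, hPc⟩ := dyn_proj g dg
  obtain ⟨Q1, Q2, Q3, hs', hQ1, hQ2, hQ3, hQc⟩ := dyn_proj h dh
  obtain ⟨c1, c2, c3⟩ := hPc h hc.symm
  have hQ2P2 : P2 * Q2 = Q2 * P2 := (hQc P2 c2.symm).2.1
  -- inverses
  have hci : g⁻¹ * h⁻¹ = h⁻¹ * g⁻¹ := by
    have h1 : g * h⁻¹ = h⁻¹ * g := d2_comm_inv dh hc
    exact (d2_comm_inv dg h1.symm).symm
  have c2' : h⁻¹ * P2 = P2 * h⁻¹ := (d2_comm_inv dh c2.symm).symm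
  obtain ⟨k1, hk1⟩ := Vlt_pow_mul g h P1 hc hP1
  obtain ⟨k2, hk2⟩ := Vlt_pow_mul g⁻¹ h⁻¹ P3 hci hP3
  obtain ⟨k, hk⟩ : ∃ k, k = max k1 k2 := ⟨_, rfl⟩
  have hinv : (g ^ k * h)⁻¹ = g⁻¹ ^ k * h⁻¹ := by
    rw [Matrix.mul_inv_rev, ← Matrix.inv_pow']
    exact (Commute.pow_left hci k).symm
  have hF : InG (g ^ k * h) := d2_InG_mul (d2_InG_pow hg k) hh
  refine ⟨k, fun v hv => ?_⟩
  have ha : P1.mulVec v + P2.mulVec (Q1.mulVec v) ∈ Vlt (g ^ k * h) :=
    (Vlt _).add_mem (hk1 k (by rw [hk]; exact le_max_left _ _) v)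
      (Vlt_pow_mul' g h P2 Q1 hc c2 (fun v => (mem_Veq.1 (hP2 v)).1) hQ1 k v)
  have hcc : P3.mulVec v + P2.mulVec (Q3.mulVec v) ∈ Vlt (g ^ k * h)⁻¹ := by
    rw [hinv]
    exact (Vlt _).add_mem (hk2 k (by rw [hk]; exact le_max_right _ _) v)
      (Vlt_pow_mul' g⁻¹ h⁻¹ P2 Q3 hci c2' (fun v => (mem_Veq.1 (hP2 v)).2) hQ3 k v)
  have hb : P2.mulVec (Q2.mulVec v) ∈ Veq (g ^ k * h) := by
    rw [mem_Veq]
    refine ⟨Vsub_pow_mul g h P2 Q2 hc c2 (fun v => (mem_Veq.1 (hP2 v)).1)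
      (fun v => (mem_Veq.1 (hQ2 v)).1) k v, ?_⟩
    rw [hinv]
    exact Vsub_pow_mul g⁻¹ h⁻¹ P2 Q2 hci c2' (fun v => (mem_Veq.1 (hP2 v)).2)
      (fun v => (mem_Veq.1 (hQ2 v)).2) k v
  have e1 : v = P1.mulVec v + P2.mulVec v + P3.mulVec v := by
    rw [← Matrix.add_mulVec, ← Matrix.add_mulVec, hs, Matrix.one_mulVec]
  have e2 : v = Q1.mulVec v + Q2.mulVec v + Q3.mulVec v := by
    rw [← Matrix.add_mulVec, ← Matrix.add_mulVec, hs', Matrix.one_mulVec]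
  have e3 : P2.mulVec v = P2.mulVec (Q1.mulVec v) + P2.mulVec (Q2.mulVec v) +
      P2.mulVec (Q3.mulVec v) := by
    conv_lhs => rw [e2]
    rw [Matrix.mulVec_add, Matrix.mulVec_add]
  obtain ⟨a, ea⟩ : ∃ a, a = P1.mulVec v + P2.mulVec (Q1.mulVec v) := ⟨_, rfl⟩
  obtain ⟨b, eb⟩ : ∃ b, b = P2.mulVec (Q2.mulVec v) := ⟨_, rfl⟩
  obtain ⟨c, ec⟩ : ∃ c, c = P3.mulVec v + P2.mulVec (Q3.mulVec v) := ⟨_, rfl⟩
  rw [← ea] at ha
  rw [← ec] at hcc
  rw [← eb] at hb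
  have e4 : v = a + b + c := by
    rw [ea, eb, ec]
    conv_lhs => rw [e1, e3]
    abel
  have e5 : (-a) + (v - b) + (-c) = 0 := by
    conv_lhs => rw [e4]
    abel
  have h6 := dyn_indep hF ((Vlt _).neg_mem ha) ((Veq _).sub_mem hv hb) ((Vlt _).neg_mem hcc) e5
  have h7 : v = b := sub_eq_zero.1 h6.2.1
  rw [Submodule.mem_inf]
  rw [h7]
  refine ⟨?_, ?_⟩
  · rw [eb]
    exact hP2 _
  · rw [eb, Matrix.mulVec_mulVec, hQ2P2, ← Matrix.mulVec_mulVec]
    exact hQ2 _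

end C37
end

section

/-!
MP_c37615_al (S02984), part D-IIa: task Z04 (minimal element)
-/

set_option autoImplicit false

open Filter Topology Polynomial

namespace C37

/-- Z04. Choose (m0, n0) with finrank (Veq (lin (zel m n))) minimal (Nat.find / WellFounded.min on the range). t = zel m0 n0. For s = zel m n:
dyn_min_pair for (lin t, lin s) gives k with Veq (lin t ^ k * lin s) ≤ Veq (lin t) ⊓ Veq (lin s), and lin t ^ k * lin s = lin (t^k * s) = lin (zel ..).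
Minimality: finrank Veq (lin t) ≤ finrank Veq (lin (t^k s)) ≤ finrank (Veq (lin t) ⊓ Veq (lin s)), so the inf is Veq (lin t)
(Submodule.eq_of_le_of_finrank_le), so Veq (lin t) ≤ Veq (lin s). -/
theorem d2_min {Γ : Subgroup (V ≃ᵃ[ℝ] V)} {α β : V ≃ᵃ[ℝ] V} (h : Z2 Γ α β) :
    ∃ m0 n0 : ℤ, ∀ m n : ℤ, Veq (lin (zel α β m0 n0)) ≤ Veq (lin (zel α β m n)) := by
  obtain ⟨⟨m0, n0⟩, hmin⟩ : ∃ p : ℤ × ℤ, ∀ q : ℤ × ℤ,
      Module.finrank ℝ (Veq (lin (zel α β p.1 p.2))) ≤ Module.finrank ℝ (Veq (lin (zel α β q.1 q.2))) := by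
    have hne : (Set.range fun p : ℤ × ℤ => Module.finrank ℝ (Veq (lin (zel α β p.1 p.2)))).Nonempty :=
      Set.range_nonempty _
    obtain ⟨p, hp⟩ := Nat.sInf_mem hne
    refine ⟨p, fun q => ?_⟩
    have : Module.finrank ℝ (Veq (lin (zel α β p.1 p.2))) =
        sInf (Set.range fun p : ℤ × ℤ => Module.finrank ℝ (Veq (lin (zel α β p.1 p.2)))) := hp
    rw [this]
    exact Nat.sInf_le ⟨q, rfl⟩
  refine ⟨m0, n0, ?_⟩
  intro m n
  have hpow : ∀ k : ℕ, (zel α β m0 n0) ^ k * zel α β m n = zel α β (k * m0 + m) (k * n0 + n) := by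
    intro k
    induction k with
    | zero => simp
    | succ k ih =>
      rw [pow_succ', mul_assoc, ih, zel_mul h]
      congr 1 <;> push_cast <;> ring
  have hg := d2_InG_lin h.cryst (zel_mem h m0 n0)
  have hh := d2_InG_lin h.cryst (zel_mem h m n)
  have hc : lin (zel α β m0 n0) * lin (zel α β m n) = lin (zel α β m n) * lin (zel α β m0 n0) := by
    rw [← d2_lin_mul, ← d2_lin_mul, zel_mul h, zel_mul h, add_comm m0 m, add_comm n0 n]
  obtain ⟨k, hk⟩ := dyn_min_pair hg hh hc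
  rw [← d2_lin_pow, ← d2_lin_mul, hpow k] at hk
  have h1 := hmin (k * m0 + m, k * n0 + n)
  have h2 : Module.finrank ℝ (Veq (lin (zel α β m0 n0))) ≤
      Module.finrank ℝ ((Veq (lin (zel α β m0 n0)) ⊓ Veq (lin (zel α β m n)) : Submodule ℝ V)) :=
    h1.trans (Submodule.finrank_mono hk)
  have h3 := Submodule.eq_of_le_of_finrank_le inf_le_left h2
  rw [← h3]
  exact inf_le_right

end C37
end

section

/-!
MP_c37615_al (S02984), part D-IIa: task Z05 (the case dim V_{=1} = 1)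
-/

set_option autoImplicit false

open Filter Topology Polynomial

namespace C37

theorem Z05_zpow (s : V ≃ᵃ[ℝ] V) (o e : V) (a : ℝ) (h : ∀ x : ℝ, s (o + x • e) = o + (x + a) • e) (m : ℤ) :
    ∀ x : ℝ, (s ^ m) (o + x • e) = o + (x + m * a) • e := by
  have hinv : ∀ x : ℝ, s⁻¹ (o + x • e) = o + (x - a) • e := by
    intro x
    have h1 := h (x - a)
    rw [sub_add_cancel] at h1
    rw [← h1]
    exact s.symm_apply_apply _
  induction m using Int.induction_on with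
  | zero =>
    intro x
    simp
  | succ k ih =>
    intro x
    rw [zpow_add_one]
    show (s ^ (k : ℤ)) (s (o + x • e)) = _
    rw [h, ih]
    congr 2
    push_cast
    ring
  | pred k ih =>
    intro x
    rw [zpow_sub_one]
    show (s ^ (-(k : ℤ))) (s⁻¹ (o + x • e)) = _
    rw [hinv, ih]
    congr 2
    push_cast
    ring

theorem Z05_step (α t : V ≃ᵃ[ℝ] V) (hα : InG (lin α)) (hc : α * t = t * α) (o e : V)
    (he : e ∈ Veq (lin t)) (hspan : ∀ w ∈ Veq (lin t), ∃ c : ℝ, w = c • e) (hee : B e e ≠ 0)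
    (ho : ∀ s : V ≃ᵃ[ℝ] V, s * t = t * s → s o - o ∈ Veq (lin t)) :
    ∃ a : ℝ, ∀ x : ℝ, (α ^ 2) (o + x • e) = o + (x + a) • e := by
  have hcl : lin α * lin t = lin t * lin α := by rw [← d2_lin_mul, ← d2_lin_mul, hc]
  obtain ⟨c, hcc⟩ := hspan _ (Veq_comm (d2_lin_det t) hcl he)
  have hc1 : c * c = 1 := by
    have h1 := d2_B_inv hα e e
    rw [hcc, d2_B_smul_left, d2_B_smul_right] at h1
    have h2 : (c * c - 1) * B e e = 0 := by linear_combination h1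
    rcases mul_eq_zero.1 h2 with h3 | h3
    · linarith
    · exact absurd h3 hee
  have he2 : (lin (α ^ 2)).mulVec e = e := by
    rw [d2_lin_pow, pow_two, ← Matrix.mulVec_mulVec, hcc, Matrix.mulVec_smul, hcc, smul_smul, hc1, one_smul]
  have hcomm2 : α ^ 2 * t = t * α ^ 2 := by
    rw [pow_two, mul_assoc, hc, ← mul_assoc, hc, mul_assoc]
  obtain ⟨a, ha⟩ := hspan _ (ho _ hcomm2)
  refine ⟨a, fun x => ?_⟩
  have h3 : (α ^ 2) o = o + a • e := by rw [← ha]; abel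
  rw [d2_apply_add, h3, Matrix.mulVec_smul, he2]
  module

/-- Z05. Veq (lin t) = ℝ e, e ≠ 0, B e e ≠ 0 (Veq_nondeg). lin α e = c e with c^2 = 1 (Veq_comm, d2_B_inv), so lin (α^2) e = e, same for β.
o from aff_point: α^2 o = o + a e, β^2 o = o + b e. Then α^(2m) β^(2n) o = o + (m a + n b) e for all m n ∈ ℤ. Use Z2.sq, d2_pig a b and
d2_proper_contra with C = ‖o‖ + |a| ‖e‖. -/
theorem d2_case1 {Γ : Subgroup (V ≃ᵃ[ℝ] V)} {α β : V ≃ᵃ[ℝ] V} (h : Z2 Γ α β) (t : V ≃ᵃ[ℝ] V) (ht : t ∈ Γ)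
    (htα : α * t = t * α) (htβ : β * t = t * β) (h1 : Module.finrank ℝ (Veq (lin t)) = 1) : False := by
  have hgt := d2_InG_lin h.cryst ht
  obtain ⟨⟨e, he⟩, hne, hsp⟩ := finrank_eq_one_iff'.1 h1
  have he0 : e ≠ 0 := by
    intro h0
    apply hne
    exact Subtype.ext h0
  have hspan : ∀ w ∈ Veq (lin t), ∃ c : ℝ, w = c • e := by
    intro w hw
    obtain ⟨c, hc⟩ := hsp ⟨w, hw⟩
    refine ⟨c, ?_⟩
    have := congrArg Subtype.val hc
    exact this.symm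
  have hee : B e e ≠ 0 := by
    intro h0
    apply he0
    apply Veq_nondeg hgt he
    intro v hv
    obtain ⟨c, rfl⟩ := hspan v hv
    rw [d2_B_smul_right, h0, mul_zero]
  obtain ⟨o, ho⟩ := aff_point t hgt
  obtain ⟨a, ha⟩ := Z05_step α t (d2_InG_lin h.cryst h.ha) htα o e he hspan hee ho
  obtain ⟨b, hb⟩ := Z05_step β t (d2_InG_lin h.cryst h.hb) htβ o e he hspan hee ho
  refine d2_proper_contra h.sq _ (d2_pig a b) o (‖o‖ + |a| * ‖e‖) ?_
  intro p hp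
  have h2 : zel (α ^ 2) (β ^ 2) p.1 p.2 o = o + ((p.1 : ℝ) * a + (p.2 : ℝ) * b) • e := by
    have e1 := Z05_zpow (β ^ 2) o e b hb p.2 0
    have e2 := Z05_zpow (α ^ 2) o e a ha p.1 (0 + (p.2 : ℝ) * b)
    show ((α ^ 2) ^ p.1) (((β ^ 2) ^ p.2) o) = _
    have e3 : o + (0 : ℝ) • e = o := by rw [zero_smul, add_zero]
    rw [e3] at e1
    rw [e1, e2]
    congr 2
    ring
  rw [h2]
  refine (norm_add_le _ _).trans ?_
  rw [norm_smul, Real.norm_eq_abs]
  have h3 : |(p.1 : ℝ) * a + (p.2 : ℝ) * b| ≤ |a| := hp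
  have := mul_le_mul_of_nonneg_right h3 (norm_nonneg e)
  linarith

end C37
end

section

/-!
MP_c37615_al (S02984), part D-IIa: exports (paper 6.4.1-6.4.3)
-/

set_option autoImplicit false

open Filter Topology

namespace C37

theorem zel_one_zero (α β : V ≃ᵃ[ℝ] V) : zel α β 1 0 = α := by simp [zel]
theorem zel_zero_one (α β : V ≃ᵃ[ℝ] V) : zel α β 0 1 = β := by simp [zel]

/-- the case dim V_{=1} = 3, in standard form -/
theorem d2_case3 {Γ : Subgroup (V ≃ᵃ[ℝ] V)} {α β : V ≃ᵃ[ℝ] V} (h : Z2 Γ α β) (T U : M2) (hT : T.det ≠ 0)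
    (hU : U.det ≠ 0) (hα : lin α = jT T) (hβ : lin β = jT U) (tα : tv α ∈ E00) (tβ : tv β ∈ E00)
    (hE : ∀ m n : ℤ, E00 ≤ Veq (lin (zel α β m n))) : False := by
  have e1 : E00 ≤ Vsub (jT T) := by
    have := hE 1 0
    rw [zel_one_zero, hα] at this
    exact this.trans inf_le_left
  have e2 : E00 ≤ Vsub (jT U) := by
    have := hE 0 1
    rw [zel_zero_one, hβ] at this
    exact this.trans inf_le_left
  rcases d2_T_cases T hT (d2_growth_T T hT e1) with bT | uT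
  · rcases d2_T_cases U hU (d2_growth_T U hU e2) with bU | uU
    · exact d2_bb h T U hT hU hα hβ bT bU
    · exact d2_unip_fin h.swap U T hU hT hβ hα tβ tα uU
  · exact d2_unip_fin h T U hT hU hα hβ tα tβ uT

/-- all dynamical spaces V_{=1} are everything -/
theorem D2A_top {Γ : Subgroup (V ≃ᵃ[ℝ] V)} {α β : V ≃ᵃ[ℝ] V} (h : Z2 Γ α β) (m n : ℤ) :
    Veq (lin (zel α β m n)) = ⊤ := by
  obtain ⟨m0, n0, hmin⟩ := d2_min h
  have ht : zel α β m0 n0 ∈ Γ := zel_mem h m0 n0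
  have hα : α * zel α β m0 n0 = zel α β m0 n0 * α := by
    have h1 := zel_mul h 1 0 m0 n0
    have h2 := zel_mul h m0 n0 1 0
    rw [zel_one_zero] at h1 h2
    rw [h1, h2]
    congr 1 <;> ring
  have hβ : β * zel α β m0 n0 = zel α β m0 n0 * β := by
    have h1 := zel_mul h 0 1 m0 n0
    have h2 := zel_mul h m0 n0 0 1
    rw [zel_zero_one] at h1 h2
    rw [h1, h2]
    congr 1 <;> ring
  rcases dyn_cases (d2_InG_lin h.cryst ht) with h7 | h1 | ⟨h3, h2, h2'⟩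
  · exact top_le_iff.mp (h7 ▸ hmin m n)
  · exact (d2_case1 h _ ht hα hβ h1).elim
  · obtain ⟨δ, T, U, hδ, hT, hU, lα, lβ, tα, tβ, hE⟩ := d2_standard h _ ht hα hβ hmin h3 h2 h2'
    exact (d2_case3 (h.conj δ hδ) T U hT hU lα lβ tα tβ hE).elim

/-- EXPORT: all eigenvalues have modulus one -/
theorem D2A_main (Γ : Subgroup (V ≃ᵃ[ℝ] V)) (h : Cryst Γ) (α β : V ≃ᵃ[ℝ] V) (hα : α ∈ Γ) (hβ : β ∈ Γ)
    (hcomm : α * β = β * α) (hinj : ∀ m n : ℤ, α ^ m * β ^ n = 1 → m = 0 ∧ n = 0) :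
    ∀ m n : ℤ, ∀ z : ℂ, ((lin (α ^ m * β ^ n)).charpoly.map (algebraMap ℝ ℂ)).IsRoot z → ‖z‖ = 1 := by
  intro m n z hz
  have hZ : Z2 Γ α β := ⟨h, hα, hβ, hcomm, hinj⟩
  exact d2_eig (lin (α ^ m * β ^ n)) (d2_lin_det _) (D2A_top hZ m n) z hz

/-- eigenvalues of modulus one, eigenvector form -/
theorem d2_EV (g : Mat) (hg : IsUnit g.det) (h : Veq g = ⊤) (z : ℂ) (w : Fin 7 → ℂ) (hw : w ≠ 0)
    (hz : (g.map (algebraMap ℝ ℂ)).mulVec w = z • w) : ‖z‖ = 1 := by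
  have hz' : (cmat g).mulVec w = z • w := hz
  have h1 : Vsub g = ⊤ := top_le_iff.mp (h ▸ inf_le_left)
  have h2 : Vsub g⁻¹ = ⊤ := top_le_iff.mp (h ▸ inf_le_right)
  have a1 := d2_eig_le g h1 z w hw hz'
  have e1 : cmat g⁻¹ * cmat g = 1 := by
    rw [← cmat_mul, Matrix.nonsing_inv_mul g hg, cmat_one]
  have e2 : z • (cmat g⁻¹).mulVec w = w := by
    rw [← Matrix.mulVec_smul, ← hz', Matrix.mulVec_mulVec, e1, Matrix.one_mulVec]
  have hz0 : z ≠ 0 := by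
    rintro rfl
    rw [zero_smul] at e2
    exact hw e2.symm
  have e3 : (cmat g⁻¹).mulVec w = z⁻¹ • w := by
    rw [← e2, smul_smul, inv_mul_cancel₀ hz0, one_smul, e2]
  have a2 := d2_eig_le g⁻¹ h2 z⁻¹ w hw e3
  rw [norm_inv] at a2
  have h0 : 0 < ‖z‖ := norm_pos_iff.mpr hz0
  have : 1 ≤ ‖z‖ := by
    by_contra hlt
    push Not at hlt
    have := one_lt_inv₀ h0 |>.mpr hlt
    linarith
  linarith

/-- EXPORT: all eigenvalues have modulus one, eigenvector form (interface of helper42: `EV1 (lin (α ^ m * β ^ n))`) -/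
theorem D2A_EV (Γ : Subgroup (V ≃ᵃ[ℝ] V)) (h : Cryst Γ) (α β : V ≃ᵃ[ℝ] V) (hα : α ∈ Γ) (hβ : β ∈ Γ)
    (hcomm : α * β = β * α) (hinj : ∀ m n : ℤ, α ^ m * β ^ n = 1 → m = 0 ∧ n = 0) :
    ∀ m n : ℤ, ∀ (z : ℂ) (w : Fin 7 → ℂ), w ≠ 0 →
      ((lin (α ^ m * β ^ n)).map (algebraMap ℝ ℂ)).mulVec w = z • w → ‖z‖ = 1 := by
  intro m n z w hw hz
  have hZ : Z2 Γ α β := ⟨h, hα, hβ, hcomm, hinj⟩
  exact d2_EV (lin (α ^ m * β ^ n)) (d2_lin_det _) (D2A_top hZ m n) z w hw hz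

/-- EXPORT: growth form -/
theorem D2A_growth (Γ : Subgroup (V ≃ᵃ[ℝ] V)) (h : Cryst Γ) (α β : V ≃ᵃ[ℝ] V) (hα : α ∈ Γ) (hβ : β ∈ Γ)
    (hcomm : α * β = β * α) (hinj : ∀ m n : ℤ, α ^ m * β ^ n = 1 → m = 0 ∧ n = 0) :
    ∀ m n : ℤ, ∀ v : V, ∀ ρ : ℝ, 1 < ρ → ∃ C : ℝ, ∀ k : ℕ, ‖((lin (α ^ m * β ^ n)) ^ k).mulVec v‖ ≤ C * ρ ^ k := by
  intro m n v ρ hρ
  have hZ : Z2 Γ α β := ⟨h, hα, hβ, hcomm, hinj⟩
  have hv : v ∈ Veq (lin (zel α β m n)) := by rw [D2A_top hZ m n]; trivial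
  exact (mem_Veq.mp hv).1 ρ hρ

end C37
end

section

/-!
MP_c37615_al (S02984): exports of PART D
-/

set_option autoImplicit false

open Filter Topology
open scoped ContDiff

namespace C37

/-! ### Part D -/

theorem D_NZ (Γ : Subgroup (V ≃ᵃ[ℝ] V)) (h : Cryst Γ) (α β : V ≃ᵃ[ℝ] V) (hα : α ∈ Γ) (hβ : β ∈ Γ)
    (hcomm : α * β = β * α) (h1 : ¬ IsOfFinOrder α) (h2 : ¬ IsOfFinOrder β) :
    ∃ m n : ℤ, m ≠ 0 ∧ n ≠ 0 ∧ α ^ m = β ^ n := by
  by_contra hnc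
  have hinj := D2A_inj α β hcomm h1 h2 hnc
  have hEV := D2A_EV Γ h α β hα hβ hcomm hinj
  refine DB.nz_core Γ h α β hα hβ hcomm hinj ?_ ?_
  · intro z w hw hz
    refine hEV 1 0 z w hw ?_
    rw [zpow_one, zpow_zero, mul_one]
    exact hz
  · intro z w hw hz
    refine hEV 0 1 z w hw ?_
    rw [zpow_one, zpow_zero, one_mul]
    exact hz

end C37
end

section

set_option autoImplicit false

open Filter Topology
open scoped ContDiff

namespace C37.PC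

/-- The linear part as an injective homomorphism `Γ → GG` with discrete image.
Proof. `L γ = ⟨⟨lin γ, lin γ⁻¹, _, _⟩, lin_inG ..⟩` (`lin_inv`), multiplicative by `lin_mul` (`mat_injective`). Injective: `L γ = L δ` gives
`lin (γ⁻¹ δ) = 1`, so `γ⁻¹ δ = 1` by `R_injective`. Discrete: for `K` compact let `K1 = mat '' K ∪ (fun g => mat g⁻¹) '' K`, compact
(`mat_continuous`, continuity of the inverse in `GG`); `L γ ∈ K` implies `lin γ ∈ K1` and `(lin γ)⁻¹ = mat (L γ)⁻¹ ∈ K1`; apply `R_discrete`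
and pull back along the injective map `Subtype.val`. -/
theorem exists_L (Γ : Subgroup (V ≃ᵃ[ℝ] V)) (h : Cryst Γ) :
    ∃ L : Γ →* GG, (∀ γ : Γ, mat (L γ) = lin (γ : V ≃ᵃ[ℝ] V)) ∧ Function.Injective L ∧ Disc L := by
  let f : Γ → GG := fun γ => ⟨⟨lin (γ : V ≃ᵃ[ℝ] V), lin (γ : V ≃ᵃ[ℝ] V)⁻¹,
    (lin_inv _).1, (lin_inv _).2.1⟩, lin_inG Γ h _ γ.2⟩
  have hf : ∀ γ : Γ, mat (f γ) = lin (γ : V ≃ᵃ[ℝ] V) := fun γ => rfl
  let L : Γ →* GG :=
    { toFun := f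
      map_one' := by
        apply mat_injective
        rw [hf, mat_one]
        exact lin_one
      map_mul' := by
        intro γ δ
        apply mat_injective
        rw [mat_mul, hf, hf, hf]
        exact lin_mul _ _ }
  have hL : ∀ γ : Γ, mat (L γ) = lin (γ : V ≃ᵃ[ℝ] V) := fun γ => rfl
  refine ⟨L, hL, ?_, ?_⟩
  · intro γ δ hγδ
    have h1 : lin (γ : V ≃ᵃ[ℝ] V) = lin (δ : V ≃ᵃ[ℝ] V) := by rw [← hL, ← hL, hγδ]
    have h2 : lin ((γ : V ≃ᵃ[ℝ] V)⁻¹ * (δ : V ≃ᵃ[ℝ] V)) = 1 := by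
      rw [lin_mul, ← h1]; exact (lin_inv _).2.1
    have h3 := R_injective Γ h _ (Γ.mul_mem (Γ.inv_mem γ.2) δ.2) h2
    apply Subtype.ext
    exact (inv_mul_eq_one.mp h3)
  · intro K hK
    have hK1 : IsCompact (mat '' K ∪ (fun g : GG => mat g⁻¹) '' K) :=
      (hK.image mat_continuous).union (hK.image (mat_continuous.comp continuous_inv))
    have hfin := R_discrete Γ h _ hK1
    have : {γ : Γ | L γ ∈ K} ⊆ Subtype.val ⁻¹' {γ : V ≃ᵃ[ℝ] V | γ ∈ Γ ∧
        lin γ ∈ (mat '' K ∪ (fun g : GG => mat g⁻¹) '' K) ∧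
        (lin γ)⁻¹ ∈ (mat '' K ∪ (fun g : GG => mat g⁻¹) '' K)} := by
      intro γ hγ
      refine ⟨γ.2, Or.inl ⟨L γ, hγ, hL γ⟩, Or.inr ⟨L γ, hγ, ?_⟩⟩
      show mat (L γ)⁻¹ = _
      rw [mat_inv, hL]
    exact (hfin.preimage Subtype.val_injective.injOn).subset this

/-- The affine action is good and cocompact.
Proof. `γ v = (lin γ).mulVec v + γ 0`, so `γ` is smooth with derivative the linear map of the matrix `lin γ`, whose determinant is `det (lin γ) = 1` by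
`GX_B` and `lin_inG` (`LinearMap.det_toLin'`, `ContinuousLinearMap.det`). Proper: `h.proper`, pulled back to the subtype. Cocompact: `h.cocompact`. -/
theorem affine_good (Γ : Subgroup (V ≃ᵃ[ℝ] V)) (h : Cryst Γ) :
    GoodAction Γ 7 (fun (γ : Γ) (v : Fin 7 → ℝ) => (γ : V ≃ᵃ[ℝ] V) v) := by
  have hform : ∀ γ : V ≃ᵃ[ℝ] V, ∀ v : V, γ v = LinearMap.toContinuousLinearMap γ.linear.toLinearMap v + γ 0 := by
    intro γ v
    have h1 := γ.toAffineMap.map_vadd 0 v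
    simpa using h1
  have hder : ∀ γ : V ≃ᵃ[ℝ] V, ∀ v : V, HasFDerivAt (fun v : V => γ v)
      (LinearMap.toContinuousLinearMap γ.linear.toLinearMap) v := by
    intro γ v
    have h1 : (fun v : V => γ v) = fun v => LinearMap.toContinuousLinearMap γ.linear.toLinearMap v + γ 0 :=
      funext (hform γ)
    rw [h1]
    exact (LinearMap.toContinuousLinearMap γ.linear.toLinearMap).hasFDerivAt.add_const _
  refine ⟨fun x => rfl, fun g h x => rfl, ?_, ?_, ?_⟩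
  · intro γ
    have h1 : (fun v : V => (γ : V ≃ᵃ[ℝ] V) v) = fun v =>
        LinearMap.toContinuousLinearMap (γ : V ≃ᵃ[ℝ] V).linear.toLinearMap v + (γ : V ≃ᵃ[ℝ] V) 0 :=
      funext (hform _)
    show ContDiff ℝ ∞ (fun v : V => (γ : V ≃ᵃ[ℝ] V) v)
    rw [h1]
    exact (ContinuousLinearMap.contDiff _).add contDiff_const
  · intro γ v
    rw [(hder (γ : V ≃ᵃ[ℝ] V) v).fderiv]
    have h1 : (LinearMap.toContinuousLinearMap (γ : V ≃ᵃ[ℝ] V).linear.toLinearMap).det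
        = (lin (γ : V ≃ᵃ[ℝ] V)).det := by
      unfold lin
      rw [LinearMap.det_toMatrix']
      rfl
    rw [h1, (GX_B _ (lin_inG Γ h _ γ.2) 0 0).2.2]
    exact one_pos
  · intro K hK
    have := (h.proper K hK).preimage (f := (Subtype.val : Γ → V ≃ᵃ[ℝ] V)) Subtype.val_injective.injOn
    refine this.subset ?_
    intro γ hγ
    exact ⟨γ.2, hγ⟩

theorem affine_cocompact (Γ : Subgroup (V ≃ᵃ[ℝ] V)) (h : Cryst Γ) :
    ∃ K : Set (Fin 7 → ℝ), IsCompact K ∧ ∀ x, ∃ γ : Γ, x ∈ (fun v : Fin 7 → ℝ => (γ : V ≃ᵃ[ℝ] V) v) '' K := by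
  obtain ⟨K, hK, hx⟩ := h.cocompact
  refine ⟨K, hK, fun x => ?_⟩
  obtain ⟨γ, hγ, hxγ⟩ := hx x
  exact ⟨⟨γ, hγ⟩, hxγ⟩

/-- `R_torsion` for the subtype. -/
theorem torsion_bound (Γ : Subgroup (V ≃ᵃ[ℝ] V)) (h : Cryst Γ) :
    ∃ N : ℕ, 0 < N ∧ ∀ γ : Γ, IsOfFinOrder γ → ∃ k, 0 < k ∧ k ≤ N ∧ γ ^ k = 1 := by
  obtain ⟨N, hN, hγ⟩ := R_torsion Γ h
  refine ⟨N, hN, fun γ hfin => ?_⟩
  obtain ⟨k, hk0, hkN, hk⟩ := hγ γ γ.2 (Submonoid.isOfFinOrder_coe.mpr hfin)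
  exact ⟨k, hk0, hkN, Subtype.ext (by simpa using hk)⟩

/-- `D_NZ` for the subtype. -/
theorem csr_of_comm (Γ : Subgroup (V ≃ᵃ[ℝ] V)) (h : Cryst Γ) (α β : Γ) (hc : α * β = β * α)
    (h1 : ¬ IsOfFinOrder α) (h2 : ¬ IsOfFinOrder β) : Csr α β := by
  obtain ⟨m, n, hm, hn, e⟩ := D_NZ Γ h α β α.2 β.2 (by simpa using congrArg Subtype.val hc)
    (fun hh => h1 (Submonoid.isOfFinOrder_coe.mp hh)) (fun hh => h2 (Submonoid.isOfFinOrder_coe.mp hh))
  exact ⟨m, n, hm, hn, Subtype.ext (by simpa using e)⟩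

end C37.PC
end

section

set_option autoImplicit false

open Filter Topology
open scoped ContDiff

namespace C37.PC

/-- Final assembly: there is no crystallographic group with linear part Zariski dense in split G_2. -/
theorem no_cryst_C (Γ : Subgroup (V ≃ᵃ[ℝ] V)) : ¬ Cryst Γ := by
  intro h
  obtain ⟨act, p, s, hpc, hsc, hps, hpm, hsm, hpos, hpe, hK⟩ := GX_model
  have hM : Model act p s := ⟨hpc, hsc, hps, hpm, hsm, hpos, hpe, hK⟩
  obtain ⟨L, hLm, hinj, hL⟩ := exists_L Γ h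
  have hg7 := affine_good Γ h
  have hg8 : GoodAction Γ 8 (fun γ x => act (L γ) x) := model_good hM L hL
  obtain ⟨W, χ, hWs, hWχ, ⟨C, hC, hdW⟩, hne⟩ := A_one 7 (by norm_num) Γ
    (fun (γ : Γ) (v : Fin 7 → ℝ) => (γ : V ≃ᵃ[ℝ] V) v) (fun γ x => act (L γ) x) hg7 hg8
    (affine_cocompact Γ h)
  -- locally constant off the saturation of `C`
  have hloc : ∀ x, x ∉ sat (fun (γ : Γ) => act (L γ)) C → ∀ᶠ y in 𝓝 x, W y = W x := by
    intro x hx
    exact locConst_of_fderiv hg8 hC hWs (fun x hx => hdW x hx) x hx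
  -- part B
  have hΓ' : ∀ K : Set GG, IsCompact K → {γ : GG | γ ∈ L.range ∧ γ ∈ K}.Finite := by
    intro K hK
    refine ((hL K hK).image L).subset ?_
    rintro γ ⟨⟨δ, rfl⟩, hδ⟩
    exact ⟨δ, hδ, rfl⟩
  have hWp : ∀ (γ : Γ) (g : GG), W (p (L γ * g)) = W (p g) + χ γ := by
    intro γ g
    rw [hpm]
    exact hWχ γ (p g)
  obtain ⟨hχ0, c, hB⟩ := B_main L.range hΓ' (fun g => W (p g)) (hWs.continuous.comp hpc)
    (fun g => W (p g) - W (p 1))
    (by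
      rintro γ ⟨δ, rfl⟩ x
      have h1 := hWp δ x
      have h2 := hWp δ 1
      rw [mul_one] at h2
      show W (p (L δ * x)) = W (p x) + (W (p (L δ)) - W (p 1))
      rw [h1, h2]; ring)
    (p ⁻¹' C) (p_preimage_compact hM hC)
    (by
      intro g hg
      have hx : p g ∉ sat (fun (γ : Γ) => act (L γ)) C := by
        rw [mem_sat hg8]
        rintro ⟨γ, hγ⟩
        refine hg (L γ) ⟨γ, rfl⟩ ?_
        show p (L γ * g) ∈ C
        rw [hpm]; exact hγ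
      exact hpc.continuousAt.eventually (hloc (p g) hx))
  have hχ : ∀ γ, χ γ = 0 := by
    intro γ
    have h1 := hχ0 (L γ) ⟨γ, rfl⟩
    have h2 := hWp γ 1
    rw [mul_one] at h2

    linarith
  have hWinv : ∀ (γ : Γ) (x : X), W (act (L γ) x) = W x := by
    intro γ x
    have := hWχ γ x
    rw [hχ γ, add_zero] at this
    exact this
  have hB' : ∀ δ > 0, ∀ O ∈ 𝓝 (1 : GG), ¬ ∃ x : ℕ → GG, (∀ j, ∀ o ∈ O, δ ≤ |W (p (x j * o)) - c|) ∧
      (∀ j k, ∀ o ∈ O, ∀ o' ∈ O, ∀ γ : Γ, L γ * (x j * o) = x k * o' → j = k ∧ γ = 1) := by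
    intro δ hδ O hO
    rintro ⟨x, hx1, hx2⟩
    refine hB δ hδ O hO ⟨x, hx1, ?_⟩
    rintro j k o ho o' ho' γ ⟨γ', rfl⟩ heq
    obtain ⟨h1, h2⟩ := hx2 j k o ho o' ho' γ' heq
    exact ⟨h1, by rw [h2, map_one]⟩
  -- small elements
  obtain ⟨ε, hε0, hε1, hε⟩ := exists_eps L hinj (torsion_bound Γ h)
  have hcs : ∀ (g : GG) (α β : Γ), α ≠ 1 → β ≠ 1 → Small ε g (L α) → Small ε g (L β) → Csr α β :=
    fun g α β hα hβ h1 h2 => csr_of_small L hinj hL (csr_of_comm Γ h) hε0 hε1 hε g α β hα hβ h1 h2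
  obtain ⟨C1, hC1, hthin⟩ := C_thin hM L hL hWinv hC hloc hB' hε0
  -- the topological part
  obtain ⟨Ω, hΩne, hΩ, hΩW, D, hDfin, hD⟩ := C_top hg7 hg8 hC hC1 hWinv hloc c
    (fun C'' hC'' => by
      obtain ⟨x, hx1, hx2⟩ := hne hχ c C'' hC''
      exact ⟨x, hx1, fun ⟨g, hg⟩ => hx2 g hg⟩)
  obtain ⟨α, hα, hαD⟩ := exists_normalised hM L hε hcs hΩne hΩ
    (fun x hx => hthin x (hΩW x hx).2 (hΩW x hx).1) D hD
  exact not_finIdx Γ h D α hα hαD hDfin

end C37.PC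
end
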