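import Pool.Agent.Lib.MP_c37615_al.Mg.G001

section

set_option autoImplicit false

open scoped ContDiff Topology
open MeasureTheory

namespace C37A

/-- `JJ` and `TT` commute with continuous linear maps: `ContinuousLinearMap.integral_comp_comm`, `line_integrable` -/
theorem JJ_clm {m : ℕ} {W W' : Type} [NormedAddCommGroup W] [NormedSpace ℝ W] [CompleteSpace W]
    [NormedAddCommGroup W'] [NormedSpace ℝ W'] [CompleteSpace W'] (i : Fin m) (L : W →L[ℝ] W')
    {F : EE m → W} (hF : Continuous F) (hc : HasCompactSupport F) (x : EE m) :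
    JJ i (fun y => L (F y)) x = L (JJ i F x) := by
  unfold JJ
  exact L.integral_comp_comm (line_integrable i hF hc x).integrableOn

theorem TT_clm {m : ℕ} {W W' : Type} [NormedAddCommGroup W] [NormedSpace ℝ W] [CompleteSpace W]
    [NormedAddCommGroup W'] [NormedSpace ℝ W'] [CompleteSpace W'] (i : Fin m) (L : W →L[ℝ] W')
    {F : EE m → W} (hF : Continuous F) (hc : HasCompactSupport F) (x : EE m) :
    TT i (fun y => L (F y)) x = L (TT i F x) := by
  unfold TT
  exact L.integral_comp_comm (line_integrable i hF hc x)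

theorem JJ_add {m : ℕ} {W : Type} [NormedAddCommGroup W] [NormedSpace ℝ W] (i : Fin m)
    {F F' : EE m → W} (hF : Continuous F) (hc : HasCompactSupport F) (hF' : Continuous F')
    (hc' : HasCompactSupport F') (x : EE m) : JJ i (fun y => F y + F' y) x = JJ i F x + JJ i F' x := by
  unfold JJ
  exact integral_add (line_integrable i hF hc x).integrableOn (line_integrable i hF' hc' x).integrableOn

theorem TT_add {m : ℕ} {W : Type} [NormedAddCommGroup W] [NormedSpace ℝ W] (i : Fin m)
    {F F' : EE m → W} (hF : Continuous F) (hc : HasCompactSupport F) (hF' : Continuous F')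
    (hc' : HasCompactSupport F') (x : EE m) : TT i (fun y => F y + F' y) x = TT i F x + TT i F' x := by
  unfold TT
  exact integral_add (line_integrable i hF hc x) (line_integrable i hF' hc' x)

end C37A
end

section

set_option autoImplicit false

open scoped ContDiff Topology
open MeasureTheory

namespace C37A

private theorem P01_far {m : ℕ} {W : Type} [NormedAddCommGroup W] (i : Fin m)
    {F : EE m → W} (hc : HasCompactSupport F) (x0 : EE m) :
    ∃ M : ℝ, ∀ x ∈ Metric.ball x0 1, ∀ t : ℝ, t ∉ Set.Icc (-M) M → F (x + t • ee i) = 0 := by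
  obtain ⟨R, hR⟩ := hc.isCompact.isBounded.subset_closedBall (0 : EE m)
  refine ⟨R + ‖x0‖ + 1, fun x hx t ht => ?_⟩
  refine image_eq_zero_of_notMem_tsupport fun hy => ht ?_
  have h1 := hR hy
  rw [mem_closedBall_zero_iff] at h1
  have h2 := norm_le_pi_norm (x + t • (ee i : EE m)) i
  have h3 : (ee i : EE m) i = 1 := Pi.single_eq_same i 1
  rw [Pi.add_apply, Pi.smul_apply, h3, smul_eq_mul, mul_one, Real.norm_eq_abs] at h2
  have h4 := norm_le_pi_norm x i
  rw [Real.norm_eq_abs] at h4
  have h5 : ‖x‖ ≤ ‖x0‖ + 1 := by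
    have h6 : ‖x - x0‖ < 1 := by rwa [Metric.mem_ball, dist_eq_norm] at hx
    have h7 : ‖x‖ ≤ ‖x - x0‖ + ‖x0‖ := by
      have := norm_add_le (x - x0) x0
      rwa [sub_add_cancel] at this
    linarith
  have h8 := abs_le.1 (h2.trans h1)
  have h9 := abs_le.1 (h4.trans h5)
  constructor <;> linarith [h8.1, h8.2, h9.1, h9.2]

private theorem P01_int {m : ℕ} {W : Type} [NormedAddCommGroup W] (i : Fin m)
    {F : EE m → W} (hF : Continuous F) (hc : HasCompactSupport F) (x : EE m) :
    Integrable (fun t : ℝ => F (x + t • ee i)) := by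
  obtain ⟨M, hM⟩ := P01_far i hc x
  exact (hF.comp (by fun_prop)).integrable_of_hasCompactSupport
    (HasCompactSupport.intro (isCompact_Icc (a := -M) (b := M))
      (fun t ht => hM x (Metric.mem_ball_self one_pos) t ht))

/-- The integral over the line of a smooth function with compact support. PROOF. For all `n : ℕ` and all `W`, `F` by
induction on `n`: `x ↦ ∫ F (x + t e_i) dt` has the derivative `x ↦ ∫ (fderiv ℝ F) (x + t e_i) dt`
(`hasFDerivAt_integral_of_dominated_of_fderiv_le`: near a point `x0` the integrands vanish for `t` outside a fixed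
bounded interval and are bounded), which is of the same form with `fderiv ℝ F` (smooth, compact support,
`HasCompactSupport.fderiv`). -/
theorem TT_fderiv {m : ℕ} {W : Type} [NormedAddCommGroup W] [NormedSpace ℝ W] [CompleteSpace W] (i : Fin m)
    {F : EE m → W} (hF : ContDiff ℝ ∞ F) (hc : HasCompactSupport F) (x : EE m) :
    HasFDerivAt (TT i F) (TT i (fderiv ℝ F) x) x := by
  have hd : Differentiable ℝ F := hF.differentiable (by simp)
  have hF' : Continuous (fderiv ℝ F) := hF.continuous_fderiv (by simp)
  have hc' : HasCompactSupport (fderiv ℝ F) := hc.fderiv ℝ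
  obtain ⟨M, hM⟩ := P01_far i hc' x
  obtain ⟨C, hC⟩ := hF'.bounded_above_of_compact_support hc'
  refine hasFDerivAt_integral_of_dominated_of_fderiv_le
    (F := fun (y : EE m) (t : ℝ) => F (y + t • ee i))
    (F' := fun (y : EE m) (t : ℝ) => fderiv ℝ F (y + t • ee i))
    (bound := (Set.Icc (-M) M).indicator fun _ => C)
    (s := Metric.ball x 1) (Metric.ball_mem_nhds x one_pos) ?_ (P01_int i hF.continuous hc x)
    (P01_int i hF' hc' x).aestronglyMeasurable ?_ ?_ ?_
  · exact Filter.Eventually.of_forall fun y =>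
      (P01_int i hF.continuous hc y).aestronglyMeasurable
  · refine Filter.Eventually.of_forall fun t y hy => ?_
    by_cases ht : t ∈ Set.Icc (-M) M
    · rw [Set.indicator_of_mem ht]
      exact hC _
    · rw [Set.indicator_of_notMem ht, hM y hy t ht, norm_zero]
  · exact (continuousOn_const.integrableOn_Icc).integrable_indicator measurableSet_Icc
  · refine Filter.Eventually.of_forall fun t y _ => ?_
    exact (hasFDerivAt_comp_add_right _).2 (hd _).hasFDerivAt

theorem TT_contDiff {m : ℕ} {W : Type} [NormedAddCommGroup W] [NormedSpace ℝ W] [CompleteSpace W] (i : Fin m)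
    {F : EE m → W} (hF : ContDiff ℝ ∞ F) (hc : HasCompactSupport F) : ContDiff ℝ ∞ (TT i F) := by
  have key : ∀ (n : ℕ) (W : Type) [NormedAddCommGroup W] [NormedSpace ℝ W] [CompleteSpace W]
      (F : EE m → W), ContDiff ℝ ∞ F → HasCompactSupport F → ContDiff ℝ n (TT i F) := by
    intro n
    induction n with
    | zero =>
      intro W _ _ _ F hF hc
      rw [Nat.cast_zero, contDiff_zero, continuous_iff_continuousAt]
      exact fun x => (TT_fderiv i hF hc x).continuousAt
    | succ n ih =>
      intro W _ _ _ F hF hc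
      have h1 : fderiv ℝ (TT i F) = TT i (fderiv ℝ F) :=
        funext fun x => (TT_fderiv i hF hc x).fderiv
      rw [Nat.cast_succ, contDiff_succ_iff_fderiv, h1]
      exact ⟨fun x => (TT_fderiv i hF hc x).differentiableAt,
        fun h => absurd h (by simp), ih _ _ (hF.fderiv_right (by simp)) (hc.fderiv ℝ)⟩
  rw [contDiff_infty]
  exact fun n => key n W F hF hc

end C37A
end

section

set_option autoImplicit false

open scoped ContDiff Topology
open MeasureTheory

namespace C37A

private theorem P02_far {m : ℕ} {W : Type} [NormedAddCommGroup W] (i : Fin m)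
    {F : EE m → W} (hc : HasCompactSupport F) (x0 : EE m) :
    ∃ M : ℝ, ∀ x ∈ Metric.ball x0 1, ∀ t : ℝ, t ∉ Set.Icc (-M) M → F (x + t • ee i) = 0 := by
  obtain ⟨R, hR⟩ := hc.isCompact.isBounded.subset_closedBall (0 : EE m)
  refine ⟨R + ‖x0‖ + 1, fun x hx t ht => ?_⟩
  refine image_eq_zero_of_notMem_tsupport fun hy => ht ?_
  have h1 := hR hy
  rw [mem_closedBall_zero_iff] at h1
  have h2 := norm_le_pi_norm (x + t • (ee i : EE m)) i
  have h3 : (ee i : EE m) i = 1 := Pi.single_eq_same i 1
  rw [Pi.add_apply, Pi.smul_apply, h3, smul_eq_mul, mul_one, Real.norm_eq_abs] at h2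
  have h4 := norm_le_pi_norm x i
  rw [Real.norm_eq_abs] at h4
  have h5 : ‖x‖ ≤ ‖x0‖ + 1 := by
    have h6 : ‖x - x0‖ < 1 := by rwa [Metric.mem_ball, dist_eq_norm] at hx
    have h7 : ‖x‖ ≤ ‖x - x0‖ + ‖x0‖ := by
      have := norm_add_le (x - x0) x0
      rwa [sub_add_cancel] at this
    linarith
  have h8 := abs_le.1 (h2.trans h1)
  have h9 := abs_le.1 (h4.trans h5)
  constructor <;> linarith [h8.1, h8.2, h9.1, h9.2]

private theorem P02_int {m : ℕ} {W : Type} [NormedAddCommGroup W] (i : Fin m)
    {F : EE m → W} (hF : Continuous F) (hc : HasCompactSupport F) (x : EE m) :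
    Integrable (fun t : ℝ => F (x + t • ee i)) := by
  obtain ⟨M, hM⟩ := P02_far i hc x
  exact (hF.comp (by fun_prop)).integrable_of_hasCompactSupport
    (HasCompactSupport.intro (isCompact_Icc (a := -M) (b := M))
      (fun t ht => hM x (Metric.mem_ball_self one_pos) t ht))

/-- The integral over a half line of a smooth function with compact support, same proof as for `TT` (file P01). -/
theorem JJ_fderiv {m : ℕ} {W : Type} [NormedAddCommGroup W] [NormedSpace ℝ W] [CompleteSpace W] (i : Fin m)
    {F : EE m → W} (hF : ContDiff ℝ ∞ F) (hc : HasCompactSupport F) (x : EE m) :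
    HasFDerivAt (JJ i F) (JJ i (fderiv ℝ F) x) x := by
  have hd : Differentiable ℝ F := hF.differentiable (by simp)
  have hF' : Continuous (fderiv ℝ F) := hF.continuous_fderiv (by simp)
  have hc' : HasCompactSupport (fderiv ℝ F) := hc.fderiv ℝ
  obtain ⟨M, hM⟩ := P02_far i hc' x
  obtain ⟨C, hC⟩ := hF'.bounded_above_of_compact_support hc'
  refine hasFDerivAt_integral_of_dominated_of_fderiv_le (μ := volume.restrict (Set.Iic (0 : ℝ)))
    (F := fun (y : EE m) (t : ℝ) => F (y + t • ee i))
    (F' := fun (y : EE m) (t : ℝ) => fderiv ℝ F (y + t • ee i))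
    (bound := (Set.Icc (-M) M).indicator fun _ => C)
    (s := Metric.ball x 1) (Metric.ball_mem_nhds x one_pos) ?_ (P02_int i hF.continuous hc x).integrableOn
    (P02_int i hF' hc' x).integrableOn.aestronglyMeasurable ?_ ?_ ?_
  · exact Filter.Eventually.of_forall fun y =>
      (P02_int i hF.continuous hc y).integrableOn.aestronglyMeasurable
  · refine Filter.Eventually.of_forall fun t y hy => ?_
    by_cases ht : t ∈ Set.Icc (-M) M
    · rw [Set.indicator_of_mem ht]
      exact hC _
    · rw [Set.indicator_of_notMem ht, hM y hy t ht, norm_zero]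
  · exact (continuousOn_const.integrableOn_Icc).integrable_indicator measurableSet_Icc |>.integrableOn
  · refine Filter.Eventually.of_forall fun t y _ => ?_
    exact (hasFDerivAt_comp_add_right _).2 (hd _).hasFDerivAt

theorem JJ_contDiff {m : ℕ} {W : Type} [NormedAddCommGroup W] [NormedSpace ℝ W] [CompleteSpace W] (i : Fin m)
    {F : EE m → W} (hF : ContDiff ℝ ∞ F) (hc : HasCompactSupport F) : ContDiff ℝ ∞ (JJ i F) := by
  have key : ∀ (n : ℕ) (W : Type) [NormedAddCommGroup W] [NormedSpace ℝ W] [CompleteSpace W]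
      (F : EE m → W), ContDiff ℝ ∞ F → HasCompactSupport F → ContDiff ℝ n (JJ i F) := by
    intro n
    induction n with
    | zero =>
      intro W _ _ _ F hF hc
      rw [Nat.cast_zero, contDiff_zero, continuous_iff_continuousAt]
      exact fun x => (JJ_fderiv i hF hc x).continuousAt
    | succ n ih =>
      intro W _ _ _ F hF hc
      have h1 : fderiv ℝ (JJ i F) = JJ i (fderiv ℝ F) :=
        funext fun x => (JJ_fderiv i hF hc x).fderiv
      rw [Nat.cast_succ, contDiff_succ_iff_fderiv, h1]
      exact ⟨fun x => (JJ_fderiv i hF hc x).differentiableAt,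
        fun h => absurd h (by simp), ih _ _ (hF.fderiv_right (by simp)) (hc.fderiv ℝ)⟩
  rw [contDiff_infty]
  exact fun n => key n W F hF hc

end C37A
end

section

set_option autoImplicit false

open scoped ContDiff Topology
open MeasureTheory

namespace C37A

/-- the primitive of the bump function: derivative `ρ` (`HasDerivAt` of `s ↦ ∫_{Iic s} ρ`), smooth -/
theorem bump_prim {ρ : ℝ → ℝ} (hρ : Bump ρ) : ContDiff ℝ ∞ (fun s : ℝ => ∫ t in Set.Iic s, ρ t) ∧
    ∀ s, HasDerivAt (fun s : ℝ => ∫ t in Set.Iic s, ρ t) (ρ s) s := by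
  have hint : Integrable ρ := hρ.smooth.continuous.integrable_of_hasCompactSupport hρ.supp
  have hd : ∀ s, HasDerivAt (fun s : ℝ => ∫ t in Set.Iic s, ρ t) (ρ s) s := by
    intro s
    have h1 : (fun s : ℝ => ∫ t in Set.Iic s, ρ t) =
        fun s : ℝ => (∫ t in (0 : ℝ)..s, ρ t) + ∫ t in Set.Iic (0 : ℝ), ρ t := by
      funext u
      rw [← intervalIntegral.integral_Iic_sub_Iic hint.integrableOn hint.integrableOn,
        sub_add_cancel]
    rw [h1]
    exact (intervalIntegral.integral_hasDerivAt_right
      (hρ.smooth.continuous.intervalIntegrable _ _)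
      hρ.smooth.continuous.aestronglyMeasurable.stronglyMeasurableAtFilter
      hρ.smooth.continuous.continuousAt).add_const _
  refine ⟨?_, hd⟩
  rw [contDiff_infty_iff_deriv]
  refine ⟨fun s => (hd s).differentiableAt, ?_⟩
  have h2 : deriv (fun s : ℝ => ∫ t in Set.Iic s, ρ t) = ρ := funext fun s => (hd s).deriv
  rw [h2]
  exact hρ.smooth

/-- a bump function exists: `ContDiffBump` normalised -/
theorem exists_bump : ∃ ρ : ℝ → ℝ, Bump ρ := by
  let f : ContDiffBump (0 : ℝ) := ⟨1, 2, one_pos, one_lt_two⟩
  exact ⟨f.normed volume, f.contDiff_normed, f.hasCompactSupport_normed, f.integral_normed⟩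

/-- `GGo` preserves smooth functions with compact support. PROOF of the compact support: let `F` vanish outside
`{|x_j| ≤ R ∀ j}` and `ρ` outside `[-R, R]`. If `|x_j| > R` for some `j ≠ i` all values `F (x + t e_i)` are zero. If
`x_i < -R` then `JJ i F x = 0` (`x + t e_i`, `t ≤ 0`, has `i`-th coordinate `< -R`) and `∫_{Iic x_i} ρ = 0`. If `x_i > R`
then `JJ i F x = TT i F x` and `∫_{Iic x_i} ρ = 1`. -/
theorem GGo_smooth {m : ℕ} {W : Type} [NormedAddCommGroup W] [NormedSpace ℝ W] [CompleteSpace W] {ρ : ℝ → ℝ}
    (hρ : Bump ρ) (i : Fin m) {F : EE m → W} (hF : ContDiff ℝ ∞ F) (hc : HasCompactSupport F) :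
    ContDiff ℝ ∞ (GGo ρ i F) ∧ HasCompactSupport (GGo ρ i F) := by
  constructor
  · have h1 : ContDiff ℝ ∞ (fun x : EE m => ∫ t in Set.Iic (x i), ρ t) :=
      (bump_prim hρ).1.comp (contDiff_apply ℝ ℝ i)
    exact (JJ_contDiff i hF hc).sub (h1.smul (TT_contDiff i hF hc))
  · obtain ⟨R1, hR1⟩ := hc.isCompact.isBounded.subset_closedBall (0 : EE m)
    obtain ⟨R2, hR2⟩ := hρ.supp.isCompact.isBounded.subset_closedBall (0 : ℝ)
    have hFz : ∀ y : EE m, ∀ j, max R1 R2 < |y j| → F y = 0 := by
      intro y j hj
      refine image_eq_zero_of_notMem_tsupport fun hy => ?_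
      have h1 := hR1 hy
      rw [mem_closedBall_zero_iff] at h1
      have h2 := norm_le_pi_norm y j
      rw [Real.norm_eq_abs] at h2
      exact absurd (hj.trans_le (h2.trans h1)) (not_lt.2 (le_max_left _ _))
    have hρz : ∀ u : ℝ, max R1 R2 < |u| → ρ u = 0 := by
      intro u hu
      refine image_eq_zero_of_notMem_tsupport fun hy => ?_
      have h1 := hR2 hy
      rw [mem_closedBall_zero_iff, Real.norm_eq_abs] at h1
      exact absurd (hu.trans_le h1) (not_lt.2 (le_max_right _ _))
    refine HasCompactSupport.intro (isCompact_closedBall (0 : EE m) (max (max R1 R2) 0))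
      fun x hx => ?_
    have hx' : ∃ j, max R1 R2 < |x j| := by
      by_contra hno
      push Not at hno
      apply hx
      rw [mem_closedBall_zero_iff]
      exact (pi_norm_le_iff_of_nonneg (le_max_right _ _)).2
        fun j => (hno j).trans (le_max_left _ _)
    have hadd : ∀ (t : ℝ) (j : Fin m), j ≠ i → (x + t • (ee i : EE m)) j = x j := by
      intro t j hj
      have h3 : (ee i : EE m) j = 0 := Pi.single_eq_of_ne hj 1
      rw [Pi.add_apply, Pi.smul_apply, h3, smul_zero, add_zero]
    have haddi : ∀ t : ℝ, (x + t • (ee i : EE m)) i = x i + t := by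
      intro t
      have h3 : (ee i : EE m) i = 1 := Pi.single_eq_same i 1
      rw [Pi.add_apply, Pi.smul_apply, h3, smul_eq_mul, mul_one]
    change (∫ t in Set.Iic (0 : ℝ), F (x + t • ee i)) -
      (∫ s in Set.Iic (x i), ρ s) • (∫ t : ℝ, F (x + t • ee i)) = 0
    obtain ⟨j, hj⟩ := hx'
    by_cases hji : j = i
    · subst hji
      rcases lt_or_ge (x j) 0 with hneg | hpos
      · rw [abs_of_neg hneg] at hj
        have e1 : (∫ t in Set.Iic (0 : ℝ), F (x + t • ee j)) = 0 := by
          refine setIntegral_eq_zero_of_forall_eq_zero fun t ht => hFz _ j ?_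
          rw [haddi]
          have ht' : t ≤ 0 := ht
          rw [abs_of_neg (by linarith)]
          linarith
        have e2 : (∫ s in Set.Iic (x j), ρ s) = 0 := by
          refine setIntegral_eq_zero_of_forall_eq_zero fun s hs => hρz _ ?_
          have hs' : s ≤ x j := hs
          rw [abs_of_neg (by linarith)]
          linarith
        rw [e1, e2, zero_smul, sub_zero]
      · rw [abs_of_nonneg hpos] at hj
        have e1 : (∫ t in Set.Iic (0 : ℝ), F (x + t • ee j)) = ∫ t : ℝ, F (x + t • ee j) := by
          refine setIntegral_eq_integral_of_forall_compl_eq_zero fun t ht => hFz _ j ?_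
          rw [haddi]
          have ht' : 0 < t := not_le.1 ht
          rw [abs_of_nonneg (by linarith)]
          linarith
        have e2 : (∫ s in Set.Iic (x j), ρ s) = 1 := by
          rw [← hρ.int]
          refine setIntegral_eq_integral_of_forall_compl_eq_zero fun s hs => hρz _ ?_
          have hs' : x j < s := not_le.1 hs
          rw [abs_of_nonneg (by linarith)]
          linarith
        rw [e1, e2, one_smul, sub_self]
    · have hz : ∀ t : ℝ, F (x + t • ee i) = 0 := fun t => hFz _ j (by rw [hadd t j hji]; exact hj)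
      simp only [hz, integral_zero, smul_zero, sub_zero]

end C37A
end

section

set_option autoImplicit false

open scoped ContDiff Topology
open MeasureTheory

namespace C37A

/-- `wd i β v = ∑ a, (-1)^a * v a i * β (v without v a)` -/
theorem wd_apply {m k : ℕ} (i : Fin m) (β : Alt m k) (v : Fin (k + 1) → EE m) :
    wd i β v = ∑ a : Fin (k + 1), (-1 : ℝ) ^ (a : ℕ) * (v a i * β (a.removeNth v)) := by
  unfold wd
  rw [ContinuousAlternatingMap.alternatizeUncurryFin_apply]
  apply Finset.sum_congr rfl
  intro a _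
  simp

/-- `RRo ρ i w` is divisible by `dx_i` (`wd_apply`) -/
theorem dvd_RRo_self {m k : ℕ} (ρ : ℝ → ℝ) (i : Fin m) (w : Frm m (k + 1)) : Dvd i (RRo ρ i w) := by
  intro x v hv
  show ρ (x i) • wd i (TT i (io i w) x) v = 0
  rw [wd_apply]
  simp [hv]

/-- `RRo ρ i` preserves divisibility by `dx_j`, `j ≠ i`: if all `v a j = 0` then `TT i (io i w) x (v without v_a)` is the
integral of `w (x + t e_i) (e_i, v without v_a) = 0` (evaluation is a continuous linear map; if the integral of forms is not
convergent it is `0` anyway, so no hypothesis on `w` is needed — but you may use `IsOm w`) -/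
theorem dvd_RRo {m k : ℕ} (ρ : ℝ → ℝ) {i j : Fin m} (hij : i ≠ j) {w : Frm m (k + 1)} (hw : IsOm w)
    (hj : Dvd j w) : Dvd j (RRo ρ i w) := by
  intro x v hv
  show ρ (x i) • wd i (TT i (io i w) x) v = 0
  rw [wd_apply]
  have h1 : ∀ a : Fin (k + 1), TT i (io i w) x (a.removeNth v) = 0 := by
    intro a
    unfold TT
    by_cases hint : Integrable (fun t : ℝ => io i w (x + t • ee i))
    · have h2 := (ContinuousAlternatingMap.toContinuousMultilinearMapCLM (𝕜 := ℝ) (E := EE m) (F := ℝ)
        (ι := Fin k) ℝ).integral_comp_comm hint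
      have h3 := (ContinuousMultilinearMap.apply ℝ (fun _ : Fin k => EE m) ℝ (a.removeNth v)).integral_comp_comm
        ((ContinuousAlternatingMap.toContinuousMultilinearMapCLM (𝕜 := ℝ) (E := EE m) (F := ℝ)
        (ι := Fin k) ℝ).integrable_comp hint)
      have h4 : (∫ t : ℝ, io i w (x + t • ee i)) (a.removeNth v) =
          ∫ t : ℝ, io i w (x + t • ee i) (a.removeNth v) := by
        rw [h2] at h3
        exact h3.symm
      rw [h4]
      have h5 : ∀ t : ℝ, io i w (x + t • ee i) (a.removeNth v) = 0 := by
        intro t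
        show w (x + t • ee i) (Matrix.vecCons (ee i) (a.removeNth v)) = 0
        apply hj
        intro b
        refine Fin.cases ?_ (fun b => ?_) b
        · simp [ee, Pi.single_apply, hij.symm]
        · simp [Fin.removeNth, hv]
      simp [h5]
    · rw [integral_undef hint]
      rfl
  simp [h1]

/-- a form of degree `k < m` divisible by all `dx_i` is zero: on basis vectors `e_{v 0}, .., e_{v (k-1)}` some index `i` is
missing (`alt_ext`) -/
theorem dvd_all {m k : ℕ} (hk : k < m) {w : Frm m k} (hw : ∀ i, Dvd i w) : w = 0 := by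
  funext x
  apply alt_ext
  intro v
  have h1 : ∃ i : Fin m, ∀ a, v a ≠ i := by
    by_contra hcon
    push Not at hcon
    have h2 : Function.Surjective v := fun i => hcon i
    have h3 := Fintype.card_le_of_surjective v h2
    simp at h3
    omega
  obtain ⟨i, hi⟩ := h1
  rw [hw i x (fun a => ee (v a)) (by
    intro a
    simp [ee, Pi.single_apply, (hi a).symm])]
  rfl

end C37A
end
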